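import Mathlib

/- Helper24.K6w.H22.Marshall.Parseval -/
section
/-!
Parseval's identity for power series on circles.
-/

set_option autoImplicit false

open MeasureTheory Set Metric Filter Topology
open scoped ENNReal NNReal Real

namespace Pool.Agent.Helper22.Marshall

theorem integral_exp_int (n : ℤ) (hn : n ≠ 0) :
    ∫ θ in (-π)..π, Complex.exp ((n : ℂ) * (θ : ℂ) * Complex.I) = 0 := by
  have h1 : ∀ θ : ℝ, (n : ℂ) * (θ : ℂ) * Complex.I = (n : ℂ) * Complex.I * (θ : ℂ) := by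
    intro θ; ring
  simp_rw [h1]
  have hne : (n : ℂ) * Complex.I ≠ 0 :=
    mul_ne_zero (Int.cast_ne_zero.mpr hn) Complex.I_ne_zero
  rw [integral_exp_mul_complex hne]
  have h2 : Complex.exp ((n : ℂ) * Complex.I * ((π : ℝ) : ℂ))
      = Complex.exp ((n : ℂ) * Complex.I * ((-π : ℝ) : ℂ)) := by
    rw [Complex.exp_eq_exp_iff_exists_int]
    refine ⟨n, ?_⟩
    push_cast
    ring
  rw [h2, sub_self, zero_div]

theorem hasSum_mul_aux (F G : ℕ → ℂ) (s t : ℂ) (h0 : HasSum F s) (h1 : HasSum G t)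
    (h : Summable fun n => ‖F n‖) (h2 : Summable fun n => ‖G n‖) :
    HasSum (fun p : ℕ × ℕ => F p.1 * G p.2) (s * t) :=
  h0.mul h1 (summable_mul_of_summable_norm h h2)

theorem parseval_aux (c : ℕ → ℂ) (r : ℝ) (hr : 0 ≤ r)
    (hs : Summable fun n => ‖c n‖ * r ^ n) (f : ℝ → ℂ)
    (hf : ∀ θ : ℝ, HasSum (fun n => c n * ((r : ℂ) * Complex.exp (θ * Complex.I)) ^ n) (f θ)) :
    HasSum (fun n => ‖c n‖ ^ 2 * r ^ (2 * n)) ((1 / (2 * π)) * ∫ θ in (-π)..π, ‖f θ‖ ^ 2) := by
  obtain ⟨F, hF⟩ : ∃ F : ℕ → ℝ → ℂ,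
    F = fun (n : ℕ) (θ : ℝ) => c n * ((r : ℂ) * Complex.exp ((θ : ℂ) * Complex.I)) ^ n :=
    ⟨_, rfl⟩
  have hnormF : ∀ n θ, ‖F n θ‖ = ‖c n‖ * r ^ n := by
    intro n θ
    simp only [hF, norm_mul, norm_pow, Complex.norm_exp_ofReal_mul_I, mul_one]
    rw [Complex.norm_real, Real.norm_of_nonneg hr]
  have hsn : ∀ θ, Summable fun n => ‖F n θ‖ := by
    intro θ
    simp_rw [hnormF]
    exact hs
  have hprod : ∀ θ, HasSum (fun p : ℕ × ℕ => F p.1 θ * (starRingEnd ℂ) (F p.2 θ))
      (f θ * (starRingEnd ℂ) (f θ)) := by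
    intro θ
    have h1 : HasSum (fun n => (starRingEnd ℂ) (F n θ)) ((starRingEnd ℂ) (f θ)) := by
      have := (hf θ).map (starRingEnd ℂ) Complex.continuous_conj
      rw [hF]
      exact this
    have h0 : HasSum (fun n => F n θ) (f θ) := by
      rw [hF]
      exact hf θ
    have h2 : Summable fun n => ‖(starRingEnd ℂ) (F n θ)‖ := by
      simp_rw [Complex.norm_conj]
      exact hsn θ
    exact hasSum_mul_aux (fun n => F n θ) (fun n => (starRingEnd ℂ) (F n θ)) _ _ h0 h1 (hsn θ) h2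

  have hFc : ∀ n, Continuous (F n) := by
    intro n
    simp only [hF]
    fun_prop
  have hint : HasSum (fun p : ℕ × ℕ => ∫ θ in (-π)..π, F p.1 θ * (starRingEnd ℂ) (F p.2 θ))
      (∫ θ in (-π)..π, f θ * (starRingEnd ℂ) (f θ)) := by
    have hpi : (-π : ℝ) ≤ π := by (clear * -; linarith only [Real.pi_pos])
    have key : ∀ g : ℝ → ℂ, ∫ θ in (-π)..π, g θ = ∫ θ in Ioc (-π) π, g θ := fun g =>
      intervalIntegral.integral_of_le hpi
    simp_rw [key]
    have h2 := hasSum_integral_of_summable_integral_norm (μ := volume.restrict (Ioc (-π) π))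
      (F := fun (p : ℕ × ℕ) (θ : ℝ) => F p.1 θ * (starRingEnd ℂ) (F p.2 θ)) ?_ ?_
    · have h3 : (fun θ => ∑' p : ℕ × ℕ, F p.1 θ * (starRingEnd ℂ) (F p.2 θ))
          = fun θ => f θ * (starRingEnd ℂ) (f θ) := by
        funext θ
        exact (hprod θ).tsum_eq
      rw [h3] at h2
      exact h2
    · intro p
      apply Continuous.integrableOn_Ioc
      exact (hFc p.1).mul (Complex.continuous_conj.comp (hFc p.2))
    · have h4 : ∀ p : ℕ × ℕ, ∫ θ in Ioc (-π) π, ‖F p.1 θ * (starRingEnd ℂ) (F p.2 θ)‖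
          = (2 * π) * ((‖c p.1‖ * r ^ p.1) * (‖c p.2‖ * r ^ p.2)) := by
        intro p
        have : ∀ θ, ‖F p.1 θ * (starRingEnd ℂ) (F p.2 θ)‖
            = (‖c p.1‖ * r ^ p.1) * (‖c p.2‖ * r ^ p.2) := by
          intro θ
          rw [norm_mul, Complex.norm_conj, hnormF, hnormF]
        simp_rw [this]
        rw [setIntegral_const]
        simp only [smul_eq_mul]
        rw [Real.volume_real_Ioc_of_le hpi]
        ring
      simp_rw [h4]
      apply Summable.mul_left
      exact summable_mul_of_summable_norm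
        (f := fun n => ‖c n‖ * r ^ n) (g := fun n => ‖c n‖ * r ^ n)
        (by simpa [abs_of_nonneg hr] using hs) (by simpa [abs_of_nonneg hr] using hs)
  -- compute the integrals
  have hval : ∀ p : ℕ × ℕ, ∫ θ in (-π)..π, F p.1 θ * (starRingEnd ℂ) (F p.2 θ)
      = if p.1 = p.2 then ((2 * π * (‖c p.1‖ ^ 2 * r ^ (2 * p.1)) : ℝ) : ℂ) else 0 := by
    rintro ⟨m, n⟩
    have h5 : ∀ θ : ℝ, F m θ * (starRingEnd ℂ) (F n θ)
        = (c m * (starRingEnd ℂ) (c n) * (r : ℂ) ^ (m + n)) *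
          Complex.exp (((m : ℤ) - (n : ℤ) : ℤ) * (θ : ℂ) * Complex.I) := by
      intro θ
      simp only [hF, map_mul, map_pow, Complex.conj_ofReal]
      rw [← Complex.exp_conj]
      simp only [map_mul, Complex.conj_ofReal, Complex.conj_I]
      rw [mul_pow, mul_pow, ← Complex.exp_nat_mul, ← Complex.exp_nat_mul]
      have : Complex.exp (((m : ℤ) - (n : ℤ) : ℤ) * (θ : ℂ) * Complex.I)
          = Complex.exp ((m : ℂ) * ((θ : ℂ) * Complex.I))
            * Complex.exp ((n : ℂ) * ((θ : ℂ) * -Complex.I)) := by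
        rw [← Complex.exp_add]
        congr 1
        push_cast
        ring
      rw [this]
      ring
    simp only
    simp_rw [h5]
    rw [intervalIntegral.integral_const_mul]
    by_cases hmn : m = n
    · subst hmn
      rw [if_pos rfl]
      simp only [sub_self, Int.cast_zero, zero_mul, Complex.exp_zero]
      rw [intervalIntegral.integral_const, Complex.mul_conj, Complex.normSq_eq_norm_sq]
      simp only [sub_neg_eq_add, Complex.real_smul, mul_one]
      push_cast
      ring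
    · rw [if_neg hmn, integral_exp_int _ (sub_ne_zero.mpr (by exact_mod_cast hmn)), mul_zero]
  simp_rw [hval] at hint
  -- restrict to the diagonal
  have hdiag : HasSum (fun n : ℕ => ((2 * π * (‖c n‖ ^ 2 * r ^ (2 * n)) : ℝ) : ℂ))
      (∫ θ in (-π)..π, f θ * (starRingEnd ℂ) (f θ)) := by
    have hinj : Function.Injective (fun n : ℕ => (n, n)) := by
      intro a b h
      exact (Prod.mk.inj h).1
    have := (hinj.hasSum_iff (f := fun p : ℕ × ℕ =>
      if p.1 = p.2 then ((2 * π * (‖c p.1‖ ^ 2 * r ^ (2 * p.1)) : ℝ) : ℂ) else 0)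
      (a := ∫ θ in (-π)..π, f θ * (starRingEnd ℂ) (f θ)) ?_).mpr hint
    · simpa [Function.comp_def] using this
    · rintro ⟨a, b⟩ hab
      rw [if_neg]
      intro h
      apply hab
      refine ⟨a, ?_⟩
      simp only [Prod.mk.injEq, true_and]
      exact h
  have hreal : (∫ θ in (-π)..π, f θ * (starRingEnd ℂ) (f θ))
      = ((∫ θ in (-π)..π, ‖f θ‖ ^ 2 : ℝ) : ℂ) := by
    rw [← intervalIntegral.integral_ofReal]
    congr 1
    funext θ
    rw [Complex.mul_conj, Complex.normSq_eq_norm_sq]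
  rw [hreal] at hdiag
  have h6 := Complex.hasSum_ofReal.mp hdiag
  have h7 := h6.mul_left (1 / (2 * π))
  have hpi := Real.pi_pos
  have h8 : (fun n => ‖c n‖ ^ 2 * r ^ (2 * n))
      = fun n => 1 / (2 * π) * (2 * π * (‖c n‖ ^ 2 * r ^ (2 * n))) := by
    funext n
    (clear * -; field_simp)
  rw [h8]
  exact h7

end Pool.Agent.Helper22.Marshall
end

/- Helper24.K6w.H22.Marshall.Coeff -/
section
/-!
Taylor coefficients of holomorphic functions on the unit disc, and Parseval's identity.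
-/

set_option autoImplicit false

open MeasureTheory Set Metric Filter Topology
open scoped ENNReal NNReal Real Nat

namespace Pool.Agent.Helper22.Marshall

/-- Taylor coefficient at zero. -/
noncomputable def coeff (f : ℂ → ℂ) (n : ℕ) : ℂ := (n ! : ℂ)⁻¹ * iteratedDeriv n f 0

theorem coeff_zero (f : ℂ → ℂ) : coeff f 0 = f 0 := by simp [coeff]

theorem coeff_one (f : ℂ → ℂ) : coeff f 1 = deriv f 0 := by simp [coeff]

theorem hasSum_coeff {f : ℂ → ℂ} (hf : DifferentiableOn ℂ f (ball 0 1)) {z : ℂ}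
    (hz : ‖z‖ < 1) : HasSum (fun n => coeff f n * z ^ n) (f z) := by
  have h := Complex.hasSum_taylorSeries_on_ball (c := 0) (r := 1) (z := z) hf (by simpa using hz)
  have : (fun n => coeff f n * z ^ n)
      = fun n : ℕ => (n ! : ℂ)⁻¹ • (z - 0) ^ n • iteratedDeriv n f 0 := by
    funext n
    simp only [coeff, smul_eq_mul, sub_zero]
    ring
  rw [this]
  exact h

theorem coeff_deriv (f : ℂ → ℂ) (n : ℕ) :
    coeff (deriv f) n = ((n : ℂ) + 1) * coeff f (n + 1) := by
  simp only [coeff, Nat.factorial_succ, Nat.cast_mul, Nat.cast_succ]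
  rw [iteratedDeriv_succ']
  have h1 : ((n : ℂ) + 1) ≠ 0 := Nat.cast_add_one_ne_zero n
  have h2 : ((n ! : ℕ) : ℂ) ≠ 0 := Nat.cast_ne_zero.mpr (Nat.factorial_ne_zero n)
  (clear * - h1 h2; field_simp)

theorem differentiableOn_deriv {f : ℂ → ℂ} (hf : DifferentiableOn ℂ f (ball 0 1)) :
    DifferentiableOn ℂ (deriv f) (ball 0 1) := hf.deriv isOpen_ball

theorem hasSum_coeff_deriv {f : ℂ → ℂ} (hf : DifferentiableOn ℂ f (ball 0 1)) {z : ℂ}
    (hz : ‖z‖ < 1) : HasSum (fun n : ℕ => (n : ℂ) * coeff f n * z ^ n) (z * deriv f z) := by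
  have h := (hasSum_coeff (differentiableOn_deriv hf) hz).mul_left z
  have h2 : HasSum (fun n : ℕ => ((n + 1 : ℕ) : ℂ) * coeff f (n + 1) * z ^ (n + 1))
      (z * deriv f z) := by
    have : (fun n : ℕ => ((n + 1 : ℕ) : ℂ) * coeff f (n + 1) * z ^ (n + 1))
        = fun n => z * (coeff (deriv f) n * z ^ n) := by
      funext n
      rw [coeff_deriv]
      push_cast
      ring
    rw [this]
    exact h
  rw [← hasSum_nat_add_iff' 1]
  simpa using h2

theorem parseval_comb {f : ℂ → ℂ} (hf : DifferentiableOn ℂ f (ball 0 1)) (α β : ℂ) {r : ℝ}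
    (hr : 0 ≤ r) (hr1 : r < 1) :
    HasSum (fun n : ℕ => ‖(α * n + β) * coeff f n‖ ^ 2 * r ^ (2 * n))
      ((1 / (2 * π)) * ∫ θ in (-π)..π,
        ‖α * (((r : ℂ) * Complex.exp ((θ : ℂ) * Complex.I)) *
          deriv f ((r : ℂ) * Complex.exp ((θ : ℂ) * Complex.I)))
          + β * f ((r : ℂ) * Complex.exp ((θ : ℂ) * Complex.I))‖ ^ 2) := by
  have hsum : ∀ z : ℂ, ‖z‖ < 1 → HasSum (fun n : ℕ => (α * n + β) * coeff f n * z ^ n)
      (α * (z * deriv f z) + β * f z) := by
    intro z hz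
    have h1 := (hasSum_coeff_deriv hf hz).mul_left α
    have h2 := (hasSum_coeff hf hz).mul_left β
    have h3 := h1.add h2
    have : (fun n : ℕ => (α * n + β) * coeff f n * z ^ n)
        = fun n : ℕ => α * ((n : ℂ) * coeff f n * z ^ n) + β * (coeff f n * z ^ n) := by
      funext n
      ring
    rw [this]
    exact h3
  have hnorm : ∀ θ : ℝ, ‖(r : ℂ) * Complex.exp ((θ : ℂ) * Complex.I)‖ = r := by
    intro θ
    rw [norm_mul, Complex.norm_exp_ofReal_mul_I, mul_one, Complex.norm_real,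
      Real.norm_of_nonneg hr]
  apply parseval_aux (fun n : ℕ => (α * n + β) * coeff f n) r hr
  · have h := (hsum (r : ℂ) (by rw [Complex.norm_real, Real.norm_of_nonneg hr]; exact hr1)).summable
    have h2 := h.norm
    have : (fun n : ℕ => ‖(α * n + β) * coeff f n‖ * r ^ n)
        = fun n : ℕ => ‖(α * n + β) * coeff f n * (r : ℂ) ^ n‖ := by
      funext n
      rw [norm_mul _ ((r : ℂ) ^ n), norm_pow, Complex.norm_real, Real.norm_of_nonneg hr]
    rw [this]
    exact h2
  · intro θ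
    exact hsum _ (by rw [hnorm]; exact hr1)

end Pool.Agent.Helper22.Marshall
end

/- Helper24.K6w.H22.Marshall.CoeffMul -/
section
/-!
Taylor coefficients of products, and Cauchy's formula on circles.
-/

set_option autoImplicit false

open MeasureTheory Set Metric Filter Topology
open scoped ENNReal NNReal Real Nat

namespace Pool.Agent.Helper22.Marshall

theorem coeff_mul {f g : ℂ → ℂ} (hf : AnalyticAt ℂ f 0) (hg : AnalyticAt ℂ g 0) (n : ℕ) :
    coeff (fun z => f z * g z) n = ∑ i ∈ Finset.range (n + 1), coeff f i * coeff g (n - i) := by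
  unfold coeff
  have h := iteratedDeriv_mul (n := n) (x := (0 : ℂ)) hf.contDiffAt hg.contDiffAt
  have e : (fun z => f z * g z) = f * g := rfl
  rw [e, h, Finset.mul_sum]
  apply Finset.sum_congr rfl
  intro i hi
  rw [Finset.mem_range] at hi
  have h2 : (n.choose i : ℂ) * ((i ! : ℕ) : ℂ) * (((n - i)! : ℕ) : ℂ) = ((n ! : ℕ) : ℂ) := by
    exact_mod_cast Nat.choose_mul_factorial_mul_factorial (by omega : i ≤ n)
  have h3 : ((n ! : ℕ) : ℂ) ≠ 0 := Nat.cast_ne_zero.mpr (Nat.factorial_ne_zero n)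
  have h4 : ((i ! : ℕ) : ℂ) ≠ 0 := Nat.cast_ne_zero.mpr (Nat.factorial_ne_zero i)
  have h5 : (((n - i)! : ℕ) : ℂ) ≠ 0 := Nat.cast_ne_zero.mpr (Nat.factorial_ne_zero _)
  rw [← h2]
  have h6 : (n.choose i : ℂ) ≠ 0 := by
    intro h
    rw [h, zero_mul, zero_mul] at h2
    exact h3 h2.symm
  (clear * - h6 h5 h4; field_simp)

theorem coeff_congr {f g : ℂ → ℂ} (h : f =ᶠ[𝓝 0] g) (n : ℕ) : coeff f n = coeff g n := by
  unfold coeff
  rw [h.iteratedDeriv_eq]

theorem coeff_const_mul (c : ℂ) (f : ℂ → ℂ) (n : ℕ) :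
    coeff (fun z => c * f z) n = c * coeff f n := by
  unfold coeff
  rw [iteratedDeriv_const_mul_field]
  ring

/-- uniqueness of Taylor coefficients -/
theorem coeff_eq_of_hasSum {f : ℂ → ℂ} {a : ℕ → ℂ} {r : ℝ} (hr : 0 < r)
    (h : ∀ z : ℂ, ‖z‖ < r → HasSum (fun n => a n * z ^ n) (f z)) (n : ℕ) : coeff f n = a n := by
  have hp : HasFPowerSeriesAt f (FormalMultilinearSeries.ofScalars ℂ a) 0 := by
    rw [hasFPowerSeriesAt_iff]
    filter_upwards [ball_mem_nhds (0 : ℂ) hr] with z hz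
    rw [mem_ball_zero_iff] at hz
    have e : (fun n => z ^ n • (FormalMultilinearSeries.ofScalars ℂ a).coeff n)
        = fun n => a n * z ^ n := by
      funext n
      rw [FormalMultilinearSeries.coeff_ofScalars, smul_eq_mul, mul_comm]
    rw [e, zero_add]
    exact h z hz
  have han : AnalyticAt ℂ f 0 := hp.analyticAt
  have h2 := han.hasFPowerSeriesAt
  have h3 := hp.eq_formalMultilinearSeries h2
  have h4 := congrArg (fun p : FormalMultilinearSeries ℂ ℂ ℂ => p.coeff n) h3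
  simp only [FormalMultilinearSeries.coeff_ofScalars] at h4
  rw [h4]
  unfold coeff
  rw [div_eq_inv_mul]

end Pool.Agent.Helper22.Marshall
end

/- Helper24.K6w.H22.Marshall.DoubleSeries -/
section
/-!
Taylor coefficients of separately holomorphic functions on the bidisc.
-/

set_option autoImplicit false

open MeasureTheory Set Metric Filter Topology
open scoped ENNReal NNReal Real Nat

namespace Pool.Agent.Helper22.Marshall

theorem hasSum_integral_bound {g : ℕ → ℝ → ℂ} (hg : ∀ n, Continuous (g n)) {B : ℕ → ℝ}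
    (hB : Summable B) (hgB : ∀ n α, ‖g n α‖ ≤ B n) {G : ℝ → ℂ}
    (hG : ∀ α, HasSum (fun n => g n α) (G α)) :
    HasSum (fun n => ∫ α in (-π)..π, g n α) (∫ α in (-π)..π, G α) := by
  have hpi : (-π : ℝ) ≤ π := by (clear * -; linarith [Real.pi_pos])
  simp_rw [intervalIntegral.integral_of_le hpi]
  have h2 := hasSum_integral_of_summable_integral_norm (μ := volume.restrict (Ioc (-π) π))
    (F := g) (fun n => (hg n).integrableOn_Ioc) ?_
  · have h3 : (fun α => ∑' n, g n α) = G := by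
      funext α
      exact (hG α).tsum_eq
    rw [h3] at h2
    exact h2
  · apply (hB.mul_left (2 * π)).of_nonneg_of_le
    · intro n
      exact integral_nonneg fun α => norm_nonneg _
    · intro n
      calc ∫ α in Ioc (-π) π, ‖g n α‖ ≤ ∫ α in Ioc (-π) π, B n := by
            apply integral_mono
            · exact ((hg n).norm).integrableOn_Ioc
            · exact integrable_const _
            · intro α; exact hgB n α
        _ = 2 * π * B n := by
            rw [setIntegral_const, smul_eq_mul, Real.volume_real_Ioc_of_le hpi]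
            ring

/-- the point `r e^{iα}` -/
noncomputable def pt (r α : ℝ) : ℂ := (r : ℂ) * Complex.exp ((α : ℂ) * Complex.I)

theorem norm_pt {r : ℝ} (hr : 0 ≤ r) (α : ℝ) : ‖pt r α‖ = r := by
  unfold pt
  rw [norm_mul, Complex.norm_exp_ofReal_mul_I, mul_one, Complex.norm_real, Real.norm_of_nonneg hr]

theorem continuous_pt (r : ℝ) : Continuous (pt r) := by unfold pt; fun_prop

theorem pt_mem {r : ℝ} (hr : 0 ≤ r) (hr1 : r < 1) (α : ℝ) : pt r α ∈ ball (0 : ℂ) 1 := by
  rw [mem_ball_zero_iff, norm_pt hr]; exact hr1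

theorem circle_coeff {f : ℂ → ℂ} (hf : DifferentiableOn ℂ f (ball 0 1)) {r : ℝ} (hr : 0 ≤ r)
    (hr1 : r < 1) (k : ℕ) :
    ∫ α in (-π)..π, f (pt r α) * Complex.exp (-(k : ℂ) * α * Complex.I)
      = 2 * π * (coeff f k * (r : ℂ) ^ k) := by
  have hs : Summable fun n => ‖coeff f n * (r : ℂ) ^ n‖ :=
    (hasSum_coeff hf (z := (r : ℂ)) (by
      rw [Complex.norm_real, Real.norm_of_nonneg hr]; exact hr1)).summable.norm
  have h1 := hasSum_integral_bound
    (g := fun n α => coeff f n * pt r α ^ n * Complex.exp (-(k : ℂ) * α * Complex.I))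
    (fun n => by
      have := continuous_pt r
      fun_prop)
    hs (G := fun α => f (pt r α) * Complex.exp (-(k : ℂ) * α * Complex.I))
    (fun n α => by
      have e : -(k : ℂ) * α * Complex.I = ((-(k : ℝ) * α : ℝ) : ℂ) * Complex.I := by push_cast; ring
      rw [norm_mul, e, Complex.norm_exp_ofReal_mul_I, mul_one, norm_mul, norm_pow, norm_pt hr,
        norm_mul, norm_pow, Complex.norm_real, Real.norm_of_nonneg hr])
    (fun α => by
      have := hasSum_coeff hf (z := pt r α) (by rw [norm_pt hr]; exact hr1)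
      exact this.mul_right _)
  have h2 : ∀ n : ℕ, ∫ α in (-π)..π, coeff f n * pt r α ^ n * Complex.exp (-(k : ℂ) * α * Complex.I)
      = if n = k then 2 * π * (coeff f k * (r : ℂ) ^ k) else 0 := by
    intro n
    have e : ∀ α : ℝ, coeff f n * pt r α ^ n * Complex.exp (-(k : ℂ) * α * Complex.I)
        = (coeff f n * (r : ℂ) ^ n) * Complex.exp (((n : ℤ) - (k : ℤ) : ℤ) * (α : ℂ) * Complex.I) := by
      intro α
      unfold pt
      have e2 : Complex.exp ((n : ℂ) * ((α : ℂ) * Complex.I))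
          * Complex.exp (-(k : ℂ) * α * Complex.I)
          = Complex.exp (((n : ℤ) - (k : ℤ) : ℤ) * (α : ℂ) * Complex.I) := by
        rw [← Complex.exp_add]
        congr 1
        push_cast
        ring
      rw [mul_pow, ← Complex.exp_nat_mul, ← e2]
      ring
    simp_rw [e]
    rw [intervalIntegral.integral_const_mul]
    split_ifs with h
    · subst h
      simp
      ring
    · rw [integral_exp_int _ (by omega), mul_zero]
  simp_rw [h2] at h1
  have h3 := h1.unique (hasSum_ite_eq k _)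
  exact h3

/-- the data of a separately holomorphic continuous function -/
structure SepHol (U : ℂ → ℂ → ℂ) : Prop where
  cont : ContinuousOn (fun p : ℂ × ℂ => U p.1 p.2) (ball 0 1 ×ˢ ball 0 1)
  left : ∀ w ∈ ball (0 : ℂ) 1, DifferentiableOn ℂ (fun z => U z w) (ball 0 1)
  right : ∀ z ∈ ball (0 : ℂ) 1, DifferentiableOn ℂ (fun w => U z w) (ball 0 1)

theorem SepHol.swap {U : ℂ → ℂ → ℂ} (h : SepHol U) : SepHol (fun z w => U w z) where
  cont := by
    have := h.cont.comp (f := fun p : ℂ × ℂ => (p.2, p.1)) (s := ball 0 1 ×ˢ ball 0 1)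
      (by fun_prop) (fun p hp => ⟨hp.2, hp.1⟩)
    exact this
  left := h.right
  right := h.left

theorem SepHol.bound {U : ℂ → ℂ → ℂ} (h : SepHol U) {r : ℝ} (hr1 : r < 1) :
    ∃ M : ℝ, 0 ≤ M ∧ ∀ z w : ℂ, ‖z‖ ≤ r → ‖w‖ ≤ r → ‖U z w‖ ≤ M := by
  have hc : IsCompact (closedBall (0 : ℂ) r ×ˢ closedBall (0 : ℂ) r) :=
    (isCompact_closedBall _ _).prod (isCompact_closedBall _ _)
  obtain ⟨M, hM⟩ := hc.exists_bound_of_continuousOn (h.cont.mono (by
    apply Set.prod_mono <;> exact closedBall_subset_ball hr1))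
  refine ⟨max M 0, le_max_right _ _, fun z w hz hw => ?_⟩
  exact (hM (z, w) ⟨mem_closedBall_zero_iff.mpr hz, mem_closedBall_zero_iff.mpr hw⟩).trans
    (le_max_left _ _)

theorem coeff_bound {f : ℂ → ℂ} (hf : DifferentiableOn ℂ f (ball 0 1)) {r M : ℝ} (hr : 0 < r)
    (hr1 : r < 1) (hM : ∀ z, ‖z‖ ≤ r → ‖f z‖ ≤ M) (n : ℕ) : ‖coeff f n‖ * r ^ n ≤ M := by
  have h1 : ‖∫ α in (-π)..π, f (pt r α) * Complex.exp (-(n : ℂ) * α * Complex.I)‖
      ≤ M * |π - (-π)| := by
    apply intervalIntegral.norm_integral_le_of_norm_le_const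
    intro α _
    have e : -(n : ℂ) * α * Complex.I = ((-(n : ℝ) * α : ℝ) : ℂ) * Complex.I := by push_cast; ring
    rw [norm_mul, e, Complex.norm_exp_ofReal_mul_I, mul_one]
    exact hM _ (norm_pt hr.le α).le
  rw [circle_coeff hf hr.le hr1, norm_mul (2 * π : ℂ), norm_mul (coeff f n), norm_pow,
    Complex.norm_real, Real.norm_of_nonneg hr.le] at h1
  have hpi := Real.pi_pos
  have h2 : |π - (-π)| = 2 * π := by rw [abs_of_pos (by linarith only [hpi])]; ring
  have h3 : ‖(2 * π : ℂ)‖ = 2 * π := by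
    rw [norm_mul, Complex.norm_real, Real.norm_of_nonneg hpi.le]; simp
  rw [h2, h3] at h1
  have h4 : 2 * π * (‖coeff f n‖ * r ^ n) ≤ 2 * π * M := by (clear * - h1; linarith only [h1])
  exact le_of_mul_le_mul_left h4 (by positivity)

/-- for fixed `k`, the coefficient functions are given by a power series -/
theorem SepHol.param {U : ℂ → ℂ → ℂ} (h : SepHol U) {r : ℝ} (hr : 0 < r) (hr1 : r < 1) (k : ℕ)
    {w : ℂ} (hw : ‖w‖ < r) :
    HasSum (fun l : ℕ => (∫ α in (-π)..π, coeff (U (pt r α)) l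
        * Complex.exp (-(k : ℂ) * α * Complex.I)) * w ^ l)
      (2 * π * (coeff (fun z => U z w) k * (r : ℂ) ^ k)) := by
  have hw1 : w ∈ ball (0 : ℂ) 1 := mem_ball_zero_iff.mpr (hw.trans hr1)
  rw [← circle_coeff (h.left w hw1) hr.le hr1 k]
  obtain ⟨M, hM0, hM⟩ := h.bound hr1
  have hcb : ∀ (l : ℕ) (α : ℝ), ‖coeff (U (pt r α)) l‖ * r ^ l ≤ M := fun l α =>
    coeff_bound (h.right _ (pt_mem hr.le hr1 α)) hr hr1
      (fun z hz => hM _ _ (norm_pt hr.le α).le hz) l
  have hcont : ∀ l : ℕ, Continuous (fun α : ℝ => coeff (U (pt r α)) l) := by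
    intro l
    have h1 : ∀ α : ℝ, coeff (U (pt r α)) l = (2 * π * (r : ℂ) ^ l)⁻¹ *
        ∫ β in (-π)..π, U (pt r α) (pt r β) * Complex.exp (-(l : ℂ) * β * Complex.I) := by
      intro α
      rw [circle_coeff (h.right _ (pt_mem hr.le hr1 α)) hr.le hr1]
      have h3 : (r : ℂ) ≠ 0 := by exact_mod_cast hr.ne'
      have h4 : (π : ℂ) ≠ 0 := by exact_mod_cast Real.pi_pos.ne'
      (clear * - h4 h3; field_simp)
    have h5 : (fun α : ℝ => coeff (U (pt r α)) l) = fun α => (2 * π * (r : ℂ) ^ l)⁻¹ *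
        ∫ β in (-π)..π, U (pt r α) (pt r β) * Complex.exp (-(l : ℂ) * β * Complex.I) := by
      funext α; exact h1 α
    rw [h5]
    apply Continuous.mul continuous_const
    apply intervalIntegral.continuous_parametric_intervalIntegral_of_continuous'
    apply Continuous.mul
    · have := h.cont.comp_continuous (f := fun p : ℝ × ℝ => (pt r p.1, pt r p.2))
        (by
          have := continuous_pt r
          fun_prop)
        (fun p => ⟨pt_mem hr.le hr1 _, pt_mem hr.le hr1 _⟩)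
      exact this
    · fun_prop
  have hr' : ‖w‖ / r < 1 := (div_lt_one hr).mpr hw
  have h3 := hasSum_integral_bound
    (g := fun l α => coeff (U (pt r α)) l * Complex.exp (-(k : ℂ) * α * Complex.I) * w ^ l)
    (B := fun l => M * (‖w‖ / r) ^ l)
    (G := fun α => U (pt r α) w * Complex.exp (-(k : ℂ) * α * Complex.I))
    (fun l => by
      have := hcont l
      fun_prop)
    ((summable_geometric_of_lt_one (by (clear * - hr; positivity)) hr').mul_left M)
    (fun l α => by
      have e : -(k : ℂ) * α * Complex.I = ((-(k : ℝ) * α : ℝ) : ℂ) * Complex.I := by push_cast; ring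
      rw [norm_mul, norm_mul, e, Complex.norm_exp_ofReal_mul_I, mul_one, norm_pow]
      have h6 := hcb l α
      have h7 : ‖coeff (U (pt r α)) l‖ ≤ M / r ^ l := by
        rw [le_div_iff₀ (by positivity)]; exact h6
      calc ‖coeff (U (pt r α)) l‖ * ‖w‖ ^ l ≤ M / r ^ l * ‖w‖ ^ l := by (clear * - h7; gcongr)
        _ = M * (‖w‖ / r) ^ l := by rw [div_pow]; ring)
    (fun α => by
      have := hasSum_coeff (h.right _ (pt_mem hr.le hr1 α)) (z := w) (by
        exact hw.trans hr1)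
      have h8 := this.mul_right (Complex.exp (-(k : ℂ) * α * Complex.I))
      have e : (fun l => coeff (U (pt r α)) l * Complex.exp (-(k : ℂ) * α * Complex.I) * w ^ l)
          = fun l => coeff (fun w => U (pt r α) w) l * w ^ l
            * Complex.exp (-(k : ℂ) * α * Complex.I) := by
        funext l; ring
      rw [e]
      exact h8)
  have e : (fun l : ℕ => (∫ α in (-π)..π, coeff (U (pt r α)) l
        * Complex.exp (-(k : ℂ) * α * Complex.I)) * w ^ l)
      = fun l : ℕ => ∫ α in (-π)..π, coeff (U (pt r α)) l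
        * Complex.exp (-(k : ℂ) * α * Complex.I) * w ^ l := by
    funext l
    rw [intervalIntegral.integral_mul_const]
  rw [e]
  exact h3

theorem SepHol.coeff_diff {U : ℂ → ℂ → ℂ} (h : SepHol U) (k : ℕ) :
    DifferentiableOn ℂ (fun w => coeff (fun z => U z w) k) (ball 0 1) := by
  intro w hw
  rw [mem_ball_zero_iff] at hw
  obtain ⟨r, hr1, hr2⟩ := exists_between hw
  have hr : 0 < r := (norm_nonneg w).trans_lt hr1
  have hr0 : (r : ℂ) ≠ 0 := by exact_mod_cast hr.ne'
  have hpi : (π : ℂ) ≠ 0 := by exact_mod_cast Real.pi_pos.ne'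
  have hne : (2 * π * (r : ℂ) ^ k : ℂ) ≠ 0 :=
    mul_ne_zero (mul_ne_zero two_ne_zero hpi) (pow_ne_zero _ hr0)
  obtain ⟨a, ha⟩ : ∃ a : ℕ → ℂ, ∀ z : ℂ, ‖z‖ < r →
      HasSum (fun l => a l * z ^ l) (coeff (fun z' => U z' z) k) := by
    refine ⟨fun l => (2 * π * (r : ℂ) ^ k)⁻¹ * ∫ α in (-π)..π, coeff (U (pt r α)) l
        * Complex.exp (-(k : ℂ) * α * Complex.I), fun z hz => ?_⟩
    have h1 := (h.param hr hr2 k hz).mul_left (2 * π * (r : ℂ) ^ k)⁻¹
    have e : (2 * π * (r : ℂ) ^ k)⁻¹ * (2 * π * (coeff (fun z' => U z' z) k * (r : ℂ) ^ k))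
        = coeff (fun z' => U z' z) k := by
      field_simp
    rw [e] at h1
    have e2 : (fun l => (2 * π * (r : ℂ) ^ k)⁻¹ * (∫ α in (-π)..π, coeff (U (pt r α)) l
        * Complex.exp (-(k : ℂ) * α * Complex.I)) * z ^ l)
        = fun l => (2 * π * (r : ℂ) ^ k)⁻¹ * ((∫ α in (-π)..π, coeff (U (pt r α)) l
        * Complex.exp (-(k : ℂ) * α * Complex.I)) * z ^ l) := by
      funext l; ring
    rw [e2]
    exact h1
  obtain ⟨r', hr1', hr2'⟩ := exists_between hr1
  have hr'0 : 0 < r' := (norm_nonneg w).trans_lt hr1'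
  have hsum : Summable fun l => ‖a l‖ * r' ^ l := by
    have := (ha (r' : ℂ) (by rw [Complex.norm_real, Real.norm_of_nonneg hr'0.le]; exact hr2')).summable.norm
    simpa [norm_mul, norm_pow, Complex.norm_real, abs_of_pos hr'0] using this
  have hd := Complex.differentiableOn_tsum_of_summable_norm (F := fun l z => a l * z ^ l) hsum
    (U := ball (0 : ℂ) r') (fun l => by fun_prop) isOpen_ball
    (fun l z hz => by
      rw [mem_ball_zero_iff] at hz
      rw [norm_mul, norm_pow]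
      (clear * - hz; gcongr))
  have hww : w ∈ ball (0 : ℂ) r' := mem_ball_zero_iff.mpr hr1'
  have h2 := hd.differentiableAt (isOpen_ball.mem_nhds hww)
  apply DifferentiableAt.differentiableWithinAt
  apply h2.congr_of_eventuallyEq
  filter_upwards [isOpen_ball.mem_nhds hww] with z hz
  rw [mem_ball_zero_iff] at hz
  exact (ha z (hz.trans hr2')).tsum_eq.symm

/-- the order of extracting coefficients does not matter -/
theorem SepHol.coeff_comm {U : ℂ → ℂ → ℂ} (h : SepHol U) (k l : ℕ) :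
    coeff (fun w => coeff (fun z => U z w) k) l = coeff (fun z => coeff (fun w => U z w) l) k := by
  have hr0 : ((1 / 2 : ℝ) : ℂ) ≠ 0 := by norm_num
  have hpi : (π : ℂ) ≠ 0 := by exact_mod_cast Real.pi_pos.ne'
  have hne : (2 * π * ((1 / 2 : ℝ) : ℂ) ^ k : ℂ) ≠ 0 :=
    mul_ne_zero (mul_ne_zero two_ne_zero hpi) (pow_ne_zero _ hr0)
  have h1 := coeff_eq_of_hasSum (f := fun w => 2 * π * (coeff (fun z => U z w) k * ((1 / 2 : ℝ) : ℂ) ^ k))
    (r := 1 / 2) (by norm_num) (fun w hw => h.param (r := 1 / 2) (by norm_num) (by norm_num) k hw) l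
  have e1 : coeff (fun w => 2 * π * (coeff (fun z => U z w) k * ((1 / 2 : ℝ) : ℂ) ^ k)) l
      = (2 * π * ((1 / 2 : ℝ) : ℂ) ^ k) * coeff (fun w => coeff (fun z => U z w) k) l := by
    rw [← coeff_const_mul]
    congr 1
    funext w
    ring
  rw [e1] at h1
  have h2 := circle_coeff (f := fun z => coeff (fun w => U z w) l) (h.swap.coeff_diff l)
    (r := 1 / 2) (by norm_num) (by norm_num) k
  rw [h2] at h1
  have : (2 * π * ((1 / 2 : ℝ) : ℂ) ^ k) * coeff (fun w => coeff (fun z => U z w) k) l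
      = (2 * π * ((1 / 2 : ℝ) : ℂ) ^ k) * coeff (fun z => coeff (fun w => U z w) l) k := by
    rw [h1]; ring
  exact mul_left_cancel₀ hne this

/-- double Taylor coefficients -/
noncomputable def dcoeff (U : ℂ → ℂ → ℂ) (k l : ℕ) : ℂ :=
  coeff (fun z => coeff (fun w => U z w) l) k

theorem SepHol.dcoeff_bound {U : ℂ → ℂ → ℂ} (h : SepHol U) {r : ℝ} (hr : 0 < r) (hr1 : r < 1) :
    ∃ M : ℝ, 0 ≤ M ∧ ∀ k l : ℕ, ‖dcoeff U k l‖ * r ^ k * r ^ l ≤ M := by
  obtain ⟨M, hM0, hM⟩ := h.bound hr1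
  refine ⟨M, hM0, fun k l => ?_⟩
  have h1 : ∀ z, ‖z‖ ≤ r → ‖coeff (fun w => U z w) l‖ ≤ M / r ^ l := by
    intro z hz
    rw [le_div_iff₀ (by (clear * - hr; positivity))]
    exact coeff_bound (h.right z (mem_ball_zero_iff.mpr (hz.trans_lt hr1))) hr hr1
      (fun w hw => hM z w hz hw) l
  have h2 := coeff_bound (f := fun z => coeff (fun w => U z w) l) (h.swap.coeff_diff l) hr hr1 h1 k
  rw [le_div_iff₀ (by (clear * - hr; positivity))] at h2
  exact h2

theorem SepHol.hasSum_left {U : ℂ → ℂ → ℂ} (h : SepHol U) {z : ℂ} (hz : ‖z‖ < 1) (l : ℕ) :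
    HasSum (fun k => dcoeff U k l * z ^ k) (coeff (fun w => U z w) l) :=
  hasSum_coeff (f := fun z => coeff (fun w => U z w) l) (h.swap.coeff_diff l) hz

/-- the diagonal -/
theorem SepHol.hasSum_diag {U : ℂ → ℂ → ℂ} (h : SepHol U) (m : ℕ) :
    coeff (fun z => U z z) m = ∑ k ∈ Finset.range (m + 1), dcoeff U k (m - k) := by
  apply coeff_eq_of_hasSum (r := 1 / 4) (by norm_num)
    (a := fun m => ∑ k ∈ Finset.range (m + 1), dcoeff U k (m - k))
  intro z hz
  obtain ⟨M, hM0, hM⟩ := h.dcoeff_bound (r := 1 / 2) (by norm_num) (by norm_num)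
  have hz1 : ‖z‖ < 1 := by linarith only [hz]
  have hb : ∀ k l : ℕ, ‖dcoeff U k l * z ^ k * z ^ l‖ ≤ M * ((2 * ‖z‖) ^ k * (2 * ‖z‖) ^ l) := by
    intro k l
    rw [norm_mul, norm_mul, norm_pow, norm_pow]
    have h1 := hM k l
    have h2 : ‖dcoeff U k l‖ ≤ M * (2 ^ k * 2 ^ l) := by
      have e : ‖dcoeff U k l‖ = (‖dcoeff U k l‖ * (1 / 2) ^ k * (1 / 2) ^ l) * (2 ^ k * 2 ^ l) := by
        rw [one_div, inv_pow, inv_pow]
        (clear * -; field_simp)
      rw [e]
      exact mul_le_mul_of_nonneg_right h1 (by positivity)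
    calc ‖dcoeff U k l‖ * ‖z‖ ^ k * ‖z‖ ^ l ≤ M * (2 ^ k * 2 ^ l) * ‖z‖ ^ k * ‖z‖ ^ l := by gcongr
      _ = M * ((2 * ‖z‖) ^ k * (2 * ‖z‖) ^ l) := by rw [mul_pow, mul_pow]; ring
  have hg : Summable fun k : ℕ => (2 * ‖z‖) ^ k :=
    summable_geometric_of_lt_one (by (clear * -; positivity)) (by (clear * - hz; linarith only [hz]))
  have hs : Summable fun p : ℕ × ℕ => dcoeff U p.1 p.2 * z ^ p.1 * z ^ p.2 := by
    apply Summable.of_norm_bounded ((hg.mul_of_nonneg hg (fun _ => by (clear * -; positivity))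
      (fun _ => by (clear * -; positivity))).mul_left M)
    intro p
    exact hb p.1 p.2
  have h1 : HasSum (fun p : ℕ × ℕ => dcoeff U p.1 p.2 * z ^ p.1 * z ^ p.2) (U z z) := by
    have h2 := hs.hasSum
    have h3 : ∑' p : ℕ × ℕ, dcoeff U p.1 p.2 * z ^ p.1 * z ^ p.2 = U z z := by
      have e0 : ∑' p : ℕ × ℕ, dcoeff U p.1 p.2 * z ^ p.1 * z ^ p.2
          = ∑' p : ℕ × ℕ, dcoeff U p.2 p.1 * z ^ p.2 * z ^ p.1 :=
        ((Equiv.prodComm ℕ ℕ).tsum_eq
          (fun p : ℕ × ℕ => dcoeff U p.1 p.2 * z ^ p.1 * z ^ p.2)).symm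
      have hs' : Summable fun p : ℕ × ℕ => dcoeff U p.2 p.1 * z ^ p.2 * z ^ p.1 :=
        (Equiv.prodComm ℕ ℕ).summable_iff.mpr hs
      rw [e0, Summable.tsum_prod hs']
      have h4 : ∀ l : ℕ, ∑' k : ℕ, dcoeff U k l * z ^ k * z ^ l
          = coeff (fun w => U z w) l * z ^ l := by
        intro l
        rw [tsum_mul_right, (h.hasSum_left hz1 l).tsum_eq]
      simp_rw [h4]
      exact (hasSum_coeff (h.right z (mem_ball_zero_iff.mpr hz1)) hz1).tsum_eq
    rw [h3] at h2
    exact h2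
  have h5 := hs.norm
  have h6 := (Finset.HasAntidiagonal.sigmaAntidiagonalEquivProd (A := ℕ)).hasSum_iff.mpr h1
  have h7 := h6.sigma (g := fun m => (∑ k ∈ Finset.range (m + 1), dcoeff U k (m - k)) * z ^ m) (by
    intro m
    have h8 := hasSum_fintype (fun c : {x : ℕ × ℕ // x ∈ Finset.HasAntidiagonal.antidiagonal m} =>
      dcoeff U (c : ℕ × ℕ).1 (c : ℕ × ℕ).2 * z ^ (c : ℕ × ℕ).1 * z ^ (c : ℕ × ℕ).2)
    have h9 : ∑ c : {x : ℕ × ℕ // x ∈ Finset.HasAntidiagonal.antidiagonal m}, dcoeff U (c : ℕ × ℕ).1 (c : ℕ × ℕ).2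
        * z ^ (c : ℕ × ℕ).1 * z ^ (c : ℕ × ℕ).2
        = (∑ k ∈ Finset.range (m + 1), dcoeff U k (m - k)) * z ^ m := by
      rw [Finset.sum_coe_sort (Finset.HasAntidiagonal.antidiagonal m)
        (fun c : ℕ × ℕ => dcoeff U c.1 c.2 * z ^ c.1 * z ^ c.2)]
      rw [Finset.Nat.sum_antidiagonal_eq_sum_range_succ
        (fun k l => dcoeff U k l * z ^ k * z ^ l), Finset.sum_mul]
      apply Finset.sum_congr rfl
      intro k hk
      rw [Finset.mem_range] at hk
      rw [mul_assoc, ← pow_add]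
      congr 2
      omega
    rw [h9] at h8
    exact h8)
  exact h7

end Pool.Agent.Helper22.Marshall
end
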