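import Mathlib

/- Helper90.G2.Defs -/
section
/-!
# Project G2 (MP_16b0ee_an): the integral means spectrum near `t = 2`, definitions

`F (u) = ψ (e^u)` on the right half plane. Boxes `Bx c ℓ` (centre `c` of the side on the imaginary
axis, side `ℓ ≤ 1`), their upper parts `Wn c ℓ q` (heights between `q ℓ` and `ℓ`), the top point
`zt c ℓ`. `Vp δ Q p` is the integral of `|w - p|^(-δ)` over `Q`, and `V` is `Vp` of the image of a box
with `p` the image of its top point. `ch N c ℓ d`, `d < N`, are the centres of the `N` boxes of side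
`ℓ / N` in `Bx c ℓ`.
-/

set_option autoImplicit false

namespace Pool.Agent.Helper90.G2

open MeasureTheory Set
open scoped Real

/-- box -/
def Bx (c ℓ : ℝ) : Set ℂ := {u | 0 < u.re ∧ u.re < ℓ ∧ |u.im - c| < ℓ / 2}

/-- upper part of the box: heights between `q ℓ` and `ℓ` -/
def Wn (c ℓ q : ℝ) : Set ℂ := {u | q * ℓ < u.re ∧ u.re < ℓ ∧ |u.im - c| < ℓ / 2}

/-- top point of the box -/
def zt (c ℓ : ℝ) : ℂ := ⟨ℓ, c⟩

/-- the class of functions: `F (u) = ψ (e^u)` -/
structure Fn (F : ℂ → ℂ) (A : ℝ) : Prop where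
  diff : DifferentiableOn ℂ F {u | 0 < u.re}
  inj : ∀ c : ℝ, InjOn F {u | 0 < u.re ∧ |u.im - c| < π}
  per : ∀ u : ℂ, 0 < u.re → F (u + 2 * π * Complex.I) = F u
  area : ∀ c : ℝ, volume (F '' Bx c 1) ≤ ENNReal.ofReal A

/-- area of an image -/
noncomputable def ar (F : ℂ → ℂ) (S : Set ℂ) : ℝ := (volume (F '' S)).toReal

/-- the integral of `|w - p|^(-δ)` over `Q` -/
noncomputable def Vp (δ : ℝ) (Q : Set ℂ) (p : ℂ) : ℝ := ∫ w in Q, ‖w - p‖ ^ (-δ)

/-- the functional of a box -/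
noncomputable def V (F : ℂ → ℂ) (δ c ℓ : ℝ) : ℝ := Vp δ (F '' Bx c ℓ) (F (zt c ℓ))

/-- the centre of the child number `d` -/
noncomputable def ch (N : ℕ) (c ℓ : ℝ) (d : ℕ) : ℝ := c + (((d : ℝ) + 1 / 2) / N - 1 / 2) * ℓ

/-- child number `d` is not near the two sides -/
def Cen (κ : ℝ) (N d : ℕ) : Prop := |((d : ℝ) + 1 / 2) / N - 1 / 2| ≤ 1 / 2 - κ

open Classical in
/-- the weight of a child -/
noncomputable def chi (κ c : ℝ) (N d : ℕ) : ℝ := if Cen κ N d then 1 else Real.exp (-c)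

end Pool.Agent.Helper90.G2
end

/- Helper26.G4.Defs -/
section
/-!
# Project G4 (MP_16b0ee_an): the integral means spectrum near `2`, complex exponents, definitions

`F (u) = ψ (e^u)` on the right half plane as in G2 (`Fn F A`). `Λ v u` is a continuous branch of
`log ((F v - F u) / (v - u))` (on the diagonal: of `log F'`), `Lb Λ v u = Λ v u + log (v - u)` for
`re u < re v` a branch of `log (F v - F u)`. The reference point of the box `Bx c ℓ` is
`vt c ℓ = (2 ℓ, c)`, above the box. `wd` is the winding, `al` the exponent of the weight,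
`w0` the exponent of the local weight, `rr` the radius. `cn`, `vk`, `lv`: the box of generation `k`
(side `N^(-k)`, top box `Bx ξ 1`) which contains `u`, its reference point, the level of `u`.
-/

set_option autoImplicit false

namespace Pool.Agent.Helper26.G4

open MeasureTheory Set
open scoped Real
open Pool.Agent.Helper90.G2 (Bx Wn Fn ar ch Cen chi)

/-- reference point of a box -/
def vt (c ℓ : ℝ) : ℂ := ⟨2 * ℓ, c⟩

/-- the domain of the two variable branch -/
def EE : Set (ℂ × ℂ) := {p | 0 < p.1.re ∧ 0 < p.2.re ∧ |p.1.im - p.2.im| < 2 * π}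

/-- `Λ` is a continuous branch of the logarithm of the divided difference of `F` -/
structure Br (F : ℂ → ℂ) (Λ : ℂ → ℂ → ℂ) : Prop where
  cont : ContinuousOn (fun p : ℂ × ℂ => Λ p.1 p.2) EE
  exp : ∀ p ∈ EE, Complex.exp (Λ p.1 p.2) * (p.1 - p.2) = F p.1 - F p.2
  diag : ∀ u : ℂ, 0 < u.re → Complex.exp (Λ u u) = deriv F u
  symm : ∀ p ∈ EE, Λ p.1 p.2 = Λ p.2 p.1

/-- branch of `log (F v - F u)`, `re u < re v` -/
noncomputable def Lb (Λ : ℂ → ℂ → ℂ) (v u : ℂ) : ℂ := Λ v u + Complex.log (v - u)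

/-- winding of `F u` around `F v`, compared with `arg F' v` -/
noncomputable def wd (Λ : ℂ → ℂ → ℂ) (v u : ℂ) : ℝ := (Lb Λ v u - Λ v v).im

/-- exponent of the weight -/
noncomputable def al (Λ : ℂ → ℂ → ℂ) (τ v u : ℂ) : ℝ := -(τ * Lb Λ v u).re

/-- radius -/
noncomputable def rr (F : ℂ → ℂ) (v : ℂ) : ℝ := v.re * ‖deriv F v‖

/-- exponent of the local weight at `v` -/
noncomputable def w0 (Λ : ℂ → ℂ → ℂ) (τ v : ℂ) : ℝ := -(τ * (Real.log v.re + Λ v v)).re

/-- `F u` winds much around `F v` and is rather close to it -/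
def Bad (F : ℂ → ℂ) (Λ : ℂ → ℂ → ℂ) (e C : ℝ) (v u : ℂ) : Prop :=
  e < |wd Λ v u| ∧ ‖F v - F u‖ ≤ C * rr F v

/-- centre of the box of generation `k` over `x` -/
noncomputable def cn (N : ℕ) (ξ : ℝ) (k : ℕ) (x : ℝ) : ℝ :=
  ξ - 1 / 2 + ((⌊(x - ξ + 1 / 2) * (N : ℝ) ^ k⌋ : ℝ) + 1 / 2) / (N : ℝ) ^ k

/-- reference point of the box of generation `k` over `im u` -/
noncomputable def vk (N : ℕ) (ξ : ℝ) (k : ℕ) (u : ℂ) : ℂ := vt (cn N ξ k u.im) (1 / (N : ℝ) ^ k)

/-- the level of `u`: `N^(-(lv + 1)) ≤ re u < N^(-lv)` -/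
noncomputable def lv (N : ℕ) (u : ℂ) : ℕ := sInf {K : ℕ | 1 / (N : ℝ) ^ (K + 1) ≤ u.re}

/-- frozen sequence -/
structure Fz (a : ℕ → ℝ) (bad : ℕ → Prop) (e : ℝ) (K : ℕ) (y : ℕ → ℝ) : Prop where
  zero : y 0 = a 0
  last : y K = a K
  step : ∀ k < K, y (k + 1) ≤ y k + e ∨ (¬ bad k ∧ y k = a k ∧ y (k + 1) = a (k + 1))

/-- the functional of the box number `d` of generation `k` -/
noncomputable def Vs (F : ℂ → ℂ) (y : ℂ → ℕ → ℝ) (N : ℕ) (ξ : ℝ) (k d : ℕ) : ENNReal :=
  ∫⁻ u in Bx (ch (N ^ k) ξ 1 d) (1 / (N : ℝ) ^ k),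
    ENNReal.ofReal (‖deriv F u‖ ^ 2 * Real.exp (y u k))

/-- the point of the vertical line through `u`, at distance `e^(-s)` above `u` -/
noncomputable def cv (u : ℂ) (s : ℝ) : ℂ := u + (Real.exp (-s) : ℂ)

/-- the curve -/
noncomputable def aa (Λ : ℂ → ℂ → ℂ) (u : ℂ) (s : ℝ) : ℂ := Lb Λ (cv u s) u

/-- the (positive) radius of the curve, `|a'|` -/
noncomputable def ra (F : ℂ → ℂ) (u : ℂ) (s : ℝ) : ℝ :=
  Real.exp (-s) * ‖deriv F (cv u s)‖ / ‖F (cv u s) - F u‖

/-- `L` is a continuous branch of the logarithm of the chords of the curve -/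
structure Ch (F : ℂ → ℂ) (Λ : ℂ → ℂ → ℂ) (u : ℂ) (L : ℝ → ℝ → ℂ) : Prop where
  cont : Continuous fun p : ℝ × ℝ => L p.1 p.2
  exp : ∀ t s : ℝ, Complex.exp (L t s) * ((s - t : ℝ) : ℂ) = aa Λ u t - aa Λ u s
  diag : ∀ s : ℝ, L s s = Λ (cv u s) (cv u s) - Λ (cv u s) u

end Pool.Agent.Helper26.G4
end

/- Helper24.K6w.H90.G2.Area -/
section
/-!
# G2-AREA: images of boxes

Change of variables `MeasureTheory.lintegral_image_eq_lintegral_abs_det_fderiv_mul` (many examples
in the tree: search for `abs_det_fderiv`), images of measurable sets under injective continuous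
maps are measurable (`MeasurableSet.image_of_continuousOn_injOn`). `area_ball`: mean value
property of `F'^2` on circles, averaged with the invariance of the disk under rotations.
-/

set_option autoImplicit false

namespace Pool.Agent.Helper90.G2

open MeasureTheory Set
open scoped Real

variable {F : ℂ → ℂ} {A : ℝ}

theorem meas_bx (c ℓ : ℝ) : MeasurableSet (Bx c ℓ) := by
  have h1 : MeasurableSet {u : ℂ | 0 < u.re} := measurableSet_lt measurable_const
    Complex.measurable_re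
  have h2 : MeasurableSet {u : ℂ | u.re < ℓ} := measurableSet_lt Complex.measurable_re
    measurable_const
  have h3 : MeasurableSet {u : ℂ | |u.im - c| < ℓ / 2} := measurableSet_lt
    ((Complex.measurable_im.sub_const c).abs) measurable_const
  exact h1.inter (h2.inter h3)

theorem meas_wn (c ℓ q : ℝ) : MeasurableSet (Wn c ℓ q) := by
  have h1 : MeasurableSet {u : ℂ | q * ℓ < u.re} := measurableSet_lt measurable_const
    Complex.measurable_re
  have h2 : MeasurableSet {u : ℂ | u.re < ℓ} := measurableSet_lt Complex.measurable_re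
    measurable_const
  have h3 : MeasurableSet {u : ℂ | |u.im - c| < ℓ / 2} := measurableSet_lt
    ((Complex.measurable_im.sub_const c).abs) measurable_const
  exact h1.inter (h2.inter h3)

theorem Fn.meas (hF : Fn F A) {S : Set ℂ} (hS : MeasurableSet S) {c : ℝ}
    (h : S ⊆ {u | 0 < u.re ∧ |u.im - c| < π}) : MeasurableSet (F '' S) :=
  hS.image_of_continuousOn_injOn (hF.diff.continuousOn.mono fun _ hu => (h hu).1)
    ((hF.inj c).mono h)

/-- the determinant of multiplication by a complex number -/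
theorem area_det_smul_one (c : ℂ) : |(c • (1 : ℂ →L[ℝ] ℂ)).det| = ‖c‖ ^ 2 := by
  have h : (c • (1 : ℂ →L[ℝ] ℂ)).det = ‖c‖ ^ 2 := by
    have h1 : (((c • (1 : ℂ →L[ℝ] ℂ)) : ℂ →L[ℝ] ℂ) : ℂ →ₗ[ℝ] ℂ) =
        ((c • (LinearMap.id : ℂ →ₗ[ℂ] ℂ)).restrictScalars ℝ) := by
      ext
      all_goals simp
    rw [ContinuousLinearMap.det, h1, LinearMap.det_restrictScalars]
    simp [Algebra.norm_complex_eq, Complex.normSq_eq_norm_sq]
  rw [h, abs_of_nonneg (by positivity)]

theorem area_isOpen_rp : IsOpen {u : ℂ | 0 < u.re} := isOpen_lt continuous_const Complex.continuous_re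

theorem Fn.vol (hF : Fn F A) {S : Set ℂ} (hS : MeasurableSet S) {c : ℝ}
    (h : S ⊆ {u | 0 < u.re ∧ |u.im - c| < π}) :
    volume (F '' S) = ∫⁻ u in S, ENNReal.ofReal (‖deriv F u‖ ^ 2) := by
  have h1 : ∀ u ∈ S, HasFDerivWithinAt F (deriv F u • (1 : ℂ →L[ℝ] ℂ)) S u := by
    intro u hu
    have h2 : HasDerivAt F (deriv F u) u :=
      (hF.diff.differentiableAt (area_isOpen_rp.mem_nhds (h hu).1)).hasDerivAt
    exact h2.complexToReal_fderiv.hasFDerivWithinAt
  rw [← lintegral_abs_det_fderiv_eq_addHaar_image volume hS h1 ((hF.inj c).mono h)]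
  simp_rw [area_det_smul_one]

theorem Fn.fin (hF : Fn F A) {c ℓ : ℝ} (hℓ1 : ℓ ≤ 1) {S : Set ℂ}
    (h : S ⊆ Bx c ℓ) : volume (F '' S) < ⊤ := by
  have h1 : S ⊆ Bx c 1 := by
    intro u hu
    obtain ⟨h2, h3, h4⟩ := h hu
    exact ⟨h2, h3.trans_le hℓ1, h4.trans_le (by (clear * - hℓ1; linarith only [hℓ1]))⟩
  exact ((measure_mono (image_mono h1)).trans (hF.area c)).trans_lt ENNReal.ofReal_lt_top

theorem Fn.ar_mono (hF : Fn F A) {c ℓ : ℝ} (hℓ1 : ℓ ≤ 1) {S T : Set ℂ}
    (hT : T ⊆ Bx c ℓ) (h : S ⊆ T) : ar F S ≤ ar F T :=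
  ENNReal.toReal_mono (hF.fin hℓ1 hT).ne (measure_mono (image_mono h))

/-- a function on the plane which is dominated from below in the mean on circles around `0` -/
theorem area_circ_mean {f : ℂ → ENNReal} (hf : Measurable f) {s : Set ℂ} (hs : MeasurableSet s)
    {a : ENNReal}
    (h : ∀ z ∈ s, a * ENNReal.ofReal (2 * π) ≤
      ∫⁻ θ in Ioc 0 (2 * π), f (Complex.exp (θ * Complex.I) * z)) :
    a * volume s ≤ ∫⁻ z, f z := by
  have hπ : 0 < 2 * π := by positivity
  have hrot : ∀ θ : ℝ, ∫⁻ z, f (Complex.exp (θ * Complex.I) * z) = ∫⁻ z, f z := by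
    intro θ
    have h1 := (rotation (Circle.exp θ)).measurePreserving.lintegral_comp hf
    simpa using h1
  have h2 : ENNReal.ofReal (2 * π) * ∫⁻ z, f z =
      ∫⁻ θ in Ioc 0 (2 * π), ∫⁻ z, f (Complex.exp (θ * Complex.I) * z) := by
    simp_rw [hrot]
    rw [lintegral_const, Measure.restrict_apply_univ, Real.volume_Ioc, sub_zero, mul_comm]
  have hm : Measurable (fun p : ℝ × ℂ => f (Complex.exp (p.1 * Complex.I) * p.2)) := by
    apply hf.comp
    fun_prop
  have h3 : (∫⁻ θ in Ioc 0 (2 * π), ∫⁻ z, f (Complex.exp (θ * Complex.I) * z)) =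
      ∫⁻ z, ∫⁻ θ in Ioc 0 (2 * π), f (Complex.exp (θ * Complex.I) * z) :=
    lintegral_lintegral_swap hm.aemeasurable
  have h4 : a * ENNReal.ofReal (2 * π) * volume s ≤
      ∫⁻ z, ∫⁻ θ in Ioc 0 (2 * π), f (Complex.exp (θ * Complex.I) * z) := by
    calc a * ENNReal.ofReal (2 * π) * volume s
        = ∫⁻ _ in s, a * ENNReal.ofReal (2 * π) := by
          rw [lintegral_const, Measure.restrict_apply_univ]
      _ ≤ ∫⁻ z in s, ∫⁻ θ in Ioc 0 (2 * π), f (Complex.exp (θ * Complex.I) * z) :=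
          setLIntegral_mono' hs h
      _ ≤ _ := setLIntegral_le_lintegral _ _
  rw [← h3, ← h2] at h4
  have h5 : ENNReal.ofReal (2 * π) * (a * volume s) ≤ ENNReal.ofReal (2 * π) * ∫⁻ z, f z := by
    calc ENNReal.ofReal (2 * π) * (a * volume s) = a * ENNReal.ofReal (2 * π) * volume s := by ring
      _ ≤ _ := h4
  exact (ENNReal.mul_le_mul_iff_right (by simpa using hπ) ENNReal.ofReal_ne_top).1 h5

/-- mean value inequality for the square of a holomorphic function on a disk around `0` -/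
theorem area_mean_disk {g : ℂ → ℂ} {r : ℝ} (hg : DifferentiableOn ℂ g (Metric.ball 0 r)) :
    ENNReal.ofReal (‖g 0‖ ^ 2) * volume (Metric.ball (0:ℂ) r) ≤
      ∫⁻ z in Metric.ball 0 r, ENNReal.ofReal (‖g z‖ ^ 2) := by
  classical
  rw [← lintegral_indicator Metric.isOpen_ball.measurableSet]
  have hm : Measurable ((Metric.ball (0:ℂ) r).indicator
      fun z => ENNReal.ofReal (‖g z‖ ^ 2)) := by
    rw [← piecewise_eq_indicator]
    apply ContinuousOn.measurable_piecewise _ continuousOn_const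
      Metric.isOpen_ball.measurableSet
    exact ENNReal.continuous_ofReal.comp_continuousOn (hg.continuousOn.norm.pow 2)
  apply area_circ_mean hm Metric.isOpen_ball.measurableSet
  intro z hz
  rw [mem_ball_zero_iff] at hz
  have hmap : MapsTo (fun w : ℂ => w * z) (closure (Metric.ball 0 1)) (Metric.ball 0 r) := by
    intro w hw
    rw [closure_ball _ one_ne_zero, mem_closedBall_zero_iff] at hw
    rw [mem_ball_zero_iff, norm_mul]
    exact (mul_le_of_le_one_left (norm_nonneg z) hw).trans_lt hz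
  have hh : DiffContOnCl ℂ (fun w => g (w * z) ^ 2) (Metric.ball (0:ℂ) |1|) := by
    rw [abs_one]
    apply DifferentiableOn.diffContOnCl
    exact (hg.comp (differentiableOn_id.mul_const z) hmap).pow 2
  have h1 := hh.circleAverage
  rw [Real.circleAverage_def, zero_mul] at h1
  have h2 : ‖g 0 ^ 2‖ₑ * ENNReal.ofReal (2 * π) =
      ‖∫ θ in (0:ℝ)..2 * π, g (circleMap 0 1 θ * z) ^ 2‖ₑ := by
    have hπ : (0:ℝ) < 2 * π := by positivity
    rw [← h1, enorm_smul, mul_comm, ← mul_assoc, ← Real.enorm_of_nonneg hπ.le, ← enorm_mul,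
      mul_inv_cancel₀ hπ.ne', enorm_one, one_mul]
  have h3 : ENNReal.ofReal (‖g 0‖ ^ 2) = ‖g 0 ^ 2‖ₑ := by
    rw [← norm_pow, ofReal_norm]
  rw [h3, h2, intervalIntegral.integral_of_le (by positivity)]
  refine (enorm_integral_le_lintegral_enorm _).trans (lintegral_mono fun θ => ?_)
  have h4 : circleMap 0 1 θ * z ∈ Metric.ball (0:ℂ) r := by
    apply hmap
    rw [closure_ball _ one_ne_zero]
    simp
  have h5 : Complex.exp (θ * Complex.I) = circleMap 0 1 θ := by simp [circleMap]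
  rw [h5, indicator_of_mem h4, ← norm_pow, ofReal_norm]

theorem Fn.area_ball (hF : Fn F A) {u : ℂ} {r : ℝ} (hr : 0 < r) (hru : r ≤ u.re) (hu : u.re ≤ 3)
    (hfin : volume (F '' Metric.ball u r) < ⊤) :
    π * r ^ 2 * ‖deriv F u‖ ^ 2 ≤ ar F (Metric.ball u r) := by
  have hπ3 := Real.pi_gt_three
  have hsub : Metric.ball u r ⊆ {w : ℂ | 0 < w.re ∧ |w.im - u.im| < π} := by
    intro w hw
    rw [Metric.mem_ball, Complex.dist_eq] at hw
    have h1 := (Complex.abs_re_le_norm (w - u)).trans_lt hw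
    have h2 := (Complex.abs_im_le_norm (w - u)).trans_lt hw
    rw [Complex.sub_re] at h1
    rw [Complex.sub_im] at h2
    refine ⟨?_, h2.trans_le (by (clear * - hru hu hπ3; linarith only [hru, hu, hπ3]))⟩
    have := (abs_lt.1 h1).1
    (clear * - hru this; linarith)
  have hball : ∀ z : ℂ, u + z ∈ Metric.ball u r ↔ z ∈ Metric.ball 0 r := by
    intro z
    rw [Metric.mem_ball, dist_eq_norm, add_sub_cancel_left, ← mem_ball_zero_iff]
  have hg : DifferentiableOn ℂ (fun z => deriv F (u + z)) (Metric.ball 0 r) := by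
    apply (hF.diff.deriv area_isOpen_rp).comp (differentiableOn_id.const_add u)
    intro z hz
    exact (hsub ((hball z).2 hz)).1
  have h1 := area_mean_disk hg
  rw [add_zero] at h1
  have h2 : (∫⁻ z in Metric.ball (0:ℂ) r, ENNReal.ofReal (‖deriv F (u + z)‖ ^ 2)) =
      volume (F '' Metric.ball u r) := by
    rw [hF.vol Metric.isOpen_ball.measurableSet hsub,
      ← lintegral_indicator Metric.isOpen_ball.measurableSet,
      ← lintegral_indicator Metric.isOpen_ball.measurableSet,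
      ← lintegral_add_left_eq_self ((Metric.ball u r).indicator
        fun z => ENNReal.ofReal (‖deriv F z‖ ^ 2)) u]
    congr 1
    ext z
    by_cases hz : z ∈ Metric.ball (0:ℂ) r
    · rw [indicator_of_mem hz, indicator_of_mem ((hball z).2 hz)]
    · rw [indicator_of_notMem hz, indicator_of_notMem (mt (hball z).1 hz)]
  rw [h2, Complex.volume_ball] at h1
  have h3 := ENNReal.toReal_mono hfin.ne h1
  rw [ENNReal.toReal_mul, ENNReal.toReal_mul, ENNReal.toReal_pow,
    ENNReal.toReal_ofReal (by (clear * -; positivity)), ENNReal.toReal_ofReal hr.le, ENNReal.coe_toReal,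
    NNReal.coe_real_pi] at h3
  unfold ar
  (clear * - h3; linarith only [h3])

end Pool.Agent.Helper90.G2
end

/- Helper24.K6w.H90.G2.Cone -/
section
/-!
# G2-CONE: the length-area inequality in a cone

Angles `|φ| < π/2 - κ`. `Pa ρ₀ - Pa ρ₁ = (1/(π - 2κ)) ∫∫ F' e^(iφ) dρ dφ`, Cauchy-Schwarz with
`dρ dφ = (1/ρ) ρ dρ dφ`: `|..|² ≤ (1/(π-2κ))² (log (ρ₀/ρ₁) (π - 2κ)) ∫∫ |F'|² ρ dρ dφ`, and the last
integral is the area of the image of the cone (`Fn.vol` and polar coordinates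
`Complex.lintegral_comp_polarCoord_symm`, after the translation by `i c`).
-/

set_option autoImplicit false

namespace Pool.Agent.Helper90.G2

open MeasureTheory Set
open scoped Real

/-- the truncated cone of angle `|φ| < π/2 - κ` at `i c` -/
def Cn (κ c ρ₁ ρ₀ : ℝ) : Set ℂ :=
  {u | 0 < u.re ∧ ρ₁ < ‖u - ⟨0, c⟩‖ ∧ ‖u - ⟨0, c⟩‖ < ρ₀ ∧
    |u.im - c| < Real.cos κ * ‖u - ⟨0, c⟩‖}

/-- average of `F` over an arc -/
noncomputable def Pa (F : ℂ → ℂ) (κ c ρ : ℝ) : ℂ :=
  ((1 / (π - 2 * κ) : ℝ) : ℂ) *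
    ∫ φ in (-(π / 2 - κ))..(π / 2 - κ), F ⟨ρ * Real.cos φ, c + ρ * Real.sin φ⟩

variable {F : ℂ → ℂ} {A : ℝ}

/-- the point with polar coordinates `ρ, φ` around `i c` -/
noncomputable def pp (c ρ φ : ℝ) : ℂ := ⟨ρ * Real.cos φ, c + ρ * Real.sin φ⟩

theorem pp_eq (c ρ φ : ℝ) :
    pp c ρ φ = Complex.I * c + ρ * Complex.exp (φ * Complex.I) := by
  apply Complex.ext <;>
    simp [pp, Complex.exp_re, Complex.exp_im, Complex.mul_re, Complex.mul_im]

theorem continuous_pp (c : ℝ) : Continuous (fun p : ℝ × ℝ => pp c p.1 p.2) := by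
  have : (fun p : ℝ × ℝ => pp c p.1 p.2) =
      fun p : ℝ × ℝ => Complex.I * c + p.1 * Complex.exp (p.2 * Complex.I) := by
    funext p; exact pp_eq _ _ _
  rw [this]
  fun_prop

theorem pp_re_pos {κ c ρ φ : ℝ} (hκ : 0 < κ) (hρ : 0 < ρ) (hφ : |φ| ≤ π / 2 - κ) :
    0 < (pp c ρ φ).re := by
  have h := abs_le.1 hφ
  have : 0 < Real.cos φ := Real.cos_pos_of_mem_Ioo ⟨by (clear * - hκ h; linarith only [hκ, h]), by linarith only [hκ, h]⟩
  simpa [pp] using mul_pos hρ this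

theorem pp_sub (c ρ φ : ℝ) : pp c ρ φ - ⟨0, c⟩ = ρ * Complex.exp (φ * Complex.I) := by
  rw [pp_eq]
  have : (⟨0, c⟩ : ℂ) = Complex.I * c := by
    apply Complex.ext <;> simp
  rw [this]; ring

theorem pp_norm {c ρ φ : ℝ} (hρ : 0 < ρ) : ‖pp c ρ φ - ⟨0, c⟩‖ = ρ := by
  rw [pp_sub, norm_mul, Complex.norm_exp_ofReal_mul_I, mul_one, Complex.norm_real,
    Real.norm_of_nonneg hρ.le]

theorem pp_mem {κ c ρ φ ρ₁ ρ₀ : ℝ} (hκ : 0 < κ) (hκ1 : κ ≤ 1 / 4) (h1 : 0 < ρ₁)
    (hρ : ρ ∈ Ioo ρ₁ ρ₀) (hφ : φ ∈ Ioo (-(π / 2 - κ)) (π / 2 - κ)) : pp c ρ φ ∈ Cn κ c ρ₁ ρ₀ := by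
  have hρ0 : 0 < ρ := h1.trans hρ.1
  have hpi := Real.pi_gt_three
  refine ⟨pp_re_pos hκ hρ0 (abs_le.2 ⟨hφ.1.le, hφ.2.le⟩), ?_, ?_, ?_⟩
  · rw [pp_norm hρ0]; exact hρ.1
  · rw [pp_norm hρ0]; exact hρ.2
  · rw [pp_norm hρ0]
    have e : (pp c ρ φ).im - c = ρ * Real.sin φ := by simp [pp]
    rw [e, abs_mul, abs_of_pos hρ0, mul_comm]
    refine mul_lt_mul_of_pos_right ?_ hρ0
    have hc : Real.cos κ = Real.sin (π / 2 - κ) := by rw [Real.sin_pi_div_two_sub]
    rw [hc, abs_lt]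
    constructor
    · have := Real.sin_lt_sin_of_lt_of_le_pi_div_two (x := -(π / 2 - κ)) (y := φ)
        (by (clear * - hκ; linarith)) (by (clear * - hφ hκ; linarith only [hφ.2, hκ])) hφ.1
      rwa [Real.sin_neg] at this
    · exact Real.sin_lt_sin_of_lt_of_le_pi_div_two (by linarith only [hφ.1, hκ]) (by (clear * - hκ; linarith only [hκ])) hφ.2

theorem Fn.hasDeriv_pp (hF : Fn F A) {c ρ φ : ℝ} (h : 0 < (pp c ρ φ).re) :
    HasDerivAt (fun r : ℝ => F (pp c r φ))
      (deriv F (pp c ρ φ) * Complex.exp (φ * Complex.I)) ρ := by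
  have ho : IsOpen {u : ℂ | 0 < u.re} := isOpen_lt continuous_const Complex.continuous_re
  have hd : HasDerivAt F (deriv F (pp c ρ φ)) (pp c ρ φ) :=
    ((hF.diff _ h).differentiableAt (ho.mem_nhds h)).hasDerivAt
  have hp : HasDerivAt (fun r : ℝ => pp c r φ) (Complex.exp (φ * Complex.I)) ρ := by
    have e : (fun r : ℝ => pp c r φ) =
        fun r : ℝ => Complex.I * c + r * Complex.exp (φ * Complex.I) := by
      funext r; exact pp_eq _ _ _
    rw [e]
    have h1 : HasDerivAt (fun r : ℝ => (r : ℂ)) 1 ρ := Complex.ofRealCLM.hasDerivAt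
    simpa using (h1.mul_const (Complex.exp (φ * Complex.I))).const_add (Complex.I * c)
  exact hd.comp_of_eq ρ hp rfl

theorem Fn.cont_deriv (hF : Fn F A) : ContinuousOn (deriv F) {u : ℂ | 0 < u.re} := by
  have ho : IsOpen {u : ℂ | 0 < u.re} := isOpen_lt continuous_const Complex.continuous_re
  exact (hF.diff.deriv ho).continuousOn

theorem Fn.sub_le (hF : Fn F A) {κ c ρ₁ ρ₀ φ : ℝ} (hκ : 0 < κ) (h1 : 0 < ρ₁) (h01 : ρ₁ ≤ ρ₀)
    (hφ : |φ| ≤ π / 2 - κ) :
    ‖F (pp c ρ₀ φ) - F (pp c ρ₁ φ)‖ₑ ≤ ∫⁻ ρ in Ioc ρ₁ ρ₀, ‖deriv F (pp c ρ φ)‖ₑ := by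
  have hpos : ∀ ρ ∈ uIcc ρ₁ ρ₀, 0 < (pp c ρ φ).re := by
    intro ρ hρ
    rw [uIcc_of_le h01] at hρ
    exact pp_re_pos hκ (lt_of_lt_of_le h1 hρ.1) hφ
  have hcont : ContinuousOn (fun ρ : ℝ => deriv F (pp c ρ φ) * Complex.exp (φ * Complex.I))
      (uIcc ρ₁ ρ₀) := by
    refine ContinuousOn.mul ?_ continuousOn_const
    refine hF.cont_deriv.comp ?_ hpos
    exact ((continuous_pp c).comp (by fun_prop : Continuous fun ρ : ℝ => (ρ, φ))).continuousOn
  have := intervalIntegral.integral_eq_sub_of_hasDerivAt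
    (fun ρ hρ => hF.hasDeriv_pp (hpos ρ hρ)) hcont.intervalIntegrable
  rw [← this, intervalIntegral.integral_of_le h01]
  refine (enorm_integral_le_lintegral_enorm _).trans (le_of_eq ?_)
  refine lintegral_congr fun ρ => ?_
  rw [enorm_mul]
  have : ‖Complex.exp (φ * Complex.I)‖ₑ = 1 := by
    rw [← ofReal_norm, Complex.norm_exp_ofReal_mul_I, ENNReal.ofReal_one]
  rw [this, mul_one]

theorem Fn.diff_le (hF : Fn F A) {κ c ρ₁ ρ₀ : ℝ} (hκ : 0 < κ) (hκ1 : κ ≤ 1 / 4) (h1 : 0 < ρ₁)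
    (h01 : ρ₁ ≤ ρ₀) :
    ‖∫ φ in (-(π / 2 - κ))..(π / 2 - κ), (F (pp c ρ₀ φ) - F (pp c ρ₁ φ))‖ₑ ≤
      ∫⁻ p in Ioo ρ₁ ρ₀ ×ˢ Ioo (-(π / 2 - κ)) (π / 2 - κ), ‖deriv F (pp c p.1 p.2)‖ₑ := by
  have hpi := Real.pi_gt_three
  have hb : -(π / 2 - κ) ≤ π / 2 - κ := by linarith
  rw [intervalIntegral.integral_of_le hb]
  refine (enorm_integral_le_lintegral_enorm _).trans ?_
  have hm : Measurable fun p : ℝ × ℝ => ‖deriv F (pp c p.1 p.2)‖ₑ :=
    ((measurable_deriv F).comp (continuous_pp c).measurable).enorm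
  rw [Measure.volume_eq_prod, ← Measure.prod_restrict,
    restrict_Ioo_eq_restrict_Ioc, restrict_Ioo_eq_restrict_Ioc,
    lintegral_prod_symm _ hm.aemeasurable]
  refine setLIntegral_mono' measurableSet_Ioc fun φ hφ => ?_
  exact hF.sub_le hκ h1 h01 (abs_le.2 ⟨hφ.1.le, hφ.2⟩)

theorem Fn.polar_le (hF : Fn F A) {κ c ρ₁ ρ₀ : ℝ} (hκ : 0 < κ) (hκ1 : κ ≤ 1 / 4) (h1 : 0 < ρ₁)
    (h01 : ρ₁ ≤ ρ₀) (hC : MeasurableSet (Cn κ c ρ₁ ρ₀)) :
    ∫⁻ p in Ioo ρ₁ ρ₀ ×ˢ Ioo (-(π / 2 - κ)) (π / 2 - κ),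
      ENNReal.ofReal p.1 * ENNReal.ofReal (‖deriv F (pp c p.1 p.2)‖ ^ 2) ≤
      ∫⁻ u in Cn κ c ρ₁ ρ₀, ENNReal.ofReal (‖deriv F u‖ ^ 2) := by
  have hpi := Real.pi_gt_three
  set f : ℂ → ENNReal := (Cn κ c ρ₁ ρ₀).indicator fun u => ENNReal.ofReal (‖deriv F u‖ ^ 2) with hf
  have e1 : ∫⁻ u in Cn κ c ρ₁ ρ₀, ENNReal.ofReal (‖deriv F u‖ ^ 2) = ∫⁻ u, f u := by
    rw [hf, lintegral_indicator hC]
  have e2 : ∫⁻ u, f u = ∫⁻ v : ℂ, f (v + Complex.I * c) :=
    (lintegral_add_right_eq_self f (Complex.I * c)).symm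
  rw [e1, e2, ← Complex.lintegral_comp_polarCoord_symm]
  have hs : Ioo ρ₁ ρ₀ ×ˢ Ioo (-(π / 2 - κ)) (π / 2 - κ) ⊆ polarCoord.target := by
    rintro ⟨ρ, φ⟩ ⟨hρ, hφ⟩
    simp only [mem_Ioo] at hρ hφ
    simp only [polarCoord_target, mem_prod, mem_Ioi, mem_Ioo]
    exact ⟨h1.trans hρ.1, by linarith only [hκ, hφ], by (clear * - hκ hφ; linarith only [hκ, hφ])⟩
  refine le_trans ?_ (lintegral_mono_set hs)
  refine setLIntegral_mono' (measurableSet_Ioo.prod measurableSet_Ioo) fun p hp => ?_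
  have e3 : Complex.polarCoord.symm p + Complex.I * c = pp c p.1 p.2 := by
    rw [Complex.polarCoord_symm_apply, pp_eq, Complex.exp_mul_I, add_comm]
    push_cast
    ring
  rw [e3, hf, indicator_of_mem (pp_mem hκ hκ1 h1 hp.1 hp.2), smul_eq_mul]

theorem lin_inv {κ ρ₁ ρ₀ t : ℝ} (hκ : 0 < κ) (hκ1 : κ ≤ 1 / 4) (h1 : 0 < ρ₁)
    (h01 : ρ₁ ≤ ρ₀) (ht : 0 < t) :
    ∫⁻ p in Ioo ρ₁ ρ₀ ×ˢ Ioo (-(π / 2 - κ)) (π / 2 - κ), ENNReal.ofReal (1 / (2 * t) * p.1⁻¹) =
      ENNReal.ofReal ((π - 2 * κ) * Real.log (ρ₀ / ρ₁) / (2 * t)) := by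
  have hpi := Real.pi_gt_three
  have hm : Measurable fun p : ℝ × ℝ => ENNReal.ofReal (1 / (2 * t) * p.1⁻¹) := by fun_prop
  rw [Measure.volume_eq_prod, ← Measure.prod_restrict, lintegral_prod _ hm.aemeasurable]
  simp only [lintegral_const, Measure.restrict_apply MeasurableSet.univ, univ_inter,
    Real.volume_Ioo]
  rw [lintegral_mul_const _ (by fun_prop)]
  have hi : IntegrableOn (fun r : ℝ => 1 / (2 * t) * r⁻¹) (Ioc ρ₁ ρ₀) := by
    have : ContinuousOn (fun r : ℝ => 1 / (2 * t) * r⁻¹) (uIcc ρ₁ ρ₀) := by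
      refine continuousOn_const.mul (ContinuousOn.inv₀ continuousOn_id fun r hr => ?_)
      rw [uIcc_of_le h01] at hr
      exact (lt_of_lt_of_le h1 hr.1).ne'
    exact (intervalIntegrable_iff_integrableOn_Ioc_of_le h01).1 this.intervalIntegrable
  rw [restrict_Ioo_eq_restrict_Ioc, ← ofReal_integral_eq_lintegral_ofReal hi
    ((ae_restrict_iff' measurableSet_Ioc).2 (Filter.Eventually.of_forall fun r hr => by
      have : 0 < r := h1.trans hr.1
      (clear * - ht this; positivity))),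
    ← intervalIntegral.integral_of_le h01, intervalIntegral.integral_const_mul,
    integral_inv_of_pos h1 (lt_of_lt_of_le h1 h01), ← ENNReal.ofReal_mul (by
      have : 0 ≤ Real.log (ρ₀ / ρ₁) := Real.log_nonneg ((one_le_div h1).2 h01)
      (clear * - ht this; positivity))]
  congr 1
  field_simp
  ring

theorem meas_cn (κ c ρ₁ ρ₀ : ℝ) : MeasurableSet (Cn κ c ρ₁ ρ₀) := by
  have hn : Continuous fun u : ℂ => ‖u - ⟨0, c⟩‖ := (continuous_id.sub continuous_const).norm
  have h1 : IsOpen {u : ℂ | 0 < u.re} := isOpen_lt continuous_const Complex.continuous_re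
  have h2 : IsOpen {u : ℂ | ρ₁ < ‖u - ⟨0, c⟩‖} := isOpen_lt continuous_const hn
  have h3 : IsOpen {u : ℂ | ‖u - ⟨0, c⟩‖ < ρ₀} := isOpen_lt hn continuous_const
  have h4 : IsOpen {u : ℂ | |u.im - c| < Real.cos κ * ‖u - ⟨0, c⟩‖} :=
    isOpen_lt (Complex.continuous_im.sub continuous_const).abs (continuous_const.mul hn)
  exact (h1.inter (h2.inter (h3.inter h4))).measurableSet

theorem Fn.cone (hF : Fn F A) {κ c ρ₁ ρ₀ : ℝ} (hκ : 0 < κ) (hκ1 : κ ≤ 1 / 4) (h1 : 0 < ρ₁)
    (h01 : ρ₁ ≤ ρ₀) (h0 : ρ₀ ≤ 1 / 2) :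
    ‖Pa F κ c ρ₀ - Pa F κ c ρ₁‖ ^ 2 ≤
      Real.log (ρ₀ / ρ₁) / (π - 2 * κ) * ar F (Cn κ c ρ₁ ρ₀) := by
  have hpi := Real.pi_gt_three
  have hb : 0 < π - 2 * κ := by linarith only [hκ1, hpi]
  have hC := meas_cn κ c ρ₁ ρ₀
  have hlog : 0 ≤ Real.log (ρ₀ / ρ₁) := Real.log_nonneg ((one_le_div h1).2 h01)
  have hsub : Cn κ c ρ₁ ρ₀ ⊆ Bx c 1 := by
    rintro u ⟨hu0, hu1, hu2, hu3⟩
    have hre : u.re ≤ ‖u - ⟨0, c⟩‖ := by
      have := Complex.abs_re_le_norm (u - ⟨0, c⟩)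
      simp only [Complex.sub_re, sub_zero] at this
      exact (le_abs_self _).trans this
    have him : |u.im - c| ≤ ‖u - ⟨0, c⟩‖ := by
      have := Complex.abs_im_le_norm (u - ⟨0, c⟩)
      simpa only [Complex.sub_im] using this
    exact ⟨hu0, by linarith only [h0, hu2, hre], by linarith only [h0, hu2, him]⟩
  have hstrip : Cn κ c ρ₁ ρ₀ ⊆ {u | 0 < u.re ∧ |u.im - c| < π} := by
    intro u hu
    have := hsub hu
    exact ⟨hu.1, by linarith only [this.2.2, hpi]⟩
  have hfin := hF.fin le_rfl hsub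
  set D : ℂ := ∫ φ in (-(π / 2 - κ))..(π / 2 - κ), (F (pp c ρ₀ φ) - F (pp c ρ₁ φ)) with hD
  set a : ℝ := ar F (Cn κ c ρ₁ ρ₀) with ha
  have ha0 : 0 ≤ a := ENNReal.toReal_nonneg
  -- the difference
  have hInt : ∀ ρ : ℝ, 0 < ρ → IntervalIntegrable (fun φ => F (pp c ρ φ)) volume
      (-(π / 2 - κ)) (π / 2 - κ) := by
    intro ρ hρ
    refine ContinuousOn.intervalIntegrable ?_
    refine hF.diff.continuousOn.comp ?_ ?_
    · exact ((continuous_pp c).comp (by fun_prop : Continuous fun φ : ℝ => (ρ, φ))).continuousOn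
    · intro φ hφ
      rw [uIcc_of_le (by linarith only [hb])] at hφ
      exact pp_re_pos hκ hρ (abs_le.2 ⟨hφ.1, hφ.2⟩)
  have hPa : Pa F κ c ρ₀ - Pa F κ c ρ₁ = ((1 / (π - 2 * κ) : ℝ) : ℂ) * D := by
    rw [hD, intervalIntegral.integral_sub (hInt ρ₀ (lt_of_lt_of_le h1 h01)) (hInt ρ₁ h1), mul_sub]
    rfl
  -- the main inequality with a parameter
  have key : ∀ t : ℝ, 0 < t → ‖D‖ ≤ t / 2 * a + (π - 2 * κ) * Real.log (ρ₀ / ρ₁) / (2 * t) := by
    intro t ht
    have h2 := hF.diff_le (c := c) hκ hκ1 h1 h01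
    rw [← hD] at h2
    have hv : volume (F '' Cn κ c ρ₁ ρ₀) = ENNReal.ofReal a := by
      rw [ha, ar, ENNReal.ofReal_toReal hfin.ne]
    have h3 : ∫⁻ p in Ioo ρ₁ ρ₀ ×ˢ Ioo (-(π / 2 - κ)) (π / 2 - κ), ‖deriv F (pp c p.1 p.2)‖ₑ ≤
        ∫⁻ p in Ioo ρ₁ ρ₀ ×ˢ Ioo (-(π / 2 - κ)) (π / 2 - κ),
          (ENNReal.ofReal (t / 2) *
            (ENNReal.ofReal p.1 * ENNReal.ofReal (‖deriv F (pp c p.1 p.2)‖ ^ 2)) +
            ENNReal.ofReal (1 / (2 * t) * p.1⁻¹)) := by
      refine setLIntegral_mono' (measurableSet_Ioo.prod measurableSet_Ioo) fun p hp => ?_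
      have hp1 : 0 < p.1 := h1.trans hp.1.1
      rw [← ofReal_norm, ← ENNReal.ofReal_mul hp1.le, ← ENNReal.ofReal_mul (by (clear * - ht; positivity)),
        ← ENNReal.ofReal_add (by (clear * - ht hp1; positivity)) (by (clear * - ht hp1; positivity))]
      refine ENNReal.ofReal_le_ofReal ?_
      set x := ‖deriv F (pp c p.1 p.2)‖
      have e : t / 2 * (p.1 * x ^ 2) + 1 / (2 * t) * p.1⁻¹ - x =
          (t * p.1 * x - 1) ^ 2 / (2 * t * p.1) := by
        field_simp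
        ring
      have : 0 ≤ (t * p.1 * x - 1) ^ 2 / (2 * t * p.1) := by (clear * - ht hp1; positivity)
      linarith only [e, this]
    have hm : Measurable fun p : ℝ × ℝ => ENNReal.ofReal (1 / (2 * t) * p.1⁻¹) := by fun_prop
    rw [lintegral_add_right _ hm, lintegral_const_mul' _ _ ENNReal.ofReal_ne_top,
      lin_inv hκ hκ1 h1 h01 ht] at h3
    have h4 := hF.polar_le (c := c) hκ hκ1 h1 h01 hC
    rw [← hF.vol hC hstrip, hv] at h4
    have h5 : ENNReal.ofReal ‖D‖ ≤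
        ENNReal.ofReal (t / 2 * a + (π - 2 * κ) * Real.log (ρ₀ / ρ₁) / (2 * t)) := by
      rw [ofReal_norm, ENNReal.ofReal_add (by (clear * - ht ha0; positivity)) (by (clear * - hb hlog ht; positivity)),
        ENNReal.ofReal_mul (by (clear * - ht; positivity))]
      refine h2.trans (h3.trans ?_)
      (clear * - h4; gcongr)
    exact (ENNReal.ofReal_le_ofReal_iff (by (clear * - ht ha0 hb hlog; positivity))).1 h5
  have hD2 : ‖D‖ ^ 2 ≤ a * ((π - 2 * κ) * Real.log (ρ₀ / ρ₁)) := by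
    set b := (π - 2 * κ) * Real.log (ρ₀ / ρ₁) with hbdef
    have hb0 : 0 ≤ b := by (clear * - hb hlog; positivity)
    rcases (norm_nonneg D).eq_or_lt with h | h
    · rw [← h]; (clear * - ha0 hb0; nlinarith only [ha0, hb0])
    · rcases ha0.eq_or_lt with h' | h'
      · exfalso
        rcases hb0.eq_or_lt with h'' | h''
        · have := key 1 one_pos
          rw [← h', ← h''] at this
          simp at this
          rw [this] at h; simp at h
        · have := key (b / ‖D‖) (by (clear * - h'' h; positivity))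
          rw [← h'] at this
          have e : b / (2 * (b / ‖D‖)) = ‖D‖ / 2 := by (clear * - h'' h; field_simp)
          rw [e] at this
          (clear * - h this; linarith only [h, this])
      · have := key (‖D‖ / a) (by (clear * - h h'; positivity))
        have e1 : ‖D‖ / a / 2 * a = ‖D‖ / 2 := by (clear * - h' h; field_simp)
        have e2 : b / (2 * (‖D‖ / a)) = a * b / (2 * ‖D‖) := by (clear * - h' h; field_simp)
        rw [e1, e2] at this
        have h3 : ‖D‖ / 2 ≤ a * b / (2 * ‖D‖) := by (clear * - this; linarith only [this])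
        rw [div_le_div_iff₀ (by norm_num) (by positivity)] at h3
        linarith only [h3]
  rw [hPa, norm_mul, mul_pow, Complex.norm_real, Real.norm_of_nonneg (by (clear * - hb; positivity))]
  calc (1 / (π - 2 * κ)) ^ 2 * ‖D‖ ^ 2 ≤
      (1 / (π - 2 * κ)) ^ 2 * (a * ((π - 2 * κ) * Real.log (ρ₀ / ρ₁))) := by (clear * - hD2 hb; gcongr)
    _ = Real.log (ρ₀ / ρ₁) / (π - 2 * κ) * a := by (clear * - hb; field_simp)

/-- if `F` is close to `p` on the arc, so is the average -/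
theorem Pa_near (hF : Fn F A) {κ c ρ : ℝ} (hκ : 0 < κ) (hκ1 : κ ≤ 1 / 4) (hρ : 0 < ρ) {p : ℂ}
    {b : ℝ} (h : ∀ φ : ℝ, |φ| ≤ π / 2 - κ →
      ‖F ⟨ρ * Real.cos φ, c + ρ * Real.sin φ⟩ - p‖ ≤ b) : ‖Pa F κ c ρ - p‖ ≤ b := by
  have hpi := Real.pi_gt_three
  have hb : 0 < π - 2 * κ := by linarith only [hκ1, hpi]
  have hInt : IntervalIntegrable (fun φ => F (pp c ρ φ)) volume
      (-(π / 2 - κ)) (π / 2 - κ) := by
    refine ContinuousOn.intervalIntegrable ?_
    refine hF.diff.continuousOn.comp ?_ ?_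
    · exact ((continuous_pp c).comp (by fun_prop : Continuous fun φ : ℝ => (ρ, φ))).continuousOn
    · intro φ hφ
      rw [uIcc_of_le (by (clear * - hb; linarith only [hb]))] at hφ
      exact pp_re_pos hκ hρ (abs_le.2 ⟨hφ.1, hφ.2⟩)
  have e : Pa F κ c ρ - p = ((1 / (π - 2 * κ) : ℝ) : ℂ) *
      ∫ φ in (-(π / 2 - κ))..(π / 2 - κ), (F (pp c ρ φ) - p) := by
    rw [intervalIntegral.integral_sub hInt intervalIntegrable_const,
      intervalIntegral.integral_const, mul_sub, Complex.real_smul]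
    have : ((1 / (π - 2 * κ) : ℝ) : ℂ) * (((π / 2 - κ - -(π / 2 - κ) : ℝ) : ℂ) * p) = p := by
      rw [← mul_assoc, ← Complex.ofReal_mul]
      have : 1 / (π - 2 * κ) * (π / 2 - κ - -(π / 2 - κ)) = 1 := by
        field_simp
        ring
      rw [this]; simp
    rw [this]
    rfl
  rw [e, norm_mul, Complex.norm_real, Real.norm_of_nonneg (by (clear * - hb; positivity))]
  have h2 : ‖∫ φ in (-(π / 2 - κ))..(π / 2 - κ), (F (pp c ρ φ) - p)‖ ≤
      b * |π / 2 - κ - -(π / 2 - κ)| := by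
    refine intervalIntegral.norm_integral_le_of_norm_le_const fun φ hφ => ?_
    rw [uIoc_of_le (by (clear * - hb; linarith only [hb]))] at hφ
    exact h φ (abs_le.2 ⟨hφ.1.le, hφ.2⟩)
  rw [abs_of_pos (by (clear * - hb; linarith only [hb]))] at h2
  calc 1 / (π - 2 * κ) * ‖∫ φ in (-(π / 2 - κ))..(π / 2 - κ), (F (pp c ρ φ) - p)‖ ≤
      1 / (π - 2 * κ) * (b * (π / 2 - κ - -(π / 2 - κ))) := by (clear * - h2 hb; gcongr)
    _ = b := by field_simp; ring

end Pool.Agent.Helper90.G2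
end

/- Helper24.K6w.H22.Half.Binom -/
section
/-!
Coefficients of `(1 - x)^{-z}` and algebraic identities for palindromic sequences.
-/

set_option autoImplicit false

namespace Pool.Agent.Helper22.Half

section generic
variable {𝕜 : Type*} [Field 𝕜] [CharZero 𝕜]

/-- coefficients of `(1-x)^{-z}` -/
def pq (z : 𝕜) : ℕ → 𝕜
  | 0 => 1
  | n + 1 => pq z n * ((z + n) / (n + 1))

omit [CharZero 𝕜] in
theorem pq_zero (z : 𝕜) : pq z 0 = 1 := rfl

omit [CharZero 𝕜] in
theorem pq_succ (z : 𝕜) (n : ℕ) : pq z (n + 1) = pq z n * ((z + n) / (n + 1)) := rfl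

theorem pq_succ' (z : 𝕜) (n : ℕ) : ((n : 𝕜) + 1) * pq z (n + 1) = pq z n * (z + n) := by
  rw [pq_succ]
  have : (n : 𝕜) + 1 ≠ 0 := Nat.cast_add_one_ne_zero n
  field_simp

theorem pq_shift (z : 𝕜) (n : ℕ) : ((n : 𝕜) + 1) * pq z (n + 1) = z * pq (z + 1) n := by
  induction n with
  | zero => simp [pq]
  | succ n ih =>
    rw [pq_succ', pq_succ (z + 1) n]
    have h : (n : 𝕜) + 1 ≠ 0 := Nat.cast_add_one_ne_zero n
    have e : z * (pq (z + 1) n * ((z + 1 + n) / (n + 1)))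
        = (z * pq (z + 1) n) * ((z + 1 + n) / (n + 1)) := by ring
    rw [e, ← ih]
    push_cast
    field_simp
    ring

theorem pq_add_one (z : 𝕜) (n : ℕ) : z * pq (z + 1) n = pq z n * (z + n) := by
  rw [← pq_shift, pq_succ']

theorem pq_one (n : ℕ) : pq (1 : 𝕜) n = 1 := by
  induction n with
  | zero => rfl
  | succ n ih =>
    rw [pq_succ, ih]
    have h : (n : 𝕜) + 1 ≠ 0 := Nat.cast_add_one_ne_zero n
    rw [add_comm (1 : 𝕜), div_self h, one_mul]

theorem pq_two (n : ℕ) : pq (2 : 𝕜) n = n + 1 := by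
  have h := pq_add_one (1 : 𝕜) n
  rw [pq_one, one_mul, one_mul, one_add_one_eq_two] at h
  rw [h]; ring

/-- Vandermonde's identity -/
theorem vander (z w : 𝕜) (M : ℕ) :
    ∑ k ∈ Finset.range (M + 1), pq z k * pq w (M - k) = pq (z + w) M := by
  induction M with
  | zero => simp [pq]
  | succ M ih =>
    have h1 : ∑ k ∈ Finset.range (M + 2), (k : 𝕜) * (pq z k * pq w (M + 1 - k))
        = ∑ k ∈ Finset.range (M + 1), (z + k) * (pq z k * pq w (M - k)) := by
      rw [Finset.sum_range_succ']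
      simp only [Nat.cast_zero, zero_mul, add_zero]
      apply Finset.sum_congr rfl
      intro k _
      have e : M + 1 - (k + 1) = M - k := by omega
      rw [e]
      have := pq_succ' z k
      push_cast
      linear_combination (pq w (M - k)) * this
    have h2 : ∑ k ∈ Finset.range (M + 2), ((M + 1 - k : ℕ) : 𝕜) * (pq z k * pq w (M + 1 - k))
        = ∑ k ∈ Finset.range (M + 1), (w + (M - k : ℕ)) * (pq z k * pq w (M - k)) := by
      rw [Finset.sum_range_succ]
      simp only [Nat.sub_self, Nat.cast_zero, zero_mul, add_zero]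
      apply Finset.sum_congr rfl
      intro k hk
      rw [Finset.mem_range] at hk
      have e : M + 1 - k = (M - k) + 1 := by omega
      rw [e]
      have := pq_succ' w (M - k)
      push_cast at this ⊢
      linear_combination (pq z k) * this
    have h3 : ((M : 𝕜) + 1) * ∑ k ∈ Finset.range (M + 2), pq z k * pq w (M + 1 - k)
        = (z + w + M) * ∑ k ∈ Finset.range (M + 1), pq z k * pq w (M - k) := by
      have e1 : ((M : 𝕜) + 1) * ∑ k ∈ Finset.range (M + 2), pq z k * pq w (M + 1 - k)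
          = ∑ k ∈ Finset.range (M + 2), (k : 𝕜) * (pq z k * pq w (M + 1 - k))
            + ∑ k ∈ Finset.range (M + 2), ((M + 1 - k : ℕ) : 𝕜) * (pq z k * pq w (M + 1 - k)) := by
        rw [← Finset.sum_add_distrib, Finset.mul_sum]
        apply Finset.sum_congr rfl
        intro k hk
        rw [Finset.mem_range] at hk
        rw [Nat.cast_sub (by omega)]
        push_cast
        ring
      rw [e1, h1, h2, ← Finset.sum_add_distrib, Finset.mul_sum]
      apply Finset.sum_congr rfl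
      intro k hk
      rw [Finset.mem_range] at hk
      rw [Nat.cast_sub (by omega)]
      ring
    rw [ih] at h3
    have h4 := pq_succ' (z + w) M
    have h5 : ((M : 𝕜) + 1) ≠ 0 := Nat.cast_add_one_ne_zero M
    apply mul_left_cancel₀ h5
    rw [h3, h4]
    ring

end generic

/-- the coefficients `A_{M,k}` of the partial fraction expansion -/
noncomputable def Ac (s : ℂ) (M k : ℕ) : ℂ :=
  ((M - k : ℕ) : ℂ) * pq (1 + s) (M - k) * pq (-s) k

theorem conv_one (s : ℂ) (M : ℕ) :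
    ∑ k ∈ Finset.range (M + 1), pq (1 + s) (M - k) * pq (-s) k = 1 := by
  have h := vander (-s) (1 + s) M
  have e : -s + (1 + s) = 1 := by ring
  rw [e, pq_one] at h
  refine Eq.trans ?_ h
  apply Finset.sum_congr rfl
  intro k _
  ring

theorem conv_moment (s : ℂ) (M : ℕ) :
    ∑ k ∈ Finset.range M, Ac s M k = (1 + s) * M := by
  cases M with
  | zero => simp
  | succ M =>
    have h := vander (-s) (2 + s) M
    have e : -s + (2 + s) = 2 := by ring
    rw [e, pq_two] at h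
    push_cast
    rw [← h, Finset.mul_sum]
    apply Finset.sum_congr rfl
    intro k hk
    rw [Finset.mem_range] at hk
    unfold Ac
    have e2 : M + 1 - k = (M - k) + 1 := by omega
    rw [e2]
    have h2 := pq_shift (1 + s) (M - k)
    have e3 : (1 + s + 1 : ℂ) = 2 + s := by ring
    rw [e3] at h2
    push_cast
    linear_combination (pq (-s) k) * h2

theorem Ac_succ (s : ℂ) {M k : ℕ} (hk : k < M) :
    Ac s (M + 1) k * ((M - k : ℕ) : ℂ) = Ac s M k * (((M - k : ℕ) : ℂ) + (1 + s)) := by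
  unfold Ac
  have e : M + 1 - k = (M - k) + 1 := by omega
  rw [e]
  have h := pq_succ' (1 + s) (M - k)
  push_cast
  linear_combination (pq (-s) k * ((M - k : ℕ) : ℂ)) * h

/-- partial fraction expansion of a quotient of coefficients -/
theorem partial_frac (s : ℂ) (p : ℕ) (hs : ∀ k : ℕ, ((p + k : ℕ) : ℂ) - s ≠ 0) (M : ℕ) :
    pq (-s) p = pq (-s) (p + M) * (1 + ∑ k ∈ Finset.range M, Ac s M k / (((p + k : ℕ) : ℂ) - s)) := by
  induction M with
  | zero => simp
  | succ M ih =>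
    have hne := hs M
    have hpM : pq (-s) (p + M) * (((p + M : ℕ) : ℂ) - s)
        = pq (-s) (p + M + 1) * (((p + M : ℕ) : ℂ) + 1) := by
      have := pq_succ' (-s) (p + M)
      linear_combination -this
    have h1 : pq (-s) (p + M) = pq (-s) (p + (M + 1)) * ((((p + M : ℕ) : ℂ) + 1)
        / (((p + M : ℕ) : ℂ) - s)) := by
      rw [← add_assoc, mul_div_assoc', eq_div_iff hne, hpM]
    rw [ih, h1, mul_assoc]
    congr 1
    -- the coefficient identity
    have h2 : ∀ k ∈ Finset.range M, Ac s M k / (((p + k : ℕ) : ℂ) - s)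
        * ((((p + M : ℕ) : ℂ) + 1) / (((p + M : ℕ) : ℂ) - s))
        = Ac s (M + 1) k / (((p + k : ℕ) : ℂ) - s)
          - (1 + s) * (pq (1 + s) (M - k) * pq (-s) k) / (((p + M : ℕ) : ℂ) - s) := by
      intro k hk
      rw [Finset.mem_range] at hk
      have hk1 := hs k
      have hMk : ((M - k : ℕ) : ℂ) ≠ 0 := by
        have : M - k ≠ 0 := by omega
        exact_mod_cast this
      have e1 : Ac s (M + 1) k = Ac s M k * (((M - k : ℕ) : ℂ) + (1 + s)) / ((M - k : ℕ) : ℂ) := by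
        rw [eq_div_iff hMk, Ac_succ s hk]
      have e2 : pq (1 + s) (M - k) * pq (-s) k = Ac s M k / ((M - k : ℕ) : ℂ) := by
        rw [eq_div_iff hMk]
        unfold Ac; ring
      rw [e1, e2]
      have e3 : ((p + M : ℕ) : ℂ) = ((p + k : ℕ) : ℂ) + ((M - k : ℕ) : ℂ) := by
        rw [← Nat.cast_add]; congr 1; omega
      rw [e3] at hne ⊢
      field_simp
      ring
    rw [mul_add, mul_one, mul_comm _ (∑ k ∈ Finset.range M, _), Finset.sum_mul,
      Finset.sum_congr rfl h2, Finset.sum_sub_distrib, Finset.sum_range_succ (fun k => Ac s (M + 1) k / _)]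
    have h3 : ∑ k ∈ Finset.range M, (1 + s) * (pq (1 + s) (M - k) * pq (-s) k)
        / (((p + M : ℕ) : ℂ) - s) = (1 + s) * (1 - pq (-s) M) / (((p + M : ℕ) : ℂ) - s) := by
      rw [← Finset.sum_div, ← Finset.mul_sum]
      have h4 := conv_one s M
      rw [Finset.sum_range_succ, Nat.sub_self, pq_zero, one_mul] at h4
      have h4' : ∑ k ∈ Finset.range M, pq (1 + s) (M - k) * pq (-s) k = 1 - pq (-s) M := by
        linear_combination h4
      rw [h4']
    rw [h3]
    have h5 : Ac s (M + 1) M = (1 + s) * pq (-s) M := by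
      unfold Ac
      have : M + 1 - M = 1 := by omega
      rw [this]
      simp [pq]
    rw [h5]
    field_simp
    ring

theorem sum_tri (f : ℕ → ℕ → ℂ) (m : ℕ) :
    ∑ l ∈ Finset.range (m + 1), ∑ k ∈ Finset.range (m - l), f l (l + k)
      = ∑ i ∈ Finset.range m, ∑ l ∈ Finset.range (i + 1), f l i := by
  rw [Finset.sum_sigma', Finset.sum_sigma']
  apply Finset.sum_bij' (i := fun (x : (_ : ℕ) × ℕ) _ => (⟨x.1 + x.2, x.1⟩ : (_ : ℕ) × ℕ))
    (j := fun (x : (_ : ℕ) × ℕ) _ => (⟨x.2, x.1 - x.2⟩ : (_ : ℕ) × ℕ))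
  · rintro ⟨l, k⟩ h
    simp only [Finset.mem_sigma, Finset.mem_range] at h ⊢
    omega
  · rintro ⟨i, l⟩ h
    simp only [Finset.mem_sigma, Finset.mem_range] at h ⊢
    omega
  · rintro ⟨l, k⟩ h
    simp only [Finset.mem_sigma, Finset.mem_range] at h ⊢
    simp
  · rintro ⟨i, l⟩ h
    simp only [Finset.mem_sigma, Finset.mem_range] at h ⊢
    have : l + (i - l) = i := by omega
    simp [this]
  · rintro ⟨l, k⟩ h
    simp

/-- the sequence `V_i = ∑_{l ≤ min(i,m)} c_{i-l} d_l` -/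
noncomputable def Vd (s : ℂ) (d : ℕ → ℂ) (m i : ℕ) : ℂ :=
  ∑ l ∈ Finset.range (min i m + 1), pq (-s) (i - l) * d l

theorem g_formula (s : ℂ) (d : ℕ → ℂ) (m : ℕ) (hd : ∀ l ≤ m, d l = d (m - l)) :
    (1 + s) * (m * ∑ l ∈ Finset.range (m + 1), d l) / 2
      = ∑ i ∈ Finset.range m, ((m - i : ℕ) : ℂ) * pq (1 + s) (m - i) * Vd s d m i := by
  have h1 : ∑ l ∈ Finset.range (m + 1), ((m - l : ℕ) : ℂ) * d l
      = m * (∑ l ∈ Finset.range (m + 1), d l) / 2 := by
    have h2 : ∑ l ∈ Finset.range (m + 1), ((m - l : ℕ) : ℂ) * d l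
        = ∑ l ∈ Finset.range (m + 1), (l : ℂ) * d l := by
      rw [← Finset.sum_range_reflect]
      apply Finset.sum_congr rfl
      intro l hl
      rw [Finset.mem_range] at hl
      have e1 : m + 1 - 1 - l = m - l := by omega
      have e2 : m - (m - l) = l := by omega
      rw [e1, e2, ← hd l (by omega)]
    have h3 : ∑ l ∈ Finset.range (m + 1), ((m - l : ℕ) : ℂ) * d l
        + ∑ l ∈ Finset.range (m + 1), (l : ℂ) * d l = m * ∑ l ∈ Finset.range (m + 1), d l := by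
      rw [← Finset.sum_add_distrib, Finset.mul_sum]
      apply Finset.sum_congr rfl
      intro l hl
      rw [Finset.mem_range] at hl
      rw [Nat.cast_sub (by omega)]
      ring
    rw [← h2] at h3
    linear_combination h3 / 2
  have h4 : (1 + s) * (m * ∑ l ∈ Finset.range (m + 1), d l) / 2
      = ∑ l ∈ Finset.range (m + 1), ∑ k ∈ Finset.range (m - l), Ac s (m - l) k * d l := by
    rw [mul_div_assoc, ← h1, Finset.mul_sum]
    apply Finset.sum_congr rfl
    intro l _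
    rw [← Finset.sum_mul, conv_moment]
    ring
  rw [h4]
  have h5 := sum_tri (fun l i => ((m - i : ℕ) : ℂ) * pq (1 + s) (m - i) * pq (-s) (i - l) * d l) m
  have h6 : ∑ l ∈ Finset.range (m + 1), ∑ k ∈ Finset.range (m - l), Ac s (m - l) k * d l
      = ∑ l ∈ Finset.range (m + 1), ∑ k ∈ Finset.range (m - l),
        ((m - (l + k) : ℕ) : ℂ) * pq (1 + s) (m - (l + k)) * pq (-s) (l + k - l) * d l := by
    apply Finset.sum_congr rfl
    intro l _
    apply Finset.sum_congr rfl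
    intro k _
    unfold Ac
    have e1 : m - l - k = m - (l + k) := by omega
    have e2 : l + k - l = k := by omega
    rw [e1, e2]
  rw [h6, h5]
  apply Finset.sum_congr rfl
  intro i hi
  rw [Finset.mem_range] at hi
  unfold Vd
  have e : min i m = i := by omega
  rw [e, Finset.mul_sum]
  apply Finset.sum_congr rfl
  intro l _
  ring

/-- the values beyond the palindrome in terms of those before -/
theorem V_formula (s : ℂ) (d : ℕ → ℂ) (m j : ℕ) (hm : 1 ≤ m) (h1s : 1 + s ≠ 0)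
    (hd : ∀ l ≤ m, d l = d (m - l)) (hs : ∀ k : ℕ, ((j + k : ℕ) : ℂ) - s ≠ 0) :
    Vd s d m (m + j) = pq (-s) (m + j) * ∑ i ∈ Finset.range m,
      ((m - i : ℕ) : ℂ) * pq (1 + s) (m - i) * Vd s d m i
        * (2 / (m * (1 + s)) + 1 / (((j + i : ℕ) : ℂ) - s)) := by
  have hm0 : (m : ℂ) ≠ 0 := by
    have : m ≠ 0 := by omega
    exact_mod_cast this
  -- reflect
  have h1 : Vd s d m (m + j) = ∑ l ∈ Finset.range (m + 1), pq (-s) (j + l) * d l := by
    unfold Vd
    have e : min (m + j) m = m := by omega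
    rw [e, ← Finset.sum_range_reflect]
    apply Finset.sum_congr rfl
    intro l hl
    rw [Finset.mem_range] at hl
    have e1 : m + 1 - 1 - l = m - l := by omega
    have e2 : m + j - (m - l) = j + l := by omega
    rw [e1, e2, ← hd l (by omega)]
  have h2 : ∀ l ∈ Finset.range (m + 1), pq (-s) (j + l) * d l = pq (-s) (m + j) * (d l
      + ∑ k ∈ Finset.range (m - l), Ac s (m - l) k * d l / (((j + (l + k) : ℕ) : ℂ) - s)) := by
    intro l hl
    rw [Finset.mem_range] at hl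
    have h3 := partial_frac s (j + l) (fun k => by
      have := hs (l + k)
      rwa [← add_assoc] at this) (m - l)
    have e1 : j + l + (m - l) = m + j := by omega
    rw [e1] at h3
    rw [h3, mul_assoc]
    congr 1
    rw [add_mul, one_mul, Finset.sum_mul]
    congr 1
    apply Finset.sum_congr rfl
    intro k _
    rw [add_assoc]
    ring
  rw [h1, Finset.sum_congr rfl h2, ← Finset.mul_sum, Finset.sum_add_distrib]
  congr 1
  have h5 := sum_tri (fun l i => ((m - i : ℕ) : ℂ) * pq (1 + s) (m - i) * pq (-s) (i - l) * d l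
    / (((j + i : ℕ) : ℂ) - s)) m
  have h6 : ∑ l ∈ Finset.range (m + 1), ∑ k ∈ Finset.range (m - l), Ac s (m - l) k * d l
        / (((j + (l + k) : ℕ) : ℂ) - s)
      = ∑ l ∈ Finset.range (m + 1), ∑ k ∈ Finset.range (m - l),
        ((m - (l + k) : ℕ) : ℂ) * pq (1 + s) (m - (l + k)) * pq (-s) (l + k - l) * d l
          / (((j + (l + k) : ℕ) : ℂ) - s) := by
    apply Finset.sum_congr rfl
    intro l _
    apply Finset.sum_congr rfl
    intro k _
    unfold Ac
    have e1 : m - l - k = m - (l + k) := by omega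
    have e2 : l + k - l = k := by omega
    rw [e1, e2]
  rw [h6, h5]
  have h7 := g_formula s d m hd
  have h8 : ∑ l ∈ Finset.range (m + 1), d l = (2 / (m * (1 + s))) *
      ∑ i ∈ Finset.range m, ((m - i : ℕ) : ℂ) * pq (1 + s) (m - i) * Vd s d m i := by
    rw [← h7]
    (clear * - hm0 h1s; field_simp)
  rw [h8, Finset.mul_sum, ← Finset.sum_add_distrib]
  apply Finset.sum_congr rfl
  intro i hi
  rw [Finset.mem_range] at hi
  have h9 : ∑ l ∈ Finset.range (i + 1), ((m - i : ℕ) : ℂ) * pq (1 + s) (m - i) * pq (-s) (i - l)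
      * d l / (((j + i : ℕ) : ℂ) - s)
      = ((m - i : ℕ) : ℂ) * pq (1 + s) (m - i) * Vd s d m i / (((j + i : ℕ) : ℂ) - s) := by
    unfold Vd
    have e : min i m = i := by omega
    rw [e, Finset.mul_sum, Finset.sum_div]
    apply Finset.sum_congr rfl
    intro l _
    ring
  rw [h9]
  ring

end Pool.Agent.Helper22.Half
end

/- Helper24.K6w.H22.Half.Norms -/
section
/-!
Bounds for the coefficients of `(1-x)^{-1-s}` and `(1-x)^s`.
-/

set_option autoImplicit false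

namespace Pool.Agent.Helper22.Half

theorem pq_pos {z : ℝ} (hz : 0 < z) (n : ℕ) : 0 < pq z n := by
  induction n with
  | zero => simp [pq]
  | succ n ih => rw [pq_succ]; (clear * - ih hz; positivity)

theorem pq_mono_z {z w : ℝ} (hz : 0 < z) (hzw : z ≤ w) (n : ℕ) : pq z n ≤ pq w n := by
  induction n with
  | zero => simp [pq]
  | succ n ih =>
    rw [pq_succ, pq_succ]
    have := pq_pos hz n
    have := pq_pos (hz.trans_le hzw) n
    (clear * - ih hzw hz this; gcongr)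

theorem pq_mono_n {z : ℝ} (hz : 1 ≤ z) {a b : ℕ} (hab : a ≤ b) : pq z a ≤ pq z b := by
  induction b, hab using Nat.le_induction with
  | base => exact le_rfl
  | succ n _ ih =>
    refine ih.trans ?_
    rw [pq_succ]
    have h1 := pq_pos (by (clear * - hz; linarith only [hz]) : 0 < z) n
    have h2 : 1 ≤ (z + n) / (n + 1) := by
      rw [one_le_div (by (clear * -; positivity))]; (clear * - hz; linarith only [hz])
    (clear * - h1 h2; nlinarith only [h1, h2])

theorem normSq_one_add (s : ℂ) (n : ℕ) :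
    ‖1 + s + n‖ ^ 2 = ((n : ℝ) + 1) ^ 2 + 2 * s.re * (n + 1) + ‖s‖ ^ 2 := by
  rw [← Complex.normSq_eq_norm_sq, ← Complex.normSq_eq_norm_sq, Complex.normSq_apply,
    Complex.normSq_apply]
  simp only [Complex.add_re, Complex.one_re, Complex.natCast_re, Complex.add_im, Complex.one_im,
    Complex.natCast_im]
  ring

theorem normSq_nat_sub (s : ℂ) (n : ℕ) :
    ‖(n : ℂ) - s‖ ^ 2 = (n : ℝ) ^ 2 - 2 * s.re * n + ‖s‖ ^ 2 := by
  rw [← Complex.normSq_eq_norm_sq, ← Complex.normSq_eq_norm_sq, Complex.normSq_apply,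
    Complex.normSq_apply]
  simp only [Complex.sub_re, Complex.natCast_re, Complex.sub_im, Complex.natCast_im]
  ring

/-- the products `∏_{k=2}^{n+1} (1 + ρ / (k (k + 2r)))` -/
noncomputable def kap (r ρ : ℝ) : ℕ → ℝ
  | 0 => 1
  | n + 1 => kap r ρ n * (1 + ρ / (((n : ℝ) + 2) * (n + 2 + 2 * r)))

theorem kap_zero (r ρ : ℝ) : kap r ρ 0 = 1 := rfl

theorem kap_succ (r ρ : ℝ) (n : ℕ) :
    kap r ρ (n + 1) = kap r ρ n * (1 + ρ / (((n : ℝ) + 2) * (n + 2 + 2 * r))) := rfl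

theorem kap_ge_one {r ρ : ℝ} (hr : -1 < r) (hρ : 0 ≤ ρ) (n : ℕ) : 1 ≤ kap r ρ n := by
  induction n with
  | zero => exact le_rfl
  | succ n ih =>
    rw [kap_succ]
    have h1 : 0 ≤ ρ / (((n : ℝ) + 2) * (n + 2 + 2 * r)) := by
      apply div_nonneg hρ
      have : (0 : ℝ) ≤ n := Nat.cast_nonneg n
      apply mul_nonneg <;> (clear * - hr; linarith)
    (clear * - ih h1; nlinarith only [ih, h1])

theorem kap_mono {r ρ : ℝ} (hr : -1 < r) (hρ : 0 ≤ ρ) {a b : ℕ} (hab : a ≤ b) :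
    kap r ρ a ≤ kap r ρ b := by
  induction b, hab using Nat.le_induction with
  | base => exact le_rfl
  | succ n _ ih =>
    refine ih.trans ?_
    rw [kap_succ]
    have h0 := kap_ge_one hr hρ n
    have h1 : 0 ≤ ρ / (((n : ℝ) + 2) * (n + 2 + 2 * r)) := by
      apply div_nonneg hρ
      have : (0 : ℝ) ≤ n := Nat.cast_nonneg n
      apply mul_nonneg <;> (clear * - hr; linarith only [hr])
    (clear * - h1 h0; nlinarith only [h0, h1])

theorem norm_Q (s : ℂ) (hr : -1 < s.re) (n : ℕ) :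
    ((n : ℝ) + 1) * ‖pq (1 + s) (n + 1)‖ ^ 2
      = ‖1 + s‖ ^ 2 * kap s.re (‖s‖ ^ 2) n * pq (2 + 2 * s.re) n := by
  induction n with
  | zero => simp [pq, kap]
  | succ n ih =>
    have h1 : ‖pq (1 + s) (n + 1 + 1)‖ ^ 2 = ‖pq (1 + s) (n + 1)‖ ^ 2
        * ((((n : ℝ) + 2) ^ 2 + 2 * s.re * (n + 2) + ‖s‖ ^ 2) / ((n : ℝ) + 2) ^ 2) := by
      rw [pq_succ, norm_mul, norm_div, mul_pow, div_pow, normSq_one_add]
      have e : ‖((n + 1 : ℕ) : ℂ) + 1‖ = (n : ℝ) + 2 := by
        have : ((n + 1 : ℕ) : ℂ) + 1 = (((n : ℝ) + 2 : ℝ) : ℂ) := by push_cast; ring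
        rw [this, Complex.norm_real, Real.norm_of_nonneg (by (clear * -; positivity))]
      rw [e]
      push_cast
      ring
    have h2 : (0 : ℝ) < (n : ℝ) + 2 + 2 * s.re := by
      have : (0 : ℝ) ≤ n := Nat.cast_nonneg n
      (clear * - hr; linarith)
    rw [h1, kap_succ, pq_succ (2 + 2 * s.re)]
    push_cast
    have e2 : ((n : ℝ) + 1 + 1) * (‖pq (1 + s) (n + 1)‖ ^ 2
        * ((((n : ℝ) + 2) ^ 2 + 2 * s.re * (n + 2) + ‖s‖ ^ 2) / ((n : ℝ) + 2) ^ 2))
        = (((n : ℝ) + 1) * ‖pq (1 + s) (n + 1)‖ ^ 2)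
        * ((((n : ℝ) + 2) ^ 2 + 2 * s.re * (n + 2) + ‖s‖ ^ 2) / (((n : ℝ) + 2) * (n + 1))) := by
      field_simp
      ring
    rw [e2, ih]
    field_simp
    ring

theorem norm_c (s : ℂ) (hr : s.re < 1) (n : ℕ) :
    ((n : ℝ) + 2) ^ 2 * ‖pq (-s) (n + 2)‖ ^ 2 * (1 - 2 * s.re)
      = ‖s‖ ^ 2 * ((1 - 2 * s.re) + ‖s‖ ^ 2) * kap (-s.re) (‖s‖ ^ 2) n
        * pq (1 - 2 * s.re) (n + 1) := by
  induction n with
  | zero =>
    have h1 : ‖pq (-s) (0 + 2)‖ ^ 2 = ‖s‖ ^ 2 * ((1 - 2 * s.re) + ‖s‖ ^ 2) / 4 := by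
      have e : pq (-s) (0 + 2) = -s * ((((1 : ℕ) : ℂ) - s) / 2) := by
        rw [zero_add, pq_succ, pq_succ, pq_zero]
        push_cast
        ring
      rw [e, norm_mul, norm_div, mul_pow, div_pow, normSq_nat_sub, norm_neg, Complex.norm_two]
      push_cast
      ring
    rw [h1, zero_add, pq_succ, pq_zero, kap_zero]
    push_cast
    ring
  | succ n ih =>
    have h1 : ‖pq (-s) (n + 1 + 2)‖ ^ 2 = ‖pq (-s) (n + 2)‖ ^ 2
        * ((((n : ℝ) + 2) ^ 2 - 2 * s.re * (n + 2) + ‖s‖ ^ 2) / ((n : ℝ) + 3) ^ 2) := by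
      have e0 : n + 1 + 2 = (n + 2) + 1 := by ring
      rw [e0, pq_succ, norm_mul, norm_div, mul_pow, div_pow]
      have e1 : -s + ((n + 2 : ℕ) : ℂ) = ((n + 2 : ℕ) : ℂ) - s := by ring
      rw [e1, normSq_nat_sub]
      have e : ‖((n + 2 : ℕ) : ℂ) + 1‖ = (n : ℝ) + 3 := by
        have : ((n + 2 : ℕ) : ℂ) + 1 = (((n : ℝ) + 3 : ℝ) : ℂ) := by push_cast; ring
        rw [this, Complex.norm_real, Real.norm_of_nonneg (by (clear * -; positivity))]
      rw [e]
      push_cast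
      ring
    have h2 : (n : ℝ) + 2 - 2 * s.re ≠ 0 := by
      have : (0 : ℝ) ≤ n := Nat.cast_nonneg n
      apply ne_of_gt
      linarith only [hr]
    have h3 : (n : ℝ) + 2 + 2 * (-s.re) = (n : ℝ) + 2 - 2 * s.re := by ring
    have h4 : 1 - 2 * s.re + ((n + 1 : ℕ) : ℝ) = (n : ℝ) + 2 - 2 * s.re := by push_cast; ring
    have h5 : ((n + 1 : ℕ) : ℝ) + 1 = (n : ℝ) + 2 := by push_cast; ring
    rw [h1, kap_succ, pq_succ (1 - 2 * s.re) (n + 1), h3, h4, h5]
    push_cast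
    have e2 : ((n : ℝ) + 1 + 2) ^ 2 * (‖pq (-s) (n + 2)‖ ^ 2
        * ((((n : ℝ) + 2) ^ 2 - 2 * s.re * (n + 2) + ‖s‖ ^ 2) / ((n : ℝ) + 3) ^ 2)) * (1 - 2 * s.re)
        = (((n : ℝ) + 2) ^ 2 * ‖pq (-s) (n + 2)‖ ^ 2 * (1 - 2 * s.re))
          * ((((n : ℝ) + 2) ^ 2 - 2 * s.re * (n + 2) + ‖s‖ ^ 2) / ((n : ℝ) + 2) ^ 2) := by
      field_simp
      ring
    rw [e2, ih]
    have h6 : 1 - 2 * s.re = ((n : ℝ) + 2 - 2 * s.re) - (n + 1) := by ring
    have h7 : ((n : ℝ) + 2) ^ 2 - 2 * s.re * (n + 2) = ((n : ℝ) + 2) * ((n : ℝ) + 2 - 2 * s.re) := by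
      ring
    rw [h7]
    generalize pq (1 - 2 * s.re) (n + 1) = P
    generalize (1 - 2 * s.re + ‖s‖ ^ 2) = T
    generalize (n : ℝ) + 2 - 2 * s.re = u at h2
    (clear * - h2; field_simp)

/-- the constant `B` -/
noncomputable def Bc (r ρ : ℝ) : ℝ :=
  (1 + ρ / (2 * (2 + 2 * r))) * (1 + ρ / (2 * (2 - 2 * r))) * Real.exp (5 * ρ / 6)

theorem kap_step {r ρ : ℝ} (hr : 4 * r ^ 2 ≤ 1) (hρ : 0 ≤ ρ) {k : ℝ} (hk : 2 ≤ k) :
    (1 + ρ / (k * (k + 2 * r))) * (1 + ρ / (k * (k + 2 * (-r))))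
      ≤ Real.exp (ρ * (1 / (k - 1) - 1 / (k + 1))) := by
  have hr1 : -1 ≤ 2 * r ∧ 2 * r ≤ 1 := by
    constructor <;> (clear * - hr; nlinarith only [hr])
  have p1 : 0 < k + 2 * r := by (clear * - hk hr1; linarith)
  have p2 : 0 < k + 2 * (-r) := by linarith
  have h1 := Real.add_one_le_exp (ρ / (k * (k + 2 * r)))
  have h2 := Real.add_one_le_exp (ρ / (k * (k + 2 * (-r))))
  have h3 : ρ / (k * (k + 2 * r)) + ρ / (k * (k + 2 * (-r))) ≤ ρ * (1 / (k - 1) - 1 / (k + 1)) := by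
    have e1 : ρ / (k * (k + 2 * r)) + ρ / (k * (k + 2 * (-r)))
        = ρ * (2 / ((k + 2 * r) * (k + 2 * (-r)))) := by
      have : k ≠ 0 := by linarith only [p1, p2]
      have e0 : k + 2 * (-r) = k - 2 * r := by ring
      rw [e0] at p2 ⊢
      have e9 : k - 2 * r ≠ 0 := p2.ne'
      have e8 : k + 2 * r ≠ 0 := p1.ne'
      field_simp
      ring
    have e2 : 1 / (k - 1) - 1 / (k + 1) = 2 / ((k - 1) * (k + 1)) := by
      have q1 : k - 1 ≠ 0 := by (clear * - hk; linarith only [hk])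
      have q2 : k + 1 ≠ 0 := by linarith only [hr1, p1]
      field_simp
      ring
    rw [e1, e2]
    apply mul_le_mul_of_nonneg_left _ hρ
    apply div_le_div_of_nonneg_left (by norm_num)
    · have : 0 < k - 1 := by linarith only [hk]
      (clear * - this hk; positivity)
    · (clear * - hr1; nlinarith only [hr1])
  calc (1 + ρ / (k * (k + 2 * r))) * (1 + ρ / (k * (k + 2 * (-r))))
      ≤ Real.exp (ρ / (k * (k + 2 * r))) * Real.exp (ρ / (k * (k + 2 * (-r)))) := by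
        apply mul_le_mul
        · (clear * - h1; linarith)
        · linarith only [h2]
        · have : 0 ≤ ρ / (k * (k + 2 * (-r))) := by (clear * - hρ hk p2; positivity)
          (clear * - this; linarith)
        · exact (Real.exp_pos _).le
    _ = Real.exp (ρ / (k * (k + 2 * r)) + ρ / (k * (k + 2 * (-r)))) := (Real.exp_add _ _).symm
    _ ≤ _ := Real.exp_le_exp.mpr h3

theorem kap_prod {r ρ : ℝ} (hr : 4 * r ^ 2 ≤ 1) (hρ : 0 ≤ ρ) (n : ℕ) :
    kap r ρ (n + 1) * kap (-r) ρ (n + 1)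
      ≤ (1 + ρ / (2 * (2 + 2 * r))) * (1 + ρ / (2 * (2 - 2 * r)))
        * Real.exp (ρ * (5 / 6 - 1 / ((n : ℝ) + 2) - 1 / ((n : ℝ) + 3))) := by
  induction n with
  | zero =>
    rw [kap_succ, kap_succ, kap_zero, kap_zero]
    have e : (5 / 6 - 1 / (((0 : ℕ) : ℝ) + 2) - 1 / (((0 : ℕ) : ℝ) + 3)) = 0 := by norm_num
    rw [e, mul_zero, Real.exp_zero]
    push_cast
    apply le_of_eq
    ring_nf
  | succ n ih =>
    rw [kap_succ r ρ (n + 1), kap_succ (-r) ρ (n + 1)]
    have h1 := kap_step hr hρ (k := (n : ℝ) + 3) (by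
      have : (0 : ℝ) ≤ n := Nat.cast_nonneg n
      linarith only [])
    have hr1 : -1 ≤ 2 * r ∧ 2 * r ≤ 1 := by
      constructor <;> (clear * - hr; nlinarith only [hr])
    have g1 := kap_ge_one (by (clear * - hr1; linarith only [hr1]) : -1 < r) hρ (n + 1)
    have g2 := kap_ge_one (by linarith only [hr1] : -1 < -r) hρ (n + 1)
    push_cast
    have e3 : (n : ℝ) + 1 + 2 = n + 3 := by ring
    have e4 : (n : ℝ) + 1 + 3 = n + 4 := by ring
    rw [e3, e4]
    have f0 : 0 ≤ (1 + ρ / (((n : ℝ) + 3) * (n + 3 + 2 * r)))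
        * (1 + ρ / (((n : ℝ) + 3) * (n + 3 + 2 * (-r)))) := by
      have a1 : 0 ≤ (n : ℝ) + 3 + 2 * r := by
        have : (0 : ℝ) ≤ n := Nat.cast_nonneg n
        linarith only [hr1]
      have a2 : 0 ≤ (n : ℝ) + 3 + 2 * (-r) := by
        have : (0 : ℝ) ≤ n := Nat.cast_nonneg n
        (clear * - hr1; linarith only [hr1])
      (clear * - hρ a1 a2; positivity)
    calc kap r ρ (n + 1) * (1 + ρ / (((n : ℝ) + 3) * (n + 3 + 2 * r)))
          * (kap (-r) ρ (n + 1) * (1 + ρ / (((n : ℝ) + 3) * (n + 3 + 2 * (-r)))))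
        = (kap r ρ (n + 1) * kap (-r) ρ (n + 1)) * ((1 + ρ / (((n : ℝ) + 3) * (n + 3 + 2 * r)))
          * (1 + ρ / (((n : ℝ) + 3) * (n + 3 + 2 * (-r))))) := by ring
      _ ≤ ((1 + ρ / (2 * (2 + 2 * r))) * (1 + ρ / (2 * (2 - 2 * r)))
        * Real.exp (ρ * (5 / 6 - 1 / ((n : ℝ) + 2) - 1 / ((n : ℝ) + 3))))
          * Real.exp (ρ * (1 / ((n : ℝ) + 3 - 1) - 1 / ((n : ℝ) + 3 + 1))) := by
          apply mul_le_mul ih h1 f0
          have b1 : 0 ≤ 2 + 2 * r := by linarith only [hr1]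
          have b2 : 0 ≤ 2 - 2 * r := by linarith only [hr1]
          (clear * - hρ b1 b2; positivity)
      _ = _ := by
          rw [mul_assoc, ← Real.exp_add]
          congr 2
          have q : (n : ℝ) + 3 - 1 = n + 2 := by ring
          have q' : (n : ℝ) + 3 + 1 = n + 4 := by ring
          rw [q, q']
          ring

theorem kap_prod' {r ρ : ℝ} (hr : 4 * r ^ 2 ≤ 1) (hρ : 0 ≤ ρ) (a b : ℕ) :
    kap r ρ a * kap (-r) ρ b ≤ Bc r ρ := by
  have hr1 : -1 ≤ 2 * r ∧ 2 * r ≤ 1 := by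
    constructor <;> nlinarith only [hr]
  have m1 := kap_mono (by linarith only [hr1] : -1 < r) hρ (a := a) (b := a + b + 1) (by omega)
  have m2 := kap_mono (by linarith only [hr1] : -1 < -r) hρ (a := b) (b := a + b + 1) (by omega)
  have g2 := kap_ge_one (by linarith only [hr1] : -1 < -r) hρ b
  have g1 := kap_ge_one (by linarith only [hr1] : -1 < r) hρ (a + b + 1)
  have h := kap_prod hr hρ (a + b)
  calc kap r ρ a * kap (-r) ρ b ≤ kap r ρ (a + b + 1) * kap (-r) ρ (a + b + 1) := by gcongr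
    _ ≤ _ := h
    _ ≤ Bc r ρ := by
      unfold Bc
      have b1 : 0 ≤ 2 + 2 * r := by linarith only [hr1]
      have b2 : 0 ≤ 2 - 2 * r := by linarith only [hr1]
      apply mul_le_mul_of_nonneg_left _ (by (clear * - hρ b1 b2; positivity))
      apply Real.exp_le_exp.mpr
      have h1 : 0 ≤ 1 / (((a + b : ℕ) : ℝ) + 2) := by (clear * -; positivity)
      have h2 : 0 ≤ 1 / (((a + b : ℕ) : ℝ) + 3) := by positivity
      nlinarith only [hρ, h1, h2]

/-- the combined bound -/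
theorem QC_bound (s : ℂ) (hs : ‖s‖ < 1 / 2) (i k : ℕ) :
    (((i : ℝ) + 1) * ‖pq (1 + s) (i + 1)‖ ^ 2) * (((k : ℝ) + 2) ^ 2 * ‖pq (-s) (k + 2)‖ ^ 2)
        * (1 - 2 * s.re)
      ≤ ‖s‖ ^ 2 * ‖1 + s‖ ^ 2 * ((1 - 2 * s.re) + ‖s‖ ^ 2) * Bc s.re (‖s‖ ^ 2)
        * pq (2 + 2 * s.re) i * pq (1 - 2 * s.re) (k + 1) := by
  have hre := Complex.abs_re_le_norm s
  have hre2 := abs_le.mp (hre.trans hs.le)
  have hr4 : 4 * s.re ^ 2 ≤ 1 := by nlinarith only [hre2]
  have hc : 0 < 1 - 2 * s.re := by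
    have := (abs_lt.mp (hre.trans_lt hs)).2
    linarith only [this]
  rw [norm_Q s (by (clear * - hre2; linarith only [hre2])), mul_assoc (_ * _) (_ * _) (1 - 2 * s.re), norm_c s (by linarith only [hc])]
  have h := kap_prod' hr4 (sq_nonneg ‖s‖) i k
  have p1 := pq_pos (by linarith only [hre2] : 0 < 2 + 2 * s.re) i
  have p2 := pq_pos hc (k + 1)
  calc ‖1 + s‖ ^ 2 * kap s.re (‖s‖ ^ 2) i * pq (2 + 2 * s.re) i *
      (‖s‖ ^ 2 * (1 - 2 * s.re + ‖s‖ ^ 2) * kap (-s.re) (‖s‖ ^ 2) k * pq (1 - 2 * s.re) (k + 1))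
      = (‖s‖ ^ 2 * ‖1 + s‖ ^ 2 * ((1 - 2 * s.re) + ‖s‖ ^ 2) * pq (2 + 2 * s.re) i
        * pq (1 - 2 * s.re) (k + 1)) * (kap s.re (‖s‖ ^ 2) i * kap (-s.re) (‖s‖ ^ 2) k) := by ring
    _ ≤ (‖s‖ ^ 2 * ‖1 + s‖ ^ 2 * ((1 - 2 * s.re) + ‖s‖ ^ 2) * pq (2 + 2 * s.re) i
        * pq (1 - 2 * s.re) (k + 1)) * Bc s.re (‖s‖ ^ 2) := by
        apply mul_le_mul_of_nonneg_left h
        (clear * - hc p1 p2; positivity)
    _ = _ := by ring

end Pool.Agent.Helper22.Half
end

/- Helper24.K6w.H22.Half.PfDef -/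
section
/-!
The lower half form.
-/

set_option autoImplicit false

namespace Pool.Agent.Helper22.Half

/-- the lower half form -/
noncomputable def Pf (s : ℂ) (b : ℝ) (d : ℕ → ℂ) (m : ℕ) : ℝ :=
  ∑ i ∈ Finset.range m, ((m - i : ℕ) : ℝ) * (pq (b + 1 - 2 * s.re) i)⁻¹ * ‖Vd s d m i‖ ^ 2

theorem Pf_nonneg {s : ℂ} {b : ℝ} (hσ : 0 < b + 1 - 2 * s.re) (d : ℕ → ℂ) (m : ℕ) :
    0 ≤ Pf s b d m := by
  apply Finset.sum_nonneg
  intro i _
  have := pq_pos hσ i
  (clear * - this; positivity)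

end Pool.Agent.Helper22.Half
end

/- Helper24.K6w.H22.Half.CloseA -/
section
/-!
Finite double sums.
-/

set_option autoImplicit false

namespace Pool.Agent.Helper22.Half

/-- interchange of the finite sums -/
theorem double_fin {S : ℕ → ℕ → ℝ} {lam : ℕ → ℝ} {κ : ℝ}
    (hlam : ∀ i, 0 ≤ lam i)
    (h : ∀ i M : ℕ, ∑ m ∈ Finset.range M, ((m - i : ℕ) : ℝ) * S m i
      ≤ κ * ∑ m ∈ Finset.range i, ((i - m : ℕ) : ℝ) * S m i) (I : ℕ) :
    ∑ m ∈ Finset.range I, ∑ i ∈ Finset.range I, ((m - i : ℕ) : ℝ) * lam i * S m i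
      ≤ κ * ∑ m ∈ Finset.range I, ∑ i ∈ Finset.range I, ((i - m : ℕ) : ℝ) * lam i * S m i := by
  rw [Finset.sum_comm, Finset.sum_comm (f := fun m i => ((i - m : ℕ) : ℝ) * lam i * S m i),
    Finset.mul_sum]
  apply Finset.sum_le_sum
  intro i hi
  rw [Finset.mem_range] at hi
  have h1 := mul_le_mul_of_nonneg_left (h i I) (hlam i)
  have e1 : ∑ m ∈ Finset.range I, ((m - i : ℕ) : ℝ) * lam i * S m i
      = lam i * ∑ m ∈ Finset.range I, ((m - i : ℕ) : ℝ) * S m i := by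
    rw [Finset.mul_sum]
    apply Finset.sum_congr rfl
    intro m _; ring
  have e2 : ∑ m ∈ Finset.range I, ((i - m : ℕ) : ℝ) * lam i * S m i
      = lam i * ∑ m ∈ Finset.range i, ((i - m : ℕ) : ℝ) * S m i := by
    have hsub : Finset.range i ⊆ Finset.range I := by
      intro m hm
      rw [Finset.mem_range] at hm ⊢
      omega
    rw [← Finset.sum_subset hsub, Finset.mul_sum]
    · apply Finset.sum_congr rfl
      intro m _; ring
    · intro m _ hm
      rw [Finset.mem_range, not_lt] at hm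
      have : i - m = 0 := by omega
      rw [this]; simp
  rw [e1, e2]
  calc lam i * ∑ m ∈ Finset.range I, ((m - i : ℕ) : ℝ) * S m i
      ≤ lam i * (κ * ∑ m ∈ Finset.range i, ((i - m : ℕ) : ℝ) * S m i) := h1
    _ = _ := by ring

/-- the upper part written with an explicit index -/
theorem upper_eq (a : ℕ → ℝ) (m I : ℕ) :
    ∑ i ∈ Finset.range I, ((i - m : ℕ) : ℝ) * a i
      = ∑ j ∈ Finset.range (I - (m + 1)), ((j : ℝ) + 1) * a (m + 1 + j) := by
  rcases le_or_gt I (m + 1) with h | h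
  · have e : I - (m + 1) = 0 := by (clear * - h; omega)
    rw [e, Finset.sum_range_zero]
    apply Finset.sum_eq_zero
    intro i hi
    rw [Finset.mem_range] at hi
    have : i - m = 0 := by (clear * - h hi; omega)
    rw [this]; simp
  · obtain ⟨J, rfl⟩ : ∃ J, I = m + 1 + J := ⟨I - (m + 1), by omega⟩
    have e : m + 1 + J - (m + 1) = J := by omega
    rw [e, Finset.sum_range_add]
    have h0 : ∑ i ∈ Finset.range (m + 1), ((i - m : ℕ) : ℝ) * a i = 0 := by
      apply Finset.sum_eq_zero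
      intro i hi
      rw [Finset.mem_range] at hi
      have : i - m = 0 := by omega
      rw [this]; simp
    rw [h0, zero_add]
    apply Finset.sum_congr rfl
    intro j _
    have : m + 1 + j - m = j + 1 := by omega
    rw [this]
    push_cast
    ring

theorem lower_eq {s : ℂ} {b : ℝ} (d : ℕ → ℂ) {m I : ℕ} (hm : m < I) :
    ∑ i ∈ Finset.range I, ((m - i : ℕ) : ℝ) * (pq (b + 1 - 2 * s.re) i)⁻¹ * ‖Vd s d m i‖ ^ 2
      = Pf s b d m := by
  unfold Pf
  have hsub : Finset.range m ⊆ Finset.range I := by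
    intro i hi
    rw [Finset.mem_range] at hi ⊢
    omega
  rw [← Finset.sum_subset hsub]
  intro i _ hi
  rw [Finset.mem_range, not_lt] at hi
  have : m - i = 0 := by omega
  rw [this]; simp

end Pool.Agent.Helper22.Half
end

/- Helper24.K6w.H26.G4.Levels -/
section
/-!
# G4-LEVELS: the boxes and the levels of a point

`cn_eq`: for `u` in the open box number `d` of generation `k`, `(im u - ξ + 1/2) N^k ∈ (d, d + 1)`.
-/

set_option autoImplicit false
set_option linter.unusedVariables false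

namespace Pool.Agent.Helper26.G4

open MeasureTheory Set
open scoped Real
open Pool.Agent.Helper90.G2 (Bx Wn Fn ar ch Cen chi)

theorem Levels_one {N : ℕ} (hN : 2 ≤ N) : (1 : ℝ) < N := by
  exact_mod_cast (by omega : 1 < N)

theorem Levels_pow {N : ℕ} (hN : 2 ≤ N) (k : ℕ) : (0 : ℝ) < (N : ℝ) ^ k :=
  pow_pos (lt_trans one_pos (Levels_one hN)) k

theorem Levels_anti {N : ℕ} (hN : 2 ≤ N) {j k : ℕ} (h : j ≤ k) :
    1 / (N : ℝ) ^ k ≤ 1 / (N : ℝ) ^ j :=
  one_div_le_one_div_of_le (Levels_pow hN j) (pow_le_pow_right₀ (Levels_one hN).le h)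

theorem Levels_mem {N : ℕ} (hN : 2 ≤ N) {u : ℂ} (hu : 0 < u.re) :
    1 / (N : ℝ) ^ (lv N u + 1) ≤ u.re := by
  have hne : {K : ℕ | 1 / (N : ℝ) ^ (K + 1) ≤ u.re}.Nonempty := by
    obtain ⟨K, hK⟩ := exists_pow_lt_of_lt_one hu (inv_lt_one_of_one_lt₀ (Levels_one hN))
    refine ⟨K, ?_⟩
    have h1 : 1 / (N : ℝ) ^ (K + 1) ≤ 1 / (N : ℝ) ^ K := Levels_anti hN (Nat.le_succ K)
    rw [inv_pow, ← one_div] at hK
    exact h1.trans hK.le
  exact Nat.sInf_mem hne

theorem Levels_not {N : ℕ} {u : ℂ} {j : ℕ} (h : j < lv N u) :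
    u.re < 1 / (N : ℝ) ^ (j + 1) := by
  have := Nat.notMem_of_lt_sInf h
  exact not_le.mp this

theorem lv_spec {N : ℕ} (hN : 2 ≤ N) {u : ℂ} (hu : 0 < u.re) (hu1 : u.re < 1) :
    1 / (N : ℝ) ^ (lv N u + 1) ≤ u.re ∧ u.re < 1 / (N : ℝ) ^ (lv N u) := by
  refine ⟨Levels_mem hN hu, ?_⟩
  rcases Nat.eq_zero_or_pos (lv N u) with h | h
  · rw [h, pow_zero, div_one]
    exact hu1
  · have h1 := Levels_not (N := N) (u := u) (j := lv N u - 1) (by omega)
    rwa [Nat.sub_add_cancel h] at h1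

theorem lv_lt {N : ℕ} (hN : 2 ≤ N) {u : ℂ} (hu : 0 < u.re) {k : ℕ}
    (h : u.re < 1 / (N : ℝ) ^ (k + 1)) : k < lv N u := by
  by_contra hc
  have h1 := Levels_mem hN hu
  have h2 : 1 / (N : ℝ) ^ (k + 1) ≤ 1 / (N : ℝ) ^ (lv N u + 1) := Levels_anti hN (by omega)
  (clear * - h h1 h2; linarith only [h, h1, h2])

theorem lv_eq {N : ℕ} (hN : 2 ≤ N) {u : ℂ} {k : ℕ} (h1 : 1 / (N : ℝ) ^ (k + 1) < u.re)
    (h2 : u.re < 1 / (N : ℝ) ^ k) : lv N u = k := by
  refine le_antisymm (Nat.sInf_le h1.le) ?_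
  rcases k with _ | k
  · exact Nat.zero_le _
  · exact lv_lt hN (lt_trans (by
      have := Levels_pow hN (k + 1 + 1)
      (clear * - hN; positivity)) h1) h2

theorem cn_near {N : ℕ} (hN : 2 ≤ N) (ξ : ℝ) (k : ℕ) (x : ℝ) :
    |x - cn N ξ k x| ≤ 1 / (N : ℝ) ^ k / 2 := by
  have hp := Levels_pow hN k
  set y : ℝ := (x - ξ + 1 / 2) * (N : ℝ) ^ k with hy
  have h1 : x - cn N ξ k x = (y - (⌊y⌋ : ℝ) - 1 / 2) / (N : ℝ) ^ k := by
    rw [cn, ← hy]
    have h2 : x = y / (N : ℝ) ^ k + ξ - 1 / 2 := by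
      rw [hy]
      field_simp
      ring
    rw [h2]
    field_simp
    ring
  have h3 := Int.floor_le y
  have h4 := Int.lt_floor_add_one y
  rw [h1, abs_div, abs_of_pos hp]
  have h5 : |y - (⌊y⌋ : ℝ) - 1 / 2| ≤ 1 / 2 := by
    rw [abs_le]
    constructor <;> (clear * - h3 h4; linarith only [h3, h4])
  calc |y - (⌊y⌋ : ℝ) - 1 / 2| / (N : ℝ) ^ k ≤ (1 / 2) / (N : ℝ) ^ k :=
        div_le_div_of_nonneg_right h5 hp.le
    _ = 1 / (N : ℝ) ^ k / 2 := by ring

theorem Levels_ch (N : ℕ) (ξ : ℝ) (k d : ℕ) :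
    ch (N ^ k) ξ 1 d = ξ - 1 / 2 + ((d : ℝ) + 1 / 2) / (N : ℝ) ^ k := by
  rw [ch]
  push_cast
  ring

theorem cn_eq {N : ℕ} (hN : 2 ≤ N) {ξ : ℝ} {k d : ℕ} {x : ℝ}
    (h : |x - ch (N ^ k) ξ 1 d| < 1 / (N : ℝ) ^ k / 2) : cn N ξ k x = ch (N ^ k) ξ 1 d := by
  have hp := Levels_pow hN k
  rw [Levels_ch] at h ⊢
  rw [cn]
  have h1 : ⌊(x - ξ + 1 / 2) * (N : ℝ) ^ k⌋ = (d : ℤ) := by
    rw [Int.floor_eq_iff]
    rw [abs_lt] at h
    obtain ⟨h2, h3⟩ := h
    have h4 : (x - ξ + 1 / 2) * (N : ℝ) ^ k =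
        (x - (ξ - 1 / 2 + ((d : ℝ) + 1 / 2) / (N : ℝ) ^ k)) * (N : ℝ) ^ k + (d + 1 / 2) := by
      field_simp
      ring
    have h5 : (1 / (N : ℝ) ^ k / 2) * (N : ℝ) ^ k = 1 / 2 := by
      field_simp
    have h6 := mul_lt_mul_of_pos_right h2 hp
    have h7 := mul_lt_mul_of_pos_right h3 hp
    rw [neg_mul, h5] at h6
    rw [h5] at h7
    rw [h4]
    push_cast
    constructor <;> linarith only [h6, h7]
  rw [h1]
  push_cast
  ring

theorem vk_eq {N : ℕ} (hN : 2 ≤ N) {ξ : ℝ} {k d : ℕ} {u : ℂ}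
    (h : u ∈ Bx (ch (N ^ k) ξ 1 d) (1 / (N : ℝ) ^ k)) :
    vk N ξ k u = vt (ch (N ^ k) ξ 1 d) (1 / (N : ℝ) ^ k) := by
  rw [vk, cn_eq hN h.2.2]

theorem vk_zero {N : ℕ} {ξ : ℝ} {u : ℂ} (h : u ∈ Bx ξ 1) : vk N ξ 0 u = vt ξ 1 := by
  obtain ⟨-, -, h3⟩ := h
  rw [abs_lt] at h3
  have h1 : ⌊(u.im - ξ + 1 / 2) * (N : ℝ) ^ 0⌋ = 0 := by
    rw [Int.floor_eq_iff]
    rw [pow_zero, mul_one]
    push_cast
    constructor <;> (clear * - h3; linarith only [h3])
  rw [vk, cn, h1, pow_zero]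
  congr 1
  · push_cast
    ring
  · norm_num

/-- the child number `e` of the box number `d` -/
theorem ch_child {N : ℕ} (hN : 2 ≤ N) (ξ : ℝ) (k d e : ℕ) :
    ch (N ^ (k + 1)) ξ 1 (N * d + e) = ch N (ch (N ^ k) ξ 1 d) (1 / (N : ℝ) ^ k) e := by
  have hp := Levels_pow hN k
  have hN0 : (0 : ℝ) < N := lt_trans one_pos (Levels_one hN)
  rw [Levels_ch, Levels_ch, ch, pow_succ]
  push_cast
  field_simp
  ring

theorem bx_child {N : ℕ} (hN : 2 ≤ N) {ξ : ℝ} {k d : ℕ} (hd : d < N ^ k) :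
    Bx (ch (N ^ k) ξ 1 d) (1 / (N : ℝ) ^ k) ⊆ Bx ξ 1 := by
  have hp := Levels_pow hN k
  intro u hu
  obtain ⟨h1, h2, h3⟩ := hu
  have h4 : 1 / (N : ℝ) ^ k ≤ 1 := by
    have := Levels_anti hN (Nat.zero_le k)
    rwa [pow_zero, div_one] at this
  refine ⟨h1, lt_of_lt_of_le h2 h4, ?_⟩
  rw [Levels_ch, abs_lt] at h3
  have h5 : ((d : ℝ) + 1) ≤ (N : ℝ) ^ k := by exact_mod_cast hd
  have h6 : ((d : ℝ) + 1) / (N : ℝ) ^ k ≤ 1 := by
    rw [div_le_one hp]
    exact h5
  have h7 : 0 ≤ (d : ℝ) / (N : ℝ) ^ k := by (clear * - hN; positivity)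
  have h8 : ((d : ℝ) + 1 / 2) / (N : ℝ) ^ k = (d : ℝ) / (N : ℝ) ^ k + 1 / (N : ℝ) ^ k / 2 := by
    ring
  have h9 : ((d : ℝ) + 1) / (N : ℝ) ^ k = (d : ℝ) / (N : ℝ) ^ k + 1 / (N : ℝ) ^ k := by
    ring
  rw [h8] at h3
  rw [h9] at h6
  rw [abs_lt]
  constructor <;> linarith only [h3, h7, h6]

end Pool.Agent.Helper26.G4
end

/- Helper24.K6w.H90.G2.Rec -/
section
/-!
# G2-REC: the recursion, real numbers only

`o` = sum of the `Vp e`, `e ≠ d`. Case A: for some `d`, `o ≤ η v`.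
A1, `Cen κ N d`: `∑ V ≤ g Vp_d + (1-ε) w + (1+a) o + ε w ≤ g (v - w - o) + w + (1+a) o ≤ (g + a η) v`.
A2, not `Cen`: `∑_(e ≠ d) V ≤ (1+a) o + ε w ≤ (2η + ε) v`, `∑ χ V ≤ e^(-c) ∑ V + (1 - e^(-c)) ∑_(e≠d) V
≤ v + c (2η + ε) v`. In both cases `V_e ≤ ∑ V ≤ e^c v`, so `V_e^(1+θ) ≤ V_e (e^c v)^θ`.
Case B: for all `d`, `o > η v`: `V_d ≤ (1+a) Vp_d + w ≤ (1 - η/2) v`,
`∑ V^(1+θ) ≤ ((1-η/2) v)^θ e^c v ≤ e^(c - θη/2) v^(1+θ) ≤ v^(1+θ)`.
-/

set_option autoImplicit false

namespace Pool.Agent.Helper90.G2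

open Finset

/-- the weights are between `0` and `1` -/
theorem Rec_chi {κ c : ℝ} (hc : 0 ≤ c) (N d : ℕ) : 0 ≤ chi κ c N d ∧ chi κ c N d ≤ 1 := by
  unfold chi
  split_ifs
  · exact ⟨zero_le_one, le_refl _⟩
  · refine ⟨(Real.exp_pos _).le, ?_⟩
    rw [Real.exp_le_one_iff]
    (clear * - hc; linarith only [hc])

theorem Rec_sum (s : Finset ℕ) (X V : ℕ → ℝ) (hX : ∀ d ∈ s, 0 ≤ X d) (hV : ∀ d ∈ s, 0 ≤ V d)
    {m θ : ℝ} (hθ : 0 ≤ θ) (hm : ∀ d ∈ s, V d ≤ m) :
    ∑ d ∈ s, X d * V d ^ (1 + θ) ≤ m ^ θ * ∑ d ∈ s, X d * V d := by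
  rw [mul_sum]
  refine sum_le_sum fun d hd => ?_
  rw [Real.rpow_add_of_nonneg (hV d hd) zero_le_one hθ, Real.rpow_one]
  have h1 : V d ^ θ ≤ m ^ θ := Real.rpow_le_rpow (hV d hd) (hm d hd) hθ
  calc X d * (V d * V d ^ θ) = (X d * V d) * V d ^ θ := by ring
    _ ≤ (X d * V d) * m ^ θ := mul_le_mul_of_nonneg_left h1 (mul_nonneg (hX d hd) (hV d hd))
    _ = m ^ θ * (X d * V d) := by ring

theorem rec_real {N : ℕ} (hN : 0 < N) (Vp V : ℕ → ℝ) {κ v w a g c ε η θ : ℝ} (hw : 0 ≤ w)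
    (ha : 0 ≤ a) (ha1 : a ≤ 1) (haη : a ≤ η / 2) (hg : 1 ≤ g) (hc : 0 ≤ c) (hε : 0 ≤ ε) (hε1 : ε ≤ 1)
    (hη : 0 ≤ η) (hη1 : η ≤ 1) (hθ : 0 ≤ θ) (hcθ : c ≤ θ * (η / 2))
    (hV : ∀ d < N, 0 ≤ V d) (hVp : ∀ d < N, 0 ≤ Vp d) (h1 : w + ∑ d ∈ range N, Vp d ≤ v)
    (h2 : ∀ d < N, V d ≤ (1 + a) * Vp d + ε / N * w)
    (h3 : ∀ d < N, Cen κ N d → V d ≤ g * Vp d + (1 - ε) * w)
    (h4 : ∑ d ∈ range N, V d ≤ Real.exp c * v) :
    ∑ d ∈ range N, chi κ c N d * V d ^ (1 + θ) ≤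
      Real.exp (c * θ) * (g + a * η + c * (2 * η + ε)) * v ^ (1 + θ) := by
  have hN' : (0 : ℝ) < N := Nat.cast_pos.2 hN
  have hsp : 0 ≤ ∑ d ∈ range N, Vp d := sum_nonneg fun d hd => hVp d (mem_range.1 hd)
  have hv : 0 ≤ v := by (clear * - hw h1 hsp; linarith only [hw, h1, hsp])
  have hwv : w ≤ v := by (clear * - h1 hsp; linarith only [h1, hsp])
  have hχ0 : ∀ d ∈ range N, 0 ≤ chi κ c N d := fun d _ => (Rec_chi hc N d).1
  have hV0 : ∀ d ∈ range N, 0 ≤ V d := fun d hd => hV d (mem_range.1 hd)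
  have hVS : ∀ d ∈ range N, V d ≤ Real.exp c * v := fun d hd =>
    (single_le_sum hV0 hd).trans h4
  have hvθ : v ^ (1 + θ) = v * v ^ θ := by
    rw [Real.rpow_add_of_nonneg hv zero_le_one hθ, Real.rpow_one]
  have hvθ0 : 0 ≤ v ^ θ := Real.rpow_nonneg hv θ
  have hecθ : (Real.exp c * v) ^ θ = Real.exp (c * θ) * v ^ θ := by
    rw [Real.mul_rpow (Real.exp_pos c).le hv, ← Real.exp_mul]
  have haη0 : 0 ≤ a * η := mul_nonneg ha hη
  have hcη0 : 0 ≤ c * (2 * η + ε) := mul_nonneg hc (by (clear * - hε hη; linarith only [hε, hη]))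
  -- it is enough to bound the sum of the `χ V`
  have hfin : ∑ d ∈ range N, chi κ c N d * V d ≤ (g + a * η + c * (2 * η + ε)) * v →
      ∑ d ∈ range N, chi κ c N d * V d ^ (1 + θ) ≤
      Real.exp (c * θ) * (g + a * η + c * (2 * η + ε)) * v ^ (1 + θ) := by
    intro h
    refine (Rec_sum (range N) (fun d => chi κ c N d) V hχ0 hV0 hθ hVS).trans ?_
    rw [hecθ, hvθ]
    calc Real.exp (c * θ) * v ^ θ * ∑ d ∈ range N, chi κ c N d * V d
        ≤ Real.exp (c * θ) * v ^ θ * ((g + a * η + c * (2 * η + ε)) * v) :=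
          mul_le_mul_of_nonneg_left h (mul_nonneg (Real.exp_pos _).le hvθ0)
      _ = Real.exp (c * θ) * (g + a * η + c * (2 * η + ε)) * (v * v ^ θ) := by ring
  by_cases hA : ∃ d ∈ range N, ∑ e ∈ (range N).erase d, Vp e ≤ η * v
  · obtain ⟨d, hd, ho⟩ := hA
    have hdN := mem_range.1 hd
    have ho0 : 0 ≤ ∑ e ∈ (range N).erase d, Vp e :=
      sum_nonneg fun e he => hVp e (mem_range.1 (mem_of_mem_erase he))
    have hs1 : Vp d + ∑ e ∈ (range N).erase d, Vp e = ∑ e ∈ range N, Vp e :=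
      add_sum_erase (range N) Vp hd
    have hoth : ∑ e ∈ (range N).erase d, V e ≤
        (1 + a) * ∑ e ∈ (range N).erase d, Vp e + ((N : ℝ) - 1) * (ε / N * w) := by
      calc ∑ e ∈ (range N).erase d, V e
          ≤ ∑ e ∈ (range N).erase d, ((1 + a) * Vp e + ε / N * w) :=
            sum_le_sum fun e he => h2 e (mem_range.1 (mem_of_mem_erase he))
        _ = (1 + a) * ∑ e ∈ (range N).erase d, Vp e + ((N : ℝ) - 1) * (ε / N * w) := by
            rw [sum_add_distrib, ← mul_sum, sum_const, card_erase_of_mem hd, card_range,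
              nsmul_eq_mul, Nat.cast_sub hN, Nat.cast_one]
    have hNw : ((N : ℝ) - 1) * (ε / N * w) ≤ ε * w := by
      have e1 : ((N : ℝ) - 1) * (ε / N * w) = ε * w - ε * w / N := by
        (clear * - hN; field_simp)
      rw [e1]
      have : 0 ≤ ε * w / N := div_nonneg (mul_nonneg hε hw) hN'.le
      linarith only [this]
    generalize ∑ e ∈ (range N).erase d, Vp e = o at *
    by_cases hC : Cen κ N d
    · apply hfin
      have hs2 : V d + ∑ e ∈ (range N).erase d, V e = ∑ e ∈ range N, V e :=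
        add_sum_erase (range N) V hd
      have h5 := h3 d hdN hC
      have h6 : ∑ e ∈ range N, chi κ c N e * V e ≤ ∑ e ∈ range N, V e :=
        sum_le_sum fun e he => by
          have := mul_le_mul_of_nonneg_right (Rec_chi (κ := κ) hc N e).2 (hV0 e he)
          rwa [one_mul] at this
      have h7 : Vp d ≤ v - w - o := by linarith only [h1, hs1]
      have h8 : g * Vp d ≤ g * (v - w - o) := mul_le_mul_of_nonneg_left h7 (by linarith only [hg])
      have h9 : 0 ≤ (g - 1) * (w + o) := mul_nonneg (by linarith only [hg]) (by linarith only [hw, ho0])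
      have h10 : a * o ≤ a * (η * v) := mul_le_mul_of_nonneg_left ho ha
      have h11 : 0 ≤ c * (2 * η + ε) * v := mul_nonneg hcη0 hv
      linarith only [hNw, hoth, hs2, h5, h6, h8, h9, h10, h11]
    · apply hfin
      have hs2 : chi κ c N d * V d + ∑ e ∈ (range N).erase d, chi κ c N e * V e =
          ∑ e ∈ range N, chi κ c N e * V e :=
        add_sum_erase (range N) (fun e => chi κ c N e * V e) hd
      have hs3 : V d + ∑ e ∈ (range N).erase d, V e = ∑ e ∈ range N, V e :=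
        add_sum_erase (range N) V hd
      have hχd : chi κ c N d = Real.exp (-c) := by
        unfold chi
        rw [if_neg hC]
      have h6 : ∑ e ∈ (range N).erase d, chi κ c N e * V e ≤ ∑ e ∈ (range N).erase d, V e :=
        sum_le_sum fun e he => by
          have := mul_le_mul_of_nonneg_right (Rec_chi (κ := κ) hc N e).2
            (hV0 e (mem_of_mem_erase he))
          rwa [one_mul] at this
      have hoe : (1 + a) * o ≤ 2 * (η * v) := by
        have e1 : (1 + a) * o ≤ 2 * o := mul_le_mul_of_nonneg_right (by (clear * - ha1; linarith only [ha1])) ho0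
        linarith only [ho, e1]
      have hεw : ε * w ≤ ε * v := mul_le_mul_of_nonneg_left hwv hε
      have h12 : ∑ e ∈ (range N).erase d, V e ≤ (2 * η + ε) * v := by
        calc ∑ e ∈ (range N).erase d, V e ≤ (1 + a) * o + ((N : ℝ) - 1) * (ε / N * w) := hoth
          _ ≤ 2 * (η * v) + ε * v := by linarith only [hNw, hoe, hεw]
          _ = (2 * η + ε) * v := by ring
      have he1 : 1 - c ≤ Real.exp (-c) := by
        have := Real.add_one_le_exp (-c)
        linarith only [this]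
      have he2 : Real.exp (-c) ≤ 1 := by
        rw [Real.exp_le_one_iff]
        (clear * - hc; linarith only [hc])
      have he3 : Real.exp (-c) * (Real.exp c * v) = v := by
        rw [← mul_assoc, ← Real.exp_add, neg_add_cancel, Real.exp_zero, one_mul]
      have hO0 : 0 ≤ ∑ e ∈ (range N).erase d, V e :=
        sum_nonneg fun e he => hV0 e (mem_of_mem_erase he)
      generalize ∑ e ∈ (range N).erase d, V e = O at *
      rw [← hs2, hχd]
      have h13 : Real.exp (-c) * (V d + O) ≤ v := by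
        rw [hs3]
        refine (mul_le_mul_of_nonneg_left h4 (Real.exp_pos _).le).trans ?_
        rw [he3]
      have h14 : (1 - Real.exp (-c)) * O ≤ c * ((2 * η + ε) * v) :=
        mul_le_mul (by (clear * - he1; linarith only [he1])) h12 hO0 hc
      have h15 : v ≤ (g + a * η) * v := by
        have : 0 ≤ (g + a * η - 1) * v := mul_nonneg (by (clear * - hg haη0; linarith only [hg, haη0])) hv
        linarith only [this]
      calc Real.exp (-c) * V d + ∑ e ∈ (range N).erase d, chi κ c N e * V e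
          ≤ Real.exp (-c) * V d + O := by linarith only [h6]
        _ = Real.exp (-c) * (V d + O) + (1 - Real.exp (-c)) * O := by ring
        _ ≤ v + c * ((2 * η + ε) * v) := add_le_add h13 h14
        _ ≤ (g + a * η) * v + c * ((2 * η + ε) * v) := by linarith only [h15]
        _ = (g + a * η + c * (2 * η + ε)) * v := by ring
  · -- all children are small
    have hall : ∀ d ∈ range N, V d ≤ (1 - η / 2) * v := by
      intro d hd
      have hdN := mem_range.1 hd
      have ho : η * v < ∑ e ∈ (range N).erase d, Vp e := by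
        by_contra h
        exact hA ⟨d, hd, not_lt.1 h⟩
      have hs1 : Vp d + ∑ e ∈ (range N).erase d, Vp e = ∑ e ∈ range N, Vp e :=
        add_sum_erase (range N) Vp hd
      have h5 := h2 d hdN
      have h6 : ε / N * w ≤ w := by
        have e1 : ε / N ≤ 1 := by
          rw [div_le_one hN']
          have : (1 : ℝ) ≤ N := Nat.one_le_cast.2 hN
          linarith only [hε1, this]
        have := mul_le_mul_of_nonneg_right e1 hw
        (clear * - this; linarith only [this])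
      have h7 : Vp d ≤ v - w - η * v := by linarith only [h1, ho, hs1]
      have h8 : (1 + a) * Vp d ≤ (1 + a) * (v - w - η * v) :=
        mul_le_mul_of_nonneg_left h7 (by linarith only [ha])
      have h9 : 0 ≤ a * w := mul_nonneg ha hw
      have h10 : 0 ≤ a * (η * v) := mul_nonneg ha (mul_nonneg hη hv)
      have h11 : a * v ≤ η / 2 * v := mul_le_mul_of_nonneg_right haη hv
      linarith only [h5, h6, h8, h9, h10, h11]
    have h16 : ∑ d ∈ range N, chi κ c N d * V d ≤ Real.exp c * v := by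
      refine le_trans (sum_le_sum fun e he => ?_) h4
      have := mul_le_mul_of_nonneg_right (Rec_chi (κ := κ) hc N e).2 (hV0 e he)
      rwa [one_mul] at this
    have h17 : ((1 - η / 2) * v) ^ θ ≤ Real.exp (-(θ * (η / 2))) * v ^ θ := by
      rw [Real.mul_rpow (by (clear * - hη1; linarith only [hη1])) hv]
      refine mul_le_mul_of_nonneg_right ?_ hvθ0
      have e1 : 1 - η / 2 ≤ Real.exp (-(η / 2)) := by
        have := Real.add_one_le_exp (-(η / 2))
        linarith only [this]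
      calc (1 - η / 2) ^ θ ≤ Real.exp (-(η / 2)) ^ θ :=
            Real.rpow_le_rpow (by linarith only [hη1]) e1 hθ
        _ = Real.exp (-(θ * (η / 2))) := by
            rw [← Real.exp_mul]
            congr 1
            ring
    have h18 : Real.exp (-(θ * (η / 2))) * Real.exp c ≤ 1 := by
      rw [← Real.exp_add, Real.exp_le_one_iff]
      linarith only [hcθ]
    have h19 : 1 ≤ Real.exp (c * θ) := Real.one_le_exp (mul_nonneg hc hθ)
    have h20 : 1 ≤ Real.exp (c * θ) * (g + a * η + c * (2 * η + ε)) := by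
      have : (1 : ℝ) ≤ g + a * η + c * (2 * η + ε) := by linarith only [hg, haη0, hcη0]
      calc (1 : ℝ) = 1 * 1 := (one_mul 1).symm
        _ ≤ Real.exp (c * θ) * (g + a * η + c * (2 * η + ε)) :=
          mul_le_mul h19 this zero_le_one (by linarith only [h19])
    have h21 : 0 ≤ ∑ d ∈ range N, chi κ c N d * V d :=
      sum_nonneg fun e he => mul_nonneg (hχ0 e he) (hV0 e he)
    calc ∑ d ∈ range N, chi κ c N d * V d ^ (1 + θ)
        ≤ ((1 - η / 2) * v) ^ θ * ∑ d ∈ range N, chi κ c N d * V d :=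
          Rec_sum (range N) (fun d => chi κ c N d) V hχ0 hV0 hθ hall
      _ ≤ (Real.exp (-(θ * (η / 2))) * v ^ θ) * (Real.exp c * v) :=
          mul_le_mul h17 h16 h21 (mul_nonneg (Real.exp_pos _).le hvθ0)
      _ = (Real.exp (-(θ * (η / 2))) * Real.exp c) * (v * v ^ θ) := by ring
      _ ≤ 1 * (v * v ^ θ) := mul_le_mul_of_nonneg_right h18 (mul_nonneg hv hvθ0)
      _ ≤ (Real.exp (c * θ) * (g + a * η + c * (2 * η + ε))) * (v * v ^ θ) :=
          mul_le_mul_of_nonneg_right h20 (mul_nonneg hv hvθ0)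
      _ = Real.exp (c * θ) * (g + a * η + c * (2 * η + ε)) * v ^ (1 + θ) := by rw [hvθ]

end Pool.Agent.Helper90.G2
end

/- Helper24.K6w.H90.G2.Words -/
section
/-!
# G2-WORDS: iteration of the window inequality

`chK` is the product of the weights of the digits. Induction on `K`:
`ch N (ch (N^K) c ℓ d) (ℓ / N^K) e = ch (N^(K+1)) c ℓ (N d + e)`, and
`∑ over range (N^(K+1))` = double sum over `d < N^K`, `e < N` (`Words_sum`). Number of `e < N` which
are not `Cen`: `e + 1/2 < κ N` or `e + 1/2 > N - κ N`, at most `2 κ N + 2 ≤ 3 κ N`.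
-/

set_option autoImplicit false

namespace Pool.Agent.Helper90.G2

open Finset

/-- product of the weights of the digits -/
noncomputable def chK (κ c : ℝ) (N : ℕ) : ℕ → ℕ → ℝ
  | 0, _ => 1
  | K + 1, d => chK κ c N K (d / N) * chi κ c N (d % N)

theorem Words_chi_nonneg (κ c : ℝ) (N d : ℕ) : 0 ≤ chi κ c N d := by
  unfold chi
  split_ifs
  · exact zero_le_one
  · exact (Real.exp_pos _).le

/-- digits: a sum over `range (m * N)` is a double sum -/
theorem Words_sum (N : ℕ) (g : ℕ → ℝ) (m : ℕ) :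
    ∑ d ∈ range (m * N), g d = ∑ a ∈ range m, ∑ e ∈ range N, g (N * a + e) := by
  induction m with
  | zero => simp
  | succ m ih =>
    rw [add_mul, one_mul, sum_range_add, ih, sum_range_succ]
    congr 1
    refine sum_congr rfl fun e _ => ?_
    rw [mul_comm m N]

theorem chK_nonneg (κ c : ℝ) (N K d : ℕ) : 0 ≤ chK κ c N K d := by
  induction K generalizing d with
  | zero => exact zero_le_one
  | succ K ih => exact mul_nonneg (ih _) (Words_chi_nonneg κ c N _)

theorem Words_chK (κ c : ℝ) {N : ℕ} (hN : 0 < N) (K a e : ℕ) (he : e < N) :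
    chK κ c N (K + 1) (N * a + e) = chK κ c N K a * chi κ c N e := by
  have h1 : (N * a + e) / N = a := by
    rw [Nat.mul_add_div hN, Nat.div_eq_of_lt he, add_zero]
  have h2 : (N * a + e) % N = e := by
    rw [Nat.mul_add_mod, Nat.mod_eq_of_lt he]
  show chK κ c N K ((N * a + e) / N) * chi κ c N ((N * a + e) % N) = _
  rw [h1, h2]

theorem sum_chK (κ c : ℝ) {N : ℕ} (hN : 0 < N) (K : ℕ) :
    ∑ d ∈ range (N ^ K), chK κ c N K d = (∑ e ∈ range N, chi κ c N e) ^ K := by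
  induction K with
  | zero => simp [chK]
  | succ K ih =>
    rw [pow_succ, Words_sum, pow_succ, ← ih, sum_mul]
    refine sum_congr rfl fun a _ => ?_
    rw [mul_sum]
    exact sum_congr rfl fun e he => Words_chK κ c hN K a e (mem_range.1 he)

theorem sum_chi_ge {κ c : ℝ} (hκ : 0 < κ) (hκ1 : κ ≤ 1 / 4) (hc : 0 ≤ c) {N : ℕ}
    (hN : 2 ≤ κ * N) : (N : ℝ) * (1 - 3 * κ * c) ≤ ∑ e ∈ range N, chi κ c N e := by
  classical
  have hN0 : (0 : ℝ) < N := by
    by_contra h
    push Not at h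
    nlinarith only [hκ1, hN, h]
  obtain ⟨a, ha⟩ : ∃ a : ℕ, a = ⌈κ * N⌉₊ := ⟨_, rfl⟩
  have ha1 : κ * N ≤ a := by rw [ha]; exact Nat.le_ceil _
  have ha2 : (a : ℝ) < κ * N + 1 := by
    rw [ha]
    exact Nat.ceil_lt_add_one (by (clear * - hN; linarith only [hN]))
  have hsub : (range N).filter (fun d => ¬ Cen κ N d) ⊆ range a ∪ Ico (N - a) N := by
    intro d hd
    rw [mem_filter, mem_range] at hd
    obtain ⟨hdN, hd⟩ := hd
    unfold Cen at hd
    rw [not_le, lt_abs] at hd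
    rw [mem_union, mem_range, mem_Ico]
    rcases hd with hd | hd
    · right
      refine ⟨?_, hdN⟩
      have h1 : 1 - κ < ((d : ℝ) + 1 / 2) / N := by (clear * - hd; linarith)
      rw [lt_div_iff₀ hN0] at h1
      have h2 : (N : ℝ) < d + a + 1 := by linarith only [ha1, h1]
      have h3 : N < d + a + 1 := by exact_mod_cast h2
      omega
    · left
      have h1 : ((d : ℝ) + 1 / 2) / N < κ := by (clear * - hd; linarith)
      rw [div_lt_iff₀ hN0] at h1
      have h2 : (d : ℝ) < a := by linarith only [ha1, h1]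
      exact_mod_cast h2
  have hcard : (((range N).filter (fun d => ¬ Cen κ N d)).card : ℝ) ≤ 3 * κ * N := by
    have h1 : ((range N).filter (fun d => ¬ Cen κ N d)).card ≤ a + a := by
      refine (card_le_card hsub).trans ((card_union_le _ _).trans ?_)
      rw [card_range, Nat.card_Ico]
      omega
    have h2 : (((range N).filter (fun d => ¬ Cen κ N d)).card : ℝ) ≤ a + a := by
      exact_mod_cast h1
    linarith only [hN, ha2, h2]
  have hterm : ∀ e ∈ range N, 1 - (if ¬ Cen κ N e then c else 0) ≤ chi κ c N e := by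
    intro e _
    unfold chi
    by_cases h : Cen κ N e
    · rw [if_neg (not_not.2 h), if_pos h, sub_zero]
    · rw [if_pos h, if_neg h]
      have := Real.add_one_le_exp (-c)
      linarith only [this]
  refine le_trans ?_ (sum_le_sum hterm)
  rw [sum_sub_distrib, sum_const, card_range, nsmul_eq_mul, mul_one, ← sum_filter, sum_const,
    nsmul_eq_mul]
  have h4 : (((range N).filter (fun d => ¬ Cen κ N d)).card : ℝ) * c ≤ 3 * κ * N * c :=
    mul_le_mul_of_nonneg_right hcard hc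
  linarith only [h4]

theorem Words_ch {N : ℕ} (hN : 1 ≤ N) (K a e : ℕ) (c ℓ : ℝ) :
    ch N (ch (N ^ K) c ℓ a) (ℓ / ((N ^ K : ℕ) : ℝ)) e = ch (N ^ (K + 1)) c ℓ (N * a + e) := by
  have hN0 : (N : ℝ) ≠ 0 := by
    have : 0 < N := hN
    (clear * - hN; positivity)
  unfold ch
  push_cast
  field_simp
  ring

theorem words {f : ℝ → ℝ → ℝ} {κ c' G : ℝ} {N : ℕ} (hN : 1 ≤ N) (hG : 0 ≤ G)
    (h : ∀ c ℓ : ℝ, 0 < ℓ → ℓ ≤ 1 →
      ∑ d ∈ range N, chi κ c' N d * f (ch N c ℓ d) (ℓ / N) ≤ G * f c ℓ) (K : ℕ) :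
    ∀ c ℓ : ℝ, 0 < ℓ → ℓ ≤ 1 →
      ∑ d ∈ range (N ^ K), chK κ c' N K d * f (ch (N ^ K) c ℓ d) (ℓ / ((N ^ K : ℕ) : ℝ)) ≤
        G ^ K * f c ℓ := by
  have hN1 : (1 : ℝ) ≤ N := by exact_mod_cast hN
  induction K with
  | zero =>
    intro c ℓ _ _
    have e1 : ch (N ^ 0) c ℓ 0 = c := by
      unfold ch
      push_cast
      rw [pow_zero]
      ring
    have e2 : ℓ / ((N ^ 0 : ℕ) : ℝ) = ℓ := by
      rw [pow_zero, Nat.cast_one, div_one]
    rw [e2]
    have e3 : ∑ d ∈ range (N ^ 0), chK κ c' N 0 d * f (ch (N ^ 0) c ℓ d) ℓ =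
        f (ch (N ^ 0) c ℓ 0) ℓ := by
      simp [chK]
    rw [e3, e1, pow_zero, one_mul]
  | succ K ih =>
    intro c ℓ hℓ hℓ1
    obtain ⟨r, hr⟩ : ∃ r : ℝ, r = ℓ / ((N ^ K : ℕ) : ℝ) := ⟨_, rfl⟩
    have hNK : (1 : ℝ) ≤ ((N ^ K : ℕ) : ℝ) := by
      push_cast
      exact one_le_pow₀ hN1
    have hr0 : 0 < r := by
      rw [hr]
      (clear * - hℓ hN; positivity)
    have hr1 : r ≤ 1 := by
      rw [hr, div_le_one (by (clear * - hNK; linarith only [hNK]))]
      linarith only [hℓ1, hNK]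
    have e1 : ℓ / ((N ^ (K + 1) : ℕ) : ℝ) = r / N := by
      rw [hr, div_div]
      push_cast
      rw [pow_succ]
    rw [e1]
    have e2 : ∑ d ∈ range (N ^ (K + 1)), chK κ c' N (K + 1) d * f (ch (N ^ (K + 1)) c ℓ d) (r / N) =
        ∑ a ∈ range (N ^ K), chK κ c' N K a *
          ∑ e ∈ range N, chi κ c' N e * f (ch N (ch (N ^ K) c ℓ a) r e) (r / N) := by
      rw [pow_succ, Words_sum]
      refine sum_congr rfl fun a _ => ?_
      rw [mul_sum]
      refine sum_congr rfl fun e he => ?_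
      rw [Words_chK κ c' hN K a e (mem_range.1 he), hr, Words_ch hN, ← pow_succ]
      ring
    rw [e2]
    calc ∑ a ∈ range (N ^ K), chK κ c' N K a *
          ∑ e ∈ range N, chi κ c' N e * f (ch N (ch (N ^ K) c ℓ a) r e) (r / N)
        ≤ ∑ a ∈ range (N ^ K), chK κ c' N K a * (G * f (ch (N ^ K) c ℓ a) r) :=
          sum_le_sum fun a _ => mul_le_mul_of_nonneg_left (h _ _ hr0 hr1) (chK_nonneg _ _ _ _ _)
      _ = G * ∑ a ∈ range (N ^ K), chK κ c' N K a * f (ch (N ^ K) c ℓ a) r := by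
          rw [mul_sum]
          exact sum_congr rfl fun a _ => by ring
      _ ≤ G * (G ^ K * f c ℓ) := by
          refine mul_le_mul_of_nonneg_left ?_ hG
          have := ih c ℓ hℓ hℓ1
          rwa [← hr] at this
      _ = G ^ (K + 1) * f c ℓ := by ring

end Pool.Agent.Helper90.G2
end

/- Helper24.K6w.H26.G4.WordsB -/
section
/-!
# G4-WORDSB: iteration of the window inequality for a functional of the nodes

Induction on `K`, `Pool.Agent.Helper90.G2.Words_sum`, `Words_chK` (see the proof of `words`).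
-/

set_option autoImplicit false

namespace Pool.Agent.Helper26.G4

open Finset
open Pool.Agent.Helper90.G2 (chi chK)

theorem words4 {f : ℕ → ℕ → ℝ} {κ c' G : ℝ} {N : ℕ} (hN : 1 ≤ N) (hG : 0 ≤ G)
    (h : ∀ k d : ℕ, d < N ^ k → ∑ e ∈ range N, chi κ c' N e * f (k + 1) (N * d + e) ≤ G * f k d)
    (K : ℕ) : ∑ d ∈ range (N ^ K), chK κ c' N K d * f K d ≤ G ^ K * f 0 0 := by
  induction K with
  | zero => simp [chK]
  | succ K ih =>
    calc ∑ d ∈ range (N ^ (K + 1)), chK κ c' N (K + 1) d * f (K + 1) d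
        = ∑ a ∈ range (N ^ K), chK κ c' N K a *
            ∑ e ∈ range N, chi κ c' N e * f (K + 1) (N * a + e) := by
          rw [pow_succ, Pool.Agent.Helper90.G2.Words_sum]
          refine sum_congr rfl fun a _ => ?_
          rw [mul_sum]
          refine sum_congr rfl fun e he => ?_
          rw [Pool.Agent.Helper90.G2.Words_chK κ c' hN K a e (mem_range.1 he)]
          ring
      _ ≤ ∑ a ∈ range (N ^ K), chK κ c' N K a * (G * f K a) :=
          sum_le_sum fun a ha => mul_le_mul_of_nonneg_left (h K a (mem_range.1 ha))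
            (Pool.Agent.Helper90.G2.chK_nonneg _ _ _ _ _)
      _ = G * ∑ a ∈ range (N ^ K), chK κ c' N K a * f K a := by
          rw [mul_sum]
          exact sum_congr rfl fun a _ => by ring
      _ ≤ G * (G ^ K * f 0 0) := mul_le_mul_of_nonneg_left ih hG
      _ = G ^ (K + 1) * f 0 0 := by ring

end Pool.Agent.Helper26.G4
end

/- Helper26.G4.Cross -/
section
/-!
# G4-CROSS: a crossing

`b'` = the first time `f = α`, `b` = the last time before `b'` with `f = β`.
-/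

set_option autoImplicit false

namespace Pool.Agent.Helper26.G4

open MeasureTheory Set
open scoped Real
open Pool.Agent.Helper90.G2 (Bx Wn Fn ar ch Cen chi)

theorem cross {f : ℝ → ℝ} {x y α β : ℝ} (hxy : x ≤ y) (hf : ContinuousOn f (Icc x y)) (hαβ : α < β)
    (h1 : β ≤ f x) (h2 : f y ≤ α) :
    ∃ b b' : ℝ, x ≤ b ∧ b < b' ∧ b' ≤ y ∧ f b = β ∧ f b' = α ∧ ∀ s ∈ Icc b b', α ≤ f s ∧ f s ≤ β := by
  set S : Set ℝ := Icc x y ∩ f ⁻¹' Iic α with hS
  have hSc : IsClosed S := hf.preimage_isClosed_of_isClosed isClosed_Icc isClosed_Iic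
  have hSn : S.Nonempty := ⟨y, ⟨hxy, le_rfl⟩, h2⟩
  have hSb : BddBelow S := ⟨x, fun s hs => hs.1.1⟩
  have hb' : sInf S ∈ S := hSc.csInf_mem hSn hSb
  set b' := sInf S with hb'def
  have hfb' : f b' = α := by
    obtain ⟨s, hs, hfs⟩ := intermediate_value_Icc' hb'.1.1
      (hf.mono (Icc_subset_Icc le_rfl hb'.1.2)) ⟨hb'.2, (hαβ.le.trans h1)⟩
    have hsS : s ∈ S := ⟨⟨hs.1, hs.2.trans hb'.1.2⟩, hfs.le⟩
    have h3 : b' ≤ s := csInf_le hSb hsS
    have h4 : s = b' := le_antisymm hs.2 h3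
    rw [← h4]
    exact hfs
  set T : Set ℝ := Icc x b' ∩ f ⁻¹' Ici β with hT
  have hTc : IsClosed T := (hf.mono (Icc_subset_Icc le_rfl hb'.1.2)).preimage_isClosed_of_isClosed
    isClosed_Icc isClosed_Ici
  have hTn : T.Nonempty := ⟨x, ⟨le_rfl, hb'.1.1⟩, h1⟩
  have hTb : BddAbove T := ⟨b', fun s hs => hs.1.2⟩
  have hb : sSup T ∈ T := hTc.csSup_mem hTn hTb
  set b := sSup T with hbdef
  have hfb : f b = β := by
    obtain ⟨s, hs, hfs⟩ := intermediate_value_Icc' hb.1.2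
      (hf.mono (Icc_subset_Icc hb.1.1 hb'.1.2)) ⟨hfb'.le.trans hαβ.le, hb.2⟩
    have hsT : s ∈ T := ⟨⟨hb.1.1.trans hs.1, hs.2⟩, hfs.ge⟩
    have h3 : s ≤ b := le_csSup hTb hsT
    have h4 : s = b := le_antisymm h3 hs.1
    rw [← h4]
    exact hfs
  have hbb' : b < b' := by
    refine lt_of_le_of_ne hb.1.2 ?_
    intro h
    rw [h, hfb'] at hfb
    exact hαβ.ne hfb
  refine ⟨b, b', hb.1.1, hbb', hb'.1.2, hfb, hfb', ?_⟩
  intro s hs
  constructor
  · by_contra h
    rw [not_le] at h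
    have hsS : s ∈ S := ⟨⟨hb.1.1.trans hs.1, hs.2.trans hb'.1.2⟩, h.le⟩
    have h3 : b' ≤ s := csInf_le hSb hsS
    have h4 : s = b' := le_antisymm hs.2 h3
    rw [h4, hfb'] at h
    exact lt_irrefl _ h
  · by_contra h
    rw [not_le] at h
    have hsT : s ∈ T := ⟨⟨hb.1.1.trans hs.1, hs.2⟩, h.le⟩
    have h3 : s ≤ b := le_csSup hTb hsT
    have h4 : s = b := le_antisymm h3 hs.1
    rw [h4, hfb] at h
    exact lt_irrefl _ h

end Pool.Agent.Helper26.G4
end

/- Helper24.K6w.H26.G4.Freeze -/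
section
/-!
# G4-FREEZE: the combinatorial freeze lemma

Strong induction on `K - k`: from a level `k` where `y k = a k`: if `k` is not bad put `y (k + 1) = a (k + 1)`;
if `k` is bad take `k'`, put `y j = a k + (j - k) / (k' - k) * (a k' - a k)` for `k ≤ j ≤ k'` (the increments are at
most `C / L ≤ e`) and go on from `k'`. (State the induction for sequences which start at `k`.)
-/

set_option autoImplicit false

namespace Pool.Agent.Helper26.G4

open MeasureTheory Set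
open scoped Real
open Pool.Agent.Helper90.G2 (Bx Wn Fn ar ch Cen chi)

private theorem freeze_aux {a : ℕ → ℝ} {bad : ℕ → Prop} {e C : ℝ} {L K : ℕ} (hL : 1 ≤ L)
    (hC : C ≤ L * e)
    (h : ∀ k < K, bad k → ∃ k' : ℕ, k + L ≤ k' ∧ k' ≤ K ∧ |a k' - a k| ≤ C) :
    ∀ m k : ℕ, k ≤ K → K - k = m →
      ∃ y : ℕ → ℝ, y k = a k ∧ y K = a K ∧ ∀ j, k ≤ j → j < K →
        (y (j + 1) ≤ y j + e ∨ (¬ bad j ∧ y j = a j ∧ y (j + 1) = a (j + 1))) := by
  intro m
  induction m using Nat.strong_induction_on with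
  | _ m ih =>
    intro k hk hm
    rcases hk.eq_or_lt with rfl | hlt
    · exact ⟨a, rfl, rfl, fun j h1 h2 => absurd h2 (not_lt.2 h1)⟩
    · by_cases hb : bad k
      · obtain ⟨k', h1, h2, h3⟩ := h k hlt hb
        have hkk' : k < k' := by omega
        obtain ⟨y', e1, e2, e3⟩ := ih (K - k') (by omega) k' h2 rfl
        have hC0 : 0 ≤ C := (abs_nonneg _).trans h3
        have hd : (0 : ℝ) < (k' : ℝ) - k := by
          rw [sub_pos]
          exact_mod_cast hkk'
        have hLd : (L : ℝ) ≤ (k' : ℝ) - k := by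
          have : ((k + L : ℕ) : ℝ) ≤ (k' : ℝ) := by exact_mod_cast h1
          push_cast at this
          linarith only [this]
        have hL0 : (0 : ℝ) < L := by exact_mod_cast hL
        have he0 : 0 ≤ e := by
          by_contra hne
          push Not at hne
          have : (L : ℝ) * e < 0 := mul_neg_of_pos_of_neg hL0 hne
          (clear * - hC hC0 this; linarith only [hC, hC0, this])
        have hinc : (a k' - a k) / ((k' : ℝ) - k) ≤ e := by
          rw [div_le_iff₀ hd]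
          calc a k' - a k ≤ |a k' - a k| := le_abs_self _
            _ ≤ C := h3
            _ ≤ L * e := hC
            _ ≤ ((k' : ℝ) - k) * e := by (clear * - hLd he0; gcongr)
            _ = e * ((k' : ℝ) - k) := mul_comm _ _
        set g : ℕ → ℝ := fun j => a k + ((j : ℝ) - k) * ((a k' - a k) / ((k' : ℝ) - k)) with hg
        have hgk' : g k' = a k' := by
          simp only [hg]
          field_simp
          ring
        set y : ℕ → ℝ := fun j => if j < k' then g j else y' j with hy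
        have hyle : ∀ j, j ≤ k' → y j = g j := by
          intro j hj
          rcases hj.eq_or_lt with rfl | hj
          · simp only [hy, lt_irrefl, if_false]
            rw [e1, hgk']
          · simp only [hy, hj, if_true]
        have hyge : ∀ j, k' ≤ j → y j = y' j := by
          intro j hj
          simp only [hy, not_lt.2 hj, if_false]
        refine ⟨y, ?_, ?_, ?_⟩
        · rw [hyle k hkk'.le]
          simp [hg]
        · rw [hyge K h2, e2]
        · intro j hj1 hj2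
          by_cases hjk : j < k'
          · left
            rw [hyle j hjk.le, hyle (j + 1) hjk]
            have : g (j + 1) = g j + (a k' - a k) / ((k' : ℝ) - k) := by
              simp only [hg]
              push_cast
              ring
            rw [this]
            linarith only [hinc]
          · push Not at hjk
            rw [hyge j hjk, hyge (j + 1) (hjk.trans (Nat.le_succ j))]
            exact e3 j hjk hj2
      · obtain ⟨y', e1, e2, e3⟩ := ih (K - (k + 1)) (by (clear * - L hm hlt; omega)) (k + 1) hlt rfl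
        refine ⟨fun j => if j ≤ k then a k else y' j, by simp, ?_, ?_⟩
        · have : ¬ K ≤ k := by omega
          simp only [this, if_false]
          exact e2
        · intro j hj1 hj2
          rcases hj1.eq_or_lt with rfl | hj
          · right
            refine ⟨hb, by simp, ?_⟩
            have : ¬ k + 1 ≤ k := by omega
            simp only [this, if_false]
            exact e1
          · have h1 : ¬ j ≤ k := by omega
            have h2 : ¬ j + 1 ≤ k := by omega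
            simp only [h1, h2, if_false]
            exact e3 j hj hj2

theorem freeze {a : ℕ → ℝ} {bad : ℕ → Prop} {e C : ℝ} {L K : ℕ} (hL : 1 ≤ L) (hC : C ≤ L * e)
    (h : ∀ k < K, bad k → ∃ k' : ℕ, k + L ≤ k' ∧ k' ≤ K ∧ |a k' - a k| ≤ C) :
    ∃ y : ℕ → ℝ, Fz a bad e K y := by
  obtain ⟨y, h0, h1, h2⟩ := freeze_aux hL hC h (K - 0) 0 (Nat.zero_le K) rfl
  exact ⟨y, h0, h1, fun k hk => h2 k (Nat.zero_le k) hk⟩

end Pool.Agent.Helper26.G4
end
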