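import Mathlib

/- Helper24.K6w.H24.Br.Inj -/
section
/-!
Two classical facts: the derivative of an injective holomorphic function has no zero, and a
holomorphic function without zeros on the disc has a holomorphic logarithm.
-/

set_option autoImplicit false

open Set Metric Filter Topology

namespace Pool.Agent.Helper24.Br

/-- the derivative of an injective holomorphic function has no zero -/
theorem deriv_ne_of_inj {f : ℂ → ℂ} {U : Set ℂ} (hU : IsOpen U) (hf : DifferentiableOn ℂ f U)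
    (hinj : InjOn f U) {z : ℂ} (hz : z ∈ U) : deriv f z ≠ 0 := by
  intro h0
  have hUz : U ∈ 𝓝 z := hU.mem_nhds hz
  have hfa : AnalyticAt ℂ f z := hf.analyticAt hUz
  have hFa : AnalyticAt ℂ (fun w => f w - f z) z := hfa.sub analyticAt_const
  have hnc : ¬ ∀ᶠ w in 𝓝 z, f w - f z = 0 := by
    intro hev
    have h1 : ∀ᶠ w in 𝓝 z, w = z := by
      filter_upwards [hev, hUz] with w hw hwU
      exact hinj hwU hz (by linear_combination hw)
    have h2 : ∀ᶠ w in 𝓝[≠] z, w = z := h1.filter_mono nhdsWithin_le_nhds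
    have h3 : ∀ᶠ w in 𝓝[≠] z, w ≠ z := self_mem_nhdsWithin
    obtain ⟨w, hw1, hw2⟩ := (h2.and h3).exists
    exact hw2 hw1
  obtain ⟨n, g, hg, hgz, hev⟩ := hFa.exists_eventuallyEq_pow_smul_nonzero_iff.mpr hnc
  simp only [smul_eq_mul] at hev
  have hdF : HasDerivAt (fun w => f w - f z) 0 z := by
    have h := (hfa.differentiableAt.hasDerivAt).sub_const (f z)
    rwa [h0] at h
  have hn : 2 ≤ n := by
    by_contra hlt
    have hcase : n = 0 ∨ n = 1 := by omega
    rcases hcase with h | h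
    · subst h
      have := hev.self_of_nhds
      simp only [sub_self, pow_zero, one_mul] at this
      exact hgz this.symm
    · subst h
      have h2 : HasDerivAt (fun w => (w - z) ^ 1 * g w) (g z) z := by
        have h3 := ((hasDerivAt_id z).sub_const z).mul hg.differentiableAt.hasDerivAt
        simp only [id_eq, one_mul, sub_self, zero_mul, add_zero] at h3
        simp only [pow_one]
        exact h3
      have h4 := h2.congr_of_eventuallyEq hev
      have h5 := h4.unique hdF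
      exact hgz h5
  have hn0 : (n : ℂ) ≠ 0 := by
    have : n ≠ 0 := by omega
    exact_mod_cast this
  -- a local root
  obtain ⟨c, hc⟩ : ∃ c : ℂ, c ^ n = g z := by
    have : 0 < n := by omega
    obtain ⟨c, hc⟩ := IsAlgClosed.exists_pow_nat_eq (g z) this
    exact ⟨c, hc⟩
  have hc0 : c ≠ 0 := by
    intro h
    rw [h, zero_pow (by omega)] at hc
    exact hgz hc.symm
  have hq : AnalyticAt ℂ (fun w => g w / g z) z := hg.div analyticAt_const hgz
  have hq1 : g z / g z = 1 := div_self hgz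
  have hlog : AnalyticAt ℂ (fun w => Complex.log (g w / g z)) z := by
    apply AnalyticAt.clog hq
    rw [hq1]
    exact Complex.one_mem_slitPlane
  have hk : AnalyticAt ℂ (fun w => c * Complex.exp (Complex.log (g w / g z) / n)) z :=
    analyticAt_const.mul (hlog.div analyticAt_const hn0).cexp
  obtain ⟨k, hkd⟩ : ∃ k : ℂ → ℂ, k = fun w => c * Complex.exp (Complex.log (g w / g z) / n) :=
    ⟨_, rfl⟩
  rw [← hkd] at hk
  have hkz : k z = c := by
    rw [hkd]
    simp only [hq1, Complex.log_one, zero_div, Complex.exp_zero, mul_one]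
  have hgne : ∀ᶠ w in 𝓝 z, g w ≠ 0 := hg.continuousAt.eventually_ne hgz
  have hkn : ∀ᶠ w in 𝓝 z, k w ^ n = g w := by
    filter_upwards [hgne] with w hw
    rw [hkd]
    simp only
    rw [mul_pow, hc, ← Complex.exp_nat_mul, mul_div_cancel₀ _ hn0,
      Complex.exp_log (div_ne_zero hw hgz), mul_div_cancel₀ _ hgz]
  obtain ⟨u, hud⟩ : ∃ u : ℂ → ℂ, u = fun w => (w - z) * k w := ⟨_, rfl⟩
  have hua : AnalyticAt ℂ u z := by
    rw [hud]
    exact (analyticAt_id.sub analyticAt_const).mul hk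
  have hu' : HasDerivAt u c z := by
    have h3 := ((hasDerivAt_id z).sub_const z).mul hk.differentiableAt.hasDerivAt
    simp only [id_eq, one_mul, sub_self, zero_mul, add_zero] at h3
    rw [hkz] at h3
    rw [hud]
    exact h3
  have hus : HasStrictDerivAt u c z := by
    have := hua.hasStrictDerivAt
    rwa [hu'.deriv] at this
  have huz : u z = 0 := by rw [hud]; simp
  have hmap := hus.map_nhds_eq hc0
  rw [huz] at hmap
  have hgood : ∀ᶠ w in 𝓝 z, w ∈ U ∧ f w - f z = u w ^ n := by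
    filter_upwards [hUz, hev, hkn] with w h1 h2 h3
    refine ⟨h1, ?_⟩
    rw [h2, hud]
    simp only
    rw [mul_pow, h3]
  have himg : u '' {w | w ∈ U ∧ f w - f z = u w ^ n} ∈ 𝓝 (0 : ℂ) := by
    rw [← hmap]
    exact image_mem_map hgood
  rw [Metric.mem_nhds_iff] at himg
  obtain ⟨ε, hε, hball⟩ := himg
  have hω := Complex.isPrimitiveRoot_exp n (by omega)
  obtain ⟨ω, hωd⟩ : ∃ ω : ℂ, ω = Complex.exp (2 * Real.pi * Complex.I / n) := ⟨_, rfl⟩
  rw [← hωd] at hω
  have hω1 : ω ≠ 1 := hω.ne_one (by omega)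
  have hωn : ω ^ n = 1 := hω.pow_eq_one
  have hωnorm : ‖ω‖ = 1 := hω.norm'_eq_one (by omega)
  have he0 : ((ε / 2 : ℝ) : ℂ) ≠ 0 := by
    have : (ε / 2 : ℝ) ≠ 0 := by (clear * - hε; positivity)
    exact_mod_cast this
  have hen : ‖((ε / 2 : ℝ) : ℂ)‖ < ε := by
    rw [Complex.norm_real, Real.norm_of_nonneg (by (clear * - hε; positivity))]
    (clear * - hε; linarith only [hε])
  obtain ⟨w1, ⟨hw1U, hw1⟩, hw1e⟩ := hball (mem_ball_zero_iff.mpr hen)
  have hen2 : ω * ((ε / 2 : ℝ) : ℂ) ∈ ball (0 : ℂ) ε := by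
    rw [mem_ball_zero_iff, norm_mul, hωnorm, one_mul]; exact hen
  obtain ⟨w2, ⟨hw2U, hw2⟩, hw2e⟩ := hball hen2
  rw [hw1e] at hw1
  rw [hw2e, mul_pow, hωn, one_mul] at hw2
  have h12 : w1 = w2 := hinj hw1U hw2U (by linear_combination hw1 - hw2)
  rw [h12, hw2e] at hw1e
  apply hω1
  have : (ω - 1) * ((ε / 2 : ℝ) : ℂ) = 0 := by linear_combination hw1e
  rcases mul_eq_zero.mp this with h | h
  · linear_combination h
  · exact absurd h he0

/-- the holomorphic logarithm on the disc -/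
theorem exists_log_ball {q : ℂ → ℂ} (hq : DifferentiableOn ℂ q (ball 0 1))
    (hq0 : ∀ z ∈ ball (0 : ℂ) 1, q z ≠ 0) (h1 : q 0 = 1) :
    ∃ H : ℂ → ℂ, DifferentiableOn ℂ H (ball 0 1) ∧ H 0 = 0 ∧
      ∀ z ∈ ball (0 : ℂ) 1, Complex.exp (H z) = q z := by
  have hd : DifferentiableOn ℂ (fun z => deriv q z / q z) (ball 0 1) :=
    (hq.deriv isOpen_ball).div hq hq0
  obtain ⟨H, hH0, hH⟩ := hd.isExactOn_ball.with_val_at 0 0
  refine ⟨H, fun z hz => (hH z hz).differentiableAt.differentiableWithinAt, hH0, ?_⟩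
  have hconst : ∀ z ∈ ball (0 : ℂ) 1, HasDerivAt (fun z => q z * Complex.exp (-H z)) 0 z := by
    intro z hz
    have hqz := (hq.differentiableAt (isOpen_ball.mem_nhds hz)).hasDerivAt
    have hne : HasDerivAt (fun z => -H z) (-(deriv q z / q z)) z := (hH z hz).neg
    have h3 : HasDerivAt (fun z => q z * Complex.exp (-H z))
        (deriv q z * Complex.exp (-H z) + q z * (Complex.exp (-H z) * -(deriv q z / q z))) z :=
      hqz.mul hne.cexp
    have e : deriv q z * Complex.exp (-H z) + q z * (Complex.exp (-H z) * -(deriv q z / q z)) = 0 := by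
      have := hq0 z hz
      field_simp
      ring
    rw [e] at h3
    exact h3
  intro z hz
  have h4 : (fun z => q z * Complex.exp (-H z)) z = (fun z => q z * Complex.exp (-H z)) 0 := by
    apply (convex_ball (0 : ℂ) 1).is_const_of_fderivWithin_eq_zero (𝕜 := ℂ)
      (f := fun z => q z * Complex.exp (-H z)) (fun w hw => (hconst w hw).differentiableAt.differentiableWithinAt)
      ?_ hz (mem_ball_self one_pos)
    intro w hw
    rw [fderivWithin_of_isOpen isOpen_ball hw]
    have := (hconst w hw).hasFDerivAt.fderiv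
    rw [this]
    ext
    simp
  simp only [hH0, neg_zero, Complex.exp_zero, mul_one, h1] at h4
  have h5 : Complex.exp (H z) * Complex.exp (-H z) = 1 := by
    rw [← Complex.exp_add, add_neg_cancel, Complex.exp_zero]
  have h6 := Complex.exp_ne_zero (-H z)
  apply mul_right_cancel₀ h6
  rw [h5, h4]

end Pool.Agent.Helper24.Br
end

/- Helper24.K6w.H39.G2.Shift -/
section
/-!
# Moving the centre of the weight `‖w - p‖ ^ (-d)` (Apollonius disks and layer cake)
-/

set_option linter.unusedVariables false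

namespace Pool.Agent.Helper39.G2

open MeasureTheory Set Metric

/-- Layer cake bound: a set of area at most `π ρ ^ 2` has weight at most that of the disk. -/
theorem weight_le {d : ℝ} (hd0 : 0 < d) (hd2 : d < 2) (p : ℂ) (E : Set ℂ) {ρ : ℝ} (hρ : 0 < ρ)
    (hE : volume E ≤ ENNReal.ofReal (Real.pi * ρ ^ 2)) :
    ∫⁻ w in E, ENNReal.ofReal (‖w - p‖ ^ (-d)) ≤
      ENNReal.ofReal (2 * Real.pi / (2 - d) * ρ ^ (2 - d)) := by
  have hmeas : Measurable fun w : ℂ => ‖w - p‖ ^ (-d) := by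
    fun_prop
  rw [lintegral_eq_lintegral_meas_lt (volume.restrict E)
    (Filter.Eventually.of_forall fun w => Real.rpow_nonneg (norm_nonneg _) _) hmeas.aemeasurable]
  set c : ℝ := ρ ^ (-d) with hc
  have hc0 : 0 < c := Real.rpow_pos_of_pos hρ _
  have hsplit : (Ioi (0 : ℝ)) = Ioc 0 c ∪ Ioi c := (Ioc_union_Ioi_eq_Ioi hc0.le).symm
  rw [hsplit]
  refine (lintegral_union_le _ _ _).trans ?_
  have h1 : ∫⁻ t in Ioc (0 : ℝ) c, (volume.restrict E) {a : ℂ | t < ‖a - p‖ ^ (-d)} ≤
      ENNReal.ofReal (Real.pi * ρ ^ 2 * c) := by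
    calc ∫⁻ t in Ioc (0 : ℝ) c, (volume.restrict E) {a : ℂ | t < ‖a - p‖ ^ (-d)}
        ≤ ∫⁻ t in Ioc (0 : ℝ) c, ENNReal.ofReal (Real.pi * ρ ^ 2) := by
          refine lintegral_mono fun t => ?_
          refine (measure_mono (subset_univ _)).trans ?_
          rw [Measure.restrict_apply_univ]
          exact hE
      _ = ENNReal.ofReal (Real.pi * ρ ^ 2 * c) := by
          rw [lintegral_const, Measure.restrict_apply_univ, Real.volume_Ioc,
            ← ENNReal.ofReal_mul (by (clear * - hρ; positivity)), sub_zero]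
  have h2 : ∫⁻ t in Ioi c, (volume.restrict E) {a : ℂ | t < ‖a - p‖ ^ (-d)} ≤
      ENNReal.ofReal (Real.pi * (d / (2 - d)) * ρ ^ (2 - d)) := by
    calc ∫⁻ t in Ioi c, (volume.restrict E) {a : ℂ | t < ‖a - p‖ ^ (-d)}
        ≤ ∫⁻ t in Ioi c, ENNReal.ofReal (Real.pi * t ^ (-(2 / d))) := by
          refine setLIntegral_mono (by fun_prop) fun t ht => ?_
          have ht0 : 0 < t := lt_trans hc0 ht
          refine (Measure.restrict_apply_le _ _).trans ?_
          have hsub : {a : ℂ | t < ‖a - p‖ ^ (-d)} ⊆ ball p (t ^ (-(1 / d))) := by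
            intro a ha
            simp only [mem_ofPred_eq] at ha
            rw [mem_ball, dist_eq_norm]
            by_contra hcon
            push Not at hcon
            have hr0 : 0 < t ^ (-(1 / d)) := Real.rpow_pos_of_pos ht0 _
            have h3 : ‖a - p‖ ^ (-d) ≤ (t ^ (-(1 / d))) ^ (-d) :=
              Real.rpow_le_rpow_of_nonpos hr0 hcon (by linarith only [hd0])
            rw [← Real.rpow_mul ht0.le, neg_mul_neg, one_div_mul_cancel hd0.ne', Real.rpow_one] at h3
            linarith only [ha, h3]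
          refine (measure_mono hsub).trans ?_
          rw [Complex.volume_ball]
          have h4 : (t ^ (-(1 / d))) ^ 2 = t ^ (-(2 / d)) := by
            rw [← Real.rpow_natCast, ← Real.rpow_mul ht0.le]
            congr 1
            push_cast
            ring
          rw [← ENNReal.ofReal_pow (Real.rpow_nonneg ht0.le _), h4, mul_comm Real.pi,
            ENNReal.ofReal_mul (Real.rpow_nonneg ht0.le _)]
          gcongr
          rw [← NNReal.coe_real_pi, ENNReal.ofReal_coe_nnreal]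
      _ = ENNReal.ofReal (∫ t in Ioi c, Real.pi * t ^ (-(2 / d))) := by
          rw [ofReal_integral_eq_lintegral_ofReal]
          · refine (integrableOn_Ioi_rpow_of_lt ?_ hc0).const_mul _
            rw [neg_lt_neg_iff, lt_div_iff₀ hd0]
            linarith only [hd2]
          · filter_upwards [ae_restrict_mem measurableSet_Ioi] with t ht
            have : 0 < t := lt_trans hc0 ht
            (clear * - this; positivity)
      _ = ENNReal.ofReal (Real.pi * (d / (2 - d)) * ρ ^ (2 - d)) := by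
          rw [integral_const_mul, integral_Ioi_rpow_of_lt (by
            rw [neg_lt_neg_iff, lt_div_iff₀ hd0]
            linarith only [hd2]) hc0]
          congr 1
          have h5 : c ^ (-(2 / d) + 1) = ρ ^ (2 - d) := by
            rw [hc, ← Real.rpow_mul hρ.le]
            congr 1
            field_simp
            ring
          rw [h5]
          have h6 : (2 - d) ≠ 0 := by linarith only [hd2]
          have h7 : -(2 / d) + 1 ≠ 0 := by
            intro h8
            have : (2 / d) = 1 := by linarith only [h8]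
            rw [div_eq_one_iff_eq hd0.ne'] at this
            linarith only [hd2, this]
          have h9 : -(2 / d) + 1 = -((2 - d) / d) := by
            field_simp
            ring
          rw [h9]
          field_simp
  refine (add_le_add h1 h2).trans ?_
  rw [← ENNReal.ofReal_add (by (clear * - hρ; positivity)) (by
    have : 0 < 2 - d := by (clear * - hd2; linarith only [hd2])
    (clear * - hd0 hd2 hρ; positivity))]
  refine le_of_eq ?_
  congr 1
  have h10 : ρ ^ 2 * c = ρ ^ (2 - d) := by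
    rw [hc, sub_eq_add_neg, Real.rpow_add hρ, ← Real.rpow_natCast]
    norm_num
  have h6 : (2 - d) ≠ 0 := by (clear * - hd2; linarith only [hd2])
  rw [mul_assoc, h10]
  field_simp
  ring

/-- The Apollonius disk. -/
theorem apollonius {p q : ℂ} {k : ℝ} (hk : 1 < k) :
    {w : ℂ | k * ‖w - q‖ < ‖w - p‖} ⊆
      ball (q + ((1 / (k ^ 2 - 1) : ℝ) : ℂ) * (q - p)) (‖p - q‖ * (k / (k ^ 2 - 1))) := by
  intro w hw
  simp only [mem_ofPred_eq] at hw
  rw [mem_ball, dist_eq_norm]
  have hk2 : 0 < k ^ 2 - 1 := by (clear * - hk; nlinarith only [hk])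
  have h1 : (k * ‖w - q‖) ^ 2 < ‖w - p‖ ^ 2 := by
    have : 0 ≤ k * ‖w - q‖ := by (clear * - hk; positivity)
    exact pow_lt_pow_left₀ hw this two_ne_zero
  refine lt_of_pow_lt_pow_left₀ 2 (by (clear * - hk hk2; positivity)) ?_
  rw [mul_pow] at h1
  rw [mul_pow]
  rw [Complex.sq_norm, Complex.sq_norm, Complex.normSq_apply, Complex.normSq_apply] at h1
  rw [Complex.sq_norm, Complex.sq_norm, Complex.normSq_apply, Complex.normSq_apply]
  simp only [Complex.sub_re, Complex.sub_im, Complex.add_re, Complex.add_im,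
    Complex.re_ofReal_mul, Complex.im_ofReal_mul] at h1 ⊢
  obtain ⟨x, y⟩ := w
  obtain ⟨a, b⟩ := p
  obtain ⟨e, f⟩ := q
  simp only at h1 ⊢
  have hne : (k ^ 2 - 1) ≠ 0 := hk2.ne'
  rw [div_pow]
  rw [show (x - (e + 1 / (k ^ 2 - 1) * (e - a))) * (x - (e + 1 / (k ^ 2 - 1) * (e - a))) +
      (y - (f + 1 / (k ^ 2 - 1) * (f - b))) * (y - (f + 1 / (k ^ 2 - 1) * (f - b))) =
      (((x - e) * (k ^ 2 - 1) - (e - a)) ^ 2 + ((y - f) * (k ^ 2 - 1) - (f - b)) ^ 2) /
        (k ^ 2 - 1) ^ 2 by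
    field_simp
    ring,
    ← mul_div_assoc]
  refine div_lt_div_of_pos_right ?_ (by (clear * - hk2; positivity))
  (clear * - h1 hk2; linarith only [mul_lt_mul_of_pos_left h1 hk2])

/-- `sinh`-type estimate: `e ^ x / (e ^ (2 x) - 1) <= 1 / (2 x)`. -/
theorem k_bound {x : ℝ} (hx : 0 < x) :
    Real.exp x / (Real.exp x ^ 2 - 1) ≤ 1 / (2 * x) := by
  have h1 : x < Real.sinh x := by
    rw [Real.self_lt_sinh_iff]
    exact hx
  have h2 : Real.exp x ^ 2 - 1 = Real.exp x * (2 * Real.sinh x) := by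
    rw [Real.sinh_eq, Real.exp_neg]
    (clear * -; field_simp)
  rw [h2, div_mul_eq_div_div, div_self (Real.exp_pos x).ne']
  exact one_div_le_one_div_of_le (by (clear * - hx; positivity)) (by linarith)

/-- The area of the Apollonius disk. -/
theorem volume_apollonius {p q : ℂ} {s x : ℝ} (hs : ‖p - q‖ ≤ s) (hx : 0 < x) :
    volume {w : ℂ | Real.exp x * ‖w - q‖ < ‖w - p‖} ≤
      ENNReal.ofReal (Real.pi * (s / 2 / x) ^ 2) := by
  have hs0 : 0 ≤ s := (norm_nonneg _).trans hs
  have hk : 1 < Real.exp x := by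
    rw [Real.one_lt_exp_iff]
    exact hx
  have hk2 : 0 < Real.exp x ^ 2 - 1 := by (clear * - hk; nlinarith only [hk])
  refine (measure_mono (apollonius hk)).trans ?_
  rw [Complex.volume_ball, mul_comm Real.pi,
    ENNReal.ofReal_mul (p := (s / 2 / x) ^ 2) (by positivity),
    ← ENNReal.ofReal_pow (by positivity)]
  have h1 : ‖p - q‖ * (Real.exp x / (Real.exp x ^ 2 - 1)) ≤ s / 2 / x := by
    calc ‖p - q‖ * (Real.exp x / (Real.exp x ^ 2 - 1)) ≤ s * (1 / (2 * x)) :=
          mul_le_mul hs (k_bound hx) (by positivity) hs0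
      _ = s / 2 / x := by
          field_simp
  have h2 : ((NNReal.pi : NNReal) : ENNReal) = ENNReal.ofReal Real.pi := by
    rw [← NNReal.coe_real_pi, ENNReal.ofReal_coe_nnreal]
  rw [h2]
  gcongr

/-- pointwise bound -/
theorem pointwise {d m u v : ℝ} (hd0 : 0 < d) (hu : 0 < u) (hv : 0 < v) :
    v ^ (-d) ≤ Real.exp (d * m) * u ^ (-d) +
      d * (v ^ (-d) * max (Real.log (u / v) - m) 0) := by
  have h1 : u ^ (-d) = v ^ (-d) * Real.exp (-(d * Real.log (u / v))) := by
    rw [Real.log_div hu.ne' hv.ne', Real.rpow_def_of_pos hu, Real.rpow_def_of_pos hv,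
      ← Real.exp_add]
    congr 1
    ring
  have h2 : 0 < v ^ (-d) := Real.rpow_pos_of_pos hv _
  set L := Real.log (u / v) with hL
  rw [h1]
  have h3 : 1 ≤ Real.exp (d * m) * Real.exp (-(d * L)) + d * max (L - m) 0 := by
    rw [← Real.exp_add]
    have h4 := Real.add_one_le_exp (d * m + -(d * L))
    have h5 : d * (L - m) ≤ d * max (L - m) 0 := by
      gcongr
      exact le_max_left _ _
    (clear * - h4 h5; linarith only [h4, h5])
  calc v ^ (-d) = v ^ (-d) * 1 := (mul_one _).symm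
    _ ≤ v ^ (-d) * (Real.exp (d * m) * Real.exp (-(d * L)) + d * max (L - m) 0) := by
        (clear * - h3 hv; gcongr)
    _ = _ := by ring

/-- The weighted excess of the logarithm. -/
theorem excess_le {d m s : ℝ} (hd0 : 0 < d) (hd1 : d < 1) (hm : 0 < m) {p q : ℂ}
    (hs : ‖p - q‖ ≤ s) (hs0 : 0 < s) (Q : Set ℂ) :
    ∫⁻ w in Q, ENNReal.ofReal (‖w - q‖ ^ (-d) *
        max (Real.log (‖w - p‖ / ‖w - q‖) - m) 0) ≤
      ENNReal.ofReal (2 * Real.pi / (2 - d) * (s / 2) ^ (2 - d) *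
        (m ^ (-(1 - d)) / (1 - d))) := by
  have hw : Measurable fun w : ℂ => ENNReal.ofReal (‖w - q‖ ^ (-d)) := by fun_prop
  have hL : Measurable fun w : ℂ => max (Real.log (‖w - p‖ / ‖w - q‖) - m) 0 := by fun_prop
  have h1 : ∫⁻ w in Q, ENNReal.ofReal (‖w - q‖ ^ (-d) *
        max (Real.log (‖w - p‖ / ‖w - q‖) - m) 0) =
      ∫⁻ w, ENNReal.ofReal (max (Real.log (‖w - p‖ / ‖w - q‖) - m) 0)
        ∂((volume.restrict Q).withDensity fun w => ENNReal.ofReal (‖w - q‖ ^ (-d))) := by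
    rw [lintegral_withDensity_eq_lintegral_mul _ hw hL.ennreal_ofReal]
    refine lintegral_congr fun w => ?_
    rw [Pi.mul_apply, ENNReal.ofReal_mul (Real.rpow_nonneg (norm_nonneg _) _)]
  rw [h1, lintegral_eq_lintegral_meas_lt _
    (f := fun w : ℂ => max (Real.log (‖w - p‖ / ‖w - q‖) - m) 0)
    (Filter.Eventually.of_forall fun w => le_max_right _ _) hL.aemeasurable]
  have h2 : ∀ t ∈ Ioi (0 : ℝ),
      ((volume.restrict Q).withDensity fun w => ENNReal.ofReal (‖w - q‖ ^ (-d)))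
        {a : ℂ | t < max (Real.log (‖a - p‖ / ‖a - q‖) - m) 0} ≤
      ENNReal.ofReal (2 * Real.pi / (2 - d) * (s / 2 / (m + t)) ^ (2 - d)) := by
    intro t ht
    have ht0 : 0 < t := ht
    have hms : MeasurableSet {a : ℂ | t < max (Real.log (‖a - p‖ / ‖a - q‖) - m) 0} :=
      measurableSet_lt measurable_const hL
    rw [withDensity_apply _ hms]
    have h3 : ∫⁻ a in {a : ℂ | t < max (Real.log (‖a - p‖ / ‖a - q‖) - m) 0},
        ENNReal.ofReal (‖a - q‖ ^ (-d)) ∂(volume.restrict Q) ≤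
        ∫⁻ a in {a : ℂ | t < max (Real.log (‖a - p‖ / ‖a - q‖) - m) 0},
        ENNReal.ofReal (‖a - q‖ ^ (-d)) := by
      refine lintegral_mono' ?_ le_rfl
      exact Measure.restrict_mono le_rfl Measure.restrict_le_self
    refine h3.trans ?_
    refine weight_le hd0 (by (clear * - hd0 hd1; linarith)) q _ (by positivity) ?_
    refine (measure_mono ?_).trans (volume_apollonius hs (by (clear * - hm ht0; positivity) : 0 < m + t))
    intro a ha
    simp only [mem_ofPred_eq] at ha ⊢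
    have h4 : t < Real.log (‖a - p‖ / ‖a - q‖) - m := by
      rcases lt_max_iff.mp ha with h | h
      · exact h
      · linarith only [ht0, h]
    have h5 : 0 < Real.log (‖a - p‖ / ‖a - q‖) := by linarith only [hm, ht0, h4]
    have h6 : 0 < ‖a - p‖ / ‖a - q‖ := by
      by_contra hcon
      have h7 : 0 ≤ ‖a - p‖ / ‖a - q‖ := by (clear * -; positivity)
      have h8 : ‖a - p‖ / ‖a - q‖ = 0 := le_antisymm (not_lt.mp hcon) h7
      rw [h8, Real.log_zero] at h5
      exact lt_irrefl _ h5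
    have h9 : 0 < ‖a - q‖ := by
      by_contra hcon
      have h10 : ‖a - q‖ = 0 := le_antisymm (not_lt.mp hcon) (norm_nonneg _)
      rw [h10, div_zero] at h6
      exact lt_irrefl _ h6
    have h11 : Real.exp (m + t) < ‖a - p‖ / ‖a - q‖ := by
      rw [← Real.lt_log_iff_exp_lt h6]
      linarith only [h4]
    rwa [lt_div_iff₀ h9] at h11
  refine (setLIntegral_mono' measurableSet_Ioi h2).trans ?_
  have h3 : ∀ t ∈ Ioi (0 : ℝ), 2 * Real.pi / (2 - d) * (s / 2 / (m + t)) ^ (2 - d) =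
      2 * Real.pi / (2 - d) * (s / 2) ^ (2 - d) * (t + m) ^ (-(2 - d)) := by
    intro t ht
    have ht0 : 0 < t := ht
    rw [Real.div_rpow (by positivity) (by (clear * - hm ht0; positivity)), Real.rpow_neg (by positivity),
      add_comm m t]
    ring
  have h2d : 0 < 2 - d := by (clear * - hd0 hd1; linarith)
  refine le_of_eq ?_
  calc ∫⁻ t in Ioi (0 : ℝ), ENNReal.ofReal (2 * Real.pi / (2 - d) * (s / 2 / (m + t)) ^ (2 - d))
      = ∫⁻ t in Ioi (0 : ℝ), ENNReal.ofReal
          (2 * Real.pi / (2 - d) * (s / 2) ^ (2 - d) * (t + m) ^ (-(2 - d))) :=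
        setLIntegral_congr_fun measurableSet_Ioi fun t ht => by rw [h3 t ht]
    _ = ENNReal.ofReal (∫ t in Ioi (0 : ℝ),
          2 * Real.pi / (2 - d) * (s / 2) ^ (2 - d) * (t + m) ^ (-(2 - d))) := by
        rw [ofReal_integral_eq_lintegral_ofReal]
        · refine Integrable.const_mul ?_ _
          exact integrableOn_add_rpow_Ioi_of_lt (by linarith) (by linarith)
        · filter_upwards [ae_restrict_mem measurableSet_Ioi] with t ht
          have ht0 : 0 < t := ht
          (clear * - h2d hs0 ht0 hm; positivity)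
    _ = _ := by
        rw [integral_const_mul]
        congr 2
        have h4 : ∫ t in Ioi (0 : ℝ), (t + m) ^ (-(2 - d)) =
            ∫ t in Ioi m, t ^ (-(2 - d)) := by
          rw [← integral_indicator measurableSet_Ioi, ← integral_indicator measurableSet_Ioi,
            ← integral_add_right_eq_self ((Ioi m).indicator fun t : ℝ => t ^ (-(2 - d))) m]
          refine integral_congr_ae (Filter.Eventually.of_forall fun t => ?_)
          by_cases ht : 0 < t
          · have ht' : m < t + m := by (clear * - ht; linarith)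
            simp only [indicator, mem_Ioi, ht, ht', if_true]
          · have ht' : ¬ m < t + m := by (clear * - ht; linarith)
            simp only [indicator, mem_Ioi, ht, ht', if_false]
        rw [h4, integral_Ioi_rpow_of_lt (by linarith) hm]
        have h5 : -(2 - d) + 1 = -(1 - d) := by ring
        rw [h5]
        have h6 : (1 - d) ≠ 0 := by linarith
        (clear * - hm h6; field_simp)

/-- Moving the centre of the weight, `lintegral` form. -/
theorem shift_lintegral {d m s : ℝ} (hd0 : 0 < d) (hd1 : d < 1) (hm : 0 < m) {p q : ℂ}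
    (hs : ‖p - q‖ ≤ s) (hs0 : 0 < s) (Q : Set ℂ) :
    ∫⁻ w in Q, ENNReal.ofReal (‖w - q‖ ^ (-d)) ≤
      ENNReal.ofReal (Real.exp (d * m)) * (∫⁻ w in Q, ENNReal.ofReal (‖w - p‖ ^ (-d))) +
      ENNReal.ofReal (d * (2 * Real.pi / (2 - d) * (s / 2) ^ (2 - d) *
        (m ^ (-(1 - d)) / (1 - d)))) := by
  have h1 : ∀ᵐ w ∂(volume.restrict Q), ENNReal.ofReal (‖w - q‖ ^ (-d)) ≤
      ENNReal.ofReal (Real.exp (d * m)) * ENNReal.ofReal (‖w - p‖ ^ (-d)) +
      ENNReal.ofReal d * ENNReal.ofReal (‖w - q‖ ^ (-d) *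
        max (Real.log (‖w - p‖ / ‖w - q‖) - m) 0) := by
    have hp : ∀ᵐ w ∂(volume.restrict Q), w ≠ p :=
      ae_restrict_of_ae (by simp [ae_iff])
    have hq : ∀ᵐ w ∂(volume.restrict Q), w ≠ q :=
      ae_restrict_of_ae (by simp [ae_iff])
    filter_upwards [hp, hq] with w hwp hwq
    have h2 : 0 < ‖w - p‖ := norm_pos_iff.mpr (sub_ne_zero.mpr hwp)
    have h3 : 0 < ‖w - q‖ := norm_pos_iff.mpr (sub_ne_zero.mpr hwq)
    rw [← ENNReal.ofReal_mul (Real.exp_pos _).le, ← ENNReal.ofReal_mul hd0.le,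
      ← ENNReal.ofReal_add (by (clear * - h2; positivity)) (by (clear * - hd0 h3; positivity))]
    exact ENNReal.ofReal_le_ofReal (pointwise hd0 h2 h3)
  refine (lintegral_mono_ae h1).trans ?_
  have hm1 : Measurable fun w : ℂ => ENNReal.ofReal (Real.exp (d * m)) *
      ENNReal.ofReal (‖w - p‖ ^ (-d)) := by fun_prop
  have hm2 : Measurable fun w : ℂ => ENNReal.ofReal (‖w - p‖ ^ (-d)) := by fun_prop
  have hm3 : Measurable fun w : ℂ => ENNReal.ofReal (‖w - q‖ ^ (-d) *
        max (Real.log (‖w - p‖ / ‖w - q‖) - m) 0) := by fun_prop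
  rw [lintegral_add_left hm1, lintegral_const_mul _ hm2, lintegral_const_mul _ hm3,
    ENNReal.ofReal_mul hd0.le]
  exact add_le_add le_rfl (mul_le_mul_right (excess_le hd0 hd1 hm hs hs0 Q) _)

/-- finiteness of the weighted area of a set of finite area -/
theorem lintegral_ne_top {d : ℝ} (hd0 : 0 < d) (hd2 : d < 2) (p : ℂ) {Q : Set ℂ}
    (hQ : volume Q ≠ ⊤) :
    ∫⁻ w in Q, ENNReal.ofReal (‖w - p‖ ^ (-d)) ≠ ⊤ := by
  have hpi : 0 < Real.pi := Real.pi_pos
  set A := (volume Q).toReal with hA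
  have hA0 : 0 ≤ A := ENNReal.toReal_nonneg
  set ρ := Real.sqrt ((A + 1) / Real.pi) with hρ
  have hρ0 : 0 < ρ := Real.sqrt_pos.mpr (by (clear * -; positivity))
  have h1 : Real.pi * ρ ^ 2 = A + 1 := by
    rw [hρ, Real.sq_sqrt (by (clear * -; positivity))]
    field_simp
  refine ne_top_of_le_ne_top ENNReal.ofReal_ne_top (weight_le hd0 hd2 p Q hρ0 ?_)
  rw [h1, ← ENNReal.ofReal_toReal hQ]
  exact ENNReal.ofReal_le_ofReal (by (clear * -; linarith only []))

/-- integrability of the weight -/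
theorem integrableOn_weight {d : ℝ} (hd0 : 0 < d) (hd2 : d < 2) (p : ℂ) {Q : Set ℂ}
    (hQ : volume Q ≠ ⊤) : IntegrableOn (fun w => ‖w - p‖ ^ (-d)) Q := by
  have hm : Measurable fun w : ℂ => ‖w - p‖ ^ (-d) := by fun_prop
  refine ⟨hm.aestronglyMeasurable, ?_⟩
  rw [hasFiniteIntegral_iff_ofReal
    (Filter.Eventually.of_forall fun w => Real.rpow_nonneg (norm_nonneg _) _)]
  exact lt_top_iff_ne_top.mpr (lintegral_ne_top hd0 hd2 p hQ)

theorem ofReal_integral_weight {d : ℝ} (hd0 : 0 < d) (hd2 : d < 2) (p : ℂ) {Q : Set ℂ}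
    (hQ : volume Q ≠ ⊤) :
    ENNReal.ofReal (∫ w in Q, ‖w - p‖ ^ (-d)) = ∫⁻ w in Q, ENNReal.ofReal (‖w - p‖ ^ (-d)) :=
  ofReal_integral_eq_lintegral_ofReal (integrableOn_weight hd0 hd2 p hQ)
    (Filter.Eventually.of_forall fun w => Real.rpow_nonneg (norm_nonneg _) _)

/-- Moving the centre of the weight. -/
theorem shift {d m s : ℝ} (hd0 : 0 < d) (hd1 : d < 1) (hm : 0 < m) {p q : ℂ}
    (hs : ‖p - q‖ ≤ s) {Q : Set ℂ} (hQ : volume Q ≠ ⊤) :
    ∫ w in Q, ‖w - q‖ ^ (-d) ≤ Real.exp (d * m) * (∫ w in Q, ‖w - p‖ ^ (-d)) +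
      d * (2 / (2 - d)) * (1 / (1 - d)) * (Real.pi * (s / 2) ^ (2 - d) * m ^ (-(1 - d))) := by
  have hs0 : 0 ≤ s := (norm_nonneg _).trans hs
  have h2d : 0 < 2 - d := by (clear * - hd1; linarith only [hd1])
  have h1d : 0 < 1 - d := by (clear * - hd1; linarith)
  rcases hs0.eq_or_lt with h0 | hs0
  · have hpq : p = q := by
      rw [← h0] at hs
      exact sub_eq_zero.mp (norm_le_zero_iff.mp hs)
    subst hpq
    rw [← h0, zero_div, Real.zero_rpow h2d.ne']
    have h1 : 1 ≤ Real.exp (d * m) := Real.one_le_exp (by positivity)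
    have h2 : 0 ≤ ∫ w in Q, ‖w - p‖ ^ (-d) :=
      integral_nonneg fun w => Real.rpow_nonneg (norm_nonneg _) _
    (clear * - h1 h2; nlinarith only [h1, h2])
  · have h1 := shift_lintegral hd0 hd1 hm hs hs0 Q
    rw [← ofReal_integral_weight hd0 (by linarith only [h1d]) q hQ,
      ← ofReal_integral_weight hd0 (by linarith only [h1d]) p hQ,
      ← ENNReal.ofReal_mul (Real.exp_pos _).le, ← ENNReal.ofReal_add (mul_nonneg (Real.exp_pos _).le
        (integral_nonneg fun w => Real.rpow_nonneg (norm_nonneg _) _)) (by (clear * - hd0 h2d hs0 hm hd1; positivity)),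
      ENNReal.ofReal_le_ofReal_iff (add_nonneg (mul_nonneg (Real.exp_pos _).le
        (integral_nonneg fun w => Real.rpow_nonneg (norm_nonneg _) _)) (by positivity))] at h1
    refine h1.trans (le_of_eq ?_)
    field_simp

end Pool.Agent.Helper39.G2
end

/- Helper24.K6w.H17.G3.Kern -/
section
/-!
# G3: the kernel `h (w) = re w / |w|^2` and its level sets
-/

set_option autoImplicit false
set_option linter.unusedVariables false

namespace Pool.Agent.Helper17.G3

open MeasureTheory Set Metric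
open scoped Real

/-- `re (1 / w)` -/
noncomputable def hk (w : ℂ) : ℝ := w.re / ‖w‖ ^ 2

/-- the disk tangent to the imaginary axis at `0` -/
def Dk : Set ℂ := ball 1 1

theorem hk_zero : hk 0 = 0 := by simp [hk]

theorem abs_hk_le (w : ℂ) : |hk w| ≤ ‖w‖ ^ (-1 : ℝ) := by
  rcases eq_or_ne w 0 with h | h
  · subst h
    rw [hk_zero, abs_zero]
    exact Real.rpow_nonneg (norm_nonneg _) _
  · have hw : 0 < ‖w‖ := norm_pos_iff.mpr h
    rw [hk, abs_div, abs_of_pos (by positivity : 0 < ‖w‖ ^ 2), Real.rpow_neg hw.le, Real.rpow_one,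
      div_le_iff₀ (by positivity)]
    have h1 := Complex.abs_re_le_norm w
    have h2 : ‖w‖⁻¹ * ‖w‖ ^ 2 = ‖w‖ := by field_simp
    rwa [h2]

/-- level sets -/
theorem hk_level {t : ℝ} (ht : 0 < t) :
    {w : ℂ | t < hk w} = ball (((1 / (2 * t) : ℝ)) : ℂ) (1 / (2 * t)) := by
  ext w
  rw [mem_ball, dist_eq_norm, mem_ofPred_eq]
  have h2t : 0 < 1 / (2 * t) := by (clear * - ht; positivity)
  have e1 : ‖w - ((1 / (2 * t) : ℝ) : ℂ)‖ ^ 2 = ‖w‖ ^ 2 - w.re / t + (1 / (2 * t)) ^ 2 := by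
    rw [Complex.sq_norm, Complex.sq_norm, Complex.normSq_apply, Complex.normSq_apply]
    simp only [Complex.sub_re, Complex.sub_im, Complex.ofReal_re, Complex.ofReal_im]
    field_simp
    ring
  rcases eq_or_ne w 0 with h | h
  · subst h
    rw [hk_zero]
    constructor
    · intro h3
      (clear * - ht h3; linarith only [ht, h3])
    · intro h3
      rw [zero_sub, norm_neg, Complex.norm_real, Real.norm_eq_abs, abs_of_pos h2t] at h3
      (clear * - h3; linarith only [h3])
  · have hw : 0 < ‖w‖ := norm_pos_iff.mpr h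
    have hw2 : 0 < ‖w‖ ^ 2 := by positivity
    constructor
    · intro h3
      rw [hk, lt_div_iff₀ hw2] at h3
      refine lt_of_pow_lt_pow_left₀ 2 h2t.le ?_
      rw [e1]
      have h4 : ‖w‖ ^ 2 < w.re / t := by
        rw [lt_div_iff₀ ht]
        (clear * - h3; linarith only [h3])
      (clear * - h4; linarith only [h4])
    · intro h3
      rw [hk, lt_div_iff₀ hw2]
      have h4 := pow_lt_pow_left₀ h3 (norm_nonneg _) two_ne_zero
      rw [e1] at h4
      have h5 : ‖w‖ ^ 2 < w.re / t := by (clear * - h4; linarith only [h4])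
      rw [lt_div_iff₀ ht] at h5
      linarith only [h5]

theorem volume_hk {t : ℝ} (ht : 0 < t) :
    volume {w : ℂ | t < hk w} = ENNReal.ofReal (π * (1 / (2 * t)) ^ 2) := by
  rw [hk_level ht, Complex.volume_ball, mul_comm π, ENNReal.ofReal_mul (by (clear * - ht; positivity)),
    ← ENNReal.ofReal_pow (by (clear * - ht; positivity)), ← NNReal.coe_real_pi, ENNReal.ofReal_coe_nnreal]

theorem measurable_hk : Measurable hk := by
  unfold hk
  fun_prop

theorem mem_Dk {w : ℂ} : w ∈ Dk ↔ 1 / 2 < hk w := by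
  have h := hk_level (t := 1 / 2) (by norm_num)
  have h2 : ((1 / (2 * (1 / 2)) : ℝ)) = 1 := by norm_num
  rw [h2] at h
  have h3 : w ∈ {w : ℂ | 1 / 2 < hk w} ↔ w ∈ ball (((1 : ℝ)) : ℂ) 1 := by rw [h]
  rw [Complex.ofReal_one] at h3
  exact h3.symm

/-- the band -/
theorem volume_band {ν : ℝ} (h0 : 0 < ν) (h1 : ν ≤ 1 / 8) :
    volume {w : ℂ | |hk w - 1 / 2| < ν} ≤ ENNReal.ofReal (10 * π * ν) := by
  have hsub : {w : ℂ | |hk w - 1 / 2| < ν} ⊆
      {w : ℂ | 1 / 2 - ν < hk w} \ {w : ℂ | 1 / 2 + ν < hk w} := by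
    intro w hw
    simp only [mem_ofPred_eq, abs_lt] at hw
    refine ⟨by simp only [mem_ofPred_eq]; linarith only [hw], ?_⟩
    simp only [mem_ofPred_eq, not_lt]
    (clear * - hw; linarith only [hw])
  refine (measure_mono hsub).trans ?_
  have hs2 : {w : ℂ | 1 / 2 + ν < hk w} ⊆ {w : ℂ | 1 / 2 - ν < hk w} := by
    intro w hw
    simp only [mem_ofPred_eq] at hw ⊢
    (clear * - h0 hw; linarith)
  have hm : MeasurableSet {w : ℂ | 1 / 2 + ν < hk w} :=
    measurableSet_lt measurable_const measurable_hk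
  rw [measure_sdiff hs2 hm.nullMeasurableSet (by
      rw [volume_hk (by (clear * - h0 h1; linarith))]
      exact ENNReal.ofReal_ne_top),
    volume_hk (by (clear * - h1; linarith only [h1])), volume_hk (by linarith only [h0]), ← ENNReal.ofReal_sub _ (by (clear * - h0; positivity))]
  refine ENNReal.ofReal_le_ofReal ?_
  have hπ := Real.pi_pos
  have e1 : π * (1 / (2 * (1 / 2 - ν))) ^ 2 - π * (1 / (2 * (1 / 2 + ν))) ^ 2 =
      π * ν * (8 / ((1 - 4 * ν ^ 2) ^ 2)) := by
    have h2 : (1 - 2 * ν) ≠ 0 := by linarith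
    have h3 : (1 + 2 * ν) ≠ 0 := by (clear * - h0; linarith only [h0])
    have h4 : (1 - 4 * ν ^ 2) = (1 - 2 * ν) * (1 + 2 * ν) := by ring
    have h5 : 2 * (1 / 2 - ν) = 1 - 2 * ν := by ring
    have h6 : 2 * (1 / 2 + ν) = 1 + 2 * ν := by ring
    rw [h4, h5, h6]
    field_simp
    ring
  rw [e1]
  have h5 : 15 / 16 ≤ 1 - 4 * ν ^ 2 := by (clear * - h1 h0; nlinarith only [h0, h1])
  have h6 : 8 / ((1 - 4 * ν ^ 2) ^ 2) ≤ 10 := by
    rw [div_le_iff₀ (by (clear * - h5; positivity))]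
    nlinarith only [h5]
  have h7 : 0 < π * ν := by positivity
  nlinarith only [h6, h7]

end Pool.Agent.Helper17.G3
end

/- Helper24.K6w.H17.G3.Plane -/
section
/-!
# G3: the plane integral of the positive part, normalised form
-/

set_option autoImplicit false
set_option linter.unusedVariables false

namespace Pool.Agent.Helper17.G3

open MeasureTheory Set Metric
open scoped Real

/-- layer cake for the kernel: `∫ (h - 1/2)_+ ≤ π / 2` -/
theorem lint_pos :
    ∫⁻ w : ℂ, ENNReal.ofReal (max (hk w - 1 / 2) 0) ≤ ENNReal.ofReal (π / 2) := by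
  have hm : Measurable fun w : ℂ => max (hk w - 1 / 2) 0 :=
    (measurable_hk.sub_const _).max measurable_const
  rw [lintegral_eq_lintegral_meas_lt volume (Filter.Eventually.of_forall fun w =>
    (le_max_right _ _ : (0 : ℝ) ≤ max (hk w - 1 / 2) 0)) hm.aemeasurable]
  calc ∫⁻ t in Ioi (0 : ℝ), volume {a : ℂ | t < max (hk a - 1 / 2) 0}
      ≤ ∫⁻ t in Ioi (0 : ℝ), ENNReal.ofReal (π / 4 * (t + 1 / 2) ^ (-2 : ℝ)) := by
        refine setLIntegral_mono' measurableSet_Ioi fun t ht => ?_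
        have ht0 : 0 < t := ht
        have hsub : {a : ℂ | t < max (hk a - 1 / 2) 0} ⊆ {w : ℂ | t + 1 / 2 < hk w} := by
          intro a ha
          simp only [mem_ofPred_eq] at ha ⊢
          rcases lt_max_iff.mp ha with h | h
          · (clear * - h; linarith only [h])
          · linarith only [ht0, h]
        refine (measure_mono hsub).trans ?_
        rw [volume_hk (by linarith only [ht0])]
        refine ENNReal.ofReal_le_ofReal (le_of_eq ?_)
        rw [Real.rpow_neg (by (clear * - ht0; linarith)), Real.rpow_two]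
        field_simp
        ring
    _ = ENNReal.ofReal (∫ t in Ioi (0 : ℝ), π / 4 * (t + 1 / 2) ^ (-2 : ℝ)) := by
        rw [ofReal_integral_eq_lintegral_ofReal]
        · refine Integrable.const_mul ?_ _
          exact integrableOn_add_rpow_Ioi_of_lt (by norm_num) (by norm_num)
        · filter_upwards [ae_restrict_mem measurableSet_Ioi] with t ht
          have ht0 : 0 < t := ht
          (clear * - ht0; positivity)
    _ = ENNReal.ofReal (π / 2) := by
        congr 1
        rw [integral_const_mul]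
        have h4 : ∫ t in Ioi (0 : ℝ), (t + 1 / 2) ^ (-2 : ℝ) =
            ∫ t in Ioi (1 / 2 : ℝ), t ^ (-2 : ℝ) := by
          rw [← integral_indicator measurableSet_Ioi, ← integral_indicator measurableSet_Ioi,
            ← integral_add_right_eq_self ((Ioi (1 / 2 : ℝ)).indicator
              fun t : ℝ => t ^ (-2 : ℝ)) (1 / 2)]
          refine integral_congr_ae (Filter.Eventually.of_forall fun t => ?_)
          by_cases ht : 0 < t
          · have ht' : 1 / 2 < t + 1 / 2 := by (clear * - ht; linarith)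
            simp only [indicator, mem_Ioi, ht, ht', if_true]
          · have ht' : ¬ 1 / 2 < t + 1 / 2 := by (clear * - ht; linarith only [ht])
            simp only [indicator, mem_Ioi, ht, ht', if_false]
        rw [h4, integral_Ioi_rpow_of_lt (by norm_num) (by norm_num)]
        norm_num
        ring

/-- the ball in which everything happens -/
def Bt : Set ℂ := closedBall 0 10

theorem meas_Bt : MeasurableSet Bt := isClosed_closedBall.measurableSet

theorem vol_Bt : volume Bt ≠ ⊤ := (isCompact_closedBall (0 : ℂ) 10).measure_ne_top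

theorem int_hk_Bt : IntegrableOn hk Bt := by
  have h1 := Helper39.G2.integrableOn_weight (d := 1) one_pos (by norm_num) 0 vol_Bt
  refine Integrable.mono' h1 measurable_hk.aestronglyMeasurable
    (Filter.Eventually.of_forall fun w => ?_)
  rw [Real.norm_eq_abs, sub_zero]
  exact abs_hk_le w

theorem Dk_sub : Dk ⊆ Bt := by
  intro w hw
  rw [Dk, mem_ball, dist_eq_norm] at hw
  rw [Bt, mem_closedBall, dist_zero_right]
  have h1 : w = (w - 1) + 1 := by ring
  have h2 := norm_add_le (w - 1) 1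
  rw [← h1, norm_one] at h2
  (clear * - hw h2; linarith only [hw, h2])

theorem meas_Dk : MeasurableSet Dk := isOpen_ball.measurableSet

/-- the positive part of the perturbed kernel -/
theorem pos_part {g : ℂ → ℝ} (hg : Measurable g) (hg1 : ∀ w, |g w| ≤ 1) {ν : ℝ}
    (hν : |ν| ≤ 1 / 8) :
    ∫ w in Bt, max (hk w + ν * g w - 1 / 2) 0 ≤
      π / 2 + ν * (∫ w in Dk, g w) + 10 * π * ν ^ 2 := by
  have hgi : IntegrableOn g Bt := by
    refine Integrable.mono' (g := fun _ => (1 : ℝ)) (integrableOn_const vol_Bt) hg.aestronglyMeasurable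
      (Filter.Eventually.of_forall fun w => ?_)
    rw [Real.norm_eq_abs]
    exact hg1 w
  have hpt : ∀ w : ℂ, max (hk w + ν * g w - 1 / 2) 0 ≤
      max (hk w - 1 / 2) 0 + Dk.indicator (fun w => ν * g w) w +
        {w : ℂ | |hk w - 1 / 2| < |ν|}.indicator (fun _ => |ν|) w := by
    intro w
    have h1 : |ν * g w| ≤ |ν| := by
      rw [abs_mul]
      exact mul_le_of_le_one_right (abs_nonneg _) (hg1 w)
    have h1' := abs_le.mp h1
    by_cases hD : w ∈ Dk
    · rw [indicator_of_mem hD]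
      have h2 := mem_Dk.mp hD
      by_cases hb : |hk w - 1 / 2| < |ν|
      · rw [indicator_of_mem (show w ∈ {w : ℂ | |hk w - 1 / 2| < |ν|} from hb)]
        have h3 := le_max_left (hk w - 1 / 2) 0
        refine max_le (by linarith only [h1', h3]) ?_
        (clear * - h1' h2 h3; linarith)
      · rw [indicator_of_notMem (show w ∉ {w : ℂ | |hk w - 1 / 2| < |ν|} from hb)]
        have h3 := le_max_left (hk w - 1 / 2) 0
        rw [not_lt, abs_of_pos (show 0 < hk w - 1 / 2 by linarith only [h2])] at hb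
        refine max_le (by linarith only [h3]) ?_
        (clear * - h1' hb h3; linarith only [h1', hb, h3])
    · rw [indicator_of_notMem hD]
      have h2 : hk w ≤ 1 / 2 := not_lt.mp fun h => hD (mem_Dk.mpr h)
      have h3 := le_max_right (hk w - 1 / 2) 0
      by_cases hb : |hk w - 1 / 2| < |ν|
      · rw [indicator_of_mem (show w ∈ {w : ℂ | |hk w - 1 / 2| < |ν|} from hb)]
        refine max_le (by (clear * - h1' h2 h3; linarith only [h1', h2, h3])) ?_
        linarith only [h1', h3]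
      · rw [indicator_of_notMem (show w ∉ {w : ℂ | |hk w - 1 / 2| < |ν|} from hb)]
        rw [not_lt, abs_of_nonpos (show hk w - 1 / 2 ≤ 0 by linarith only [h2])] at hb
        refine max_le (by linarith only [h1', h3, hb]) ?_
        linarith only [h3]
  have hmb : MeasurableSet {w : ℂ | |hk w - 1 / 2| < |ν|} :=
    measurableSet_lt ((measurable_hk.sub_const _).abs) measurable_const
  have i1 : IntegrableOn (fun w => max (hk w - 1 / 2) 0) Bt :=
    (int_hk_Bt.sub (integrableOn_const vol_Bt)).pos_part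
  have i2 : IntegrableOn (Dk.indicator fun w => ν * g w) Bt :=
    (hgi.const_mul ν).indicator meas_Dk
  have i3 : IntegrableOn ({w : ℂ | |hk w - 1 / 2| < |ν|}.indicator fun _ => |ν|) Bt :=
    (integrableOn_const (C := |ν|) vol_Bt).indicator hmb
  have i0 : IntegrableOn (fun w => max (hk w + ν * g w - 1 / 2) 0) Bt :=
    ((int_hk_Bt.add (hgi.const_mul ν)).sub (integrableOn_const vol_Bt)).pos_part
  have i12 : Integrable (fun w => max (hk w - 1 / 2) 0 + Dk.indicator (fun w => ν * g w) w)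
      (volume.restrict Bt) := i1.add i2
  have e1 : ∫ w in Bt, max (hk w - 1 / 2) 0 ≤ π / 2 := by
    rw [integral_eq_lintegral_of_nonneg_ae (Filter.Eventually.of_forall fun w =>
      (le_max_right _ _ : (0 : ℝ) ≤ max (hk w - 1 / 2) 0)) i1.1]
    refine ENNReal.toReal_le_of_le_ofReal (by positivity) (le_trans ?_ lint_pos)
    exact lintegral_mono' Measure.restrict_le_self le_rfl
  have e2 : ∫ w in Bt, Dk.indicator (fun w => ν * g w) w = ν * ∫ w in Dk, g w := by
    rw [setIntegral_indicator meas_Dk, inter_eq_right.mpr Dk_sub, integral_const_mul]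
  have e3 : ∫ w in Bt, {w : ℂ | |hk w - 1 / 2| < |ν|}.indicator (fun _ => |ν|) w ≤
      10 * π * ν ^ 2 := by
    rw [setIntegral_indicator hmb, setIntegral_const, smul_eq_mul, measureReal_def]
    rcases eq_or_ne ν 0 with h | h
    · subst h
      simp
    · have h2 : 0 < |ν| := abs_pos.mpr h
      have h3 : (volume (Bt ∩ {w : ℂ | |hk w - 1 / 2| < |ν|})).toReal ≤ 10 * π * |ν| := by
        refine ENNReal.toReal_le_of_le_ofReal (by (clear * - h; positivity)) ?_
        exact (measure_mono inter_subset_right).trans (volume_band h2 hν)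
      calc (volume (Bt ∩ {w : ℂ | |hk w - 1 / 2| < |ν|})).toReal * |ν|
          ≤ 10 * π * |ν| * |ν| := mul_le_mul_of_nonneg_right h3 h2.le
        _ = 10 * π * ν ^ 2 := by
          rw [mul_assoc, abs_mul_abs_self]
          ring
  calc ∫ w in Bt, max (hk w + ν * g w - 1 / 2) 0
      ≤ ∫ w in Bt, (max (hk w - 1 / 2) 0 + Dk.indicator (fun w => ν * g w) w +
        {w : ℂ | |hk w - 1 / 2| < |ν|}.indicator (fun _ => |ν|) w) :=
        integral_mono i0 (i12.add i3) hpt
    _ = (∫ w in Bt, max (hk w - 1 / 2) 0) + (∫ w in Bt, Dk.indicator (fun w => ν * g w) w) +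
        ∫ w in Bt, {w : ℂ | |hk w - 1 / 2| < |ν|}.indicator (fun _ => |ν|) w := by
        rw [integral_add i12 i3, integral_add i1 i2]
    _ ≤ _ := by
        rw [e2]
        (clear * - e1 e3; linarith)

end Pool.Agent.Helper17.G3
end

/- Helper24.K6w.H17.G3.Near -/
section
/-!
# G3: the difference quotient of the weight is near the kernel
-/

set_option autoImplicit false
set_option linter.unusedVariables false

namespace Pool.Agent.Helper17.G3

open MeasureTheory Set Metric
open scoped Real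

/-- the difference quotient -/
noncomputable def qq (d s : ℝ) (w : ℂ) : ℝ := (‖w - s‖ ^ (-d) - ‖w‖ ^ (-d)) / (d * s)

theorem rpow_sub_one {d y : ℝ} (hd : 0 < d) (hd1 : d ≤ 1 / 4) (hy : 0 < y) (hy1 : y ≤ 11) :
    |y ^ (-d) - 1| ≤ 40 * d * y ^ (-(1 / 2) : ℝ) := by
  rcases le_total y 1 with h | h
  · have h1 : 1 ≤ y ^ (-d) := Real.one_le_rpow_of_pos_of_le_one_of_nonpos hy h (by (clear * - hd; linarith only [hd]))
    rw [abs_of_nonneg (by (clear * - h1; linarith only [h1]))]
    have hlog : Real.log y ≤ 0 := Real.log_nonpos hy.le h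
    have h2 : y ^ (-d) - 1 ≤ (-(d * Real.log y)) * y ^ (-d) := by
      have h3 := Real.add_one_le_exp (d * Real.log y)
      have h4 : y ^ (-d) = Real.exp (-(d * Real.log y)) := by
        rw [Real.rpow_def_of_pos hy]
        congr 1
        ring
      have h5 : Real.exp (d * Real.log y) * y ^ (-d) = 1 := by
        rw [h4, ← Real.exp_add]
        simp
      have h6 : 0 < y ^ (-d) := by (clear * - h1; linarith only [h1])
      (clear * - h5 h3 h6; nlinarith only [h3, h5, h6])
    have h7 : y ^ (-d) ≤ y ^ (-(1 / 4) : ℝ) :=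
      Real.rpow_le_rpow_of_exponent_ge hy h (by (clear * - hd1; linarith only [hd1]))
    have h8 : -Real.log y ≤ 4 * y ^ (-(1 / 4) : ℝ) := by
      have h9 := Real.add_one_le_exp (-(1 / 4) * Real.log y)
      rw [Real.rpow_def_of_pos hy, mul_comm (Real.log y)]
      (clear * - h9; linarith only [h9])
    have h10 : y ^ (-(1 / 4) : ℝ) * y ^ (-(1 / 4) : ℝ) = y ^ (-(1 / 2) : ℝ) := by
      rw [← Real.rpow_add hy]
      norm_num
    have h11 : 0 < y ^ (-(1 / 4) : ℝ) := Real.rpow_pos_of_pos hy _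
    calc y ^ (-d) - 1 ≤ d * (-Real.log y) * y ^ (-d) := by linarith only [h2]
      _ ≤ d * (4 * y ^ (-(1 / 4) : ℝ)) * y ^ (-(1 / 4) : ℝ) := by
          refine mul_le_mul ?_ h7 (by linarith only [h1]) (by positivity)
          exact mul_le_mul_of_nonneg_left h8 hd.le
      _ = 4 * d * y ^ (-(1 / 2) : ℝ) := by rw [← h10]; ring
      _ ≤ _ := by
          have := Real.rpow_pos_of_pos hy (-(1 / 2) : ℝ)
          nlinarith only [hd, this]
  · have h1 : y ^ (-d) ≤ 1 := Real.rpow_le_one_of_one_le_of_nonpos h (by (clear * - hd; linarith only [hd]))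
    rw [abs_of_nonpos (by linarith only [h1])]
    have hlog : 0 ≤ Real.log y := Real.log_nonneg h
    have h2 : 1 - y ^ (-d) ≤ d * Real.log y := by
      have h3 := Real.add_one_le_exp (-(d * Real.log y))
      have h4 : y ^ (-d) = Real.exp (-(d * Real.log y)) := by
        rw [Real.rpow_def_of_pos hy]
        congr 1
        ring
      rw [h4]
      (clear * - h3; linarith only [h3])
    have h5 : Real.log y ≤ 10 := by
      have := Real.log_le_sub_one_of_pos hy
      linarith only [hy1, this]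
    have h6 : 1 / 4 ≤ y ^ (-(1 / 2) : ℝ) := by
      have h7 : (16 : ℝ) ^ (-(1 / 2) : ℝ) ≤ y ^ (-(1 / 2) : ℝ) :=
        Real.rpow_le_rpow_of_nonpos hy (by linarith only [hy1]) (by norm_num)
      have h8 : (16 : ℝ) ^ (-(1 / 2) : ℝ) = 1 / 4 := by
        rw [show (16 : ℝ) = 4 ^ (2 : ℝ) by norm_num, ← Real.rpow_mul (by norm_num)]
        norm_num
      (clear * - h7; linarith)
    (clear * - h2 hd h5 h6; nlinarith only [hd, h2, h5, h6])

theorem hk_sub {w z : ℂ} (hw : w ≠ 0) (hz : z ≠ 0) :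
    |hk z - hk w| ≤ ‖z - w‖ / (‖z‖ * ‖w‖) := by
  have h1 : ∀ u : ℂ, hk u = (u⁻¹).re := by
    intro u
    rw [hk, Complex.inv_re, Complex.normSq_eq_norm_sq]
  rw [h1, h1, ← Complex.sub_re]
  refine (Complex.abs_re_le_norm _).trans (le_of_eq ?_)
  rw [inv_sub_inv hz hw, norm_div, norm_mul, norm_sub_rev]

/-- mean value theorem -/
theorem qq_mvt {d s : ℝ} (hd : 0 < d) (hs : 0 < s) {w : ℂ} (hw : s < ‖w‖) :
    ∃ c : ℝ, 0 < c ∧ c < s ∧ qq d s w = hk (w - c) * ‖w - c‖ ^ (-d) := by
  have hN : ∀ t : ℝ, ‖w - t‖ ^ 2 = (w.re - t) ^ 2 + w.im ^ 2 := by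
    intro t
    rw [Complex.sq_norm, Complex.normSq_apply]
    simp only [Complex.sub_re, Complex.sub_im, Complex.ofReal_re, Complex.ofReal_im, sub_zero]
    ring
  have hpos : ∀ t : ℝ, 0 ≤ t → t ≤ s → 0 < ‖w - t‖ := by
    intro t h0 h1
    have h2 := norm_sub_norm_le w (t : ℂ)
    rw [Complex.norm_real, Real.norm_eq_abs, abs_of_nonneg h0] at h2
    (clear * - hw h1 h2; linarith only [hw, h1, h2])
  have hrep : ∀ t : ℝ, ‖w - t‖ ^ (-d) = ((w.re - t) ^ 2 + w.im ^ 2) ^ (-d / 2) := by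
    intro t
    rw [← hN, ← Real.rpow_natCast, ← Real.rpow_mul (norm_nonneg _)]
    congr 1
    push_cast
    ring
  have hder : ∀ t : ℝ, 0 ≤ t → t ≤ s → HasDerivAt (fun t : ℝ => ‖w - t‖ ^ (-d))
      (-(2 * (w.re - t)) * (-d / 2) * ((w.re - t) ^ 2 + w.im ^ 2) ^ (-d / 2 - 1)) t := by
    intro t h0 h1
    have h2 : HasDerivAt (fun t : ℝ => (w.re - t) ^ 2 + w.im ^ 2) (-(2 * (w.re - t))) t := by
      have h3 := (((hasDerivAt_id t).const_sub w.re).pow 2).add_const (w.im ^ 2)
      refine h3.congr_deriv ?_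
      simp
    have h4 : (w.re - t) ^ 2 + w.im ^ 2 ≠ 0 := by
      rw [← hN]
      have := hpos t h0 h1
      (clear * - this; positivity)
    have h5 := h2.rpow_const (p := -d / 2) (Or.inl h4)
    exact h5.congr_of_eventuallyEq (Filter.Eventually.of_forall fun t => hrep t)
  obtain ⟨c, hc, hc2⟩ := exists_hasDerivAt_eq_slope (fun t : ℝ => ‖w - t‖ ^ (-d)) _ hs
    (fun t ht => (hder t ht.1 ht.2).continuousAt.continuousWithinAt)
    (fun t ht => hder t ht.1.le ht.2.le)
  refine ⟨c, hc.1, hc.2, ?_⟩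
  have hz := hpos c hc.1.le hc.2.le
  have h1 : qq d s w = (‖w - s‖ ^ (-d) - ‖w - ((0 : ℝ) : ℂ)‖ ^ (-d)) / (s - 0) / d := by
    rw [qq, Complex.ofReal_zero, sub_zero, sub_zero, div_div, mul_comm d]
  rw [h1, ← hc2, ← hN]
  have h2 : (‖w - c‖ ^ 2) ^ (-d / 2 - 1) = ‖w - c‖ ^ (-d) / ‖w - c‖ ^ 2 := by
    rw [← Real.rpow_natCast, ← Real.rpow_mul hz.le, ← Real.rpow_sub hz]
    congr 1
    push_cast
    ring
  rw [h2, hk]
  simp only [Complex.sub_re, Complex.ofReal_re]
  (clear * - hd hz; field_simp)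

theorem rpow_sub_le {d x y : ℝ} (hd : 0 < d) (hd1 : d ≤ 1 / 4) (hx : 0 < x) (hx1 : x ≤ 1)
    (hxy : x ≤ y) :
    x ^ (-d) - y ^ (-d) ≤ 2 * d * x ^ (-(3 / 4) : ℝ) * y ^ (1 / 2 : ℝ) := by
  have hy : 0 < y := hx.trans_le hxy
  have h1 : y ^ (-d) = x ^ (-d) * Real.exp (-(d * Real.log (y / x))) := by
    rw [Real.log_div hy.ne' hx.ne', Real.rpow_def_of_pos hx, Real.rpow_def_of_pos hy,
      ← Real.exp_add]
    congr 1
    ring
  have h2 := Real.add_one_le_exp (-(d * Real.log (y / x)))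
  have h3 : 0 < x ^ (-d) := Real.rpow_pos_of_pos hx _
  have h4 : x ^ (-d) - y ^ (-d) ≤ x ^ (-d) * (d * Real.log (y / x)) := by
    rw [h1]
    (clear * - h2 h3; nlinarith only [h2, h3])
  have h5 : Real.log (y / x) ≤ 2 * (y / x) ^ (1 / 2 : ℝ) := by
    have h6 := Real.add_one_le_exp (1 / 2 * Real.log (y / x))
    rw [Real.rpow_def_of_pos (by (clear * - hy hx; positivity)), mul_comm (Real.log (y / x))]
    linarith only [h6]
  have h7 : x ^ (-d) ≤ x ^ (-(1 / 4) : ℝ) :=
    Real.rpow_le_rpow_of_exponent_ge hx hx1 (by linarith only [hd1])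
  have h8 : 0 < (y / x) ^ (1 / 2 : ℝ) := by positivity
  calc x ^ (-d) - y ^ (-d) ≤ x ^ (-d) * (d * Real.log (y / x)) := h4
    _ ≤ x ^ (-d) * (d * (2 * (y / x) ^ (1 / 2 : ℝ))) := by
        refine mul_le_mul_of_nonneg_left ?_ h3.le
        exact mul_le_mul_of_nonneg_left h5 hd.le
    _ ≤ x ^ (-(1 / 4) : ℝ) * (d * (2 * (y / x) ^ (1 / 2 : ℝ))) := by
        refine mul_le_mul_of_nonneg_right h7 (by positivity)
    _ = 2 * d * x ^ (-(3 / 4) : ℝ) * y ^ (1 / 2 : ℝ) := by
        rw [Real.div_rpow hy.le hx.le]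
        have h9 : x ^ (-(1 / 4) : ℝ) = x ^ (-(3 / 4) : ℝ) * x ^ (1 / 2 : ℝ) := by
          rw [← Real.rpow_add hx]
          norm_num
        rw [h9]
        have h10 : 0 < x ^ (1 / 2 : ℝ) := Real.rpow_pos_of_pos hx _
        (clear * - hx hy hd; field_simp)

theorem qq_near {d s : ℝ} (hd : 0 < d) (hd1 : d ≤ 1 / 4) (hs : 0 < s) (hs1 : s ≤ 1 / 3) {w : ℂ}
    (hw : w ≠ 0) (hws : w ≠ s) (hB : w ∈ Bt) :
    |qq d s w - hk w| ≤
      (120 * d + 10 * s ^ (1 / 4 : ℝ)) * (‖w‖ ^ (-(3 / 2) : ℝ) + ‖w - s‖ ^ (-(3 / 2) : ℝ)) := by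
  have ha : 0 < ‖w‖ := norm_pos_iff.mpr hw
  have hb : 0 < ‖w - s‖ := norm_pos_iff.mpr (sub_ne_zero.mpr hws)
  have hA : 0 < ‖w‖ ^ (-(3 / 2) : ℝ) := Real.rpow_pos_of_pos ha _
  have hBp : 0 < ‖w - s‖ ^ (-(3 / 2) : ℝ) := Real.rpow_pos_of_pos hb _
  have hs4 : 0 < s ^ (1 / 4 : ℝ) := Real.rpow_pos_of_pos hs _
  have hs24 : s ^ (1 / 2 : ℝ) ≤ s ^ (1 / 4 : ℝ) :=
    Real.rpow_le_rpow_of_exponent_ge hs (by (clear * - hs1; linarith only [hs1])) (by norm_num)
  have hw10 : ‖w‖ ≤ 10 := by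
    rwa [Bt, mem_closedBall, dist_zero_right] at hB
  rcases le_or_gt (2 * s) ‖w‖ with h | h
  · obtain ⟨c, hc0, hc1, hq⟩ := qq_mvt hd hs (w := w) (by (clear * - ha h; linarith only [ha, h]))
    set z : ℂ := w - c with hz
    have hzw : ‖z - w‖ = c := by
      rw [hz, sub_sub_cancel_left, norm_neg, Complex.norm_real, Real.norm_eq_abs, abs_of_pos hc0]
    have hz2 : ‖w‖ / 2 ≤ ‖z‖ := by
      have h2 := norm_sub_norm_le w (c : ℂ)
      rw [Complex.norm_real, Real.norm_eq_abs, abs_of_nonneg hc0.le] at h2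
      (clear * - h hc1 h2; linarith only [h, hc1, h2])
    have hz11 : ‖z‖ ≤ 11 := by
      have h2 := norm_sub_le w (c : ℂ)
      rw [Complex.norm_real, Real.norm_eq_abs, abs_of_nonneg hc0.le] at h2
      linarith only [hs1, hw10, hc1, h2]
    have hz0 : 0 < ‖z‖ := by linarith only [h, hc0, hc1, hz2]
    have hzne : z ≠ 0 := norm_pos_iff.mp hz0
    have e1 : |qq d s w - hk w| ≤ |hk z| * |‖z‖ ^ (-d) - 1| + |hk z - hk w| := by
      rw [hq, ← abs_mul]
      have : hk z * ‖z‖ ^ (-d) - hk w = hk z * (‖z‖ ^ (-d) - 1) + (hk z - hk w) := by ring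
      rw [this]
      exact abs_add_le _ _
    have e2 : |hk z| * |‖z‖ ^ (-d) - 1| ≤ 120 * d * ‖w‖ ^ (-(3 / 2) : ℝ) := by
      calc |hk z| * |‖z‖ ^ (-d) - 1| ≤ ‖z‖ ^ (-1 : ℝ) * (40 * d * ‖z‖ ^ (-(1 / 2) : ℝ)) :=
            mul_le_mul (abs_hk_le z) (rpow_sub_one hd hd1 hz0 hz11) (abs_nonneg _)
              (Real.rpow_nonneg hz0.le _)
        _ = 40 * d * ‖z‖ ^ (-(3 / 2) : ℝ) := by
            have : ‖z‖ ^ (-(3 / 2) : ℝ) = ‖z‖ ^ (-1 : ℝ) * ‖z‖ ^ (-(1 / 2) : ℝ) := by
              rw [← Real.rpow_add hz0]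
              norm_num
            rw [this]
            ring
        _ ≤ 40 * d * (‖w‖ / 2) ^ (-(3 / 2) : ℝ) := by
            refine mul_le_mul_of_nonneg_left ?_ (by positivity)
            exact Real.rpow_le_rpow_of_nonpos (by positivity) hz2 (by norm_num)
        _ ≤ 40 * d * (3 * ‖w‖ ^ (-(3 / 2) : ℝ)) := by
            refine mul_le_mul_of_nonneg_left ?_ (by positivity)
            rw [Real.div_rpow ha.le (by norm_num), div_le_iff₀ (by positivity)]
            have h3 : (1 / 3 : ℝ) ≤ (2 : ℝ) ^ (-(3 / 2) : ℝ) := by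
              rw [Real.rpow_neg (by norm_num), one_div]
              refine inv_anti₀ (by positivity) ?_
              have h4 : ((2 : ℝ) ^ (3 / 2 : ℝ)) ^ 2 ≤ 3 ^ 2 := by
                rw [← Real.rpow_natCast, ← Real.rpow_mul (by norm_num)]
                norm_num
              exact le_of_sq_le_sq h4 (by norm_num)
            nlinarith only [hA, h3]
        _ = 120 * d * ‖w‖ ^ (-(3 / 2) : ℝ) := by ring
    have e3 : |hk z - hk w| ≤ 2 * s ^ (1 / 4 : ℝ) * ‖w‖ ^ (-(3 / 2) : ℝ) := by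
      refine (hk_sub hw hzne).trans ?_
      rw [hzw, div_le_iff₀ (by positivity)]
      have h3 : ‖w‖ ^ (-(3 / 2) : ℝ) * ‖w‖ = ‖w‖ ^ (-(1 / 2) : ℝ) := by
        nth_rewrite 2 [← Real.rpow_one ‖w‖]
        rw [← Real.rpow_add ha]
        norm_num
      have h4 : ‖w‖ ^ (-(1 / 2) : ℝ) * ‖w‖ = ‖w‖ ^ (1 / 2 : ℝ) := by
        nth_rewrite 2 [← Real.rpow_one ‖w‖]
        rw [← Real.rpow_add ha]
        norm_num
      have h5 : s ^ (1 / 2 : ℝ) ≤ ‖w‖ ^ (1 / 2 : ℝ) :=
        Real.rpow_le_rpow hs.le (by (clear * - h hc0 hc1; linarith only [h, hc0, hc1])) (by norm_num)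
      have h6 : s ^ (1 / 2 : ℝ) * s ^ (1 / 2 : ℝ) = s := by
        rw [← Real.rpow_add hs]
        norm_num
      have h7 : 0 < s ^ (1 / 2 : ℝ) := Real.rpow_pos_of_pos hs _
      calc c ≤ s := hc1.le
        _ = s ^ (1 / 2 : ℝ) * s ^ (1 / 2 : ℝ) := h6.symm
        _ ≤ s ^ (1 / 4 : ℝ) * ‖w‖ ^ (1 / 2 : ℝ) := mul_le_mul hs24 h5 h7.le hs4.le
        _ = s ^ (1 / 4 : ℝ) * (‖w‖ ^ (-(3 / 2) : ℝ) * ‖w‖ * ‖w‖) := by rw [h3, h4]
        _ = 2 * s ^ (1 / 4 : ℝ) * ‖w‖ ^ (-(3 / 2) : ℝ) * (‖w‖ / 2 * ‖w‖) := by ring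
        _ ≤ 2 * s ^ (1 / 4 : ℝ) * ‖w‖ ^ (-(3 / 2) : ℝ) * (‖z‖ * ‖w‖) := by
            refine mul_le_mul_of_nonneg_left ?_ (by positivity)
            exact mul_le_mul_of_nonneg_right hz2 ha.le
    nlinarith only [hd, hA, hBp, hs4, e1, e2, e3]
  · have hb3 : ‖w - s‖ ≤ 3 * s := by
      have h2 := norm_sub_le w (s : ℂ)
      rw [Complex.norm_real, Real.norm_eq_abs, abs_of_nonneg hs.le] at h2
      linarith only [h, h2]
    have e1 : |hk w| ≤ 2 * s ^ (1 / 4 : ℝ) * ‖w‖ ^ (-(3 / 2) : ℝ) := by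
      refine (abs_hk_le w).trans ?_
      have h3 : ‖w‖ ^ (-1 : ℝ) = ‖w‖ ^ (1 / 2 : ℝ) * ‖w‖ ^ (-(3 / 2) : ℝ) := by
        rw [← Real.rpow_add ha]
        norm_num
      rw [h3]
      refine mul_le_mul_of_nonneg_right ?_ hA.le
      calc ‖w‖ ^ (1 / 2 : ℝ) ≤ (4 * s) ^ (1 / 2 : ℝ) :=
            Real.rpow_le_rpow ha.le (by linarith only [ha, h]) (by norm_num)
        _ = 2 * s ^ (1 / 2 : ℝ) := by
            rw [Real.mul_rpow (by norm_num) hs.le]
            congr 1
            rw [show (4 : ℝ) = 2 ^ (2 : ℝ) by norm_num, ← Real.rpow_mul (by norm_num)]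
            norm_num
        _ ≤ 2 * s ^ (1 / 4 : ℝ) := by linarith only [hs24]
    have key : ∀ x y : ℝ, 0 < x → x ≤ y → y ≤ 3 * s →
        (x ^ (-d) - y ^ (-d)) / (d * s) ≤ 8 * s ^ (1 / 4 : ℝ) * x ^ (-(3 / 2) : ℝ) := by
      intro x y hx hxy hy
      have h1 := rpow_sub_le hd hd1 hx (by linarith only [hs1, hxy, hy]) hxy
      have hy0 : 0 < y := hx.trans_le hxy
      rw [div_le_iff₀ (by positivity)]
      refine h1.trans ?_
      have h2 : x ^ (-(3 / 4) : ℝ) = x ^ (3 / 4 : ℝ) * x ^ (-(3 / 2) : ℝ) := by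
        rw [← Real.rpow_add hx]
        norm_num
      have h3 : x ^ (3 / 4 : ℝ) ≤ (3 * s) ^ (3 / 4 : ℝ) :=
        Real.rpow_le_rpow hx.le (by linarith only [hxy, hy]) (by norm_num)
      have h4 : y ^ (1 / 2 : ℝ) ≤ (3 * s) ^ (1 / 2 : ℝ) :=
        Real.rpow_le_rpow hy0.le hy (by norm_num)
      have h5 : (3 * s) ^ (3 / 4 : ℝ) * (3 * s) ^ (1 / 2 : ℝ) ≤ 4 * (s ^ (1 / 4 : ℝ) * s) := by
        rw [← Real.rpow_add (by positivity), Real.mul_rpow (by norm_num) hs.le]
        have h6 : s ^ ((3 / 4 : ℝ) + 1 / 2) = s ^ (1 / 4 : ℝ) * s := by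
          nth_rewrite 3 [← Real.rpow_one s]
          rw [← Real.rpow_add hs]
          norm_num
        rw [h6]
        refine mul_le_mul_of_nonneg_right ?_ (by positivity)
        have h7 : ((3 : ℝ) ^ ((3 / 4 : ℝ) + 1 / 2)) ^ 4 ≤ 4 ^ 4 := by
          rw [← Real.rpow_natCast, ← Real.rpow_mul (by norm_num)]
          norm_num
        exact le_of_pow_le_pow_left₀ (by norm_num) (by norm_num) h7
      have h8 : 0 < x ^ (-(3 / 2) : ℝ) := Real.rpow_pos_of_pos hx _
      rw [h2]
      calc 2 * d * (x ^ (3 / 4 : ℝ) * x ^ (-(3 / 2) : ℝ)) * y ^ (1 / 2 : ℝ)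
          = 2 * d * x ^ (-(3 / 2) : ℝ) * (x ^ (3 / 4 : ℝ) * y ^ (1 / 2 : ℝ)) := by ring
        _ ≤ 2 * d * x ^ (-(3 / 2) : ℝ) * ((3 * s) ^ (3 / 4 : ℝ) * (3 * s) ^ (1 / 2 : ℝ)) := by
            refine mul_le_mul_of_nonneg_left ?_ (by positivity)
            exact mul_le_mul h3 h4 (by (clear * - hy0; positivity)) (by positivity)
        _ ≤ 2 * d * x ^ (-(3 / 2) : ℝ) * (4 * (s ^ (1 / 4 : ℝ) * s)) :=
            mul_le_mul_of_nonneg_left h5 (by positivity)
        _ = _ := by ring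
    have e2 : |qq d s w| ≤ 8 * s ^ (1 / 4 : ℝ) * (‖w‖ ^ (-(3 / 2) : ℝ) + ‖w - s‖ ^ (-(3 / 2) : ℝ)) := by
      rcases le_total ‖w‖ ‖w - s‖ with hab | hab
      · have h1 := key ‖w‖ ‖w - s‖ ha hab hb3
        have h2 : ‖w - s‖ ^ (-d) ≤ ‖w‖ ^ (-d) :=
          Real.rpow_le_rpow_of_nonpos ha hab (by linarith only [hd])
        rw [qq, abs_of_nonpos (div_nonpos_of_nonpos_of_nonneg (by linarith only [h2]) (by positivity)),
          ← neg_div, neg_sub]
        refine h1.trans (mul_le_mul_of_nonneg_left ?_ (by positivity))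
        linarith only [hBp]
      · have h1 := key ‖w - s‖ ‖w‖ hb hab (by linarith only [ha, h])
        have h2 : ‖w‖ ^ (-d) ≤ ‖w - s‖ ^ (-d) :=
          Real.rpow_le_rpow_of_nonpos hb hab (by linarith only [hd])
        rw [qq, abs_of_nonneg (div_nonneg (by linarith only [h2]) (by positivity))]
        refine h1.trans (mul_le_mul_of_nonneg_left ?_ (by positivity))
        linarith only [hA]
    have e3 := abs_sub (qq d s w) (hk w)
    nlinarith only [mul_pos hs4 hA, mul_pos hs4 hBp, mul_pos hd hA, e1, e2, e3]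

end Pool.Agent.Helper17.G3
end
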