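import Mathlib
import Pool.Agent.Helper24.K6.G04

/- Helper24.K6w.H17.G3.Bound -/
section
/-!
# G3: the integrable majorant
-/

set_option autoImplicit false
set_option linter.unusedVariables false

namespace Pool.Agent.Helper17.G3

open MeasureTheory Set Metric
open scoped Real

theorem int_Bt {a : ℝ} (h0 : 0 < a) (h2 : a < 2) (p : ℂ) :
    IntegrableOn (fun y : ℂ => ‖y - p‖ ^ (-a)) Bt :=
  Helper39.G2.integrableOn_weight h0 h2 p vol_Bt

theorem le_Bt {a : ℝ} (h0 : 0 < a) (h2 : a < 2) (p : ℂ) :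
    ∫ y in Bt, ‖y - p‖ ^ (-a) ≤ 2 * π / (2 - a) * 10 ^ (2 - a) := by
  have h1 := Helper39.G2.weight_le h0 h2 p Bt (ρ := 10) (by norm_num) (by
    rw [Bt, Complex.volume_closedBall, mul_comm π, ENNReal.ofReal_mul (by positivity),
      ← ENNReal.ofReal_pow (by positivity), ← NNReal.coe_real_pi, ENNReal.ofReal_coe_nnreal])
  rw [← Helper39.G2.ofReal_integral_weight h0 h2 p vol_Bt] at h1
  have h3 : 0 < 2 - a := by linarith only [h2]
  rwa [ENNReal.ofReal_le_ofReal_iff (by (clear * - h2; positivity))] at h1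

theorem far_qq {d s : ℝ} (hd : 0 < d) (hd1 : d ≤ 1) (hs : 0 < s) (hs1 : s ≤ 1 / 3) {y : ℂ}
    (hy : 10 < ‖y‖) : |qq d s y| ≤ 1 / 8 * ‖y‖ ^ (-d) := by
  obtain ⟨c, hc0, hc1, hq⟩ := qq_mvt hd hs (w := y) (by (clear * - hs1 hy; linarith only [hs1, hy]))
  have hz2 : 29 / 30 * ‖y‖ ≤ ‖y - c‖ := by
    have h2 := norm_sub_norm_le y (c : ℂ)
    rw [Complex.norm_real, Real.norm_eq_abs, abs_of_nonneg hc0.le] at h2
    (clear * - hs1 hy hc1 h2; linarith only [hs1, hy, hc1, h2])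
  have hy0 : 0 < ‖y‖ := by linarith only [hy]
  have hz0 : 0 < ‖y - c‖ := by (clear * - hz2 hy0; linarith only [hz2, hy0])
  rw [hq, abs_mul, abs_of_pos (Real.rpow_pos_of_pos hz0 _)]
  have h1 : |hk (y - c)| ≤ 30 / 290 := by
    refine (abs_hk_le _).trans ?_
    rw [Real.rpow_neg_one]
    have h3 : (290 / 30 : ℝ) ≤ ‖y - c‖ := by linarith only [hy, hz2]
    calc ‖y - c‖⁻¹ ≤ (290 / 30 : ℝ)⁻¹ := inv_anti₀ (by norm_num) h3
      _ = 30 / 290 := by norm_num
  have h2 : ‖y - c‖ ^ (-d) ≤ 30 / 29 * ‖y‖ ^ (-d) := by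
    calc ‖y - c‖ ^ (-d) ≤ (29 / 30 * ‖y‖) ^ (-d) :=
          Real.rpow_le_rpow_of_nonpos (by (clear * - hy; positivity)) hz2 (by linarith only [hd])
      _ = (29 / 30 : ℝ) ^ (-d) * ‖y‖ ^ (-d) := Real.mul_rpow (by norm_num) hy0.le
      _ ≤ 30 / 29 * ‖y‖ ^ (-d) := by
          refine mul_le_mul_of_nonneg_right ?_ (Real.rpow_nonneg hy0.le _)
          have h4 : (29 / 30 : ℝ) ^ (-d) ≤ (29 / 30 : ℝ) ^ (-1 : ℝ) :=
            Real.rpow_le_rpow_of_exponent_ge (by norm_num) (by norm_num) (by linarith only [hd1])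
          rw [Real.rpow_neg_one] at h4
          norm_num at h4 ⊢
          (clear * - h4; linarith only [h4])
  have h5 : 0 < ‖y‖ ^ (-d) := Real.rpow_pos_of_pos hy0 _
  calc |hk (y - c)| * ‖y - c‖ ^ (-d) ≤ 30 / 290 * (30 / 29 * ‖y‖ ^ (-d)) :=
        mul_le_mul h1 h2 (by (clear * - hz0; positivity)) (by norm_num)
    _ ≤ 1 / 8 * ‖y‖ ^ (-d) := by linarith only [h5]

/-- the error function -/
noncomputable def ee (d s : ℝ) (y : ℂ) : ℝ :=
  (240 * d + 20 * s ^ (1 / 4 : ℝ)) * (‖y - 0‖ ^ (-(3 / 2) : ℝ) + ‖y - s‖ ^ (-(3 / 2) : ℝ)) +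
    d * (‖y - 0‖ ^ (-1 : ℝ) + (1 + 50 * ‖y - 0‖ ^ (-(1 / 2) : ℝ)))

theorem ee_nonneg {d s : ℝ} (hd : 0 < d) (hs : 0 < s) (y : ℂ) : 0 ≤ ee d s y := by
  unfold ee
  (clear * - hd hs; positivity)

theorem int_one : IntegrableOn (fun _ : ℂ => (1 : ℝ)) Bt := integrableOn_const vol_Bt

theorem int_ee {d s : ℝ} : IntegrableOn (ee d s) Bt := by
  have h1 := int_Bt (a := 3 / 2) (by norm_num) (by norm_num) 0
  have h2 := int_Bt (a := 3 / 2) (by norm_num) (by norm_num) (s : ℂ)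
  have h3 := int_Bt (a := 1) (by norm_num) (by norm_num) 0
  have h4 := int_Bt (a := 1 / 2) (by norm_num) (by norm_num) 0
  exact ((h1.add h2).const_mul _).add ((h3.add (int_one.add (h4.const_mul 50))).const_mul _)

theorem ee_le {d s : ℝ} (hd : 0 < d) (hs : 0 < s) :
    ∫ y in Bt, ee d s y ≤ 30000 * (d + s ^ (1 / 4 : ℝ)) := by
  have h1 := int_Bt (a := 3 / 2) (by norm_num) (by norm_num) 0
  have h2 := int_Bt (a := 3 / 2) (by norm_num) (by norm_num) (s : ℂ)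
  have h3 := int_Bt (a := 1) (by norm_num) (by norm_num) 0
  have h4 := int_Bt (a := 1 / 2) (by norm_num) (by norm_num) 0
  have l1 := le_Bt (a := 3 / 2) (by norm_num) (by norm_num) 0
  have l2 := le_Bt (a := 3 / 2) (by norm_num) (by norm_num) (s : ℂ)
  have l3 := le_Bt (a := 1) (by norm_num) (by norm_num) 0
  have l4 := le_Bt (a := 1 / 2) (by norm_num) (by norm_num) 0
  have i12 : IntegrableOn (fun y : ℂ => ‖y - 0‖ ^ (-(3 / 2) : ℝ) + ‖y - s‖ ^ (-(3 / 2) : ℝ)) Bt :=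
    h1.add h2
  have i4 : IntegrableOn (fun y : ℂ => 1 + 50 * ‖y - 0‖ ^ (-(1 / 2) : ℝ)) Bt :=
    int_one.add (h4.const_mul 50)
  have i34 : IntegrableOn (fun y : ℂ => ‖y - 0‖ ^ (-1 : ℝ) + (1 + 50 * ‖y - 0‖ ^ (-(1 / 2) : ℝ)))
      Bt := h3.add i4
  have e1 : ∫ y in Bt, ee d s y = (240 * d + 20 * s ^ (1 / 4 : ℝ)) *
      ((∫ y in Bt, ‖y - 0‖ ^ (-(3 / 2) : ℝ)) + ∫ y in Bt, ‖y - s‖ ^ (-(3 / 2) : ℝ)) +
      d * ((∫ y in Bt, ‖y - 0‖ ^ (-1 : ℝ)) + ((∫ y in Bt, (1 : ℝ)) +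
        50 * ∫ y in Bt, ‖y - 0‖ ^ (-(1 / 2) : ℝ))) := by
    unfold ee
    rw [integral_add (i12.const_mul _) (i34.const_mul _), integral_const_mul, integral_const_mul,
      integral_add h1 h2, integral_add h3 i4, integral_add int_one (h4.const_mul 50),
      integral_const_mul]
  have v1 : ∫ y in Bt, (1 : ℝ) = 100 * π := by
    rw [setIntegral_const, smul_eq_mul, mul_one, measureReal_def, Bt, Complex.volume_closedBall,
      ENNReal.toReal_mul, ENNReal.toReal_pow, ENNReal.toReal_ofReal (by norm_num)]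
    norm_num
  have hπ : π ≤ 3.1416 := Real.pi_lt_d4.le
  have hπ0 := Real.pi_pos
  have r1 : (10 : ℝ) ^ (2 - 3 / 2 : ℝ) ≤ 3.2 := by
    have h7 : ((10 : ℝ) ^ (2 - 3 / 2 : ℝ)) ^ 2 ≤ 3.2 ^ 2 := by
      rw [← Real.rpow_natCast, ← Real.rpow_mul (by norm_num)]
      norm_num
    exact le_of_sq_le_sq h7 (by norm_num)
  have r3 : (10 : ℝ) ^ (2 - 1 : ℝ) = 10 := by norm_num
  have r4 : (10 : ℝ) ^ (2 - 1 / 2 : ℝ) ≤ 32 := by
    have h7 : ((10 : ℝ) ^ (2 - 1 / 2 : ℝ)) ^ 2 ≤ 32 ^ 2 := by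
      rw [← Real.rpow_natCast, ← Real.rpow_mul (by norm_num)]
      norm_num
    exact le_of_sq_le_sq h7 (by norm_num)
  have b1 : 2 * π / (2 - 3 / 2) * (10 : ℝ) ^ (2 - 3 / 2 : ℝ) ≤ 42 := by
    have : 2 * π / (2 - 3 / 2) = 4 * π := by ring
    rw [this]
    nlinarith only [hπ, hπ0, r1]
  have b3 : 2 * π / (2 - 1) * (10 : ℝ) ^ (2 - 1 : ℝ) ≤ 63 := by
    rw [r3]
    have : 2 * π / (2 - 1) = 2 * π := by ring
    rw [this]
    (clear * - hπ; linarith only [hπ])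
  have b4 : 2 * π / (2 - 1 / 2) * (10 : ℝ) ^ (2 - 1 / 2 : ℝ) ≤ 140 := by
    have : 2 * π / (2 - 1 / 2) = 4 / 3 * π := by ring
    rw [this]
    (clear * - hπ hπ0 r4; nlinarith only [hπ, hπ0, r4])
  have hs4 : 0 < s ^ (1 / 4 : ℝ) := Real.rpow_pos_of_pos hs _
  rw [e1, v1]
  have c1 : (∫ y in Bt, ‖y - 0‖ ^ (-(3 / 2) : ℝ)) + ∫ y in Bt, ‖y - s‖ ^ (-(3 / 2) : ℝ) ≤ 84 := by
    linarith only [l1, l2, b1]
  have c2 : (∫ y in Bt, ‖y - 0‖ ^ (-1 : ℝ)) + (100 * π +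
        50 * ∫ y in Bt, ‖y - 0‖ ^ (-(1 / 2) : ℝ)) ≤ 7400 := by
    (clear * - l3 l4 b3 b4; linarith only [l3, l4, b3, b4])
  linarith only [mul_le_mul_of_nonneg_left c1 (by positivity : 0 ≤ 240 * d + 20 * s ^ (1 / 4 : ℝ)), mul_le_mul_of_nonneg_left c2 hd.le, hd, hs4]

/-- the pointwise bound in the ball -/
theorem near_le {d s lam : ℝ} (hd : 0 < d) (hd1 : d ≤ 1 / 10) (hs : 0 < s) (hs1 : s ≤ 1 / 3)
    (hl : 0 ≤ lam) (hl1 : lam ≤ 1) {b : ℝ} (hb : |b| ≤ 1 / 8) {y : ℂ} (hy : y ≠ 0) (hys : y ≠ s)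
    (hB : y ∈ Bt) :
    qq d s y + (b - 1 / 2) * ‖y‖ ^ (-d) + d * lam * (|qq d s y| + ‖y‖ ^ (-d)) ≤
      max (hk y + b - 1 / 2) 0 + ee d s y := by
  have ha : 0 < ‖y‖ := norm_pos_iff.mpr hy
  have hy10 : ‖y‖ ≤ 10 := by
    rwa [Bt, mem_closedBall, dist_zero_right] at hB
  have h1 := qq_near hd (by linarith only [hd1]) hs hs1 hy hys hB
  have h2 := rpow_sub_one hd (by (clear * - hd1; linarith only [hd1]) : d ≤ 1 / 4) ha (by linarith only [hy10])
  have h3 := abs_hk_le y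
  have h4 := le_max_left (hk y + b - 1 / 2) 0
  have hb' := abs_le.mp hb
  have h5 : 0 < ‖y‖ ^ (-(1 / 2) : ℝ) := Real.rpow_pos_of_pos ha _
  have h6 : 0 < ‖y‖ ^ (-1 : ℝ) := Real.rpow_pos_of_pos ha _
  have hdl : d * lam ≤ d := by (clear * - hd hl1; nlinarith only [hd, hl1])
  have hdl0 : 0 ≤ d * lam := by (clear * - hd hl; positivity)
  set X := |qq d s y - hk y| with hX
  set Y := |‖y‖ ^ (-d) - 1| with hY
  have hX0 : 0 ≤ X := abs_nonneg _
  have hY0 : 0 ≤ Y := abs_nonneg _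
  have q1 : qq d s y ≤ hk y + X := by (clear * -; linarith only [le_abs_self (qq d s y - hk y)])
  have q2 : |qq d s y| ≤ ‖y‖ ^ (-1 : ℝ) + X := by
    have : qq d s y = hk y + (qq d s y - hk y) := by ring
    calc |qq d s y| = |hk y + (qq d s y - hk y)| := by rw [← this]
      _ ≤ |hk y| + X := abs_add_le _ _
      _ ≤ _ := by linarith only [h3]
  have q3 : ‖y‖ ^ (-d) ≤ 1 + Y := by (clear * -; linarith only [le_abs_self (‖y‖ ^ (-d) - 1)])
  have q4 : (b - 1 / 2) * ‖y‖ ^ (-d) ≤ (b - 1 / 2) + Y := by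
    have e1 : (b - 1 / 2) * ‖y‖ ^ (-d) = (b - 1 / 2) + (b - 1 / 2) * (‖y‖ ^ (-d) - 1) := by ring
    rw [e1]
    have e2 : (b - 1 / 2) * (‖y‖ ^ (-d) - 1) ≤ |b - 1 / 2| * Y := by
      rw [hY, ← abs_mul]
      exact le_abs_self _
    have e3 : |b - 1 / 2| ≤ 1 := by
      rw [abs_le]
      constructor <;> linarith only [hb']
    (clear * - e2 hY0 e3; nlinarith only [hY0, e2, e3])
  have q5 : d * lam * (|qq d s y| + ‖y‖ ^ (-d)) ≤ d * (‖y‖ ^ (-1 : ℝ) + X + 1 + Y) := by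
    have e0 : 0 ≤ |qq d s y| + ‖y‖ ^ (-d) := by (clear * - hy; positivity)
    calc d * lam * (|qq d s y| + ‖y‖ ^ (-d)) ≤ d * (|qq d s y| + ‖y‖ ^ (-d)) :=
          mul_le_mul_of_nonneg_right hdl e0
      _ ≤ _ := mul_le_mul_of_nonneg_left (by linarith only [q2, q3]) hd.le
  have hdX : d * X ≤ X := by nlinarith only [hd1, hX0]
  have hdY : d * Y ≤ 1 / 10 * Y := by nlinarith only [hd1, hY0]
  have hd1' : 0 < d := hd
  have e5 : 44 * d * ‖y‖ ^ (-(1 / 2) : ℝ) ≤ d * (50 * ‖y‖ ^ (-(1 / 2) : ℝ)) := by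
    linarith only [h2, hY0]
  unfold ee
  rw [sub_zero]
  have h1' : 2 * X ≤ (240 * d + 20 * s ^ (1 / 4 : ℝ)) *
      (‖y‖ ^ (-(3 / 2) : ℝ) + ‖y - s‖ ^ (-(3 / 2) : ℝ)) := by linarith only [h1]
  have h2' : 11 / 10 * Y ≤ 44 * d * ‖y‖ ^ (-(1 / 2) : ℝ) := by (clear * - h2; linarith only [h2])
  linarith only [h4, hY0, q1, q4, q5, hdX, hdY, h1', h2']

/-- the majorant -/
theorem bound_H {d s lam ν Kc : ℝ} (hd : 0 < d) (hd1 : d ≤ 1 / 10) (hs : 0 < s) (hs1 : s ≤ 1 / 3)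
    (hl : 0 ≤ lam) (hl1 : lam ≤ 1) {b c : ℂ → ℝ} (hbm : Measurable b) (hν : 0 ≤ ν) (hν1 : ν ≤ 1 / 8)
    (hb : ∀ y, |b y| ≤ ν) (hc : Integrable c) (hc0 : ∀ y, 0 ≤ c y) (hK : ∫ y, c y ≤ Kc) :
    ∃ H : ℂ → ℝ, Integrable H ∧ (∀ y, 0 ≤ H y) ∧
      (∀ᵐ y : ℂ, qq d s y + (b y - 1 / 2) * ‖y‖ ^ (-d) + d * lam * (|qq d s y| + ‖y‖ ^ (-d)) +
        c y ≤ H y) ∧
      ∫ y, H y ≤ π / 2 + (∫ y in Dk, b y) + 10 * π * ν ^ 2 + Kc +
        30000 * (d + s ^ (1 / 4 : ℝ)) := by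
  have hbi : IntegrableOn b Bt := by
    refine Integrable.mono' (g := fun _ => ν) (integrableOn_const vol_Bt) hbm.aestronglyMeasurable
      (Filter.Eventually.of_forall fun w => ?_)
    rw [Real.norm_eq_abs]
    exact hb w
  have i1 : IntegrableOn (fun y => max (hk y + b y - 1 / 2) 0) Bt :=
    ((int_hk_Bt.add hbi).sub (integrableOn_const vol_Bt)).pos_part
  have i2 : IntegrableOn (fun y => max (hk y + b y - 1 / 2) 0 + ee d s y) Bt := i1.add int_ee
  refine ⟨fun y => Bt.indicator (fun y => max (hk y + b y - 1 / 2) 0 + ee d s y) y + c y,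
    (i2.integrable_indicator meas_Bt).add hc, ?_, ?_, ?_⟩
  · intro y
    refine add_nonneg (indicator_nonneg (fun y _ => ?_) y) (hc0 y)
    exact add_nonneg (le_max_right _ _) (ee_nonneg hd hs y)
  · have hp : ∀ᵐ y : ℂ, y ≠ 0 := by simp [ae_iff]
    have hq : ∀ᵐ y : ℂ, y ≠ (s : ℂ) := by simp [ae_iff]
    filter_upwards [hp, hq] with y hy hys
    refine add_le_add ?_ le_rfl
    by_cases hB : y ∈ Bt
    · rw [indicator_of_mem hB]
      exact near_le hd hd1 hs hs1 hl hl1 ((hb y).trans hν1) hy hys hB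
    · rw [indicator_of_notMem hB]
      have hy10 : 10 < ‖y‖ := by
        rw [Bt, mem_closedBall, dist_zero_right, not_le] at hB
        exact hB
      have h1 := far_qq hd (by (clear * - hd1; linarith only [hd1])) hs hs1 hy10
      have h2 : 0 < ‖y‖ ^ (-d) := Real.rpow_pos_of_pos (by linarith only [hy10]) _
      have h3 := le_abs_self (qq d s y)
      have h4 := (abs_le.mp ((hb y).trans hν1)).2
      have h5 : d * lam * (|qq d s y| + ‖y‖ ^ (-d)) ≤ 1 / 10 * (9 / 8 * ‖y‖ ^ (-d)) := by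
        have h6 : d * lam ≤ 1 / 10 := by (clear * - hl1 hd1 hl; nlinarith only [hd1, hl, hl1])
        refine mul_le_mul h6 (by (clear * - h1; linarith only [h1])) (by (clear * - hy; positivity)) (by norm_num)
      have h7 : (b y - 1 / 2) * ‖y‖ ^ (-d) ≤ -(3 / 8) * ‖y‖ ^ (-d) :=
        mul_le_mul_of_nonneg_right (by (clear * - h4; linarith only [h4])) h2.le
      linarith only [h1, h2, h3, h5, h7]
  · rw [integral_add (i2.integrable_indicator meas_Bt) hc, integral_indicator meas_Bt,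
      integral_add i1 int_ee]
    have h1 := ee_le hd hs
    have h2 : ∫ y in Bt, max (hk y + b y - 1 / 2) 0 ≤
        π / 2 + (∫ y in Dk, b y) + 10 * π * ν ^ 2 := by
      rcases hν.eq_or_lt with h | h
      · have hb0 : ∀ y, b y = 0 := fun y => by
          have := hb y
          rw [← h] at this
          exact abs_nonpos_iff.mp this
        have h3 := pos_part (g := fun _ => (0 : ℝ)) measurable_const (fun _ => by simp)
          (ν := 0) (by norm_num)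
        simp only [hb0, ← h]
        simpa using h3
      · have h3 := pos_part (g := fun y => b y / ν) (hbm.div_const ν) (fun y => by
          rw [abs_div, abs_of_pos h, div_le_one h]
          exact hb y) (ν := ν) (by rwa [abs_of_pos h])
        have h4 : ∀ y, ν * (b y / ν) = b y := fun y => by
          (clear * - h; field_simp)
        simp only [h4] at h3
        rw [← integral_const_mul] at h3
        simp only [h4] at h3
        exact h3
    linarith only [hK, h1, h2]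

end Pool.Agent.Helper17.G3
end

/- Helper24.K6w.H17.G5.Pt5 -/
section
/-!
# G5: the linearised density
-/

set_option autoImplicit false
set_option linter.unusedVariables false

namespace Pool.Agent.Helper17.G5

open MeasureTheory Set Metric
open scoped Real
open Pool.Agent.Helper17.G3

theorem exp_quad {x : ℝ} (hx : |x| ≤ 1) : Real.exp x ≤ 1 + x + x ^ 2 := by
  have := Real.abs_exp_sub_one_sub_id_le hx
  have h2 := (abs_le.mp this).2
  (clear * - h2; linarith only [h2])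

/-- the pointwise linearisation -/
theorem pt {A d m lam : ℝ} (hA : 1 ≤ A) (hd : 0 < d) (hd1 : d * (2 + A) ≤ 1) (hm : 0 < m)
    (hl : 0 ≤ lam) (hl1 : lam ≤ 1) {k0 k1 : ℝ} (h0 : |k0| ≤ 1) (h1 : |k1| ≤ 1) {w : ℂ}
    (hw : 4 * m ≤ ‖w‖) :
    Real.exp (d * (2 * m * hk w + A * (4 * m ^ 2 / ‖w‖ ^ 2))) * (1 - d * lam * k1) -
      Real.exp (d * m) * (1 - d * lam * k0) ≤
    d * (2 * m) * (hk w - 1 / 2 + lam / (2 * m) * (k0 - k1) +
      (2 * A * m / ‖w‖ ^ 2 + d * ((2 + A) ^ 2 / 2 * (1 / ‖w‖) + 1 / 2))) := by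
  have hw0 : 0 < ‖w‖ := by (clear * - hm hw; linarith only [hm, hw])
  have hw1 : 0 < 1 / ‖w‖ := by (clear * - hw0; positivity)
  set X := 2 * m * hk w + A * (4 * m ^ 2 / ‖w‖ ^ 2) with hX
  have hk1 : |hk w| ≤ 1 / ‖w‖ := by
    have := abs_hk_le w
    rwa [Real.rpow_neg_one, ← one_div] at this
  have hm1 : m * (1 / ‖w‖) ≤ 1 / 4 := by
    rw [mul_one_div, div_le_iff₀ hw0]
    (clear * - hw; linarith only [hw])
  have hX1 : |X| ≤ (2 + A) * (m * (1 / ‖w‖)) := by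
    have e1 : |2 * m * hk w| ≤ 2 * m * (1 / ‖w‖) := by
      rw [abs_mul, abs_of_pos (by (clear * - hm; positivity) : 0 < 2 * m)]
      exact mul_le_mul_of_nonneg_left hk1 (by (clear * - hm; positivity))
    have e2 : |A * (4 * m ^ 2 / ‖w‖ ^ 2)| ≤ A * (m * (1 / ‖w‖)) := by
      rw [abs_of_nonneg (by (clear * - hA hm hw0; positivity))]
      have e3 : 4 * m ^ 2 / ‖w‖ ^ 2 = 4 * (m * (1 / ‖w‖)) * (m * (1 / ‖w‖)) := by
        (clear * - hw0 hm; field_simp)
      rw [e3]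
      have e4 : 0 ≤ m * (1 / ‖w‖) := by (clear * - hm hw0; positivity)
      refine mul_le_mul_of_nonneg_left ?_ (by (clear * - hA; linarith only [hA]))
      (clear * - hm1 e4; nlinarith only [hm1, e4])
    have := abs_add_le (2 * m * hk w) (A * (4 * m ^ 2 / ‖w‖ ^ 2))
    rw [← hX] at this
    (clear * - e1 e2 this; linarith)
  set q := m * (1 / ‖w‖) with hq
  have hq0 : 0 < q := by (clear * - hm hw0; positivity)
  have hdX : |d * X| ≤ 1 := by
    rw [abs_mul, abs_of_pos hd]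
    calc d * |X| ≤ d * ((2 + A) * q) := mul_le_mul_of_nonneg_left hX1 hd.le
      _ = d * (2 + A) * q := by ring
      _ ≤ 1 * q := mul_le_mul_of_nonneg_right hd1 hq0.le
      _ ≤ 1 := by (clear * - hm1 hq0; linarith only [hm1])
  have hE := exp_quad hdX
  have hdl : 0 ≤ d * lam := by (clear * - hd hl; positivity)
  have hd2 : d ≤ 1 / 3 := by (clear * - hd1 hA hd; nlinarith only [hA, hd1])
  have hdl1 : d * lam ≤ d := by (clear * - hd hl1; nlinarith)
  have h0' := abs_le.mp h0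
  have h1' := abs_le.mp h1
  have hf1 : 0 ≤ 1 - d * lam * k1 := by (clear * - hd2 hdl1 hm1 hq0 hdl h1'; nlinarith only [hdl, hd2, hdl1, h1'])
  have hf0 : 0 ≤ 1 - d * lam * k0 := by (clear * - hd2 hdl1 hm1 hq0 hdl h0'; nlinarith)
  have hf2 : 1 - d * lam * k1 ≤ 2 := by (clear * - hl1 hA hdl hd1 hl hm1 hq0 h1'; nlinarith only [hA, hd1, hl, hl1, hdl, h1'])
  -- first term
  have t1 : Real.exp (d * X) * (1 - d * lam * k1) ≤
      1 + d * X - d * lam * k1 + d ^ 2 * ((2 + A) ^ 2 * q) := by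
    have e1 : Real.exp (d * X) * (1 - d * lam * k1) ≤
        (1 + d * X + (d * X) ^ 2) * (1 - d * lam * k1) := mul_le_mul_of_nonneg_right hE hf1
    have e2 : (1 + d * X + (d * X) ^ 2) * (1 - d * lam * k1) =
        1 + d * X - d * lam * k1 + (d ^ 2 * X ^ 2 * (1 - d * lam * k1) + d ^ 2 * (lam * (-(X * k1)))) := by
      ring
    have e3 : d ^ 2 * X ^ 2 * (1 - d * lam * k1) ≤ d ^ 2 * X ^ 2 * 2 :=
      mul_le_mul_of_nonneg_left hf2 (by (clear * - hd; positivity))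
    have e4 : lam * (-(X * k1)) ≤ |X| := by
      have e5 : -(X * k1) ≤ |X| := by
        refine (neg_le_abs _).trans ?_
        rw [abs_mul]
        exact mul_le_of_le_one_right (abs_nonneg _) h1
      have e6 : 0 ≤ |X| := abs_nonneg _
      (clear * - hl e5 hl1 e6; nlinarith [abs_nonneg X])
    have e7 : X ^ 2 ≤ |X| * ((2 + A) / 4) := by
      have e8 : |X| ≤ (2 + A) / 4 := by (clear * - hm1 hX1 hA; nlinarith only [hA, hm1, hX1])
      rw [← sq_abs, pow_two]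
      exact mul_le_mul_of_nonneg_left e8 (abs_nonneg _)
    have e9 : X ^ 2 * 2 + |X| ≤ (2 + A) ^ 2 * q := by
      have : X ^ 2 * 2 + |X| ≤ |X| * (2 + A) := by (clear * - e7 hA; nlinarith [abs_nonneg X])
      refine this.trans ?_
      calc |X| * (2 + A) ≤ (2 + A) * q * (2 + A) :=
            mul_le_mul_of_nonneg_right hX1 (by (clear * - hA hm1 hq0; linarith only [hA]))
        _ = _ := by ring
    have hd22 : 0 ≤ d ^ 2 := by positivity
    calc _ ≤ 1 + d * X - d * lam * k1 + (d ^ 2 * X ^ 2 * (1 - d * lam * k1) +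
          d ^ 2 * (lam * (-(X * k1)))) := e1.trans_eq e2
      _ ≤ 1 + d * X - d * lam * k1 + (d ^ 2 * X ^ 2 * 2 + d ^ 2 * |X|) := by
          have := mul_le_mul_of_nonneg_left e4 hd22
          (clear * - e3 this; linarith)
      _ = 1 + d * X - d * lam * k1 + d ^ 2 * (X ^ 2 * 2 + |X|) := by ring
      _ ≤ _ := by
          have := mul_le_mul_of_nonneg_left e9 hd22
          (clear * - this; linarith)
  -- second term
  have t2 : 1 + d * m - d * lam * k0 - d ^ 2 * m ≤ Real.exp (d * m) * (1 - d * lam * k0) := by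
    have e1 : (1 + d * m) * (1 - d * lam * k0) ≤ Real.exp (d * m) * (1 - d * lam * k0) := by
      refine mul_le_mul_of_nonneg_right ?_ hf0
      have := Real.add_one_le_exp (d * m)
      (clear * - this; linarith)
    have e2 : (1 + d * m) * (1 - d * lam * k0) = 1 + d * m - d * lam * k0 -
        d ^ 2 * m * (lam * k0) := by ring
    have e3 : lam * k0 ≤ 1 := by (clear * - hl1 hl h0'; nlinarith only [hl, hl1, h0'])
    have e4 : d ^ 2 * m * (lam * k0) ≤ d ^ 2 * m * 1 := mul_le_mul_of_nonneg_left e3 (by positivity)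
    (clear * - e1 e4; linarith)
  have e1 : d * (2 * m) * (hk w - 1 / 2 + lam / (2 * m) * (k0 - k1) +
      (2 * A * m / ‖w‖ ^ 2 + d * ((2 + A) ^ 2 / 2 * (1 / ‖w‖) + 1 / 2))) =
      d * X - d * m + d * lam * (k0 - k1) + d ^ 2 * ((2 + A) ^ 2 * q) + d ^ 2 * m := by
    rw [hX, hq]
    field_simp
    ring
  rw [e1]
  (clear * - t1 t2; linarith)

/-- the error function -/
noncomputable def e5 (A d m : ℝ) (w : ℂ) : ℝ :=
  A * m ^ (1 / 2 : ℝ) * ‖w - 0‖ ^ (-(3 / 2) : ℝ) +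
    d * ((2 + A) ^ 2 / 2 * ‖w - 0‖ ^ (-1 : ℝ) + 1 / 2)

theorem e5_nonneg {A d m : ℝ} (hA : 1 ≤ A) (hd : 0 < d) (hm : 0 < m) (w : ℂ) : 0 ≤ e5 A d m w := by
  unfold e5
  (clear * - hA hm hd; positivity)

theorem measurable_e5 (A d m : ℝ) : Measurable (e5 A d m) := by
  unfold e5
  fun_prop

theorem int_e5 {A d m : ℝ} : IntegrableOn (e5 A d m) Bt := by
  have h1 := int_Bt (a := 3 / 2) (by norm_num) (by norm_num) 0
  have h3 := int_Bt (a := 1) (by norm_num) (by norm_num) 0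
  exact (h1.const_mul _).add (((h3.const_mul _).add (integrableOn_const vol_Bt)).const_mul _)

theorem le_e5 {A d m : ℝ} (hA : 1 ≤ A) (hd : 0 < d) (hm : 0 < m) {w : ℂ} (hw : 4 * m ≤ ‖w‖) :
    2 * A * m / ‖w‖ ^ 2 + d * ((2 + A) ^ 2 / 2 * (1 / ‖w‖) + 1 / 2) ≤ e5 A d m w := by
  have hw0 : 0 < ‖w‖ := by (clear * - hm hw; linarith)
  unfold e5
  rw [sub_zero, Real.rpow_neg_one, one_div ‖w‖]
  have h1 : 2 * A * m / ‖w‖ ^ 2 ≤ A * m ^ (1 / 2 : ℝ) * ‖w‖ ^ (-(3 / 2) : ℝ) := by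
    have e1 : (2 : ℝ) * m ^ (1 / 2 : ℝ) ≤ ‖w‖ ^ (1 / 2 : ℝ) := by
      calc (2 : ℝ) * m ^ (1 / 2 : ℝ) = (4 * m) ^ (1 / 2 : ℝ) := by
            rw [Real.mul_rpow (by norm_num) hm.le]
            congr 1
            rw [show (4 : ℝ) = 2 ^ (2 : ℝ) by norm_num, ← Real.rpow_mul (by norm_num)]
            norm_num
        _ ≤ _ := Real.rpow_le_rpow (by (clear * - hm; positivity)) hw (by norm_num)
    have e2 : m = m ^ (1 / 2 : ℝ) * m ^ (1 / 2 : ℝ) := by
      rw [← Real.rpow_add hm]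
      norm_num
    have e3 : ‖w‖ ^ (-(3 / 2) : ℝ) * ‖w‖ ^ 2 = ‖w‖ ^ (1 / 2 : ℝ) := by
      rw [← Real.rpow_natCast, ← Real.rpow_add hw0]
      norm_num
    have e4 : 0 < m ^ (1 / 2 : ℝ) := Real.rpow_pos_of_pos hm _
    rw [div_le_iff₀ (by (clear * - hw0; positivity)), mul_assoc (A * m ^ (1 / 2 : ℝ)), e3]
    calc 2 * A * m = A * m ^ (1 / 2 : ℝ) * (2 * m ^ (1 / 2 : ℝ)) := by
          nth_rewrite 1 [e2]
          ring
      _ ≤ _ := mul_le_mul_of_nonneg_left e1 (by (clear * - hA hm; positivity))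
  (clear * - h1; linarith only [h1])

theorem e5_le {A d m : ℝ} (hA : 1 ≤ A) (hd : 0 < d) (hm : 0 < m) :
    ∫ w in Bt, e5 A d m w ≤ 300 * (2 + A) ^ 2 * (d + m ^ (1 / 2 : ℝ)) := by
  have h1 := int_Bt (a := 3 / 2) (by norm_num) (by norm_num) 0
  have h3 := int_Bt (a := 1) (by norm_num) (by norm_num) 0
  have l1 := le_Bt (a := 3 / 2) (by norm_num) (by norm_num) 0
  have l3 := le_Bt (a := 1) (by norm_num) (by norm_num) 0
  have ic : IntegrableOn (fun _ : ℂ => (1 / 2 : ℝ)) Bt := integrableOn_const vol_Bt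
  have i3 : IntegrableOn (fun w : ℂ => (2 + A) ^ 2 / 2 * ‖w - 0‖ ^ (-1 : ℝ) + 1 / 2) Bt :=
    (h3.const_mul _).add ic
  have e1 : ∫ w in Bt, e5 A d m w = A * m ^ (1 / 2 : ℝ) * (∫ w in Bt, ‖w - 0‖ ^ (-(3 / 2) : ℝ)) +
      d * ((2 + A) ^ 2 / 2 * (∫ w in Bt, ‖w - 0‖ ^ (-1 : ℝ)) + ∫ w in Bt, (1 / 2 : ℝ)) := by
    unfold e5
    rw [integral_add (h1.const_mul _) (i3.const_mul _), integral_const_mul, integral_const_mul,
      integral_add (h3.const_mul _) ic, integral_const_mul]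
  have v1 : ∫ w in Bt, (1 / 2 : ℝ) = 50 * π := by
    rw [setIntegral_const, smul_eq_mul, measureReal_def, Bt, Complex.volume_closedBall,
      ENNReal.toReal_mul, ENNReal.toReal_pow, ENNReal.toReal_ofReal (by norm_num)]
    have : (10 : ℝ) ^ 2 * (NNReal.pi : ENNReal).toReal = 100 * π := by
      norm_num
    rw [this]
    ring
  have hπ : π ≤ 3.1416 := Real.pi_lt_d4.le
  have hπ0 := Real.pi_pos
  have r1 : (10 : ℝ) ^ (2 - 3 / 2 : ℝ) ≤ 3.2 := by
    have h7 : ((10 : ℝ) ^ (2 - 3 / 2 : ℝ)) ^ 2 ≤ 3.2 ^ 2 := by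
      rw [← Real.rpow_natCast, ← Real.rpow_mul (by norm_num)]
      norm_num
    exact le_of_sq_le_sq h7 (by norm_num)
  have r3 : (10 : ℝ) ^ (2 - 1 : ℝ) = 10 := by norm_num
  have b1 : 2 * π / (2 - 3 / 2) * (10 : ℝ) ^ (2 - 3 / 2 : ℝ) ≤ 42 := by
    have : 2 * π / (2 - 3 / 2) = 4 * π := by ring
    rw [this]
    (clear * - hπ hπ0 r1; nlinarith only [hπ, hπ0, r1])
  have b3 : 2 * π / (2 - 1) * (10 : ℝ) ^ (2 - 1 : ℝ) ≤ 63 := by
    rw [r3]
    have : 2 * π / (2 - 1) = 2 * π := by ring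
    rw [this]
    (clear * - hπ; linarith only [hπ])
  have hm2 : 0 < m ^ (1 / 2 : ℝ) := Real.rpow_pos_of_pos hm _
  have hA2 : A ≤ (2 + A) ^ 2 := by (clear * - hA; nlinarith only [])
  have hA9 : 9 ≤ (2 + A) ^ 2 := by (clear * - hA; nlinarith)
  rw [e1, v1]
  have c1 : A * m ^ (1 / 2 : ℝ) * (∫ w in Bt, ‖w - 0‖ ^ (-(3 / 2) : ℝ)) ≤
      300 * (2 + A) ^ 2 * m ^ (1 / 2 : ℝ) := by
    calc A * m ^ (1 / 2 : ℝ) * (∫ w in Bt, ‖w - 0‖ ^ (-(3 / 2) : ℝ)) ≤
        A * m ^ (1 / 2 : ℝ) * 42 := mul_le_mul_of_nonneg_left (by (clear * - l1 b1; linarith)) (by (clear * - hA hm; positivity))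
      _ = 42 * A * m ^ (1 / 2 : ℝ) := by ring
      _ ≤ _ := mul_le_mul_of_nonneg_right (by (clear * - hA2 hA9; linarith)) hm2.le
  have c2 : d * ((2 + A) ^ 2 / 2 * (∫ w in Bt, ‖w - 0‖ ^ (-1 : ℝ)) + 50 * π) ≤
      d * (300 * (2 + A) ^ 2) := by
    refine mul_le_mul_of_nonneg_left ?_ hd.le
    have c3 : (2 + A) ^ 2 / 2 * (∫ w in Bt, ‖w - 0‖ ^ (-1 : ℝ)) ≤ (2 + A) ^ 2 / 2 * 63 :=
      mul_le_mul_of_nonneg_left (by (clear * - l3 hπ; linarith only [l3, hπ])) (by (clear * - hA; positivity))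
    (clear * - hπ hA9 c3; linarith)
  (clear * - c1 c2; linarith)

/-- the majorant -/
theorem bound5 {A d m ν Kc : ℝ} (hA : 1 ≤ A) (hd : 0 < d) (hm : 0 < m)
    (hdm : (2 + A) ^ 2 * (d + m) ≤ 1) {b c : ℂ → ℝ} (hbm : Measurable b) (hν : 0 ≤ ν)
    (hν1 : ν ≤ 1 / 8) (hb : ∀ y, |b y| ≤ ν) (hcm : Measurable c) (hc : Integrable c)
    (hc0 : ∀ y, 0 ≤ c y) (hK : ∫ y, c y ≤ Kc) :
    ∃ H : ℂ → ℝ, Measurable H ∧ Integrable H ∧ (∀ y, 0 ≤ H y) ∧ (∀ y, 10 < ‖y‖ → H y = c y) ∧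
      (∀ y : ℂ, 4 * m ≤ ‖y‖ → hk y - 1 / 2 + b y +
        (2 * A * m / ‖y‖ ^ 2 + d * ((2 + A) ^ 2 / 2 * (1 / ‖y‖) + 1 / 2)) + c y ≤ H y) ∧
      ∫ y, H y ≤ π / 2 + (∫ y in Dk, b y) + 10 * π * ν ^ 2 + Kc +
        300 * (2 + A) ^ 2 * (d + m ^ (1 / 2 : ℝ)) := by
  have hbi : IntegrableOn b Bt := by
    refine Integrable.mono' (g := fun _ => ν) (integrableOn_const vol_Bt) hbm.aestronglyMeasurable
      (Filter.Eventually.of_forall fun w => ?_)
    rw [Real.norm_eq_abs]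
    exact hb w
  have i1 : IntegrableOn (fun y => max (hk y + b y - 1 / 2) 0) Bt :=
    ((int_hk_Bt.add hbi).sub (integrableOn_const vol_Bt)).pos_part
  have i2 : IntegrableOn (fun y => max (hk y + b y - 1 / 2) 0 + e5 A d m y) Bt := i1.add int_e5
  have hmeas : Measurable fun y => max (hk y + b y - 1 / 2) 0 + e5 A d m y :=
    (((measurable_hk.add hbm).sub_const _).max measurable_const).add (measurable_e5 A d m)
  refine ⟨fun y => Bt.indicator (fun y => max (hk y + b y - 1 / 2) 0 + e5 A d m y) y + c y,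
    (hmeas.indicator meas_Bt).add hcm, (i2.integrable_indicator meas_Bt).add hc, ?_, ?_, ?_, ?_⟩
  · intro y
    refine add_nonneg (indicator_nonneg (fun y _ => ?_) y) (hc0 y)
    exact add_nonneg (le_max_right _ _) (e5_nonneg hA hd hm y)
  · intro y hy
    have : y ∉ Bt := by
      rw [Bt, mem_closedBall, dist_zero_right, not_le]
      exact hy
    simp only [indicator_of_notMem this, zero_add]
  · intro y hy
    refine add_le_add ?_ le_rfl
    by_cases hB : y ∈ Bt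
    · rw [indicator_of_mem hB]
      have h1 := le_e5 hA hd hm hy
      have h2 := le_max_left (hk y + b y - 1 / 2) 0
      linarith only [h1, h2]
    · rw [indicator_of_notMem hB]
      have hy10 : 10 < ‖y‖ := by
        rw [Bt, mem_closedBall, dist_zero_right, not_le] at hB
        exact hB
      have hy0 : 0 < ‖y‖ := by (clear * - hy10; linarith)
      have h1 : 1 / ‖y‖ ≤ 1 / 10 := by
        refine one_div_le_one_div_of_le (by norm_num) hy10.le
      have h2 : hk y ≤ 1 / 10 := by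
        have := (abs_le.mp (abs_hk_le y)).2
        rw [Real.rpow_neg_one, ← one_div] at this
        (clear * - h1 this; linarith only [h1, this])
      have h3 := (abs_le.mp ((hb y).trans hν1)).2
      have hA9 : 9 ≤ (2 + A) ^ 2 := by (clear * - hA; nlinarith only [hA])
      have hA2 : 2 * A ≤ (2 + A) ^ 2 := by (clear * - hA9 hA; nlinarith)
      have h4 : 2 * A * m / ‖y‖ ^ 2 ≤ 1 / 100 := by
        have h5 : 2 * A * m ≤ 1 := by (clear * - hA hm hdm hd; nlinarith only [hA, hd, hm, hdm])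
        rw [div_le_iff₀ (by (clear * - hy10; positivity))]
        (clear * - hd hm hdm hy10 hA hA9 hy; nlinarith only [hA, hd, hm, hdm, hy10])
      have hd9 : d ≤ 1 / 9 := by (clear * - hdm hm hd hA9; nlinarith)
      have h6 : d * ((2 + A) ^ 2 / 2 * (1 / ‖y‖)) ≤ 1 / 20 := by
        calc d * ((2 + A) ^ 2 / 2 * (1 / ‖y‖)) ≤ d * ((2 + A) ^ 2 / 2 * (1 / 10)) := by
              refine mul_le_mul_of_nonneg_left ?_ hd.le
              exact mul_le_mul_of_nonneg_left h1 (by (clear * - hA; positivity))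
          _ = (2 + A) ^ 2 * d / 20 := by ring
          _ ≤ 1 / 20 := by (clear * - hdm hm; nlinarith only [hm, hdm])
      (clear * - hd h2 h3 h4 hd9 h6; linarith only [h2, h3, h4, hd9, h6])
  · rw [integral_add (i2.integrable_indicator meas_Bt) hc, integral_indicator meas_Bt,
      integral_add i1 int_e5]
    have h1 := e5_le hA hd hm
    have h2 : ∫ y in Bt, max (hk y + b y - 1 / 2) 0 ≤
        π / 2 + (∫ y in Dk, b y) + 10 * π * ν ^ 2 := by
      rcases hν.eq_or_lt with h | h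
      · have hb0 : ∀ y, b y = 0 := fun y => by
          have := hb y
          rw [← h] at this
          exact abs_nonpos_iff.mp this
        have h3 := pos_part (g := fun _ => (0 : ℝ)) measurable_const (fun _ => by simp)
          (ν := 0) (by norm_num)
        simp only [hb0, ← h]
        simpa using h3
      · have h3 := pos_part (g := fun y => b y / ν) (hbm.div_const ν) (fun y => by
          rw [abs_div, abs_of_pos h, div_le_one h]
          exact hb y) (ν := ν) (by rwa [abs_of_pos h])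
        have h4 : ∀ y, ν * (b y / ν) = b y := fun y => by
          (clear * - h; field_simp)
        simp only [h4] at h3
        rw [← integral_const_mul] at h3
        simp only [h4] at h3
        exact h3
    (clear * - hK h1 h2; linarith)

end Pool.Agent.Helper17.G5
end

/- Helper24.K6w.H33.G3.Disc -/
section
/-!
# G3, template: the average of a quartic polynomial over a disk

`kq` has average `-(1 - a - 8 b²)² - (a - 1)² - b²` over the disk with centre `c = a + i b` and radius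
`|c|` (the disk through `0`).
-/

set_option autoImplicit false
open MeasureTheory Set
open scoped Real

namespace Pool.Agent.Helper33.G3


theorem tr_ftc {F f : ℝ → ℝ} (h : ∀ x, HasDerivAt F (f x) x) (hf : Continuous f) {c : ℝ}
    (hc : F π - F (-π) = c) : ∫ x in (-π)..π, f x = c := by
  rw [intervalIntegral.integral_eq_sub_of_hasDerivAt (fun x _ => h x) (hf.intervalIntegrable _ _), hc]

/-- trigonometric polynomials of degree 4 -/
theorem tr_int (a00 a10 a01 a20 a11 a02 a30 a21 a12 a03 a40 a31 a22 a13 a04 : ℝ) :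
    ∫ x in (-π)..π, (a00 + a10 * Real.cos x + a01 * Real.sin x + a20 * Real.cos x ^ 2 +
      a11 * (Real.cos x * Real.sin x) + a02 * Real.sin x ^ 2 + a30 * Real.cos x ^ 3 +
      a21 * (Real.cos x ^ 2 * Real.sin x) + a12 * (Real.cos x * Real.sin x ^ 2) +
      a03 * Real.sin x ^ 3 + a40 * Real.cos x ^ 4 + a31 * (Real.cos x ^ 3 * Real.sin x) +
      a22 * (Real.cos x ^ 2 * Real.sin x ^ 2) + a13 * (Real.cos x * Real.sin x ^ 3) +
      a04 * Real.sin x ^ 4) =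
    2 * π * (a00 + a20 / 2 + a02 / 2 + 3 * a40 / 8 + a22 / 8 + 3 * a04 / 8) := by
  refine tr_ftc (F := fun x => a00 * x + a10 * Real.sin x - a01 * Real.cos x +
    a20 / 2 * (x + Real.sin x * Real.cos x) + a11 / 2 * Real.sin x ^ 2 +
    a02 / 2 * (x - Real.sin x * Real.cos x) + a30 * (Real.sin x - Real.sin x ^ 3 / 3) -
    a21 / 3 * Real.cos x ^ 3 + a12 / 3 * Real.sin x ^ 3 +
    a03 * (Real.cos x ^ 3 / 3 - Real.cos x) +
    a40 * (3 / 8 * x + 3 / 8 * (Real.sin x * Real.cos x) + 1 / 4 * (Real.sin x * Real.cos x ^ 3)) -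
    a31 / 4 * Real.cos x ^ 4 +
    a22 * (x / 8 + 1 / 8 * (Real.sin x * Real.cos x) - 1 / 4 * (Real.sin x * Real.cos x ^ 3)) +
    a13 / 4 * Real.sin x ^ 4 +
    a04 * (3 / 8 * x - 3 / 8 * (Real.sin x * Real.cos x) - 1 / 4 * (Real.sin x ^ 3 * Real.cos x)))
    ?_ (by fun_prop) ?_
  · intro x
    have hs := Real.hasDerivAt_sin x
    have hc := Real.hasDerivAt_cos x
    have hi := hasDerivAt_id' x
    have hsc := hs.mul hc
    have e := (((((((((((((((hi.const_mul a00).add (hs.const_mul a10)).sub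
      (hc.const_mul a01)).add
      ((hi.add hsc).const_mul (a20 / 2))).add ((hs.pow 2).const_mul (a11 / 2))).add
      ((hi.sub hsc).const_mul (a02 / 2))).add ((hs.sub ((hs.pow 3).div_const 3)).const_mul a30)).sub
      ((hc.pow 3).const_mul (a21 / 3))).add ((hs.pow 3).const_mul (a12 / 3))).add
      ((((hc.pow 3).div_const 3).sub hc).const_mul a03)).add
      ((((hi.const_mul (3 / 8)).add (hsc.const_mul (3 / 8))).add
        ((hs.mul (hc.pow 3)).const_mul (1 / 4))).const_mul a40)).sub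
      ((hc.pow 4).const_mul (a31 / 4))).add
      ((((hi.div_const 8).add (hsc.const_mul (1 / 8))).sub
        ((hs.mul (hc.pow 3)).const_mul (1 / 4))).const_mul a22)).add
      ((hs.pow 4).const_mul (a13 / 4))).add
      ((((hi.const_mul (3 / 8)).sub (hsc.const_mul (3 / 8))).sub
        (((hs.pow 3).mul hc).const_mul (1 / 4))).const_mul a04))
    refine HasDerivAt.congr_deriv e ?_
    have h1 := Real.sin_sq_add_cos_sq x
    obtain ⟨s, hs'⟩ : ∃ s, s = Real.sin x := ⟨_, rfl⟩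
    obtain ⟨c, hc'⟩ : ∃ c, c = Real.cos x := ⟨_, rfl⟩
    rw [← hs', ← hc'] at h1
    simp only [Pi.pow_apply, ← hs', ← hc', Nat.cast_ofNat]
    have h2 : s ^ 2 = 1 - c ^ 2 := by linarith only [h1]
    have h3 : s ^ 3 = s * (1 - c ^ 2) := by rw [← h2]; ring
    have h4 : s ^ 4 = (1 - c ^ 2) ^ 2 := by rw [← h2]; ring
    ring_nf
    simp only [h2, h3, h4]
    ring
  · simp only [Real.sin_neg, Real.cos_neg, Real.sin_pi, Real.cos_pi]
    ring


/-- polar coordinates on a disk centred at 0, for continuous functions -/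
theorem disc_polar {f : ℂ → ℝ} (hf : Continuous f) {r : ℝ} (hr : 0 < r) :
    ∫ z in Metric.ball (0:ℂ) r, f z =
      ∫ ρ in (0:ℝ)..r, ∫ θ in (-π)..π,
        ρ * f (⟨ρ * Real.cos θ, ρ * Real.sin θ⟩ : ℂ) := by
  have hsymm : ∀ p : ℝ × ℝ, Complex.polarCoord.symm p =
      (⟨p.1 * Real.cos p.2, p.1 * Real.sin p.2⟩ : ℂ) := by
    intro p
    rw [Complex.polarCoord_symm_apply]
    apply Complex.ext
    · simp only [Complex.mul_re, Complex.add_re, Complex.ofReal_re, Complex.ofReal_im,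
        Complex.mul_im, Complex.add_im, Complex.I_re, Complex.I_im]
      ring
    · simp only [Complex.mul_re, Complex.add_re, Complex.ofReal_re, Complex.ofReal_im,
        Complex.mul_im, Complex.add_im, Complex.I_re, Complex.I_im]
      ring
  have hnorm : ∀ p : ℝ × ℝ, 0 < p.1 →
      ‖(⟨p.1 * Real.cos p.2, p.1 * Real.sin p.2⟩ : ℂ)‖ = p.1 := by
    intro p hp
    have h1 : ‖(⟨p.1 * Real.cos p.2, p.1 * Real.sin p.2⟩ : ℂ)‖ ^ 2 = p.1 ^ 2 := by
      rw [← Complex.normSq_eq_norm_sq, Complex.normSq_apply]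
      have := Real.sin_sq_add_cos_sq p.2
      have e : p.1 * Real.cos p.2 * (p.1 * Real.cos p.2) + p.1 * Real.sin p.2 *
          (p.1 * Real.sin p.2) = p.1 ^ 2 * (Real.sin p.2 ^ 2 + Real.cos p.2 ^ 2) := by ring
      rw [e, this, mul_one]
    exact (sq_eq_sq₀ (norm_nonneg _) hp.le).1 h1
  have hg : Continuous fun p : ℝ × ℝ =>
      p.1 * f (⟨p.1 * Real.cos p.2, p.1 * Real.sin p.2⟩ : ℂ) := by
    have h1 : Continuous fun p : ℝ × ℝ =>
        (⟨p.1 * Real.cos p.2, p.1 * Real.sin p.2⟩ : ℂ) := by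
      have : (fun p : ℝ × ℝ => (⟨p.1 * Real.cos p.2, p.1 * Real.sin p.2⟩ : ℂ)) =
          fun p : ℝ × ℝ => Complex.equivRealProdCLM.symm
            (p.1 * Real.cos p.2, p.1 * Real.sin p.2) := by
        funext p
        apply Complex.ext <;> simp
      rw [this]
      fun_prop
    exact continuous_fst.mul (hf.comp h1)
  rw [← integral_indicator Metric.isOpen_ball.measurableSet,
    ← Complex.integral_comp_polarCoord_symm]
  have e1 : ∫ p in polarCoord.target, p.1 •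
      (Metric.ball (0:ℂ) r).indicator f (Complex.polarCoord.symm p) =
      ∫ p in Ioo (0:ℝ) r ×ˢ Ioo (-π) π, p.1 * f (⟨p.1 * Real.cos p.2, p.1 * Real.sin p.2⟩ : ℂ) := by
    have ht : polarCoord.target = Ioi (0:ℝ) ×ˢ Ioo (-π) π := rfl
    rw [ht]
    have hsub : Ioo (0:ℝ) r ×ˢ Ioo (-π) π ⊆ Ioi (0:ℝ) ×ˢ Ioo (-π) π :=
      prod_mono Ioo_subset_Ioi_self subset_rfl
    rw [setIntegral_eq_of_subset_of_forall_sdiff_eq_zero
      (measurableSet_Ioi.prod measurableSet_Ioo) hsub]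
    · refine setIntegral_congr_fun (measurableSet_Ioo.prod measurableSet_Ioo) ?_
      rintro p ⟨hp1, hp2⟩
      simp only [smul_eq_mul]
      rw [hsymm, indicator_of_mem]
      rw [mem_ball_zero_iff, hnorm p hp1.1]
      exact hp1.2
    · rintro p ⟨⟨hp1, hp2⟩, hp3⟩
      rw [hsymm, indicator_of_notMem, smul_zero]
      intro h
      rw [mem_ball_zero_iff, hnorm p hp1] at h
      exact hp3 ⟨⟨hp1, h⟩, hp2⟩
  rw [e1, Measure.volume_eq_prod, setIntegral_prod]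
  · rw [intervalIntegral.integral_of_le hr.le, integral_Ioc_eq_integral_Ioo]
    refine setIntegral_congr_fun measurableSet_Ioo fun ρ _ => ?_
    simp only
    rw [intervalIntegral.integral_of_le (by linarith only [Real.pi_pos]), integral_Ioc_eq_integral_Ioo]
  · refine (hg.continuousOn.integrableOn_compact
      (isCompact_Icc.prod isCompact_Icc : IsCompact (Icc (0:ℝ) r ×ˢ Icc (-π) π))).mono_set ?_
    exact prod_mono Ioo_subset_Icc_self Ioo_subset_Icc_self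

/-- the quartic polynomial -/
noncomputable def kq (X Y : ℝ) : ℝ :=
  -2 + 4 * X - 25 / 6 * X ^ 2 + 77 / 6 * Y ^ 2 + 2 * X ^ 3 - 14 * (X * Y ^ 2) - 12 / 5 * X ^ 4 +
    168 / 5 * (X ^ 2 * Y ^ 2) - 28 * Y ^ 4

/-- its average over the disk with centre `(a, b)` and radius `√R` -/
noncomputable def gq (a b R : ℝ) : ℝ :=
  -2 + 4 * a - 25 / 6 * (a ^ 2 + R / 4) + 77 / 6 * (b ^ 2 + R / 4) + 2 * (a ^ 3 + 3 * a * R / 4) -
    14 * (a * b ^ 2 + a * R / 4) - 12 / 5 * (a ^ 4 + 3 / 2 * a ^ 2 * R + R ^ 2 / 8) +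
    168 / 5 * (a ^ 2 * b ^ 2 + (a ^ 2 + b ^ 2) * R / 4 + R ^ 2 / 24) -
    28 * (b ^ 4 + 3 / 2 * b ^ 2 * R + R ^ 2 / 8)

theorem gq_eq (a b : ℝ) :
    gq a b (a ^ 2 + b ^ 2) = -(1 - a - 8 * b ^ 2) ^ 2 - ((a - 1) ^ 2 + b ^ 2) := by
  unfold gq
  ring

theorem kq_cont (a b : ℝ) : Continuous fun z : ℂ => kq (a + z.re) (b + z.im) := by
  unfold kq
  fun_prop

theorem disc_kq0 (a b : ℝ) {r : ℝ} (hr : 0 < r) :
    ∫ z in Metric.ball (0:ℂ) r, kq (a + z.re) (b + z.im) = π * r ^ 2 * gq a b (r ^ 2) := by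
  rw [disc_polar (kq_cont a b) hr]
  have h1 : ∀ ρ : ℝ, ∫ θ in (-π)..π, ρ * kq (a + ρ * Real.cos θ) (b + ρ * Real.sin θ) =
      2 * π * ρ * (-2 + 4 * a - 25 / 6 * (a ^ 2 + ρ ^ 2 / 2) + 77 / 6 * (b ^ 2 + ρ ^ 2 / 2) +
        2 * (a ^ 3 + 3 * a * ρ ^ 2 / 2) - 14 * (a * b ^ 2 + a * ρ ^ 2 / 2) -
        12 / 5 * (a ^ 4 + 3 * a ^ 2 * ρ ^ 2 + 3 * ρ ^ 4 / 8) +
        168 / 5 * (a ^ 2 * b ^ 2 + (a ^ 2 + b ^ 2) * ρ ^ 2 / 2 + ρ ^ 4 / 8) -
        28 * (b ^ 4 + 3 * b ^ 2 * ρ ^ 2 + 3 * ρ ^ 4 / 8)) := by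
    intro ρ
    have h2 := tr_int
      (ρ * kq a b)
      (ρ ^ 2 * (4 - 25 / 3 * a + 6 * a ^ 2 - 14 * b ^ 2 - 48 / 5 * a ^ 3 + 336 / 5 * a * b ^ 2))
      (ρ ^ 2 * (77 / 3 * b - 28 * a * b + 336 / 5 * a ^ 2 * b - 112 * b ^ 3))
      (ρ ^ 3 * (-25 / 6 + 6 * a - 72 / 5 * a ^ 2 + 168 / 5 * b ^ 2))
      (ρ ^ 3 * (-28 * b + 672 / 5 * a * b))
      (ρ ^ 3 * (77 / 6 - 14 * a + 168 / 5 * a ^ 2 - 168 * b ^ 2))
      (ρ ^ 4 * (2 - 48 / 5 * a))
      (ρ ^ 4 * (336 / 5 * b))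
      (ρ ^ 4 * (-14 + 336 / 5 * a))
      (ρ ^ 4 * (-112 * b))
      (ρ ^ 5 * (-12 / 5)) 0 (ρ ^ 5 * (168 / 5)) 0 (ρ ^ 5 * (-28))
    have h3 : ∀ x : ℝ, ρ * kq (a + ρ * Real.cos x) (b + ρ * Real.sin x) =
        (ρ * kq a b) +
      (ρ ^ 2 * (4 - 25 / 3 * a + 6 * a ^ 2 - 14 * b ^ 2 - 48 / 5 * a ^ 3 + 336 / 5 * a * b ^ 2)) *
        Real.cos x +
      (ρ ^ 2 * (77 / 3 * b - 28 * a * b + 336 / 5 * a ^ 2 * b - 112 * b ^ 3)) * Real.sin x +
      (ρ ^ 3 * (-25 / 6 + 6 * a - 72 / 5 * a ^ 2 + 168 / 5 * b ^ 2)) * Real.cos x ^ 2 +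
      (ρ ^ 3 * (-28 * b + 672 / 5 * a * b)) * (Real.cos x * Real.sin x) +
      (ρ ^ 3 * (77 / 6 - 14 * a + 168 / 5 * a ^ 2 - 168 * b ^ 2)) * Real.sin x ^ 2 +
      (ρ ^ 4 * (2 - 48 / 5 * a)) * Real.cos x ^ 3 +
      (ρ ^ 4 * (336 / 5 * b)) * (Real.cos x ^ 2 * Real.sin x) +
      (ρ ^ 4 * (-14 + 336 / 5 * a)) * (Real.cos x * Real.sin x ^ 2) +
      (ρ ^ 4 * (-112 * b)) * Real.sin x ^ 3 +
      (ρ ^ 5 * (-12 / 5)) * Real.cos x ^ 4 + 0 * (Real.cos x ^ 3 * Real.sin x) +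
      (ρ ^ 5 * (168 / 5)) * (Real.cos x ^ 2 * Real.sin x ^ 2) +
      0 * (Real.cos x * Real.sin x ^ 3) + (ρ ^ 5 * (-28)) * Real.sin x ^ 4 := by
      intro x
      unfold kq
      ring
    simp only [h3, h2]
    unfold kq
    ring
  have h4 : ∀ ρ : ℝ, ∫ θ in (-π)..π, ρ * kq (a + (⟨ρ * Real.cos θ, ρ * Real.sin θ⟩ : ℂ).re)
      (b + (⟨ρ * Real.cos θ, ρ * Real.sin θ⟩ : ℂ).im) = _ := fun ρ => h1 ρ
  simp only [h4]
  have h5 : ∀ ρ ∈ uIcc (0:ℝ) r, HasDerivAt (fun ρ : ℝ => 2 * π * (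
      ρ ^ 2 / 2 * (-2 + 4 * a - 25 / 6 * a ^ 2 + 77 / 6 * b ^ 2 + 2 * a ^ 3 - 14 * (a * b ^ 2) -
        12 / 5 * a ^ 4 + 168 / 5 * (a ^ 2 * b ^ 2) - 28 * b ^ 4) +
      ρ ^ 4 / 8 * (-25 / 6 + 77 / 6 + 6 * a - 14 * a - 72 / 5 * a ^ 2 +
        168 / 5 * (a ^ 2 + b ^ 2) - 168 * b ^ 2) +
      ρ ^ 6 / 48 * (-36 / 5 + 168 / 5 - 84)))
      (2 * π * ρ * (-2 + 4 * a - 25 / 6 * (a ^ 2 + ρ ^ 2 / 2) + 77 / 6 * (b ^ 2 + ρ ^ 2 / 2) +
        2 * (a ^ 3 + 3 * a * ρ ^ 2 / 2) - 14 * (a * b ^ 2 + a * ρ ^ 2 / 2) -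
        12 / 5 * (a ^ 4 + 3 * a ^ 2 * ρ ^ 2 + 3 * ρ ^ 4 / 8) +
        168 / 5 * (a ^ 2 * b ^ 2 + (a ^ 2 + b ^ 2) * ρ ^ 2 / 2 + ρ ^ 4 / 8) -
        28 * (b ^ 4 + 3 * b ^ 2 * ρ ^ 2 + 3 * ρ ^ 4 / 8))) ρ := by
    intro ρ _
    have e := (((((hasDerivAt_pow 2 ρ).div_const 2).mul_const (-2 + 4 * a - 25 / 6 * a ^ 2 +
        77 / 6 * b ^ 2 + 2 * a ^ 3 - 14 * (a * b ^ 2) -
        12 / 5 * a ^ 4 + 168 / 5 * (a ^ 2 * b ^ 2) - 28 * b ^ 4)).add
        (((hasDerivAt_pow 4 ρ).div_const 8).mul_const (-25 / 6 + 77 / 6 + 6 * a - 14 * a -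
        72 / 5 * a ^ 2 + 168 / 5 * (a ^ 2 + b ^ 2) - 168 * b ^ 2))).add
        (((hasDerivAt_pow 6 ρ).div_const 48).mul_const (-36 / 5 + 168 / 5 - 84))).const_mul (2 * π)
    refine HasDerivAt.congr_deriv e ?_
    push_cast
    ring
  rw [intervalIntegral.integral_eq_sub_of_hasDerivAt h5
    ((by fun_prop : Continuous _).intervalIntegrable _ _)]
  unfold gq
  ring

theorem disc_kq (c : ℂ) {r : ℝ} (hr : 0 < r) :
    ∫ z in Metric.ball c r, kq z.re z.im = π * r ^ 2 * gq c.re c.im (r ^ 2) := by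
  rw [← disc_kq0 c.re c.im hr]
  have h := (measurePreserving_add_left (volume : Measure ℂ) c).setIntegral_preimage_emb
    (MeasurableEquiv.addLeft c).measurableEmbedding (fun z : ℂ => kq z.re z.im)
    (Metric.ball c r)
  rw [← h]
  have e : (fun x => c + x) ⁻¹' Metric.ball c r = Metric.ball (0:ℂ) r := by
    ext x
    simp
  rw [e]
  rfl

end Pool.Agent.Helper33.G3
end

/- Helper17.G3.Tm -/
section
/-!
# G3: templates

`Dk = ball 1 1`. `F1`: the template at the right scale and direction has the larger integral over the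
disk; `F2`: for nearly the right scale and direction, moving the point inwards raises the integral.
-/

set_option autoImplicit false

namespace Pool.Agent.Helper17.G3

open MeasureTheory

/-- a template -/
structure Tm (k : ℂ → ℝ) (Lk ρ kinf c1 c2 e2 m1 : ℝ) : Prop where
  meas : Measurable k
  bd : ∀ z, |k z| ≤ 1
  lip : ∀ z z', |k z - k z'| ≤ Lk * ‖z - z'‖
  far : ∀ z, ρ ≤ ‖z‖ → k z = kinf
  hL : 0 < Lk
  hρ : 0 < ρ
  hc1 : 0 < c1
  hc2 : 0 < c2
  he2 : 0 < e2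
  he2' : e2 ≤ 1 / 2
  hm1 : 0 < m1
  F1 : ∀ ζ : ℂ, ζ ≠ 0 → e2 ≤ ‖1 / ζ - 1‖ →
    ∫ z in Metric.ball (1 : ℂ) 1, (k (z / ζ) - k z) ≤ -c1
  F2 : ∀ ζ : ℂ, ζ ≠ 0 → ‖1 / ζ - 1‖ ≤ e2 → ∀ m : ℝ, 0 < m → m ≤ m1 →
    c2 * m ≤ ∫ z in Metric.ball (1 : ℂ) 1, (k ((z - ((2 * m : ℝ) : ℂ)) / ζ) - k (z / ζ))

end Pool.Agent.Helper17.G3
end

/- Helper24.K6w.H33.G3.Templ -/
section
/-!
# G3, template: existence

`kT = χ(|z|) (kq + B) - B`, `χ = 1` on `|z| ≤ 4` and `0` on `|z| ≥ 5`, `B = 2 · 10^7`, divided by a bound.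
-/

set_option autoImplicit false
open MeasureTheory Set
open scoped Real

namespace Pool.Agent.Helper33.G3

/-! ### bounded Lipschitz functions -/

/-- bounded and Lipschitz -/
def BL (f : ℂ → ℝ) : Prop :=
  ∃ M L : ℝ, 0 ≤ M ∧ 0 ≤ L ∧ (∀ z, |f z| ≤ M) ∧ ∀ z w, |f z - f w| ≤ L * ‖z - w‖

theorem BL.const (a : ℝ) : BL fun _ => a :=
  ⟨|a|, 0, abs_nonneg a, le_rfl, fun _ => le_rfl, fun z w => by simp⟩

theorem BL.add {f g : ℂ → ℝ} (hf : BL f) (hg : BL g) : BL fun z => f z + g z := by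
  obtain ⟨M, L, h1, h2, h3, h4⟩ := hf
  obtain ⟨M', L', k1, k2, k3, k4⟩ := hg
  refine ⟨M + M', L + L', by (clear * - h1 k1; linarith), by (clear * - h2 k2; linarith only [h2, k2]),
    fun z => (abs_add_le _ _).trans (add_le_add (h3 z) (k3 z)), fun z w => ?_⟩
  have e : f z + g z - (f w + g w) = (f z - f w) + (g z - g w) := by ring
  rw [e, add_mul]
  exact (abs_add_le _ _).trans (add_le_add (h4 z w) (k4 z w))

theorem BL.mul {f g : ℂ → ℝ} (hf : BL f) (hg : BL g) : BL fun z => f z * g z := by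
  obtain ⟨M, L, h1, h2, h3, h4⟩ := hf
  obtain ⟨M', L', k1, k2, k3, k4⟩ := hg
  refine ⟨M * M', M * L' + M' * L, by (clear * - h1 k1; positivity), by (clear * - h1 k2 k1 h2; positivity), fun z => ?_, fun z w => ?_⟩
  · rw [abs_mul]
    exact mul_le_mul (h3 z) (k3 z) (abs_nonneg _) h1
  · have e : f z * g z - f w * g w = f z * (g z - g w) + g w * (f z - f w) := by ring
    rw [e, add_mul]
    refine (abs_add_le _ _).trans (add_le_add ?_ ?_)
    · rw [abs_mul, mul_assoc]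
      exact mul_le_mul (h3 z) (k4 z w) (abs_nonneg _) h1
    · rw [abs_mul, mul_assoc]
      exact mul_le_mul (k3 w) (h4 z w) (abs_nonneg _) k1

theorem BL.cont {f : ℂ → ℝ} (hf : BL f) : Continuous f := by
  obtain ⟨M, L, h1, h2, h3, h4⟩ := hf
  refine (LipschitzWith.of_dist_le_mul (K := ⟨L, h2⟩) fun z w => ?_).continuous
  rw [Real.dist_eq, dist_eq_norm]
  exact h4 z w

/-- clamp -/
noncomputable def cl (x : ℝ) : ℝ := max (-5) (min 5 x)

theorem cl_abs (x : ℝ) : |cl x| ≤ 5 := by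
  unfold cl
  rw [abs_le]
  exact ⟨le_max_left _ _, max_le (by norm_num) (min_le_left _ _)⟩

theorem cl_lip (x y : ℝ) : |cl x - cl y| ≤ |x - y| := by
  unfold cl
  refine (abs_max_sub_max_le_max (-5) (min 5 x) (-5) (min 5 y)).trans ?_
  rw [sub_self, abs_zero, max_eq_right (abs_nonneg _)]
  refine (abs_min_sub_min_le_max 5 x 5 y).trans ?_
  rw [sub_self, abs_zero, max_eq_right (abs_nonneg _)]

theorem cl_eq {x : ℝ} (h : |x| ≤ 5) : cl x = x := by
  rw [abs_le] at h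
  unfold cl
  rw [min_eq_right h.2, max_eq_right h.1]

theorem BL_re : BL fun z => cl z.re :=
  ⟨5, 1, by norm_num, by norm_num, fun z => cl_abs _, fun z w => by
    rw [one_mul]
    refine (cl_lip _ _).trans ?_
    rw [← Complex.sub_re]
    exact Complex.abs_re_le_norm _⟩

theorem BL_im : BL fun z => cl z.im :=
  ⟨5, 1, by norm_num, by norm_num, fun z => cl_abs _, fun z w => by
    rw [one_mul]
    refine (cl_lip _ _).trans ?_
    rw [← Complex.sub_im]
    exact Complex.abs_im_le_norm _⟩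

/-- the cut-off -/
noncomputable def ct (z : ℂ) : ℝ := max 0 (min 1 (5 - ‖z‖))

theorem ct_nonneg (z : ℂ) : 0 ≤ ct z := le_max_left _ _

theorem ct_le (z : ℂ) : ct z ≤ 1 := max_le zero_le_one (min_le_left _ _)

theorem ct_one {z : ℂ} (h : ‖z‖ ≤ 4) : ct z = 1 := by
  unfold ct
  rw [min_eq_left (by linarith only [h]), max_eq_right zero_le_one]

theorem ct_zero {z : ℂ} (h : 5 ≤ ‖z‖) : ct z = 0 := by
  unfold ct
  rw [max_eq_left]
  exact (min_le_right _ _).trans (by linarith only [h])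

theorem BL_ct : BL ct := by
  refine ⟨1, 1, zero_le_one, zero_le_one, fun z => ?_, fun z w => ?_⟩
  · rw [abs_of_nonneg (ct_nonneg z)]
    exact ct_le z
  · unfold ct
    rw [one_mul]
    refine (abs_max_sub_max_le_max 0 (min 1 (5 - ‖z‖)) 0 (min 1 (5 - ‖w‖))).trans ?_
    rw [sub_self, abs_zero, max_eq_right (abs_nonneg _)]
    refine (abs_min_sub_min_le_max 1 (5 - ‖z‖) 1 (5 - ‖w‖)).trans ?_
    rw [sub_self, abs_zero, max_eq_right (abs_nonneg _)]
    have e : 5 - ‖z‖ - (5 - ‖w‖) = ‖w‖ - ‖z‖ := by ring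
    rw [e]
    refine (abs_norm_sub_norm_le w z).trans ?_
    rw [norm_sub_rev]

/-- the constant far out -/
def Bc : ℝ := 20000000

/-- the template before normalisation -/
noncomputable def kT (z : ℂ) : ℝ := ct z * (kq (cl z.re) (cl z.im) + Bc) + -Bc

theorem BL_kT : BL kT := by
  have x := BL_re
  have y := BL_im
  have x2 := x.mul x
  have y2 := y.mul y
  have h : BL fun z => kq (cl z.re) (cl z.im) := by
    have e := (((((((((BL.const (-2)).add ((BL.const 4).mul x)).add ((BL.const (-25 / 6)).mul x2)).add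
      ((BL.const (77 / 6)).mul y2)).add ((BL.const 2).mul (x2.mul x))).add
      ((BL.const (-14)).mul (x.mul y2))).add ((BL.const (-12 / 5)).mul (x2.mul x2))).add
      ((BL.const (168 / 5)).mul (x2.mul y2))).add ((BL.const (-28)).mul (y2.mul y2)))
    refine (congrArg BL ?_).mp e
    funext z
    unfold kq
    ring
  exact (BL_ct.mul (h.add (BL.const Bc))).add (BL.const (-Bc))

/-! ### bounds -/

theorem kq_abs {X Y T : ℝ} (hT : 0 ≤ T) (hX : |X| ≤ T) (hY : |Y| ≤ T) :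
    |kq X Y| ≤ 2 + 4 * T + 17 * T ^ 2 + 16 * T ^ 3 + 64 * T ^ 4 := by
  have x2 : X ^ 2 ≤ T ^ 2 := by rw [← sq_abs]; exact pow_le_pow_left₀ (abs_nonneg _) hX 2
  have y2 : Y ^ 2 ≤ T ^ 2 := by rw [← sq_abs]; exact pow_le_pow_left₀ (abs_nonneg _) hY 2
  have x0 := sq_nonneg X
  have y0 := sq_nonneg Y
  have t0 := sq_nonneg T
  obtain ⟨x1, x1'⟩ := abs_le.1 hX
  have a1 : |X ^ 3| ≤ T ^ 3 := by rw [abs_pow]; exact pow_le_pow_left₀ (abs_nonneg _) hX 3
  have a2 : |X * Y ^ 2| ≤ T ^ 3 := by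
    rw [abs_mul, abs_of_nonneg y0]
    calc |X| * Y ^ 2 ≤ T * T ^ 2 := mul_le_mul hX y2 y0 hT
      _ = T ^ 3 := by ring
  have a3 : X ^ 4 ≤ T ^ 4 := by
    calc X ^ 4 = X ^ 2 * X ^ 2 := by ring
      _ ≤ T ^ 2 * T ^ 2 := mul_le_mul x2 x2 x0 t0
      _ = T ^ 4 := by ring
  have a4 : Y ^ 4 ≤ T ^ 4 := by
    calc Y ^ 4 = Y ^ 2 * Y ^ 2 := by ring
      _ ≤ T ^ 2 * T ^ 2 := mul_le_mul y2 y2 y0 t0
      _ = T ^ 4 := by ring
  have a5 : X ^ 2 * Y ^ 2 ≤ T ^ 4 := by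
    calc X ^ 2 * Y ^ 2 ≤ T ^ 2 * T ^ 2 := mul_le_mul x2 y2 y0 t0
      _ = T ^ 4 := by ring
  have a6 : 0 ≤ X ^ 4 := by (clear * -; positivity)
  have a7 : 0 ≤ Y ^ 4 := by (clear * -; positivity)
  have a8 : 0 ≤ X ^ 2 * Y ^ 2 := by (clear * -; positivity)
  obtain ⟨b1, b2⟩ := abs_le.1 a1
  obtain ⟨b3, b4⟩ := abs_le.1 a2
  unfold kq
  rw [abs_le]
  constructor <;> linarith only [x2, y0, t0, x1, a3, a4, a7, a8, b1, b4, y2, x0, x1', a5, a6, b2, b3]

theorem kT_eq {z : ℂ} (h : ‖z‖ ≤ 4) : kT z = kq z.re z.im := by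
  unfold kT
  rw [ct_one h, cl_eq ((Complex.abs_re_le_norm z).trans (by (clear * - h; linarith))),
    cl_eq ((Complex.abs_im_le_norm z).trans (by (clear * - h; linarith only [h])))]
  ring

theorem kT_le {z : ℂ} (h : ‖z‖ ≤ 20) : kT z ≤ kq z.re z.im := by
  have h1 := kq_abs (T := 20) (by norm_num) ((Complex.abs_re_le_norm z).trans h)
    ((Complex.abs_im_le_norm z).trans h)
  have h2 : -Bc ≤ kq z.re z.im := by
    have := (abs_le.1 h1).1
    unfold Bc
    norm_num at this ⊢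
    linarith only [this]
  rcases le_or_gt ‖z‖ 5 with h5 | h5
  · unfold kT
    rw [cl_eq ((Complex.abs_re_le_norm z).trans h5), cl_eq ((Complex.abs_im_le_norm z).trans h5)]
    have h3 : ct z * (kq z.re z.im + Bc) ≤ 1 * (kq z.re z.im + Bc) :=
      mul_le_mul_of_nonneg_right (ct_le z) (by (clear * - h2; linarith only [h2]))
    linarith only [h3]
  · unfold kT
    rw [ct_zero h5.le]
    linarith only [h2]

theorem kT_far {z : ℂ} (h : 5 ≤ ‖z‖) : kT z = -Bc := by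
  unfold kT
  rw [ct_zero h]
  ring

theorem kT_ind (z : ℂ) :
    kT z ≤ (Metric.ball (0:ℂ) 5).indicator (fun _ => 50000 + Bc) z - Bc := by
  rcases lt_or_ge ‖z‖ 5 with h | h
  · rw [indicator_of_mem (by rwa [mem_ball_zero_iff])]
    have h1 := kq_abs (T := 5) (by norm_num) (cl_abs z.re) (cl_abs z.im)
    norm_num at h1
    obtain ⟨h2, h3⟩ := abs_le.1 h1
    unfold kT
    have h4 : ct z * (kq (cl z.re) (cl z.im) + Bc) ≤ 1 * (50000 + Bc) := by
      refine mul_le_mul (ct_le z) (by linarith) ?_ zero_le_one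
      unfold Bc
      (clear * - h2; linarith only [h2])
    linarith
  · rw [kT_far h, indicator_of_notMem (by rw [mem_ball_zero_iff]; (clear * - h; linarith only [h]))]
    (clear * -; linarith only [])

/-! ### change of variables -/

theorem det_smul_one (c : ℂ) : |(c • (1 : ℂ →L[ℝ] ℂ)).det| = ‖c‖ ^ 2 := by
  have h : (c • (1 : ℂ →L[ℝ] ℂ)).det = ‖c‖ ^ 2 := by
    have h1 : (((c • (1 : ℂ →L[ℝ] ℂ)) : ℂ →L[ℝ] ℂ) : ℂ →ₗ[ℝ] ℂ) =
        ((c • (LinearMap.id : ℂ →ₗ[ℂ] ℂ)).restrictScalars ℝ) := by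
      ext
      all_goals simp
    rw [ContinuousLinearMap.det, h1, LinearMap.det_restrictScalars]
    simp [Algebra.norm_complex_eq, Complex.normSq_eq_norm_sq]
  rw [h, abs_of_nonneg (by (clear * -; positivity))]

theorem ball_scale {c : ℂ} (hc : c ≠ 0) (d x : ℂ) (g : ℂ → ℝ) :
    ∫ z in Metric.ball x 1, g ((z - d) * c) =
      (‖c‖ ^ 2)⁻¹ * ∫ w in Metric.ball ((x - d) * c) ‖c‖, g w := by
  have hn : 0 < ‖c‖ := norm_pos_iff.2 hc
  have h1 : ∀ z ∈ Metric.ball x 1, HasFDerivWithinAt (fun z => (z - d) * c)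
      (c • (1 : ℂ →L[ℝ] ℂ)) (Metric.ball x 1) z := by
    intro z _
    have h2 : HasDerivAt (fun z => (z - d) * c) c z := by
      have := ((hasDerivAt_id z).sub_const d).mul_const c
      rwa [one_mul] at this
    exact h2.complexToReal_fderiv.hasFDerivWithinAt
  have h3 : InjOn (fun z => (z - d) * c) (Metric.ball x 1) := by
    intro z _ w _ h
    have := mul_right_cancel₀ hc h
    exact sub_left_inj.1 this
  have h4 := integral_image_eq_integral_abs_det_fderiv_smul volume measurableSet_ball h1 h3 g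
  have h5 : (fun z => (z - d) * c) '' Metric.ball x 1 = Metric.ball ((x - d) * c) ‖c‖ := by
    ext w
    constructor
    · rintro ⟨z, hz, rfl⟩
      rw [Metric.mem_ball, dist_eq_norm] at hz ⊢
      have e : (z - d) * c - (x - d) * c = (z - x) * c := by ring
      simp only
      rw [e, norm_mul]
      exact mul_lt_of_lt_one_left hn hz
    · intro hw
      refine ⟨w / c + d, ?_, ?_⟩
      · rw [Metric.mem_ball, dist_eq_norm] at hw ⊢
        have e : w / c + d - x = (w - (x - d) * c) / c := by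
          field_simp
          ring
        rw [e, norm_div, div_lt_one hn]
        exact hw
      · simp only
        field_simp
        ring
  rw [h5] at h4
  rw [h4]
  simp only [det_smul_one, smul_eq_mul]
  rw [integral_const_mul, ← mul_assoc, inv_mul_cancel₀ (by positivity), one_mul]

theorem intOn {f : ℂ → ℝ} (hf : Continuous f) (c : ℂ) (r : ℝ) :
    IntegrableOn f (Metric.ball c r) :=
  (hf.continuousOn.integrableOn_compact (isCompact_closedBall c r)).mono_set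
    Metric.ball_subset_closedBall

theorem kq_contz : Continuous fun z : ℂ => kq z.re z.im := by
  unfold kq
  fun_prop

/-- small disks: the exact value -/
theorem int_kT_eq {c : ℂ} {r : ℝ} (hr : 0 < r) (h : ‖c‖ + r ≤ 4) :
    ∫ z in Metric.ball c r, kT z = π * r ^ 2 * gq c.re c.im (r ^ 2) := by
  rw [← disc_kq c hr]
  refine setIntegral_congr_fun measurableSet_ball fun z hz => kT_eq ?_
  rw [Metric.mem_ball, dist_eq_norm] at hz
  have h1 : ‖z‖ ≤ ‖z - c‖ + ‖c‖ := by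
    have := norm_add_le (z - c) c
    rwa [sub_add_cancel] at this
  (clear * - h hz h1; linarith only [h, hz, h1])

/-- all disks through `0` -/
theorem int_kT_le {c : ℂ} (hc : c ≠ 0) {e : ℝ} (he : 0 ≤ e) (he1 : e ≤ 1) (h : e ≤ ‖c - 1‖) :
    ∫ z in Metric.ball c ‖c‖, kT z ≤ -(π * ‖c‖ ^ 2 * e ^ 2) := by
  have hn : 0 < ‖c‖ := norm_pos_iff.2 hc
  have hπ := Real.pi_pos
  have he2 : e ^ 2 ≤ 1 := pow_le_one₀ he he1
  rcases le_or_gt ‖c‖ 10 with h10 | h10
  · have h1 : ∫ z in Metric.ball c ‖c‖, kT z ≤ ∫ z in Metric.ball c ‖c‖, kq z.re z.im := by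
      refine setIntegral_mono_on (intOn BL_kT.cont _ _) (intOn kq_contz _ _) measurableSet_ball
        fun z hz => kT_le ?_
      rw [Metric.mem_ball, dist_eq_norm] at hz
      have h1 : ‖z‖ ≤ ‖z - c‖ + ‖c‖ := by
        have := norm_add_le (z - c) c
        rwa [sub_add_cancel] at this
      linarith only [h10, hz, h1]
    refine h1.trans ?_
    have h2 : ‖c‖ ^ 2 = c.re ^ 2 + c.im ^ 2 := by
      rw [← Complex.normSq_eq_norm_sq, Complex.normSq_apply]
      ring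
    have h3 : ‖c - 1‖ ^ 2 = (c.re - 1) ^ 2 + c.im ^ 2 := by
      rw [← Complex.normSq_eq_norm_sq, Complex.normSq_apply]
      simp only [Complex.sub_re, Complex.one_re, Complex.sub_im, Complex.one_im]
      ring
    have h4 : e ^ 2 ≤ ‖c - 1‖ ^ 2 := pow_le_pow_left₀ he h 2
    rw [disc_kq c hn, h2, gq_eq, ← h3, ← h2]
    have h5 : -(1 - c.re - 8 * c.im ^ 2) ^ 2 - ‖c - 1‖ ^ 2 ≤ -e ^ 2 := by
      (clear * - h4; nlinarith only [h4])
    calc π * ‖c‖ ^ 2 * (-(1 - c.re - 8 * c.im ^ 2) ^ 2 - ‖c - 1‖ ^ 2) ≤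
        π * ‖c‖ ^ 2 * (-e ^ 2) := mul_le_mul_of_nonneg_left h5 (by positivity)
      _ = -(π * ‖c‖ ^ 2 * e ^ 2) := by ring
  · have hi : Integrable ((Metric.ball (0:ℂ) 5).indicator (fun _ => 50000 + Bc)) volume := by
      rw [integrable_indicator_iff measurableSet_ball]
      exact integrableOn_const measure_ball_lt_top.ne
    have h1 : ∫ z in Metric.ball c ‖c‖, kT z ≤ ∫ z in Metric.ball c ‖c‖,
        ((Metric.ball (0:ℂ) 5).indicator (fun _ => 50000 + Bc) z - Bc) :=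
      setIntegral_mono_on (intOn BL_kT.cont _ _)
        (hi.integrableOn.sub (integrableOn_const measure_ball_lt_top.ne)) measurableSet_ball
        fun z _ => kT_ind z
    refine h1.trans ?_
    rw [integral_sub hi.integrableOn (integrableOn_const measure_ball_lt_top.ne)]
    have h2 : ∫ z in Metric.ball c ‖c‖, (Metric.ball (0:ℂ) 5).indicator (fun _ => 50000 + Bc) z ≤
        (50000 + Bc) * (25 * π) := by
      have h3 : ∫ z in Metric.ball c ‖c‖,
          (Metric.ball (0:ℂ) 5).indicator (fun _ => 50000 + Bc) z ≤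
          ∫ z, (Metric.ball (0:ℂ) 5).indicator (fun _ => 50000 + Bc) z := by
        refine setIntegral_le_integral hi (Filter.Eventually.of_forall fun z => ?_)
        refine indicator_nonneg (fun _ _ => ?_) z
        unfold Bc
        norm_num
      refine h3.trans (le_of_eq ?_)
      rw [integral_indicator measurableSet_ball, setIntegral_const, smul_eq_mul, Measure.real,
        Complex.volume_ball]
      simp only [ENNReal.toReal_mul, ENNReal.toReal_pow]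
      rw [ENNReal.toReal_ofReal (by norm_num)]
      simp only [ENNReal.coe_toReal, NNReal.coe_real_pi]
      ring
    have h4 : ∫ z in Metric.ball c ‖c‖, Bc = Bc * (‖c‖ ^ 2 * π) := by
      rw [setIntegral_const, smul_eq_mul, Measure.real, Complex.volume_ball]
      simp only [ENNReal.toReal_mul, ENNReal.toReal_pow]
      rw [ENNReal.toReal_ofReal hn.le]
      simp only [ENNReal.coe_toReal, NNReal.coe_real_pi]
      ring
    rw [h4]
    have h5 : 100 ≤ ‖c‖ ^ 2 := by (clear * - h10; nlinarith only [h10])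
    have h6 : π * ‖c‖ ^ 2 * e ^ 2 ≤ π * ‖c‖ ^ 2 := mul_le_of_le_one_right (by positivity) he2
    unfold Bc at *
    nlinarith only [hπ, h2, h5, h6]

/-! ### the derivative -/

/-- the difference quotient of the average when the point moves -/
noncomputable def Dq (a b m : ℝ) : ℝ :=
  -2 * (a * (4 - 2 * (a ^ 2 + b ^ 2))) + (-4 + 4 * m) * (-25 / 6 * a ^ 2 + 77 / 6 * b ^ 2 -
    18 / 5 * a ^ 2 * (a ^ 2 + b ^ 2) + 42 / 5 * (a ^ 2 + b ^ 2) * (a ^ 2 + b ^ 2) -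
    42 * b ^ 2 * (a ^ 2 + b ^ 2)) + (-6 + 12 * m - 8 * m ^ 2) * (2 * a ^ 3 - 14 * a * b ^ 2) +
  (-8 + 24 * m - 32 * m ^ 2 + 16 * m ^ 3) *
    (-12 / 5 * a ^ 4 + 168 / 5 * a ^ 2 * b ^ 2 - 28 * b ^ 4)

theorem Dq_eq (a b m : ℝ) :
    gq ((1 - 2 * m) * a) ((1 - 2 * m) * b) (a ^ 2 + b ^ 2) - gq a b (a ^ 2 + b ^ 2) =
      m * Dq a b m := by
  unfold gq Dq
  ring

theorem Dq_pos : ∃ ε : ℝ, 0 < ε ∧ ∀ a b m : ℝ, |a - 1| < ε → |b| < ε → |m| < ε →
    1 / 3 < Dq a b m := by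
  have h1 : Continuous fun x : ℝ × ℝ × ℝ => Dq x.1 x.2.1 x.2.2 := by
    unfold Dq
    fun_prop
  have h2 : (1:ℝ) / 3 < Dq 1 0 0 := by
    unfold Dq
    norm_num
  have h3 : ∀ᶠ x : ℝ × ℝ × ℝ in nhds (1, 0, 0), 1 / 3 < Dq x.1 x.2.1 x.2.2 :=
    h1.continuousAt.eventually_const_lt h2
  rw [Metric.eventually_nhds_iff] at h3
  obtain ⟨ε, hε, h⟩ := h3
  refine ⟨ε, hε, fun a b m ha hb hm => ?_⟩
  refine h (y := (a, b, m)) ?_
  rw [Prod.dist_eq, Prod.dist_eq]
  simp only [Real.dist_eq, sub_zero]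
  exact max_lt ha (max_lt hb hm)

open Pool.Agent.Helper17.G3 in
theorem exists_tm : ∃ (k : ℂ → ℝ) (Lk ρ kinf c1 c2 e2 m1 : ℝ), Tm k Lk ρ kinf c1 c2 e2 m1 := by
  obtain ⟨M₀, L₀, hM₀, hL₀, hM, hL⟩ := BL_kT
  obtain ⟨ε, hε, hD⟩ := Dq_pos
  have hπ := Real.pi_pos
  obtain ⟨M, hMd⟩ : ∃ M : ℝ, M = M₀ + 1 := ⟨_, rfl⟩
  have hM1 : 0 < M := by linarith only [hM₀, hMd]
  obtain ⟨e2, he2d⟩ : ∃ e2 : ℝ, e2 = min (ε / 2) (1 / 2) := ⟨_, rfl⟩
  have he2 : 0 < e2 := by rw [he2d]; exact lt_min (by (clear * - hε; linarith only [hε])) (by norm_num)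
  have he2' : e2 ≤ 1 / 2 := by rw [he2d]; exact min_le_right _ _
  have he2'' : e2 < ε := by
    rw [he2d]
    exact (min_le_left _ _).trans_lt (by linarith only [hε])
  have hcont : Continuous kT := BL_kT.cont
  have hone : ∫ z in Metric.ball (1:ℂ) 1, kT z = 0 := by
    rw [int_kT_eq one_pos (by norm_num)]
    unfold gq
    simp only [Complex.one_re, Complex.one_im]
    ring
  refine ⟨fun z => M⁻¹ * kT z, M⁻¹ * (L₀ + 1), 5, M⁻¹ * -Bc, M⁻¹ * (π * e2 ^ 2), M⁻¹ * (π / 3), e2,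
    min (ε / 2) (1 / 4), ⟨?_, ?_, ?_, ?_, ?_, ?_, ?_, ?_, he2, he2', ?_, ?_, ?_⟩⟩
  · exact (continuous_const.mul hcont).measurable
  · intro z
    rw [abs_mul, abs_of_pos (inv_pos.2 hM1), inv_mul_le_one₀ hM1]
    exact (hM z).trans (by (clear * - hMd; linarith only [hMd]))
  · intro z w
    rw [← mul_sub, abs_mul, abs_of_pos (inv_pos.2 hM1), mul_assoc]
    refine mul_le_mul_of_nonneg_left ?_ (inv_pos.2 hM1).le
    refine (hL z w).trans ?_
    have := norm_nonneg (z - w)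
    linarith only [this]
  · intro z hz
    rw [kT_far hz]
  · (clear * - hM1 hL₀; positivity)
  · norm_num
  · (clear * - hM1 he2; positivity)
  · positivity
  · exact lt_min (by (clear * - he2 he2''; linarith only [he2, he2''])) (by norm_num)
  · intro ζ hζ h
    have hc : (1 / ζ) ≠ 0 := one_div_ne_zero hζ
    have e1 : ∀ z : ℂ, M⁻¹ * kT (z / ζ) - M⁻¹ * kT z = M⁻¹ * (kT ((z - 0) * (1 / ζ)) - kT z) := by
      intro z
      rw [sub_zero, mul_one_div]
      ring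
    simp only [e1]
    have k1 : Continuous fun z : ℂ => kT ((z - 0) * (1 / ζ)) := hcont.comp (by fun_prop)
    rw [integral_const_mul, integral_sub (intOn k1 _ _) (intOn hcont _ _), hone, sub_zero,
      ball_scale hc]
    have h1 := int_kT_le hc he2.le (by linarith only [he2']) h
    have h2 : (1 - (0:ℂ)) * (1 / ζ) = 1 / ζ := by ring
    rw [h2, ← mul_neg]
    refine mul_le_mul_of_nonneg_left ?_ (inv_pos.2 hM1).le
    have hn : 0 < ‖1 / ζ‖ := norm_pos_iff.2 hc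
    rw [inv_mul_le_iff₀ (by positivity)]
    linarith only [h1]
  · intro ζ hζ h m hm hm1
    have hc : (1 / ζ) ≠ 0 := one_div_ne_zero hζ
    obtain ⟨c, hcd⟩ : ∃ c : ℂ, c = 1 / ζ := ⟨_, rfl⟩
    rw [← hcd] at h hc
    have hmε : m < ε := by
      have := hm1.trans (min_le_left _ _)
      linarith only [hm, this]
    have hm4 : m ≤ 1 / 4 := hm1.trans (min_le_right _ _)
    have e1 : ∀ z : ℂ, M⁻¹ * kT ((z - ((2 * m : ℝ) : ℂ)) / ζ) - M⁻¹ * kT (z / ζ) =
        M⁻¹ * (kT ((z - ((2 * m : ℝ) : ℂ)) * c) - kT ((z - 0) * c)) := by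
      intro z
      rw [sub_zero, hcd, mul_one_div, mul_one_div]
      ring
    simp only [e1]
    have k1 : Continuous fun z : ℂ => kT ((z - ((2 * m : ℝ) : ℂ)) * c) :=
      hcont.comp (by fun_prop)
    have k2 : Continuous fun z : ℂ => kT ((z - 0) * c) := hcont.comp (by fun_prop)
    rw [integral_const_mul, integral_sub (intOn k1 _ _) (intOn k2 _ _), ball_scale hc,
      ball_scale hc]
    have hn : 0 < ‖c‖ := norm_pos_iff.2 hc
    have hn1 : ‖c‖ ≤ 3 / 2 := by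
      have := norm_add_le (c - 1) 1
      rw [sub_add_cancel, norm_one] at this
      (clear * - he2' h this; linarith only [he2', h, this])
    have h2 : (1 - (0:ℂ)) * c = c := by ring
    have h3 : (1 - (((2 * m : ℝ) : ℂ))) * c = ⟨(1 - 2 * m) * c.re, (1 - 2 * m) * c.im⟩ := by
      apply Complex.ext <;> simp
    have h4 : ‖(⟨(1 - 2 * m) * c.re, (1 - 2 * m) * c.im⟩ : ℂ)‖ ≤ ‖c‖ := by
      rw [← h3, norm_mul]
      refine mul_le_of_le_one_left hn.le ?_
      have e : (1 - (((2 * m : ℝ) : ℂ))) = ((1 - 2 * m : ℝ) : ℂ) := by push_cast; ring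
      rw [e, Complex.norm_real, Real.norm_eq_abs, abs_of_nonneg (by (clear * - hm4; linarith only [hm4]))]
      linarith only [hm]
    have h5 : ‖c‖ ^ 2 = c.re ^ 2 + c.im ^ 2 := by
      rw [← Complex.normSq_eq_norm_sq, Complex.normSq_apply]
      ring
    rw [h2, h3, int_kT_eq hn (by (clear * - hn1 h4; linarith only [hn1, h4])), int_kT_eq hn (by linarith only [hn1])]
    simp only
    rw [h5, mul_assoc M⁻¹]
    refine mul_le_mul_of_nonneg_left ?_ (inv_pos.2 hM1).le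
    have h6 := Dq_eq c.re c.im m
    have h7 : 1 / 3 < Dq c.re c.im m := by
      refine hD _ _ _ ?_ ?_ ?_
      · have := Complex.abs_re_le_norm (c - 1)
        rw [Complex.sub_re, Complex.one_re] at this
        linarith only [he2'', h, this]
      · have := Complex.abs_im_le_norm (c - 1)
        rw [Complex.sub_im, Complex.one_im, sub_zero] at this
        (clear * - he2'' h this; linarith only [he2'', h, this])
      · rwa [abs_of_pos hm]
    have h8 : 0 < c.re ^ 2 + c.im ^ 2 := by rw [← h5]; positivity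
    rw [← mul_sub, ← mul_sub, h6]
    have h9 : (c.re ^ 2 + c.im ^ 2)⁻¹ * (π * (c.re ^ 2 + c.im ^ 2) * (m * Dq c.re c.im m)) =
        π * m * Dq c.re c.im m := by
      (clear * - h8 h7 hm; field_simp)
    rw [h9]
    have h10 : 0 < π * m := by (clear * - hm; positivity)
    (clear * - h7 h10; nlinarith only [h7, h10])

end Pool.Agent.Helper33.G3
end

/- Helper24.K6w.H33.G5.Templ -/
section
/-!
# G5: templates for complex exponents

`Tw V k ..` : as `Tm`, but the point moves by `2 m v`, `v ∈ V`. `V` is a closed subset of the unit circle in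
the open right half plane (quartic template of G3) or in the open left half plane
(template `3/4 - |z - 3/2|²`).
-/

set_option autoImplicit false

namespace Pool.Agent.Helper33.G5

open MeasureTheory Set
open scoped Real
open Pool.Agent.Helper33.G3

/-- a template for the directions `V` -/
structure Tw (V : Set ℂ) (k : ℂ → ℝ) (Lk ρ kinf c1 c2 e2 m1 : ℝ) : Prop where
  meas : Measurable k
  bd : ∀ z, |k z| ≤ 1
  lip : ∀ z z', |k z - k z'| ≤ Lk * ‖z - z'‖
  far : ∀ z, ρ ≤ ‖z‖ → k z = kinf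
  hL : 0 < Lk
  hρ : 0 < ρ
  hc1 : 0 < c1
  hc2 : 0 < c2
  he2 : 0 < e2
  he2' : e2 ≤ 1 / 2
  hm1 : 0 < m1
  F1 : ∀ ζ : ℂ, ζ ≠ 0 → e2 ≤ ‖1 / ζ - 1‖ →
    ∫ z in Metric.ball (1 : ℂ) 1, (k (z / ζ) - k z) ≤ -c1
  F2 : ∀ v ∈ V, ∀ ζ : ℂ, ζ ≠ 0 → ‖1 / ζ - 1‖ ≤ e2 → ∀ m : ℝ, 0 < m → m ≤ m1 →
    c2 * m ≤ ∫ z in Metric.ball (1 : ℂ) 1, (k ((z - ((2 * m : ℝ) : ℂ) * v) / ζ) - k (z / ζ))

/-- the data of a polynomial template: `q` the polynomial, `g a b R` its average over the disk with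
centre `(a, b)` and radius `√R` -/
structure Pq (q : ℝ → ℝ → ℝ) (g : ℝ → ℝ → ℝ → ℝ) : Prop where
  cont : Continuous fun p : ℝ × ℝ => q p.1 p.2
  bl : BL fun z => q (cl z.re) (cl z.im)
  disc : ∀ (c : ℂ) (r : ℝ), 0 < r →
    ∫ z in Metric.ball c r, q z.re z.im = π * r ^ 2 * g c.re c.im (r ^ 2)
  abs : ∀ X Y : ℝ, |X| ≤ 20 → |Y| ≤ 20 → |q X Y| ≤ Bc
  abs5 : ∀ X Y : ℝ, |X| ≤ 5 → |Y| ≤ 5 → |q X Y| ≤ 50000
  le : ∀ a b : ℝ, g a b (a ^ 2 + b ^ 2) ≤ -((a - 1) ^ 2 + b ^ 2)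
  one : g 1 0 1 = 0

/-- the template before normalisation -/
noncomputable def kV (q : ℝ → ℝ → ℝ) (z : ℂ) : ℝ := ct z * (q (cl z.re) (cl z.im) + Bc) + -Bc

variable {q : ℝ → ℝ → ℝ} {g : ℝ → ℝ → ℝ → ℝ}

theorem BL_kV (h : Pq q g) : BL (kV q) :=
  (BL_ct.mul (h.bl.add (BL.const Bc))).add (BL.const (-Bc))

theorem kV_eq {z : ℂ} (h : ‖z‖ ≤ 4) : kV q z = q z.re z.im := by
  unfold kV
  rw [ct_one h, cl_eq ((Complex.abs_re_le_norm z).trans (by (clear * - h; linarith only [h]))),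
    cl_eq ((Complex.abs_im_le_norm z).trans (by (clear * - h; linarith only [h])))]
  ring

theorem kV_le (hP : Pq q g) {z : ℂ} (h : ‖z‖ ≤ 20) : kV q z ≤ q z.re z.im := by
  have h1 := hP.abs z.re z.im ((Complex.abs_re_le_norm z).trans h)
    ((Complex.abs_im_le_norm z).trans h)
  have h2 : -Bc ≤ q z.re z.im := (abs_le.1 h1).1
  rcases le_or_gt ‖z‖ 5 with h5 | h5
  · unfold kV
    rw [cl_eq ((Complex.abs_re_le_norm z).trans h5), cl_eq ((Complex.abs_im_le_norm z).trans h5)]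
    have h3 : ct z * (q z.re z.im + Bc) ≤ 1 * (q z.re z.im + Bc) :=
      mul_le_mul_of_nonneg_right (ct_le z) (by linarith)
    (clear * - h3; linarith only [h3])
  · unfold kV
    rw [ct_zero h5.le]
    linarith

theorem kV_far {z : ℂ} (h : 5 ≤ ‖z‖) : kV q z = -Bc := by
  unfold kV
  rw [ct_zero h]
  ring

theorem kV_ind (hP : Pq q g) (z : ℂ) :
    kV q z ≤ (Metric.ball (0:ℂ) 5).indicator (fun _ => 50000 + Bc) z - Bc := by
  rcases lt_or_ge ‖z‖ 5 with h | h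
  · rw [indicator_of_mem (by rwa [mem_ball_zero_iff])]
    obtain ⟨h2, h3⟩ := abs_le.1 (hP.abs5 _ _ (cl_abs z.re) (cl_abs z.im))
    unfold kV
    have h4 : ct z * (q (cl z.re) (cl z.im) + Bc) ≤ 1 * (50000 + Bc) := by
      refine mul_le_mul (ct_le z) (by (clear * - h3; linarith only [h3])) ?_ zero_le_one
      unfold Bc
      (clear * - h2; linarith)
    linarith
  · rw [kV_far h, indicator_of_notMem (by rw [mem_ball_zero_iff]; linarith)]
    linarith

theorem q_contz (hP : Pq q g) : Continuous fun z : ℂ => q z.re z.im :=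
  hP.cont.comp (Complex.continuous_re.prodMk Complex.continuous_im)

/-- small disks: the exact value -/
theorem int_kV_eq (hP : Pq q g) {c : ℂ} {r : ℝ} (hr : 0 < r) (h : ‖c‖ + r ≤ 4) :
    ∫ z in Metric.ball c r, kV q z = π * r ^ 2 * g c.re c.im (r ^ 2) := by
  rw [← hP.disc c r hr]
  refine setIntegral_congr_fun measurableSet_ball fun z hz => kV_eq ?_
  rw [Metric.mem_ball, dist_eq_norm] at hz
  have h1 : ‖z‖ ≤ ‖z - c‖ + ‖c‖ := by
    have := norm_add_le (z - c) c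
    rwa [sub_add_cancel] at this
  linarith

/-- all disks through `0` -/
theorem int_kV_le (hP : Pq q g) {c : ℂ} (hc : c ≠ 0) {e : ℝ} (he : 0 ≤ e) (he1 : e ≤ 1)
    (h : e ≤ ‖c - 1‖) : ∫ z in Metric.ball c ‖c‖, kV q z ≤ -(π * ‖c‖ ^ 2 * e ^ 2) := by
  have hn : 0 < ‖c‖ := norm_pos_iff.2 hc
  have hπ := Real.pi_pos
  have he2 : e ^ 2 ≤ 1 := pow_le_one₀ he he1
  rcases le_or_gt ‖c‖ 10 with h10 | h10
  · have h1 : ∫ z in Metric.ball c ‖c‖, kV q z ≤ ∫ z in Metric.ball c ‖c‖, q z.re z.im := by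
      refine setIntegral_mono_on (intOn (BL_kV hP).cont _ _) (intOn (q_contz hP) _ _)
        measurableSet_ball fun z hz => kV_le hP ?_
      rw [Metric.mem_ball, dist_eq_norm] at hz
      have h1 : ‖z‖ ≤ ‖z - c‖ + ‖c‖ := by
        have := norm_add_le (z - c) c
        rwa [sub_add_cancel] at this
      linarith only [h10, hz, h1]
    refine h1.trans ?_
    have h2 : ‖c‖ ^ 2 = c.re ^ 2 + c.im ^ 2 := by
      rw [← Complex.normSq_eq_norm_sq, Complex.normSq_apply]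
      ring
    have h3 : ‖c - 1‖ ^ 2 = (c.re - 1) ^ 2 + c.im ^ 2 := by
      rw [← Complex.normSq_eq_norm_sq, Complex.normSq_apply]
      simp only [Complex.sub_re, Complex.one_re, Complex.sub_im, Complex.one_im]
      ring
    have h4 : e ^ 2 ≤ ‖c - 1‖ ^ 2 := pow_le_pow_left₀ he h 2
    rw [hP.disc c _ hn, h2]
    have h5 : g c.re c.im (c.re ^ 2 + c.im ^ 2) ≤ -e ^ 2 := by
      have := hP.le c.re c.im
      linarith only [h3, h4, this]
    calc π * (c.re ^ 2 + c.im ^ 2) * g c.re c.im (c.re ^ 2 + c.im ^ 2) ≤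
        π * (c.re ^ 2 + c.im ^ 2) * (-e ^ 2) := mul_le_mul_of_nonneg_left h5 (by (clear * -; positivity))
      _ = -(π * (c.re ^ 2 + c.im ^ 2) * e ^ 2) := by ring
  · have hi : Integrable ((Metric.ball (0:ℂ) 5).indicator (fun _ => 50000 + Bc)) volume := by
      rw [integrable_indicator_iff measurableSet_ball]
      exact integrableOn_const measure_ball_lt_top.ne
    have h1 : ∫ z in Metric.ball c ‖c‖, kV q z ≤ ∫ z in Metric.ball c ‖c‖,
        ((Metric.ball (0:ℂ) 5).indicator (fun _ => 50000 + Bc) z - Bc) :=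
      setIntegral_mono_on (intOn (BL_kV hP).cont _ _)
        (hi.integrableOn.sub (integrableOn_const measure_ball_lt_top.ne)) measurableSet_ball
        fun z _ => kV_ind hP z
    refine h1.trans ?_
    rw [integral_sub hi.integrableOn (integrableOn_const measure_ball_lt_top.ne)]
    have h2 : ∫ z in Metric.ball c ‖c‖, (Metric.ball (0:ℂ) 5).indicator (fun _ => 50000 + Bc) z ≤
        (50000 + Bc) * (25 * π) := by
      have h3 : ∫ z in Metric.ball c ‖c‖,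
          (Metric.ball (0:ℂ) 5).indicator (fun _ => 50000 + Bc) z ≤
          ∫ z, (Metric.ball (0:ℂ) 5).indicator (fun _ => 50000 + Bc) z := by
        refine setIntegral_le_integral hi (Filter.Eventually.of_forall fun z => ?_)
        refine indicator_nonneg (fun _ _ => ?_) z
        unfold Bc
        norm_num
      refine h3.trans (le_of_eq ?_)
      rw [integral_indicator measurableSet_ball, setIntegral_const, smul_eq_mul, Measure.real,
        Complex.volume_ball]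
      simp only [ENNReal.toReal_mul, ENNReal.toReal_pow]
      rw [ENNReal.toReal_ofReal (by norm_num)]
      simp only [ENNReal.coe_toReal, NNReal.coe_real_pi]
      ring
    have h4 : ∫ z in Metric.ball c ‖c‖, Bc = Bc * (‖c‖ ^ 2 * π) := by
      rw [setIntegral_const, smul_eq_mul, Measure.real, Complex.volume_ball]
      simp only [ENNReal.toReal_mul, ENNReal.toReal_pow]
      rw [ENNReal.toReal_ofReal hn.le]
      simp only [ENNReal.coe_toReal, NNReal.coe_real_pi]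
      ring
    rw [h4]
    have h5 : 100 ≤ ‖c‖ ^ 2 := by (clear * - h10; nlinarith only [h10])
    have h6 : π * ‖c‖ ^ 2 * e ^ 2 ≤ π * ‖c‖ ^ 2 := mul_le_of_le_one_right (by positivity) he2
    unfold Bc at *
    nlinarith only [hπ, h2, h5, h6]

/-- the general existence theorem: `D` is the difference quotient of the average when the point moves
in the direction `v` -/
theorem tw_of (hP : Pq q g) {V : Set ℂ} (hV : IsCompact V) (hV1 : ∀ v ∈ V, ‖v‖ = 1)
    {D : ℝ → ℂ → ℂ → ℝ} (hD : Continuous fun p : (ℝ × ℂ) × ℂ => D p.1.1 p.1.2 p.2)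
    (hDe : ∀ (m : ℝ) (c v : ℂ), g ((1 - ((2 * m : ℝ) : ℂ) * v) * c).re
      ((1 - ((2 * m : ℝ) : ℂ) * v) * c).im (c.re ^ 2 + c.im ^ 2) -
      g c.re c.im (c.re ^ 2 + c.im ^ 2) = m * D m c v) {κ : ℝ} (hκ : 0 < κ)
    (hDp : ∀ v ∈ V, κ < D 0 1 v) :
    ∃ (k : ℂ → ℝ) (Lk ρ kinf c1 c2 e2 m1 : ℝ), Tw V k Lk ρ kinf c1 c2 e2 m1 := by
  obtain ⟨M₀, L₀, hM₀, hL₀, hM, hL⟩ := BL_kV hP
  have hev : ∀ᶠ x : ℝ × ℂ in nhds (0, 1), ∀ v ∈ V, κ < D x.1 x.2 v := by
    refine hV.eventually_forall_of_forall_eventually fun v hv => ?_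
    exact hD.continuousAt.eventually_const_lt (hDp v hv)
  rw [Metric.eventually_nhds_iff] at hev
  obtain ⟨ε, hε, hDD⟩ := hev
  have hπ := Real.pi_pos
  obtain ⟨M, hMd⟩ : ∃ M : ℝ, M = M₀ + 1 := ⟨_, rfl⟩
  have hM1 : 0 < M := by linarith only [hM₀, hMd]
  obtain ⟨e2, he2d⟩ : ∃ e2 : ℝ, e2 = min (ε / 2) (1 / 2) := ⟨_, rfl⟩
  have he2 : 0 < e2 := by rw [he2d]; exact lt_min (by (clear * - hε; linarith only [hε])) (by norm_num)
  have he2' : e2 ≤ 1 / 2 := by rw [he2d]; exact min_le_right _ _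
  have he2'' : e2 < ε := by
    rw [he2d]
    exact (min_le_left _ _).trans_lt (by linarith only [hε])
  have hcont : Continuous (kV q) := (BL_kV hP).cont
  have hone : ∫ z in Metric.ball (1:ℂ) 1, kV q z = 0 := by
    rw [int_kV_eq hP one_pos (by norm_num)]
    simp only [Complex.one_re, Complex.one_im]
    rw [one_pow, hP.one, mul_zero]
  refine ⟨fun z => M⁻¹ * kV q z, M⁻¹ * (L₀ + 1), 5, M⁻¹ * -Bc, M⁻¹ * (π * e2 ^ 2), M⁻¹ * (π * κ),
    e2, min (ε / 2) (1 / 12), ⟨?_, ?_, ?_, ?_, ?_, ?_, ?_, ?_, he2, he2', ?_, ?_, ?_⟩⟩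
  · exact (continuous_const.mul hcont).measurable
  · intro z
    rw [abs_mul, abs_of_pos (inv_pos.2 hM1), inv_mul_le_one₀ hM1]
    exact (hM z).trans (by linarith only [hMd])
  · intro z w
    rw [← mul_sub, abs_mul, abs_of_pos (inv_pos.2 hM1), mul_assoc]
    refine mul_le_mul_of_nonneg_left ?_ (inv_pos.2 hM1).le
    refine (hL z w).trans ?_
    have := norm_nonneg (z - w)
    linarith only [this]
  · intro z hz
    rw [kV_far hz]
  · (clear * - hM1 hL₀; positivity)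
  · norm_num
  · (clear * - hM1 he2; positivity)
  · positivity
  · exact lt_min (by linarith only [he2, he2'']) (by norm_num)
  · intro ζ hζ h
    have hc : (1 / ζ) ≠ 0 := one_div_ne_zero hζ
    have e1 : ∀ z : ℂ, M⁻¹ * kV q (z / ζ) - M⁻¹ * kV q z =
        M⁻¹ * (kV q ((z - 0) * (1 / ζ)) - kV q z) := by
      intro z
      rw [sub_zero, mul_one_div]
      ring
    simp only [e1]
    have k1 : Continuous fun z : ℂ => kV q ((z - 0) * (1 / ζ)) := hcont.comp (by fun_prop)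
    rw [integral_const_mul, integral_sub (intOn k1 _ _) (intOn hcont _ _), hone, sub_zero,
      ball_scale hc]
    have h1 := int_kV_le hP hc he2.le (by (clear * - he2'; linarith only [he2'])) h
    have h2 : (1 - (0:ℂ)) * (1 / ζ) = 1 / ζ := by ring
    rw [h2, ← mul_neg]
    refine mul_le_mul_of_nonneg_left ?_ (inv_pos.2 hM1).le
    have hn : 0 < ‖1 / ζ‖ := norm_pos_iff.2 hc
    rw [inv_mul_le_iff₀ (by positivity)]
    linarith only [h1]
  · intro v hv ζ hζ h m hm hm1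
    have hc : (1 / ζ) ≠ 0 := one_div_ne_zero hζ
    obtain ⟨c, hcd⟩ : ∃ c : ℂ, c = 1 / ζ := ⟨_, rfl⟩
    rw [← hcd] at h hc
    have hmε : m < ε := by
      have := hm1.trans (min_le_left _ _)
      linarith only [hm, this]
    have hm4 : m ≤ 1 / 12 := hm1.trans (min_le_right _ _)
    have e1 : ∀ z : ℂ, M⁻¹ * kV q ((z - ((2 * m : ℝ) : ℂ) * v) / ζ) - M⁻¹ * kV q (z / ζ) =
        M⁻¹ * (kV q ((z - ((2 * m : ℝ) : ℂ) * v) * c) - kV q ((z - 0) * c)) := by
      intro z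
      rw [sub_zero, hcd, mul_one_div, mul_one_div]
      ring
    simp only [e1]
    have k1 : Continuous fun z : ℂ => kV q ((z - ((2 * m : ℝ) : ℂ) * v) * c) :=
      hcont.comp (by fun_prop)
    have k2 : Continuous fun z : ℂ => kV q ((z - 0) * c) := hcont.comp (by fun_prop)
    rw [integral_const_mul, integral_sub (intOn k1 _ _) (intOn k2 _ _), ball_scale hc,
      ball_scale hc]
    have hn : 0 < ‖c‖ := norm_pos_iff.2 hc
    have hn1 : ‖c‖ ≤ 3 / 2 := by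
      have := norm_add_le (c - 1) 1
      rw [sub_add_cancel, norm_one] at this
      linarith only [he2', h, this]
    have h2 : (1 - (0:ℂ)) * c = c := by ring
    have h4 : ‖(1 - ((2 * m : ℝ) : ℂ) * v) * c‖ ≤ 7 / 6 * ‖c‖ := by
      rw [norm_mul]
      refine mul_le_mul_of_nonneg_right ?_ hn.le
      refine (norm_sub_le _ _).trans ?_
      rw [norm_one, norm_mul, hV1 v hv, Complex.norm_real, Real.norm_eq_abs,
        abs_of_nonneg (by linarith only [hm])]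
      linarith only [hm4]
    have h5 : ‖c‖ ^ 2 = c.re ^ 2 + c.im ^ 2 := by
      rw [← Complex.normSq_eq_norm_sq, Complex.normSq_apply]
      ring
    rw [h2, int_kV_eq hP hn (by (clear * - hm hm4 hn1 h4; linarith)), int_kV_eq hP hn (by linarith only [hn1])]
    rw [h5, mul_assoc M⁻¹]
    refine mul_le_mul_of_nonneg_left ?_ (inv_pos.2 hM1).le
    have h6 := hDe m c v
    have h7 : κ < D m c v := by
      refine hDD (y := (m, c)) ?_ v hv
      rw [Prod.dist_eq]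
      simp only
      refine max_lt ?_ ?_
      · rw [Real.dist_eq, sub_zero, abs_of_pos hm]
        exact hmε
      · rw [dist_eq_norm]
        linarith only [he2'', h]
    have h8 : 0 < c.re ^ 2 + c.im ^ 2 := by rw [← h5]; positivity
    rw [← mul_sub, ← mul_sub, h6]
    have h9 : (c.re ^ 2 + c.im ^ 2)⁻¹ * (π * (c.re ^ 2 + c.im ^ 2) * (m * D m c v)) =
        π * m * D m c v := by
      (clear * - h8 hm; field_simp)
    rw [h9]
    have h10 : 0 < π * m := by (clear * - hm; positivity)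
    (clear * - h7 h10; nlinarith only [h7, h10])

end Pool.Agent.Helper33.G5
end

/- Helper24.K6w.H17.G5.Key5 -/
section
/-!
# G5: the key inequality for complex exponents
-/

set_option autoImplicit false
set_option linter.unusedVariables false

namespace Pool.Agent.Helper17.G5

open MeasureTheory Set Metric
open scoped Real
open Pool.Agent.Helper17.G3
open Pool.Agent.Helper33.G5 (Tw)

theorem int_sub_Dk {f : ℂ → ℝ} (hf : Measurable f) (hf1 : ∀ y, |f y| ≤ 1) :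
    IntegrableOn f Dk := by
  refine Integrable.mono' (g := fun _ => (1 : ℝ))
    (integrableOn_const (ne_top_of_le_ne_top vol_Bt (measure_mono Dk_sub))) hf.aestronglyMeasurable
    (Filter.Eventually.of_forall fun w => ?_)
  rw [Real.norm_eq_abs]
  exact hf1 w

theorem vol_Dk : (volume Dk).toReal = π := by
  rw [Dk, Complex.volume_ball, ENNReal.toReal_mul, ENNReal.toReal_pow,
    ENNReal.toReal_ofReal (by norm_num)]
  norm_num

/-- the shift perturbation -/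
noncomputable def sh (k : ℂ → ℝ) (m lam : ℝ) (v ζ : ℂ) (y : ℂ) : ℝ :=
  lam / (2 * m) * (k (y / ζ) - k ((y - ((2 * m : ℝ) : ℂ) * v) / ζ))

/-- the multiplier perturbation -/
noncomputable def mu (k : ℂ → ℝ) (ν₁ : ℝ) (ζ : ℂ) (y : ℂ) : ℝ := ν₁ * (k (y / ζ) - k y)

/-- the error in `pt` -/
noncomputable def er (A d m : ℝ) (y : ℂ) : ℝ :=
  2 * A * m / ‖y‖ ^ 2 + d * ((2 + A) ^ 2 / 2 * (1 / ‖y‖) + 1 / 2)

/-- the conclusion in the `w`-plane -/
def Con (k : ℂ → ℝ) (A d m lam ν₁ : ℝ) (v ζ : ℂ) (R G : ℝ) : Prop :=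
  ∃ H : ℂ → ℝ, Measurable H ∧ Integrable H ∧ (∀ y, 0 ≤ H y) ∧ (∀ y, R ≤ ‖y‖ → H y = 0) ∧
    (∀ y : ℂ, 4 * m ≤ ‖y‖ → hk y - 1 / 2 + mu k ν₁ ζ y + sh k m lam v ζ y + er A d m y ≤ H y) ∧
    ∫ y, H y ≤ π / 2 - G + 300 * (2 + A) ^ 2 * (d + m ^ (1 / 2 : ℝ))

theorem meas_sh {k : ℂ → ℝ} (hk : Measurable k) (m lam : ℝ) (v ζ : ℂ) :
    Measurable (sh k m lam v ζ) := by
  unfold sh
  fun_prop

theorem meas_mu {k : ℂ → ℝ} (hk : Measurable k) (ν₁ : ℝ) (ζ : ℂ) : Measurable (mu k ν₁ ζ) := by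
  unfold mu
  fun_prop

theorem lip_v {k : ℂ → ℝ} {Lk : ℝ} (hlip : ∀ z z', |k z - k z'| ≤ Lk * ‖z - z'‖) {m : ℝ}
    (hm : 0 < m) {v : ℂ} (hv : ‖v‖ = 1) (ζ y : ℂ) :
    |k (y / ζ) - k ((y - ((2 * m : ℝ) : ℂ) * v) / ζ)| ≤ Lk * (2 * m * ‖1 / ζ‖) := by
  refine (hlip _ _).trans (le_of_eq ?_)
  have : y / ζ - (y - ((2 * m : ℝ) : ℂ) * v) / ζ = ((2 * m : ℝ) : ℂ) * v * (1 / ζ) := by ring
  rw [this, norm_mul, norm_mul, Complex.norm_real, Real.norm_eq_abs,
    abs_of_pos (by positivity : 0 < 2 * m), hv, mul_one]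

theorem sh_le {k : ℂ → ℝ} {Lk : ℝ} (hlip : ∀ z z', |k z - k z'| ≤ Lk * ‖z - z'‖) {m lam : ℝ}
    (hm : 0 < m) (hl : 0 < lam) {v : ℂ} (hv : ‖v‖ = 1) (ζ y : ℂ) :
    |sh k m lam v ζ y| ≤ lam * Lk * ‖1 / ζ‖ := by
  have h1 := lip_v hlip hm hv ζ y
  unfold sh
  rw [abs_mul, abs_of_pos (by (clear * - hl hm; positivity) : 0 < lam / (2 * m))]
  calc _ ≤ lam / (2 * m) * (Lk * (2 * m * ‖1 / ζ‖)) := mul_le_mul_of_nonneg_left h1 (by (clear * - hl hm; positivity))
    _ = _ := by field_simp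

/-- bounded case -/
theorem case_bdd {k : ℂ → ℝ} (hkm : Measurable k) {A d m lam ν₁ ν I : ℝ}
    (hA : 1 ≤ A) (hd : 0 < d) (hm : 0 < m) (hdm : (2 + A) ^ 2 * (d + m) ≤ 1) (v ζ : ℂ)
    (hν : 0 ≤ ν) (hν1 : ν ≤ 1 / 8) (hb : ∀ y, |mu k ν₁ ζ y + sh k m lam v ζ y| ≤ ν)
    (hI : ∫ y in Dk, (mu k ν₁ ζ y + sh k m lam v ζ y) ≤ I) {R : ℝ} (hR : 10 < R) :
    Con k A d m lam ν₁ v ζ R (-(I + 10 * π * ν ^ 2)) := by
  obtain ⟨H, h0, h1, h2, h3, h4, h5⟩ := bound5 hA hd hm hdm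
    ((meas_mu hkm ν₁ ζ).add (meas_sh hkm m lam v ζ)) hν hν1 hb (c := fun _ => 0) measurable_const
    (integrable_zero _ _ _) (fun _ => le_rfl) (Kc := 0) (by simp)
  refine ⟨H, h0, h1, h2, fun y hy => h3 y (by linarith only [hR, hy]), fun y hy => ?_, ?_⟩
  · have := h4 y hy
    simp only [Pi.add_apply] at this
    unfold er
    (clear * - this; linarith only [this])
  · simp only [Pi.add_apply] at h5
    (clear * - hI h5; linarith)

/-- good templates -/
theorem case_good {k : ℂ → ℝ} {V : Set ℂ} {Lk ρ kinf c1 c2 e2 m1 : ℝ}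
    (hk : Tw V k Lk ρ kinf c1 c2 e2 m1) {v : ℂ} (hv : v ∈ V) (hv1 : ‖v‖ = 1)
    {A d m lam : ℝ} (hA : 1 ≤ A) (hd : 0 < d) (hm : 0 < m) (hdm : (2 + A) ^ 2 * (d + m) ≤ 1)
    (hmm : m ≤ m1) (hl : 0 < lam) (hlL : lam * Lk ≤ 1 / 12)
    (hlc : 90 * π * (lam * Lk ^ 2) ≤ c2) {ζ : ℂ} (hζ : ζ ≠ 0) (hg : ‖1 / ζ - 1‖ ≤ e2)
    {R : ℝ} (hR : 10 < R) :
    Con k A d m lam 0 v ζ R (lam * c2 / 4) := by
  have hz : ‖1 / ζ‖ ≤ 3 / 2 := by
    have h1 : 1 / ζ = (1 / ζ - 1) + 1 := by ring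
    have h2 := norm_add_le (1 / ζ - 1) 1
    rw [← h1, norm_one] at h2
    (clear * - hk hg h2; linarith only [hk.he2', hg, h2])
  have hLk := hk.hL
  have hmu : ∀ y, mu k 0 ζ y = 0 := fun y => by simp [mu]
  have hb : ∀ y, |mu k 0 ζ y + sh k m lam v ζ y| ≤ 3 / 2 * (lam * Lk) := by
    intro y
    rw [hmu, zero_add]
    calc _ ≤ lam * Lk * ‖1 / ζ‖ := sh_le hk.lip hm hl hv1 ζ y
      _ ≤ lam * Lk * (3 / 2) := mul_le_mul_of_nonneg_left hz (by (clear * - hl hLk; positivity))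
      _ = _ := by ring
  have hI : ∫ y in Dk, (mu k 0 ζ y + sh k m lam v ζ y) ≤ -(lam * c2 / 2) := by
    have h1 := hk.F2 v hv ζ hζ hg m hm hmm
    have h2 : ∀ y : ℂ, mu k 0 ζ y + sh k m lam v ζ y =
        -(lam / (2 * m)) * (k ((y - ((2 * m : ℝ) : ℂ) * v) / ζ) - k (y / ζ)) := fun y => by
      rw [hmu, sh]
      ring
    simp only [h2]
    rw [integral_const_mul]
    have h3 : lam / (2 * m) * (c2 * m) ≤ lam / (2 * m) *
        ∫ z in ball (1 : ℂ) 1, (k ((z - ((2 * m : ℝ) : ℂ) * v) / ζ) - k (z / ζ)) :=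
      mul_le_mul_of_nonneg_left h1 (by positivity)
    have h4 : lam / (2 * m) * (c2 * m) = lam * c2 / 2 := by (clear * - hm hl; field_simp)
    have h5 : Dk = ball (1 : ℂ) 1 := rfl
    rw [h5]
    linarith only [h3, h4]
  obtain ⟨H, h0, h1, h2, h3, h4, h5⟩ := case_bdd hk.meas hA hd hm hdm v ζ (ν := 3 / 2 * (lam * Lk))
    (by (clear * - hl hLk; positivity)) (by linarith only [hlL]) hb hI hR
  refine ⟨H, h0, h1, h2, h3, h4, h5.trans ?_⟩
  have h6 : 10 * π * (3 / 2 * (lam * Lk)) ^ 2 = lam / 4 * (90 * π * (lam * Lk ^ 2)) := by ring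
  have h7 : lam / 4 * (90 * π * (lam * Lk ^ 2)) ≤ lam / 4 * c2 :=
    mul_le_mul_of_nonneg_left hlc (by positivity)
  linarith only [h7]

/-- bad templates -/
theorem case_bad {k : ℂ → ℝ} {V : Set ℂ} {Lk ρ kinf c1 c2 e2 m1 : ℝ}
    (hk : Tw V k Lk ρ kinf c1 c2 e2 m1) {v : ℂ} (hv : v ∈ V) (hv1 : ‖v‖ = 1)
    {A d m lam ν₁ : ℝ} (hA : 1 ≤ A) (hd : 0 < d) (hm : 0 < m) (hdm : (2 + A) ^ 2 * (d + m) ≤ 1)
    (hl : 0 < lam) (hν : 0 < ν₁) (hν1 : ν₁ ≤ 1 / 32)
    (hνc : 640 * π * ν₁ ≤ c1) (hlL : lam * Lk ≤ 2 * ν₁) (hlc : 4 * π * (lam * Lk) ≤ ν₁ * c1)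
    (hlC : 16 * π * (lam * Lk * (1 + 2 * ρ) ^ 2) ≤ ν₁ * c1)
    {ζ : ℂ} (hζ : ζ ≠ 0) (hg : e2 ≤ ‖1 / ζ - 1‖) {R : ℝ} (hR : 11 + ρ ≤ R) :
    Con k A d m lam ν₁ v ζ R (ν₁ * c1 / 2) := by
  have hLk := hk.hL
  have hρ := hk.hρ
  have hc1 := hk.hc1
  have hπ := Real.pi_pos
  have hζ0 : 0 < ‖ζ‖ := norm_pos_iff.mpr hζ
  have hF1 := hk.F1 ζ hζ hg
  have hm1 : m ≤ 1 / 2 := by (clear * - hA hdm hd; nlinarith only [hA, hd, hdm])
  have hmu2 : ∀ y, |mu k ν₁ ζ y| ≤ 2 * ν₁ := by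
    intro y
    have h1 := abs_sub (k (y / ζ)) (k y)
    have h2 : |k (y / ζ) - k y| ≤ 2 := by linarith only [hk.bd (y / ζ), hk.bd y, h1]
    unfold mu
    rw [abs_mul, abs_of_pos hν]
    (clear * - hν h2; nlinarith only [hν, h2])
  have i0 : IntegrableOn (fun y => k (y / ζ)) Dk :=
    int_sub_Dk (hk.meas.comp (measurable_id.div_const ζ)) fun y => hk.bd _
  have i1 : IntegrableOn k Dk := int_sub_Dk hk.meas hk.bd
  have i2 : IntegrableOn (fun y => k ((y - ((2 * m : ℝ) : ℂ) * v) / ζ)) Dk :=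
    int_sub_Dk
      (hk.meas.comp ((measurable_id.sub_const _).div_const ζ)) fun y => hk.bd _
  have hI1 : ∫ y in Dk, mu k ν₁ ζ y ≤ -(ν₁ * c1) := by
    have h2 : ν₁ * ∫ y in Dk, (k (y / ζ) - k y) ≤ ν₁ * -c1 :=
      mul_le_mul_of_nonneg_left hF1 hν.le
    unfold mu
    rw [integral_const_mul]
    (clear * - h2; linarith only [h2])
  have i01 : IntegrableOn (mu k ν₁ ζ) Dk := (i0.sub i1).const_mul _
  have i02 : IntegrableOn (sh k m lam v ζ) Dk := (i0.sub i2).const_mul _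
  rcases le_or_gt 1 ‖ζ‖ with h1 | h1
  · -- bounded case
    have hz : ‖1 / ζ‖ ≤ 1 := by
      rw [norm_div, norm_one, div_le_one hζ0]
      exact h1
    have hb2 : ∀ y, |sh k m lam v ζ y| ≤ lam * Lk := by
      intro y
      calc _ ≤ lam * Lk * ‖1 / ζ‖ := sh_le hk.lip hm hl hv1 ζ y
        _ ≤ lam * Lk * 1 := mul_le_mul_of_nonneg_left hz (by (clear * - hl hLk; positivity))
        _ = _ := by ring
    have hb : ∀ y, |mu k ν₁ ζ y + sh k m lam v ζ y| ≤ 4 * ν₁ := by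
      intro y
      refine (abs_add_le _ _).trans ?_
      linarith only [hb2 y, hmu2 y, hlL]
    have hI : ∫ y in Dk, (mu k ν₁ ζ y + sh k m lam v ζ y) ≤ -(ν₁ * c1) + lam * Lk * π := by
      rw [integral_add i01 i02]
      have h3 : ∫ y in Dk, sh k m lam v ζ y ≤ ∫ y in Dk, lam * Lk := by
        refine integral_mono i02
          (integrableOn_const (ne_top_of_le_ne_top vol_Bt (measure_mono Dk_sub))) fun y => ?_
        exact (le_abs_self _).trans (hb2 y)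
      rw [setIntegral_const, smul_eq_mul, measureReal_def, vol_Dk] at h3
      linarith only [hI1, h3]
    obtain ⟨H, g0, g1, g2, g3, g4, g5⟩ := case_bdd hk.meas hA hd hm hdm v ζ (ν := 4 * ν₁)
      (by positivity) (by linarith only [hν1]) hb hI (R := R) (by linarith only [hR, hρ])
    refine ⟨H, g0, g1, g2, g3, g4, g5.trans ?_⟩
    have h5 : 10 * π * (4 * ν₁) ^ 2 = ν₁ / 4 * (640 * π * ν₁) := by ring
    have h6 : ν₁ / 4 * (640 * π * ν₁) ≤ ν₁ / 4 * c1 := mul_le_mul_of_nonneg_left hνc (by positivity)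
    linarith only [hlc, h6]
  · -- small scale
    set p : ℂ := ((2 * m : ℝ) : ℂ) * v with hp
    have hpn : ‖p‖ = 2 * m := by
      rw [hp, norm_mul, hv1, mul_one, Complex.norm_real, Real.norm_eq_abs,
        abs_of_pos (by positivity)]
    set S : Set ℂ := ball 0 (ρ * ‖ζ‖) ∪ ball p (ρ * ‖ζ‖) with hS
    have hSm : MeasurableSet S := measurableSet_ball.union measurableSet_ball
    have hSv : volume S ≤ ENNReal.ofReal (2 * (π * (ρ * ‖ζ‖) ^ 2)) := by
      refine (measure_union_le _ _).trans ?_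
      rw [Complex.volume_ball, Complex.volume_ball, ← ENNReal.ofReal_pow (by positivity),
        ← ENNReal.ofReal_coe_nnreal, NNReal.coe_real_pi, ← ENNReal.ofReal_mul (by positivity),
        ← ENNReal.ofReal_add (by positivity) (by positivity)]
      refine ENNReal.ofReal_le_ofReal ?_
      linarith only []
    have hSf : volume S ≠ ⊤ := ne_top_of_le_ne_top ENNReal.ofReal_ne_top hSv
    have hout : ∀ y, y ∉ S → sh k m lam v ζ y = 0 := by
      intro y hy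
      rw [hS, mem_union, not_or, mem_ball, mem_ball, dist_eq_norm, dist_eq_norm, not_lt, not_lt,
        sub_zero] at hy
      unfold sh
      rw [hk.far (y / ζ), hk.far ((y - ((2 * m : ℝ) : ℂ) * v) / ζ), sub_self, mul_zero]
      · rw [norm_div, le_div_iff₀ hζ0]
        exact hy.2
      · rw [norm_div, le_div_iff₀ hζ0]
        exact hy.1
    set c : ℂ → ℝ := fun y => |sh k m lam v ζ y| with hc
    have hcle : ∀ y, c y ≤ S.indicator (fun _ => lam * Lk / ‖ζ‖) y := by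
      intro y
      by_cases hy : y ∈ S
      · rw [indicator_of_mem hy]
        refine (sh_le hk.lip hm hl hv1 ζ y).trans (le_of_eq ?_)
        rw [norm_div, norm_one]
        ring
      · rw [indicator_of_notMem hy, hc]
        simp only [hout y hy, abs_zero, le_refl]
    have hc0 : ∀ y, 0 ≤ c y := fun y => abs_nonneg _
    have iM : Integrable (S.indicator fun _ : ℂ => lam * Lk / ‖ζ‖) :=
      (integrableOn_const hSf).integrable_indicator hSm
    have hcm : Measurable c := (meas_sh hk.meas m lam v ζ).abs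
    have ic : Integrable c := by
      refine Integrable.mono' iM hcm.aestronglyMeasurable
        (Filter.Eventually.of_forall fun y => ?_)
      rw [Real.norm_eq_abs, abs_of_nonneg (hc0 y)]
      exact hcle y
    have hcK : ∫ y, c y ≤ ν₁ * c1 / 4 := by
      have g1 : ∫ y, c y ≤ ∫ y, S.indicator (fun _ => lam * Lk / ‖ζ‖) y :=
        integral_mono ic iM hcle
      rw [integral_indicator hSm, setIntegral_const, smul_eq_mul, measureReal_def] at g1
      have g2 : (volume S).toReal ≤ 2 * (π * (ρ * ‖ζ‖) ^ 2) :=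
        ENNReal.toReal_le_of_le_ofReal (by (clear * - hρ hζ; positivity)) hSv
      have g3 : (volume S).toReal * (lam * Lk / ‖ζ‖) ≤
          2 * (π * (ρ * ‖ζ‖) ^ 2) * (lam * Lk / ‖ζ‖) :=
        mul_le_mul_of_nonneg_right g2 (by (clear * - hl hLk hζ; positivity))
      have g4 : 2 * (π * (ρ * ‖ζ‖) ^ 2) * (lam * Lk / ‖ζ‖) = 2 * π * (lam * Lk * ρ ^ 2) * ‖ζ‖ := by
        (clear * - hLk hl hζ hρ; field_simp)
      have g5 : 2 * π * (lam * Lk * ρ ^ 2) * ‖ζ‖ ≤ 2 * π * (lam * Lk * ρ ^ 2) * 1 :=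
        mul_le_mul_of_nonneg_left h1.le (by (clear * - hl hLk hρ; positivity))
      have g6 : lam * Lk * ρ ^ 2 ≤ lam * Lk * (1 + 2 * ρ) ^ 2 := by
        refine mul_le_mul_of_nonneg_left ?_ (by positivity)
        (clear * - hρ; nlinarith only [hρ])
      have g7 : 2 * π * (lam * Lk * ρ ^ 2) ≤ 2 * π * (lam * Lk * (1 + 2 * ρ) ^ 2) :=
        mul_le_mul_of_nonneg_left g6 (by positivity)
      have g8 : 0 ≤ 2 * π * (lam * Lk * (1 + 2 * ρ) ^ 2) := by (clear * - hl hLk hρ; positivity)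
      linarith only [hlC, g1, g3, g4, g5, g7, g8]
    obtain ⟨H, g0, g1, g2, g3, g4, g5⟩ := bound5 hA hd hm hdm
      (meas_mu hk.meas ν₁ ζ) (ν := 2 * ν₁) (by positivity) (by linarith only [hν1]) hmu2 hcm ic hc0 hcK
    refine ⟨H, g0, g1, g2, ?_, ?_, ?_⟩
    · intro y hy
      rw [g3 y (by linarith only [hR, hρ, hy])]
      have : y ∉ S := by
        rw [hS, mem_union, not_or, mem_ball, mem_ball, dist_eq_norm, dist_eq_norm, not_lt, not_lt,
          sub_zero]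
        have e1 : ρ * ‖ζ‖ ≤ ρ := by nlinarith only [hρ, h1]
        have e2 := norm_sub_norm_le y p
        constructor
        · linarith only [hR, hy, e1]
        · rw [hpn] at e2
          linarith only [hR, hm1, hy, e1, e2]
      rw [hc]
      simp only [hout y this, abs_zero]
    · intro y hy
      have e1 := g4 y hy
      have e2 : sh k m lam v ζ y ≤ c y := le_abs_self _
      unfold er
      linarith only [e1, e2]
    · refine g5.trans ?_
      have h5 : 10 * π * (2 * ν₁) ^ 2 = ν₁ / 16 * (640 * π * ν₁) := by ring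
      have h6 : ν₁ / 16 * (640 * π * ν₁) ≤ ν₁ / 16 * c1 :=
        mul_le_mul_of_nonneg_left hνc (by positivity)
      nlinarith only [hπ, hI1, h6]

end Pool.Agent.Helper17.G5
end

/- Helper24.K6w.H17.G5.Main5 -/
section
/-!
# G5: the key inequality, final forms
-/

set_option autoImplicit false
set_option linter.unusedVariables false

namespace Pool.Agent.Helper17.G5

open MeasureTheory Set Metric
open scoped Real
open Pool.Agent.Helper17.G3
open Pool.Agent.Helper33.G5 (Tw)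

/-- the key inequality in the `w`-plane -/
theorem keyW {k : ℂ → ℝ} {V : Set ℂ} {Lk ρ kinf c1 c2 e2 m1 : ℝ}
    (hW : Tw V k Lk ρ kinf c1 c2 e2 m1) (hV : ∀ v ∈ V, ‖v‖ = 1) {A : ℝ} (hA : 1 ≤ A) :
    ∃ lam c0 m0 d0 : ℝ, 0 < lam ∧ lam ≤ 1 ∧ 0 < c0 ∧ c0 ≤ 1 / 2 ∧ 0 < m0 ∧ m0 ≤ 1 ∧ 0 < d0 ∧
      d0 ≤ 1 / 4 ∧ d0 * (2 + A) ≤ 1 ∧ ∀ v ∈ V, ∀ d : ℝ, 0 < d → d ≤ d0 → ∀ m : ℝ, 0 < m → m ≤ m0 →
      ∀ ζ : ℂ, ζ ≠ 0 → ∃ ν₁ : ℝ, 0 ≤ ν₁ ∧ ν₁ ≤ 1 ∧ ∃ H : ℂ → ℝ, Measurable H ∧ Integrable H ∧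
        (∀ y, 0 ≤ H y) ∧ (∀ y, 11 + ρ ≤ ‖y‖ → H y = 0) ∧
        (∀ y : ℂ, 4 * m ≤ ‖y‖ →
          hk y - 1 / 2 + mu k ν₁ ζ y + sh k m lam v ζ y + er A d m y ≤ H y) ∧
        ∫ y, H y ≤ (1 - c0) * (π / 2) := by
  have hLk := hW.hL
  have hρ := hW.hρ
  have hc1 := hW.hc1
  have hc2 := hW.hc2
  have hm1 := hW.hm1
  have hπ := Real.pi_pos
  have hπ4 := Real.pi_lt_d2
  obtain ⟨ν₁, hν, hν1, hνc⟩ : ∃ ν₁ : ℝ, 0 < ν₁ ∧ ν₁ ≤ 1 / 32 ∧ 640 * π * ν₁ ≤ c1 := by
    refine ⟨min (1 / 32) (c1 / (640 * π)), by (clear * - hc1; positivity), min_le_left _ _, ?_⟩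
    calc 640 * π * min (1 / 32) (c1 / (640 * π)) ≤ 640 * π * (c1 / (640 * π)) :=
          mul_le_mul_of_nonneg_left (min_le_right _ _) (by positivity)
      _ = c1 := by (clear * - hc1; field_simp)
  have hν1c : 0 < ν₁ * c1 := by (clear * - hν hc1; positivity)
  -- the constant `lam`
  set T : ℝ := 1 + 12 * Lk + 90 * π * Lk ^ 2 / c2 + Lk / (2 * ν₁) + 4 * π * Lk / (ν₁ * c1) +
    16 * π * (Lk * (1 + 2 * ρ) ^ 2) / (ν₁ * c1) with hT
  have t1 : 0 < 12 * Lk := by (clear * - hLk; positivity)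
  have t2 : 0 < 90 * π * Lk ^ 2 / c2 := by (clear * - hLk hc2; positivity)
  have t3 : 0 < Lk / (2 * ν₁) := by (clear * - hLk hν; positivity)
  have t4 : 0 < 4 * π * Lk / (ν₁ * c1) := by (clear * - hLk hν hc1; positivity)
  have t5 : 0 < 16 * π * (Lk * (1 + 2 * ρ) ^ 2) / (ν₁ * c1) := by (clear * - hLk hρ hν hc1; positivity)
  have hT0 : 0 < T := by (clear * - hLk hν hν1 t2 t3 t4 t5; linarith only [hLk, t2, t3, t4, t5])
  have hx : ∀ x y : ℝ, 0 < y → x / y ≤ T → 1 / T * x ≤ y := by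
    intro x y hy h
    rw [one_div, inv_mul_le_iff₀ hT0, mul_comm T y, ← div_le_iff₀' hy]
    exact h
  set lam : ℝ := 1 / T with hlam
  have hl : 0 < lam := by (clear * - hLk hc2 hν hc1 hρ; positivity)
  have hl1 : lam ≤ 1 := by
    rw [hlam, div_le_one hT0]
    (clear * - hLk t2 t3 t4 t5; linarith)
  have l1 : lam * Lk ≤ 1 / 12 := by
    have := hx (12 * Lk) 1 one_pos (by rw [div_one]; (clear * - hν hν1 t2 t3 t4 t5; linarith only [t2, t3, t4, t5]))
    (clear * - this; linarith only [this])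
  have l2 : 90 * π * (lam * Lk ^ 2) ≤ c2 := by
    have := hx (90 * π * Lk ^ 2) c2 hc2 (by (clear * - hLk hν hν1 t3 t4 t5; linarith only [hLk, t3, t4, t5]))
    (clear * - this; linarith only [this])
  have l3 : lam * Lk ≤ 2 * ν₁ := hx Lk (2 * ν₁) (by (clear * - hν; positivity)) (by (clear * - hLk hν hν1 t2 t4 t5; linarith))
  have l4 : 4 * π * (lam * Lk) ≤ ν₁ * c1 := by
    have := hx (4 * π * Lk) (ν₁ * c1) hν1c (by linarith only [t1, t2, t3, t5])
    (clear * - this; linarith)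
  have l5 : 16 * π * (lam * Lk * (1 + 2 * ρ) ^ 2) ≤ ν₁ * c1 := by
    have := hx (16 * π * (Lk * (1 + 2 * ρ) ^ 2)) (ν₁ * c1) hν1c (by (clear * - hLk hν hν1 t2 t3 t4; linarith only [hLk, t2, t3, t4]))
    (clear * - this; linarith)
  -- the gain
  obtain ⟨g, hg, hg1, hg2, hg3⟩ : ∃ g : ℝ, 0 < g ∧ g ≤ 1 ∧ g ≤ lam * c2 / 4 ∧ g ≤ ν₁ * c1 / 2 :=
    ⟨min 1 (min (lam * c2 / 4) (ν₁ * c1 / 2)), by (clear * - hLk hc2 hν hc1 hρ; positivity), min_le_left _ _,
      (min_le_right _ _).trans (min_le_left _ _), (min_le_right _ _).trans (min_le_right _ _)⟩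
  have hA9 : 9 ≤ (2 + A) ^ 2 := by (clear * - hA; nlinarith only [hA])
  set u : ℝ := g / (1200 * (2 + A) ^ 2) with hu
  have hu0 : 0 < u := by (clear * - hg hA; positivity)
  have hug : 1200 * (2 + A) ^ 2 * u = g := by
    rw [hu]
    (clear * - hA hg; field_simp)
  have hu1 : (2 + A) ^ 2 * u ≤ 1 / 1200 := by (clear * - hg1 hug; linarith)
  have hu2 : u ≤ 1 / 1200 / 9 := by
    rw [le_div_iff₀ (by norm_num)]
    (clear * - hg1 hug hA9 hu0; nlinarith)
  obtain ⟨m0, hm0, hm01, hm02, hm03, hm04⟩ : ∃ m0 : ℝ, 0 < m0 ∧ m0 ≤ 1 ∧ m0 ≤ m1 ∧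
      m0 ≤ u ∧ m0 ≤ u ^ 2 := by
    refine ⟨min 1 (min m1 (min u (u ^ 2))), by (clear * - hm1 hg hA; positivity), min_le_left _ _, ?_, ?_, ?_⟩
    · exact (min_le_right _ _).trans (min_le_left _ _)
    · exact (min_le_right _ _).trans ((min_le_right _ _).trans (min_le_left _ _))
    · exact (min_le_right _ _).trans ((min_le_right _ _).trans (min_le_right _ _))
  refine ⟨lam, g / 4, m0, u, hl, hl1, by (clear * - hg; positivity), by (clear * - hg1 hu0 hu2; linarith), hm0, hm01,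
    hu0, by (clear * - hu0 hu2; linarith only [hu2]), ?_, ?_⟩
  · (clear * - hg1 hA9 hu0 hug hu2 hA; nlinarith only [hA, hg1, hug])
  intro v hv d hd hd0 m hm hmm ζ hζ
  have hs2 : m ^ (1 / 2 : ℝ) ≤ u := by
    calc m ^ (1 / 2 : ℝ) ≤ (u ^ 2) ^ (1 / 2 : ℝ) :=
          Real.rpow_le_rpow (by (clear * - hm; positivity)) (by (clear * - hm04 hmm; linarith)) (by norm_num)
      _ = u := by
          rw [← Real.rpow_natCast, ← Real.rpow_mul hu0.le]
          norm_num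
  have hdm : (2 + A) ^ 2 * (d + m) ≤ 1 := by
    have : (2 + A) ^ 2 * (d + m) ≤ (2 + A) ^ 2 * (u + u) :=
      mul_le_mul_of_nonneg_left (by (clear * - hm03 hd0 hmm; linarith only [hm03, hd0, hmm])) (by (clear * - hA; positivity))
    (clear * - hg1 hu0 hug hu2 this; linarith only [hg1, hug, this])
  have hfin : ∀ G : ℝ, g ≤ G → π / 2 - G + 300 * (2 + A) ^ 2 * (d + m ^ (1 / 2 : ℝ)) ≤
      (1 - g / 4) * (π / 2) := by
    intro G hG
    have e1 : 300 * (2 + A) ^ 2 * (d + m ^ (1 / 2 : ℝ)) ≤ 300 * (2 + A) ^ 2 * (u + u) :=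
      mul_le_mul_of_nonneg_left (by (clear * - hd0 hs2; linarith)) (by positivity)
    (clear * - hg hug hG e1 hπ4 hπ; nlinarith only [hπ4, hg, hug, hG, e1])
  rcases le_total ‖1 / ζ - 1‖ e2 with h | h
  · obtain ⟨H, g0, g1, g2', g3', g4, g5⟩ := case_good hW hv (hV v hv) hA hd hm hdm (by (clear * - hm02 hmm; linarith)) hl
      l1 l2 hζ h (R := 11 + ρ) (by (clear * - hρ hu0 hu2; linarith only [hρ]))
    exact ⟨0, le_rfl, zero_le_one, H, g0, g1, g2', g3', g4, g5.trans (hfin _ hg2)⟩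
  · obtain ⟨H, g0, g1, g2', g3', g4, g5⟩ := case_bad hW hv (hV v hv) hA hd hm hdm hl hν hν1 hνc l3
      l4 l5 hζ h (R := 11 + ρ) le_rfl
    exact ⟨ν₁, hν.le, by (clear * - hν1 hu0 hu2; linarith only [hν1]), H, g0, g1, g2', g3', g4, g5.trans (hfin _ hg3)⟩

/-- scaling by a complex number -/
theorem int_div (f : ℂ → ℝ) {a : ℂ} (ha : a ≠ 0) :
    ∫ z, f (z / a) = ‖a‖ ^ 2 * ∫ w, f w := by
  have hr : 0 < ‖a‖ := norm_pos_iff.mpr ha
  obtain ⟨u, hu⟩ : ∃ u : Circle, (u : ℂ) = a⁻¹ * (‖a‖ : ℂ) := by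
    refine ⟨⟨a⁻¹ * (‖a‖ : ℂ), ?_⟩, rfl⟩
    refine mem_sphere_zero_iff_norm.mpr ?_
    rw [norm_mul, norm_inv, Complex.norm_real, norm_norm]
    exact inv_mul_cancel₀ hr.ne'
  have h1 : ∀ z : ℂ, z / a = rotation u (‖a‖⁻¹ • z) := by
    intro z
    rw [rotation_apply, hu, Complex.real_smul, Complex.ofReal_inv]
    have : (‖a‖ : ℂ) ≠ 0 := Complex.ofReal_ne_zero.mpr hr.ne'
    (clear * - this ha; field_simp)
  simp only [h1]
  have h2 := Measure.integral_comp_inv_smul_of_nonneg (volume : Measure ℂ)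
    (fun z => f (rotation u z)) hr.le
  rw [h2, Complex.finrank_real_complex, smul_eq_mul]
  congr 1
  exact (rotation u).measurePreserving.integral_comp
    (rotation u).toHomeomorph.measurableEmbedding f

theorem integrable_div {f : ℂ → ℝ} (hf : Integrable f) {a : ℂ} (ha : a ≠ 0) :
    Integrable fun z => f (z / a) := by
  have hr : 0 < ‖a‖ := norm_pos_iff.mpr ha
  obtain ⟨u, hu⟩ : ∃ u : Circle, (u : ℂ) = a⁻¹ * (‖a‖ : ℂ) := by
    refine ⟨⟨a⁻¹ * (‖a‖ : ℂ), ?_⟩, rfl⟩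
    refine mem_sphere_zero_iff_norm.mpr ?_
    rw [norm_mul, norm_inv, Complex.norm_real, norm_norm]
    exact inv_mul_cancel₀ hr.ne'
  have h1 : ∀ z : ℂ, z / a = rotation u (‖a‖⁻¹ • z) := by
    intro z
    rw [rotation_apply, hu, Complex.real_smul, Complex.ofReal_inv]
    have : (‖a‖ : ℂ) ≠ 0 := Complex.ofReal_ne_zero.mpr hr.ne'
    (clear * - this ha; field_simp)
  simp only [h1]
  have h2 : Integrable fun z => f (rotation u z) :=
    ((rotation u).measurePreserving.integrable_comp_emb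
      (rotation u).toHomeomorph.measurableEmbedding).mpr hf
  exact h2.comp_smul (inv_ne_zero hr.ne')

/-- the key inequality in the `z`-plane -/
theorem keyZ {k : ℂ → ℝ} {V : Set ℂ} {Lk ρ kinf c1 c2 e2 m1 : ℝ}
    (hW : Tw V k Lk ρ kinf c1 c2 e2 m1) (hV : ∀ v ∈ V, ‖v‖ = 1) {A : ℝ} (hA : 1 ≤ A) :
    ∃ b c0 m0 B d0 Cc : ℝ, 0 < b ∧ b ≤ 1 ∧ 0 < c0 ∧ c0 ≤ 1 / 2 ∧ 0 < m0 ∧ m0 ≤ 1 ∧ 0 < B ∧
      0 < d0 ∧ d0 ≤ 1 / 4 ∧ 1 ≤ Cc ∧
      ∀ om : ℂ, (starRingEnd ℂ) om ∈ V → ∀ d : ℝ, 0 < d → d ≤ d0 → ∀ m : ℝ, 0 < m → m ≤ m0 →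
      ∀ s : ℂ, s ≠ 0 → ∀ ζ : ℂ, ζ ≠ 0 →
      ∃ ν : ℝ, 0 ≤ ν ∧ ν ≤ B * m ∧ ∃ H : ℂ → ℝ, Measurable H ∧ Integrable H ∧ (∀ z, 0 ≤ H z) ∧
        (∀ z : ℂ, 2 * ‖s‖ ≤ ‖z‖ →
          Real.exp (d * ((om * s / z).re + A * (‖s‖ ^ 2 / ‖z‖ ^ 2))) *
              (1 - d * b * k ((z - s) / ζ)) -
            Real.exp (d * m) * (1 - d * b * k (z / ζ)) +
            ν * (d * b) * (k (z / ζ) - k (z / (om * s / (2 * m)))) ≤ d * H z) ∧
        (∀ z : ℂ, Cc * ‖s‖ / m ≤ ‖z‖ → H z = 0) ∧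
        ∫ z, H z ≤ (1 - c0) * (π * ‖s‖ ^ 2 / (4 * m)) := by
  obtain ⟨lam, c0, m0, d0, hl, hl1, hc0, hc01, hm0, hm01, hd0, hd01, hdA, key⟩ := keyW hW hV hA
  have hρ := hW.hρ
  refine ⟨lam, c0, m0, 2 / lam, d0, 11 + ρ, hl, hl1, hc0, hc01, hm0, hm01, by (clear * - hl; positivity), hd0, hd01,
    by (clear * - hd0 hd01 hρ; linarith only [hρ]), ?_⟩
  intro om hom d hd hd1 m hm hm1 s hs ζ hζ
  set v := (starRingEnd ℂ) om with hv
  have hvn : ‖v‖ = 1 := hV v hom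
  have homn : ‖om‖ = 1 := by
    rw [hv, Complex.norm_conj] at hvn
    exact hvn
  have hov : om * v = 1 := by
    rw [hv, Complex.mul_conj, Complex.normSq_eq_norm_sq, homn]
    norm_num
  have hom0 : om ≠ 0 := by
    rw [← norm_pos_iff, homn]
    exact one_pos
  have hmc : (m : ℂ) ≠ 0 := Complex.ofReal_ne_zero.mpr hm.ne'
  set a : ℂ := om * s / (2 * m) with ha
  have ha0 : a ≠ 0 := div_ne_zero (mul_ne_zero hom0 hs) (mul_ne_zero two_ne_zero hmc)
  have han : ‖a‖ = ‖s‖ / (2 * m) := by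
    rw [ha, norm_div, norm_mul, norm_mul, homn, one_mul, Complex.norm_real, Real.norm_eq_abs,
      abs_of_pos hm, Complex.norm_ofNat]
  have hsn : 0 < ‖s‖ := norm_pos_iff.mpr hs
  have hsa : s = a * (((2 * m : ℝ) : ℂ) * v) := by
    rw [ha]
    push_cast
    field_simp
    exact hov.symm
  obtain ⟨ν₁, hν, hν1, H, g0, g1, g2, g3, g4, g5⟩ := key v hom d hd hd1 m hm hm1 (ζ / a)
    (div_ne_zero hζ ha0)
  refine ⟨ν₁ * (2 * m) / lam, by (clear * - hν hm hl; positivity), ?_, fun z => 2 * m * H (z / a), ?_, ?_, ?_, ?_, ?_, ?_⟩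
  · have : ν₁ * (2 * m) / lam ≤ 1 * (2 * m) / lam := by (clear * - hν1 hm hl; gcongr)
    refine this.trans (le_of_eq ?_)
    ring
  · exact (g0.comp (measurable_id.div_const a)).const_mul _
  · exact (integrable_div g1 ha0).const_mul _
  · intro z
    have := g2 (z / a)
    (clear * - hm this; positivity)
  · intro z hz
    have hz0 : 0 < ‖z‖ := by (clear * - hsn hz; linarith only [hsn, hz])
    have hz0' : z ≠ 0 := norm_pos_iff.mp hz0
    set w := z / a with hw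
    have hwn : ‖w‖ = 2 * m * ‖z‖ / ‖s‖ := by
      rw [hw, norm_div, han]
      (clear * - hm hs hz0'; field_simp)
    have hw4 : 4 * m ≤ ‖w‖ := by
      rw [hwn, le_div_iff₀ hsn]
      (clear * - hd0 hd01 hm hz; nlinarith only [hm, hz])
    have hw0 : 0 < ‖w‖ := by (clear * - hm hw4; linarith)
    have hw0' : w ≠ 0 := norm_pos_iff.mp hw0
    have e1 : z / ζ = w / (ζ / a) := by
      rw [hw]
      (clear * - ha0 hζ hz0'; field_simp)
    have e2 : (z - s) / ζ = (w - ((2 * m : ℝ) : ℂ) * v) / (ζ / a) := by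
      rw [hw]
      nth_rewrite 1 [hsa]
      (clear * - ha0 hζ; field_simp)
    have e3 : (om * s / z).re + A * (‖s‖ ^ 2 / ‖z‖ ^ 2) =
        2 * m * hk w + A * (4 * m ^ 2 / ‖w‖ ^ 2) := by
      have e4 : om * s / z = ((2 * m : ℝ) : ℂ) * w⁻¹ := by
        rw [hw, ha]
        push_cast
        (clear * - hmc hz0' hs hom0; field_simp)
      have e5 : hk w = (w⁻¹).re := by
        rw [hk, Complex.inv_re, Complex.normSq_eq_norm_sq]
      rw [e4, Complex.re_ofReal_mul, e5, hwn]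
      congr 2
      field_simp
      ring
    have h1 := pt hA hd (by (clear * - hdA hd1 hA; nlinarith only [hA, hdA, hd1])) hm hl.le hl1 (hW.bd (w / (ζ / a)))
      (hW.bd ((w - ((2 * m : ℝ) : ℂ) * v) / (ζ / a))) hw4
    have h2 := g4 w hw4
    rw [e1, e2, e3]
    have h3 : ν₁ * (2 * m) / lam * (d * lam) * (k (w / (ζ / a)) - k w) =
        d * (2 * m) * mu k ν₁ (ζ / a) w := by
      rw [mu]
      (clear * - hl hd hm; field_simp)
    rw [h3]
    have h4 : d * (2 * m) * (hk w - 1 / 2 + mu k ν₁ (ζ / a) w + sh k m lam v (ζ / a) w +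
        er A d m w) ≤ d * (2 * m) * H w := mul_le_mul_of_nonneg_left h2 (by (clear * - hd hm; positivity))
    have h5 : d * (2 * m) * (hk w - 1 / 2 + lam / (2 * m) * (k (w / (ζ / a)) -
        k ((w - ((2 * m : ℝ) : ℂ) * v) / (ζ / a))) +
        (2 * A * m / ‖w‖ ^ 2 + d * ((2 + A) ^ 2 / 2 * (1 / ‖w‖) + 1 / 2))) +
        d * (2 * m) * mu k ν₁ (ζ / a) w = d * (2 * m) * (hk w - 1 / 2 + mu k ν₁ (ζ / a) w +
          sh k m lam v (ζ / a) w + er A d m w) := by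
      rw [sh, er]
      ring
    (clear * - h1 h4 h5; linarith)
  · intro z hz
    have : H (z / a) = 0 := by
      refine g3 _ ?_
      rw [norm_div, han, le_div_iff₀ (by (clear * - hs hm; positivity))]
      rw [div_le_iff₀ hm] at hz
      have : (11 + ρ) * (‖s‖ / (2 * m)) = (11 + ρ) * ‖s‖ / (2 * m) := by ring
      rw [this, div_le_iff₀ (by (clear * - hm; positivity))]
      (clear * - hz hd0 hsn hd01 hρ; nlinarith only [hρ, hsn, hz])
    show 2 * m * H (z / a) = 0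
    rw [this, mul_zero]
  · rw [integral_const_mul, int_div H ha0, han]
    calc 2 * m * ((‖s‖ / (2 * m)) ^ 2 * ∫ w, H w) ≤
        2 * m * ((‖s‖ / (2 * m)) ^ 2 * ((1 - c0) * (π / 2))) := by
          refine mul_le_mul_of_nonneg_left ?_ (by (clear * - hm; positivity))
          exact mul_le_mul_of_nonneg_left g5 (by (clear * - hs hm; positivity))
      _ = (1 - c0) * (π * ‖s‖ ^ 2 / (4 * m)) := by
          field_simp
          ring

end Pool.Agent.Helper17.G5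
end

/- Helper24.K6w.H33.G5.Inst -/
section
/-!
# G5: the two templates
-/

set_option autoImplicit false

namespace Pool.Agent.Helper33.G5

open MeasureTheory Set
open scoped Real
open Pool.Agent.Helper33.G3

/-- the directions -/
def Vs (e₀ σ : ℝ) : Set ℂ := {v | ‖v‖ = 1 ∧ e₀ ≤ σ * v.re}

theorem Vs_compact (e₀ σ : ℝ) : IsCompact (Vs e₀ σ) := by
  refine (isCompact_closedBall (0:ℂ) 1).of_isClosed_subset ?_ ?_
  · exact (isClosed_eq continuous_norm continuous_const).inter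
      (isClosed_le continuous_const (continuous_const.mul Complex.continuous_re))
  · intro v hv
    rw [mem_closedBall_zero_iff]
    exact hv.1.le

/-! ### right half plane -/

theorem Pq_right : Pq kq gq where
  cont := by
    unfold kq
    fun_prop
  bl := by
    have x := BL_re
    have y := BL_im
    have x2 := x.mul x
    have y2 := y.mul y
    have e := (((((((((BL.const (-2)).add ((BL.const 4).mul x)).add ((BL.const (-25 / 6)).mul x2)).add
      ((BL.const (77 / 6)).mul y2)).add ((BL.const 2).mul (x2.mul x))).add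
      ((BL.const (-14)).mul (x.mul y2))).add ((BL.const (-12 / 5)).mul (x2.mul x2))).add
      ((BL.const (168 / 5)).mul (x2.mul y2))).add ((BL.const (-28)).mul (y2.mul y2)))
    refine (congrArg BL ?_).mp e
    funext z
    unfold kq
    ring
  disc := fun c r hr => disc_kq c hr
  abs := by
    intro X Y hX hY
    refine (kq_abs (T := 20) (by norm_num) hX hY).trans ?_
    unfold Bc
    norm_num
  abs5 := by
    intro X Y hX hY
    refine (kq_abs (T := 5) (by norm_num) hX hY).trans ?_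
    norm_num
  le := by
    intro a b
    rw [gq_eq]
    (clear * -; nlinarith only [])
  one := by
    unfold gq
    norm_num

/-- the difference quotient in terms of real parts -/
noncomputable def Dr (m a b α β R : ℝ) : ℝ :=
  4 * α - 25 / 6 * (2 * a * α + m * α ^ 2) + 77 / 6 * (2 * b * β + m * β ^ 2) +
    2 * (3 * a ^ 2 * α + 3 * a * m * α ^ 2 + m ^ 2 * α ^ 3 + 3 * α * R / 4) -
    14 * (α * (b ^ 2 + m * (2 * b * β + m * β ^ 2)) + a * (2 * b * β + m * β ^ 2) + α * R / 4) -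
    12 / 5 * ((2 * a * α + m * α ^ 2) * (2 * a ^ 2 + m * (2 * a * α + m * α ^ 2)) +
      3 / 2 * R * (2 * a * α + m * α ^ 2)) +
    168 / 5 * ((2 * a * α + m * α ^ 2) * b ^ 2 + a ^ 2 * (2 * b * β + m * β ^ 2) +
      m * (2 * a * α + m * α ^ 2) * (2 * b * β + m * β ^ 2) +
      R / 4 * ((2 * a * α + m * α ^ 2) + (2 * b * β + m * β ^ 2))) -
    28 * ((2 * b * β + m * β ^ 2) * (2 * b ^ 2 + m * (2 * b * β + m * β ^ 2)) +
      3 / 2 * R * (2 * b * β + m * β ^ 2))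

theorem Dr_eq (m a b α β R : ℝ) :
    gq (a + m * α) (b + m * β) R - gq a b R = m * Dr m a b α β R := by
  unfold gq Dr
  ring

/-- the shifted centre -/
theorem shift_re (m : ℝ) (c v : ℂ) :
    ((1 - ((2 * m : ℝ) : ℂ) * v) * c).re = c.re + m * (-2 * (v.re * c.re - v.im * c.im)) := by
  simp only [Complex.mul_re, Complex.sub_re, Complex.one_re, Complex.ofReal_re, Complex.ofReal_im,
    Complex.sub_im, Complex.one_im, Complex.mul_im]
  ring

theorem shift_im (m : ℝ) (c v : ℂ) :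
    ((1 - ((2 * m : ℝ) : ℂ) * v) * c).im = c.im + m * (-2 * (v.re * c.im + v.im * c.re)) := by
  simp only [Complex.mul_re, Complex.sub_re, Complex.one_re, Complex.ofReal_re, Complex.ofReal_im,
    Complex.sub_im, Complex.one_im, Complex.mul_im]
  ring

theorem exists_right {e₀ : ℝ} (he : 0 < e₀) :
    ∃ (k : ℂ → ℝ) (Lk ρ kinf c1 c2 e2 m1 : ℝ), Tw (Vs e₀ 1) k Lk ρ kinf c1 c2 e2 m1 := by
  refine tw_of Pq_right (Vs_compact e₀ 1) (fun v hv => hv.1) (D := fun m c v =>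
    Dr m c.re c.im (-2 * (v.re * c.re - v.im * c.im)) (-2 * (v.re * c.im + v.im * c.re))
      (c.re ^ 2 + c.im ^ 2)) ?_ ?_ (κ := e₀ / 2) (by (clear * - he; linarith only [he])) ?_
  · unfold Dr
    fun_prop
  · intro m c v
    rw [shift_re, shift_im, Dr_eq]
  · intro v hv
    have h := hv.2
    simp only [Complex.one_re, Complex.one_im]
    unfold Dr
    linarith only [he, h]

/-! ### left half plane -/

/-- the quadratic template -/
noncomputable def kl (X Y : ℝ) : ℝ := 3 / 4 - (X - 3 / 2) ^ 2 - Y ^ 2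

/-- its average -/
noncomputable def gl (a b R : ℝ) : ℝ := 3 / 4 - (a - 3 / 2) ^ 2 - b ^ 2 - R / 2

theorem kl_cont (a b : ℝ) : Continuous fun z : ℂ => kl (a + z.re) (b + z.im) := by
  unfold kl
  fun_prop

theorem disc_kl0 (a b : ℝ) {r : ℝ} (hr : 0 < r) :
    ∫ z in Metric.ball (0:ℂ) r, kl (a + z.re) (b + z.im) = π * r ^ 2 * gl a b (r ^ 2) := by
  rw [disc_polar (kl_cont a b) hr]
  have h1 : ∀ ρ : ℝ, ∫ θ in (-π)..π, ρ * kl (a + ρ * Real.cos θ) (b + ρ * Real.sin θ) =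
      2 * π * ρ * (3 / 4 - (a - 3 / 2) ^ 2 - b ^ 2 - ρ ^ 2) := by
    intro ρ
    have h2 := tr_int (ρ * kl a b) (-(2 * (a - 3 / 2) * ρ ^ 2)) (-(2 * b * ρ ^ 2)) (-ρ ^ 3) 0
      (-ρ ^ 3) 0 0 0 0 0 0 0 0 0
    have h3 : ∀ x : ℝ, ρ * kl (a + ρ * Real.cos x) (b + ρ * Real.sin x) =
        (ρ * kl a b) + (-(2 * (a - 3 / 2) * ρ ^ 2)) * Real.cos x +
      (-(2 * b * ρ ^ 2)) * Real.sin x + (-ρ ^ 3) * Real.cos x ^ 2 +
      0 * (Real.cos x * Real.sin x) + (-ρ ^ 3) * Real.sin x ^ 2 + 0 * Real.cos x ^ 3 +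
      0 * (Real.cos x ^ 2 * Real.sin x) + 0 * (Real.cos x * Real.sin x ^ 2) +
      0 * Real.sin x ^ 3 + 0 * Real.cos x ^ 4 + 0 * (Real.cos x ^ 3 * Real.sin x) +
      0 * (Real.cos x ^ 2 * Real.sin x ^ 2) +
      0 * (Real.cos x * Real.sin x ^ 3) + 0 * Real.sin x ^ 4 := by
      intro x
      unfold kl
      ring
    simp only [h3, h2]
    unfold kl
    ring
  have h4 : ∀ ρ : ℝ, ∫ θ in (-π)..π, ρ * kl (a + (⟨ρ * Real.cos θ, ρ * Real.sin θ⟩ : ℂ).re)
      (b + (⟨ρ * Real.cos θ, ρ * Real.sin θ⟩ : ℂ).im) = _ := fun ρ => h1 ρ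
  simp only [h4]
  have h5 : ∀ ρ ∈ uIcc (0:ℝ) r, HasDerivAt (fun ρ : ℝ => 2 * π * (
      ρ ^ 2 / 2 * (3 / 4 - (a - 3 / 2) ^ 2 - b ^ 2) - ρ ^ 4 / 4))
      (2 * π * ρ * (3 / 4 - (a - 3 / 2) ^ 2 - b ^ 2 - ρ ^ 2)) ρ := by
    intro ρ _
    have e := ((((hasDerivAt_pow 2 ρ).div_const 2).mul_const
      (3 / 4 - (a - 3 / 2) ^ 2 - b ^ 2)).sub ((hasDerivAt_pow 4 ρ).div_const 4)).const_mul (2 * π)
    refine HasDerivAt.congr_deriv e ?_
    push_cast
    ring
  rw [intervalIntegral.integral_eq_sub_of_hasDerivAt h5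
    ((by fun_prop : Continuous _).intervalIntegrable _ _)]
  unfold gl
  ring

theorem disc_kl (c : ℂ) {r : ℝ} (hr : 0 < r) :
    ∫ z in Metric.ball c r, kl z.re z.im = π * r ^ 2 * gl c.re c.im (r ^ 2) := by
  rw [← disc_kl0 c.re c.im hr]
  have h := (measurePreserving_add_left (volume : Measure ℂ) c).setIntegral_preimage_emb
    (MeasurableEquiv.addLeft c).measurableEmbedding (fun z : ℂ => kl z.re z.im)
    (Metric.ball c r)
  rw [← h]
  have e : (fun x => c + x) ⁻¹' Metric.ball c r = Metric.ball (0:ℂ) r := by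
    ext x
    simp
  rw [e]
  rfl

theorem kl_abs {X Y T : ℝ} (hX : |X| ≤ T) (hY : |Y| ≤ T) : |kl X Y| ≤ 3 + 3 * T + 2 * T ^ 2 := by
  have x2 : X ^ 2 ≤ T ^ 2 := by rw [← sq_abs]; exact pow_le_pow_left₀ (abs_nonneg _) hX 2
  have y2 : Y ^ 2 ≤ T ^ 2 := by rw [← sq_abs]; exact pow_le_pow_left₀ (abs_nonneg _) hY 2
  have x0 := sq_nonneg X
  have y0 := sq_nonneg Y
  obtain ⟨x1, x1'⟩ := abs_le.1 hX
  unfold kl
  rw [abs_le]
  constructor <;> nlinarith only [y2, x1, x1']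

theorem Pq_left : Pq kl gl where
  cont := by
    unfold kl
    fun_prop
  bl := by
    have x := BL_re
    have y := BL_im
    have e := (((BL.const (-3 / 2)).add ((BL.const 3).mul x)).add
      ((BL.const (-1)).mul (x.mul x))).add ((BL.const (-1)).mul (y.mul y))
    refine (congrArg BL ?_).mp e
    funext z
    unfold kl
    ring
  disc := fun c r hr => disc_kl c hr
  abs := by
    intro X Y hX hY
    refine (kl_abs hX hY).trans ?_
    unfold Bc
    norm_num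
  abs5 := by
    intro X Y hX hY
    refine (kl_abs hX hY).trans ?_
    norm_num
  le := by
    intro a b
    unfold gl
    (clear * -; nlinarith only [])
  one := by
    unfold gl
    norm_num

theorem exists_left {e₀ : ℝ} (he : 0 < e₀) :
    ∃ (k : ℂ → ℝ) (Lk ρ kinf c1 c2 e2 m1 : ℝ), Tw (Vs e₀ (-1)) k Lk ρ kinf c1 c2 e2 m1 := by
  refine tw_of Pq_left (Vs_compact e₀ (-1)) (fun v hv => hv.1) (D := fun m c v =>
    -(2 * (c.re - 3 / 2) * (-2 * (v.re * c.re - v.im * c.im)) +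
      m * (-2 * (v.re * c.re - v.im * c.im)) ^ 2) -
    (2 * c.im * (-2 * (v.re * c.im + v.im * c.re)) + m * (-2 * (v.re * c.im + v.im * c.re)) ^ 2))
    ?_ ?_ (κ := e₀) he ?_
  · fun_prop
  · intro m c v
    rw [shift_re, shift_im]
    unfold gl
    ring
  · intro v hv
    have h := hv.2
    simp only [Complex.one_re, Complex.one_im]
    linarith

/-- templates for both half planes -/
theorem exists_tw {e₀ : ℝ} (he : 0 < e₀) {σ : ℝ} (hσ : σ = 1 ∨ σ = -1) :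
    ∃ (k : ℂ → ℝ) (Lk ρ kinf c1 c2 e2 m1 : ℝ), Tw (Vs e₀ σ) k Lk ρ kinf c1 c2 e2 m1 := by
  rcases hσ with h | h
  · rw [h]
    exact exists_right he
  · rw [h]
    exact exists_left he

end Pool.Agent.Helper33.G5
end

/- Helper24.K6w.H12.G6.Templ6 -/
section
/-!
# One template for all directions in the right half plane

The quartic template of G5 (`Pq_right`), with the lower bounds in a form which is uniform in the
direction.
-/

set_option autoImplicit false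

namespace Pool.Agent.Helper12.G6

open MeasureTheory Set
open scoped Real
open Pool.Agent.Helper33.G3 Pool.Agent.Helper33.G5

/-- one template for all directions -/
structure Tu (k : ℂ → ℝ) (Lk ρ kinf c1 c2 C2 : ℝ) : Prop where
  meas : Measurable k
  bd : ∀ z, |k z| ≤ 1
  lip : ∀ z z', |k z - k z'| ≤ Lk * ‖z - z'‖
  far : ∀ z, ρ ≤ ‖z‖ → k z = kinf
  hL : 0 < Lk
  hρ : 0 < ρ
  hc1 : 0 < c1
  hc2 : 0 < c2
  hC2 : 0 ≤ C2
  F1 : ∀ ζ : ℂ, ζ ≠ 0 → ∀ e : ℝ, 0 ≤ e → e ≤ 1 → e ≤ ‖1 / ζ - 1‖ →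
    ∫ z in Metric.ball (1 : ℂ) 1, (k (z / ζ) - k z) ≤ -(c1 * e ^ 2)
  F2 : ∀ v : ℂ, ‖v‖ = 1 → ∀ ζ : ℂ, ζ ≠ 0 → ‖1 / ζ - 1‖ ≤ 1 / 2 → ∀ m : ℝ, 0 < m → m ≤ 1 / 12 →
    (c2 * v.re - C2 * (m + ‖1 / ζ - 1‖)) * m ≤
      ∫ z in Metric.ball (1 : ℂ) 1, (k ((z - ((2 * m : ℝ) : ℂ) * v) / ζ) - k (z / ζ))

/-- the difference quotient in real coordinates -/
noncomputable def Df (p : ℝ × ℝ × ℝ × ℝ × ℝ) : ℝ :=
  Dr p.1 p.2.1 p.2.2.1 (-2 * (p.2.2.2.1 * p.2.1 - p.2.2.2.2 * p.2.2.1))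
    (-2 * (p.2.2.2.1 * p.2.2.1 + p.2.2.2.2 * p.2.1)) (p.2.1 ^ 2 + p.2.2.1 ^ 2)

theorem Df_smooth : ContDiff ℝ 1 Df := by
  unfold Df Dr
  fun_prop

theorem Df_lip : ∃ C : ℝ, 0 ≤ C ∧ ∀ m a b x y : ℝ, |m| ≤ 2 → |a| ≤ 2 → |b| ≤ 2 → |x| ≤ 2 →
    |y| ≤ 2 → |Df (m, a, b, x, y) - Df (0, 1, 0, x, y)| ≤ C * max |m| (max |a - 1| |b|) := by
  obtain ⟨C, hC⟩ := (isCompact_closedBall (0 : ℝ × ℝ × ℝ × ℝ × ℝ) 2).exists_bound_of_continuousOn
    (Df_smooth.continuous_fderiv (by norm_num)).continuousOn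
  refine ⟨max C 0, le_max_right _ _, fun m a b x y hm ha hb hx hy => ?_⟩
  have h1 : (m, a, b, x, y) ∈ Metric.closedBall (0 : ℝ × ℝ × ℝ × ℝ × ℝ) 2 := by
    rw [mem_closedBall_zero_iff]
    simp only [Prod.norm_mk, Real.norm_eq_abs, max_le_iff]
    exact ⟨hm, ha, hb, hx, hy⟩
  have h2 : ((0 : ℝ), (1 : ℝ), (0 : ℝ), x, y) ∈ Metric.closedBall (0 : ℝ × ℝ × ℝ × ℝ × ℝ) 2 := by
    rw [mem_closedBall_zero_iff]
    simp only [Prod.norm_mk, Real.norm_eq_abs, max_le_iff]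
    refine ⟨by norm_num, by norm_num, by norm_num, hx, hy⟩
  have h3 := (convex_closedBall (0 : ℝ × ℝ × ℝ × ℝ × ℝ) 2).norm_image_sub_le_of_norm_fderiv_le
    (fun z _ => (Df_smooth.differentiable (by norm_num)).differentiableAt) (C := max C 0)
    (fun z hz => (hC z hz).trans (le_max_left _ _)) h2 h1
  rw [Real.norm_eq_abs] at h3
  refine h3.trans (le_of_eq ?_)
  congr 1
  simp only [Prod.mk_sub_mk, sub_zero, sub_self, Prod.norm_mk, Real.norm_eq_abs]
  rw [norm_zero, max_eq_left (abs_nonneg b)]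

theorem Df_one (x y : ℝ) : Df (0, 1, 0, x, y) = 2 / 3 * x := by
  unfold Df Dr
  ring

theorem exists_tu : ∃ (k : ℂ → ℝ) (Lk ρ kinf c1 c2 C2 : ℝ), Tu k Lk ρ kinf c1 c2 C2 := by
  have hP := Pq_right
  obtain ⟨M₀, L₀, hM₀, hL₀, hM, hL⟩ := BL_kV hP
  obtain ⟨C, hC0, hC⟩ := Df_lip
  have hπ := Real.pi_pos
  obtain ⟨M, hMd⟩ : ∃ M : ℝ, M = M₀ + 1 := ⟨_, rfl⟩
  have hM1 : 0 < M := by linarith only [hM₀, hMd]
  have hcont : Continuous (kV kq) := (BL_kV hP).cont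
  have hone : ∫ z in Metric.ball (1:ℂ) 1, kV kq z = 0 := by
    rw [int_kV_eq hP one_pos (by norm_num)]
    simp only [Complex.one_re, Complex.one_im]
    rw [one_pow, hP.one, mul_zero]
  refine ⟨fun z => M⁻¹ * kV kq z, M⁻¹ * (L₀ + 1), 5, M⁻¹ * -Bc, M⁻¹ * π, M⁻¹ * (π * (2 / 3)),
    M⁻¹ * (π * C), ⟨?_, ?_, ?_, ?_, ?_, ?_, ?_, ?_, ?_, ?_, ?_⟩⟩
  · exact (continuous_const.mul hcont).measurable
  · intro z
    rw [abs_mul, abs_of_pos (inv_pos.2 hM1), inv_mul_le_one₀ hM1]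
    exact (hM z).trans (by (clear * - hMd; linarith only [hMd]))
  · intro z w
    rw [← mul_sub, abs_mul, abs_of_pos (inv_pos.2 hM1), mul_assoc]
    refine mul_le_mul_of_nonneg_left ?_ (inv_pos.2 hM1).le
    refine (hL z w).trans ?_
    have := norm_nonneg (z - w)
    linarith only [this]
  · intro z hz
    show M⁻¹ * kV kq z = _
    rw [kV_far hz]
  · (clear * - hM1 hL₀; positivity)
  · norm_num
  · (clear * - hM1; positivity)
  · positivity
  · (clear * - hM1 hC0; positivity)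
  · intro ζ hζ e he he1 h
    have hc : (1 / ζ) ≠ 0 := one_div_ne_zero hζ
    have e1 : ∀ z : ℂ, M⁻¹ * kV kq (z / ζ) - M⁻¹ * kV kq z =
        M⁻¹ * (kV kq ((z - 0) * (1 / ζ)) - kV kq z) := by
      intro z
      rw [sub_zero, mul_one_div]
      ring
    simp only [e1]
    have k1 : Continuous fun z : ℂ => kV kq ((z - 0) * (1 / ζ)) := hcont.comp (by fun_prop)
    rw [integral_const_mul, integral_sub (intOn k1 _ _) (intOn hcont _ _), hone, sub_zero,
      ball_scale hc]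
    have h1 := int_kV_le hP hc he he1 h
    have h2 : (1 - (0:ℂ)) * (1 / ζ) = 1 / ζ := by ring
    rw [h2, mul_assoc, ← mul_neg]
    refine mul_le_mul_of_nonneg_left ?_ (inv_pos.2 hM1).le
    have hn : 0 < ‖1 / ζ‖ := norm_pos_iff.2 hc
    rw [inv_mul_le_iff₀ (by positivity)]
    linarith only [h1]
  · intro v hv ζ hζ h m hm hm4
    have hc : (1 / ζ) ≠ 0 := one_div_ne_zero hζ
    obtain ⟨c, hcd⟩ : ∃ c : ℂ, c = 1 / ζ := ⟨_, rfl⟩
    rw [← hcd] at h hc
    rw [← hcd]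
    have e1 : ∀ z : ℂ, M⁻¹ * kV kq ((z - ((2 * m : ℝ) : ℂ) * v) / ζ) - M⁻¹ * kV kq (z / ζ) =
        M⁻¹ * (kV kq ((z - ((2 * m : ℝ) : ℂ) * v) * c) - kV kq ((z - 0) * c)) := by
      intro z
      rw [sub_zero, hcd, mul_one_div, mul_one_div]
      ring
    simp only [e1]
    have k1 : Continuous fun z : ℂ => kV kq ((z - ((2 * m : ℝ) : ℂ) * v) * c) :=
      hcont.comp (by fun_prop)
    have k2 : Continuous fun z : ℂ => kV kq ((z - 0) * c) := hcont.comp (by fun_prop)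
    rw [integral_const_mul, integral_sub (intOn k1 _ _) (intOn k2 _ _), ball_scale hc,
      ball_scale hc]
    have hn : 0 < ‖c‖ := norm_pos_iff.2 hc
    have hn1 : ‖c‖ ≤ 3 / 2 := by
      have := norm_add_le (c - 1) 1
      rw [sub_add_cancel, norm_one] at this
      (clear * - h this; linarith only [h, this])
    have h2 : (1 - (0:ℂ)) * c = c := by ring
    have h4 : ‖(1 - ((2 * m : ℝ) : ℂ) * v) * c‖ ≤ 7 / 6 * ‖c‖ := by
      rw [norm_mul]
      refine mul_le_mul_of_nonneg_right ?_ hn.le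
      refine (norm_sub_le _ _).trans ?_
      rw [norm_one, norm_mul, hv, Complex.norm_real, Real.norm_eq_abs,
        abs_of_nonneg (by linarith only [hm])]
      (clear * - hm4; linarith)
    have h5 : ‖c‖ ^ 2 = c.re ^ 2 + c.im ^ 2 := by
      rw [← Complex.normSq_eq_norm_sq, Complex.normSq_apply]
      ring
    rw [h2, int_kV_eq hP hn (by linarith only [hn1, h4]), int_kV_eq hP hn (by linarith only [hn1])]
    rw [h5]
    have h6 : gq ((1 - ((2 * m : ℝ) : ℂ) * v) * c).re ((1 - ((2 * m : ℝ) : ℂ) * v) * c).im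
        (c.re ^ 2 + c.im ^ 2) - gq c.re c.im (c.re ^ 2 + c.im ^ 2) =
        m * Df (m, c.re, c.im, v.re, v.im) := by
      rw [shift_re, shift_im, Dr_eq]
      rfl
    have hv1 : |v.re| ≤ 1 := by rw [← hv]; exact Complex.abs_re_le_norm v
    have hv2 : |v.im| ≤ 1 := by rw [← hv]; exact Complex.abs_im_le_norm v
    have hc1 : |c.re| ≤ 3 / 2 := (Complex.abs_re_le_norm c).trans hn1
    have hc2 : |c.im| ≤ 3 / 2 := (Complex.abs_im_le_norm c).trans hn1
    have hc3 : |c.re - 1| ≤ ‖c - 1‖ := by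
      have := Complex.abs_re_le_norm (c - 1)
      rwa [Complex.sub_re, Complex.one_re] at this
    have hc4 : |c.im| ≤ ‖c - 1‖ := by
      have := Complex.abs_im_le_norm (c - 1)
      rwa [Complex.sub_im, Complex.one_im, sub_zero] at this
    have h7 : 2 / 3 * v.re - C * (m + ‖c - 1‖) ≤ Df (m, c.re, c.im, v.re, v.im) := by
      have e2 := hC m c.re c.im v.re v.im (by rw [abs_of_pos hm]; linarith only [hm4]) (by (clear * - hc1; linarith only [hc1]))
        (by linarith only [hc2]) (by linarith only [hv1]) (by linarith only [hv2])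
      rw [Df_one] at e2
      have e3 : max |m| (max |c.re - 1| |c.im|) ≤ m + ‖c - 1‖ := by
        refine max_le ?_ (max_le ?_ ?_)
        · rw [abs_of_pos hm]
          linarith only [norm_nonneg (c - 1)]
        · linarith only [hm, hc3]
        · linarith only [hm, hc4]
      have e4 := mul_le_mul_of_nonneg_left e3 hC0
      have e5 := (abs_le.1 e2).1
      (clear * - e4 e5; linarith only [e4, e5])
    have h8 : 0 < c.re ^ 2 + c.im ^ 2 := by rw [← h5]; positivity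
    rw [← mul_sub, ← mul_sub, h6]
    have h9 : (c.re ^ 2 + c.im ^ 2)⁻¹ * (π * (c.re ^ 2 + c.im ^ 2) *
        (m * Df (m, c.re, c.im, v.re, v.im))) = π * m * Df (m, c.re, c.im, v.re, v.im) := by
      (clear * - h8 hm; field_simp)
    rw [h9]
    have h10 : (M⁻¹ * (π * (2 / 3)) * v.re - M⁻¹ * (π * C) * (m + ‖c - 1‖)) * m =
        M⁻¹ * (π * m * (2 / 3 * v.re - C * (m + ‖c - 1‖))) := by ring
    rw [h10]
    refine mul_le_mul_of_nonneg_left ?_ (inv_pos.2 hM1).le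
    exact mul_le_mul_of_nonneg_left h7 (by (clear * - hm; positivity))

end Pool.Agent.Helper12.G6
end

/- Helper24.K6w.H12.G6.Key6 -/
section
/-!
# The key inequality, uniformly in the direction

The gain is a constant times the square of the real part of the direction.
-/

set_option autoImplicit false
set_option linter.unusedVariables false

namespace Pool.Agent.Helper12.G6

open MeasureTheory Set Metric
open scoped Real
open Pool.Agent.Helper17.G3
open Pool.Agent.Helper17.G5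

theorem con_mono {k : ℂ → ℝ} {A d m lam ν₁ : ℝ} {v ζ : ℂ} {R G G' : ℝ}
    (h : Con k A d m lam ν₁ v ζ R G) (hG : G' ≤ G) : Con k A d m lam ν₁ v ζ R G' := by
  obtain ⟨H, h0, h1, h2, h3, h4, h5⟩ := h
  exact ⟨H, h0, h1, h2, h3, h4, h5.trans (by linarith only [hG])⟩

theorem mu_le {k : ℂ → ℝ} {Lk ρ kinf c1 c2 C2 : ℝ} (hk : Tu k Lk ρ kinf c1 c2 C2) {ν₁ : ℝ}
    (hν : 0 ≤ ν₁) {ζ : ℂ} (hζ : ζ ≠ 0) (hg : ‖1 / ζ - 1‖ ≤ 1 / 2) (y : ℂ) :
    |mu k ν₁ ζ y| ≤ ν₁ * (2 * (Lk * ρ) * ‖1 / ζ - 1‖) := by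
  have hL := hk.hL
  have hρ := hk.hρ
  unfold mu
  rw [abs_mul, abs_of_nonneg hν]
  refine mul_le_mul_of_nonneg_left ?_ hν
  rcases le_or_gt ‖y‖ (2 * ρ) with h | h
  · refine (hk.lip _ _).trans ?_
    have e1 : y / ζ - y = y * (1 / ζ - 1) := by ring
    rw [e1, norm_mul]
    have e2 : Lk * (‖y‖ * ‖1 / ζ - 1‖) ≤ Lk * (2 * ρ * ‖1 / ζ - 1‖) :=
      mul_le_mul_of_nonneg_left (mul_le_mul_of_nonneg_right h (norm_nonneg _)) hL.le
    refine e2.trans (le_of_eq ?_)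
    ring
  · have e1 : 1 / 2 ≤ ‖1 / ζ‖ := by
      have h1 : (1 : ℂ) = 1 / ζ - (1 / ζ - 1) := by ring
      have h2 := norm_sub_le (1 / ζ) (1 / ζ - 1)
      rw [← h1, norm_one] at h2
      (clear * - hg h2; linarith only [hg, h2])
    have e2 : ρ ≤ ‖y / ζ‖ := by
      have h1 : y / ζ = y * (1 / ζ) := by ring
      rw [h1, norm_mul]
      have h2 : 2 * ρ * (1 / 2) ≤ ‖y‖ * ‖1 / ζ‖ :=
        mul_le_mul h.le e1 (by norm_num) (norm_nonneg _)
      linarith only [h2]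
    rw [hk.far _ e2, hk.far y (by linarith only [hρ, h]), sub_self, abs_zero]
    (clear * - hL hρ; positivity)

/-- template near its extremal position -/
theorem case_near {k : ℂ → ℝ} {Lk ρ kinf c1 c2 C2 : ℝ} (hk : Tu k Lk ρ kinf c1 c2 C2)
    {v : ℂ} (hv1 : ‖v‖ = 1) {e : ℝ} (he : e ≤ v.re) {A d m lam ν₁ : ℝ} (hA : 1 ≤ A) (hd : 0 < d)
    (hm : 0 < m) (hdm : (2 + A) ^ 2 * (d + m) ≤ 1) (hm12 : m ≤ 1 / 12) (hl : 0 < lam)
    (hν : 0 < ν₁) (hνL : ν₁ * (Lk * ρ) ≤ 1 / 16) (hlL : lam * Lk ≤ 1 / 24)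
    (hνc : 160 * π * (ν₁ * (Lk * ρ) ^ 2) ≤ c1)
    (hlK : lam * (C2 ^ 2 / (8 * (ν₁ * c1)) + 45 * π * Lk ^ 2) ≤ c2 * e / 8)
    (hmC : C2 * m ≤ c2 * e / 4) {ζ : ℂ} (hζ : ζ ≠ 0) (hg : ‖1 / ζ - 1‖ ≤ 1 / 2)
    {R : ℝ} (hR : 10 < R) :
    Con k A d m lam ν₁ v ζ R (lam * (c2 * e) / 4) := by
  have hL := hk.hL
  have hρ := hk.hρ
  have hc1 := hk.hc1
  have hc2 := hk.hc2
  have hC2 := hk.hC2
  have hπ := Real.pi_pos
  obtain ⟨r, hr⟩ : ∃ r : ℝ, r = ‖1 / ζ - 1‖ := ⟨_, rfl⟩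
  have hr0 : 0 ≤ r := by rw [hr]; exact norm_nonneg _
  have hz : ‖1 / ζ‖ ≤ 3 / 2 := by
    have h1 : 1 / ζ = (1 / ζ - 1) + 1 := by ring
    have h2 := norm_add_le (1 / ζ - 1) 1
    rw [← h1, norm_one] at h2
    (clear * - hg h2; linarith only [hg, h2])
  have hb : ∀ y, |mu k ν₁ ζ y + sh k m lam v ζ y| ≤
      ν₁ * (2 * (Lk * ρ) * r) + 3 / 2 * (lam * Lk) := by
    intro y
    refine (abs_add_le _ _).trans (add_le_add ?_ ?_)
    · rw [hr]
      exact mu_le hk hν.le hζ hg y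
    · calc _ ≤ lam * Lk * ‖1 / ζ‖ := sh_le hk.lip hm hl hv1 ζ y
        _ ≤ lam * Lk * (3 / 2) := mul_le_mul_of_nonneg_left hz (by positivity)
        _ = _ := by ring
  have i0 : IntegrableOn (fun y => k (y / ζ)) Dk :=
    int_sub_Dk (hk.meas.comp (measurable_id.div_const ζ)) fun y => hk.bd _
  have i1 : IntegrableOn k Dk := int_sub_Dk hk.meas hk.bd
  have i2 : IntegrableOn (fun y => k ((y - ((2 * m : ℝ) : ℂ) * v) / ζ)) Dk :=
    int_sub_Dk
      (hk.meas.comp ((measurable_id.sub_const _).div_const ζ)) fun y => hk.bd _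
  have i01 : IntegrableOn (mu k ν₁ ζ) Dk := (i0.sub i1).const_mul _
  have i02 : IntegrableOn (sh k m lam v ζ) Dk := (i0.sub i2).const_mul _
  have hI1 : ∫ y in Dk, mu k ν₁ ζ y ≤ -(ν₁ * (c1 * r ^ 2)) := by
    have h1 := hk.F1 ζ hζ r hr0 (by rw [hr]; (clear * - hg; linarith only [hg])) hr.le
    have h2 := mul_le_mul_of_nonneg_left h1 hν.le
    unfold mu
    rw [integral_const_mul]
    refine h2.trans (le_of_eq ?_)
    ring
  have hI2 : ∫ y in Dk, sh k m lam v ζ y ≤ -(lam / 2 * (c2 * e - C2 * (m + r))) := by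
    have h1 := hk.F2 v hv1 ζ hζ hg m hm hm12
    rw [← hr] at h1
    have h2 : ∀ y : ℂ, sh k m lam v ζ y =
        -(lam / (2 * m)) * (k ((y - ((2 * m : ℝ) : ℂ) * v) / ζ) - k (y / ζ)) := fun y => by
      rw [sh]
      ring
    simp only [h2]
    rw [integral_const_mul]
    have h6 : (c2 * e - C2 * (m + r)) * m ≤ (c2 * v.re - C2 * (m + r)) * m := by
      refine mul_le_mul_of_nonneg_right ?_ hm.le
      have := mul_le_mul_of_nonneg_left he hc2.le
      linarith only [this]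
    have h3 : lam / (2 * m) * ((c2 * e - C2 * (m + r)) * m) ≤ lam / (2 * m) *
        ∫ z in ball (1 : ℂ) 1, (k ((z - ((2 * m : ℝ) : ℂ) * v) / ζ) - k (z / ζ)) :=
      mul_le_mul_of_nonneg_left (h6.trans h1) (by positivity)
    have h4 : lam / (2 * m) * ((c2 * e - C2 * (m + r)) * m) = lam / 2 * (c2 * e - C2 * (m + r)) := by
      (clear * - hm hl; field_simp)
    have h5 : Dk = ball (1 : ℂ) 1 := rfl
    rw [h5]
    (clear * - h3 h4; linarith only [h3, h4])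
  have hI : ∫ y in Dk, (mu k ν₁ ζ y + sh k m lam v ζ y) ≤
      -(ν₁ * (c1 * r ^ 2)) - lam / 2 * (c2 * e - C2 * (m + r)) := by
    rw [integral_add i01 i02]
    linarith only [hI1, hI2]
  have hr2 : r ≤ 1 / 2 := by rw [hr]; exact hg
  have h0 := case_bdd hk.meas hA hd hm hdm v ζ
    (ν := ν₁ * (2 * (Lk * ρ) * r) + 3 / 2 * (lam * Lk)) (by (clear * - hν hL hρ hr0 hl; positivity)) (by
      have : ν₁ * (2 * (Lk * ρ) * r) = ν₁ * (Lk * ρ) * (2 * r) := by ring
      rw [this]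
      have h2 : ν₁ * (Lk * ρ) * (2 * r) ≤ ν₁ * (Lk * ρ) * 1 :=
        mul_le_mul_of_nonneg_left (by linarith only [hr2]) (by (clear * - hν hL hρ; positivity))
      linarith only [hνL, hlL, h2]) hb hI hR
  refine con_mono h0 ?_
  have hνc1 : 0 < ν₁ * c1 := by (clear * - hν hc1; positivity)
  -- the square
  have s1 : (ν₁ * (2 * (Lk * ρ) * r) + 3 / 2 * (lam * Lk)) ^ 2 ≤
      8 * (ν₁ * (Lk * ρ)) ^ 2 * r ^ 2 + 9 / 2 * (lam * Lk) ^ 2 := by
    linarith only [sq_nonneg (ν₁ * (2 * (Lk * ρ) * r) - 3 / 2 * (lam * Lk))]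
  have s2 : 10 * π * (ν₁ * (2 * (Lk * ρ) * r) + 3 / 2 * (lam * Lk)) ^ 2 ≤
      10 * π * (8 * (ν₁ * (Lk * ρ)) ^ 2 * r ^ 2 + 9 / 2 * (lam * Lk) ^ 2) :=
    mul_le_mul_of_nonneg_left s1 (by positivity)
  have s3 : 10 * π * (8 * (ν₁ * (Lk * ρ)) ^ 2 * r ^ 2 + 9 / 2 * (lam * Lk) ^ 2) =
      ν₁ * r ^ 2 / 2 * (160 * π * (ν₁ * (Lk * ρ) ^ 2)) + lam * (lam * (45 * π * Lk ^ 2)) := by
    ring
  have s4 : ν₁ * r ^ 2 / 2 * (160 * π * (ν₁ * (Lk * ρ) ^ 2)) ≤ ν₁ * r ^ 2 / 2 * c1 :=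
    mul_le_mul_of_nonneg_left hνc (by (clear * - hν; positivity))
  have s5 : lam * C2 / 2 * r ≤ ν₁ * c1 / 2 * r ^ 2 + lam * (lam * (C2 ^ 2 / (8 * (ν₁ * c1)))) := by
    have h1 : 0 ≤ ν₁ * c1 / 2 * (r - lam * C2 / (2 * (ν₁ * c1))) ^ 2 := by (clear * - hν hc1; positivity)
    have h2 : ν₁ * c1 / 2 * (r - lam * C2 / (2 * (ν₁ * c1))) ^ 2 =
        ν₁ * c1 / 2 * r ^ 2 - lam * C2 / 2 * r + lam * (lam * (C2 ^ 2 / (8 * (ν₁ * c1)))) := by
      field_simp
      ring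
    linarith only [h1, h2]
  have s6 : lam * (lam * (C2 ^ 2 / (8 * (ν₁ * c1)) + 45 * π * Lk ^ 2)) ≤ lam * (c2 * e / 8) :=
    mul_le_mul_of_nonneg_left hlK hl.le
  have s7 : lam / 2 * (C2 * m) ≤ lam / 2 * (c2 * e / 4) :=
    mul_le_mul_of_nonneg_left hmC (by positivity)
  (clear * - s2 s4 s5 s6 s7; linarith only [s2, s4, s5, s6, s7])

/-- template far from its extremal position -/
theorem case_far {k : ℂ → ℝ} {Lk ρ kinf cc c2 C2 : ℝ}
    (hk : Tu k Lk ρ kinf cc c2 C2) {c1 : ℝ} (hc1 : 0 < c1)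
    {v : ℂ} (hv1 : ‖v‖ = 1)
    {A d m lam ν₁ : ℝ} (hA : 1 ≤ A) (hd : 0 < d) (hm : 0 < m) (hdm : (2 + A) ^ 2 * (d + m) ≤ 1)
    (hl : 0 < lam) (hν : 0 < ν₁) (hν1 : ν₁ ≤ 1 / 32)
    (hνc : 640 * π * ν₁ ≤ c1) (hlL : lam * Lk ≤ 2 * ν₁) (hlc : 4 * π * (lam * Lk) ≤ ν₁ * c1)
    (hlC : 16 * π * (lam * Lk * (1 + 2 * ρ) ^ 2) ≤ ν₁ * c1)
    {ζ : ℂ} (hζ : ζ ≠ 0)
    (hF1 : ∫ z in ball (1 : ℂ) 1, (k (z / ζ) - k z) ≤ -c1) {R : ℝ} (hR : 11 + ρ ≤ R) :
    Con k A d m lam ν₁ v ζ R (ν₁ * c1 / 2) := by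
  have hLk := hk.hL
  have hρ := hk.hρ
  have hπ := Real.pi_pos
  have hζ0 : 0 < ‖ζ‖ := norm_pos_iff.mpr hζ
  have hm1 : m ≤ 1 / 2 := by (clear * - hA hdm hd; nlinarith only [hA, hd, hdm])
  have hmu2 : ∀ y, |mu k ν₁ ζ y| ≤ 2 * ν₁ := by
    intro y
    have h1 := abs_sub (k (y / ζ)) (k y)
    have h2 : |k (y / ζ) - k y| ≤ 2 := by (clear * - hk h1; linarith only [hk.bd (y / ζ), hk.bd y, h1])
    unfold mu
    rw [abs_mul, abs_of_pos hν]
    nlinarith only [hν, h2]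
  have i0 : IntegrableOn (fun y => k (y / ζ)) Dk :=
    int_sub_Dk (hk.meas.comp (measurable_id.div_const ζ)) fun y => hk.bd _
  have i1 : IntegrableOn k Dk := int_sub_Dk hk.meas hk.bd
  have i2 : IntegrableOn (fun y => k ((y - ((2 * m : ℝ) : ℂ) * v) / ζ)) Dk :=
    int_sub_Dk
      (hk.meas.comp ((measurable_id.sub_const _).div_const ζ)) fun y => hk.bd _
  have hI1 : ∫ y in Dk, mu k ν₁ ζ y ≤ -(ν₁ * c1) := by
    have h2 : ν₁ * ∫ y in Dk, (k (y / ζ) - k y) ≤ ν₁ * -c1 :=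
      mul_le_mul_of_nonneg_left hF1 hν.le
    unfold mu
    rw [integral_const_mul]
    linarith only [h2]
  have i01 : IntegrableOn (mu k ν₁ ζ) Dk := (i0.sub i1).const_mul _
  have i02 : IntegrableOn (sh k m lam v ζ) Dk := (i0.sub i2).const_mul _
  rcases le_or_gt 1 ‖ζ‖ with h1 | h1
  · -- bounded case
    have hz : ‖1 / ζ‖ ≤ 1 := by
      rw [norm_div, norm_one, div_le_one hζ0]
      exact h1
    have hb2 : ∀ y, |sh k m lam v ζ y| ≤ lam * Lk := by
      intro y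
      calc _ ≤ lam * Lk * ‖1 / ζ‖ := sh_le hk.lip hm hl hv1 ζ y
        _ ≤ lam * Lk * 1 := mul_le_mul_of_nonneg_left hz (by (clear * - hl hLk; positivity))
        _ = _ := by ring
    have hb : ∀ y, |mu k ν₁ ζ y + sh k m lam v ζ y| ≤ 4 * ν₁ := by
      intro y
      refine (abs_add_le _ _).trans ?_
      (clear * - hb2 hmu2 hlL; linarith only [hb2 y, hmu2 y, hlL])
    have hI : ∫ y in Dk, (mu k ν₁ ζ y + sh k m lam v ζ y) ≤ -(ν₁ * c1) + lam * Lk * π := by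
      rw [integral_add i01 i02]
      have h3 : ∫ y in Dk, sh k m lam v ζ y ≤ ∫ y in Dk, lam * Lk := by
        refine integral_mono i02
          (integrableOn_const (ne_top_of_le_ne_top vol_Bt (measure_mono Dk_sub))) fun y => ?_
        exact (le_abs_self _).trans (hb2 y)
      rw [setIntegral_const, smul_eq_mul, measureReal_def, vol_Dk] at h3
      (clear * - hI1 h3; linarith only [hI1, h3])
    obtain ⟨H, g0, g1, g2, g3, g4, g5⟩ := case_bdd hk.meas hA hd hm hdm v ζ (ν := 4 * ν₁)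
      (by (clear * - hν; positivity)) (by (clear * - hν1; linarith only [hν1])) hb hI (R := R) (by linarith only [hR, hρ])
    refine ⟨H, g0, g1, g2, g3, g4, g5.trans ?_⟩
    have h5 : 10 * π * (4 * ν₁) ^ 2 = ν₁ / 4 * (640 * π * ν₁) := by ring
    have h6 : ν₁ / 4 * (640 * π * ν₁) ≤ ν₁ / 4 * c1 := mul_le_mul_of_nonneg_left hνc (by (clear * - hν; positivity))
    linarith only [hlc, h6]
  · -- small scale
    set p : ℂ := ((2 * m : ℝ) : ℂ) * v with hp
    have hpn : ‖p‖ = 2 * m := by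
      rw [hp, norm_mul, hv1, mul_one, Complex.norm_real, Real.norm_eq_abs,
        abs_of_pos (by (clear * - hm; positivity))]
    set S : Set ℂ := ball 0 (ρ * ‖ζ‖) ∪ ball p (ρ * ‖ζ‖) with hS
    have hSm : MeasurableSet S := measurableSet_ball.union measurableSet_ball
    have hSv : volume S ≤ ENNReal.ofReal (2 * (π * (ρ * ‖ζ‖) ^ 2)) := by
      refine (measure_union_le _ _).trans ?_
      rw [Complex.volume_ball, Complex.volume_ball, ← ENNReal.ofReal_pow (by (clear * - hρ hζ; positivity)),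
        ← ENNReal.ofReal_coe_nnreal, NNReal.coe_real_pi, ← ENNReal.ofReal_mul (by (clear * - hρ hζ; positivity)),
        ← ENNReal.ofReal_add (by (clear * - hρ hζ; positivity)) (by positivity)]
      refine ENNReal.ofReal_le_ofReal ?_
      linarith only []
    have hSf : volume S ≠ ⊤ := ne_top_of_le_ne_top ENNReal.ofReal_ne_top hSv
    have hout : ∀ y, y ∉ S → sh k m lam v ζ y = 0 := by
      intro y hy
      rw [hS, mem_union, not_or, mem_ball, mem_ball, dist_eq_norm, dist_eq_norm, not_lt, not_lt,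
        sub_zero] at hy
      unfold sh
      rw [hk.far (y / ζ), hk.far ((y - ((2 * m : ℝ) : ℂ) * v) / ζ), sub_self, mul_zero]
      · rw [norm_div, le_div_iff₀ hζ0]
        exact hy.2
      · rw [norm_div, le_div_iff₀ hζ0]
        exact hy.1
    set c : ℂ → ℝ := fun y => |sh k m lam v ζ y| with hc
    have hcle : ∀ y, c y ≤ S.indicator (fun _ => lam * Lk / ‖ζ‖) y := by
      intro y
      by_cases hy : y ∈ S
      · rw [indicator_of_mem hy]
        refine (sh_le hk.lip hm hl hv1 ζ y).trans (le_of_eq ?_)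
        rw [norm_div, norm_one]
        ring
      · rw [indicator_of_notMem hy, hc]
        simp only [hout y hy, abs_zero, le_refl]
    have hc0 : ∀ y, 0 ≤ c y := fun y => abs_nonneg _
    have iM : Integrable (S.indicator fun _ : ℂ => lam * Lk / ‖ζ‖) :=
      (integrableOn_const hSf).integrable_indicator hSm
    have hcm : Measurable c := (meas_sh hk.meas m lam v ζ).abs
    have ic : Integrable c := by
      refine Integrable.mono' iM hcm.aestronglyMeasurable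
        (Filter.Eventually.of_forall fun y => ?_)
      rw [Real.norm_eq_abs, abs_of_nonneg (hc0 y)]
      exact hcle y
    have hcK : ∫ y, c y ≤ ν₁ * c1 / 4 := by
      have g1 : ∫ y, c y ≤ ∫ y, S.indicator (fun _ => lam * Lk / ‖ζ‖) y :=
        integral_mono ic iM hcle
      rw [integral_indicator hSm, setIntegral_const, smul_eq_mul, measureReal_def] at g1
      have g2 : (volume S).toReal ≤ 2 * (π * (ρ * ‖ζ‖) ^ 2) :=
        ENNReal.toReal_le_of_le_ofReal (by (clear * - hρ hζ; positivity)) hSv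
      have g3 : (volume S).toReal * (lam * Lk / ‖ζ‖) ≤
          2 * (π * (ρ * ‖ζ‖) ^ 2) * (lam * Lk / ‖ζ‖) :=
        mul_le_mul_of_nonneg_right g2 (by (clear * - hl hLk hζ; positivity))
      have g4 : 2 * (π * (ρ * ‖ζ‖) ^ 2) * (lam * Lk / ‖ζ‖) = 2 * π * (lam * Lk * ρ ^ 2) * ‖ζ‖ := by
        (clear * - hLk hl hζ hρ; field_simp)
      have g5 : 2 * π * (lam * Lk * ρ ^ 2) * ‖ζ‖ ≤ 2 * π * (lam * Lk * ρ ^ 2) * 1 :=
        mul_le_mul_of_nonneg_left h1.le (by (clear * - hl hLk hρ; positivity))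
      have g6 : lam * Lk * ρ ^ 2 ≤ lam * Lk * (1 + 2 * ρ) ^ 2 := by
        refine mul_le_mul_of_nonneg_left ?_ (by (clear * - hl hLk; positivity))
        (clear * - hρ; nlinarith only [hρ])
      have g7 : 2 * π * (lam * Lk * ρ ^ 2) ≤ 2 * π * (lam * Lk * (1 + 2 * ρ) ^ 2) :=
        mul_le_mul_of_nonneg_left g6 (by positivity)
      have g8 : 0 ≤ 2 * π * (lam * Lk * (1 + 2 * ρ) ^ 2) := by (clear * - hl hLk hρ; positivity)
      (clear * - hlC g1 g3 g4 g5 g7 g8; linarith)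
    obtain ⟨H, g0, g1, g2, g3, g4, g5⟩ := bound5 hA hd hm hdm
      (meas_mu hk.meas ν₁ ζ) (ν := 2 * ν₁) (by positivity) (by linarith only [hν1]) hmu2 hcm ic hc0 hcK
    refine ⟨H, g0, g1, g2, ?_, ?_, ?_⟩
    · intro y hy
      rw [g3 y (by linarith only [hR, hρ, hy])]
      have : y ∉ S := by
        rw [hS, mem_union, not_or, mem_ball, mem_ball, dist_eq_norm, dist_eq_norm, not_lt, not_lt,
          sub_zero]
        have e1 : ρ * ‖ζ‖ ≤ ρ := by nlinarith only [hρ, h1]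
        have e2 := norm_sub_norm_le y p
        constructor
        · linarith only [hR, hy, e1]
        · rw [hpn] at e2
          linarith only [hR, hm1, hy, e1, e2]
      rw [hc]
      simp only [hout y this, abs_zero]
    · intro y hy
      have e1 := g4 y hy
      have e2 : sh k m lam v ζ y ≤ c y := le_abs_self _
      unfold er
      (clear * - e1 e2; linarith only [e1, e2])
    · refine g5.trans ?_
      have h5 : 10 * π * (2 * ν₁) ^ 2 = ν₁ / 16 * (640 * π * ν₁) := by ring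
      have h6 : ν₁ / 16 * (640 * π * ν₁) ≤ ν₁ / 16 * c1 :=
        mul_le_mul_of_nonneg_left hνc (by positivity)
      nlinarith only [hπ, hI1, h6]

end Pool.Agent.Helper12.G6
end

/- Helper24.K6w.H97.G4.Exc -/
section
/-!
# G4: the linear excess and the quadratic term

`exc_lin`: the integral of `(re (b / z) - β)_+` is at most `π |b|² / (4 β)` (layer cake: the set
`re (b / z) > μ` is the disc of radius `|b| / (2 μ)` around `b / (2 μ)`).
`exc_quad`: the integral of `|z|^(-2)` over `r₀ ≤ |z| ≤ r₁` is `2 π log (r₁ / r₀)`.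
-/

set_option autoImplicit false

namespace Pool.Agent.Helper97.G4

open MeasureTheory Set
open scoped Real

theorem exc_set {b : ℂ} {μ : ℝ} (hμ : 0 < μ) :
    {z : ℂ | μ < (b / z).re} ⊆ Metric.ball (b / (2 * μ)) (‖b‖ / (2 * μ)) := by
  intro z hz
  have hz' : μ < (b / z).re := hz
  have hz0 : z ≠ 0 := by
    intro h
    rw [h, div_zero, Complex.zero_re] at hz'
    linarith
  have hn : 0 < Complex.normSq z := Complex.normSq_pos.2 hz0
  rw [Metric.mem_ball, dist_eq_norm]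
  have e1 : (b / z).re = (b.re * z.re + b.im * z.im) / Complex.normSq z := by
    rw [Complex.div_re]
    ring
  rw [e1, lt_div_iff₀ hn, Complex.normSq_apply] at hz'
  have h2 : ‖z - b / (2 * μ)‖ ^ 2 < (‖b‖ / (2 * μ)) ^ 2 := by
    have e2 : (b / (2 * μ)).re = b.re / (2 * μ) ∧ (b / (2 * μ)).im = b.im / (2 * μ) := by
      have : (2 * (μ : ℂ)) = ((2 * μ : ℝ) : ℂ) := by push_cast; ring
      rw [this]
      exact ⟨Complex.div_ofReal_re _ _, Complex.div_ofReal_im _ _⟩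
    rw [div_pow, Complex.sq_norm, Complex.sq_norm, Complex.normSq_apply, Complex.normSq_apply,
      Complex.sub_re, Complex.sub_im, e2.1, e2.2]
    have e3 : (z.re - b.re / (2 * μ)) * (z.re - b.re / (2 * μ)) +
        (z.im - b.im / (2 * μ)) * (z.im - b.im / (2 * μ)) -
        (b.re * b.re + b.im * b.im) / (2 * μ) ^ 2 =
        (μ * (z.re * z.re + z.im * z.im) - (b.re * z.re + b.im * z.im)) / μ := by
      field_simp
      ring
    have h3 : (μ * (z.re * z.re + z.im * z.im) - (b.re * z.re + b.im * z.im)) / μ < 0 :=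
      div_neg_of_neg_of_pos (by linarith only [hz']) hμ
    linarith only [e3, h3]
  exact lt_of_pow_lt_pow_left₀ 2 (by (clear * - hμ; positivity)) h2

theorem exc_vol {b : ℂ} {μ : ℝ} (hμ : 0 < μ) :
    volume {z : ℂ | μ < (b / z).re} ≤ ENNReal.ofReal (π * ‖b‖ ^ 2 / 4 * μ ^ (-2 : ℝ)) := by
  refine (measure_mono (exc_set hμ)).trans (le_of_eq ?_)
  have h2 : ((NNReal.pi : NNReal) : ENNReal) = ENNReal.ofReal Real.pi := by
    rw [← NNReal.coe_real_pi, ENNReal.ofReal_coe_nnreal]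
  rw [Complex.volume_ball, h2, ← ENNReal.ofReal_pow (by (clear * - hμ; positivity)),
    ← ENNReal.ofReal_mul (by (clear * -; positivity))]
  congr 1
  have h5 : μ ^ (-2 : ℝ) = 1 / μ ^ 2 := by
    rw [show (-2 : ℝ) = -((2 : ℕ) : ℝ) by norm_num, Real.rpow_neg hμ.le, Real.rpow_natCast,
      one_div]
  rw [h5]
  field_simp
  ring

theorem exc_lin (b : ℂ) {β : ℝ} (hβ : 0 < β) :
    ∫⁻ z : ℂ, ENNReal.ofReal (max ((b / z).re - β) 0) ≤ ENNReal.ofReal (π * ‖b‖ ^ 2 / (4 * β)) := by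
  have hL : Measurable fun z : ℂ => max ((b / z).re - β) 0 := by fun_prop
  rw [lintegral_eq_lintegral_meas_lt volume (f := fun z : ℂ => max ((b / z).re - β) 0)
    (Filter.Eventually.of_forall fun w => le_max_right _ _) hL.aemeasurable]
  have h2 : ∀ t ∈ Ioi (0 : ℝ), volume {a : ℂ | t < max ((b / a).re - β) 0} ≤
      ENNReal.ofReal (π * ‖b‖ ^ 2 / 4 * (t + β) ^ (-2 : ℝ)) := by
    intro t ht
    have ht0 : 0 < t := ht
    refine (measure_mono ?_).trans (exc_vol (b := b) (μ := t + β) (by (clear * - hβ ht0; linarith only [hβ, ht0])))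
    intro a ha
    rw [mem_ofPred_eq] at ha ⊢
    rcases lt_max_iff.mp ha with h | h
    · (clear * - h; linarith only [h])
    · linarith
  refine (setLIntegral_mono' measurableSet_Ioi h2).trans (le_of_eq ?_)
  rw [← ofReal_integral_eq_lintegral_ofReal
    ((integrableOn_add_rpow_Ioi_of_lt (by norm_num) (by linarith)).const_mul _)
    ((ae_restrict_iff' measurableSet_Ioi).2 (Filter.Eventually.of_forall fun t ht => by
      have ht0 : (0 : ℝ) < t := ht
      (clear * - ht0 hβ; positivity)))]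
  congr 1
  rw [integral_const_mul]
  have h3 : ∫ t in Ioi (0 : ℝ), (t + β) ^ (-2 : ℝ) = 1 / β := by
    have h4 : ∫ t in Ioi (0 : ℝ), (t + β) ^ (-2 : ℝ) = ∫ t in Ioi β, t ^ (-2 : ℝ) := by
      rw [← integral_indicator measurableSet_Ioi, ← integral_indicator measurableSet_Ioi,
        ← integral_add_right_eq_self ((Ioi β).indicator fun t : ℝ => t ^ (-2 : ℝ)) β]
      refine integral_congr_ae (Filter.Eventually.of_forall fun t => ?_)
      by_cases ht : 0 < t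
      · have ht' : β < t + β := by (clear * - ht; linarith)
        simp only [indicator, mem_Ioi, ht, ht', if_true]
      · have ht' : ¬ β < t + β := by (clear * - ht; linarith)
        simp only [indicator, mem_Ioi, ht, ht', if_false]
    rw [h4, integral_Ioi_rpow_of_lt (by norm_num) hβ]
    rw [show (-2 : ℝ) + 1 = -1 by norm_num, Real.rpow_neg_one]
    (clear * - hβ; field_simp)
  rw [h3]
  field_simp

theorem exc_quad {r₀ r₁ : ℝ} (h0 : 0 < r₀) (h1 : r₀ ≤ r₁) :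
    ∫⁻ z in {z : ℂ | r₀ ≤ ‖z‖ ∧ ‖z‖ ≤ r₁}, ENNReal.ofReal (1 / ‖z‖ ^ 2) =
      ENNReal.ofReal (2 * π * Real.log (r₁ / r₀)) := by
  have hπ := Real.pi_pos
  have hS : MeasurableSet {z : ℂ | r₀ ≤ ‖z‖ ∧ ‖z‖ ≤ r₁} :=
    (measurableSet_le measurable_const measurable_norm).inter
      (measurableSet_le measurable_norm measurable_const)
  rw [← lintegral_indicator hS, ← Complex.lintegral_comp_polarCoord_symm]
  have e1 : ∀ p ∈ polarCoord.target, ENNReal.ofReal p.1 •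
      ({z : ℂ | r₀ ≤ ‖z‖ ∧ ‖z‖ ≤ r₁}.indicator (fun z : ℂ => ENNReal.ofReal (1 / ‖z‖ ^ 2)))
        (Complex.polarCoord.symm p) =
      (Icc r₀ r₁).indicator (fun r : ℝ => ENNReal.ofReal (r⁻¹)) p.1 * 1 := by
    intro p hp
    have hp0 : 0 < p.1 := hp.1
    have hn : ‖Complex.polarCoord.symm p‖ = p.1 := by
      rw [Complex.norm_polarCoord_symm, abs_of_pos hp0]
    by_cases h : r₀ ≤ p.1 ∧ p.1 ≤ r₁
    · rw [indicator_of_mem (show Complex.polarCoord.symm p ∈ {z : ℂ | r₀ ≤ ‖z‖ ∧ ‖z‖ ≤ r₁} by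
        rw [mem_ofPred_eq, hn]; exact h), indicator_of_mem (show p.1 ∈ Icc r₀ r₁ from h), hn,
        smul_eq_mul, ← ENNReal.ofReal_mul hp0.le, mul_one]
      congr 1
      field_simp
    · rw [indicator_of_notMem (show Complex.polarCoord.symm p ∉
        {z : ℂ | r₀ ≤ ‖z‖ ∧ ‖z‖ ≤ r₁} by rw [mem_ofPred_eq, hn]; exact h),
        indicator_of_notMem (show p.1 ∉ Icc r₀ r₁ from h)]
      simp
  rw [setLIntegral_congr_fun (polarCoord.open_target.measurableSet) e1]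
  have e2 : polarCoord.target = Ioi (0 : ℝ) ×ˢ Ioo (-π) π := rfl
  rw [e2, Measure.volume_eq_prod, ← Measure.prod_restrict,
    lintegral_prod_mul (f := (Icc r₀ r₁).indicator (fun r : ℝ => ENNReal.ofReal (r⁻¹)))
      (g := fun _ => 1) ((Measurable.indicator (by fun_prop) measurableSet_Icc).aemeasurable)
      aemeasurable_const]
  rw [lintegral_indicator measurableSet_Icc, Measure.restrict_restrict measurableSet_Icc,
    inter_eq_left.2 (show Icc r₀ r₁ ⊆ Ioi 0 from fun x hx => lt_of_lt_of_le h0 hx.1)]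
  simp only [lintegral_const, Measure.restrict_apply MeasurableSet.univ, univ_inter, one_mul,
    Real.volume_Ioo]
  have e3 : ∫⁻ r in Icc r₀ r₁, ENNReal.ofReal (r⁻¹) = ENNReal.ofReal (Real.log (r₁ / r₀)) := by
    rw [← integral_inv_of_pos h0 (h0.trans_le h1), intervalIntegral.integral_of_le h1,
      ← integral_Icc_eq_integral_Ioc, ofReal_integral_eq_lintegral_ofReal]
    · refine ContinuousOn.integrableOn_Icc ?_
      exact continuousOn_inv₀.mono fun x hx => (lt_of_lt_of_le h0 hx.1).ne'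
    · refine (ae_restrict_iff' measurableSet_Icc).2 (Filter.Eventually.of_forall fun x hx => ?_)
      exact inv_nonneg.2 (h0.le.trans hx.1)
  rw [e3, ← ENNReal.ofReal_mul (Real.log_nonneg (by rw [le_div_iff₀ h0]; linarith only [h1]))]
  congr 1
  ring

theorem exc_cube {r : ℝ} (h0 : 0 < r) :
    ∫⁻ z in {z : ℂ | r ≤ ‖z‖}, ENNReal.ofReal (1 / ‖z‖ ^ 3) = ENNReal.ofReal (2 * π / r) := by
  have hπ := Real.pi_pos
  have hS : MeasurableSet {z : ℂ | r ≤ ‖z‖} := measurableSet_le measurable_const measurable_norm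
  rw [← lintegral_indicator hS, ← Complex.lintegral_comp_polarCoord_symm]
  have e1 : ∀ p ∈ polarCoord.target, ENNReal.ofReal p.1 •
      ({z : ℂ | r ≤ ‖z‖}.indicator (fun z : ℂ => ENNReal.ofReal (1 / ‖z‖ ^ 3)))
        (Complex.polarCoord.symm p) =
      (Ici r).indicator (fun x : ℝ => ENNReal.ofReal (x ^ (-2 : ℝ))) p.1 * 1 := by
    intro p hp
    have hp0 : 0 < p.1 := hp.1
    have hn : ‖Complex.polarCoord.symm p‖ = p.1 := by
      rw [Complex.norm_polarCoord_symm, abs_of_pos hp0]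
    by_cases h : r ≤ p.1
    · rw [indicator_of_mem (show Complex.polarCoord.symm p ∈ {z : ℂ | r ≤ ‖z‖} by
        rw [mem_ofPred_eq, hn]; exact h), indicator_of_mem (show p.1 ∈ Ici r from h), hn,
        smul_eq_mul, ← ENNReal.ofReal_mul hp0.le, mul_one]
      congr 1
      rw [show (-2 : ℝ) = -((2 : ℕ) : ℝ) by norm_num, Real.rpow_neg hp0.le, Real.rpow_natCast]
      (clear * - hp0; field_simp)
    · rw [indicator_of_notMem (show Complex.polarCoord.symm p ∉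
        {z : ℂ | r ≤ ‖z‖} by rw [mem_ofPred_eq, hn]; exact h),
        indicator_of_notMem (show p.1 ∉ Ici r from h)]
      simp
  rw [setLIntegral_congr_fun (polarCoord.open_target.measurableSet) e1]
  have e2 : polarCoord.target = Ioi (0 : ℝ) ×ˢ Ioo (-π) π := rfl
  rw [e2, Measure.volume_eq_prod, ← Measure.prod_restrict,
    lintegral_prod_mul (f := (Ici r).indicator (fun x : ℝ => ENNReal.ofReal (x ^ (-2 : ℝ))))
      (g := fun _ => 1) ((Measurable.indicator (by fun_prop) measurableSet_Ici).aemeasurable)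
      aemeasurable_const]
  rw [lintegral_indicator measurableSet_Ici, Measure.restrict_restrict measurableSet_Ici,
    inter_eq_left.2 (show Ici r ⊆ Ioi 0 from fun x hx => lt_of_lt_of_le h0 hx)]
  simp only [lintegral_const, Measure.restrict_apply MeasurableSet.univ, univ_inter, one_mul,
    Real.volume_Ioo]
  have e3 : ∫⁻ x in Ici r, ENNReal.ofReal (x ^ (-2 : ℝ)) = ENNReal.ofReal (1 / r) := by
    have e4 : ∫ x in Ici r, x ^ (-2 : ℝ) = 1 / r := by
      rw [integral_Ici_eq_integral_Ioi, integral_Ioi_rpow_of_lt (by norm_num) h0,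
        show (-2 : ℝ) + 1 = -1 by norm_num, Real.rpow_neg_one]
      field_simp
    rw [← e4, ofReal_integral_eq_lintegral_ofReal]
    · exact (integrableOn_Ici_iff_integrableOn_Ioi).2 (integrableOn_Ioi_rpow_of_lt (by norm_num) h0)
    · refine (ae_restrict_iff' measurableSet_Ici).2 (Filter.Eventually.of_forall fun x hx => ?_)
      exact Real.rpow_nonneg (h0.le.trans hx) _
  rw [e3, ← ENNReal.ofReal_mul (by (clear * - h0; positivity))]
  congr 1
  ring

/-- `(Y - b)_+ ≤ Y^(3/2) b^(-1/2)` -/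
theorem exc_pow {Y b : ℝ} (hY : 0 ≤ Y) (hb : 0 < b) : Y ^ 2 - b ≤ Y ^ 3 / √b := by
  have hs : 0 < √b := Real.sqrt_pos.2 hb
  have hs2 : √b ^ 2 = b := Real.sq_sqrt hb.le
  rw [le_div_iff₀ hs]
  obtain ⟨c, hc⟩ : ∃ c : ℝ, c = √b := ⟨_, rfl⟩
  rw [← hc] at hs hs2 ⊢
  rw [← hs2]
  by_cases h : Y ≤ c
  · have h1 : Y ^ 2 - c ^ 2 ≤ 0 := by (clear * - hY h; nlinarith only [hY, h])
    have h2 : 0 ≤ Y ^ 3 := by positivity
    (clear * - h2 hs h1; nlinarith only [hs, h1, h2])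
  · push Not at h
    (clear * - hs h; nlinarith only [hs, h])

end Pool.Agent.Helper97.G4
end
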