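import Pool.Agent.Helper24.K6.G03

/- Helper24.K6w.H26.G4.RecB -/
section
/-!
# G4-RECB: the recursion, real numbers only (a variant of G2-REC)

`o` = sum of the `Vp e`, `e ≠ d`, `T = ∑ V`. Case A: for some `d`, `o ≤ η v`. Then by (h4) for `d` and (h2) for the
others `T ≤ e^c (v - w - o) + (1 - ε) w + (1 + a) o + ε w ≤ (e^c + a η) v ≤ e^(c + a η) v`.
A1, `Cen κ N d`: `∑ χ V ≤ T ≤ g (v - w - o) + w + (1 + a) o ≤ (g + a η) v` by (h3). A2, not `Cen`:
`∑ χ V ≤ e^(-c) T + (1 - e^(-c)) ∑_(e≠d) V ≤ (1 + a η) v + c (2 η + ε) v`. In both cases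
`V_e ≤ T ≤ e^(c + a η) v`. Case B: for all `d`, `o > η v`: `V_d ≤ (1 + a) Vp_d + w ≤ (1 - η / 2) v`,
`T ≤ (1 + a) v`, `∑ V^(1+θ) ≤ ((1 - η/2) v)^θ (1 + a) v ≤ e^(a - θ η / 2) v^(1+θ) ≤ v^(1+θ)`.
Copy the proof of `Pool.Agent.Helper90.G2.rec_real` and change it.
-/

set_option autoImplicit false

namespace Pool.Agent.Helper26.G4

open Finset
open Pool.Agent.Helper90.G2 (Cen chi Rec_chi Rec_sum)

theorem rec4 {N : ℕ} (hN : 0 < N) (Vp V : ℕ → ℝ) {κ v w a g c ε η θ : ℝ} (hw : 0 ≤ w)
    (ha : 0 ≤ a) (ha1 : a ≤ 1) (haη : a ≤ η / 2) (hg : 1 ≤ g) (hc : 0 ≤ c) (hε : 0 ≤ ε) (hε1 : ε ≤ 1)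
    (hη : 0 ≤ η) (hη1 : η ≤ 1) (hθ : 0 ≤ θ) (haθ : a ≤ θ * (η / 2))
    (hV : ∀ d < N, 0 ≤ V d) (hVp : ∀ d < N, 0 ≤ Vp d) (h1 : w + ∑ d ∈ range N, Vp d ≤ v)
    (h2 : ∀ d < N, V d ≤ (1 + a) * Vp d + ε / N * w)
    (h3 : ∀ d < N, Cen κ N d → V d ≤ g * Vp d + (1 - ε) * w)
    (h4 : ∀ d < N, V d ≤ Real.exp c * Vp d + (1 - ε) * w) :
    ∑ d ∈ range N, chi κ c N d * V d ^ (1 + θ) ≤
      Real.exp ((c + a * η) * θ) * (g + a * η + c * (2 * η + ε)) * v ^ (1 + θ) := by
  have hN' : (0 : ℝ) < N := Nat.cast_pos.2 hN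
  have hsp : 0 ≤ ∑ d ∈ range N, Vp d := sum_nonneg fun d hd => hVp d (mem_range.1 hd)
  have hv : 0 ≤ v := by linarith only [hw, h1, hsp]
  have hwv : w ≤ v := by linarith only [h1, hsp]
  have hχ0 : ∀ d ∈ range N, 0 ≤ chi κ c N d := fun d _ => (Rec_chi hc N d).1
  have hV0 : ∀ d ∈ range N, 0 ≤ V d := fun d hd => hV d (mem_range.1 hd)
  have hvθ : v ^ (1 + θ) = v * v ^ θ := by
    rw [Real.rpow_add_of_nonneg hv zero_le_one hθ, Real.rpow_one]
  have hvθ0 : 0 ≤ v ^ θ := Real.rpow_nonneg hv θ
  have hecθ : (Real.exp (c + a * η) * v) ^ θ = Real.exp ((c + a * η) * θ) * v ^ θ := by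
    rw [Real.mul_rpow (Real.exp_pos _).le hv, ← Real.exp_mul]
  have haη0 : 0 ≤ a * η := mul_nonneg ha hη
  have hcη0 : 0 ≤ c * (2 * η + ε) := mul_nonneg hc (by linarith only [hε, hη])
  have hec1 : 1 ≤ Real.exp c := Real.one_le_exp hc
  -- it is enough to bound the sum of the `χ V`
  have hfin : ∑ d ∈ range N, V d ≤ (Real.exp c + a * η) * v →
      ∑ d ∈ range N, chi κ c N d * V d ≤ (g + a * η + c * (2 * η + ε)) * v →
      ∑ d ∈ range N, chi κ c N d * V d ^ (1 + θ) ≤
      Real.exp ((c + a * η) * θ) * (g + a * η + c * (2 * η + ε)) * v ^ (1 + θ) := by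
    intro h4 h
    have hVS : ∀ d ∈ range N, V d ≤ Real.exp (c + a * η) * v := fun d hd => by
      refine (single_le_sum hV0 hd).trans (h4.trans (mul_le_mul_of_nonneg_right ?_ hv))
      rw [Real.exp_add]
      have e1 : 1 + a * η ≤ Real.exp (a * η) := by
        have := Real.add_one_le_exp (a * η)
        linarith only [this]
      have e2 : Real.exp c * (1 + a * η) ≤ Real.exp c * Real.exp (a * η) :=
        mul_le_mul_of_nonneg_left e1 (Real.exp_pos _).le
      have e3 : 1 * (a * η) ≤ Real.exp c * (a * η) := mul_le_mul_of_nonneg_right hec1 haη0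
      linarith only [e2, e3]
    refine (Rec_sum (range N) (fun d => chi κ c N d) V hχ0 hV0 hθ hVS).trans ?_
    rw [hecθ, hvθ]
    calc Real.exp ((c + a * η) * θ) * v ^ θ * ∑ d ∈ range N, chi κ c N d * V d
        ≤ Real.exp ((c + a * η) * θ) * v ^ θ * ((g + a * η + c * (2 * η + ε)) * v) :=
          mul_le_mul_of_nonneg_left h (mul_nonneg (Real.exp_pos _).le hvθ0)
      _ = Real.exp ((c + a * η) * θ) * (g + a * η + c * (2 * η + ε)) * (v * v ^ θ) := by ring
  by_cases hA : ∃ d ∈ range N, ∑ e ∈ (range N).erase d, Vp e ≤ η * v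
  · obtain ⟨d, hd, ho⟩ := hA
    have hdN := mem_range.1 hd
    have ho0 : 0 ≤ ∑ e ∈ (range N).erase d, Vp e :=
      sum_nonneg fun e he => hVp e (mem_range.1 (mem_of_mem_erase he))
    have hs1 : Vp d + ∑ e ∈ (range N).erase d, Vp e = ∑ e ∈ range N, Vp e :=
      add_sum_erase (range N) Vp hd
    have hoth : ∑ e ∈ (range N).erase d, V e ≤
        (1 + a) * ∑ e ∈ (range N).erase d, Vp e + ((N : ℝ) - 1) * (ε / N * w) := by
      calc ∑ e ∈ (range N).erase d, V e
          ≤ ∑ e ∈ (range N).erase d, ((1 + a) * Vp e + ε / N * w) :=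
            sum_le_sum fun e he => h2 e (mem_range.1 (mem_of_mem_erase he))
        _ = (1 + a) * ∑ e ∈ (range N).erase d, Vp e + ((N : ℝ) - 1) * (ε / N * w) := by
            rw [sum_add_distrib, ← mul_sum, sum_const, card_erase_of_mem hd, card_range,
              nsmul_eq_mul, Nat.cast_sub hN, Nat.cast_one]
    have hNw : ((N : ℝ) - 1) * (ε / N * w) ≤ ε * w := by
      have e1 : ((N : ℝ) - 1) * (ε / N * w) = ε * w - ε * w / N := by
        (clear * - hN; field_simp)
      rw [e1]
      have : 0 ≤ ε * w / N := div_nonneg (mul_nonneg hε hw) hN'.le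
      linarith only [this]
    generalize ∑ e ∈ (range N).erase d, Vp e = o at *
    have hs3 : V d + ∑ e ∈ (range N).erase d, V e = ∑ e ∈ range N, V e :=
      add_sum_erase (range N) V hd
    have h7 : Vp d ≤ v - w - o := by linarith only [h1, hs1]
    have h10 : a * o ≤ a * (η * v) := mul_le_mul_of_nonneg_left ho ha
    -- the bound of the total
    have hT : ∑ e ∈ range N, V e ≤ (Real.exp c + a * η) * v := by
      have h5 := h4 d hdN
      have h8 : Real.exp c * Vp d ≤ Real.exp c * (v - w - o) :=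
        mul_le_mul_of_nonneg_left h7 (Real.exp_pos _).le
      have h9 : 0 ≤ (Real.exp c - 1) * (w + o) := mul_nonneg (by linarith only [hec1]) (by linarith only [hw, ho0])
      linarith only [hNw, hoth, hs3, h10, h5, h8, h9]
    by_cases hC : Cen κ N d
    · apply hfin hT
      have h5 := h3 d hdN hC
      have h6 : ∑ e ∈ range N, chi κ c N e * V e ≤ ∑ e ∈ range N, V e :=
        sum_le_sum fun e he => by
          have := mul_le_mul_of_nonneg_right (Rec_chi (κ := κ) hc N e).2 (hV0 e he)
          rwa [one_mul] at this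
      have h8 : g * Vp d ≤ g * (v - w - o) := mul_le_mul_of_nonneg_left h7 (by linarith only [hg])
      have h9 : 0 ≤ (g - 1) * (w + o) := mul_nonneg (by linarith only [hg]) (by linarith only [hw, ho0])
      have h11 : 0 ≤ c * (2 * η + ε) * v := mul_nonneg hcη0 hv
      linarith only [hNw, hoth, hs3, h10, h5, h6, h8, h9, h11]
    · apply hfin hT
      have hs2 : chi κ c N d * V d + ∑ e ∈ (range N).erase d, chi κ c N e * V e =
          ∑ e ∈ range N, chi κ c N e * V e :=
        add_sum_erase (range N) (fun e => chi κ c N e * V e) hd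
      have hχd : chi κ c N d = Real.exp (-c) := by
        unfold chi
        rw [if_neg hC]
      have h6 : ∑ e ∈ (range N).erase d, chi κ c N e * V e ≤ ∑ e ∈ (range N).erase d, V e :=
        sum_le_sum fun e he => by
          have := mul_le_mul_of_nonneg_right (Rec_chi (κ := κ) hc N e).2
            (hV0 e (mem_of_mem_erase he))
          rwa [one_mul] at this
      have hoe : (1 + a) * o ≤ 2 * (η * v) := by
        have e1 : (1 + a) * o ≤ 2 * o := mul_le_mul_of_nonneg_right (by linarith only [ha1]) ho0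
        linarith only [ho, e1]
      have hεw : ε * w ≤ ε * v := mul_le_mul_of_nonneg_left hwv hε
      have h12 : ∑ e ∈ (range N).erase d, V e ≤ (2 * η + ε) * v := by
        calc ∑ e ∈ (range N).erase d, V e ≤ (1 + a) * o + ((N : ℝ) - 1) * (ε / N * w) := hoth
          _ ≤ 2 * (η * v) + ε * v := by linarith only [hNw, hoe, hεw]
          _ = (2 * η + ε) * v := by ring
      have he1 : 1 - c ≤ Real.exp (-c) := by
        have := Real.add_one_le_exp (-c)
        linarith only [this]
      have he2 : Real.exp (-c) ≤ 1 := by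
        rw [Real.exp_le_one_iff]
        linarith only [hc]
      have he3 : Real.exp (-c) * ((Real.exp c + a * η) * v) ≤ (1 + a * η) * v := by
        rw [← mul_assoc]
        refine mul_le_mul_of_nonneg_right ?_ hv
        rw [mul_add, ← Real.exp_add, neg_add_cancel, Real.exp_zero]
        have := mul_le_mul_of_nonneg_right he2 haη0
        linarith only [this]
      have hO0 : 0 ≤ ∑ e ∈ (range N).erase d, V e :=
        sum_nonneg fun e he => hV0 e (mem_of_mem_erase he)
      generalize ∑ e ∈ (range N).erase d, V e = O at *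
      rw [← hs2, hχd]
      have h13 : Real.exp (-c) * (V d + O) ≤ (1 + a * η) * v := by
        rw [hs3]
        exact (mul_le_mul_of_nonneg_left hT (Real.exp_pos _).le).trans he3
      have h14 : (1 - Real.exp (-c)) * O ≤ c * ((2 * η + ε) * v) :=
        mul_le_mul (by linarith only [he1]) h12 hO0 hc
      have h15 : (1 + a * η) * v ≤ (g + a * η) * v :=
        mul_le_mul_of_nonneg_right (by linarith only [hg]) hv
      calc Real.exp (-c) * V d + ∑ e ∈ (range N).erase d, chi κ c N e * V e
          ≤ Real.exp (-c) * V d + O := by linarith only [h6]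
        _ = Real.exp (-c) * (V d + O) + (1 - Real.exp (-c)) * O := by ring
        _ ≤ (1 + a * η) * v + c * ((2 * η + ε) * v) := add_le_add h13 h14
        _ ≤ (g + a * η) * v + c * ((2 * η + ε) * v) := by linarith only [h15]
        _ = (g + a * η + c * (2 * η + ε)) * v := by ring
  · -- all children are small
    have hall : ∀ d ∈ range N, V d ≤ (1 - η / 2) * v := by
      intro d hd
      have hdN := mem_range.1 hd
      have ho : η * v < ∑ e ∈ (range N).erase d, Vp e := by
        by_contra h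
        exact hA ⟨d, hd, not_lt.1 h⟩
      have hs1 : Vp d + ∑ e ∈ (range N).erase d, Vp e = ∑ e ∈ range N, Vp e :=
        add_sum_erase (range N) Vp hd
      have h5 := h2 d hdN
      have h6 : ε / N * w ≤ w := by
        have e1 : ε / N ≤ 1 := by
          rw [div_le_one hN']
          have : (1 : ℝ) ≤ N := Nat.one_le_cast.2 hN
          linarith only [hε1, this]
        have := mul_le_mul_of_nonneg_right e1 hw
        linarith only [this]
      have h7 : Vp d ≤ v - w - η * v := by linarith only [h1, ho, hs1]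
      have h8 : (1 + a) * Vp d ≤ (1 + a) * (v - w - η * v) :=
        mul_le_mul_of_nonneg_left h7 (by linarith only [ha])
      have h9 : 0 ≤ a * w := mul_nonneg ha hw
      have h10 : 0 ≤ a * (η * v) := mul_nonneg ha (mul_nonneg hη hv)
      have h11 : a * v ≤ η / 2 * v := mul_le_mul_of_nonneg_right haη hv
      linarith only [h5, h6, h8, h9, h10, h11]
    have h16 : ∑ d ∈ range N, chi κ c N d * V d ≤ (1 + a) * v := by
      have e1 : ∑ d ∈ range N, chi κ c N d * V d ≤ ∑ d ∈ range N, V d :=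
        sum_le_sum fun e he => by
          have := mul_le_mul_of_nonneg_right (Rec_chi (κ := κ) hc N e).2 (hV0 e he)
          rwa [one_mul] at this
      have e2 : ∑ d ∈ range N, V d ≤ (1 + a) * ∑ d ∈ range N, Vp d + ε * w := by
        calc ∑ d ∈ range N, V d ≤ ∑ d ∈ range N, ((1 + a) * Vp d + ε / N * w) :=
              sum_le_sum fun e he => h2 e (mem_range.1 he)
          _ = (1 + a) * ∑ d ∈ range N, Vp d + N * (ε / N * w) := by
              rw [sum_add_distrib, ← mul_sum, sum_const, card_range, nsmul_eq_mul]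
          _ = (1 + a) * ∑ d ∈ range N, Vp d + ε * w := by
              congr 1
              (clear * - hN; field_simp)
      have e3 : (1 + a) * ∑ d ∈ range N, Vp d ≤ (1 + a) * (v - w) :=
        mul_le_mul_of_nonneg_left (by linarith only [h1]) (by linarith only [ha])
      have e4 : ε * w ≤ 1 * w := mul_le_mul_of_nonneg_right hε1 hw
      have e5 : 0 ≤ a * w := mul_nonneg ha hw
      linarith only [e1, e2, e3, e4, e5]
    have h17 : ((1 - η / 2) * v) ^ θ ≤ Real.exp (-(θ * (η / 2))) * v ^ θ := by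
      rw [Real.mul_rpow (by linarith only [hη1]) hv]
      refine mul_le_mul_of_nonneg_right ?_ hvθ0
      have e1 : 1 - η / 2 ≤ Real.exp (-(η / 2)) := by
        have := Real.add_one_le_exp (-(η / 2))
        (clear * - this; linarith only [this])
      calc (1 - η / 2) ^ θ ≤ Real.exp (-(η / 2)) ^ θ :=
            Real.rpow_le_rpow (by linarith only [hη1]) e1 hθ
        _ = Real.exp (-(θ * (η / 2))) := by
            rw [← Real.exp_mul]
            congr 1
            ring
    have h18 : Real.exp (-(θ * (η / 2))) * (1 + a) ≤ 1 := by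
      have e1 : 1 + a ≤ Real.exp a := by
        have := Real.add_one_le_exp a
        linarith only [this]
      refine (mul_le_mul_of_nonneg_left e1 (Real.exp_pos _).le).trans ?_
      rw [← Real.exp_add, Real.exp_le_one_iff]
      linarith only [haθ]
    have h19 : 1 ≤ Real.exp ((c + a * η) * θ) :=
      Real.one_le_exp (mul_nonneg (by linarith only [hc, haη0]) hθ)
    have h20 : 1 ≤ Real.exp ((c + a * η) * θ) * (g + a * η + c * (2 * η + ε)) := by
      have : (1 : ℝ) ≤ g + a * η + c * (2 * η + ε) := by linarith only [hg, haη0, hcη0]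
      calc (1 : ℝ) = 1 * 1 := (one_mul 1).symm
        _ ≤ Real.exp ((c + a * η) * θ) * (g + a * η + c * (2 * η + ε)) :=
          mul_le_mul h19 this zero_le_one (by linarith only [h19])
    have h21 : 0 ≤ ∑ d ∈ range N, chi κ c N d * V d :=
      sum_nonneg fun e he => mul_nonneg (hχ0 e he) (hV0 e he)
    calc ∑ d ∈ range N, chi κ c N d * V d ^ (1 + θ)
        ≤ ((1 - η / 2) * v) ^ θ * ∑ d ∈ range N, chi κ c N d * V d :=
          Rec_sum (range N) (fun d => chi κ c N d) V hχ0 hV0 hθ hall
      _ ≤ (Real.exp (-(θ * (η / 2))) * v ^ θ) * ((1 + a) * v) :=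
          mul_le_mul h17 h16 h21 (mul_nonneg (Real.exp_pos _).le hvθ0)
      _ = (Real.exp (-(θ * (η / 2))) * (1 + a)) * (v * v ^ θ) := by ring
      _ ≤ 1 * (v * v ^ θ) := mul_le_mul_of_nonneg_right h18 (mul_nonneg hv hvθ0)
      _ ≤ (Real.exp ((c + a * η) * θ) * (g + a * η + c * (2 * η + ε))) * (v * v ^ θ) :=
          mul_le_mul_of_nonneg_right h20 (mul_nonneg hv hvθ0)
      _ = Real.exp ((c + a * η) * θ) * (g + a * η + c * (2 * η + ε)) * v ^ (1 + θ) := by rw [hvθ]

end Pool.Agent.Helper26.G4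
end
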