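import Mathlib
import Pool.Agent.Helper24.K6.G02
import Pool.Agent.Helper24.K6.G03
import Pool.Agent.Helper24.K6.G04
import Pool.Agent.Helper24.K6.G05
import Pool.Agent.Helper24.K6.G06

/- Helper24.K6w.H22.Marshall.LogPhi -/
section
/-!
The logarithm of the two point function `(φ ζ - φ ω)/(ζ⁻¹ - ω⁻¹)`.
-/

set_option autoImplicit false

open MeasureTheory Set Metric Filter Topology
open scoped ENNReal NNReal Real Nat

namespace Pool.Agent.Helper22.Marshall

open Pool.Agent.Helper39.Area (Ext phi dphi qq_ne qq_diff dslope_cont eq_zero_of_exp_one)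

theorem differentiableOn_of_exp {f : ℂ → ℂ} {s : Set ℂ} (hs : IsOpen s) (hf : ContinuousOn f s)
    (he : DifferentiableOn ℂ (fun z => Complex.exp (f z)) s) : DifferentiableOn ℂ f s := by
  intro z hz
  apply DifferentiableAt.differentiableWithinAt
  have hfz : ContinuousAt f z := hf.continuousAt (hs.mem_nhds hz)
  have hez : DifferentiableAt ℂ (fun z => Complex.exp (f z)) z := he.differentiableAt (hs.mem_nhds hz)
  have h1 : DifferentiableAt ℂ (fun w => f z + Complex.log (Complex.exp (f w) * Complex.exp (-f z))) z := by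
    apply DifferentiableAt.const_add
    apply DifferentiableAt.clog
    · exact hez.mul_const _
    · rw [← Complex.exp_add, add_neg_cancel, Complex.exp_zero]
      exact Complex.one_mem_slitPlane
  apply h1.congr_of_eventuallyEq
  have h2 : ∀ᶠ w in 𝓝 z, ‖f w - f z‖ < 1 := by
    have h3 : ContinuousAt (fun w => ‖f w - f z‖) z := (hfz.sub continuousAt_const).norm
    have h4 : ‖f z - f z‖ < 1 := by simp
    exact h3.eventually_lt continuousAt_const h4
  filter_upwards [h2] with w hw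
  rw [← Complex.exp_add, Complex.log_exp]
  · ring
  · have h5 := Complex.abs_im_le_norm (f w - f z)
    have h6 := (abs_lt.mp (h5.trans_lt hw)).1
    have hpi := Real.pi_gt_three
    rw [← sub_eq_add_neg]
    (clear * - h6 hpi; linarith only [h6, hpi])
  · have h5 := Complex.abs_im_le_norm (f w - f z)
    have h6 := (abs_lt.mp (h5.trans_lt hw)).2
    have hpi := Real.pi_gt_three
    rw [← sub_eq_add_neg]
    (clear * - h6 hpi; linarith only [h6, hpi])

theorem qq_symm (β : ℂ → ℂ) (a b : ℂ) :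
    Pool.Agent.Helper39.Area.qq β a b = Pool.Agent.Helper39.Area.qq β b a := by
  unfold Pool.Agent.Helper39.Area.qq
  by_cases h : a = b
  · subst h; rfl
  · have e : dslope β a b = dslope β b a := by
      rw [dslope_of_ne _ (Ne.symm h), dslope_of_ne _ h, slope_comm]
    rw [e]; ring

/-- the data of the logarithm of the two point function -/
structure LogPhi (β H : ℂ → ℂ) (Φ : ℂ → ℂ → ℂ) : Prop where
  sep : SepHol Φ
  exp_eq : ∀ a ∈ ball (0 : ℂ) 1, ∀ b ∈ ball (0 : ℂ) 1,
    Complex.exp (Φ a b) = Pool.Agent.Helper39.Area.qq β a b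
  zero_right : ∀ a ∈ ball (0 : ℂ) 1, Φ a 0 = 0
  symm : ∀ a ∈ ball (0 : ℂ) 1, ∀ b ∈ ball (0 : ℂ) 1, Φ a b = Φ b a
  diag : ∀ a ∈ ball (0 : ℂ) 1, Φ a a = H a

theorem exists_logPhi {β : ℂ → ℂ} (h : Ext β) {H : ℂ → ℂ} (hH : ContinuousOn H (ball 0 1))
    (hH0 : H 0 = 0)
    (hexp : ∀ ζ ∈ ball (0 : ℂ) 1, Complex.exp (H ζ) = 1 - ζ ^ 2 * deriv β ζ) :
    ∃ Φ : ℂ → ℂ → ℂ, LogPhi β H Φ := by
  set U : Set (ℂ × ℂ) := ball 0 1 ×ˢ ball 0 1 with hU
  have hUo : IsOpen U := isOpen_ball.prod isOpen_ball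
  have hUconv : Convex ℝ U := (convex_ball _ _).prod (convex_ball _ _)
  have h00 : ((0:ℂ), (0:ℂ)) ∈ U := ⟨mem_ball_self one_pos, mem_ball_self one_pos⟩
  have h0b : (0:ℂ) ∈ ball (0:ℂ) 1 := mem_ball_self one_pos
  have hUs : IsSimplyConnected U := by
    have hc : ContractibleSpace U := hUconv.contractibleSpace ⟨_, h00⟩
    show SimplyConnectedSpace U
    infer_instance
  have hqc : ContinuousOn (fun p : ℂ × ℂ => Pool.Agent.Helper39.Area.qq β p.1 p.2) U := by
    unfold Pool.Agent.Helper39.Area.qq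
    apply ContinuousOn.sub continuousOn_const
    apply ContinuousOn.mul (by fun_prop)
    exact dslope_cont h.diff
  have hq0 : 0 ∉ (fun p : ℂ × ℂ => Pool.Agent.Helper39.Area.qq β p.1 p.2) '' U := by
    rintro ⟨p, ⟨hp1, hp2⟩, hp⟩
    exact qq_ne h hp1 hp2 hp
  obtain ⟨Φ, hΦc, hΦ⟩ := Complex.exists_continuousOn_eqOn_exp_comp hUs hUo hqc hq0
  have hΦe : ∀ b ∈ ball (0:ℂ) 1, ∀ ζ ∈ ball (0:ℂ) 1,
      Complex.exp (Φ (b, ζ)) = Pool.Agent.Helper39.Area.qq β b ζ :=
    fun b hb ζ hζ => hΦ (show (b, ζ) ∈ U from ⟨hb, hζ⟩)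
  have hq00 : ∀ a : ℂ, Pool.Agent.Helper39.Area.qq β a 0 = 1 := by
    intro a; simp [Pool.Agent.Helper39.Area.qq]
  have hΨe : ∀ a ∈ ball (0:ℂ) 1, ∀ b ∈ ball (0:ℂ) 1,
      Complex.exp (Φ (a, b) - Φ (0, 0)) = Pool.Agent.Helper39.Area.qq β a b := by
    intro a ha b hb
    rw [Complex.exp_sub, hΦe a ha b hb, hΦe 0 h0b 0 h0b, hq00, div_one]
  have hΨc : ContinuousOn (fun p : ℂ × ℂ => Φ (p.1, p.2) - Φ (0, 0)) U := by
    have : ContinuousOn (fun p : ℂ × ℂ => Φ (p.1, p.2)) U := hΦc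
    exact this.sub continuousOn_const
  have hright : ∀ a ∈ ball (0:ℂ) 1,
      DifferentiableOn ℂ (fun b => Φ (a, b) - Φ (0, 0)) (ball 0 1) := by
    intro a ha
    apply differentiableOn_of_exp isOpen_ball
    · exact hΨc.comp (f := fun b => (a, b)) (by fun_prop) (fun b hb => ⟨ha, hb⟩)
    · apply (qq_diff h.diff ha).congr
      intro b hb
      exact hΨe a ha b hb
  have hleft : ∀ b ∈ ball (0:ℂ) 1,
      DifferentiableOn ℂ (fun a => Φ (a, b) - Φ (0, 0)) (ball 0 1) := by
    intro b hb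
    apply differentiableOn_of_exp isOpen_ball
    · exact hΨc.comp (f := fun a => (a, b)) (by fun_prop) (fun a ha => ⟨ha, hb⟩)
    · apply (qq_diff h.diff hb).congr
      intro a ha
      rw [hΨe a ha b hb, qq_symm]
  refine ⟨fun a b => Φ (a, b) - Φ (0, 0), ⟨hΨc, hleft, hright⟩, hΨe, ?_, ?_, ?_⟩
  · apply eq_zero_of_exp_one (convex_ball (0:ℂ) 1).isPreconnected _ _ h0b (by simp)
    · exact hΨc.comp (f := fun a => (a, 0)) (by fun_prop) (fun a ha => ⟨ha, h0b⟩)
    · intro a ha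
      rw [hΨe a ha 0 h0b, hq00]
  · have h1 : ∀ p ∈ U, (Φ (p.1, p.2) - Φ (0, 0)) - (Φ (p.2, p.1) - Φ (0, 0)) = 0 := by
      apply eq_zero_of_exp_one hUconv.isPreconnected _ _ h00 (by simp)
      · apply hΨc.sub
        exact hΨc.comp (f := fun p : ℂ × ℂ => (p.2, p.1)) (by fun_prop) (fun p hp => ⟨hp.2, hp.1⟩)
      · rintro ⟨a, b⟩ ⟨ha, hb⟩
        simp only at ha hb ⊢
        rw [Complex.exp_sub, hΨe a ha b hb, hΨe b hb a ha, qq_symm β a b, div_self]
        exact qq_ne h hb ha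
    intro a ha b hb
    have := h1 (a, b) ⟨ha, hb⟩
    simp only at this
    exact sub_eq_zero.mp this
  · have h1 : ∀ a ∈ ball (0:ℂ) 1, (Φ (a, a) - Φ (0, 0)) - H a = 0 := by
      apply eq_zero_of_exp_one (convex_ball (0:ℂ) 1).isPreconnected _ _ h0b (by simp [hH0])
      · apply ContinuousOn.sub _ hH
        exact hΨc.comp (f := fun a => (a, a)) (by fun_prop) (fun a ha => ⟨ha, ha⟩)
      · intro a ha
        rw [Complex.exp_sub, hΨe a ha a ha, hexp a ha]
        have e : Pool.Agent.Helper39.Area.qq β a a = 1 - a ^ 2 * deriv β a := by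
          unfold Pool.Agent.Helper39.Area.qq
          rw [dslope_same]; ring
        rw [e, div_self (h.ne a ha)]
    intro a ha
    exact sub_eq_zero.mp (h1 a ha)

end Pool.Agent.Helper22.Marshall
end

/- Helper24.K6w.H22.Half.Faber -/
section
/-!
The Faber type polynomials: coefficients of `ω^i` in `(ω(φ(ω) - φ(ζ)))^{s}`.
-/

set_option autoImplicit false

open MeasureTheory Set Metric Filter Topology
open scoped ENNReal NNReal Real Nat

namespace Pool.Agent.Helper22.Half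

open Pool.Agent.Helper39.Area (Ext phi dphi qq_ne qq_diff phi_sub)
open Pool.Agent.Helper22.Marshall (coeff coeff_mul coeff_const_mul coeff_deriv coeff_zero coeff_congr
  coeff_eq_of_hasSum hasSum_coeff LogPhi)

/-- abstract Taylor recursion: `D T' = -θ D' T` with `D = 1 + ω (β - φ)` -/
theorem coeff_rec {D T : ℂ → ℂ} (hD : AnalyticAt ℂ D 0) (hT : AnalyticAt ℂ T 0) {θ : ℂ}
    (hD0 : D 0 = 1) (h : ∀ᶠ w in 𝓝 (0 : ℂ), D w * deriv T w = -θ * (deriv D w * T w)) (n : ℕ) :
    ((n : ℂ) + 1) * coeff T (n + 1)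
      = -∑ i ∈ Finset.range (n + 1), (θ * ((i : ℂ) + 1) + ((n - i : ℕ) : ℂ)) * coeff D (i + 1)
          * coeff T (n - i) := by
  have h1 := coeff_congr h n
  rw [coeff_mul hD hT.deriv, coeff_const_mul, coeff_mul hD.deriv hT] at h1
  simp_rw [coeff_deriv] at h1
  rw [Finset.sum_range_succ'] at h1
  simp only [coeff_zero, hD0, one_mul, Nat.sub_zero] at h1
  -- the shifted sum
  have h2 : ∑ k ∈ Finset.range n, coeff D (k + 1) * (((n - (k + 1) : ℕ) : ℂ) + 1)
      * coeff T (n - (k + 1) + 1)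
      = ∑ i ∈ Finset.range (n + 1), ((n - i : ℕ) : ℂ) * coeff D (i + 1) * coeff T (n - i) := by
    rw [Finset.sum_range_succ]
    simp only [Nat.sub_self, Nat.cast_zero, zero_mul, add_zero]
    apply Finset.sum_congr rfl
    intro k hk
    rw [Finset.mem_range] at hk
    have e : n - (k + 1) + 1 = n - k := by omega
    rw [e]
    have e2 : ((n - (k + 1) : ℕ) : ℂ) + 1 = ((n - k : ℕ) : ℂ) := by
      rw [← e]; push_cast; ring
    rw [e2]
    ring
  have h3 : ∑ k ∈ Finset.range n, coeff D (k + 1) * ((((n - (k + 1) : ℕ) : ℂ) + 1)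
      * coeff T (n - (k + 1) + 1))
      = ∑ i ∈ Finset.range (n + 1), ((n - i : ℕ) : ℂ) * coeff D (i + 1) * coeff T (n - i) := by
    rw [← h2]
    apply Finset.sum_congr rfl
    intro k _
    ring
  rw [h3] at h1
  have h4 : ∑ i ∈ Finset.range (n + 1), (θ * ((i : ℂ) + 1) + ((n - i : ℕ) : ℂ)) * coeff D (i + 1)
          * coeff T (n - i)
      = θ * ∑ i ∈ Finset.range (n + 1), ((i : ℂ) + 1) * coeff D (i + 1) * coeff T (n - i)
        + ∑ i ∈ Finset.range (n + 1), ((n - i : ℕ) : ℂ) * coeff D (i + 1) * coeff T (n - i) := by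
    rw [Finset.mul_sum, ← Finset.sum_add_distrib]
    apply Finset.sum_congr rfl
    intro i _
    ring
  rw [h4]
  linear_combination h1

/-- polynomials with prescribed recursion -/
theorem exists_poly (θ : ℂ) (bc : ℕ → ℂ) (n : ℕ) : ∃ P : ℕ → Polynomial ℂ,
    (∀ k ≤ n, (P k).natDegree ≤ k) ∧ P 0 = 1 ∧ ∀ k < n, Polynomial.C ((k : ℂ) + 1) * P (k + 1)
      = -∑ i ∈ Finset.range (k + 1), Polynomial.C (θ * ((i : ℂ) + 1) + ((k - i : ℕ) : ℂ))
        * (Polynomial.C (bc i) - if i = 0 then Polynomial.X else 0) * P (k - i) := by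
  induction n with
  | zero =>
    refine ⟨fun _ => 1, fun k hk => by simp, rfl, fun k hk => by omega⟩
  | succ n ih =>
    obtain ⟨P, hP1, hP0, hP2⟩ := ih
    obtain ⟨Q, hQ⟩ : ∃ Q : Polynomial ℂ, Q = Polynomial.C (((n : ℂ) + 1)⁻¹) * (-∑ i ∈ Finset.range (n + 1), Polynomial.C (θ * ((i : ℂ) + 1) + ((n - i : ℕ) : ℂ))
        * (Polynomial.C (bc i) - if i = 0 then Polynomial.X else 0) * P (n - i)) := ⟨_, rfl⟩
    have hQd : Q.natDegree ≤ n + 1 := by
      rw [hQ]
      refine (Polynomial.natDegree_C_mul_le _ _).trans ?_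
      rw [Polynomial.natDegree_neg]
      apply Polynomial.natDegree_sum_le_of_forall_le
      intro i hi
      rw [Finset.mem_range] at hi
      rw [mul_assoc]
      refine (Polynomial.natDegree_C_mul_le _ _).trans ?_
      refine Polynomial.natDegree_mul_le.trans ?_
      have h1 := hP1 (n - i) (by omega)
      have h2 : (Polynomial.C (bc i) - if i = 0 then Polynomial.X else 0 : Polynomial ℂ).natDegree
          ≤ i + 1 := by
        refine (Polynomial.natDegree_sub_le _ _).trans ?_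
        rw [Polynomial.natDegree_C]
        split_ifs
        · simp
        · simp
      omega
    refine ⟨fun k => if k = n + 1 then Q else P k, ?_, ?_, ?_⟩
    · intro k hk
      by_cases h : k = n + 1
      · simp only [h, if_true]; exact hQd
      · simp only [h, if_false]; exact hP1 k (by omega)
    · simp only [Nat.zero_ne_add_one, if_false]; exact hP0
    · intro k hk
      have e : ∀ i, (if k - i = n + 1 then Q else P (k - i)) = P (k - i) := by
        intro i
        rw [if_neg (by omega)]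
      simp only [e]
      by_cases h : k = n
      · subst h
        simp only [if_true]
        rw [hQ, ← mul_assoc, ← Polynomial.C_mul]
        have : ((k : ℂ) + 1) * ((k : ℂ) + 1)⁻¹ = 1 := mul_inv_cancel₀ (Nat.cast_add_one_ne_zero k)
        rw [this, Polynomial.C_1, one_mul]
      · rw [if_neg (by omega)]
        exact hP2 k (by omega)

theorem coeff_D {g : ℂ → ℂ} (hg : DifferentiableOn ℂ g (ball 0 1)) (n : ℕ) :
    coeff (fun w => 1 + w * g w) (n + 1) = coeff g n := by
  have h := coeff_eq_of_hasSum (f := fun w => 1 + w * g w) (r := 1) one_pos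
    (a := fun n => if n = 0 then 1 else coeff g (n - 1)) (fun z hz => by
      have h1 := (hasSum_coeff hg hz).mul_left z
      rw [← hasSum_nat_add_iff' 1]
      simp only [Finset.range_one, Finset.sum_singleton, if_true, pow_zero, mul_one,
        Nat.add_eq_zero_iff, one_ne_zero, and_false, if_false, Nat.add_sub_cancel, add_sub_cancel_left]
      have e : (fun n => coeff g n * z ^ (n + 1)) = fun n => z * (coeff g n * z ^ n) := by
        funext n; ring
      rw [e]
      exact h1) (n + 1)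
  rw [h]
  simp

theorem choose_eq_pq (α : ℂ) (n : ℕ) : Ring.choose (α + n - 1) n = pq α n := by
  rw [← Ring.multichoose_eq]
  have h : ∀ n : ℕ, (n.factorial : ℂ) * Ring.multichoose α n = (n.factorial : ℂ) * pq α n := by
    intro n
    have e := Ring.factorial_nsmul_multichoose_eq_ascPochhammer α n
    rw [nsmul_eq_mul] at e
    rw [e, Polynomial.ascPochhammer_smeval_eq_eval]
    induction n with
    | zero => simp [pq]
    | succ n ih =>
      have e2 := Ring.factorial_nsmul_multichoose_eq_ascPochhammer α n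
      rw [nsmul_eq_mul] at e2
      have ih' := ih e2
      rw [ascPochhammer_succ_eval, ih']
      have h3 := pq_succ' α n
      rw [Nat.factorial_succ]
      push_cast
      linear_combination (-(n.factorial : ℂ)) * h3
  have hne : (n.factorial : ℂ) ≠ 0 := Nat.cast_ne_zero.mpr (Nat.factorial_ne_zero n)
  exact mul_left_cancel₀ hne (h n)

theorem hasSum_pq (α : ℂ) {x : ℂ} (hx : ‖x‖ < 1) :
    HasSum (fun n : ℕ => pq α n * x ^ n) (1 / (1 - x) ^ α) := by
  have h := (Complex.one_div_one_sub_cpow_hasFPowerSeriesOnBall_zero α).hasSum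
    (y := x) (by
      rw [Metric.mem_eball, edist_zero_right]
      rw [← ofReal_norm]
      exact ENNReal.ofReal_lt_one.mpr hx)
  rw [zero_add] at h
  have e : (fun n : ℕ => pq α n * x ^ n) = fun n => ((FormalMultilinearSeries.ofScalars ℂ
      fun n ↦ Ring.choose (α + n - 1) n) n) fun _ => x := by
    funext n
    rw [FormalMultilinearSeries.ofScalars_apply_eq, choose_eq_pq]
    simp
  rw [e]
  exact h

theorem coeff_power (s : ℂ) {ζ : ℂ} (h0 : ζ ≠ 0) (n : ℕ) :
    coeff (fun w => Complex.exp (s * Complex.log (1 - w / ζ))) n = pq (-s) n * (ζ⁻¹) ^ n := by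
  apply coeff_eq_of_hasSum (r := ‖ζ‖) (norm_pos_iff.mpr h0)
  intro z hz
  have hx : ‖z / ζ‖ < 1 := by
    rw [norm_div, div_lt_one (norm_pos_iff.mpr h0)]; exact hz
  have h1 := hasSum_pq (-s) hx
  have hne : 1 - z / ζ ≠ 0 := by
    intro h
    rw [sub_eq_zero] at h
    rw [← h] at hx
    simp at hx
  have e : (1 / (1 - z / ζ) ^ (-s)) = Complex.exp (s * Complex.log (1 - z / ζ)) := by
    rw [Complex.cpow_def_of_ne_zero hne, one_div, ← Complex.exp_neg]
    congr 1; ring
  rw [e] at h1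
  have e2 : (fun n => pq (-s) n * ζ⁻¹ ^ n * z ^ n) = fun n => pq (-s) n * (z / ζ) ^ n := by
    funext n
    rw [div_eq_mul_inv, mul_pow]
    ring
  rw [e2]
  exact h1

theorem one_sub_slit {ζ w : ℂ} (h0 : ζ ≠ 0) (hw : ‖w‖ < ‖ζ‖) : 1 - w / ζ ∈ Complex.slitPlane := by
  have hx : ‖w / ζ‖ < 1 := by
    rw [norm_div, div_lt_one (norm_pos_iff.mpr h0)]; exact hw
  left
  have := (abs_le.mp (Complex.abs_re_le_norm (w / ζ))).2
  rw [Complex.sub_re, Complex.one_re]
  linarith only [hx, this]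

section
variable {β H : ℂ → ℂ} {Φ : ℂ → ℂ → ℂ}

/-- the function `T` -/
noncomputable def TF (Φ : ℂ → ℂ → ℂ) (s ζ w : ℂ) : ℂ :=
  Complex.exp (s * (Complex.log (1 - w / ζ) + Φ ζ w))

theorem TF_diff (hΦ : LogPhi β H Φ) {ζ : ℂ} (hζ : ζ ∈ ball (0 : ℂ) 1) (h0 : ζ ≠ 0) :
    ∀ w : ℂ, ‖w‖ < ‖ζ‖ → DifferentiableAt ℂ (fun w => Complex.log (1 - w / ζ) + Φ ζ w) w := by
  intro w hw
  rw [mem_ball_zero_iff] at hζ
  apply DifferentiableAt.add
  · apply DifferentiableAt.clog
    · fun_prop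
    · exact one_sub_slit h0 hw
  · exact (hΦ.sep.right ζ (mem_ball_zero_iff.mpr hζ)).differentiableAt
      (isOpen_ball.mem_nhds (mem_ball_zero_iff.mpr (hw.trans hζ)))

theorem D_eq (hΦ : LogPhi β H Φ) {ζ : ℂ} (hζ : ζ ∈ ball (0 : ℂ) 1) (h0 : ζ ≠ 0) {w : ℂ}
    (hw : ‖w‖ < ‖ζ‖) :
    Complex.exp (Complex.log (1 - w / ζ) + Φ ζ w) = 1 + w * (β w - phi β ζ) := by
  have hz1 := hζ
  rw [mem_ball_zero_iff] at hz1
  have hne : 1 - w / ζ ≠ 0 := Complex.slitPlane_ne_zero (one_sub_slit h0 hw)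
  rw [Complex.exp_add, Complex.exp_log hne, hΦ.exp_eq ζ hζ w (mem_ball_zero_iff.mpr (hw.trans hz1))]
  by_cases hw0 : w = 0
  · subst hw0
    simp [Pool.Agent.Helper39.Area.qq]
  · have h1 := phi_sub (β := β) ζ w h0 hw0
    have h2 : phi β w = w⁻¹ + β w := rfl
    have h3 : (1 - w / ζ) * Pool.Agent.Helper39.Area.qq β ζ w
        = w * ((w⁻¹ - ζ⁻¹) * Pool.Agent.Helper39.Area.qq β ζ w) := by
      (clear * - h0 hw0; field_simp)
    rw [h3, ← h1, h2]
    field_simp
    ring

theorem TF_ode (hΦ : LogPhi β H Φ) (s : ℂ) {ζ : ℂ} (hζ : ζ ∈ ball (0 : ℂ) 1) (h0 : ζ ≠ 0) :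
    ∀ᶠ w in 𝓝 (0 : ℂ), (1 + w * (β w - phi β ζ)) * deriv (TF Φ s ζ) w
      = -(-s) * (deriv (fun w => 1 + w * (β w - phi β ζ)) w * TF Φ s ζ w) := by
  have hpos : 0 < ‖ζ‖ := norm_pos_iff.mpr h0
  filter_upwards [ball_mem_nhds (0 : ℂ) hpos] with w hw
  rw [mem_ball_zero_iff] at hw
  have h1 := (TF_diff hΦ hζ h0 w hw).hasDerivAt
  have h2 := h1.cexp
  have h3 := (h1.const_mul s).cexp
  have e3 : deriv (TF Φ s ζ) w = TF Φ s ζ w * (s *
      deriv (fun w => Complex.log (1 - w / ζ) + Φ ζ w) w) := by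
    have : TF Φ s ζ = fun w => Complex.exp (s * (Complex.log (1 - w / ζ) + Φ ζ w)) := rfl
    rw [this]
    exact h3.deriv
  have e2 : deriv (fun w => 1 + w * (β w - phi β ζ)) w
      = (1 + w * (β w - phi β ζ)) * deriv (fun w => Complex.log (1 - w / ζ) + Φ ζ w) w := by
    have h4 : (fun w => 1 + w * (β w - phi β ζ)) =ᶠ[𝓝 w]
        fun w => Complex.exp (Complex.log (1 - w / ζ) + Φ ζ w) := by
      have : ball (0 : ℂ) ‖ζ‖ ∈ 𝓝 w := isOpen_ball.mem_nhds (mem_ball_zero_iff.mpr hw)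
      filter_upwards [this] with v hv
      rw [mem_ball_zero_iff] at hv
      exact (D_eq hΦ hζ h0 hv).symm
    rw [h4.deriv_eq, h2.deriv, D_eq hΦ hζ h0 hw]
  rw [e3, e2]
  ring

theorem TF_analytic (hΦ : LogPhi β H Φ) (s : ℂ) {ζ : ℂ} (hζ : ζ ∈ ball (0 : ℂ) 1) (h0 : ζ ≠ 0) :
    AnalyticAt ℂ (TF Φ s ζ) 0 := by
  have hpos : 0 < ‖ζ‖ := norm_pos_iff.mpr h0
  have hd : DifferentiableOn ℂ (TF Φ s ζ) (ball 0 ‖ζ‖) := by
    intro w hw
    rw [mem_ball_zero_iff] at hw
    exact ((TF_diff hΦ hζ h0 w hw).const_mul s).cexp.differentiableWithinAt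
  exact hd.analyticAt (ball_mem_nhds (0 : ℂ) hpos)

/-- the Faber type polynomials -/
theorem faber_T (h : Ext β) (hΦ : LogPhi β H Φ) (s : ℂ) (n : ℕ) :
    ∃ P : ℕ → Polynomial ℂ, (∀ k ≤ n, (P k).natDegree ≤ k) ∧
      ∀ ζ ∈ ball (0 : ℂ) 1, ζ ≠ 0 → ∀ k ≤ n, coeff (TF Φ s ζ) k = (P k).eval (phi β ζ) := by
  obtain ⟨P, hP1, hP0, hP2⟩ := exists_poly (-s) (coeff β) n
  refine ⟨P, hP1, fun ζ hζ h0 => ?_⟩
  have hrec := coeff_rec (D := fun w => 1 + w * (β w - phi β ζ)) (T := TF Φ s ζ) (θ := -s)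
    (by
      have : DifferentiableOn ℂ (fun w => 1 + w * (β w - phi β ζ)) (ball 0 1) := by
        have := h.diff
        fun_prop
      exact this.analyticAt (ball_mem_nhds _ one_pos))
    (TF_analytic hΦ s hζ h0) (by simp) (TF_ode hΦ s hζ h0)
  intro k
  induction k using Nat.strong_induction_on with
  | _ k ih =>
    intro hk
    cases k with
    | zero =>
      rw [coeff_zero, hP0]
      simp [TF, hΦ.zero_right ζ hζ]
    | succ k =>
      have h1 := hrec k
      have h2 := congrArg (Polynomial.eval (phi β ζ)) (hP2 k (by omega))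
      rw [Polynomial.eval_mul, Polynomial.eval_C, Polynomial.eval_neg,
        Polynomial.eval_finsetSum] at h2
      have hne : ((k : ℂ) + 1) ≠ 0 := Nat.cast_add_one_ne_zero k
      apply mul_left_cancel₀ hne
      rw [h1, h2]
      congr 1
      apply Finset.sum_congr rfl
      intro i hi
      rw [Finset.mem_range] at hi
      rw [Polynomial.eval_mul, Polynomial.eval_mul, Polynomial.eval_C, ih (k - i) (by omega) (by omega)]
      have e : coeff (fun w => 1 + w * (β w - phi β ζ)) (i + 1)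
          = Polynomial.eval (phi β ζ) (Polynomial.C (coeff β i) - if i = 0 then Polynomial.X else 0) := by
        rw [coeff_D (g := fun w => β w - phi β ζ) (by
          have := h.diff
          fun_prop)]
        have e2 : coeff (fun w => β w - phi β ζ) i = coeff β i - if i = 0 then phi β ζ else 0 := by
          cases i with
          | zero => simp [coeff_zero]
          | succ i =>
            simp only [Nat.add_eq_zero_iff, one_ne_zero, and_false, if_false, sub_zero]
            unfold coeff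
            congr 1
            rw [iteratedDeriv_succ', iteratedDeriv_succ']
            congr 1
            funext w
            simp
        rw [e2]
        rw [Polynomial.eval_sub, Polynomial.eval_C]
        split_ifs <;> simp
      rw [e]

/-- the Faber type polynomials for the symmetric kernel -/
theorem faber_E (h : Ext β) (hΦ : LogPhi β H Φ) (s : ℂ) (n : ℕ) :
    ∃ P : Polynomial ℂ, P.natDegree ≤ n ∧ ∀ ζ ∈ ball (0 : ℂ) 1, ζ ≠ 0 →
      ζ ^ n * P.eval (phi β ζ) = ∑ l ∈ Finset.range (n + 1), pq (-s) (n - l) *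
        (coeff (fun w => Complex.exp (s * Φ ζ w)) l * ζ ^ l) := by
  obtain ⟨P, hP1, hP2⟩ := faber_T h hΦ s n
  refine ⟨P n, hP1 n le_rfl, ?_⟩
  intro ζ hζ h0
  have hpos : 0 < ‖ζ‖ := norm_pos_iff.mpr h0
  have hFd : DifferentiableOn ℂ (fun w => Complex.exp (s * Φ ζ w)) (ball 0 1) :=
    ((hΦ.sep.right ζ hζ).const_mul _).cexp
  have hS : AnalyticAt ℂ (fun w => Complex.exp (s * Complex.log (1 - w / ζ))) 0 := by
    have hd : DifferentiableOn ℂ (fun w => Complex.exp (s * Complex.log (1 - w / ζ)))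
        (ball 0 ‖ζ‖) := by
      intro w hw
      rw [mem_ball_zero_iff] at hw
      apply DifferentiableAt.differentiableWithinAt
      apply DifferentiableAt.cexp
      apply DifferentiableAt.const_mul
      apply DifferentiableAt.clog
      · fun_prop
      · exact one_sub_slit h0 hw
    exact hd.analyticAt (ball_mem_nhds (0 : ℂ) hpos)
  have h2 := coeff_mul hS (hFd.analyticAt (ball_mem_nhds _ one_pos)) n
  have h3 : coeff (TF Φ s ζ) n
      = coeff (fun z => Complex.exp (s * Complex.log (1 - z / ζ)) * Complex.exp (s * Φ ζ z)) n := by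
    congr 1
    funext z
    unfold TF
    rw [mul_add, Complex.exp_add]
  rw [h2] at h3
  rw [← hP2 ζ hζ h0 n le_rfl, h3, Finset.mul_sum, ← Finset.sum_range_reflect]
  apply Finset.sum_congr rfl
  intro l hl
  rw [Finset.mem_range] at hl
  have e1 : n + 1 - 1 - l = n - l := by omega
  have e2 : n - (n - l) = l := by omega
  rw [e1, e2, coeff_power s h0]
  have e3 : ζ ^ n = ζ ^ (n - l) * ζ ^ l := by rw [← pow_add]; congr 1; omega
  rw [e3, inv_pow]
  have : ζ ^ (n - l) ≠ 0 := pow_ne_zero _ h0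
  field_simp

end

end Pool.Agent.Helper22.Half
end

/- Helper24.K6w.H22.Half.GrowthA -/
section
/-!
Expansion of the exponential of the kernel and the area inequality.
-/

set_option autoImplicit false

open MeasureTheory Set Metric Filter Topology
open scoped ENNReal NNReal Real Nat ComplexConjugate

namespace Pool.Agent.Helper22.Half

open Pool.Agent.Helper39.Area (Ext phi)
open Pool.Agent.Helper22.Marshall (coeff SepHol LogPhi dcoeff GLe coeff_congr)

theorem hasSum_shift {a : ℕ → ℂ} {z s : ℂ} (h : HasSum (fun k => a k * z ^ k) s) (l : ℕ) :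
    HasSum (fun m => if l ≤ m then a (m - l) * z ^ m else 0) (s * z ^ l) := by
  rw [← hasSum_nat_add_iff' l]
  have e1 : ∑ i ∈ Finset.range l, (if l ≤ i then a (i - l) * z ^ i else 0) = 0 := by
    apply Finset.sum_eq_zero
    intro i hi
    rw [Finset.mem_range] at hi
    rw [if_neg (by omega)]
  have e2 : (fun n => if l ≤ n + l then a (n + l - l) * z ^ (n + l) else 0)
      = fun n => (a n * z ^ n) * z ^ l := by
    funext n
    rw [if_pos (by omega), Nat.add_sub_cancel, pow_add]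
    ring
  rw [e1, e2, sub_zero]
  exact h.mul_right _

/-- the `m`-th antidiagonal -/
noncomputable def diagc (F : ℂ → ℂ → ℂ) (m l : ℕ) : ℂ := dcoeff F (m - l) l

theorem hasSum_Vd {F : ℂ → ℂ → ℂ} (hF : SepHol F) (s : ℂ) (n : ℕ) {ζ : ℂ} (hζ : ‖ζ‖ < 1) :
    HasSum (fun m => Vd s (diagc F m) m n * ζ ^ m)
      (∑ l ∈ Finset.range (n + 1), pq (-s) (n - l) * (coeff (F ζ) l * ζ ^ l)) := by
  have h1 : ∀ l ∈ Finset.range (n + 1), HasSum (fun m => pq (-s) (n - l) *
      (if l ≤ m then dcoeff F (m - l) l * ζ ^ m else 0))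
      (pq (-s) (n - l) * (coeff (F ζ) l * ζ ^ l)) := by
    intro l _
    apply HasSum.mul_left
    exact hasSum_shift (a := fun k => dcoeff F k l) (hF.hasSum_left hζ l) l
  have h2 := hasSum_sum h1
  have e : (fun m => ∑ l ∈ Finset.range (n + 1), pq (-s) (n - l) *
      (if l ≤ m then dcoeff F (m - l) l * ζ ^ m else 0))
      = fun m => Vd s (diagc F m) m n * ζ ^ m := by
    funext m
    unfold Vd diagc
    rw [Finset.sum_mul]
    symm
    have hsub : Finset.range (min n m + 1) ⊆ Finset.range (n + 1) := by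
      intro l hl
      rw [Finset.mem_range] at hl ⊢
      omega
    rw [← Finset.sum_subset hsub]
    · apply Finset.sum_congr rfl
      intro l hl
      rw [Finset.mem_range] at hl
      rw [if_pos (by omega)]
      ring
    · intro l hl hl2
      rw [Finset.mem_range] at hl hl2
      rw [if_neg (by omega), mul_zero]
  rw [e] at h2
  exact h2

theorem dcoeff_symm {U : ℂ → ℂ → ℂ} (h : SepHol U)
    (hs : ∀ a ∈ ball (0 : ℂ) 1, ∀ b ∈ ball (0 : ℂ) 1, U a b = U b a) (k l : ℕ) :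
    dcoeff U k l = dcoeff U l k := by
  unfold dcoeff
  rw [← h.coeff_comm k l]
  apply coeff_congr
  filter_upwards [ball_mem_nhds (0 : ℂ) one_pos] with w hw
  apply coeff_congr
  filter_upwards [ball_mem_nhds (0 : ℂ) one_pos] with z hz
  exact hs z hz w hw

section
variable {β H : ℂ → ℂ} {Φ : ℂ → ℂ → ℂ}

/-- the symmetric kernel -/
noncomputable def EE (Φ : ℂ → ℂ → ℂ) (s ζ w : ℂ) : ℂ := Complex.exp (s * Φ ζ w)

theorem EE_sep (hΦ : LogPhi β H Φ) (s : ℂ) : SepHol (EE Φ s) where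
  cont := by
    have := hΦ.sep.cont
    exact (continuousOn_const.mul this).cexp
  left := fun w hw => ((hΦ.sep.left w hw).const_mul s).cexp
  right := fun z hz => ((hΦ.sep.right z hz).const_mul s).cexp

theorem EE_symm (hΦ : LogPhi β H Φ) (s : ℂ) (m : ℕ) :
    ∀ l ≤ m, diagc (EE Φ s) m l = diagc (EE Φ s) m (m - l) := by
  intro l hl
  unfold diagc
  rw [dcoeff_symm (EE_sep hΦ s) (fun a ha b hb => by unfold EE; rw [hΦ.symm a ha b hb])]
  congr 1
  omega

theorem EE_zero (hΦ : LogPhi β H Φ) (s : ℂ) : diagc (EE Φ s) 0 0 = 1 := by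
  unfold diagc dcoeff EE
  rw [Pool.Agent.Helper22.Marshall.coeff_zero, Pool.Agent.Helper22.Marshall.coeff_zero,
    hΦ.zero_right 0 (mem_ball_self one_pos), mul_zero, Complex.exp_zero]

theorem EE_diag (hΦ : LogPhi β H Φ) (s : ℂ) (m : ℕ) :
    ∑ l ∈ Finset.range (m + 1), diagc (EE Φ s) m l = coeff (fun z => Complex.exp (s * H z)) m := by
  have h1 := (EE_sep hΦ s).hasSum_diag m
  have h2 : coeff (fun z => EE Φ s z z) m = coeff (fun z => Complex.exp (s * H z)) m := by
    apply coeff_congr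
    filter_upwards [ball_mem_nhds (0 : ℂ) one_pos] with z hz
    unfold EE
    rw [hΦ.diag z hz]
  rw [← h2, h1, ← Finset.sum_range_reflect]
  apply Finset.sum_congr rfl
  intro l hl
  rw [Finset.mem_range] at hl
  unfold diagc
  have e1 : m + 1 - 1 - l = m - l := by omega
  have e2 : m - (m - l) = l := by omega
  rw [e1, e2]

/-- the area inequality for each Faber type polynomial -/
theorem area_V {k : ℝ} (hk : GLe β k) (hE : Ext β) (hΦ : LogPhi β H Φ) (s : ℂ) (i M : ℕ) :
    ∑ m ∈ Finset.range M, ((m - i : ℕ) : ℝ) * ‖Vd s (diagc (EE Φ s) m) m i‖ ^ 2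
      ≤ k ^ 2 * ∑ m ∈ Finset.range i, ((i - m : ℕ) : ℝ) * ‖Vd s (diagc (EE Φ s) m) m i‖ ^ 2 := by
  obtain ⟨P, hP1, hP2⟩ := faber_E hE hΦ s i
  exact hk i P (fun m => Vd s (diagc (EE Φ s) m) m i) hP1 (fun ζ hζ0 hζ1 => by
    rw [hP2 ζ (mem_ball_zero_iff.mpr hζ1) hζ0]
    exact hasSum_Vd (EE_sep hΦ s) s i hζ1) M

end

end Pool.Agent.Helper22.Half
end

/- Helper24.K6w.H22.Half.MeanA -/
section
/-!
Bounds for the numbers `pq`.
-/

set_option autoImplicit false

open MeasureTheory Set Metric Filter Topology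
open scoped ENNReal NNReal Real Nat ComplexConjugate

namespace Pool.Agent.Helper22.Half

theorem pq_cast (b : ℝ) (n : ℕ) : pq (b : ℂ) n = ((pq b n : ℝ) : ℂ) := by
  induction n with
  | zero => simp [pq]
  | succ n ih =>
    rw [pq_succ, pq_succ, ih]
    push_cast
    ring

theorem pq_nonneg {b : ℝ} (hb : 0 ≤ b) (n : ℕ) : 0 ≤ pq b n := by
  induction n with
  | zero => simp [pq]
  | succ n ih => rw [pq_succ]; (clear * - ih hb; positivity)

theorem hasSum_pq_real (b : ℝ) {x : ℝ} (hx0 : 0 ≤ x) (hx : x < 1) :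
    HasSum (fun n : ℕ => pq b n * x ^ n) ((1 - x) ^ (-b)) := by
  have h := hasSum_pq (b : ℂ) (x := (x : ℂ)) (by
    rw [Complex.norm_real, Real.norm_of_nonneg hx0]; exact hx)
  have e : (1 / (1 - (x : ℂ)) ^ (b : ℂ)) = (((1 - x) ^ (-b) : ℝ) : ℂ) := by
    rw [Real.rpow_neg (by (clear * - hx; linarith only [hx])), one_div]
    push_cast
    rw [Complex.ofReal_cpow (by (clear * - hx; linarith))]
    push_cast
    rfl
  rw [e] at h
  have e2 : (fun n : ℕ => pq (b : ℂ) n * (x : ℂ) ^ n)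
      = fun n : ℕ => ((pq b n * x ^ n : ℝ) : ℂ) := by
    funext n; rw [pq_cast]; push_cast; rfl
  rw [e2] at h
  exact Complex.hasSum_ofReal.mp h

theorem pow_mul_pq_le {b : ℝ} (hb : 0 ≤ b) {x : ℝ} (hx0 : 0 ≤ x) (hx : x < 1) (m : ℕ) :
    x ^ m * pq (b + 1) m ≤ (1 - x) ^ (-b) := by
  have h := hasSum_pq_real b hx0 hx
  have h2 : ∑ i ∈ Finset.range (m + 1), pq b i * x ^ i ≤ (1 - x) ^ (-b) := by
    apply sum_le_hasSum _ _ h
    intro i _
    exact mul_nonneg (pq_nonneg hb i) (pow_nonneg hx0 i)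
  refine le_trans ?_ h2
  have h3 := vander b 1 m
  simp only [pq_one, mul_one] at h3
  rw [← h3, Finset.mul_sum]
  apply Finset.sum_le_sum
  intro i hi
  rw [Finset.mem_range] at hi
  rw [mul_comm]
  apply mul_le_mul_of_nonneg_left _ (pq_nonneg hb i)
  exact pow_le_pow_of_le_one hx0 hx.le (by omega)

end Pool.Agent.Helper22.Half
end

/- Helper24.K6w.H24.Br.Defs -/
section
/-!
MP_16b0ee, project BR (the mean of the power -2 of the derivative): common definitions.
-/

set_option autoImplicit false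

open MeasureTheory Set Metric Filter Topology

namespace Pool.Agent.Helper24.Br

open Pool.Agent.Helper22.Half

/-- the constant `b (b + 1) / 2 * int_0^1 x (1 - x) / (x ^ (b + 3) + (1 - x) ^ (b + 3)) dx` -/
noncomputable def Th (b : ℝ) : ℝ :=
  b * (b + 1) / 2 * ∫ x in (0:ℝ)..1, x * (1 - x) / (x ^ (b + 3) + (1 - x) ^ (b + 3))

/-- the bound of the upper form of the antidiagonal `d` of order `m` -/
noncomputable def Um (b : ℝ) (d : ℕ → ℂ) (m : ℕ) : ℝ :=
  (m + 1) * (m + b + 2) / (b * (b + 1)) * (pq (b + 3) m)⁻¹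
    * ‖∑ l ∈ Finset.range (m + 1), d l‖ ^ 2

/-- the midpoints, in the reversed order -/
noncomputable def tt (m i : ℕ) : ℝ := (2 * ((m - i : ℕ) : ℝ) - 1) / (2 * m)

end Pool.Agent.Helper24.Br
end

/- Helper24.K6w.H39.MH.Defs -/
section
/-!
MP_16b0ee, project MH (moment hierarchy for the mean of the power -2 of the derivative):
common definitions. Everything lives in the unit disc (coordinate `1/z`): `H = log psi'(1/z)`,
`G = exp (-H)`.
-/

set_option autoImplicit false

open MeasureTheory Set Metric Filter Topology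
open scoped Real ComplexConjugate

namespace Pool.Agent.Helper39.MH

open Pool.Agent.Helper22.Half
open Pool.Agent.Helper22.Marshall (coeff SepHol LogPhi dcoeff GLe)
open Pool.Agent.Helper39.Area (Ext phi)

/-- the Euler operator -/
noncomputable def th (F : ℂ → ℂ) (z : ℂ) : ℂ := z * deriv F z

/-- the jets: `th g0 = 3 g1 - g0^2`, `th gn = (n+3) g(n+1) + sum_(i+j=n, i,j>=1) gi gj` -/
noncomputable def gg (H : ℂ → ℂ) : ℕ → (ℂ → ℂ)
  | 0 => fun z => -(th H z) / 2
  | 1 => fun z => (th (gg H 0) z + (gg H 0 z) ^ 2) / 3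
  | (n + 2) => fun z =>
      (th (gg H (n + 1)) z - ∑ i : Fin n, gg H (i.1 + 1) z * gg H (n - i.1) z) / ((n : ℂ) + 4)
termination_by n => n
decreasing_by all_goals omega

/-- the weight of a monomial (a list of indices) -/
def wt (A : List ℕ) : ℕ := (A.map (fun n => n + 1)).sum

/-- the value of a monomial -/
noncomputable def ev (c : ℕ → ℂ) (A : List ℕ) : ℂ := (A.map c).prod

/-- the formal derivative of the variable `n` -/
noncomputable def dval (c : ℕ → ℂ) (n : ℕ) : ℂ :=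
  if n = 0 then 3 * c 1 - c 0 ^ 2
  else ((n : ℂ) + 3) * c (n + 1) + ∑ i ∈ Finset.range (n - 1), c (i + 1) * c (n - 1 - i)

/-- the formal derivative of a monomial -/
noncomputable def Dv (c : ℕ → ℂ) : List ℕ → ℂ
  | [] => 0
  | a :: A => dval c a * ev c A + c a * Dv c A

/-- the formal weighted derivative: `th (G * A) = G * DG A` -/
noncomputable def DG (c : ℕ → ℂ) (A : List ℕ) : ℂ := 2 * c 0 * ev c A + Dv c A

/-- the scaled jets -/
noncomputable def cc (H : ℂ → ℂ) (z : ℂ) (n : ℕ) : ℂ :=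
  (((1 - ‖z‖ ^ 2) ^ (n + 1) : ℝ) : ℂ) * gg H n z

/-- weighted area integral with the density `|G|^2 (1-|z|^2)^(b-1)` -/
noncomputable def LG (H : ℂ → ℂ) (b : ℝ) (f : ℂ → ℝ) : ℝ :=
  (1 / π) * ∫ z in ball (0 : ℂ) 1, (1 - ‖z‖ ^ 2) ^ (b - 1) * ‖Complex.exp (-H z)‖ ^ 2 * f z

/-- the relation polynomial of the pair `(A, B)` -/
noncomputable def relv (b : ℝ) (c : ℕ → ℂ) (A B : List ℕ) : ℝ :=
  (DG c A * conj (ev c B)).re - (b + wt A + wt B) * (ev c A * conj (ev c B)).re

/-- the value of a polynomial in the variables and their conjugates -/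
noncomputable def evv (c : ℕ → ℂ) (v : List (ℝ × List ℕ × List ℕ)) : ℂ :=
  (v.map (fun x => (x.1 : ℂ) * (ev c x.2.1 * conj (ev c x.2.2)))).sum

/-- the pointwise constraint (area theorem of the square root transform) -/
noncomputable def ell (c : ℕ → ℂ) : ℝ :=
  1 - ‖(1 + c 0) / 2‖ ^ 2 - 3 * ‖c 1 / 2 - (1 + c 0) ^ 2 / 8‖ ^ 2
    - 5 * ‖(c 1 - c 2) / 2 + (1 + c 0) * c 1 / 4 - (1 + c 0) ^ 3 / 16‖ ^ 2

/-- test data for the lower forms; the variable is `y = 1 - x` -/
structure Test where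
  /-- even parts -/
  E : Fin 3 → ℝ → ℝ
  /-- coefficients of the odd parts -/
  α : Fin 3 → ℝ
  /-- coefficients of the odd parts -/
  β : Fin 3 → ℝ
  /-- the quotients by `y` -/
  ν : Fin 3 → ℝ → ℝ
  cont : ∀ r, ContinuousOn (ν r) (Icc 0 1)
  even : ∀ r, ∀ y ∈ Icc (0:ℝ) 1, E r (1 - y) = E r y
  eq : ∀ r, ∀ y ∈ Icc (0:ℝ) 1, E r y + α r * (1 / 2 - y) + β r * (1 / 2 - y) ^ 3 = y * ν r y

/-- the pairing matrix -/
noncomputable def Test.P (T : Test) (r : Fin 3) : Fin 3 → ℝ :=
  ![(∫ y in (0:ℝ)..1, T.E r y) / 2 + T.α r / 8 + T.β r / 64, -(T.α r) / 2, -(T.β r) / 4]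

/-- the quadratic form in the variables `G, K2/m^2, K4/m^4` -/
noncomputable def Test.Qv (T : Test) (b : ℝ) (r s : Fin 3) : ℝ :=
  T.P r s + T.P s r - ∫ y in (0:ℝ)..1, T.ν r y * T.ν s y * y * (1 - y) ^ (b + 2)

/-- change of variables from `G, (G g1)/m^2, (G g3)/m^4` to `G, K2/m^2, K4/m^4` -/
noncomputable def Mt : Fin 3 → Fin 3 → ℝ := ![![1, 0, 0], ![-(1 / 4), 2, 0], ![5 / 16, -3, 24]]

/-- the quadratic form in the variables `G, (G g1)/m^2, (G g3)/m^4` -/
noncomputable def Qam (Q : Fin 3 → Fin 3 → ℝ) (r s : Fin 3) : ℝ :=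
  ∑ i, ∑ j, Mt i r * Q i j * Mt j s

/-- the monomials `1, c1, c3` -/
def am : Fin 3 → List ℕ := ![[], [1], [3]]

/-- the area form in the scaled variables: the coefficients are divided by the Pochhammer symbol
`b (b+1) ... (b+w-1)` of the total weight `w` -/
noncomputable def qf (Q : Fin 3 → Fin 3 → ℝ) (b : ℝ) (c : ℕ → ℂ) : ℝ :=
  b * (b + 1) * ∑ r, ∑ s, Qam Q r s
    / ((Nat.factorial (wt (am r) + wt (am s)) : ℝ) * pq b (wt (am r) + wt (am s)))
    * (ev c (am r) * conj (ev c (am s))).re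

/-- the class of data: a dilated map of the class -/
structure Data (ρ : ℝ) (β H : ℂ → ℂ) (Φ : ℂ → ℂ → ℂ) : Prop where
  one_lt : 1 < ρ
  ext : Ext β
  logPhi : LogPhi β H Φ
  diff : DifferentiableOn ℂ H (ball 0 ρ)
  bloch : ∀ z ∈ ball (0 : ℂ) 1, (1 - ‖z‖ ^ 2) * ‖deriv H z‖ ≤ 28
  exp_eq : ∀ z ∈ ball (0 : ℂ) 1, Complex.exp (H z) = 1 - z ^ 2 * deriv β z

end Pool.Agent.Helper39.MH
end

/- Helper24.K6w.H39.MH.SqrtArea -/
section
/-!
MP_16b0ee, project MH, module MH-10: the area theorem for the square root transform of a univalent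
function on the unit disc, in terms of the first coefficients.
-/

set_option autoImplicit false

open MeasureTheory Set Metric Filter Topology
open scoped Real ComplexConjugate

namespace Pool.Agent.Helper39.MH

open Pool.Agent.Helper22.Marshall (coeff SepHol LogPhi dcoeff GLe)
open Pool.Agent.Helper39.Area (Ext phi)

/-- the square of a point of the disc is in the disc -/
private theorem sq_mem {u : ℂ} (hu : u ∈ ball (0 : ℂ) 1) : u ^ 2 ∈ ball (0 : ℂ) 1 := by
  rw [mem_ball_zero_iff] at hu ⊢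
  rw [norm_pow]
  (clear * - hu; nlinarith only [norm_nonneg u, hu])

/-- the data of the square root transform -/
private theorem sqrt_data {F : ℂ → ℂ} (hF : DifferentiableOn ℂ F (ball 0 1))
    (hinj : InjOn F (ball 0 1)) (hF0 : F 0 = 0) (hF1 : deriv F 0 = 1) :
    ∃ (g k : ℂ → ℂ), DifferentiableOn ℂ g (ball 0 1) ∧ DifferentiableOn ℂ k (ball 0 1) ∧
      (∀ s, F s = s * g s) ∧ g 0 = 1 ∧ k 0 = 1 ∧ (∀ s ∈ ball (0 : ℂ) 1, k s * k s * g s = 1) ∧
      (∀ s ∈ ball (0 : ℂ) 1, k s ≠ 0) := by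
  have h0b : (0:ℂ) ∈ ball (0:ℂ) 1 := mem_ball_self one_pos
  have hb0 : ball (0:ℂ) 1 ∈ 𝓝 (0:ℂ) := ball_mem_nhds 0 one_pos
  set g : ℂ → ℂ := dslope F 0 with hg
  have hgd : DifferentiableOn ℂ g (ball 0 1) := (Complex.differentiableOn_dslope hb0).mpr hF
  have hg0 : g 0 = 1 := by rw [hg, dslope_same, hF1]
  have hgf : ∀ s : ℂ, F s = s * g s := by
    intro s
    by_cases h : s = 0
    · subst h; simp [hF0]
    · rw [hg, dslope_of_ne _ h, slope_def_field, hF0]
      field_simp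
      ring
  have hgne : ∀ s ∈ ball (0:ℂ) 1, g s ≠ 0 := by
    intro s hs h
    by_cases h0 : s = 0
    · subst h0; rw [hg0] at h; exact one_ne_zero h
    · apply h0
      apply hinj hs h0b
      rw [hgf s, h, mul_zero, hF0]
  obtain ⟨L, hL, hL0, hLe⟩ := Pool.Agent.Helper24.Br.exists_log_ball hgd hgne hg0
  refine ⟨g, fun s => Complex.exp (-(L s) / 2), hgd, ?_, hgf, hg0, ?_, ?_, ?_⟩
  · exact ((hL.neg).div_const 2).cexp
  · simp only [hL0, neg_zero, zero_div, Complex.exp_zero]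
  · intro s hs
    rw [← hLe s hs, ← Complex.exp_add, ← Complex.exp_add]
    have : -L s / 2 + -L s / 2 + L s = 0 := by ring
    rw [this, Complex.exp_zero]
  · intro s _
    exact Complex.exp_ne_zero _

/-- the square root transform is in the class -/
private theorem sqrt_ext {F g k : ℂ → ℂ} (hF : DifferentiableOn ℂ F (ball 0 1))
    (hinj : InjOn F (ball 0 1)) (hk : DifferentiableOn ℂ k (ball 0 1))
    (hgf : ∀ s, F s = s * g s) (hk0 : k 0 = 1)
    (hkg : ∀ s ∈ ball (0 : ℂ) 1, k s * k s * g s = 1) (hkne : ∀ s ∈ ball (0 : ℂ) 1, k s ≠ 0) :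
    ∃ β : ℂ → ℂ, Ext β ∧ ∀ u ∈ ball (0 : ℂ) 1, u ≠ 0 → phi β u = k (u ^ 2) / u := by
  have h0b : (0:ℂ) ∈ ball (0:ℂ) 1 := mem_ball_self one_pos
  have hb0 : ball (0:ℂ) 1 ∈ 𝓝 (0:ℂ) := ball_mem_nhds 0 one_pos
  set k1 : ℂ → ℂ := dslope k 0 with hk1
  have hk1d : DifferentiableOn ℂ k1 (ball 0 1) := (Complex.differentiableOn_dslope hb0).mpr hk
  have hk1e : ∀ s : ℂ, s ≠ 0 → k1 s = (k s - 1) / s := by
    intro s hs
    rw [hk1, dslope_of_ne _ hs, slope_def_field, hk0, sub_zero]
  set β : ℂ → ℂ := fun u => u * k1 (u ^ 2) with hβ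
  have hsq : MapsTo (fun u : ℂ => u ^ 2) (ball (0:ℂ) 1) (ball (0:ℂ) 1) := fun u hu => sq_mem hu
  have hβd : DifferentiableOn ℂ β (ball 0 1) := by
    have h1 : DifferentiableOn ℂ (fun u : ℂ => k1 (u ^ 2)) (ball 0 1) :=
      hk1d.comp (by fun_prop) hsq
    exact differentiableOn_id.mul h1
  have hphi : ∀ u : ℂ, u ≠ 0 → u⁻¹ + β u = k (u ^ 2) / u := by
    intro u hu
    have h2 : u ^ 2 ≠ 0 := pow_ne_zero _ hu
    simp only [hβ]
    rw [hk1e _ h2]
    field_simp
    ring
  -- the relation with F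
  have hrel : ∀ u ∈ ball (0:ℂ) 1, u ≠ 0 → (u⁻¹ + β u) ^ 2 * F (u ^ 2) = 1 := by
    intro u hu h0
    rw [hphi u h0, hgf]
    have h3 := hkg _ (sq_mem hu)
    have : (k (u ^ 2) / u) ^ 2 * (u ^ 2 * g (u ^ 2)) = k (u ^ 2) * k (u ^ 2) * g (u ^ 2) := by
      field_simp
    rw [this, h3]
  have hinj2 : ∀ u w : ℂ, u ∈ ball (0:ℂ) 1 → w ∈ ball (0:ℂ) 1 → u ≠ 0 → w ≠ 0 →
      u⁻¹ + β u = w⁻¹ + β w → u = w := by
    intro u w hu hw hu0 hw0 h
    have h1 := hrel u hu hu0
    have h2 := hrel w hw hw0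
    rw [h] at h1
    have hne : (w⁻¹ + β w) ^ 2 ≠ 0 := by
      intro h3
      rw [h3, zero_mul] at h2
      exact zero_ne_one h2
    have h3 : F (u ^ 2) = F (w ^ 2) := mul_left_cancel₀ hne (h1.trans h2.symm)
    have h4 : u ^ 2 = w ^ 2 := hinj (sq_mem hu) (sq_mem hw) h3
    rw [hphi u hu0, hphi w hw0, h4] at h
    have h5 := hkne _ (sq_mem hw)
    rw [div_eq_div_iff hu0 hw0] at h
    exact (mul_left_cancel₀ h5 h).symm
  refine ⟨β, ⟨hβd, hinj2, ?_⟩, fun u _ h0 => hphi u h0⟩
  intro u hu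
  by_cases h0 : u = 0
  · subst h0; simp
  · intro hcon
    have hub : ball (0:ℂ) 1 ∈ 𝓝 u := isOpen_ball.mem_nhds hu
    have h1 : HasDerivAt (fun u : ℂ => u⁻¹ + β u) (-(u ^ 2)⁻¹ + deriv β u) u :=
      (hasDerivAt_inv h0).add ((hβd.differentiableAt hub).hasDerivAt)
    have hz : -(u ^ 2)⁻¹ + deriv β u = 0 := by
      have h2 : u ^ 2 ≠ 0 := pow_ne_zero _ h0
      have h3 : deriv β u = 1 / u ^ 2 := by
        rw [eq_div_iff h2]
        linear_combination -hcon
      rw [h3]
      field_simp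
      ring
    rw [hz] at h1
    have h2 : HasDerivAt (fun u : ℂ => F (u ^ 2)) (deriv F (u ^ 2) * (2 * u)) u := by
      have h3 : HasDerivAt F (deriv F (u ^ 2)) (u ^ 2) :=
        (hF.differentiableAt (isOpen_ball.mem_nhds (sq_mem hu))).hasDerivAt
      have h4 : HasDerivAt (fun u : ℂ => u ^ 2) (2 * u) u := by
        simpa using hasDerivAt_pow 2 u
      exact h3.comp u h4
    have h3 := (h1.pow 2).mul h2
    have h4 : (fun u : ℂ => (u⁻¹ + β u) ^ 2 * F (u ^ 2)) =ᶠ[𝓝 u] fun _ => (1 : ℂ) := by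
      filter_upwards [hub, isOpen_ne.mem_nhds h0] with w hw hw0
      exact hrel w hw hw0
    have h5 := (h3.congr_of_eventuallyEq h4.symm).unique (hasDerivAt_const u (1 : ℂ))
    have h6 : (u⁻¹ + β u) ^ 2 ≠ 0 := by
      intro h7
      have h8 := hrel u hu h0
      rw [h7, zero_mul] at h8
      exact zero_ne_one h8
    have h7 : (u⁻¹ + β u) ^ 2 * (deriv F (u ^ 2) * (2 * u)) = 0 := by
      simpa using h5
    have h8 := Pool.Agent.Helper24.Br.deriv_ne_of_inj isOpen_ball hF hinj (sq_mem hu)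
    rcases mul_eq_zero.mp h7 with h9 | h9
    · exact h6 h9
    · rcases mul_eq_zero.mp h9 with h10 | h10
      · exact h8 h10
      · exact h0 (by simpa using h10)

theorem sqrt_area {F : ℂ → ℂ} (hF : DifferentiableOn ℂ F (ball 0 1)) (hinj : InjOn F (ball 0 1))
    (hF0 : F 0 = 0) (hF1 : deriv F 0 = 1) {a2 a3 a4 : ℂ} (h2 : coeff F 2 = a2)
    (h3 : coeff F 3 = a3) (h4 : coeff F 4 = a4) {B0 B1 B2 : ℂ} (hB0 : B0 = -a2)
    (hB1 : B1 = a2 ^ 2 - a3) (hB2 : B2 = -a4 + 2 * a2 * a3 - a2 ^ 3) :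
    ‖B0 / 2‖ ^ 2 + 3 * ‖B1 / 2 - B0 ^ 2 / 8‖ ^ 2
      + 5 * ‖B2 / 2 - B0 * B1 / 4 + B0 ^ 3 / 16‖ ^ 2 ≤ 1 := by
  obtain ⟨g, k, hg, hk, hgf, hg0, hk0, hkg, hkne⟩ := sqrt_data hF hinj hF0 hF1
  obtain ⟨β, hE, hphi⟩ := sqrt_ext hF hinj hk hgf hk0 hkg hkne
  have hb0 : ball (0:ℂ) 1 ∈ 𝓝 (0:ℂ) := ball_mem_nhds 0 one_pos
  have hga : AnalyticAt ℂ g 0 := hg.analyticAt hb0
  have hka : AnalyticAt ℂ k 0 := hk.analyticAt hb0
  -- the coefficients of g
  have hcg : ∀ n, coeff F (n + 1) = coeff g n := by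
    intro n
    have e : F = fun z => z * g z := funext hgf
    have ha : AnalyticAt ℂ (fun z : ℂ => z) 0 := analyticAt_id
    rw [e, Pool.Agent.Helper22.Marshall.coeff_mul ha hga, Finset.sum_eq_single 1]
    · have : coeff (fun z : ℂ => z) 1 = 1 := by
        rw [Pool.Agent.Helper22.Marshall.coeff_one]
        simp
      rw [this, one_mul]
      rfl
    · intro i _ hi
      have : coeff (fun z : ℂ => z) i = 0 := by
        rcases Nat.eq_zero_or_pos i with h | h
        · subst h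
          rw [Pool.Agent.Helper22.Marshall.coeff_zero]
        · have h1 : coeff (fun z : ℂ => z) i = (if i = 1 then 1 else 0 : ℂ) := by
            apply Pool.Agent.Helper22.Marshall.coeff_eq_of_hasSum
              (a := fun i => if i = 1 then 1 else 0) one_pos
            intro z _
            have h2 : HasSum (fun n : ℕ => (if n = 1 then 1 else 0 : ℂ) * z ^ n)
                ((if 1 = 1 then 1 else 0 : ℂ) * z ^ 1) := by
              apply hasSum_single
              intro b hb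
              rw [if_neg hb, zero_mul]
            simpa using h2
          rw [h1, if_neg hi]
      rw [this, zero_mul]
    · intro h
      exact absurd (Finset.mem_range.mpr (by omega)) h
  have g0 : coeff g 0 = 1 := by rw [Pool.Agent.Helper22.Marshall.coeff_zero, hg0]
  have g1 : coeff g 1 = a2 := by rw [← hcg, h2]
  have g2 : coeff g 2 = a3 := by rw [← hcg, h3]
  have g3 : coeff g 3 = a4 := by rw [← hcg, h4]
  have k0 : coeff k 0 = 1 := by rw [Pool.Agent.Helper22.Marshall.coeff_zero, hk0]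
  -- the coefficients of the product
  have hprod : (fun z => k z * k z * g z) =ᶠ[𝓝 0] fun _ => (1 : ℂ) := by
    filter_upwards [hb0] with z hz
    exact hkg z hz
  have hone : ∀ n, 0 < n → coeff (fun _ : ℂ => (1 : ℂ)) n = 0 := by
    intro n hn
    have h1 : coeff (fun _ : ℂ => (1 : ℂ)) n = (if n = 0 then 1 else 0 : ℂ) := by
      apply Pool.Agent.Helper22.Marshall.coeff_eq_of_hasSum
        (a := fun i => if i = 0 then 1 else 0) one_pos
      intro z _
      have h2 : HasSum (fun n : ℕ => (if n = 0 then 1 else 0 : ℂ) * z ^ n)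
          ((if 0 = 0 then 1 else 0 : ℂ) * z ^ 0) := by
        apply hasSum_single
        intro b hb
        rw [if_neg hb, zero_mul]
      simpa using h2
    rw [h1, if_neg (by omega)]
  have hkk : ∀ n, coeff (fun z => k z * k z) n
      = ∑ i ∈ Finset.range (n + 1), coeff k i * coeff k (n - i) :=
    fun n => Pool.Agent.Helper22.Marshall.coeff_mul hka hka n
  have hpr : ∀ n, 0 < n → ∑ i ∈ Finset.range (n + 1), coeff (fun z => k z * k z) i
      * coeff g (n - i) = 0 := by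
    intro n hn
    have hka2 : AnalyticAt ℂ (fun z => k z * k z) 0 := hka.mul hka
    rw [← Pool.Agent.Helper22.Marshall.coeff_mul hka2 hga n,
      Pool.Agent.Helper22.Marshall.coeff_congr hprod, hone n hn]
  have q0 : coeff (fun z => k z * k z) 0 = 1 := by
    rw [hkk]; simp [k0]
  have q1 : coeff (fun z => k z * k z) 1 = 2 * coeff k 1 := by
    rw [hkk]; simp [Finset.sum_range_succ, k0]; ring
  have q2 : coeff (fun z => k z * k z) 2 = 2 * coeff k 2 + coeff k 1 ^ 2 := by
    rw [hkk]; simp [Finset.sum_range_succ, k0]; ring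
  have q3 : coeff (fun z => k z * k z) 3 = 2 * coeff k 3 + 2 * coeff k 1 * coeff k 2 := by
    rw [hkk]; simp [Finset.sum_range_succ, k0]; ring
  have r1 := hpr 1 (by norm_num)
  have r2 := hpr 2 (by norm_num)
  have r3 := hpr 3 (by norm_num)
  simp only [Finset.sum_range_succ, Finset.sum_range_zero, zero_add, Nat.sub_zero, Nat.sub_self,
    show (2 - 1 : ℕ) = 1 from rfl, show (3 - 1 : ℕ) = 2 from rfl,
    q0, q1, q2, q3, g0, g1, g2, g3] at r1 r2 r3
  have c1 : coeff k 1 = B0 / 2 := by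
    rw [hB0]; linear_combination r1 / 2
  have c2 : coeff k 2 = B1 / 2 - B0 ^ 2 / 8 := by
    rw [hB1, hB0]
    have c1' : coeff k 1 = -a2 / 2 := by rw [c1, hB0]
    rw [c1'] at r2
    linear_combination r2 / 2
  have c3 : coeff k 3 = B2 / 2 - B0 * B1 / 4 + B0 ^ 3 / 16 := by
    rw [hB2, hB1, hB0]
    have c1' : coeff k 1 = -a2 / 2 := by rw [c1, hB0]
    have c2' : coeff k 2 = (a2 ^ 2 - a3) / 2 - a2 ^ 2 / 8 := by rw [c2, hB1, hB0]; ring
    rw [c1', c2'] at r3
    linear_combination r3 / 2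
  -- the area inequality
  have hv : ∀ ζ : ℂ, ζ ≠ 0 → ‖ζ‖ < 1 →
      HasSum (fun m => (if Even m then coeff k (m / 2) else 0) * ζ ^ m)
        (ζ ^ 1 * (Polynomial.X : Polynomial ℂ).eval (phi β ζ)) := by
    intro ζ h0 hζ
    have hζb : ζ ∈ ball (0:ℂ) 1 := mem_ball_zero_iff.mpr hζ
    have e1 : ζ ^ 1 * (Polynomial.X : Polynomial ℂ).eval (phi β ζ) = k (ζ ^ 2) := by
      rw [Polynomial.eval_X, hphi ζ hζb h0]
      field_simp
    rw [e1]
    have h5 := Pool.Agent.Helper22.Marshall.hasSum_coeff hk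
      (z := ζ ^ 2) (by simpa using sq_mem hζb)
    have hi : Function.Injective (fun j : ℕ => 2 * j) := by
      intro a b hab
      have : 2 * a = 2 * b := hab
      omega
    rw [← hi.hasSum_iff]
    · refine h5.congr_fun ?_
      intro j
      simp only [Function.comp]
      rw [if_pos (even_two_mul j), Nat.mul_div_cancel_left _ two_pos, pow_mul]
    · intro m hm
      rw [if_neg, zero_mul]
      intro hev
      apply hm
      obtain ⟨r, hr⟩ := hev
      exact ⟨r, by simp only; omega⟩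
  have hA := Pool.Agent.Helper22.Marshall.gLe_one hE 1 Polynomial.X _
    (by rw [Polynomial.natDegree_X]) hv 7
  simp only [Finset.sum_range_succ, Finset.sum_range_zero, zero_add] at hA
  have e0 : (Even 0) := ⟨0, rfl⟩
  have e2 : (Even 2) := ⟨1, rfl⟩
  have e4 : (Even 4) := ⟨2, rfl⟩
  have e6 : (Even 6) := ⟨3, rfl⟩
  have o1 : ¬ (Even 1) := by decide
  have o3 : ¬ (Even 3) := by decide
  have o5 : ¬ (Even 5) := by decide
  simp only [if_pos e0, if_pos e2, if_pos e4, if_pos e6, if_neg o1, if_neg o3, if_neg o5] at hA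
  norm_num at hA
  rw [k0, c1, c2, c3] at hA
  simpa using hA

end Pool.Agent.Helper39.MH
end

/- Helper24.K6w.H84.EK.Koebe -/
section
set_option autoImplicit false
open Complex Metric Set Filter Topology

/-! The one quarter theorem of Koebe for functions without zeros. -/

namespace Pool.Agent.Helper84.EK

open Pool.Agent.Helper22.Marshall (coeff coeff_zero coeff_one coeff_mul coeff_congr)

/-- the second coefficient of a univalent function is at most 2 -/
theorem second_le_two {f : ℂ → ℂ} (hf : DifferentiableOn ℂ f (ball 0 1))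
    (hinj : InjOn f (ball 0 1)) (h0 : f 0 = 0) (h1 : deriv f 0 = 1) : ‖coeff f 2‖ ≤ 2 := by
  have h := Pool.Agent.Helper39.MH.sqrt_area hf hinj h0 h1 (a2 := coeff f 2) (a3 := coeff f 3)
    (a4 := coeff f 4) rfl rfl rfl (B0 := -coeff f 2) (B1 := coeff f 2 ^ 2 - coeff f 3)
    (B2 := -coeff f 4 + 2 * coeff f 2 * coeff f 3 - coeff f 2 ^ 3) rfl rfl rfl
  have h2 : ‖-coeff f 2 / 2‖ ^ 2 ≤ 1 := by
    refine le_trans ?_ h
    rw [add_assoc]
    exact le_add_of_nonneg_right (by (clear * -; positivity))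
  rw [norm_div, norm_neg] at h2
  have h3 : ‖(2:ℂ)‖ = 2 := by simp
  rw [h3] at h2
  have h4 := norm_nonneg (coeff f 2)
  nlinarith only [h2]

/-- **Koebe**: `‖g' 0‖ ≤ 4 ‖g 0‖` for `g` univalent without zeros in the unit disc -/
theorem koebe {g : ℂ → ℂ} (hg : DifferentiableOn ℂ g (ball 0 1)) (hinj : InjOn g (ball 0 1))
    (hne : ∀ z ∈ ball (0:ℂ) 1, g z ≠ 0) : ‖deriv g 0‖ ≤ 4 * ‖g 0‖ := by
  have h0b : (0:ℂ) ∈ ball (0:ℂ) 1 := mem_ball_self one_pos
  have hb0 : ball (0:ℂ) 1 ∈ 𝓝 (0:ℂ) := ball_mem_nhds 0 one_pos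
  have hd : deriv g 0 ≠ 0 := Pool.Agent.Helper24.Br.deriv_ne_of_inj isOpen_ball hg hinj h0b
  have hg0 : g 0 ≠ 0 := hne 0 h0b
  have hgd : HasDerivAt g (deriv g 0) 0 := (hg.differentiableAt hb0).hasDerivAt
  set d := deriv g 0 with hdd
  set c := g 0 with hc
  set f : ℂ → ℂ := fun z => (g z - c) / d with hf
  set f2 : ℂ → ℂ := fun z => c / d * (1 - c / g z) with hf2
  set k : ℂ → ℂ := fun z => g z / c with hk
  have hfd : DifferentiableOn ℂ f (ball 0 1) := (hg.sub_const c).div_const d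
  have hf2d : DifferentiableOn ℂ f2 (ball 0 1) := by
    apply DifferentiableOn.const_mul
    apply DifferentiableOn.const_sub
    exact (differentiableOn_const c).div hg hne
  have hkd : DifferentiableOn ℂ k (ball 0 1) := hg.div_const c
  have hfi : InjOn f (ball 0 1) := by
    intro z hz w hw h
    apply hinj hz hw
    simp only [hf] at h
    rw [div_left_inj' hd] at h
    linear_combination h
  have hf2i : InjOn f2 (ball 0 1) := by
    intro z hz w hw h
    apply hinj hz hw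
    simp only [hf2] at h
    have h1 := mul_left_cancel₀ (div_ne_zero hg0 hd) h
    have h2 : c / g z = c / g w := by linear_combination -h1
    rw [div_eq_div_iff (hne z hz) (hne w hw)] at h2
    exact (mul_left_cancel₀ hg0 h2).symm
  have hf0 : f 0 = 0 := by simp [hf, hc]
  have hf20 : f2 0 = 0 := by
    simp only [hf2]
    rw [← hc, div_self hg0, sub_self, mul_zero]
  have hf1 : deriv f 0 = 1 := by
    have h1 : HasDerivAt f (d / d) 0 := (hgd.sub_const c).div_const d
    rw [h1.deriv, div_self hd]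
  have hf21 : deriv f2 0 = 1 := by
    have h1 : HasDerivAt f2 (c / d * -((0 * g 0 - c * d) / g 0 ^ 2)) 0 :=
      (((hasDerivAt_const (0:ℂ) c).div hgd hg0).const_sub 1).const_mul (c / d)
    rw [h1.deriv, ← hc]
    field_simp
    ring
  have e1 := second_le_two hfd hfi hf0 hf1
  have e2 := second_le_two hf2d hf2i hf20 hf21
  have hprod : f =ᶠ[𝓝 0] fun z => f2 z * k z := by
    filter_upwards [hb0] with z hz
    have h1 := hne z hz
    simp only [hf, hf2, hk]
    field_simp
  have e3 : coeff f 2 = coeff f2 2 + d / c := by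
    rw [coeff_congr hprod, coeff_mul (hf2d.analyticAt hb0) (hkd.analyticAt hb0)]
    simp only [Finset.sum_range_succ, Finset.sum_range_zero, zero_add, Nat.sub_zero, Nat.sub_self,
      show (2 - 1 : ℕ) = 1 from rfl]
    have k0 : coeff k 0 = 1 := by
      rw [coeff_zero]
      simp only [hk]
      exact div_self hg0
    have k1 : coeff k 1 = d / c := by
      rw [coeff_one]
      exact (hgd.div_const c).deriv
    rw [k0, k1, coeff_zero, hf20, coeff_one, hf21]
    ring
  have e4 : ‖d / c‖ ≤ 4 := by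
    have h1 : d / c = coeff f 2 - coeff f2 2 := by rw [e3]; ring
    rw [h1]
    exact (norm_sub_le _ _).trans (by (clear * - e1 e2; linarith only [e1, e2]))
  rw [norm_div, div_le_iff₀ (norm_pos_iff.mpr hg0)] at e4
  exact e4

/-- Koebe in a disc of radius `r` -/
theorem koebe_r {g : ℂ → ℂ} {r : ℝ} (hr : 0 < r) (hg : DifferentiableOn ℂ g (ball 0 r))
    (hinj : InjOn g (ball 0 r)) (hne : ∀ z ∈ ball (0:ℂ) r, g z ≠ 0) :
    ‖deriv g 0‖ * r ≤ 4 * ‖g 0‖ := by
  have hm : MapsTo (fun z : ℂ => (r : ℂ) * z) (ball 0 1) (ball 0 r) := by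
    intro z hz
    rw [mem_ball_zero_iff] at hz ⊢
    rw [norm_mul, Complex.norm_real, Real.norm_of_nonneg hr.le]
    (clear * - hr hz; nlinarith only [hr, hz])
  have hr0 : (r : ℂ) ≠ 0 := by exact_mod_cast hr.ne'
  have h1 := koebe (g := fun z => g ((r : ℂ) * z)) (hg.comp (by fun_prop) hm)
    (by
      intro z hz w hw h
      exact mul_left_cancel₀ hr0 (hinj (hm hz) (hm hw) h))
    (fun z hz => hne _ (hm hz))
  have h0r : (0:ℂ) ∈ ball (0:ℂ) r := mem_ball_self hr
  have h2 : HasDerivAt g (deriv g 0) ((r:ℂ) * 0) := by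
    rw [mul_zero]
    exact (hg.differentiableAt (isOpen_ball.mem_nhds h0r)).hasDerivAt
  have h3 : HasDerivAt (fun z : ℂ => (r : ℂ) * z) (r : ℂ) 0 := by
    simpa using (hasDerivAt_id (0:ℂ)).const_mul (r : ℂ)
  have h4 : deriv (fun z => g ((r : ℂ) * z)) 0 = deriv g 0 * r := (h2.comp (0:ℂ) h3).deriv
  rw [h4, norm_mul, Complex.norm_real, Real.norm_of_nonneg hr.le] at h1
  simpa using h1

end Pool.Agent.Helper84.EK
end

/- Helper24.K6w.H90.G2.Koebe -/
section
/-!
# G2-KOEBE: distortion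

`F` is injective on the disk of radius `re u ≤ 3 < π` around `u`. Bieberbach's `|a_2| ≤ 2`
(`Pool.Agent.Helper84.EK.second_le_two`, see the namespace there) at every point `v` of the disk of
radius `re u / 2` around `u`, for the disk of radius `re u / 2` around `v`:
`|F'' (v) / F' (v)| ≤ 4 / (re u / 2)`; integrate along the segment: `|log |F' u'| - log |F' u|| ≤ 4`,
`e^4 < 55`. (If you only get a slightly larger constant, tell helper90 before changing anything.)
-/

set_option autoImplicit false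

namespace Pool.Agent.Helper90.G2

open MeasureTheory Set
open scoped Real

theorem kb_open : IsOpen {u : ℂ | 0 < u.re} := isOpen_lt continuous_const Complex.continuous_re

/-- the disk of radius at most `re u` and at most `π` -/
theorem kb_sub {u : ℂ} {ρ : ℝ} (h1 : ρ ≤ u.re) (h2 : ρ ≤ π) :
    Metric.ball u ρ ⊆ {v : ℂ | 0 < v.re ∧ |v.im - u.im| < π} := by
  intro v hv
  rw [Metric.mem_ball, dist_eq_norm] at hv
  have h3 := Complex.abs_re_le_norm (v - u)
  have h4 := Complex.abs_im_le_norm (v - u)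
  rw [Complex.sub_re] at h3
  rw [Complex.sub_im] at h4
  refine ⟨?_, by (clear * - h2 hv h4; linarith only [h2, hv, h4])⟩
  have h5 := (abs_le.1 h3).1
  (clear * - h1 hv h5; linarith only [h1, hv, h5])

theorem Fn.dne {F : ℂ → ℂ} {A : ℝ} (hF : Fn F A) {u : ℂ} (hu : 0 < u.re) : deriv F u ≠ 0 := by
  have hρ : 0 < min u.re π := lt_min hu Real.pi_pos
  have hs := kb_sub (u := u) (min_le_left u.re π) (min_le_right u.re π)
  refine Pool.Agent.Helper24.Br.deriv_ne_of_inj (U := Metric.ball u (min u.re π))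
    Metric.isOpen_ball (hF.diff.mono fun v hv => (hs hv).1) ((hF.inj u.im).mono hs) ?_
  exact Metric.mem_ball_self hρ

/-- Bieberbach's inequality at `v` -/
theorem kb_two {F : ℂ → ℂ} {v : ℂ} {r : ℝ} (hr : 0 < r)
    (hd : DifferentiableOn ℂ F (Metric.ball v r)) (hi : InjOn F (Metric.ball v r))
    (hne : deriv F v ≠ 0) : ‖deriv (deriv F) v‖ ≤ 4 / r * ‖deriv F v‖ := by
  have hr0 : (r : ℂ) ≠ 0 := by exact_mod_cast hr.ne'
  have hmem : ∀ z ∈ Metric.ball (0 : ℂ) 1, v + r * z ∈ Metric.ball v r := by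
    intro z hz
    rw [mem_ball_zero_iff] at hz
    rw [Metric.mem_ball, dist_eq_norm, add_sub_cancel_left, norm_mul, Complex.norm_real,
      Real.norm_of_nonneg hr.le]
    nlinarith only [hr, hz]
  obtain ⟨f, hf⟩ : ∃ f : ℂ → ℂ, f = fun z => (F (v + r * z) - F v) / (r * deriv F v) :=
    ⟨_, rfl⟩
  have hden : (r : ℂ) * deriv F v ≠ 0 := mul_ne_zero hr0 hne
  have hlin : ∀ z : ℂ, HasDerivAt (fun z : ℂ => v + r * z) (r : ℂ) z := fun z => by
    simpa using ((hasDerivAt_id z).const_mul (r : ℂ)).const_add v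
  have hder : ∀ z ∈ Metric.ball (0 : ℂ) 1,
      HasDerivAt f (deriv F (v + r * z) / deriv F v) z := by
    intro z hz
    have h1 : HasDerivAt F (deriv F (v + r * z)) (v + r * z) :=
      (hd.differentiableAt (Metric.isOpen_ball.mem_nhds (hmem z hz))).hasDerivAt
    have h2 := ((h1.comp z (hlin z)).sub_const (F v)).div_const ((r : ℂ) * deriv F v)
    have h3 : deriv F (v + r * z) / deriv F v =
        deriv F (v + r * z) * r / (r * deriv F v) := by
      rw [mul_comm (deriv F (v + r * z)) (r : ℂ), mul_div_mul_left _ _ hr0]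
    rw [hf, h3]
    exact h2
  have hfd : DifferentiableOn ℂ f (Metric.ball 0 1) := fun z hz =>
    (hder z hz).differentiableAt.differentiableWithinAt
  have hfi : InjOn f (Metric.ball 0 1) := by
    intro z hz w hw h
    rw [hf] at h
    simp only at h
    rw [div_left_inj' hden, sub_left_inj] at h
    have h3 := hi (hmem z hz) (hmem w hw) h
    exact mul_left_cancel₀ hr0 (add_left_cancel h3)
  have h0b : (0 : ℂ) ∈ Metric.ball (0 : ℂ) 1 := Metric.mem_ball_self one_pos
  have hf0 : f 0 = 0 := by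
    rw [hf]
    simp
  have hf1 : deriv f 0 = 1 := by
    rw [(hder 0 h0b).deriv, mul_zero, add_zero, div_self hne]
  have h2 := Pool.Agent.Helper84.EK.second_le_two hfd hfi hf0 hf1
  have hdd : deriv (deriv f) 0 = r * deriv (deriv F) v / deriv F v := by
    have h3 : deriv f =ᶠ[nhds 0] fun z => deriv F (v + r * z) / deriv F v := by
      filter_upwards [Metric.ball_mem_nhds (0 : ℂ) one_pos] with z hz
      exact (hder z hz).deriv
    rw [h3.deriv_eq]
    have h4 : DifferentiableAt ℂ (deriv F) v :=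
      (hd.deriv Metric.isOpen_ball).differentiableAt (Metric.ball_mem_nhds v hr)
    have h5 : HasDerivAt (deriv F) (deriv (deriv F) v) (v + r * 0) := by
      rw [mul_zero, add_zero]
      exact h4.hasDerivAt
    have h6 := (h5.comp (0 : ℂ) (hlin 0)).div_const (deriv F v)
    have h7 : deriv (fun z => deriv F (v + r * z) / deriv F v) 0 =
        deriv (deriv F) v * r / deriv F v := h6.deriv
    rw [h7]
    ring
  have hc : Pool.Agent.Helper22.Marshall.coeff f 2 = r * deriv (deriv F) v / deriv F v / 2 := by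
    unfold Pool.Agent.Helper22.Marshall.coeff
    rw [iteratedDeriv_succ, iteratedDeriv_one, hdd]
    norm_num
    ring
  rw [hc, norm_div, norm_div, norm_mul, Complex.norm_real, Real.norm_of_nonneg hr.le] at h2
  have h8 : 0 < ‖deriv F v‖ := norm_pos_iff.2 hne
  have h9 : ‖(2 : ℂ)‖ = 2 := by simp
  rw [h9, div_div, div_le_iff₀ (by positivity)] at h2
  rw [div_mul_eq_mul_div, le_div_iff₀ hr]
  (clear * - h2; linarith only [h2])

/-- integration along a segment -/
theorem kb_seg {F : ℂ → ℂ} {p p' : ℂ} {r : ℝ} (hr : 0 < r) (hpp : ‖p' - p‖ ≤ r)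
    (hpos : ∀ t ∈ Icc (0 : ℝ) 1, 0 < (p + t * (p' - p)).re)
    (hd : DifferentiableOn ℂ F {u | 0 < u.re})
    (hb : ∀ t ∈ Icc (0 : ℝ) 1, ‖deriv (deriv F) (p + t * (p' - p))‖ ≤
      4 / r * ‖deriv F (p + t * (p' - p))‖) : ‖deriv F p'‖ ≤ 55 * ‖deriv F p‖ := by
  have hlin : ∀ t : ℝ, HasDerivAt (fun t : ℝ => p + (t : ℂ) * (p' - p)) (p' - p) t := fun t => by
    have h1 := ((Complex.ofRealCLM.hasDerivAt (x := t)).mul_const (p' - p)).const_add p
    simpa using h1
  have hg : ∀ t ∈ Icc (0 : ℝ) 1, HasDerivAt (fun t : ℝ => deriv F (p + (t : ℂ) * (p' - p)))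
      ((p' - p) * deriv (deriv F) (p + (t : ℂ) * (p' - p))) t := by
    intro t ht
    have h1 : DifferentiableAt ℂ (deriv F) (p + (t : ℂ) * (p' - p)) :=
      (hd.deriv kb_open).differentiableAt (kb_open.mem_nhds (hpos t ht))
    have h2 := h1.hasDerivAt.scomp t (hlin t)
    simpa [smul_eq_mul, Function.comp_def] using h2
  have h1 := norm_le_gronwallBound_of_norm_deriv_right_le
    (f := fun t : ℝ => deriv F (p + (t : ℂ) * (p' - p)))
    (f' := fun t : ℝ => (p' - p) * deriv (deriv F) (p + (t : ℂ) * (p' - p)))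
    (δ := ‖deriv F p‖) (K := 4) (ε := 0) (a := 0) (b := 1)
    (fun t ht => (hg t ht).continuousAt.continuousWithinAt)
    (fun t ht => (hg t ⟨ht.1, ht.2.le⟩).hasDerivWithinAt)
    (by simp)
    (fun t ht => by
      have h2 := hb t ⟨ht.1, ht.2.le⟩
      rw [norm_mul, add_zero]
      calc ‖p' - p‖ * ‖deriv (deriv F) (p + t * (p' - p))‖
          ≤ r * (4 / r * ‖deriv F (p + t * (p' - p))‖) :=
            mul_le_mul hpp h2 (norm_nonneg _) hr.le
        _ = 4 * ‖deriv F (p + t * (p' - p))‖ := by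
            (clear * - hr; field_simp))
    1 ⟨zero_le_one, le_refl 1⟩
  rw [gronwallBound_ε0] at h1
  have h2 : p + ((1 : ℝ) : ℂ) * (p' - p) = p' := by
    push_cast
    ring
  simp only [h2] at h1
  have h3 : Real.exp (4 * (1 - 0)) ≤ 55 := by
    have h4 : Real.exp (4 * (1 - 0)) = Real.exp 1 ^ 4 := by
      rw [← Real.exp_nat_mul]
      norm_num
    rw [h4]
    have h5 := Real.exp_one_lt_d9
    calc Real.exp 1 ^ 4 ≤ 2.7182818286 ^ 4 :=
          pow_le_pow_left₀ (Real.exp_pos 1).le h5.le 4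
      _ ≤ 55 := by norm_num
  calc ‖deriv F p'‖ ≤ ‖deriv F p‖ * Real.exp (4 * (1 - 0)) := h1
    _ ≤ ‖deriv F p‖ * 55 := mul_le_mul_of_nonneg_left h3 (norm_nonneg _)
    _ = 55 * ‖deriv F p‖ := mul_comm _ _

theorem Fn.dist {F : ℂ → ℂ} {A : ℝ} (hF : Fn F A) {u u' : ℂ} (hu : 0 < u.re) (hu3 : u.re ≤ 3)
    (h : ‖u' - u‖ ≤ u.re / 2) :
    ‖deriv F u'‖ ≤ 55 * ‖deriv F u‖ ∧ ‖deriv F u‖ ≤ 55 * ‖deriv F u'‖ := by
  have hr : 0 < u.re / 2 := by (clear * - hu; linarith only [hu])
  have hs := kb_sub (u := u) (le_refl u.re) (le_trans hu3 Real.pi_gt_three.le)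
  have hre : ∀ v : ℂ, ‖v - u‖ ≤ u.re / 2 → 0 < v.re := by
    intro v hv
    have h1 := Complex.abs_re_le_norm (v - u)
    rw [Complex.sub_re] at h1
    have h2 := (abs_le.1 h1).1
    (clear * - hr hv h2; linarith only [hr, hv, h2])
  have hb : ∀ v : ℂ, ‖v - u‖ ≤ u.re / 2 →
      ‖deriv (deriv F) v‖ ≤ 4 / (u.re / 2) * ‖deriv F v‖ := by
    intro v hv
    have hsub : Metric.ball v (u.re / 2) ⊆ Metric.ball u u.re := by
      intro w hw
      rw [Metric.mem_ball, dist_eq_norm] at hw ⊢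
      have h1 : w - u = (w - v) + (v - u) := by ring
      rw [h1]
      exact lt_of_le_of_lt (norm_add_le _ _) (by linarith only [hv, hw])
    exact kb_two hr (hF.diff.mono fun w hw => (hs (hsub hw)).1)
      ((hF.inj u.im).mono (hsub.trans hs)) (hF.dne (hre v hv))
  have hn : ∀ t ∈ Icc (0 : ℝ) 1, ‖(t : ℂ) * (u' - u)‖ ≤ u.re / 2 := by
    intro t ht
    rw [norm_mul, Complex.norm_real, Real.norm_of_nonneg ht.1]
    calc t * ‖u' - u‖ ≤ 1 * (u.re / 2) := mul_le_mul ht.2 h (norm_nonneg _) zero_le_one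
      _ = u.re / 2 := one_mul _
  have hseg1 : ∀ t ∈ Icc (0 : ℝ) 1, ‖u + t * (u' - u) - u‖ ≤ u.re / 2 := by
    intro t ht
    rw [add_sub_cancel_left]
    exact hn t ht
  have hseg2 : ∀ t ∈ Icc (0 : ℝ) 1, ‖u' + t * (u - u') - u‖ ≤ u.re / 2 := by
    intro t ht
    have h1 : u' + t * (u - u') - u = ((1 - t : ℝ) : ℂ) * (u' - u) := by
      push_cast
      ring
    rw [h1]
    exact hn (1 - t) ⟨by (clear * - ht; linarith only [ht.2]), by linarith only [ht.1]⟩
  refine ⟨kb_seg hr h (fun t ht => hre _ (hseg1 t ht)) hF.diff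
    (fun t ht => hb _ (hseg1 t ht)), ?_⟩
  rw [norm_sub_rev] at h
  exact kb_seg hr h (fun t ht => hre _ (hseg2 t ht)) hF.diff (fun t ht => hb _ (hseg2 t ht))

end Pool.Agent.Helper90.G2
end
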