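import Pool.Agent.Helper24.K6.G03
import Pool.Agent.Helper24.K6.G09

/- Helper24.K6w.H90.G2.Local -/
section
/-!
# G2-LOCAL: the derivative in a window is controlled by the area of the image of the window

`x = re u`. Choose `u'` with `re u' = 17 x / 16` if `x ≤ 3 ℓ / 4`, `re u' = 15 x / 16` otherwise, and
`im u' = im u ∓ x / 16` (towards `c`). The disk of radius `x / 16` around `u'` lies in `Wn c ℓ q`, so
`π (x / 16)^2 |F' u'|^2 ≤ ar F (Wn c ℓ q)`, and `|F' u| ≤ 55 |F' u'|`: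
`|F' u| x ≤ 55 * 16 / √π √ar ≤ 500 √ar`.
-/

set_option autoImplicit false

namespace Pool.Agent.Helper90.G2

open MeasureTheory Set
open scoped Real

variable {F : ℂ → ℂ} {A : ℝ}

theorem local_wn_sub_bx {c ℓ q : ℝ} (hℓ : 0 < ℓ) (hq : 0 < q) : Wn c ℓ q ⊆ Bx c ℓ := by
  intro w hw
  obtain ⟨h1, h2, h3⟩ := hw
  exact ⟨lt_trans (mul_pos hq hℓ) h1, h2, h3⟩

/-- a disk of radius `x / 16` inside the window, close to a given point of the window -/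
theorem local_exists_disk {c ℓ q : ℝ} (hℓ : 0 < ℓ) (hq : 0 < q) (hq1 : q ≤ 1 / 2)
    {u : ℂ} (h1 : q * ℓ ≤ u.re) (h2 : u.re ≤ ℓ) (h3 : |u.im - c| ≤ ℓ / 2) :
    ∃ v : ℂ, ‖v - u‖ ≤ u.re / 2 ∧ u.re / 16 ≤ v.re ∧ v.re ≤ 2 * ℓ ∧
      Metric.ball v (u.re / 16) ⊆ Wn c ℓ q := by
  obtain ⟨x, y⟩ := u
  simp only at h1 h2 h3 ⊢
  have hx : 0 < x := lt_of_lt_of_le (mul_pos hq hℓ) h1
  have hqℓ : q * ℓ ≤ ℓ / 2 := by nlinarith only [hℓ, hq1]
  obtain ⟨h3a, h3b⟩ := abs_le.1 h3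
  -- the real part
  obtain ⟨a, ha1, ha2, ha3, ha4⟩ : ∃ a : ℝ, |a - x| ≤ x / 16 ∧ q * ℓ ≤ a - x / 16 ∧
      a + x / 16 ≤ ℓ ∧ x / 16 ≤ a := by
    rcases le_or_gt x (3 * ℓ / 4) with h | h
    · refine ⟨17 * x / 16, ?_, by linarith only [h1], by linarith only [h3a, h3b, h], by linarith only [hx]⟩
      rw [abs_le]
      constructor <;> linarith only [hx]
    · refine ⟨15 * x / 16, ?_, by linarith only [hx, hqℓ, h], by (clear * - h2; linarith only [h2]), by linarith only [hx]⟩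
      rw [abs_le]
      constructor <;> (clear * - hx; linarith only [hx])
  -- the imaginary part
  obtain ⟨b, hb1, hb2, hb3⟩ : ∃ b : ℝ, |b - y| ≤ x / 16 ∧ -(ℓ / 2) ≤ b - x / 16 - c ∧
      b + x / 16 - c ≤ ℓ / 2 := by
    rcases le_or_gt c y with h | h
    · refine ⟨y - x / 16, ?_, by (clear * - h2 ha3 ha4 h; linarith only [h2, ha3, ha4, h]), by linarith only [h3b]⟩
      rw [abs_le]
      constructor <;> linarith only [hx]
    · refine ⟨y + x / 16, ?_, by linarith only [h3a], by linarith only [h2, ha3, ha4, h]⟩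
      rw [abs_le]
      constructor <;> (clear * - hx; linarith only [hx])
  refine ⟨⟨a, b⟩, ?_, ha4, by simp only; linarith only [hx, ha3, ha4], ?_⟩
  · refine (Complex.norm_le_abs_re_add_abs_im _).trans ?_
    simp only [Complex.sub_re, Complex.sub_im]
    linarith only [hx, ha1, hb1]
  · intro w hw
    rw [Metric.mem_ball, dist_eq_norm] at hw
    have hr := (Complex.abs_re_le_norm (w - ⟨a, b⟩)).trans_lt hw
    have hi := (Complex.abs_im_le_norm (w - ⟨a, b⟩)).trans_lt hw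
    simp only [Complex.sub_re, Complex.sub_im] at hr hi
    obtain ⟨hr1, hr2⟩ := abs_lt.1 hr
    obtain ⟨hi1, hi2⟩ := abs_lt.1 hi
    refine ⟨by (clear * - ha2 hr1; linarith only [ha2, hr1]), by linarith only [ha3, hr2], ?_⟩
    rw [abs_lt]
    constructor <;> linarith only [hb2, hi1, hb3, hi2]

theorem Fn.loc (hF : Fn F A) {c ℓ q : ℝ} (hℓ : 0 < ℓ) (hℓ1 : ℓ ≤ 1) (hq : 0 < q) (hq1 : q ≤ 1 / 2)
    {u : ℂ} (h1 : q * ℓ ≤ u.re) (h2 : u.re ≤ ℓ) (h3 : |u.im - c| ≤ ℓ / 2) :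
    ‖deriv F u‖ * u.re ≤ 500 * √(ar F (Wn c ℓ q)) := by
  have hx : 0 < u.re := lt_of_lt_of_le (mul_pos hq hℓ) h1
  obtain ⟨v, hv1, hv2, hv3, hv4⟩ := local_exists_disk hℓ hq hq1 h1 h2 h3
  have hd := (hF.dist hx (by linarith only [hℓ1, h2]) hv1).2
  have hsub := local_wn_sub_bx (c := c) hℓ hq
  have hb := hF.area_ball (u := v) (r := u.re / 16) (by (clear * - hx; positivity)) hv2 (by (clear * - hℓ1 hv3; linarith only [hℓ1, hv3]))
    (hF.fin hℓ1 (hv4.trans hsub))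
  have hm := hF.ar_mono hℓ1 hsub hv4
  have har : π * (u.re / 16) ^ 2 * ‖deriv F v‖ ^ 2 ≤ ar F (Wn c ℓ q) := hb.trans hm
  have hpi : (3.14 : ℝ) < π := Real.pi_gt_d2
  have hn := norm_nonneg (deriv F v)
  have hkey : (‖deriv F u‖ * u.re) ^ 2 ≤ 500 ^ 2 * ar F (Wn c ℓ q) := by
    have h4 : ‖deriv F u‖ * u.re ≤ 55 * ‖deriv F v‖ * u.re :=
      mul_le_mul_of_nonneg_right hd hx.le
    have h5 : (‖deriv F u‖ * u.re) ^ 2 ≤ (55 * ‖deriv F v‖ * u.re) ^ 2 :=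
      pow_le_pow_left₀ (by (clear * - hx; positivity)) h4 2
    refine h5.trans ?_
    have h6 : (55 * ‖deriv F v‖ * u.re) ^ 2 ≤
        500 ^ 2 * (π * (u.re / 16) ^ 2 * ‖deriv F v‖ ^ 2) := by
      have h7 : 0 ≤ (u.re * ‖deriv F v‖) ^ 2 := sq_nonneg _
      have e1 : (55 * ‖deriv F v‖ * u.re) ^ 2 = 3025 * (u.re * ‖deriv F v‖) ^ 2 := by ring
      have e2 : 500 ^ 2 * (π * (u.re / 16) ^ 2 * ‖deriv F v‖ ^ 2) =
          (250000 / 256 * π) * (u.re * ‖deriv F v‖) ^ 2 := by ring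
      rw [e1, e2]
      refine mul_le_mul_of_nonneg_right ?_ h7
      (clear * - hpi; linarith only [hpi])
    exact h6.trans (by linarith only [har])
  have hsq : 0 ≤ ‖deriv F u‖ * u.re := by (clear * - hx; positivity)
  have h8 : ‖deriv F u‖ * u.re ≤ √(500 ^ 2 * ar F (Wn c ℓ q)) :=
    Real.le_sqrt_of_sq_le hkey
  rwa [Real.sqrt_mul (by norm_num), Real.sqrt_sq (by norm_num)] at h8

theorem Fn.ar_pos (hF : Fn F A) {c ℓ q : ℝ} (hℓ : 0 < ℓ) (hℓ1 : ℓ ≤ 1) (hq : 0 < q)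
    (hq1 : q ≤ 1 / 2) : 0 < ar F (Wn c ℓ q) := by
  have h := hF.loc (c := c) (u := ⟨ℓ, c⟩) hℓ hℓ1 hq hq1 (by simp only; nlinarith only [hℓ, hq1]) le_rfl
    (by simp only [sub_self, abs_zero]; positivity)
  simp only at h
  have h1 : 0 < ‖deriv F ⟨ℓ, c⟩‖ * ℓ :=
    mul_pos (norm_pos_iff.2 (hF.dne (u := ⟨ℓ, c⟩) hℓ)) hℓ
  have h2 : 0 < √(ar F (Wn c ℓ q)) := by
    by_contra hcon
    push Not at hcon
    linarith only [h, h1, hcon]
  exact Real.sqrt_pos.1 h2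

end Pool.Agent.Helper90.G2
end

/- Helper24.K6w.H90.G2.Osc -/
section
/-!
# G2-OSC: oscillation in a window

Integrate `Fn.loc` along vertical and horizontal segments:
`|F (x₁ + i y) - F (x₂ + i y)| ≤ 500 √ar log (x₂ / x₁)` and
`|F (h + i y₁) - F (h + i y₂)| ≤ 500 √ar |y₁ - y₂| / h`. `osc_two`: from `u` up to the height `h`,
horizontally, down to `v`. `osc_top`: `v` the top point.
-/

set_option autoImplicit false

namespace Pool.Agent.Helper90.G2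

open MeasureTheory Set
open scoped Real

variable {F : ℂ → ℂ} {A : ℝ}

private theorem Fn.diffAt (hF : Fn F A) {u : ℂ} (hu : 0 < u.re) : DifferentiableAt ℂ F u :=
  hF.diff.differentiableAt ((isOpen_lt continuous_const Complex.continuous_re).mem_nhds hu)

private theorem Fn.seg_re (hF : Fn F A) {c ℓ q : ℝ} (hℓ : 0 < ℓ) (hℓ1 : ℓ ≤ 1) (hq : 0 < q)
    (hq1 : q ≤ 1 / 2) {x₁ x₂ y : ℝ} (h1 : q * ℓ ≤ x₁) (h12 : x₁ ≤ x₂) (h2 : x₂ ≤ ℓ)
    (h3 : |y - c| ≤ ℓ / 2) :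
    ‖F ⟨x₂, y⟩ - F ⟨x₁, y⟩‖ ≤ 500 * √(ar F (Wn c ℓ q)) * Real.log (x₂ / x₁) := by
  set K : ℝ := 500 * √(ar F (Wn c ℓ q)) with hK
  have hqℓ : 0 < q * ℓ := mul_pos hq hℓ
  have hx1 : 0 < x₁ := lt_of_lt_of_le hqℓ h1
  have hline : ∀ x : ℝ, HasDerivAt (fun t : ℝ => (⟨t, y⟩ : ℂ)) 1 x := by
    intro x
    have h0 : HasDerivAt (fun t : ℝ => (t : ℂ) + (y : ℂ) * Complex.I) 1 x :=
      (Complex.ofRealCLM.hasDerivAt (x := x)).add_const _
    have he : (fun t : ℝ => (⟨t, y⟩ : ℂ)) = fun t : ℝ => (t : ℂ) + (y : ℂ) * Complex.I := by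
      funext t
      apply Complex.ext <;> simp
    rw [he]
    exact h0
  have hder : ∀ x ∈ Icc x₁ x₂, HasDerivAt (fun t : ℝ => F ⟨t, y⟩ - F ⟨x₁, y⟩)
      (deriv F ⟨x, y⟩) x := by
    intro x hx
    have hre : 0 < (⟨x, y⟩ : ℂ).re := lt_of_lt_of_le hx1 hx.1
    have h0 : HasDerivAt F (deriv F ⟨x, y⟩) (⟨x, y⟩ : ℂ) := (hF.diffAt hre).hasDerivAt
    have h00 := (h0.comp_of_eq x (hline x) rfl).sub_const (F ⟨x₁, y⟩)
    simpa using h00
  have hB : ∀ x ∈ Icc x₁ x₂, HasDerivAt (fun t : ℝ => K * Real.log (t / x₁)) (K / x) x := by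
    intro x hx
    have hx0 : 0 < x := lt_of_lt_of_le hx1 hx.1
    have h0 : HasDerivAt (fun t : ℝ => t / x₁) (1 / x₁) x := (hasDerivAt_id x).div_const x₁
    have h00 := (h0.log (by (clear * - hx0 hx1; positivity) : x / x₁ ≠ 0)).const_mul K
    have he : K * (1 / x₁ / (x / x₁)) = K / x := by
      (clear * - hx1 hx0; field_simp)
    rw [he] at h00
    exact h00
  have key := image_norm_le_of_norm_deriv_right_le_deriv_boundary'
    (f := fun t : ℝ => F ⟨t, y⟩ - F ⟨x₁, y⟩) (f' := fun x : ℝ => deriv F ⟨x, y⟩)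
    (a := x₁) (b := x₂) (fun x hx => (hder x hx).continuousAt.continuousWithinAt)
    (fun x hx => (hder x (Ico_subset_Icc_self hx)).hasDerivWithinAt)
    (B := fun t : ℝ => K * Real.log (t / x₁)) (B' := fun x : ℝ => K / x)
    (by simp [div_self hx1.ne'])
    (fun x hx => (hB x hx).continuousAt.continuousWithinAt)
    (fun x hx => (hB x (Ico_subset_Icc_self hx)).hasDerivWithinAt)
    (by
      intro x hx
      have hx0 : 0 < x := lt_of_lt_of_le hx1 hx.1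
      have := hF.loc hℓ hℓ1 hq hq1 (u := ⟨x, y⟩) (c := c) (h1.trans hx.1)
        (hx.2.le.trans h2) h3
      rw [le_div_iff₀ hx0]
      exact this)
  exact key (right_mem_Icc.2 h12)

private theorem Fn.seg_im (hF : Fn F A) {c ℓ q : ℝ} (hℓ : 0 < ℓ) (hℓ1 : ℓ ≤ 1) (hq : 0 < q)
    (hq1 : q ≤ 1 / 2) {h y₁ y₂ : ℝ} (h1 : q * ℓ ≤ h) (h2 : h ≤ ℓ)
    (h3 : |y₁ - c| ≤ ℓ / 2) (h4 : |y₂ - c| ≤ ℓ / 2) (h5 : |y₁ - y₂| ≤ h) :
    ‖F ⟨h, y₁⟩ - F ⟨h, y₂⟩‖ ≤ 500 * √(ar F (Wn c ℓ q)) := by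
  set K : ℝ := 500 * √(ar F (Wn c ℓ q)) with hK
  have hK0 : 0 ≤ K := by (clear * -; positivity)
  have hh : 0 < h := lt_of_lt_of_le (mul_pos hq hℓ) h1
  have hconv : Convex ℝ {z : ℂ | z.re = h ∧ |z.im - c| ≤ ℓ / 2} := by
    intro z hz w hw a b ha hb hab
    obtain ⟨hz1, hz2⟩ := hz
    obtain ⟨hw1, hw2⟩ := hw
    refine ⟨?_, ?_⟩
    · have : (a • z + b • w).re = a * z.re + b * w.re := by simp
      rw [this, hz1, hw1, ← add_mul, hab, one_mul]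
    · have : (a • z + b • w).im - c = a * (z.im - c) + b * (w.im - c) := by
        have h0 : (a • z + b • w).im = a * z.im + b * w.im := by simp
        rw [h0]
        have : c = (a + b) * c := by rw [hab, one_mul]
        nth_rewrite 1 [this]
        ring
      rw [this]
      rw [abs_le] at hz2 hw2 ⊢
      constructor <;> nlinarith only [ha, hb, hab, hz2, hw2]
  have key := Convex.norm_image_sub_le_of_norm_deriv_le (𝕜 := ℂ) (f := F) (C := K / h)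
    (s := {z : ℂ | z.re = h ∧ |z.im - c| ≤ ℓ / 2}) (x := ⟨h, y₂⟩) (y := ⟨h, y₁⟩)
    (fun z hz => hF.diffAt (by rw [hz.1]; exact hh))
    (by
      intro z hz
      have := hF.loc hℓ hℓ1 hq hq1 (u := z) (c := c) (by rw [hz.1]; exact h1)
        (by rw [hz.1]; exact h2) hz.2
      rw [hz.1] at this
      rw [le_div_iff₀ hh]
      exact this)
    hconv ⟨rfl, h4⟩ ⟨rfl, h3⟩
  refine key.trans ?_
  have hn : ‖(⟨h, y₁⟩ : ℂ) - ⟨h, y₂⟩‖ = |y₁ - y₂| := by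
    have : (⟨h, y₁⟩ : ℂ) - ⟨h, y₂⟩ = ((y₁ - y₂ : ℝ) : ℂ) * Complex.I := by
      apply Complex.ext <;> simp
    rw [this, norm_mul, Complex.norm_I, mul_one, Complex.norm_real, Real.norm_eq_abs]
  rw [hn]
  calc K / h * |y₁ - y₂| ≤ K / h * h := by (clear * - h5 hh; gcongr)
    _ = K := by field_simp

theorem Fn.osc_two (hF : Fn F A) {c ℓ q : ℝ} (hℓ : 0 < ℓ) (hℓ1 : ℓ ≤ 1) (hq : 0 < q)
    (hq1 : q ≤ 1 / 2) {u v : ℂ} {h : ℝ} (hh : h ≤ ℓ) (h1 : q * ℓ ≤ u.re) (h2 : u.re ≤ h)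
    (h3 : |u.im - c| ≤ ℓ / 2) (k1 : q * ℓ ≤ v.re) (k2 : v.re ≤ h) (k3 : |v.im - c| ≤ ℓ / 2)
    (huv : |u.im - v.im| ≤ h) :
    ‖F u - F v‖ ≤ 500 * √(ar F (Wn c ℓ q)) * (1 + Real.log (h / u.re) + Real.log (h / v.re)) := by
  have e1 := hF.seg_re hℓ hℓ1 hq hq1 h1 h2 hh h3
  have e2 := hF.seg_re hℓ hℓ1 hq hq1 k1 k2 hh k3
  have e3 := hF.seg_im hℓ hℓ1 hq hq1 (h1.trans h2) hh h3 k3 huv
  have hu : F u = F ⟨u.re, u.im⟩ := rfl
  have hv : F v = F ⟨v.re, v.im⟩ := rfl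
  have hs : F u - F v = -(F ⟨h, u.im⟩ - F ⟨u.re, u.im⟩) + (F ⟨h, u.im⟩ - F ⟨h, v.im⟩)
      + (F ⟨h, v.im⟩ - F ⟨v.re, v.im⟩) := by
    rw [hu, hv]
    ring
  rw [hs]
  refine (norm_add₃_le).trans ?_
  rw [norm_neg]
  linarith only [e1, e2, e3]

theorem Fn.osc_top (hF : Fn F A) {c ℓ q : ℝ} (hℓ : 0 < ℓ) (hℓ1 : ℓ ≤ 1) (hq : 0 < q)
    (hq1 : q ≤ 1 / 2) {u : ℂ} (h1 : q * ℓ ≤ u.re) (h2 : u.re ≤ ℓ) (h3 : |u.im - c| ≤ ℓ / 2) :
    ‖F u - F (zt c ℓ)‖ ≤ 500 * √(ar F (Wn c ℓ q)) * (1 + Real.log (ℓ / u.re)) := by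
  have h4 : q * ℓ ≤ (zt c ℓ).re := by
    show q * ℓ ≤ ℓ
    linarith only [h1, h2]
  have h5 : |(zt c ℓ).im - c| ≤ ℓ / 2 := by
    show |c - c| ≤ ℓ / 2
    rw [sub_self, abs_zero]
    linarith only [hℓ]
  have h6 : |u.im - (zt c ℓ).im| ≤ ℓ := by
    show |u.im - c| ≤ ℓ
    linarith only [hℓ, h3]
  have key := hF.osc_two hℓ hℓ1 hq hq1 (u := u) (v := zt c ℓ) le_rfl h1 h2 h3 h4 le_rfl h5 h6
  have h7 : Real.log (ℓ / (zt c ℓ).re) = 0 := by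
    show Real.log (ℓ / ℓ) = 0
    rw [div_self hℓ.ne', Real.log_one]
  rw [h7, add_zero] at key
  exact key

/-- the radius of the image of a window -/
theorem Fn.osc_rad (hF : Fn F A) {c ℓ q : ℝ} (hℓ : 0 < ℓ) (hℓ1 : ℓ ≤ 1) (hq : 0 < q)
    (hq1 : q ≤ 1 / 2) {u : ℂ} (h1 : q * ℓ ≤ u.re) (h2 : u.re ≤ ℓ) (h3 : |u.im - c| ≤ ℓ / 2) :
    ‖F u - F (zt c ℓ)‖ ≤ 500 * (1 + Real.log (1 / q)) * √(ar F (Wn c ℓ q)) := by
  have hu : 0 < u.re := lt_of_lt_of_le (mul_pos hq hℓ) h1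
  have key := hF.osc_top hℓ hℓ1 hq hq1 h1 h2 h3
  have hlog : Real.log (ℓ / u.re) ≤ Real.log (1 / q) := by
    apply Real.log_le_log (by positivity)
    rw [div_le_div_iff₀ hu hq]
    linarith only [h1]
  have h0 : 0 ≤ √(ar F (Wn c ℓ q)) := Real.sqrt_nonneg _
  nlinarith only [key, hlog, h0]

end Pool.Agent.Helper90.G2
end

/- Helper24.K6w.H90.G2.Sharp -/
section
/-!
# G2-SHARP: the displacement of the top point in a long window

`ρ₀ = κ ℓ`, `ρ₁ = 2 q ℓ / κ` (`sin κ ≥ κ / 2`), cone at `i c'`: it lies in `Wn c ℓ q`, so `Fn.cone`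
(`log (ρ₀ / ρ₁) = log (κ² / (2 q)) ≤ log (1 / q)`) bounds `|Pa ρ₀ - Pa ρ₁|` by
`√(log (1/q) / (π - 2κ)) √ar`. Ends by `Pa_near`: for `u` on the arc `ρ₀`, `re u ≥ κ² ℓ / 2` and
`Fn.osc_top` gives `500 √ar (1 + log (2 / κ²))`; for `u` on the arc `ρ₁`, `Fn.osc_two` with `h = ρ₁`
and `v = zt c' (q ℓ)` gives `500 √ar (1 + 2 log (2 / κ))` (`re u ≥ ρ₁ κ / 2`, `v.re = q ℓ`).
-/

set_option autoImplicit false

namespace Pool.Agent.Helper90.G2

open MeasureTheory Set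
open scoped Real

variable {F : ℂ → ℂ} {A : ℝ}

/-- the square root of the constant `S` -/
noncomputable def sS (κ L : ℝ) : ℝ := √(L / (π - 2 * κ)) + 1000 * (1 + 2 * Real.log (2 / κ))

theorem Sharp_sin {κ : ℝ} (hκ : 0 < κ) (hκ1 : κ ≤ 1 / 4) : κ / 2 ≤ Real.sin κ := by
  have h1 := Real.mul_le_sin hκ.le (by (clear * - hκ1; linarith only [Real.pi_gt_three, hκ1]))
  have h2 : κ / 2 ≤ 2 / π * κ := by
    rw [div_mul_eq_mul_div, le_div_iff₀ Real.pi_pos]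
    (clear * - hκ; nlinarith only [Real.pi_le_four, hκ])
  (clear * - h1 h2; linarith)

theorem Sharp_cos {κ φ : ℝ} (hκ : 0 < κ) (hκ1 : κ ≤ 1 / 4) (hφ : |φ| ≤ π / 2 - κ) :
    κ / 2 ≤ Real.cos φ := by
  rw [← Real.cos_abs φ]
  have h1 : Real.cos (π / 2 - κ) ≤ Real.cos |φ| :=
    Real.cos_le_cos_of_nonneg_of_le_pi (abs_nonneg φ) (by linarith only [Real.pi_pos, hκ]) hφ
  rw [Real.cos_pi_div_two_sub] at h1
  exact (Sharp_sin hκ hκ1).trans h1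

/-- the truncated cone lies in the window -/
theorem Sharp_sub {c c' ℓ q κ : ℝ} (hℓ : 0 < ℓ) (hκ : 0 < κ)
    (hκ1 : κ ≤ 1 / 4) (hq : 0 < q) (hc : |c' - c| ≤ ℓ / 2 - κ * ℓ) :
    Cn κ c' (2 * q * ℓ / κ) (κ * ℓ) ⊆ Wn c ℓ q := by
  rintro u ⟨h1, h2, h3, h4⟩
  set n : ℝ := ‖u - ⟨0, c'⟩‖ with hn
  have hn0 : 0 < n := lt_trans (by (clear * - hq hℓ hκ; positivity)) h2
  have hn2 : n ^ 2 = u.re ^ 2 + (u.im - c') ^ 2 := by
    rw [hn, Complex.sq_norm, Complex.normSq_apply]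
    simp only [Complex.sub_re, Complex.sub_im, sub_zero]
    ring
  have hs := Sharp_sin hκ hκ1
  have hre : n * Real.sin κ < u.re := by
    have e1 : (u.im - c') ^ 2 < (Real.cos κ * n) ^ 2 := by
      rw [← sq_abs (u.im - c')]
      exact pow_lt_pow_left₀ h4 (abs_nonneg _) two_ne_zero
    have e2 : (n * Real.sin κ) ^ 2 < u.re ^ 2 := by
      have e3 := Real.sin_sq_add_cos_sq κ
      (clear * - hn2 e1 e3; nlinarith only [hn2, e1, e3])
    exact lt_of_pow_lt_pow_left₀ 2 h1.le e2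
  have hre2 : u.re ≤ n := by
    have e2 : u.re ^ 2 ≤ n ^ 2 := by nlinarith only [hn2]
    exact le_of_sq_le_sq e2 hn0.le
  refine ⟨?_, ?_, ?_⟩
  · have e1 : q * ℓ = 2 * q * ℓ / κ * (κ / 2) := by
      field_simp
    have e2 : 2 * q * ℓ / κ * (κ / 2) ≤ n * Real.sin κ :=
      mul_le_mul h2.le hs (by positivity) hn0.le
    (clear * - hre e1 e2; linarith)
  · have e1 : κ * ℓ ≤ ℓ := by nlinarith only [hℓ, hκ1]
    linarith only [h3, hre2, e1]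
  · have e1 : Real.cos κ * n ≤ n := by
      nlinarith only [Real.cos_le_one κ, hn0]
    have e2 : u.im - c = (u.im - c') + (c' - c) := by ring
    have e3 := abs_add_le (u.im - c') (c' - c)
    rw [← e2] at e3
    linarith only [hc, h3, h4, e1, e3]

/-- the average over the upper arc is near the value at the top point -/
theorem Sharp_top (hF : Fn F A) {c c' ℓ q κ : ℝ} (hℓ : 0 < ℓ) (hℓ1 : ℓ ≤ 1) (hκ : 0 < κ)
    (hκ1 : κ ≤ 1 / 4) (hq : 0 < q) (hq1 : 2 * q < κ ^ 2) (hc : |c' - c| ≤ ℓ / 2 - κ * ℓ) :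
    ‖Pa F κ c' (κ * ℓ) - F (zt c ℓ)‖ ≤
      500 * √(ar F (Wn c ℓ q)) * (1 + 2 * Real.log (2 / κ)) := by
  have hκ2 : κ ^ 2 ≤ 1 / 16 := by nlinarith only [hκ, hκ1]
  refine Pa_near hF hκ hκ1 (by (clear * - hκ hℓ; positivity)) fun φ hφ => ?_
  have hcos := Sharp_cos hκ hκ1 hφ
  have hre : κ ^ 2 * ℓ / 2 ≤ κ * ℓ * Real.cos φ := by
    have e1 : κ * ℓ * (κ / 2) ≤ κ * ℓ * Real.cos φ :=
      mul_le_mul_of_nonneg_left hcos (by positivity)
    (clear * - e1; linarith only [e1])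
  have hsin : |κ * ℓ * Real.sin φ| ≤ κ * ℓ := by
    rw [abs_mul, abs_of_pos (by positivity : 0 < κ * ℓ)]
    exact mul_le_of_le_one_right (by positivity) (Real.abs_sin_le_one φ)
  have h1 : q * ℓ ≤ κ * ℓ * Real.cos φ := by
    have e1 : q * ℓ ≤ κ ^ 2 / 2 * ℓ := mul_le_mul_of_nonneg_right (by (clear * - hq1; linarith only [hq1])) hℓ.le
    (clear * - hre e1; linarith)
  have h2 : κ * ℓ * Real.cos φ ≤ ℓ := by
    have e1 : κ * ℓ * Real.cos φ ≤ κ * ℓ :=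
      mul_le_of_le_one_right (by positivity) (Real.cos_le_one φ)
    nlinarith only [hℓ, hκ, hκ2, e1]
  have h3 : |c' + κ * ℓ * Real.sin φ - c| ≤ ℓ / 2 := by
    have e2 : c' + κ * ℓ * Real.sin φ - c = κ * ℓ * Real.sin φ + (c' - c) := by ring
    have e3 := abs_add_le (κ * ℓ * Real.sin φ) (c' - c)
    rw [← e2] at e3
    (clear * - hc hsin e3; linarith only [hc, hsin, e3])
  have key := hF.osc_top hℓ hℓ1 hq (by linarith only [hq1, hκ2])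
    (u := ⟨κ * ℓ * Real.cos φ, c' + κ * ℓ * Real.sin φ⟩) h1 h2 h3
  refine key.trans (mul_le_mul_of_nonneg_left ?_ (by (clear * -; positivity)))
  have hpos : 0 < κ * ℓ * Real.cos φ := lt_of_lt_of_le (by (clear * - hq hℓ; positivity)) h1
  have e1 : ℓ / (κ * ℓ * Real.cos φ) ≤ (2 / κ) ^ 2 := by
    rw [div_le_iff₀ hpos, div_pow]
    have e2 : (2 : ℝ) ^ 2 / κ ^ 2 * (κ ^ 2 * ℓ / 2) = 2 * ℓ := by
      (clear * - hκ hℓ; field_simp)
    have e3 : (2 : ℝ) ^ 2 / κ ^ 2 * (κ ^ 2 * ℓ / 2) ≤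
        (2 : ℝ) ^ 2 / κ ^ 2 * (κ * ℓ * Real.cos φ) :=
      mul_le_mul_of_nonneg_left hre (by (clear * - hκ; positivity))
    (clear * - h2 hpos e2 e3; linarith only [h2, hpos, e2, e3])
  have e4 : Real.log (ℓ / (κ * ℓ * Real.cos φ)) ≤ 2 * Real.log (2 / κ) := by
    have e5 := Real.log_le_log (by (clear * - hℓ hpos; positivity)) e1
    rwa [Real.log_pow, Nat.cast_ofNat] at e5
  exact add_le_add_right e4 1

/-- the average over the lower arc is near the value at the lower point -/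
theorem Sharp_low (hF : Fn F A) {c c' ℓ q κ : ℝ} (hℓ : 0 < ℓ) (hℓ1 : ℓ ≤ 1) (hκ : 0 < κ)
    (hκ1 : κ ≤ 1 / 4) (hq : 0 < q) (hq1 : 2 * q < κ ^ 2) (hc : |c' - c| ≤ ℓ / 2 - κ * ℓ) :
    ‖Pa F κ c' (2 * q * ℓ / κ) - F (zt c' (q * ℓ))‖ ≤
      500 * √(ar F (Wn c ℓ q)) * (1 + 2 * Real.log (2 / κ)) := by
  have hκ2 : κ ^ 2 ≤ 1 / 16 := by nlinarith only [hκ, hκ1]
  set ρ : ℝ := 2 * q * ℓ / κ with hρ
  have hρ0 : 0 < ρ := by (clear * - hq hℓ hκ; positivity)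
  have hρκ : ρ * κ = 2 * q * ℓ := by
    rw [hρ]
    field_simp
  have hρ1 : ρ ≤ κ * ℓ := by
    have e1 : ρ * κ ≤ κ * ℓ * κ := by
      rw [hρκ]
      have e2 : 2 * q * ℓ ≤ κ ^ 2 * ℓ := mul_le_mul_of_nonneg_right hq1.le hℓ.le
      (clear * - e2; linarith only [e2])
    exact le_of_mul_le_mul_right e1 hκ
  have hρ2 : ρ ≤ ℓ := by nlinarith only [hκ, hκ2, hρ0, hρ1]
  refine Pa_near hF hκ hκ1 hρ0 fun φ hφ => ?_
  have hcos := Sharp_cos hκ hκ1 hφ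
  have hre : q * ℓ ≤ ρ * Real.cos φ := by
    have e1 : ρ * (κ / 2) ≤ ρ * Real.cos φ := mul_le_mul_of_nonneg_left hcos hρ0.le
    (clear * - hρκ e1; linarith only [hρκ, e1])
  have hre2 : ρ * Real.cos φ ≤ ρ := mul_le_of_le_one_right hρ0.le (Real.cos_le_one φ)
  have hsin : |ρ * Real.sin φ| ≤ ρ := by
    rw [abs_mul, abs_of_pos hρ0]
    exact mul_le_of_le_one_right hρ0.le (Real.abs_sin_le_one φ)
  have h3 : |c' + ρ * Real.sin φ - c| ≤ ℓ / 2 := by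
    have e2 : c' + ρ * Real.sin φ - c = ρ * Real.sin φ + (c' - c) := by ring
    have e3 := abs_add_le (ρ * Real.sin φ) (c' - c)
    rw [← e2] at e3
    (clear * - hc hρ1 hsin e3; linarith only [hc, hρ1, hsin, e3])
  have k3 : |c' - c| ≤ ℓ / 2 := hc.trans (by linarith only [hρ0, hρ1])
  have hqρ : q * ℓ ≤ ρ := hre.trans hre2
  have huv : |c' + ρ * Real.sin φ - c'| ≤ ρ := by
    rwa [add_sub_cancel_left]
  have key := hF.osc_two hℓ hℓ1 hq (by linarith only [hq1, hκ2]) (c := c)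
    (u := ⟨ρ * Real.cos φ, c' + ρ * Real.sin φ⟩) (v := zt c' (q * ℓ)) (h := ρ) hρ2 hre hre2 h3
    le_rfl hqρ k3 huv
  refine key.trans (mul_le_mul_of_nonneg_left ?_ (by (clear * -; positivity)))
  have hql : 0 < q * ℓ := by positivity
  have hpos : 0 < ρ * Real.cos φ := lt_of_lt_of_le hql hre
  have e1 : ρ / (ρ * Real.cos φ) ≤ 2 / κ := by
    rw [div_le_div_iff₀ hpos hκ]
    have e2 : ρ * (κ / 2) ≤ ρ * Real.cos φ := mul_le_mul_of_nonneg_left hcos hρ0.le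
    (clear * - e2; linarith only [e2])
  have e2 : ρ / (q * ℓ) ≤ 2 / κ := by
    rw [div_le_div_iff₀ hql hκ, hρκ]
    linarith only []
  have e3 := Real.log_le_log (by (clear * - hq hℓ hκ hpos; positivity)) e1
  have e4 := Real.log_le_log (by positivity) e2
  show 1 + Real.log (ρ / (ρ * Real.cos φ)) + Real.log (ρ / (q * ℓ)) ≤ 1 + 2 * Real.log (2 / κ)
  linarith only [e3, e4]

/-- the average moves little between the two arcs -/
theorem Sharp_mid (hF : Fn F A) {c c' ℓ q κ : ℝ} (hℓ : 0 < ℓ) (hℓ1 : ℓ ≤ 1) (hκ : 0 < κ)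
    (hκ1 : κ ≤ 1 / 4) (hq : 0 < q) (hq1 : 2 * q < κ ^ 2) (hc : |c' - c| ≤ ℓ / 2 - κ * ℓ) :
    ‖Pa F κ c' (κ * ℓ) - Pa F κ c' (2 * q * ℓ / κ)‖ ≤
      √(ar F (Wn c ℓ q)) * √(Real.log (1 / q) / (π - 2 * κ)) := by
  have hκ2 : κ ^ 2 ≤ 1 / 16 := by nlinarith only [hκ, hκ1]
  have hρ1 : 2 * q * ℓ / κ ≤ κ * ℓ := by
    rw [div_le_iff₀ hκ]
    have e2 : 2 * q * ℓ ≤ κ ^ 2 * ℓ := mul_le_mul_of_nonneg_right hq1.le hℓ.le
    (clear * - e2; linarith only [e2])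
  have hpi : 0 < π - 2 * κ := by (clear * - hκ1; linarith only [Real.pi_gt_three, hκ1])
  have key := hF.cone (c := c') hκ hκ1 (by (clear * - hq hℓ hκ; positivity)) hρ1 (by (clear * - hκ hκ1 hℓ1; nlinarith only [hℓ1, hκ, hκ1]))
  have hW : Wn c ℓ q ⊆ Bx c ℓ := fun u hu =>
    ⟨lt_trans (by positivity) hu.1, hu.2.1, hu.2.2⟩
  have har : ar F (Cn κ c' (2 * q * ℓ / κ) (κ * ℓ)) ≤ ar F (Wn c ℓ q) :=
    hF.ar_mono hℓ1 hW (Sharp_sub hℓ hκ hκ1 hq hc)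
  have hlog : Real.log (κ * ℓ / (2 * q * ℓ / κ)) ≤ Real.log (1 / q) := by
    refine Real.log_le_log (by (clear * - hκ hℓ hq; positivity)) ?_
    have e1 : κ * ℓ / (2 * q * ℓ / κ) = κ ^ 2 / 2 * (1 / q) := by
      field_simp
    rw [e1]
    exact mul_le_of_le_one_left (by (clear * - hq; positivity)) (by (clear * - hκ2; linarith only [hκ2]))
  have hlog0 : 0 ≤ Real.log (1 / q) := by
    refine Real.log_nonneg ?_
    rw [le_div_iff₀ hq]
    (clear * - hq1 hκ2; linarith only [hq1, hκ2])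
  have har0 : 0 ≤ ar F (Wn c ℓ q) := ENNReal.toReal_nonneg
  have har1 : 0 ≤ ar F (Cn κ c' (2 * q * ℓ / κ) (κ * ℓ)) := ENNReal.toReal_nonneg
  rw [← Real.sqrt_mul har0]
  refine Real.le_sqrt_of_sq_le (key.trans ?_)
  rw [mul_comm (ar F (Wn c ℓ q))]
  exact mul_le_mul (div_le_div_of_nonneg_right hlog hpi.le) har har1
    (div_nonneg hlog0 hpi.le)

theorem Fn.sharp (hF : Fn F A) {c c' ℓ q κ : ℝ} (hℓ : 0 < ℓ) (hℓ1 : ℓ ≤ 1) (hκ : 0 < κ)
    (hκ1 : κ ≤ 1 / 4) (hq : 0 < q) (hq1 : 2 * q < κ ^ 2) (hc : |c' - c| ≤ ℓ / 2 - κ * ℓ) :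
    ‖F (zt c' (q * ℓ)) - F (zt c ℓ)‖ ≤
      √(ar F (Wn c ℓ q)) * sS κ (Real.log (1 / q)) := by
  have h1 := Sharp_top hF hℓ hℓ1 hκ hκ1 hq hq1 hc
  have h2 := Sharp_low hF hℓ hℓ1 hκ hκ1 hq hq1 hc
  have h3 := Sharp_mid hF hℓ hℓ1 hκ hκ1 hq hq1 hc
  have e1 : F (zt c' (q * ℓ)) - F (zt c ℓ) =
      -(Pa F κ c' (2 * q * ℓ / κ) - F (zt c' (q * ℓ))) -
        (Pa F κ c' (κ * ℓ) - Pa F κ c' (2 * q * ℓ / κ)) +
          (Pa F κ c' (κ * ℓ) - F (zt c ℓ)) := by ring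
  have e2 : ‖F (zt c' (q * ℓ)) - F (zt c ℓ)‖ ≤
      ‖Pa F κ c' (2 * q * ℓ / κ) - F (zt c' (q * ℓ))‖ +
        ‖Pa F κ c' (κ * ℓ) - Pa F κ c' (2 * q * ℓ / κ)‖ +
          ‖Pa F κ c' (κ * ℓ) - F (zt c ℓ)‖ := by
    rw [e1]
    refine (norm_add_le _ _).trans (add_le_add_left ((norm_sub_le _ _).trans ?_) _)
    rw [norm_neg]
  unfold sS
  linarith only [h1, h2, h3, e2]

end Pool.Agent.Helper90.G2
end

/- Helper24.K6w.H26.G4.Defs2 -/
section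
/-!
# Project G4: constants and parameters of the window step

`N = 2^M`, `δ = |τ|`. `KN` a huge constant which depends only on `N`; `K1` near part; `Sa`: displacement
constant for all children, `Sc`: for central children; `mm S ε`: the (optimal) constant `m / δ`;
`KK`: the large constant; `Xh`: upper bound of the movement; `Er`: bound of its excess over `m`.
-/

set_option autoImplicit false

namespace Pool.Agent.Helper26.G4

open MeasureTheory Set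
open scoped Real
open Pool.Agent.Helper90.G2 (Bx Wn Fn ar ch Cen chi sS)

/-- huge constant -/
noncomputable def KN (N : ℕ) : ℝ := Real.exp (40 * N)

/-- constant of the near part -/
noncomputable def K1 (N : ℕ) : ℝ := 40 * π * N * KN N ^ 3

/-- displacement constant, all children -/
noncomputable def Sa (N : ℕ) : ℝ := 60000 * √(1 + Real.log N)

/-- displacement constant, central children -/
noncomputable def Sc (κ : ℝ) (N : ℕ) : ℝ := sS κ (Real.log N) + 55000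

/-- the constant `m / δ` -/
noncomputable def mm (S ε : ℝ) : ℝ := π * S ^ 2 / (4 * (1 - 6 * ε))

/-- the large constant -/
noncomputable def KK (N : ℕ) (ε : ℝ) : ℝ := 4 * π * Sa N ^ 2 * N / ε

/-- absolute constant of the crude step -/
noncomputable def C9 : ℝ := 10000000000

open Classical in
/-- upper bound of the movement divided by `δ`; `z = F u - F v`, `s = F v' - F v`, `ω = τ / |τ|` -/
noncomputable def Xh (ω s z : ℂ) (r B : ℝ) : ℝ :=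
  if ‖z‖ < r then B else (ω * s / z).re + ‖s‖ ^ 2 / ‖z‖ ^ 2

/-- bound of the integral of the excess of `Xh` over `m` -/
noncomputable def Er (ε m s r B : ℝ) : ℝ :=
  π * r ^ 2 * B + π * s ^ 2 / (4 * (1 - ε) * m) + 2 * π * s ^ 3 / (√(ε * m) * r)

/-- the number of windows over which a bad stretch extends -/
noncomputable def Lw (Ca ε δ : ℝ) (M : ℕ) : ℕ :=
  ⌈Ca * (1 + Real.log ((2 ^ M : ℕ) : ℝ)) / (ε * δ * M)⌉₊

/-- smallness of `δ`, `N = 2^M` -/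
structure Sm (Ca : ℝ) (M : ℕ) (κ ε δ : ℝ) : Prop where
  pos : 0 < δ
  le : δ ≤ 1 / 4
  s1 : δ * (10 * ((2 ^ M : ℕ) : ℝ) + Real.log (2 * KN (2 ^ M) / δ + KN (2 ^ M))) ≤ ε
  s2 : δ * KN (2 ^ M) ≤ ε / 2
  s3 : δ * K1 (2 ^ M) + √δ * (4 * Sc κ (2 ^ M) / √ε) ≤ ε / 2
  s4 : δ * K1 (2 ^ M) + √δ * (4 * Sa (2 ^ M) / √ε) ≤ ε / 2
  s5 : δ * K1 (2 ^ M) + √δ * Sa (2 ^ M) ≤ ε / (4 * ((2 ^ M : ℕ) : ℝ))
  s6 : 8 * δ ^ 2 * KK (2 ^ M) ε ^ 2 ≤ ε
  s7 : Ca * (1 + √((Lw Ca ε δ M + 1) * Real.log ((2 ^ M : ℕ) : ℝ) * √(2 * KN (2 ^ M) / δ))) ≤ ε / δ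

/-- the family of the frozen sequences of all points of the top box -/
def Yf (F : ℂ → ℂ) (Λ : ℂ → ℂ → ℂ) (M : ℕ) (ξ ε : ℝ) (τ : ℂ) (y : ℂ → ℕ → ℝ) : Prop :=
  ∀ u ∈ Bx ξ 1, Fz (fun k => al Λ τ (vk (2 ^ M) ξ k u) u)
    (fun k => Bad F Λ (ε / ‖τ‖) (2 * KN (2 ^ M) / ‖τ‖) (vk (2 ^ M) ξ k u) u)
    (ε * ‖τ‖ ^ 2 * M) (lv (2 ^ M) u) (y u)

/-- the class `Σ` with a branch of `log ψ'` -/
structure Sg (ψ h : ℂ → ℂ) : Prop where
  diff : DifferentiableOn ℂ ψ {z : ℂ | 1 < ‖z‖}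
  inj : Set.InjOn ψ {z : ℂ | 1 < ‖z‖}
  lim : ∃ b : ℂ, Filter.Tendsto (fun z => ψ z - z) (Bornology.cobounded ℂ) (nhds b)
  hcont : ContinuousOn h {z : ℂ | 1 < ‖z‖}
  hexp : ∀ z : ℂ, 1 < ‖z‖ → Complex.exp (h z) = deriv ψ z
  hlim : Filter.Tendsto h (Bornology.cobounded ℂ) (nhds 0)

end Pool.Agent.Helper26.G4
end

/- Helper24.K6w.H26.G4.AvgB -/
section
/-!
# G4-AVGB: averaging over translations, abstract

Integrate `h` over `ξ ∈ [0, 2 π]`; every translate of the `2 π` periodic `Φ` has the same integral;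
`sum_chK`, `sum_chi_ge`, `e^(-2x) ≤ 1 - x` for `x ≤ 1/2`. See the proof of `Pool.Agent.Helper90.G2.Fn.avg_core`.
-/

set_option autoImplicit false

namespace Pool.Agent.Helper26.G4

open MeasureTheory Set
open scoped Real
open Pool.Agent.Helper90.G2 (chK)

theorem AvgB_exp {x : ℝ} (hx : 0 ≤ x) (hx1 : x ≤ 1 / 2) : Real.exp (-(2 * x)) ≤ 1 - x := by
  have h1 : Real.exp (-(2 * x)) = (Real.exp (2 * x))⁻¹ := Real.exp_neg _
  have h2 : 2 * x + 1 ≤ Real.exp (2 * x) := Real.add_one_le_exp _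
  have h3 : 0 < 1 - x := by linarith only [hx1]
  rw [h1, inv_le_comm₀ (Real.exp_pos _) h3]
  refine le_trans ?_ h2
  rw [inv_le_iff_one_le_mul₀ h3]
  (clear * - hx hx1; nlinarith only [hx, hx1])

/-- the integral of a translate -/
theorem AvgB_shift {Φ : ℝ → ℝ} (hper : Function.Periodic Φ (2 * π)) (s : ℝ) :
    ∫ ξ in (0:ℝ)..(2 * π), Φ (ξ + s) = ∫ ξ in (0:ℝ)..(2 * π), Φ ξ := by
  rw [intervalIntegral.integral_comp_add_right Φ s]
  have h := hper.intervalIntegral_add_eq (0 + s) 0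
  rw [zero_add] at h
  rw [zero_add, add_comm (2 * π) s, h]
  simp

theorem avg4 {Φ : ℝ → ℝ} (hΦ : Continuous Φ) (hper : Function.Periodic Φ (2 * π))
    (h0 : ∀ x, 0 ≤ Φ x) {κ c' B : ℝ} {N : ℕ} (hκ : 0 < κ) (hκ1 : κ ≤ 1 / 4) (hc : 0 ≤ c')
    (hc1 : 3 * κ * c' ≤ 1 / 2) (hN : 2 ≤ κ * N) (K : ℕ)
    (h : ∀ ξ ∈ Icc (0 : ℝ) (2 * π), ∑ d ∈ Finset.range (N ^ K), chK κ c' N K d *
      Φ (ξ + (((d : ℝ) + 1 / 2) / (N : ℝ) ^ K - 1 / 2)) ≤ B) :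
    ∫ ξ in (0:ℝ)..(2 * π), Φ ξ ≤ 2 * π * B * ((N : ℝ) ^ K)⁻¹ * Real.exp (6 * κ * c' * K) := by
  have hN0 : 0 < N := by
    rcases Nat.eq_zero_or_pos N with h | h
    · rw [h] at hN
      norm_num at hN
    · exact h
  have hNr : (0 : ℝ) < N := by exact_mod_cast hN0
  have hpi : (0 : ℝ) ≤ 2 * π := by positivity
  obtain ⟨I, hI⟩ : ∃ I : ℝ, I = ∫ ξ in (0:ℝ)..(2 * π), Φ ξ := ⟨_, rfl⟩
  rw [← hI]
  have hI0 : 0 ≤ I := by
    rw [hI]
    exact intervalIntegral.integral_nonneg hpi fun x _ => h0 x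
  obtain ⟨s, hs⟩ : ∃ s : ℕ → ℝ, s = fun d : ℕ => ((d : ℝ) + 1 / 2) / (N : ℝ) ^ K - 1 / 2 :=
    ⟨_, rfl⟩
  have hcont : ∀ d : ℕ, Continuous fun ξ : ℝ => chK κ c' N K d * Φ (ξ + s d) := by
    intro d
    exact continuous_const.mul (hΦ.comp (continuous_id.add continuous_const))
  have hsum : ∫ ξ in (0:ℝ)..(2 * π), ∑ d ∈ Finset.range (N ^ K), chK κ c' N K d * Φ (ξ + s d) =
      (∑ d ∈ Finset.range (N ^ K), chK κ c' N K d) * I := by
    rw [intervalIntegral.integral_finsetSum fun d _ => (hcont d).intervalIntegrable _ _,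
      Finset.sum_mul]
    refine Finset.sum_congr rfl fun d _ => ?_
    rw [intervalIntegral.integral_const_mul, AvgB_shift hper, hI]
  have hle : (∑ d ∈ Finset.range (N ^ K), chK κ c' N K d) * I ≤ 2 * π * B := by
    rw [← hsum]
    have h1 : ∫ ξ in (0:ℝ)..(2 * π), ∑ d ∈ Finset.range (N ^ K), chK κ c' N K d * Φ (ξ + s d) ≤
        ∫ _ξ in (0:ℝ)..(2 * π), B := by
      refine intervalIntegral.integral_mono_on hpi
        ((continuous_finsetSum _ fun d _ => hcont d).intervalIntegrable _ _)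
        (continuous_const.intervalIntegrable _ _) fun ξ hξ => ?_
      have h2 := h ξ hξ
      rw [hs]
      exact h2
    refine h1.trans (le_of_eq ?_)
    rw [intervalIntegral.integral_const]
    simp
  have hx : 0 ≤ 3 * κ * c' := by (clear * - hκ hc; positivity)
  have hlow : (N : ℝ) ^ K * Real.exp (-(6 * κ * c' * K)) ≤
      ∑ d ∈ Finset.range (N ^ K), chK κ c' N K d := by
    rw [Pool.Agent.Helper90.G2.sum_chK κ c' hN0 K]
    have h1 := Pool.Agent.Helper90.G2.sum_chi_ge hκ hκ1 hc hN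
    have h2 := AvgB_exp hx hc1
    have h3 : (N : ℝ) * Real.exp (-(2 * (3 * κ * c'))) ≤
        ∑ e ∈ Finset.range N, Pool.Agent.Helper90.G2.chi κ c' N e :=
      (mul_le_mul_of_nonneg_left h2 hNr.le).trans h1
    have h4 : (N : ℝ) ^ K * Real.exp (-(6 * κ * c' * K)) =
        ((N : ℝ) * Real.exp (-(2 * (3 * κ * c')))) ^ K := by
      rw [mul_pow, ← Real.exp_nat_mul]
      congr 2
      ring
    rw [h4]
    exact pow_le_pow_left₀ (by positivity) h3 K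
  have hfin : (N : ℝ) ^ K * Real.exp (-(6 * κ * c' * K)) * I ≤ 2 * π * B :=
    (mul_le_mul_of_nonneg_right hlow hI0).trans hle
  have hNK : (0 : ℝ) < (N : ℝ) ^ K := by positivity
  have he : Real.exp (-(6 * κ * c' * K)) * Real.exp (6 * κ * c' * K) = 1 := by
    rw [← Real.exp_add]
    simp
  calc I = ((N : ℝ) ^ K * Real.exp (-(6 * κ * c' * K)) * I) *
        (((N : ℝ) ^ K)⁻¹ * Real.exp (6 * κ * c' * K)) := by
        have h5 : ((N : ℝ) ^ K * Real.exp (-(6 * κ * c' * K)) * I) *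
            (((N : ℝ) ^ K)⁻¹ * Real.exp (6 * κ * c' * K)) =
            ((N : ℝ) ^ K * ((N : ℝ) ^ K)⁻¹) *
              (Real.exp (-(6 * κ * c' * K)) * Real.exp (6 * κ * c' * K)) * I := by ring
        rw [h5, he, mul_inv_cancel₀ hNK.ne', one_mul, one_mul]
    _ ≤ (2 * π * B) * (((N : ℝ) ^ K)⁻¹ * Real.exp (6 * κ * c' * K)) :=
        mul_le_mul_of_nonneg_right hfin (by positivity)
    _ = 2 * π * B * ((N : ℝ) ^ K)⁻¹ * Real.exp (6 * κ * c' * K) := by ring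

end Pool.Agent.Helper26.G4
end
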