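import Pool.Agent.Helper24.K6.G03
import Pool.Agent.Helper24.K6.G09

/- Helper24.K6w.H26.G4.Basic -/
section
/-!
# G4-BASIC: the branch of `log (F v - F u)`, Koebe

`Lb_exp`: from `Br.exp` and `exp (log (v - u)) = v - u`. `Fn.ne`: `hF.inj` with `c` the midpoint of the
imaginary parts. Derivatives: a continuous function `L` with `exp L = f`, `f` holomorphic and `≠ 0` near
the point, has the derivative `f' / f` (`Λ` is continuous in each variable on `EE`, an open set;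
`v - u` lies in the slit plane because `0 < re (v - u)`). `Fn.koebe4`: `Pool.Agent.Helper84.EK.koebe_r`
for `z ↦ F (v + z) - F u`, no zeros on the disc of radius `ρ`. `lip_v`, `lip_u`: mean value inequality
along the segment (`Convex.norm_image_sub_le_of_norm_hasDerivWithin_le` on the segment), the derivative
is at most `4 / ρ`.
-/

set_option autoImplicit false

namespace Pool.Agent.Helper26.G4

open MeasureTheory Set
open scoped Real
open Pool.Agent.Helper90.G2 (Bx Wn Fn ar ch Cen chi)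

theorem basic_EE_open : IsOpen EE := by
  have h1 : IsOpen {p : ℂ × ℂ | 0 < p.1.re} :=
    isOpen_lt continuous_const (Complex.continuous_re.comp continuous_fst)
  have h2 : IsOpen {p : ℂ × ℂ | 0 < p.2.re} :=
    isOpen_lt continuous_const (Complex.continuous_re.comp continuous_snd)
  have h3 : IsOpen {p : ℂ × ℂ | |p.1.im - p.2.im| < 2 * π} :=
    isOpen_lt (((Complex.continuous_im.comp continuous_fst).sub
      (Complex.continuous_im.comp continuous_snd)).abs) continuous_const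
  exact h1.inter (h2.inter h3)

/-- the derivative of a continuous branch of the logarithm -/
theorem basic_branch {L f : ℂ → ℂ} {v f' : ℂ} (hL : ContinuousAt L v)
    (he : ∀ᶠ w in nhds v, Complex.exp (L w) = f w) (hf : HasDerivAt f f' v) :
    HasDerivAt L (f' / f v) v := by
  have hv : Complex.exp (L v) = f v := he.self_of_nhds
  have hfv : f v ≠ 0 := by rw [← hv]; exact Complex.exp_ne_zero _
  have h1 : ∀ᶠ w in nhds v, ‖L w - L v‖ < π := by
    have h2 : Filter.Tendsto (fun w => ‖L w - L v‖) (nhds v) (nhds ‖L v - L v‖) :=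
      (hL.sub continuousAt_const).norm
    rw [sub_self, norm_zero] at h2
    exact h2.eventually (gt_mem_nhds Real.pi_pos)
  have h3 : L =ᶠ[nhds v] fun w => L v + Complex.log (f w / f v) := by
    filter_upwards [h1, he] with w hw hew
    have h4 : f w / f v = Complex.exp (L w - L v) := by
      rw [Complex.exp_sub, hew, hv]
    have h5 := Complex.abs_im_le_norm (L w - L v)
    have h6 := abs_lt.1 (lt_of_le_of_lt h5 hw)
    rw [h4, Complex.log_exp h6.1 h6.2.le]
    ring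
  refine HasDerivAt.congr_of_eventuallyEq ?_ h3
  have h7 : HasDerivAt (fun w => f w / f v) (f' / f v) v := hf.div_const (f v)
  have h8 : f v / f v = 1 := div_self hfv
  have h9 : f v / f v ∈ Complex.slitPlane := by rw [h8]; exact Complex.one_mem_slitPlane
  have h10 := (h7.clog h9).const_add (L v)
  simpa [h8] using h10

theorem basic_mem {v u : ℂ} (hv : 0 < v.re) (hu : 0 < u.re) (h : |v.im - u.im| < 2 * π) :
    (v, u) ∈ EE := ⟨hv, hu, h⟩

theorem basic_cont_v {F : ℂ → ℂ} {Λ : ℂ → ℂ → ℂ} (hΛ : Br F Λ) {v u : ℂ} (h : (v, u) ∈ EE) :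
    ContinuousAt (fun v => Λ v u) v := by
  have h1 : ContinuousAt (fun p : ℂ × ℂ => Λ p.1 p.2) (v, u) :=
    hΛ.cont.continuousAt (basic_EE_open.mem_nhds h)
  have h2 : ContinuousAt (fun w : ℂ => (w, u)) v := by fun_prop
  exact ContinuousAt.comp (f := fun w : ℂ => (w, u)) (x := v) h1 h2

theorem basic_cont_u {F : ℂ → ℂ} {Λ : ℂ → ℂ → ℂ} (hΛ : Br F Λ) {v u : ℂ} (h : (v, u) ∈ EE) :
    ContinuousAt (fun u => Λ v u) u := by
  have h1 : ContinuousAt (fun p : ℂ × ℂ => Λ p.1 p.2) (v, u) :=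
    hΛ.cont.continuousAt (basic_EE_open.mem_nhds h)
  have h2 : ContinuousAt (fun w : ℂ => (v, w)) u := by fun_prop
  exact ContinuousAt.comp (f := fun w : ℂ => (v, w)) (x := u) h1 h2

theorem basic_cont_d {F : ℂ → ℂ} {Λ : ℂ → ℂ → ℂ} (hΛ : Br F Λ) {v : ℂ} (h : (v, v) ∈ EE) :
    ContinuousAt (fun v => Λ v v) v := by
  have h1 : ContinuousAt (fun p : ℂ × ℂ => Λ p.1 p.2) (v, v) :=
    hΛ.cont.continuousAt (basic_EE_open.mem_nhds h)
  have h2 : ContinuousAt (fun w : ℂ => (w, w)) v := by fun_prop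
  exact ContinuousAt.comp (f := fun w : ℂ => (w, w)) (x := v) h1 h2

theorem Lb_exp {F : ℂ → ℂ} {Λ : ℂ → ℂ → ℂ} (hΛ : Br F Λ) {v u : ℂ} (hu : 0 < u.re)
    (huv : u.re < v.re) (h : |v.im - u.im| < 2 * π) : Complex.exp (Lb Λ v u) = F v - F u := by
  have hne : v - u ≠ 0 := by
    intro h0
    have h1 := congrArg Complex.re h0
    rw [Complex.sub_re, Complex.zero_re] at h1
    (clear * - huv h1; linarith only [huv, h1])
  have h2 := hΛ.exp (v, u) (basic_mem (hu.trans huv) hu h)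
  rw [Lb, Complex.exp_add, Complex.exp_log hne]
  exact h2

theorem Fn.ne {F : ℂ → ℂ} {A : ℝ} (hF : Fn F A) {v u : ℂ} (hv : 0 < v.re) (hu : 0 < u.re)
    (h : |v.im - u.im| < 2 * π) (hne : v ≠ u) : F v ≠ F u := by
  intro h0
  refine hne (hF.inj ((v.im + u.im) / 2) ⟨hv, ?_⟩ ⟨hu, ?_⟩ h0)
  · have h1 : v.im - (v.im + u.im) / 2 = (v.im - u.im) / 2 := by ring
    rw [h1, abs_div, abs_two]
    (clear * - h; linarith)
  · have h1 : u.im - (v.im + u.im) / 2 = -((v.im - u.im) / 2) := by ring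
    rw [h1, abs_neg, abs_div, abs_two]
    (clear * - h; linarith only [h])

theorem basic_hasDeriv {F : ℂ → ℂ} {A : ℝ} (hF : Fn F A) {v : ℂ} (hv : 0 < v.re) :
    HasDerivAt F (deriv F v) v :=
  (hF.diff.differentiableAt (Pool.Agent.Helper90.G2.kb_open.mem_nhds hv)).hasDerivAt

/-- the set of the first variables -/
theorem basic_ev {v u : ℂ} (huv : u.re < v.re) (h : |v.im - u.im| < 2 * π) :
    ∀ᶠ w in nhds v, u.re < w.re ∧ |w.im - u.im| < 2 * π := by
  have h1 : IsOpen {w : ℂ | u.re < w.re} := isOpen_lt continuous_const Complex.continuous_re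
  have h2 : IsOpen {w : ℂ | |w.im - u.im| < 2 * π} :=
    isOpen_lt (Complex.continuous_im.sub continuous_const).abs continuous_const
  exact Filter.inter_mem (h1.mem_nhds huv) (h2.mem_nhds h)

theorem basic_ev' {v u : ℂ} (hu : 0 < u.re) (huv : u.re < v.re) (h : |v.im - u.im| < 2 * π) :
    ∀ᶠ w in nhds u, 0 < w.re ∧ w.re < v.re ∧ |v.im - w.im| < 2 * π := by
  have h0 : IsOpen {w : ℂ | 0 < w.re} := isOpen_lt continuous_const Complex.continuous_re
  have h1 : IsOpen {w : ℂ | w.re < v.re} := isOpen_lt Complex.continuous_re continuous_const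
  have h2 : IsOpen {w : ℂ | |v.im - w.im| < 2 * π} :=
    isOpen_lt (continuous_const.sub Complex.continuous_im).abs continuous_const
  exact Filter.inter_mem (h0.mem_nhds hu) (Filter.inter_mem (h1.mem_nhds huv) (h2.mem_nhds h))

theorem basic_slit {v u : ℂ} (huv : u.re < v.re) : v - u ∈ Complex.slitPlane := by
  left
  rw [Complex.sub_re]
  linarith

theorem Lb_deriv_v {F : ℂ → ℂ} {A : ℝ} (hF : Fn F A) {Λ : ℂ → ℂ → ℂ} (hΛ : Br F Λ) {v u : ℂ}
    (hu : 0 < u.re) (huv : u.re < v.re) (h : |v.im - u.im| < 2 * π) :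
    HasDerivAt (fun v => Lb Λ v u) (deriv F v / (F v - F u)) v := by
  have hv : 0 < v.re := hu.trans huv
  refine basic_branch (f := fun v => F v - F u) ?_ ?_ ((basic_hasDeriv hF hv).sub_const (F u))
  · have h1 := basic_cont_v hΛ (basic_mem hv hu h)
    have h2 : ContinuousAt (fun v : ℂ => Complex.log (v - u)) v := by
      have h3 : ContinuousAt (fun v : ℂ => v - u) v := by fun_prop
      exact h3.clog (basic_slit huv)
    exact h1.add h2
  · filter_upwards [basic_ev huv h] with w hw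
    exact Lb_exp hΛ hu hw.1 hw.2

theorem Lb_deriv_u {F : ℂ → ℂ} {A : ℝ} (hF : Fn F A) {Λ : ℂ → ℂ → ℂ} (hΛ : Br F Λ) {v u : ℂ}
    (hu : 0 < u.re) (huv : u.re < v.re) (h : |v.im - u.im| < 2 * π) :
    HasDerivAt (fun u => Lb Λ v u) (-(deriv F u / (F v - F u))) u := by
  have hv : 0 < v.re := hu.trans huv
  have h4 : HasDerivAt (fun u => F v - F u) (-(deriv F u)) u :=
    (basic_hasDeriv hF hu).const_sub (F v)
  have h5 : HasDerivAt (fun u => Lb Λ v u) (-(deriv F u) / (F v - F u)) u := by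
    refine basic_branch (f := fun u => F v - F u) ?_ ?_ h4
    · have h1 := basic_cont_u hΛ (basic_mem hv hu h)
      have h2 : ContinuousAt (fun u : ℂ => Complex.log (v - u)) u := by
        have h3 : ContinuousAt (fun u : ℂ => v - u) u := by fun_prop
        exact h3.clog (basic_slit huv)
      exact h1.add h2
    · filter_upwards [basic_ev' hu huv h] with w hw
      exact Lb_exp hΛ hw.1 hw.2.1 hw.2.2
  rwa [neg_div] at h5

/-- the diagonal is a holomorphic branch of `log F'` -/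
theorem diag_deriv {F : ℂ → ℂ} {A : ℝ} (hF : Fn F A) {Λ : ℂ → ℂ → ℂ} (hΛ : Br F Λ) {v : ℂ}
    (hv : 0 < v.re) : HasDerivAt (fun v => Λ v v) (deriv (deriv F) v / deriv F v) v := by
  have hm : (v, v) ∈ EE := basic_mem hv hv (by rw [sub_self, abs_zero]; positivity)
  refine basic_branch (f := deriv F) (basic_cont_d hΛ hm) ?_ ?_
  · filter_upwards [Pool.Agent.Helper90.G2.kb_open.mem_nhds hv] with w hw
    exact hΛ.diag w hw
  · exact ((hF.diff.deriv Pool.Agent.Helper90.G2.kb_open).differentiableAt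
      (Pool.Agent.Helper90.G2.kb_open.mem_nhds hv)).hasDerivAt

theorem Fn.koebe4 {F : ℂ → ℂ} {A : ℝ} (hF : Fn F A) {v u : ℂ} {ρ : ℝ} (hρ : 0 < ρ)
    (hu : 0 < u.re) (h1 : ρ ≤ v.re) (h2 : ρ ≤ π) (h3 : ρ ≤ ‖v - u‖) (h4 : |v.im - u.im| ≤ π) :
    ‖deriv F v‖ * ρ ≤ 4 * ‖F v - F u‖ := by
  have hs := Pool.Agent.Helper90.G2.kb_sub (u := v) h1 h2
  have hm : ∀ z ∈ Metric.ball (0 : ℂ) ρ, v + z ∈ Metric.ball v ρ := by
    intro z hz
    rw [mem_ball_zero_iff] at hz
    rw [Metric.mem_ball, dist_eq_norm, add_sub_cancel_left]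
    exact hz
  have hv : 0 < v.re := lt_of_lt_of_le hρ h1
  have hlin : ∀ z : ℂ, HasDerivAt (fun z : ℂ => v + z) 1 z := fun z =>
    (hasDerivAt_id z).const_add v
  have hder : ∀ z ∈ Metric.ball (0 : ℂ) ρ,
      HasDerivAt (fun z => F (v + z) - F u) (deriv F (v + z)) z := by
    intro z hz
    have h5 := (basic_hasDeriv hF (hs (hm z hz)).1).comp z (hlin z)
    rw [mul_one] at h5
    exact h5.sub_const (F u)
  have h6 := Pool.Agent.Helper84.EK.koebe_r (g := fun z => F (v + z) - F u) hρ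
    (fun z hz => (hder z hz).differentiableAt.differentiableWithinAt)
    (by
      intro z hz w hw h
      have h7 : F (v + z) = F (v + w) := sub_left_inj.1 h
      exact add_left_cancel (hF.inj v.im (hs (hm z hz)) (hs (hm w hw)) h7))
    (by
      intro z hz h
      have h7 := hm z hz
      have h8 := hs h7
      have hz' : ‖z‖ < ρ := by rwa [mem_ball_zero_iff] at hz
      have h9 : v + z ≠ u := by
        intro h10
        have h11 : v - u = -z := by rw [← h10]; ring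
        rw [h11, norm_neg] at h3
        (clear * - h3 hz'; linarith only [h3, hz'])
      have h12 : |(v + z).im - u.im| < 2 * π := by
        have h13 : (v + z).im - u.im = ((v + z).im - v.im) + (v.im - u.im) := by ring
        rw [h13]
        have h14 := h8.2
        (clear * - h4 h14; linarith only [abs_add_le ((v + z).im - v.im) (v.im - u.im), h4, h14])
      exact Fn.ne hF h8.1 hu h12 h9 (sub_eq_zero.1 h))
  have h5 : deriv (fun z => F (v + z) - F u) 0 = deriv F v := by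
    have h7 := (hder 0 (Metric.mem_ball_self hρ)).deriv
    rw [add_zero] at h7
    exact h7
  rw [h5, add_zero] at h6
  exact h6

/-- `|F''| ≤ (4 / ρ) |F'|` (Bieberbach) -/
theorem Fn.bieb {F : ℂ → ℂ} {A : ℝ} (hF : Fn F A) {v : ℂ} {ρ : ℝ} (hρ : 0 < ρ) (h1 : ρ ≤ v.re)
    (h2 : ρ ≤ π) : ‖deriv (deriv F) v‖ ≤ 4 / ρ * ‖deriv F v‖ := by
  have hs := Pool.Agent.Helper90.G2.kb_sub (u := v) h1 h2
  exact Pool.Agent.Helper90.G2.kb_two hρ (hF.diff.mono fun w hw => (hs hw).1)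
    ((hF.inj v.im).mono hs) (Pool.Agent.Helper90.G2.Fn.dne hF (lt_of_lt_of_le hρ h1))

/-- mean value inequality along a segment -/
theorem basic_seg {f f' : ℂ → ℂ} {p p' : ℂ} {C : ℝ} (hf : ∀ w ∈ segment ℝ p p', HasDerivAt f (f' w) w)
    (hb : ∀ w ∈ segment ℝ p p', ‖f' w‖ ≤ C) : ‖f p' - f p‖ ≤ C * ‖p' - p‖ :=
  Convex.norm_image_sub_le_of_norm_hasDerivWithin_le (s := segment ℝ p p')
    (fun w hw => (hf w hw).hasDerivWithinAt) hb (convex_segment p p') (left_mem_segment ℝ p p')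
    (right_mem_segment ℝ p p')

/-- the quotient -/
theorem basic_quot {a b : ℂ} {ρ : ℝ} (hρ : 0 < ρ) (hb : b ≠ 0) (h : ‖a‖ * ρ ≤ 4 * ‖b‖) :
    ‖a / b‖ ≤ 4 / ρ := by
  rw [norm_div, div_le_div_iff₀ (norm_pos_iff.2 hb) hρ]
  exact h

/-- moving the first point along a segment at distance at least `ρ` of `u` and of the boundary -/
theorem lip_v {F : ℂ → ℂ} {A : ℝ} (hF : Fn F A) {Λ : ℂ → ℂ → ℂ} (hΛ : Br F Λ) {v v' u : ℂ} {ρ : ℝ}
    (hρ : 0 < ρ) (h2 : ρ ≤ π) (hu : 0 < u.re) (h : ∀ w ∈ segment ℝ v v', u.re < w.re ∧ ρ ≤ w.re ∧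
      ρ ≤ ‖w - u‖ ∧ |w.im - u.im| ≤ π) : ‖Lb Λ v' u - Lb Λ v u‖ ≤ 4 / ρ * ‖v' - v‖ := by
  have hpi : π < 2 * π := by linarith only [hρ, h2]
  refine basic_seg (f := fun v => Lb Λ v u) (f' := fun v => deriv F v / (F v - F u)) ?_ ?_
  · intro w hw
    obtain ⟨h3, h4, h5, h6⟩ := h w hw
    exact Lb_deriv_v hF hΛ hu h3 (lt_of_le_of_lt h6 hpi)
  · intro w hw
    obtain ⟨h3, h4, h5, h6⟩ := h w hw
    have hwu : w ≠ u := by
      intro h7
      rw [h7, sub_self, norm_zero] at h5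
      linarith only [hρ, h5]
    exact basic_quot hρ (sub_ne_zero.2 (Fn.ne hF (lt_of_lt_of_le hρ h4) hu
      (lt_of_le_of_lt h6 hpi) hwu)) (Fn.koebe4 hF hρ hu h4 h2 h5 h6)

/-- moving the second point along a segment -/
theorem lip_u {F : ℂ → ℂ} {A : ℝ} (hF : Fn F A) {Λ : ℂ → ℂ → ℂ} (hΛ : Br F Λ) {v u u' : ℂ} {ρ : ℝ}
    (hρ : 0 < ρ) (h2 : ρ ≤ π) (h : ∀ w ∈ segment ℝ u u', 0 < w.re ∧ w.re < v.re ∧ ρ ≤ w.re ∧
      ρ ≤ ‖v - w‖ ∧ |v.im - w.im| ≤ π) : ‖Lb Λ v u' - Lb Λ v u‖ ≤ 4 / ρ * ‖u' - u‖ := by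
  have hpi : π < 2 * π := by linarith only [hρ, h2]
  refine basic_seg (f := fun u => Lb Λ v u) (f' := fun u => -(deriv F u / (F v - F u))) ?_ ?_
  · intro w hw
    obtain ⟨h3, h4, h5, h6, h7⟩ := h w hw
    exact Lb_deriv_u hF hΛ h3 h4 (lt_of_le_of_lt h7 hpi)
  · intro w hw
    obtain ⟨h3, h4, h5, h6, h7⟩ := h w hw
    have hwv : w ≠ v := by
      intro h8
      rw [h8, sub_self, norm_zero] at h6
      (clear * - hρ h6; linarith)
    rw [norm_sub_rev] at h6
    rw [abs_sub_comm] at h7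
    have h9 := Fn.koebe4 hF (v := w) (u := v) hρ (h3.trans h4) h5 h2 h6 h7
    have h10 := Fn.ne hF h3 (h3.trans h4) (lt_of_le_of_lt h7 hpi) hwv
    rw [norm_sub_rev] at h9
    rw [norm_neg]
    exact basic_quot hρ (sub_ne_zero.2 h10.symm) h9

/-- the diagonal -/
theorem lip_diag {F : ℂ → ℂ} {A : ℝ} (hF : Fn F A) {Λ : ℂ → ℂ → ℂ} (hΛ : Br F Λ) {v v' : ℂ} {ρ : ℝ}
    (hρ : 0 < ρ) (h2 : ρ ≤ π) (h : ∀ w ∈ segment ℝ v v', ρ ≤ w.re) :
    ‖Λ v' v' - Λ v v‖ ≤ 4 / ρ * ‖v' - v‖ := by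
  refine basic_seg (f := fun v => Λ v v) (f' := fun v => deriv (deriv F) v / deriv F v) ?_ ?_
  · intro w hw
    exact diag_deriv hF hΛ (lt_of_lt_of_le hρ (h w hw))
  · intro w hw
    have h3 := h w hw
    have h4 := Pool.Agent.Helper90.G2.Fn.dne hF (lt_of_lt_of_le hρ h3)
    have h5 := Fn.bieb hF hρ h3 h2
    rw [norm_div, div_le_iff₀ (norm_pos_iff.2 h4)]
    exact h5

/-- a continuous path which starts at `0`, whose exponential stays near `1`, stays near `0` -/
theorem basic_path {D : ℝ → ℂ} (hD : ContinuousOn D (Icc 0 1)) (h0 : D 0 = 0)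
    (h : ∀ t ∈ Icc (0 : ℝ) 1, ‖Complex.exp (D t) - 1‖ < 1 / 4) : ‖D 1‖ ≤ 1 / 2 := by
  by_contra hc
  rw [not_le] at hc
  have h1 : (1 / 2 : ℝ) ∈ Icc ‖D 0‖ ‖D 1‖ := by
    rw [h0, norm_zero]
    exact ⟨by norm_num, hc.le⟩
  obtain ⟨t, ht, ht'⟩ := intermediate_value_Icc zero_le_one hD.norm h1
  simp only at ht'
  have h2 := Complex.norm_exp_sub_one_sub_id_le (x := D t) (by rw [ht']; norm_num)
  have h3 := h t ht
  have h4 : ‖D t‖ ≤ ‖Complex.exp (D t) - 1‖ + ‖Complex.exp (D t) - 1 - D t‖ := by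
    have h5 : D t = (Complex.exp (D t) - 1) - (Complex.exp (D t) - 1 - D t) := by ring
    calc ‖D t‖ = ‖(Complex.exp (D t) - 1) - (Complex.exp (D t) - 1 - D t)‖ := by rw [← h5]
      _ ≤ _ := norm_sub_le _ _
  rw [ht'] at h2 h4
  norm_num at h2
  (clear * - h3 h4 h2; linarith only [h3, h4, h2])

/-- the disc around `v` -/
theorem basic_disc {v w : ℂ} {ρ : ℝ} (h1 : ρ ≤ v.re)
    (hw : w ∈ Metric.closedBall v (ρ / 40)) : 39 / 40 * ρ ≤ w.re ∧ |w.im - v.im| ≤ ρ / 40 := by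
  rw [Metric.mem_closedBall, dist_eq_norm] at hw
  have h3 := Complex.abs_re_le_norm (w - v)
  have h4 := Complex.abs_im_le_norm (w - v)
  rw [Complex.sub_re] at h3
  rw [Complex.sub_im] at h4
  refine ⟨?_, by (clear * - hw h4; linarith only [hw, h4])⟩
  have h5 := (abs_le.1 h3).1
  (clear * - h1 hw h5; linarith)

/-- the derivative near the diagonal -/
theorem basic_d1 {F : ℂ → ℂ} {A : ℝ} (hF : Fn F A) {v : ℂ} {ρ : ℝ}
    (hρ : 0 < ρ) (h1 : ρ ≤ v.re) (h2 : ρ ≤ π) :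
    ∀ w ∈ Metric.closedBall v (ρ / 40), ‖deriv F w - deriv F v‖ ≤ 1 / 5 * ‖deriv F v‖ := by
  have hk := Pool.Agent.Helper90.G2.kb_open
  have hpos : ∀ w ∈ Metric.closedBall v (ρ / 40), 0 < w.re := fun w hw =>
    lt_of_lt_of_le (by (clear * - hρ; positivity)) (basic_disc h1 hw).1
  have hd2 : ∀ w ∈ Metric.closedBall v (ρ / 40),
      HasDerivAt (deriv F) (deriv (deriv F) w) w := fun w hw =>
    ((hF.diff.deriv hk).differentiableAt (hk.mem_nhds (hpos w hw))).hasDerivAt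
  have hc : ContinuousOn (fun w => ‖deriv F w‖) (Metric.closedBall v (ρ / 40)) := fun w hw =>
    (hd2 w hw).continuousAt.norm.continuousWithinAt
  have hv : v ∈ Metric.closedBall v (ρ / 40) := Metric.mem_closedBall_self (by (clear * - hρ; positivity))
  obtain ⟨w0, hw0, hmax⟩ := (isCompact_closedBall v (ρ / 40)).exists_isMaxOn ⟨v, hv⟩ hc
  have hb : ∀ w ∈ Metric.closedBall v (ρ / 40),
      ‖deriv (deriv F) w‖ ≤ 4 / (39 / 40 * ρ) * ‖deriv F w0‖ := by
    intro w hw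
    have h3 := Fn.bieb hF (v := w) (ρ := 39 / 40 * ρ) (by positivity) (basic_disc h1 hw).1
      (by linarith only [hρ, h2])
    have h4 : ‖deriv F w‖ ≤ ‖deriv F w0‖ := hmax hw
    exact h3.trans (mul_le_mul_of_nonneg_left h4 (by positivity))
  have hm : ∀ w ∈ Metric.closedBall v (ρ / 40),
      ‖deriv F w - deriv F v‖ ≤ 4 / 39 * ‖deriv F w0‖ := by
    intro w hw
    have h3 := Convex.norm_image_sub_le_of_norm_hasDerivWithin_le
      (s := Metric.closedBall v (ρ / 40)) (fun w hw => (hd2 w hw).hasDerivWithinAt) hb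
      (convex_closedBall v (ρ / 40)) hv hw
    have h4 : ‖w - v‖ ≤ ρ / 40 := by rwa [Metric.mem_closedBall, dist_eq_norm] at hw
    calc ‖deriv F w - deriv F v‖ ≤ 4 / (39 / 40 * ρ) * ‖deriv F w0‖ * ‖w - v‖ := h3
      _ ≤ 4 / (39 / 40 * ρ) * ‖deriv F w0‖ * (ρ / 40) :=
          mul_le_mul_of_nonneg_left h4 (by positivity)
      _ = 4 / 39 * ‖deriv F w0‖ := by
          field_simp
  have h5 := hm w0 hw0
  have h6 : ‖deriv F w0‖ ≤ ‖deriv F w0 - deriv F v‖ + ‖deriv F v‖ := by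
    have h7 : deriv F w0 = (deriv F w0 - deriv F v) + deriv F v := by ring
    calc ‖deriv F w0‖ = ‖(deriv F w0 - deriv F v) + deriv F v‖ := by rw [← h7]
      _ ≤ _ := norm_add_le _ _
  intro w hw
  have h8 := hm w hw
  (clear * - h5 h6 h8; linarith [norm_nonneg (deriv F v)])

/-- the divided difference near the diagonal -/
theorem basic_dd {F : ℂ → ℂ} {A : ℝ} (hF : Fn F A) {v u : ℂ} {ρ : ℝ}
    (hρ : 0 < ρ) (h1 : ρ ≤ v.re) (h2 : ρ ≤ π) (h : ‖u - v‖ ≤ ρ / 40) :
    ‖F v - F u - deriv F v * (v - u)‖ ≤ 1 / 5 * (‖deriv F v‖ * ‖v - u‖) := by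
  have hu : u ∈ Metric.closedBall v (ρ / 40) := by rwa [Metric.mem_closedBall, dist_eq_norm]
  have hv : v ∈ Metric.closedBall v (ρ / 40) := Metric.mem_closedBall_self (by (clear * - hρ; positivity))
  have hd : ∀ w ∈ Metric.closedBall v (ρ / 40),
      HasDerivAt (fun w => F w - deriv F v * w) (deriv F w - deriv F v) w := by
    intro w hw
    have h3 := basic_hasDeriv hF (v := w) (lt_of_lt_of_le (by positivity) (basic_disc h1 hw).1)
    have h4 := (hasDerivAt_id w).const_mul (deriv F v)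
    rw [mul_one] at h4
    exact h3.sub h4
  have h3 := Convex.norm_image_sub_le_of_norm_hasDerivWithin_le
    (s := Metric.closedBall v (ρ / 40)) (fun w hw => (hd w hw).hasDerivWithinAt)
    (basic_d1 hF hρ h1 h2) (convex_closedBall v (ρ / 40)) hu hv
  have h4 : F v - F u - deriv F v * (v - u) = (F v - deriv F v * v) - (F u - deriv F v * u) := by
    ring
  rw [h4, ← mul_assoc]
  exact h3

/-- near the diagonal -/
theorem near_diag {F : ℂ → ℂ} {A : ℝ} (hF : Fn F A) {Λ : ℂ → ℂ → ℂ} (hΛ : Br F Λ) {v u : ℂ} {ρ : ℝ}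
    (hρ : 0 < ρ) (h1 : ρ ≤ v.re) (h2 : ρ ≤ π) (h : ‖u - v‖ ≤ ρ / 40) : ‖Λ v u - Λ v v‖ ≤ 1 := by
  have hv : 0 < v.re := lt_of_lt_of_le hρ h1
  have hdne := Pool.Agent.Helper90.G2.Fn.dne hF hv
  have hn : ∀ t ∈ Icc (0 : ℝ) 1, ‖v + (t : ℂ) * (u - v) - v‖ ≤ ρ / 40 := by
    intro t ht
    rw [add_sub_cancel_left, norm_mul, Complex.norm_real, Real.norm_of_nonneg ht.1]
    calc t * ‖u - v‖ ≤ 1 * (ρ / 40) := mul_le_mul ht.2 h (norm_nonneg _) zero_le_one
      _ = ρ / 40 := one_mul _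
  have hE : ∀ t ∈ Icc (0 : ℝ) 1, (v, v + (t : ℂ) * (u - v)) ∈ EE := by
    intro t ht
    have h3 : v + (t : ℂ) * (u - v) ∈ Metric.closedBall v (ρ / 40) := by
      rw [Metric.mem_closedBall, dist_eq_norm]
      exact hn t ht
    have h4 := basic_disc h1 h3
    refine basic_mem hv (lt_of_lt_of_le (by positivity) h4.1) ?_
    have h5 := h4.2
    rw [abs_sub_comm] at h5
    have h6 := Real.pi_pos
    linarith only [h2, h5, h6]
  obtain ⟨D, hD⟩ : ∃ D : ℝ → ℂ, D = fun t : ℝ => Λ v (v + (t : ℂ) * (u - v)) - Λ v v :=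
    ⟨_, rfl⟩
  have hc : ContinuousOn D (Icc 0 1) := by
    intro t ht
    rw [hD]
    have h3 : ContinuousAt (fun t : ℝ => v + (t : ℂ) * (u - v)) t := by fun_prop
    have h4 : ContinuousAt (fun u => Λ v u) (v + (t : ℂ) * (u - v)) :=
      basic_cont_u hΛ (hE t ht)
    have h5 : ContinuousAt (fun t : ℝ => Λ v (v + (t : ℂ) * (u - v))) t :=
      ContinuousAt.comp (f := fun t : ℝ => v + (t : ℂ) * (u - v)) (x := t) h4 h3
    exact (h5.sub continuousAt_const).continuousWithinAt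
  have h0 : D 0 = 0 := by
    rw [hD]
    simp
  have hexp : ∀ t ∈ Icc (0 : ℝ) 1, ‖Complex.exp (D t) - 1‖ < 1 / 4 := by
    intro t ht
    by_cases hz : v + (t : ℂ) * (u - v) = v
    · have h3 : D t = 0 := by
        rw [hD]
        simp only [hz, sub_self]
      rw [h3]
      simp
    · have h3 := hΛ.exp (v, v + (t : ℂ) * (u - v)) (hE t ht)
      have h4 := basic_dd hF hρ h1 h2 (hn t ht)
      simp only at h3
      have h5 : v - (v + (t : ℂ) * (u - v)) ≠ 0 := fun h6 => hz (sub_eq_zero.1 h6).symm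
      have h6 : Complex.exp (D t) * deriv F v = Complex.exp (Λ v (v + (t : ℂ) * (u - v))) := by
        rw [hD]
        simp only
        rw [Complex.exp_sub, hΛ.diag v hv, div_mul_cancel₀ _ hdne]
      have h7 : F v - F (v + (t : ℂ) * (u - v)) - deriv F v * (v - (v + (t : ℂ) * (u - v))) =
          (Complex.exp (D t) - 1) * (deriv F v * (v - (v + (t : ℂ) * (u - v)))) := by
        rw [← h3, ← h6]
        ring
      rw [h7, norm_mul, norm_mul] at h4
      have h8 : 0 < ‖deriv F v‖ * ‖v - (v + (t : ℂ) * (u - v))‖ :=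
        mul_pos (norm_pos_iff.2 hdne) (norm_pos_iff.2 h5)
      have h9 := le_of_mul_le_mul_right h4 h8
      (clear * - h9; linarith only [h9])
  have h3 := basic_path hc h0 hexp
  have h4 : D 1 = Λ v u - Λ v v := by
    rw [hD]
    simp
  rw [h4] at h3
  (clear * - h3; linarith only [h3])

end Pool.Agent.Helper26.G4
end

/- Helper24.K6w.H26.G4.Curve -/
section
/-!
# G4-CURVE: the curve `a (s) = Lb Λ (u + e^(-s)) u`

`log (cv u s - u) = -s` (a positive real number). Derivative: `Lb_deriv_v` and the chain rule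
(`cv u` has the derivative `-e^(-s)`). Speed: `Fn.koebe4` with `ρ = e^(-s)`. `aa_inj`: `Lb_exp` and
`Fn.ne` (all points have the same imaginary part).
-/

set_option autoImplicit false

namespace Pool.Agent.Helper26.G4

open MeasureTheory Set
open scoped Real
open Pool.Agent.Helper90.G2 (Bx Wn Fn ar ch Cen chi)

theorem Curve_sub (u : ℂ) (s : ℝ) : cv u s - u = (Real.exp (-s) : ℂ) := by
  unfold cv
  ring

theorem Curve_re (u : ℂ) (s : ℝ) : (cv u s).re = u.re + Real.exp (-s) := by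
  unfold cv
  rw [Complex.add_re, Complex.ofReal_re]

theorem Curve_im (u : ℂ) (s : ℝ) : (cv u s).im = u.im := by
  unfold cv
  rw [Complex.add_im, Complex.ofReal_im, add_zero]

theorem Curve_re_pos {u : ℂ} (hu : 0 < u.re) (s : ℝ) : 0 < (cv u s).re := by
  rw [Curve_re]
  have := Real.exp_pos (-s)
  (clear * - hu this; linarith only [hu, this])

theorem Curve_re_lt (u : ℂ) (s : ℝ) : u.re < (cv u s).re := by
  rw [Curve_re]
  have := Real.exp_pos (-s)
  (clear * - this; linarith only [this])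

theorem Curve_im_lt (u : ℂ) (s : ℝ) : |(cv u s).im - u.im| < 2 * π := by
  rw [Curve_im, sub_self, abs_zero]
  have := Real.pi_pos
  (clear * - this; linarith only [this])

theorem aa_eq (Λ : ℂ → ℂ → ℂ) (u : ℂ) (s : ℝ) : aa Λ u s = Λ (cv u s) u - (s : ℂ) := by
  unfold aa Lb
  rw [Curve_sub, ← Complex.ofReal_log (Real.exp_pos _).le, Real.log_exp, Complex.ofReal_neg,
    sub_eq_add_neg]

theorem aa_exp {F : ℂ → ℂ} {Λ : ℂ → ℂ → ℂ} (hΛ : Br F Λ) {u : ℂ} (hu : 0 < u.re) (s : ℝ) :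
    Complex.exp (aa Λ u s) = F (cv u s) - F u :=
  Lb_exp hΛ hu (Curve_re_lt u s) (Curve_im_lt u s)

theorem Curve_ne {F : ℂ → ℂ} {A : ℝ} (hF : Fn F A) {u : ℂ} (hu : 0 < u.re) (s : ℝ) :
    F (cv u s) - F u ≠ 0 := by
  refine sub_ne_zero.2 (Fn.ne hF (Curve_re_pos hu s) hu (Curve_im_lt u s) fun h => ?_)
  have h1 := Curve_re_lt u s
  rw [h] at h1
  exact lt_irrefl _ h1

theorem aa_inj {F : ℂ → ℂ} {A : ℝ} (hF : Fn F A) {Λ : ℂ → ℂ → ℂ} (hΛ : Br F Λ) {u : ℂ}
    (hu : 0 < u.re) {s s' : ℝ} (h : s ≠ s') : Complex.exp (aa Λ u s) ≠ Complex.exp (aa Λ u s') := by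
  rw [aa_exp hΛ hu, aa_exp hΛ hu]
  intro h1
  have h2 : F (cv u s) = F (cv u s') := by linear_combination h1
  refine Fn.ne hF (Curve_re_pos hu s) (Curve_re_pos hu s') ?_ ?_ h2
  · rw [Curve_im, Curve_im, sub_self, abs_zero]
    have := Real.pi_pos
    linarith
  · intro h3
    apply h
    have h4 : (cv u s).re = (cv u s').re := by rw [h3]
    rw [Curve_re, Curve_re] at h4
    have h5 : Real.exp (-s) = Real.exp (-s') := by (clear * - h4; linarith)
    have h6 := Real.exp_injective h5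
    (clear * - h6; linarith)

theorem Curve_cv_deriv (u : ℂ) (s : ℝ) :
    HasDerivAt (cv u) (-(Real.exp (-s) : ℂ)) s := by
  have h1 : HasDerivAt (fun s : ℝ => Real.exp (-s)) (Real.exp (-s) * -1) s :=
    (hasDerivAt_neg s).exp
  have h2 : HasDerivAt (fun s : ℝ => ((Real.exp (-s) : ℝ) : ℂ)) ((Real.exp (-s) * -1 : ℝ) : ℂ) s :=
    h1.ofReal_comp
  have h3 := h2.const_add u
  have h4 : ((Real.exp (-s) * -1 : ℝ) : ℂ) = -(Real.exp (-s) : ℂ) := by
    rw [mul_neg, mul_one, Complex.ofReal_neg]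
  rw [h4] at h3
  exact h3

theorem aa_deriv {F : ℂ → ℂ} {A : ℝ} (hF : Fn F A) {Λ : ℂ → ℂ → ℂ} (hΛ : Br F Λ) {u : ℂ}
    (hu : 0 < u.re) (s : ℝ) :
    HasDerivAt (aa Λ u) (-((Real.exp (-s) : ℂ) * deriv F (cv u s) / (F (cv u s) - F u))) s := by
  have h1 := Lb_deriv_v hF hΛ hu (Curve_re_lt u s) (Curve_im_lt u s)
  have h2 : HasDerivAt ((fun v => Lb Λ v u) ∘ cv u)
      (deriv F (cv u s) / (F (cv u s) - F u) * -(Real.exp (-s) : ℂ)) s :=
    HasDerivAt.comp s h1 (Curve_cv_deriv u s)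
  have h3 : deriv F (cv u s) / (F (cv u s) - F u) * -(Real.exp (-s) : ℂ) =
      -((Real.exp (-s) : ℂ) * deriv F (cv u s) / (F (cv u s) - F u)) := by ring
  rw [h3] at h2
  exact h2

theorem Curve_open : IsOpen {u : ℂ | 0 < u.re} :=
  isOpen_lt continuous_const Complex.continuous_re

theorem Curve_cv_cont (u : ℂ) : Continuous (cv u) :=
  continuous_iff_continuousAt.2 fun s => (Curve_cv_deriv u s).continuousAt

theorem aa_cont {F : ℂ → ℂ} {A : ℝ} (hF : Fn F A) {Λ : ℂ → ℂ → ℂ} (hΛ : Br F Λ) {u : ℂ}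
    (hu : 0 < u.re) : Continuous (aa Λ u) ∧ Continuous (deriv (aa Λ u)) := by
  refine ⟨continuous_iff_continuousAt.2 fun s => (aa_deriv hF hΛ hu s).continuousAt, ?_⟩
  have h1 : deriv (aa Λ u) =
      fun s => -((Real.exp (-s) : ℂ) * deriv F (cv u s) / (F (cv u s) - F u)) := by
    funext s
    exact (aa_deriv hF hΛ hu s).deriv
  rw [h1]
  have hmaps : ∀ s, cv u s ∈ {u : ℂ | 0 < u.re} := fun s => Curve_re_pos hu s
  have hFc : Continuous fun s => F (cv u s) :=
    hF.diff.continuousOn.comp_continuous (Curve_cv_cont u) hmaps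
  have hdc : Continuous fun s => deriv F (cv u s) :=
    ((hF.diff.deriv Curve_open).continuousOn).comp_continuous (Curve_cv_cont u) hmaps
  have hec : Continuous fun s : ℝ => ((Real.exp (-s) : ℝ) : ℂ) :=
    Complex.continuous_ofReal.comp (Real.continuous_exp.comp continuous_neg)
  exact ((hec.mul hdc).div (hFc.sub continuous_const) fun s => Curve_ne hF hu s).neg

theorem ra_eq {F : ℂ → ℂ} {A : ℝ} (hF : Fn F A) {Λ : ℂ → ℂ → ℂ} (hΛ : Br F Λ) {u : ℂ}
    (hu : 0 < u.re) (s : ℝ) : ‖deriv (aa Λ u) s‖ = ra F u s ∧ 0 < ra F u s := by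
  constructor
  · rw [(aa_deriv hF hΛ hu s).deriv, norm_neg, norm_div, norm_mul, Complex.norm_real,
      Real.norm_of_nonneg (Real.exp_pos _).le]
    rfl
  · unfold ra
    have h1 : 0 < ‖deriv F (cv u s)‖ :=
      norm_pos_iff.2 (Pool.Agent.Helper90.G2.Fn.dne hF (Curve_re_pos hu s))
    have h2 : 0 < ‖F (cv u s) - F u‖ := norm_pos_iff.2 (Curve_ne hF hu s)
    have h3 := Real.exp_pos (-s)
    (clear * - h1 h2; positivity)

theorem ra_le {F : ℂ → ℂ} {A : ℝ} (hF : Fn F A) {u : ℂ} (hu : 0 < u.re) {s : ℝ}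
    (hs : Real.exp (-s) ≤ 2) : ra F u s ≤ 4 := by
  have h2 : 0 < ‖F (cv u s) - F u‖ := norm_pos_iff.2 (Curve_ne hF hu s)
  have hpi := Real.pi_gt_three
  have h3 := Fn.koebe4 hF (v := cv u s) (u := u) (Real.exp_pos (-s)) hu (by
    rw [Curve_re]
    linarith only [hu]) (by (clear * - hs hpi; linarith)) (by
    rw [Curve_sub, Complex.norm_real, Real.norm_of_nonneg (Real.exp_pos _).le]) (by
    rw [Curve_im, sub_self, abs_zero]
    linarith)
  unfold ra
  rw [div_le_iff₀ h2]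
  (clear * - h3; linarith)

/-- `a` moves with speed at most `4` -/
theorem aa_lip {F : ℂ → ℂ} {A : ℝ} (hF : Fn F A) {Λ : ℂ → ℂ → ℂ} (hΛ : Br F Λ) {u : ℂ}
    (hu : 0 < u.re) {s s' : ℝ} (hs : Real.exp (-s) ≤ 2) (h : s ≤ s') :
    ‖aa Λ u s' - aa Λ u s‖ ≤ 4 * (s' - s) := by
  have h1 := norm_image_sub_le_of_norm_deriv_le_segment' (f := aa Λ u)
    (f' := fun t => deriv (aa Λ u) t) (a := s) (b := s') (C := 4) (fun t _ => by
      have h2 := (aa_deriv hF hΛ hu t)
      have h3 : HasDerivAt (aa Λ u) (deriv (aa Λ u) t) t := by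
        rw [h2.deriv]
        exact h2
      exact h3.hasDerivWithinAt) (fun t ht => by
      show ‖deriv (aa Λ u) t‖ ≤ 4
      rw [(ra_eq hF hΛ hu t).1]
      apply ra_le hF hu
      exact (Real.exp_le_exp.2 (neg_le_neg ht.1)).trans hs)
  exact h1 s' (Set.right_mem_Icc.2 h)

end Pool.Agent.Helper26.G4
end

/- Helper24.K6w.H26.G4.Near -/
section
/-!
# G4-NEAR: the beginning of the curve

`B v = Lb Λ v u` is univalent on the disc of radius `r = e^(-t) ≤ 2` around `v_t = cv u t` (inside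
`re u < re v`; `exp B = F - F u`, `Fn.ne`), with `B' v = F' v / (F v - F u)`. Bieberbach
(`Pool.Agent.Helper90.G2.kb_two` for `B`) at the points of the disc of radius `r / 2`:
`|B''| ≤ (8 / r) |B'|`, so `|B' v / B' v_t - 1| ≤ e^(8 / 1000) - 1` for `|v - v_t| ≤ r / 1000`. So for
`t ≤ s ≤ t + 1 / 1000`: `a' s / a' t = e^(t - s) B' (v_s) / B' (v_t)` lies in the disc of radius `1 / 4` around
`1`, and so does the mean `exp (L t s - L t t)`; `s ↦ L t s - L t t` is continuous, `0` at `s = t`: its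
imaginary part stays in `(-π/2, π/2)`.
-/

set_option autoImplicit false

namespace Pool.Agent.Helper26.G4

open MeasureTheory Set
open scoped Real
open Pool.Agent.Helper90.G2 (Bx Wn Fn ar ch Cen chi)

/-- the disc around `cv u t` -/
theorem near_ball {u : ℂ} {t : ℝ} (ht : Real.exp (-t) ≤ 2) {v : ℂ}
    (hv : v ∈ Metric.ball (cv u t) (Real.exp (-t))) : u.re < v.re ∧ |v.im - u.im| < 2 := by
  rw [Metric.mem_ball, dist_eq_norm] at hv
  have h1 := (Complex.abs_re_le_norm (v - cv u t)).trans_lt hv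
  have h2 := (Complex.abs_im_le_norm (v - cv u t)).trans_lt hv
  rw [cv, Complex.sub_re, Complex.add_re, Complex.ofReal_re] at h1
  rw [cv, Complex.sub_im, Complex.add_im, Complex.ofReal_im, add_zero] at h2
  exact ⟨by (clear * - h1; linarith [(abs_lt.1 h1).1]), h2.trans_le ht⟩

theorem near_cv {u : ℂ} {t s : ℝ} (hts : t ≤ s) :
    ‖cv u s - cv u t‖ = Real.exp (-t) - Real.exp (-s) := by
  have h1 : cv u s - cv u t = ((Real.exp (-s) - Real.exp (-t) : ℝ) : ℂ) := by
    rw [cv, cv]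
    push_cast
    ring
  have h2 : Real.exp (-s) ≤ Real.exp (-t) := Real.exp_le_exp.2 (by (clear * - hts; linarith))
  rw [h1, Complex.norm_real, Real.norm_eq_abs, abs_sub_comm, abs_of_nonneg (by linarith)]

theorem near_mem {u : ℂ} {t s : ℝ} (hts : t ≤ s) : cv u s ∈ Metric.ball (cv u t) (Real.exp (-t)) := by
  rw [Metric.mem_ball, dist_eq_norm, near_cv hts]
  (clear * -; linarith only [Real.exp_pos (-s)])

/-- the derivative of the curve, up to the sign -/
noncomputable def nearH (Λ : ℂ → ℂ → ℂ) (u : ℂ) (s : ℝ) : ℂ :=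
  (Real.exp (-s) : ℂ) * deriv (fun v => Lb Λ v u) (cv u s)

theorem near_cv_deriv (u : ℂ) (s : ℝ) : HasDerivAt (cv u) (-(Real.exp (-s) : ℂ)) s := by
  have h1 : HasDerivAt (fun s : ℝ => Real.exp (-s)) (-Real.exp (-s)) s := by
    simpa using (hasDerivAt_neg s).exp
  have h2 := h1.ofReal_comp.const_add u
  rw [Complex.ofReal_neg] at h2
  exact h2

section

variable {F : ℂ → ℂ} {A : ℝ} {Λ : ℂ → ℂ → ℂ} {u : ℂ} {t : ℝ}

theorem near_B (hF : Fn F A) (hΛ : Br F Λ) (hu : 0 < u.re) (ht : Real.exp (-t) ≤ 2) {v : ℂ}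
    (hv : v ∈ Metric.ball (cv u t) (Real.exp (-t))) :
    HasDerivAt (fun v => Lb Λ v u) (deriv F v / (F v - F u)) v :=
  Lb_deriv_v hF hΛ hu (near_ball ht hv).1 ((near_ball ht hv).2.trans (by linarith only [Real.pi_gt_three]))

theorem near_ne (hF : Fn F A) (hΛ : Br F Λ) (hu : 0 < u.re) (ht : Real.exp (-t) ≤ 2) {v : ℂ}
    (hv : v ∈ Metric.ball (cv u t) (Real.exp (-t))) : deriv (fun v => Lb Λ v u) v ≠ 0 := by
  rw [(near_B hF hΛ hu ht hv).deriv]
  have h1 := near_ball ht hv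
  refine div_ne_zero (Pool.Agent.Helper90.G2.Fn.dne hF (hu.trans h1.1)) (sub_ne_zero.2 ?_)
  refine Fn.ne hF (hu.trans h1.1) hu (h1.2.trans (by (clear * -; linarith only [Real.pi_gt_three]))) ?_
  intro h2
  rw [h2] at h1
  exact lt_irrefl _ h1.1

theorem near_diff (hF : Fn F A) (hΛ : Br F Λ) (hu : 0 < u.re) (ht : Real.exp (-t) ≤ 2) :
    DifferentiableOn ℂ (fun v => Lb Λ v u) (Metric.ball (cv u t) (Real.exp (-t))) :=
  fun _ hv => (near_B hF hΛ hu ht hv).differentiableAt.differentiableWithinAt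

theorem near_inj (hF : Fn F A) (hΛ : Br F Λ) (hu : 0 < u.re) (ht : Real.exp (-t) ≤ 2) :
    InjOn (fun v => Lb Λ v u) (Metric.ball (cv u t) (Real.exp (-t))) := by
  intro v hv w hw h
  have h1 := near_ball ht hv
  have h2 := near_ball ht hw
  have hpi := Real.pi_gt_three
  have h3 : Complex.exp (Lb Λ v u) = Complex.exp (Lb Λ w u) := by
    simp only at h
    rw [h]
  rw [Lb_exp hΛ hu h1.1 (by linarith only [h1, hpi]), Lb_exp hΛ hu h2.1 (by (clear * - h2 hpi; linarith))] at h3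
  have h4 : F v = F w := by linear_combination h3
  exact hF.inj u.im ⟨hu.trans h1.1, by (clear * - h1 hpi; linarith)⟩ ⟨hu.trans h2.1, by linarith⟩ h4

/-- Bieberbach for `B` -/
theorem near_two (hF : Fn F A) (hΛ : Br F Λ) (hu : 0 < u.re) (ht : Real.exp (-t) ≤ 2) {s : ℝ}
    (hts : t ≤ s) (hs : s ≤ t + 1 / 1000) : ‖deriv (deriv fun v => Lb Λ v u) (cv u s)‖ ≤
    8 / Real.exp (-t) * ‖deriv (fun v => Lb Λ v u) (cv u s)‖ := by
  have hr := Real.exp_pos (-t)
  have h1 : Metric.ball (cv u s) (Real.exp (-t) / 2) ⊆ Metric.ball (cv u t) (Real.exp (-t)) := by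
    refine Metric.ball_subset_ball' ?_
    rw [dist_eq_norm, near_cv hts]
    have h2 : Real.exp (-t) * (1 / 2) ≤ Real.exp (-s) := by
      have h3 : Real.exp (-s) = Real.exp (-t) * Real.exp (t - s) := by
        rw [← Real.exp_add]
        ring_nf
      rw [h3]
      refine mul_le_mul_of_nonneg_left ?_ hr.le
      linarith only [Real.add_one_le_exp (t - s), hs]
    (clear * - h2; linarith only [h2])
  have h4 := Pool.Agent.Helper90.G2.kb_two (v := cv u s) (half_pos hr)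
    ((near_diff hF hΛ hu ht).mono h1) ((near_inj hF hΛ hu ht).mono h1)
    (near_ne hF hΛ hu ht (near_mem hts))
  refine h4.trans_eq ?_
  field_simp
  ring

theorem nearH_ne (hF : Fn F A) (hΛ : Br F Λ) (hu : 0 < u.re) (ht : Real.exp (-t) ≤ 2) :
    nearH Λ u t ≠ 0 :=
  mul_ne_zero (by exact_mod_cast (Real.exp_pos (-t)).ne') (near_ne hF hΛ hu ht (near_mem le_rfl))

theorem nearH_aa (hF : Fn F A) (hΛ : Br F Λ) (hu : 0 < u.re) (ht : Real.exp (-t) ≤ 2) {s : ℝ}
    (hts : t ≤ s) : HasDerivAt (aa Λ u) (-nearH Λ u s) s := by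
  have h1 := aa_deriv hF hΛ hu s
  rw [nearH, (near_B hF hΛ hu ht (near_mem hts)).deriv, ← mul_div_assoc]
  exact h1

theorem nearH_deriv (hF : Fn F A) (hΛ : Br F Λ) (hu : 0 < u.re) (ht : Real.exp (-t) ≤ 2) {s : ℝ}
    (hts : t ≤ s) (hs : s ≤ t + 1 / 1000) :
    ∃ D : ℂ, HasDerivAt (nearH Λ u) D s ∧ ‖D‖ ≤ 9 * ‖nearH Λ u s‖ := by
  have h1 : HasDerivAt (deriv fun v => Lb Λ v u) (deriv (deriv fun v => Lb Λ v u) (cv u s))
      (cv u s) :=
    (((near_diff hF hΛ hu ht).deriv Metric.isOpen_ball).differentiableAt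
      (Metric.isOpen_ball.mem_nhds (near_mem hts))).hasDerivAt
  have h2 := HasDerivAt.comp (h := cv u) s h1 (near_cv_deriv u s)
  have h3 : HasDerivAt (fun s : ℝ => (Real.exp (-s) : ℂ)) (-(Real.exp (-s) : ℂ)) s := by
    have h4 : HasDerivAt (fun s : ℝ => Real.exp (-s)) (-Real.exp (-s)) s := by
      simpa using (hasDerivAt_neg s).exp
    have h5 := h4.ofReal_comp
    rw [Complex.ofReal_neg] at h5
    exact h5
  have h6 := h3.mul h2
  refine ⟨_, h6, ?_⟩
  have hes := Real.exp_pos (-s)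
  have hr := Real.exp_pos (-t)
  have hle : Real.exp (-s) ≤ Real.exp (-t) := Real.exp_le_exp.2 (by (clear * - hts; linarith))
  have hb := near_two hF hΛ hu ht hts hs
  set b := ‖deriv (fun v => Lb Λ v u) (cv u s)‖ with hbdef
  have hb0 : 0 ≤ b := norm_nonneg _
  have hn : ‖(Real.exp (-s) : ℂ)‖ = Real.exp (-s) := by
    rw [Complex.norm_real, Real.norm_of_nonneg hes.le]
  have hH : ‖nearH Λ u s‖ = Real.exp (-s) * b := by
    rw [nearH, norm_mul, hn]
  rw [hH]
  refine (norm_add_le _ _).trans ?_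
  rw [norm_mul, norm_mul, norm_neg, hn, norm_mul, norm_neg, hn]
  have h7 : Real.exp (-s) * (‖deriv (deriv fun v => Lb Λ v u) (cv u s)‖ * Real.exp (-s)) ≤
      Real.exp (-s) * (8 / Real.exp (-t) * b * Real.exp (-t)) :=
    mul_le_mul_of_nonneg_left (mul_le_mul hb hle hes.le (by (clear * -; positivity))) hes.le
  have h8 : Real.exp (-s) * (8 / Real.exp (-t) * b * Real.exp (-t)) = 8 * (Real.exp (-s) * b) := by
    (clear * -; field_simp)
  have h9 : ‖((deriv fun v => Lb Λ v u) ∘ cv u) s‖ = b := rfl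
  rw [h9]
  linarith only [h7, h8]

/-- `h` is almost constant -/
theorem nearH_near (hF : Fn F A) (hΛ : Br F Λ) (hu : 0 < u.re) (ht : Real.exp (-t) ≤ 2) {s : ℝ}
    (hs : s ∈ Icc t (t + 1 / 1000)) : ‖nearH Λ u s - nearH Λ u t‖ ≤ 1 / 4 * ‖nearH Λ u t‖ := by
  have hc : ContinuousOn (nearH Λ u) (Icc t (t + 1 / 1000)) := fun x hx => by
    obtain ⟨D, h1, -⟩ := nearH_deriv hF hΛ hu ht hx.1 hx.2
    exact h1.continuousAt.continuousWithinAt
  obtain ⟨m, hm, hmax⟩ := isCompact_Icc.exists_isMaxOn ⟨s, hs⟩ hc.norm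
  have hmv : ∀ x ∈ Icc t (t + 1 / 1000), ‖nearH Λ u x - nearH Λ u t‖ ≤
      9 * ‖nearH Λ u m‖ * (x - t) := by
    have h2 : ∀ x ∈ Icc t (t + 1 / 1000), DifferentiableWithinAt ℝ (nearH Λ u)
        (Icc t (t + 1 / 1000)) x := fun x hx => by
      obtain ⟨D, h1, -⟩ := nearH_deriv hF hΛ hu ht hx.1 hx.2
      exact h1.differentiableAt.differentiableWithinAt
    have h3 : ∀ x ∈ Icc t (t + 1 / 1000), ‖deriv (nearH Λ u) x‖ ≤ 9 * ‖nearH Λ u m‖ := fun x hx => by
      obtain ⟨D, h1, h4⟩ := nearH_deriv hF hΛ hu ht hx.1 hx.2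
      rw [h1.deriv]
      exact h4.trans (mul_le_mul_of_nonneg_left (hmax hx) (by norm_num))
    have h4 : ∀ x ∈ Icc t (t + 1 / 1000), HasDerivWithinAt (nearH Λ u) (deriv (nearH Λ u) x)
        (Icc t (t + 1 / 1000)) x := fun x hx => by
      obtain ⟨D, h1, -⟩ := nearH_deriv hF hΛ hu ht hx.1 hx.2
      rw [h1.deriv]
      exact h1.hasDerivWithinAt
    intro x hx
    have h5 := (convex_Icc t (t + 1 / 1000)).norm_image_sub_le_of_norm_hasDerivWithin_le h4 h3
      (left_mem_Icc.2 (by linarith)) hx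
    rwa [Real.norm_of_nonneg (by (clear * - hx; linarith [hx.1]))] at h5
  have h6 := hmv m hm
  have h7 := hmv s hs
  have h8 : ‖nearH Λ u m‖ ≤ ‖nearH Λ u m - nearH Λ u t‖ + ‖nearH Λ u t‖ := by
    have h9 := norm_add_le (nearH Λ u m - nearH Λ u t) (nearH Λ u t)
    rwa [sub_add_cancel] at h9
  have h10 : 9 * ‖nearH Λ u m‖ * (m - t) ≤ 9 * ‖nearH Λ u m‖ * (1 / 1000) :=
    mul_le_mul_of_nonneg_left (by (clear * - hm; linarith [hm.2])) (by (clear * -; positivity))
  have h11 : 9 * ‖nearH Λ u m‖ * (s - t) ≤ 9 * ‖nearH Λ u m‖ * (1 / 1000) :=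
    mul_le_mul_of_nonneg_left (by (clear * - hs; linarith only [hs.2])) (by positivity)
  have h12 := norm_nonneg (nearH Λ u t)
  (clear * - h6 h7 h8 h10 h11 h12; linarith)

/-- the chords -/
theorem near_chord (hF : Fn F A) (hΛ : Br F Λ) (hu : 0 < u.re) (ht : Real.exp (-t) ≤ 2) {s : ℝ}
    (hs : s ∈ Icc t (t + 1 / 1000)) :
    ‖aa Λ u t - aa Λ u s - ((s - t : ℝ) : ℂ) * nearH Λ u t‖ ≤ 1 / 4 * ‖nearH Λ u t‖ * (s - t) := by
  have h1 : ∀ x ∈ Icc t (t + 1 / 1000), HasDerivWithinAt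
      (fun x : ℝ => aa Λ u t - aa Λ u x - ((x - t : ℝ) : ℂ) * nearH Λ u t)
      (nearH Λ u x - nearH Λ u t) (Icc t (t + 1 / 1000)) x := fun x hx => by
    have h2 := (nearH_aa hF hΛ hu ht hx.1).const_sub (aa Λ u t)
    have h3 : HasDerivAt (fun x : ℝ => ((x - t : ℝ) : ℂ)) 1 x := by
      have h4 := ((hasDerivAt_id x).sub_const t).ofReal_comp
      simpa using h4
    have h5 := (h2.sub (h3.mul_const (nearH Λ u t))).hasDerivWithinAt (s := Icc t (t + 1 / 1000))
    rw [neg_neg, one_mul] at h5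
    exact h5
  have h6 := (convex_Icc t (t + 1 / 1000)).norm_image_sub_le_of_norm_hasDerivWithin_le h1
    (fun x hx => nearH_near hF hΛ hu ht hx) (left_mem_Icc.2 (by (clear * -; linarith))) hs
  rw [Real.norm_of_nonneg (by linarith only [hs.1])] at h6
  simpa using h6

theorem near_diagL (hF : Fn F A) (hΛ : Br F Λ) (hu : 0 < u.re) (ht : Real.exp (-t) ≤ 2)
    {L : ℝ → ℝ → ℂ} (hL : Ch F Λ u L) : Complex.exp (L t t) = nearH Λ u t := by
  have hr : (Real.exp (-t) : ℂ) ≠ 0 := by exact_mod_cast (Real.exp_pos (-t)).ne'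
  have hre : 0 < (cv u t).re := hu.trans (near_ball ht (near_mem le_rfl)).1
  have h1 := hΛ.diag (cv u t) hre
  have hE : (cv u t, u) ∈ EE := by
    have h2 := (near_ball ht (near_mem le_rfl : cv u t ∈ _)).2
    exact ⟨hre, hu, by simpa using h2.trans (by linarith [Real.pi_gt_three])⟩
  have h2 := hΛ.exp (cv u t, u) hE
  have h3 : cv u t - u = (Real.exp (-t) : ℂ) := by
    rw [cv]
    ring
  simp only [h3] at h2
  rw [hL.diag, Complex.exp_sub, h1, nearH, (near_B hF hΛ hu ht (near_mem le_rfl)).deriv, ← h2]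
  have h4 := Complex.exp_ne_zero (Λ (cv u t) u)
  field_simp

end

theorem near_im {F : ℂ → ℂ} {A : ℝ} (hF : Fn F A) {Λ : ℂ → ℂ → ℂ} (hΛ : Br F Λ) {u : ℂ}
    (hu : 0 < u.re) {L : ℝ → ℝ → ℂ} (hL : Ch F Λ u L) {t : ℝ} (ht : Real.exp (-t) ≤ 2) :
    |(L t (t + 1 / 1000)).im - (L t t).im| ≤ 2 := by
  have hne := nearH_ne hF hΛ hu ht
  have hpos : ∀ s ∈ Icc t (t + 1 / 1000), Real.cos ((L t s).im - (L t t).im) ≠ 0 := by
    intro s hs hcos
    rcases hs.1.eq_or_lt with h | h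
    · rw [← h, sub_self, Real.cos_zero] at hcos
      exact one_ne_zero hcos
    · have hst : 0 < s - t := by linarith
      have h1 := near_chord hF hΛ hu ht hs
      rw [← hL.exp t s, ← near_diagL hF hΛ hu ht hL] at h1
      have h2 : Complex.exp (L t s) * ((s - t : ℝ) : ℂ) - ((s - t : ℝ) : ℂ) * Complex.exp (L t t) =
          ((s - t : ℝ) : ℂ) * Complex.exp (L t t) * (Complex.exp (L t s - L t t) - 1) := by
        rw [Complex.exp_sub]
        have h3 := Complex.exp_ne_zero (L t t)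
        field_simp
      rw [h2, norm_mul, norm_mul, Complex.norm_real, Real.norm_of_nonneg hst.le] at h1
      have h4 : 0 < ‖Complex.exp (L t t)‖ := norm_pos_iff.2 (Complex.exp_ne_zero _)
      have h5 : ‖Complex.exp (L t s - L t t) - 1‖ ≤ 1 / 4 := by
        refine le_of_mul_le_mul_left ?_ (mul_pos hst h4)
        linarith only [h1]
      have h6 := (Complex.abs_re_le_norm _).trans h5
      rw [Complex.sub_re, Complex.one_re, Complex.exp_re, Complex.sub_im, hcos, mul_zero] at h6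
      norm_num at h6
  by_contra hcon
  rw [not_le] at hcon
  have hcont : ContinuousOn (fun s => |(L t s).im - (L t t).im|) (Icc t (t + 1 / 1000)) := by
    have h1 : Continuous fun s => L t s := hL.cont.comp (Continuous.prodMk_right t)
    exact ((Complex.continuous_im.comp h1).sub continuous_const).abs.continuousOn
  have hiv := intermediate_value_Icc (by linarith only [] : t ≤ t + 1 / 1000) hcont
  have hmem : π / 2 ∈ Icc |(L t t).im - (L t t).im| |(L t (t + 1 / 1000)).im - (L t t).im| := by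
    rw [sub_self, abs_zero]
    exact ⟨by positivity, by linarith only [Real.pi_le_four, hcon]⟩
  obtain ⟨s, hs, h2⟩ := hiv hmem
  refine hpos s hs ?_
  rw [← Real.cos_abs]
  simp only at h2
  rw [h2, Real.cos_pi_div_two]

end Pool.Agent.Helper26.G4
end

/- Helper24.K6w.H26.G4.End -/
section
/-!
# G4-END: the end of the curve

Let `T0 = log (4400 / re u)`. For `s ≥ T0` the points `cv u s` lie in the disc of radius `re u / 4400`
around `u`, where `|F' w / F' u - 1| ≤ 1 / 20` (`Fn.bieb`: `|log F' w - log F' u| ≤ 8 |w - u| / re u`,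
or Cauchy's estimate), so `-a' = e^(-s) F' v / (F v - F u)` (`v - u = e^(-s)`) satisfies
`|-a' - 1| ≤ 1 / 4`. Hence `end_re` and, for `t, s ≥ T0`, `exp (L t s)` (a mean of `-a'`) lies in the disc
of radius `1 / 4` around `1`. As `s → ∞`, `L s s = Λ v v - Λ v u → Λ u u - Λ u u = 0` (continuity on
`EE`), so by connectedness `|im (L s s)| < π / 2` for all `s ≥ T0`, then `|im (L t s)| < π / 2` for
`t, s ≥ T0`. For `t < T0` and `s` large, `re (a t' - a s) > 0` for all `t' ∈ [t, T0]` (`re a s → -∞`, compactness);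
`t' ↦ im (L t' s)` is continuous, never `≡ π / 2 mod π`, so it stays in `(-π/2, π/2)`.
`u.re ≤ 1` is used for radii only.
-/

set_option autoImplicit false

namespace Pool.Agent.Helper26.G4

open MeasureTheory Set
open scoped Real
open Pool.Agent.Helper90.G2 (Bx Wn Fn ar ch Cen chi)

theorem end_open : IsOpen {u : ℂ | 0 < u.re} := isOpen_lt continuous_const Complex.continuous_re

/-- `F'` near `u` -/
theorem end_dist {F : ℂ → ℂ} {A : ℝ} (hF : Fn F A) {Λ : ℂ → ℂ → ℂ} (hΛ : Br F Λ) {u w : ℂ}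
    (hu : 0 < u.re) (hu1 : u.re ≤ 1) (hw : ‖w - u‖ ≤ u.re / 4400) :
    0 < w.re ∧ ‖deriv F w - deriv F u‖ ≤ 1 / 20 * ‖deriv F u‖ := by
  have hre : ∀ z ∈ Metric.closedBall u (u.re / 4400), u.re / 2 ≤ z.re := by
    intro z hz
    rw [Metric.mem_closedBall, dist_eq_norm] at hz
    have h1 := Complex.abs_re_le_norm (z - u)
    rw [Complex.sub_re] at h1
    have h2 := abs_le.mp (h1.trans hz)
    linarith only [h2]
  have hwm : w ∈ Metric.closedBall u (u.re / 4400) := by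
    rw [Metric.mem_closedBall, dist_eq_norm]; exact hw
  have hum : u ∈ Metric.closedBall u (u.re / 4400) := Metric.mem_closedBall_self (by positivity)
  have hw0 : 0 < w.re := by
    have := hre w hwm
    linarith only [hu, this]
  refine ⟨hw0, ?_⟩
  have h1 := lip_diag hF hΛ (v := u) (v' := w) (ρ := u.re / 2) (by positivity)
    (by linarith only [Real.pi_gt_three, hu1]) (fun z hz =>
      hre z ((convex_closedBall u (u.re / 4400)).segment_subset hum hwm hz))
  have h2 : ‖Λ w w - Λ u u‖ ≤ 1 / 550 := by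
    refine h1.trans ?_
    calc 4 / (u.re / 2) * ‖w - u‖ ≤ 4 / (u.re / 2) * (u.re / 4400) := by
          apply mul_le_mul_of_nonneg_left hw (by positivity)
      _ = 1 / 550 := by field_simp; norm_num
  have h3 : deriv F w - deriv F u = deriv F u * (Complex.exp (Λ w w - Λ u u) - 1) := by
    rw [Complex.exp_sub, hΛ.diag w hw0, hΛ.diag u hu]
    have : deriv F u ≠ 0 := by rw [← hΛ.diag u hu]; exact Complex.exp_ne_zero _
    field_simp
  rw [h3, norm_mul, mul_comm]
  apply mul_le_mul_of_nonneg_right _ (norm_nonneg _)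
  have h4 := Complex.norm_exp_sub_one_le (x := Λ w w - Λ u u) (by linarith only [h2])
  linarith only [h2, h4]

/-- increments of `F` near `u` -/
theorem end_incr {F : ℂ → ℂ} {A : ℝ} (hF : Fn F A) {Λ : ℂ → ℂ → ℂ} (hΛ : Br F Λ) {u v : ℂ}
    (hu : 0 < u.re) (hu1 : u.re ≤ 1) (hv : ‖v - u‖ ≤ u.re / 4400) :
    ‖F v - F u - deriv F u * (v - u)‖ ≤ 1 / 20 * ‖deriv F u‖ * ‖v - u‖ := by
  have hvm : v ∈ Metric.closedBall u (u.re / 4400) := by
    rw [Metric.mem_closedBall, dist_eq_norm]; exact hv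
  have hum : u ∈ Metric.closedBall u (u.re / 4400) := Metric.mem_closedBall_self (by (clear * - hu; positivity))
  have hd : ∀ z ∈ Metric.closedBall u (u.re / 4400),
      HasDerivWithinAt (fun z => F z - deriv F u * z) (deriv F z - deriv F u)
        (Metric.closedBall u (u.re / 4400)) z := by
    intro z hz
    have hz' : ‖z - u‖ ≤ u.re / 4400 := by
      rwa [Metric.mem_closedBall, dist_eq_norm] at hz
    have hz0 := (end_dist hF hΛ hu hu1 hz').1
    have h1 : HasDerivAt F (deriv F z) z :=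
      (hF.diff.differentiableAt (end_open.mem_nhds hz0)).hasDerivAt
    have h2 := h1.sub ((hasDerivAt_id z).const_mul (deriv F u))
    rw [mul_one] at h2
    exact h2.hasDerivWithinAt
  have hb : ∀ z ∈ Metric.closedBall u (u.re / 4400),
      ‖deriv F z - deriv F u‖ ≤ 1 / 20 * ‖deriv F u‖ := by
    intro z hz
    have hz' : ‖z - u‖ ≤ u.re / 4400 := by
      rwa [Metric.mem_closedBall, dist_eq_norm] at hz
    exact (end_dist hF hΛ hu hu1 hz').2
  have h := (convex_closedBall u (u.re / 4400)).norm_image_sub_le_of_norm_hasDerivWithin_le hd hb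
    hum hvm
  have e : F v - F u - deriv F u * (v - u) =
      (F v - deriv F u * v) - (F u - deriv F u * u) := by ring
  rw [e]
  exact h

theorem end_cv (u : ℂ) (s : ℝ) : cv u s - u = ((Real.exp (-s) : ℝ) : ℂ) := by
  unfold cv
  ring

theorem end_norm (u : ℂ) (s : ℝ) : ‖cv u s - u‖ = Real.exp (-s) := by
  rw [end_cv, Complex.norm_real, Real.norm_eq_abs, abs_of_pos (Real.exp_pos _)]

theorem end_small {u : ℂ} (hu : 0 < u.re) {s : ℝ} (hs : Real.log (4400 / u.re) ≤ s) :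
    ‖cv u s - u‖ ≤ u.re / 4400 := by
  rw [end_norm]
  calc Real.exp (-s) ≤ Real.exp (-Real.log (4400 / u.re)) := Real.exp_le_exp.mpr (by linarith only [hs])
    _ = u.re / 4400 := by
      rw [Real.exp_neg, Real.exp_log (by positivity), inv_div]

/-- the speed of the curve near its end -/
theorem end_speed {F : ℂ → ℂ} {A : ℝ} (hF : Fn F A) {Λ : ℂ → ℂ → ℂ} (hΛ : Br F Λ) {u : ℂ}
    (hu : 0 < u.re) (hu1 : u.re ≤ 1) {s : ℝ} (hs : Real.log (4400 / u.re) ≤ s) :
    ‖(Real.exp (-s) : ℂ) * deriv F (cv u s) / (F (cv u s) - F u) - 1‖ ≤ 1 / 4 := by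
  have hsm := end_small hu hs
  have h1 := (end_dist hF hΛ hu hu1 hsm).2
  have h2 := end_incr hF hΛ hu hu1 hsm
  rw [end_norm, end_cv] at h2
  have hD : 0 < ‖deriv F u‖ := by
    rw [norm_pos_iff, ← hΛ.diag u hu]
    exact Complex.exp_ne_zero _
  have hh : 0 < Real.exp (-s) := Real.exp_pos _
  set h : ℝ := Real.exp (-s) with hhdef
  set D : ℂ := deriv F u with hDdef
  set X : ℂ := F (cv u s) - F u with hX
  set Y : ℂ := deriv F (cv u s) with hY
  have hDh : ‖D * (h : ℂ)‖ = ‖D‖ * h := by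
    rw [norm_mul, Complex.norm_real, Real.norm_eq_abs, abs_of_pos hh]
  have h3 : 19 / 20 * (‖D‖ * h) ≤ ‖X‖ := by
    have h4 := norm_sub_norm_le (D * (h : ℂ)) (D * (h : ℂ) - X)
    rw [sub_sub_cancel, norm_sub_rev (D * (h : ℂ)) X, hDh] at h4
    linarith only [h2, h4]
  have hX0 : 0 < ‖X‖ := lt_of_lt_of_le (by positivity) h3
  have hXne : X ≠ 0 := norm_pos_iff.mp hX0
  have h5 : (h : ℂ) * Y / X - 1 = ((h : ℂ) * (Y - D) - (X - D * h)) / X := by
    field_simp
    ring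
  rw [h5, norm_div, div_le_iff₀ hX0]
  have h6 : ‖(h : ℂ) * (Y - D)‖ ≤ h * (1 / 20 * ‖D‖) := by
    rw [norm_mul, Complex.norm_real, Real.norm_eq_abs, abs_of_pos hh]
    exact mul_le_mul_of_nonneg_left h1 hh.le
  have h7 := norm_sub_le ((h : ℂ) * (Y - D)) (X - D * h)
  have h8 : 0 < ‖D‖ * h := by positivity
  linarith only [h2, h3, hX0, h6, h7]

theorem end_lip {F : ℂ → ℂ} {A : ℝ} (hF : Fn F A) {Λ : ℂ → ℂ → ℂ} (hΛ : Br F Λ) {u : ℂ}
    (hu : 0 < u.re) (hu1 : u.re ≤ 1) {t s : ℝ} (ht : Real.log (4400 / u.re) ≤ t)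
    (hs : Real.log (4400 / u.re) ≤ s) :
    ‖(aa Λ u s + (s : ℂ)) - (aa Λ u t + (t : ℂ))‖ ≤ 1 / 4 * |s - t| := by
  have hd : ∀ x ∈ Ici (Real.log (4400 / u.re)),
      HasDerivWithinAt (fun x : ℝ => aa Λ u x + (x : ℂ))
        (-((Real.exp (-x) : ℂ) * deriv F (cv u x) / (F (cv u x) - F u)) + 1)
        (Ici (Real.log (4400 / u.re))) x := by
    intro x _
    have h1 := aa_deriv hF hΛ hu x
    have h2 : HasDerivAt (fun x : ℝ => (x : ℂ)) 1 x := Complex.ofRealCLM.hasDerivAt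
    exact (h1.add h2).hasDerivWithinAt
  have hb : ∀ x ∈ Ici (Real.log (4400 / u.re)),
      ‖-((Real.exp (-x) : ℂ) * deriv F (cv u x) / (F (cv u x) - F u)) + 1‖ ≤ 1 / 4 := by
    intro x hx
    have h1 := end_speed hF hΛ hu hu1 hx
    have h2 : -((Real.exp (-x) : ℂ) * deriv F (cv u x) / (F (cv u x) - F u)) + 1 =
        -((Real.exp (-x) : ℂ) * deriv F (cv u x) / (F (cv u x) - F u) - 1) := by ring
    rw [h2, norm_neg]
    exact h1
  have h := (convex_Ici (Real.log (4400 / u.re))).norm_image_sub_le_of_norm_hasDerivWithin_le hd hb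
    ht hs
  rw [Real.norm_eq_abs] at h
  exact h

theorem end_drop {F : ℂ → ℂ} {A : ℝ} (hF : Fn F A) {Λ : ℂ → ℂ → ℂ} (hΛ : Br F Λ) {u : ℂ}
    (hu : 0 < u.re) (hu1 : u.re ≤ 1) {t s : ℝ} (ht : Real.log (4400 / u.re) ≤ t) (hs : t ≤ s) :
    (aa Λ u s).re ≤ (aa Λ u t).re - 3 / 4 * (s - t) := by
  have h1 := end_lip hF hΛ hu hu1 ht (ht.trans hs)
  have h2 := (Complex.re_le_norm _).trans h1
  rw [abs_of_nonneg (by linarith only [hs])] at h2
  simp only [Complex.sub_re, Complex.add_re, Complex.ofReal_re] at h2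
  linarith only [h2]

theorem end_re {F : ℂ → ℂ} {A : ℝ} (hF : Fn F A) {Λ : ℂ → ℂ → ℂ} (hΛ : Br F Λ) {u : ℂ}
    (hu : 0 < u.re) (hu1 : u.re ≤ 1) {t s : ℝ} (ht : Real.log (4400 / u.re) ≤ t) (hs : t < s) :
    (aa Λ u s).re < (aa Λ u t).re := by
  have h := end_drop hF hΛ hu hu1 ht hs.le
  linarith only [hs, h]

/-- the chords near the end -/
theorem end_chord {F : ℂ → ℂ} {A : ℝ} (hF : Fn F A) {Λ : ℂ → ℂ → ℂ} (hΛ : Br F Λ) {u : ℂ}
    (hu : 0 < u.re) (hu1 : u.re ≤ 1) {L : ℝ → ℝ → ℂ} (hL : Ch F Λ u L) {t s : ℝ}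
    (ht : Real.log (4400 / u.re) ≤ t) (hs : Real.log (4400 / u.re) ≤ s) (hts : t ≠ s) :
    0 < (Complex.exp (L t s)).re := by
  have h1 := end_lip hF hΛ hu hu1 ht hs
  have h2 := hL.exp t s
  have h3 : (aa Λ u s + (s : ℂ)) - (aa Λ u t + (t : ℂ)) =
      -((Complex.exp (L t s) - 1) * ((s - t : ℝ) : ℂ)) := by
    rw [sub_mul, h2, one_mul]
    push_cast
    ring
  have hst : 0 < |s - t| := abs_pos.mpr (sub_ne_zero.mpr (Ne.symm hts))
  rw [h3, norm_neg, norm_mul, Complex.norm_real, Real.norm_eq_abs] at h1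
  have h4 : ‖Complex.exp (L t s) - 1‖ ≤ 1 / 4 := le_of_mul_le_mul_right h1 hst
  have h5 := (Complex.abs_re_le_norm _).trans h4
  rw [Complex.sub_re, Complex.one_re] at h5
  have h6 := abs_le.mp h5
  linarith only [h6]

theorem end_diag {F : ℂ → ℂ} {A : ℝ} (hF : Fn F A) {Λ : ℂ → ℂ → ℂ} (hΛ : Br F Λ) {u : ℂ}
    (hu : 0 < u.re) (hu1 : u.re ≤ 1) {L : ℝ → ℝ → ℂ} (hL : Ch F Λ u L) {s : ℝ}
    (hs : Real.log (4400 / u.re) ≤ s) : |(L s s).im| ≤ 1 := by
  have hsm := end_small hu hs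
  have hre : u.re ≤ (cv u s).re := by
    unfold cv
    rw [Complex.add_re, Complex.ofReal_re]
    linarith only [Real.exp_pos (-s)]
  have h1 := near_diag hF hΛ (v := cv u s) (u := u) (ρ := u.re) hu hre
    (by linarith only [Real.pi_gt_three, hu1]) (by rw [norm_sub_rev]; (clear * - hu hsm; linarith only [hu, hsm]))
  rw [hL.diag s]
  refine (Complex.abs_im_le_norm _).trans ?_
  rw [norm_sub_rev]
  exact h1

theorem end_im {F : ℂ → ℂ} {A : ℝ} (hF : Fn F A) {Λ : ℂ → ℂ → ℂ} (hΛ : Br F Λ) {u : ℂ}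
    (hu : 0 < u.re) (hu1 : u.re ≤ 1) {L : ℝ → ℝ → ℂ} (hL : Ch F Λ u L) (t : ℝ) :
    ∃ S : ℝ, t ≤ S ∧ ∀ s : ℝ, S ≤ s → |(L t s).im| < π / 2 := by
  set T : ℝ := Real.log (4400 / u.re) with hT
  have hac : Continuous fun x => (aa Λ u x).re :=
    Complex.continuous_re.comp (aa_cont hF hΛ hu).1
  obtain ⟨t0, ht0, hmin⟩ := (isCompact_Icc (a := min t T) (b := T)).exists_isMinOn
    (nonempty_Icc.mpr (min_le_right _ _)) hac.continuousOn
  have hTm : (aa Λ u t0).re ≤ (aa Λ u T).re :=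
    hmin (right_mem_Icc.mpr (min_le_right _ _))
  refine ⟨T + |t - T| + (4 / 3 * ((aa Λ u T).re - (aa Λ u t0).re) + 1), ?_, ?_⟩
  · have := le_abs_self (t - T)
    linarith only [hTm, this]
  intro s hs
  have habs := abs_nonneg (t - T)
  have habs' := le_abs_self (t - T)
  have hTs : T < s := by linarith only [hTm, hs, habs]
  have hts : t < s := by linarith
  have hdrop := end_drop hF hΛ hu hu1 (t := T) (s := s) le_rfl hTs.le
  have hlow : (aa Λ u s).re < (aa Λ u t0).re := by linarith only [hs, habs, hdrop]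
  have hpos : ∀ t' ∈ Icc t s, t' ≠ s → 0 < (Complex.exp (L t' s)).re := by
    intro t' ht' hne
    rcases le_or_gt T t' with h | h
    · exact end_chord hF hΛ hu hu1 hL h hTs.le hne
    · have h1 : (aa Λ u t0).re ≤ (aa Λ u t').re :=
        hmin ⟨(min_le_left _ _).trans ht'.1, h.le⟩
      have h2 := congrArg Complex.re (hL.exp t' s)
      rw [Complex.re_mul_ofReal, Complex.sub_re] at h2
      have h3 : 0 < s - t' := by linarith only [hTs, h]
      by_contra hc
      have h4 : (Complex.exp (L t' s)).re * (s - t') ≤ 0 :=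
        mul_nonpos_of_nonpos_of_nonneg (not_lt.mp hc) h3.le
      linarith only [hlow, h1, h2, h4]
  have hfc : Continuous fun x => |(L x s).im| := by
    have h1 : Continuous fun x : ℝ => L x s :=
      hL.cont.comp (continuous_id.prodMk continuous_const)
    exact (Complex.continuous_im.comp h1).abs
  by_contra hcon
  have hcon' : π / 2 ≤ |(L t s).im| := not_lt.mp hcon
  have hs1 : |(L s s).im| ≤ 1 := end_diag hF hΛ hu hu1 hL hTs.le
  have hpi := Real.pi_gt_three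
  obtain ⟨x, hx, hxe⟩ := intermediate_value_Icc' hts.le hfc.continuousOn
    (show π / 2 ∈ Icc |(L s s).im| |(L t s).im| from ⟨by linarith only [hs1, hpi], hcon'⟩)
  have hxe' : |(L x s).im| = π / 2 := hxe
  have hxs : x ≠ s := by
    rintro rfl
    linarith only [hpi, hs1, hxe']
  have h1 := hpos x hx hxs
  rw [Complex.exp_re, ← Real.cos_abs, hxe', Real.cos_pi_div_two, mul_zero] at h1
  exact lt_irrefl _ h1

end Pool.Agent.Helper26.G4
end
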