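import Pool.Agent.Helper24.K6.G03
import Pool.Agent.Helper24.K6.G04
import Pool.Agent.Helper24.K6.G09

/- Helper24.K6w.H90.G2.Pot -/
section
/-!
# G2-POT: elementary facts on `Vp`

`‖w - p‖ ^ (-δ)` is integrable on every set of finite area (at `w = p` its value is `0` in Lean; that
is a null set, argue almost everywhere). `vp_upper`: `|w - p|^(-δ) ≤ 1` outside the unit disk around
`p`, and the integral over the unit disk is `2 π / (2 - δ) ≤ 7`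
(`Complex.integral_comp_polarCoord_symm` or `integrable_fun_norm_addHaar`).
-/

set_option autoImplicit false
set_option linter.unusedVariables false

namespace Pool.Agent.Helper90.G2

open MeasureTheory Set
open scoped Real

theorem vp_int {δ : ℝ} (h0 : 0 < δ) (h1 : δ ≤ 1) {Q : Set ℂ} (hQ : MeasurableSet Q)
    (hv : volume Q < ⊤) (p : ℂ) : IntegrableOn (fun w : ℂ => ‖w - p‖ ^ (-δ)) Q :=
  Helper39.G2.integrableOn_weight h0 (by (clear * - h1; linarith only [h1])) p hv.ne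

theorem vp_nonneg (δ : ℝ) (Q : Set ℂ) (p : ℂ) : 0 ≤ Vp δ Q p :=
  integral_nonneg fun w => Real.rpow_nonneg (norm_nonneg _) _

theorem vp_mono {δ : ℝ} (h0 : 0 < δ) (h1 : δ ≤ 1) {Q Q' : Set ℂ} (hQ : MeasurableSet Q')
    (hv : volume Q' < ⊤) (h : Q ⊆ Q') (p : ℂ) : Vp δ Q p ≤ Vp δ Q' p :=
  setIntegral_mono_set (vp_int h0 h1 hQ hv p)
    (Filter.Eventually.of_forall fun w => Real.rpow_nonneg (norm_nonneg _) _) h.eventuallyLE

/-- disjoint subsets -/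
theorem vp_add {δ : ℝ} (h0 : 0 < δ) (h1 : δ ≤ 1) {N : ℕ} (Q : ℕ → Set ℂ) (W Q' : Set ℂ)
    (hQ : ∀ d < N, MeasurableSet (Q d)) (hW : MeasurableSet W) (hQ' : MeasurableSet Q')
    (hv : volume Q' < ⊤) (hs : ∀ d < N, Q d ⊆ Q') (hWs : W ⊆ Q')
    (hd : ∀ d < N, ∀ e < N, d ≠ e → Disjoint (Q d) (Q e)) (hWd : ∀ d < N, Disjoint W (Q d)) (p : ℂ) :
    Vp δ W p + ∑ d ∈ Finset.range N, Vp δ (Q d) p ≤ Vp δ Q' p := by
  have hI := vp_int h0 h1 hQ' hv p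
  have hU : ⋃ d ∈ Finset.range N, Q d ⊆ Q' := by
    intro w hw
    simp only [mem_iUnion, Finset.mem_range, exists_prop] at hw
    obtain ⟨d, hdN, hw⟩ := hw
    exact hs d hdN hw
  have hUm : MeasurableSet (⋃ d ∈ Finset.range N, Q d) :=
    Finset.measurableSet_biUnion _ fun d hdN => hQ d (Finset.mem_range.mp hdN)
  have h2 : ∫ w in ⋃ d ∈ Finset.range N, Q d, ‖w - p‖ ^ (-δ) =
      ∑ d ∈ Finset.range N, Vp δ (Q d) p := by
    refine integral_biUnion_finset (Finset.range N) (fun d hdN => hQ d (Finset.mem_range.mp hdN))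
      ?_ (fun d hdN => hI.mono_set (hs d (Finset.mem_range.mp hdN)))
    intro a ha b hb hab
    exact hd a (Finset.mem_range.mp ha) b (Finset.mem_range.mp hb) hab
  have h3 : Disjoint W (⋃ d ∈ Finset.range N, Q d) := by
    rw [disjoint_iUnion₂_right]
    exact fun d hdN => hWd d (Finset.mem_range.mp hdN)
  have h4 : ∫ w in W ∪ ⋃ d ∈ Finset.range N, Q d, ‖w - p‖ ^ (-δ) =
      Vp δ W p + ∑ d ∈ Finset.range N, Vp δ (Q d) p := by
    rw [← h2]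
    exact setIntegral_union h3 hUm (hI.mono_set hWs) (hI.mono_set hU)
  rw [← h4]
  exact vp_mono h0 h1 hQ' hv (union_subset hWs hU) p

theorem vp_lower {δ : ℝ} (h0 : 0 < δ) (h1 : δ ≤ 1) {Q : Set ℂ} (hQ : MeasurableSet Q)
    (hv : volume Q < ⊤) (p : ℂ) {r : ℝ} (hr : 0 < r) (h : ∀ w ∈ Q, ‖w - p‖ ≤ r) :
    (volume Q).toReal * r ^ (-δ) ≤ Vp δ Q p := by
  have hI := vp_int h0 h1 hQ hv p
  have h2 : ∫ w in Q, (r ^ (-δ) : ℝ) = (volume Q).toReal * r ^ (-δ) := by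
    rw [setIntegral_const]
    rfl
  rw [← h2]
  refine integral_mono_ae ?_ hI ?_
  · exact integrableOn_const hv.ne
  · have hp : ∀ᵐ w ∂(volume.restrict Q), w ≠ p :=
      ae_restrict_of_ae (by simp [ae_iff])
    filter_upwards [hp, ae_restrict_mem hQ] with w hwp hw
    have h3 : 0 < ‖w - p‖ := norm_pos_iff.mpr (sub_ne_zero.mpr hwp)
    exact Real.rpow_le_rpow_of_nonpos h3 (h w hw) (by linarith)

theorem vp_upper {δ : ℝ} (h0 : 0 < δ) (h1 : δ ≤ 1) {Q : Set ℂ} (hQ : MeasurableSet Q)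
    (hv : volume Q < ⊤) (p : ℂ) : Vp δ Q p ≤ (volume Q).toReal + 7 := by
  have hI := vp_int h0 h1 hQ hv p
  have hB : MeasurableSet (Metric.ball p 1) := Metric.isOpen_ball.measurableSet
  have h2 : Vp δ Q p = (∫ w in Q ∩ Metric.ball p 1, ‖w - p‖ ^ (-δ)) +
      ∫ w in Q \ Metric.ball p 1, ‖w - p‖ ^ (-δ) :=
    (integral_inter_add_diff hB hI).symm
  have hvb : volume (Q ∩ Metric.ball p 1) ≠ ⊤ := ((measure_mono inter_subset_left).trans_lt hv).ne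
  have h3 : (∫ w in Q ∩ Metric.ball p 1, ‖w - p‖ ^ (-δ)) ≤ 7 := by
    have h4 := Helper39.G2.weight_le h0 (by linarith only [h1] : δ < 2) p (Q ∩ Metric.ball p 1) one_pos (by
      refine (measure_mono inter_subset_right).trans ?_
      rw [Complex.volume_ball]
      simp only [one_pow, mul_one, ENNReal.ofReal_one, one_mul]
      rw [← NNReal.coe_real_pi, ENNReal.ofReal_coe_nnreal])
    rw [← Helper39.G2.ofReal_integral_weight h0 (by (clear * - h1; linarith)) p hvb, Real.one_rpow, mul_one] at h4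
    have h5 : 2 * Real.pi / (2 - δ) ≤ 7 := by
      rw [div_le_iff₀ (by linarith)]
      have := Real.pi_lt_d2
      (clear * - h1 this; nlinarith)
    exact ((ENNReal.ofReal_le_ofReal_iff (by
      have := Real.pi_pos
      have h6 : 0 < 2 - δ := by (clear * - h1; linarith)
      (clear * - h6; positivity))).mp h4).trans h5
  have h6 : ∫ w in Q \ Metric.ball p 1, ‖w - p‖ ^ (-δ) ≤ (volume Q).toReal := by
    have h7 : ∫ w in Q \ Metric.ball p 1, (1 : ℝ) = (volume (Q \ Metric.ball p 1)).toReal := by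
      rw [setIntegral_const, smul_eq_mul, mul_one]
      rfl
    have h8 : (volume (Q \ Metric.ball p 1)).toReal ≤ (volume Q).toReal :=
      ENNReal.toReal_mono hv.ne (measure_mono diff_subset)
    refine le_trans ?_ (h7.le.trans h8)
    refine integral_mono_ae (hI.mono_set diff_subset) ?_ ?_
    · exact integrableOn_const ((measure_mono diff_subset).trans_lt hv).ne
    · filter_upwards [ae_restrict_mem (hQ.diff hB)] with w hw
      have h9 : 1 ≤ ‖w - p‖ := by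
        have := hw.2
        rw [Metric.mem_ball, not_lt, dist_eq_norm] at this
        exact this
      exact Real.rpow_le_one_of_one_le_of_nonpos h9 (by (clear * - h0; linarith))
  rw [h2]
  linarith

end Pool.Agent.Helper90.G2
end

/- Helper24.K6w.H90.G2.Low -/
section
/-!
# G2-LOW: bounds of `V`

`V_lower`: the disk of radius `ℓ / 16` around `15 ℓ / 16 + i c` lies in the box; there
`|F u - F (zt)| ≤ (ℓ / 8) 55 |F' (zt)|` (`Fn.dist` at `zt` along the segment) and the area of its image is at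
least `π (ℓ / 16)^2 (|F' (zt)| / 55)^2` (`Fn.area_ball`, `Fn.dist`). So
`V ≥ π / (16 * 55)^2 * (55 / 8)^(-δ) * (ℓ |F'|)^(2 - δ)` (`vp_mono`, `vp_lower`), and
`π / 774400 * (55/8)^(-1/4) ≥ 1 / 500000`. `V_upper`: `vp_upper`.
-/

set_option autoImplicit false

namespace Pool.Agent.Helper90.G2

open MeasureTheory Set
open scoped Real

variable {F : ℂ → ℂ} {A : ℝ}

private theorem low_strip {c ℓ : ℝ} (hℓ1 : ℓ ≤ 1) :
    Bx c ℓ ⊆ {u | 0 < u.re ∧ |u.im - c| < π} := by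
  intro u hu
  refine ⟨hu.1, hu.2.2.trans ?_⟩
  have := Real.pi_gt_three
  linarith only [hℓ1, this]

private theorem low_meas (hF : Fn F A) {c ℓ : ℝ} (hℓ1 : ℓ ≤ 1) : MeasurableSet (F '' Bx c ℓ) :=
  hF.meas (meas_bx c ℓ) (low_strip hℓ1)

/-- the disk in the upper part of the box -/
private theorem low_ball {c ℓ : ℝ} :
    Metric.ball (⟨15 / 16 * ℓ, c⟩ : ℂ) (ℓ / 16) ⊆ Bx c ℓ := by
  intro w hw
  rw [Metric.mem_ball, dist_eq_norm] at hw
  have h3 := (Complex.abs_re_le_norm (w - ⟨15 / 16 * ℓ, c⟩)).trans_lt hw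
  have h4 := (Complex.abs_im_le_norm (w - ⟨15 / 16 * ℓ, c⟩)).trans_lt hw
  rw [Complex.sub_re] at h3
  rw [Complex.sub_im] at h4
  have h5 := abs_lt.1 h3
  have h6 : 0 < ℓ := by
    have := norm_nonneg (w - ⟨15 / 16 * ℓ, c⟩)
    linarith only [h5]
  refine ⟨?_, ?_, ?_⟩
  · have := h5.1
    simp only at this
    linarith only [h5]
  · have := h5.2
    simp only at this
    linarith only [this]
  · exact h4.trans (by linarith only [h6])

private theorem low_near {c ℓ : ℝ} {w : ℂ}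
    (hw : w ∈ Metric.ball (⟨15 / 16 * ℓ, c⟩ : ℂ) (ℓ / 16)) (hℓ : 0 < ℓ) :
    ‖w - zt c ℓ‖ ≤ ℓ / 8 := by
  rw [Metric.mem_ball, dist_eq_norm] at hw
  have h1 : (⟨15 / 16 * ℓ, c⟩ : ℂ) - zt c ℓ = ((-(ℓ / 16) : ℝ) : ℂ) := by
    apply Complex.ext
    · simp only [zt, Complex.sub_re, Complex.ofReal_re]
      ring
    · simp only [zt, Complex.sub_im, Complex.ofReal_im]
      ring
  have h2 : w - zt c ℓ = (w - ⟨15 / 16 * ℓ, c⟩) + (⟨15 / 16 * ℓ, c⟩ - zt c ℓ) := by ring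
  rw [h2]
  refine (norm_add_le _ _).trans ?_
  rw [h1, Complex.norm_real, norm_neg, Real.norm_of_nonneg (by (clear * - hℓ; positivity))]
  (clear * - hw; linarith only [hw])

private theorem low_mvt (hF : Fn F A) {c ℓ : ℝ} (hℓ : 0 < ℓ) (hℓ1 : ℓ ≤ 1) {w : ℂ}
    (hw : ‖w - zt c ℓ‖ ≤ ℓ / 8) :
    ‖F w - F (zt c ℓ)‖ ≤ 55 / 8 * (ℓ * ‖deriv F (zt c ℓ)‖) := by
  have hre : (zt c ℓ).re = ℓ := rfl
  have hs : ∀ v ∈ Metric.closedBall (zt c ℓ) (ℓ / 8), 0 < v.re ∧ ‖v - zt c ℓ‖ ≤ ℓ / 2 := by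
    intro v hv
    rw [mem_closedBall_iff_norm] at hv
    have h1 := (abs_le.1 ((Complex.abs_re_le_norm (v - zt c ℓ)).trans hv)).1
    rw [Complex.sub_re, hre] at h1
    exact ⟨by linarith only [hℓ, h1], by (clear * - hℓ hv; linarith only [hℓ, hv])⟩
  have h2 := Convex.norm_image_sub_le_of_norm_deriv_le (f := F) (C := 55 * ‖deriv F (zt c ℓ)‖)
    (s := Metric.closedBall (zt c ℓ) (ℓ / 8)) (x := zt c ℓ) (y := w)
    (fun v hv => hF.diff.differentiableAt (area_isOpen_rp.mem_nhds (hs v hv).1))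
    (fun v hv => (hF.dist (u := zt c ℓ) (u' := v) (by rw [hre]; exact hℓ)
      (by rw [hre]; (clear * - hℓ1; linarith only [hℓ1])) (by rw [hre]; exact (hs v hv).2)).1)
    (convex_closedBall _ _) (Metric.mem_closedBall_self (by (clear * - hℓ; positivity)))
    (by rw [mem_closedBall_iff_norm]; exact hw)
  refine h2.trans ?_
  calc 55 * ‖deriv F (zt c ℓ)‖ * ‖w - zt c ℓ‖ ≤ 55 * ‖deriv F (zt c ℓ)‖ * (ℓ / 8) :=
        mul_le_mul_of_nonneg_left hw (by (clear * -; positivity))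
    _ = 55 / 8 * (ℓ * ‖deriv F (zt c ℓ)‖) := by ring

private theorem low_num {δ x a : ℝ} (h0 : 0 < δ) (h1 : δ ≤ 1 / 4) (hx : 0 < x)
    (ha : π / 774400 * x ^ 2 ≤ a) :
    1 / 500000 * x ^ (2 - δ) ≤ a * (55 / 8 * x) ^ (-δ) := by
  have e1 : (55 / 8 * x) ^ (-δ) = (55 / 8 : ℝ) ^ (-δ) * x ^ (-δ) :=
    Real.mul_rpow (by norm_num) hx.le
  have e2 : x ^ (2 - δ) = x ^ 2 * x ^ (-δ) := by
    rw [sub_eq_add_neg, Real.rpow_add hx, Real.rpow_two]
  have e3 : (3 / 5 : ℝ) ≤ (55 / 8 : ℝ) ^ (-δ) := by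
    rw [Real.rpow_neg (by norm_num)]
    have e4 : (55 / 8 : ℝ) ^ δ ≤ 5 / 3 := by
      have e5 : (55 / 8 : ℝ) ^ δ ≤ (55 / 8 : ℝ) ^ (1 / 4 : ℝ) :=
        Real.rpow_le_rpow_of_exponent_le (by norm_num) h1
      have e6 : (55 / 8 : ℝ) ^ (1 / 4 : ℝ) ≤ ((5 / 3 : ℝ) ^ (4 : ℝ)) ^ (1 / 4 : ℝ) := by
        apply Real.rpow_le_rpow (by norm_num) _ (by norm_num)
        have : (5 / 3 : ℝ) ^ (4 : ℝ) = (5 / 3 : ℝ) ^ (4 : ℕ) := by
          rw [← Real.rpow_natCast]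
          norm_num
        rw [this]
        norm_num
      rw [← Real.rpow_mul (by norm_num)] at e6
      have e7 : (4 : ℝ) * (1 / 4) = 1 := by norm_num
      rw [e7, Real.rpow_one] at e6
      exact e5.trans e6
    have e8 : 0 < (55 / 8 : ℝ) ^ δ := Real.rpow_pos_of_pos (by norm_num) _
    rw [le_inv_comm₀ (by norm_num) e8]
    calc (55 / 8 : ℝ) ^ δ ≤ 5 / 3 := e4
      _ = (3 / 5 : ℝ)⁻¹ := by norm_num
  have hxd : 0 < x ^ (-δ) := Real.rpow_pos_of_pos hx _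
  have hx2 : 0 < x ^ 2 := by (clear * - hx; positivity)
  have hπ := Real.pi_gt_d2
  rw [e1, e2]
  calc 1 / 500000 * (x ^ 2 * x ^ (-δ)) ≤ π / 774400 * (3 / 5) * (x ^ 2 * x ^ (-δ)) := by
        apply mul_le_mul_of_nonneg_right _ (by (clear * - hx; positivity))
        linarith only [hπ]
    _ = π / 774400 * x ^ 2 * (3 / 5 * x ^ (-δ)) := by ring
    _ ≤ a * ((55 / 8 : ℝ) ^ (-δ) * x ^ (-δ)) := by
        apply mul_le_mul ha _ (by (clear * - hx; positivity)) (le_trans (by positivity) ha)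
        exact mul_le_mul_of_nonneg_right e3 hxd.le

theorem Fn.V_lower (hF : Fn F A) {δ c ℓ : ℝ} (h0 : 0 < δ) (h1 : δ ≤ 1 / 4) (hℓ : 0 < ℓ)
    (hℓ1 : ℓ ≤ 1) :
    1 / 500000 * (ℓ * ‖deriv F (zt c ℓ)‖) ^ (2 - δ) ≤ V F δ c ℓ := by
  have hre : (zt c ℓ).re = ℓ := rfl
  have hd : 0 < ‖deriv F (zt c ℓ)‖ := norm_pos_iff.2 (hF.dne (u := zt c ℓ) (by rw [hre]; exact hℓ))
  have hx : 0 < ℓ * ‖deriv F (zt c ℓ)‖ := mul_pos hℓ hd
  obtain ⟨u0, hu0⟩ : ∃ u0 : ℂ, u0 = ⟨15 / 16 * ℓ, c⟩ := ⟨_, rfl⟩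
  have hu0r : u0.re = 15 / 16 * ℓ := by rw [hu0]
  have hsub : Metric.ball u0 (ℓ / 16) ⊆ Bx c ℓ := by
    rw [hu0]
    exact low_ball
  have hfinB : volume (F '' Metric.ball u0 (ℓ / 16)) < ⊤ := hF.fin hℓ1 hsub
  have hfin : volume (F '' Bx c ℓ) < ⊤ := hF.fin hℓ1 (subset_refl _)
  have hmeasB : MeasurableSet (F '' Metric.ball u0 (ℓ / 16)) :=
    hF.meas Metric.isOpen_ball.measurableSet (hsub.trans (low_strip hℓ1))
  have harea := hF.area_ball (u := u0) (r := ℓ / 16) (by (clear * - hℓ; positivity)) (by rw [hu0r]; linarith only [hℓ])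
    (by rw [hu0r]; (clear * - hℓ1; linarith only [hℓ1])) hfinB
  have hdist := (hF.dist (u := zt c ℓ) (u' := u0) (by rw [hre]; exact hℓ)
    (by rw [hre]; linarith only [hℓ1]) (by
      rw [hre]
      have h3 := low_near (c := c) (ℓ := ℓ) (w := u0) (by
        rw [hu0]
        exact Metric.mem_ball_self (by (clear * - hℓ; positivity))) hℓ
      linarith only [hℓ, h3])).2
  have hsq : ‖deriv F (zt c ℓ)‖ ^ 2 ≤ 3025 * ‖deriv F u0‖ ^ 2 := by
    calc ‖deriv F (zt c ℓ)‖ ^ 2 ≤ (55 * ‖deriv F u0‖) ^ 2 := pow_le_pow_left₀ hd.le hdist 2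
      _ = 3025 * ‖deriv F u0‖ ^ 2 := by ring
  have ha : π / 774400 * (ℓ * ‖deriv F (zt c ℓ)‖) ^ 2 ≤
      (volume (F '' Metric.ball u0 (ℓ / 16))).toReal := by
    refine le_trans ?_ harea
    calc π / 774400 * (ℓ * ‖deriv F (zt c ℓ)‖) ^ 2
        = π * (ℓ / 16) ^ 2 * (‖deriv F (zt c ℓ)‖ ^ 2 / 3025) := by ring
      _ ≤ π * (ℓ / 16) ^ 2 * ‖deriv F u0‖ ^ 2 := by
          apply mul_le_mul_of_nonneg_left _ (by positivity)
          rw [div_le_iff₀ (by norm_num)]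
          linarith only [hsq]
  refine (low_num h0 h1 hx ha).trans ?_
  unfold V
  refine (vp_lower h0 (by (clear * - h1; linarith only [h1])) hmeasB hfinB (F (zt c ℓ)) (by positivity) ?_).trans
    (vp_mono h0 (by linarith only [h1]) (low_meas hF hℓ1) hfin (image_mono hsub) _)
  rintro _ ⟨w, hw, rfl⟩
  rw [hu0] at hw
  exact low_mvt hF hℓ hℓ1 (low_near hw hℓ)

theorem Fn.V_upper (hF : Fn F A) (hA : 0 ≤ A) {δ c ℓ : ℝ} (h0 : 0 < δ) (h1 : δ ≤ 1 / 4)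
    (hℓ : 0 < ℓ) (hℓ1 : ℓ ≤ 1) : V F δ c ℓ ≤ A + 7 := by
  have hfin : volume (F '' Bx c ℓ) < ⊤ := hF.fin hℓ1 (subset_refl _)
  have h2 := vp_upper h0 (by (clear * - h1; linarith only [h1])) (low_meas hF hℓ1) hfin (F (zt c ℓ))
  have h3 : volume (F '' Bx c ℓ) ≤ ENNReal.ofReal A := by
    refine (measure_mono (image_mono ?_)).trans (hF.area c)
    intro u hu
    exact ⟨hu.1, hu.2.1.trans_le hℓ1, hu.2.2.trans_le (by (clear * - hℓ1; linarith only [hℓ1]))⟩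
  have h4 : (volume (F '' Bx c ℓ)).toReal ≤ A := by
    have h5 := ENNReal.toReal_mono ENNReal.ofReal_ne_top h3
    rwa [ENNReal.toReal_ofReal hA] at h5
  unfold V
  linarith only [h2, h4]

end Pool.Agent.Helper90.G2
end

/- Helper24.K6w.H90.G2.Avg -/
section
/-!
# G2-AVG: averaging over translations

`words` for `f c ℓ = V F δ c ℓ ^ (1 + θ)` at `ℓ = 1`, `c = ξ`, `Fn.V_lower` for each term,
`Fn.V_upper` on the right; integrate over `ξ` in `[0, 2π]`. `ch (N^K) ξ 1 d = ξ + const`, and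
`ξ ↦ ‖F' (N^(-K) + i ξ)‖` has period `2π`, so every term has the same integral
(`Function.Periodic.intervalIntegral_add_eq`). `sum_chK`, `sum_chi_ge`.

`Fn.avg_core` is the version for one level.
-/

set_option autoImplicit false

namespace Pool.Agent.Helper90.G2

open MeasureTheory Set
open scoped Real

variable {F : ℂ → ℂ} {A : ℝ}

theorem Fn.per_deriv (hF : Fn F A) {y : ℝ} (hy : 0 < y) :
    Function.Periodic (fun ξ : ℝ => deriv F ⟨y, ξ⟩) (2 * π) := by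
  intro ξ
  have h1 : (⟨y, ξ + 2 * π⟩ : ℂ) = ⟨y, ξ⟩ + 2 * π * Complex.I := by
    apply Complex.ext <;> simp
  show deriv F ⟨y, ξ + 2 * π⟩ = deriv F ⟨y, ξ⟩
  rw [h1, ← deriv_comp_add_const]
  apply Filter.EventuallyEq.deriv_eq
  have h2 : {u : ℂ | 0 < u.re} ∈ nhds (⟨y, ξ⟩ : ℂ) :=
    (isOpen_lt continuous_const Complex.continuous_re).mem_nhds hy
  filter_upwards [h2] with u hu
  exact hF.per u hu

theorem Avg_cont (hF : Fn F A) {y p : ℝ} (hy : 0 < y) (hp : 0 ≤ p) :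
    Continuous fun ξ : ℝ => ‖deriv F ⟨y, ξ⟩‖ ^ p := by
  have h1 : ContinuousOn (deriv F) {u : ℂ | 0 < u.re} :=
    (hF.diff.deriv (isOpen_lt continuous_const Complex.continuous_re)).continuousOn
  have h2 : Continuous fun ξ : ℝ => (⟨y, ξ⟩ : ℂ) := by
    have h : (fun ξ : ℝ => (⟨y, ξ⟩ : ℂ)) = fun ξ : ℝ => (y : ℂ) + (ξ : ℂ) * Complex.I := by
      funext ξ
      apply Complex.ext <;> simp
    rw [h]
    fun_prop
  have h3 : Continuous fun ξ : ℝ => deriv F ⟨y, ξ⟩ := h1.comp_continuous h2 fun ξ => hy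
  exact h3.norm.rpow_const fun _ => Or.inr hp

/-- the integral of a translate -/
theorem Avg_shift (hF : Fn F A) {y p : ℝ} (hy : 0 < y) (s : ℝ) :
    ∫ ξ in (0:ℝ)..(2 * π), ‖deriv F ⟨y, ξ + s⟩‖ ^ p =
      ∫ ξ in (0:ℝ)..(2 * π), ‖deriv F ⟨y, ξ⟩‖ ^ p := by
  have hper : Function.Periodic (fun ξ : ℝ => ‖deriv F ⟨y, ξ⟩‖ ^ p) (2 * π) := by
    intro ξ
    have h := hF.per_deriv hy ξ
    show ‖deriv F ⟨y, ξ + 2 * π⟩‖ ^ p = ‖deriv F ⟨y, ξ⟩‖ ^ p
    have h' : deriv F ⟨y, ξ + 2 * π⟩ = deriv F ⟨y, ξ⟩ := h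
    rw [h']
  rw [intervalIntegral.integral_comp_add_right (fun ξ : ℝ => ‖deriv F ⟨y, ξ⟩‖ ^ p) s]
  have h := hper.intervalIntegral_add_eq (0 + s) 0
  rw [zero_add] at h
  rw [zero_add, add_comm (2 * π) s, h]
  simp

theorem Avg_exp {x : ℝ} (hx : 0 ≤ x) (hx1 : x ≤ 1 / 2) : Real.exp (-(2 * x)) ≤ 1 - x := by
  have h1 : Real.exp (-(2 * x)) = (Real.exp (2 * x))⁻¹ := Real.exp_neg _
  have h2 : 2 * x + 1 ≤ Real.exp (2 * x) := Real.add_one_le_exp _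
  have h3 : 0 < 1 - x := by (clear * - hx1; linarith)
  rw [h1, inv_le_comm₀ (Real.exp_pos _) h3]
  refine le_trans ?_ h2
  rw [inv_le_iff_one_le_mul₀ h3]
  (clear * - hx hx1; nlinarith only [hx, hx1])

/-- one level -/
theorem Fn.avg_core (hF : Fn F A) (hA : 0 ≤ A) {δ q κ c' G' : ℝ} {N : ℕ} (h0 : 0 < δ)
    (h1 : δ ≤ 1 / 4) (hq : 1 ≤ q) (hq1 : q ≤ 2) (hκ : 0 < κ) (hκ1 : κ ≤ 1 / 4) (hc : 0 ≤ c')
    (hc1 : 3 * κ * c' ≤ 1 / 2) (hN : 2 ≤ κ * N) (hG : 0 ≤ G') {J : ℕ}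
    (h : ∀ ξ : ℝ, ∑ d ∈ Finset.range (N ^ J), chK κ c' N J d *
        V F δ (ch (N ^ J) ξ 1 d) (1 / ((N ^ J : ℕ) : ℝ)) ^ q ≤ G' * V F δ ξ 1 ^ q) :
    ∫ ξ in (0:ℝ)..(2 * π), ‖deriv F ⟨((N ^ J : ℕ) : ℝ)⁻¹, ξ⟩‖ ^ ((2 - δ) * q) ≤
      2 * π * 500000 ^ 2 * (A + 7) ^ 2 *
        (G' * ((N ^ J : ℕ) : ℝ) ^ ((2 - δ) * q - 1) * Real.exp (6 * κ * c' * J)) := by
  have hN0 : 0 < N := by
    rcases Nat.eq_zero_or_pos N with h | h
    · rw [h] at hN
      norm_num at hN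
    · exact h
  obtain ⟨m, hm⟩ : ∃ m : ℝ, m = ((N ^ J : ℕ) : ℝ) := ⟨_, rfl⟩
  have hm1 : 1 ≤ m := by
    rw [hm]
    exact_mod_cast Nat.one_le_pow _ _ hN0
  have hm0 : 0 < m := by linarith only [hm1]
  obtain ⟨p, hp⟩ : ∃ p : ℝ, p = (2 - δ) * q := ⟨_, rfl⟩
  have hp0 : 0 ≤ p := by
    rw [hp]
    exact mul_nonneg (by (clear * - h1; linarith only [h1])) (by linarith only [hq])
  rw [← hp, ← hm]
  obtain ⟨I, hI⟩ : ∃ I : ℝ, I = ∫ ξ in (0:ℝ)..(2 * π), ‖deriv F ⟨m⁻¹, ξ⟩‖ ^ p := ⟨_, rfl⟩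
  rw [← hI]
  have hmi : 0 < m⁻¹ := by (clear * - hm1; positivity)
  have hmi1 : m⁻¹ ≤ 1 := inv_le_one_of_one_le₀ hm1
  -- pointwise
  have hpt : ∀ ξ : ℝ, ∑ d ∈ Finset.range (N ^ J), chK κ c' N J d *
      ‖deriv F ⟨m⁻¹, ξ + (((d : ℝ) + 1 / 2) / m - 1 / 2)⟩‖ ^ p ≤
        500000 ^ 2 * (A + 7) ^ 2 * G' * m ^ p := by
    intro ξ
    have hlow : ∀ d ∈ Finset.range (N ^ J), chK κ c' N J d *
        (1 / (500000 ^ 2 * m ^ p) * ‖deriv F ⟨m⁻¹, ξ + (((d : ℝ) + 1 / 2) / m - 1 / 2)⟩‖ ^ p) ≤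
        chK κ c' N J d * V F δ (ch (N ^ J) ξ 1 d) (1 / ((N ^ J : ℕ) : ℝ)) ^ q := by
      intro d _
      refine mul_le_mul_of_nonneg_left ?_ (chK_nonneg _ _ _ _ _)
      have e1 : ch (N ^ J) ξ 1 d = ξ + (((d : ℝ) + 1 / 2) / m - 1 / 2) := by
        unfold ch
        rw [← hm, mul_one]
      rw [e1, ← hm, one_div m]
      have h2 := hF.V_lower (c := ξ + (((d : ℝ) + 1 / 2) / m - 1 / 2)) h0 h1 hmi hmi1
      have e2 : zt (ξ + (((d : ℝ) + 1 / 2) / m - 1 / 2)) m⁻¹ =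
          ⟨m⁻¹, ξ + (((d : ℝ) + 1 / 2) / m - 1 / 2)⟩ := rfl
      rw [e2] at h2
      obtain ⟨D, hD⟩ : ∃ D : ℝ, D = ‖deriv F ⟨m⁻¹, ξ + (((d : ℝ) + 1 / 2) / m - 1 / 2)⟩‖ :=
        ⟨_, rfl⟩
      have hD0 : 0 ≤ D := by
        rw [hD]
        exact norm_nonneg _
      rw [← hD] at h2 ⊢
      have h3 : (1 / 500000 * (m⁻¹ * D) ^ (2 - δ)) ^ q ≤
          V F δ (ξ + (((d : ℝ) + 1 / 2) / m - 1 / 2)) m⁻¹ ^ q :=
        Real.rpow_le_rpow (by (clear * - hm1 hD0; positivity)) h2 (by (clear * - hq; linarith only [hq]))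
      refine le_trans ?_ h3
      have e3 : (1 / 500000 * (m⁻¹ * D) ^ (2 - δ)) ^ q =
          (1 / 500000 : ℝ) ^ q * ((m ^ p)⁻¹ * D ^ p) := by
        rw [Real.mul_rpow (by positivity) (by (clear * - hm1 hD0; positivity)), ← Real.rpow_mul (by (clear * - hm1 hD0; positivity)), ← hp,
          Real.mul_rpow hmi.le hD0, Real.inv_rpow hm0.le]
      have h4 : (1 / 500000 : ℝ) ^ (2 : ℝ) ≤ (1 / 500000 : ℝ) ^ q :=
        Real.rpow_le_rpow_of_exponent_ge (by norm_num) (by norm_num) hq1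
      rw [Real.rpow_two] at h4
      have h5 : 0 ≤ (m ^ p)⁻¹ * D ^ p := by (clear * - hm1 hD0; positivity)
      rw [e3]
      calc 1 / (500000 ^ 2 * m ^ p) * D ^ p = (1 / 500000) ^ 2 * ((m ^ p)⁻¹ * D ^ p) := by
            (clear * - hm1; field_simp)
        _ ≤ (1 / 500000 : ℝ) ^ q * ((m ^ p)⁻¹ * D ^ p) := mul_le_mul_of_nonneg_right h4 h5
    have hup : V F δ ξ 1 ^ q ≤ (A + 7) ^ 2 := by
      have h2 := hF.V_upper hA (c := ξ) h0 h1 one_pos le_rfl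
      have h3 : 0 ≤ V F δ ξ 1 := by
        have h4 := hF.V_lower (c := ξ) h0 h1 one_pos le_rfl
        refine le_trans ?_ h4
        (clear * -; positivity)
      calc V F δ ξ 1 ^ q ≤ (A + 7) ^ q := Real.rpow_le_rpow h3 h2 (by linarith only [hq])
        _ ≤ (A + 7) ^ (2 : ℝ) := Real.rpow_le_rpow_of_exponent_le (by linarith only [hA]) hq1
        _ = (A + 7) ^ 2 := Real.rpow_two _
    have h6 := (Finset.sum_le_sum hlow).trans ((h ξ).trans (mul_le_mul_of_nonneg_left hup hG))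
    have e4 : ∑ d ∈ Finset.range (N ^ J), chK κ c' N J d *
        (1 / (500000 ^ 2 * m ^ p) * ‖deriv F ⟨m⁻¹, ξ + (((d : ℝ) + 1 / 2) / m - 1 / 2)⟩‖ ^ p) =
        1 / (500000 ^ 2 * m ^ p) * ∑ d ∈ Finset.range (N ^ J), chK κ c' N J d *
          ‖deriv F ⟨m⁻¹, ξ + (((d : ℝ) + 1 / 2) / m - 1 / 2)⟩‖ ^ p := by
      rw [Finset.mul_sum]
      exact Finset.sum_congr rfl fun d _ => by ring
    rw [e4] at h6
    have hmp : 0 < m ^ p := Real.rpow_pos_of_pos hm0 p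
    rw [one_div, inv_mul_le_iff₀ (by (clear * - hm1; positivity))] at h6
    linarith only [h6]
  -- the integral
  have hcont : ∀ d : ℕ, Continuous fun ξ : ℝ =>
      ‖deriv F ⟨m⁻¹, ξ + (((d : ℝ) + 1 / 2) / m - 1 / 2)⟩‖ ^ p := fun d =>
    (Avg_cont hF hmi hp0).comp (continuous_id.add continuous_const)
  have hint : ∫ ξ in (0:ℝ)..(2 * π), ∑ d ∈ Finset.range (N ^ J), chK κ c' N J d *
      ‖deriv F ⟨m⁻¹, ξ + (((d : ℝ) + 1 / 2) / m - 1 / 2)⟩‖ ^ p =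
        (∑ d ∈ Finset.range (N ^ J), chK κ c' N J d) * I := by
    rw [intervalIntegral.integral_finsetSum fun d _ =>
      ((hcont d).const_mul _).intervalIntegrable _ _, Finset.sum_mul]
    refine Finset.sum_congr rfl fun d _ => ?_
    rw [intervalIntegral.integral_const_mul, Avg_shift hF hmi, hI]
  have hle : (∑ d ∈ Finset.range (N ^ J), chK κ c' N J d) * I ≤
      2 * π * (500000 ^ 2 * (A + 7) ^ 2 * G' * m ^ p) := by
    rw [← hint]
    have h7 : ∫ ξ in (0:ℝ)..(2 * π), ∑ d ∈ Finset.range (N ^ J), chK κ c' N J d *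
        ‖deriv F ⟨m⁻¹, ξ + (((d : ℝ) + 1 / 2) / m - 1 / 2)⟩‖ ^ p ≤
        ∫ _ in (0:ℝ)..(2 * π), (500000 ^ 2 * (A + 7) ^ 2 * G' * m ^ p) := by
      apply intervalIntegral.integral_mono_on (by positivity)
      · exact (continuous_finsetSum _ fun d _ => (hcont d).const_mul _).intervalIntegrable _ _
      · exact continuous_const.intervalIntegrable _ _
      · exact fun ξ _ => hpt ξ
    refine h7.trans (le_of_eq ?_)
    rw [intervalIntegral.integral_const, smul_eq_mul, sub_zero]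
  have hI0 : 0 ≤ I := by
    rw [hI]
    apply intervalIntegral.integral_nonneg (by positivity)
    intro ξ _
    (clear * -; positivity)
  have hsum : m * Real.exp (-(6 * κ * c' * J)) ≤ ∑ d ∈ Finset.range (N ^ J), chK κ c' N J d := by
    rw [sum_chK κ c' hN0 J]
    have hx0 : 0 ≤ 3 * κ * c' := by (clear * - hκ hc; positivity)
    have h8 := Avg_exp hx0 hc1
    have h9 : (N : ℝ) * Real.exp (-(2 * (3 * κ * c'))) ≤
        ∑ e ∈ Finset.range N, chi κ c' N e :=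
      (mul_le_mul_of_nonneg_left h8 (Nat.cast_nonneg N)).trans (sum_chi_ge hκ hκ1 hc hN)
    have h10 := pow_le_pow_left₀ (by positivity) h9 J
    refine le_trans (le_of_eq ?_) h10
    rw [mul_pow, ← Real.exp_nat_mul, hm]
    push_cast
    congr 2
    ring
  have h11 := (mul_le_mul_of_nonneg_right hsum hI0).trans hle
  have hE : Real.exp (-(6 * κ * c' * J)) * Real.exp (6 * κ * c' * J) = 1 := by
    rw [← Real.exp_add]
    simp
  have h12 : m ^ p = m ^ (p - 1) * m := by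
    rw [Real.rpow_sub hm0, Real.rpow_one]
    (clear * - hm1; field_simp)
  have h13 := mul_le_mul_of_nonneg_right h11 (Real.exp_pos (6 * κ * c' * J)).le
  rw [h12] at h13
  have h14 : m * I ≤ m * (2 * π * 500000 ^ 2 * (A + 7) ^ 2 *
      (G' * m ^ (p - 1) * Real.exp (6 * κ * c' * J))) := by
    calc m * I = m * Real.exp (-(6 * κ * c' * J)) * I * Real.exp (6 * κ * c' * J) := by
          rw [show m * Real.exp (-(6 * κ * c' * J)) * I * Real.exp (6 * κ * c' * J) =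
            m * I * (Real.exp (-(6 * κ * c' * J)) * Real.exp (6 * κ * c' * J)) by ring, hE,
            mul_one]
      _ ≤ _ := h13
      _ = _ := by ring
  exact le_of_mul_le_mul_left h14 hm0

theorem Fn.avg (hF : Fn F A) (hA : 0 ≤ A) {δ θ κ c' G : ℝ} {N : ℕ} (h0 : 0 < δ) (h1 : δ ≤ 1 / 4)
    (hθ : 0 ≤ θ) (hθ1 : θ ≤ 1) (hκ : 0 < κ) (hκ1 : κ ≤ 1 / 4) (hc : 0 ≤ c')
    (hc1 : 3 * κ * c' ≤ 1 / 2) (hN : 2 ≤ κ * N) (hG : 0 ≤ G)
    (h : ∀ c ℓ : ℝ, 0 < ℓ → ℓ ≤ 1 →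
      ∑ d ∈ Finset.range N, chi κ c' N d * V F δ (ch N c ℓ d) (ℓ / N) ^ (1 + θ) ≤
        G * V F δ c ℓ ^ (1 + θ)) (K : ℕ) :
    ∫ ξ in (0:ℝ)..(2 * π), ‖deriv F ⟨((N ^ K : ℕ) : ℝ)⁻¹, ξ⟩‖ ^ ((2 - δ) * (1 + θ)) ≤
      2 * π * 500000 ^ 2 * (A + 7) ^ 2 *
        (G ^ K * ((N ^ K : ℕ) : ℝ) ^ ((2 - δ) * (1 + θ) - 1) * Real.exp (6 * κ * c' * K)) := by
  have hN0 : 1 ≤ N := by
    rcases Nat.eq_zero_or_pos N with h | h
    · rw [h] at hN
      norm_num at hN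
    · exact h
  exact hF.avg_core hA h0 h1 (by linarith only [hθ]) (by (clear * - hθ1; linarith only [hθ1])) hκ hκ1 hc hc1 hN (pow_nonneg hG K)
    fun ξ => words (f := fun c ℓ => V F δ c ℓ ^ (1 + θ)) hN0 hG h K ξ 1 one_pos le_rfl

end Pool.Agent.Helper90.G2
end
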