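import Pool.Agent.Helper24.K6.G03
import Pool.Agent.Helper24.K6.G05
import Pool.Agent.Helper24.K6.G09

/- Helper24.K6w.H39.Area.Exterior -/
section
set_option autoImplicit false
open Complex MeasureTheory Metric Set Filter Topology
open scoped Real ENNReal ComplexConjugate NNReal

/-! Transfer from the exterior of the disc to the disc. -/

namespace Pool.Agent.Helper39.Area

noncomputable def toDisc (l : ℂ) (f : ℂ → ℂ) (ζ : ℂ) : ℂ := if ζ = 0 then l else f ζ⁻¹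

theorem inv_mem {ζ : ℂ} (hζ : ζ ∈ ball (0:ℂ) 1) (h0 : ζ ≠ 0) : 1 < ‖ζ⁻¹‖ := by
  rw [mem_ball, dist_zero_right] at hζ
  rw [norm_inv]
  exact (one_lt_inv₀ (norm_pos_iff.mpr h0)).mpr hζ

theorem isOpen_ext : IsOpen {z : ℂ | 1 < ‖z‖} := isOpen_lt continuous_const continuous_norm

theorem toDisc_diff {f : ℂ → ℂ} {l : ℂ} (hf : DifferentiableOn ℂ f {z : ℂ | 1 < ‖z‖})
    (hl : Tendsto f (Bornology.cobounded ℂ) (𝓝 l)) :
    DifferentiableOn ℂ (toDisc l f) (ball 0 1) := by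
  have hb : ball (0:ℂ) 1 ∈ 𝓝 (0:ℂ) := ball_mem_nhds 0 one_pos
  rw [← differentiableOn_compl_singleton_and_continuousAt_iff hb]
  constructor
  · rintro ζ ⟨hζ, h0⟩
    have h0' : ζ ≠ 0 := h0
    have h1 : DifferentiableAt ℂ (fun ζ : ℂ => f ζ⁻¹) ζ := by
      have h2 := hf.differentiableAt (isOpen_ext.mem_nhds (inv_mem hζ h0'))
      exact h2.comp ζ (differentiableAt_inv h0')
    have h2 : toDisc l f =ᶠ[𝓝 ζ] fun ζ : ℂ => f ζ⁻¹ := by
      filter_upwards [isOpen_ne.mem_nhds h0'] with ω hω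
      simp only [toDisc]
      rw [if_neg hω]
    exact (h1.congr_of_eventuallyEq h2).differentiableWithinAt
  · rw [continuousAt_iff_punctured_nhds]
    have h1 : Tendsto (fun ζ : ℂ => f ζ⁻¹) (𝓝[≠] 0) (𝓝 l) := hl.comp tendsto_inv₀_nhdsNE_zero
    have h2 : toDisc l f 0 = l := by simp [toDisc]
    rw [h2]
    apply h1.congr'
    filter_upwards [self_mem_nhdsWithin] with ω hω
    have hω' : ω ≠ 0 := hω
    simp only [toDisc]
    rw [if_neg hω']

theorem ext_data {ψ h : ℂ → ℂ} {b : ℂ}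
    (hψ : DifferentiableOn ℂ ψ {z : ℂ | 1 < ‖z‖})
    (hinj : InjOn ψ {z : ℂ | 1 < ‖z‖})
    (hb : Tendsto (fun z => ψ z - z) (Bornology.cobounded ℂ) (𝓝 b))
    (hexp : ∀ z : ℂ, 1 < ‖z‖ → Complex.exp (h z) = deriv ψ z) :
    Ext (toDisc b (fun z => ψ z - z)) ∧ ∀ ζ ∈ ball (0:ℂ) 1,
      Complex.exp (toDisc 0 h ζ) = 1 - ζ ^ 2 * deriv (toDisc b (fun z => ψ z - z)) ζ := by
  set β : ℂ → ℂ := toDisc b (fun z => ψ z - z) with hβ
  have hdiff : DifferentiableOn ℂ β (ball 0 1) := toDisc_diff (hψ.sub differentiableOn_id) hb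
  have hβ' : ∀ ζ : ℂ, ζ ≠ 0 → β ζ = ψ ζ⁻¹ - ζ⁻¹ := by
    intro ζ hζ
    simp only [hβ, toDisc]
    rw [if_neg hζ]
  have hE : ∀ ζ ∈ ball (0:ℂ) 1, Complex.exp (toDisc 0 h ζ) = 1 - ζ ^ 2 * deriv β ζ := by
    intro ζ hζ
    by_cases h0 : ζ = 0
    · subst h0; simp [toDisc]
    · have h1 := inv_mem hζ h0
      have h2 : toDisc 0 h ζ = h ζ⁻¹ := by
        simp only [toDisc]; rw [if_neg h0]
      rw [h2, hexp _ h1]
      have h3 := (hψ.differentiableAt (isOpen_ext.mem_nhds h1)).hasDerivAt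
      have h4 : HasDerivAt (fun ζ : ℂ => ψ ζ⁻¹) (deriv ψ ζ⁻¹ * -(ζ ^ 2)⁻¹) ζ :=
        h3.comp ζ (hasDerivAt_inv h0)
      have h5 : HasDerivAt (fun ζ : ℂ => ψ ζ⁻¹ - ζ⁻¹) (deriv ψ ζ⁻¹ * -(ζ ^ 2)⁻¹ - -(ζ ^ 2)⁻¹) ζ :=
        h4.sub (hasDerivAt_inv h0)
      have h6 : β =ᶠ[𝓝 ζ] fun ζ : ℂ => ψ ζ⁻¹ - ζ⁻¹ := by
        filter_upwards [isOpen_ne.mem_nhds h0] with ω hω
        exact hβ' ω hω
      rw [(h5.congr_of_eventuallyEq h6).deriv]
      field_simp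
      ring
  refine ⟨⟨hdiff, ?_, ?_⟩, hE⟩
  · intro ζ ω hζ hω hζ0 hω0 heq
    rw [hβ' ζ hζ0, hβ' ω hω0] at heq
    have h1 : ψ ζ⁻¹ = ψ ω⁻¹ := by linear_combination heq
    exact inv_injective (hinj (inv_mem hζ hζ0) (inv_mem hω hω0) h1)
  · intro ζ hζ h'
    rw [← hE ζ hζ] at h'
    exact Complex.exp_ne_zero _ h'

/-- Goluzin's inequality, in the coordinate `ζ = 1/z`. -/
theorem goluzin_disc {ψ h : ℂ → ℂ}
    (hψ : DifferentiableOn ℂ ψ {z : ℂ | 1 < ‖z‖})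
    (hinj : InjOn ψ {z : ℂ | 1 < ‖z‖})
    (hb : ∃ b : ℂ, Tendsto (fun z => ψ z - z) (Bornology.cobounded ℂ) (𝓝 b))
    (hh : DifferentiableOn ℂ h {z : ℂ | 1 < ‖z‖})
    (hexp : ∀ z : ℂ, 1 < ‖z‖ → Complex.exp (h z) = deriv ψ z)
    (hh0 : Tendsto h (Bornology.cobounded ℂ) (𝓝 0)) :
    DifferentiableOn ℂ (toDisc 0 h) (ball 0 1) ∧ ∀ ζ ∈ ball (0:ℂ) 1,
      ‖toDisc 0 h ζ‖ ≤ Real.log (1 / (1 - ‖ζ‖ ^ 2)) := by
  obtain ⟨b, hb⟩ := hb
  obtain ⟨h1, h2⟩ := ext_data hψ hinj hb hexp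
  have h3 : DifferentiableOn ℂ (toDisc 0 h) (ball 0 1) := toDisc_diff hh hh0
  refine ⟨h3, fun ζ hζ => ?_⟩
  have h4 := goluzin h1 h3.continuousOn (by simp [toDisc]) h2 hζ
  rwa [one_div, Real.log_inv]

/-- Goluzin's inequality. -/
theorem goluzin_ext {ψ h : ℂ → ℂ}
    (hψ : DifferentiableOn ℂ ψ {z : ℂ | 1 < ‖z‖})
    (hinj : InjOn ψ {z : ℂ | 1 < ‖z‖})
    (hb : ∃ b : ℂ, Tendsto (fun z => ψ z - z) (Bornology.cobounded ℂ) (𝓝 b))
    (hh : DifferentiableOn ℂ h {z : ℂ | 1 < ‖z‖})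
    (hexp : ∀ z : ℂ, 1 < ‖z‖ → Complex.exp (h z) = deriv ψ z)
    (hh0 : Tendsto h (Bornology.cobounded ℂ) (𝓝 0)) {z : ℂ} (hz : 1 < ‖z‖) :
    ‖h z‖ ≤ Real.log (‖z‖ ^ 2 / (‖z‖ ^ 2 - 1)) := by
  have hz0 : z ≠ 0 := by
    rintro rfl
    simp at hz
    (clear * - hz; linarith only [hz])
  have hmem : z⁻¹ ∈ ball (0:ℂ) 1 := by
    rw [mem_ball, dist_zero_right, norm_inv]
    exact inv_lt_one_of_one_lt₀ hz
  have h1 := (goluzin_disc hψ hinj hb hh hexp hh0).2 z⁻¹ hmem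
  have h2 : toDisc 0 h z⁻¹ = h z := by
    simp only [toDisc]
    rw [if_neg (inv_ne_zero hz0), inv_inv]
  rw [h2] at h1
  have h3 : 1 / (1 - ‖z⁻¹‖ ^ 2) = ‖z‖ ^ 2 / (‖z‖ ^ 2 - 1) := by
    rw [norm_inv]
    have : ‖z‖ ≠ 0 := norm_ne_zero_iff.mpr hz0
    have h4 : ‖z‖ ^ 2 - 1 ≠ 0 := by (clear * - hz; nlinarith only [hz])
    field_simp
  rwa [h3] at h1

/-- the circle integral in both coordinates -/
theorem integral_transfer (h : ℂ → ℂ) (a R : ℝ) (hR : 1 < R) :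
    (∫ θ in (0:ℝ)..(2 * π),
        Real.exp (a * ‖h ((R : ℂ) * Complex.exp ((θ : ℂ) * I))‖ ^ 2
          / Real.log (R ^ 2 / (R ^ 2 - 1)))) =
      ∫ θ in (0:ℝ)..(2 * π),
        Real.exp (a * ‖toDisc 0 h (((R⁻¹ : ℝ) : ℂ) * Complex.exp ((θ : ℂ) * I))‖ ^ 2
          / Real.log (1 / (1 - (R⁻¹) ^ 2))) := by
  have hR0 : R ≠ 0 := by (clear * - hR; linarith only [hR])
  have hL : Real.log (R ^ 2 / (R ^ 2 - 1)) = Real.log (1 / (1 - (R⁻¹) ^ 2)) := by
    congr 1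
    have h4 : R ^ 2 - 1 ≠ 0 := by nlinarith only [hR]
    field_simp
  set k : ℝ → ℝ := fun θ => Real.exp (a * ‖toDisc 0 h (((R⁻¹ : ℝ) : ℂ) * Complex.exp ((θ : ℂ) * I))‖ ^ 2
          / Real.log (1 / (1 - (R⁻¹) ^ 2))) with hk
  have h1 : ∀ θ : ℝ, Real.exp (a * ‖h ((R : ℂ) * Complex.exp ((θ : ℂ) * I))‖ ^ 2
          / Real.log (R ^ 2 / (R ^ 2 - 1))) = k (-θ) := by
    intro θ
    simp only [hk]
    rw [hL]
    have hne : ((R⁻¹ : ℝ) : ℂ) * Complex.exp (((-θ : ℝ) : ℂ) * I) ≠ 0 := by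
      apply mul_ne_zero _ (Complex.exp_ne_zero _)
      exact_mod_cast inv_ne_zero hR0
    have h2 : (((R⁻¹ : ℝ) : ℂ) * Complex.exp (((-θ : ℝ) : ℂ) * I))⁻¹ =
        (R : ℂ) * Complex.exp ((θ : ℂ) * I) := by
      rw [mul_inv, ← Complex.exp_neg]
      push_cast
      rw [inv_inv]
      congr 2
      ring
    simp only [toDisc]
    rw [if_neg hne, h2]
  simp_rw [h1]
  rw [intervalIntegral.integral_comp_neg (fun θ => k θ)]
  have hper : Function.Periodic k (2 * π) := by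
    intro θ
    simp only [hk]
    have : Complex.exp (((θ + 2 * π : ℝ) : ℂ) * I) = Complex.exp ((θ : ℂ) * I) := by
      push_cast
      rw [add_mul, Complex.exp_add, Complex.exp_two_pi_mul_I, mul_one]
    rw [this]
  have h2 := hper.intervalIntegral_add_eq (-(2 * π)) 0
  simp only [neg_add_cancel, zero_add] at h2
  rw [neg_zero]
  exact h2

end Pool.Agent.Helper39.Area
end

/- Helper24.K6w.H90.G2.SigF -/
section
/-!
# G2-SIGF: functions of the class Sigma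

`F u = ψ (e^u)`. `inj`: `e^u` is injective on strips of width `2π`. `area`: `F '' Bx c 1` is contained in
the disk of radius `2 e` around `b`, by `|ψ z - b| ≤ 2 |z|` (Bieberbach's `|a_2| ≤ 2` for
`ζ ↦ r / (ψ (r / ζ) - ψ z)`, `r = |z|`). Second part: Cauchy's estimate in the disk of radius `|z| / 2`.
-/

set_option autoImplicit false

namespace Pool.Agent.Helper90.G2

open MeasureTheory Set
open scoped Real

open Pool.Agent.Helper22.Marshall (coeff coeff_zero coeff_one coeff_mul coeff_congr) in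
open Pool.Agent.Helper39.Area (toDisc toDisc_diff) in
/-- growth in the class Sigma -/
theorem sig_grow {ψ : ℂ → ℂ} {b : ℂ} (hψ : DifferentiableOn ℂ ψ {z : ℂ | 1 < ‖z‖})
    (hinj : Set.InjOn ψ {z : ℂ | 1 < ‖z‖})
    (hb : Filter.Tendsto (fun z => ψ z - z) (Bornology.cobounded ℂ) (nhds b))
    {z₀ : ℂ} (hz : 1 < ‖z₀‖) : ‖ψ z₀ - b‖ ≤ 2 * ‖z₀‖ := by
  obtain ⟨r, hr⟩ : ∃ r : ℝ, r = ‖z₀‖ := ⟨_, rfl⟩
  obtain ⟨w, hw⟩ : ∃ w : ℂ, w = ψ z₀ := ⟨_, rfl⟩
  rw [← hr] at hz ⊢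
  rw [← hw]
  have hr0 : 0 < r := by (clear * - hz; linarith only [hz])
  have hrc : (r : ℂ) ≠ 0 := by exact_mod_cast hr0.ne'
  have hz₀ : z₀ ∈ {z : ℂ | 1 < ‖z‖} := by
    show 1 < ‖z₀‖
    rw [← hr]; exact hz
  set β : ℂ → ℂ := toDisc b (fun z => ψ z - z) with hβ
  have hβd : DifferentiableOn ℂ β (Metric.ball 0 1) := toDisc_diff (hψ.sub differentiableOn_id) hb
  have hβ0 : β 0 = b := by simp [hβ, toDisc]
  have hβ' : ∀ ζ : ℂ, ζ ≠ 0 → β ζ = ψ ζ⁻¹ - ζ⁻¹ := by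
    intro ζ hζ
    simp only [hβ, toDisc]
    rw [if_neg hζ]
  clear_value β
  have hm : MapsTo (fun ζ : ℂ => ζ / r) (Metric.ball 0 1) (Metric.ball 0 1) := by
    intro ζ hζ
    rw [mem_ball_zero_iff] at hζ ⊢
    rw [norm_div, Complex.norm_real, Real.norm_of_nonneg hr0.le, div_lt_one hr0]
    (clear * - hz hζ; linarith)
  obtain ⟨D, hD⟩ : ∃ D : ℂ → ℂ, ∀ ζ, D ζ = 1 + ζ / r * (β (ζ / r) - w) := ⟨_, fun _ => rfl⟩
  have hDf : D = fun ζ => 1 + ζ / r * (β (ζ / r) - w) := funext hD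
  have hDd : DifferentiableOn ℂ D (Metric.ball 0 1) := by
    rw [hDf]
    apply DifferentiableOn.const_add
    apply DifferentiableOn.mul
    · fun_prop
    · exact (hβd.comp (by fun_prop) hm).sub_const w
  have hD0 : D 0 = 1 := by rw [hD]; simp
  have hinv : ∀ ζ ∈ Metric.ball (0:ℂ) 1, ζ ≠ 0 → r < ‖(ζ / r)⁻¹‖ := by
    intro ζ hζ h0
    rw [mem_ball_zero_iff] at hζ
    rw [norm_inv, norm_div, Complex.norm_real, Real.norm_of_nonneg hr0.le, inv_div,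
      lt_div_iff₀ (norm_pos_iff.mpr h0)]
    (clear * - hr0 hζ; nlinarith only [hr0, hζ])
  have hDe : ∀ ζ : ℂ, ζ ≠ 0 → D ζ = ζ / r * (ψ (ζ / r)⁻¹ - w) := by
    intro ζ h0
    have h1 : ζ / r ≠ 0 := div_ne_zero h0 hrc
    rw [hD, hβ' _ h1]
    have h2 : ζ / r * (ζ / r)⁻¹ = 1 := mul_inv_cancel₀ h1
    linear_combination -h2
  have hDne : ∀ ζ ∈ Metric.ball (0:ℂ) 1, D ζ ≠ 0 := by
    intro ζ hζ
    by_cases h0 : ζ = 0
    · rw [h0, hD0]; exact one_ne_zero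
    · rw [hDe ζ h0]
      refine mul_ne_zero (div_ne_zero h0 hrc) ?_
      intro h
      have h1 := hinv ζ hζ h0
      have h2 : (ζ / r)⁻¹ = z₀ := by
        apply hinj (show 1 < ‖(ζ / r)⁻¹‖ by (clear * - hz h1; linarith only [hz, h1])) hz₀
        rw [← hw]
        exact sub_eq_zero.mp h
      rw [h2, ← hr] at h1
      exact lt_irrefl _ h1
  obtain ⟨f, hf⟩ : ∃ f : ℂ → ℂ, f = fun ζ => ζ / D ζ := ⟨_, rfl⟩
  have hb0 : Metric.ball (0:ℂ) 1 ∈ nhds (0:ℂ) := Metric.ball_mem_nhds 0 one_pos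
  have hfd : DifferentiableOn ℂ f (Metric.ball 0 1) := by
    rw [hf]
    exact differentiableOn_id.div hDd hDne
  have hf0 : f 0 = 0 := by rw [hf]; simp
  have hDa := (hDd.differentiableAt hb0).hasDerivAt
  have hf1 : deriv f 0 = 1 := by
    have h1 : HasDerivAt f ((1 * D 0 - 0 * deriv D 0) / D 0 ^ 2) 0 := by
      rw [hf]
      exact (hasDerivAt_id (0:ℂ)).div hDa (by rw [hD0]; exact one_ne_zero)
    rw [h1.deriv, hD0]
    simp
  have hfi : InjOn f (Metric.ball 0 1) := by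
    intro ζ hζ ω hω h
    rw [hf] at h
    simp only at h
    rw [div_eq_div_iff (hDne ζ hζ) (hDne ω hω)] at h
    by_cases h0 : ζ = 0
    · rw [h0, zero_mul, hD0, mul_one] at h
      rw [h0, h]
    by_cases h1 : ω = 0
    · rw [h1, zero_mul, hD0, mul_one] at h
      exact absurd h h0
    rw [hDe ζ h0, hDe ω h1] at h
    have h2 : ζ * ω / r * (ψ (ω / r)⁻¹ - ψ (ζ / r)⁻¹) = 0 := by linear_combination h
    have h3 : ζ * ω / r ≠ 0 := div_ne_zero (mul_ne_zero h0 h1) hrc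
    have h4 := (mul_eq_zero.mp h2).resolve_left h3
    have h5 : (ω / r)⁻¹ = (ζ / r)⁻¹ :=
      hinj (show 1 < ‖(ω / r)⁻¹‖ from hz.trans (hinv ω hω h1))
        (show 1 < ‖(ζ / r)⁻¹‖ from hz.trans (hinv ζ hζ h0)) (sub_eq_zero.mp h4)
    have h6 := inv_injective h5
    field_simp at h6
    exact h6.symm
  have hD1 : deriv D 0 = (b - w) / r := by
    have h0r : (fun ζ : ℂ => ζ / r) 0 = 0 := by simp
    have h1 : HasDerivAt (fun ζ : ℂ => ζ / (r:ℂ)) (1 / r) 0 := (hasDerivAt_id (0:ℂ)).div_const _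
    have h2 : HasDerivAt β (deriv β 0) ((fun ζ : ℂ => ζ / (r:ℂ)) 0) := by
      rw [h0r]
      exact (hβd.differentiableAt hb0).hasDerivAt
    have h3 : HasDerivAt (fun ζ : ℂ => β (ζ / r)) (deriv β 0 * (1 / r)) 0 := h2.comp 0 h1
    have h4 := ((h1.mul (h3.sub_const w)).const_add 1).deriv
    rw [hDf]
    rw [show (fun ζ : ℂ => 1 + ζ / (r:ℂ) * (β (ζ / r) - w)) =
      (fun ζ : ℂ => 1 + ((fun ζ : ℂ => ζ / (r:ℂ)) * fun ζ : ℂ => (β (ζ / r) - w)) ζ) from rfl, h4]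
    simp only [zero_div, hβ0]
    ring
  have h2 := Pool.Agent.Helper84.EK.second_le_two hfd hfi hf0 hf1
  have hprod : (fun ζ => f ζ * D ζ) =ᶠ[nhds 0] fun ζ => ζ := by
    filter_upwards [hb0] with ζ hζ
    rw [hf]
    exact div_mul_cancel₀ _ (hDne ζ hζ)
  have hc : coeff f 2 = -((b - w) / r) := by
    have h3 := coeff_congr hprod 2
    rw [coeff_mul (hfd.analyticAt hb0) (hDd.analyticAt hb0)] at h3
    simp only [Finset.sum_range_succ, Finset.sum_range_zero, zero_add, Nat.sub_zero, Nat.sub_self,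
      show (2 - 1 : ℕ) = 1 from rfl] at h3
    rw [coeff_zero, hf0, coeff_one, hf1, coeff_one, hD1, coeff_zero, hD0] at h3
    have h4 : coeff (fun ζ : ℂ => ζ) 2 = 0 := by
      simp [coeff, iteratedDeriv_succ]
    rw [h4] at h3
    linear_combination h3
  rw [hc, norm_neg, norm_div, Complex.norm_real, Real.norm_of_nonneg hr0.le, div_le_iff₀ hr0] at h2
  rw [norm_sub_rev]
  exact h2

theorem sig_fn : ∃ A : ℝ, 0 ≤ A ∧ ∀ ψ : ℂ → ℂ,
    DifferentiableOn ℂ ψ {z : ℂ | 1 < ‖z‖} → Set.InjOn ψ {z : ℂ | 1 < ‖z‖} →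
    (∃ b : ℂ, Filter.Tendsto (fun z => ψ z - z) (Bornology.cobounded ℂ) (nhds b)) →
    Fn (fun u => ψ (Complex.exp u)) A ∧ ∀ z : ℂ, Real.exp 1 ≤ ‖z‖ → ‖deriv ψ z‖ ≤ A := by
  refine ⟨144, by norm_num, ?_⟩
  rintro ψ hψ hinj ⟨b, hb⟩
  have he : Real.exp 1 < 3 := lt_trans Real.exp_one_lt_d9 (by norm_num)
  have he2 : 2 < Real.exp 1 := lt_trans (by norm_num) Real.exp_one_gt_d9
  have hm : ∀ u : ℂ, 0 < u.re → 1 < ‖Complex.exp u‖ := by
    intro u hu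
    rw [Complex.norm_exp]
    exact Real.one_lt_exp_iff.mpr hu
  refine ⟨⟨?_, ?_, ?_, ?_⟩, ?_⟩
  · exact hψ.comp (by fun_prop) (fun u hu => hm u hu)
  · intro c u hu v hv h
    have h1 : Complex.exp u = Complex.exp v := hinj (hm u hu.1) (hm v hv.1) h
    rw [Complex.exp_eq_exp_iff_exists_int] at h1
    obtain ⟨n, hn⟩ := h1
    have h2 : u.im = v.im + n * (2 * π) := by
      rw [hn]
      simp
    have h3 := abs_lt.mp hu.2
    have h4 := abs_lt.mp hv.2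
    have h5 : |(n:ℝ)| < 1 := by
      rw [abs_lt]
      constructor <;> (clear * - h2 h3 h4; nlinarith only [h2, h3, h4])
    have h6 : n = 0 := by
      have : |n| < 1 := by exact_mod_cast h5
      exact Int.abs_lt_one_iff.mp this
    rw [hn, h6]
    simp
  · intro u _
    show ψ _ = ψ _
    congr 1
    rw [Complex.exp_add, Complex.exp_two_pi_mul_I, mul_one]
  · intro c
    have h1 : (fun u => ψ (Complex.exp u)) '' Bx c 1 ⊆ Metric.closedBall b (2 * Real.exp 1) := by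
      rintro _ ⟨u, hu, rfl⟩
      rw [mem_closedBall_iff_norm]
      refine (sig_grow hψ hinj hb (hm u hu.1)).trans ?_
      rw [Complex.norm_exp]
      have := Real.exp_le_exp.mpr hu.2.1.le
      linarith only [this]
    refine (measure_mono h1).trans ?_
    rw [Complex.volume_closedBall]
    rw [← ENNReal.ofReal_pow (by positivity), ← ENNReal.ofReal_coe_nnreal, NNReal.coe_real_pi,
      ← ENNReal.ofReal_mul (by positivity)]
    apply ENNReal.ofReal_le_ofReal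
    have h2 : (2 * Real.exp 1) ^ 2 ≤ 36 := by (clear * - he he2; nlinarith only [he, he2])
    have h3 := mul_le_mul h2 Real.pi_le_four Real.pi_pos.le (by norm_num)
    linarith
  · intro z hz
    have hz0 : 0 < ‖z‖ := by linarith only [he2, hz]
    have hS : ∀ v ∈ Metric.closedBall z (‖z‖ / 2), ‖z‖ / 2 ≤ ‖v‖ ∧ ‖v‖ ≤ 3 / 2 * ‖z‖ := by
      intro v hv
      rw [mem_closedBall_iff_norm] at hv
      constructor
      · have := norm_sub_norm_le z v
        rw [norm_sub_rev] at this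
        (clear * - hv this; linarith)
      · have := norm_sub_norm_le v z
        linarith
    have hsub : Metric.closedBall z (‖z‖ / 2) ⊆ {v : ℂ | 1 < ‖v‖} := by
      intro v hv
      have := (hS v hv).1
      show 1 < ‖v‖
      linarith only [he2, hz, this]
    have hd : DiffContOnCl ℂ (fun v => ψ v - b) (Metric.ball z (‖z‖ / 2)) := by
      apply DifferentiableOn.diffContOnCl
      rw [closure_ball z (by positivity)]
      exact (hψ.mono hsub).sub_const b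
    have h1 := Complex.norm_deriv_le_of_forall_mem_sphere_norm_le (c := z) (R := ‖z‖ / 2)
      (C := 3 * ‖z‖) (by positivity) hd (by
        intro v hv
        have h2 := hS v (Metric.sphere_subset_closedBall hv)
        refine (sig_grow hψ hinj hb (hsub (Metric.sphere_subset_closedBall hv))).trans ?_
        linarith only [h2])
    have h2 : deriv (fun v => ψ v - b) z = deriv ψ z := by
      rw [deriv_sub_const]
    rw [h2] at h1
    refine h1.trans ?_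
    rw [div_le_iff₀ (by positivity)]
    (clear * - hz0; linarith only [hz0])

end Pool.Agent.Helper90.G2
end
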