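import Mathlib
import Pool.Agent.Helper24.K6.G10
import Pool.Agent.Helper24.K6.G11

/- Helper24.K6w.H26.G4.Seg -/
section
/-!
# G4-SEG: the segment between two reference points

`v = vt c ℓ = (2 ℓ, c)`, `v' = vt c' (ℓ / N) = (2 ℓ / N, c')`, `c' = ch N c ℓ d`, `|c' - c| ≤ ℓ / 2`. On the
segment: `2 ℓ / N ≤ re w ≤ 2 ℓ`, `|im w - c| ≤ ℓ / 2`; `|v' - v| ≤ 21/10 ℓ`. For `u` in the child box
`re u < ℓ / N`, so `|w - u| ≥ ℓ / N`. `step_le`: `lip_v` with `ρ = ℓ / N`: `4 N · 2.1 ≤ 10 N`.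
`disp_le`: `lip_diag` with `ρ = 2 ℓ / N`: `|Λ w w - Λ v v| ≤ 2 N · 2.1`, so `|F' w| ≤ e^(4.2 N) |F' v|`
(`Br.diag`, norm of `exp`), integrate along the segment (mean value inequality), `rr F v = 2 ℓ |F' v|`.
`KN N = e^(40 N)`, `N ≥ 2`.
-/

set_option autoImplicit false

namespace Pool.Agent.Helper26.G4

open MeasureTheory Set
open scoped Real
open Pool.Agent.Helper90.G2 (Bx Wn Fn ar ch Cen chi)

theorem seg_ch {N d : ℕ} (hN : 2 ≤ N) (hd : d < N) {c ℓ : ℝ} (hℓ : 0 < ℓ) :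
    |ch N c ℓ d - c| ≤ ℓ / 2 := by
  have hN' : (0 : ℝ) < N := by
    have : (2 : ℝ) ≤ N := by exact_mod_cast hN
    linarith only [this]
  have hd' : (d : ℝ) + 1 ≤ N := by exact_mod_cast hd
  have h1 : 0 ≤ ((d : ℝ) + 1 / 2) / N := by (clear * - hN; positivity)
  have h2 : ((d : ℝ) + 1 / 2) / N ≤ 1 := by
    rw [div_le_one hN']
    (clear * - hd'; linarith only [hd'])
  have h3 : ch N c ℓ d - c = (((d : ℝ) + 1 / 2) / N - 1 / 2) * ℓ := by
    unfold ch
    ring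
  rw [h3, abs_mul, abs_of_pos hℓ]
  have h4 : |((d : ℝ) + 1 / 2) / N - 1 / 2| ≤ 1 / 2 := by
    rw [abs_le]
    constructor <;> (clear * - h1 h2; linarith only [h1, h2])
  (clear * - hℓ h4; nlinarith only [hℓ, h4])

theorem seg_div {N : ℕ} (hN : 2 ≤ N) {ℓ : ℝ} (hℓ : 0 < ℓ) : 0 < ℓ / N ∧ ℓ / N ≤ ℓ / 2 := by
  have hN' : (2 : ℝ) ≤ N := by exact_mod_cast hN
  refine ⟨by (clear * - hℓ hN; positivity), ?_⟩
  exact div_le_div_of_nonneg_left hℓ.le (by norm_num) hN'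

theorem seg_mem {N d : ℕ} (hN : 2 ≤ N) (hd : d < N) {c ℓ : ℝ} (hℓ : 0 < ℓ) {w : ℂ}
    (hw : w ∈ segment ℝ (vt c ℓ) (vt (ch N c ℓ d) (ℓ / N))) :
    2 * (ℓ / N) ≤ w.re ∧ w.re ≤ 2 * ℓ ∧ |w.im - c| ≤ ℓ / 2 ∧
      ‖vt (ch N c ℓ d) (ℓ / N) - vt c ℓ‖ ≤ 21 / 10 * ℓ := by
  have hc := seg_ch hN hd (c := c) hℓ
  obtain ⟨hp, hle⟩ := seg_div hN hℓ
  obtain ⟨a, b, ha, hb, hab, rfl⟩ := hw
  have hre : (a • vt c ℓ + b • vt (ch N c ℓ d) (ℓ / N)).re = a * (2 * ℓ) + b * (2 * (ℓ / N)) := by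
    simp [vt]
  have him : (a • vt c ℓ + b • vt (ch N c ℓ d) (ℓ / N)).im - c = b * (ch N c ℓ d - c) := by
    have h1 : (a • vt c ℓ + b • vt (ch N c ℓ d) (ℓ / N)).im = a * c + b * ch N c ℓ d := by
      simp [vt]
    rw [h1]
    have h2 : a = 1 - b := by (clear * - hab; linarith only [hab])
    rw [h2]
    ring
  have hb1 : b ≤ 1 := by linarith only [ha, hab]
  have ha1 : a = 1 - b := by linarith only [hab]
  refine ⟨?_, ?_, ?_, ?_⟩
  · rw [hre, ha1]
    (clear * - hp ha ha1 hle; nlinarith only [hp, hle, ha, ha1])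
  · rw [hre, ha1]
    (clear * - hp hb hle; nlinarith only [hp, hle, hb])
  · rw [him, abs_mul, abs_of_nonneg hb]
    (clear * - hc hb hp ha hab hle; nlinarith only [hc, hp, hle, ha, hb, hab])
  · have h3 : ‖vt (ch N c ℓ d) (ℓ / N) - vt c ℓ‖ ^ 2 ≤ (21 / 10 * ℓ) ^ 2 := by
      rw [Complex.sq_norm, Complex.normSq_apply]
      simp only [vt, Complex.sub_re, Complex.sub_im]
      have h4 := abs_le.1 hc
      have h5 : (ch N c ℓ d - c) * (ch N c ℓ d - c) ≤ ℓ / 2 * (ℓ / 2) := by (clear * - h4; nlinarith only [h4])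
      have h6 : (2 * (ℓ / N) - 2 * ℓ) * (2 * (ℓ / N) - 2 * ℓ) ≤ 2 * ℓ * (2 * ℓ) := by nlinarith only [hp, hle]
      nlinarith only [h5, h6]
    exact (pow_le_pow_iff_left₀ (norm_nonneg _) (by positivity) two_ne_zero).1 h3

/-- distance of a point of a segment from the first end point -/
theorem seg_norm {p p' w : ℂ} (hw : w ∈ segment ℝ p p') : ‖w - p‖ ≤ ‖p' - p‖ := by
  obtain ⟨a, b, ha, hb, hab, rfl⟩ := hw
  have h1 : a • p + b • p' - p = b • (p' - p) := by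
    have h2 : a = 1 - b := by (clear * - hab; linarith only [hab])
    rw [h2, sub_smul, one_smul, smul_sub]
    abel
  rw [h1, norm_smul, Real.norm_of_nonneg hb]
  have hb1 : b ≤ 1 := by linarith
  (clear * - hb1; nlinarith only [norm_nonneg (p' - p), hb1])

theorem seg_sub {p p' w x : ℂ} (hw : w ∈ segment ℝ p p') (hx : x ∈ segment ℝ p w) :
    x ∈ segment ℝ p p' :=
  (convex_segment p p').segment_subset (left_mem_segment ℝ p p') hw hx

/-- moving from the box to the child -/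
theorem step_le {F : ℂ → ℂ} {A : ℝ} (hF : Fn F A) {Λ : ℂ → ℂ → ℂ} (hΛ : Br F Λ) {N d : ℕ}
    (hN : 2 ≤ N) (hd : d < N) {c ℓ : ℝ} (hℓ : 0 < ℓ) (hℓ1 : ℓ ≤ 1) {u : ℂ}
    (hu : u ∈ Bx (ch N c ℓ d) (ℓ / N)) {w : ℂ}
    (hw : w ∈ segment ℝ (vt c ℓ) (vt (ch N c ℓ d) (ℓ / N))) :
    ‖Lb Λ w u - Lb Λ (vt c ℓ) u‖ ≤ 10 * N := by
  obtain ⟨hp, hle⟩ := seg_div hN hℓ
  have hc := seg_ch hN hd (c := c) hℓ
  have hN' : (2 : ℝ) ≤ N := by exact_mod_cast hN
  obtain ⟨hu0, hu1, hu2⟩ := hu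
  have hpi := Real.pi_gt_three
  have h1 := lip_v hF hΛ (v := vt c ℓ) (v' := w) (u := u) hp (by linarith only [hℓ1, hle, hpi]) hu0 (by
    intro x hx
    obtain ⟨h3, h4, h5, _⟩ := seg_mem hN hd hℓ (seg_sub hw hx)
    refine ⟨by (clear * - hu0 hu1 h3; linarith only [hu0, hu1, h3]), by linarith only [hu0, hu1, h3], ?_, ?_⟩
    · have h6 := Complex.re_le_norm (x - u)
      rw [Complex.sub_re] at h6
      (clear * - hu1 h3 h6; linarith only [hu1, h3, h6])
    · have h6 : x.im - u.im = (x.im - c) - (ch N c ℓ d - c) - (u.im - ch N c ℓ d) := by ring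
      have h7 := abs_le.1 h5
      have h8 := abs_le.1 hc
      have h9 := abs_lt.1 hu2
      rw [abs_le, h6]
      constructor <;> (clear * - hℓ1 hpi h3 h4 h7 h8 h9; linarith only [hℓ1, hpi, h3, h4, h7, h8, h9]))
  have h2 := (seg_norm hw).trans (seg_mem hN hd hℓ hw).2.2.2
  calc ‖Lb Λ w u - Lb Λ (vt c ℓ) u‖ ≤ 4 / (ℓ / N) * ‖w - vt c ℓ‖ := h1
    _ ≤ 4 / (ℓ / N) * (21 / 10 * ℓ) := mul_le_mul_of_nonneg_left h2 (by (clear * - hℓ hN; positivity))
    _ = 84 / 10 * N := by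
        field_simp
        ring
    _ ≤ 10 * N := by linarith only []

/-- the diagonal along the segment -/
theorem seg_diag {F : ℂ → ℂ} {A : ℝ} (hF : Fn F A) {Λ : ℂ → ℂ → ℂ} (hΛ : Br F Λ) {N d : ℕ}
    (hN : 2 ≤ N) (hd : d < N) {c ℓ : ℝ} (hℓ : 0 < ℓ) (hℓ1 : ℓ ≤ 1) {w : ℂ}
    (hw : w ∈ segment ℝ (vt c ℓ) (vt (ch N c ℓ d) (ℓ / N))) :
    ‖Λ w w - Λ (vt c ℓ) (vt c ℓ)‖ ≤ 42 / 10 * N := by
  obtain ⟨hp, hle⟩ := seg_div hN hℓ
  have hN' : (2 : ℝ) ≤ N := by exact_mod_cast hN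
  have hpi := Real.pi_gt_three
  have h1 := lip_diag hF hΛ (v := vt c ℓ) (v' := w) (ρ := 2 * (ℓ / N)) (by (clear * - hℓ hN; positivity))
    (by (clear * - hℓ1 hle hpi; linarith only [hℓ1, hle, hpi])) (fun x hx => (seg_mem hN hd hℓ (seg_sub hw hx)).1)
  have h2 := (seg_norm hw).trans (seg_mem hN hd hℓ hw).2.2.2
  calc ‖Λ w w - Λ (vt c ℓ) (vt c ℓ)‖ ≤ 4 / (2 * (ℓ / N)) * ‖w - vt c ℓ‖ := h1
    _ ≤ 4 / (2 * (ℓ / N)) * (21 / 10 * ℓ) := mul_le_mul_of_nonneg_left h2 (by (clear * - hℓ hN; positivity))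
    _ = 42 / 10 * N := by
        field_simp
        ring

theorem seg_der {F : ℂ → ℂ} {Λ : ℂ → ℂ → ℂ} (hΛ : Br F Λ) {v w : ℂ} (hv : 0 < v.re)
    (hw : 0 < w.re) {B : ℝ} (h : ‖Λ w w - Λ v v‖ ≤ B) :
    ‖deriv F w‖ ≤ Real.exp B * ‖deriv F v‖ := by
  have h1 : deriv F w = Complex.exp (Λ w w - Λ v v) * deriv F v := by
    rw [← hΛ.diag w hw, ← hΛ.diag v hv, ← Complex.exp_add, sub_add_cancel]
  rw [h1, norm_mul, Complex.norm_exp]
  refine mul_le_mul_of_nonneg_right (Real.exp_le_exp.2 ?_) (norm_nonneg _)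
  exact (Complex.re_le_norm _).trans h

theorem disp_le {F : ℂ → ℂ} {A : ℝ} (hF : Fn F A) {Λ : ℂ → ℂ → ℂ} (hΛ : Br F Λ) {N d : ℕ}
    (hN : 2 ≤ N) (hd : d < N) {c ℓ : ℝ} (hℓ : 0 < ℓ) (hℓ1 : ℓ ≤ 1) {w : ℂ}
    (hw : w ∈ segment ℝ (vt c ℓ) (vt (ch N c ℓ d) (ℓ / N))) :
    ‖F w - F (vt c ℓ)‖ ≤ KN N * rr F (vt c ℓ) := by
  obtain ⟨hp, hle⟩ := seg_div hN hℓ
  have hN' : (2 : ℝ) ≤ N := by exact_mod_cast hN
  have hv : 0 < (vt c ℓ).re := by
    show 0 < 2 * ℓ
    positivity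
  have h2 := (seg_norm hw).trans (seg_mem hN hd hℓ hw).2.2.2
  have h1 := basic_seg (f := F) (f' := deriv F) (p := vt c ℓ) (p' := w)
    (C := Real.exp (42 / 10 * N) * ‖deriv F (vt c ℓ)‖)
    (fun x hx => basic_hasDeriv hF (by
      have h3 := (seg_mem hN hd hℓ (seg_sub hw hx)).1
      linarith only [hp, h3]))
    (fun x hx => seg_der hΛ hv (by
      have h3 := (seg_mem hN hd hℓ (seg_sub hw hx)).1
      (clear * - hp h3; linarith only [hp, h3])) (seg_diag hF hΛ hN hd hℓ hℓ1 (seg_sub hw hx)))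
  have h3 : Real.exp (42 / 10 * N) * 2 ≤ KN N := by
    have h4 : (2 : ℝ) ≤ Real.exp (358 / 10 * N) := by
      have h5 := Real.add_one_le_exp (358 / 10 * (N : ℝ))
      (clear * - hN' h5; linarith only [hN', h5])
    have h6 : KN N = Real.exp (42 / 10 * N) * Real.exp (358 / 10 * N) := by
      rw [KN, ← Real.exp_add]
      congr 1
      ring
    rw [h6]
    exact mul_le_mul_of_nonneg_left h4 (Real.exp_pos _).le
  calc ‖F w - F (vt c ℓ)‖ ≤ Real.exp (42 / 10 * N) * ‖deriv F (vt c ℓ)‖ * ‖w - vt c ℓ‖ := h1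
    _ ≤ Real.exp (42 / 10 * N) * ‖deriv F (vt c ℓ)‖ * (21 / 10 * ℓ) :=
        mul_le_mul_of_nonneg_left h2 (by (clear * -; positivity))
    _ ≤ Real.exp (42 / 10 * N) * ‖deriv F (vt c ℓ)‖ * (4 * ℓ) :=
        mul_le_mul_of_nonneg_left (by (clear * - hp hle; linarith only [hp, hle])) (by positivity)
    _ = Real.exp (42 / 10 * N) * 2 * (2 * ℓ * ‖deriv F (vt c ℓ)‖) := by ring
    _ ≤ KN N * (2 * ℓ * ‖deriv F (vt c ℓ)‖) := mul_le_mul_of_nonneg_right h3 (by (clear * - hℓ; positivity))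
    _ = KN N * rr F (vt c ℓ) := rfl

/-- the radii of the box and of the child: `rr F v ≤ N e^(4.2 N) rr F v'` -/
theorem rr_step {F : ℂ → ℂ} {A : ℝ} (hF : Fn F A) {Λ : ℂ → ℂ → ℂ} (hΛ : Br F Λ) {N d : ℕ}
    (hN : 2 ≤ N) (hd : d < N) {c ℓ : ℝ} (hℓ : 0 < ℓ) (hℓ1 : ℓ ≤ 1) :
    rr F (vt c ℓ) ≤ Real.exp (6 * N) * rr F (vt (ch N c ℓ d) (ℓ / N)) := by
  obtain ⟨hp, hle⟩ := seg_div hN hℓ
  have hN' : (2 : ℝ) ≤ N := by exact_mod_cast hN
  have hv : 0 < (vt c ℓ).re := by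
    show 0 < 2 * ℓ
    positivity
  have hv' : 0 < (vt (ch N c ℓ d) (ℓ / N)).re := by
    show 0 < 2 * (ℓ / N)
    (clear * - hℓ hN; positivity)
  have h1 := seg_diag hF hΛ hN hd hℓ hℓ1 (right_mem_segment ℝ (vt c ℓ) (vt (ch N c ℓ d) (ℓ / N)))
  rw [norm_sub_rev] at h1
  have h2 := seg_der hΛ hv' hv h1
  have h3 : (N : ℝ) * Real.exp (42 / 10 * N) ≤ Real.exp (6 * N) := by
    have h4 : (N : ℝ) ≤ Real.exp (18 / 10 * N) := by
      have h5 := Real.add_one_le_exp (18 / 10 * (N : ℝ))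
      (clear * - h5; linarith only [h5])
    have h6 : Real.exp (6 * N) = Real.exp (18 / 10 * N) * Real.exp (42 / 10 * N) := by
      rw [← Real.exp_add]
      congr 1
      ring
    rw [h6]
    exact mul_le_mul_of_nonneg_right h4 (Real.exp_pos _).le
  have h7 : rr F (vt c ℓ) = N * (2 * (ℓ / N) * ‖deriv F (vt c ℓ)‖) := by
    show 2 * ℓ * ‖deriv F (vt c ℓ)‖ = N * (2 * (ℓ / N) * ‖deriv F (vt c ℓ)‖)
    field_simp
  rw [h7]
  calc (N : ℝ) * (2 * (ℓ / N) * ‖deriv F (vt c ℓ)‖)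
      ≤ N * (2 * (ℓ / N) * (Real.exp (42 / 10 * N) *
          ‖deriv F (vt (ch N c ℓ d) (ℓ / N))‖)) := by
        refine mul_le_mul_of_nonneg_left ?_ (by positivity)
        exact mul_le_mul_of_nonneg_left h2 (by positivity)
    _ = N * Real.exp (42 / 10 * N) * rr F (vt (ch N c ℓ d) (ℓ / N)) := by
        show _ = N * Real.exp (42 / 10 * N) * (2 * (ℓ / N) *
          ‖deriv F (vt (ch N c ℓ d) (ℓ / N))‖)
        ring
    _ ≤ Real.exp (6 * N) * rr F (vt (ch N c ℓ d) (ℓ / N)) := by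
        refine mul_le_mul_of_nonneg_right h3 ?_
        exact mul_nonneg hv'.le (norm_nonneg _)

theorem rr_pos {F : ℂ → ℂ} {A : ℝ} (hF : Fn F A) {v : ℂ} (hv : 0 < v.re) : 0 < rr F v :=
  mul_pos hv (norm_pos_iff.2 (Pool.Agent.Helper90.G2.Fn.dne hF hv))

end Pool.Agent.Helper26.G4
end

/- Helper24.K6w.H26.G4.Up -/
section
/-!
# G4-UP: the weight of a point which is close and does not wind much

`ζ = Lb Λ v' u - (log (re v) + Λ v v)`. `re ζ = log (|F v' - F u| / rr F v)` (`Lb_exp`, `Br.diag`),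
`im ζ = wd Λ v u + im (Lb Λ v' u - Lb Λ v u)`, `|im ζ| ≤ ε / |τ| + 10 N` (`step_le`).
`|F v' - F u| ≤ |F v - F u| + KN rr ≤ (2 KN / |τ| + KN) rr` (`disp_le`) and
`|F v' - F u| ≥ |F' v'| (ℓ / N) / 4 = rr F v' / 8 ≥ e^(-6 N) rr F v / 8 ≥ rr F v / KN`
(`koebe4` with `ρ = ℓ / N`, `rr_step`); `KN ≤ 2 KN / |τ| + KN`. So
`|re ζ| ≤ log (2 KN / |τ| + KN)`, `al Λ τ v' u = w0 Λ τ v - re (τ ζ) ≤ w0 + |τ| (|re ζ| + |im ζ|) ≤ w0 + 2 ε`.
-/

set_option autoImplicit false

namespace Pool.Agent.Helper26.G4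

open MeasureTheory Set
open scoped Real
open Pool.Agent.Helper90.G2 (Bx Wn Fn ar ch Cen chi)

theorem Up_re_vt (c ℓ : ℝ) : (vt c ℓ).re = 2 * ℓ := rfl

theorem Up_im_vt (c ℓ : ℝ) : (vt c ℓ).im = c := rfl

/-- the lower bound of the distance -/
theorem Up_low {F : ℂ → ℂ} {A : ℝ} (hF : Fn F A) {Λ : ℂ → ℂ → ℂ} (hΛ : Br F Λ) {N d : ℕ}
    (hN : 2 ≤ N) (hd : d < N) {c ℓ : ℝ} (hℓ : 0 < ℓ) (hℓ1 : ℓ ≤ 1) {u : ℂ}
    (hu : u ∈ Bx (ch N c ℓ d) (ℓ / N)) :
    rr F (vt c ℓ) ≤ KN N * ‖F (vt (ch N c ℓ d) (ℓ / N)) - F u‖ := by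
  have hN2 : (2 : ℝ) ≤ N := by exact_mod_cast hN
  have hN0 : (0 : ℝ) < N := by linarith only [hN2]
  have hq : 0 < ℓ / N := div_pos hℓ hN0
  have hq1 : ℓ / N ≤ 1 := by
    rw [div_le_one hN0]
    (clear * - hℓ1 hN2; linarith only [hℓ1, hN2])
  obtain ⟨hu0, hu1, hu2⟩ := hu
  have hpi := Real.pi_gt_three
  have h1 := Fn.koebe4 hF (v := vt (ch N c ℓ d) (ℓ / N)) (u := u) (ρ := ℓ / N) hq hu0
    (by rw [Up_re_vt]; (clear * - hq; linarith only [hq])) (by linarith only [hq1, hpi])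
    (by
      have h2 := Complex.abs_re_le_norm (vt (ch N c ℓ d) (ℓ / N) - u)
      rw [Complex.sub_re, Up_re_vt] at h2
      have h3 := (abs_le.1 h2).2
      (clear * - hu1 h3; linarith only [hu1, h3]))
    (by
      rw [Up_im_vt, abs_sub_comm]
      linarith only [hq1, hu2, hpi])
  have h2 : rr F (vt (ch N c ℓ d) (ℓ / N)) ≤ 8 * ‖F (vt (ch N c ℓ d) (ℓ / N)) - F u‖ := by
    rw [rr, Up_re_vt]
    linarith only [h1]
  have h3 := rr_step hF hΛ hN hd (c := c) hℓ hℓ1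
  have h4 : Real.exp (6 * N) * 8 ≤ KN N := by
    have h5 : KN N = Real.exp (6 * N) * Real.exp (34 * N) := by
      rw [KN, ← Real.exp_add]
      congr 1
      ring
    rw [h5]
    refine mul_le_mul_of_nonneg_left ?_ (Real.exp_pos _).le
    have h6 := Real.add_one_le_exp (34 * (N : ℝ))
    (clear * - hN2 h6; linarith only [hN2, h6])
  calc rr F (vt c ℓ) ≤ Real.exp (6 * N) * rr F (vt (ch N c ℓ d) (ℓ / N)) := h3
    _ ≤ Real.exp (6 * N) * (8 * ‖F (vt (ch N c ℓ d) (ℓ / N)) - F u‖) :=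
        mul_le_mul_of_nonneg_left h2 (Real.exp_pos _).le
    _ = Real.exp (6 * N) * 8 * ‖F (vt (ch N c ℓ d) (ℓ / N)) - F u‖ := by ring
    _ ≤ KN N * ‖F (vt (ch N c ℓ d) (ℓ / N)) - F u‖ :=
        mul_le_mul_of_nonneg_right h4 (norm_nonneg _)

/-- the real part -/
theorem Up_re {F : ℂ → ℂ} {A : ℝ} (hF : Fn F A) {Λ : ℂ → ℂ → ℂ} (hΛ : Br F Λ) {v v' u : ℂ}
    (hv : 0 < v.re) (hu : 0 < u.re) (huv : u.re < v'.re) (h : |v'.im - u.im| < 2 * π) {a b : ℝ}
    (hb : 0 < b) (h1 : rr F v ≤ a * ‖F v' - F u‖) (h2 : ‖F v' - F u‖ ≤ b * rr F v) (hab : a ≤ b) :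
    |(Lb Λ v' u - (Real.log v.re + Λ v v)).re| ≤ Real.log b := by
  have hr := rr_pos hF hv
  have h3 : Real.exp (Lb Λ v' u - (Real.log v.re + Λ v v)).re * rr F v = ‖F v' - F u‖ := by
    have h4 : Complex.exp (Lb Λ v' u - (Real.log v.re + Λ v v)) * ((v.re : ℂ) * deriv F v) =
        F v' - F u := by
      rw [Complex.exp_sub, Complex.exp_add, ← Complex.ofReal_exp, Real.exp_log hv, hΛ.diag v hv,
        Lb_exp hΛ hu huv h]
      refine div_mul_cancel₀ _ ?_
      have h5 := Pool.Agent.Helper90.G2.Fn.dne hF hv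
      exact mul_ne_zero (by exact_mod_cast hv.ne') h5
    have h5 := congrArg norm h4
    rw [norm_mul, Complex.norm_exp, norm_mul, Complex.norm_real, Real.norm_of_nonneg hv.le] at h5
    exact h5
  rw [abs_le]
  constructor
  · rw [neg_le, Real.le_log_iff_exp_le hb, Real.exp_neg]
    have h4 := Real.exp_pos (Lb Λ v' u - (Real.log v.re + Λ v v)).re
    rw [← h3] at h1
    have h5 : rr F v * 1 ≤ rr F v *
        (a * Real.exp (Lb Λ v' u - (Real.log v.re + Λ v v)).re) := by linarith only [h1]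
    have h6 := le_of_mul_le_mul_left h5 hr
    rw [inv_le_iff_one_le_mul₀ h4]
    exact h6.trans (mul_le_mul_of_nonneg_right hab h4.le)
  · rw [Real.le_log_iff_exp_le hb]
    rw [← h3] at h2
    exact le_of_mul_le_mul_right h2 hr

/-- the upper bound of the distance -/
theorem Up_high {F : ℂ → ℂ} {A : ℝ} (hF : Fn F A) {Λ : ℂ → ℂ → ℂ} (hΛ : Br F Λ) {N d : ℕ}
    (hN : 2 ≤ N) (hd : d < N) {c ℓ : ℝ} (hℓ : 0 < ℓ) (hℓ1 : ℓ ≤ 1) {B : ℝ} {u : ℂ}
    (hz : ‖F (vt c ℓ) - F u‖ ≤ B * rr F (vt c ℓ)) :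
    ‖F (vt (ch N c ℓ d) (ℓ / N)) - F u‖ ≤ (B + KN N) * rr F (vt c ℓ) := by
  have h1 := disp_le hF hΛ hN hd hℓ hℓ1 (w := vt (ch N c ℓ d) (ℓ / N)) (c := c)
    (right_mem_segment ℝ _ _)
  have h2 : F (vt (ch N c ℓ d) (ℓ / N)) - F u =
      (F (vt (ch N c ℓ d) (ℓ / N)) - F (vt c ℓ)) + (F (vt c ℓ) - F u) := by ring
  rw [h2]
  have h3 := norm_add_le (F (vt (ch N c ℓ d) (ℓ / N)) - F (vt c ℓ)) (F (vt c ℓ) - F u)
  (clear * - hz h1 h3; linarith only [hz, h1, h3])

/-- the exponents -/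
theorem Up_al (Λ : ℂ → ℂ → ℂ) (τ v v' u : ℂ) :
    al Λ τ v' u ≤ w0 Λ τ v + ‖τ‖ * (|(Lb Λ v' u - (Real.log v.re + Λ v v)).re| +
      |(Lb Λ v' u - (Real.log v.re + Λ v v)).im|) := by
  have h1 : al Λ τ v' u = w0 Λ τ v + -(τ * (Lb Λ v' u - (Real.log v.re + Λ v v))).re := by
    rw [al, w0, mul_sub, Complex.sub_re]
    ring
  rw [h1]
  have h2 := Complex.abs_re_le_norm (τ * (Lb Λ v' u - (Real.log v.re + Λ v v)))
  rw [norm_mul] at h2
  have h3 := Complex.norm_le_abs_re_add_abs_im (Lb Λ v' u - (Real.log v.re + Λ v v))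
  have h4 := mul_le_mul_of_nonneg_left h3 (norm_nonneg τ)
  have h5 := (abs_le.1 h2).1
  (clear * - h4 h5; linarith only [h4, h5])

theorem up_le {F : ℂ → ℂ} {A : ℝ} (hF : Fn F A) {Λ : ℂ → ℂ → ℂ} (hΛ : Br F Λ) {N d : ℕ}
    (hN : 2 ≤ N) (hd : d < N) {c ℓ : ℝ} (hℓ : 0 < ℓ) (hℓ1 : ℓ ≤ 1) {τ : ℂ} (hτ : 0 < ‖τ‖)
    (hτ1 : ‖τ‖ ≤ 1) {ε : ℝ} (hε : 0 < ε)
    (hs : ‖τ‖ * (10 * N + Real.log (2 * KN N / ‖τ‖ + KN N)) ≤ ε) {u : ℂ}
    (hu : u ∈ Bx (ch N c ℓ d) (ℓ / N)) (hw : |wd Λ (vt c ℓ) u| ≤ ε / ‖τ‖)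
    (hz : ‖F (vt c ℓ) - F u‖ ≤ 2 * KN N / ‖τ‖ * rr F (vt c ℓ)) :
    al Λ τ (vt (ch N c ℓ d) (ℓ / N)) u ≤ w0 Λ τ (vt c ℓ) + 2 * ε := by
  have hN2 : (2 : ℝ) ≤ N := by exact_mod_cast hN
  have hN0 : (0 : ℝ) < N := by linarith only [hN2]
  have hq : 0 < ℓ / N := div_pos hℓ hN0
  have hq1 : ℓ / N ≤ 1 := by
    rw [div_le_one hN0]
    (clear * - hℓ1 hN2; linarith only [hℓ1, hN2])
  have hK : 0 < KN N := Real.exp_pos _
  have hK2 : 0 ≤ 2 * KN N / ‖τ‖ := by (clear * - hK hτ; positivity)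
  have hpi := Real.pi_gt_three
  have h0 := Up_al Λ τ (vt c ℓ) (vt (ch N c ℓ d) (ℓ / N)) u
  have h1 : |(Lb Λ (vt (ch N c ℓ d) (ℓ / N)) u - (Real.log (vt c ℓ).re + Λ (vt c ℓ) (vt c ℓ))).re|
      ≤ Real.log (2 * KN N / ‖τ‖ + KN N) := by
    refine Up_re hF hΛ (by rw [Up_re_vt]; (clear * - hℓ; linarith only [hℓ])) hu.1 (by rw [Up_re_vt]; (clear * - hu hq; linarith only [hu.2.1, hq])) ?_
      (by linarith only [hK, hK2]) (Up_low hF hΛ hN hd hℓ hℓ1 hu) (Up_high hF hΛ hN hd hℓ hℓ1 hz)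
      (by linarith only [hK2])
    rw [Up_im_vt, abs_sub_comm]
    (clear * - hu hq1 hpi; linarith only [hu.2.2, hq1, hpi])
  have h2 : |(Lb Λ (vt (ch N c ℓ d) (ℓ / N)) u - (Real.log (vt c ℓ).re + Λ (vt c ℓ) (vt c ℓ))).im|
      ≤ ε / ‖τ‖ + 10 * N := by
    have h3 := step_le hF hΛ hN hd hℓ hℓ1 hu (right_mem_segment ℝ (vt c ℓ) _)
    have h4 : (Lb Λ (vt (ch N c ℓ d) (ℓ / N)) u -
        (Real.log (vt c ℓ).re + Λ (vt c ℓ) (vt c ℓ))).im = wd Λ (vt c ℓ) u +
        (Lb Λ (vt (ch N c ℓ d) (ℓ / N)) u - Lb Λ (vt c ℓ) u).im := by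
      rw [wd, Complex.sub_im, Complex.add_im, Complex.ofReal_im, Complex.sub_im, Complex.sub_im]
      ring
    rw [h4]
    have h5 := Complex.abs_im_le_norm (Lb Λ (vt (ch N c ℓ d) (ℓ / N)) u - Lb Λ (vt c ℓ) u)
    (clear * - hw h3 h5; linarith only [abs_add_le (wd Λ (vt c ℓ) u) (Lb Λ (vt (ch N c ℓ d) (ℓ / N)) u - Lb Λ (vt c ℓ) u).im, hw, h3, h5])
  have h3 := mul_le_mul_of_nonneg_left (add_le_add h1 h2) hτ.le
  have h4 : ‖τ‖ * (ε / ‖τ‖) = ε := mul_div_cancel₀ ε hτ.ne'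
  have h5 : ‖τ‖ * (Real.log (2 * KN N / ‖τ‖ + KN N) + (ε / ‖τ‖ + 10 * N)) =
      ‖τ‖ * (10 * N + Real.log (2 * KN N / ‖τ‖ + KN N)) + ‖τ‖ * (ε / ‖τ‖) := by ring
  rw [h5, h4] at h3
  (clear * - hs h0 h3; linarith only [hs, h0, h3])

end Pool.Agent.Helper26.G4
end

/- Helper24.K6w.H97.G4.Hp -/
section
/-!
# G4: the half plane lemma

`a` is a curve in the closed half plane `re ≤ x` over `[b, b']`, its ends on the boundary line, and
disjoint from its translate by `2 π i`. Then the ends differ by at most `2 π`.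
-/

set_option autoImplicit false

namespace Pool.Agent.Helper97.G4

open Set
open scoped Real

/-- a continuous angle with `cos ≤ 0` stays in one interval -/
theorem hp_stay {θ : ℝ → ℝ} {b b' : ℝ} (hbb : b ≤ b') (hθ : ContinuousOn θ (Icc b b'))
    (hc : ∀ s ∈ Icc b b', Real.cos (θ s) ≤ 0) :
    ∃ k : ℤ, π / 2 + 2 * π * k ≤ θ b ∧ θ b ≤ 3 * π / 2 + 2 * π * k ∧
      π / 2 + 2 * π * k ≤ θ b' ∧ θ b' ≤ 3 * π / 2 + 2 * π * k := by
  have hπ := Real.pi_pos
  -- every value lies in one of the intervals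
  have key : ∀ y : ℝ, Real.cos y ≤ 0 → ∃ k : ℤ, π / 2 + 2 * π * k ≤ y ∧ y ≤ 3 * π / 2 + 2 * π * k := by
    intro y hy
    obtain ⟨k, hk⟩ : ∃ k : ℤ, k = ⌊y / (2 * π)⌋ := ⟨_, rfl⟩
    have h1 : (k : ℝ) ≤ y / (2 * π) := by rw [hk]; exact Int.floor_le _
    have h2 : y / (2 * π) < k + 1 := by rw [hk]; exact Int.lt_floor_add_one _
    rw [le_div_iff₀ (by positivity)] at h1
    rw [div_lt_iff₀ (by positivity)] at h2
    obtain ⟨z, hz⟩ : ∃ z : ℝ, z = y - 2 * π * k := ⟨_, rfl⟩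
    have hcz : Real.cos z = Real.cos y := by
      rw [hz, show 2 * π * (k : ℝ) = k * (2 * π) by ring]
      exact Real.cos_sub_int_mul_two_pi y k
    have hz0 : 0 ≤ z := by rw [hz]; (clear * - h1; linarith only [h1])
    have hz1 : z < 2 * π := by rw [hz]; (clear * - h2; linarith only [h2])
    refine ⟨k, ?_, ?_⟩
    · by_contra h
      push Not at h
      have h3 : z < π / 2 := by rw [hz]; (clear * - h; linarith)
      have h4 : 0 < Real.cos z := Real.cos_pos_of_mem_Ioo ⟨by linarith only [hz0, hz1], h3⟩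
      (clear * - hy hcz h4; linarith only [hy, hcz, h4])
    · by_contra h
      push Not at h
      have h3 : 3 * π / 2 < z := by rw [hz]; linarith
      have h4 : 0 < Real.cos (z - 2 * π) :=
        Real.cos_pos_of_mem_Ioo ⟨by linarith only [h3], by linarith only [hz0, hz1]⟩
      rw [Real.cos_sub_two_pi] at h4
      (clear * - hy hcz h4; linarith only [hy, hcz, h4])
  have hb : b ∈ Icc b b' := ⟨le_rfl, hbb⟩
  have hb' : b' ∈ Icc b b' := ⟨hbb, le_rfl⟩
  obtain ⟨k, hk1, hk2⟩ := key _ (hc b hb)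
  obtain ⟨j, hj1, hj2⟩ := key _ (hc b' hb')
  have hkj : k = j := by
    rcases lt_trichotomy k j with h | h | h
    · exfalso
      have h1 : (k : ℝ) + 1 ≤ j := by exact_mod_cast h
      have h2 : 2 * π * ((k : ℝ) + 1) ∈ Icc (θ b) (θ b') := by
        constructor
        · (clear * - hk2 hj1 hj2; linarith only [hk2, hj1, hj2])
        · (clear * - hj1 hj2 h1; nlinarith only [hj1, hj2, h1])
      obtain ⟨s, hs, hs2⟩ := intermediate_value_Icc hbb hθ h2
      have h3 := hc s hs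
      rw [hs2] at h3
      have h4 : Real.cos (2 * π * ((k : ℝ) + 1)) = 1 := by
        rw [show 2 * π * ((k : ℝ) + 1) = ((k + 1 : ℤ) : ℝ) * (2 * π) by push_cast; ring]
        exact Real.cos_int_mul_two_pi _
      linarith only [h3, h4]
    · exact h
    · exfalso
      have h1 : (j : ℝ) + 1 ≤ k := by exact_mod_cast h
      have h2 : 2 * π * (k : ℝ) ∈ Icc (θ b') (θ b) := by
        constructor
        · nlinarith only [hj1, hj2, h1]
        · linarith only [hπ, hk1]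
      obtain ⟨s, hs, hs2⟩ := intermediate_value_Icc' hbb hθ h2
      have h3 := hc s hs
      rw [hs2] at h3
      have h4 : Real.cos (2 * π * (k : ℝ)) = 1 := by
        rw [show 2 * π * (k : ℝ) = (k : ℝ) * (2 * π) by ring]
        exact Real.cos_int_mul_two_pi _
      linarith only [h3, h4]
  subst hkj
  exact ⟨k, hk1, hk2, hj1, hj2⟩

/-- from `-i` to `i` through the left half plane -/
theorem hp_turn {θ : ℝ → ℝ} {b b' : ℝ} (hbb : b ≤ b') (hθ : ContinuousOn θ (Icc b b'))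
    (hc : ∀ s ∈ Icc b b', Real.cos (θ s) ≤ 0) (h1 : Real.sin (θ b) = -1)
    (h2 : Real.sin (θ b') = 1) : θ b' = θ b - π := by
  have hπ := Real.pi_pos
  obtain ⟨k, a1, a2, a3, a4⟩ := hp_stay hbb hθ hc
  obtain ⟨i, hi⟩ := Real.sin_eq_neg_one_iff.1 h1
  obtain ⟨j, hj⟩ := Real.sin_eq_one_iff.1 h2
  have e1 : i = k + 1 := by
    have c1 : (k : ℝ) < i := by
      by_contra h
      push Not at h
      (clear * - hπ a1 hi h; nlinarith only [hπ, a1, hi, h])
    have c2 : (i : ℝ) < k + 2 := by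
      by_contra h
      push Not at h
      nlinarith only [hπ, a2, hi, h]
    have c3 : k < i := by exact_mod_cast c1
    have c4 : i < k + 2 := by exact_mod_cast c2
    omega
  have e2 : j = k := by
    have c1 : (k : ℝ) - 1 < j := by
      by_contra h
      push Not at h
      nlinarith only [hπ, a3, hj, h]
    have c2 : (j : ℝ) < k + 1 := by
      by_contra h
      push Not at h
      (clear * - hπ a4 hj h; nlinarith only [hπ, a4, hj, h])
    have c3 : k - 1 < j := by exact_mod_cast c1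
    have c4 : j < k + 1 := by exact_mod_cast c2
    omega
  rw [← hi, ← hj, e1, e2]
  push_cast
  ring

/-- from `-i` to `-i` through the left half plane -/
theorem hp_flat {θ : ℝ → ℝ} {b b' : ℝ} (hbb : b ≤ b') (hθ : ContinuousOn θ (Icc b b'))
    (hc : ∀ s ∈ Icc b b', Real.cos (θ s) ≤ 0) (h1 : Real.sin (θ b) = -1)
    (h2 : Real.sin (θ b') = -1) : θ b' = θ b := by
  have hπ := Real.pi_pos
  obtain ⟨k, a1, a2, a3, a4⟩ := hp_stay hbb hθ hc
  have gen : ∀ {y : ℝ} {i : ℤ}, -(π / 2) + i * (2 * π) = y → π / 2 + 2 * π * k ≤ y →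
      y ≤ 3 * π / 2 + 2 * π * k → i = k + 1 := by
    intro y i hi b1 b2
    have c1 : (k : ℝ) < i := by
      by_contra h
      push Not at h
      (clear * - hπ hi b1 h; nlinarith only [hπ, hi, b1, h])
    have c2 : (i : ℝ) < k + 2 := by
      by_contra h
      push Not at h
      nlinarith only [hπ, hi, b2, h]
    have c3 : k < i := by exact_mod_cast c1
    have c4 : i < k + 2 := by exact_mod_cast c2
    omega
  obtain ⟨i, hi⟩ := Real.sin_eq_neg_one_iff.1 h1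
  obtain ⟨j, hj⟩ := Real.sin_eq_neg_one_iff.1 h2
  have e1 := gen hi a1 a2
  have e2 := gen hj a3 a4
  rw [← hi, ← hj, e1, e2]

/-- a continuous logarithm on the plane `ℝ × ℝ` -/
theorem exists_log {X : Type*} [TopologicalSpace X] [LocallyPathConnectedSpace X]
    [SimplyConnectedSpace X] {g : X → ℂ} (hg : Continuous g) (h0 : ∀ x, g x ≠ 0) :
    ∃ f : X → ℂ, Continuous f ∧ ∀ x, Complex.exp (f x) = g x := by
  obtain ⟨x₀⟩ : Nonempty X := inferInstance
  obtain ⟨f, ⟨-, hf⟩, -⟩ := Complex.isCoveringMapOn_exp.existsUnique_continuousMap_lifts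
    ⟨g, hg⟩ (a₀ := x₀) (Complex.exp_log (h0 x₀)) (fun x => h0 x)
  exact ⟨f, f.continuous, fun x => congrFun hf x⟩

/-- the sign of the cosine of the argument -/
theorem hp_cos {l z : ℂ} (h : Complex.exp l = z) : z.re = Real.exp l.re * Real.cos l.im := by
  rw [← h, Complex.exp_re]

theorem hp_sin {l z : ℂ} (h : Complex.exp l = z) : z.im = Real.exp l.re * Real.sin l.im := by
  rw [← h, Complex.exp_im]

theorem hp_down {l z : ℂ} (h : Complex.exp l = z) (hr : z.re = 0) (hi : z.im < 0) :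
    Real.sin l.im = -1 := by
  have h1 := hp_cos h
  have h2 := hp_sin h
  have h3 := Real.exp_pos l.re
  have h4 : Real.cos l.im = 0 := by
    have : Real.exp l.re * Real.cos l.im = 0 := by rw [← h1, hr]
    rcases mul_eq_zero.1 this with h | h
    · (clear * - h3 h; linarith only [h3, h])
    · exact h
  have h5 : Real.sin l.im < 0 := by
    by_contra hh
    push Not at hh
    have := mul_nonneg h3.le hh
    (clear * - hi h2 this; linarith only [hi, h2, this])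
  have h6 := Real.sin_sq_add_cos_sq l.im
  rw [h4] at h6
  nlinarith only [h5, h6]

theorem hp_up {l z : ℂ} (h : Complex.exp l = z) (hr : z.re = 0) (hi : 0 < z.im) :
    Real.sin l.im = 1 := by
  have h1 := hp_cos h
  have h2 := hp_sin h
  have h3 := Real.exp_pos l.re
  have h4 : Real.cos l.im = 0 := by
    have : Real.exp l.re * Real.cos l.im = 0 := by rw [← h1, hr]
    rcases mul_eq_zero.1 this with h | h
    · (clear * - h3 h; linarith only [h3, h])
    · exact h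
  have h5 : 0 < Real.sin l.im := by
    by_contra hh
    push Not at hh
    have := mul_nonpos_of_nonneg_of_nonpos h3.le hh
    (clear * - hi h2 this; linarith)
  have h6 := Real.sin_sq_add_cos_sq l.im
  rw [h4] at h6
  (clear * - h2 hi h5 h3 h6; nlinarith)

theorem hp_cos_le {l z : ℂ} (h : Complex.exp l = z) (hr : z.re ≤ 0) : Real.cos l.im ≤ 0 := by
  have h1 := hp_cos h
  have h3 := Real.exp_pos l.re
  by_contra hh
  push Not at hh
  have := mul_pos h3 hh
  linarith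

theorem hp_cos_ge {l z : ℂ} (h : Complex.exp l = z) (hr : 0 ≤ z.re) : 0 ≤ Real.cos l.im := by
  have h1 := hp_cos h
  have h3 := Real.exp_pos l.re
  by_contra hh
  push Not at hh
  have := mul_neg_of_pos_of_neg h3 hh
  linarith

/-- the half plane lemma -/
theorem hp {a : ℝ → ℂ} {b b' x : ℝ} (hbb : b ≤ b') (ha : ContinuousOn a (Icc b b'))
    (h1 : (a b).re = x) (h2 : (a b').re = x) (h : ∀ s ∈ Icc b b', (a s).re ≤ x)
    (hn : ∀ s ∈ Icc b b', ∀ s' ∈ Icc b b', a s - a s' ≠ 2 * π * Complex.I) :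
    (a b').im - (a b).im ≤ 2 * π := by
  have hπ := Real.pi_pos
  by_contra hH
  push Not at hH
  have hb : b ∈ Icc b b' := ⟨le_rfl, hbb⟩
  have hb' : b' ∈ Icc b b' := ⟨hbb, le_rfl⟩
  have ha2 : Continuous (fun s : ℝ => a (projIcc b b' hbb s)) :=
    (ha.domRestrict).comp continuous_projIcc
  obtain ⟨D, hD⟩ : ∃ D : ℝ × ℝ → ℂ, D = fun q => a (projIcc b b' hbb q.1) -
      a (projIcc b b' hbb q.2) - 2 * π * Complex.I := ⟨_, rfl⟩
  have hDc : Continuous D := by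
    rw [hD]
    exact ((ha2.comp continuous_fst).sub (ha2.comp continuous_snd)).sub continuous_const
  have hD0 : ∀ q, D q ≠ 0 := by
    intro q
    rw [hD]
    exact sub_ne_zero.2 (hn _ (projIcc b b' hbb q.1).2 _ (projIcc b b' hbb q.2).2)
  obtain ⟨l, hl, hle⟩ := exists_log hDc hD0
  have hre : (2 * (π : ℂ) * Complex.I).re = 0 := by simp
  have him : (2 * (π : ℂ) * Complex.I).im = 2 * π := by simp
  have hp1 : ∀ s ∈ Icc b b', ((projIcc b b' hbb s : Icc b b') : ℝ) = s := by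
    intro s hs
    rw [projIcc_of_mem hbb hs]
  have e : ∀ s ∈ Icc b b', ∀ s' ∈ Icc b b', D (s, s') = a s - a s' - 2 * π * Complex.I := by
    intro s hs s' hs'
    rw [hD]
    show a (projIcc b b' hbb s) - a (projIcc b b' hbb s') - 2 * π * Complex.I = _
    rw [hp1 s hs, hp1 s' hs']
  -- corners
  have c00r : (D (b, b)).re = 0 := by
    rw [e b hb b hb]; simp
  have c00i : (D (b, b)).im < 0 := by
    rw [e b hb b hb]
    simp only [Complex.sub_im, him]
    linarith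
  have c10r : (D (b', b)).re = 0 := by
    rw [e b' hb' b hb]
    simp only [Complex.sub_re, hre]
    linarith only [h1, h2]
  have c10i : 0 < (D (b', b)).im := by
    rw [e b' hb' b hb]
    simp only [Complex.sub_im, him]
    (clear * - hH; linarith)
  have c01r : (D (b, b')).re = 0 := by
    rw [e b hb b' hb']
    simp only [Complex.sub_re, hre]
    (clear * - h1 h2; linarith only [h1, h2])
  have c01i : (D (b, b')).im < 0 := by
    rw [e b hb b' hb']
    simp only [Complex.sub_im, him]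
    linarith only [hπ, hH]
  have c11r : (D (b', b')).re = 0 := by
    rw [e b' hb' b' hb']; simp
  have c11i : (D (b', b')).im < 0 := by
    rw [e b' hb' b' hb']
    simp only [Complex.sub_im, him]
    linarith only [hπ]
  -- sides
  have s1 : (l (b', b)).im = (l (b, b)).im - π := by
    refine hp_turn (θ := fun s => (l (s, b)).im) hbb
      (Complex.continuous_im.comp (hl.comp (by fun_prop))).continuousOn ?_
      (hp_down (hle (b, b)) c00r c00i) (hp_up (hle (b', b)) c10r c10i)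
    intro s hs
    refine hp_cos_le (hle (s, b)) ?_
    rw [e s hs b hb]
    simp only [Complex.sub_re, hre]
    (clear * - h1 h hs; linarith [h s hs])
  have s4 : (l (b', b')).im = (l (b, b')).im := by
    refine hp_flat (θ := fun s => (l (s, b')).im) hbb
      (Complex.continuous_im.comp (hl.comp (by fun_prop))).continuousOn ?_
      (hp_down (hle (b, b')) c01r c01i) (hp_down (hle (b', b')) c11r c11i)
    intro s hs
    refine hp_cos_le (hle (s, b')) ?_
    rw [e s hs b' hb']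
    simp only [Complex.sub_re, hre]
    (clear * - h2 h hs; linarith [h s hs])
  have s2 : (l (b', b')).im + π = (l (b', b)).im + π - π := by
    refine hp_turn (θ := fun s => (l (b', s)).im + π) hbb
      ((Complex.continuous_im.comp (hl.comp (by fun_prop))).add continuous_const).continuousOn ?_
      ?_ ?_
    · intro s hs
      show Real.cos ((l (b', s)).im + π) ≤ 0
      rw [Real.cos_add_pi]
      have := hp_cos_ge (hle (b', s)) (by
        rw [e b' hb' s hs]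
        simp only [Complex.sub_re, hre]
        linarith only [h s hs, h2])
      linarith only [this]
    · show Real.sin ((l (b', b)).im + π) = -1
      rw [Real.sin_add_pi, hp_up (hle (b', b)) c10r c10i]
    · show Real.sin ((l (b', b')).im + π) = 1
      rw [Real.sin_add_pi, hp_down (hle (b', b')) c11r c11i]
      norm_num
  have s3 : (l (b, b')).im = (l (b, b)).im := by
    have h5 := hp_stay (θ := fun s => (l (b, s)).im + π) hbb
      ((Complex.continuous_im.comp (hl.comp (by fun_prop))).add continuous_const).continuousOn ?_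
    · obtain ⟨k, a1, a2, a3, a4⟩ := h5
      obtain ⟨i, hi⟩ := Real.sin_eq_neg_one_iff.1 (hp_down (hle (b, b)) c00r c00i)
      obtain ⟨j, hj⟩ := Real.sin_eq_neg_one_iff.1 (hp_down (hle (b, b')) c01r c01i)
      have gen : ∀ {y : ℝ} {i : ℤ}, -(π / 2) + i * (2 * π) = y →
          π / 2 + 2 * π * k ≤ y + π → y + π ≤ 3 * π / 2 + 2 * π * k → i = k := by
        intro y i hi b1 b2
        have c1 : (k : ℝ) - 1 < i := by
          by_contra h
          push Not at h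
          (clear * - hπ hi b1 h; nlinarith only [hπ, hi, b1, h])
        have c2 : (i : ℝ) < k + 1 := by
          by_contra h
          push Not at h
          nlinarith only [hπ, hi, b2, h]
        have c3 : k - 1 < i := by exact_mod_cast c1
        have c4 : i < k + 1 := by exact_mod_cast c2
        omega
      have e1 := gen hi a1 a2
      have e2 := gen hj a3 a4
      rw [← hi, ← hj, e1, e2]
    · intro s hs
      show Real.cos ((l (b, s)).im + π) ≤ 0
      rw [Real.cos_add_pi]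
      have := hp_cos_ge (hle (b, s)) (by
        rw [e b hb s hs]
        simp only [Complex.sub_re, hre]
        (clear * - h hs h1; linarith only [h s hs, h1]))
      linarith only [this]
  linarith only [hπ, s1, s4, s2, s3]

end Pool.Agent.Helper97.G4
end

/- Helper24.K6w.H97.G4.Ret -/
section
/-!
# G4: return to the height of the starting point

`l` is a continuous logarithm of the chord `(a t - a s) / (s - t)` for `s` in `[T, S]`. If its
imaginary part goes from at least `20 π` in absolute value to at most `2 π`, then the curve crosses the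
vertical line through `a t`, at a point at distance at most `2 π` from `a t`.
-/

set_option autoImplicit false

namespace Pool.Agent.Helper97.G4

open Set
open scoped Real

/-- a crossing of the strip `[q, p]` downwards -/
theorem cross {θ : ℝ → ℝ} {T S p q : ℝ} (hTS : T ≤ S) (hθ : ContinuousOn θ (Icc T S)) (hpq : q < p)
    (hT : p ≤ θ T) (hS : θ S ≤ q) :
    ∃ b b' : ℝ, T ≤ b ∧ b ≤ b' ∧ b' ≤ S ∧ θ b = p ∧ θ b' = q ∧
      ∀ s ∈ Icc b b', q ≤ θ s ∧ θ s ≤ p := by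
  -- first time at level `q`
  obtain ⟨A1, hA1⟩ : ∃ A1 : Set ℝ, A1 = Icc T S ∩ θ ⁻¹' Iic q := ⟨_, rfl⟩
  have hA1c : IsClosed A1 := by
    rw [hA1]
    exact hθ.preimage_isClosed_of_isClosed isClosed_Icc isClosed_Iic
  have hA1k : IsCompact A1 := isCompact_Icc.of_isClosed_subset hA1c (by rw [hA1]; exact inter_subset_left)
  have hA1n : A1.Nonempty := by
    rw [hA1]
    exact ⟨S, ⟨hTS, le_rfl⟩, hS⟩
  obtain ⟨b', hb'A, hb'l⟩ := hA1k.exists_isLeast hA1n
  have hb'1 : b' ∈ Icc T S := by rw [hA1] at hb'A; exact hb'A.1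
  have hb'2 : θ b' ≤ q := by rw [hA1] at hb'A; exact hb'A.2
  have hb'3 : ∀ s ∈ Icc T b', s ≠ b' → q < θ s := by
    intro s hs hne
    by_contra h
    push Not at h
    have hsA : s ∈ A1 := by rw [hA1]; exact ⟨⟨hs.1, hs.2.trans hb'1.2⟩, h⟩
    exact hne (le_antisymm hs.2 (hb'l hsA))
  have hcb' : ContinuousOn θ (Icc T b') := hθ.mono (Icc_subset_Icc le_rfl hb'1.2)
  have hb'4 : θ b' = q := by
    by_contra h
    have h1 : θ b' < q := lt_of_le_of_ne hb'2 h
    obtain ⟨s, hs, hs2⟩ := intermediate_value_Icc' hb'1.1 hcb'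
      (show q ∈ Icc (θ b') (θ T) from ⟨hb'2, by linarith only [hpq, hT]⟩)
    by_cases hsb : s = b'
    · rw [hsb] at hs2
      exact h hs2
    · have := hb'3 s hs hsb
      (clear * - hs2 this; linarith)
  -- last time at level `p`
  obtain ⟨A2, hA2⟩ : ∃ A2 : Set ℝ, A2 = Icc T b' ∩ θ ⁻¹' Ici p := ⟨_, rfl⟩
  have hA2c : IsClosed A2 := by
    rw [hA2]
    exact hcb'.preimage_isClosed_of_isClosed isClosed_Icc isClosed_Ici
  have hA2k : IsCompact A2 := isCompact_Icc.of_isClosed_subset hA2c (by rw [hA2]; exact inter_subset_left)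
  have hA2n : A2.Nonempty := by
    rw [hA2]
    exact ⟨T, ⟨le_rfl, hb'1.1⟩, hT⟩
  obtain ⟨b, hbA, hbg⟩ := hA2k.exists_isGreatest hA2n
  have hb1 : b ∈ Icc T b' := by rw [hA2] at hbA; exact hbA.1
  have hb2 : p ≤ θ b := by rw [hA2] at hbA; exact hbA.2
  have hb3 : ∀ s ∈ Icc b b', s ≠ b → θ s < p := by
    intro s hs hne
    by_contra h
    push Not at h
    have hsA : s ∈ A2 := by rw [hA2]; exact ⟨⟨hb1.1.trans hs.1, hs.2⟩, h⟩
    exact hne (le_antisymm (hbg hsA) hs.1)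
  have hb4 : θ b = p := by
    by_contra h
    have h1 : p < θ b := lt_of_le_of_ne hb2 (Ne.symm h)
    obtain ⟨s, hs, hs2⟩ := intermediate_value_Icc' hb1.2 (hcb'.mono (Icc_subset_Icc hb1.1 le_rfl))
      (show p ∈ Icc (θ b') (θ b) from ⟨by linarith, hb2⟩)
    by_cases hsb : s = b
    · rw [hsb] at hs2
      exact h hs2
    · have := hb3 s hs hsb
      linarith
  refine ⟨b, b', hb1.1, hb1.2, hb'1.2, hb4, hb'4, fun s hs => ⟨?_, ?_⟩⟩
  · by_cases h : s = b'
    · rw [h, hb'4]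
    · exact (hb'3 s ⟨hb1.1.trans hs.1, hs.2⟩ h).le
  · by_cases h : s = b
    · rw [h, hb4]
    · exact (hb3 s hs h).le

/-- sine and cosine of the argument of the chord -/
theorem ret_pos {a l : ℝ → ℂ} {t T S : ℝ} (htT : t < T) (hTS : T ≤ S)
    (ha : ContinuousOn a (Icc T S)) (hl : ContinuousOn l (Icc T S))
    (hle : ∀ s ∈ Icc T S, Complex.exp (l s) = (a t - a s) / ((s : ℂ) - t))
    (hT : 20 * π ≤ (l T).im) (hS : (l S).im ≤ 2 * π)
    (hn : ∀ s ∈ Icc T S, ∀ s' ∈ Icc T S, a s - a s' ≠ 2 * π * Complex.I) :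
    ∃ b ∈ Icc T S, (a b).re = (a t).re ∧ |(a b).im - (a t).im| ≤ 2 * π := by
  have hπ := Real.pi_pos
  obtain ⟨b, b', h1, h2, h3, h4, h5, h6⟩ := cross (θ := fun s => (l s).im) (p := 4 * π + π / 2)
    (q := 4 * π - π / 2) hTS (Complex.continuous_im.comp_continuousOn hl) (by linarith only [hπ])
    (by (clear * - hT hπ; linarith only [hT, hπ])) (by linarith)
  -- the chord
  have hch : ∀ s ∈ Icc T S, Complex.exp (l s + Real.log (s - t)) = a t - a s := by
    intro s hs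
    have hst : 0 < s - t := by linarith only [hs.1, htT]
    have e : ((s : ℂ) - t) = ((s - t : ℝ) : ℂ) := by push_cast; ring
    rw [Complex.exp_add, hle s hs, ← Complex.ofReal_exp, Real.exp_log hst, e]
    have : ((s - t : ℝ) : ℂ) ≠ 0 := by
      rw [Ne, Complex.ofReal_eq_zero]
      exact hst.ne'
    field_simp
  have him : ∀ s : ℝ, (l s + Real.log (s - t)).im = (l s).im := by
    intro s
    simp
  have hbS : b ∈ Icc T S := ⟨h1, h2.trans h3⟩
  have hb'S : b' ∈ Icc T S := ⟨h1.trans h2, h3⟩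
  have hsub : Icc b b' ⊆ Icc T S := Icc_subset_Icc h1 h3
  have hcos : ∀ s ∈ Icc b b', 0 ≤ Real.cos (l s).im := by
    intro s hs
    obtain ⟨g1, g2⟩ := h6 s hs
    have e : Real.cos (l s).im = Real.cos ((l s).im - 2 * (2 * π)) := by
      have := Real.cos_sub_int_mul_two_pi (l s).im 2
      push_cast at this
      exact this.symm
    rw [e]
    exact Real.cos_nonneg_of_mem_Icc ⟨by (clear * - g1; linarith only [g1]), by linarith only [g2]⟩
  have hre : ∀ s ∈ Icc b b', (a s).re ≤ (a t).re := by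
    intro s hs
    have g1 := hp_cos (hch s (hsub hs))
    rw [him] at g1
    have g2 := mul_nonneg (Real.exp_pos (l s + Real.log (s - t)).re).le (hcos s hs)
    rw [← g1, Complex.sub_re] at g2
    linarith only [g2]
  have hsb : Real.sin (l b).im = 1 := by
    have h4' : (l b).im = 4 * π + π / 2 := h4
    rw [h4', show 4 * π + π / 2 = π / 2 + 2 * (2 * π) by ring]
    have := Real.sin_add_int_mul_two_pi (π / 2) 2
    push_cast at this
    rw [this, Real.sin_pi_div_two]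
  have hcb : Real.cos (l b).im = 0 := by
    have h4' : (l b).im = 4 * π + π / 2 := h4
    rw [h4', show 4 * π + π / 2 = π / 2 + 2 * (2 * π) by ring]
    have := Real.cos_add_int_mul_two_pi (π / 2) 2
    push_cast at this
    rw [this, Real.cos_pi_div_two]
  have hsb' : Real.sin (l b').im = -1 := by
    have h5' : (l b').im = 4 * π - π / 2 := h5
    rw [h5', show 4 * π - π / 2 = -(π / 2) + 2 * (2 * π) by ring]
    have := Real.sin_add_int_mul_two_pi (-(π / 2)) 2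
    push_cast at this
    rw [this, Real.sin_neg, Real.sin_pi_div_two]
  have hcb' : Real.cos (l b').im = 0 := by
    have h5' : (l b').im = 4 * π - π / 2 := h5
    rw [h5', show 4 * π - π / 2 = -(π / 2) + 2 * (2 * π) by ring]
    have := Real.cos_add_int_mul_two_pi (-(π / 2)) 2
    push_cast at this
    rw [this, Real.cos_neg, Real.cos_pi_div_two]
  have eb : (a b).re = (a t).re := by
    have g1 := hp_cos (hch b hbS)
    rw [him, hcb, mul_zero, Complex.sub_re] at g1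
    linarith only [g1]
  have eb' : (a b').re = (a t).re := by
    have g1 := hp_cos (hch b' hb'S)
    rw [him, hcb', mul_zero, Complex.sub_re] at g1
    linarith only [g1]
  have ib : (a b).im ≤ (a t).im := by
    have g1 := hp_sin (hch b hbS)
    rw [him, hsb, mul_one, Complex.sub_im] at g1
    have := Real.exp_pos (l b + Real.log (b - t)).re
    linarith only [g1, this]
  have ib' : (a t).im ≤ (a b').im := by
    have g1 := hp_sin (hch b' hb'S)
    rw [him, hsb', Complex.sub_im] at g1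
    have := Real.exp_pos (l b' + Real.log (b' - t)).re
    linarith only [g1, this]
  have hH := hp h2 (ha.mono hsub) eb eb' hre
    (fun s hs s' hs' => hn s (hsub hs) s' (hsub hs'))
  refine ⟨b, hbS, eb, ?_⟩
  rw [abs_le]
  constructor <;> linarith only [ib', hH, ib]

theorem ret {a l : ℝ → ℂ} {t T S : ℝ} (htT : t < T) (hTS : T ≤ S)
    (ha : ContinuousOn a (Icc T S)) (hl : ContinuousOn l (Icc T S))
    (hle : ∀ s ∈ Icc T S, Complex.exp (l s) = (a t - a s) / ((s : ℂ) - t))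
    (hT : 20 * π ≤ |(l T).im|) (hS : |(l S).im| ≤ 2 * π)
    (hn : ∀ s ∈ Icc T S, ∀ s' ∈ Icc T S, a s - a s' ≠ 2 * π * Complex.I) :
    ∃ b ∈ Icc T S, (a b).re = (a t).re ∧ |(a b).im - (a t).im| ≤ 2 * π := by
  rcases le_total 0 (l T).im with h0 | h0
  · rw [abs_of_nonneg h0] at hT
    exact ret_pos htT hTS ha hl hle hT (le_of_abs_le hS) hn
  · rw [abs_of_nonpos h0] at hT
    obtain ⟨b, hb, h1, h2⟩ := ret_pos (a := fun s => (starRingEnd ℂ) (a s))
      (l := fun s => (starRingEnd ℂ) (l s)) htT hTS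
      (Complex.continuous_conj.comp_continuousOn ha) (Complex.continuous_conj.comp_continuousOn hl)
      (by
        intro s hs
        show Complex.exp ((starRingEnd ℂ) (l s)) = _
        rw [Complex.exp_conj, hle s hs, map_div₀, map_sub, map_sub, Complex.conj_ofReal,
          Complex.conj_ofReal])
      (by
        show 20 * π ≤ ((starRingEnd ℂ) (l T)).im
        rw [Complex.conj_im]
        exact hT)
      (by
        show ((starRingEnd ℂ) (l S)).im ≤ 2 * π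
        rw [Complex.conj_im]
        have := neg_le_of_abs_le hS
        linarith)
      (by
        intro s hs s' hs' h
        have e : (starRingEnd ℂ) ((starRingEnd ℂ) (a s) - (starRingEnd ℂ) (a s')) =
            (starRingEnd ℂ) (2 * π * Complex.I) := by rw [h]
        simp only [map_sub, Complex.conj_conj, map_mul, Complex.conj_I, Complex.conj_ofReal,
          map_ofNat] at e
        refine hn s' hs' s hs ?_
        linear_combination -e)
    refine ⟨b, hb, ?_, ?_⟩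
    · simpa using h1
    · have e : ((starRingEnd ℂ) (a b)).im - ((starRingEnd ℂ) (a t)).im =
          -((a b).im - (a t).im) := by
        rw [Complex.conj_im, Complex.conj_im]
        ring
      rw [e, abs_neg] at h2
      exact h2

end Pool.Agent.Helper97.G4
end

/- Helper24.K6w.H97.G4.Chord -/
section
/-!
# G4: the logarithm of the chord

`a : ℝ → ℂ` is an injective curve with `a' = - exp c`, `c` continuous, `c → 0` at infinity. There is a
continuous `L : ℝ × ℝ → ℂ` with `exp (L (t, s)) = (a t - a s) / (s - t)` off the diagonal,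
`L (s, s) = c s`, and `im (L (t, s)) → 0` as `s → ∞` for every `t`.
-/

set_option autoImplicit false

namespace Pool.Agent.Helper97.G4

open Set MeasureTheory Filter
open scoped Real Topology

/-- the chord -/
noncomputable def chd (c : ℝ → ℂ) (q : ℝ × ℝ) : ℂ :=
  ∫ x in (0:ℝ)..1, Complex.exp (c (q.1 + x * (q.2 - q.1)))

theorem chd_cont {c : ℝ → ℂ} (hc : Continuous c) : Continuous (chd c) := by
  unfold chd
  apply intervalIntegral.continuous_parametric_intervalIntegral_of_continuous'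
  fun_prop

theorem chd_diag (c : ℝ → ℂ) (s : ℝ) : chd c (s, s) = Complex.exp (c s) := by
  unfold chd
  simp

theorem chd_mul {a c : ℝ → ℂ} (hc : Continuous c)
    (ha : ∀ s, HasDerivAt a (-Complex.exp (c s)) s) (t s : ℝ) :
    ((s : ℂ) - t) * chd c (t, s) = a t - a s := by
  have h1 : ∫ x in t..s, Complex.exp (c x) = a t - a s := by
    have h2 := intervalIntegral.integral_eq_sub_of_hasDerivAt (f := fun x => -a x)
      (f' := fun x => Complex.exp (c x)) (a := t) (b := s)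
      (fun x _ => by
        have := (ha x).neg
        rwa [neg_neg] at this)
      ((Complex.continuous_exp.comp hc).intervalIntegrable _ _)
    rw [h2]
    ring
  have h3 := intervalIntegral.smul_integral_comp_mul_add (a := (0:ℝ)) (b := 1)
    (fun x => Complex.exp (c x)) (s - t) t
  rw [show (s - t) * 0 + t = t by ring, show (s - t) * 1 + t = s by ring, h1] at h3
  rw [← h3, Complex.real_smul]
  unfold chd
  congr 1
  · push_cast
    ring
  · refine intervalIntegral.integral_congr fun x _ => ?_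
    show Complex.exp (c (t + x * (s - t))) = Complex.exp (c ((s - t) * x + t))
    congr 2
    ring

theorem chd_eq {a c : ℝ → ℂ} (hc : Continuous c)
    (ha : ∀ s, HasDerivAt a (-Complex.exp (c s)) s) {t s : ℝ} (hts : t ≠ s) :
    chd c (t, s) = (a t - a s) / ((s : ℂ) - t) := by
  have h1 : ((s : ℂ) - t) ≠ 0 := by
    rw [sub_ne_zero]
    exact_mod_cast hts.symm
  rw [eq_div_iff h1, mul_comm]
  exact chd_mul hc ha t s

theorem chd_ne {a c : ℝ → ℂ} (hc : Continuous c)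
    (ha : ∀ s, HasDerivAt a (-Complex.exp (c s)) s) (hi : ∀ t s, t ≠ s → a t ≠ a s) (q : ℝ × ℝ) :
    chd c q ≠ 0 := by
  obtain ⟨t, s⟩ := q
  by_cases h : t = s
  · rw [h, chd_diag]
    exact Complex.exp_ne_zero _
  · rw [chd_eq hc ha h]
    refine div_ne_zero (sub_ne_zero.2 (hi t s h)) ?_
    rw [sub_ne_zero]
    exact_mod_cast (Ne.symm h)

/-- a continuous function with values in `2 π i ℤ` is constant -/
theorem log_const {f : ℝ → ℂ} (hf : Continuous f) (h1 : ∀ s, Complex.exp (f s) = 1) (h0 : f 0 = 0)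
    (s : ℝ) : f s = 0 := by
  have hπ := Real.pi_pos
  have hre : ∀ x, (f x).re = 0 := by
    intro x
    have h2 := congrArg norm (h1 x)
    rw [Complex.norm_exp, norm_one, Real.exp_eq_one_iff] at h2
    exact h2
  have hcos : ∀ x, Real.cos (f x).im = 1 := by
    intro x
    have h2 := hp_cos (h1 x)
    rw [hre, Real.exp_zero, one_mul, Complex.one_re] at h2
    exact h2.symm
  have hi : Continuous fun x => (f x).im := Complex.continuous_im.comp hf
  have h3 : |(f s).im| < π := by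
    by_contra h
    push Not at h
    have h4 : π ∈ uIcc |(f 0).im| |(f s).im| := by
      rw [h0, Complex.zero_im, abs_zero, uIcc_of_le (abs_nonneg _)]
      exact ⟨hπ.le, h⟩
    obtain ⟨x, -, hx⟩ := intermediate_value_uIcc (f := fun x => |(f x).im|)
      (hi.abs.continuousOn (s := uIcc 0 s)) h4
    have h5 := hcos x
    have hx' : |(f x).im| = π := hx
    rw [← Real.cos_abs, hx', Real.cos_pi] at h5
    norm_num at h5
  obtain ⟨n, hn⟩ := (Real.cos_eq_one_iff _).1 (hcos s)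
  have h6 : n = 0 := by
    rw [← hn, abs_lt] at h3
    have c1 : (-1 : ℝ) < n := by
      by_contra h
      push Not at h
      nlinarith only [h3, h]
    have c2 : (n : ℝ) < 1 := by
      by_contra h
      push Not at h
      (clear * - h3 h; nlinarith only [h3, h])
    have c3 : -1 < n := by exact_mod_cast c1
    have c4 : n < 1 := by exact_mod_cast c2
    omega
  rw [h6] at hn
  apply Complex.ext
  · rw [hre]; rfl
  · rw [← hn]; simp

/-- an angle with positive cosine stays between `-π/2` and `π/2` -/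
theorem stay_small {θ : ℝ → ℝ} {p q : ℝ} (hθ : ContinuousOn θ (uIcc p q))
    (hc : ∀ x ∈ uIcc p q, 0 < Real.cos (θ x)) (h : |θ p| < π / 2) : |θ q| < π / 2 := by
  by_contra hh
  push Not at hh
  have h4 : π / 2 ∈ uIcc |θ p| |θ q| := by
    rw [uIcc_of_le (h.le.trans hh)]
    exact ⟨h.le, hh⟩
  obtain ⟨x, hx, hx2⟩ := intermediate_value_uIcc (f := fun x => |θ x|) hθ.abs h4
  have h5 := hc x hx
  have hx' : |θ x| = π / 2 := hx2
  rw [← Real.cos_abs, hx', Real.cos_pi_div_two] at h5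
  exact lt_irrefl _ h5

/-- near infinity the chord is near `1` -/
theorem chd_near {c : ℝ → ℂ} {T ε : ℝ} (h : ∀ x, T ≤ x → ‖Complex.exp (c x) - 1‖ ≤ ε)
    (hc : Continuous c) {t s : ℝ} (ht : T ≤ t) (hts : t ≤ s) : ‖chd c (t, s) - 1‖ ≤ ε := by
  have h1 : chd c (t, s) - 1 = ∫ x in (0:ℝ)..1, (Complex.exp (c (t + x * (s - t))) - 1) := by
    unfold chd
    rw [intervalIntegral.integral_sub]
    · simp
    · exact (Complex.continuous_exp.comp (hc.comp (by fun_prop))).intervalIntegrable _ _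
    · exact continuous_const.intervalIntegrable _ _
  rw [h1]
  have h2 := intervalIntegral.norm_integral_le_of_norm_le_const (a := (0:ℝ)) (b := 1) (C := ε)
    (f := fun x => Complex.exp (c (t + x * (s - t))) - 1) (by
      intro x hx
      rw [uIoc_of_le zero_le_one] at hx
      refine h _ ?_
      (clear * - ht hx hts; nlinarith only [hx.1, ht, hts]))
  simpa using h2

/-- the chord tends to `1`, uniformly for `x` in `[t, t₀]` -/
theorem chd_lim {a c : ℝ → ℂ} (hc : Continuous c) (ha : ∀ s, HasDerivAt a (-Complex.exp (c s)) s)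
    (hinf : Tendsto c atTop (𝓝 0)) {t t₀ ε : ℝ} (hε : 0 < ε) :
    ∃ S : ℝ, t₀ < S ∧ ∀ s, S ≤ s → ∀ x ∈ Icc t t₀, ‖chd c (x, s) - 1‖ ≤ ε := by
  have hac : Continuous a := continuous_iff_continuousAt.2 fun s => (ha s).continuousAt
  obtain ⟨b, hb⟩ : ∃ b : ℝ → ℂ, b = fun s => a s + s := ⟨_, rfl⟩
  have hbd : ∀ s, HasDerivAt b (1 - Complex.exp (c s)) s := by
    intro s
    rw [hb]
    have h1 := (ha s).add (Complex.ofRealCLM.hasDerivAt (x := s))
    have e : -Complex.exp (c s) + Complex.ofRealCLM 1 = 1 - Complex.exp (c s) := by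
      simp only [Complex.ofRealCLM_apply, Complex.ofReal_one]
      ring
    rw [e] at h1
    exact h1
  have hexp : Tendsto (fun s => Complex.exp (c s)) atTop (𝓝 1) := by
    have := (Complex.continuous_exp.tendsto 0).comp hinf
    rwa [Complex.exp_zero] at this
  obtain ⟨Y, hY⟩ : ∃ Y : ℝ, ∀ s, Y ≤ s → ‖1 - Complex.exp (c s)‖ ≤ ε / 4 := by
    have h1 := (Metric.tendsto_atTop.1 hexp) (ε / 4) (by (clear * - hε; positivity))
    obtain ⟨Y, hY⟩ := h1
    refine ⟨Y, fun s hs => ?_⟩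
    have := (hY s hs).le
    rw [dist_eq_norm] at this
    rwa [norm_sub_rev]
  -- bound of `b` on `[t, t₀]`
  have hbc : Continuous b := by
    rw [hb]
    exact hac.add Complex.continuous_ofReal
  obtain ⟨K, hK⟩ := (isCompact_Icc (a := t) (b := t₀)).exists_bound_of_continuousOn
    (f := b) hbc.continuousOn
  obtain ⟨S, hS⟩ : ∃ S : ℝ, S = max (max Y 0) (max (t₀ + 1) (2 * |t₀| +
    4 * (|K| + ‖b (max Y 0)‖) / ε + 1)) := ⟨_, rfl⟩
  have hS1 : t₀ + 1 ≤ S := by rw [hS]; exact (le_max_left _ _).trans (le_max_right _ _)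
  have hS2 : max Y 0 ≤ S := by rw [hS]; exact le_max_left _ _
  have hS3 : 2 * |t₀| + 4 * (|K| + ‖b (max Y 0)‖) / ε + 1 ≤ S := by
    rw [hS]; exact (le_max_right _ _).trans (le_max_right _ _)
  refine ⟨S, by (clear * - hS1; linarith only [hS1]), fun s hs x hx => ?_⟩
  have hxs : x < s := by linarith [hx.2]
  have h1 := chd_mul hc ha x s
  have hsx : ((s : ℂ) - x) ≠ 0 := by
    rw [sub_ne_zero]
    exact_mod_cast hxs.ne'
  have e1 : chd c (x, s) - 1 = (b x - b s) / ((s : ℂ) - x) := by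
    rw [eq_div_iff hsx, hb]
    linear_combination h1
  have e2 : ‖((s : ℂ) - x)‖ = s - x := by
    have : ((s : ℂ) - x) = ((s - x : ℝ) : ℂ) := by push_cast; ring
    rw [this, Complex.norm_real, Real.norm_eq_abs, abs_of_pos (by (clear * - hxs; linarith only [hxs]))]
  rw [e1, norm_div, e2, div_le_iff₀ (by (clear * - hxs; linarith))]
  have h2 : ‖b s - b (max Y 0)‖ ≤ ε / 4 * ‖s - max Y 0‖ := by
    refine (convex_Ici (max Y 0)).norm_image_sub_le_of_norm_hasDerivWithin_le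
      (f := b) (f' := fun s => 1 - Complex.exp (c s)) (fun y _ => (hbd y).hasDerivWithinAt) ?_
      (self_mem_Ici) (hS2.trans hs)
    intro y hy
    exact hY y ((le_max_left _ _).trans hy)
  have h3 : ‖s - max Y 0‖ ≤ s := by
    rw [Real.norm_eq_abs, abs_of_nonneg (by linarith only [hS2, hs])]
    linarith only [le_max_right Y 0]
  have h4 : ‖b x - b s‖ ≤ |K| + ‖b (max Y 0)‖ + ε / 4 * s := by
    have g1 : ‖b x - b s‖ ≤ ‖b x‖ + ‖b s‖ := norm_sub_le _ _
    have g2 : ‖b s‖ ≤ ‖b s - b (max Y 0)‖ + ‖b (max Y 0)‖ := by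
      have := norm_add_le (b s - b (max Y 0)) (b (max Y 0))
      rwa [sub_add_cancel] at this
    have g3 := hK x hx
    have g4 := le_abs_self K
    have g5 : ε / 4 * ‖s - max Y 0‖ ≤ ε / 4 * s := mul_le_mul_of_nonneg_left h3 (by positivity)
    linarith only [h2, g1, g2, g3, g4, g5]
  have h5 : 4 * (|K| + ‖b (max Y 0)‖) / ε ≤ s := by
    have := abs_nonneg t₀
    linarith only [hS3, hs, this]
  have h6 : |K| + ‖b (max Y 0)‖ ≤ ε / 4 * s := by
    rw [div_le_iff₀ hε] at h5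
    linarith only [h5]
  have h7 : s / 2 ≤ s - x := by
    have g1 := le_abs_self t₀
    have g2 : 0 ≤ 4 * (|K| + ‖b (max Y 0)‖) / ε := by (clear * - hε; positivity)
    linarith only [hx.2, hS3, hs, g1, g2]
  nlinarith only [hε, h4, h6, h7]

/-- the logarithm of the chord -/
theorem chord {a c : ℝ → ℂ} (hc : Continuous c) (ha : ∀ s, HasDerivAt a (-Complex.exp (c s)) s)
    (hi : ∀ t s, t ≠ s → a t ≠ a s) (hinf : Tendsto c atTop (𝓝 0)) :
    ∃ L : ℝ × ℝ → ℂ, Continuous L ∧ (∀ q, Complex.exp (L q) = chd c q) ∧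
      (∀ t s, t ≠ s → Complex.exp (L (t, s)) = (a t - a s) / ((s : ℂ) - t)) ∧
      (∀ s, L (s, s) = c s) ∧ ∀ t, Tendsto (fun s => (L (t, s)).im) atTop (𝓝 0) := by
  have hπ := Real.pi_gt_three
  obtain ⟨l, hl, hle⟩ := exists_log (chd_cont hc) (chd_ne hc ha hi)
  obtain ⟨n, hn⟩ : ∃ n : ℤ, l (0, 0) = c 0 + n * (2 * π * Complex.I) := by
    have h1 := hle (0, 0)
    rw [chd_diag] at h1
    exact Complex.exp_eq_exp_iff_exists_int.1 h1
  obtain ⟨L, hL⟩ : ∃ L : ℝ × ℝ → ℂ, L = fun q => l q - n * (2 * π * Complex.I) := ⟨_, rfl⟩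
  have hLc : Continuous L := by
    rw [hL]
    exact hl.sub continuous_const
  have hLe : ∀ q, Complex.exp (L q) = chd c q := by
    intro q
    rw [hL]
    show Complex.exp (l q - n * (2 * π * Complex.I)) = _
    rw [Complex.exp_sub, Complex.exp_int_mul_two_pi_mul_I, div_one, hle]
  have hLd : ∀ s, L (s, s) = c s := by
    intro s
    have h1 := log_const (f := fun s => L (s, s) - c s) (by fun_prop)
      (by
        intro x
        show Complex.exp (L (x, x) - c x) = 1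
        rw [Complex.exp_sub, hLe, chd_diag, div_self (Complex.exp_ne_zero _)])
      (by
        show L (0, 0) - c 0 = 0
        rw [hL]
        show l (0, 0) - n * (2 * π * Complex.I) - c 0 = 0
        rw [hn]
        ring) s
    exact sub_eq_zero.1 h1
  refine ⟨L, hLc, hLe, fun t s hts => by rw [hLe, chd_eq hc ha hts], hLd, fun t => ?_⟩
  -- positive real part
  have hpos : ∀ {z l : ℂ}, ‖z - 1‖ ≤ 1 / 2 → Complex.exp l = z → 0 < Real.cos l.im := by
    intro z l hz h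
    have h1 := hp_cos h
    have h2 : |(z - 1).re| ≤ 1 / 2 := (Complex.abs_re_le_norm _).trans hz
    rw [Complex.sub_re, Complex.one_re, abs_le] at h2
    by_contra hh
    push Not at hh
    have := mul_nonpos_of_nonneg_of_nonpos (Real.exp_pos l.re).le hh
    linarith only [h1, h2, this]
  have hexp : Tendsto (fun s => Complex.exp (c s)) atTop (𝓝 1) := by
    have := (Complex.continuous_exp.tendsto 0).comp hinf
    rwa [Complex.exp_zero] at this
  obtain ⟨T₁, hT₁⟩ := (Metric.tendsto_atTop.1 hexp) (1 / 2) (by norm_num)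
  obtain ⟨T₂, hT₂⟩ := (Metric.tendsto_atTop.1 hinf) 1 one_pos
  obtain ⟨t₀, ht₀⟩ : ∃ t₀ : ℝ, t₀ = max t (max T₁ T₂) := ⟨_, rfl⟩
  have h01 : t ≤ t₀ := by rw [ht₀]; exact le_max_left _ _
  have h02 : T₁ ≤ t₀ := by rw [ht₀]; exact (le_max_left _ _).trans (le_max_right _ _)
  have h03 : T₂ ≤ t₀ := by rw [ht₀]; exact (le_max_right _ _).trans (le_max_right _ _)
  have hstart : |(L (t₀, t₀)).im| < π / 2 := by
    rw [hLd]
    have h1 := hT₂ t₀ h03
    rw [dist_eq_norm, sub_zero] at h1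
    have := Complex.abs_im_le_norm (c t₀)
    (clear * - hπ h1 this; linarith)
  have hrow : ∀ s, t₀ ≤ s → |(L (t₀, s)).im| < π / 2 := by
    intro s hs
    refine stay_small (θ := fun s => (L (t₀, s)).im) (p := t₀) (q := s)
      (Complex.continuous_im.comp (hLc.comp (by fun_prop))).continuousOn ?_ hstart
    intro x hx
    rw [uIcc_of_le hs] at hx
    refine hpos (chd_near (T := t₀) (fun y hy => ?_) hc le_rfl hx.1) (hLe (t₀, x))
    have := (hT₁ y (h02.trans hy)).le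
    rwa [dist_eq_norm] at this
  obtain ⟨S, hS0, hS⟩ := chd_lim (t := t) (t₀ := t₀) (ε := 1 / 2) hc ha hinf (by norm_num)
  have hcol : ∀ s, S ≤ s → |(L (t, s)).im| < π / 2 := by
    intro s hs
    refine stay_small (θ := fun x => (L (x, s)).im) (p := t₀) (q := t)
      (Complex.continuous_im.comp (hLc.comp (by fun_prop))).continuousOn ?_
      (hrow s (hS0.le.trans hs))
    intro x hx
    rw [uIcc_of_ge h01] at hx
    exact hpos (hS s hs x hx) (hLe (x, s))
  have hlim : Tendsto (fun s => chd c (t, s)) atTop (𝓝 1) := by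
    rw [Metric.tendsto_atTop]
    intro ε hε
    obtain ⟨S', -, hS'⟩ := chd_lim (t := t) (t₀ := t) (ε := ε / 2) hc ha hinf (by positivity)
    refine ⟨S', fun s hs => ?_⟩
    rw [dist_eq_norm]
    have := hS' s hs t ⟨le_rfl, le_rfl⟩
    linarith only [hε, this]
  have harg : Tendsto (fun s => Complex.arg (chd c (t, s))) atTop (𝓝 0) := by
    have h1 := (Complex.continuousAt_arg (x := 1) (by simp)).tendsto.comp hlim
    rwa [Complex.arg_one] at h1
  refine harg.congr' ?_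
  filter_upwards [eventually_ge_atTop S] with s hs
  have h1 := hcol s hs
  rw [abs_lt] at h1
  have h2 := Complex.log_exp (x := L (t, s)) (by (clear * - h1; linarith only [h1])) (by linarith [h1.2])
  rw [← Complex.log_im, ← hLe, h2]

end Pool.Agent.Helper97.G4
end

/- Helper24.K6w.H97.G4.Far -/
section
/-!
# G4: the movement of the branch, far points

If `F` moves along the segment from `v` to `v'` less than the distance of `F u` from `F v`, the
difference of the two branches is the principal logarithm of `1 - s / z`, `s = F v' - F v`,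
`z = F u - F v`.
-/

set_option autoImplicit false

namespace Pool.Agent.Helper97.G4

open MeasureTheory Set
open scoped Real
open Pool.Agent.Helper26.G4 (Br Lb EE al Xh Lb_exp)
open Pool.Agent.Helper90.G2 (Fn)

theorem Lb_cont_v {F : ℂ → ℂ} {Λ : ℂ → ℂ → ℂ} (hΛ : Br F Λ) {u : ℂ} (hu : 0 < u.re) :
    ContinuousOn (fun w => Lb Λ w u) {w : ℂ | u.re < w.re ∧ |w.im - u.im| < 2 * π} := by
  unfold Lb
  refine ContinuousOn.add ?_ ?_
  · refine hΛ.cont.comp (f := fun w : ℂ => (w, u)) (by fun_prop) ?_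
    intro w hw
    exact ⟨hu.trans hw.1, hu, hw.2⟩
  · refine ContinuousOn.clog (by fun_prop) ?_
    intro w hw
    refine Or.inl ?_
    rw [Complex.sub_re]
    (clear * - hw; linarith [hw.1])

theorem far_log {F : ℂ → ℂ} {Λ : ℂ → ℂ → ℂ} (hΛ : Br F Λ) {u v v' : ℂ} (hu : 0 < u.re)
    (h : ∀ w ∈ segment ℝ v v', u.re < w.re ∧ |w.im - u.im| < 2 * π ∧
      ‖F w - F v‖ < ‖F u - F v‖) :
    Lb Λ v' u - Lb Λ v u = Complex.log (1 - (F v' - F v) / (F u - F v)) := by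
  have hπ := Real.pi_gt_three
  have hv : v ∈ segment ℝ v v' := left_mem_segment ℝ v v'
  have hv' : v' ∈ segment ℝ v v' := right_mem_segment ℝ v v'
  obtain ⟨w, hw⟩ : ∃ w : ℝ → ℂ, w = fun x : ℝ => v + (x : ℂ) * (v' - v) := ⟨_, rfl⟩
  have hws : ∀ x ∈ Icc (0:ℝ) 1, w x ∈ segment ℝ v v' := by
    intro x hx
    rw [segment_eq_image']
    refine ⟨x, hx, ?_⟩
    rw [hw]
    simp [Complex.real_smul]
  have hwc : Continuous w := by
    rw [hw]
    fun_prop
  have hw0 : w 0 = v := by rw [hw]; simp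
  have hw1 : w 1 = v' := by rw [hw]; simp
  have hz : 0 < ‖F u - F v‖ := by
    have := (h v hv).2.2
    rwa [sub_self, norm_zero] at this
  have hz0 : F u - F v ≠ 0 := norm_pos_iff.1 hz
  obtain ⟨f, hf⟩ : ∃ f : ℝ → ℂ, f = fun x => Lb Λ (w x) u - Lb Λ v u := ⟨_, rfl⟩
  have hfc : ContinuousOn f (Icc 0 1) := by
    rw [hf]
    refine ContinuousOn.sub ?_ continuousOn_const
    refine (Lb_cont_v hΛ hu).comp hwc.continuousOn ?_
    intro x hx
    exact ⟨(h _ (hws x hx)).1, (h _ (hws x hx)).2.1⟩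
  have hfe : ∀ x ∈ Icc (0:ℝ) 1, Complex.exp (f x) = 1 - (F (w x) - F v) / (F u - F v) := by
    intro x hx
    have h1 := h _ (hws x hx)
    rw [hf]
    show Complex.exp (Lb Λ (w x) u - Lb Λ v u) = _
    rw [Complex.exp_sub, Lb_exp hΛ hu h1.1 h1.2.1, Lb_exp hΛ hu (h v hv).1 (h v hv).2.1]
    have e : F v - F u ≠ 0 := by
      rw [← neg_sub]
      exact neg_ne_zero.2 hz0
    field_simp
    ring
  have hre : ∀ x ∈ Icc (0:ℝ) 1, 0 < Real.cos (f x).im := by
    intro x hx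
    have h1 := (h _ (hws x hx)).2.2
    have h2 := hp_cos (hfe x hx)
    have h3 : |((F (w x) - F v) / (F u - F v)).re| < 1 := by
      refine (Complex.abs_re_le_norm _).trans_lt ?_
      rw [norm_div, div_lt_one hz]
      exact h1
    rw [Complex.sub_re, Complex.one_re] at h2
    by_contra hh
    push Not at hh
    have h4 := mul_nonpos_of_nonneg_of_nonpos (Real.exp_pos (f x).re).le hh
    have h5 := (abs_lt.1 h3).2
    (clear * - h2 h4 h5; linarith only [h2, h4, h5])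
  have h01 : (0:ℝ) ≤ 1 := zero_le_one
  have him : |(f 1).im| < π / 2 := by
    refine stay_small (θ := fun x => (f x).im) (p := 0) (q := 1) ?_ ?_ ?_
    · rw [uIcc_of_le h01]
      exact Complex.continuous_im.comp_continuousOn hfc
    · rw [uIcc_of_le h01]
      exact hre
    · rw [hf]
      simp only [hw0, sub_self, Complex.zero_im, abs_zero]
      positivity
  have h6 := Complex.log_exp (x := f 1) (by (clear * - him hπ; linarith only [(abs_lt.1 him).1, hπ]))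
    (by linarith only [(abs_lt.1 him).2, hπ])
  rw [hfe 1 ⟨h01, le_rfl⟩, hw1] at h6
  rw [h6, hf]
  simp only [hw1]

/-- `|log (1 - x) + x| ≤ |x|²` for `|x| ≤ 1/2` -/
theorem log_quad {x : ℂ} (hx : ‖x‖ ≤ 1 / 2) : ‖Complex.log (1 - x) + x‖ ≤ ‖x‖ ^ 2 := by
  have h1 : ‖-x‖ < 1 := by rw [norm_neg]; (clear * - hx; linarith only [hx])
  have h2 := Complex.norm_log_one_add_sub_self_le (z := -x) h1
  rw [norm_neg] at h2
  have e : Complex.log (1 + -x) - -x = Complex.log (1 - x) + x := by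
    rw [sub_neg_eq_add, ← sub_eq_add_neg]
  rw [e] at h2
  have h3 : (1 - ‖x‖)⁻¹ ≤ 2 := by
    rw [inv_le_comm₀ (by (clear * - hx; linarith only [hx])) two_pos]
    (clear * - hx; linarith only [hx])
  have h4 : 0 ≤ ‖x‖ ^ 2 := by positivity
  (clear * - h2 h3; nlinarith only [h2, h3])

/-- the movement of the exponent, far points; `ω = τ / |τ|` or any `ω` with `τ = |τ| ω` -/
theorem far_al {F : ℂ → ℂ} {Λ : ℂ → ℂ → ℂ} (hΛ : Br F Λ) {τ ω u v v' : ℂ} {r B : ℝ}
    (hτ : τ = ‖τ‖ * ω) (hu : 0 < u.re) (hr : 0 < r)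
    (h : ∀ w ∈ segment ℝ v v', u.re < w.re ∧ |w.im - u.im| < 2 * π ∧ 2 * ‖F w - F v‖ ≤ r)
    (hz : r ≤ ‖F u - F v‖) :
    al Λ τ v' u - al Λ τ v u ≤ ‖τ‖ * Xh ω (F v' - F v) (F u - F v) r B := by
  have hz0 : 0 < ‖F u - F v‖ := hr.trans_le hz
  have h1 := far_log hΛ (v := v) (v' := v') hu (fun w hw => ⟨(h w hw).1, (h w hw).2.1, by
    have := (h w hw).2.2
    have := norm_nonneg (F w - F v)
    linarith⟩)
  have h2 : ‖(F v' - F v) / (F u - F v)‖ ≤ 1 / 2 := by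
    rw [norm_div, div_le_iff₀ hz0]
    have := (h v' (right_mem_segment ℝ v v')).2.2
    linarith only [hz, this]
  have h3 := log_quad h2
  rw [← h1] at h3
  obtain ⟨s, hs⟩ : ∃ s : ℂ, s = F v' - F v := ⟨_, rfl⟩
  obtain ⟨z, hzz⟩ : ∃ z : ℂ, z = F u - F v := ⟨_, rfl⟩
  rw [← hs, ← hzz] at h3 ⊢
  rw [← hzz] at hz hz0
  unfold Xh al
  rw [if_neg (not_lt.2 hz)]
  have e1 : -(τ * Lb Λ v' u).re - -(τ * Lb Λ v u).re =
      ‖τ‖ * (ω * s / z).re - (τ * (Lb Λ v' u - Lb Λ v u + s / z)).re := by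
    have e2 : ‖τ‖ * (ω * s / z).re = (τ * (s / z)).re := by
      rw [← Complex.re_ofReal_mul]
      congr 1
      conv_rhs => rw [hτ]
      ring
    rw [e2, mul_add, mul_sub, Complex.add_re, Complex.sub_re]
    ring
  rw [e1]
  have h4 : -(τ * (Lb Λ v' u - Lb Λ v u + s / z)).re ≤ ‖τ‖ * (‖s‖ ^ 2 / ‖z‖ ^ 2) := by
    refine (neg_le_abs _).trans ((Complex.abs_re_le_norm _).trans ?_)
    rw [norm_mul]
    refine mul_le_mul_of_nonneg_left ?_ (norm_nonneg _)
    rw [norm_div, div_pow] at h3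
    exact h3
  (clear * - h4; linarith)

/-- near points: the bound `B` of the movement -/
theorem near_al {F : ℂ → ℂ} {Λ : ℂ → ℂ → ℂ} {τ ω u v v' : ℂ} {r B : ℝ}
    (hB : ‖Lb Λ v' u - Lb Λ v u‖ ≤ B) (hz : ‖F u - F v‖ < r) :
    al Λ τ v' u - al Λ τ v u ≤ ‖τ‖ * Xh ω (F v' - F v) (F u - F v) r B := by
  unfold Xh al
  rw [if_pos hz]
  have e1 : -(τ * Lb Λ v' u).re - -(τ * Lb Λ v u).re = -(τ * (Lb Λ v' u - Lb Λ v u)).re := by
    rw [mul_sub, Complex.sub_re]
    ring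
  rw [e1]
  refine (neg_le_abs _).trans ((Complex.abs_re_le_norm _).trans ?_)
  rw [norm_mul]
  exact mul_le_mul_of_nonneg_left hB (norm_nonneg _)

/-- the elementary inequality of the step -/
theorem step_real {a a' δ X m B W : ℝ} (hδ : 0 ≤ δ) (h : a' - a ≤ δ * X) (hX : X ≤ B)
    (hB : m < X → a + δ * B ≤ W) :
    Real.exp a' ≤ Real.exp (δ * m) * Real.exp a + Real.exp W * (δ * max (X - m) 0) := by
  rcases le_or_gt X m with hm | hm
  · have h1 : Real.exp a' ≤ Real.exp (δ * m) * Real.exp a := by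
      rw [← Real.exp_add]
      refine Real.exp_le_exp.2 ?_
      have := mul_le_mul_of_nonneg_left hm hδ
      linarith only [h, this]
    have h2 : 0 ≤ Real.exp W * (δ * max (X - m) 0) := by
      have := le_max_right (X - m) 0
      (clear * - hδ; positivity)
    (clear * - h1 h2; linarith only [h1, h2])
  · rw [max_eq_left (by linarith)]
    have h1 : Real.exp a' ≤ Real.exp (a + δ * X) := Real.exp_le_exp.2 (by linarith)
    have h2 : Real.exp (a + δ * X) - Real.exp (a + δ * m) ≤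
        Real.exp (a + δ * X) * (δ * (X - m)) := by
      have h3 := Real.add_one_le_exp (-(δ * (X - m)))
      have h4 : Real.exp (a + δ * m) = Real.exp (a + δ * X) * Real.exp (-(δ * (X - m))) := by
        rw [← Real.exp_add]
        congr 1
        ring
      rw [h4]
      have h5 := Real.exp_pos (a + δ * X)
      (clear * - h3 h5; nlinarith only [h3, h5])
    have h6 : Real.exp (a + δ * X) ≤ Real.exp W := by
      refine Real.exp_le_exp.2 ?_
      have h7 := mul_le_mul_of_nonneg_left hX hδ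
      have h8 := hB hm
      linarith
    have h9 : 0 ≤ δ * (X - m) := mul_nonneg hδ (by (clear * - hm; linarith))
    have h10 := mul_le_mul_of_nonneg_right h6 h9
    rw [← Real.exp_add (δ * m) a, add_comm (δ * m) a]
    (clear * - h1 h2 h10; linarith)

end Pool.Agent.Helper97.G4
end

/- Helper24.K6w.H26.G4.Far -/
section
/-!
# G4-FAR: the movement of the weight

`Δ = Lb Λ v' u - Lb Λ v u`, `s = F v' - F v`, `z = F u - F v`. If `|z| ≥ 2 KN rr`: for `w` in the segment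
`|F w - F v| ≤ KN rr` (`disp_le`), so `Δ = log (1 - s / z)` (`Helper97.G4.far_log`) and
`|Δ + s / z| ≤ |s / z|²` (`log_quad`). `move_le`: `ω = τ / |τ|`, if `|z| < r` use `step_le`.
-/

set_option autoImplicit false

namespace Pool.Agent.Helper26.G4

open MeasureTheory Set
open scoped Real
open Pool.Agent.Helper90.G2 (Bx Wn Fn ar ch Cen chi)

theorem far_geo {F : ℂ → ℂ} {A : ℝ} (hF : Fn F A) {Λ : ℂ → ℂ → ℂ} (hΛ : Br F Λ) {N d : ℕ}
    (hN : 2 ≤ N) (hd : d < N) {c ℓ : ℝ} (hℓ : 0 < ℓ) (hℓ1 : ℓ ≤ 1) {u : ℂ}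
    (hu : u ∈ Bx (ch N c ℓ d) (ℓ / N)) {w : ℂ}
    (hw : w ∈ segment ℝ (vt c ℓ) (vt (ch N c ℓ d) (ℓ / N))) :
    u.re < w.re ∧ |w.im - u.im| < 2 * π ∧ ‖F w - F (vt c ℓ)‖ ≤ KN N * rr F (vt c ℓ) := by
  obtain ⟨hp, hle⟩ := seg_div hN hℓ
  obtain ⟨h3, h4, h5, _⟩ := seg_mem hN hd hℓ hw
  have hc := seg_ch hN hd (c := c) hℓ
  obtain ⟨hu0, hu1, hu2⟩ := hu
  have hpi := Real.pi_gt_three
  refine ⟨by linarith only [h3, hu0, hu1], ?_, disp_le hF hΛ hN hd hℓ hℓ1 hw⟩
  have h6 : w.im - u.im = (w.im - c) - (ch N c ℓ d - c) - (u.im - ch N c ℓ d) := by ring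
  have h7 := abs_le.1 h5
  have h8 := abs_le.1 hc
  have h9 := abs_lt.1 hu2
  rw [abs_lt, h6]
  constructor <;> (clear * - hℓ1 h3 h4 hpi h7 h8 h9; linarith only [hℓ1, h3, h4, hpi, h7, h8, h9])

theorem far {F : ℂ → ℂ} {A : ℝ} (hF : Fn F A) {Λ : ℂ → ℂ → ℂ} (hΛ : Br F Λ) {N d : ℕ}
    (hN : 2 ≤ N) (hd : d < N) {c ℓ : ℝ} (hℓ : 0 < ℓ) (hℓ1 : ℓ ≤ 1) {u : ℂ}
    (hu : u ∈ Bx (ch N c ℓ d) (ℓ / N)) (hz : 2 * KN N * rr F (vt c ℓ) ≤ ‖F u - F (vt c ℓ)‖) :
    ‖Lb Λ (vt (ch N c ℓ d) (ℓ / N)) u - Lb Λ (vt c ℓ) u +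
      (F (vt (ch N c ℓ d) (ℓ / N)) - F (vt c ℓ)) / (F u - F (vt c ℓ))‖ ≤
    (‖F (vt (ch N c ℓ d) (ℓ / N)) - F (vt c ℓ)‖ / ‖F u - F (vt c ℓ)‖) ^ 2 := by
  have hv : 0 < (vt c ℓ).re := by
    show 0 < 2 * ℓ
    (clear * - hℓ; positivity)
  have hr : 0 < KN N * rr F (vt c ℓ) := mul_pos (Real.exp_pos _) (rr_pos hF hv)
  have hz0 : 0 < ‖F u - F (vt c ℓ)‖ := by
    refine lt_of_lt_of_le ?_ hz
    rw [mul_assoc]
    linarith only [hr]
  have h1 := Pool.Agent.Helper97.G4.far_log hΛ (v := vt c ℓ)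
    (v' := vt (ch N c ℓ d) (ℓ / N)) hu.1 (fun w hw => by
      obtain ⟨h2, h3, h4⟩ := far_geo hF hΛ hN hd hℓ hℓ1 hu hw
      refine ⟨h2, h3, ?_⟩
      rw [mul_assoc] at hz
      (clear * - hz hz0 h4; linarith only [hz, hz0, h4]))
  have h2 : ‖(F (vt (ch N c ℓ d) (ℓ / N)) - F (vt c ℓ)) / (F u - F (vt c ℓ))‖ ≤ 1 / 2 := by
    rw [norm_div, div_le_iff₀ hz0]
    have h3 := (far_geo hF hΛ hN hd hℓ hℓ1 hu
      (right_mem_segment ℝ (vt c ℓ) (vt (ch N c ℓ d) (ℓ / N)))).2.2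
    rw [mul_assoc] at hz
    (clear * - hz h3; linarith only [hz, h3])
  have h3 := Pool.Agent.Helper97.G4.log_quad h2
  rw [← h1, norm_div] at h3
  exact h3

/-- the movement of the exponent of the weight is at most `δ Xh` -/
theorem move_le {F : ℂ → ℂ} {A : ℝ} (hF : Fn F A) {Λ : ℂ → ℂ → ℂ} (hΛ : Br F Λ) {N d : ℕ}
    (hN : 2 ≤ N) (hd : d < N) {c ℓ : ℝ} (hℓ : 0 < ℓ) (hℓ1 : ℓ ≤ 1) {τ : ℂ} (hτ : 0 < ‖τ‖) {u : ℂ}
    (hu : u ∈ Bx (ch N c ℓ d) (ℓ / N)) :
    al Λ τ (vt (ch N c ℓ d) (ℓ / N)) u - al Λ τ (vt c ℓ) u ≤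
      ‖τ‖ * Xh (τ / ‖τ‖) (F (vt (ch N c ℓ d) (ℓ / N)) - F (vt c ℓ)) (F u - F (vt c ℓ))
        (2 * KN N * rr F (vt c ℓ)) (10 * N) := by
  have hv : 0 < (vt c ℓ).re := by
    show 0 < 2 * ℓ
    (clear * - hℓ; positivity)
  have hr : 0 < 2 * KN N * rr F (vt c ℓ) :=
    mul_pos (mul_pos two_pos (Real.exp_pos _)) (rr_pos hF hv)
  rcases lt_or_ge ‖F u - F (vt c ℓ)‖ (2 * KN N * rr F (vt c ℓ)) with h | h
  · exact Pool.Agent.Helper97.G4.near_al
      (step_le hF hΛ hN hd hℓ hℓ1 hu (right_mem_segment ℝ _ _)) h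
  · refine Pool.Agent.Helper97.G4.far_al hΛ ?_ hu.1 hr ?_ h
    · have h0 : (‖τ‖ : ℂ) ≠ 0 := by
        exact_mod_cast hτ.ne'
      (clear * - h0; field_simp)
    · intro w hw
      obtain ⟨h2, h3, h4⟩ := far_geo hF hΛ hN hd hℓ hℓ1 hu hw
      refine ⟨h2, h3, ?_⟩
      rw [mul_assoc]
      linarith only [h4]

end Pool.Agent.Helper26.G4
end

/- Helper24.K6w.H26.G4.Step -/
section
/-!
# G4-STEP: the pointwise step

Let `X` be the movement divided by `δ = |τ|`, `m = δ m0`, `X ≤ Xh` (`move_le`). If `X ≤ m` the first term is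
enough. If `X > m`: then `|z| ≤ (2 KN / δ) rr`: otherwise `|z| ≥ 2 KN rr` (`δ ≤ 1`), `|s| ≤ KN rr`
(`disp_le`), `Xh ≤ |s|/|z| + |s|²/|z|² ≤ (3/2) |s|/|z| ≤ (3/4) δ < m`. So `u` not bad gives
`|wd| ≤ ε / δ` and `up_le`; `e^(α') - e^(δ m) e^α = e^(α') (1 - e^(-δ (X - m))) ≤ e^(α') δ (Xh - m)`.
-/

set_option autoImplicit false

namespace Pool.Agent.Helper26.G4

open MeasureTheory Set
open scoped Real
open Pool.Agent.Helper90.G2 (Bx Wn Fn ar ch Cen chi)

theorem Step_omega {τ : ℂ} (hτ : 0 < ‖τ‖) : ‖τ / ‖τ‖‖ = 1 := by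
  rw [norm_div, Complex.norm_real, norm_norm, div_self hτ.ne']

/-- a positive excess only occurs near `F v` -/
theorem Step_near {F : ℂ → ℂ} {A : ℝ} (hF : Fn F A) {Λ : ℂ → ℂ → ℂ} (hΛ : Br F Λ) {N d : ℕ}
    (hN : 2 ≤ N) (hd : d < N) {c ℓ : ℝ} (hℓ : 0 < ℓ) (hℓ1 : ℓ ≤ 1) {τ : ℂ} (hτ : 0 < ‖τ‖)
    (hτ1 : ‖τ‖ ≤ 1) {m0 : ℝ} (hm : 1 ≤ m0) {u : ℂ}
    (hX : ‖τ‖ * m0 < Xh (τ / ‖τ‖) (F (vt (ch N c ℓ d) (ℓ / N)) - F (vt c ℓ)) (F u - F (vt c ℓ))
      (2 * KN N * rr F (vt c ℓ)) (10 * N)) :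
    ‖F (vt c ℓ) - F u‖ ≤ 2 * KN N / ‖τ‖ * rr F (vt c ℓ) := by
  by_contra hh
  push Not at hh
  rw [norm_sub_rev] at hh
  have hv : 0 < (vt c ℓ).re := by
    show 0 < 2 * ℓ
    positivity
  have hR := rr_pos hF hv
  have hK : 0 < KN N := Real.exp_pos _
  have hs := disp_le hF hΛ hN hd (c := c) hℓ hℓ1
    (right_mem_segment ℝ (vt c ℓ) (vt (ch N c ℓ d) (ℓ / N)))
  obtain ⟨s, hs'⟩ : ∃ s : ℂ, s = F (vt (ch N c ℓ d) (ℓ / N)) - F (vt c ℓ) := ⟨_, rfl⟩
  obtain ⟨z, hz'⟩ : ∃ z : ℂ, z = F u - F (vt c ℓ) := ⟨_, rfl⟩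
  obtain ⟨R, hR'⟩ : ∃ R : ℝ, R = rr F (vt c ℓ) := ⟨_, rfl⟩
  rw [← hs', ← hR'] at hs
  rw [← hz', ← hR'] at hh
  rw [← hs', ← hz', ← hR'] at hX
  rw [← hR'] at hR
  have h1 : 2 * KN N * R ≤ 2 * KN N / ‖τ‖ * R := by
    refine mul_le_mul_of_nonneg_right ?_ hR.le
    rw [le_div_iff₀ hτ]
    nlinarith only [hτ1, hK]
  have hzr : ¬ ‖z‖ < 2 * KN N * R := not_lt.2 (h1.trans hh.le)
  have hz0 : 0 < ‖z‖ := lt_of_lt_of_le (by (clear * - hK hR; positivity)) (h1.trans hh.le)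
  unfold Xh at hX
  rw [if_neg hzr] at hX
  have h2 : ‖s‖ / ‖z‖ ≤ ‖τ‖ / 2 := by
    rw [div_le_div_iff₀ hz0 two_pos]
    have h3 : 2 * KN N / ‖τ‖ * R * ‖τ‖ = 2 * KN N * R := by
      (clear * - hτ hR hK; field_simp)
    have h4 := mul_le_mul_of_nonneg_right hh.le hτ.le
    rw [h3] at h4
    linarith only [hs, h4]
  have h3 : (τ / ‖τ‖ * s / z).re ≤ ‖s‖ / ‖z‖ := by
    refine (Complex.re_le_norm _).trans ?_
    rw [norm_div, norm_mul, Step_omega hτ, one_mul]
  have h4 : ‖s‖ ^ 2 / ‖z‖ ^ 2 ≤ (‖τ‖ / 2) ^ 2 := by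
    rw [← div_pow]
    exact pow_le_pow_left₀ (by (clear * - hz0; positivity)) h2 2
  have h5 : ‖τ‖ ≤ ‖τ‖ * m0 := by (clear * - hτ hm; nlinarith only [hτ, hm])
  nlinarith only [hτ, hτ1, hX, h2, h3, h4, h5]

theorem step_pt {F : ℂ → ℂ} {A : ℝ} (hF : Fn F A) {Λ : ℂ → ℂ → ℂ} (hΛ : Br F Λ) {N d : ℕ}
    (hN : 2 ≤ N) (hd : d < N) {c ℓ : ℝ} (hℓ : 0 < ℓ) (hℓ1 : ℓ ≤ 1) {τ : ℂ} (hτ : 0 < ‖τ‖)
    (hτ1 : ‖τ‖ ≤ 1) {ε m0 : ℝ} (hε : 0 < ε) (hm : 1 ≤ m0)
    (hs : ‖τ‖ * (10 * N + Real.log (2 * KN N / ‖τ‖ + KN N)) ≤ ε) {u : ℂ}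
    (hu : u ∈ Bx (ch N c ℓ d) (ℓ / N))
    (hb : ¬ Bad F Λ (ε / ‖τ‖) (2 * KN N / ‖τ‖) (vt c ℓ) u) :
    Real.exp (al Λ τ (vt (ch N c ℓ d) (ℓ / N)) u) ≤
      Real.exp (‖τ‖ ^ 2 * m0) * Real.exp (al Λ τ (vt c ℓ) u) +
      Real.exp (w0 Λ τ (vt c ℓ) + 2 * ε) * (‖τ‖ *
        max (Xh (τ / ‖τ‖) (F (vt (ch N c ℓ d) (ℓ / N)) - F (vt c ℓ)) (F u - F (vt c ℓ))
          (2 * KN N * rr F (vt c ℓ)) (10 * N) - ‖τ‖ * m0) 0) := by
  have hmv := move_le hF hΛ hN hd hℓ hℓ1 hτ hu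
  obtain ⟨X, hX⟩ : ∃ X : ℝ, X = Xh (τ / ‖τ‖) (F (vt (ch N c ℓ d) (ℓ / N)) - F (vt c ℓ))
    (F u - F (vt c ℓ)) (2 * KN N * rr F (vt c ℓ)) (10 * N) := ⟨_, rfl⟩
  have hnear := Step_near hF hΛ hN hd (c := c) hℓ hℓ1 hτ hτ1 hm (u := u)
  rw [← hX] at hmv hnear ⊢
  obtain ⟨a, ha⟩ : ∃ a : ℝ, a = al Λ τ (vt c ℓ) u := ⟨_, rfl⟩
  obtain ⟨a', ha'⟩ : ∃ a' : ℝ, a' = al Λ τ (vt (ch N c ℓ d) (ℓ / N)) u := ⟨_, rfl⟩
  rw [← ha, ← ha'] at hmv ⊢
  have e1 : ‖τ‖ ^ 2 * m0 = ‖τ‖ * (‖τ‖ * m0) := by ring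
  rw [e1]
  rcases le_or_gt X (‖τ‖ * m0) with h | h
  · have h1 : Real.exp a' ≤ Real.exp (‖τ‖ * (‖τ‖ * m0)) * Real.exp a := by
      rw [← Real.exp_add]
      refine Real.exp_le_exp.2 ?_
      have := mul_le_mul_of_nonneg_left h hτ.le
      linarith only [hmv, this]
    have h2 : 0 ≤ Real.exp (w0 Λ τ (vt c ℓ) + 2 * ε) * (‖τ‖ * max (X - ‖τ‖ * m0) 0) := by
      have := le_max_right (X - ‖τ‖ * m0) 0
      (clear * - hτ; positivity)
    linarith only [h1, h2]
  · have hz := hnear h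
    have hw : |wd Λ (vt c ℓ) u| ≤ ε / ‖τ‖ := by
      by_contra hh
      push Not at hh
      exact hb ⟨hh, hz⟩
    have hup := up_le hF hΛ hN hd hℓ hℓ1 hτ hτ1 hε hs hu hw hz
    rw [← ha'] at hup
    rw [max_eq_left (by (clear * - h; linarith only [h]))]
    have h3 := Real.add_one_le_exp (-(a' - a - ‖τ‖ * (‖τ‖ * m0)))
    have h4 : Real.exp (‖τ‖ * (‖τ‖ * m0)) * Real.exp a =
        Real.exp a' * Real.exp (-(a' - a - ‖τ‖ * (‖τ‖ * m0))) := by
      rw [← Real.exp_add, ← Real.exp_add]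
      congr 1
      ring
    have h5 : Real.exp a' - Real.exp (‖τ‖ * (‖τ‖ * m0)) * Real.exp a ≤
        Real.exp a' * (a' - a - ‖τ‖ * (‖τ‖ * m0)) := by
      rw [h4]
      have := Real.exp_pos a'
      (clear * - h3 this; nlinarith only [h3, this])
    have h6 : Real.exp a' * (a' - a - ‖τ‖ * (‖τ‖ * m0)) ≤
        Real.exp a' * (‖τ‖ * (X - ‖τ‖ * m0)) :=
      mul_le_mul_of_nonneg_left (by linarith only [hmv]) (Real.exp_pos _).le
    have h7 : Real.exp a' * (‖τ‖ * (X - ‖τ‖ * m0)) ≤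
        Real.exp (w0 Λ τ (vt c ℓ) + 2 * ε) * (‖τ‖ * (X - ‖τ‖ * m0)) :=
      mul_le_mul_of_nonneg_right (Real.exp_le_exp.2 hup) (mul_nonneg hτ.le (by linarith only [h]))
    linarith only [h5, h6, h7]

end Pool.Agent.Helper26.G4
end
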