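import Pool.Agent.Helper24.K6.G04
import Pool.Agent.Helper24.K6.G10
import Pool.Agent.Helper24.K6.G11
import Pool.Agent.Helper24.K6.G12

/- Helper24.K6w.H26.G4.Loc -/
section
/-!
# G4-LOC: the weight in the upper part of the box

`v = vt c ℓ`. `wn_w`: let `u₁` be the point of the segment from `v` to `u` at distance `ℓ / 20` from `v`
(`|u - v| ≥ ℓ`). `near_diag` with `ρ = 2 ℓ`: `|Λ v u₁ - Λ v v| ≤ 1`, and
`|log (v - u₁) - log (2 ℓ)| ≤ log 40 + π / 2`. From `u₁` to `u`: `lip_u` with `ρ = ℓ / (20 N)`: at most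
`80 N · 2.1` (points of the segment have `re ≥ ℓ / N`, distance to `v` at least `ℓ / 20`).
Total `≤ 7 + 170 N ≤ e^(40 N)`. `wn_al` follows. `ar_low`: `Fn.loc` at `(ℓ, c)`, and
`|F' v| ≤ 55 |F' (ℓ, c)|` (`Fn.bieb` or `Fn.dist` twice): `rr² ≤ (55000)² ar ≤ KN ar`.
-/

set_option autoImplicit false

namespace Pool.Agent.Helper26.G4

open MeasureTheory Set
open scoped Real
open Pool.Agent.Helper90.G2 (Bx Wn Fn ar ch Cen chi)

/-- the constant `KN` is large -/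
theorem Loc_KN_exp {N : ℕ} (hN : 2 ≤ N) : (2 : ℝ) ^ 80 ≤ KN N := by
  have h2 : (2 : ℝ) ≤ N := by exact_mod_cast hN
  have h1 : Real.exp 1 ^ 80 ≤ KN N := by
    rw [KN, ← Real.exp_nat_mul]
    apply Real.exp_le_exp.2
    push_cast
    (clear * - h2; linarith only [h2])
  have h3 : (2 : ℝ) ≤ Real.exp 1 := by (clear * -; linarith only [Real.exp_one_gt_d9])
  exact (pow_le_pow_left₀ (by norm_num) h3 80).trans h1

/-- the vector from the reference point to a point of the window -/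
theorem Loc_geo {N : ℕ} (hN : 2 ≤ N) {c ℓ : ℝ} (hℓ : 0 < ℓ) {u : ℂ} (hu : u ∈ Wn c ℓ (1 / N)) :
    ℓ ≤ ‖u - vt c ℓ‖ ∧ ‖u - vt c ℓ‖ ≤ 5 / 2 * ℓ := by
  obtain ⟨h1, h2, h3⟩ := hu
  have hN0 : (0 : ℝ) < N := by
    have : 0 < N := by omega
    exact_mod_cast this
  have h0 : 0 < u.re := lt_trans (by positivity) h1
  constructor
  · have h4 := Complex.abs_re_le_norm (u - vt c ℓ)
    rw [Complex.sub_re] at h4
    have h5 : u.re - (vt c ℓ).re ≤ -ℓ := by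
      simp only [vt]
      linarith only [h2]
    have h6 := neg_le_abs (u.re - (vt c ℓ).re)
    (clear * - h4 h5 h6; linarith only [h4, h5, h6])
  · refine (Complex.norm_le_abs_re_add_abs_im _).trans ?_
    rw [Complex.sub_re, Complex.sub_im]
    simp only [vt]
    have h4 : |u.re - 2 * ℓ| ≤ 2 * ℓ := by
      rw [abs_le]
      constructor <;> (clear * - h0 hℓ h2; linarith only [h0, hℓ, h2])
    (clear * - h3 h4; linarith)

/-- a point of the segment -/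
theorem Loc_pt {c ℓ s : ℝ} {u : ℂ} :
    (vt c ℓ + (s : ℂ) * (u - vt c ℓ)).re = 2 * ℓ + s * (u.re - 2 * ℓ) ∧
    (vt c ℓ + (s : ℂ) * (u - vt c ℓ)).im = c + s * (u.im - c) := by
  constructor
  · simp [vt]
  · simp [vt]

theorem wn_w {F : ℂ → ℂ} {A : ℝ} (hF : Fn F A) {Λ : ℂ → ℂ → ℂ} (hΛ : Br F Λ) {N : ℕ}
    (hN : 2 ≤ N) {c ℓ : ℝ} (hℓ : 0 < ℓ) (hℓ1 : ℓ ≤ 1) {u : ℂ} (hu : u ∈ Wn c ℓ (1 / N)) :
    ‖Lb Λ (vt c ℓ) u - (Real.log (vt c ℓ).re + Λ (vt c ℓ) (vt c ℓ))‖ ≤ KN N := by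
  have hN2 : (2 : ℝ) ≤ N := by exact_mod_cast hN
  have hN0 : (0 : ℝ) < N := by (clear * - hN2; linarith)
  obtain ⟨hd1, hd2⟩ := Loc_geo hN hℓ hu
  obtain ⟨h1, h2, h3⟩ := hu
  have h1' : ℓ / N < u.re := by
    have e : 1 / (N : ℝ) * ℓ = ℓ / N := by ring
    rwa [e] at h1
  have hℓN : ℓ / N ≤ ℓ := div_le_self hℓ.le (by linarith only [hN2])
  have hℓN0 : 0 < ℓ / N := by (clear * - hℓ hN; positivity)
  have hre : (vt c ℓ).re = 2 * ℓ := rfl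
  have him : (vt c ℓ).im = c := rfl
  have hpi := Real.pi_gt_three
  obtain ⟨u1, hu1⟩ : ∃ u1 : ℂ, u1 = vt c ℓ + ((1 / 50 : ℝ) : ℂ) * (u - vt c ℓ) := ⟨_, rfl⟩
  have hn1 : ‖u1 - vt c ℓ‖ = 1 / 50 * ‖u - vt c ℓ‖ := by
    rw [hu1, add_sub_cancel_left, norm_mul, Complex.norm_real, Real.norm_of_nonneg (by norm_num)]
  -- near the diagonal
  have hA := near_diag hF hΛ (v := vt c ℓ) (u := u1) (ρ := 2 * ℓ) (by positivity) (by rw [hre])
    (by (clear * - hℓ1 hpi; linarith only [hℓ1, hpi])) (by rw [hn1]; (clear * - hd2; linarith))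
  -- the logarithm
  have hvu : vt c ℓ - u1 = -(u1 - vt c ℓ) := by ring
  have hnn : ‖vt c ℓ - u1‖ = 1 / 50 * ‖u - vt c ℓ‖ := by rw [hvu, norm_neg, hn1]
  have hposn : 0 < ‖vt c ℓ - u1‖ := by
    rw [hnn]
    (clear * - hℓ hd1; linarith only [hℓ, hd1])
  have hrep : 0 < (vt c ℓ - u1).re := by
    rw [Complex.sub_re, hu1, Loc_pt.1, hre]
    (clear * - hℓ h2; linarith)
  have hB : ‖Complex.log (vt c ℓ - u1) - (Real.log (vt c ℓ).re : ℝ)‖ ≤ Real.log 100 + π / 2 := by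
    refine (Complex.norm_le_abs_re_add_abs_im _).trans ?_
    rw [Complex.sub_re, Complex.sub_im, Complex.log_re, Complex.log_im, Complex.ofReal_re,
      Complex.ofReal_im, sub_zero, hre]
    have h4 : |Complex.arg (vt c ℓ - u1)| ≤ π / 2 := Complex.abs_arg_le_pi_div_two_iff.2 hrep.le
    have h5 : |Real.log ‖vt c ℓ - u1‖ - Real.log (2 * ℓ)| ≤ Real.log 100 := by
      rw [← Real.log_div hposn.ne' (by positivity)]
      have h6 : 1 / 100 ≤ ‖vt c ℓ - u1‖ / (2 * ℓ) := by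
        rw [le_div_iff₀ (by positivity), hnn]
        (clear * - hd1; linarith only [hd1])
      have h7 : ‖vt c ℓ - u1‖ / (2 * ℓ) ≤ 100 := by
        rw [div_le_iff₀ (by positivity), hnn]
        linarith only [hd1, hd2]
      rw [abs_le]
      constructor
      · have h8 := Real.log_le_log (by norm_num) h6
        rw [one_div, Real.log_inv] at h8
        exact h8
      · exact Real.log_le_log (by (clear * - hposn hℓ; positivity)) h7
    (clear * - h4 h5; linarith only [h4, h5])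
  -- along the segment
  have hC := lip_u hF hΛ (v := vt c ℓ) (u := u1) (u' := u) (ρ := ℓ / (50 * N)) (by positivity)
    (by
      have : ℓ / (50 * N) ≤ ℓ := div_le_self hℓ.le (by linarith only [hN2])
      linarith only [hℓ1, hpi, this])
    (by
      intro w hw
      rw [segment_eq_image] at hw
      obtain ⟨t, ht, rfl⟩ := hw
      have hw' : (1 - t) • u1 + t • u =
          vt c ℓ + ((1 / 50 + t * (49 / 50) : ℝ) : ℂ) * (u - vt c ℓ) := by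
        rw [hu1, Complex.real_smul, Complex.real_smul]
        push_cast
        ring
      have hs0 : 1 / 50 ≤ 1 / 50 + t * (49 / 50) := by (clear * - ht; linarith only [ht.1])
      have hs1 : 1 / 50 + t * (49 / 50) ≤ 1 := by linarith only [ht.2]
      simp only
      rw [hw']
      obtain ⟨s, hs⟩ : ∃ s : ℝ, s = 1 / 50 + t * (49 / 50) := ⟨_, rfl⟩
      rw [← hs] at hs0 hs1 ⊢
      have hr : ℓ / N ≤ 2 * ℓ + s * (u.re - 2 * ℓ) := by (clear * - h1' hs0 hℓN hs1 hℓN0; nlinarith only [h1', hℓN, hℓN0, hs1, hs0])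
      have hρ : ℓ / (50 * N) ≤ ℓ / N := by
        apply div_le_div_of_nonneg_left hℓ.le hN0
        linarith only []
      rw [Loc_pt.1, Loc_pt.2, hre, him]
      refine ⟨by (clear * - hℓN0 hr; linarith only [hℓN0, hr]), by (clear * - h2 hℓN hℓN0 hs0; nlinarith only [h2, hℓN, hℓN0, hs0]), by linarith only [hr, hρ], ?_, ?_⟩
      · have h4 : vt c ℓ - (vt c ℓ + (s : ℂ) * (u - vt c ℓ)) = -((s : ℂ) * (u - vt c ℓ)) := by ring
        rw [h4, norm_neg, norm_mul, Complex.norm_real, Real.norm_of_nonneg (by linarith only [hs0])]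
        have h5 : ℓ / (50 * N) ≤ 1 / 50 * ℓ := by
          rw [div_le_iff₀ (by positivity)]
          (clear * - hd1 hd2 hN2; nlinarith only [hN2, hd1, hd2])
        have h6 : 1 / 50 * ℓ ≤ s * ‖u - vt c ℓ‖ := mul_le_mul hs0 hd1 hℓ.le (by linarith only [hs0])
        linarith only [h5, h6]
      · have h4 : c - (c + s * (u.im - c)) = -(s * (u.im - c)) := by ring
        rw [h4, abs_neg, abs_mul, abs_of_nonneg (by linarith only [hs0])]
        have h5 : s * |u.im - c| ≤ 1 * (ℓ / 2) :=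
          mul_le_mul hs1 h3.le (abs_nonneg _) (by norm_num)
        (clear * - hℓ1 hpi h5; linarith only [hℓ1, hpi, h5]))
  have hC2 : 4 / (ℓ / (50 * N)) * ‖u - u1‖ ≤ 490 * N := by
    have h4 : u - u1 = ((49 / 50 : ℝ) : ℂ) * (u - vt c ℓ) := by
      rw [hu1]
      push_cast
      ring
    have h5 : ‖u - u1‖ ≤ 49 / 50 * (5 / 2 * ℓ) := by
      rw [h4, norm_mul, Complex.norm_real, Real.norm_of_nonneg (by norm_num)]
      exact mul_le_mul_of_nonneg_left hd2 (by norm_num)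
    calc 4 / (ℓ / (50 * N)) * ‖u - u1‖ ≤ 4 / (ℓ / (50 * N)) * (49 / 50 * (5 / 2 * ℓ)) :=
          mul_le_mul_of_nonneg_left h5 (by (clear * - hℓ hN; positivity))
      _ = 490 * N := by field_simp; ring
  have e : Lb Λ (vt c ℓ) u - (Real.log (vt c ℓ).re + Λ (vt c ℓ) (vt c ℓ)) =
      (Lb Λ (vt c ℓ) u - Lb Λ (vt c ℓ) u1) + (Λ (vt c ℓ) u1 - Λ (vt c ℓ) (vt c ℓ)) +
        (Complex.log (vt c ℓ - u1) - (Real.log (vt c ℓ).re : ℝ)) := by
    rw [Lb, Lb]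
    ring
  rw [e]
  have h6 : Real.log 100 ≤ 5 := by
    have h7 : (100 : ℝ) ≤ Real.exp 1 ^ 5 := by
      have h8 : (2.7 : ℝ) ≤ Real.exp 1 := by (clear * -; linarith only [Real.exp_one_gt_d9])
      calc (100 : ℝ) ≤ 2.7 ^ 5 := by norm_num
        _ ≤ _ := pow_le_pow_left₀ (by norm_num) h8 5
    rw [← Real.exp_nat_mul] at h7
    rw [Real.log_le_iff_le_exp (by norm_num)]
    refine h7.trans (Real.exp_le_exp.2 ?_)
    norm_num
  have h9 : π ≤ 4 := Real.pi_le_four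
  have h10 : 8 + 490 * (N : ℝ) ≤ KN N := by
    have h11 := Real.quadratic_le_exp_of_nonneg (x := 40 * (N : ℝ)) (by positivity)
    rw [KN]
    (clear * - hN2 h11; nlinarith only [hN2, h11])
  calc _ ≤ ‖(Lb Λ (vt c ℓ) u - Lb Λ (vt c ℓ) u1) + (Λ (vt c ℓ) u1 - Λ (vt c ℓ) (vt c ℓ))‖ +
        ‖Complex.log (vt c ℓ - u1) - (Real.log (vt c ℓ).re : ℝ)‖ := norm_add_le _ _
    _ ≤ ‖Lb Λ (vt c ℓ) u - Lb Λ (vt c ℓ) u1‖ + ‖Λ (vt c ℓ) u1 - Λ (vt c ℓ) (vt c ℓ)‖ +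
        ‖Complex.log (vt c ℓ - u1) - (Real.log (vt c ℓ).re : ℝ)‖ := by
        gcongr
        exact norm_add_le _ _
    _ ≤ KN N := by (clear * - hA hB hC hC2 h6 h9 h10; linarith only [hA, hB, hC, hC2, h6, h9, h10])

theorem wn_al {F : ℂ → ℂ} {A : ℝ} (hF : Fn F A) {Λ : ℂ → ℂ → ℂ} (hΛ : Br F Λ) {N : ℕ}
    (hN : 2 ≤ N) {c ℓ : ℝ} (hℓ : 0 < ℓ) (hℓ1 : ℓ ≤ 1) (τ : ℂ) {u : ℂ} (hu : u ∈ Wn c ℓ (1 / N)) :
    w0 Λ τ (vt c ℓ) - ‖τ‖ * KN N ≤ al Λ τ (vt c ℓ) u := by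
  have h := wn_w hF hΛ hN hℓ hℓ1 hu
  have h1 : w0 Λ τ (vt c ℓ) - al Λ τ (vt c ℓ) u =
      (τ * (Lb Λ (vt c ℓ) u - (Real.log (vt c ℓ).re + Λ (vt c ℓ) (vt c ℓ)))).re := by
    rw [w0, al, mul_sub, Complex.sub_re]
    ring
  have h2 : (τ * (Lb Λ (vt c ℓ) u - (Real.log (vt c ℓ).re + Λ (vt c ℓ) (vt c ℓ)))).re ≤
      ‖τ‖ * KN N := by
    refine (Complex.re_le_norm _).trans ?_
    rw [norm_mul]
    exact mul_le_mul_of_nonneg_left h (norm_nonneg _)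
  linarith only [h1, h2]

theorem ar_low {F : ℂ → ℂ} {A : ℝ} (hF : Fn F A) {N : ℕ} (hN : 2 ≤ N) {c ℓ : ℝ} (hℓ : 0 < ℓ)
    (hℓ1 : ℓ ≤ 1) : rr F (vt c ℓ) ^ 2 ≤ KN N * ar F (Wn c ℓ (1 / N)) := by
  have hN2 : (2 : ℝ) ≤ N := by exact_mod_cast hN
  have hN0 : (0 : ℝ) < N := by linarith only [hN2]
  have hq : (0 : ℝ) < 1 / N := by positivity
  have hq1 : 1 / (N : ℝ) ≤ 1 / 2 := one_div_le_one_div_of_le (by norm_num) hN2
  have hre : (vt c ℓ).re = 2 * ℓ := rfl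
  have h1 := hF.loc (c := c) (ℓ := ℓ) (q := 1 / N) (u := ⟨ℓ, c⟩) hℓ hℓ1 hq hq1
    (by simp only; (clear * - hℓ hq1; nlinarith only [hℓ, hq1])) le_rfl (by simp only [sub_self, abs_zero]; positivity)
  have h2 := (hF.dist (u := vt c ℓ) (u' := ⟨ℓ, c⟩) (by rw [hre]; positivity)
    (by rw [hre]; (clear * - hℓ1; linarith only [hℓ1])) (by
      refine (Complex.norm_le_abs_re_add_abs_im _).trans ?_
      rw [Complex.sub_re, Complex.sub_im, hre]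
      simp only [vt, sub_self, abs_zero, add_zero]
      have h3 : ℓ - 2 * ℓ = -ℓ := by ring
      rw [h3, abs_neg, abs_of_pos hℓ]
      (clear * -; linarith only []))).2
  simp only at h1
  have har : 0 ≤ ar F (Wn c ℓ (1 / N)) := ENNReal.toReal_nonneg
  have hs := Real.sq_sqrt har
  have hs0 := Real.sqrt_nonneg (ar F (Wn c ℓ (1 / N)))
  have h3 : rr F (vt c ℓ) ≤ 55000 * √(ar F (Wn c ℓ (1 / N))) := by
    rw [rr, hre]
    have h4 : 2 * ℓ * ‖deriv F (vt c ℓ)‖ ≤ 2 * ℓ * (55 * ‖deriv F ⟨ℓ, c⟩‖) :=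
      mul_le_mul_of_nonneg_left h2 (by positivity)
    have h5 : 2 * ℓ * (55 * ‖deriv F ⟨ℓ, c⟩‖) = 110 * (‖deriv F ⟨ℓ, c⟩‖ * ℓ) := by ring
    linarith only [h1, h4]
  have h0 : 0 ≤ rr F (vt c ℓ) := by
    rw [rr, hre]
    (clear * - hℓ; positivity)
  have h6 : rr F (vt c ℓ) ^ 2 ≤ (55000 * √(ar F (Wn c ℓ (1 / N)))) ^ 2 :=
    pow_le_pow_left₀ h0 h3 2
  rw [mul_pow, hs] at h6
  refine h6.trans (mul_le_mul_of_nonneg_right ?_ har)
  refine le_trans ?_ (Loc_KN_exp hN)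
  norm_num

end Pool.Agent.Helper26.G4
end

/- Helper24.K6w.H90.G2.Move -/
section
/-!
# G2-MOVE: moving the point (the Ahlfors-Beurling inequality)

Pointwise, with `X = log (|w - p| / |w - p'|)`: `|w - p'|^(-δ) ≤ e^(δ m) |w - p|^(-δ) +
|w - p'|^(-δ) δ max (X - m) 0`, because `1 ≤ e^(δ (m - X)) + δ max (X - m) 0` (`w ≠ p, p'`). The
integral of the last term over the plane is bounded with Apollonius disks and the layer cake formula
in `Pool.Agent.Helper39.G2.Shift`; only `2 * 2^δ / ((2 - δ) (1 - δ)) ≤ 1 + 32 δ` is proved here.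
-/

set_option autoImplicit false
set_option linter.unusedVariables false

namespace Pool.Agent.Helper90.G2

open MeasureTheory Set
open scoped Real

/-- the error term -/
noncomputable def er (δ m s : ℝ) : ℝ := δ * (1 + 32 * δ) * (π * s ^ 2 / (4 * m)) * (s / m) ^ (-δ)

theorem two_rpow_bound {δ : ℝ} (h0 : 0 < δ) (h1 : δ ≤ 1 / 4) :
    2 * (2 : ℝ) ^ δ ≤ (1 + 32 * δ) * ((2 - δ) * (1 - δ)) := by
  have h2 : (2 : ℝ) ^ δ ≤ 1 + δ := by
    have h := _root_.rpow_one_add_le_one_add_mul_self (s := 1) (by norm_num) h0.le (by (clear * - h1; linarith only [h1]))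
    have h3 : (1 : ℝ) + 1 = 2 := by norm_num
    rw [h3, mul_one] at h
    exact h
  nlinarith only [mul_nonneg h0.le (sub_nonneg.mpr h1), mul_nonneg (mul_nonneg h0.le h0.le) h0.le, h2]

theorem vp_move {δ m s : ℝ} (hm : 0 < m) (hm1 : m ≤ 1) (h0 : 0 < δ) (h1 : δ ≤ 1 / 4) (hs : 0 < s)
    {Q : Set ℂ} (hQ : MeasurableSet Q) (hv : volume Q < ⊤) {p p' : ℂ} (h : ‖p' - p‖ ≤ s) :
    Vp δ Q p' ≤ Real.exp (δ * m) * Vp δ Q p + er δ m s := by
  have h2 := Helper39.G2.shift (d := δ) (m := m) (s := s) h0 (by linarith only [h1]) hm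
    (p := p) (q := p') (by rwa [norm_sub_rev] at h) (Q := Q) hv.ne
  refine h2.trans ?_
  unfold Vp
  gcongr
  unfold er
  have h3 : 0 < 2 - δ := by (clear * - h1; linarith only [h1])
  have h4 : 0 < 1 - δ := by linarith only [h1]
  have h5 : (s / 2) ^ (2 - δ) = s ^ 2 / 4 * (2 : ℝ) ^ δ * s ^ (-δ) := by
    rw [Real.div_rpow hs.le (by norm_num), sub_eq_add_neg, Real.rpow_add hs,
      Real.rpow_add (by norm_num : (0 : ℝ) < 2), Real.rpow_neg (by norm_num : (0 : ℝ) ≤ 2) δ]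
    have h6 : (2 : ℝ) ^ δ ≠ 0 := (Real.rpow_pos_of_pos (by norm_num) _).ne'
    rw [Real.rpow_two, Real.rpow_two]
    field_simp
    norm_num
  have h7 : m ^ (-(1 - δ)) = m⁻¹ * m ^ δ := by
    have h8 : -(1 - δ) = -1 + δ := by ring
    rw [h8, Real.rpow_add hm, Real.rpow_neg_one]
  have h9 : (s / m) ^ (-δ) = s ^ (-δ) * m ^ δ := by
    rw [Real.div_rpow hs.le hm.le, Real.rpow_neg hm.le δ, div_inv_eq_mul]
  rw [h5, h7, h9]
  have h10 : 0 < s ^ (-δ) := Real.rpow_pos_of_pos hs _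
  have h11 : 0 < m ^ δ := Real.rpow_pos_of_pos hm _
  have h12 : δ * (2 / (2 - δ)) * (1 / (1 - δ)) * (π * (s ^ 2 / 4 * (2 : ℝ) ^ δ * s ^ (-δ)) *
      (m⁻¹ * m ^ δ)) = (2 * (2 : ℝ) ^ δ / ((2 - δ) * (1 - δ))) *
        (δ * (π * s ^ 2 / (4 * m)) * (s ^ (-δ) * m ^ δ)) := by
    field_simp
  rw [h12]
  have h13 : 2 * (2 : ℝ) ^ δ / ((2 - δ) * (1 - δ)) ≤ 1 + 32 * δ := by
    rw [div_le_iff₀ (mul_pos h3 h4)]
    exact two_rpow_bound h0 h1
  have h14 : 0 ≤ δ * (π * s ^ 2 / (4 * m)) * (s ^ (-δ) * m ^ δ) := by positivity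
  calc _ ≤ (1 + 32 * δ) * (δ * (π * s ^ 2 / (4 * m)) * (s ^ (-δ) * m ^ δ)) :=
        mul_le_mul_of_nonneg_right h13 h14
    _ = _ := by ring

end Pool.Agent.Helper90.G2
end

/- Helper24.K6w.H90.G2.Kids -/
section
/-!
# G2-KIDS: a box, its window and its children

The boxes `Bx (ch N c ℓ d) (ℓ / N)`, `d < N`, are disjoint, contained in `Bx c ℓ` and disjoint from
`Wn c ℓ (1 / N)`; `F` is injective on `Bx c ℓ`, so the images are disjoint (`vp_add`). The image of the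
window is contained in the disk of radius `500 (1 + log N) √ar` around `F (zt c ℓ)` (`Fn.osc_rad`), as
are the images of the top points of the children (they are on the lower side of the window).
-/

set_option autoImplicit false

namespace Pool.Agent.Helper90.G2

open MeasureTheory Set
open scoped Real

variable {F : ℂ → ℂ} {A : ℝ}

/-- the part of `V` carried by child `d` before the point is moved -/
noncomputable def Vc (F : ℂ → ℂ) (δ c ℓ : ℝ) (N d : ℕ) : ℝ :=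
  Vp δ (F '' Bx (ch N c ℓ d) (ℓ / N)) (F (zt c ℓ))

/-- the part of `V` carried by the window -/
noncomputable def Vw (F : ℂ → ℂ) (δ c ℓ : ℝ) (N : ℕ) : ℝ :=
  Vp δ (F '' Wn c ℓ (1 / N)) (F (zt c ℓ))

/-! ### elementary facts on the boxes -/

lemma ch_bound {c ℓ : ℝ} (hℓ : 0 < ℓ) {N d : ℕ} (hN : 2 ≤ N) (hd : d < N) :
    -(ℓ / 2) ≤ ch N c ℓ d - c - ℓ / N / 2 ∧ ch N c ℓ d - c + ℓ / N / 2 ≤ ℓ / 2 := by
  have hN0 : (0:ℝ) < N := by
    have : 0 < N := by omega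
    exact_mod_cast this
  have hd0 : (0:ℝ) ≤ d := Nat.cast_nonneg d
  have hd1 : (d:ℝ) + 1 ≤ N := by exact_mod_cast hd
  have e1 : ch N c ℓ d - c - ℓ / N / 2 = (d / N - 1 / 2) * ℓ := by
    unfold ch
    field_simp
    ring
  have e2 : ch N c ℓ d - c + ℓ / N / 2 = ((d + 1) / N - 1 / 2) * ℓ := by
    unfold ch
    field_simp
    ring
  have h1 : 0 ≤ (d:ℝ) / N := by (clear * - hN; positivity)
  have h2 : ((d:ℝ) + 1) / N ≤ 1 := by rwa [div_le_one hN0]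
  rw [e1, e2]
  constructor <;> nlinarith only [hℓ, h1, h2]

lemma div_N_le {ℓ : ℝ} (hℓ : 0 < ℓ) {N : ℕ} (hN : 2 ≤ N) : ℓ / N ≤ ℓ := by
  have h2 : (2:ℝ) ≤ N := by exact_mod_cast hN
  exact div_le_self hℓ.le (by (clear * - h2; linarith only [h2]))

lemma bx_child_sub {c ℓ : ℝ} (hℓ : 0 < ℓ) {N d : ℕ} (hN : 2 ≤ N) (hd : d < N) :
    Bx (ch N c ℓ d) (ℓ / N) ⊆ Bx c ℓ := by
  rintro u ⟨h1, h2, h3⟩
  obtain ⟨h4, h5⟩ := ch_bound (c := c) hℓ hN hd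
  rw [abs_lt] at h3
  refine ⟨h1, h2.trans_le (div_N_le hℓ hN), ?_⟩
  rw [abs_lt]
  constructor <;> (clear * - h3 h4 h5; linarith only [h3, h4, h5])

lemma wn_sub {c ℓ : ℝ} (hℓ : 0 < ℓ) {N : ℕ} (hN : 2 ≤ N) : Wn c ℓ (1 / N) ⊆ Bx c ℓ := by
  rintro u ⟨h1, h2, h3⟩
  have h2' : (2:ℝ) ≤ N := by exact_mod_cast hN
  have h4 : 0 < 1 / (N:ℝ) * ℓ := by (clear * - hN hℓ; positivity)
  exact ⟨h4.trans h1, h2, h3⟩

lemma bx_sub_strip {c ℓ : ℝ} (hℓ1 : ℓ ≤ 1) : Bx c ℓ ⊆ {u | 0 < u.re ∧ |u.im - c| < π} := by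
  rintro u ⟨h1, h2, h3⟩
  exact ⟨h1, by (clear * - hℓ1 h1 h2 h3; linarith [Real.pi_gt_three])⟩

lemma bx_disj {c ℓ : ℝ} (hℓ : 0 < ℓ) {N d e : ℕ} (hN : 2 ≤ N) (hde : d ≠ e) :
    Disjoint (Bx (ch N c ℓ d) (ℓ / N)) (Bx (ch N c ℓ e) (ℓ / N)) := by
  rw [Set.disjoint_left]
  rintro u ⟨-, -, h3⟩ ⟨-, -, k3⟩
  have hN0 : (0:ℝ) < N := by
    have : 0 < N := by omega
    exact_mod_cast this
  have e1 : ch N c ℓ d - ch N c ℓ e = ((d:ℝ) - e) * (ℓ / N) := by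
    unfold ch
    field_simp
    ring
  have h4 : (1:ℝ) ≤ |(d:ℝ) - e| := by
    have h5 : (1:ℤ) ≤ |(d:ℤ) - e| := Int.one_le_abs (by omega)
    exact_mod_cast h5
  have h6 : 0 < ℓ / N := by (clear * - hℓ hN; positivity)
  have h7 : |ch N c ℓ d - ch N c ℓ e| = |(d:ℝ) - e| * (ℓ / N) := by
    rw [e1, abs_mul, abs_of_pos h6]
  have h8 : |ch N c ℓ d - ch N c ℓ e| ≤ |u.im - ch N c ℓ d| + |u.im - ch N c ℓ e| := by
    have h9 : ch N c ℓ d - ch N c ℓ e = (u.im - ch N c ℓ e) - (u.im - ch N c ℓ d) := by ring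
    rw [h9]
    exact (abs_sub _ _).trans_eq (add_comm _ _)
  nlinarith only [h3, k3, h4, h6, h7, h8]

lemma wn_disj {c ℓ : ℝ} {N d : ℕ} :
    Disjoint (Wn c ℓ (1 / N)) (Bx (ch N c ℓ d) (ℓ / N)) := by
  rw [Set.disjoint_left]
  rintro u ⟨h1, -, -⟩ ⟨-, k2, -⟩
  have : 1 / (N:ℝ) * ℓ = ℓ / N := by ring
  (clear * - h1 k2 this; linarith only [h1, k2, this])

lemma image_disj {S T U : Set ℂ} (hF : InjOn F U) (hS : S ⊆ U) (hT : T ⊆ U) (h : Disjoint S T) :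
    Disjoint (F '' S) (F '' T) := by
  rw [Set.disjoint_left] at h ⊢
  rintro _ ⟨x, hx, rfl⟩ ⟨y, hy, hxy⟩
  have := hF (hT hy) (hS hx) hxy
  exact h hx (this ▸ hy)

lemma one_div_N {N : ℕ} (hN : 2 ≤ N) : 0 < 1 / (N:ℝ) ∧ 1 / (N:ℝ) ≤ 1 / 2 := by
  have h2 : (2:ℝ) ≤ N := by exact_mod_cast hN
  exact ⟨by (clear * - hN; positivity), one_div_le_one_div_of_le (by norm_num) h2⟩

theorem Fn.kids_add (hF : Fn F A) {δ c ℓ : ℝ} (h0 : 0 < δ) (h1 : δ ≤ 1) (hℓ : 0 < ℓ)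
    (hℓ1 : ℓ ≤ 1) {N : ℕ} (hN : 2 ≤ N) :
    Vw F δ c ℓ N + ∑ d ∈ Finset.range N, Vc F δ c ℓ N d ≤ V F δ c ℓ := by
  have hst := bx_sub_strip (c := c) hℓ1
  refine vp_add h0 h1 (fun d => F '' Bx (ch N c ℓ d) (ℓ / N)) (F '' Wn c ℓ (1 / N)) (F '' Bx c ℓ)
    (fun d hd => hF.meas (meas_bx _ _) ((bx_child_sub hℓ hN hd).trans hst))
    (hF.meas (meas_wn _ _ _) ((wn_sub hℓ hN).trans hst)) (hF.meas (meas_bx _ _) hst)
    (hF.fin hℓ1 (Subset.refl _)) (fun d hd => image_mono (bx_child_sub hℓ hN hd))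
    (image_mono (wn_sub hℓ hN))
    (fun d hd e he hde => image_disj (hF.inj c) ((bx_child_sub hℓ hN hd).trans hst)
      ((bx_child_sub hℓ hN he).trans hst) (bx_disj hℓ hN hde))
    (fun d hd => image_disj (hF.inj c) ((wn_sub hℓ hN).trans hst)
      ((bx_child_sub hℓ hN hd).trans hst) wn_disj) _

/-- the radius -/
theorem Fn.kids_rad (hF : Fn F A) {c ℓ : ℝ} (hℓ : 0 < ℓ) (hℓ1 : ℓ ≤ 1) {N d : ℕ} (hN : 2 ≤ N)
    (hd : d < N) :
    ‖F (zt (ch N c ℓ d) (ℓ / N)) - F (zt c ℓ)‖ ≤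
      500 * (1 + Real.log N) * √(ar F (Wn c ℓ (1 / N))) := by
  obtain ⟨hq, hq1⟩ := one_div_N hN
  obtain ⟨h4, h5⟩ := ch_bound (c := c) hℓ hN hd
  have h6 : 0 < ℓ / N := by
    have : (0:ℝ) < N := by
      have : 0 < N := by omega
      exact_mod_cast this
    (clear * - hℓ hN; positivity)
  have h7 := hF.osc_rad (c := c) hℓ hℓ1 hq hq1 (u := zt (ch N c ℓ d) (ℓ / N))
    (by show 1 / (N:ℝ) * ℓ ≤ ℓ / N; exact le_of_eq (by ring)) (div_N_le hℓ hN)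
    (by
      show |ch N c ℓ d - c| ≤ ℓ / 2
      rw [abs_le]
      constructor <;> linarith only [h4, h6, h5])
  rwa [one_div_one_div] at h7

/-- the loss -/
theorem Fn.loss (hF : Fn F A) {δ c ℓ : ℝ} (h0 : 0 < δ) (h1 : δ ≤ 1) (hℓ : 0 < ℓ)
    (hℓ1 : ℓ ≤ 1) {N : ℕ} (hN : 2 ≤ N) :
    ar F (Wn c ℓ (1 / N)) * (500 * (1 + Real.log N) * √(ar F (Wn c ℓ (1 / N)))) ^ (-δ) ≤
      Vw F δ c ℓ N := by
  obtain ⟨hq, hq1⟩ := one_div_N hN
  have hst := bx_sub_strip (c := c) hℓ1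
  have hpos := hF.ar_pos (c := c) hℓ hℓ1 hq hq1
  have hlog : 0 ≤ Real.log N := Real.log_natCast_nonneg N
  refine vp_lower h0 h1 (hF.meas (meas_wn _ _ _) ((wn_sub hℓ hN).trans hst))
    (hF.fin hℓ1 (wn_sub hℓ hN)) _ (by (clear * - hpos; positivity)) ?_
  rintro _ ⟨u, ⟨k1, k2, k3⟩, rfl⟩
  have h7 := hF.osc_rad (c := c) hℓ hℓ1 hq hq1 (u := u) k1.le k2.le k3.le
  rwa [one_div_one_div] at h7

/-- moving the point of one child, with any bound `s` of the displacement -/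
theorem Fn.kids_move (hF : Fn F A) {δ m s c ℓ : ℝ} (hm : 0 < m) (hm1 : m ≤ 1) (h0 : 0 < δ)
    (h1 : δ ≤ 1 / 4) (hs : 0 < s) (hℓ : 0 < ℓ) (hℓ1 : ℓ ≤ 1) {N d : ℕ} (hN : 2 ≤ N) (hd : d < N)
    (h : ‖F (zt (ch N c ℓ d) (ℓ / N)) - F (zt c ℓ)‖ ≤ s) :
    V F δ (ch N c ℓ d) (ℓ / N) ≤ Real.exp (δ * m) * Vc F δ c ℓ N d + er δ m s :=
  vp_move hm hm1 h0 h1 hs
    (hF.meas (meas_bx _ _) ((bx_child_sub hℓ hN hd).trans (bx_sub_strip (c := c) hℓ1)))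
    (hF.fin hℓ1 (bx_child_sub hℓ hN hd)) h

end Pool.Agent.Helper90.G2
end

/- Helper24.K6w.H26.G4.Vert -/
section
/-!
# G4-VERT: a vertical segment

For `q ℓ ≤ y ≤ ℓ` and `x` between `c'` and `c' ∓ y / 4` (towards `c`; any side if `c' = c`) the point
`y + i x` lies in the box and `|F' (y + i c')| ≤ 55 |F' (y + i x)|` (`Fn.dist`). So
`|F' (y + i c')|² y / 4 ≤ 55² ∫_x |F' (y + i x)|²`, and by Fubini
`∫_(q ℓ)^ℓ |F' (y + i c')|² y dy ≤ 12100 ar F (Wn c ℓ q)` (`Fn.vol`). Cauchy-Schwarz: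
`|F (ℓ + i c') - F (q ℓ + i c')| ≤ ∫ |F'| dy ≤ √(∫ |F'|² y dy) √(∫ dy / y) ≤ 110 √ar √(log (1/q))`.
-/

set_option autoImplicit false

namespace Pool.Agent.Helper26.G4

open MeasureTheory Set
open scoped Real
open Pool.Agent.Helper90.G2 (Bx Wn Fn ar ch Cen chi)

theorem vert_fubini {s : Set ℂ} (hs : MeasurableSet s) {G : ℂ → ENNReal} (hG : Measurable G) :
    ∫⁻ y : ℝ, ∫⁻ x : ℝ, s.indicator G ⟨y, x⟩ = ∫⁻ v in s, G v := by
  rw [← lintegral_indicator hs]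
  have hG' : Measurable (s.indicator G) := hG.indicator hs
  have h1 := (Complex.volume_preserving_equiv_real_prod.symm).lintegral_comp_emb
    Complex.measurableEquivRealProd.symm.measurableEmbedding (s.indicator G)
  rw [← h1]
  have h2 : AEMeasurable (fun p : ℝ × ℝ => s.indicator G
      (Complex.measurableEquivRealProd.symm p)) (volume.prod volume) :=
    (hG'.comp Complex.measurableEquivRealProd.symm.measurable).aemeasurable
  rw [Measure.volume_eq_prod, lintegral_prod _ h2]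
  rfl

/-- a horizontal line -/
theorem vert_line {F : ℂ → ℂ} {A : ℝ} (hF : Fn F A) {c c' ℓ q y : ℝ} (hℓ1 : ℓ ≤ 1)
    (hy1 : q * ℓ < y) (hy2 : y < ℓ) (hy0 : 0 < y) (hc : |c' - c| ≤ ℓ / 2) :
    ENNReal.ofReal (‖deriv F ⟨y, c'⟩‖ ^ 2 * y) ≤ 12100 * ∫⁻ x : ℝ,
      (Wn c ℓ q).indicator (fun u => ENNReal.ofReal (‖deriv F u‖ ^ 2)) ⟨y, x⟩ := by
  obtain ⟨hc1, hc2⟩ := abs_le.1 hc
  -- the interval
  obtain ⟨m, hm1, hm2, hm3⟩ : ∃ m : ℝ, |m - c'| ≤ y / 8 ∧ c - ℓ / 2 ≤ m - y / 8 ∧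
      m + y / 8 ≤ c + ℓ / 2 := by
    rcases le_or_gt c c' with h | h
    · refine ⟨c' - y / 8, ?_, by (clear * - hy2 hc2 h; linarith only [hy2, hc2, h]), by linarith only [hc2]⟩
      rw [abs_le]
      constructor <;> (clear * - hy0; linarith only [hy0])
    · refine ⟨c' + y / 8, ?_, by linarith only [hc1], by linarith only [hy2, hc2, h]⟩
      rw [abs_le]
      constructor <;> (clear * - hy0; linarith only [hy0])
  obtain ⟨hm4, hm5⟩ := abs_le.1 hm1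
  have hd : ∀ x ∈ Ioo (m - y / 8) (m + y / 8),
      ENNReal.ofReal (‖deriv F ⟨y, c'⟩‖ ^ 2 / 3025) ≤
      (Wn c ℓ q).indicator (fun u => ENNReal.ofReal (‖deriv F u‖ ^ 2)) ⟨y, x⟩ := by
    rintro x ⟨hx1, hx2⟩
    have hmem : (⟨y, x⟩ : ℂ) ∈ Wn c ℓ q := by
      refine ⟨hy1, hy2, ?_⟩
      simp only
      rw [abs_lt]
      constructor <;> (clear * - hm2 hx1 hm3 hx2; linarith only [hm2, hx1, hm3, hx2])
    rw [indicator_of_mem hmem]
    apply ENNReal.ofReal_le_ofReal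
    have h1 := (hF.dist (u := ⟨y, c'⟩) (u' := ⟨y, x⟩) hy0 (by simp only; (clear * - hℓ1 hy2; linarith only [hℓ1, hy2])) (by
      refine (Complex.norm_le_abs_re_add_abs_im _).trans ?_
      simp only [Complex.sub_re, Complex.sub_im, sub_self, abs_zero, zero_add]
      rw [abs_le]
      constructor <;> linarith only [hm4, hm5, hx1, hx2])).2
    have h2 : ‖deriv F ⟨y, c'⟩‖ ^ 2 ≤ (55 * ‖deriv F ⟨y, x⟩‖) ^ 2 :=
      pow_le_pow_left₀ (norm_nonneg _) h1 2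
    rw [div_le_iff₀ (by norm_num)]
    calc ‖deriv F ⟨y, c'⟩‖ ^ 2 ≤ (55 * ‖deriv F ⟨y, x⟩‖) ^ 2 := h2
      _ = ‖deriv F ⟨y, x⟩‖ ^ 2 * 3025 := by ring
  have h3 : ENNReal.ofReal (‖deriv F ⟨y, c'⟩‖ ^ 2 / 3025) * ENNReal.ofReal (y / 4) ≤
      ∫⁻ x : ℝ, (Wn c ℓ q).indicator (fun u => ENNReal.ofReal (‖deriv F u‖ ^ 2)) ⟨y, x⟩ := by
    calc ENNReal.ofReal (‖deriv F ⟨y, c'⟩‖ ^ 2 / 3025) * ENNReal.ofReal (y / 4)
        = ∫⁻ _ in Ioo (m - y / 8) (m + y / 8),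
            ENNReal.ofReal (‖deriv F ⟨y, c'⟩‖ ^ 2 / 3025) := by
          rw [lintegral_const, Measure.restrict_apply_univ, Real.volume_Ioo]
          congr 2
          ring
      _ ≤ ∫⁻ x in Ioo (m - y / 8) (m + y / 8),
            (Wn c ℓ q).indicator (fun u => ENNReal.ofReal (‖deriv F u‖ ^ 2)) ⟨y, x⟩ :=
          setLIntegral_mono' measurableSet_Ioo hd
      _ ≤ _ := setLIntegral_le_lintegral _ _
  calc ENNReal.ofReal (‖deriv F ⟨y, c'⟩‖ ^ 2 * y)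
      = 12100 * (ENNReal.ofReal (‖deriv F ⟨y, c'⟩‖ ^ 2 / 3025) * ENNReal.ofReal (y / 4)) := by
        have h4 : (12100 : ENNReal) = ENNReal.ofReal 12100 := by
          rw [ENNReal.ofReal_ofNat]
        rw [h4, ← ENNReal.ofReal_mul (by (clear * -; positivity)), ← ENNReal.ofReal_mul (by norm_num)]
        congr 1
        ring
    _ ≤ _ := by (clear * - h3; gcongr)

/-- the weighted integral along the vertical segment -/
theorem vert_int {F : ℂ → ℂ} {A : ℝ} (hF : Fn F A) {c c' ℓ q : ℝ} (hℓ : 0 < ℓ) (hℓ1 : ℓ ≤ 1)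
    (hq : 0 < q) (hc : |c' - c| ≤ ℓ / 2) :
    ∫⁻ y in Ioo (q * ℓ) ℓ, ENNReal.ofReal (‖deriv F ⟨y, c'⟩‖ ^ 2 * y) ≤
      12100 * volume (F '' Wn c ℓ q) := by
  have hG : Measurable fun u : ℂ => ENNReal.ofReal (‖deriv F u‖ ^ 2) :=
    ((measurable_deriv F).norm.pow_const 2).ennreal_ofReal
  have hW := Pool.Agent.Helper90.G2.meas_wn c ℓ q
  have hsub : Wn c ℓ q ⊆ {u | 0 < u.re ∧ |u.im - c| < π} := by
    intro u hu
    obtain ⟨h1, h2, h3⟩ := hu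
    refine ⟨lt_trans (mul_pos hq hℓ) h1, h3.trans ?_⟩
    have := Real.pi_gt_three
    (clear * - hℓ1 this; linarith only [hℓ1, this])
  rw [hF.vol hW hsub, ← vert_fubini hW hG]
  calc ∫⁻ y in Ioo (q * ℓ) ℓ, ENNReal.ofReal (‖deriv F ⟨y, c'⟩‖ ^ 2 * y)
      ≤ ∫⁻ y in Ioo (q * ℓ) ℓ, 12100 * ∫⁻ x : ℝ,
        (Wn c ℓ q).indicator (fun u => ENNReal.ofReal (‖deriv F u‖ ^ 2)) ⟨y, x⟩ :=
        setLIntegral_mono' measurableSet_Ioo fun y hy =>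
          vert_line hF hℓ1 hy.1 hy.2 (lt_trans (mul_pos hq hℓ) hy.1) hc
    _ ≤ ∫⁻ y : ℝ, 12100 * ∫⁻ x : ℝ,
        (Wn c ℓ q).indicator (fun u => ENNReal.ofReal (‖deriv F u‖ ^ 2)) ⟨y, x⟩ :=
        setLIntegral_le_lintegral _ _
    _ = _ := lintegral_const_mul' _ _ (by norm_num)

theorem vert {F : ℂ → ℂ} {A : ℝ} (hF : Fn F A) {c c' ℓ q : ℝ} (hℓ : 0 < ℓ) (hℓ1 : ℓ ≤ 1)
    (hq : 0 < q) (hq1 : q ≤ 1 / 2) (hc : |c' - c| ≤ ℓ / 2) :
    ‖F ⟨ℓ, c'⟩ - F ⟨q * ℓ, c'⟩‖ ≤ 110 * √(ar F (Wn c ℓ q)) * √(Real.log (1 / q)) := by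
  have hqℓ : 0 < q * ℓ := mul_pos hq hℓ
  have hle : q * ℓ ≤ ℓ := by nlinarith only [hq, hq1, hqℓ]
  have hpos : ∀ y ∈ Icc (q * ℓ) ℓ, 0 < y := fun y hy => lt_of_lt_of_le hqℓ hy.1
  have hline : ∀ y : ℝ, HasDerivAt (fun y : ℝ => (⟨y, c'⟩ : ℂ)) 1 y := by
    intro y
    have h1 : (fun y : ℝ => (⟨y, c'⟩ : ℂ)) = fun y : ℝ => (y : ℂ) + (c' : ℂ) * Complex.I := by
      funext t
      apply Complex.ext <;> simp
    rw [h1]
    have h2 := (Complex.ofRealCLM.hasDerivAt (x := y)).add_const ((c' : ℂ) * Complex.I)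
    simpa using h2
  have hopen := Pool.Agent.Helper90.G2.area_isOpen_rp
  have hder : ∀ y ∈ Icc (q * ℓ) ℓ,
      HasDerivAt (fun y : ℝ => F ⟨y, c'⟩) (deriv F ⟨y, c'⟩) y := by
    intro y hy
    have h1 : HasDerivAt F (deriv F ⟨y, c'⟩) ⟨y, c'⟩ :=
      (hF.diff.differentiableAt (hopen.mem_nhds (hpos y hy))).hasDerivAt
    have h2 := h1.scomp y (hline y)
    simpa [Function.comp_def] using h2
  have hcont : ContinuousOn (fun y : ℝ => deriv F ⟨y, c'⟩) (Icc (q * ℓ) ℓ) := by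
    intro y hy
    have h1 : ContinuousAt (deriv F) ⟨y, c'⟩ :=
      ((hF.diff.deriv hopen).differentiableAt (hopen.mem_nhds (hpos y hy))).continuousAt
    exact (ContinuousAt.comp (f := fun y : ℝ => (⟨y, c'⟩ : ℂ)) h1
      (hline y).continuousAt).continuousWithinAt
  have hu : uIcc (q * ℓ) ℓ = Icc (q * ℓ) ℓ := uIcc_of_le hle
  obtain ⟨g, hg⟩ : ∃ g : ℝ → ℝ, g = fun y => ‖deriv F ⟨y, c'⟩‖ := ⟨_, rfl⟩
  have hgc : ContinuousOn g (Icc (q * ℓ) ℓ) := by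
    rw [hg]
    exact hcont.norm
  have hg0 : ∀ y, 0 ≤ g y := by
    intro y
    rw [hg]
    exact norm_nonneg _
  have h1 : F ⟨ℓ, c'⟩ - F ⟨q * ℓ, c'⟩ = ∫ y in (q * ℓ)..ℓ, deriv F ⟨y, c'⟩ := by
    rw [intervalIntegral.integral_eq_sub_of_hasDerivAt (f := fun y : ℝ => F ⟨y, c'⟩)]
    · intro y hy
      rw [hu] at hy
      exact hder y hy
    · apply ContinuousOn.intervalIntegrable
      rw [hu]
      exact hcont
  have h2 : ‖F ⟨ℓ, c'⟩ - F ⟨q * ℓ, c'⟩‖ ≤ ∫ y in (q * ℓ)..ℓ, g y := by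
    rw [h1, hg]
    exact intervalIntegral.norm_integral_le_integral_norm hle
  -- the weighted integral
  have hJc : ContinuousOn (fun y : ℝ => g y ^ 2 * y) (Icc (q * ℓ) ℓ) :=
    (hgc.pow 2).mul continuousOn_id
  have hJi : IntervalIntegrable (fun y : ℝ => g y ^ 2 * y) volume (q * ℓ) ℓ := by
    apply ContinuousOn.intervalIntegrable
    rw [hu]
    exact hJc
  have hfin : volume (F '' Wn c ℓ q) < ⊤ :=
    hF.fin hℓ1 (Pool.Agent.Helper90.G2.local_wn_sub_bx hℓ hq)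
  have hJ : ∫ y in (q * ℓ)..ℓ, g y ^ 2 * y ≤ 12100 * ar F (Wn c ℓ q) := by
    rw [intervalIntegral.integral_of_le hle, integral_Ioc_eq_integral_Ioo]
    have h3 : IntegrableOn (fun y : ℝ => g y ^ 2 * y) (Ioo (q * ℓ) ℓ) :=
      ((intervalIntegrable_iff_integrableOn_Ioc_of_le hle).1 hJi).mono_set Ioo_subset_Ioc_self
    have h4 : ENNReal.ofReal (∫ y in Ioo (q * ℓ) ℓ, g y ^ 2 * y) =
        ∫⁻ y in Ioo (q * ℓ) ℓ, ENNReal.ofReal (g y ^ 2 * y) := by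
      apply ofReal_integral_eq_lintegral_ofReal h3
      filter_upwards [ae_restrict_mem measurableSet_Ioo] with y hy
      have := hpos y ⟨hy.1.le, hy.2.le⟩
      exact mul_nonneg (sq_nonneg _) this.le
    have h5 : ∫⁻ y in Ioo (q * ℓ) ℓ, ENNReal.ofReal (g y ^ 2 * y) ≤
        12100 * volume (F '' Wn c ℓ q) := by
      rw [hg]
      exact vert_int hF hℓ hℓ1 hq hc
    have h6 : (12100 * volume (F '' Wn c ℓ q)) ≠ ⊤ := ENNReal.mul_ne_top (by norm_num) hfin.ne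
    have h7 := ENNReal.toReal_mono h6 (h4.le.trans h5)
    rw [ENNReal.toReal_ofReal, ENNReal.toReal_mul] at h7
    · simpa [ar] using h7
    · apply setIntegral_nonneg measurableSet_Ioo
      intro y hy
      have := hpos y ⟨hy.1.le, hy.2.le⟩
      exact mul_nonneg (sq_nonneg _) this.le
  -- Cauchy-Schwarz
  have har : 0 < ar F (Wn c ℓ q) := Pool.Agent.Helper90.G2.Fn.ar_pos hF hℓ hℓ1 hq hq1
  have hL : 0 < Real.log (1 / q) := by
    apply Real.log_pos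
    rw [lt_div_iff₀ hq]
    (clear * - hq1; linarith only [hq1])
  obtain ⟨a, ha⟩ : ∃ a : ℝ, a = 110 * √(ar F (Wn c ℓ q)) := ⟨_, rfl⟩
  obtain ⟨b, hb⟩ : ∃ b : ℝ, b = √(Real.log (1 / q)) := ⟨_, rfl⟩
  have ha0 : 0 < a := by
    rw [ha]
    positivity
  have hb0 : 0 < b := by
    rw [hb]
    positivity
  have ha2 : 12100 * ar F (Wn c ℓ q) = a ^ 2 := by
    rw [ha, mul_pow, Real.sq_sqrt har.le]
    norm_num
  have hb2 : Real.log (1 / q) = b ^ 2 := by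
    rw [hb, Real.sq_sqrt hL.le]
  rw [ha2] at hJ
  rw [← ha, ← hb]
  have hinv : ∫ y in (q * ℓ)..ℓ, 1 / y = b ^ 2 := by
    rw [integral_one_div_of_pos hqℓ hℓ, ← hb2]
    congr 1
    field_simp
  have hIi : IntervalIntegrable (fun y : ℝ => 1 / y) volume (q * ℓ) ℓ := by
    apply ContinuousOn.intervalIntegrable
    rw [hu]
    apply ContinuousOn.div continuousOn_const continuousOn_id
    intro y hy
    exact (hpos y hy).ne'
  have hgi : IntervalIntegrable g volume (q * ℓ) ℓ := by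
    apply ContinuousOn.intervalIntegrable
    rw [hu]
    exact hgc
  have h8 : ∫ y in (q * ℓ)..ℓ, g y ≤
      ∫ y in (q * ℓ)..ℓ, (b / (2 * a) * (g y ^ 2 * y) + a / (2 * b) * (1 / y)) := by
    apply intervalIntegral.integral_mono_on hle hgi
    · exact (hJi.const_mul _).add (hIi.const_mul _)
    · intro y hy
      have hy0 := hpos y hy
      have h9 : 0 ≤ (b * (g y * y) - a) ^ 2 / (2 * a * b * y) := by (clear * - ha0 hb0 hy0; positivity)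
      have h10 : b / (2 * a) * (g y ^ 2 * y) + a / (2 * b) * (1 / y) - g y =
          (b * (g y * y) - a) ^ 2 / (2 * a * b * y) := by
        field_simp
        ring
      linarith only [h9, h10]
  rw [intervalIntegral.integral_add (hJi.const_mul _) (hIi.const_mul _),
    intervalIntegral.integral_const_mul, intervalIntegral.integral_const_mul, hinv] at h8
  have h11 : b / (2 * a) * (∫ y in (q * ℓ)..ℓ, g y ^ 2 * y) ≤ b / (2 * a) * a ^ 2 :=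
    mul_le_mul_of_nonneg_left hJ (by (clear * - hb0 ha0; positivity))
  have h12 : b / (2 * a) * a ^ 2 + a / (2 * b) * b ^ 2 = a * b := by
    field_simp
    ring
  linarith only [h2, h8, h11, h12]

end Pool.Agent.Helper26.G4
end

/- Helper24.K6w.H26.G4.Disp -/
section
/-!
# G4-DISP: the displacement of the reference points

`c' = ch N c ℓ d`, `q = 1 / N`. `|F (2 ℓ + i c) - F (ℓ + i c)| ≤ 55 ℓ |F' (ℓ + i c)| ≤ 27500 √ar`
(`|F'' / F'| ≤ 4 / ℓ` on the segment, `Fn.bieb` with `ρ = ℓ`, so `|F'|` grows by `e^4 < 55` at most; `Fn.loc`), the same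
at `(ℓ / N, c')`. `dis_cen`: add `Fn.sharp` (between `(ℓ / N, c')` and `(ℓ, c)`; `Window_cen` in
`Pool.Agent.Helper90.G2.Window` for the hypothesis on `c'`). `dis_all`: add the horizontal segment
from `(ℓ, c)` to `(ℓ, c')` (`Fn.loc`: at most `250 √ar`) and `vert`: `55250 + 110 √(log N) ≤ 60000 √(1 + log N)`.
-/

set_option autoImplicit false

namespace Pool.Agent.Helper26.G4

open MeasureTheory Set
open scoped Real
open Pool.Agent.Helper90.G2 (Bx Wn Fn ar ch Cen chi)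

/-- from the top point to the reference point -/
theorem Disp_up {F : ℂ → ℂ} {A : ℝ} (hF : Fn F A) {x h : ℝ} (hh : 0 < h) (hh1 : h ≤ 1) :
    ‖F (vt x h) - F ⟨h, x⟩‖ ≤ 55 * (‖deriv F ⟨h, x⟩‖ * h) := by
  have hpi : h ≤ π := hh1.trans (by (clear * -; linarith only [Real.pi_gt_three]))
  have hn : ‖(vt x h - ⟨h, x⟩ : ℂ)‖ = h := by
    have h1 : (vt x h - ⟨h, x⟩ : ℂ) = (h : ℂ) := by
      apply Complex.ext
      · simp only [vt, Complex.sub_re, Complex.ofReal_re]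
        ring
      · simp only [vt, Complex.sub_im, Complex.ofReal_im]
        ring
    rw [h1, Complex.norm_real, Real.norm_of_nonneg hh.le]
  have hre : ∀ w ∈ segment ℝ (⟨h, x⟩ : ℂ) (vt x h), h ≤ w.re ∧ ‖w - ⟨h, x⟩‖ ≤ h := by
    intro w hw
    rw [segment_eq_image'] at hw
    obtain ⟨t, ht, rfl⟩ := hw
    constructor
    · simp only [vt, Complex.add_re, Complex.real_smul, Complex.mul_re, Complex.sub_re,
        Complex.ofReal_re, Complex.ofReal_im, Complex.sub_im]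
      (clear * - ht hh; nlinarith only [ht.1, hh])
    · rw [add_sub_cancel_left, norm_smul, hn, Real.norm_of_nonneg ht.1]
      (clear * - ht hh; nlinarith only [ht.2, hh])
  have key := basic_seg (f := F) (f' := deriv F) (p := ⟨h, x⟩) (p' := vt x h)
    (C := 55 * ‖deriv F ⟨h, x⟩‖) (fun w hw => basic_hasDeriv hF (lt_of_lt_of_le hh (hre w hw).1))
    (fun w hw => by
      obtain ⟨h1, h2⟩ := hre w hw
      have hseg : ∀ t ∈ Icc (0 : ℝ) 1, h ≤ ((⟨h, x⟩ : ℂ) + t * (w - ⟨h, x⟩)).re := by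
        intro t ht
        simp only [Complex.add_re, Complex.mul_re, Complex.sub_re, Complex.ofReal_re,
          Complex.ofReal_im, Complex.sub_im]
        (clear * - ht h1; linarith only [mul_nonneg ht.1 (sub_nonneg.2 h1)])
      exact Pool.Agent.Helper90.G2.kb_seg hh h2 (fun t ht => lt_of_lt_of_le hh (hseg t ht)) hF.diff
        (fun t ht => Pool.Agent.Helper26.G4.Fn.bieb hF hh (hseg t ht) hpi))
  rw [hn] at key
  (clear * - key; linarith)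

theorem Disp_ch {N d : ℕ} (hN : 2 ≤ N) (hd : d < N) {c ℓ : ℝ} (hℓ : 0 < ℓ) :
    |ch N c ℓ d - c| ≤ ℓ / 2 := by
  have hN0 : (0 : ℝ) < N := by
    have : 0 < N := by omega
    exact_mod_cast this
  have hd1 : ((d : ℝ) + 1) ≤ N := by exact_mod_cast hd
  have e : ch N c ℓ d - c = (((d : ℝ) + 1 / 2) / N - 1 / 2) * ℓ := by
    unfold ch
    ring
  have h1 : 0 ≤ ((d : ℝ) + 1 / 2) / N := by (clear * - hN; positivity)
  have h2 : ((d : ℝ) + 1 / 2) / N ≤ 1 := by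
    rw [div_le_one hN0]
    (clear * - hd1; linarith only [hd1])
  rw [e, abs_mul, abs_of_pos hℓ]
  have h3 : |((d : ℝ) + 1 / 2) / N - 1 / 2| ≤ 1 / 2 := by
    rw [abs_le]
    constructor <;> linarith only [h1, h2]
  nlinarith only [hℓ, h3]

theorem Disp_cen {κ c ℓ : ℝ} (hℓ : 0 < ℓ) {N d : ℕ} (h : Cen κ N d) :
    |ch N c ℓ d - c| ≤ ℓ / 2 - κ * ℓ := by
  unfold Cen at h
  have e : ch N c ℓ d - c = (((d : ℝ) + 1 / 2) / N - 1 / 2) * ℓ := by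
    unfold ch
    ring
  rw [e, abs_mul, abs_of_pos hℓ]
  calc |((d : ℝ) + 1 / 2) / N - 1 / 2| * ℓ ≤ (1 / 2 - κ) * ℓ :=
        mul_le_mul_of_nonneg_right h hℓ.le
    _ = ℓ / 2 - κ * ℓ := by ring

/-- the two vertical segments -/
theorem Disp_two {F : ℂ → ℂ} {A : ℝ} (hF : Fn F A) {N d : ℕ} (hN : 2 ≤ N) (hd : d < N) {c ℓ : ℝ}
    (hℓ : 0 < ℓ) (hℓ1 : ℓ ≤ 1) :
    ‖F (vt (ch N c ℓ d) (ℓ / N)) - F (vt c ℓ)‖ ≤ 55000 * √(ar F (Wn c ℓ (1 / N))) +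
      ‖F ⟨ℓ / N, ch N c ℓ d⟩ - F ⟨ℓ, c⟩‖ := by
  have hN0 : (0 : ℝ) < N := by
    have : 0 < N := by omega
    exact_mod_cast this
  have hN2 : (2 : ℝ) ≤ N := by exact_mod_cast hN
  have hq : (0 : ℝ) < 1 / N := by (clear * - hN; positivity)
  have hq1 : (1 : ℝ) / N ≤ 1 / 2 := one_div_le_one_div_of_le (by norm_num) hN2
  have hℓN : ℓ / N = 1 / N * ℓ := by ring
  have hℓN0 : 0 < ℓ / N := by (clear * - hℓ hN; positivity)
  have hℓN1 : ℓ / N ≤ ℓ := by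
    rw [hℓN]
    nlinarith only [hq, hq1, hℓN, hℓN0]
  have h1 := Disp_up hF (x := ch N c ℓ d) hℓN0 (hℓN1.trans hℓ1)
  have h2 := Disp_up hF (x := c) hℓ hℓ1
  have h3 := hF.loc hℓ hℓ1 hq hq1 (c := c) (u := ⟨ℓ / N, ch N c ℓ d⟩) (by
    simp only
    rw [hℓN]) hℓN1 (Disp_ch hN hd hℓ)
  have h4 := hF.loc hℓ hℓ1 hq hq1 (c := c) (u := ⟨ℓ, c⟩) (by
    simp only
    (clear * - hℓN hℓN1; linarith only [hℓN, hℓN1])) le_rfl (by
    simp only [sub_self, abs_zero]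
    (clear * - hℓ; positivity))
  simp only at h3 h4
  have h5 : F (vt (ch N c ℓ d) (ℓ / N)) - F (vt c ℓ) =
      (F (vt (ch N c ℓ d) (ℓ / N)) - F ⟨ℓ / N, ch N c ℓ d⟩) +
      (F ⟨ℓ / N, ch N c ℓ d⟩ - F ⟨ℓ, c⟩) + -(F (vt c ℓ) - F ⟨ℓ, c⟩) := by ring
  rw [h5]
  refine norm_add₃_le.trans ?_
  rw [norm_neg]
  linarith only [h1, h2, h3, h4]

theorem dis_cen {F : ℂ → ℂ} {A : ℝ} (hF : Fn F A) {N d : ℕ} (hN : 2 ≤ N) (hd : d < N) {κ c ℓ : ℝ}
    (hκ : 0 < κ) (hκ1 : κ ≤ 1 / 4) (hNκ : 2 / (N : ℝ) < κ ^ 2) (hℓ : 0 < ℓ) (hℓ1 : ℓ ≤ 1)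
    (hc : Cen κ N d) :
    ‖F (vt (ch N c ℓ d) (ℓ / N)) - F (vt c ℓ)‖ ≤ √(ar F (Wn c ℓ (1 / N))) * Sc κ N := by
  have hN0 : (0 : ℝ) < N := by
    have : 0 < N := by omega
    exact_mod_cast this
  have hq : (0 : ℝ) < 1 / N := by (clear * - hN; positivity)
  have h1 := Disp_two hF hN hd (c := c) hℓ hℓ1
  have h2 := Pool.Agent.Helper90.G2.Fn.sharp hF (c := c) (c' := ch N c ℓ d) hℓ hℓ1 hκ hκ1 hq (by
    rw [mul_one_div]
    exact hNκ) (Disp_cen hℓ hc)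
  have h3 : Pool.Agent.Helper90.G2.zt (ch N c ℓ d) (1 / N * ℓ) = ⟨ℓ / N, ch N c ℓ d⟩ := by
    unfold Pool.Agent.Helper90.G2.zt
    congr 1
    ring
  have h4 : Pool.Agent.Helper90.G2.zt c ℓ = ⟨ℓ, c⟩ := rfl
  rw [h3, h4, one_div_one_div] at h2
  unfold Sc
  rw [mul_add]
  linarith only [h1, h2]

theorem Disp_hor {F : ℂ → ℂ} {A : ℝ} (hF : Fn F A) {c c' ℓ q : ℝ} (hℓ : 0 < ℓ) (hℓ1 : ℓ ≤ 1)
    (hq : 0 < q) (hq1 : q ≤ 1 / 2) (hc : |c' - c| ≤ ℓ / 2) :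
    ‖F ⟨ℓ, c'⟩ - F ⟨ℓ, c⟩‖ ≤ 250 * √(ar F (Wn c ℓ q)) := by
  obtain ⟨K, hK⟩ : ∃ K : ℝ, K = √(ar F (Wn c ℓ q)) := ⟨_, rfl⟩
  have hK0 : 0 ≤ K := by
    rw [hK]
    exact Real.sqrt_nonneg _
  have hdiff : (⟨ℓ, c'⟩ - ⟨ℓ, c⟩ : ℂ) = ((c' - c : ℝ) : ℂ) * Complex.I := by
    apply Complex.ext <;> simp
  have hn : ‖(⟨ℓ, c'⟩ - ⟨ℓ, c⟩ : ℂ)‖ = |c' - c| := by
    rw [hdiff, norm_mul, Complex.norm_I, mul_one, Complex.norm_real, Real.norm_eq_abs]
  have hre : ∀ w ∈ segment ℝ (⟨ℓ, c⟩ : ℂ) ⟨ℓ, c'⟩, w.re = ℓ ∧ |w.im - c| ≤ ℓ / 2 := by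
    intro w hw
    rw [segment_eq_image'] at hw
    obtain ⟨t, ht, rfl⟩ := hw
    rw [hdiff]
    constructor
    · simp
    · have h1 : ((⟨ℓ, c⟩ : ℂ) + t • (((c' - c : ℝ) : ℂ) * Complex.I)).im - c = t * (c' - c) := by
        simp
      rw [h1, abs_mul, abs_of_nonneg ht.1]
      nlinarith only [ht.2, abs_nonneg (c' - c), hc]
  have key := basic_seg (f := F) (f' := deriv F) (p := ⟨ℓ, c⟩) (p' := ⟨ℓ, c'⟩)
    (C := 500 * K / ℓ) (fun w hw => basic_hasDeriv hF (by rw [(hre w hw).1]; exact hℓ))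
    (fun w hw => by
      obtain ⟨h1, h2⟩ := hre w hw
      have h3 := hF.loc hℓ hℓ1 hq hq1 (c := c) (u := w) (by
        rw [h1]
        (clear * - hℓ hq1; nlinarith only [hℓ, hq1])) h1.le h2
      rw [h1, ← hK] at h3
      rw [le_div_iff₀ hℓ]
      exact h3)
  rw [hn] at key
  rw [← hK]
  refine key.trans ?_
  calc 500 * K / ℓ * |c' - c| ≤ 500 * K / ℓ * (ℓ / 2) := by (clear * - hc hK0 hℓ; gcongr)
    _ = 250 * K := by
      field_simp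
      ring

theorem dis_all {F : ℂ → ℂ} {A : ℝ} (hF : Fn F A) {N d : ℕ} (hN : 2 ≤ N) (hd : d < N) {c ℓ : ℝ}
    (hℓ : 0 < ℓ) (hℓ1 : ℓ ≤ 1) :
    ‖F (vt (ch N c ℓ d) (ℓ / N)) - F (vt c ℓ)‖ ≤ √(ar F (Wn c ℓ (1 / N))) * Sa N := by
  have hN0 : (0 : ℝ) < N := by
    have : 0 < N := by omega
    exact_mod_cast this
  have hN2 : (2 : ℝ) ≤ N := by exact_mod_cast hN
  have hq : (0 : ℝ) < 1 / N := by (clear * - hN; positivity)
  have hq1 : (1 : ℝ) / N ≤ 1 / 2 := one_div_le_one_div_of_le (by norm_num) hN2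
  have hc := Disp_ch hN hd (c := c) hℓ
  have h1 := Disp_two hF hN hd (c := c) hℓ hℓ1
  have h2 := vert hF hℓ hℓ1 hq hq1 hc
  have h3 := Disp_hor hF hℓ hℓ1 hq hq1 hc
  have hℓN : 1 / (N : ℝ) * ℓ = ℓ / N := by ring
  rw [hℓN, one_div_one_div] at h2
  obtain ⟨K, hK⟩ : ∃ K : ℝ, K = √(ar F (Wn c ℓ (1 / N))) := ⟨_, rfl⟩
  have hK0 : 0 ≤ K := by
    rw [hK]
    exact Real.sqrt_nonneg _
  rw [← hK] at h1 h2 h3 ⊢
  have h4 : ‖F ⟨ℓ / N, ch N c ℓ d⟩ - F ⟨ℓ, c⟩‖ ≤ 110 * K * √(Real.log N) + 250 * K := by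
    have h5 : F ⟨ℓ / N, ch N c ℓ d⟩ - F ⟨ℓ, c⟩ =
        -(F ⟨ℓ, ch N c ℓ d⟩ - F ⟨ℓ / N, ch N c ℓ d⟩) + (F ⟨ℓ, ch N c ℓ d⟩ - F ⟨ℓ, c⟩) := by ring
    rw [h5]
    refine (norm_add_le _ _).trans ?_
    rw [norm_neg]
    linarith only [h3, h2]
  have hL : 0 ≤ Real.log N := Real.log_nonneg (by linarith only [hN2])
  have h6 : √(Real.log N) ≤ √(1 + Real.log N) := Real.sqrt_le_sqrt (by linarith only [])
  have h7 : 1 ≤ √(1 + Real.log N) := by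
    rw [Real.one_le_sqrt]
    linarith only [hL]
  unfold Sa
  have h8 : 110 * K * √(Real.log N) ≤ 110 * K * √(1 + Real.log N) := by (clear * - h6 hK0; gcongr)
  have h9 : 55250 * K * 1 ≤ 55250 * K * √(1 + Real.log N) := by (clear * - h7 hK0; gcongr)
  (clear * - h1 hK0 h4 h8 h9; linarith only [h1, hK0, h4, h8, h9])

end Pool.Agent.Helper26.G4
end
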