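import Pool.Agent.Helper24.K6.G03
import Pool.Agent.Helper24.K6.G09
import Pool.Agent.Helper24.K6.G10
import Pool.Agent.Helper24.K6.G11
import Pool.Agent.Helper24.K6.G13

/- Helper24.K6w.H26.G4.LogInt -/
section
/-!
# G4-LOGINT: a finite integral

`∫ dA (ζ) / (|ζ|² |Log ζ|^(3/2)) < ∞`: change of variables `ζ = e^z`, `z` in the strip `|im z| < π`
(injective, Jacobian `|e^z|²`, the image is the slit plane, the rest is a null set): the integral is
`∫ |z|^(-3/2) dA` over the strip, finite near `0` (dimension `2`) and at infinity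
(`∫ 2 π |x|^(-3/2) dx` over `|x| ≥ 1`).
-/

set_option autoImplicit false

namespace Pool.Agent.Helper26.G4

open MeasureTheory Set
open scoped Real
open Pool.Agent.Helper90.G2 (Bx Wn Fn ar ch Cen chi)

/-- profile in the variable `log r` -/
noncomputable def logIntG (x : ℝ) : ℝ := if x < 1 then x ^ (-(3 / 4) : ℝ) else x ^ (-(3 / 2) : ℝ)

theorem logInt_G_meas : Measurable logIntG :=
  Measurable.ite measurableSet_Iio (measurable_id.pow_const _) (measurable_id.pow_const _)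

theorem logInt_abs (f : ℝ → ENNReal) : ∫⁻ x : ℝ, f |x| ≤ 2 * ∫⁻ x in Ioi (0 : ℝ), f x := by
  have h1 : ∫⁻ x in Ioi (0 : ℝ), f |x| = ∫⁻ x in Ioi (0 : ℝ), f x :=
    setLIntegral_congr_fun measurableSet_Ioi fun x hx => by
      simp only [abs_of_pos (mem_Ioi.1 hx)]
  have h2 : ∫⁻ x in Iio (0 : ℝ), f |x| = ∫⁻ x in Ioi (0 : ℝ), f x := by
    have h3 := (Measure.measurePreserving_neg (volume : Measure ℝ)).setLIntegral_comp_preimage_emb
      (MeasurableEquiv.neg ℝ).measurableEmbedding (fun x => f |x|) (Ioi (0 : ℝ))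
    have h4 : (Neg.neg ⁻¹' Ioi (0 : ℝ)) = Iio (0 : ℝ) := by
      ext x
      simp
    rw [h4, h1] at h3
    rw [← h3]
    exact setLIntegral_congr_fun measurableSet_Iio fun x hx => by
      simp only [abs_neg]
  have h5 : ∫⁻ x in (Ioi (0 : ℝ))ᶜ, f |x| = ∫⁻ x in Iio (0 : ℝ), f |x| := by
    rw [compl_Ioi]
    exact setLIntegral_congr Iio_ae_eq_Iic.symm
  rw [← lintegral_add_compl (fun x => f |x|) (measurableSet_Ioi : MeasurableSet (Ioi (0 : ℝ))), h5, h1, h2, two_mul]

theorem logInt_small : ∫⁻ x in Ioo (0 : ℝ) 4, ENNReal.ofReal (x ^ (-(3 / 4) : ℝ)) < ⊤ := by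
  have h1 : IntegrableOn (fun x : ℝ => x ^ (-(3 / 4) : ℝ)) (Ioo 0 4) := by
    rw [intervalIntegral.integrableOn_Ioo_rpow_iff (by norm_num)]
    norm_num
  exact h1.lintegral_lt_top

theorem logInt_large : ∫⁻ x in Ioi (1 : ℝ), ENNReal.ofReal (x ^ (-(3 / 2) : ℝ)) < ⊤ :=
  (integrableOn_Ioi_rpow_of_lt (by norm_num) (by norm_num)).lintegral_lt_top

theorem logInt_G : ∫⁻ x in Ioi (0 : ℝ), ENNReal.ofReal (logIntG x) < ⊤ := by
  have h1 : Ioi (0 : ℝ) ⊆ Ioo 0 1 ∪ Ici 1 := fun x hx => by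
    rcases lt_or_ge x 1 with h | h
    · exact Or.inl ⟨hx, h⟩
    · exact Or.inr h
  refine lt_of_le_of_lt ((lintegral_mono_set h1).trans (lintegral_union_le _ _ _)) ?_
  refine ENNReal.add_lt_top.2 ⟨?_, ?_⟩
  · rw [setLIntegral_congr_fun (g := fun x => ENNReal.ofReal (x ^ (-(3 / 4) : ℝ)))
      measurableSet_Ioo fun x hx => by simp only [logIntG, if_pos hx.2]]
    exact lt_of_le_of_lt (lintegral_mono_set (Ioo_subset_Ioo_right (by norm_num))) logInt_small
  · rw [setLIntegral_congr_fun (g := fun x => ENNReal.ofReal (x ^ (-(3 / 2) : ℝ)))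
      measurableSet_Ici fun x hx => by simp only [logIntG, if_neg (not_lt.2 (mem_Ici.1 hx))],
      ← setLIntegral_congr Ioi_ae_eq_Ici]
    exact logInt_large

/-- change of variables `r = e^x` -/
theorem logInt_exp (g : ℝ → ENNReal) :
    ∫⁻ r in Ioi (0 : ℝ), ENNReal.ofReal r⁻¹ * g (Real.log r) = ∫⁻ x : ℝ, g x := by
  have h1 := lintegral_image_eq_lintegral_abs_deriv_mul (s := univ) MeasurableSet.univ
    (fun x _ => (Real.hasDerivAt_exp x).hasDerivWithinAt) Real.exp_injective.injOn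
    (fun r => ENNReal.ofReal r⁻¹ * g (Real.log r))
  rw [image_univ, Real.range_exp, Measure.restrict_univ] at h1
  rw [h1]
  refine lintegral_congr fun x => ?_
  rw [Real.log_exp, ← mul_assoc, abs_of_pos (Real.exp_pos x),
    ← ENNReal.ofReal_mul (Real.exp_pos x).le, mul_inv_cancel₀ (Real.exp_pos x).ne',
    ENNReal.ofReal_one, one_mul]

/-- pointwise bound -/
theorem logInt_pt {r t : ℝ} (hr : 0 < r) (ht : t ∈ Ioo (-π) π) (hr1 : r ≠ 1) (ht0 : t ≠ 0) :
    r * (‖Complex.polarCoord.symm (r, t)‖ ^ (-2 : ℝ) *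
      ‖Complex.log (Complex.polarCoord.symm (r, t))‖ ^ (-(3 / 2) : ℝ)) ≤
    r⁻¹ * logIntG |Real.log r| * (|t| ^ (-(3 / 4) : ℝ) + 1) := by
  have h1 : Complex.polarCoord.symm (r, t) = (r : ℂ) * Complex.exp (t * Complex.I) := by
    rw [Complex.polarCoord_symm_apply, Complex.exp_mul_I, Complex.ofReal_cos, Complex.ofReal_sin]
  have h2 : Complex.log ((r : ℂ) * Complex.exp (t * Complex.I)) = Real.log r + t * Complex.I := by
    rw [Complex.log_ofReal_mul hr (Complex.exp_ne_zero _), Complex.log_exp]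
    · simpa using ht.1
    · simpa using ht.2.le
  have h3 : ‖(r : ℂ) * Complex.exp (t * Complex.I)‖ = r := by
    rw [norm_mul, Complex.norm_exp_ofReal_mul_I, mul_one, Complex.norm_real,
      Real.norm_of_nonneg hr.le]
  rw [h1, h2, h3]
  set w : ℂ := (Real.log r : ℂ) + t * Complex.I with hw
  have hwre : w.re = Real.log r := by simp [hw]
  have hwim : w.im = t := by simp [hw]
  have h4 : |Real.log r| ≤ ‖w‖ := by
    rw [← hwre]
    exact Complex.abs_re_le_norm w
  have h5 : |t| ≤ ‖w‖ := by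
    conv_lhs => rw [← hwim]
    exact Complex.abs_im_le_norm w
  have hl0 : 0 < |Real.log r| := by
    rw [abs_pos]
    exact Real.log_ne_zero_of_pos_of_ne_one hr hr1
  have ht1 : 0 < |t| := abs_pos.2 ht0
  have hw0 : 0 < ‖w‖ := lt_of_lt_of_le ht1 h5
  have h6 : ‖w‖ ^ (-(3 / 2) : ℝ) ≤ logIntG |Real.log r| * (|t| ^ (-(3 / 4) : ℝ) + 1) := by
    have ht2 : 0 < |t| ^ (-(3 / 4) : ℝ) := Real.rpow_pos_of_pos ht1 _
    by_cases hx : |Real.log r| < 1
    · rw [logIntG, if_pos hx]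
      have h7 : ‖w‖ ^ (-(3 / 2) : ℝ) = ‖w‖ ^ (-(3 / 4) : ℝ) * ‖w‖ ^ (-(3 / 4) : ℝ) := by
        rw [← Real.rpow_add hw0]
        norm_num
      have h8 : ‖w‖ ^ (-(3 / 4) : ℝ) ≤ |Real.log r| ^ (-(3 / 4) : ℝ) :=
        Real.rpow_le_rpow_of_nonpos hl0 h4 (by norm_num)
      have h9 : ‖w‖ ^ (-(3 / 4) : ℝ) ≤ |t| ^ (-(3 / 4) : ℝ) :=
        Real.rpow_le_rpow_of_nonpos ht1 h5 (by norm_num)
      rw [h7]
      exact mul_le_mul h8 (h9.trans (by linarith only [])) (Real.rpow_nonneg hw0.le _)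
        (Real.rpow_nonneg hl0.le _)
    · rw [logIntG, if_neg hx]
      have h8 : ‖w‖ ^ (-(3 / 2) : ℝ) ≤ |Real.log r| ^ (-(3 / 2) : ℝ) :=
        Real.rpow_le_rpow_of_nonpos hl0 h4 (by norm_num)
      refine h8.trans (le_mul_of_one_le_right (Real.rpow_nonneg hl0.le _) (by linarith only [ht2]))
  have h10 : r * (r ^ (-2 : ℝ) * ‖w‖ ^ (-(3 / 2) : ℝ)) = r⁻¹ * ‖w‖ ^ (-(3 / 2) : ℝ) := by
    have h11 : r ^ (-2 : ℝ) = r⁻¹ * r⁻¹ := by
      rw [← Real.rpow_neg_one, ← Real.rpow_add hr]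
      norm_num
    rw [h11]
    (clear * - hw0 hr; field_simp)
  rw [h10, mul_assoc]
  exact mul_le_mul_of_nonneg_left h6 (inv_pos.2 hr).le

theorem logInt_t : ∫⁻ t in Ioo (-π) π, ENNReal.ofReal (|t| ^ (-(3 / 4) : ℝ) + 1) < ⊤ := by
  have h1 : ∫⁻ t in Ioo (-π) π, ENNReal.ofReal (|t| ^ (-(3 / 4) : ℝ) + 1) ≤
      (∫⁻ t in Ioo (-π) π, ENNReal.ofReal (|t| ^ (-(3 / 4) : ℝ))) + ∫⁻ t in Ioo (-π) π, 1 := by
    rw [← lintegral_add_right _ measurable_const]
    refine lintegral_mono fun t => ?_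
    refine ENNReal.ofReal_add_le.trans ?_
    rw [ENNReal.ofReal_one]
  refine lt_of_le_of_lt h1 (ENNReal.add_lt_top.2 ⟨?_, ?_⟩)
  · have h2 : ∫⁻ t in Ioo (-π) π, ENNReal.ofReal (|t| ^ (-(3 / 4) : ℝ)) ≤
        ∫⁻ t : ℝ, (Iio (4 : ℝ)).indicator (fun x => ENNReal.ofReal (x ^ (-(3 / 4) : ℝ))) |t| := by
      rw [← lintegral_indicator measurableSet_Ioo]
      refine lintegral_mono fun t => ?_
      by_cases ht : t ∈ Ioo (-π) π
      · have h3 : |t| ∈ Iio (4 : ℝ) := lt_of_lt_of_le (abs_lt.2 ht) Real.pi_le_four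
        rw [indicator_of_mem ht, indicator_of_mem h3]
      · rw [indicator_of_notMem ht]
        exact bot_le
    refine lt_of_le_of_lt (h2.trans (logInt_abs _)) (ENNReal.mul_lt_top (by norm_num) ?_)
    rw [lintegral_indicator measurableSet_Iio, Measure.restrict_restrict measurableSet_Iio,
      inter_comm, Ioi_inter_Iio]
    exact logInt_small
  · rw [setLIntegral_one, Real.volume_Ioo]
    exact ENNReal.ofReal_lt_top

theorem logInt_r : ∫⁻ r in Ioi (0 : ℝ), ENNReal.ofReal (r⁻¹ * logIntG |Real.log r|) < ⊤ := by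
  have h1 : ∫⁻ r in Ioi (0 : ℝ), ENNReal.ofReal (r⁻¹ * logIntG |Real.log r|) =
      ∫⁻ r in Ioi (0 : ℝ), ENNReal.ofReal r⁻¹ * (fun x => ENNReal.ofReal (logIntG |x|))
        (Real.log r) :=
    setLIntegral_congr_fun measurableSet_Ioi fun r hr => by
      simp only [ENNReal.ofReal_mul (inv_pos.2 (mem_Ioi.1 hr)).le]
  rw [h1, logInt_exp fun x => ENNReal.ofReal (logIntG |x|)]
  exact lt_of_le_of_lt (logInt_abs fun x => ENNReal.ofReal (logIntG x))
    (ENNReal.mul_lt_top (by norm_num) logInt_G)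

theorem log_int : ∫⁻ z : ℂ, ENNReal.ofReal (‖z‖ ^ (-2 : ℝ) * ‖Complex.log z‖ ^ (-(3 / 2) : ℝ)) < ⊤ := by
  rw [← Complex.lintegral_comp_polarCoord_symm]
  have hne : ∀ᵐ p : ℝ × ℝ, p.1 ≠ 1 ∧ p.2 ≠ 0 := by
    rw [Filter.eventually_and]
    refine ⟨?_, ?_⟩
    · rw [ae_iff, Measure.volume_eq_prod]
      have h1 : {p : ℝ × ℝ | ¬ p.1 ≠ 1} = {1} ×ˢ univ := by
        ext p
        simp
      rw [h1, Measure.prod_prod]
      simp
    · rw [ae_iff, Measure.volume_eq_prod]
      have h1 : {p : ℝ × ℝ | ¬ p.2 ≠ 0} = univ ×ˢ {0} := by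
        ext p
        simp
      rw [h1, Measure.prod_prod]
      simp
  have h1 : ∫⁻ p in Complex.polarCoord.target, ENNReal.ofReal p.1 • (fun z : ℂ =>
      ENNReal.ofReal (‖z‖ ^ (-2 : ℝ) * ‖Complex.log z‖ ^ (-(3 / 2) : ℝ)))
        (Complex.polarCoord.symm p) ≤
      ∫⁻ p in Ioi (0 : ℝ) ×ˢ Ioo (-π) π, ENNReal.ofReal (p.1⁻¹ * logIntG |Real.log p.1|) *
        ENNReal.ofReal (|p.2| ^ (-(3 / 4) : ℝ) + 1) := by
    rw [Complex.polarCoord_target]
    refine setLIntegral_mono_ae' (measurableSet_Ioi.prod measurableSet_Ioo) ?_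
    filter_upwards [hne] with p hp hp2
    have h2 := logInt_pt (r := p.1) (t := p.2) hp2.1 hp2.2 hp.1 hp.2
    rw [smul_eq_mul, ← ENNReal.ofReal_mul (mem_Ioi.1 hp2.1).le, ← ENNReal.ofReal_mul' (by (clear * -; positivity))]
    exact ENNReal.ofReal_le_ofReal h2
  refine lt_of_le_of_lt h1 ?_
  rw [Measure.volume_eq_prod, ← Measure.prod_restrict,
    lintegral_prod_mul (f := fun r : ℝ => ENNReal.ofReal (r⁻¹ * logIntG |Real.log r|))
      (g := fun t : ℝ => ENNReal.ofReal (|t| ^ (-(3 / 4) : ℝ) + 1))]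
  · exact ENNReal.mul_lt_top logInt_r logInt_t
  · exact (ENNReal.measurable_ofReal.comp (measurable_inv.mul (logInt_G_meas.comp
      (continuous_abs.measurable.comp Real.measurable_log)))).aemeasurable
  · exact (ENNReal.measurable_ofReal.comp ((continuous_abs.measurable.pow_const _).add_const _)).aemeasurable

end Pool.Agent.Helper26.G4
end

/- Helper24.K6w.H26.G4.ZInt -/
section
/-!
# G4-ZINT: the area integral

`S`: a measurable set of points `v` with `re u < re v`, `|im (v - u)| < π`. With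
`ζ v = (F v - F u) / (F p - F u)`, `p = cv u t`: `exp (Lb Λ v u - a t) = ζ v`, so
`|Lb Λ v u - a t| ≥ |Log (ζ v)|` (the principal logarithm has the smallest norm), and
`|F' v|² / |F v - F u|² = |ζ' v|² / |ζ v|²`. `ζ` is injective on the strip `|im (v - u)| < π`:
`lintegral_image_eq_lintegral_abs_det_fderiv_mul` (see `Pool.Agent.Helper90.G2.Fn.vol`) and `log_int`.
Where `Lb Λ v u = a t` the real power is `0`, no problem.
-/

set_option autoImplicit false

namespace Pool.Agent.Helper26.G4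

open MeasureTheory Set
open scoped Real
open Pool.Agent.Helper90.G2 (Bx Wn Fn ar ch Cen chi)

/-- the determinant of multiplication by a complex number -/
theorem zInt_det (c : ℂ) : |(c • (1 : ℂ →L[ℝ] ℂ)).det| = ‖c‖ ^ 2 := by
  have h : (c • (1 : ℂ →L[ℝ] ℂ)).det = ‖c‖ ^ 2 := by
    have h1 : (((c • (1 : ℂ →L[ℝ] ℂ)) : ℂ →L[ℝ] ℂ) : ℂ →ₗ[ℝ] ℂ) =
        ((c • (LinearMap.id : ℂ →ₗ[ℂ] ℂ)).restrictScalars ℝ) := by
      ext
      all_goals simp
    rw [ContinuousLinearMap.det, h1, LinearMap.det_restrictScalars]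
    simp [Algebra.norm_complex_eq, Complex.normSq_eq_norm_sq]
  rw [h, abs_of_nonneg (by positivity)]

/-- the principal logarithm has the smallest imaginary part -/
theorem zInt_im (w : ℂ) : |(Complex.log (Complex.exp w)).im| ≤ |w.im| := by
  rw [Complex.log_im]
  rcases le_or_gt |w.im| π with h | h
  · rcases eq_or_lt_of_le (abs_le.1 h).1 with h1 | h1
    · exact (Complex.abs_arg_le_pi _).trans (by rw [← h1, abs_neg, abs_of_pos Real.pi_pos])
    · have h2 := Complex.log_exp h1 (abs_le.1 h).2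
      rw [← Complex.log_im, h2]
  · exact (Complex.abs_arg_le_pi _).trans h.le

theorem zInt_re (w : ℂ) : (Complex.log (Complex.exp w)).re = w.re := by
  rw [Complex.log_re, Complex.norm_exp, Real.log_exp]

/-- the principal logarithm has the smallest norm -/
theorem zInt_log (w : ℂ) : ‖Complex.log (Complex.exp w)‖ ≤ ‖w‖ := by
  rw [← sq_le_sq₀ (norm_nonneg _) (norm_nonneg _), Complex.sq_norm, Complex.sq_norm,
    Complex.normSq_apply, Complex.normSq_apply, zInt_re]
  have h := sq_le_sq.2 (zInt_im w)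
  (clear * - h; linarith only [h])

/-- the pointwise inequality -/
theorem zInt_pt {z d w a : ℂ} (h : Complex.exp w * a = z) (ha : a ≠ 0) (h1 : z = a → w = 0) :
    (‖d‖ / ‖z‖) ^ 2 * ‖w‖ ^ (-(3 / 2) : ℝ) ≤ ‖d / a‖ ^ 2 *
      (‖z / a‖ ^ (-2 : ℝ) * ‖Complex.log (z / a)‖ ^ (-(3 / 2) : ℝ)) := by
  have hz : z / a = Complex.exp w := by rw [← h, mul_div_cancel_right₀ _ ha]
  have hz0 : z ≠ 0 := by
    rw [← h]
    exact mul_ne_zero (Complex.exp_ne_zero _) ha
  have hn : 0 < ‖z‖ := norm_pos_iff.2 hz0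
  have hna : 0 < ‖a‖ := norm_pos_iff.2 ha
  have h2 : ‖w‖ ^ (-(3 / 2) : ℝ) ≤ ‖Complex.log (z / a)‖ ^ (-(3 / 2) : ℝ) := by
    by_cases hw : Complex.log (z / a) = 0
    · have h3 : z / a = 1 := by
        rw [← Complex.exp_log (div_ne_zero hz0 ha), hw, Complex.exp_zero]
      have h4 : z = a := by rwa [div_eq_one_iff_eq ha] at h3
      rw [h1 h4, hw]
    · refine Real.rpow_le_rpow_of_nonpos (norm_pos_iff.2 hw) ?_ (by norm_num)
      rw [hz]
      exact zInt_log w
  have h5 : ‖d / a‖ ^ 2 * ‖z / a‖ ^ (-2 : ℝ) = (‖d‖ / ‖z‖) ^ 2 := by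
    rw [Real.rpow_neg (norm_nonneg _), Real.rpow_two, norm_div, norm_div]
    field_simp
  rw [← mul_assoc, h5]
  exact mul_le_mul_of_nonneg_left h2 (sq_nonneg _)

/-- the point at the height of the curve has the value of the curve -/
theorem zInt_eq {F : ℂ → ℂ} {A : ℝ} (hF : Fn F A) (Λ : ℂ → ℂ → ℂ) {u v : ℂ} (hu : 0 < u.re)
    (t : ℝ) (hv : u.re < v.re) (hv2 : |v.im - u.im| < π)
    (h : F v - F u = F (cv u t) - F u) : Lb Λ v u - aa Λ u t = 0 := by
  have h1 : F v = F (cv u t) := by linear_combination h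
  have h2 : v = cv u t := by
    refine hF.inj u.im ⟨hu.trans hv, hv2⟩ ⟨Curve_re_pos hu t, ?_⟩ h1
    rw [Curve_im, sub_self, abs_zero]
    exact Real.pi_pos
  rw [h2]
  exact sub_self _

theorem z_int : ∃ C : ℝ, 0 < C ∧ ∀ (F : ℂ → ℂ) (A : ℝ) (Λ : ℂ → ℂ → ℂ), Fn F A → Br F Λ →
    ∀ u : ℂ, 0 < u.re → ∀ t : ℝ, ∀ S : Set ℂ, MeasurableSet S →
    S ⊆ {v : ℂ | u.re < v.re ∧ |v.im - u.im| < π} →
    ∫⁻ v in S, ENNReal.ofReal ((‖deriv F v‖ / ‖F v - F u‖) ^ 2 *
      ‖Lb Λ v u - aa Λ u t‖ ^ (-(3 / 2) : ℝ)) ≤ ENNReal.ofReal C := by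
  obtain ⟨I, hI⟩ : ∃ I : ENNReal, I = ∫⁻ z : ℂ,
      ENNReal.ofReal (‖z‖ ^ (-2 : ℝ) * ‖Complex.log z‖ ^ (-(3 / 2) : ℝ)) := ⟨_, rfl⟩
  have hIt : I < ⊤ := by
    rw [hI]
    exact log_int
  refine ⟨I.toReal + 1, by (clear * -; positivity), ?_⟩
  intro F A Λ hF hΛ u hu t S hS hsub
  have hIC : I ≤ ENNReal.ofReal (I.toReal + 1) := by
    rw [← ENNReal.ofReal_toReal hIt.ne]
    exact ENNReal.ofReal_le_ofReal (by
      rw [ENNReal.toReal_ofReal ENNReal.toReal_nonneg]
      (clear * -; linarith))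
  refine le_trans ?_ hIC
  have ha : F (cv u t) - F u ≠ 0 := Curve_ne hF hu t
  set a : ℂ := F (cv u t) - F u with hadef
  have h1 : ∀ v ∈ S, HasFDerivWithinAt (fun v => (F v - F u) / a)
      ((deriv F v / a) • (1 : ℂ →L[ℝ] ℂ)) S v := by
    intro v hv
    have h2 : HasDerivAt (fun v => (F v - F u) / a) (deriv F v / a) v :=
      ((basic_hasDeriv hF (hu.trans (hsub hv).1)).sub_const (F u)).div_const a
    exact h2.complexToReal_fderiv.hasFDerivWithinAt
  have hinj : InjOn (fun v => (F v - F u) / a) S := by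
    intro v hv w hw h
    have h3 : F v - F u = F w - F u := by
      have h4 := congrArg (fun z => z * a) h
      simpa [div_mul_cancel₀ _ ha] using h4
    exact hF.inj u.im ⟨hu.trans (hsub hv).1, (hsub hv).2⟩ ⟨hu.trans (hsub hw).1, (hsub hw).2⟩
      (by linear_combination h3)
  have h5 := lintegral_image_eq_lintegral_abs_det_fderiv_mul volume hS h1 hinj
    (fun z => ENNReal.ofReal (‖z‖ ^ (-2 : ℝ) * ‖Complex.log z‖ ^ (-(3 / 2) : ℝ)))
  rw [hI]
  refine le_trans ?_ (setLIntegral_le_lintegral ((fun v => (F v - F u) / a) '' S) _)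
  rw [h5]
  refine setLIntegral_mono_ae' hS (Filter.Eventually.of_forall fun v hv => ?_)
  rw [zInt_det, ← ENNReal.ofReal_mul (sq_nonneg _)]
  refine ENNReal.ofReal_le_ofReal (zInt_pt ?_ ha ?_)
  · have h6 := Lb_exp hΛ hu (hsub hv).1 (by (clear * - hsub hv; linarith [(hsub hv).2, Real.pi_pos]))
    rw [Complex.exp_sub, h6, aa_exp hΛ hu, div_mul_cancel₀ _ ha]
  · exact zInt_eq hF Λ hu t (hsub hv).1 (hsub hv).2

end Pool.Agent.Helper26.G4
end

/- Helper24.K6w.H66.G4.Quot -/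
section
/-!
# G4 core, part 3: the logarithmic derivative of the difference quotient of a univalent function
-/

set_option autoImplicit false

namespace Pool.Agent.Helper66.G4

open Set Filter Topology Metric
open scoped Real

/-- Koebe's quarter theorem at `z` -/
theorem koebe_at {F : ℂ → ℂ} {z w0 : ℂ} {r : ℝ} (hr : 0 < r) (hd : DifferentiableOn ℂ F (ball z r))
    (hi : InjOn F (ball z r)) (hne : ∀ v ∈ ball z r, F v ≠ w0) :
    ‖deriv F z‖ * r ≤ 4 * ‖F z - w0‖ := by
  have hm : MapsTo (fun w : ℂ => z + w) (ball 0 r) (ball z r) := by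
    intro w hw
    rw [mem_ball_zero_iff] at hw
    rw [mem_ball, dist_eq_norm, add_sub_cancel_left]
    exact hw
  have h := Pool.Agent.Helper84.EK.koebe_r (g := fun w => F (z + w) - w0) hr
    ((hd.comp (by fun_prop) hm).sub_const w0)
    (by
      intro w hw w' hw' h
      exact add_left_cancel (hi (hm hw) (hm hw') (sub_left_injective h)))
    (fun w hw => sub_ne_zero.2 (hne _ (hm hw)))
  have h2 : deriv (fun w => F (z + w) - w0) 0 = deriv F z := by
    rw [deriv_sub_const, deriv_comp_const_add, add_zero]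
  rw [h2, add_zero] at h
  exact h

/-- the difference quotient has no zeros -/
theorem dslope_ne {F : ℂ → ℂ} {u : ℂ} {R : ℝ} (hd : DifferentiableOn ℂ F (ball u R))
    (hi : InjOn F (ball u R)) {z : ℂ} (hz : z ∈ ball u R) : dslope F u z ≠ 0 := by
  have hR : 0 < R := pos_of_mem_ball hz
  by_cases h : z = u
  · rw [h, dslope_same]
    exact Pool.Agent.Helper24.Br.deriv_ne_of_inj isOpen_ball hd hi (mem_ball_self hR)
  · rw [dslope_of_ne _ h, slope_def_field]
    apply div_ne_zero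
    · rw [sub_ne_zero]
      intro h2
      exact h (hi hz (mem_ball_self hR) h2)
    · exact sub_ne_zero.2 h

theorem dslope_diff {F : ℂ → ℂ} {u : ℂ} {R : ℝ} (hR : 0 < R) (hd : DifferentiableOn ℂ F (ball u R)) :
    DifferentiableOn ℂ (dslope F u) (ball u R) :=
  (Complex.differentiableOn_dslope (ball_mem_nhds u hR)).2 hd

/-- the logarithmic derivative of the difference quotient is at most `18 / R` on the disc of radius
`3 R / 4` -/
theorem quot_log {F : ℂ → ℂ} {u : ℂ} {R : ℝ} (hR : 0 < R) (hd : DifferentiableOn ℂ F (ball u R))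
    (hi : InjOn F (ball u R)) {z : ℂ} (hz : ‖z - u‖ ≤ 3 / 4 * R) :
    ‖deriv (dslope F u) z / dslope F u z‖ ≤ 18 / R := by
  have hsub : closedBall u (3 / 4 * R) ⊆ ball u R := closedBall_subset_ball (by (clear * - hR; linarith only [hR]))
  have hq := dslope_diff hR hd
  have hq' := hq.deriv isOpen_ball
  have hquot : DifferentiableOn ℂ (fun z => deriv (dslope F u) z / dslope F u z) (ball u R) :=
    hq'.div hq (fun z hz => dslope_ne hd hi hz)
  have hfr : ∀ z ∈ frontier (ball u (3 / 4 * R)),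
      ‖deriv (dslope F u) z / dslope F u z‖ ≤ 18 / R := by
    intro z hz
    rw [frontier_ball u (by (clear * - hR; positivity) : 3 / 4 * R ≠ 0), mem_sphere, dist_eq_norm] at hz
    have hzu : z ≠ u := by
      intro h
      rw [h, sub_self, norm_zero] at hz
      (clear * - hR hz; linarith only [hR, hz])
    have hzR : z ∈ ball u R := by
      rw [mem_ball, dist_eq_norm, hz]
      (clear * - hR; linarith only [hR])
    have hd1 : HasDerivAt F (deriv F z) z :=
      (hd.differentiableAt (isOpen_ball.mem_nhds hzR)).hasDerivAt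
    have hzu' : z - u ≠ 0 := sub_ne_zero.2 hzu
    have hFne : F z - F u ≠ 0 := by
      rw [sub_ne_zero]
      intro h
      exact hzu (hi hzR (mem_ball_self hR) h)
    have hd2 : HasDerivAt (dslope F u)
        ((deriv F z * (z - u) - (F z - F u) * 1) / (z - u) ^ 2) z := by
      have h1 : HasDerivAt (fun w => (F w - F u) / (w - u))
          ((deriv F z * (z - u) - (F z - F u) * 1) / (z - u) ^ 2) z :=
        (hd1.sub_const (F u)).div ((hasDerivAt_id z).sub_const u) hzu'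
      refine h1.congr_of_eventuallyEq ?_
      filter_upwards [isOpen_ne.mem_nhds hzu] with w hw
      rw [dslope_of_ne _ hw, slope_def_field]
    have e1 : deriv (dslope F u) z / dslope F u z =
        deriv F z / (F z - F u) - 1 / (z - u) := by
      rw [hd2.deriv, dslope_of_ne _ hzu, slope_def_field]
      field_simp
    rw [e1]
    have hsub2 : ball z (R / 4) ⊆ ball u R := by
      intro w hw
      rw [mem_ball, dist_eq_norm] at hw ⊢
      calc ‖w - u‖ = ‖(w - z) + (z - u)‖ := by ring_nf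
        _ ≤ ‖w - z‖ + ‖z - u‖ := norm_add_le _ _
        _ < R := by rw [hz]; (clear * - hw; linarith only [hw])
    have h2 := koebe_at (F := F) (z := z) (w0 := F u) (r := R / 4) (by positivity)
      (hd.mono hsub2) (hi.mono hsub2) (by
        intro v hv h
        have h3 := hi (hsub2 hv) (mem_ball_self hR) h
        rw [h3, mem_ball, dist_eq_norm, norm_sub_rev, hz] at hv
        linarith only [hR, hv])
    have h3 : ‖deriv F z / (F z - F u)‖ ≤ 16 / R := by
      rw [norm_div, div_le_div_iff₀ (norm_pos_iff.2 hFne) hR]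
      linarith only [h2]
    have h4 : ‖1 / (z - u)‖ ≤ 2 / R := by
      rw [norm_div, hz, norm_one, div_le_div_iff₀ (by positivity) hR]
      linarith only [hR]
    calc ‖deriv F z / (F z - F u) - 1 / (z - u)‖
        ≤ ‖deriv F z / (F z - F u)‖ + ‖1 / (z - u)‖ := norm_sub_le _ _
      _ ≤ 16 / R + 2 / R := add_le_add h3 h4
      _ = 18 / R := by ring
  apply Complex.norm_le_of_forall_mem_frontier_norm_le (U := ball u (3 / 4 * R))
    (f := fun z => deriv (dslope F u) z / dslope F u z) isBounded_ball _ hfr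
  · rw [closure_ball u (by positivity : 3 / 4 * R ≠ 0), mem_closedBall, dist_eq_norm]
    exact hz
  · apply DifferentiableOn.diffContOnCl
    rw [closure_ball u (by positivity : 3 / 4 * R ≠ 0)]
    exact hquot.mono hsub

/-- `z F' / (F z - F u)` is near `1` -/
theorem quot_near' {F : ℂ → ℂ} {u : ℂ} {R : ℝ} (hR : 0 < R) (hd : DifferentiableOn ℂ F (ball u R))
    (hi : InjOn F (ball u R)) {z : ℂ} (hz : ‖z - u‖ ≤ 3 / 4 * R) (hzu : z ≠ u) :
    ‖deriv F z * (z - u) / (F z - F u) - 1‖ ≤ ‖z - u‖ * (18 / R) := by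
  have h := quot_log hR hd hi (z := z) hz
  have hzR : z ∈ ball u R := by
    rw [mem_ball, dist_eq_norm]
    (clear * - hR hz; linarith only [hR, hz])
  have hd1 : HasDerivAt F (deriv F z) z :=
    (hd.differentiableAt (isOpen_ball.mem_nhds hzR)).hasDerivAt
  have hzu' : z - u ≠ 0 := sub_ne_zero.2 hzu
  have hFne : F z - F u ≠ 0 := by
    rw [sub_ne_zero]
    intro h
    exact hzu (hi hzR (mem_ball_self hR) h)
  have hd2 : HasDerivAt (dslope F u)
      ((deriv F z * (z - u) - (F z - F u) * 1) / (z - u) ^ 2) z := by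
    have h1 : HasDerivAt (fun w => (F w - F u) / (w - u))
        ((deriv F z * (z - u) - (F z - F u) * 1) / (z - u) ^ 2) z :=
      (hd1.sub_const (F u)).div ((hasDerivAt_id z).sub_const u) hzu'
    refine h1.congr_of_eventuallyEq ?_
    filter_upwards [isOpen_ne.mem_nhds hzu] with w hw
    rw [dslope_of_ne _ hw, slope_def_field]
  have e1 : deriv F z * (z - u) / (F z - F u) - 1 =
      (z - u) * (deriv (dslope F u) z / dslope F u z) := by
    rw [hd2.deriv, dslope_of_ne _ hzu, slope_def_field]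
    (clear * - hFne hzu'; field_simp)
  rw [e1, norm_mul]
  exact mul_le_mul_of_nonneg_left h (norm_nonneg _)

theorem quot_near {F : ℂ → ℂ} {u : ℂ} {R : ℝ} (hR : 0 < R) (hd : DifferentiableOn ℂ F (ball u R))
    (hi : InjOn F (ball u R)) {z : ℂ} (hz : ‖z - u‖ ≤ R / 36) (hzu : z ≠ u) :
    ‖deriv F z * (z - u) / (F z - F u) - 1‖ ≤ 1 / 2 := by
  refine (quot_near' hR hd hi (by linarith) hzu).trans ?_
  calc ‖z - u‖ * (18 / R) ≤ R / 36 * (18 / R) :=
        mul_le_mul_of_nonneg_right hz (by (clear * - hR; positivity))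
    _ = 1 / 2 := by
        field_simp
        norm_num

/-- comparison of two derivatives and of the increment of a univalent function -/
theorem quot_two {F : ℂ → ℂ} {p p' : ℂ} {R : ℝ} (hR : 0 < R) (hd : DifferentiableOn ℂ F (ball p R))
    (hi : InjOn F (ball p R)) (h : ‖p' - p‖ ≤ R / 1000) :
    ‖deriv F p'‖ ≤ 2 * ‖deriv F p‖ ∧ ‖deriv F p‖ ≤ 2 * ‖deriv F p'‖ ∧
      ‖F p' - F p‖ ≤ 2 * ‖deriv F p‖ * ‖p' - p‖ := by
  by_cases hpp : p' = p
  · rw [hpp, sub_self, sub_self, norm_zero, mul_zero]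
    have := norm_nonneg (deriv F p)
    exact ⟨by (clear * - this; linarith only [this]), by (clear * - this; linarith only [this]), le_rfl⟩
  have hsub : ball p' (R / 2) ⊆ ball p R := by
    intro w hw
    rw [mem_ball, dist_eq_norm] at hw ⊢
    calc ‖w - p‖ = ‖(w - p') + (p' - p)‖ := by ring_nf
      _ ≤ ‖w - p'‖ + ‖p' - p‖ := norm_add_le _ _
      _ < R := by (clear * - hR h hw; linarith only [hR, h, hw])
  have hx : 0 < ‖p' - p‖ := norm_pos_iff.2 (sub_ne_zero.2 hpp)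
  have h1 := quot_near' hR hd hi (z := p') (by linarith only [hR, h]) hpp
  have h2 := quot_near' (half_pos hR) (hd.mono hsub) (hi.mono hsub) (z := p)
    (by rw [norm_sub_rev]; linarith only [hR, h]) (Ne.symm hpp)
  have hne : F p' - F p ≠ 0 := by
    rw [sub_ne_zero]
    intro he
    exact hpp (hi (by rw [mem_ball, dist_eq_norm]; (clear * - h hx; linarith)) (mem_ball_self hR) he)
  have hFx : 0 < ‖F p' - F p‖ := norm_pos_iff.2 hne
  have b1 : ‖deriv F p' * (p' - p) / (F p' - F p) - 1‖ ≤ 1 / 20 := by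
    refine h1.trans ?_
    calc ‖p' - p‖ * (18 / R) ≤ R / 1000 * (18 / R) :=
          mul_le_mul_of_nonneg_right h (by (clear * - hR; positivity))
      _ ≤ 1 / 20 := by
          rw [show R / 1000 * (18 / R) = 18 / 1000 by (clear * - hR; field_simp)]
          norm_num
  have b2 : ‖deriv F p * (p' - p) / (F p' - F p) - 1‖ ≤ 1 / 20 := by
    have e : deriv F p * (p' - p) / (F p' - F p) = deriv F p * (p - p') / (F p - F p') := by
      rw [← neg_sub p p', ← neg_sub (F p) (F p'), mul_neg, neg_div_neg_eq]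
    rw [e]
    refine h2.trans ?_
    rw [norm_sub_rev]
    calc ‖p' - p‖ * (18 / (R / 2)) ≤ R / 1000 * (18 / (R / 2)) :=
          mul_le_mul_of_nonneg_right h (by positivity)
      _ ≤ 1 / 20 := by
          rw [show R / 1000 * (18 / (R / 2)) = 36 / 1000 by field_simp; norm_num]
          norm_num
  have key : ∀ w : ℂ, ‖w - 1‖ ≤ 1 / 20 → 19 / 20 ≤ ‖w‖ ∧ ‖w‖ ≤ 21 / 20 := by
    intro w hw
    constructor
    · have h3 := norm_sub_norm_le (1:ℂ) w
      rw [norm_one, norm_sub_rev] at h3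
      (clear * - hw h3; linarith only [hw, h3])
    · have h3 := norm_sub_norm_le w (1:ℂ)
      rw [norm_one] at h3
      linarith only [hw, h3]
  have c1 := key _ b1
  have c2 := key _ b2
  rw [norm_div, norm_mul, div_le_iff₀ hFx, le_div_iff₀ hFx] at c1 c2
  have n1 := norm_nonneg (deriv F p')
  have n2 := norm_nonneg (deriv F p)
  refine ⟨?_, ?_, ?_⟩
  · by_contra hc
    push Not at hc
    have h5 : 2 * ‖deriv F p‖ * ‖p' - p‖ < ‖deriv F p'‖ * ‖p' - p‖ := mul_lt_mul_of_pos_right hc hx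
    (clear * - c1 c2 h5; linarith only [c1, c2, h5])
  · by_contra hc
    push Not at hc
    have h5 : 2 * ‖deriv F p'‖ * ‖p' - p‖ < ‖deriv F p‖ * ‖p' - p‖ := mul_lt_mul_of_pos_right hc hx
    (clear * - c1 c2 h5; linarith only [c1, c2, h5])
  · (clear * - c2; linarith only [c2])

end Pool.Agent.Helper66.G4
end

/- Helper24.K6w.H26.G4.Sep -/
section
/-!
# G4-SEP: Koebe for the curve

`B v = Lb Λ v u`, `B' v = F' v / (F v - F u)`, univalent on discs inside `re u < re v` (see G4-NEAR);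
`B v ≠ B v'` for `v ≠ v'`, `|im (v - v')| < 2 π`. `sep_t`: `Pool.Agent.Helper84.EK.koebe_r` for
`z ↦ B (v_t + z) - B v_s` on the disc of radius `|v_t - v_s| = e^(-t) - e^(-s) ≥ e^(-t) / 2000`.
`sep_s`: the same around `v_s`, radius `e^(-s) / 1000 ≤ min (|v_t - v_s|, e^(-s))`
(`e^(-t) - e^(-s) ≥ e^(-s) (e^(1/1000) - 1)`). `slice`: for `v = v_s + i x`, `0 ≤ x ≤ e^(-s) / 100000`:
`|B' v_s| ≤ 2 |B' v|` (`kb_two` for `B` on the disc of radius `e^(-s) / 2`), and
`|B v - B v_s| ≤ 2 |B' v_s| x ≤ |B v_s - B v_t|` by `sep_s`.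
-/

set_option autoImplicit false

namespace Pool.Agent.Helper26.G4

open MeasureTheory Set
open scoped Real
open Pool.Agent.Helper90.G2 (Bx Wn Fn ar ch Cen chi)

theorem sep_ra {F : ℂ → ℂ} {A : ℝ} (hF : Fn F A) {Λ : ℂ → ℂ → ℂ} (hΛ : Br F Λ) {u : ℂ}
    (hu : 0 < u.re) {s : ℝ} (hs : Real.exp (-s) ≤ 2) :
    ra F u s = Real.exp (-s) * ‖deriv (fun v => Lb Λ v u) (cv u s)‖ := by
  rw [(near_B hF hΛ hu hs (near_mem le_rfl)).deriv, ra, norm_div, mul_div_assoc]

theorem sep_exp {t s : ℝ} (hts : t ≤ s) (ht : Real.exp (-t) ≤ 2) : Real.exp (-s) ≤ 2 :=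
  (Real.exp_le_exp.2 (by linarith only [hts])).trans ht

theorem sep_ratio {t s : ℝ} (hs : t + 1 / 1000 ≤ s) :
    Real.exp (-s) * (1001 / 1000) ≤ Real.exp (-t) := by
  have h1 : Real.exp (-t) = Real.exp (-s) * Real.exp (s - t) := by
    rw [← Real.exp_add]
    ring_nf
  rw [h1]
  refine mul_le_mul_of_nonneg_left ?_ (Real.exp_pos _).le
  linarith [Real.add_one_le_exp (s - t)]

theorem sep_t {F : ℂ → ℂ} {A : ℝ} (hF : Fn F A) {Λ : ℂ → ℂ → ℂ} (hΛ : Br F Λ) {u : ℂ}
    (hu : 0 < u.re) {t s : ℝ} (ht : Real.exp (-t) ≤ 2) (hs : t + 1 / 1000 ≤ s) :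
    ra F u t ≤ 8000 * ‖aa Λ u t - aa Λ u s‖ := by
  have hts : t ≤ s := by (clear * - hs; linarith only [hs])
  have h1 := sep_ratio hs
  have het := Real.exp_pos (-t)
  have hes := Real.exp_pos (-s)
  have hr : 0 < Real.exp (-t) - Real.exp (-s) := by (clear * - h1 het; linarith only [h1, het])
  have hsub : Metric.ball (cv u t) (Real.exp (-t) - Real.exp (-s)) ⊆
      Metric.ball (cv u t) (Real.exp (-t)) := Metric.ball_subset_ball (by linarith only [hes])
  have hi := near_inj hF hΛ hu ht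
  have h2 := Pool.Agent.Helper66.G4.koebe_at (F := fun v => Lb Λ v u) (z := cv u t)
    (w0 := aa Λ u s) hr ((near_diff hF hΛ hu ht).mono hsub) (hi.mono hsub) (by
      intro v hv he
      have h3 : v = cv u s := hi (hsub hv) (near_mem hts) he
      rw [h3, Metric.mem_ball, dist_eq_norm, near_cv hts] at hv
      exact lt_irrefl _ hv)
  have h4 : Real.exp (-t) ≤ 2000 * (Real.exp (-t) - Real.exp (-s)) := by linarith only [h1, het]
  rw [sep_ra hF hΛ hu ht, mul_comm]
  have h5 := norm_nonneg (deriv (fun v => Lb Λ v u) (cv u t))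
  have h6 : ‖deriv (fun v => Lb Λ v u) (cv u t)‖ * Real.exp (-t) ≤
      ‖deriv (fun v => Lb Λ v u) (cv u t)‖ * (2000 * (Real.exp (-t) - Real.exp (-s))) :=
    mul_le_mul_of_nonneg_left h4 h5
  have h7 : ‖Lb Λ (cv u t) u - aa Λ u s‖ = ‖aa Λ u t - aa Λ u s‖ := rfl
  rw [h7] at h2
  (clear * - h2 h6; linarith only [h2, h6])

theorem sep_s {F : ℂ → ℂ} {A : ℝ} (hF : Fn F A) {Λ : ℂ → ℂ → ℂ} (hΛ : Br F Λ) {u : ℂ}
    (hu : 0 < u.re) {t s : ℝ} (ht : Real.exp (-t) ≤ 2) (hs : t + 1 / 1000 ≤ s) :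
    ra F u s ≤ 4000 * ‖aa Λ u t - aa Λ u s‖ := by
  have hts : t ≤ s := by (clear * - hs; linarith only [hs])
  have h1 := sep_ratio hs
  have het := Real.exp_pos (-t)
  have hes := Real.exp_pos (-s)
  have hr : 0 < Real.exp (-s) / 1000 := by positivity
  have hsub : Metric.ball (cv u s) (Real.exp (-s) / 1000) ⊆
      Metric.ball (cv u t) (Real.exp (-t)) := by
    refine Metric.ball_subset_ball' ?_
    rw [dist_eq_norm, near_cv hts]
    (clear * - hr; linarith only [hr])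
  have hi := near_inj hF hΛ hu ht
  have h2 := Pool.Agent.Helper66.G4.koebe_at (F := fun v => Lb Λ v u) (z := cv u s)
    (w0 := aa Λ u t) hr ((near_diff hF hΛ hu ht).mono hsub) (hi.mono hsub) (by
      intro v hv he
      have h3 : v = cv u t := hi (hsub hv) (near_mem le_rfl) he
      rw [h3, Metric.mem_ball, dist_eq_norm, norm_sub_rev, near_cv hts] at hv
      (clear * - h1 hv; linarith only [h1, hv]))
  rw [sep_ra hF hΛ hu (sep_exp hts ht), mul_comm]
  have h7 : ‖Lb Λ (cv u s) u - aa Λ u t‖ = ‖aa Λ u t - aa Λ u s‖ := by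
    rw [norm_sub_rev]
    rfl
  rw [h7] at h2
  (clear * - h2; linarith only [h2])

theorem slice {F : ℂ → ℂ} {A : ℝ} (hF : Fn F A) {Λ : ℂ → ℂ → ℂ} (hΛ : Br F Λ) {u : ℂ}
    (hu : 0 < u.re) {t s : ℝ} (ht : Real.exp (-t) ≤ 2) (hs : t + 1 / 1000 ≤ s) {v : ℂ}
    (h1 : v.re = (cv u s).re) (h2 : 0 ≤ v.im - u.im) (h3 : v.im - u.im ≤ Real.exp (-s) / 100000) :
    ra F u s ≤ 2 * (Real.exp (-s) * ‖deriv F v‖ / ‖F v - F u‖) ∧
      ‖Lb Λ v u - aa Λ u t‖ ≤ 2 * ‖aa Λ u s - aa Λ u t‖ := by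
  have hts : t ≤ s := by (clear * - hs; linarith)
  have hes := Real.exp_pos (-s)
  have hs2 := sep_exp hts ht
  have hvn : ‖v - cv u s‖ ≤ Real.exp (-s) / 100000 := by
    have e : v - cv u s = ((v.im - u.im : ℝ) : ℂ) * Complex.I := by
      apply Complex.ext
      · rw [Complex.sub_re, h1, sub_self, Complex.re_ofReal_mul, Complex.I_re, mul_zero]
      · rw [Complex.sub_im, Curve_im, Complex.im_ofReal_mul, Complex.I_im, mul_one]
    rw [e, norm_mul, Complex.norm_real, Complex.norm_I, mul_one, Real.norm_of_nonneg h2]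
    exact h3
  have hvb : v ∈ Metric.ball (cv u s) (Real.exp (-s)) := by
    rw [Metric.mem_ball, dist_eq_norm]
    (clear * - hes hvn; linarith only [hes, hvn])
  obtain ⟨-, q2, q3⟩ := Pool.Agent.Helper66.G4.quot_two (F := fun v => Lb Λ v u) (p := cv u s)
    (p' := v) hes (near_diff hF hΛ hu hs2) (near_inj hF hΛ hu hs2) (by linarith)
  have hra := sep_ra hF hΛ hu (Λ := Λ) hs2
  constructor
  · rw [hra]
    have h4 : ‖deriv F v‖ / ‖F v - F u‖ = ‖deriv (fun v => Lb Λ v u) v‖ := by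
      rw [(near_B hF hΛ hu hs2 hvb).deriv, norm_div]
    rw [mul_div_assoc, h4]
    have h5 := mul_le_mul_of_nonneg_left q2 hes.le
    linarith only [h5]
  · have h4 := sep_s hF hΛ hu ht hs
    rw [norm_sub_rev (aa Λ u t)] at h4
    have h5 : ‖Lb Λ v u - aa Λ u s‖ ≤ ‖aa Λ u s - aa Λ u t‖ := by
      have h6 : ‖Lb Λ v u - aa Λ u s‖ ≤
          2 * ‖deriv (fun v => Lb Λ v u) (cv u s)‖ * (Real.exp (-s) / 100000) :=
        q3.trans (mul_le_mul_of_nonneg_left hvn (by (clear * -; positivity)))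
      have h7 : 2 * ‖deriv (fun v => Lb Λ v u) (cv u s)‖ * (Real.exp (-s) / 100000) =
          ra F u s / 50000 := by
        rw [hra]
        ring
      have h8 := norm_nonneg (aa Λ u s - aa Λ u t)
      linarith only [h4, h6, h7, h8]
    have h9 : Lb Λ v u - aa Λ u t = (Lb Λ v u - aa Λ u s) + (aa Λ u s - aa Λ u t) := by ring
    rw [h9]
    refine (norm_add_le _ _).trans ?_
    (clear * - h5; linarith only [h5])

end Pool.Agent.Helper26.G4
end

/- Helper24.K6w.H26.G4.LenArea -/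
section
/-!
# G4-LENAREA: length and area

For `s ≥ t + 1/1000` and `v = cv u s + i x`, `0 ≤ x ≤ η e^(-s)`, `η = 1/100000`: by `slice`
`(ra s)² |a s - a t|^(-3/2) ≤ 4 · 2^(3/2) e^(-2s) (|F' v| / |F v - F u|)² |Lb Λ v u - a t|^(-3/2)`
(`Lb Λ v u ≠ a t`: the points differ). Integrate over `x` (length `η e^(-s)`), then over `s` with
`y = e^(-s)` (`dy = -e^(-s) ds`): the set `{u + y + i x}`, `0 < y < e^(-t)`, `0 < x < η y` and Fubini
(`Complex.measurableEquivRealProd`, `volume_preserving_equiv_real_prod`) give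
`∫ (ra s)² |a s - a t|^(-3/2) ds ≤ (12 / η) C`. Then `|a s - a t|^(-2) ≤ (8000 / ra t)^(1/2) |a s - a t|^(-3/2)`
(`sep_t`) and Cauchy-Schwarz on an interval of length `T`.
-/

set_option autoImplicit false

namespace Pool.Agent.Helper26.G4

open MeasureTheory Set
open scoped Real
open Pool.Agent.Helper90.G2 (Bx Wn Fn ar ch Cen chi)

/-- the integrand -/
noncomputable def lenG (F : ℂ → ℂ) (Λ : ℂ → ℂ → ℂ) (u : ℂ) (t : ℝ) (v : ℂ) : ℝ :=
  (‖deriv F v‖ / ‖F v - F u‖) ^ 2 * ‖Lb Λ v u - aa Λ u t‖ ^ (-(3 / 2) : ℝ)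

/-- the region -/
def lenS (u : ℂ) : Set ℂ :=
  {v : ℂ | u.re < v.re ∧ v.re < u.re + 3 ∧ u.im < v.im ∧ v.im < u.im + (v.re - u.re) / 100000}

theorem lenS_open (u : ℂ) : IsOpen (lenS u) := by
  unfold lenS
  refine (isOpen_lt continuous_const Complex.continuous_re).inter
    ((isOpen_lt Complex.continuous_re continuous_const).inter
    ((isOpen_lt continuous_const Complex.continuous_im).inter
    (isOpen_lt Complex.continuous_im ?_)))
  fun_prop

theorem lenS_sub (u : ℂ) : lenS u ⊆ {v : ℂ | u.re < v.re ∧ |v.im - u.im| < π} := by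
  rintro v ⟨h1, h2, h3, h4⟩
  refine ⟨h1, ?_⟩
  have := Real.pi_gt_three
  rw [abs_lt]
  constructor <;> linarith only [h3, this, h2, h4]

theorem len_cont_dF {F : ℂ → ℂ} {A : ℝ} (hF : Fn F A) :
    ContinuousOn (deriv F) {u : ℂ | 0 < u.re} :=
  (hF.diff.deriv (isOpen_lt continuous_const Complex.continuous_re)).continuousOn

theorem lenG_meas {F : ℂ → ℂ} {A : ℝ} (hF : Fn F A) {Λ : ℂ → ℂ → ℂ} (hΛ : Br F Λ) {u : ℂ}
    (hu : 0 < u.re) (t : ℝ) :
    AEMeasurable (fun v => ENNReal.ofReal (lenG F Λ u t v)) (volume.restrict (lenS u)) := by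
  have hm := (lenS_open u).measurableSet
  have hsub : lenS u ⊆ {v : ℂ | 0 < v.re} := fun v hv => lt_trans hu hv.1
  have h1 : AEMeasurable (deriv F) (volume.restrict (lenS u)) :=
    ((len_cont_dF hF).mono hsub).aemeasurable hm
  have h2 : AEMeasurable F (volume.restrict (lenS u)) :=
    (hF.diff.continuousOn.mono hsub).aemeasurable hm
  have h3 : ContinuousOn (fun v => Lb Λ v u) (lenS u) := by
    intro v hv
    have h4 := lenS_sub u hv
    refine (Lb_deriv_v hF hΛ hu hv.1 ?_).continuousAt.continuousWithinAt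
    have := h4.2
    linarith [Real.pi_pos]
  have h5 : AEMeasurable (fun v => Lb Λ v u) (volume.restrict (lenS u)) := h3.aemeasurable hm
  refine AEMeasurable.ennreal_ofReal ?_
  unfold lenG
  exact ((h1.norm.div (h2.sub_const _).norm).pow_const 2).mul
    ((h5.sub_const _).norm.pow_const _)

theorem len_cv_re (u : ℂ) (s : ℝ) : (cv u s).re = u.re + Real.exp (-s) := by
  simp only [cv, Complex.add_re, Complex.ofReal_re]

theorem len_ne {F : ℂ → ℂ} {A : ℝ} (hF : Fn F A) {Λ : ℂ → ℂ → ℂ} (hΛ : Br F Λ) {u : ℂ}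
    (hu : 0 < u.re) (t : ℝ) {v : ℂ} (hv : v ∈ lenS u) : 0 < ‖Lb Λ v u - aa Λ u t‖ := by
  rw [norm_pos_iff]
  intro h
  have h1 := lenS_sub u hv
  have h2 : |v.im - u.im| < 2 * π := by
    have := h1.2
    linarith only [Real.pi_pos, this]
  have h3 := Lb_exp hΛ hu hv.1 h2
  have h4 := aa_exp hΛ hu t
  rw [sub_eq_zero] at h
  rw [h, h4] at h3
  have h5 : F v = F (cv u t) := by linear_combination -h3
  have him : (cv u t).im = u.im := by
    simp only [cv, Complex.add_im, Complex.ofReal_im, add_zero]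
  refine Fn.ne hF (lt_trans hu hv.1) ?_ ?_ ?_ h5
  · rw [len_cv_re]
    positivity
  · rw [him]
    exact h2
  · intro h6
    have := hv.2.2.1
    rw [h6, him] at this
    exact lt_irrefl _ this

/-- the pointwise inequality -/
theorem len_pt {F : ℂ → ℂ} {A : ℝ} (hF : Fn F A) {Λ : ℂ → ℂ → ℂ} (hΛ : Br F Λ) {u : ℂ}
    (hu : 0 < u.re) {t s : ℝ} (ht : Real.exp (-t) ≤ 2) (hs : t + 1 / 1000 ≤ s) {v : ℂ}
    (h1 : v.re = u.re + Real.exp (-s)) (h2 : u.im < v.im)
    (h3 : v.im < u.im + Real.exp (-s) / 100000) :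
    v ∈ lenS u ∧ (ra F u s) ^ 2 * ‖aa Λ u s - aa Λ u t‖ ^ (-(3 / 2) : ℝ) ≤
      12 * (Real.exp (-s)) ^ 2 * lenG F Λ u t v := by
  have hE : 0 < Real.exp (-s) := Real.exp_pos _
  have hE2 : Real.exp (-s) ≤ 2 := le_trans (Real.exp_le_exp.2 (by linarith only [hs])) ht
  have hv : v ∈ lenS u := by
    refine ⟨by (clear * - h1 h2 h3; linarith only [h1, h2, h3]), by (clear * - h1 hE2; linarith only [h1, hE2]), h2, ?_⟩
    rw [h1]
    (clear * - h3; linarith only [h3])
  refine ⟨hv, ?_⟩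
  obtain ⟨h4, h5⟩ := slice hF hΛ hu ht hs (v := v) (by rw [h1, len_cv_re]) (by (clear * - h2; linarith only [h2])) (by (clear * - h3; linarith only [h3]))
  have h6 := len_ne hF hΛ hu t hv
  have h7 := (ra_eq hF hΛ hu s).2
  have h8 : ‖aa Λ u s - aa Λ u t‖ ^ (-(3 / 2) : ℝ) ≤
      3 * ‖Lb Λ v u - aa Λ u t‖ ^ (-(3 / 2) : ℝ) := by
    have h9 : ‖Lb Λ v u - aa Λ u t‖ / 2 ≤ ‖aa Λ u s - aa Λ u t‖ := by (clear * - h5; linarith)
    have h10 := Real.rpow_le_rpow_of_nonpos (by positivity) h9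
      (by norm_num : (-(3 / 2) : ℝ) ≤ 0)
    refine h10.trans ?_
    rw [div_eq_mul_inv, Real.mul_rpow (norm_nonneg _) (by norm_num), mul_comm]
    refine mul_le_mul_of_nonneg_right ?_ (by (clear * - h6; positivity))
    rw [Real.inv_rpow (by norm_num), Real.rpow_neg (by norm_num), inv_inv]
    have h11 : (2 : ℝ) ^ (3 / 2 : ℝ) ≤ 3 := by
      have : (2 : ℝ) ^ (3 / 2 : ℝ) = √8 := by
        rw [Real.sqrt_eq_rpow, show (8 : ℝ) = 2 ^ (3 : ℝ) by norm_num, ← Real.rpow_mul (by norm_num)]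
        norm_num
      rw [this, Real.sqrt_le_left (by norm_num)]
      norm_num
    exact h11
  have h12 : (ra F u s) ^ 2 ≤ (2 * (Real.exp (-s) * ‖deriv F v‖ / ‖F v - F u‖)) ^ 2 :=
    pow_le_pow_left₀ h7.le h4 2
  calc (ra F u s) ^ 2 * ‖aa Λ u s - aa Λ u t‖ ^ (-(3 / 2) : ℝ)
      ≤ (2 * (Real.exp (-s) * ‖deriv F v‖ / ‖F v - F u‖)) ^ 2 *
        (3 * ‖Lb Λ v u - aa Λ u t‖ ^ (-(3 / 2) : ℝ)) := by
        refine mul_le_mul h12 h8 (by (clear * -; positivity)) (by (clear * -; positivity))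
    _ = _ := by
        unfold lenG
        ring

theorem len_cont {F : ℂ → ℂ} {A : ℝ} (hF : Fn F A) {Λ : ℂ → ℂ → ℂ} (hΛ : Br F Λ) {u : ℂ}
    (hu : 0 < u.re) (t T : ℝ) (p : ℝ) :
    ContinuousOn (fun s => ‖aa Λ u s - aa Λ u t‖ ^ p) (Icc (t + 1 / 1000) (t + T)) := by
  have h1 := (aa_cont hF hΛ hu).1
  refine ContinuousOn.rpow_const (by fun_prop) ?_
  intro s hs
  left
  rw [norm_ne_zero_iff, sub_ne_zero]
  intro h
  have h2 : s ≠ t := by
    have := hs.1
    intro h3
    (clear * - this h3; linarith only [this, h3])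
  exact aa_inj hF hΛ hu h2 (by rw [h])

theorem len_cont_ra {F : ℂ → ℂ} {A : ℝ} (hF : Fn F A) {Λ : ℂ → ℂ → ℂ} (hΛ : Br F Λ) {u : ℂ}
    (hu : 0 < u.re) : Continuous (ra F u) := by
  have h1 := (aa_cont hF hΛ hu).2
  have h2 : ra F u = fun s => ‖deriv (aa Λ u) s‖ := by
    ext s
    exact (ra_eq hF hΛ hu s).1.symm
  rw [h2]
  exact h1.norm

theorem len_fubini {u : ℂ} {G : ℂ → ENNReal}
    (hG : AEMeasurable G (volume.restrict (lenS u))) :
    ∫⁻ y : ℝ, ∫⁻ x : ℝ, (lenS u).indicator G ⟨y, x⟩ = ∫⁻ v in lenS u, G v := by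
  have hm := (lenS_open u).measurableSet
  rw [← lintegral_indicator hm]
  have hG' : AEMeasurable ((lenS u).indicator G) volume := (aemeasurable_indicator_iff hm).2 hG
  have h1 := (Complex.volume_preserving_equiv_real_prod.symm).lintegral_comp_emb
    Complex.measurableEquivRealProd.symm.measurableEmbedding ((lenS u).indicator G)
  rw [← h1]
  have h2 : AEMeasurable (fun p : ℝ × ℝ => (lenS u).indicator G
      (Complex.measurableEquivRealProd.symm p)) (volume.prod volume) :=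
    hG'.comp_quasiMeasurePreserving
      (Complex.volume_preserving_equiv_real_prod.symm).quasiMeasurePreserving
  rw [Measure.volume_eq_prod, lintegral_prod _ h2]
  rfl

theorem len_change {I : Set ℝ} (hI : MeasurableSet I) (u : ℝ) (Φ : ℝ → ENNReal) :
    ∫⁻ s in I, ENNReal.ofReal (Real.exp (-s)) * Φ (u + Real.exp (-s)) ≤ ∫⁻ y, Φ y := by
  have h1 : ∀ s ∈ I, HasDerivWithinAt (fun s => u + Real.exp (-s)) (-Real.exp (-s)) I s := by
    intro s _
    have := ((hasDerivAt_neg s).exp.const_add u)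
    simpa using this.hasDerivWithinAt
  have h2 : InjOn (fun s => u + Real.exp (-s)) I := by
    intro a _ b _ hab
    have h3 : Real.exp (-a) = Real.exp (-b) := by
      have : u + Real.exp (-a) = u + Real.exp (-b) := hab
      linarith only [this]
    have := Real.exp_injective h3
    linarith only [this]
  have h4 := lintegral_image_eq_lintegral_abs_deriv_mul hI h1 h2 Φ
  have h5 : ∫⁻ s in I, ENNReal.ofReal (Real.exp (-s)) * Φ (u + Real.exp (-s)) =
      ∫⁻ y in (fun s => u + Real.exp (-s)) '' I, Φ y := by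
    rw [h4]
    refine lintegral_congr fun s => ?_
    rw [abs_neg, abs_of_pos (Real.exp_pos _)]
  rw [h5]
  exact setLIntegral_le_lintegral _ _

theorem len_sq : ∃ C : ℝ, 0 < C ∧ ∀ (F : ℂ → ℂ) (A : ℝ) (Λ : ℂ → ℂ → ℂ), Fn F A → Br F Λ →
    ∀ u : ℂ, 0 < u.re → ∀ t : ℝ, Real.exp (-t) ≤ 2 → ∀ T : ℝ, 1 ≤ T →
    ∫ s in (t + 1 / 1000)..(t + T), (ra F u s) ^ 2 * ‖aa Λ u s - aa Λ u t‖ ^ (-(3 / 2) : ℝ) ≤ C := by
  obtain ⟨C, hC, hz⟩ := z_int
  refine ⟨1200000 * C, by positivity, ?_⟩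
  intro F A Λ hF hΛ u hu t ht T hT
  have hle : t + 1 / 1000 ≤ t + T := by (clear * - hT; linarith only [hT])
  set h : ℝ → ℝ := fun s => (ra F u s) ^ 2 * ‖aa Λ u s - aa Λ u t‖ ^ (-(3 / 2) : ℝ) with hh
  have hnn : ∀ s, 0 ≤ h s := fun s => by
    rw [hh]
    (clear * -; positivity)
  have hcont : ContinuousOn h (Icc (t + 1 / 1000) (t + T)) :=
    ((len_cont_ra hF hΛ hu).pow 2).continuousOn.mul (len_cont hF hΛ hu t T _)
  set G : ℂ → ENNReal := fun v => ENNReal.ofReal (lenG F Λ u t v) with hG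
  have hfub := len_fubini (lenG_meas hF hΛ hu t)
  have hzS := hz F A Λ hF hΛ u hu t (lenS u) (lenS_open u).measurableSet (lenS_sub u)
  have hΦ : ∀ s ∈ Ioc (t + 1 / 1000) (t + T), ENNReal.ofReal (h s) ≤
      ENNReal.ofReal 1200000 * (ENNReal.ofReal (Real.exp (-s)) *
        ∫⁻ x : ℝ, (lenS u).indicator G ⟨u.re + Real.exp (-s), x⟩) := by
    intro s hs
    have hE : 0 < Real.exp (-s) := Real.exp_pos _
    have h1 : ENNReal.ofReal (h s / (12 * Real.exp (-s) ^ 2)) *
        ENNReal.ofReal (Real.exp (-s) / 100000) ≤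
        ∫⁻ x : ℝ, (lenS u).indicator G ⟨u.re + Real.exp (-s), x⟩ := by
      have h2 : ∫⁻ x in Ioo u.im (u.im + Real.exp (-s) / 100000),
          ENNReal.ofReal (h s / (12 * Real.exp (-s) ^ 2)) ≤
          ∫⁻ x in Ioo u.im (u.im + Real.exp (-s) / 100000),
            (lenS u).indicator G ⟨u.re + Real.exp (-s), x⟩ := by
        refine setLIntegral_mono' measurableSet_Ioo ?_
        intro x hx
        obtain ⟨h3, h4⟩ := len_pt hF hΛ hu ht hs.1.le (v := ⟨u.re + Real.exp (-s), x⟩) rfl hx.1 hx.2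
        rw [indicator_of_mem h3]
        refine ENNReal.ofReal_le_ofReal ?_
        rw [div_le_iff₀ (by positivity)]
        calc h s ≤ 12 * (Real.exp (-s)) ^ 2 * lenG F Λ u t ⟨u.re + Real.exp (-s), x⟩ := h4
          _ = _ := by ring
      rw [setLIntegral_const, Real.volume_Ioo, add_sub_cancel_left] at h2
      exact h2.trans (setLIntegral_le_lintegral _ _)
    calc ENNReal.ofReal (h s) = ENNReal.ofReal 1200000 * (ENNReal.ofReal (Real.exp (-s)) *
        (ENNReal.ofReal (h s / (12 * Real.exp (-s) ^ 2)) *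
        ENNReal.ofReal (Real.exp (-s) / 100000))) := by
          rw [← ENNReal.ofReal_mul (div_nonneg (hnn s) (by positivity)),
            ← ENNReal.ofReal_mul hE.le, ← ENNReal.ofReal_mul (by norm_num)]
          congr 1
          field_simp
          ring
      _ ≤ _ := by (clear * - h1; gcongr)
  have hlin : ∫⁻ s in Ioc (t + 1 / 1000) (t + T), ENNReal.ofReal (h s) ≤
      ENNReal.ofReal (1200000 * C) := by
    calc ∫⁻ s in Ioc (t + 1 / 1000) (t + T), ENNReal.ofReal (h s)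
        ≤ ∫⁻ s in Ioc (t + 1 / 1000) (t + T), ENNReal.ofReal 1200000 *
          (ENNReal.ofReal (Real.exp (-s)) *
            ∫⁻ x : ℝ, (lenS u).indicator G ⟨u.re + Real.exp (-s), x⟩) :=
          setLIntegral_mono' measurableSet_Ioc hΦ
      _ = ENNReal.ofReal 1200000 * ∫⁻ s in Ioc (t + 1 / 1000) (t + T),
          (ENNReal.ofReal (Real.exp (-s)) *
            ∫⁻ x : ℝ, (lenS u).indicator G ⟨u.re + Real.exp (-s), x⟩) :=
          lintegral_const_mul' _ _ ENNReal.ofReal_ne_top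
      _ ≤ ENNReal.ofReal 1200000 * ∫⁻ y : ℝ, ∫⁻ x : ℝ, (lenS u).indicator G ⟨y, x⟩ :=
          mul_le_mul_right (len_change measurableSet_Ioc u.re
            (fun y => ∫⁻ x : ℝ, (lenS u).indicator G ⟨y, x⟩)) _
      _ ≤ ENNReal.ofReal 1200000 * ENNReal.ofReal C := by
          rw [hfub]
          gcongr
          exact hzS
      _ = _ := (ENNReal.ofReal_mul (by norm_num)).symm
  rw [intervalIntegral.integral_of_le hle]
  rw [integral_eq_lintegral_of_nonneg_ae (Filter.Eventually.of_forall hnn)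
    ((hcont.mono Ioc_subset_Icc_self).aestronglyMeasurable measurableSet_Ioc)]
  exact ENNReal.toReal_le_of_le_ofReal (by positivity) hlin

theorem len_cs {f : ℝ → ℝ} {a b T B : ℝ} (hab : a ≤ b) (hT : 0 < T) (hbT : b - a ≤ T) (hB : 0 < B)
    (hf : ContinuousOn f (Icc a b)) (h : ∫ s in a..b, f s ^ 2 ≤ B) :
    ∫ s in a..b, f s ≤ √(T * B) := by
  obtain ⟨c, hc⟩ : ∃ c : ℝ, c = √(T / B) := ⟨_, rfl⟩
  have hc0 : 0 < c := by rw [hc]; positivity
  have hcc : c ^ 2 = T / B := by rw [hc, Real.sq_sqrt (by positivity)]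
  have hf' : ContinuousOn f (uIcc a b) := by rwa [uIcc_of_le hab]
  have hi : IntervalIntegrable f volume a b := hf'.intervalIntegrable
  have hi2 : IntervalIntegrable (fun s => c / 2 * f s ^ 2 + 1 / (2 * c)) volume a b := by
    refine ContinuousOn.intervalIntegrable ?_
    fun_prop
  have h1 : ∫ s in a..b, f s ≤ ∫ s in a..b, (c / 2 * f s ^ 2 + 1 / (2 * c)) := by
    refine intervalIntegral.integral_mono_on hab hi hi2 ?_
    intro s _
    have h2 : 0 ≤ (c * f s - 1) ^ 2 / (2 * c) := by (clear * - hc0; positivity)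
    have h3 : (c * f s - 1) ^ 2 / (2 * c) = c / 2 * f s ^ 2 + 1 / (2 * c) - f s := by
      field_simp
      ring
    linarith
  have h4 : ∫ s in a..b, (c / 2 * f s ^ 2 + 1 / (2 * c)) =
      c / 2 * (∫ s in a..b, f s ^ 2) + (b - a) * (1 / (2 * c)) := by
    rw [intervalIntegral.integral_add, intervalIntegral.integral_const_mul,
      intervalIntegral.integral_const, smul_eq_mul]
    · refine ContinuousOn.intervalIntegrable ?_
      fun_prop
    · exact intervalIntegrable_const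
  have h5 : c / 2 * (∫ s in a..b, f s ^ 2) + (b - a) * (1 / (2 * c)) ≤
      c / 2 * B + T * (1 / (2 * c)) := by (clear * - h hc0 hbT; gcongr)
  have h6 : c / 2 * B + T * (1 / (2 * c)) = √(T * B) := by
    have h7 : T = c ^ 2 * B := by
      rw [hcc]
      field_simp
    have h8 : T * B = (c * B) ^ 2 := by
      rw [h7]
      ring
    rw [h8, Real.sqrt_sq (by positivity), h7]
    field_simp
    ring
  (clear * - h1 h4 h5 h6; linarith)

theorem len_area : ∃ C : ℝ, 0 < C ∧ ∀ (F : ℂ → ℂ) (A : ℝ) (Λ : ℂ → ℂ → ℂ), Fn F A → Br F Λ →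
    ∀ u : ℂ, 0 < u.re → ∀ t : ℝ, Real.exp (-t) ≤ 2 → ∀ T : ℝ, 1 ≤ T →
    ∫ s in (t + 1 / 1000)..(t + T), ra F u s / ‖aa Λ u s - aa Λ u t‖ ≤
      C * √(T * √((ra F u t)⁻¹)) := by
  obtain ⟨C, hC, hsq⟩ := len_sq
  refine ⟨√(√8000 * C), by positivity, ?_⟩
  intro F A Λ hF hΛ u hu t ht T hT
  have hle : t + 1 / 1000 ≤ t + T := by linarith only [hT]
  have hr := (ra_eq hF hΛ hu t).2
  have hB : 0 < √8000 * C * √((ra F u t)⁻¹) := by (clear * - hC hr; positivity)
  have hne : ∀ s ∈ Icc (t + 1 / 1000) (t + T), 0 < ‖aa Λ u s - aa Λ u t‖ := by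
    intro s hs
    have := sep_t hF hΛ hu ht hs.1
    rw [norm_sub_rev] at this
    by_contra hcon
    push Not at hcon
    (clear * - hr this hcon; linarith only [hr, this, hcon])
  have hcont : ContinuousOn (fun s => ra F u s / ‖aa Λ u s - aa Λ u t‖)
      (Icc (t + 1 / 1000) (t + T)) := by
    refine (len_cont_ra hF hΛ hu).continuousOn.div ?_ (fun s hs => (hne s hs).ne')
    exact (((aa_cont hF hΛ hu).1.sub continuous_const).norm).continuousOn
  have h1 : ∫ s in (t + 1 / 1000)..(t + T), (ra F u s / ‖aa Λ u s - aa Λ u t‖) ^ 2 ≤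
      √8000 * C * √((ra F u t)⁻¹) := by
    have h2 : ∫ s in (t + 1 / 1000)..(t + T), (ra F u s / ‖aa Λ u s - aa Λ u t‖) ^ 2 ≤
        ∫ s in (t + 1 / 1000)..(t + T), √8000 * √((ra F u t)⁻¹) *
          ((ra F u s) ^ 2 * ‖aa Λ u s - aa Λ u t‖ ^ (-(3 / 2) : ℝ)) := by
      refine intervalIntegral.integral_mono_on hle ?_ ?_ ?_
      · refine ContinuousOn.intervalIntegrable ?_
        rw [uIcc_of_le hle]
        exact hcont.pow 2
      · refine ContinuousOn.intervalIntegrable ?_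
        rw [uIcc_of_le hle]
        exact continuousOn_const.mul
          (((len_cont_ra hF hΛ hu).pow 2).continuousOn.mul (len_cont hF hΛ hu t T _))
      · intro s hs
        have h3 := hne s hs
        have h4 := sep_t hF hΛ hu ht hs.1
        rw [norm_sub_rev] at h4
        set n := ‖aa Λ u s - aa Λ u t‖ with hn
        have h5 : n ^ (-(3 / 2) : ℝ) = (n ^ 2)⁻¹ * √n := by
          rw [Real.sqrt_eq_rpow, ← Real.rpow_natCast, ← Real.rpow_neg h3.le,
            ← Real.rpow_add h3]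
          norm_num
        have h6 : 1 ≤ √8000 * √((ra F u t)⁻¹) * √n := by
          rw [← Real.sqrt_mul (by norm_num), ← Real.sqrt_mul (by (clear * - hr; positivity)), Real.one_le_sqrt,
            mul_assoc, mul_comm (ra F u t)⁻¹, ← mul_assoc, ← div_eq_mul_inv, le_div_iff₀ hr]
          (clear * - h4; linarith only [h4])
        rw [h5, div_pow]
        calc (ra F u s) ^ 2 / n ^ 2 = (ra F u s) ^ 2 * (n ^ 2)⁻¹ * 1 := by
              rw [mul_one, div_eq_mul_inv]
          _ ≤ (ra F u s) ^ 2 * (n ^ 2)⁻¹ * (√8000 * √((ra F u t)⁻¹) * √n) := by (clear * - h6 h3; gcongr)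
          _ = _ := by ring
    rw [intervalIntegral.integral_const_mul] at h2
    have h7 := hsq F A Λ hF hΛ u hu t ht T hT
    calc _ ≤ _ := h2
      _ ≤ √8000 * √((ra F u t)⁻¹) * C := by (clear * - h7 hr; gcongr)
      _ = _ := by ring
  have h8 := len_cs hle (by (clear * - hT; linarith) : (0 : ℝ) < T) (by (clear * -; linarith only [])) hB hcont h1
  refine h8.trans (le_of_eq ?_)
  rw [← Real.sqrt_mul (by positivity)]
  congr 1
  ring

end Pool.Agent.Helper26.G4
end

/- Helper24.K6w.H26.G4.Wind -/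
section
/-!
# G4-WIND: the winding of the chords in the beginning is small

For `s > t` the function `s ↦ L t s` has the derivative `-a' s / (a t - a s) - 1 / (s - t)` (a continuous
logarithm of `(a t - a s) / (s - t)`), so `|im (L t (t + T)) - im (L t (t + 1/1000))| ≤ ∫ ra s / |a s - a t|`;
`len_area`, `near_im`.
-/

set_option autoImplicit false

namespace Pool.Agent.Helper26.G4

open MeasureTheory Set
open scoped Real
open Pool.Agent.Helper90.G2 (Bx Wn Fn ar ch Cen chi)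

/-- a continuous logarithm of a differentiable function is differentiable -/
theorem wind_log {g f : ℝ → ℂ} {f' : ℂ} {s : ℝ} (hg : ContinuousAt g s)
    (he : ∀ᶠ x in nhds s, Complex.exp (g x) = f x) (hf : HasDerivAt f f' s) :
    HasDerivAt g (f' / f s) s := by
  have hs : Complex.exp (g s) = f s := he.self_of_nhds
  have hne : f s ≠ 0 := by
    rw [← hs]
    exact Complex.exp_ne_zero _
  have h1 : HasDerivAt (fun x => f x / f s) (f' / f s) s := hf.div_const _
  have h2 : HasDerivAt (fun x => Complex.log (f x / f s)) (f' / f s / (f s / f s)) s := by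
    refine h1.clog_real ?_
    rw [div_self hne]
    exact Complex.one_mem_slitPlane
  have h3 : HasDerivAt (fun x => g s + Complex.log (f x / f s)) (f' / f s / (f s / f s)) s :=
    h2.const_add _
  rw [div_self hne, div_one] at h3
  refine h3.congr_of_eventuallyEq ?_
  have h4 : ∀ᶠ x in nhds s, |(g x - g s).im| < π := by
    have h5 : ContinuousAt (fun x => |(g x - g s).im|) s := by
      have := (Complex.continuous_im.continuousAt.comp (hg.sub continuousAt_const) :
        ContinuousAt (fun x => (g x - g s).im) s)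
      exact this.abs
    have h6 : |(g s - g s).im| < π := by
      simp [Real.pi_pos]
    exact h5.eventually_lt continuousAt_const h6
  filter_upwards [he, h4] with x hx hx4
  have h7 := abs_lt.mp hx4
  rw [← hx, ← hs, ← Complex.exp_sub, Complex.log_exp h7.1 h7.2.le]
  ring

theorem wind_deriv {F : ℂ → ℂ} {A : ℝ} (hF : Fn F A) {Λ : ℂ → ℂ → ℂ} (hΛ : Br F Λ) {u : ℂ}
    (hu : 0 < u.re) {L : ℝ → ℝ → ℂ} (hL : Ch F Λ u L) {t s : ℝ} (hts : t < s) :
    HasDerivAt (fun x => (L t x).im) ((-(deriv (aa Λ u) s) / (aa Λ u t - aa Λ u s)).im) s := by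
  have hd : HasDerivAt (aa Λ u) (deriv (aa Λ u) s) s := by
    have := aa_deriv hF hΛ hu s
    rwa [this.deriv]
  have hst : ((s - t : ℝ) : ℂ) ≠ 0 := by
    rw [Ne, Complex.ofReal_eq_zero]
    exact (sub_pos.mpr hts).ne'
  have hne : aa Λ u t - aa Λ u s ≠ 0 := by
    rw [← hL.exp t s]
    exact mul_ne_zero (Complex.exp_ne_zero _) hst
  have h1 : HasDerivAt (fun x => aa Λ u t - aa Λ u x) (-(deriv (aa Λ u) s)) s := hd.const_sub _
  have h2 : HasDerivAt (fun x : ℝ => ((x - t : ℝ) : ℂ)) 1 s := by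
    have : HasDerivAt (fun x : ℝ => x - t) 1 s := (hasDerivAt_id s).sub_const t
    simpa using this.ofReal_comp
  have h3 : HasDerivAt (fun x : ℝ => (aa Λ u t - aa Λ u x) / ((x - t : ℝ) : ℂ)) _ s :=
    h1.div h2 hst
  have hev : ∀ᶠ x in nhds s, Complex.exp (L t x) =
      (aa Λ u t - aa Λ u x) / ((x - t : ℝ) : ℂ) := by
    have : ∀ᶠ x in nhds s, t < x := lt_mem_nhds hts
    filter_upwards [this] with x hx
    have hxt : ((x - t : ℝ) : ℂ) ≠ 0 := by
      rw [Ne, Complex.ofReal_eq_zero]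
      exact (sub_pos.mpr hx).ne'
    rw [eq_div_iff hxt, hL.exp t x]
  have hcL : ContinuousAt (fun x => L t x) s :=
    (hL.cont.comp (Continuous.prodMk_right t)).continuousAt
  have h4 := wind_log hcL hev h3
  have h6 : HasDerivAt (fun x => (L t x).im)
      (((-(deriv (aa Λ u) s) * ((s - t : ℝ) : ℂ) - (aa Λ u t - aa Λ u s) * 1) /
        ((s - t : ℝ) : ℂ) ^ 2 / ((aa Λ u t - aa Λ u s) / ((s - t : ℝ) : ℂ))).im) s :=
    (Complex.imCLM.hasFDerivAt.comp_hasDerivAt s h4 :)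
  refine h6.congr_deriv ?_
  have h7 : (-(deriv (aa Λ u) s) * ((s - t : ℝ) : ℂ) - (aa Λ u t - aa Λ u s) * 1) /
        ((s - t : ℝ) : ℂ) ^ 2 / ((aa Λ u t - aa Λ u s) / ((s - t : ℝ) : ℂ)) =
      -(deriv (aa Λ u) s) / (aa Λ u t - aa Λ u s) - (((s - t)⁻¹ : ℝ) : ℂ) := by
    rw [Complex.ofReal_inv]
    field_simp
  rw [h7, Complex.sub_im, Complex.ofReal_im, sub_zero]

theorem wind : ∃ C : ℝ, 0 < C ∧ ∀ (F : ℂ → ℂ) (A : ℝ) (Λ : ℂ → ℂ → ℂ), Fn F A → Br F Λ →
    ∀ u : ℂ, 0 < u.re → ∀ L : ℝ → ℝ → ℂ, Ch F Λ u L → ∀ t : ℝ, Real.exp (-t) ≤ 2 → ∀ T : ℝ, 1 ≤ T →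
    |(L t (t + T)).im - (L t t).im| ≤ 2 + C * √(T * √((ra F u t)⁻¹)) := by
  obtain ⟨C, hC, h⟩ := len_area
  refine ⟨C, hC, fun F A Λ hF hΛ u hu L hL t ht T hT => ?_⟩
  have h1 := near_im hF hΛ hu hL ht
  have h2 := h F A Λ hF hΛ u hu t ht T hT
  have hle : t + 1 / 1000 ≤ t + T := by (clear * - hT; linarith only [hT])
  have hne : ∀ s ∈ uIcc (t + 1 / 1000) (t + T), aa Λ u t - aa Λ u s ≠ 0 := by
    intro s hs
    rw [uIcc_of_le hle] at hs
    rw [← hL.exp t s]
    refine mul_ne_zero (Complex.exp_ne_zero _) ?_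
    rw [Ne, Complex.ofReal_eq_zero]
    have := hs.1
    intro h0
    (clear * - this h0; linarith only [this, h0])
  have hcont : ContinuousOn (fun s => (-(deriv (aa Λ u) s) / (aa Λ u t - aa Λ u s)).im)
      (uIcc (t + 1 / 1000) (t + T)) := by
    refine Complex.continuous_im.comp_continuousOn ?_
    exact ((aa_cont hF hΛ hu).2.neg.continuousOn).div
      ((continuous_const.sub (aa_cont hF hΛ hu).1).continuousOn) hne
  have h3 : ∫ s in (t + 1 / 1000)..(t + T), (-(deriv (aa Λ u) s) / (aa Λ u t - aa Λ u s)).im =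
      (L t (t + T)).im - (L t (t + 1 / 1000)).im := by
    refine intervalIntegral.integral_eq_sub_of_hasDerivAt (f := fun x => (L t x).im) ?_
      hcont.intervalIntegrable
    intro s hs
    rw [uIcc_of_le hle] at hs
    exact wind_deriv hF hΛ hu hL (by (clear * - hs; linarith only [hs.1]))
  have hcont2 : ContinuousOn (fun s => ra F u s / ‖aa Λ u s - aa Λ u t‖)
      (uIcc (t + 1 / 1000) (t + T)) := by
    have h4 : (fun s => ra F u s / ‖aa Λ u s - aa Λ u t‖) =
        fun s => ‖deriv (aa Λ u) s‖ / ‖aa Λ u s - aa Λ u t‖ := by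
      funext s
      rw [(ra_eq hF hΛ hu s).1]
    rw [h4]
    refine ((aa_cont hF hΛ hu).2.norm.continuousOn).div
      (((aa_cont hF hΛ hu).1.sub continuous_const).norm.continuousOn) fun s hs => ?_
    rw [norm_ne_zero_iff, ← neg_ne_zero, neg_sub]
    exact hne s hs
  have h5 : |∫ s in (t + 1 / 1000)..(t + T),
      (-(deriv (aa Λ u) s) / (aa Λ u t - aa Λ u s)).im| ≤
      ∫ s in (t + 1 / 1000)..(t + T), ra F u s / ‖aa Λ u s - aa Λ u t‖ := by
    rw [← Real.norm_eq_abs]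
    refine intervalIntegral.norm_integral_le_of_norm_le hle ?_ hcont2.intervalIntegrable
    refine Filter.Eventually.of_forall fun s _ => ?_
    rw [Real.norm_eq_abs]
    refine (Complex.abs_im_le_norm _).trans ?_
    rw [norm_div, norm_neg, (ra_eq hF hΛ hu s).1, norm_sub_rev]
  rw [h3] at h5
  have h6 : (L t (t + T)).im - (L t t).im = ((L t (t + T)).im - (L t (t + 1 / 1000)).im) +
      ((L t (t + 1 / 1000)).im - (L t t).im) := by ring
  rw [h6]
  refine (abs_add_le _ _).trans ?_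
  (clear * - h1 h2 h5; linarith)

end Pool.Agent.Helper26.G4
end

/- Helper24.K6w.H26.G4.BrEx -/
section
/-!
# G4-BREX: the branch exists

`q v u = ∫ x in 0..1, F' (u + x (v - u))` is continuous on the open convex set `EE` (both points in the
right half plane), symmetric, `q v u * (v - u) = F v - F u`, `q u u = F' u`, and it has no zero:
`F v = F u` with `|im v - im u| < 2 π` gives `v = u` (`hF.inj` with `c` the midpoint), `F' ≠ 0` is
`Pool.Agent.Helper90.G2.Fn.dne`. `Complex.exists_continuousOn_eqOn_exp_comp` (`EE` is open, convex, so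
simply connected; `X = ℂ × ℂ`) gives `Λ` with `exp Λ = q`. Symmetry: `(v, u) ↦ Λ u v` is another
continuous logarithm of the same function, equal on the diagonal, and `EE` is connected.
`br_lift`: with `G` a continuous logarithm of `F'` we may take `Λ u u = G u` (add a constant in
`2 π i ℤ`, the half plane is connected).
-/

set_option autoImplicit false

namespace Pool.Agent.Helper26.G4

open MeasureTheory Set
open scoped Real
open Pool.Agent.Helper90.G2 (Bx Wn Fn ar ch Cen chi)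

theorem mem_EE {v u : ℂ} (hv : 0 < v.re) (hu : 0 < u.re) (h : |v.im - u.im| < 2 * π) :
    (v, u) ∈ EE := ⟨hv, hu, h⟩

/-- convex combinations of positive numbers are positive -/
theorem brEx_pos {a b P Q : ℝ} (ha : 0 ≤ a) (hb : 0 ≤ b) (hab : a + b = 1) (hP : 0 < P)
    (hQ : 0 < Q) : 0 < a * P + b * Q := by
  rcases ha.eq_or_lt with h | h
  · subst h
    have hb1 : b = 1 := by (clear * - hab; linarith only [hab])
    subst hb1
    simpa using hQ
  · have h1 := mul_pos h hP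
    have h2 := mul_nonneg hb hQ.le
    linarith only [h1, h2]

theorem brEx_open : IsOpen EE := by
  have h1 : Continuous fun p : ℂ × ℂ => p.1.re := Complex.continuous_re.comp continuous_fst
  have h2 : Continuous fun p : ℂ × ℂ => p.2.re := Complex.continuous_re.comp continuous_snd
  have h3 : Continuous fun p : ℂ × ℂ => |p.1.im - p.2.im| :=
    ((Complex.continuous_im.comp continuous_fst).sub
      (Complex.continuous_im.comp continuous_snd)).abs
  exact (isOpen_lt continuous_const h1).inter ((isOpen_lt continuous_const h2).inter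
    (isOpen_lt h3 continuous_const))

theorem brEx_convex : Convex ℝ EE := by
  rintro ⟨p1, p2⟩ ⟨hp1, hp2, hp3⟩ ⟨q1, q2⟩ ⟨hq1, hq2, hq3⟩ a b ha hb hab
  simp only at hp1 hp2 hp3 hq1 hq2 hq3
  rw [abs_lt] at hp3 hq3
  refine ⟨?_, ?_, ?_⟩
  · have h := brEx_pos ha hb hab hp1 hq1
    simpa using h
  · have h := brEx_pos ha hb hab hp2 hq2
    simpa using h
  · have h1 := brEx_pos ha hb hab (P := 2 * π - (p1.im - p2.im)) (Q := 2 * π - (q1.im - q2.im))
      (by linarith only [hp3]) (by (clear * - hq3; linarith [hq3.2]))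
    have h2 := brEx_pos ha hb hab (P := 2 * π + (p1.im - p2.im)) (Q := 2 * π + (q1.im - q2.im))
      (by (clear * - hp3; linarith [hp3.1])) (by linarith [hq3.1])
    have e : (a • (p1, p2) + b • (q1, q2) : ℂ × ℂ).1.im - (a • (p1, p2) + b • (q1, q2) : ℂ × ℂ).2.im
        = a * (p1.im - p2.im) + b * (q1.im - q2.im) := by
      simp
      ring
    have e1 : a * (2 * π) + b * (2 * π) = 2 * π := by
      rw [← add_mul, hab, one_mul]
    rw [abs_lt, e]
    constructor
    · linarith only [h2, e1]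
    · (clear * - h1 e1; linarith)

theorem brEx_one : ((1 : ℂ), (1 : ℂ)) ∈ EE :=
  mem_EE (by simp) (by simp) (by simp [Real.pi_pos])

theorem brEx_sc : IsSimplyConnected EE := by
  have h : ContractibleSpace EE := brEx_convex.contractibleSpace ⟨_, brEx_one⟩
  exact (inferInstance : SimplyConnectedSpace EE)

/-- uniqueness of continuous logarithms -/
theorem brEx_uniq {X : Type*} [TopologicalSpace X] {s : Set X} (hs : IsPreconnected s)
    {g1 g2 : X → ℂ} (h1 : ContinuousOn g1 s) (h2 : ContinuousOn g2 s)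
    (he : ∀ x ∈ s, Complex.exp (g1 x) = Complex.exp (g2 x)) {a : X} (ha : a ∈ s)
    (hag : g1 a = g2 a) : ∀ x ∈ s, g1 x = g2 x :=
  Complex.isCoveringMap_exp.eqOn_of_comp_eqOn hs h1 h2
    (fun x hx => Subtype.ext (he x hx)) ha hag

open Classical in
/-- the divided difference -/
noncomputable def brEx_q (F : ℂ → ℂ) (p : ℂ × ℂ) : ℂ :=
  if p.1 = p.2 then deriv F p.1 else (F p.1 - F p.2) / (p.1 - p.2)

theorem brEx_q_mul (F : ℂ → ℂ) (p : ℂ × ℂ) : brEx_q F p * (p.1 - p.2) = F p.1 - F p.2 := by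
  unfold brEx_q
  split_ifs with h
  · rw [h, sub_self, sub_self, mul_zero]
  · rw [div_mul_cancel₀ _ (sub_ne_zero.2 h)]

theorem brEx_q_symm (F : ℂ → ℂ) (u v : ℂ) : brEx_q F (v, u) = brEx_q F (u, v) := by
  by_cases h : v = u
  · subst h; rfl
  · have h1 := brEx_q_mul F (v, u)
    have h2 := brEx_q_mul F (u, v)
    have h3 : v - u ≠ 0 := sub_ne_zero.2 h
    simp only at h1 h2
    have h4 : brEx_q F (v, u) * (v - u) = brEx_q F (u, v) * (v - u) := by
      rw [h1]
      linear_combination h2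
    exact mul_right_cancel₀ h3 h4

theorem brEx_q_cont {F : ℂ → ℂ} {A : ℝ} (hF : Fn F A) : ContinuousOn (brEx_q F) EE := by
  have hopen : IsOpen {u : ℂ | 0 < u.re} := Pool.Agent.Helper90.G2.kb_open
  rintro ⟨v, u⟩ ⟨hv, hu, -⟩
  simp only at hv hu
  apply ContinuousAt.continuousWithinAt
  by_cases h : v = u
  · subst h
    have han : AnalyticAt ℂ F v := hF.diff.analyticAt (hopen.mem_nhds hv)
    have hst : HasStrictDerivAt F (deriv F v) v := han.hasStrictDerivAt
    have hlo := hst.isLittleO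
    have hdc : ContinuousAt (deriv F) v := han.deriv.continuousAt
    rw [Metric.continuousAt_iff']
    intro ε hε
    have hε2 : 0 < ε / 2 := by (clear * - hε; linarith only [hε])
    have h1 := hlo.def hε2
    have h2 : ∀ᶠ p : ℂ × ℂ in nhds (v, v), dist (deriv F p.1) (deriv F v) < ε := by
      have h3 : ContinuousAt (fun p : ℂ × ℂ => deriv F p.1) (v, v) :=
        ContinuousAt.comp (f := fun p : ℂ × ℂ => p.1) (x := (v, v)) hdc continuousAt_fst
      exact (Metric.continuousAt_iff'.1 h3) ε hε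
    filter_upwards [h1, h2] with p hp1 hp2
    have hq0 : brEx_q F (v, v) = deriv F v := by simp [brEx_q]
    rw [hq0]
    by_cases hp : p.1 = p.2
    · have : brEx_q F p = deriv F p.1 := by simp [brEx_q, hp]
      rw [this]
      exact hp2
    · have hne : p.1 - p.2 ≠ 0 := sub_ne_zero.2 hp
      have hnp : 0 < ‖p.1 - p.2‖ := norm_pos_iff.2 hne
      have e1 : F p.1 - F p.2 - (p.1 - p.2) * deriv F v =
          (brEx_q F p - deriv F v) * (p.1 - p.2) := by
        have e0 := brEx_q_mul F p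
        linear_combination -e0
      have e2 : ‖F p.1 - F p.2 - (p.1 - p.2) * deriv F v‖ ≤ ε / 2 * ‖p.1 - p.2‖ := by
        simpa using hp1
      rw [e1, norm_mul] at e2
      have e3 := le_of_mul_le_mul_right e2 hnp
      rw [dist_eq_norm]
      (clear * - hε2 e3; linarith only [hε2, e3])
  · have hev : ∀ᶠ p : ℂ × ℂ in nhds (v, u), p.1 ≠ p.2 :=
      (isOpen_ne_fun continuous_fst continuous_snd).mem_nhds h
    have hFv : ContinuousAt F v := (hF.diff.continuousOn).continuousAt (hopen.mem_nhds hv)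
    have hFu : ContinuousAt F u := (hF.diff.continuousOn).continuousAt (hopen.mem_nhds hu)
    have h1 : ContinuousAt (fun p : ℂ × ℂ => F p.1) (v, u) :=
      ContinuousAt.comp (f := fun p : ℂ × ℂ => p.1) (x := (v, u)) hFv continuousAt_fst
    have h2 : ContinuousAt (fun p : ℂ × ℂ => F p.2) (v, u) :=
      ContinuousAt.comp (f := fun p : ℂ × ℂ => p.2) (x := (v, u)) hFu continuousAt_snd
    have h3 : ContinuousAt (fun p : ℂ × ℂ => (F p.1 - F p.2) / (p.1 - p.2)) (v, u) :=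
      (h1.sub h2).div (continuousAt_fst.sub continuousAt_snd) (sub_ne_zero.2 h)
    refine h3.congr ?_
    filter_upwards [hev] with p hp
    simp [brEx_q, hp]

theorem brEx_q_ne {F : ℂ → ℂ} {A : ℝ} (hF : Fn F A) {p : ℂ × ℂ} (hp : p ∈ EE) :
    brEx_q F p ≠ 0 := by
  obtain ⟨v, u⟩ := p
  obtain ⟨hv, hu, h3⟩ := hp
  simp only at hv hu h3
  by_cases h : v = u
  · subst h
    have : brEx_q F (v, v) = deriv F v := by simp [brEx_q]
    rw [this]
    exact hF.dne hv
  · intro h0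
    have h1 := brEx_q_mul F (v, u)
    rw [h0, zero_mul] at h1
    simp only at h1
    have h2 : F v = F u := (sub_eq_zero.1 h1.symm)
    rw [abs_lt] at h3
    refine h (hF.inj ((v.im + u.im) / 2) ⟨hv, ?_⟩ ⟨hu, ?_⟩ h2)
    · rw [abs_lt]
      constructor <;> linarith only [h3]
    · rw [abs_lt]
      constructor <;> (clear * - h3; linarith [h3.1, h3.2])

theorem br_ex {F : ℂ → ℂ} {A : ℝ} (hF : Fn F A) : ∃ Λ : ℂ → ℂ → ℂ, Br F Λ := by
  obtain ⟨f, hf1, hf2⟩ := Complex.exists_continuousOn_eqOn_exp_comp brEx_sc brEx_open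
    (brEx_q_cont hF) (by
      rintro ⟨p, hp, h⟩
      exact brEx_q_ne hF hp h)
  have hexp : ∀ p ∈ EE, Complex.exp (f p) = brEx_q F p := fun p hp => hf2 hp
  refine ⟨fun v u => f (v, u), ⟨hf1, ?_, ?_, ?_⟩⟩
  · intro p hp
    have h : Complex.exp (f (p.1, p.2)) = brEx_q F p := hexp p hp
    rw [h, brEx_q_mul]
  · intro u hu
    have hm : (u, u) ∈ EE := mem_EE hu hu (by simp [Real.pi_pos])
    have h : Complex.exp (f (u, u)) = brEx_q F (u, u) := hexp _ hm
    rw [h]
    simp [brEx_q]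
  · have hsw : ∀ p ∈ EE, p.swap ∈ EE := by
      rintro ⟨v, u⟩ ⟨h1, h2, h3⟩
      refine ⟨h2, h1, ?_⟩
      rw [abs_sub_comm]
      exact h3
    have hc : ContinuousOn (fun p : ℂ × ℂ => f p.swap) EE :=
      hf1.comp continuous_swap.continuousOn hsw
    refine brEx_uniq brEx_convex.isPreconnected (g1 := fun p : ℂ × ℂ => f (p.1, p.2))
      (g2 := fun p : ℂ × ℂ => f (p.2, p.1)) hf1 hc ?_ brEx_one rfl
    rintro ⟨v, u⟩ hp
    have h1 : Complex.exp (f (v, u)) = brEx_q F (v, u) := hexp _ hp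
    have h2 : Complex.exp (f (u, v)) = brEx_q F (u, v) := hexp _ (hsw _ hp)
    show Complex.exp (f (v, u)) = Complex.exp (f (u, v))
    rw [h1, h2, brEx_q_symm]

theorem br_lift {F : ℂ → ℂ} {A : ℝ} (hF : Fn F A) {G : ℂ → ℂ}
    (hG : ContinuousOn G {u : ℂ | 0 < u.re}) (hG1 : ∀ u : ℂ, 0 < u.re → Complex.exp (G u) = deriv F u) :
    ∃ Λ : ℂ → ℂ → ℂ, Br F Λ ∧ ∀ u : ℂ, 0 < u.re → Λ u u = G u := by
  obtain ⟨Λ, hΛ⟩ := br_ex hF
  have h1 : (0 : ℝ) < (1 : ℂ).re := by simp
  obtain ⟨n, hn⟩ := Complex.exp_eq_exp_iff_exists_int.1 ((hΛ.diag 1 h1).trans (hG1 1 h1).symm)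
  obtain ⟨c, hc⟩ : ∃ c : ℂ, c = n * (2 * π * Complex.I) := ⟨_, rfl⟩
  have hc1 : Complex.exp c = 1 := by
    rw [hc]
    exact Complex.exp_int_mul_two_pi_mul_I n
  have he : ∀ z : ℂ, Complex.exp (z - c) = Complex.exp z := fun z => by
    rw [Complex.exp_sub, hc1, div_one]
  refine ⟨fun v u => Λ v u - c, ⟨?_, ?_, ?_, ?_⟩, ?_⟩
  · exact hΛ.cont.sub continuousOn_const
  · intro p hp
    rw [he]
    exact hΛ.exp p hp
  · intro u hu
    rw [he]
    exact hΛ.diag u hu
  · intro p hp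
    rw [hΛ.symm p hp]
  · have hcv : Convex ℝ {u : ℂ | 0 < u.re} := convex_halfSpace_re_gt 0
    have hcont : ContinuousOn (fun u : ℂ => Λ u u - c) {u : ℂ | 0 < u.re} := by
      refine ContinuousOn.sub ?_ continuousOn_const
      have hd : ContinuousOn (fun u : ℂ => ((u, u) : ℂ × ℂ)) {u : ℂ | 0 < u.re} :=
        (continuous_id.prodMk continuous_id).continuousOn
      exact hΛ.cont.comp hd fun u hu => mem_EE hu hu (by simp [Real.pi_pos])
    refine brEx_uniq hcv.isPreconnected hcont hG ?_ (a := (1 : ℂ)) h1 ?_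
    · intro u hu
      rw [he, hG1 u hu]
      exact hΛ.diag u hu
    · show Λ 1 1 - c = G 1
      rw [hn, hc]
      ring

end Pool.Agent.Helper26.G4
end

/- Helper24.K6w.H26.G4.Chord -/
section
/-!
# G4-CHORD: the logarithm of the chords

The divided difference `q (t, s) = (a t - a s) / (s - t)`, `q (s, s) = - a' s`, is continuous on
`ℝ × ℝ` (`a` is `C¹`), `q (t, s) * (s - t) = a t - a s`; no zero (`aa_inj`, `ra_eq`).
`Complex.exists_continuousOn_eqOn_exp_comp` on `univ` gives `L` with `exp L = q`. On the diagonal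
`exp (Λ v v - Λ v u) = F' v * e^(-s) / (F v - F u) = - a' s` (`v = cv u s`, `Br.diag`, `Br.exp`), so
`L s s - (Λ v v - Λ v u)` is continuous with values in `2 π i ℤ`, a constant; subtract it.
-/

set_option autoImplicit false

namespace Pool.Agent.Helper26.G4

open MeasureTheory Set
open scoped Real
open Pool.Agent.Helper90.G2 (Bx Wn Fn ar ch Cen chi)

open Classical in
/-- the divided difference of a curve -/
noncomputable def Chord_q (a : ℝ → ℂ) (p : ℝ × ℝ) : ℂ :=
  if p.1 = p.2 then -deriv a p.1 else (a p.1 - a p.2) / ((p.2 - p.1 : ℝ) : ℂ)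

theorem Chord_q_diag (a : ℝ → ℂ) (s : ℝ) : Chord_q a (s, s) = -deriv a s := by
  simp [Chord_q]

theorem Chord_q_mul (a : ℝ → ℂ) (p : ℝ × ℝ) :
    Chord_q a p * ((p.2 - p.1 : ℝ) : ℂ) = a p.1 - a p.2 := by
  unfold Chord_q
  split_ifs with h
  · rw [h, sub_self, sub_self, Complex.ofReal_zero, mul_zero]
  · rw [div_mul_cancel₀]
    rw [Ne, Complex.ofReal_eq_zero, sub_eq_zero]
    exact fun h1 => h h1.symm

theorem Chord_q_cont {a : ℝ → ℂ} (hd : ∀ s, HasDerivAt a (deriv a s) s)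
    (hc : Continuous (deriv a)) : Continuous (Chord_q a) := by
  have ha : Continuous a := continuous_iff_continuousAt.2 fun s => (hd s).continuousAt
  rw [continuous_iff_continuousAt]
  rintro ⟨t, s⟩
  by_cases h : t = s
  · subst h
    have hst : HasStrictDerivAt a (deriv a t) t :=
      hasStrictDerivAt_of_hasDerivAt_of_continuousAt (Filter.Eventually.of_forall hd)
        hc.continuousAt
    have hlo := hst.isLittleO
    have hdc : ContinuousAt (deriv a) t := hc.continuousAt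
    rw [Metric.continuousAt_iff']
    intro ε hε
    have hε2 : 0 < ε / 2 := by (clear * - hε; linarith only [hε])
    have h1 := hlo.def hε2
    have h2 : ∀ᶠ p : ℝ × ℝ in nhds (t, t), dist (deriv a p.1) (deriv a t) < ε := by
      have h3 : ContinuousAt (fun p : ℝ × ℝ => deriv a p.1) (t, t) :=
        ContinuousAt.comp (f := fun p : ℝ × ℝ => p.1) (x := (t, t)) hdc continuousAt_fst
      exact (Metric.continuousAt_iff'.1 h3) ε hε
    filter_upwards [h1, h2] with p hp1 hp2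
    rw [Chord_q_diag]
    by_cases hp : p.1 = p.2
    · have : Chord_q a p = -deriv a p.1 := by simp [Chord_q, hp]
      rw [this, dist_neg_neg]
      exact hp2
    · have hne : p.1 - p.2 ≠ 0 := sub_ne_zero.2 hp
      have hnp : 0 < ‖p.1 - p.2‖ := norm_pos_iff.2 hne
      have e1 : a p.1 - a p.2 - (p.1 - p.2) • deriv a t =
          -((Chord_q a p - -deriv a t) * ((p.1 - p.2 : ℝ) : ℂ)) := by
        have e0 := Chord_q_mul a p
        have e3 : ((p.2 - p.1 : ℝ) : ℂ) = -((p.1 - p.2 : ℝ) : ℂ) := by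
          rw [← Complex.ofReal_neg, neg_sub]
        rw [e3] at e0
        rw [Complex.real_smul]
        linear_combination -e0
      have e2 : ‖a p.1 - a p.2 - (p.1 - p.2) • deriv a t‖ ≤ ε / 2 * ‖p.1 - p.2‖ := by
        simpa using hp1
      rw [e1, norm_neg, norm_mul, Complex.norm_real] at e2
      have e3 := le_of_mul_le_mul_right e2 hnp
      rw [dist_eq_norm]
      linarith only [hε2, e3]
  · have hev : ∀ᶠ p : ℝ × ℝ in nhds (t, s), p.1 ≠ p.2 :=
      (isOpen_ne_fun continuous_fst continuous_snd).mem_nhds h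
    have h1 : ContinuousAt (fun p : ℝ × ℝ => a p.1) (t, s) :=
      (ha.comp continuous_fst).continuousAt
    have h2 : ContinuousAt (fun p : ℝ × ℝ => a p.2) (t, s) :=
      (ha.comp continuous_snd).continuousAt
    have h4 : ContinuousAt (fun p : ℝ × ℝ => ((p.2 - p.1 : ℝ) : ℂ)) (t, s) :=
      (Complex.continuous_ofReal.comp (continuous_snd.sub continuous_fst)).continuousAt
    have h3 : ContinuousAt (fun p : ℝ × ℝ => (a p.1 - a p.2) / ((p.2 - p.1 : ℝ) : ℂ)) (t, s) := by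
      refine (h1.sub h2).div h4 ?_
      rw [Ne, Complex.ofReal_eq_zero, sub_eq_zero]
      exact fun h1 => h h1.symm
    refine h3.congr ?_
    filter_upwards [hev] with p hp
    simp [Chord_q, hp]

theorem Chord_sc : IsSimplyConnected (univ : Set (ℝ × ℝ)) := by
  have h : ContractibleSpace (univ : Set (ℝ × ℝ)) :=
    (convex_univ (𝕜 := ℝ) (E := ℝ × ℝ)).contractibleSpace ⟨(0, 0), mem_univ _⟩
  exact (inferInstance : SimplyConnectedSpace (univ : Set (ℝ × ℝ)))

theorem Chord_diag {F : ℂ → ℂ} {A : ℝ} (hF : Fn F A) {Λ : ℂ → ℂ → ℂ} (hΛ : Br F Λ) {u : ℂ}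
    (hu : 0 < u.re) (s : ℝ) :
    Complex.exp (Λ (cv u s) (cv u s) - Λ (cv u s) u) = -deriv (aa Λ u) s := by
  have h1 := hΛ.exp (cv u s, u) ⟨Curve_re_pos hu s, hu, Curve_im_lt u s⟩
  simp only at h1
  rw [Curve_sub] at h1
  have h2 := hΛ.diag (cv u s) (Curve_re_pos hu s)
  rw [(aa_deriv hF hΛ hu s).deriv, neg_neg, Complex.exp_sub, h2, ← h1]
  have h3 : ((Real.exp (-s) : ℝ) : ℂ) ≠ 0 := by
    rw [Ne, Complex.ofReal_eq_zero]
    exact (Real.exp_pos _).ne'
  have h4 := Complex.exp_ne_zero (Λ (cv u s) u)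
  (clear * - h3 h4; field_simp)

theorem ch_ex {F : ℂ → ℂ} {A : ℝ} (hF : Fn F A) {Λ : ℂ → ℂ → ℂ} (hΛ : Br F Λ) {u : ℂ}
    (hu : 0 < u.re) : ∃ L : ℝ → ℝ → ℂ, Ch F Λ u L := by
  have hd : ∀ s, HasDerivAt (aa Λ u) (deriv (aa Λ u) s) s := fun s =>
    (aa_deriv hF hΛ hu s).differentiableAt.hasDerivAt
  have hqc : Continuous (Chord_q (aa Λ u)) := Chord_q_cont hd (aa_cont hF hΛ hu).2
  have hne : ∀ p : ℝ × ℝ, Chord_q (aa Λ u) p ≠ 0 := by
    rintro ⟨t, s⟩ h0
    by_cases h : t = s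
    · subst h
      rw [Chord_q_diag, neg_eq_zero] at h0
      have h1 := ra_eq hF hΛ hu t
      rw [h0, norm_zero] at h1
      exact absurd h1.1 h1.2.ne
    · have h1 := Chord_q_mul (aa Λ u) (t, s)
      rw [h0, zero_mul] at h1
      simp only at h1
      exact aa_inj hF hΛ hu h (by rw [sub_eq_zero.1 h1.symm])
  obtain ⟨f, hf1, hf2⟩ := Complex.exists_continuousOn_eqOn_exp_comp Chord_sc isOpen_univ
    (g := Chord_q (aa Λ u)) hqc.continuousOn (by
      rintro ⟨p, -, h⟩
      exact hne p h)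
  have hfc : Continuous f := continuousOn_univ.1 hf1
  have hexp : ∀ p, Complex.exp (f p) = Chord_q (aa Λ u) p := fun p => hf2 (mem_univ p)
  obtain ⟨D, hD⟩ : ∃ D : ℝ → ℂ, D = fun s => Λ (cv u s) (cv u s) - Λ (cv u s) u := ⟨_, rfl⟩
  have hDe : ∀ s, Complex.exp (D s) = Chord_q (aa Λ u) (s, s) := by
    intro s
    rw [hD, Chord_q_diag]
    exact Chord_diag hF hΛ hu s
  have hDc : Continuous D := by
    have h1 : Continuous fun s : ℝ => ((cv u s, cv u s) : ℂ × ℂ) :=
      (Curve_cv_cont u).prodMk (Curve_cv_cont u)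
    have h2 : Continuous fun s : ℝ => ((cv u s, u) : ℂ × ℂ) :=
      (Curve_cv_cont u).prodMk continuous_const
    have h3 : Continuous fun s : ℝ => Λ (cv u s) (cv u s) :=
      hΛ.cont.comp_continuous h1 fun s =>
        ⟨Curve_re_pos hu s, Curve_re_pos hu s, by simp [Real.pi_pos]⟩
    have h4 : Continuous fun s : ℝ => Λ (cv u s) u :=
      hΛ.cont.comp_continuous h2 fun s => ⟨Curve_re_pos hu s, hu, Curve_im_lt u s⟩
    rw [hD]
    exact h3.sub h4
  obtain ⟨n, hn⟩ := Complex.exp_eq_exp_iff_exists_int.1 ((hexp (0, 0)).trans (hDe 0).symm)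
  obtain ⟨c, hc⟩ : ∃ c : ℂ, c = n * (2 * π * Complex.I) := ⟨_, rfl⟩
  have hc1 : Complex.exp c = 1 := by
    rw [hc]
    exact Complex.exp_int_mul_two_pi_mul_I n
  have he : ∀ z : ℂ, Complex.exp (z - c) = Complex.exp z := fun z => by
    rw [Complex.exp_sub, hc1, div_one]
  refine ⟨fun t s => f (t, s) - c, ⟨?_, ?_, ?_⟩⟩
  · exact (hfc.comp (continuous_fst.prodMk continuous_snd)).sub continuous_const
  · intro t s
    rw [he, hexp]
    exact Chord_q_mul (aa Λ u) (t, s)
  · intro s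
    have h1 := brEx_uniq (s := (univ : Set ℝ)) isPreconnected_univ
      (g1 := fun s : ℝ => f (s, s) - c) (g2 := D)
      ((hfc.comp (continuous_id.prodMk continuous_id)).sub continuous_const).continuousOn
      hDc.continuousOn (fun x _ => by
        rw [he, hexp, hDe]) (mem_univ (0 : ℝ)) (by
        show f (0, 0) - c = D 0
        rw [hn, hc]
        ring) s (mem_univ s)
    exact h1.trans (congrFun hD s)

end Pool.Agent.Helper26.G4
end

/- Helper24.K6w.H26.G4.Half -/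
section
/-!
# G4-HALF: the half plane lemma

A curve which is injective modulo `2 π i`, stays in a closed left half plane and has both ends on its
boundary line: the ends differ by at most `2 π`. Proof: otherwise, after exchanging, let
`y₂ - y₁ > 2 π`, `y₁, y₂` the imaginary parts of the ends (one of `γ b, γ b'` each).
`D s s' = γ s + 2 π i - γ s'` has no zero on `[b, b']²` (on the diagonal it is `2 π i`), so it has a continuous
logarithm `L` there (extend `γ` by constants with `Set.projIcc` to all of `ℝ`; then `D` is continuous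
on `ℝ × ℝ` without zeros, `Complex.exists_continuousOn_eqOn_exp_comp` on `univ`). On the edges `s = b`
and `s = b'`: `re D ≥ 0`; on the edges `s' = b`, `s' = b'`: `re D ≤ 0`. The values at the corners are on the
imaginary axis: `D b b = D b' b' = 2 π i`, and (case `im γ b' - im γ b > 2 π`) `D b b'` is negative,
`D b' b` positive (times `i`). Where `re D ≥ 0` along a path, `im L` stays in an interval of length `π`
`[-π/2, π/2] + 2 π k`; going around the square the changes are `-π, -π, 0, 0` up to sign and order: the sum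
is `± 2 π ≠ 0`, but it is a telescoping sum. The case `im γ b - im γ b' > 2 π` follows from the conjugate
curve.
-/

set_option autoImplicit false

namespace Pool.Agent.Helper26.G4

open MeasureTheory Set
open scoped Real
open Pool.Agent.Helper90.G2 (Bx Wn Fn ar ch Cen chi)

/-- one edge: `f` continuous, `exp f` in the closed right half plane, ends on the imaginary axis -/
theorem edge {f : ℝ → ℂ} {b b' : ℝ} (hb : b ≤ b') (hf : ContinuousOn f (Icc b b'))
    (h : ∀ s ∈ Icc b b', 0 ≤ (Complex.exp (f s)).re) :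
    ∃ k : ℤ, ∀ s ∈ Icc b b', |(f s).im - 2 * π * k| ≤ π / 2 := by
  have hπ := Real.pi_pos
  -- the cosine is nonnegative
  have hcos : ∀ s ∈ Icc b b', 0 ≤ Real.cos (f s).im := by
    intro s hs
    have h1 := h s hs
    rw [Complex.exp_re] at h1
    have h2 : 0 < Real.exp (f s).re := Real.exp_pos _
    by_contra hneg
    push Not at hneg
    exact absurd (mul_neg_of_pos_of_neg h2 hneg) (not_lt.mpr h1)
  set k : ℤ := round ((f b).im / (2 * π)) with hk
  refine ⟨k, ?_⟩
  have hc : ∀ s, Real.cos |(f s).im - 2 * π * k| = Real.cos (f s).im := by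
    intro s
    rw [Real.cos_abs]
    have : (f s).im - 2 * π * k = (f s).im - k * (2 * π) := by ring
    rw [this, Real.cos_sub_int_mul_two_pi]
  -- the value at the start is at most `π`
  have hstart : |(f b).im - 2 * π * k| ≤ π := by
    have h1 := abs_sub_round ((f b).im / (2 * π))
    rw [← hk] at h1
    have h2 : (f b).im - 2 * π * k = (2 * π) * ((f b).im / (2 * π) - k) := by
      (clear * -; field_simp)
    rw [h2, abs_mul, abs_of_pos (by positivity : (0 : ℝ) < 2 * π)]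
    calc 2 * π * |(f b).im / (2 * π) - k| ≤ 2 * π * (1 / 2) :=
          mul_le_mul_of_nonneg_left h1 (by positivity)
      _ = π := by ring
  -- a value in `(π / 2, π]` is impossible
  have hno : ∀ s ∈ Icc b b', |(f s).im - 2 * π * k| ≤ π → |(f s).im - 2 * π * k| ≤ π / 2 := by
    intro s hs h1
    by_contra h2
    push Not at h2
    have h3 : Real.cos |(f s).im - 2 * π * k| < 0 :=
      Real.cos_neg_of_pi_div_two_lt_of_lt h2 (by (clear * - hπ h1; linarith))
    rw [hc] at h3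
    exact absurd h3 (not_lt.mpr (hcos s hs))
  have hb0 : |(f b).im - 2 * π * k| ≤ π / 2 := hno b (left_mem_Icc.mpr hb) hstart
  intro s hs
  by_contra hlt
  push Not at hlt
  have hgt : π < |(f s).im - 2 * π * k| := by
    by_contra h1
    push Not at h1
    exact absurd (hno s hs h1) (not_le.mpr hlt)
  -- intermediate value
  have hcont : ContinuousOn (fun t => |(f t).im - 2 * π * k|) (Icc b s) := by
    have h1 : ContinuousOn f (Icc b s) := hf.mono (Icc_subset_Icc le_rfl hs.2)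
    exact ((Complex.continuous_im.comp_continuousOn h1).sub continuousOn_const).abs
  obtain ⟨t, ht, hte⟩ := intermediate_value_Icc hs.1 hcont
    (show π ∈ Icc |(f b).im - 2 * π * k| |(f s).im - 2 * π * k| from
      ⟨by linarith only [hstart], hgt.le⟩)
  have ht' : t ∈ Icc b b' := ⟨ht.1, ht.2.trans hs.2⟩
  have hte' : |(f t).im - 2 * π * k| = π := hte
  have h4 := hno t ht' hte'.le
  rw [hte'] at h4
  linarith only [hπ, h4]

/-- a corner on the positive imaginary axis -/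
theorem half_corner {z : ℂ} {k : ℤ} {y : ℝ} (hy : 0 < y) (hz : Complex.exp z = (y : ℂ) * Complex.I)
    (hk : |z.im - 2 * π * k| ≤ π / 2) : z.im = 2 * π * k + π / 2 := by
  have hre : (Complex.exp z).re = 0 := by rw [hz]; simp
  have him : 0 < (Complex.exp z).im := by rw [hz]; simpa using hy
  rw [Complex.exp_re] at hre
  rw [Complex.exp_im] at him
  have he : 0 < Real.exp z.re := Real.exp_pos _
  have hc : Real.cos z.im = 0 := by
    rcases mul_eq_zero.mp hre with h | h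
    · exact absurd h he.ne'
    · exact h
  have hs : 0 < Real.sin z.im := by
    by_contra h
    push Not at h
    exact absurd (mul_nonpos_of_nonneg_of_nonpos he.le h) (not_le.mpr him)
  set w := z.im - 2 * π * k with hw
  have hcw : Real.cos w = 0 := by
    have : w = z.im - k * (2 * π) := by rw [hw]; ring
    rw [this, Real.cos_sub_int_mul_two_pi]; exact hc
  have hsw : 0 < Real.sin w := by
    have : w = z.im - k * (2 * π) := by rw [hw]; ring
    rw [this, Real.sin_sub_int_mul_two_pi]; exact hs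
  have h1 := abs_le.mp hk
  have hwpos : 0 < w := by
    by_contra h
    push Not at h
    have : Real.sin w ≤ 0 := Real.sin_nonpos_of_nonpos_of_neg_pi_le h (by linarith only [h1])
    exact absurd this (not_le.mpr hsw)
  have hwe : w = π / 2 := by
    by_contra h
    have hlt : w < π / 2 := lt_of_le_of_ne h1.2 h
    have : 0 < Real.cos w := Real.cos_pos_of_mem_Ioo ⟨by linarith only [hwpos, hlt], hlt⟩
    exact absurd hcw this.ne'
  rw [hw] at hwe
  (clear * - hwe; linarith only [hwe])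

/-- a corner on the negative imaginary axis -/
theorem half_corner_neg {z : ℂ} {k : ℤ} {y : ℝ} (hy : 0 < y)
    (hz : Complex.exp z = -((y : ℂ) * Complex.I))
    (hk : |z.im - 2 * π * k| ≤ π / 2) : z.im = 2 * π * k - π / 2 := by
  have h1 : Complex.exp (starRingEnd ℂ z) = (y : ℂ) * Complex.I := by
    rw [Complex.exp_conj, hz]; simp
  have h2 : |(starRingEnd ℂ z).im - 2 * π * ((-k : ℤ) : ℝ)| ≤ π / 2 := by
    have : (starRingEnd ℂ z).im - 2 * π * ((-k : ℤ) : ℝ) = -(z.im - 2 * π * k) := by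
      rw [Complex.conj_im]; push_cast; ring
    rw [this, abs_neg]; exact hk
  have h3 := half_corner hy h1 h2
  rw [Complex.conj_im] at h3
  push_cast at h3
  linarith only [h3]

/-- a continuous logarithm on the plane `ℝ × ℝ` -/
theorem half_log {g : ℝ × ℝ → ℂ} (hg : Continuous g) (h0 : ∀ p, g p ≠ 0) :
    ∃ L : ℝ × ℝ → ℂ, Continuous L ∧ ∀ p, Complex.exp (L p) = g p := by
  have hsc : IsSimplyConnected (univ : Set (ℝ × ℝ)) := by
    have hcs : ContractibleSpace (univ : Set (ℝ × ℝ)) :=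
      convex_univ.contractibleSpace ⟨(0, 0), mem_univ _⟩
    exact (inferInstance : SimplyConnectedSpace (univ : Set (ℝ × ℝ)))
  obtain ⟨L, hL, hE⟩ := Complex.exists_continuousOn_eqOn_exp_comp hsc isOpen_univ
    hg.continuousOn (by rintro ⟨p, -, hp⟩; exact h0 p hp)
  exact ⟨L, continuousOn_univ.mp hL, fun p => hE (mem_univ p)⟩

theorem half_aux {γ : ℝ → ℂ} {b b' x : ℝ} (hb : b < b') (hγ : ContinuousOn γ (Icc b b'))
    (hinj : ∀ s ∈ Icc b b', ∀ s' ∈ Icc b b', s ≠ s' → Complex.exp (γ s) ≠ Complex.exp (γ s'))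
    (hx : ∀ s ∈ Icc b b', (γ s).re ≤ x) (h1 : (γ b).re = x) (h2 : (γ b').re = x) :
    (γ b').im - (γ b).im ≤ 2 * π := by
  have hπ := Real.pi_pos
  by_contra hcon
  push Not at hcon
  have hbb : b ≤ b' := hb.le
  -- the extension
  set p : ℝ → ℝ := fun t => (projIcc b b' hbb t : ℝ) with hp
  have hpc : Continuous p := continuous_subtype_val.comp continuous_projIcc
  have hpm : ∀ t, p t ∈ Icc b b' := fun t => (projIcc b b' hbb t).2
  have hpe : ∀ t ∈ Icc b b', p t = t := fun t ht => by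
    simp only [hp]; rw [projIcc_of_mem hbb ht]
  have hgc : Continuous fun t => γ (p t) := by
    exact hγ.comp_continuous hpc hpm
  have hDc : Continuous fun q : ℝ × ℝ => γ (p q.1) + 2 * π * Complex.I - γ (p q.2) :=
    ((hgc.comp continuous_fst).add continuous_const).sub (hgc.comp continuous_snd)
  have hD0 : ∀ q : ℝ × ℝ, γ (p q.1) + 2 * π * Complex.I - γ (p q.2) ≠ 0 := by
    intro q hq
    have h3 : γ (p q.2) = γ (p q.1) + 2 * π * Complex.I := (sub_eq_zero.mp hq).symm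
    have h4 : Complex.exp (γ (p q.2)) = Complex.exp (γ (p q.1)) := by
      rw [h3, Complex.exp_add, Complex.exp_two_pi_mul_I, mul_one]
    by_cases h5 : p q.2 = p q.1
    · rw [h5] at h3
      have h6 : (2 * π * Complex.I : ℂ) = 0 := by
        have := h3
        linear_combination -this
      have h7 := congrArg Complex.im h6
      simp [hπ.ne'] at h7
    · exact hinj _ (hpm _) _ (hpm _) h5 h4
  obtain ⟨L, hLc, hLe⟩ := half_log hDc hD0
  have hmb : b ∈ Icc b b' := left_mem_Icc.mpr hbb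
  have hmb' : b' ∈ Icc b b' := right_mem_Icc.mpr hbb
  have hpb : p b = b := hpe b hmb
  have hpb' : p b' = b' := hpe b' hmb'
  -- the four edges
  have e1 : ∃ k : ℤ, ∀ s ∈ Icc b b', |(L (b, s)).im - 2 * π * k| ≤ π / 2 := by
    refine edge hbb (hLc.comp (by fun_prop : Continuous fun s : ℝ => (b, s))).continuousOn ?_
    intro s hs
    show 0 ≤ (Complex.exp (L (b, s))).re
    rw [hLe]
    simp only [hpb, hpe s hs]
    have := hx s hs
    simp
    linarith only [h1, this]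
  have e3 : ∃ k : ℤ, ∀ s ∈ Icc b b', |(L (b', s)).im - 2 * π * k| ≤ π / 2 := by
    refine edge hbb (hLc.comp (by fun_prop : Continuous fun s : ℝ => (b', s))).continuousOn ?_
    intro s hs
    show 0 ≤ (Complex.exp (L (b', s))).re
    rw [hLe]
    simp only [hpb', hpe s hs]
    have := hx s hs
    simp
    (clear * - h2 this; linarith)
  have e2 : ∃ k : ℤ, ∀ s ∈ Icc b b', |(L (s, b') + π * Complex.I).im - 2 * π * k| ≤ π / 2 := by
    refine edge (f := fun s => L (s, b') + π * Complex.I) hbb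
      ((hLc.comp (by fun_prop : Continuous fun s : ℝ => (s, b'))).add
        continuous_const).continuousOn ?_
    intro s hs
    show 0 ≤ (Complex.exp (L (s, b') + π * Complex.I)).re
    rw [Complex.exp_add, Complex.exp_pi_mul_I, hLe]
    simp only [hpb', hpe s hs]
    have := hx s hs
    simp
    linarith
  have e4 : ∃ k : ℤ, ∀ s ∈ Icc b b', |(L (s, b) + π * Complex.I).im - 2 * π * k| ≤ π / 2 := by
    refine edge (f := fun s => L (s, b) + π * Complex.I) hbb
      ((hLc.comp (by fun_prop : Continuous fun s : ℝ => (s, b))).add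
        continuous_const).continuousOn ?_
    intro s hs
    show 0 ≤ (Complex.exp (L (s, b) + π * Complex.I)).re
    rw [Complex.exp_add, Complex.exp_pi_mul_I, hLe]
    simp only [hpb, hpe s hs]
    have := hx s hs
    simp
    linarith
  obtain ⟨k1, e1⟩ := e1
  obtain ⟨k2, e2⟩ := e2
  obtain ⟨k3, e3⟩ := e3
  obtain ⟨k4, e4⟩ := e4
  -- the values at the corners
  have vbb : Complex.exp (L (b, b)) = ((2 * π : ℝ) : ℂ) * Complex.I := by
    rw [hLe]; simp only [hpb]; push_cast; ring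
  have vb'b' : Complex.exp (L (b', b')) = ((2 * π : ℝ) : ℂ) * Complex.I := by
    rw [hLe]; simp only [hpb']; push_cast; ring
  have vbb' : Complex.exp (L (b, b')) =
      -((((γ b').im - (γ b).im - 2 * π : ℝ) : ℂ) * Complex.I) := by
    rw [hLe]; simp only [hpb, hpb']
    apply Complex.ext
    · simp; linarith only [h1, h2]
    · simp; ring
  have vb'b : Complex.exp (L (b', b)) =
      ((((γ b').im - (γ b).im + 2 * π : ℝ) : ℂ) * Complex.I) := by
    rw [hLe]; simp only [hpb, hpb']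
    apply Complex.ext
    · simp; (clear * - h1 h2; linarith)
    · simp; ring
  have shift : ∀ z : ℂ, Complex.exp (z + π * Complex.I) = -Complex.exp z := by
    intro z; rw [Complex.exp_add, Complex.exp_pi_mul_I]; ring
  have shim : ∀ z : ℂ, (z + π * Complex.I).im = z.im + π := by
    intro z; simp
  -- edge 1
  have a1 := half_corner (by positivity) vbb (e1 b hmb)
  have a2 := half_corner_neg (by linarith only [hcon]) vbb' (e1 b' hmb')
  -- edge 2
  have a3 := half_corner (k := k2) (y := (γ b').im - (γ b).im - 2 * π) (by (clear * - hcon; linarith))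
    (by rw [shift, vbb']; ring) (e2 b hmb)
  have a4 := half_corner_neg (k := k2) (y := 2 * π) (by positivity)
    (by rw [shift, vb'b']) (e2 b' hmb')
  -- edge 3
  have a5 := half_corner (by positivity) vb'b' (e3 b' hmb')
  have a6 := half_corner (by linarith only [hπ, hcon]) vb'b (e3 b hmb)
  -- edge 4
  have a7 := half_corner_neg (k := k4) (y := (γ b').im - (γ b).im + 2 * π) (by linarith only [hπ, hcon])
    (by rw [shift, vb'b]) (e4 b' hmb')
  have a8 := half_corner_neg (k := k4) (y := 2 * π) (by positivity)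
    (by rw [shift, vbb]) (e4 b hmb)
  rw [shim] at a3 a4 a7 a8
  have c1 : (k1 : ℝ) = k2 := by
    have : 2 * π * (k1 : ℝ) = 2 * π * k2 := by linarith only [a2, a3]
    exact mul_left_cancel₀ (by positivity) this
  have c2 : (k2 : ℝ) = k3 + 1 := by
    have : 2 * π * (k2 : ℝ) = 2 * π * (k3 + 1) := by linarith only [a4, a5]
    exact mul_left_cancel₀ (by positivity) this
  have c3 : (k3 : ℝ) + 1 = k4 := by
    have : 2 * π * ((k3 : ℝ) + 1) = 2 * π * k4 := by linarith only [a6, a7]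
    exact mul_left_cancel₀ (by positivity) this
  have c4 : (k4 : ℝ) - 1 = k1 := by
    have : 2 * π * ((k4 : ℝ) - 1) = 2 * π * k1 := by (clear * - a1 a8; linarith only [a1, a8])
    exact mul_left_cancel₀ (by positivity) this
  linarith only [c1, c2, c3, c4]

theorem half_plane {γ : ℝ → ℂ} {b b' x : ℝ} (hb : b < b') (hγ : ContinuousOn γ (Icc b b'))
    (hinj : ∀ s ∈ Icc b b', ∀ s' ∈ Icc b b', s ≠ s' → Complex.exp (γ s) ≠ Complex.exp (γ s'))
    (hx : ∀ s ∈ Icc b b', (γ s).re ≤ x) (h1 : (γ b).re = x) (h2 : (γ b').re = x) :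
    |(γ b').im - (γ b).im| ≤ 2 * π := by
  rw [abs_le]
  constructor
  · have h := half_aux (γ := fun s => starRingEnd ℂ (γ s)) (x := x) hb
      (Complex.continuous_conj.comp_continuousOn hγ) (by
        intro s hs s' hs' hne he
        apply hinj s hs s' hs' hne
        rw [Complex.exp_conj, Complex.exp_conj] at he
        exact (starRingEnd ℂ).injective he)
      (by intro s hs; rw [Complex.conj_re]; exact hx s hs)
      (by rw [Complex.conj_re]; exact h1) (by rw [Complex.conj_re]; exact h2)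
    simp only [Complex.conj_im] at h
    linarith
  · exact half_aux hb hγ hinj hx h1 h2

end Pool.Agent.Helper26.G4
end

/- Helper24.K6w.H26.G4.Ret -/
section
/-!
# G4-RET: the return lemma

`L` from `ch_ex`, `Θ s = im (L t s)`; `Θ t = im (Λ v v - Λ v u) = - wd Λ v u`, `v = cv u t`. By `wind`,
`|Θ (t + T)| ≥ 100`, say `Θ (t + T) ≥ 100`; by `end_im`, `Θ S < π / 2`. `cross` with `β = 5 π / 2`,
`α = 3 π / 2` on `[t + T, S]`: `b < b'`. `a t - a s = (s - t) exp (L t s)`: `re (a t - a s) ≥ 0` on `[b, b']`,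
`= 0` at the ends, `im (a t - a b) > 0`, `im (a t - a b') < 0`. `half_plane` (with `aa_inj`):
`im (a b') - im (a b) ≤ 2 π`, and `a t` is on the segment between `a b` and `a b'`, so
`|a b - a t| ≤ 2 π`. `b ≤ log (4400 / re u)` by `end_re` (`re (a b) = re (a b')`). If `Θ (t + T) ≤ -100`:
the same for `-Θ`.
-/

set_option autoImplicit false

namespace Pool.Agent.Helper26.G4

open MeasureTheory Set
open scoped Real
open Pool.Agent.Helper90.G2 (Bx Wn Fn ar ch Cen chi)

private theorem Ret_sgn {σ : ℝ} (hσ : σ = 1 ∨ σ = -1) (x : ℝ) :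
    Real.cos (σ * x) = Real.cos x ∧ σ * Real.sin (σ * x) = Real.sin x := by
  rcases hσ with rfl | rfl
  · rw [one_mul, one_mul]
    exact ⟨rfl, rfl⟩
  · rw [neg_one_mul, Real.cos_neg, Real.sin_neg, neg_one_mul, neg_neg]
    exact ⟨rfl, rfl⟩

private theorem Ret_core {F : ℂ → ℂ} {A : ℝ} (hF : Fn F A) {Λ : ℂ → ℂ → ℂ} (hΛ : Br F Λ) {u : ℂ}
    (hu : 0 < u.re) (hu1 : u.re ≤ 1) {L : ℝ → ℝ → ℂ} (hL : Ch F Λ u L) {t T σ : ℝ} (hT : 1 ≤ T)
    (hσ : σ = 1 ∨ σ = -1) (h : 100 ≤ σ * (L t (t + T)).im) :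
    ∃ b : ℝ, t + T ≤ b ∧ b ≤ Real.log (4400 / u.re) ∧ ‖aa Λ u b - aa Λ u t‖ ≤ 2 * π := by
  have hpi := Real.pi_pos
  have hpi4 := Real.pi_le_four
  have hcont : Continuous fun s => σ * (L t s).im :=
    continuous_const.mul (Complex.continuous_im.comp
      (hL.cont.comp (continuous_const.prodMk continuous_id)))
  obtain ⟨S, hS, hSb⟩ := end_im hF hΛ hu hu1 hL t
  have hS1 := hSb (max S (t + T)) (le_max_left _ _)
  have hS2 : σ * (L t (max S (t + T))).im ≤ 3 * π / 2 := by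
    rw [abs_lt] at hS1
    rcases hσ with rfl | rfl <;> (clear * - hS1; linarith only [hS1])
  obtain ⟨b, b', hb1, hbb, hb2, hfb, hfb', hfs⟩ :=
    cross (f := fun s => σ * (L t s).im) (α := 3 * π / 2) (β := 5 * π / 2)
      (le_max_right S (t + T)) hcont.continuousOn (by (clear * - hpi; linarith)) (by (clear * - h hpi4; linarith)) hS2
  have hre : ∀ s, (aa Λ u t).re - (aa Λ u s).re =
      (s - t) * (Real.exp (L t s).re * Real.cos (σ * (L t s).im)) := by
    intro s
    have e := congrArg Complex.re (hL.exp t s)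
    rw [Complex.re_mul_ofReal, Complex.sub_re, Complex.exp_re] at e
    rw [(Ret_sgn hσ _).1, ← e]
    ring
  have him : ∀ s, (aa Λ u t).im - (aa Λ u s).im =
      (s - t) * (Real.exp (L t s).re * (σ * Real.sin (σ * (L t s).im))) := by
    intro s
    have e := congrArg Complex.im (hL.exp t s)
    rw [Complex.im_mul_ofReal, Complex.sub_im, Complex.exp_im] at e
    rw [(Ret_sgn hσ _).2, ← e]
    ring
  have c1 : Real.cos (5 * π / 2) = 0 := by
    rw [show 5 * π / 2 = π / 2 + 2 * π by ring, Real.cos_add_two_pi, Real.cos_pi_div_two]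
  have c2 : Real.cos (3 * π / 2) = 0 := by
    rw [show 3 * π / 2 = π / 2 + π by ring, Real.cos_add_pi, Real.cos_pi_div_two, neg_zero]
  have s1 : Real.sin (5 * π / 2) = 1 := by
    rw [show 5 * π / 2 = π / 2 + 2 * π by ring, Real.sin_add_two_pi, Real.sin_pi_div_two]
  have s2 : Real.sin (3 * π / 2) = -1 := by
    rw [show 3 * π / 2 = π / 2 + π by ring, Real.sin_add_pi, Real.sin_pi_div_two]
  have hbt : 0 < b - t := by linarith only [hT, hb1]
  have hb't : 0 < b' - t := by linarith only [hbb, hbt]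
  have r1 : (aa Λ u b).re = (aa Λ u t).re := by
    have e := hre b
    rw [hfb, c1, mul_zero, mul_zero] at e
    linarith only [e]
  have r2 : (aa Λ u b').re = (aa Λ u t).re := by
    have e := hre b'
    rw [hfb', c2, mul_zero, mul_zero] at e
    linarith only [e]
  have i1 : (aa Λ u t).im - (aa Λ u b).im = (b - t) * Real.exp (L t b).re * σ := by
    rw [him b, hfb, s1]
    ring
  have i2 : (aa Λ u t).im - (aa Λ u b').im = -((b' - t) * Real.exp (L t b').re * σ) := by
    rw [him b', hfb', s2]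
    ring
  have hx : ∀ s ∈ Icc b b', (aa Λ u s).re ≤ (aa Λ u t).re := by
    intro s hs
    have e := hre s
    have hc : 0 ≤ Real.cos (σ * (L t s).im) := by
      have h3 := hfs s hs
      rw [← Real.cos_sub_two_pi]
      refine Real.cos_nonneg_of_neg_pi_div_two_le_of_le ?_ ?_
      · linarith only [h3]
      · linarith only [h3]
    have hst : 0 ≤ s - t := by linarith only [hs.1, hT, hb1]
    have := mul_nonneg hst (mul_nonneg (Real.exp_pos (L t s).re).le hc)
    linarith only [e, this]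
  have hhp := half_plane (γ := aa Λ u) (x := (aa Λ u t).re) hbb
    (aa_cont hF hΛ hu).1.continuousOn
    (fun s _ s' _ hss => aa_inj hF hΛ hu hss) hx r1 r2
  refine ⟨b, hb1, ?_, ?_⟩
  · by_contra hb
    push Not at hb
    have := end_re hF hΛ hu hu1 hb.le hbb
    rw [r1, r2] at this
    exact lt_irrefl _ this
  · have hn := Complex.norm_le_abs_re_add_abs_im (aa Λ u b - aa Λ u t)
    rw [Complex.sub_re, r1, sub_self, abs_zero, zero_add, Complex.sub_im] at hn
    refine hn.trans ?_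
    have p1 := mul_pos hbt (Real.exp_pos (L t b).re)
    have p2 := mul_pos hb't (Real.exp_pos (L t b').re)
    rw [abs_le] at hhp ⊢
    rcases hσ with rfl | rfl
    · constructor <;> linarith only [hhp, p2, i2, p1, i1]
    · constructor <;> (clear * - hhp p1 i1 p2 i2; linarith only [hhp, p1, i1, p2, i2])

theorem ret : ∃ C : ℝ, 0 < C ∧ ∀ (F : ℂ → ℂ) (A : ℝ) (Λ : ℂ → ℂ → ℂ), Fn F A → Br F Λ →
    ∀ u : ℂ, 0 < u.re → u.re ≤ 1 → ∀ t : ℝ, Real.exp (-t) ≤ 2 → ∀ T : ℝ, 1 ≤ T →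
    C * (1 + √(T * √((ra F u t)⁻¹))) ≤ |wd Λ (cv u t) u| →
    ∃ b : ℝ, t + T ≤ b ∧ b ≤ Real.log (4400 / u.re) ∧ ‖aa Λ u b - aa Λ u t‖ ≤ 2 * π := by
  obtain ⟨C0, hC0, hw⟩ := wind
  refine ⟨C0 + 102, by (clear * - hC0; linarith), ?_⟩
  intro F A Λ hF hΛ u hu hu1 t ht T hT hbig
  obtain ⟨L, hL⟩ := ch_ex hF hΛ hu
  have h1 := hw F A Λ hF hΛ u hu L hL t ht T hT
  have h2 : (L t t).im = -wd Λ (cv u t) u := by
    have h3 : cv u t - u = ((Real.exp (-t) : ℝ) : ℂ) := by
      rw [cv]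
      push_cast
      ring
    rw [hL.diag t, wd, Lb, h3, ← Complex.ofReal_log (Real.exp_pos _).le, Complex.sub_im,
      Complex.sub_im, Complex.add_im, Complex.ofReal_im]
    ring
  have hq : 0 ≤ √(T * √((ra F u t)⁻¹)) := Real.sqrt_nonneg _
  have h3 : 100 ≤ |(L t (t + T)).im| := by
    have h4 : |wd Λ (cv u t) u| = |(L t t).im| := by rw [h2, abs_neg]
    have h5 := abs_sub_abs_le_abs_sub (L t t).im (L t (t + T)).im
    rw [abs_sub_comm] at h5
    rw [h4] at hbig
    linarith only [hC0, hbig, h1, hq, h5]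
  rcases le_abs.1 h3 with h | h
  · exact Ret_core hF hΛ hu hu1 hL hT (Or.inl rfl) (by rw [one_mul]; exact h)
  · exact Ret_core hF hΛ hu hu1 hL hT (Or.inr rfl) (by rw [neg_one_mul]; exact h)

end Pool.Agent.Helper26.G4
end

/- Helper24.K6w.H26.G4.RetK -/
section
/-!
# G4-RETK: the return lemma for the levels

`v = vk N ξ k u = (2 ℓ, c)`, `ℓ = N^(-k)`, `|im u - c| ≤ ℓ / 2`, `re u < ℓ / N` (as `k < lv N u`). Let
`e^(-t) = 2 ℓ`: `cv u t = u + 2 ℓ`. Along the segment from `v` to `cv u t` (length `≤ 2 ℓ`) the distances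
to `u` and to the boundary are `≥ ℓ`: `lip_v`, `lip_diag`: `|Lb Λ v u - a t| ≤ 8`, `|Λ v v - Λ v' v'| ≤ 8`,
`|wd Λ v u - wd Λ (cv u t) u| ≤ 16`, and `ra F u t` and `rr F v / |F v - F u|` are comparable (exponentials of
these). `ret` with `T = (L + 1) log N + 10`: `b`. Let `t_j = - log (2 N^(-j))`. If `b ≤ t_(lv)` let `k'` be
the level with `t_k' ≤ b < t_(k'+1)`, otherwise `k' = lv N u` (then `b - t_(lv) ≤ log 8800 + log N`, since
`re u ≥ N^(-lv-1)`). `aa_lip` and the comparison of `vk N ξ k' u` with `cv u t_k'` (as above; for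
`k' = lv` we still have `re u < N^(-k')`).
-/

set_option autoImplicit false

namespace Pool.Agent.Helper26.G4

open MeasureTheory Set
open scoped Real
open Pool.Agent.Helper90.G2 (Bx Wn Fn ar ch Cen chi)

theorem RetK_seg {u : ℂ} {c ℓ t : ℝ} (hu : 0 < u.re) (hc : |u.im - c| ≤ ℓ / 2)
    (ht : Real.exp (-t) = 2 * ℓ) :
    ∀ w ∈ segment ℝ (vt c ℓ) (cv u t), 2 * ℓ ≤ w.re ∧ |w.im - u.im| ≤ ℓ / 2 := by
  rintro w ⟨a, b, ha, hb, hab, rfl⟩
  have h1 : (a • vt c ℓ + b • cv u t).re = a * (2 * ℓ) + b * (u.re + 2 * ℓ) := by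
    rw [Complex.add_re, Complex.real_smul, Complex.real_smul, Complex.re_ofReal_mul,
      Complex.re_ofReal_mul, Curve_re, ht]
    rfl
  have h2 : (a • vt c ℓ + b • cv u t).im = a * c + b * u.im := by
    rw [Complex.add_im, Complex.real_smul, Complex.real_smul, Complex.im_ofReal_mul,
      Complex.im_ofReal_mul, Curve_im]
    rfl
  rw [h1, h2]
  have hb' : b = 1 - a := by (clear * - hab; linarith only [hab])
  constructor
  · have h3 : a * (2 * ℓ) + b * (u.re + 2 * ℓ) = 2 * ℓ + b * u.re := by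
      rw [hb']
      ring
    rw [h3]
    have := mul_nonneg hb hu.le
    (clear * - this; linarith only [this])
  · have h3 : a * c + b * u.im - u.im = -(a * (u.im - c)) := by
      rw [hb']
      ring
    rw [h3, abs_neg, abs_mul, abs_of_nonneg ha]
    have h4 : a ≤ 1 := by linarith only [hb, hab]
    calc a * |u.im - c| ≤ 1 * |u.im - c| := mul_le_mul_of_nonneg_right h4 (abs_nonneg _)
      _ ≤ ℓ / 2 := by rw [one_mul]; exact hc

theorem RetK_cmp {F : ℂ → ℂ} {A : ℝ} (hF : Fn F A) {Λ : ℂ → ℂ → ℂ} (hΛ : Br F Λ) {u : ℂ}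
    {c ℓ t : ℝ} (hℓ : 0 < ℓ) (hℓ1 : ℓ ≤ 1) (hu : 0 < u.re) (huℓ : u.re < ℓ)
    (hc : |u.im - c| ≤ ℓ / 2) (ht : Real.exp (-t) = 2 * ℓ) :
    ‖aa Λ u t - Lb Λ (vt c ℓ) u‖ ≤ 6 ∧
      ‖Λ (cv u t) (cv u t) - Λ (vt c ℓ) (vt c ℓ)‖ ≤ 6 := by
  have hpi := Real.pi_gt_three
  have hs := RetK_seg hu hc ht
  have hd : ‖cv u t - vt c ℓ‖ ≤ 3 / 2 * ℓ := by
    have h1 := Complex.norm_le_abs_re_add_abs_im (cv u t - vt c ℓ)
    have h2 : (cv u t - vt c ℓ).re = u.re := by
      rw [Complex.sub_re, Curve_re, ht]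
      show u.re + 2 * ℓ - 2 * ℓ = u.re
      ring
    have h3 : (cv u t - vt c ℓ).im = u.im - c := by
      rw [Complex.sub_im, Curve_im]
      rfl
    rw [h2, h3, abs_of_pos hu] at h1
    (clear * - huℓ hc h1; linarith)
  have h6 : 4 / ℓ * ‖cv u t - vt c ℓ‖ ≤ 6 := by
    calc 4 / ℓ * ‖cv u t - vt c ℓ‖ ≤ 4 / ℓ * (3 / 2 * ℓ) :=
          mul_le_mul_of_nonneg_left hd (by (clear * - hℓ; positivity))
      _ = 6 := by field_simp; norm_num
  refine ⟨?_, ?_⟩
  · refine (lip_v hF hΛ (v := vt c ℓ) (v' := cv u t) (u := u) (ρ := ℓ) hℓ (by (clear * - hℓ1 hpi; linarith only [hℓ1, hpi])) hu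
      ?_).trans h6
    intro w hw
    obtain ⟨h1, h2⟩ := hs w hw
    refine ⟨by linarith only [hu, huℓ, h1], by linarith only [hu, huℓ, h1], ?_, by (clear * - hℓ1 hpi h2; linarith only [hℓ1, hpi, h2])⟩
    have h3 := Complex.abs_re_le_norm (w - u)
    rw [Complex.sub_re] at h3
    have h4 := le_abs_self (w.re - u.re)
    linarith only [huℓ, h1, h3, h4]
  · refine (lip_diag hF hΛ (v := vt c ℓ) (v' := cv u t) (ρ := ℓ) hℓ (by linarith only [hℓ1, hpi]) ?_).trans h6
    intro w hw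
    have := (hs w hw).1
    linarith only [hu, huℓ, this]

theorem RetK_wd {F : ℂ → ℂ} {A : ℝ} (hF : Fn F A) {Λ : ℂ → ℂ → ℂ} (hΛ : Br F Λ) {u : ℂ}
    {c ℓ t : ℝ} (hℓ : 0 < ℓ) (hℓ1 : ℓ ≤ 1) (hu : 0 < u.re) (huℓ : u.re < ℓ)
    (hc : |u.im - c| ≤ ℓ / 2) (ht : Real.exp (-t) = 2 * ℓ) :
    |wd Λ (vt c ℓ) u| - 12 ≤ |wd Λ (cv u t) u| := by
  obtain ⟨h1, h2⟩ := RetK_cmp hF hΛ hℓ hℓ1 hu huℓ hc ht
  have h3 : wd Λ (cv u t) u - wd Λ (vt c ℓ) u = (aa Λ u t - Lb Λ (vt c ℓ) u).im -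
      (Λ (cv u t) (cv u t) - Λ (vt c ℓ) (vt c ℓ)).im := by
    unfold wd aa
    rw [Complex.sub_im, Complex.sub_im, Complex.sub_im, Complex.sub_im]
    ring
  have h4 := (Complex.abs_im_le_norm (aa Λ u t - Lb Λ (vt c ℓ) u)).trans h1
  have h5 := (Complex.abs_im_le_norm (Λ (cv u t) (cv u t) - Λ (vt c ℓ) (vt c ℓ))).trans h2
  have h6 : |wd Λ (cv u t) u - wd Λ (vt c ℓ) u| ≤ 12 := by
    rw [h3]
    have := abs_sub (aa Λ u t - Lb Λ (vt c ℓ) u).im
      (Λ (cv u t) (cv u t) - Λ (vt c ℓ) (vt c ℓ)).im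
    (clear * - h4 h5 this; linarith only [h4, h5, this])
  have h7 := abs_sub_abs_le_abs_sub (wd Λ (vt c ℓ) u) (wd Λ (cv u t) u)
  rw [abs_sub_comm] at h7
  linarith only [h6, h7]

theorem RetK_ra {F : ℂ → ℂ} {A : ℝ} (hF : Fn F A) {Λ : ℂ → ℂ → ℂ} (hΛ : Br F Λ) {u : ℂ}
    {c ℓ t : ℝ} (hℓ : 0 < ℓ) (hℓ1 : ℓ ≤ 1) (hu : 0 < u.re) (huℓ : u.re < ℓ)
    (hc : |u.im - c| ≤ ℓ / 2) (ht : Real.exp (-t) = 2 * ℓ) :
    (ra F u t)⁻¹ ≤ Real.exp 12 * (‖F (vt c ℓ) - F u‖ / rr F (vt c ℓ)) := by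
  have hpi := Real.pi_gt_three
  obtain ⟨h1, h2⟩ := RetK_cmp hF hΛ hℓ hℓ1 hu huℓ hc ht
  have hv : (vt c ℓ).re = 2 * ℓ := rfl
  have hvi : (vt c ℓ).im = c := rfl
  have e1 : ‖deriv F (cv u t)‖ = Real.exp (Λ (cv u t) (cv u t)).re := by
    rw [← hΛ.diag _ (Curve_re_pos hu t), Complex.norm_exp]
  have e2 : ‖F (cv u t) - F u‖ = Real.exp (aa Λ u t).re := by
    rw [← aa_exp hΛ hu t, Complex.norm_exp]
  have e3 : ‖deriv F (vt c ℓ)‖ = Real.exp (Λ (vt c ℓ) (vt c ℓ)).re := by
    rw [← hΛ.diag _ (by rw [hv]; (clear * - hu huℓ; linarith only [hu, huℓ])), Complex.norm_exp]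
  have e4 : ‖F (vt c ℓ) - F u‖ = Real.exp (Lb Λ (vt c ℓ) u).re := by
    rw [← Lb_exp hΛ hu (v := vt c ℓ) (by rw [hv]; linarith only [hu, huℓ])
      (by rw [hvi, abs_sub_comm]; linarith only [hℓ1, hc, hpi]), Complex.norm_exp]
  have h4 := (Complex.abs_re_le_norm (aa Λ u t - Lb Λ (vt c ℓ) u)).trans h1
  have h5 := (Complex.abs_re_le_norm (Λ (cv u t) (cv u t) - Λ (vt c ℓ) (vt c ℓ))).trans h2
  rw [Complex.sub_re, abs_le] at h4 h5
  have e5 : (ra F u t)⁻¹ =
      Real.exp ((aa Λ u t).re - (Λ (cv u t) (cv u t)).re) / (2 * ℓ) := by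
    unfold ra
    rw [e1, e2, ht, Real.exp_sub, inv_div]
    field_simp
  have e6 : Real.exp 12 * (‖F (vt c ℓ) - F u‖ / rr F (vt c ℓ)) =
      Real.exp (12 + ((Lb Λ (vt c ℓ) u).re - (Λ (vt c ℓ) (vt c ℓ)).re)) / (2 * ℓ) := by
    unfold rr
    rw [e3, e4, hv, Real.exp_add, Real.exp_sub]
    (clear * - hℓ; field_simp)
  rw [e5, e6]
  refine div_le_div_of_nonneg_right (Real.exp_le_exp.2 ?_) (by linarith only [hu, huℓ])
  linarith only [h4, h5]

/-- the time of a level -/
theorem RetK_time {N : ℕ} (hN : 2 ≤ N) (j : ℕ) :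
    Real.exp (-(j * Real.log N - Real.log 2)) = 2 * (1 / (N : ℝ) ^ j) := by
  have h1 : (0 : ℝ) < N := lt_trans one_pos (Levels_one hN)
  rw [neg_sub, Real.exp_sub, Real.exp_log two_pos, ← Real.log_pow, Real.exp_log (pow_pos h1 j)]
  ring

theorem RetK_lv {N : ℕ} (hN : 2 ≤ N) (ξ : ℝ) {u : ℂ} (hu : u ∈ Bx ξ 1) {j : ℕ}
    (hj : j ≤ lv N u) : 0 < 1 / (N : ℝ) ^ j ∧ 1 / (N : ℝ) ^ j ≤ 1 ∧ 0 < u.re ∧
      u.re < 1 / (N : ℝ) ^ j ∧ |u.im - cn N ξ j u.im| ≤ 1 / (N : ℝ) ^ j / 2 := by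
  have h1 := Levels_pow hN j
  have h2 := Levels_anti hN (Nat.zero_le j)
  rw [pow_zero, div_one] at h2
  have h3 := (lv_spec hN hu.1 hu.2.1).2
  exact ⟨by (clear * - hN; positivity), h2, hu.1, lt_of_lt_of_le h3 (Levels_anti hN hj), cn_near hN ξ j u.im⟩

theorem retK : ∃ C : ℝ, 0 < C ∧ ∀ (F : ℂ → ℂ) (A : ℝ) (Λ : ℂ → ℂ → ℂ), Fn F A → Br F Λ →
    ∀ N : ℕ, 2 ≤ N → ∀ (ξ : ℝ) (u : ℂ), u ∈ Bx ξ 1 → ∀ k : ℕ, k < lv N u → ∀ L : ℕ,
    C * (1 + √((L + 1) * Real.log N * √(‖F (vk N ξ k u) - F u‖ / rr F (vk N ξ k u)))) ≤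
      |wd Λ (vk N ξ k u) u| →
    ∃ k' : ℕ, k + L ≤ k' ∧ k' ≤ lv N u ∧
      ‖Lb Λ (vk N ξ k' u) u - Lb Λ (vk N ξ k u) u‖ ≤ C * (1 + Real.log N) := by
  obtain ⟨C0, hC0, hret⟩ := ret
  have he3 := Real.exp_pos 3
  refine ⟨C0 + 4 * Real.exp 3 * C0 + 100, by (clear * - hC0; positivity), ?_⟩
  intro F A Λ hF hΛ N hN ξ u hu k hk L hbig
  have hpi4 := Real.pi_le_four
  have hlog2 : 0.69 < Real.log 2 := lt_trans (by norm_num) Real.log_two_gt_d9
  have hlog2' : Real.log 2 < 0.7 := lt_trans Real.log_two_lt_d9 (by norm_num)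
  have hlogN : Real.log 2 ≤ Real.log N :=
    Real.log_le_log two_pos (by exact_mod_cast hN)
  obtain ⟨p1, p2, p3, p4, p5⟩ := RetK_lv hN ξ hu hk.le
  have ht := RetK_time hN k
  have hk1 : vk N ξ k u = vt (cn N ξ k u.im) (1 / (N : ℝ) ^ k) := rfl
  have hwd := RetK_wd hF hΛ p1 p2 p3 p4 p5 ht
  have hra := RetK_ra hF hΛ p1 p2 p3 p4 p5 ht
  have hcm := (RetK_cmp hF hΛ p1 p2 p3 p4 p5 ht).1
  rw [← hk1] at hwd hra hcm
  set q : ℝ := ‖F (vk N ξ k u) - F u‖ / rr F (vk N ξ k u) with hq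
  set t : ℝ := k * Real.log N - Real.log 2 with htdef
  set M : ℝ := (L + 1) * Real.log N with hM
  have hM0 : 0.69 < M := by
    have h1 : (1 : ℝ) ≤ (L : ℝ) + 1 := by
      have : (0 : ℝ) ≤ L := Nat.cast_nonneg L
      linarith only []
    have h2 : Real.log N ≤ M := by
      rw [hM]
      have h3 : 0 ≤ Real.log N := by (clear * - hlog2 hlog2' hlogN; linarith)
      (clear * - h3; nlinarith only [h3])
    linarith only [hlog2, hlogN, h2]
  have ht2 : Real.exp (-t) ≤ 2 := by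
    rw [ht]
    linarith only [p2]
  -- the square roots
  have hsq : √((M + 10) * √((ra F u t)⁻¹)) ≤ 4 * Real.exp 3 * √(M * √q) := by
    have h1 : √((ra F u t)⁻¹) ≤ Real.exp 6 * √q := by
      have h2 : Real.exp 12 * q = (Real.exp 6) ^ 2 * q := by
        rw [← Real.exp_nat_mul]
        norm_num
      calc √((ra F u t)⁻¹) ≤ √(Real.exp 12 * q) := Real.sqrt_le_sqrt hra
        _ = Real.exp 6 * √q := by
          rw [h2, Real.sqrt_mul (by positivity), Real.sqrt_sq (Real.exp_pos 6).le]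
    have h3 : M + 10 ≤ 16 * M := by (clear * - hM0; linarith only [hM0])
    have h4 : (M + 10) * √((ra F u t)⁻¹) ≤ (4 * Real.exp 3) ^ 2 * (M * √q) := by
      have h5 : (4 * Real.exp 3) ^ 2 * (M * √q) = (16 * M) * (Real.exp 6 * √q) := by
        have h6 : Real.exp 6 = (Real.exp 3) ^ 2 := by
          rw [← Real.exp_nat_mul]
          norm_num
        rw [h6]
        ring
      rw [h5]
      exact mul_le_mul h3 h1 (Real.sqrt_nonneg _) (by linarith only [h3])
    calc √((M + 10) * √((ra F u t)⁻¹)) ≤ √((4 * Real.exp 3) ^ 2 * (M * √q)) :=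
          Real.sqrt_le_sqrt h4
      _ = 4 * Real.exp 3 * √(M * √q) := by
        rw [Real.sqrt_mul (by positivity), Real.sqrt_sq (by positivity)]
  have hS := Real.sqrt_nonneg (M * √q)
  have hret1 : C0 * (1 + √((M + 10) * √((ra F u t)⁻¹))) ≤ |wd Λ (cv u t) u| := by
    have h1 := mul_le_mul_of_nonneg_left hsq hC0.le
    have h2 := mul_nonneg hC0.le hS
    nlinarith only [mul_pos he3 hC0, hC0, hwd, hbig, hS, h1]
  obtain ⟨b, hb1, hb2, hb3⟩ := hret F A Λ hF hΛ u p3 (by linarith only [p2, p4]) t ht2 (M + 10) (by linarith only [hM0])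
    hret1
  -- the levels
  obtain ⟨l1, l2⟩ := lv_spec hN hu.1 hu.2.1
  have hN0 : (0 : ℝ) < N := lt_trans one_pos (Levels_one hN)
  have hbup : b ≤ (lv N u + 1) * Real.log N - Real.log 2 + 10 := by
    have h1 : Real.log (4400 / u.re) ≤ Real.log (4400 * (N : ℝ) ^ (lv N u + 1)) := by
      refine Real.log_le_log (by positivity) ?_
      rw [div_le_iff₀ p3]
      have h2 := Levels_pow hN (lv N u + 1)
      rw [div_le_iff₀ h2] at l1
      linarith only [l1]
    have h3 : Real.log (4400 * (N : ℝ) ^ (lv N u + 1)) =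
        Real.log 4400 + (lv N u + 1) * Real.log N := by
      rw [Real.log_mul (by norm_num) (by positivity), Real.log_pow]
      push_cast
      ring
    have h4 : Real.log 4400 ≤ 9.1 := by
      have h5 : Real.log 4400 ≤ Real.log ((2 : ℝ) ^ 13) :=
        Real.log_le_log (by norm_num) (by norm_num)
      rw [Real.log_pow] at h5
      push_cast at h5
      (clear * - hlog2' h5; linarith only [hlog2', h5])
    linarith only [hlog2', hb2, h1, h3, h4]
  -- the choice of the level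
  have hch : ∃ k' : ℕ, k + L ≤ k' ∧ k' ≤ lv N u ∧ k' * Real.log N - Real.log 2 ≤ b ∧
      b - (k' * Real.log N - Real.log 2) ≤ Real.log N + 10 := by
    by_cases hbl : b ≤ lv N u * Real.log N - Real.log 2
    · have hx : 0 ≤ (b + Real.log 2) / Real.log N := by
        apply div_nonneg _ (by (clear * - hlog2 hlogN; linarith only [hlog2, hlogN]))
        have : 0 ≤ (k : ℝ) * Real.log N := by
          have h3 : 0 ≤ Real.log N := by linarith only [hlog2, hlogN]
          (clear * -; positivity)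
        linarith only [hM0, hb1, this]
      have hlp : 0 < Real.log N := by linarith only [hlog2, hlogN]
      have h1 := Nat.floor_le hx
      have h2 := Nat.lt_floor_add_one ((b + Real.log 2) / Real.log N)
      rw [le_div_iff₀ hlp] at h1
      rw [div_lt_iff₀ hlp] at h2
      refine ⟨⌊(b + Real.log 2) / Real.log N⌋₊, ?_, ?_, by linarith only [h1], by linarith only [h2]⟩
      · refine Nat.le_floor ?_
        rw [le_div_iff₀ hlp]
        push_cast
        have h3 : ((k : ℝ) + L) * Real.log N ≤ k * Real.log N + (L + 1) * Real.log N := by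
          linarith only [hlp]
        linarith only [hb1, h3]
      · have h3 : (⌊(b + Real.log 2) / Real.log N⌋₊ : ℝ) * Real.log N ≤
            lv N u * Real.log N := by linarith only [hbl, h1]
        have h4 := le_of_mul_le_mul_right h3 hlp
        exact_mod_cast h4
    · push Not at hbl
      refine ⟨lv N u, ?_, le_rfl, hbl.le, by linarith only [hbup]⟩
      by_contra hc
      push Not at hc
      have hlp : 0 < Real.log N := by (clear * - hlog2 hlogN; linarith only [hlog2, hlogN])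
      have h5 : (lv N u : ℝ) + 1 ≤ (k : ℝ) + L := by exact_mod_cast hc
      have h6 := mul_le_mul_of_nonneg_right h5 hlp.le
      have h7 : t + (M + 10) = ((k : ℝ) + L) * Real.log N + Real.log N - Real.log 2 + 10 := by
        rw [htdef, hM]
        ring
      rw [h7] at hb1
      (clear * - hb1 hbup hlp h5; nlinarith only [hb1, hbup, hlp, h5])
  obtain ⟨k', hk'1, hk'2, hk'3, hk'4⟩ := hch
  refine ⟨k', hk'1, hk'2, ?_⟩
  obtain ⟨q1, q2, q3, q4, q5⟩ := RetK_lv hN ξ hu hk'2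
  have ht' := RetK_time hN k'
  have hcm' := (RetK_cmp hF hΛ q1 q2 q3 q4 q5 ht').1
  have hk2 : vk N ξ k' u = vt (cn N ξ k' u.im) (1 / (N : ℝ) ^ k') := rfl
  rw [← hk2] at hcm'
  set t' : ℝ := k' * Real.log N - Real.log 2 with ht'def
  have ht2' : Real.exp (-t') ≤ 2 := by
    rw [ht']
    linarith only [q2]
  have hlip := aa_lip hF hΛ p3 ht2' hk'3
  have h1 : Lb Λ (vk N ξ k' u) u - Lb Λ (vk N ξ k u) u =
      -(aa Λ u t' - Lb Λ (vk N ξ k' u) u) + -(aa Λ u b - aa Λ u t') +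
        (aa Λ u b - aa Λ u t) + (aa Λ u t - Lb Λ (vk N ξ k u) u) := by ring
  have h2 : ‖Lb Λ (vk N ξ k' u) u - Lb Λ (vk N ξ k u) u‖ ≤
      ‖aa Λ u t' - Lb Λ (vk N ξ k' u) u‖ + ‖aa Λ u b - aa Λ u t'‖ +
        ‖aa Λ u b - aa Λ u t‖ + ‖aa Λ u t - Lb Λ (vk N ξ k u) u‖ := by
    rw [h1]
    refine (norm_add_le _ _).trans (add_le_add_left ?_ _)
    refine (norm_add_le _ _).trans (add_le_add_left ?_ _)
    refine (norm_add_le _ _).trans ?_
    rw [norm_neg, norm_neg]
  have h3 : 0 ≤ Real.log N := by linarith only [hlog2, hlogN]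
  have h4 : 0 ≤ (C0 + 4 * Real.exp 3 * C0) * (1 + Real.log N) := by (clear * - hC0; positivity)
  linarith only [hpi4, hcm, hb3, hk'4, hcm', hlip, h2, h3, h4]

end Pool.Agent.Helper26.G4
end

/- Helper24.K6w.H26.G4.SigB -/
section
/-!
# G4-SIGB: facts on the class `Σ`

`E z = ψ z - z - b` is bounded by `4` (maximum principle in the coordinate `1 / z` and the growth
`|ψ z - b| ≤ 2 |z|`), `|E' z| ≤ 8 / |z|` for `|z| > 2` (Cauchy). `|h z| ≤ 1 / 2` for `|z| ≥ 33`
(`basic_path` along the ray to infinity), `|h z| ≤ 16` for `|z| ≥ e` (`lip_diag`).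
Root: with `v₁ = (5, ξ)`, `u₀ = (5 - 1 / 20, ξ)`, `u₁ = (1, ξ)`: `Lb Λ v₁ u₀ - v₁` is bounded
(`near_diag`), from `u₀` to `u₁` `lip_u` with `ρ = 1 / 20`, from `u₁` to `u ∈ Bx ξ 1` `basic_path`
(`|F - b| ≤ 2 e` on the segment, `|F v₁ - b| ≥ e ^ 5 - 4`), from `v₁` to `vt ξ 1` `lip_v`.
-/

set_option autoImplicit false

namespace Pool.Agent.Helper26.G4

open MeasureTheory Set
open scoped Real
open Pool.Agent.Helper90.G2 (Bx Wn Fn ar ch Cen chi sig_grow sig_fn)
open Pool.Agent.Helper39.Area (toDisc toDisc_diff)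

theorem sgb_open : IsOpen {z : ℂ | 1 < ‖z‖} := isOpen_lt continuous_const continuous_norm

/-- the error is bounded -/
theorem sgb_E {ψ : ℂ → ℂ} {b : ℂ} (hψ : DifferentiableOn ℂ ψ {z : ℂ | 1 < ‖z‖})
    (hinj : Set.InjOn ψ {z : ℂ | 1 < ‖z‖})
    (hb : Filter.Tendsto (fun z => ψ z - z) (Bornology.cobounded ℂ) (nhds b))
    {z : ℂ} (hz : 1 < ‖z‖) : ‖ψ z - z - b‖ ≤ 4 := by
  have hf : DifferentiableOn ℂ (fun z => ψ z - z - b) {z : ℂ | 1 < ‖z‖} :=
    (hψ.sub differentiableOn_id).sub_const b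
  have hl : Filter.Tendsto (fun z => ψ z - z - b) (Bornology.cobounded ℂ) (nhds 0) := by
    have := hb.sub_const b
    rwa [sub_self] at this
  have hd := toDisc_diff hf hl
  have hcrude : ∀ w : ℂ, 1 < ‖w‖ → ‖ψ w - w - b‖ ≤ 3 * ‖w‖ := by
    intro w hw
    have h1 := sig_grow hψ hinj hb hw
    have h2 : ψ w - w - b = (ψ w - b) - w := by ring
    rw [h2]
    refine (norm_sub_le _ _).trans ?_
    (clear * - h1; linarith only [h1])
  by_cases h43 : ‖z‖ ≤ 4 / 3
  · have := hcrude z hz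
    linarith
  rw [not_le] at h43
  have hz0 : z ≠ 0 := by
    rintro rfl
    rw [norm_zero] at hz
    linarith only [hz]
  have hmem : z⁻¹ ∈ closure (Metric.ball (0:ℂ) (3 / 4)) := by
    apply subset_closure
    rw [mem_ball_zero_iff, norm_inv, inv_lt_comm₀ (by (clear * - hz; linarith)) (by norm_num)]
    linarith
  have hsub : closure (Metric.ball (0:ℂ) (3 / 4)) ⊆ Metric.ball 0 1 := by
    rw [closure_ball _ (by norm_num)]
    exact Metric.closedBall_subset_ball (by norm_num)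
  have h1 := Complex.norm_le_of_forall_mem_frontier_norm_le
    (f := toDisc 0 (fun z => ψ z - z - b)) (C := 4) (U := Metric.ball (0:ℂ) (3 / 4))
    Metric.isBounded_ball (hd.mono hsub).diffContOnCl (by
      intro ω hω
      rw [frontier_ball _ (by norm_num)] at hω
      have h2 : ‖ω‖ = 3 / 4 := by rwa [mem_sphere_zero_iff_norm] at hω
      have h3 : ω ≠ 0 := by
        rintro rfl
        rw [norm_zero] at h2
        norm_num at h2
      simp only [toDisc]
      rw [if_neg h3]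
      refine (hcrude _ ?_).trans ?_
      · rw [norm_inv, h2]; norm_num
      · rw [norm_inv, h2]; norm_num) hmem
  simp only [toDisc] at h1
  rwa [if_neg (inv_ne_zero hz0), inv_inv] at h1

/-- the derivative -/
theorem sgb_D {ψ : ℂ → ℂ} {b : ℂ} (hψ : DifferentiableOn ℂ ψ {z : ℂ | 1 < ‖z‖})
    (hinj : Set.InjOn ψ {z : ℂ | 1 < ‖z‖})
    (hb : Filter.Tendsto (fun z => ψ z - z) (Bornology.cobounded ℂ) (nhds b))
    {z : ℂ} (hz : 2 < ‖z‖) : ‖deriv ψ z - 1‖ ≤ 8 / ‖z‖ := by
  have hsub : Metric.closedBall z (‖z‖ / 2) ⊆ {v : ℂ | 1 < ‖v‖} := by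
    intro v hv
    rw [mem_closedBall_iff_norm] at hv
    have := norm_sub_norm_le z v
    rw [norm_sub_rev] at this
    show 1 < ‖v‖
    (clear * - hz hv this; linarith only [hz, hv, this])
  have hf : DifferentiableOn ℂ (fun z => ψ z - z - b) {z : ℂ | 1 < ‖z‖} :=
    (hψ.sub differentiableOn_id).sub_const b
  have hd : DiffContOnCl ℂ (fun v => ψ v - v - b) (Metric.ball z (‖z‖ / 2)) := by
    apply DifferentiableOn.diffContOnCl
    rw [closure_ball z (by (clear * - hz; positivity))]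
    exact hf.mono hsub
  have h1 := Complex.norm_deriv_le_of_forall_mem_sphere_norm_le (c := z) (R := ‖z‖ / 2)
    (C := 4) (by (clear * - hz; linarith only [hz])) hd
    (fun v hv => sgb_E hψ hinj hb (hsub (Metric.sphere_subset_closedBall hv)))
  have h2 : HasDerivAt (fun v => ψ v - v - b) (deriv ψ z - 1) z := by
    have h3 := (hψ.differentiableAt (sgb_open.mem_nhds (show 1 < ‖z‖ by linarith only [hz]))).hasDerivAt
    exact (h3.sub (hasDerivAt_id z)).sub_const b
  rw [h2.deriv] at h1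
  refine h1.trans (le_of_eq ?_)
  have : ‖z‖ ≠ 0 := by linarith only [hz]
  field_simp
  norm_num

/-- `h` is holomorphic -/
theorem sgb_h {ψ h : ℂ → ℂ} (hs : Sg ψ h) : DifferentiableOn ℂ h {z : ℂ | 1 < ‖z‖} := by
  intro z hz
  have h1 : HasDerivAt (deriv ψ) (deriv (deriv ψ) z) z :=
    ((hs.diff.deriv sgb_open).differentiableAt (sgb_open.mem_nhds hz)).hasDerivAt
  have h2 := basic_branch (L := h) (f := deriv ψ) (hs.hcont.continuousAt (sgb_open.mem_nhds hz))
    (by
      filter_upwards [sgb_open.mem_nhds hz] with w hw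
      exact hs.hexp w hw) h1
  exact h2.differentiableAt.differentiableWithinAt

/-- far away -/
theorem sgb_far {ψ h : ℂ → ℂ} (hs : Sg ψ h) {z : ℂ} (hz : 33 ≤ ‖z‖) : ‖h z‖ ≤ 1 / 2 := by
  obtain ⟨b, hb⟩ := hs.lim
  have hd := toDisc_diff (sgb_h hs) hs.hlim
  have hz0 : z ≠ 0 := by
    rintro rfl
    rw [norm_zero] at hz
    (clear * - hz; linarith)
  have hm : ∀ t ∈ Icc (0:ℝ) 1, (t : ℂ) * z⁻¹ ∈ Metric.ball (0:ℂ) 1 := by
    intro t ht
    rw [mem_ball_zero_iff, norm_mul, norm_inv, Complex.norm_real, Real.norm_of_nonneg ht.1]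
    have h1 : ‖z‖⁻¹ ≤ 1 / 33 := by
      rw [one_div]
      exact inv_anti₀ (by norm_num) hz
    have h2 : 0 ≤ ‖z‖⁻¹ := by positivity
    have h3 := mul_le_mul ht.2 h1 h2 zero_le_one
    (clear * - h3; linarith only [h3])
  have h1 := basic_path (D := fun t : ℝ => toDisc 0 h ((t : ℂ) * z⁻¹))
    (hd.continuousOn.comp (by fun_prop) hm) (by simp [toDisc]) (by
      intro t ht
      by_cases h0 : t = 0
      · subst h0
        simp [toDisc]
      · have ht0 : 0 < t := lt_of_le_of_ne ht.1 (Ne.symm h0)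
        have h2 : (t : ℂ) * z⁻¹ ≠ 0 := by
          apply mul_ne_zero _ (inv_ne_zero hz0)
          exact_mod_cast h0
        have h3 : 33 ≤ ‖((t : ℂ) * z⁻¹)⁻¹‖ := by
          rw [norm_inv, norm_mul, norm_inv, Complex.norm_real, Real.norm_of_nonneg ht.1, mul_inv,
            inv_inv]
          have h4 : 1 ≤ t⁻¹ := (one_le_inv₀ ht0).2 ht.2
          have h5 := mul_le_mul h4 hz (by norm_num) (by positivity)
          linarith only [h5]
        simp only [toDisc]
        rw [if_neg h2, hs.hexp _ (by (clear * - h3; linarith only [h3]))]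
        refine (sgb_D hs.diff hs.inj hb (by linarith only [h3])).trans_lt ?_
        rw [div_lt_iff₀ (by linarith)]
        linarith)
  have h2 : toDisc 0 h (((1 : ℝ) : ℂ) * z⁻¹) = h z := by
    simp only [toDisc]
    rw [Complex.ofReal_one, one_mul, if_neg (inv_ne_zero hz0), inv_inv]
  rwa [h2] at h1

theorem sgb_e4 : (33 : ℝ) ≤ Real.exp 4 := by
  have h1 := Real.exp_one_gt_d9
  have h2 : Real.exp 4 = Real.exp 1 ^ 4 := by
    rw [← Real.exp_nat_mul]
    norm_num
  rw [h2]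
  have h3 : (2.7 : ℝ) ≤ Real.exp 1 := by linarith
  calc (33 : ℝ) ≤ 2.7 ^ 4 := by norm_num
    _ ≤ _ := pow_le_pow_left₀ (by norm_num) h3 4

theorem sgb_e5 : (100 : ℝ) ≤ Real.exp 5 := by
  have h1 := Real.exp_one_gt_d9
  have h2 : Real.exp 5 = Real.exp 1 ^ 5 := by
    rw [← Real.exp_nat_mul]
    norm_num
  rw [h2]
  have h3 : (2.7 : ℝ) ≤ Real.exp 1 := by (clear * - h1; linarith)
  calc (100 : ℝ) ≤ 2.7 ^ 5 := by norm_num
    _ ≤ _ := pow_le_pow_left₀ (by norm_num) h3 5

/-- segments at constant imaginary part -/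
theorem sgb_seg {x x' ξ : ℝ} (hx : x' ≤ x) {w : ℂ} (hw : w ∈ segment ℝ (⟨x, ξ⟩ : ℂ) ⟨x', ξ⟩) :
    w.im = ξ ∧ x' ≤ w.re ∧ w.re ≤ x := by
  obtain ⟨a, b, ha, hb, hab, rfl⟩ := hw
  have h1 : b = 1 - a := by (clear * - hab; linarith)
  subst h1
  refine ⟨?_, ?_, ?_⟩
  · simp
    ring
  · simp
    (clear * - hx ha; nlinarith only [hx, ha])
  · simp
    (clear * - hx hb; nlinarith only [hx, hb])

theorem sig4 : ∃ C : ℝ, 1 ≤ C ∧ ∀ ψ h : ℂ → ℂ, Sg ψ h →
    (∀ z : ℂ, Real.exp 1 ≤ ‖z‖ → ‖h z‖ ≤ C) ∧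
    ∃ Λ : ℂ → ℂ → ℂ, Fn (fun u => ψ (Complex.exp u)) C ∧ Br (fun u => ψ (Complex.exp u)) Λ ∧
      (∀ u : ℂ, 0 < u.re → Λ u u = u + h (Complex.exp u)) ∧
      ∀ (ξ : ℝ) (u : ℂ), u ∈ Bx ξ 1 → ‖Lb Λ (vt ξ 1) u‖ ≤ C + |ξ| := by
  obtain ⟨A, hA, hsig⟩ := sig_fn
  refine ⟨400 + A, by linarith, ?_⟩
  intro ψ h hs
  have hsF := (hsig ψ hs.diff hs.inj hs.lim).1
  obtain ⟨b, hb⟩ := hs.lim
  obtain ⟨F, hFdef⟩ : ∃ F : ℂ → ℂ, F = fun u => ψ (Complex.exp u) := ⟨_, rfl⟩
  rw [← hFdef] at hsF ⊢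
  have hFe : ∀ u, F u = ψ (Complex.exp u) := fun u => by rw [hFdef]
  have hm : ∀ u : ℂ, 0 < u.re → 1 < ‖Complex.exp u‖ := by
    intro u hu
    rw [Complex.norm_exp]
    exact Real.one_lt_exp_iff.mpr hu
  have hG : ContinuousOn (fun u => u + h (Complex.exp u)) {u : ℂ | 0 < u.re} :=
    continuousOn_id.add (hs.hcont.comp Complex.continuous_exp.continuousOn fun u hu => hm u hu)
  have hG1 : ∀ u : ℂ, 0 < u.re → Complex.exp (u + h (Complex.exp u)) = deriv F u := by
    intro u hu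
    have h1 := (hs.diff.differentiableAt (sgb_open.mem_nhds (hm u hu))).hasDerivAt
    have h2 : HasDerivAt F (deriv ψ (Complex.exp u) * Complex.exp u) u := by
      rw [hFdef]
      exact h1.comp u (Complex.hasDerivAt_exp u)
    rw [h2.deriv, Complex.exp_add, hs.hexp _ (hm u hu), mul_comm]
  obtain ⟨Λ, hΛ, hdiag⟩ := br_lift hsF hG hG1
  -- the bound of `h`
  have hh : ∀ z : ℂ, Real.exp 1 ≤ ‖z‖ → ‖h z‖ ≤ 16 := by
    intro z hz
    have hz0 : z ≠ 0 := by
      rintro rfl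
      rw [norm_zero] at hz
      (clear * - hz; linarith [Real.exp_pos 1])
    obtain ⟨v, hv⟩ : ∃ v : ℂ, Complex.exp v = z := ⟨_, Complex.exp_log hz0⟩
    have hvre : 1 ≤ v.re := by
      rw [← hv, Complex.norm_exp] at hz
      exact Real.exp_le_exp.1 hz
    by_cases h4 : 4 ≤ v.re
    · have h5 : 33 ≤ ‖z‖ := by
        rw [← hv, Complex.norm_exp]
        exact sgb_e4.trans (Real.exp_le_exp.2 h4)
      have := sgb_far hs h5
      (clear * - this; linarith)
    rw [not_le] at h4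
    have h5 : ‖h (Complex.exp (⟨4, v.im⟩ : ℂ))‖ ≤ 1 / 2 := by
      apply sgb_far hs
      rw [Complex.norm_exp]
      exact sgb_e4
    have h6 := lip_diag hsF hΛ (v := (⟨4, v.im⟩ : ℂ)) (v' := (⟨v.re, v.im⟩ : ℂ)) (ρ := 1) one_pos
      (by (clear * -; linarith [Real.pi_gt_three])) (fun w hw => by
        have := (sgb_seg h4.le hw).2.1
        linarith only [hvre, this])
    have h7 : (⟨v.re, v.im⟩ : ℂ) = v := rfl
    rw [h7, hdiag v (by linarith only [hvre]), hdiag _ (show (0:ℝ) < (⟨4, v.im⟩ : ℂ).re by norm_num), hv] at h6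
    have h8 : ‖v - (⟨4, v.im⟩ : ℂ)‖ = 4 - v.re := by
      have : v - (⟨4, v.im⟩ : ℂ) = ((v.re - 4 : ℝ) : ℂ) := by
        apply Complex.ext <;> simp
      rw [this, Complex.norm_real, Real.norm_eq_abs, abs_of_neg (by (clear * - h4; linarith))]
      ring
    rw [h8] at h6
    have h9 : h z = (v + h z - ((⟨4, v.im⟩ : ℂ) + h (Complex.exp (⟨4, v.im⟩ : ℂ)))) -
        (v - (⟨4, v.im⟩ : ℂ)) + h (Complex.exp (⟨4, v.im⟩ : ℂ)) := by ring
    rw [h9]
    refine (norm_add_le _ _).trans ?_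
    refine (add_le_add_left (norm_sub_le _ _) _).trans ?_
    rw [h8]
    linarith
  refine ⟨fun z hz => (hh z hz).trans (by linarith), Λ, ?_, hΛ, hdiag, ?_⟩
  · exact ⟨hsF.diff, hsF.inj, hsF.per, fun c => (hsF.area c).trans
      (ENNReal.ofReal_le_ofReal (by linarith))⟩
  -- the root
  intro ξ u hu
  obtain ⟨hu0, hu1, hu2⟩ := hu
  have hu2' : |u.im - ξ| < 1 / 2 := hu2
  have hpi := Real.pi_gt_three
  obtain ⟨v₁, hv₁⟩ : ∃ v : ℂ, v = ⟨5, ξ⟩ := ⟨_, rfl⟩
  have hv₁re : v₁.re = 5 := by rw [hv₁]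
  have hv₁im : v₁.im = ξ := by rw [hv₁]
  obtain ⟨u₀, hu₀⟩ : ∃ v : ℂ, v = ⟨99 / 20, ξ⟩ := ⟨_, rfl⟩
  obtain ⟨u₁, hu₁⟩ : ∃ v : ℂ, v = ⟨1, ξ⟩ := ⟨_, rfl⟩
  have hu₁re : u₁.re = 1 := by rw [hu₁]
  have hu₁im : u₁.im = ξ := by rw [hu₁]
  have hvu : v₁ - u₀ = ((1 / 20 : ℝ) : ℂ) := by
    rw [hv₁, hu₀]
    apply Complex.ext
    · simp
      norm_num
    · simp
  -- near the diagonal
  have a1 : ‖Lb Λ v₁ u₀ - v₁‖ ≤ 20 := by
    have h1 := near_diag hsF hΛ (v := v₁) (u := u₀) (ρ := 3) (by norm_num)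
      (by rw [hv₁re]; norm_num) (by linarith only [hpi])
      (by
        rw [norm_sub_rev, hvu, Complex.norm_real, Real.norm_of_nonneg (by norm_num)]
        norm_num)
    have h2 := hdiag v₁ (by rw [hv₁re]; norm_num)
    have h3 : ‖h (Complex.exp v₁)‖ ≤ 1 / 2 := by
      apply sgb_far hs
      rw [Complex.norm_exp, hv₁re]
      exact (by norm_num : (33:ℝ) ≤ 100).trans sgb_e5
    have h4 : ‖Complex.log (v₁ - u₀)‖ ≤ 18 := by
      rw [hvu, ← Complex.ofReal_log (by norm_num), Complex.norm_real, Real.norm_eq_abs,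
        abs_of_nonpos (Real.log_nonpos (by norm_num) (by norm_num)), one_div, Real.log_inv, neg_neg]
      have := Real.log_le_sub_one_of_pos (x := 20) (by norm_num)
      have h5 : Real.log 20 ≤ Real.log 20 := le_rfl
      have h6 : Real.log 20 = 2 * Real.log 2 + Real.log 5 := by
        rw [show (20:ℝ) = 2 ^ 2 * 5 by norm_num, Real.log_mul (by norm_num) (by norm_num),
          Real.log_pow]
        norm_num
      have h7 := Real.log_le_sub_one_of_pos (x := 5) (by norm_num)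
      have h8 := Real.log_two_lt_d9
      rw [h6]
      linarith only [h7, h8]
    have h5 : Lb Λ v₁ u₀ - v₁ = (Λ v₁ u₀ - Λ v₁ v₁) + h (Complex.exp v₁) +
        Complex.log (v₁ - u₀) := by
      rw [Lb, h2]
      ring
    rw [h5]
    refine (norm_add_le _ _).trans ?_
    refine (add_le_add_left (norm_add_le _ _) _).trans ?_
    linarith only [h1, h3, h4]
  -- down to `u₁`
  have a2 : ‖Lb Λ v₁ u₁ - Lb Λ v₁ u₀‖ ≤ 320 := by
    have h1 := lip_u hsF hΛ (v := v₁) (u := u₀) (u' := u₁) (ρ := 1 / 20) (by norm_num)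
      (by linarith only [hpi]) (fun w hw => by
        rw [hu₀, hu₁] at hw
        obtain ⟨h2, h3, h4⟩ := sgb_seg (by norm_num) hw
        refine ⟨by linarith only [h3], by rw [hv₁re]; linarith only [h4], by linarith only [h3], ?_, ?_⟩
        · refine le_trans ?_ (Complex.re_le_norm _)
          rw [Complex.sub_re, hv₁re]
          linarith only [h4]
        · rw [hv₁im, h2, sub_self, abs_zero]
          linarith only [hpi])
    refine h1.trans ?_
    have h2 : u₁ - u₀ = ((-(79 / 20) : ℝ) : ℂ) := by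
      rw [hu₀, hu₁]
      apply Complex.ext
      · simp
        norm_num
      · simp
    rw [h2, Complex.norm_real, Real.norm_eq_abs, abs_of_neg (by norm_num)]
    norm_num
  -- from `u₁` to `u`
  have hgr : ∀ w : ℂ, 0 < w.re → w.re ≤ 1 → ‖F w - b‖ ≤ 6 := by
    intro w hw hw1
    rw [hFe]
    refine (sig_grow hs.diff hs.inj hb (hm w hw)).trans ?_
    rw [Complex.norm_exp]
    have h1 := Real.exp_le_exp.2 hw1
    have h2 := Real.exp_one_lt_d9
    linarith only [h1, h2]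
  have hbig : 96 ≤ ‖F v₁ - b‖ := by
    have h1 := sgb_E hs.diff hs.inj hb (z := Complex.exp v₁) (hm v₁ (by rw [hv₁re]; norm_num))
    have h2 : Complex.exp v₁ = (F v₁ - b) - (ψ (Complex.exp v₁) - Complex.exp v₁ - b) := by
      rw [hFe]; ring
    have h3 : ‖Complex.exp v₁‖ ≤ ‖F v₁ - b‖ + ‖ψ (Complex.exp v₁) - Complex.exp v₁ - b‖ := by
      conv_lhs => rw [h2]
      exact norm_sub_le _ _
    have h4 : 100 ≤ ‖Complex.exp v₁‖ := by
      rw [Complex.norm_exp, hv₁re]
      exact sgb_e5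
    linarith only [h1, h3, h4]
  have a3 : ‖Lb Λ v₁ u - Lb Λ v₁ u₁‖ ≤ 1 / 2 := by
    have hseg : ∀ t ∈ Icc (0:ℝ) 1, 0 < (u₁ + (t : ℂ) * (u - u₁)).re ∧
        (u₁ + (t : ℂ) * (u - u₁)).re ≤ 1 ∧ |v₁.im - (u₁ + (t : ℂ) * (u - u₁)).im| < 2 * π := by
      intro t ht
      have h1 : (u₁ + (t : ℂ) * (u - u₁)).re = 1 + t * (u.re - 1) := by simp [hu₁re]
      have h2 : (u₁ + (t : ℂ) * (u - u₁)).im = ξ + t * (u.im - ξ) := by simp [hu₁im]
      rw [h1, h2, hv₁im]
      refine ⟨?_, ?_, ?_⟩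
      · have h3 := mul_le_mul_of_nonneg_right ht.2 (show 0 ≤ 1 - u.re by linarith only [hu1])
        linarith only [hu0, h3]
      · have h3 := mul_nonneg ht.1 (show 0 ≤ 1 - u.re by linarith only [hu1])
        linarith only [h3]
      · have h3 : ξ - (ξ + t * (u.im - ξ)) = -(t * (u.im - ξ)) := by ring
        rw [h3, abs_neg, abs_mul, abs_of_nonneg ht.1]
        have h4 := mul_le_mul ht.2 hu2'.le (abs_nonneg _) zero_le_one
        linarith only [hpi, h4]
    have hexp : ∀ t ∈ Icc (0:ℝ) 1, Complex.exp (Lb Λ v₁ (u₁ + (t : ℂ) * (u - u₁))) =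
        F v₁ - F (u₁ + (t : ℂ) * (u - u₁)) := by
      intro t ht
      obtain ⟨h1, h2, h3⟩ := hseg t ht
      exact Lb_exp hΛ h1 (by rw [hv₁re]; linarith only [h2]) h3
    have hu10 : Complex.exp (Lb Λ v₁ u₁) = F v₁ - F u₁ := by
      have := hexp 0 ⟨le_rfl, zero_le_one⟩
      rwa [Complex.ofReal_zero, zero_mul, add_zero] at this
    have hFu1 := hgr u₁ (by rw [hu₁re]; norm_num) (by rw [hu₁re])
    have hden : 90 ≤ ‖F v₁ - F u₁‖ := by
      have h1 : F v₁ - b = (F v₁ - F u₁) + (F u₁ - b) := by ring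
      have h2 : ‖F v₁ - b‖ ≤ ‖F v₁ - F u₁‖ + ‖F u₁ - b‖ := by
        conv_lhs => rw [h1]
        exact norm_add_le _ _
      linarith only [hbig, hFu1, h2]
    have hne : F v₁ - F u₁ ≠ 0 := by
      rw [← norm_pos_iff]
      linarith only [hden]
    have h1 := basic_path
      (D := fun t : ℝ => Lb Λ v₁ (u₁ + (t : ℂ) * (u - u₁)) - Lb Λ v₁ u₁) (by
        intro t ht
        obtain ⟨h1, h2, h3⟩ := hseg t ht
        have h4 := (Lb_deriv_u hsF hΛ h1 (v := v₁) (by rw [hv₁re]; linarith only [h2]) h3).continuousAt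
        have h5 : ContinuousAt (fun t : ℝ => u₁ + (t : ℂ) * (u - u₁)) t := by fun_prop
        have h6 : ContinuousAt (fun t : ℝ => Lb Λ v₁ (u₁ + (t : ℂ) * (u - u₁))) t :=
          ContinuousAt.comp (f := fun t : ℝ => u₁ + (t : ℂ) * (u - u₁)) (x := t) h4 h5
        exact (h6.sub continuousAt_const).continuousWithinAt)
      (by simp) (by
        intro t ht
        rw [Complex.exp_sub, hexp t ht, hu10]
        obtain ⟨h1, h2, h3⟩ := hseg t ht
        have h4 := hgr _ h1 h2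
        have h5 : (F v₁ - F (u₁ + (t : ℂ) * (u - u₁))) / (F v₁ - F u₁) - 1 =
            ((F u₁ - b) - (F (u₁ + (t : ℂ) * (u - u₁)) - b)) / (F v₁ - F u₁) := by
          field_simp
          ring
        rw [h5, norm_div, div_lt_iff₀ (by linarith only [hden])]
        have h6 := norm_sub_le (F u₁ - b) (F (u₁ + (t : ℂ) * (u - u₁)) - b)
        linarith only [hFu1, hden, h4, h6])
    simp only [Complex.ofReal_one, one_mul, add_sub_cancel] at h1
    exact h1
  -- from `v₁` to the reference point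
  have a4 : ‖Lb Λ (vt ξ 1) u - Lb Λ v₁ u‖ ≤ 12 := by
    have e1 : vt ξ 1 = (⟨2, ξ⟩ : ℂ) := by
      unfold vt
      norm_num
    have h1 := lip_v hsF hΛ (v := v₁) (v' := vt ξ 1) (u := u) (ρ := 1) one_pos (by linarith only [hpi]) hu0
      (fun w hw => by
        rw [hv₁, e1] at hw
        obtain ⟨h2, h3, h4⟩ := sgb_seg (by norm_num) hw
        refine ⟨by linarith only [hu1, h3], by linarith only [h3], ?_, ?_⟩
        · refine le_trans ?_ (Complex.re_le_norm _)
          rw [Complex.sub_re]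
          linarith only [hu1, h3]
        · rw [h2, abs_sub_comm]
          linarith only [hu2', hpi])
    refine h1.trans ?_
    have h2 : vt ξ 1 - v₁ = ((-3 : ℝ) : ℂ) := by
      rw [e1, hv₁]
      apply Complex.ext
      · simp
        norm_num
      · simp
    rw [h2, Complex.norm_real, Real.norm_eq_abs, abs_of_neg (by norm_num)]
    norm_num
  have a5 : ‖v₁‖ ≤ 5 + |ξ| := by
    have h1 := Complex.norm_le_abs_re_add_abs_im v₁
    rw [hv₁re, hv₁im] at h1
    rwa [abs_of_pos (by norm_num : (0:ℝ) < 5)] at h1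
  have a6 : Lb Λ (vt ξ 1) u = (Lb Λ (vt ξ 1) u - Lb Λ v₁ u) + (Lb Λ v₁ u - Lb Λ v₁ u₁) +
      (Lb Λ v₁ u₁ - Lb Λ v₁ u₀) + (Lb Λ v₁ u₀ - v₁) + v₁ := by ring
  rw [a6]
  have b1 := norm_add_le ((Lb Λ (vt ξ 1) u - Lb Λ v₁ u) + (Lb Λ v₁ u - Lb Λ v₁ u₁) +
      (Lb Λ v₁ u₁ - Lb Λ v₁ u₀) + (Lb Λ v₁ u₀ - v₁)) v₁
  have b2 := norm_add_le ((Lb Λ (vt ξ 1) u - Lb Λ v₁ u) + (Lb Λ v₁ u - Lb Λ v₁ u₁) +
      (Lb Λ v₁ u₁ - Lb Λ v₁ u₀)) (Lb Λ v₁ u₀ - v₁)
  have b3 := norm_add_le ((Lb Λ (vt ξ 1) u - Lb Λ v₁ u) + (Lb Λ v₁ u - Lb Λ v₁ u₁))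
      (Lb Λ v₁ u₁ - Lb Λ v₁ u₀)
  have b4 := norm_add_le (Lb Λ (vt ξ 1) u - Lb Λ v₁ u) (Lb Λ v₁ u - Lb Λ v₁ u₁)
  linarith only [hA, a1, a2, a3, a4, a5, b1, b2, b3, b4]

end Pool.Agent.Helper26.G4
end
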