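import Pool.Agent.Helper24.K6.G03
import Pool.Agent.Helper24.K6.G07
import Pool.Agent.Helper24.K6.G10

/- Helper24.K6w.H12.G6.KeyW6 -/
section
/-!
# The key inequality with a gain proportional to the square of the real part of the direction
-/

set_option autoImplicit false
set_option linter.unusedVariables false

namespace Pool.Agent.Helper12.G6

open MeasureTheory Set Metric
open scoped Real
open Pool.Agent.Helper17.G3
open Pool.Agent.Helper17.G5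

/-- the directions -/
def Vd (e : ℝ) : Set ℂ := {v | ‖v‖ = 1 ∧ e ≤ v.re}

theorem exists_small {a b : ℝ} (ha : 0 ≤ a) (hb : 0 < b) : ∃ x : ℝ, 0 < x ∧ ∀ y : ℝ, 0 ≤ y →
    y ≤ x → y * a ≤ b := by
  refine ⟨b / (a + 1), by (clear * - hb ha; positivity), fun y hy h => ?_⟩
  calc y * a ≤ b / (a + 1) * (a + 1) :=
        mul_le_mul h (by (clear * -; linarith only [])) ha (by (clear * - hb ha; positivity))
    _ = b := by field_simp

/-- the key inequality in the `w`-plane -/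
theorem keyW6 {k : ℂ → ℝ} {Lk ρ kinf c1 c2 C2 : ℝ} (hW : Tu k Lk ρ kinf c1 c2 C2) :
    ∃ γ : ℝ, 0 < γ ∧ γ ≤ 1 / 2 ∧ ∀ e : ℝ, 0 < e → e ≤ 1 → ∀ A : ℝ, 1 ≤ A →
    ∃ lam m0 d0 : ℝ, 0 < lam ∧ lam ≤ 1 ∧ 0 < m0 ∧ m0 ≤ 1 ∧ 0 < d0 ∧
      d0 ≤ 1 / 4 ∧ d0 * (2 + A) ≤ 1 ∧ ∀ v ∈ Vd e, ∀ d : ℝ, 0 < d → d ≤ d0 → ∀ m : ℝ, 0 < m → m ≤ m0 →
      ∀ ζ : ℂ, ζ ≠ 0 → ∃ ν₁ : ℝ, 0 ≤ ν₁ ∧ ν₁ ≤ 1 ∧ ∃ H : ℂ → ℝ, Measurable H ∧ Integrable H ∧
        (∀ y, 0 ≤ H y) ∧ (∀ y, 11 + ρ ≤ ‖y‖ → H y = 0) ∧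
        (∀ y : ℂ, 4 * m ≤ ‖y‖ →
          hk y - 1 / 2 + mu k ν₁ ζ y + sh k m lam v ζ y + er A d m y ≤ H y) ∧
        ∫ y, H y ≤ (1 - γ * e ^ 2) * (π / 2) := by
  have hLk := hW.hL
  have hρ := hW.hρ
  have hc1 := hW.hc1
  have hc2 := hW.hc2
  have hC2 := hW.hC2
  have hπ := Real.pi_pos
  -- the multiplier
  obtain ⟨x1, hx1, hx1'⟩ := exists_small (a := Lk * ρ) (b := 1 / 16) (by (clear * - hLk hρ; positivity)) (by norm_num)
  obtain ⟨x2, hx2, hx2'⟩ := exists_small (a := 160 * π * (Lk * ρ) ^ 2) (b := c1) (by (clear * - hLk hρ; positivity)) hc1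
  obtain ⟨x3, hx3, hx3'⟩ := exists_small (a := 640 * π) (b := c1 / 4) (by positivity) (by positivity)
  obtain ⟨ν₁, hν, hν1, n1, n2, n3⟩ : ∃ ν₁ : ℝ, 0 < ν₁ ∧ ν₁ ≤ 1 / 32 ∧ ν₁ * (Lk * ρ) ≤ 1 / 16 ∧
      ν₁ * (160 * π * (Lk * ρ) ^ 2) ≤ c1 ∧ ν₁ * (640 * π) ≤ c1 / 4 := by
    have h0 : 0 < min (1 / 32) (min x1 (min x2 x3)) := by (clear * - hx1 hx2 hx3; positivity)
    refine ⟨min (1 / 32) (min x1 (min x2 x3)), h0, min_le_left _ _, hx1' _ h0.le ?_,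
      hx2' _ h0.le ?_, hx3' _ h0.le ?_⟩
    · exact (min_le_right _ _).trans (min_le_left _ _)
    · exact (min_le_right _ _).trans ((min_le_right _ _).trans (min_le_left _ _))
    · exact (min_le_right _ _).trans ((min_le_right _ _).trans (min_le_right _ _))
  -- the slope of `lam`
  obtain ⟨K, hK⟩ : ∃ K : ℝ, K = C2 ^ 2 / (8 * (ν₁ * c1)) + 45 * π * Lk ^ 2 := ⟨_, rfl⟩
  have hK0 : 0 ≤ K := by rw [hK]; (clear * - hν hc1 hLk; positivity)
  obtain ⟨y1, hy1, hy1'⟩ := exists_small (a := Lk) (b := 1 / 24) hLk.le (by norm_num)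
  obtain ⟨y2, hy2, hy2'⟩ := exists_small (a := K) (b := c2 / 8) hK0 (by positivity)
  obtain ⟨y3, hy3, hy3'⟩ := exists_small (a := Lk) (b := 2 * ν₁) hLk.le (by positivity)
  obtain ⟨y4, hy4, hy4'⟩ := exists_small (a := 4 * π * Lk) (b := ν₁ * (c1 / 4)) (by positivity)
    (by (clear * - hν hc1; positivity))
  obtain ⟨y5, hy5, hy5'⟩ := exists_small (a := 16 * π * (Lk * (1 + 2 * ρ) ^ 2))
    (b := ν₁ * (c1 / 4)) (by positivity) (by positivity)
  obtain ⟨κ, hκ, hκ1, k1, k2, k3, k4, k5⟩ : ∃ κ : ℝ, 0 < κ ∧ κ ≤ 1 ∧ κ * Lk ≤ 1 / 24 ∧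
      κ * K ≤ c2 / 8 ∧ κ * Lk ≤ 2 * ν₁ ∧ κ * (4 * π * Lk) ≤ ν₁ * (c1 / 4) ∧
      κ * (16 * π * (Lk * (1 + 2 * ρ) ^ 2)) ≤ ν₁ * (c1 / 4) := by
    have h0 : 0 < min 1 (min y1 (min y2 (min y3 (min y4 y5)))) := by (clear * - hy1 hy2 hy3 hy4 hy5; positivity)
    have a1 : min 1 (min y1 (min y2 (min y3 (min y4 y5)))) ≤ min y1 (min y2 (min y3 (min y4 y5))) :=
      min_le_right _ _
    have a2 : min y1 (min y2 (min y3 (min y4 y5))) ≤ min y2 (min y3 (min y4 y5)) := min_le_right _ _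
    have a3 : min y2 (min y3 (min y4 y5)) ≤ min y3 (min y4 y5) := min_le_right _ _
    have a4 : min y3 (min y4 y5) ≤ min y4 y5 := min_le_right _ _
    refine ⟨min 1 (min y1 (min y2 (min y3 (min y4 y5)))), h0, min_le_left _ _, hy1' _ h0.le ?_,
      hy2' _ h0.le ?_, hy3' _ h0.le ?_, hy4' _ h0.le ?_, hy5' _ h0.le ?_⟩
    · exact a1.trans (min_le_left _ _)
    · exact a1.trans (a2.trans (min_le_left _ _))
    · exact a1.trans (a2.trans (a3.trans (min_le_left _ _)))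
    · exact a1.trans (a2.trans (a3.trans (a4.trans (min_le_left _ _))))
    · exact a1.trans (a2.trans (a3.trans (a4.trans (min_le_right _ _))))
  -- the gain
  obtain ⟨g, hg, hg1, hg2, hg3⟩ : ∃ g : ℝ, 0 < g ∧ g ≤ 1 ∧ g ≤ κ * c2 / 4 ∧
      g ≤ ν₁ * (c1 / 4) / 2 :=
    ⟨min 1 (min (κ * c2 / 4) (ν₁ * (c1 / 4) / 2)), by (clear * - hκ hc2 hν hc1; positivity), min_le_left _ _,
      (min_le_right _ _).trans (min_le_left _ _), (min_le_right _ _).trans (min_le_right _ _)⟩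
  refine ⟨g / 4, by (clear * - hg; positivity), by linarith only [hg1], ?_⟩
  intro e he he1 A hA
  have hA9 : 9 ≤ (2 + A) ^ 2 := by
    have := pow_le_pow_left₀ (by norm_num : (0 : ℝ) ≤ 3) (by linarith only [hA] : 3 ≤ 2 + A) 2
    linarith only [this]
  have hAA : 2 + A ≤ (2 + A) ^ 2 := le_self_pow₀ (by linarith only [hA]) (by norm_num)
  have hee : 0 < e ^ 2 := by (clear * - he; positivity)
  have hee1 : e ^ 2 ≤ 1 := pow_le_one₀ he.le he1
  have hge : 0 < g * e ^ 2 := by (clear * - hg he; positivity)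
  have hge1 : g * e ^ 2 ≤ 1 := mul_le_one₀ hg1 hee.le hee1
  set u : ℝ := g * e ^ 2 / (1200 * (2 + A) ^ 2) with hu
  have hu0 : 0 < u := by (clear * - hg he hA; positivity)
  have hug : 1200 * (2 + A) ^ 2 * u = g * e ^ 2 := by
    rw [hu]
    (clear * - hA he hg; field_simp)
  have hu1 : (2 + A) ^ 2 * u ≤ 1 / 1200 := by linarith only [hge1, hug]
  have hu2 : u ≤ 1 / 1200 / 9 := by
    have h1 := mul_le_mul_of_nonneg_right hA9 hu0.le
    rw [le_div_iff₀ (by norm_num)]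
    linarith only [hu1, h1]
  obtain ⟨z1, hz1, hz1'⟩ := exists_small (a := C2) (b := c2 * e / 4) hC2 (by (clear * - hc2 he; positivity))
  obtain ⟨m0, hm0, hm01, hm02, hm03, hm04, hm05⟩ : ∃ m0 : ℝ, 0 < m0 ∧ m0 ≤ 1 ∧ m0 ≤ 1 / 12 ∧
      m0 ≤ u ∧ m0 ≤ u ^ 2 ∧ m0 ≤ z1 := by
    have a0 : 0 < min (1 / 12) (min u (min (u ^ 2) z1)) := by (clear * - hg he hA hz1; positivity)
    have a1 : min (1 / 12) (min u (min (u ^ 2) z1)) ≤ min u (min (u ^ 2) z1) := min_le_right _ _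
    have a2 : min u (min (u ^ 2) z1) ≤ min (u ^ 2) z1 := min_le_right _ _
    refine ⟨min (1 / 12) (min u (min (u ^ 2) z1)), a0, (min_le_left _ _).trans (by norm_num),
      min_le_left _ _, a1.trans (min_le_left _ _), a1.trans (a2.trans (min_le_left _ _)),
      a1.trans (a2.trans (min_le_right _ _))⟩
  set lam : ℝ := κ * e with hlam
  have hl : 0 < lam := by (clear * - hκ he; positivity)
  have hlκ : lam ≤ κ := mul_le_of_le_one_right hκ.le he1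
  have hl1 : lam ≤ 1 := hlκ.trans hκ1
  have hlm : ∀ {x y : ℝ}, 0 ≤ x → κ * x ≤ y → lam * x ≤ y := fun hx h =>
    (mul_le_mul_of_nonneg_right hlκ hx).trans h
  refine ⟨lam, m0, u, hl, hl1, hm0, hm01, hu0, by (clear * - hu2; linarith only [hu2]), ?_, ?_⟩
  · have h1 := mul_le_mul_of_nonneg_right hAA hu0.le
    rw [mul_comm]
    linarith only [hu1, h1]
  intro v hv d hd hd0 m hm hmm ζ hζ
  have hs2 : m ^ (1 / 2 : ℝ) ≤ u := by
    calc m ^ (1 / 2 : ℝ) ≤ (u ^ 2) ^ (1 / 2 : ℝ) :=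
          Real.rpow_le_rpow (by (clear * - hm; positivity)) (by linarith only [hm04, hmm]) (by norm_num)
      _ = u := by
          rw [← Real.rpow_natCast, ← Real.rpow_mul hu0.le]
          norm_num
  have hdm : (2 + A) ^ 2 * (d + m) ≤ 1 := by
    have : (2 + A) ^ 2 * (d + m) ≤ (2 + A) ^ 2 * (u + u) :=
      mul_le_mul_of_nonneg_left (by linarith only [hm03, hd0, hmm]) (by (clear * - hA; positivity))
    linarith only [hu1, this]
  have hfin : ∀ G : ℝ, g * e ^ 2 ≤ G → π / 2 - G + 300 * (2 + A) ^ 2 * (d + m ^ (1 / 2 : ℝ)) ≤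
      (1 - g / 4 * e ^ 2) * (π / 2) := by
    intro G hG
    have e1 : 300 * (2 + A) ^ 2 * (d + m ^ (1 / 2 : ℝ)) ≤ 300 * (2 + A) ^ 2 * (u + u) :=
      mul_le_mul_of_nonneg_left (by linarith only [hd0, hs2]) (by (clear * - hA; positivity))
    have e2 : g / 4 * e ^ 2 * (π / 2) ≤ g * e ^ 2 / 2 := by
      have := mul_le_mul_of_nonneg_left Real.pi_le_four hge.le
      linarith only [this]
    (clear * - hug hG e1 e2; linarith only [hug, hG, e1, e2])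
  rcases le_total ‖1 / ζ - 1‖ (1 / 2) with h | h
  · obtain ⟨H, g0, g1, g2', g3', g4, g5⟩ := case_near hW hv.1 hv.2 hA hd hm hdm (by linarith only [hm02, hmm]) hl
      hν n1 (hlm hLk.le k1) (by linarith only [n2]) (by
        rw [← hK]
        have h1 : lam * K = κ * K * e := by rw [hlam]; ring
        rw [h1]
        have h2 := mul_le_mul_of_nonneg_right k2 he.le
        linarith only [h2]) (by
        have := hz1' m hm.le (hmm.trans hm05)
        linarith only [this]) hζ h (R := 11 + ρ) (by linarith only [hρ])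
    refine ⟨ν₁, hν.le, by linarith only [hν1], H, g0, g1, g2', g3', g4, g5.trans (hfin _ ?_)⟩
    have h1 : lam * (c2 * e) / 4 = κ * c2 / 4 * e ^ 2 := by rw [hlam]; ring
    rw [h1]
    exact mul_le_mul_of_nonneg_right hg2 hee.le
  · have hF1 := hW.F1 ζ hζ (1 / 2) (by norm_num) (by norm_num) h
    obtain ⟨H, g0, g1, g2', g3', g4, g5⟩ := case_far hW (c1 := c1 / 4) (by positivity) hv.1 hA hd hm
      hdm hl hν hν1 (by linarith only [n3]) (hlm hLk.le k3) (by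
        have := hlm (x := 4 * π * Lk) (by positivity) k4
        linarith only [this]) (by
        have := hlm (x := 16 * π * (Lk * (1 + 2 * ρ) ^ 2)) (by positivity) k5
        (clear * - this; linarith only [this])) hζ (by
        refine hF1.trans (le_of_eq ?_)
        ring) (R := 11 + ρ) le_rfl
    refine ⟨ν₁, hν.le, by (clear * - hν1; linarith only [hν1]), H, g0, g1, g2', g3', g4, g5.trans (hfin _ ?_)⟩
    have : g * e ^ 2 ≤ g * 1 := mul_le_mul_of_nonneg_left hee1 hg.le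
    linarith only [hg3, this]

end Pool.Agent.Helper12.G6
end

/- Helper24.K6w.H26.G5.Defs5 -/
section
/-!
# Project G5 (MP_16b0ee_an): strict second order bound near `2` in all directions except the imaginary ones

`β = δ b`. `Ph`: the density of the step for the functional with the template `κ`;
`Tk`: the template with its key inequality (helper17, helper33). `Fz5`: frozen sequences with flags
(`χ = 1`: moving, `χ = 0`: frozen; a switch costs `s`). `V5`: the functional (infimum over the scale and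
direction `ζ` of the template). `mm5`: the constant `m / δ`, smaller by the factor `1 - c₀`.
-/

set_option autoImplicit false

namespace Pool.Agent.Helper26.G5

open MeasureTheory Set
open scoped Real
open Pool.Agent.Helper90.G2 (Bx Wn Fn ar ch Cen chi)
open Pool.Agent.Helper26.G4 (vt Br Lb wd al rr w0 Bad cn vk lv KN Sa Sc mm KK C9)

/-- density of the step: `z = F u - F v`, `s = F v' - F v`, `ζ` the position of the template,
`ω s / (2 m)` its extremal position -/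
noncomputable def Ph (κ : ℂ → ℝ) (ω : ℂ) (d b m ν : ℝ) (s ζ z : ℂ) : ℝ :=
  Real.exp (d * ((ω * s / z).re + ‖s‖ ^ 2 / ‖z‖ ^ 2)) * (1 - d * b * κ ((z - s) / ζ)) -
    Real.exp (d * m) * (1 - d * b * κ (z / ζ)) +
      ν * (d * b) * (κ (z / ζ) - κ (z / (ω * s / (2 * m))))

/-- template with the key inequality -/
structure Tk (κ : ℂ → ℝ) (ω : ℂ) (b c₀ B Cc m₁ : ℝ) : Prop where
  meas : Measurable κ
  bd : ∀ z : ℂ, |κ z| ≤ 1
  hb : 0 < b
  hb1 : b ≤ 1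
  hc : 0 < c₀
  hc1 : c₀ ≤ 1 / 2
  hB : 0 ≤ B
  hCc : 1 ≤ Cc
  hm : 0 < m₁
  hm1 : m₁ ≤ 1 / 4
  key : ∀ d m : ℝ, 0 < d → d ≤ m₁ → 0 < m → m ≤ m₁ → ∀ s ζ : ℂ, s ≠ 0 → ζ ≠ 0 →
    ∃ ν : ℝ, 0 ≤ ν ∧ ν ≤ B ∧ ∃ H : ℂ → ℝ, Measurable H ∧ Integrable H ∧ (∀ z, 0 ≤ H z) ∧
      (∀ z, Cc * ‖s‖ / m ≤ ‖z‖ → H z = 0) ∧
      (∀ z, 2 * ‖s‖ ≤ ‖z‖ → Ph κ ω d b m ν s ζ z ≤ d * H z) ∧
      ∫ z, H z ≤ (1 - c₀) * (π * ‖s‖ ^ 2 / (4 * m))

/-- frozen sequence with flags -/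
structure Fz5 (a : ℕ → ℝ) (bad : ℕ → Prop) (e s : ℝ) (K : ℕ) (y χ : ℕ → ℝ) : Prop where
  flag : ∀ k, χ k = 0 ∨ χ k = 1
  zero : y 0 = a 0
  last : y K = a K
  step : ∀ k < K, (χ k = 0 ∧ χ (k + 1) = 0 ∧ y (k + 1) ≤ y k + e) ∨ y (k + 1) + s ≤ y k + e ∨
    (¬ bad k ∧ χ k = 1 ∧ χ (k + 1) = 1 ∧ y k = a k ∧ y (k + 1) = a (k + 1))

/-- density of the functional -/
noncomputable def Dn (F : ℂ → ℂ) (y χ : ℂ → ℕ → ℝ) (κ : ℂ → ℝ) (β : ℝ) (k : ℕ) (p ζ u : ℂ) : ENNReal :=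
  ENNReal.ofReal (‖deriv F u‖ ^ 2 * (Real.exp (y u k) * (1 - β * χ u k * κ ((F u - p) / ζ))))

/-- the functional: the set `S` seen from the point `F v` at level `k` -/
noncomputable def V5 (F : ℂ → ℂ) (y χ : ℂ → ℕ → ℝ) (κ : ℂ → ℝ) (β : ℝ) (k : ℕ) (v : ℂ) (S : Set ℂ) :
    ENNReal :=
  ⨅ ζ : {ζ : ℂ // ζ ≠ 0}, ∫⁻ u in S, Dn F y χ κ β k (F v) ζ u

/-- the functional of the box number `d` of generation `k` -/
noncomputable def Vn (F : ℂ → ℂ) (y χ : ℂ → ℕ → ℝ) (κ : ℂ → ℝ) (β : ℝ) (N : ℕ) (ξ : ℝ) (k d : ℕ) :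
    ENNReal :=
  V5 F y χ κ β k (vt (ch (N ^ k) ξ 1 d) (1 / (N : ℝ) ^ k)) (Bx (ch (N ^ k) ξ 1 d) (1 / (N : ℝ) ^ k))

/-- the plain functional of a set -/
noncomputable def Vq (F : ℂ → ℂ) (y : ℂ → ℕ → ℝ) (k : ℕ) (S : Set ℂ) : ENNReal :=
  ∫⁻ u in S, ENNReal.ofReal (‖deriv F u‖ ^ 2 * Real.exp (y u k))

/-- bound of the density in the near part, divided by `δ` -/
noncomputable def Bn (N : ℕ) (B : ℝ) : ℝ := 40 * N + 4 + 4 * B

/-- near part constant -/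
noncomputable def K5 (N : ℕ) (B : ℝ) : ℝ := 4 * π * KN N ^ 3 * Bn N B

/-- the error of the step -/
noncomputable def Er5 (c₀ m s r Bb : ℝ) : ℝ := π * r ^ 2 * Bb + (1 - c₀) * (π * s ^ 2 / (4 * m))

/-- the constant `m / δ` -/
noncomputable def mm5 (c₀ S ε : ℝ) : ℝ := (1 - c₀) * mm S ε

/-- the cost of a switch, divided by `δ` -/
noncomputable def sw (b B : ℝ) : ℝ := 8 * (1 + B) * b

/-- the number of windows over which a bad stretch extends -/
noncomputable def Lw5 (Ca b B ε δ : ℝ) (M : ℕ) : ℕ :=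
  ⌈(Ca * (1 + Real.log ((2 ^ M : ℕ) : ℝ)) + 2 * sw b B) / (ε * δ * M)⌉₊ + 1

/-- smallness of `δ`, `N = 2^M` -/
structure Sm5 (Ca b c₀ B Cc m₁ : ℝ) (M : ℕ) (κ ε δ : ℝ) : Prop where
  pos : 0 < δ
  le : δ ≤ ε / 4
  m1 : δ * (1 + KK (2 ^ M) ε + mm (Sc κ (2 ^ M)) ε + mm (Sa (2 ^ M)) ε) ≤ m₁
  s1 : δ * (10 * ((2 ^ M : ℕ) : ℝ) + Real.log (2 * Cc * KN (2 ^ M) / δ + KN (2 ^ M))) ≤ ε
  s2 : δ * KN (2 ^ M) ≤ ε / 4
  s3 : δ * K5 (2 ^ M) B ≤ ε / (4 * ((2 ^ M : ℕ) : ℝ))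
  s4 : δ * (1 + B) ≤ 1 / 8
  s6 : 8 * δ ^ 2 * KK (2 ^ M) ε ^ 2 ≤ ε
  s7 : Ca * (1 + √((Lw5 Ca b B ε δ M + 1) * Real.log ((2 ^ M : ℕ) : ℝ) *
    √(2 * Cc * KN (2 ^ M) / δ))) ≤ ε / δ

/-- the family of the frozen sequences of all points of the top box -/
def Yf5 (F : ℂ → ℂ) (Λ : ℂ → ℂ → ℂ) (M : ℕ) (ξ ε b B Cc : ℝ) (τ : ℂ) (y χ : ℂ → ℕ → ℝ) : Prop :=
  ∀ u ∈ Bx ξ 1, Fz5 (fun k => al Λ τ (vk (2 ^ M) ξ k u) u)
    (fun k => Bad F Λ (ε / ‖τ‖) (2 * Cc * KN (2 ^ M) / ‖τ‖) (vk (2 ^ M) ξ k u) u)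
    (ε * ‖τ‖ ^ 2 * M) (sw b B * ‖τ‖) (lv (2 ^ M) u) (y u) (χ u)

end Pool.Agent.Helper26.G5
end

/- Helper24.K6w.H12.G6.Tk6 -/
section
/-!
# Templates with a gain proportional to the square of the real part of the direction
-/

set_option autoImplicit false
set_option linter.unusedVariables false

namespace Pool.Agent.Helper12.G6

open MeasureTheory Set Metric
open scoped Real
open Pool.Agent.Helper17.G3
open Pool.Agent.Helper17.G5

/-- the key inequality in the `z`-plane -/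
theorem keyZ6 {k : ℂ → ℝ} {Lk ρ kinf c1 c2 C2 : ℝ} (hW : Tu k Lk ρ kinf c1 c2 C2) :
    ∃ γ : ℝ, 0 < γ ∧ γ ≤ 1 / 2 ∧ ∀ e : ℝ, 0 < e → e ≤ 1 → ∀ A : ℝ, 1 ≤ A →
    ∃ b m0 B d0 Cc : ℝ, 0 < b ∧ b ≤ 1 ∧ 0 < m0 ∧ m0 ≤ 1 ∧ 0 < B ∧
      0 < d0 ∧ d0 ≤ 1 / 4 ∧ 1 ≤ Cc ∧
      ∀ om : ℂ, (starRingEnd ℂ) om ∈ Vd e → ∀ d : ℝ, 0 < d → d ≤ d0 → ∀ m : ℝ, 0 < m → m ≤ m0 →
      ∀ s : ℂ, s ≠ 0 → ∀ ζ : ℂ, ζ ≠ 0 →
      ∃ ν : ℝ, 0 ≤ ν ∧ ν ≤ B * m ∧ ∃ H : ℂ → ℝ, Measurable H ∧ Integrable H ∧ (∀ z, 0 ≤ H z) ∧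
        (∀ z : ℂ, 2 * ‖s‖ ≤ ‖z‖ →
          Real.exp (d * ((om * s / z).re + A * (‖s‖ ^ 2 / ‖z‖ ^ 2))) *
              (1 - d * b * k ((z - s) / ζ)) -
            Real.exp (d * m) * (1 - d * b * k (z / ζ)) +
            ν * (d * b) * (k (z / ζ) - k (z / (om * s / (2 * m)))) ≤ d * H z) ∧
        (∀ z : ℂ, Cc * ‖s‖ / m ≤ ‖z‖ → H z = 0) ∧
        ∫ z, H z ≤ (1 - γ * e ^ 2) * (π * ‖s‖ ^ 2 / (4 * m)) := by
  obtain ⟨γ, hγ, hγ1, keyW⟩ := keyW6 hW
  refine ⟨γ, hγ, hγ1, fun e he he1 A hA => ?_⟩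
  obtain ⟨lam, m0, d0, hl, hl1, hm0, hm01, hd0, hd01, hdA, key⟩ := keyW e he he1 A hA
  have hρ := hW.hρ
  refine ⟨lam, m0, 2 / lam, d0, 11 + ρ, hl, hl1, hm0, hm01, by (clear * - hl; positivity), hd0, hd01,
    by (clear * - hρ; linarith only [hρ]), ?_⟩
  intro om hom d hd hd1 m hm hm1 s hs ζ hζ
  set v := (starRingEnd ℂ) om with hv
  have hvn : ‖v‖ = 1 := hom.1
  have homn : ‖om‖ = 1 := by
    rw [hv, Complex.norm_conj] at hvn
    exact hvn
  have hov : om * v = 1 := by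
    rw [hv, Complex.mul_conj, Complex.normSq_eq_norm_sq, homn]
    norm_num
  have hom0 : om ≠ 0 := by
    rw [← norm_pos_iff, homn]
    exact one_pos
  have hmc : (m : ℂ) ≠ 0 := Complex.ofReal_ne_zero.mpr hm.ne'
  set a : ℂ := om * s / (2 * m) with ha
  have ha0 : a ≠ 0 := div_ne_zero (mul_ne_zero hom0 hs) (mul_ne_zero two_ne_zero hmc)
  have han : ‖a‖ = ‖s‖ / (2 * m) := by
    rw [ha, norm_div, norm_mul, norm_mul, homn, one_mul, Complex.norm_real, Real.norm_eq_abs,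
      abs_of_pos hm, Complex.norm_ofNat]
  have hsn : 0 < ‖s‖ := norm_pos_iff.mpr hs
  have hsa : s = a * (((2 * m : ℝ) : ℂ) * v) := by
    rw [ha]
    push_cast
    field_simp
    exact hov.symm
  obtain ⟨ν₁, hν, hν1, H, g0, g1, g2, g3, g4, g5⟩ := key v hom d hd hd1 m hm hm1 (ζ / a)
    (div_ne_zero hζ ha0)
  refine ⟨ν₁ * (2 * m) / lam, by (clear * - hν hm hl; positivity), ?_, fun z => 2 * m * H (z / a), ?_, ?_, ?_, ?_, ?_, ?_⟩
  · have : ν₁ * (2 * m) / lam ≤ 1 * (2 * m) / lam := by (clear * - hν1 hm hl; gcongr)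
    refine this.trans (le_of_eq ?_)
    ring
  · exact (g0.comp (measurable_id.div_const a)).const_mul _
  · exact (integrable_div g1 ha0).const_mul _
  · intro z
    have := g2 (z / a)
    (clear * - hm this; positivity)
  · intro z hz
    have hz0 : 0 < ‖z‖ := by linarith only [hsn, hz]
    have hz0' : z ≠ 0 := norm_pos_iff.mp hz0
    set w := z / a with hw
    have hwn : ‖w‖ = 2 * m * ‖z‖ / ‖s‖ := by
      rw [hw, norm_div, han]
      (clear * - hm hs hz0'; field_simp)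
    have hw4 : 4 * m ≤ ‖w‖ := by
      rw [hwn, le_div_iff₀ hsn]
      (clear * - hm hz; nlinarith only [hm, hz])
    have hw0 : 0 < ‖w‖ := by linarith only [hm, hw4]
    have hw0' : w ≠ 0 := norm_pos_iff.mp hw0
    have e1 : z / ζ = w / (ζ / a) := by
      rw [hw]
      field_simp
    have e2 : (z - s) / ζ = (w - ((2 * m : ℝ) : ℂ) * v) / (ζ / a) := by
      rw [hw]
      nth_rewrite 1 [hsa]
      (clear * - ha0 hζ; field_simp)
    have e3 : (om * s / z).re + A * (‖s‖ ^ 2 / ‖z‖ ^ 2) =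
        2 * m * hk w + A * (4 * m ^ 2 / ‖w‖ ^ 2) := by
      have e4 : om * s / z = ((2 * m : ℝ) : ℂ) * w⁻¹ := by
        rw [hw, ha]
        push_cast
        field_simp
      have e5 : hk w = (w⁻¹).re := by
        rw [hk, Complex.inv_re, Complex.normSq_eq_norm_sq]
      rw [e4, Complex.re_ofReal_mul, e5, hwn]
      congr 2
      field_simp
      ring
    have h1 := pt hA hd (by (clear * - hd1 hd hdA; nlinarith only [hdA, hd, hd1])) hm hl.le hl1 (hW.bd (w / (ζ / a)))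
      (hW.bd ((w - ((2 * m : ℝ) : ℂ) * v) / (ζ / a))) hw4
    have h2 := g4 w hw4
    rw [e1, e2, e3]
    have h3 : ν₁ * (2 * m) / lam * (d * lam) * (k (w / (ζ / a)) - k w) =
        d * (2 * m) * mu k ν₁ (ζ / a) w := by
      rw [mu]
      (clear * - hl hd hm; field_simp)
    rw [h3]
    have h4 : d * (2 * m) * (hk w - 1 / 2 + mu k ν₁ (ζ / a) w + sh k m lam v (ζ / a) w +
        er A d m w) ≤ d * (2 * m) * H w := mul_le_mul_of_nonneg_left h2 (by (clear * - hd hm; positivity))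
    have h5 : d * (2 * m) * (hk w - 1 / 2 + lam / (2 * m) * (k (w / (ζ / a)) -
        k ((w - ((2 * m : ℝ) : ℂ) * v) / (ζ / a))) +
        (2 * A * m / ‖w‖ ^ 2 + d * ((2 + A) ^ 2 / 2 * (1 / ‖w‖) + 1 / 2))) +
        d * (2 * m) * mu k ν₁ (ζ / a) w = d * (2 * m) * (hk w - 1 / 2 + mu k ν₁ (ζ / a) w +
          sh k m lam v (ζ / a) w + er A d m w) := by
      rw [sh, er]
      ring
    (clear * - h1 h4 h5; linarith)
  · intro z hz
    have : H (z / a) = 0 := by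
      refine g3 _ ?_
      rw [norm_div, han, le_div_iff₀ (by (clear * - hs hm; positivity))]
      rw [div_le_iff₀ hm] at hz
      have : (11 + ρ) * (‖s‖ / (2 * m)) = (11 + ρ) * ‖s‖ / (2 * m) := by ring
      rw [this, div_le_iff₀ (by (clear * - hm; positivity))]
      (clear * - hsn hz hρ; nlinarith only [hρ, hsn, hz])
    show 2 * m * H (z / a) = 0
    rw [this, mul_zero]
  · rw [integral_const_mul, int_div H ha0, han]
    calc 2 * m * ((‖s‖ / (2 * m)) ^ 2 * ∫ w, H w) ≤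
        2 * m * ((‖s‖ / (2 * m)) ^ 2 * ((1 - γ * e ^ 2) * (π / 2))) := by
          refine mul_le_mul_of_nonneg_left ?_ (by (clear * - hm; positivity))
          exact mul_le_mul_of_nonneg_left g5 (by (clear * - hs hm; positivity))
      _ = (1 - γ * e ^ 2) * (π * ‖s‖ ^ 2 / (4 * m)) := by
          field_simp
          ring

open Pool.Agent.Helper26.G5 (Tk) in
theorem tk6 : ∃ γ : ℝ, 0 < γ ∧ γ ≤ 1 / 2 ∧ ∀ e : ℝ, 0 < e → e ≤ 1 →
    ∃ (κ : ℂ → ℝ) (b B Cc m₁ : ℝ), (0 < b ∧ b ≤ 1 ∧ 0 ≤ B ∧ 1 ≤ Cc ∧ 0 < m₁) ∧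
    ∀ ω : ℂ, ‖ω‖ = 1 → e ≤ ω.re → Tk κ ω b (γ * e ^ 2) B Cc m₁ := by
  obtain ⟨κ, Lk, ρ, kinf, c1, c2, C2, hW⟩ := exists_tu
  obtain ⟨γ, hγ, hγ1, hkey⟩ := keyZ6 hW
  refine ⟨γ, hγ, hγ1, fun e he he1 => ?_⟩
  obtain ⟨b, m0, B, d0, Cc, hb, hb1, hm0, hm01, hB, hd0, hd01, hCc, key⟩ := hkey e he he1 1 le_rfl
  have hm : 0 < min (min m0 d0) (1 / 4) := by (clear * - hm0 hd0; positivity)
  have h1 : min (min m0 d0) (1 / 4) ≤ m0 := (min_le_left _ _).trans (min_le_left _ _)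
  have h2 : min (min m0 d0) (1 / 4) ≤ d0 := (min_le_left _ _).trans (min_le_right _ _)
  have h3 : min (min m0 d0) (1 / 4) ≤ 1 / 4 := min_le_right _ _
  have he2 : 0 < e ^ 2 := by (clear * - he; positivity)
  have he3 : e ^ 2 ≤ 1 := pow_le_one₀ he.le he1
  refine ⟨κ, b, B, Cc, min (min m0 d0) (1 / 4), ⟨hb, hb1, hB.le, hCc, hm⟩,
    fun ω hω hre => ⟨hW.meas, hW.bd, hb, hb1, by positivity, ?_, hB.le, hCc, hm, h3, ?_⟩⟩
  · nlinarith only [hγ1, he, he1]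
  intro d m hd hd1 hm' hm1 s ζ hs hζ
  have hv : (starRingEnd ℂ) ω ∈ Vd e :=
    ⟨by rw [Complex.norm_conj]; exact hω, by rw [Complex.conj_re]; exact hre⟩
  obtain ⟨ν, hν, hν1, H, g0, g1, g2, g3, g4, g5⟩ :=
    key ω hv d hd (hd1.trans h2) m hm' (hm1.trans h1) s hs ζ hζ
  refine ⟨ν, hν, hν1.trans (mul_le_of_le_one_right hB.le ((hm1.trans h1).trans hm01)), H, g0, g1, g2,
    g4, fun z hz => ?_, g5⟩
  have := g3 z hz
  rw [one_mul] at this
  exact this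

end Pool.Agent.Helper12.G6
end

/- Helper24.K6w.H26.G5.Fun5 -/
section
/-!
# G5-FUN: elementary facts on the functional

`1 - β ≤ 1 - β χ κ ≤ 1 + β`. `V5_add`: for every `ζ` the integral over the large set is at least the sum
over disjoint measurable parts (`lintegral_union` needs no measurability of the integrand), each at least
its infimum. `inf_arg`: let `v = ⨅ J < ⊤`, `η > 0`, `J i ≤ v + η`; `J' i + ν v ≤ J' i + ν J j ≤ (E0 + ν) (v + η) + E`,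
subtract `ν v` (finite): `⨅ J' ≤ E0 v + (E0 + B) η + E`, `η → 0`.
-/

set_option autoImplicit false

namespace Pool.Agent.Helper26.G5

open MeasureTheory Set
open scoped Real
open Pool.Agent.Helper90.G2 (Bx Wn Fn ar ch Cen chi)
open Pool.Agent.Helper26.G4 (vt Br Lb wd al rr w0 Bad cn vk lv KN Sa Sc mm KK C9 Sg)

theorem V5_le {F : ℂ → ℂ} {y χ : ℂ → ℕ → ℝ} {κ : ℂ → ℝ} {β : ℝ} {k : ℕ} {v : ℂ} {S : Set ℂ} {ζ : ℂ}
    (hζ : ζ ≠ 0) : V5 F y χ κ β k v S ≤ ∫⁻ u in S, Dn F y χ κ β k (F v) ζ u := by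
  unfold V5
  exact iInf_le (fun ζ : {ζ : ℂ // ζ ≠ 0} => ∫⁻ u in S, Dn F y χ κ β k (F v) ζ u) ⟨ζ, hζ⟩

private theorem fac {β c q : ℝ} (hβ : 0 ≤ β) (hq : |q| ≤ 1) (hc : c = 0 ∨ c = 1) :
    1 - β ≤ 1 - β * c * q ∧ 1 - β * c * q ≤ 1 + β := by
  have h := abs_le.1 hq
  rcases hc with h0 | h1
  · subst h0
    constructor <;> (clear * - hβ; linarith only [hβ])
  · subst h1
    constructor <;> (clear * - hβ h; nlinarith only [hβ, h])

theorem V5_up {F : ℂ → ℂ} {y χ : ℂ → ℕ → ℝ} {κ : ℂ → ℝ} {β : ℝ} {k : ℕ} {v : ℂ} {S : Set ℂ}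
    (hS : MeasurableSet S) (hβ : 0 ≤ β) (hκ : ∀ z, |κ z| ≤ 1) (hχ : ∀ u ∈ S, χ u k = 0 ∨ χ u k = 1) :
    V5 F y χ κ β k v S ≤ ENNReal.ofReal (1 + β) * Vq F y k S := by
  refine (V5_le (ζ := 1) one_ne_zero).trans ?_
  unfold Vq
  rw [← lintegral_const_mul' _ _ ENNReal.ofReal_ne_top]
  refine setLIntegral_mono' hS fun u hu => ?_
  unfold Dn
  rw [← ENNReal.ofReal_mul (by linarith only [hβ])]
  apply ENNReal.ofReal_le_ofReal
  have h := (fac hβ (hκ ((F u - F v) / 1)) (hχ u hu)).2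
  have h2 : 0 ≤ ‖deriv F u‖ ^ 2 * Real.exp (y u k) :=
    mul_nonneg (by (clear * -; positivity)) (Real.exp_pos _).le
  calc ‖deriv F u‖ ^ 2 * (Real.exp (y u k) * (1 - β * χ u k * κ ((F u - F v) / 1)))
      = (‖deriv F u‖ ^ 2 * Real.exp (y u k)) * (1 - β * χ u k * κ ((F u - F v) / 1)) := by ring
    _ ≤ (‖deriv F u‖ ^ 2 * Real.exp (y u k)) * (1 + β) := mul_le_mul_of_nonneg_left h h2
    _ = (1 + β) * (‖deriv F u‖ ^ 2 * Real.exp (y u k)) := by ring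

theorem V5_low {F : ℂ → ℂ} {y χ : ℂ → ℕ → ℝ} {κ : ℂ → ℝ} {β : ℝ} {k : ℕ} {v : ℂ} {S : Set ℂ}
    (hS : MeasurableSet S) (hβ : 0 ≤ β) (hβ1 : β ≤ 1) (hκ : ∀ z, |κ z| ≤ 1)
    (hχ : ∀ u ∈ S, χ u k = 0 ∨ χ u k = 1) :
    ENNReal.ofReal (1 - β) * Vq F y k S ≤ V5 F y χ κ β k v S := by
  unfold V5
  refine le_iInf fun ζ => ?_
  unfold Vq
  rw [← lintegral_const_mul' _ _ ENNReal.ofReal_ne_top]
  refine setLIntegral_mono' hS fun u hu => ?_
  unfold Dn
  rw [← ENNReal.ofReal_mul (by linarith only [hβ1])]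
  apply ENNReal.ofReal_le_ofReal
  have h := (fac hβ (hκ ((F u - F v) / ζ)) (hχ u hu)).1
  have h2 : 0 ≤ ‖deriv F u‖ ^ 2 * Real.exp (y u k) :=
    mul_nonneg (by (clear * -; positivity)) (Real.exp_pos _).le
  calc (1 - β) * (‖deriv F u‖ ^ 2 * Real.exp (y u k))
      = (‖deriv F u‖ ^ 2 * Real.exp (y u k)) * (1 - β) := by ring
    _ ≤ (‖deriv F u‖ ^ 2 * Real.exp (y u k)) * (1 - β * χ u k * κ ((F u - F v) / ζ)) :=
        mul_le_mul_of_nonneg_left h h2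
    _ = ‖deriv F u‖ ^ 2 * (Real.exp (y u k) * (1 - β * χ u k * κ ((F u - F v) / ζ))) := by ring

theorem V5_add {F : ℂ → ℂ} {y χ : ℂ → ℕ → ℝ} {κ : ℂ → ℝ} {β : ℝ} {k N : ℕ} {v : ℂ} {S W : Set ℂ}
    {Q : ℕ → Set ℂ} (hW : MeasurableSet W) (hQ : ∀ d < N, MeasurableSet (Q d)) (hWS : W ⊆ S)
    (hQS : ∀ d < N, Q d ⊆ S) (hd : ∀ d < N, ∀ e < N, d ≠ e → Disjoint (Q d) (Q e))
    (hWd : ∀ d < N, Disjoint W (Q d)) :
    V5 F y χ κ β k v W + ∑ d ∈ Finset.range N, V5 F y χ κ β k v (Q d) ≤ V5 F y χ κ β k v S := by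
  have hlow : ∀ T : Set ℂ, ∀ ζ : {ζ : ℂ // ζ ≠ 0}, V5 F y χ κ β k v T ≤
      ∫⁻ u in T, Dn F y χ κ β k (F v) ζ u := fun T ζ => V5_le ζ.2
  conv_rhs => unfold V5
  refine le_iInf fun ζ => ?_
  have hbm : MeasurableSet (⋃ d ∈ Finset.range N, Q d) :=
    Finset.measurableSet_biUnion _ fun d hd' => hQ d (Finset.mem_range.1 hd')
  have hdis : Disjoint W (⋃ d ∈ Finset.range N, Q d) := by
    rw [Set.disjoint_iUnion₂_right]
    exact fun d hd' => hWd d (Finset.mem_range.1 hd')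
  have hsub : W ∪ (⋃ d ∈ Finset.range N, Q d) ⊆ S := by
    refine Set.union_subset hWS ?_
    exact Set.iUnion₂_subset fun d hd' => hQS d (Finset.mem_range.1 hd')
  have hpd : Set.PairwiseDisjoint (↑(Finset.range N)) Q := by
    intro d hd1 e he1 hne
    exact hd d (Finset.mem_range.1 (Finset.mem_coe.1 hd1)) e
      (Finset.mem_range.1 (Finset.mem_coe.1 he1)) hne
  calc V5 F y χ κ β k v W + ∑ d ∈ Finset.range N, V5 F y χ κ β k v (Q d)
      ≤ (∫⁻ u in W, Dn F y χ κ β k (F v) ζ u) +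
        ∑ d ∈ Finset.range N, ∫⁻ u in Q d, Dn F y χ κ β k (F v) ζ u :=
        add_le_add (hlow W ζ) (Finset.sum_le_sum fun d _ => hlow (Q d) ζ)
    _ = (∫⁻ u in W, Dn F y χ κ β k (F v) ζ u) +
        ∫⁻ u in ⋃ d ∈ Finset.range N, Q d, Dn F y χ κ β k (F v) ζ u := by
        rw [lintegral_biUnion_finset hpd fun d hd' => hQ d (Finset.mem_range.1 hd')]
    _ = ∫⁻ u in W ∪ (⋃ d ∈ Finset.range N, Q d), Dn F y χ κ β k (F v) ζ u :=
        (lintegral_union hbm hdis).symm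
    _ ≤ ∫⁻ u in S, Dn F y χ κ β k (F v) ζ u := lintegral_mono_set hsub

theorem inf_arg {ι : Type} [Nonempty ι] {J' J : ι → ENNReal} {B E0 : ℝ} {E : ENNReal} (hB : 0 ≤ B)
    (hE0 : 0 ≤ E0) (hfin : ⨅ i, J i < ⊤)
    (h : ∀ i, ∃ ν : ℝ, 0 ≤ ν ∧ ν ≤ B ∧ ∃ j, J' i + ENNReal.ofReal ν * J j ≤
      ENNReal.ofReal (E0 + ν) * J i + E) : ⨅ i, J' i ≤ ENNReal.ofReal E0 * (⨅ i, J i) + E := by
  set v := ⨅ i, J i with hv
  refine ENNReal.le_of_forall_pos_le_add fun η hη _ => ?_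
  have hC : 0 < E0 + B + 1 := by (clear * - hB hE0; linarith only [hB, hE0])
  have hη0 : (0 : ℝ) < (η : ℝ) := by exact_mod_cast hη
  -- the small number
  set t : ℝ := (η : ℝ) / (E0 + B + 1) with ht
  have ht0 : 0 < t := div_pos hη0 hC
  have hlt : v < v + ENNReal.ofReal t :=
    ENNReal.lt_add_right hfin.ne (by simpa using ht0)
  obtain ⟨i, hi⟩ := exists_lt_of_ciInf_lt (hv ▸ hlt)
  obtain ⟨ν, hν0, hνB, j, hj⟩ := h i
  have hvj : v ≤ J j := iInf_le _ j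
  have hfi : ENNReal.ofReal ν * v ≠ ⊤ := ENNReal.mul_ne_top ENNReal.ofReal_ne_top hfin.ne
  have h1 : J' i + ENNReal.ofReal ν * v ≤
      (ENNReal.ofReal E0 * v + E + ENNReal.ofReal ((E0 + ν) * t)) + ENNReal.ofReal ν * v := by
    calc J' i + ENNReal.ofReal ν * v ≤ J' i + ENNReal.ofReal ν * J j :=
          add_le_add le_rfl (mul_le_mul_right hvj _)
      _ ≤ ENNReal.ofReal (E0 + ν) * J i + E := hj
      _ ≤ ENNReal.ofReal (E0 + ν) * (v + ENNReal.ofReal t) + E :=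
          add_le_add (mul_le_mul_right hi.le _) le_rfl
      _ = (ENNReal.ofReal E0 * v + E + ENNReal.ofReal ((E0 + ν) * t)) + ENNReal.ofReal ν * v := by
          rw [mul_add, ENNReal.ofReal_mul (by linarith only [hE0, hν0]), ENNReal.ofReal_add hE0 hν0]
          ring
  have h2 : J' i ≤ ENNReal.ofReal E0 * v + E + ENNReal.ofReal ((E0 + ν) * t) :=
    (ENNReal.add_le_add_iff_right hfi).1 h1
  have h3 : (E0 + ν) * t ≤ (η : ℝ) := by
    have : (E0 + ν) * t ≤ (E0 + B + 1) * t := mul_le_mul_of_nonneg_right (by linarith only [hνB]) ht0.le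
    have e : (E0 + B + 1) * t = (η : ℝ) := by
      rw [ht]
      (clear * - hE0 hB hη; field_simp)
    linarith only [this, e]
  have h4 : ENNReal.ofReal ((E0 + ν) * t) ≤ (η : ENNReal) := by
    rw [ENNReal.ofReal_le_iff_le_toReal ENNReal.coe_ne_top]
    simpa using h3
  calc ⨅ i, J' i ≤ J' i := iInf_le _ i
    _ ≤ ENNReal.ofReal E0 * v + E + ENNReal.ofReal ((E0 + ν) * t) := h2
    _ ≤ ENNReal.ofReal E0 * v + E + (η : ENNReal) := add_le_add le_rfl h4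

end Pool.Agent.Helper26.G5
end

/- Helper24.K6w.H26.G4.TopB -/
section
/-!
# G4-TOPB: the top box

`y u 0 = al Λ τ (vt ξ 1) u ≤ |τ| |Lb| ≤ C + 7` (`Fz.zero`, `vk_zero`), `ch ((2^M)^0) ξ 1 0 = ξ`, and
`∫ |F'|² = volume (F '' Bx ξ 1) ≤ A` (`Fn.vol`, `Fn.area`).
-/

set_option autoImplicit false

namespace Pool.Agent.Helper26.G4

open MeasureTheory Set
open scoped Real
open Pool.Agent.Helper90.G2 (Bx Wn Fn ar ch Cen chi)

theorem TopB_y {F : ℂ → ℂ} {Λ : ℂ → ℂ → ℂ} {M : ℕ} {ξ ε C : ℝ} {τ : ℂ}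
    (hτ : ‖τ‖ ≤ 1) {y : ℂ → ℕ → ℝ} (hy : Yf F Λ M ξ ε τ y) (hξ : |ξ| ≤ 7)
    (h : ∀ u ∈ Bx ξ 1, ‖Lb Λ (vt ξ 1) u‖ ≤ C + |ξ|) {u : ℂ} (hu : u ∈ Bx ξ 1) :
    y u 0 ≤ C + 7 := by
  have h0 : y u 0 = al Λ τ (vk (2 ^ M) ξ 0 u) u := (hy u hu).zero
  rw [h0, vk_zero hu, al]
  have h1 : -(τ * Lb Λ (vt ξ 1) u).re ≤ ‖τ * Lb Λ (vt ξ 1) u‖ := by
    have := Complex.abs_re_le_norm (τ * Lb Λ (vt ξ 1) u)
    exact (neg_le_abs _).trans this
  have h2 : ‖τ * Lb Λ (vt ξ 1) u‖ ≤ ‖Lb Λ (vt ξ 1) u‖ := by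
    rw [norm_mul]
    exact mul_le_of_le_one_left (norm_nonneg _) hτ
  have h3 := h u hu
  (clear * - hξ h1 h2 h3; linarith only [hξ, h1, h2, h3])

theorem TopB_ch (n : ℕ) (ξ : ℝ) : ch (n ^ 0) ξ 1 0 = ξ := by
  rw [ch, pow_zero]
  push_cast
  ring

theorem TopB_sub (ξ : ℝ) : Bx ξ 1 ⊆ {u : ℂ | 0 < u.re ∧ |u.im - ξ| < π} := by
  intro u hu
  obtain ⟨h1, -, h3⟩ := hu
  exact ⟨h1, h3.trans (by (clear * -; linarith only [Real.pi_gt_three]))⟩

theorem top4 {F : ℂ → ℂ} {A : ℝ} (hF : Fn F A) {Λ : ℂ → ℂ → ℂ} {M : ℕ} {ξ ε C : ℝ} {τ : ℂ}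
    (hτ : ‖τ‖ ≤ 1) {y : ℂ → ℕ → ℝ} (hy : Yf F Λ M ξ ε τ y) (hξ : |ξ| ≤ 7)
    (h : ∀ u ∈ Bx ξ 1, ‖Lb Λ (vt ξ 1) u‖ ≤ C + |ξ|) :
    Vs F y (2 ^ M) ξ 0 0 ≤ ENNReal.ofReal (A * Real.exp (C + 7)) := by
  have hm := Pool.Agent.Helper90.G2.meas_bx ξ 1
  have hb : 1 / ((2 ^ M : ℕ) : ℝ) ^ 0 = 1 := by rw [pow_zero, div_one]
  rw [Vs, TopB_ch, hb]
  calc ∫⁻ u in Bx ξ 1, ENNReal.ofReal (‖deriv F u‖ ^ 2 * Real.exp (y u 0))
      ≤ ∫⁻ u in Bx ξ 1, ENNReal.ofReal (‖deriv F u‖ ^ 2) * ENNReal.ofReal (Real.exp (C + 7)) := by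
        refine setLIntegral_mono' hm fun u hu => ?_
        rw [ENNReal.ofReal_mul (by (clear * -; positivity))]
        gcongr
        exact TopB_y hτ hy hξ h hu
    _ = (∫⁻ u in Bx ξ 1, ENNReal.ofReal (‖deriv F u‖ ^ 2)) * ENNReal.ofReal (Real.exp (C + 7)) :=
        lintegral_mul_const' _ _ ENNReal.ofReal_ne_top
    _ = volume (F '' Bx ξ 1) * ENNReal.ofReal (Real.exp (C + 7)) := by
        rw [hF.vol hm (TopB_sub ξ)]
    _ ≤ ENNReal.ofReal A * ENNReal.ofReal (Real.exp (C + 7)) := by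
        gcongr
        exact hF.area ξ
    _ = ENNReal.ofReal (A * Real.exp (C + 7)) := (ENNReal.ofReal_mul' (Real.exp_pos _).le).symm

end Pool.Agent.Helper26.G4
end

/- Helper24.K6w.H26.G5.Er5B -/
section
/-!
# G5-ERB: real numbers

`δ Er5 = δ π (2 KN R)² Bn + (1 - c₀) π s² / (4 m0)`, the first term is at most `δ K5 a`. `er5_mm`:
`m0 = mm5 c₀ S ε`: the second term is at most `(1 - 6 ε) a`; `e^(2 ε) (1 - 6 ε + ε / 8) ≤ (1 - ε) (1 - ε / 4) e^(-ε / 4)`.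
`er5_KK`: `m0 = KK N ε`: at most `ε / (16 N) a`; `e^(2 ε) (ε / (16 N) + ε / (4 N)) ≤ ε / N (1 - ε / 4) e^(-ε / 4)`.
-/

set_option autoImplicit false

namespace Pool.Agent.Helper26.G5

open MeasureTheory Set
open scoped Real
open Pool.Agent.Helper90.G2 (Bx Wn Fn ar ch Cen chi)
open Pool.Agent.Helper26.G4 (vt Br Lb wd al rr w0 Bad cn vk lv KN Sa Sc mm KK C9 Sg)

private theorem er5_gen {N : ℕ} {δ m0 S s R a c₀ B : ℝ} (hc1 : c₀ ≤ 1 / 2) (hB : 0 ≤ B)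
    (hδ : 0 < δ) (hm : 0 < m0) (ha : 0 < a) (hs : 0 ≤ s)
    (h1 : R ^ 2 ≤ KN N * a) (h3 : s ≤ √a * S) :
    δ * Er5 c₀ (δ * m0) s (2 * KN N * R) (Bn N B) ≤
      (δ * K5 N B + (1 - c₀) * (π * S ^ 2 / (4 * m0))) * a := by
  have hK : 0 < KN N := Real.exp_pos _
  have hπ := Real.pi_pos
  have hN0 : (0 : ℝ) ≤ N := Nat.cast_nonneg N
  have hBn : 0 ≤ Bn N B := by unfold Bn; (clear * - hB; positivity)
  have hs2 : s ^ 2 ≤ a * S ^ 2 := by
    have h : s ^ 2 ≤ (√a * S) ^ 2 := pow_le_pow_left₀ hs h3 2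
    rw [mul_pow, Real.sq_sqrt ha.le] at h
    exact h
  have t1 : δ * (π * (2 * KN N * R) ^ 2 * Bn N B) ≤ δ * K5 N B * a := by
    have e : δ * (π * (2 * KN N * R) ^ 2 * Bn N B) = (δ * 4 * π * KN N ^ 2 * Bn N B) * R ^ 2 := by
      ring
    rw [e]
    have h : (δ * 4 * π * KN N ^ 2 * Bn N B) * R ^ 2 ≤
        (δ * 4 * π * KN N ^ 2 * Bn N B) * (KN N * a) :=
      mul_le_mul_of_nonneg_left h1 (by (clear * - hδ hK hBn; positivity))
    refine h.trans (le_of_eq ?_)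
    unfold K5
    ring
  have t2 : δ * ((1 - c₀) * (π * s ^ 2 / (4 * (δ * m0)))) ≤
      (1 - c₀) * (π * S ^ 2 / (4 * m0)) * a := by
    have e : δ * ((1 - c₀) * (π * s ^ 2 / (4 * (δ * m0)))) = (1 - c₀) * (π * s ^ 2 / (4 * m0)) := by
      (clear * - hδ hm; field_simp)
    rw [e, mul_assoc]
    apply mul_le_mul_of_nonneg_left _ (by (clear * - hc1; linarith only [hc1]))
    rw [div_mul_eq_mul_div]
    apply div_le_div_of_nonneg_right _ (by positivity)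
    have h : π * s ^ 2 ≤ π * (a * S ^ 2) := mul_le_mul_of_nonneg_left hs2 hπ.le
    calc π * s ^ 2 ≤ π * (a * S ^ 2) := h
      _ = π * S ^ 2 * a := by ring
  unfold Er5
  calc δ * (π * (2 * KN N * R) ^ 2 * Bn N B + (1 - c₀) * (π * s ^ 2 / (4 * (δ * m0))))
      = δ * (π * (2 * KN N * R) ^ 2 * Bn N B) + δ * ((1 - c₀) * (π * s ^ 2 / (4 * (δ * m0)))) := by
        ring
    _ ≤ δ * K5 N B * a + (1 - c₀) * (π * S ^ 2 / (4 * m0)) * a := add_le_add t1 t2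
    _ = (δ * K5 N B + (1 - c₀) * (π * S ^ 2 / (4 * m0))) * a := by ring

private theorem exp_le_aux5 {x : ℝ} (h1 : 0 ≤ x) (h2 : x ≤ 1 / 2) :
    Real.exp (-(2 * x)) ≤ 1 - x := by
  have h3 : 1 ≤ (1 - x) * Real.exp (2 * x) := by
    have h4 : 1 + 2 * x ≤ Real.exp (2 * x) := by (clear * -; linarith only [Real.add_one_le_exp (2 * x)])
    have : (1 - x) * (1 + 2 * x) ≤ (1 - x) * Real.exp (2 * x) :=
      mul_le_mul_of_nonneg_left h4 (by linarith)
    (clear * - this h1 h2; nlinarith only [h1, h2, this])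
  rw [Real.exp_neg]
  rw [inv_le_iff_one_le_mul₀ (Real.exp_pos _)]
  exact h3

theorem er5_mm {N : ℕ} (hN : 2 ≤ N) {ε δ S s R a c₀ B β : ℝ} (hε : 0 < ε) (hε1 : ε ≤ 1 / 20)
    (hδ : 0 < δ) (hc : 0 ≤ c₀) (hc1 : c₀ ≤ 1 / 2) (hB : 0 ≤ B) (hβ : 0 ≤ β) (hβ1 : β ≤ ε / 4)
    (hS : 1 ≤ S) (hR : 0 < R) (ha : 0 < a) (hs : 0 ≤ s) (h1 : R ^ 2 ≤ KN N * a)
    (h3 : s ≤ √a * S) (h4 : δ * K5 N B ≤ ε / (4 * N)) (h5 : δ * KN N ≤ ε / 4) :
    Real.exp (2 * ε) * (δ * Er5 c₀ (δ * mm5 c₀ S ε) s (2 * KN N * R) (Bn N B)) ≤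
      (1 - ε) * ((1 - β) * (a * Real.exp (-(δ * KN N)))) := by
  have hπ := Real.pi_pos
  have hS0 : 0 < S := by (clear * - hS; linarith only [hS])
  have h6 : 0 < 1 - 6 * ε := by linarith only [hε1]
  have he1 : 0 < 1 - ε := by (clear * - h6; linarith only [h6])
  have hc2 : 0 < 1 - c₀ := by linarith only [hc1]
  have hm : 0 < mm5 c₀ S ε := by unfold mm5 mm; (clear * - hc2 hS h6; positivity)
  have hN1 : (2 : ℝ) ≤ N := by exact_mod_cast hN
  have hg := er5_gen (N := N) hc1 hB hδ hm ha hs h1 h3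
  have q1 : (1 - c₀) * (π * S ^ 2 / (4 * mm5 c₀ S ε)) = 1 - 6 * ε := by
    unfold mm5 mm
    (clear * - hc2 hS h6; field_simp)
  have q2 : ε / (4 * N) ≤ ε / 8 := by
    apply div_le_div_of_nonneg_left hε.le (by norm_num)
    linarith only [hN1]
  rw [q1] at hg
  have h7 : δ * Er5 c₀ (δ * mm5 c₀ S ε) s (2 * KN N * R) (Bn N B) ≤ (1 - 47 / 8 * ε) * a := by
    refine hg.trans (mul_le_mul_of_nonneg_right ?_ ha.le)
    linarith only [h4, q2]
  have h8 : Real.exp (2 * ε) * (1 - 47 / 8 * ε) ≤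
      (1 - ε) * ((1 - β) * Real.exp (-(δ * KN N))) := by
    have b1 : 1 - 47 / 8 * ε ≤ Real.exp (-(47 / 8 * ε)) := by
      linarith only [Real.add_one_le_exp (-(47 / 8 * ε))]
    have b2 : Real.exp (-(ε / 4)) ≤ Real.exp (-(δ * KN N)) := Real.exp_le_exp.2 (by linarith only [h5])
    have b3 : Real.exp (-(2 * ε)) ≤ 1 - ε := exp_le_aux5 hε.le (by (clear * - h6; linarith only [h6]))
    have b4 : Real.exp (-(13 / 8 * ε)) ≤ 1 - β := by
      have c1 : Real.exp (-(2 * (ε / 4))) ≤ 1 - ε / 4 := exp_le_aux5 (by linarith only [hε]) (by linarith only [he1])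
      have c2 : Real.exp (-(13 / 8 * ε)) ≤ Real.exp (-(2 * (ε / 4))) :=
        Real.exp_le_exp.2 (by linarith only [hε])
      linarith only [hβ1, c1, c2]
    calc Real.exp (2 * ε) * (1 - 47 / 8 * ε) ≤ Real.exp (2 * ε) * Real.exp (-(47 / 8 * ε)) :=
          mul_le_mul_of_nonneg_left b1 (Real.exp_pos _).le
      _ = Real.exp (-(2 * ε)) * (Real.exp (-(13 / 8 * ε)) * Real.exp (-(ε / 4))) := by
          rw [← Real.exp_add, ← Real.exp_add, ← Real.exp_add]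
          congr 1
          ring
      _ ≤ (1 - ε) * ((1 - β) * Real.exp (-(δ * KN N))) :=
          mul_le_mul b3 (mul_le_mul b4 b2 (Real.exp_pos _).le (by linarith only [hε1, hβ1])) (by positivity) he1.le
  calc Real.exp (2 * ε) * (δ * Er5 c₀ (δ * mm5 c₀ S ε) s (2 * KN N * R) (Bn N B))
      ≤ Real.exp (2 * ε) * ((1 - 47 / 8 * ε) * a) :=
        mul_le_mul_of_nonneg_left h7 (Real.exp_pos _).le
    _ = (Real.exp (2 * ε) * (1 - 47 / 8 * ε)) * a := by ring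
    _ ≤ ((1 - ε) * ((1 - β) * Real.exp (-(δ * KN N)))) * a := mul_le_mul_of_nonneg_right h8 ha.le
    _ = (1 - ε) * ((1 - β) * (a * Real.exp (-(δ * KN N)))) := by ring

theorem er5_KK {N : ℕ} (hN : 2 ≤ N) {ε δ s R a c₀ B β : ℝ} (hε : 0 < ε) (hε1 : ε ≤ 1 / 20)
    (hδ : 0 < δ) (hc : 0 ≤ c₀) (hc1 : c₀ ≤ 1 / 2) (hB : 0 ≤ B) (hβ : 0 ≤ β) (hβ1 : β ≤ ε / 4)
    (hR : 0 < R) (ha : 0 < a) (hs : 0 ≤ s) (h1 : R ^ 2 ≤ KN N * a)
    (h3 : s ≤ √a * Sa N) (h4 : δ * K5 N B ≤ ε / (4 * N)) (h5 : δ * KN N ≤ ε / 4) :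
    Real.exp (2 * ε) * (δ * Er5 c₀ (δ * KK N ε) s (2 * KN N * R) (Bn N B)) ≤
      ε / N * ((1 - β) * (a * Real.exp (-(δ * KN N)))) := by
  have hπ := Real.pi_pos
  have hN1 : (2 : ℝ) ≤ N := by exact_mod_cast hN
  have hNp : (0 : ℝ) < N := by (clear * - hN1; linarith only [hN1])
  have hSp : 0 < Sa N := by
    have hl : 0 ≤ Real.log N := Real.log_natCast_nonneg N
    have h : (1 : ℝ) ≤ √(1 + Real.log N) := by
      rw [Real.one_le_sqrt]
      (clear * - hl; linarith only [hl])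
    unfold Sa
    (clear * - h; linarith only [h])
  have hm : 0 < KK N ε := by unfold KK; (clear * - hSp hN hε; positivity)
  have hg := er5_gen (N := N) hc1 hB hδ hm ha hs h1 h3
  have e0 : 0 < ε / N := by positivity
  have q1 : (1 - c₀) * (π * Sa N ^ 2 / (4 * KK N ε)) ≤ 1 / 16 * (ε / N) := by
    have e1 : π * Sa N ^ 2 / (4 * KK N ε) = 1 / 16 * (ε / N) := by
      unfold KK
      field_simp
      norm_num
    rw [e1]
    have : 0 < 1 / 16 * (ε / N) := by (clear * - hε hN; positivity)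
    nlinarith only [hc, this]
  have h7 : δ * Er5 c₀ (δ * KK N ε) s (2 * KN N * R) (Bn N B) ≤ (5 / 16 * (ε / N)) * a := by
    refine hg.trans (mul_le_mul_of_nonneg_right ?_ ha.le)
    have e2 : ε / (4 * N) = 1 / 4 * (ε / N) := by field_simp
    rw [e2] at h4
    linarith only [h4, q1]
  have h8 : Real.exp (2 * ε) * (5 / 16) ≤ (1 - β) * Real.exp (-(δ * KN N)) := by
    have b2 : Real.exp (-(ε / 4)) ≤ Real.exp (-(δ * KN N)) := Real.exp_le_exp.2 (by (clear * - h5; linarith only [h5]))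
    have b3 : Real.exp (2 * ε) * (5 / 16) ≤ (1 - β) * Real.exp (-(ε / 4)) := by
      have c1 : Real.exp (2 * ε) * Real.exp (ε / 4) ≤ 8 / 3 := by
        rw [← Real.exp_add]
        have : Real.exp (2 * ε + ε / 4) ≤ Real.exp (1 / 2) := Real.exp_le_exp.2 (by (clear * - hε1; linarith only [hε1]))
        have hb : Real.exp (1 / 2) ≤ 8 / 3 := by
          have := Real.exp_one_lt_d9
          have h3 : Real.exp (1 / 2) ^ 2 = Real.exp 1 := by
            rw [← Real.exp_nat_mul]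
            norm_num
          (clear * - this h3; nlinarith only [this, h3])
        linarith only [this, hb]
      have c2 : Real.exp (-(ε / 4)) * Real.exp (ε / 4) = 1 := by
        rw [← Real.exp_add]
        simp
      have c3 : 0 < Real.exp (ε / 4) := Real.exp_pos _
      have : Real.exp (2 * ε) * (5 / 16) * Real.exp (ε / 4) ≤
          (1 - β) * Real.exp (-(ε / 4)) * Real.exp (ε / 4) := by
        rw [mul_assoc (1 - β), c2]
        linarith only [hε1, hβ1, c1]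
      exact le_of_mul_le_mul_right this c3
    exact b3.trans (mul_le_mul_of_nonneg_left b2 (by (clear * - hε1 hβ1; linarith only [hε1, hβ1])))
  calc Real.exp (2 * ε) * (δ * Er5 c₀ (δ * KK N ε) s (2 * KN N * R) (Bn N B))
      ≤ Real.exp (2 * ε) * ((5 / 16 * (ε / N)) * a) :=
        mul_le_mul_of_nonneg_left h7 (Real.exp_pos _).le
    _ = (Real.exp (2 * ε) * (5 / 16)) * (ε / N * a) := by ring
    _ ≤ ((1 - β) * Real.exp (-(δ * KN N))) * (ε / N * a) :=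
        mul_le_mul_of_nonneg_right h8 (by (clear * - hε hN ha; positivity))
    _ = ε / N * ((1 - β) * (a * Real.exp (-(δ * KN N)))) := by ring

end Pool.Agent.Helper26.G5
end

/- Helper24.K6w.H97.G4.ExcInt -/
section
/-!
# G4: the integral of the excess
-/

set_option autoImplicit false

namespace Pool.Agent.Helper97.G4

open MeasureTheory Set
open scoped Real
open Pool.Agent.Helper26.G4 (Xh Er)

theorem exc_pt {ω s z : ℂ} {r B ε m : ℝ} (hr : 0 < r) (hB : 0 ≤ B) (hε : 0 < ε) (hm : 0 < m) :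
    max (Xh ω s z r B - m) 0 ≤ ({z : ℂ | ‖z‖ < r}.indicator (fun _ => B) z) +
      max ((ω * s / z).re - (1 - ε) * m) 0 +
      ‖s‖ ^ 3 / √(ε * m) * ({z : ℂ | r ≤ ‖z‖}.indicator (fun z : ℂ => 1 / ‖z‖ ^ 3) z) := by
  have hem : 0 < ε * m := mul_pos hε hm
  have hs : 0 < √(ε * m) := Real.sqrt_pos.2 hem
  have h1 : 0 ≤ max ((ω * s / z).re - (1 - ε) * m) 0 := le_max_right _ _
  unfold Xh
  by_cases h : ‖z‖ < r
  · rw [if_pos h, indicator_of_mem (show z ∈ {z : ℂ | ‖z‖ < r} from h),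
      indicator_of_notMem (show z ∉ {z : ℂ | r ≤ ‖z‖} from fun h' => absurd h (not_lt.2 h'))]
    rw [max_le_iff]
    constructor <;> (clear * - hm h1 hB; linarith only [hm, h1, hB])
  · have h' : r ≤ ‖z‖ := not_lt.1 h
    have hz : 0 < ‖z‖ := hr.trans_le h'
    rw [if_neg h, indicator_of_notMem (show z ∉ {z : ℂ | ‖z‖ < r} from h),
      indicator_of_mem (show z ∈ {z : ℂ | r ≤ ‖z‖} from h')]
    have h2 := exc_pow (Y := ‖s‖ / ‖z‖) (b := ε * m) (by (clear * - hz; positivity)) hem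
    have h3 : (‖s‖ / ‖z‖) ^ 3 / √(ε * m) = ‖s‖ ^ 3 / √(ε * m) * (1 / ‖z‖ ^ 3) := by
      field_simp
    rw [h3, div_pow] at h2
    have h4 := le_max_left ((ω * s / z).re - (1 - ε) * m) 0
    have h5 : 0 ≤ ‖s‖ ^ 3 / √(ε * m) * (1 / ‖z‖ ^ 3) := by (clear * - hε hm hz; positivity)
    rw [max_le_iff]
    constructor <;> linarith only [h2, h4, h1, h5]

theorem exc_int {ω s : ℂ} {r B ε m : ℝ} (hω : ‖ω‖ ≤ 1) (hr : 0 < r) (hB : 0 ≤ B) (hε : 0 < ε)
    (hε1 : ε < 1) (hm : 0 < m) :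
    ∫⁻ z : ℂ, ENNReal.ofReal (max (Xh ω s z r B - m) 0) ≤ ENNReal.ofReal (Er ε m ‖s‖ r B) := by
  have hπ := Real.pi_pos
  have hem : 0 < ε * m := mul_pos hε hm
  have hsq : 0 < √(ε * m) := Real.sqrt_pos.2 hem
  have hβ : 0 < (1 - ε) * m := mul_pos (by linarith only [hε1]) hm
  have hS1 : MeasurableSet {z : ℂ | ‖z‖ < r} := measurableSet_lt measurable_norm measurable_const
  have hS2 : MeasurableSet {z : ℂ | r ≤ ‖z‖} := measurableSet_le measurable_const measurable_norm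
  have hc : 0 ≤ ‖s‖ ^ 3 / √(ε * m) := by (clear * - hε hm; positivity)
  have m1 : Measurable fun z : ℂ => ENNReal.ofReal ({z : ℂ | ‖z‖ < r}.indicator (fun _ => B) z) :=
    (measurable_const.indicator hS1).ennreal_ofReal
  have m2 : Measurable fun z : ℂ =>
      ENNReal.ofReal (max ((ω * s / z).re - (1 - ε) * m) 0) := by fun_prop
  have i1 : ∫⁻ z : ℂ, ENNReal.ofReal ({z : ℂ | ‖z‖ < r}.indicator (fun _ => B) z) =
      ENNReal.ofReal (π * r ^ 2 * B) := by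
    have e : (fun z : ℂ => ENNReal.ofReal ({z : ℂ | ‖z‖ < r}.indicator (fun _ => B) z)) =
        {z : ℂ | ‖z‖ < r}.indicator (fun _ => ENNReal.ofReal B) := by
      funext z
      by_cases h : z ∈ {z : ℂ | ‖z‖ < r}
      · rw [indicator_of_mem h, indicator_of_mem h]
      · rw [indicator_of_notMem h, indicator_of_notMem h, ENNReal.ofReal_zero]
    have e2 : {z : ℂ | ‖z‖ < r} = Metric.ball 0 r := by
      ext z
      rw [Metric.mem_ball, dist_zero_right]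
      rfl
    rw [e, lintegral_indicator_const hS1, e2, Complex.volume_ball]
    have h2 : ((NNReal.pi : NNReal) : ENNReal) = ENNReal.ofReal Real.pi := by
      rw [← NNReal.coe_real_pi, ENNReal.ofReal_coe_nnreal]
    rw [h2, ← ENNReal.ofReal_pow hr.le, ← ENNReal.ofReal_mul (by positivity),
      ← ENNReal.ofReal_mul hB]
    congr 1
    ring
  have i2 : ∫⁻ z : ℂ, ENNReal.ofReal (max ((ω * s / z).re - (1 - ε) * m) 0) ≤
      ENNReal.ofReal (π * ‖s‖ ^ 2 / (4 * (1 - ε) * m)) := by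
    refine (exc_lin (ω * s) hβ).trans (ENNReal.ofReal_le_ofReal ?_)
    have h1 : ‖ω * s‖ ^ 2 ≤ ‖s‖ ^ 2 := by
      rw [norm_mul]
      refine pow_le_pow_left₀ (by (clear * -; positivity)) ?_ 2
      calc ‖ω‖ * ‖s‖ ≤ 1 * ‖s‖ := mul_le_mul_of_nonneg_right hω (norm_nonneg _)
        _ = ‖s‖ := one_mul _
    rw [show 4 * ((1 - ε) * m) = 4 * (1 - ε) * m by ring]
    exact div_le_div_of_nonneg_right (mul_le_mul_of_nonneg_left h1 hπ.le) (by linarith only [hβ])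
  have i3 : ∫⁻ z : ℂ, ENNReal.ofReal (‖s‖ ^ 3 / √(ε * m) *
      ({z : ℂ | r ≤ ‖z‖}.indicator (fun z : ℂ => 1 / ‖z‖ ^ 3) z)) =
      ENNReal.ofReal (2 * π * ‖s‖ ^ 3 / (√(ε * m) * r)) := by
    have e : (fun z : ℂ => ENNReal.ofReal (‖s‖ ^ 3 / √(ε * m) *
        ({z : ℂ | r ≤ ‖z‖}.indicator (fun z : ℂ => 1 / ‖z‖ ^ 3) z))) =
        fun z : ℂ => ENNReal.ofReal (‖s‖ ^ 3 / √(ε * m)) *
          ({z : ℂ | r ≤ ‖z‖}.indicator (fun z : ℂ => ENNReal.ofReal (1 / ‖z‖ ^ 3)) z) := by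
      funext z
      rw [ENNReal.ofReal_mul hc]
      congr 1
      by_cases h : z ∈ {z : ℂ | r ≤ ‖z‖}
      · rw [indicator_of_mem h, indicator_of_mem h]
      · rw [indicator_of_notMem h, indicator_of_notMem h, ENNReal.ofReal_zero]
    rw [e, lintegral_const_mul' _ _ ENNReal.ofReal_ne_top, lintegral_indicator hS2, exc_cube hr,
      ← ENNReal.ofReal_mul hc]
    congr 1
    field_simp
  have hle : ∀ z : ℂ, ENNReal.ofReal (max (Xh ω s z r B - m) 0) ≤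
      (ENNReal.ofReal ({z : ℂ | ‖z‖ < r}.indicator (fun _ => B) z) +
        ENNReal.ofReal (max ((ω * s / z).re - (1 - ε) * m) 0)) +
      ENNReal.ofReal (‖s‖ ^ 3 / √(ε * m) *
        ({z : ℂ | r ≤ ‖z‖}.indicator (fun z : ℂ => 1 / ‖z‖ ^ 3) z)) := by
    intro z
    have n1 : 0 ≤ {z : ℂ | ‖z‖ < r}.indicator (fun _ => B) z :=
      indicator_nonneg (fun _ _ => hB) z
    have n3 : 0 ≤ {z : ℂ | r ≤ ‖z‖}.indicator (fun z : ℂ => 1 / ‖z‖ ^ 3) z :=
      indicator_nonneg (fun _ _ => by (clear * -; positivity)) z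
    have n2 : 0 ≤ max ((ω * s / z).re - (1 - ε) * m) 0 := le_max_right _ _
    rw [← ENNReal.ofReal_add n1 n2, ← ENNReal.ofReal_add (add_nonneg n1 n2) (mul_nonneg hc n3)]
    exact ENNReal.ofReal_le_ofReal (exc_pt hr hB hε hm)
  refine (lintegral_mono hle).trans ?_
  have m12 : Measurable fun z : ℂ =>
      ENNReal.ofReal ({z : ℂ | ‖z‖ < r}.indicator (fun _ => B) z) +
        ENNReal.ofReal (max ((ω * s / z).re - (1 - ε) * m) 0) := m1.add m2
  rw [lintegral_add_left m12, lintegral_add_left m1, i1, i3]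
  unfold Er
  have n1 : 0 ≤ π * r ^ 2 * B := by (clear * - hr hB; positivity)
  have n2 : 0 ≤ π * ‖s‖ ^ 2 / (4 * (1 - ε) * m) := by
    refine div_nonneg (by (clear * -; positivity)) (by (clear * - hβ; linarith only [hβ]))
  have n3 : 0 ≤ 2 * π * ‖s‖ ^ 3 / (√(ε * m) * r) := by (clear * - hε hm hr; positivity)
  rw [ENNReal.ofReal_add (add_nonneg n1 n2) n3, ENNReal.ofReal_add n1 n2]
  (clear * - i2; gcongr)

end Pool.Agent.Helper97.G4
end

/- Helper24.K6w.H26.G4.ExcInt -/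
section
/-!
# G4-EXCINT: the integral of the excess over the whole plane

`disc_int`: `{re (c / z) > t}` is the disc of centre `c / (2 t)` (or its conjugate) and radius `|c| / (2 t)`, of
area `π |c|² / (4 t²)`; layer cake as in `Pool.Agent.Helper90.G2.apo_int`. `exc_int`: for `|z| < r` the
integrand is at most `B`; for `|z| ≥ r` use `(a + y - m)_+ ≤ (a - (1 - ε) m)_+ + (y - ε m)_+`,
`a = re (ω s / z)`, `y = |s|² / |z|²`, `(y - b)_+ ≤ y^(3/2) b^(-1/2)`, and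
`∫_(|z| ≥ r) |z|^(-3) = 2 π / r` (polar coordinates).
-/

set_option autoImplicit false

namespace Pool.Agent.Helper26.G4

open MeasureTheory Set
open scoped Real
open Pool.Agent.Helper90.G2 (Bx Wn Fn ar ch Cen chi)

theorem disc_int {c : ℂ} {b : ℝ} (hb : 0 < b) :
    ∫⁻ z : ℂ, ENNReal.ofReal (max ((c / z).re - b) 0) ≤ ENNReal.ofReal (π * ‖c‖ ^ 2 / (4 * b)) :=
  Pool.Agent.Helper97.G4.exc_lin c hb

theorem exc_int {ω s : ℂ} {ε m r B : ℝ} (hω : ‖ω‖ ≤ 1) (hε : 0 < ε) (hε1 : ε < 1) (hm : 0 < m)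
    (hr : 0 < r) (hB : 0 ≤ B) :
    ∫⁻ z : ℂ, ENNReal.ofReal (max (Xh ω s z r B - m) 0) ≤ ENNReal.ofReal (Er ε m ‖s‖ r B) :=
  Pool.Agent.Helper97.G4.exc_int hω hr hB hε hε1 hm

theorem Xh_meas (ω s : ℂ) (r B : ℝ) : Measurable fun z : ℂ => Xh ω s z r B := by
  unfold Xh
  refine Measurable.ite (measurableSet_lt measurable_norm measurable_const) measurable_const ?_
  fun_prop

end Pool.Agent.Helper26.G4
end

/- Helper24.K6w.H26.G5.Freeze5 -/
section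
/-!
# G5-FREEZE: the freeze lemma with flags

As `Pool.Agent.Helper26.G4.freeze`. For a bad `k` (with `y k = a k`, `χ k = 1`) let `D = k' - k ≥ 2`,
`g = (a k' - a k + 2 s) / D ≤ (C + 2 s) / L ≤ e`, `y j = a k - s + (j - k) g` and `χ j = 0` for `k < j < k'`,
`y k' = a k'`, `χ k' = 1`. First step: `y (k + 1) + s = a k + g`; last step:
`y k' + s = a k' + s = a k - s + D g = y (k' - 1) + g`.
-/

set_option autoImplicit false

namespace Pool.Agent.Helper26.G5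

open MeasureTheory Set
open scoped Real
open Pool.Agent.Helper90.G2 (Bx Wn Fn ar ch Cen chi)
open Pool.Agent.Helper26.G4 (vt Br Lb wd al rr w0 Bad cn vk lv KN Sa Sc mm KK C9 Sg)

/-- one admissible step -/
def Freeze5_ok (a : ℕ → ℝ) (bad : ℕ → Prop) (e s : ℝ) (y χ : ℕ → ℝ) (k : ℕ) : Prop :=
  (χ k = 0 ∧ χ (k + 1) = 0 ∧ y (k + 1) ≤ y k + e) ∨ y (k + 1) + s ≤ y k + e ∨
    (¬ bad k ∧ χ k = 1 ∧ χ (k + 1) = 1 ∧ y k = a k ∧ y (k + 1) = a (k + 1))

theorem Freeze5_congr {a : ℕ → ℝ} {bad : ℕ → Prop} {e s : ℝ} {y χ y' χ' : ℕ → ℝ} {k : ℕ}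
    (h1 : y k = y' k) (h2 : y (k + 1) = y' (k + 1)) (h3 : χ k = χ' k)
    (h4 : χ (k + 1) = χ' (k + 1)) (h : Freeze5_ok a bad e s y' χ' k) :
    Freeze5_ok a bad e s y χ k := by
  unfold Freeze5_ok
  rw [h1, h2, h3, h4]
  exact h

theorem Freeze5_slope {a : ℕ → ℝ} {e s C : ℝ} {L k k' : ℕ} (hs : 0 ≤ s) (hC0 : 0 ≤ C)
    (hL : 2 ≤ L) (hC : C + 2 * s ≤ L * e) (h1 : k + L ≤ k') (h3 : |a k' - a k| ≤ C) :
    ∃ g : ℝ, g ≤ e ∧ a k - s + ((k' : ℝ) - k) * g = a k' + s := by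
  have hL0 : (0 : ℝ) < L := by
    have : 0 < L := by omega
    exact_mod_cast this
  have hLd : (L : ℝ) ≤ (k' : ℝ) - k := by
    have : ((k + L : ℕ) : ℝ) ≤ (k' : ℝ) := by exact_mod_cast h1
    push_cast at this
    (clear * - this; linarith only [this])
  have hd : (0 : ℝ) < (k' : ℝ) - k := hL0.trans_le hLd
  have he0 : 0 ≤ e := by
    by_contra hne
    push Not at hne
    have : (L : ℝ) * e < 0 := mul_neg_of_pos_of_neg hL0 hne
    (clear * - hs hC0 hC this; linarith only [hs, hC0, hC, this])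
  refine ⟨(a k' - a k + 2 * s) / ((k' : ℝ) - k), ?_, ?_⟩
  · rw [div_le_iff₀ hd]
    calc a k' - a k + 2 * s ≤ C + 2 * s := by linarith only [le_abs_self (a k' - a k), h3]
      _ ≤ L * e := hC
      _ ≤ ((k' : ℝ) - k) * e := by gcongr
      _ = e * ((k' : ℝ) - k) := mul_comm _ _
  · rw [mul_div_cancel₀ _ hd.ne']
    ring

theorem Freeze5_aux {a : ℕ → ℝ} {bad : ℕ → Prop} {e s C : ℝ} {L K : ℕ} (hs : 0 ≤ s) (hC0 : 0 ≤ C)
    (hL : 2 ≤ L) (hC : C + 2 * s ≤ L * e)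
    (h : ∀ k < K, bad k → ∃ k' : ℕ, k + L ≤ k' ∧ k' ≤ K ∧ |a k' - a k| ≤ C) :
    ∀ m k : ℕ, k ≤ K → K - k = m →
      ∃ y χ : ℕ → ℝ, (∀ j, χ j = 0 ∨ χ j = 1) ∧ y k = a k ∧ χ k = 1 ∧ y K = a K ∧
        ∀ j, k ≤ j → j < K → Freeze5_ok a bad e s y χ j := by
  intro m
  induction m using Nat.strong_induction_on with
  | _ m ih =>
    intro k hk hm
    rcases hk.eq_or_lt with rfl | hlt
    · exact ⟨a, fun _ => 1, fun _ => Or.inr rfl, rfl, rfl, rfl,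
        fun j h1 h2 => absurd h2 (not_lt.2 h1)⟩
    · by_cases hb : bad k
      · obtain ⟨k', h1, h2, h3⟩ := h k hlt hb
        have hkk' : k + 2 ≤ k' := by omega
        obtain ⟨y', χ', e0, e1, e4, e2, e3⟩ := ih (K - k') (by omega) k' h2 rfl
        obtain ⟨g, hge, hg⟩ := Freeze5_slope hs hC0 hL hC h1 h3
        obtain ⟨y, hy⟩ : ∃ y : ℕ → ℝ, y = fun j : ℕ => if j ≤ k then a k else
          if j < k' then a k - s + ((j : ℝ) - k) * g else y' j := ⟨_, rfl⟩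
        obtain ⟨χ, hχ⟩ : ∃ χ : ℕ → ℝ, χ = fun j : ℕ => if j ≤ k then 1 else
          if j < k' then 0 else χ' j := ⟨_, rfl⟩
        have y1 : y k = a k := by
          rw [hy]
          simp
        have y2 : ∀ j, k < j → j < k' → y j = a k - s + ((j : ℝ) - k) * g := by
          intro j a1 a2
          rw [hy]
          simp only [not_le.2 a1, if_false, a2, if_true]
        have y3 : ∀ j, k' ≤ j → y j = y' j := by
          intro j a1
          have a2 : ¬ j ≤ k := by omega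
          rw [hy]
          simp only [a2, if_false, not_lt.2 a1]
        have c1 : χ k = 1 := by
          rw [hχ]
          simp
        have c2 : ∀ j, k < j → j < k' → χ j = 0 := by
          intro j a1 a2
          rw [hχ]
          simp only [not_le.2 a1, if_false, a2, if_true]
        have c3 : ∀ j, k' ≤ j → χ j = χ' j := by
          intro j a1
          have a2 : ¬ j ≤ k := by omega
          rw [hχ]
          simp only [a2, if_false, not_lt.2 a1]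
        refine ⟨y, χ, ?_, y1, c1, ?_, ?_⟩
        · intro j
          rw [hχ]
          dsimp only
          split_ifs
          · exact Or.inr rfl
          · exact Or.inl rfl
          · exact e0 j
        · rw [y3 K h2, e2]
        · intro j hj1 hj2
          rcases hj1.eq_or_lt with rfl | hj1
          · right
            left
            rw [y1, y2 (k + 1) (Nat.lt_succ_self k) (by omega)]
            push_cast
            linarith only [hge]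
          · rcases lt_trichotomy (j + 1) k' with hj | hj | hj
            · left
              refine ⟨c2 j hj1 (by omega), c2 (j + 1) (by omega) hj, ?_⟩
              rw [y2 j hj1 (by omega), y2 (j + 1) (by omega) hj]
              push_cast
              linarith only [hge]
            · right
              left
              rw [y3 (j + 1) hj.ge, hj, e1, y2 j hj1 (by omega)]
              have hjk : (k' : ℝ) = (j : ℝ) + 1 := by
                rw [← hj]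
                push_cast
                ring
              rw [hjk] at hg
              linarith only [hge, hg]
            · exact Freeze5_congr (y3 j (by omega)) (y3 (j + 1) hj.le) (c3 j (by omega))
                (c3 (j + 1) hj.le) (e3 j (by omega) hj2)
      · obtain ⟨y', χ', e0, e1, e4, e2, e3⟩ := ih (K - (k + 1)) (by omega) (k + 1) hlt rfl
        refine ⟨fun j => if j ≤ k then a k else y' j, fun j => if j ≤ k then 1 else χ' j,
          ?_, by simp, by simp, ?_, ?_⟩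
        · intro j
          dsimp only
          split_ifs
          · exact Or.inr rfl
          · exact e0 j
        · have : ¬ K ≤ k := by omega
          simp only [this, if_false]
          exact e2
        · intro j hj1 hj2
          rcases hj1.eq_or_lt with rfl | hj
          · right
            right
            have : ¬ k + 1 ≤ k := by omega
            refine ⟨hb, by simp, ?_, by simp, ?_⟩
            · simp only [this, if_false]
              exact e4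
            · simp only [this, if_false]
              exact e1
          · have h1 : ¬ j ≤ k := by omega
            have h2 : ¬ j + 1 ≤ k := by omega
            refine Freeze5_congr ?_ ?_ ?_ ?_ (e3 j hj hj2)
            · simp only [h1, if_false]
            · simp only [h2, if_false]
            · simp only [h1, if_false]
            · simp only [h2, if_false]

theorem freeze5 {a : ℕ → ℝ} {bad : ℕ → Prop} {e s C : ℝ} {L K : ℕ} (hs : 0 ≤ s) (hC0 : 0 ≤ C)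
    (hL : 2 ≤ L) (hC : C + 2 * s ≤ L * e)
    (h : ∀ k < K, bad k → ∃ k' : ℕ, k + L ≤ k' ∧ k' ≤ K ∧ |a k' - a k| ≤ C) :
    ∃ y χ : ℕ → ℝ, Fz5 a bad e s K y χ := by
  obtain ⟨y, χ, h0, h1, h2, h3, h4⟩ :=
    Freeze5_aux hs hC0 hL hC h (K - 0) 0 (Nat.zero_le K) rfl
  exact ⟨y, χ, ⟨h0, h1, h3, fun k hk => h4 k (Nat.zero_le k) hk⟩⟩

end Pool.Agent.Helper26.G5
end

/- Helper24.K6w.H26.G5.Tk5 -/
section
/-!
# G5-TK: templates exist

From `keyZ` of helper17 (`Helper17/G5`) and the templates of helper33 (`Helper33/G5`) (right half plane only).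
-/

set_option autoImplicit false

namespace Pool.Agent.Helper26.G5

open MeasureTheory Set
open scoped Real
open Pool.Agent.Helper90.G2 (Bx Wn Fn ar ch Cen chi)
open Pool.Agent.Helper26.G4 (vt Br Lb wd al rr w0 Bad cn vk lv KN Sa Sc mm KK C9 Sg)

theorem tk_pos {e0 : ℝ} (h : 0 < e0) : ∃ (κ : ℂ → ℝ) (b c₀ B Cc m₁ : ℝ),
    (0 < b ∧ b ≤ 1 ∧ 0 < c₀ ∧ c₀ ≤ 1 / 2 ∧ 0 ≤ B ∧ 1 ≤ Cc ∧ 0 < m₁) ∧
    ∀ ω : ℂ, ‖ω‖ = 1 → e0 ≤ ω.re → Tk κ ω b c₀ B Cc m₁ := by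
  obtain ⟨κ, Lk, ρ, kinf, c1, c2, e2, m2, hW⟩ := Helper33.G5.exists_tw h (Or.inl rfl)
  obtain ⟨b, c0, m0, B, d0, Cc, hb, hb1, hc0, hc01, hm0, hm01, hB, hd0, hd01, hCc, key⟩ :=
    Helper17.G5.keyZ hW (fun v hv => hv.1) (A := 1) le_rfl
  have hm : 0 < min (min m0 d0) (1 / 4) := by positivity
  have h1 : min (min m0 d0) (1 / 4) ≤ m0 := (min_le_left _ _).trans (min_le_left _ _)
  have h2 : min (min m0 d0) (1 / 4) ≤ d0 := (min_le_left _ _).trans (min_le_right _ _)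
  have h3 : min (min m0 d0) (1 / 4) ≤ 1 / 4 := min_le_right _ _
  refine ⟨κ, b, c0, B, Cc, min (min m0 d0) (1 / 4), ⟨hb, hb1, hc0, hc01, hB.le, hCc, hm⟩,
    fun ω hω hre => ⟨hW.meas, hW.bd, hb, hb1, hc0, hc01, hB.le, hCc, hm, h3, ?_⟩⟩
  intro d m hd hd1 hm' hm1 s ζ hs hζ
  have hv : (starRingEnd ℂ) ω ∈ Helper33.G5.Vs e0 1 :=
    ⟨by rw [Complex.norm_conj]; exact hω, by rw [Complex.conj_re, one_mul]; exact hre⟩
  obtain ⟨ν, hν, hν1, H, g0, g1, g2, g3, g4, g5⟩ :=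
    key ω hv d hd (hd1.trans h2) m hm' (hm1.trans h1) s hs ζ hζ
  refine ⟨ν, hν, hν1.trans (mul_le_of_le_one_right hB.le ((hm1.trans h1).trans hm01)), H, g0, g1, g2,
    g4, fun z hz => ?_, g5⟩
  have := g3 z hz
  rw [one_mul] at this
  exact this

end Pool.Agent.Helper26.G5
end
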