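import Pool.Agent.Helper24.K6.G03
import Pool.Agent.Helper24.K6.G10
import Pool.Agent.Helper24.K6.G15
import Pool.Agent.Helper24.K6.G17

/- Helper24.K6w.H26.G4.Kids4 -/
section
/-!
# G4-KIDS: additivity and lower bounds

`c = ch (N^k) ξ 1 d`, `ℓ = N^(-k)`, `v = vt c ℓ`, `y` from `Yf` (`N = 2^M`). For `u` in the upper part
`Wn c ℓ (1/N)`: `lv N u = k` (`lv_eq`), `vk N ξ k u = v` (`vk_eq`), so `y u k = al Λ τ v u` (`Fz.last`) and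
`wn_al`: `w_low` (`Fn.vol` for the area). `kids_add4`: the upper part and the children are disjoint
measurable subsets of the box (`Pool.Agent.Helper90.G2.bx_child_sub`, `wn_sub`, `bx_disj`, `wn_disj`);
`lintegral_union` needs no measurability of the integrand. `bot`: `w_low` and `ar_low`:
`rr F v ^ 2 * exp (w0 Λ τ v) = |exp ((2 - τ) (log (re v) + Λ v v))|` (`Br.diag`).
-/

set_option autoImplicit false

namespace Pool.Agent.Helper26.G4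

open MeasureTheory Set
open scoped Real
open Pool.Agent.Helper90.G2 (Bx Wn Fn ar ch Cen chi)

theorem w_low {F : ℂ → ℂ} {A : ℝ} (hF : Fn F A) {Λ : ℂ → ℂ → ℂ} (hΛ : Br F Λ) {M : ℕ}
    (hM : 1 ≤ M) {ξ ε : ℝ} {τ : ℂ} {y : ℂ → ℕ → ℝ} (hy : Yf F Λ M ξ ε τ y) {k d : ℕ}
    (hd : d < (2 ^ M) ^ k) {c ℓ : ℝ} (hc : c = ch ((2 ^ M) ^ k) ξ 1 d)
    (hℓ : ℓ = 1 / ((2 ^ M : ℕ) : ℝ) ^ k) :
    ENNReal.ofReal (ar F (Wn c ℓ (1 / ((2 ^ M : ℕ) : ℝ))) *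
      Real.exp (w0 Λ τ (vt c ℓ) - ‖τ‖ * KN (2 ^ M))) ≤
    ∫⁻ u in Wn c ℓ (1 / ((2 ^ M : ℕ) : ℝ)), ENNReal.ofReal (‖deriv F u‖ ^ 2 * Real.exp (y u k)) := by
  have hN : 2 ≤ 2 ^ M := by
    calc 2 = 2 ^ 1 := rfl
      _ ≤ 2 ^ M := Nat.pow_le_pow_right (by norm_num) hM
  have hp := Levels_pow hN k
  have hN0 : (0 : ℝ) < ((2 ^ M : ℕ) : ℝ) := lt_trans one_pos (Levels_one hN)
  have hℓ0 : 0 < ℓ := by
    rw [hℓ]
    exact one_div_pos.2 hp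
  have hℓ1 : ℓ ≤ 1 := by
    rw [hℓ]
    have := Levels_anti hN (Nat.zero_le k)
    rwa [pow_zero, div_one] at this
  have hsub : Wn c ℓ (1 / ((2 ^ M : ℕ) : ℝ)) ⊆ Bx c ℓ := Pool.Agent.Helper90.G2.wn_sub hℓ0 hN
  have hst := Pool.Agent.Helper90.G2.bx_sub_strip (c := c) hℓ1
  have hmw := Pool.Agent.Helper90.G2.meas_wn c ℓ (1 / ((2 ^ M : ℕ) : ℝ))
  have hvol := hF.vol hmw (hsub.trans hst)
  have hfin := hF.fin hℓ1 hsub
  set E := Real.exp (w0 Λ τ (vt c ℓ) - ‖τ‖ * KN (2 ^ M)) with hE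
  have hE0 : 0 < E := Real.exp_pos _
  have h1 : ENNReal.ofReal (ar F (Wn c ℓ (1 / ((2 ^ M : ℕ) : ℝ))) * E) =
      ENNReal.ofReal E * volume (F '' Wn c ℓ (1 / ((2 ^ M : ℕ) : ℝ))) := by
    rw [mul_comm, ENNReal.ofReal_mul hE0.le]
    unfold ar
    rw [ENNReal.ofReal_toReal hfin.ne]
  rw [h1, hvol, ← lintegral_const_mul' _ _ ENNReal.ofReal_ne_top]
  refine setLIntegral_mono' hmw fun u hu => ?_
  rw [← ENNReal.ofReal_mul hE0.le, mul_comm]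
  apply ENNReal.ofReal_le_ofReal
  apply mul_le_mul_of_nonneg_left _ (by (clear * -; positivity))
  rw [hE]
  apply Real.exp_le_exp.2
  have huB' : u ∈ Bx (ch ((2 ^ M) ^ k) ξ 1 d) (1 / ((2 ^ M : ℕ) : ℝ) ^ k) := by
    rw [← hc, ← hℓ]
    exact hsub hu
  have hu1 := bx_child hN hd huB'
  have hlv : lv (2 ^ M) u = k := by
    apply lv_eq hN
    · have h2 := hu.1
      rw [hℓ] at h2
      have h3 : 1 / ((2 ^ M : ℕ) : ℝ) ^ (k + 1) =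
          1 / ((2 ^ M : ℕ) : ℝ) * (1 / ((2 ^ M : ℕ) : ℝ) ^ k) := by
        rw [pow_succ]
        field_simp
      rw [h3]
      exact h2
    · rw [← hℓ]
      exact hu.2.1
  have hvk : vk (2 ^ M) ξ k u = vt c ℓ := by
    rw [vk_eq hN huB', ← hc, ← hℓ]
  have h5 := (hy u hu1).last
  rw [hlv] at h5
  simp only [hvk] at h5
  rw [h5]
  exact wn_al hF hΛ hN hℓ0 hℓ1 τ hu

/-- the children of a box -/
theorem kids_add4 (f : ℂ → ENNReal) {N : ℕ} (hN : 2 ≤ N) {c ℓ : ℝ} (hℓ : 0 < ℓ) :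
    (∫⁻ u in Wn c ℓ (1 / N), f u) + ∑ e ∈ Finset.range N, ∫⁻ u in Bx (ch N c ℓ e) (ℓ / N), f u ≤
      ∫⁻ u in Bx c ℓ, f u := by
  have hmb : ∀ e, MeasurableSet (Bx (ch N c ℓ e) (ℓ / N)) := fun e =>
    Pool.Agent.Helper90.G2.meas_bx _ _
  have hd : Set.PairwiseDisjoint (Finset.range N : Set ℕ)
      (fun e => Bx (ch N c ℓ e) (ℓ / N)) := fun d _ e _ hde =>
    Pool.Agent.Helper90.G2.bx_disj hℓ hN hde
  rw [← lintegral_biUnion_finset hd (fun e _ => hmb e) f]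
  have hmu : MeasurableSet (⋃ e ∈ Finset.range N, Bx (ch N c ℓ e) (ℓ / N)) :=
    Finset.measurableSet_biUnion _ fun e _ => hmb e
  have hdu : Disjoint (Wn c ℓ (1 / N)) (⋃ e ∈ Finset.range N, Bx (ch N c ℓ e) (ℓ / N)) := by
    rw [Set.disjoint_iUnion₂_right]
    intro e _
    exact Pool.Agent.Helper90.G2.wn_disj
  rw [← lintegral_union hmu hdu]
  apply lintegral_mono_set
  apply Set.union_subset (Pool.Agent.Helper90.G2.wn_sub hℓ hN)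
  apply Set.iUnion₂_subset
  intro e he
  exact Pool.Agent.Helper90.G2.bx_child_sub hℓ hN (Finset.mem_range.1 he)

theorem Vs_child (F : ℂ → ℂ) (y : ℂ → ℕ → ℝ) {N : ℕ} (hN : 2 ≤ N) {ξ : ℝ} {k d e : ℕ} {c ℓ : ℝ}
    (hc : c = ch (N ^ k) ξ 1 d) (hℓ : ℓ = 1 / (N : ℝ) ^ k) :
    Vs F y N ξ (k + 1) (N * d + e) =
      ∫⁻ u in Bx (ch N c ℓ e) (ℓ / N), ENNReal.ofReal (‖deriv F u‖ ^ 2 * Real.exp (y u (k + 1))) := by
  have h1 : 1 / (N : ℝ) ^ (k + 1) = ℓ / N := by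
    rw [hℓ, pow_succ, div_div]
  rw [Vs, ch_child hN, h1, ← hc, ← hℓ]

theorem bot {F : ℂ → ℂ} {A : ℝ} (hF : Fn F A) {Λ : ℂ → ℂ → ℂ} (hΛ : Br F Λ) {M : ℕ}
    (hM : 1 ≤ M) {ξ ε : ℝ} {τ : ℂ} {y : ℂ → ℕ → ℝ} (hy : Yf F Λ M ξ ε τ y) {k d : ℕ}
    (hd : d < (2 ^ M) ^ k) {c ℓ : ℝ} (hc : c = ch ((2 ^ M) ^ k) ξ 1 d)
    (hℓ : ℓ = 1 / ((2 ^ M : ℕ) : ℝ) ^ k) :
    ENNReal.ofReal (‖Complex.exp ((2 - τ) * (Real.log (vt c ℓ).re + Λ (vt c ℓ) (vt c ℓ)))‖ /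
      (KN (2 ^ M) * Real.exp (‖τ‖ * KN (2 ^ M)))) ≤ Vs F y (2 ^ M) ξ k d := by
  have hN : 2 ≤ 2 ^ M := by
    calc 2 = 2 ^ 1 := rfl
      _ ≤ 2 ^ M := Nat.pow_le_pow_right (by norm_num) hM
  have hp := Levels_pow hN k
  have hℓ0 : 0 < ℓ := by
    rw [hℓ]
    exact one_div_pos.2 hp
  have hℓ1 : ℓ ≤ 1 := by
    rw [hℓ]
    have := Levels_anti hN (Nat.zero_le k)
    rwa [pow_zero, div_one] at this
  have hv : 0 < (vt c ℓ).re := by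
    show 0 < 2 * ℓ
    linarith only [hℓ0]
  have hKN : 0 < KN (2 ^ M) := Real.exp_pos _
  have h1 := w_low hF hΛ hM hy hd hc hℓ
  have h2 := ar_low hF hN (c := c) hℓ0 hℓ1
  have h3 : ∫⁻ u in Wn c ℓ (1 / ((2 ^ M : ℕ) : ℝ)),
      ENNReal.ofReal (‖deriv F u‖ ^ 2 * Real.exp (y u k)) ≤ Vs F y (2 ^ M) ξ k d := by
    rw [Vs, ← hc, ← hℓ]
    exact lintegral_mono_set (Pool.Agent.Helper90.G2.wn_sub hℓ0 hN)
  refine le_trans (ENNReal.ofReal_le_ofReal ?_) (h1.trans h3)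
  have h4 : ‖Complex.exp ((2 - τ) * (Real.log (vt c ℓ).re + Λ (vt c ℓ) (vt c ℓ)))‖ =
      rr F (vt c ℓ) ^ 2 * Real.exp (w0 Λ τ (vt c ℓ)) := by
    have h5 : ‖Complex.exp ((Real.log (vt c ℓ).re : ℂ) + Λ (vt c ℓ) (vt c ℓ))‖ = rr F (vt c ℓ) := by
      rw [Complex.exp_add, hΛ.diag _ hv, norm_mul, ← Complex.ofReal_exp, Real.exp_log hv, rr,
        Complex.norm_real, Real.norm_eq_abs, abs_of_pos hv]
    rw [← h5, ← norm_pow, ← Complex.exp_nat_mul, Complex.norm_exp, Complex.norm_exp, w0,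
      ← Real.exp_add]
    congr 1
    rw [sub_mul, Complex.sub_re]
    push_cast
    ring
  rw [h4, Real.exp_sub]
  have hE1 := Real.exp_pos (w0 Λ τ (vt c ℓ))
  have hE2 := Real.exp_pos (‖τ‖ * KN (2 ^ M))
  calc rr F (vt c ℓ) ^ 2 * Real.exp (w0 Λ τ (vt c ℓ)) / (KN (2 ^ M) * Real.exp (‖τ‖ * KN (2 ^ M)))
      = rr F (vt c ℓ) ^ 2 / KN (2 ^ M) *
        (Real.exp (w0 Λ τ (vt c ℓ)) / Real.exp (‖τ‖ * KN (2 ^ M))) := by
        field_simp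
    _ ≤ ar F (Wn c ℓ (1 / ((2 ^ M : ℕ) : ℝ))) *
        (Real.exp (w0 Λ τ (vt c ℓ)) / Real.exp (‖τ‖ * KN (2 ^ M))) := by
        apply mul_le_mul_of_nonneg_right _ (by (clear * -; positivity))
        rw [div_le_iff₀ hKN, mul_comm]
        exact h2

end Pool.Agent.Helper26.G4
end

/- Helper24.K6w.H26.G5.Kids5 -/
section
/-!
# G5-KIDS: lower bounds

Copies of `w_low`, `bot` of `Pool.Agent.Helper26.G4.Kids4` (only `Fz5.last` is used: `y u k = al Λ τ v u` in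
the upper part of the box), and `V5_low`. `Vn_child`: as `Vs_child`.
-/

set_option autoImplicit false

namespace Pool.Agent.Helper26.G5

open MeasureTheory Set
open scoped Real
open Pool.Agent.Helper90.G2 (Bx Wn Fn ar ch Cen chi)
open Pool.Agent.Helper26.G4 (vt Br Lb wd al rr w0 Bad cn vk lv KN Sa Sc mm KK C9 Sg)

/-- the lower bound of the plain functional of the upper part -/
theorem Kids5_Vq {F : ℂ → ℂ} {A : ℝ} (hF : Fn F A) {Λ : ℂ → ℂ → ℂ} (hΛ : Br F Λ) {M : ℕ}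
    (hM : 1 ≤ M) {ξ ε b B Cc : ℝ} {τ : ℂ} {y χ : ℂ → ℕ → ℝ} (hy : Yf5 F Λ M ξ ε b B Cc τ y χ)
    {k d : ℕ} (hd : d < (2 ^ M) ^ k) {c ℓ : ℝ} (hc : c = ch ((2 ^ M) ^ k) ξ 1 d)
    (hℓ : ℓ = 1 / ((2 ^ M : ℕ) : ℝ) ^ k) :
    ENNReal.ofReal (ar F (Wn c ℓ (1 / ((2 ^ M : ℕ) : ℝ))) *
      Real.exp (w0 Λ τ (vt c ℓ) - ‖τ‖ * KN (2 ^ M))) ≤
    Vq F y k (Wn c ℓ (1 / ((2 ^ M : ℕ) : ℝ))) := by
  have hN : 2 ≤ 2 ^ M := by
    calc 2 = 2 ^ 1 := rfl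
      _ ≤ 2 ^ M := Nat.pow_le_pow_right (by norm_num) hM
  have hp := Pool.Agent.Helper26.G4.Levels_pow hN k
  have hℓ0 : 0 < ℓ := by
    rw [hℓ]
    exact one_div_pos.2 hp
  have hℓ1 : ℓ ≤ 1 := by
    rw [hℓ]
    have := Pool.Agent.Helper26.G4.Levels_anti hN (Nat.zero_le k)
    rwa [pow_zero, div_one] at this
  have hsub : Wn c ℓ (1 / ((2 ^ M : ℕ) : ℝ)) ⊆ Bx c ℓ := Pool.Agent.Helper90.G2.wn_sub hℓ0 hN
  have hst := Pool.Agent.Helper90.G2.bx_sub_strip (c := c) hℓ1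
  have hmw := Pool.Agent.Helper90.G2.meas_wn c ℓ (1 / ((2 ^ M : ℕ) : ℝ))
  have hvol := hF.vol hmw (hsub.trans hst)
  have hfin := hF.fin hℓ1 hsub
  set E := Real.exp (w0 Λ τ (vt c ℓ) - ‖τ‖ * KN (2 ^ M)) with hE
  have hE0 : 0 < E := Real.exp_pos _
  have h1 : ENNReal.ofReal (ar F (Wn c ℓ (1 / ((2 ^ M : ℕ) : ℝ))) * E) =
      ENNReal.ofReal E * volume (F '' Wn c ℓ (1 / ((2 ^ M : ℕ) : ℝ))) := by
    rw [mul_comm, ENNReal.ofReal_mul hE0.le]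
    unfold ar
    rw [ENNReal.ofReal_toReal hfin.ne]
  rw [Vq, h1, hvol, ← lintegral_const_mul' _ _ ENNReal.ofReal_ne_top]
  refine setLIntegral_mono' hmw fun u hu => ?_
  rw [← ENNReal.ofReal_mul hE0.le, mul_comm]
  apply ENNReal.ofReal_le_ofReal
  apply mul_le_mul_of_nonneg_left _ (by (clear * -; positivity))
  rw [hE]
  apply Real.exp_le_exp.2
  have huB' : u ∈ Bx (ch ((2 ^ M) ^ k) ξ 1 d) (1 / ((2 ^ M : ℕ) : ℝ) ^ k) := by
    rw [← hc, ← hℓ]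
    exact hsub hu
  have hu1 := Pool.Agent.Helper26.G4.bx_child hN hd huB'
  have hlv : lv (2 ^ M) u = k := by
    apply Pool.Agent.Helper26.G4.lv_eq hN
    · have h2 := hu.1
      rw [hℓ] at h2
      have h3 : 1 / ((2 ^ M : ℕ) : ℝ) ^ (k + 1) =
          1 / ((2 ^ M : ℕ) : ℝ) * (1 / ((2 ^ M : ℕ) : ℝ) ^ k) := by
        rw [pow_succ]
        field_simp
      rw [h3]
      exact h2
    · rw [← hℓ]
      exact hu.2.1
  have hvk : vk (2 ^ M) ξ k u = vt c ℓ := by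
    rw [Pool.Agent.Helper26.G4.vk_eq hN huB', ← hc, ← hℓ]
  have h5 := (hy u hu1).last
  rw [hlv] at h5
  simp only [hvk] at h5
  rw [h5]
  exact Pool.Agent.Helper26.G4.wn_al hF hΛ hN hℓ0 hℓ1 τ hu

/-- the boxes lie in the top box -/
theorem Kids5_sub {M : ℕ} (hM : 1 ≤ M) {ξ : ℝ} {k d : ℕ} (hd : d < (2 ^ M) ^ k) {c ℓ : ℝ}
    (hc : c = ch ((2 ^ M) ^ k) ξ 1 d) (hℓ : ℓ = 1 / ((2 ^ M : ℕ) : ℝ) ^ k) :
    Bx c ℓ ⊆ Bx ξ 1 := by
  intro u hu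
  have hN : 2 ≤ 2 ^ M := by
    calc 2 = 2 ^ 1 := rfl
      _ ≤ 2 ^ M := Nat.pow_le_pow_right (by norm_num) hM
  rw [hc, hℓ] at hu
  exact Pool.Agent.Helper26.G4.bx_child hN hd hu

theorem w_low5 {F : ℂ → ℂ} {A : ℝ} (hF : Fn F A) {Λ : ℂ → ℂ → ℂ} (hΛ : Br F Λ) {M : ℕ}
    (hM : 1 ≤ M) {ξ ε b B Cc β : ℝ} {τ : ℂ} {y χ : ℂ → ℕ → ℝ} (hy : Yf5 F Λ M ξ ε b B Cc τ y χ)
    {κ : ℂ → ℝ} (hκ : ∀ z, |κ z| ≤ 1) (hβ : 0 ≤ β) (hβ1 : β ≤ 1) {k d : ℕ}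
    (hd : d < (2 ^ M) ^ k) {c ℓ : ℝ} (hc : c = ch ((2 ^ M) ^ k) ξ 1 d)
    (hℓ : ℓ = 1 / ((2 ^ M : ℕ) : ℝ) ^ k) :
    ENNReal.ofReal ((1 - β) * (ar F (Wn c ℓ (1 / ((2 ^ M : ℕ) : ℝ))) *
      Real.exp (w0 Λ τ (vt c ℓ) - ‖τ‖ * KN (2 ^ M)))) ≤
    V5 F y χ κ β k (vt c ℓ) (Wn c ℓ (1 / ((2 ^ M : ℕ) : ℝ))) := by
  have hN : 2 ≤ 2 ^ M := by
    calc 2 = 2 ^ 1 := rfl
      _ ≤ 2 ^ M := Nat.pow_le_pow_right (by norm_num) hM
  have hℓ0 : 0 < ℓ := by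
    rw [hℓ]
    exact one_div_pos.2 (Pool.Agent.Helper26.G4.Levels_pow hN k)
  have hmw := Pool.Agent.Helper90.G2.meas_wn c ℓ (1 / ((2 ^ M : ℕ) : ℝ))
  have hsub : Wn c ℓ (1 / ((2 ^ M : ℕ) : ℝ)) ⊆ Bx ξ 1 :=
    (Pool.Agent.Helper90.G2.wn_sub hℓ0 hN).trans (Kids5_sub hM hd hc hℓ)
  rw [ENNReal.ofReal_mul (by (clear * - hβ1; linarith only [hβ1]))]
  refine le_trans ?_ (V5_low hmw hβ hβ1 hκ fun u hu => (hy u (hsub hu)).flag k)
  gcongr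
  exact Kids5_Vq hF hΛ hM hy hd hc hℓ

theorem Vn_child (F : ℂ → ℂ) (y χ : ℂ → ℕ → ℝ) (κ : ℂ → ℝ) (β : ℝ) {N : ℕ} (hN : 2 ≤ N) {ξ : ℝ}
    {k d e : ℕ} {c ℓ : ℝ} (hc : c = ch (N ^ k) ξ 1 d) (hℓ : ℓ = 1 / (N : ℝ) ^ k) :
    Vn F y χ κ β N ξ (k + 1) (N * d + e) =
      V5 F y χ κ β (k + 1) (vt (ch N c ℓ e) (ℓ / N)) (Bx (ch N c ℓ e) (ℓ / N)) := by
  have h1 : 1 / (N : ℝ) ^ (k + 1) = ℓ / N := by
    rw [hℓ, pow_succ, div_div]
  rw [Vn, Pool.Agent.Helper26.G4.ch_child hN, h1, ← hc, ← hℓ]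

theorem bot5 {F : ℂ → ℂ} {A : ℝ} (hF : Fn F A) {Λ : ℂ → ℂ → ℂ} (hΛ : Br F Λ) {M : ℕ}
    (hM : 1 ≤ M) {ξ ε b B Cc β : ℝ} {τ : ℂ} {y χ : ℂ → ℕ → ℝ} (hy : Yf5 F Λ M ξ ε b B Cc τ y χ)
    {κ : ℂ → ℝ} (hκ : ∀ z, |κ z| ≤ 1) (hβ : 0 ≤ β) (hβ1 : β ≤ 1 / 2) {k d : ℕ}
    (hd : d < (2 ^ M) ^ k) {c ℓ : ℝ} (hc : c = ch ((2 ^ M) ^ k) ξ 1 d)
    (hℓ : ℓ = 1 / ((2 ^ M : ℕ) : ℝ) ^ k) :
    ENNReal.ofReal (‖Complex.exp ((2 - τ) * (Real.log (vt c ℓ).re + Λ (vt c ℓ) (vt c ℓ)))‖ /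
      (2 * (KN (2 ^ M) * Real.exp (‖τ‖ * KN (2 ^ M))))) ≤ Vn F y χ κ β (2 ^ M) ξ k d := by
  have hN : 2 ≤ 2 ^ M := by
    calc 2 = 2 ^ 1 := rfl
      _ ≤ 2 ^ M := Nat.pow_le_pow_right (by norm_num) hM
  have hp := Pool.Agent.Helper26.G4.Levels_pow hN k
  have hℓ0 : 0 < ℓ := by
    rw [hℓ]
    exact one_div_pos.2 hp
  have hℓ1 : ℓ ≤ 1 := by
    rw [hℓ]
    have := Pool.Agent.Helper26.G4.Levels_anti hN (Nat.zero_le k)
    rwa [pow_zero, div_one] at this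
  have hv : 0 < (vt c ℓ).re := by
    show 0 < 2 * ℓ
    (clear * - hℓ0; linarith only [hℓ0])
  have hKN : 0 < KN (2 ^ M) := Real.exp_pos _
  have h1 := Kids5_Vq hF hΛ hM hy hd hc hℓ
  have h2 := Pool.Agent.Helper26.G4.ar_low hF hN (c := c) hℓ0 hℓ1
  have h3 : Vq F y k (Wn c ℓ (1 / ((2 ^ M : ℕ) : ℝ))) ≤ Vq F y k (Bx c ℓ) := by
    rw [Vq, Vq]
    exact lintegral_mono_set (Pool.Agent.Helper90.G2.wn_sub hℓ0 hN)
  have h6 : ENNReal.ofReal (1 - β) * Vq F y k (Bx c ℓ) ≤ Vn F y χ κ β (2 ^ M) ξ k d := by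
    rw [Vn, ← hc, ← hℓ]
    exact V5_low (Pool.Agent.Helper90.G2.meas_bx c ℓ) hβ (by (clear * - hβ1; linarith only [hβ1])) hκ
      fun u hu => (hy u (Kids5_sub hM hd hc hℓ hu)).flag k
  refine le_trans ?_ h6
  refine le_trans ?_ (mul_le_mul' le_rfl (h1.trans h3))
  rw [← ENNReal.ofReal_mul (by (clear * - hβ1; linarith only [hβ1]))]
  apply ENNReal.ofReal_le_ofReal
  have h4 : ‖Complex.exp ((2 - τ) * (Real.log (vt c ℓ).re + Λ (vt c ℓ) (vt c ℓ)))‖ =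
      rr F (vt c ℓ) ^ 2 * Real.exp (w0 Λ τ (vt c ℓ)) := by
    have h5 : ‖Complex.exp ((Real.log (vt c ℓ).re : ℂ) + Λ (vt c ℓ) (vt c ℓ))‖ = rr F (vt c ℓ) := by
      rw [Complex.exp_add, hΛ.diag _ hv, norm_mul, ← Complex.ofReal_exp, Real.exp_log hv, rr,
        Complex.norm_real, Real.norm_eq_abs, abs_of_pos hv]
    rw [← h5, ← norm_pow, ← Complex.exp_nat_mul, Complex.norm_exp, Complex.norm_exp, w0,
      ← Real.exp_add]
    congr 1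
    rw [sub_mul, Complex.sub_re]
    push_cast
    ring
  rw [h4, Real.exp_sub]
  have hE1 := Real.exp_pos (w0 Λ τ (vt c ℓ))
  have hE2 := Real.exp_pos (‖τ‖ * KN (2 ^ M))
  calc rr F (vt c ℓ) ^ 2 * Real.exp (w0 Λ τ (vt c ℓ)) /
        (2 * (KN (2 ^ M) * Real.exp (‖τ‖ * KN (2 ^ M))))
      = 1 / 2 * (rr F (vt c ℓ) ^ 2 / KN (2 ^ M) *
        (Real.exp (w0 Λ τ (vt c ℓ)) / Real.exp (‖τ‖ * KN (2 ^ M)))) := by
        (clear * - hKN; field_simp)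
    _ ≤ (1 - β) * (ar F (Wn c ℓ (1 / ((2 ^ M : ℕ) : ℝ))) *
        (Real.exp (w0 Λ τ (vt c ℓ)) / Real.exp (‖τ‖ * KN (2 ^ M)))) := by
        apply mul_le_mul (by (clear * - hβ1; linarith only [hβ1])) _ (by (clear * - hKN; positivity)) (by linarith only [hβ1])
        apply mul_le_mul_of_nonneg_right _ (by positivity)
        rw [div_le_iff₀ hKN, mul_comm]
        exact h2

theorem Kids5_y {F : ℂ → ℂ} {Λ : ℂ → ℂ → ℂ} {M : ℕ} {ξ ε b B Cc C : ℝ} {τ : ℂ}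
    (hτ : ‖τ‖ ≤ 1) {y χ : ℂ → ℕ → ℝ} (hy : Yf5 F Λ M ξ ε b B Cc τ y χ) (hξ : |ξ| ≤ 7)
    (h : ∀ u ∈ Bx ξ 1, ‖Lb Λ (vt ξ 1) u‖ ≤ C + |ξ|) {u : ℂ} (hu : u ∈ Bx ξ 1) :
    y u 0 ≤ C + 7 := by
  have h0 : y u 0 = al Λ τ (vk (2 ^ M) ξ 0 u) u := (hy u hu).zero
  rw [h0, Pool.Agent.Helper26.G4.vk_zero hu, al]
  have h1 : -(τ * Lb Λ (vt ξ 1) u).re ≤ ‖τ * Lb Λ (vt ξ 1) u‖ := by
    have := Complex.abs_re_le_norm (τ * Lb Λ (vt ξ 1) u)
    exact (neg_le_abs _).trans this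
  have h2 : ‖τ * Lb Λ (vt ξ 1) u‖ ≤ ‖Lb Λ (vt ξ 1) u‖ := by
    rw [norm_mul]
    exact mul_le_of_le_one_left (norm_nonneg _) hτ
  have h3 := h u hu
  (clear * - hξ h1 h2 h3; linarith only [hξ, h1, h2, h3])

theorem top5 {F : ℂ → ℂ} {A : ℝ} (hF : Fn F A) {Λ : ℂ → ℂ → ℂ} {M : ℕ} {ξ ε b B Cc β C : ℝ} {τ : ℂ}
    (hτ : ‖τ‖ ≤ 1) {y χ : ℂ → ℕ → ℝ} (hy : Yf5 F Λ M ξ ε b B Cc τ y χ) {κ : ℂ → ℝ}
    (hκ : ∀ z, |κ z| ≤ 1) (hβ : 0 ≤ β) (hβ1 : β ≤ 1 / 2) (hξ : |ξ| ≤ 7)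
    (h : ∀ u ∈ Bx ξ 1, ‖Lb Λ (vt ξ 1) u‖ ≤ C + |ξ|) :
    Vn F y χ κ β (2 ^ M) ξ 0 0 ≤ ENNReal.ofReal (2 * (A * Real.exp (C + 7))) := by
  have hm := Pool.Agent.Helper90.G2.meas_bx ξ 1
  have hb : 1 / ((2 ^ M : ℕ) : ℝ) ^ 0 = 1 := by rw [pow_zero, div_one]
  have hVq : Vq F y 0 (Bx ξ 1) ≤ ENNReal.ofReal (A * Real.exp (C + 7)) := by
    rw [Vq]
    calc ∫⁻ u in Bx ξ 1, ENNReal.ofReal (‖deriv F u‖ ^ 2 * Real.exp (y u 0))
        ≤ ∫⁻ u in Bx ξ 1, ENNReal.ofReal (‖deriv F u‖ ^ 2) *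
          ENNReal.ofReal (Real.exp (C + 7)) := by
          refine setLIntegral_mono' hm fun u hu => ?_
          rw [ENNReal.ofReal_mul (by positivity)]
          gcongr
          exact Kids5_y hτ hy hξ h hu
      _ = (∫⁻ u in Bx ξ 1, ENNReal.ofReal (‖deriv F u‖ ^ 2)) *
          ENNReal.ofReal (Real.exp (C + 7)) :=
          lintegral_mul_const' _ _ ENNReal.ofReal_ne_top
      _ = volume (F '' Bx ξ 1) * ENNReal.ofReal (Real.exp (C + 7)) := by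
          rw [hF.vol hm (Pool.Agent.Helper26.G4.TopB_sub ξ)]
      _ ≤ ENNReal.ofReal A * ENNReal.ofReal (Real.exp (C + 7)) := by
          gcongr
          exact hF.area ξ
      _ = ENNReal.ofReal (A * Real.exp (C + 7)) := (ENNReal.ofReal_mul' (Real.exp_pos _).le).symm
  rw [Vn, Pool.Agent.Helper26.G4.TopB_ch, hb]
  refine (V5_up hm hβ hκ fun u hu => (hy u hu).flag 0).trans ?_
  rw [ENNReal.ofReal_mul (by norm_num : (0 : ℝ) ≤ 2)]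
  exact mul_le_mul' (ENNReal.ofReal_le_ofReal (by (clear * - hβ1; linarith only [hβ1]))) hVq

end Pool.Agent.Helper26.G5
end

/- Helper24.K6w.H26.G4.ErB -/
section
/-!
# G4-ERB: real numbers

`r = 2 KN rr`, `rr² ≤ KN a`: `δ π r² 10 N ≤ δ K1 a`. `s ≤ KN rr = r / 2`, `s ≤ S √a`:
`δ π s² / (4 (1 - ε) δ m0) ≤ π S² a / (4 (1 - ε) m0)`; `δ 2 π s³ / (√(ε δ m0) r) ≤ √δ π S² a / √(ε m0)`.
`er_mm`: `m0 = mm S ε`, `π S² / (4 (1 - ε) m0) = (1 - 6 ε) / (1 - ε) ≤ 1 - 5 ε` and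
`π S² / √(ε m0) ≤ 4 S / √ε` (`π² ≤ 4 · 4 · π ...`: `π S² / √(ε π S² / (4 (1 - 6 ε))) = 2 √π S √(1 - 6 ε) / √ε`),
total `≤ (1 - 5 ε + ε / 2) a` and `e^(2 ε + ε / 2) (1 - 9 ε / 2) ≤ 1 - ε` for `ε ≤ 1 / 20`.
`er_KK`: `m0 = KK N ε = 4 π Sa² N / ε`: `π Sa² / (4 (1 - ε) m0) = ε / (16 (1 - ε) N) ≤ ε / (8 N)`,
`π Sa² / √(ε m0) = √π Sa / (2 √N) ≤ Sa`; `e^(5 ε / 2) (ε / (8 N) + ε / (4 N)) ≤ ε / N`.
-/

set_option autoImplicit false

namespace Pool.Agent.Helper26.G4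

open MeasureTheory Set
open scoped Real
open Pool.Agent.Helper90.G2 (Bx Wn Fn ar ch Cen chi)

theorem er_gen {N : ℕ} (hN : 2 ≤ N) {ε δ m0 S s R a : ℝ} (hε : 0 < ε) (hε1 : ε ≤ 1 / 20)
    (hδ : 0 < δ) (hm : 0 < m0) (hR : 0 < R) (ha : 0 < a) (hs : 0 ≤ s) (h1 : R ^ 2 ≤ KN N * a)
    (h2 : s ≤ KN N * R) (h3 : s ≤ √a * S) :
    δ * Er ε (δ * m0) s (2 * KN N * R) (10 * N) ≤
      (δ * K1 N + π * S ^ 2 / (4 * (1 - ε) * m0) + √δ * (π * S ^ 2 / √(ε * m0))) * a := by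
  have hK : 0 < KN N := Real.exp_pos _
  have hπ := Real.pi_pos
  have hN0 : (0 : ℝ) < N := by
    have : 0 < N := by omega
    exact_mod_cast this
  have hs2 : s ^ 2 ≤ a * S ^ 2 := by
    have h : s ^ 2 ≤ (√a * S) ^ 2 := pow_le_pow_left₀ hs h3 2
    rw [mul_pow, Real.sq_sqrt ha.le] at h
    exact h
  have e1 : 0 < 1 - ε := by linarith only [hε1]
  have hsd : 0 < √δ := Real.sqrt_pos.2 hδ
  have hem : 0 < ε * m0 := mul_pos hε hm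
  have hse : 0 < √(ε * m0) := Real.sqrt_pos.2 hem
  have hsplit : √(ε * (δ * m0)) = √δ * √(ε * m0) := by
    rw [← Real.sqrt_mul hδ.le]
    congr 1
    ring
  -- the three terms
  have t1 : δ * (π * (2 * KN N * R) ^ 2 * (10 * N)) ≤ δ * K1 N * a := by
    have : δ * (π * (2 * KN N * R) ^ 2 * (10 * N)) = (δ * 40 * π * N * KN N ^ 2) * R ^ 2 := by ring
    rw [this]
    have h : (δ * 40 * π * N * KN N ^ 2) * R ^ 2 ≤ (δ * 40 * π * N * KN N ^ 2) * (KN N * a) :=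
      mul_le_mul_of_nonneg_left h1 (by (clear * - hδ hN hK; positivity))
    refine h.trans (le_of_eq ?_)
    unfold K1
    ring
  have t2 : δ * (π * s ^ 2 / (4 * (1 - ε) * (δ * m0))) ≤ π * S ^ 2 / (4 * (1 - ε) * m0) * a := by
    have : δ * (π * s ^ 2 / (4 * (1 - ε) * (δ * m0))) = π * s ^ 2 / (4 * (1 - ε) * m0) := by
      field_simp
    rw [this, div_mul_eq_mul_div]
    apply div_le_div_of_nonneg_right _ (by (clear * - e1 hm; positivity))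
    have h : π * s ^ 2 ≤ π * (a * S ^ 2) := mul_le_mul_of_nonneg_left hs2 hπ.le
    calc π * s ^ 2 ≤ π * (a * S ^ 2) := h
      _ = π * S ^ 2 * a := by ring
  have t3 : δ * (2 * π * s ^ 3 / (√(ε * (δ * m0)) * (2 * KN N * R))) ≤
      √δ * (π * S ^ 2 / √(ε * m0)) * a := by
    rw [hsplit]
    have hs3 : s ^ 3 ≤ (a * S ^ 2) * (KN N * R) := by
      calc s ^ 3 = s ^ 2 * s := by ring
        _ ≤ (a * S ^ 2) * (KN N * R) := mul_le_mul hs2 h2 hs (by (clear * - ha; positivity))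
    have hd : 0 < √δ * √(ε * m0) * (2 * KN N * R) := by positivity
    have : δ * (2 * π * s ^ 3 / (√δ * √(ε * m0) * (2 * KN N * R))) =
        (δ * (2 * π) * s ^ 3) / (√δ * √(ε * m0) * (2 * KN N * R)) := by ring
    rw [this, div_le_iff₀ hd]
    have hdd : √δ * √δ = δ := Real.mul_self_sqrt hδ.le
    calc δ * (2 * π) * s ^ 3 ≤ δ * (2 * π) * ((a * S ^ 2) * (KN N * R)) :=
          mul_le_mul_of_nonneg_left hs3 (by positivity)
      _ = (√δ * √δ) * (2 * π) * ((a * S ^ 2) * (KN N * R)) := by rw [hdd]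
      _ = √δ * (π * S ^ 2 / √(ε * m0)) * a * (√δ * √(ε * m0) * (2 * KN N * R)) := by
          (clear * - hε hm hR hK ha hδ; field_simp)
  unfold Er
  calc δ * (π * (2 * KN N * R) ^ 2 * (10 * N) + π * s ^ 2 / (4 * (1 - ε) * (δ * m0)) +
        2 * π * s ^ 3 / (√(ε * (δ * m0)) * (2 * KN N * R)))
      = δ * (π * (2 * KN N * R) ^ 2 * (10 * N)) + δ * (π * s ^ 2 / (4 * (1 - ε) * (δ * m0))) +
        δ * (2 * π * s ^ 3 / (√(ε * (δ * m0)) * (2 * KN N * R))) := by ring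
    _ ≤ δ * K1 N * a + π * S ^ 2 / (4 * (1 - ε) * m0) * a + √δ * (π * S ^ 2 / √(ε * m0)) * a :=
        add_le_add (add_le_add t1 t2) t3
    _ = (δ * K1 N + π * S ^ 2 / (4 * (1 - ε) * m0) + √δ * (π * S ^ 2 / √(ε * m0))) * a := by ring

private theorem sqrt_pi_le : √π ≤ 2 := by
  rw [show (2 : ℝ) = √4 by
    rw [show (4 : ℝ) = 2 ^ 2 by norm_num, Real.sqrt_sq (by norm_num : (0 : ℝ) ≤ 2)]]
  exact Real.sqrt_le_sqrt Real.pi_le_four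

private theorem exp_le_aux {x : ℝ} (h0 : 0 ≤ x) (h1 : x ≤ 1 / 2) : Real.exp (-(2 * x)) ≤ 1 - x := by
  have h3 : 1 ≤ (1 - x) * Real.exp (2 * x) := by
    have h4 : 1 + 2 * x ≤ Real.exp (2 * x) := by linarith only [Real.add_one_le_exp (2 * x)]
    have : (1 - x) * (1 + 2 * x) ≤ (1 - x) * Real.exp (2 * x) :=
      mul_le_mul_of_nonneg_left h4 (by (clear * - h1; linarith only [h1]))
    (clear * - this h0 h1; nlinarith only [h0, h1, this])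
  rw [Real.exp_neg]
  rw [inv_le_iff_one_le_mul₀ (Real.exp_pos _)]
  exact h3

theorem er_mm {N : ℕ} (hN : 2 ≤ N) {ε δ S s R a : ℝ} (hε : 0 < ε) (hε1 : ε ≤ 1 / 20)
    (hδ : 0 < δ) (hS : 1 ≤ S) (hR : 0 < R) (ha : 0 < a) (hs : 0 ≤ s) (h1 : R ^ 2 ≤ KN N * a)
    (h2 : s ≤ KN N * R) (h3 : s ≤ √a * S) (h4 : δ * K1 N + √δ * (4 * S / √ε) ≤ ε / 2)
    (h5 : δ * KN N ≤ ε / 2) :
    Real.exp (2 * ε) * (δ * Er ε (δ * mm S ε) s (2 * KN N * R) (10 * N)) ≤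
      (1 - ε) * (a * Real.exp (-(δ * KN N))) := by
  have hπ := Real.pi_pos
  have hS0 : 0 < S := by linarith only [hS]
  have h6 : 0 < 1 - 6 * ε := by linarith only [hε1]
  have he1 : 0 < 1 - ε := by (clear * - h6; linarith only [h6])
  have hm : 0 < mm S ε := by unfold mm; (clear * - hS h6; positivity)
  have hg := er_gen hN hε hε1 hδ hm hR ha hs h1 h2 h3
  have hse : 0 < √ε := Real.sqrt_pos.2 hε
  have hsd : 0 ≤ √δ := Real.sqrt_nonneg _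
  -- the quadratic term
  have q1 : π * S ^ 2 / (4 * (1 - ε) * mm S ε) ≤ 1 - 5 * ε := by
    have : π * S ^ 2 / (4 * (1 - ε) * mm S ε) = (1 - 6 * ε) / (1 - ε) := by
      unfold mm
      (clear * - hS he1; field_simp)
    rw [this, div_le_iff₀ he1]
    (clear * - hε; nlinarith only [hε])
  -- the cubic term
  have q2 : π * S ^ 2 / √(ε * mm S ε) ≤ 4 * S / √ε := by
    have hmm : π / 4 * S ^ 2 ≤ mm S ε := by
      unfold mm
      rw [le_div_iff₀ (by (clear * - h6; positivity))]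
      have : 0 ≤ π * S ^ 2 := by positivity
      (clear * - hε this; nlinarith only [hε, this])
    have hsq : √ε * (√π / 2 * S) ≤ √(ε * mm S ε) := by
      apply Real.le_sqrt_of_sq_le
      have : (√ε * (√π / 2 * S)) ^ 2 = (√ε) ^ 2 * ((√π) ^ 2 / 4 * S ^ 2) := by ring
      rw [this, Real.sq_sqrt hε.le, Real.sq_sqrt hπ.le]
      exact mul_le_mul_of_nonneg_left hmm hε.le
    have hsp : 0 < √π := Real.sqrt_pos.2 hπ
    have hpos : 0 < √ε * (√π / 2 * S) := by positivity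
    calc π * S ^ 2 / √(ε * mm S ε) ≤ π * S ^ 2 / (√ε * (√π / 2 * S)) :=
          div_le_div_of_nonneg_left (by positivity) hpos hsq
      _ = (2 * √π) * S / √ε := by
          have hpp : π = √π * √π := (Real.mul_self_sqrt hπ.le).symm
          field_simp
          linarith only [hpp]
      _ ≤ 4 * S / √ε := by
          apply div_le_div_of_nonneg_right _ hse.le
          have := sqrt_pi_le
          (clear * - hS0 this; nlinarith only [hS0, this])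
  have h7 : δ * Er ε (δ * mm S ε) s (2 * KN N * R) (10 * N) ≤ (1 - 9 / 2 * ε) * a := by
    refine hg.trans (mul_le_mul_of_nonneg_right ?_ ha.le)
    have := mul_le_mul_of_nonneg_left q2 hsd
    linarith only [h4, q1, this]
  have h8 : Real.exp (2 * ε) * (1 - 9 / 2 * ε) ≤ (1 - ε) * Real.exp (-(δ * KN N)) := by
    have b1 : 1 - 9 / 2 * ε ≤ Real.exp (-(9 / 2 * ε)) := by
      (clear * -; linarith only [Real.add_one_le_exp (-(9 / 2 * ε))])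
    have b2 : Real.exp (-(ε / 2)) ≤ Real.exp (-(δ * KN N)) := Real.exp_le_exp.2 (by linarith only [h5])
    have b3 : Real.exp (-(2 * ε)) ≤ 1 - ε := exp_le_aux hε.le (by linarith only [h6])
    calc Real.exp (2 * ε) * (1 - 9 / 2 * ε) ≤ Real.exp (2 * ε) * Real.exp (-(9 / 2 * ε)) :=
          mul_le_mul_of_nonneg_left b1 (Real.exp_pos _).le
      _ = Real.exp (-(2 * ε)) * Real.exp (-(ε / 2)) := by
          rw [← Real.exp_add, ← Real.exp_add]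
          congr 1
          ring
      _ ≤ (1 - ε) * Real.exp (-(δ * KN N)) :=
          mul_le_mul b3 b2 (Real.exp_pos _).le he1.le
  calc Real.exp (2 * ε) * (δ * Er ε (δ * mm S ε) s (2 * KN N * R) (10 * N))
      ≤ Real.exp (2 * ε) * ((1 - 9 / 2 * ε) * a) :=
        mul_le_mul_of_nonneg_left h7 (Real.exp_pos _).le
    _ = (Real.exp (2 * ε) * (1 - 9 / 2 * ε)) * a := by ring
    _ ≤ ((1 - ε) * Real.exp (-(δ * KN N))) * a := mul_le_mul_of_nonneg_right h8 ha.le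
    _ = (1 - ε) * (a * Real.exp (-(δ * KN N))) := by ring

private theorem Sa_one {N : ℕ} (hN : 2 ≤ N) : 1 ≤ Sa N := by
  have hl : 0 ≤ Real.log N := Real.log_natCast_nonneg N
  have h : (1 : ℝ) ≤ √(1 + Real.log N) := by
    rw [Real.one_le_sqrt]
    linarith only [hl]
  unfold Sa
  (clear * - h; linarith only [h])

theorem er_KK {N : ℕ} (hN : 2 ≤ N) {ε δ s R a : ℝ} (hε : 0 < ε) (hε1 : ε ≤ 1 / 20)
    (hδ : 0 < δ) (hR : 0 < R) (ha : 0 < a) (hs : 0 ≤ s) (h1 : R ^ 2 ≤ KN N * a)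
    (h2 : s ≤ KN N * R) (h3 : s ≤ √a * Sa N) (h4 : δ * K1 N + √δ * Sa N ≤ ε / (4 * N))
    (h5 : δ * KN N ≤ ε / 2) :
    Real.exp (2 * ε) * (δ * Er ε (δ * KK N ε) s (2 * KN N * R) (10 * N)) ≤
      ε / N * (a * Real.exp (-(δ * KN N))) := by
  have hπ := Real.pi_pos
  have hS0 : 1 ≤ Sa N := Sa_one hN
  have hSp : 0 < Sa N := by linarith only [hS0]
  have hN1 : (2 : ℝ) ≤ N := by exact_mod_cast hN
  have hNp : (0 : ℝ) < N := by (clear * - hN1; linarith only [hN1])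
  have he1 : 0 < 1 - ε := by (clear * - hε1; linarith only [hε1])
  have hm : 0 < KK N ε := by unfold KK; (clear * - hS0 hN hε; positivity)
  have hg := er_gen hN hε hε1 hδ hm hR ha hs h1 h2 h3
  have hsd : 0 ≤ √δ := Real.sqrt_nonneg _
  have q1 : π * Sa N ^ 2 / (4 * (1 - ε) * KK N ε) ≤ ε / (8 * N) := by
    have : π * Sa N ^ 2 / (4 * (1 - ε) * KK N ε) = ε / (16 * (1 - ε) * N) := by
      unfold KK
      field_simp
      ring
    rw [this]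
    apply div_le_div_of_nonneg_left hε.le (by (clear * - hN; positivity))
    (clear * - hε1; nlinarith only [hε1])
  have q2 : π * Sa N ^ 2 / √(ε * KK N ε) ≤ Sa N := by
    have hsq : π * Sa N ≤ √(ε * KK N ε) := by
      apply Real.le_sqrt_of_sq_le
      have : ε * KK N ε = 4 * π * Sa N ^ 2 * N := by
        unfold KK
        (clear * - hε hN hS0; field_simp)
      rw [this]
      have hp4 := Real.pi_le_four
      have hk : π * Sa N ^ 2 * π ≤ π * Sa N ^ 2 * (4 * N) :=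
        mul_le_mul_of_nonneg_left (by linarith only [hN1, hp4]) (by positivity)
      calc (π * Sa N) ^ 2 = π * Sa N ^ 2 * π := by ring
        _ ≤ π * Sa N ^ 2 * (4 * N) := hk
        _ = 4 * π * Sa N ^ 2 * N := by ring
    have hpos : 0 < √(ε * KK N ε) := lt_of_lt_of_le (by positivity) hsq
    rw [div_le_iff₀ hpos]
    calc π * Sa N ^ 2 = Sa N * (π * Sa N) := by ring
      _ ≤ Sa N * √(ε * KK N ε) := mul_le_mul_of_nonneg_left hsq hSp.le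
  have h7 : δ * Er ε (δ * KK N ε) s (2 * KN N * R) (10 * N) ≤ (3 / 8 * (ε / N)) * a := by
    refine hg.trans (mul_le_mul_of_nonneg_right ?_ ha.le)
    have := mul_le_mul_of_nonneg_left q2 hsd
    have e1 : ε / (8 * N) = 1 / 8 * (ε / N) := by (clear * - hN hε; field_simp)
    have e2 : ε / (4 * N) = 1 / 4 * (ε / N) := by field_simp
    rw [e1] at q1
    rw [e2] at h4
    linarith only [h4, q1, this]
  have h8 : Real.exp (2 * ε) * (3 / 8) ≤ Real.exp (-(δ * KN N)) := by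
    have b2 : Real.exp (-(ε / 2)) ≤ Real.exp (-(δ * KN N)) := Real.exp_le_exp.2 (by (clear * - h5; linarith only [h5]))
    have b3 : Real.exp (2 * ε) * (3 / 8) ≤ Real.exp (-(ε / 2)) := by
      have c1 : Real.exp (2 * ε) * Real.exp (ε / 2) ≤ 8 / 3 := by
        rw [← Real.exp_add]
        have : Real.exp (2 * ε + ε / 2) ≤ Real.exp (1 / 2) := Real.exp_le_exp.2 (by (clear * - hε1; linarith only [hε1]))
        have hb : Real.exp (1 / 2) ≤ 8 / 3 := by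
          have := Real.exp_one_lt_d9
          have h2 : Real.exp (1 / 2) ≤ Real.exp 1 := Real.exp_le_exp.2 (by norm_num)
          have h3 : Real.exp (1 / 2) ^ 2 = Real.exp 1 := by
            rw [← Real.exp_nat_mul]
            norm_num
          nlinarith only [this, h3]
        linarith only [this, hb]
      have c2 : Real.exp (-(ε / 2)) * Real.exp (ε / 2) = 1 := by
        rw [← Real.exp_add]
        simp
      have c3 : 0 < Real.exp (ε / 2) := Real.exp_pos _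
      have : Real.exp (2 * ε) * (3 / 8) * Real.exp (ε / 2) ≤
          Real.exp (-(ε / 2)) * Real.exp (ε / 2) := by
        rw [c2]
        (clear * - c1; linarith only [c1])
      exact le_of_mul_le_mul_right this c3
    exact b3.trans b2
  calc Real.exp (2 * ε) * (δ * Er ε (δ * KK N ε) s (2 * KN N * R) (10 * N))
      ≤ Real.exp (2 * ε) * ((3 / 8 * (ε / N)) * a) :=
        mul_le_mul_of_nonneg_left h7 (Real.exp_pos _).le
    _ = (Real.exp (2 * ε) * (3 / 8)) * (ε / N * a) := by ring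
    _ ≤ Real.exp (-(δ * KN N)) * (ε / N * a) :=
        mul_le_mul_of_nonneg_right h8 (by positivity)
    _ = ε / N * (a * Real.exp (-(δ * KN N))) := by ring

/-- sizes -/
theorem sizes {N : ℕ} (hN : 2 ≤ N) {κ ε : ℝ} (hκ : 0 < κ) (hκ1 : κ ≤ 1 / 4) (hε : 0 < ε)
    (hε1 : ε ≤ 1 / 20) : 1 ≤ Sa N ∧ 1 ≤ Sc κ N ∧ 1 ≤ KK N ε ∧ 1 ≤ mm (Sa N) ε ∧ 1 ≤ mm (Sc κ N) ε ∧
      1 ≤ KN N := by
  have hπ := Real.pi_gt_three
  have hN1 : (2 : ℝ) ≤ N := by exact_mod_cast hN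
  have hSa : 1 ≤ Sa N := Sa_one hN
  have hSc : 2 ≤ Sc κ N := by
    unfold Sc Pool.Agent.Helper90.G2.sS
    have h1 : 0 ≤ √(Real.log N / (π - 2 * κ)) := Real.sqrt_nonneg _
    have h2 : 0 ≤ Real.log (2 / κ) := by
      apply Real.log_nonneg
      rw [le_div_iff₀ hκ]
      (clear * - hκ1 hε hε1; linarith)
    (clear * - h1 h2; linarith only [h1, h2])
  have hSa2 : 2 ≤ Sa N := by
    have hl : 0 ≤ Real.log N := Real.log_natCast_nonneg N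
    have h : (1 : ℝ) ≤ √(1 + Real.log N) := by
      rw [Real.one_le_sqrt]
      (clear * - hl; linarith only [hl])
    unfold Sa
    linarith only [h]
  have hmm : ∀ S : ℝ, 2 ≤ S → 1 ≤ mm S ε := by
    intro S hS
    unfold mm
    rw [le_div_iff₀ (by linarith only [hε1])]
    have : (4 : ℝ) ≤ S ^ 2 := by (clear * - hS; nlinarith only [hS])
    nlinarith only [hε, hπ, this]
  refine ⟨hSa, by linarith only [hSc], ?_, hmm _ hSa2, hmm _ hSc, ?_⟩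
  · unfold KK
    rw [le_div_iff₀ hε]
    have h4 : (4 : ℝ) ≤ Sa N ^ 2 := by (clear * - hSa2; nlinarith only [hSa2])
    have h5 : (1 : ℝ) ≤ π * Sa N ^ 2 := by nlinarith only [hπ, hSa2]
    have h6 : (1 : ℝ) ≤ π * Sa N ^ 2 * N := by (clear * - hN1 h5; nlinarith only [hN1, h5])
    calc (1 : ℝ) * ε ≤ 1 := by linarith only [hε1]
      _ ≤ 4 * (π * Sa N ^ 2 * N) := by linarith only [h6]
      _ = 4 * π * Sa N ^ 2 * N := by ring
  · unfold KN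
    rw [← Real.exp_zero]
    exact Real.exp_le_exp.2 (by (clear * - hN; positivity))

end Pool.Agent.Helper26.G4
end
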