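import Pool.Agent.Helper24.K6.G03
import Pool.Agent.Helper24.K6.G10
import Pool.Agent.Helper24.K6.G12
import Pool.Agent.Helper24.K6.G13
import Pool.Agent.Helper24.K6.G15
import Pool.Agent.Helper24.K6.G17

/- Helper24.K6w.H90.G2.Crude -/
section
/-!
# G2-CRUDE: one generation

`N = 2`: `ch 2 c ℓ 0 = c - ℓ / 4`, `ch 2 c ℓ 1 = c + ℓ / 4`. `m = C2 δ ≤ 1`,
`s = r = 500 (1 + log 2) √ar ≤ 850 √ar`: the two error terms (`er`) add up to at most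
`2 (1 + 32 δ) π 850² / (4 C2) ar r^(-δ) m^δ ≤ ar r^(-δ) ≤ Vw` (`2 π 722500 / (4 * 1200000) < 0.95`).
Use `s := r` itself in `er`, not `850 √ar`. So `V + V ≤ e^(C2 δ²) (V - Vw) + Vw`.
-/

set_option autoImplicit false

namespace Pool.Agent.Helper90.G2

open MeasureTheory Set
open scoped Real

variable {F : ℂ → ℂ} {A : ℝ}

/-- the crude constant -/
noncomputable def C2 : ℝ := 1200000

theorem Crude_ch0 (c ℓ : ℝ) : ch 2 c ℓ 0 = c - ℓ / 4 := by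
  unfold ch
  push_cast
  ring

theorem Crude_ch1 (c ℓ : ℝ) : ch 2 c ℓ 1 = c + ℓ / 4 := by
  unfold ch
  push_cast
  ring

theorem Crude_ch_even (M : ℕ) (c ℓ : ℝ) (d : ℕ) :
    ch (2 ^ (M + 1)) c ℓ (2 * d) = ch (2 ^ M) c ℓ d - ℓ / ((2 ^ M : ℕ) : ℝ) / 4 := by
  unfold ch
  push_cast
  have h : (2 : ℝ) ^ M ≠ 0 := by (clear * -; positivity)
  rw [pow_succ]
  field_simp
  ring

theorem Crude_ch_odd (M : ℕ) (c ℓ : ℝ) (d : ℕ) :
    ch (2 ^ (M + 1)) c ℓ (2 * d + 1) = ch (2 ^ M) c ℓ d + ℓ / ((2 ^ M : ℕ) : ℝ) / 4 := by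
  unfold ch
  push_cast
  have h : (2 : ℝ) ^ M ≠ 0 := by (clear * -; positivity)
  rw [pow_succ]
  field_simp
  ring

theorem Crude_sum (f : ℕ → ℝ) (k : ℕ) :
    ∑ d ∈ Finset.range (2 * k), f d = ∑ d ∈ Finset.range k, (f (2 * d) + f (2 * d + 1)) := by
  induction k with
  | zero => simp
  | succ k ih =>
    rw [show 2 * (k + 1) = 2 * k + 1 + 1 by ring, Finset.sum_range_succ, Finset.sum_range_succ, ih,
      Finset.sum_range_succ]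
    ring

/-- the two error terms -/
theorem Crude_er {δ r S : ℝ} (h0 : 0 < δ) (h1 : δ ≤ 1 / C2) (hr : 0 < r) (hS : 0 ≤ S)
    (hrS : r ^ 2 ≤ 722500 * S) : 2 * er δ (C2 * δ) r ≤ S * r ^ (-δ) := by
  unfold er
  have hC : (C2 : ℝ) = 1200000 := rfl
  have hm : 0 < C2 * δ := by rw [hC]; (clear * - h0; positivity)
  have hm1 : C2 * δ ≤ 1 := by
    rw [hC] at h1 ⊢
    (clear * - h1; linarith only [h1])
  have e1 : (r / (C2 * δ)) ^ (-δ) ≤ r ^ (-δ) := by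
    rw [Real.rpow_neg (div_pos hr hm).le, Real.rpow_neg hr.le]
    apply inv_anti₀ (Real.rpow_pos_of_pos hr δ)
    apply Real.rpow_le_rpow hr.le _ h0.le
    rw [le_div_iff₀ hm]
    exact mul_le_of_le_one_right hr.le hm1
  have e2 : 2 * (δ * (1 + 32 * δ) * (π * r ^ 2 / (4 * (C2 * δ)))) ≤ S := by
    have e3 : 2 * (δ * (1 + 32 * δ) * (π * r ^ 2 / (4 * (C2 * δ)))) =
        (1 + 32 * δ) * π * r ^ 2 / 2400000 := by
      rw [hC]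
      field_simp
      ring
    rw [e3]
    have hd : δ ≤ 1 / 1200000 := h1
    have hpi := Real.pi_lt_d2
    have hpi0 := Real.pi_pos
    have e4 : (1 + 32 * δ) * π ≤ 1.01 * 3.15 := by
      apply mul_le_mul _ hpi.le hpi0.le (by norm_num)
      linarith only [hd]
    have e5 : (1 + 32 * δ) * π * r ^ 2 ≤ 1.01 * 3.15 * (722500 * S) :=
      mul_le_mul e4 hrS (by positivity) (by norm_num)
    rw [div_le_iff₀ (by norm_num)]
    (clear * - hrS e5; nlinarith only [hrS, e5])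
  have e6 : 0 ≤ r ^ (-δ) := (Real.rpow_pos_of_pos hr _).le
  have e7 : 0 ≤ 2 * (δ * (1 + 32 * δ) * (π * r ^ 2 / (4 * (C2 * δ)))) := by
    have := Real.pi_pos
    positivity
  calc 2 * (δ * (1 + 32 * δ) * (π * r ^ 2 / (4 * (C2 * δ))) * (r / (C2 * δ)) ^ (-δ))
      = 2 * (δ * (1 + 32 * δ) * (π * r ^ 2 / (4 * (C2 * δ)))) * (r / (C2 * δ)) ^ (-δ) := by ring
    _ ≤ 2 * (δ * (1 + 32 * δ) * (π * r ^ 2 / (4 * (C2 * δ)))) * r ^ (-δ) :=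
        mul_le_mul_of_nonneg_left e1 e7
    _ ≤ S * r ^ (-δ) := mul_le_mul_of_nonneg_right e2 e6

theorem Fn.crude (hF : Fn F A) {δ c ℓ : ℝ} (h0 : 0 < δ) (h1 : δ ≤ 1 / C2) (hℓ : 0 < ℓ)
    (hℓ1 : ℓ ≤ 1) :
    V F δ (c - ℓ / 4) (ℓ / 2) + V F δ (c + ℓ / 4) (ℓ / 2) ≤ Real.exp (C2 * δ ^ 2) * V F δ c ℓ := by
  have hC : (C2 : ℝ) = 1200000 := rfl
  have hδ : δ ≤ 1 / 1200000 := h1
  have hm : 0 < C2 * δ := by rw [hC]; (clear * - h0; positivity)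
  have hm1 : C2 * δ ≤ 1 := by
    rw [hC]
    linarith
  have hδ1 : δ ≤ 1 := by (clear * - hδ; linarith only [hδ])
  have hδ4 : δ ≤ 1 / 4 := by linarith only [hδ]
  set S : ℝ := ar F (Wn c ℓ (1 / (2 : ℕ))) with hS
  have hS0 : 0 < S := hF.ar_pos hℓ hℓ1 (by norm_num) (by norm_num)
  obtain ⟨L, hL⟩ : ∃ L : ℝ, L = Real.log ((2 : ℕ) : ℝ) := ⟨_, rfl⟩
  set r : ℝ := 500 * (1 + Real.log (2 : ℕ)) * √S with hr
  have hr' : r = 500 * (1 + L) * √S := by rw [hr, hL]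
  have hL2 : L = Real.log 2 := by rw [hL]; norm_num
  have hlog1 : 0.69 < L := by
    have := Real.log_two_gt_d9
    linarith only [hL2, this]
  have hlog2 : L < 0.7 := by
    have := Real.log_two_lt_d9
    linarith only [hL2, this]
  have hr0 : 0 < r := by
    rw [hr']
    have : 0 < √S := Real.sqrt_pos.2 hS0
    have h2 : 0 < 1 + L := by linarith only [hlog1]
    (clear * - hlog1 hS0; positivity)
  have hrS : r ^ 2 ≤ 722500 * S := by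
    rw [hr', mul_pow, Real.sq_sqrt hS0.le]
    apply mul_le_mul_of_nonneg_right _ hS0.le
    (clear * - hlog2 hlog1; nlinarith only [hlog1, hlog2])
  have hadd := hF.kids_add (c := c) h0 hδ1 hℓ hℓ1 (N := 2) le_rfl
  rw [Finset.sum_range_succ, Finset.sum_range_one] at hadd
  have hloss := hF.loss (c := c) h0 hδ1 hℓ hℓ1 (N := 2) le_rfl
  have hm0 := hF.kids_move (c := c) hm hm1 h0 hδ4 hr0 hℓ hℓ1 (N := 2) (d := 0) le_rfl
    (by norm_num) (hF.kids_rad hℓ hℓ1 le_rfl (by norm_num))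
  have hm2 := hF.kids_move (c := c) hm hm1 h0 hδ4 hr0 hℓ hℓ1 (N := 2) (d := 1) le_rfl
    (by norm_num) (hF.kids_rad hℓ hℓ1 le_rfl (by norm_num))
  rw [Crude_ch0] at hm0
  rw [Crude_ch1] at hm2
  have hcast : ℓ / ((2 : ℕ) : ℝ) = ℓ / 2 := by push_cast; ring
  rw [hcast] at hm0 hm2
  have her := Crude_er h0 h1 hr0 hS0.le hrS
  have hexp : 1 ≤ Real.exp (C2 * δ ^ 2) := by
    apply Real.one_le_exp
    rw [hC]
    positivity
  have hexp2 : Real.exp (δ * (C2 * δ)) = Real.exp (C2 * δ ^ 2) := by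
    congr 1
    ring
  rw [hexp2] at hm0 hm2
  have hVw : 0 ≤ Vw F δ c ℓ 2 := vp_nonneg _ _ _
  have h5 : 2 * er δ (C2 * δ) r ≤ Vw F δ c ℓ 2 := her.trans hloss
  have h6 : Vw F δ c ℓ 2 ≤ Real.exp (C2 * δ ^ 2) * Vw F δ c ℓ 2 := le_mul_of_one_le_left hVw hexp
  have h7 : Real.exp (C2 * δ ^ 2) * (Vw F δ c ℓ 2 + (Vc F δ c ℓ 2 0 + Vc F δ c ℓ 2 1)) ≤
      Real.exp (C2 * δ ^ 2) * V F δ c ℓ := mul_le_mul_of_nonneg_left hadd (Real.exp_pos _).le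
  (clear * - hm0 hm2 h5 h6 h7; linarith only [hm0, hm2, h5, h6, h7])

/-- `M` generations, by induction: `ch (2^(M+1)) c ℓ (2d) = ch (2^M) c ℓ d - (ℓ / 2^M) / 4` etc. -/
theorem Fn.crudeM (hF : Fn F A) {δ : ℝ} (h0 : 0 < δ) (h1 : δ ≤ 1 / C2) (M : ℕ) {c ℓ : ℝ}
    (hℓ : 0 < ℓ) (hℓ1 : ℓ ≤ 1) :
    ∑ d ∈ Finset.range (2 ^ M), V F δ (ch (2 ^ M) c ℓ d) (ℓ / ((2 ^ M : ℕ) : ℝ)) ≤
      Real.exp (C2 * δ ^ 2 * M) * V F δ c ℓ := by
  induction M with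
  | zero =>
    have e1 : ch (2 ^ 0) c ℓ 0 = c := by
      unfold ch
      push_cast
      ring
    have e2 : ℓ / ((2 ^ 0 : ℕ) : ℝ) = ℓ := by
      push_cast
      ring
    rw [e2, show (2 : ℕ) ^ 0 = 1 by norm_num, Finset.sum_range_one]
    rw [show (2 : ℕ) ^ 0 = 1 by norm_num] at e1
    rw [e1]
    simp
  | succ M ih =>
    have hM : (1 : ℝ) ≤ ((2 ^ M : ℕ) : ℝ) := by
      exact_mod_cast Nat.one_le_two_pow
    have hM0 : (0 : ℝ) < ((2 ^ M : ℕ) : ℝ) := lt_of_lt_of_le one_pos hM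
    have hl0 : 0 < ℓ / ((2 ^ M : ℕ) : ℝ) := div_pos hℓ hM0
    have hl1 : ℓ / ((2 ^ M : ℕ) : ℝ) ≤ 1 := by
      rw [div_le_one hM0]
      linarith only [hℓ1, hM]
    have hhalf : ℓ / ((2 ^ (M + 1) : ℕ) : ℝ) = ℓ / ((2 ^ M : ℕ) : ℝ) / 2 := by
      push_cast
      rw [pow_succ]
      field_simp
    have hsum : ∑ d ∈ Finset.range (2 ^ (M + 1)),
        V F δ (ch (2 ^ (M + 1)) c ℓ d) (ℓ / ((2 ^ (M + 1) : ℕ) : ℝ)) =
        ∑ d ∈ Finset.range (2 ^ M),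
          (V F δ (ch (2 ^ M) c ℓ d - ℓ / ((2 ^ M : ℕ) : ℝ) / 4) (ℓ / ((2 ^ M : ℕ) : ℝ) / 2) +
            V F δ (ch (2 ^ M) c ℓ d + ℓ / ((2 ^ M : ℕ) : ℝ) / 4) (ℓ / ((2 ^ M : ℕ) : ℝ) / 2)) := by
      rw [hhalf]
      conv_lhs => rw [show Finset.range (2 ^ (M + 1)) = Finset.range (2 * 2 ^ M) by
        rw [pow_succ, mul_comm]]
      rw [Crude_sum]
      refine Finset.sum_congr rfl fun d _ => ?_
      rw [Crude_ch_even, Crude_ch_odd]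
    rw [hsum]
    have hstep : ∑ d ∈ Finset.range (2 ^ M),
          (V F δ (ch (2 ^ M) c ℓ d - ℓ / ((2 ^ M : ℕ) : ℝ) / 4) (ℓ / ((2 ^ M : ℕ) : ℝ) / 2) +
            V F δ (ch (2 ^ M) c ℓ d + ℓ / ((2 ^ M : ℕ) : ℝ) / 4) (ℓ / ((2 ^ M : ℕ) : ℝ) / 2)) ≤
        ∑ d ∈ Finset.range (2 ^ M), Real.exp (C2 * δ ^ 2) *
          V F δ (ch (2 ^ M) c ℓ d) (ℓ / ((2 ^ M : ℕ) : ℝ)) :=
      Finset.sum_le_sum fun d _ => hF.crude h0 h1 hl0 hl1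
    rw [← Finset.mul_sum] at hstep
    refine hstep.trans ?_
    refine (mul_le_mul_of_nonneg_left ih (Real.exp_pos _).le).trans (le_of_eq ?_)
    rw [← mul_assoc, ← Real.exp_add]
    congr 2
    push_cast
    ring

end Pool.Agent.Helper90.G2
end

/- Helper24.K6w.H90.G2.Window -/
section
/-!
# G2-WINDOW: the recursion over a window of `M` generations

`N = 2^M`, `R = 500 (1 + log N)`, `ar = ar F (Wn c ℓ (1/N))`, `r = R √ar`, `S = (sS κ (log N))²`,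
`K = cK M ε = 9 π R² N / (4 ε) ≥ 1`, `η = ε / K`, `a = e^(δ² K) - 1 ≤ 2 δ² K`, `g = e^(δ m)` with
`m = δ (1 + 32 δ) π S / (4 (1 - ε))`, `c = C2 δ² M`. `rec_real` with
`Vp d = Vc`, `w = Vw`. (h2): `Fn.kids_move` with `m := δ K`, `s := r`:
`er δ (δ K) r = (1 + 32 δ) π R² ar / (4 K) (r / (δ K))^(-δ) ≤ (ε / N) ar r^(-δ) ≤ (ε/N) w` (`1 + 32 δ ≤ 9`,
`δ K ≤ 1`). (h3): `Cen` gives `|ch - c| ≤ ℓ/2 - κ ℓ`, `Fn.sharp` with `q = 1/N`, `Fn.kids_move` with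
`s := √S √ar`: `er δ m s = (1 - ε) ar (s / m)^(-δ) ≤ (1 - ε) ar r^(-δ)` because `m ≤ √S / R`.
(h4): `Fn.crudeM`. `hδ3`: `δ² ≤ ε / (4 K²)` gives `a ≤ η / 2`; also `a η ≤ 2 δ² ε`. Final factor:
`g + a η + c (2 η + ε) ≤ exp (δ m + 2 δ² ε + 3 ε c)`.
-/

set_option autoImplicit false

namespace Pool.Agent.Helper90.G2

open MeasureTheory Set
open scoped Real

variable {F : ℂ → ℂ} {A : ℝ}

/-- the constant `K` -/
noncomputable def cK (M : ℕ) (ε : ℝ) : ℝ :=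
  9 * π * (500 * (1 + Real.log ((2 ^ M : ℕ) : ℝ))) ^ 2 * ((2 ^ M : ℕ) : ℝ) / (4 * ε)

/-- the constant `m / δ` -/
noncomputable def cm (M : ℕ) (κ ε δ : ℝ) : ℝ :=
  (1 + 32 * δ) * π * sS κ (Real.log ((2 ^ M : ℕ) : ℝ)) ^ 2 / (4 * (1 - ε))

theorem Window_sS {κ L : ℝ} (hκ : 0 < κ) (hκ1 : κ ≤ 1 / 4) : 0 < sS κ L := by
  have h1 : 0 ≤ Real.log (2 / κ) := by
    refine Real.log_nonneg ?_
    rw [le_div_iff₀ hκ]
    (clear * - hκ hκ1; linarith)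
  have h2 := Real.sqrt_nonneg (L / (π - 2 * κ))
  unfold sS
  linarith only [h1, h2]

/-- the error of a move in the whole window -/
theorem Window_er1 {δ K R a0 ε N : ℝ} (h0 : 0 < δ) (h1 : δ ≤ 1 / 4) (hε : 0 < ε) (hN : 0 < N)
    (hR : 0 < R) (ha : 0 < a0) (hK : K = 9 * π * R ^ 2 * N / (4 * ε)) (hδK : δ * K ≤ 1) :
    er δ (δ * K) (R * √a0) ≤ ε / N * (a0 * (R * √a0) ^ (-δ)) := by
  have hπ := Real.pi_pos
  have hK0 : 0 < K := by rw [hK]; (clear * - hR hN hε; positivity)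
  have hs : √a0 ^ 2 = a0 := Real.sq_sqrt ha.le
  have hs0 : 0 < √a0 := Real.sqrt_pos.2 ha
  have hr : 0 < R * √a0 := mul_pos hR hs0
  have hm : 0 < δ * K := mul_pos h0 hK0
  have e1 : (R * √a0 / (δ * K)) ^ (-δ) ≤ (R * √a0) ^ (-δ) := by
    refine Real.rpow_le_rpow_of_nonpos hr ?_ (by linarith only [h0])
    rw [le_div_iff₀ hm]
    (clear * - hδK hr; nlinarith only [hδK, hr])
  have e2 : δ * (1 + 32 * δ) * (π * (R * √a0) ^ 2 / (4 * (δ * K))) =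
      (1 + 32 * δ) / 9 * (ε / N * a0) := by
    rw [mul_pow, hs, hK]
    field_simp
  have h9 : (1 + 32 * δ) / 9 ≤ 1 := by linarith only [h1]
  have hp : 0 ≤ (R * √a0) ^ (-δ) := Real.rpow_nonneg hr.le _
  have hq : 0 ≤ ε / N * a0 := by (clear * - hε hN ha; positivity)
  have h90 : 0 ≤ (1 + 32 * δ) / 9 := by positivity
  unfold er
  rw [e2]
  calc (1 + 32 * δ) / 9 * (ε / N * a0) * (R * √a0 / (δ * K)) ^ (-δ)
      ≤ (1 + 32 * δ) / 9 * (ε / N * a0) * (R * √a0) ^ (-δ) :=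
        mul_le_mul_of_nonneg_left e1 (mul_nonneg h90 hq)
    _ ≤ 1 * (ε / N * a0) * (R * √a0) ^ (-δ) :=
        mul_le_mul_of_nonneg_right (mul_le_mul_of_nonneg_right h9 hq) hp
    _ = ε / N * (a0 * (R * √a0) ^ (-δ)) := by ring

/-- the error of a sharp move -/
theorem Window_er2 {δ m R a0 ε S : ℝ} (h0 : 0 < δ) (hε1 : ε < 1) (hR : 0 < R) (ha : 0 < a0)
    (hS : 0 < S) (hm : m = (1 + 32 * δ) * π * S ^ 2 / (4 * (1 - ε))) (h5 : δ * m * R ≤ S) :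
    er δ (δ * m) (√a0 * S) ≤ (1 - ε) * (a0 * (R * √a0) ^ (-δ)) := by
  have hπ := Real.pi_pos
  have hε' : 0 < 1 - ε := by (clear * - hε1; linarith only [hε1])
  have hm0 : 0 < m := by rw [hm]; (clear * - h0 hS hε1; positivity)
  have hs : √a0 ^ 2 = a0 := Real.sq_sqrt ha.le
  have hs0 : 0 < √a0 := Real.sqrt_pos.2 ha
  have hr : 0 < R * √a0 := mul_pos hR hs0
  have hdm : 0 < δ * m := mul_pos h0 hm0
  have e1 : (√a0 * S / (δ * m)) ^ (-δ) ≤ (R * √a0) ^ (-δ) := by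
    refine Real.rpow_le_rpow_of_nonpos hr ?_ (by linarith only [h0])
    rw [le_div_iff₀ hdm]
    (clear * - h5 hs0; nlinarith only [h5, hs0])
  have e2 : δ * (1 + 32 * δ) * (π * (√a0 * S) ^ 2 / (4 * (δ * m))) = (1 - ε) * a0 := by
    rw [mul_pow, hs, hm]
    field_simp
  unfold er
  rw [e2, mul_assoc (1 - ε) a0]
  exact mul_le_mul_of_nonneg_left (mul_le_mul_of_nonneg_left e1 ha.le) hε'.le

theorem Window_cen {κ c ℓ : ℝ} (hℓ : 0 < ℓ) {N d : ℕ} (h : Cen κ N d) :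
    |ch N c ℓ d - c| ≤ ℓ / 2 - κ * ℓ := by
  unfold Cen at h
  have e : ch N c ℓ d - c = (((d : ℝ) + 1 / 2) / N - 1 / 2) * ℓ := by
    unfold ch; ring
  rw [e, abs_mul, abs_of_pos hℓ]
  calc |((d : ℝ) + 1 / 2) / N - 1 / 2| * ℓ ≤ (1 / 2 - κ) * ℓ :=
        mul_le_mul_of_nonneg_right h hℓ.le
    _ = ℓ / 2 - κ * ℓ := by ring

/-- moving the point in the whole window (for every child) -/
theorem Window_move (hF : Fn F A) {ε : ℝ} {N : ℕ} (hN2 : 2 ≤ N) (hε : 0 < ε) {δ K : ℝ}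
    (h0 : 0 < δ) (h14 : δ ≤ 1 / 4)
    (hK : K = 9 * π * (500 * (1 + Real.log N)) ^ 2 * N / (4 * ε)) (h2 : δ * K ≤ 1)
    {c ℓ : ℝ} (hℓ : 0 < ℓ) (hℓ1 : ℓ ≤ 1) {d : ℕ} (hd : d < N) :
    V F δ (ch N c ℓ d) (ℓ / N) ≤ (1 + (Real.exp (δ ^ 2 * K) - 1)) * Vc F δ c ℓ N d +
      ε / N * Vw F δ c ℓ N := by
  have hNr0 : (0 : ℝ) < N := by
    have : 0 < N := by omega
    exact_mod_cast this
  have hlog : 0 ≤ Real.log N := Real.log_natCast_nonneg N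
  have hR : 0 < 500 * (1 + Real.log N) := by linarith only [hlog]
  obtain ⟨hq, hq1⟩ := one_div_N hN2
  have hpos := hF.ar_pos (c := c) hℓ hℓ1 hq hq1
  have hK0 : 0 < K := by rw [hK]; (clear * - hN2 hε; positivity)
  have hloss := hF.loss (c := c) h0 (by linarith only [h14] : δ ≤ 1) hℓ hℓ1 hN2
  have k1 := hF.kids_move (m := δ * K) (s := 500 * (1 + Real.log N) *
    √(ar F (Wn c ℓ (1 / N)))) (by (clear * - h0 hK0; positivity)) h2 h0 h14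
    (mul_pos hR (Real.sqrt_pos.2 hpos)) hℓ hℓ1 hN2 hd (hF.kids_rad hℓ hℓ1 hN2 hd)
  have k2 := Window_er1 (N := N) h0 h14 hε hNr0 hR hpos hK h2
  have k3 : ε / N * (ar F (Wn c ℓ (1 / N)) *
      (500 * (1 + Real.log N) * √(ar F (Wn c ℓ (1 / N)))) ^ (-δ)) ≤
      ε / N * Vw F δ c ℓ N := mul_le_mul_of_nonneg_left hloss (by positivity)
  have e : Real.exp (δ * (δ * K)) = 1 + (Real.exp (δ ^ 2 * K) - 1) := by
    rw [show δ * (δ * K) = δ ^ 2 * K by ring]; ring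
  rw [e] at k1
  linarith only [k1, k2, k3]

/-- `Window_move` for `N = 2^M`, `K = cK M ε` -/
theorem Fn.window_move (hF : Fn F A) {ε : ℝ} {M : ℕ} (hM : 1 ≤ M) (hε : 0 < ε) {δ : ℝ}
    (h0 : 0 < δ) (h14 : δ ≤ 1 / 4) (h2 : δ * cK M ε ≤ 1)
    {c ℓ : ℝ} (hℓ : 0 < ℓ) (hℓ1 : ℓ ≤ 1) {d : ℕ} (hd : d < 2 ^ M) :
    V F δ (ch (2 ^ M) c ℓ d) (ℓ / ((2 ^ M : ℕ) : ℝ)) ≤
      (1 + (Real.exp (δ ^ 2 * cK M ε) - 1)) * Vc F δ c ℓ (2 ^ M) d +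
        ε / ((2 ^ M : ℕ) : ℝ) * Vw F δ c ℓ (2 ^ M) := by
  have hN2 : 2 ≤ 2 ^ M := by
    calc 2 = 2 ^ 1 := by norm_num
      _ ≤ 2 ^ M := Nat.pow_le_pow_right (by norm_num) hM
  exact Window_move (K := cK M ε) hF hN2 hε h0 h14 rfl h2 hℓ hℓ1 hd

/-- moving the point of a central child -/
theorem Window_sharp (hF : Fn F A) {κ ε : ℝ} {N : ℕ} (hN2 : 2 ≤ N) (hκ : 0 < κ) (hκ1 : κ ≤ 1 / 4)
    (hε1 : ε < 1) (hM : 2 / (N : ℝ) < κ ^ 2) {δ m : ℝ} (h0 : 0 < δ) (h14 : δ ≤ 1 / 4)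
    (hm : m = (1 + 32 * δ) * π * sS κ (Real.log N) ^ 2 / (4 * (1 - ε))) (h4 : δ * m ≤ 1)
    (h5 : δ * m * (500 * (1 + Real.log N)) ≤ sS κ (Real.log N))
    {c ℓ : ℝ} (hℓ : 0 < ℓ) (hℓ1 : ℓ ≤ 1) {d : ℕ} (hd : d < N) (hcen : Cen κ N d) :
    V F δ (ch N c ℓ d) (ℓ / N) ≤ Real.exp (δ * (δ * m)) * Vc F δ c ℓ N d +
      (1 - ε) * Vw F δ c ℓ N := by
  have hπ3 := Real.pi_gt_three
  have hlog : 0 ≤ Real.log N := Real.log_natCast_nonneg N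
  have hR : 0 < 500 * (1 + Real.log N) := by linarith only [hlog]
  obtain ⟨hq, hq1⟩ := one_div_N hN2
  have hpos := hF.ar_pos (c := c) hℓ hℓ1 hq hq1
  have hS : 0 < sS κ (Real.log N) := Window_sS hκ hκ1
  have hε' : 0 < 1 - ε := by (clear * - hε1; linarith only [hε1])
  have hm0 : 0 < m := by rw [hm]; (clear * - h0 hS hε1; positivity)
  have hloss := hF.loss (c := c) h0 (by linarith only [h14] : δ ≤ 1) hℓ hℓ1 hN2
  have hsh := hF.sharp (c := c) (c' := ch N c ℓ d) hℓ hℓ1 hκ hκ1 hq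
    (by rw [mul_one_div]; exact hM) (Window_cen hℓ hcen)
  rw [one_div_one_div, one_div_mul_eq_div] at hsh
  have k1 := hF.kids_move (m := δ * m) (by (clear * - h0 hm0; positivity)) h4 h0 h14
    (mul_pos (Real.sqrt_pos.2 hpos) hS) hℓ hℓ1 hN2 hd hsh
  have k2 := Window_er2 h0 hε1 hR hpos hS hm h5
  have k3 : (1 - ε) * (ar F (Wn c ℓ (1 / N)) *
      (500 * (1 + Real.log N) * √(ar F (Wn c ℓ (1 / N)))) ^ (-δ)) ≤
      (1 - ε) * Vw F δ c ℓ N := mul_le_mul_of_nonneg_left hloss hε'.le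
  (clear * - k1 k2 k3; linarith only [k1, k2, k3])

/-- the window inequality with the constants as parameters -/
theorem Window_aux (hF : Fn F A) {κ ε : ℝ} {N : ℕ} (hN2 : 2 ≤ N) (hκ : 0 < κ) (hκ1 : κ ≤ 1 / 4)
    (hε : 0 < ε) (hε1 : ε ≤ 1 / 2) (hM : 2 / (N : ℝ) < κ ^ 2) {δ K m c' θ : ℝ} (h0 : 0 < δ)
    (h14 : δ ≤ 1 / 4) (hK : K = 9 * π * (500 * (1 + Real.log N)) ^ 2 * N / (4 * ε))
    (hm : m = (1 + 32 * δ) * π * sS κ (Real.log N) ^ 2 / (4 * (1 - ε)))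
    (h2 : δ * K ≤ 1) (h3 : 4 * δ ^ 2 * K ^ 2 ≤ ε) (h4 : δ * m ≤ 1)
    (h5 : δ * m * (500 * (1 + Real.log N)) ≤ sS κ (Real.log N)) (hc' : 0 ≤ c')
    (hθ : 2 * c' * K / ε ≤ θ) {c ℓ : ℝ} (hℓ : 0 < ℓ) (hℓ1 : ℓ ≤ 1)
    (hcr : ∑ d ∈ Finset.range N, V F δ (ch N c ℓ d) (ℓ / N) ≤ Real.exp c' * V F δ c ℓ) :
    ∑ d ∈ Finset.range N, chi κ c' N d * V F δ (ch N c ℓ d) (ℓ / N) ^ (1 + θ) ≤
      Real.exp (c' * θ + δ ^ 2 * m + 2 * δ ^ 2 * ε + 3 * ε * c') * V F δ c ℓ ^ (1 + θ) := by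
  have hπ3 := Real.pi_gt_three
  have hNr : (2 : ℝ) ≤ N := by exact_mod_cast hN2
  have hNr0 : (0 : ℝ) < N := by (clear * - hNr; linarith only [hNr])
  have hlog : 0 ≤ Real.log N := Real.log_natCast_nonneg N
  have hR1 : (1 : ℝ) ≤ 500 * (1 + Real.log N) := by (clear * - hlog; linarith only [hlog])
  have hR : 0 < 500 * (1 + Real.log N) := by (clear * - hR1; linarith only [hR1])
  have hS : 0 < sS κ (Real.log N) := Window_sS hκ hκ1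
  have hε' : 0 < 1 - ε := by linarith only [hε1]
  have hK1 : 1 ≤ K := by
    rw [hK, le_div_iff₀ (by (clear * - hε; positivity))]
    have a1 : (1:ℝ) ≤ (500 * (1 + Real.log N)) ^ 2 := one_le_pow₀ hR1
    have a2 : (1:ℝ) ≤ (500 * (1 + Real.log N)) ^ 2 * N :=
      one_le_mul_of_one_le_of_one_le a1 (by (clear * - hNr; linarith only [hNr]))
    (clear * - hπ3 hε' a2; nlinarith only [hπ3, hε', a2])
  have hK0 : 0 < K := by linarith only [hK1]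
  have hm0 : 0 < m := by rw [hm]; (clear * - h0 hS hε'; positivity)
  -- smallness of `δ² K`
  have hx0 : 0 ≤ δ ^ 2 * K := by (clear * - h0 hK1; positivity)
  have hx1 : δ ^ 2 * K ≤ ε / (4 * K) := by
    rw [le_div_iff₀ (by positivity)]
    calc δ ^ 2 * K * (4 * K) = 4 * δ ^ 2 * K ^ 2 := by ring
      _ ≤ ε := h3
  have hη1 : ε / K ≤ ε := div_le_self hε.le hK1
  have hη0 : 0 ≤ ε / K := by (clear * - hε hK1; positivity)
  have hx2 : δ ^ 2 * K ≤ 1 / 8 := by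
    have e : ε / (4 * K) = ε / K / 4 := by field_simp
    rw [e] at hx1
    (clear * - hε1 hx1 hη1; linarith only [hε1, hx1, hη1])
  have ha0 : 0 ≤ Real.exp (δ ^ 2 * K) - 1 := by
    have := Real.add_one_le_exp (δ ^ 2 * K)
    linarith only [hx0, this]
  have ha2 : Real.exp (δ ^ 2 * K) - 1 ≤ 2 * (δ ^ 2 * K) := by
    have hb := Real.exp_bound_div_one_sub_of_interval hx0 (by linarith only [hx2] : δ ^ 2 * K < 1)
    have hc : 1 / (1 - δ ^ 2 * K) ≤ 1 + 2 * (δ ^ 2 * K) := by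
      rw [div_le_iff₀ (by linarith only [hx2])]
      (clear * - hx0 hx2; nlinarith only [hx0, hx2])
    linarith only [hb, hc]
  have haη : Real.exp (δ ^ 2 * K) - 1 ≤ ε / K / 2 := by
    have e : ε / K / 2 = 2 * (ε / (4 * K)) := by field_simp; norm_num
    rw [e]
    (clear * - hx1 ha2; linarith only [hx1, ha2])
  have hθ0 : 0 ≤ θ := le_trans (by (clear * - hc' hK1 hε; positivity)) hθ
  have hcθ : c' ≤ θ * (ε / K / 2) := by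
    have e : c' = 2 * c' * K / ε * (ε / K / 2) := by (clear * - hK1 hε; field_simp)
    calc c' = 2 * c' * K / ε * (ε / K / 2) := e
      _ ≤ θ * (ε / K / 2) := mul_le_mul_of_nonneg_right hθ (by (clear * - hε hK1; positivity))
  have hw : 0 ≤ Vw F δ c ℓ N := vp_nonneg _ _ _
  have hrec := rec_real (κ := κ) (g := Real.exp (δ * (δ * m))) (c := c') (ε := ε) (η := ε / K)
    (θ := θ) (a := Real.exp (δ ^ 2 * K) - 1) (w := Vw F δ c ℓ N) (v := V F δ c ℓ)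
    (by omega : 0 < N) (fun d => Vc F δ c ℓ N d)
    (fun d => V F δ (ch N c ℓ d) (ℓ / N)) hw ha0 (by linarith only [hx2, ha2]) haη
    (Real.one_le_exp (by (clear * - h0 hm0; positivity))) hc' hε.le (by linarith only [hε']) hη0 (by linarith only [hε', hη1]) hθ0 hcθ
    (fun d _ => vp_nonneg _ _ _) (fun d _ => vp_nonneg _ _ _)
    (hF.kids_add h0 (by linarith only [h14]) hℓ hℓ1 hN2) ?_ ?_ hcr
  · refine hrec.trans ?_
    have hv : 0 ≤ V F δ c ℓ ^ (1 + θ) := Real.rpow_nonneg (vp_nonneg _ _ _) _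
    refine mul_le_mul_of_nonneg_right ?_ hv
    have hg1 : 1 ≤ Real.exp (δ * (δ * m)) := Real.one_le_exp (by (clear * - h0 hm0; positivity))
    have b1 : (Real.exp (δ ^ 2 * K) - 1) * (ε / K) ≤ 2 * δ ^ 2 * ε := by
      calc (Real.exp (δ ^ 2 * K) - 1) * (ε / K) ≤ 2 * (δ ^ 2 * K) * (ε / K) :=
            mul_le_mul_of_nonneg_right ha2 hη0
        _ = 2 * δ ^ 2 * ε := by (clear * - hK1 hε h0; field_simp)
    have b2 : c' * (2 * (ε / K) + ε) ≤ 3 * ε * c' := by (clear * - hc' hη1; nlinarith only [hc', hη1])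
    have b3 : 0 ≤ 2 * δ ^ 2 * ε + 3 * ε * c' := by (clear * - h0 hε hc'; positivity)
    have b4 : Real.exp (δ * (δ * m)) + (Real.exp (δ ^ 2 * K) - 1) * (ε / K) +
        c' * (2 * (ε / K) + ε) ≤
        Real.exp (δ * (δ * m)) * Real.exp (2 * δ ^ 2 * ε + 3 * ε * c') := by
      have b5 := Real.add_one_le_exp (2 * δ ^ 2 * ε + 3 * ε * c')
      nlinarith only [hg1, b1, b2, b3, b5]
    calc Real.exp (c' * θ) * (Real.exp (δ * (δ * m)) +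
          (Real.exp (δ ^ 2 * K) - 1) * (ε / K) + c' * (2 * (ε / K) + ε))
        ≤ Real.exp (c' * θ) *
          (Real.exp (δ * (δ * m)) * Real.exp (2 * δ ^ 2 * ε + 3 * ε * c')) :=
          mul_le_mul_of_nonneg_left b4 (Real.exp_pos _).le
      _ = Real.exp (c' * θ + δ ^ 2 * m + 2 * δ ^ 2 * ε + 3 * ε * c') := by
          rw [← Real.exp_add, ← Real.exp_add]
          congr 1
          ring
  · intro d hd
    exact Window_move hF hN2 hε h0 h14 hK h2 hℓ hℓ1 hd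
  · intro d hd hcen
    exact Window_sharp hF hN2 hκ hκ1 (by linarith only [hε']) hM h0 h14 hm h4 h5 hℓ hℓ1 hd hcen

theorem Fn.window (hF : Fn F A) {κ ε : ℝ} {M : ℕ} (hκ : 0 < κ) (hκ1 : κ ≤ 1 / 4) (hε : 0 < ε)
    (hε1 : ε ≤ 1 / 2) (hM : 2 / ((2 ^ M : ℕ) : ℝ) < κ ^ 2) {δ : ℝ} (h0 : 0 < δ)
    (h1 : δ ≤ 1 / C2) (h2 : δ * cK M ε ≤ 1) (h3 : 4 * δ ^ 2 * cK M ε ^ 2 ≤ ε)
    (h4 : δ * cm M κ ε δ ≤ 1)
    (h5 : δ * cm M κ ε δ * (500 * (1 + Real.log ((2 ^ M : ℕ) : ℝ))) ≤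
      sS κ (Real.log ((2 ^ M : ℕ) : ℝ)))
    {θ : ℝ} (hθ : 2 * C2 * M * cK M ε / ε * δ ^ 2 ≤ θ) {c ℓ : ℝ} (hℓ : 0 < ℓ) (hℓ1 : ℓ ≤ 1) :
    ∑ d ∈ Finset.range (2 ^ M), chi κ (C2 * δ ^ 2 * M) (2 ^ M) d *
        V F δ (ch (2 ^ M) c ℓ d) (ℓ / ((2 ^ M : ℕ) : ℝ)) ^ (1 + θ) ≤
      Real.exp (C2 * δ ^ 2 * M * θ + δ ^ 2 * cm M κ ε δ + 2 * δ ^ 2 * ε +
        3 * ε * (C2 * δ ^ 2 * M)) * V F δ c ℓ ^ (1 + θ) := by
  have hC2 : (0:ℝ) < C2 := by unfold C2; norm_num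
  have h14 : δ ≤ 1 / 4 := by
    refine h1.trans ?_
    unfold C2
    norm_num
  have hN2 : 2 ≤ 2 ^ M := by
    rcases Nat.eq_zero_or_pos M with h | h
    · subst h
      exfalso
      norm_num at hM
      nlinarith only [hκ, hκ1, hM]
    · calc 2 = 2 ^ 1 := by norm_num
        _ ≤ 2 ^ M := Nat.pow_le_pow_right (by norm_num) h
  refine Window_aux (K := cK M ε) (m := cm M κ ε δ) hF hN2 hκ hκ1 hε hε1 hM h0 h14 rfl rfl h2 h3
    h4 h5 (by (clear * - hC2 h0; positivity)) ?_ hℓ hℓ1 (hF.crudeM h0 h1 M hℓ hℓ1)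
  refine le_trans (le_of_eq ?_) hθ
  ring

end Pool.Agent.Helper90.G2
end

/- Helper24.K6w.H90.G2.Param -/
section
/-!
# G2-PARAM: choice of the parameters

`L = log (2^M) = M log 2`. As `M → ∞`, `sS κ L² / L → 1 / (π - 2 κ)`, so
`cm M κ ε' δ / L → (1 + 32 δ) π / (4 (π - 2 κ) (1 - ε'))`. Choose `κ` (small, also
`6 κ C2 / log 2 ≤ ε`), `ε'` small (`3 ε' C2 / log 2 ≤ ε / 8` etc.), then `M` large (also `κ 2^M ≥ 2`,
`2 / 2^M < κ²`), then `δ₀` small (depending on everything), `Cθ = 2 C2 M cK / ε'`. With `θ ≤ δ` the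
exponent of `Fn.window` is at most `(1/4 + ε) δ² log (2^M)`.
-/

set_option autoImplicit false

namespace Pool.Agent.Helper90.G2

open MeasureTheory Set
open scoped Real

theorem Param_log2 : 0 < Real.log 2 ∧ Real.log 2 < 1 := by
  refine ⟨Real.log_pos (by norm_num), ?_⟩
  have h := Real.log_two_lt_d9
  (clear * - h; linarith only [h])

theorem Param_C2 : (C2 : ℝ) = 1200000 := rfl

/-- `κ` and the size of the logarithm -/
theorem Param_kap {e : ℝ} (he : 0 < e) (he1 : e ≤ 1) :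
    ∃ κ : ℝ, 0 < κ ∧ κ ≤ 1 / 4 ∧ 6 * κ * (C2 / Real.log 2) ≤ e ∧ ∃ L₀ : ℝ, ∀ L : ℝ, 0 < L →
      L₀ ≤ L → π * sS κ L ^ 2 ≤ (1 + e / 2) * L := by
  obtain ⟨hl0, hl1⟩ := Param_log2
  have hC := Param_C2
  have hπ := Real.pi_gt_three
  have hκe : e * Real.log 2 / (6 * C2) ≤ e / 10 := by
    rw [hC, div_le_div_iff₀ (by norm_num) (by norm_num)]
    nlinarith only [he, hl1]
  refine ⟨e * Real.log 2 / (6 * C2), by rw [hC]; (clear * - he; positivity), by (clear * - he1 hl0 hl1 hκe; linarith), le_of_eq ?_, ?_⟩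
  · rw [hC]
    (clear * - he; field_simp)
  set κ : ℝ := e * Real.log 2 / (6 * C2)
  have hκ0 : 0 ≤ κ := by
    have : 0 < κ := by
      show 0 < e * Real.log 2 / (6 * C2)
      rw [hC]
      positivity
    exact this.le
  have hp : 0 < π - 2 * κ := by linarith only [he1, hπ, hκe]
  have hc : π * (π - 2 * κ)⁻¹ ≤ 1 + e / 4 := by
    rw [← div_eq_mul_inv, div_le_iff₀ hp]
    (clear * - hκe hκ0 he1 hπ; nlinarith only [he1, hπ, hκe, hκ0])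
  have hB0 : (0 : ℝ) ≤ (1000 * (1 + 2 * Real.log (2 / κ))) ^ 2 := sq_nonneg _
  refine ⟨32 * π * (1 + 8 / e) * (1000 * (1 + 2 * Real.log (2 / κ))) ^ 2 / (3 * e),
    fun L hL hL0 => ?_⟩
  rw [div_le_iff₀ (by positivity)] at hL0
  unfold sS
  set B : ℝ := 1000 * (1 + 2 * Real.log (2 / κ))
  set x : ℝ := √(L / (π - 2 * κ)) with hx
  have hx2 : x ^ 2 = L * (π - 2 * κ)⁻¹ := by
    rw [hx, Real.sq_sqrt (by (clear * - hL hp; positivity)), div_eq_mul_inv]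
  have h1 : (x + B) ^ 2 ≤ (1 + e / 8) * x ^ 2 + (1 + 8 / e) * B ^ 2 := by
    have h2 : 2 * x * B ≤ e / 8 * x ^ 2 + 8 / e * B ^ 2 := by
      have h3 : e / 8 * x ^ 2 + 8 / e * B ^ 2 - 2 * x * B = (e * x - 8 * B) ^ 2 / (8 * e) := by
        field_simp
        ring
      have h4 : 0 ≤ (e * x - 8 * B) ^ 2 / (8 * e) := by (clear * - he; positivity)
      linarith only [h3, h4]
    linarith only [h2]
  have h5 : π * x ^ 2 ≤ (1 + e / 4) * L := by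
    rw [hx2]
    calc π * (L * (π - 2 * κ)⁻¹) = π * (π - 2 * κ)⁻¹ * L := by ring
      _ ≤ (1 + e / 4) * L := mul_le_mul_of_nonneg_right hc hL.le
  have h6 : (1 + e / 8) * (π * x ^ 2) ≤ (1 + e / 8) * ((1 + e / 4) * L) :=
    mul_le_mul_of_nonneg_left h5 (by (clear * - he; positivity))
  calc π * (x + B) ^ 2 ≤ π * ((1 + e / 8) * x ^ 2 + (1 + 8 / e) * B ^ 2) :=
        mul_le_mul_of_nonneg_left h1 Real.pi_pos.le
    _ = (1 + e / 8) * (π * x ^ 2) + π * (1 + 8 / e) * B ^ 2 := by ring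
    _ ≤ (1 + e / 8) * ((1 + e / 4) * L) + 3 * e / 32 * L := by linarith only [hL0, h6]
    _ ≤ (1 + e / 2) * L := by
        have h7 : e * (e * L) ≤ 1 * (e * L) := mul_le_mul_of_nonneg_right he1 (mul_pos he hL).le
        linarith only [h7]

/-- the number of generations -/
theorem Param_M {κ : ℝ} (hκ : 0 < κ) (hκ1 : κ ≤ 1 / 4) (L₀ : ℝ) : ∃ M : ℕ, 1 ≤ M ∧
    2 ≤ κ * ((2 ^ M : ℕ) : ℝ) ∧ 2 / ((2 ^ M : ℕ) : ℝ) < κ ^ 2 ∧
      L₀ ≤ Real.log ((2 ^ M : ℕ) : ℝ) := by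
  obtain ⟨hl0, -⟩ := Param_log2
  obtain ⟨M, hM⟩ := exists_nat_gt (1 + 2 / κ ^ 2 + |L₀| / Real.log 2)
  have h1 : 0 < 2 / κ ^ 2 := by positivity
  have h2 : 0 ≤ |L₀| / Real.log 2 := div_nonneg (abs_nonneg _) hl0.le
  have hM2 : (M : ℝ) < ((2 ^ M : ℕ) : ℝ) := by exact_mod_cast Nat.lt_two_pow_self
  have h3 : 2 / κ ^ 2 < ((2 ^ M : ℕ) : ℝ) := by linarith only [hM, h2, hM2]
  have h4 : 2 < κ ^ 2 * ((2 ^ M : ℕ) : ℝ) := by
    rw [div_lt_iff₀ (by positivity)] at h3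
    (clear * - h3; linarith only [h3])
  have h5 : (0 : ℝ) < ((2 ^ M : ℕ) : ℝ) := by positivity
  refine ⟨M, ?_, ?_, ?_, ?_⟩
  · have : (1 : ℝ) ≤ M := by (clear * - hM h1 h2; linarith only [hM, h1, h2])
    exact_mod_cast this
  · have h6 : κ ^ 2 * ((2 ^ M : ℕ) : ℝ) ≤ κ * ((2 ^ M : ℕ) : ℝ) :=
      mul_le_mul_of_nonneg_right (by (clear * - hκ hκ1; nlinarith only [hκ, hκ1])) h5.le
    linarith only [h4, h6]
  · rw [div_lt_iff₀ h5]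
    (clear * - h4; linarith only [h4])
  · rw [Nat.cast_pow, Real.log_pow]
    have h6 : |L₀| / Real.log 2 ≤ M := by linarith only [hM, h1]
    rw [div_le_iff₀ hl0] at h6
    exact (le_abs_self L₀).trans (by simpa using h6)

theorem Param_log (M : ℕ) : Real.log ((2 ^ M : ℕ) : ℝ) = M * Real.log 2 := by
  rw [Nat.cast_pow, Real.log_pow]
  norm_num

theorem Param_small {X Y : ℝ} (hY : 0 < Y) : ∀ᶠ δ : ℝ in nhdsWithin 0 (Ioi 0), δ * X ≤ Y := by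
  have h : Filter.Tendsto (fun δ : ℝ => δ * X) (nhdsWithin 0 (Ioi 0)) (nhds 0) := by
    have h1 : Filter.Tendsto (fun δ : ℝ => δ * X) (nhds 0) (nhds (0 * X)) :=
      (continuous_id.mul continuous_const).tendsto 0
    rw [zero_mul] at h1
    exact h1.mono_left nhdsWithin_le_nhds
  exact (h.eventually (Iio_mem_nhds hY)).mono fun δ h => le_of_lt h

theorem Param_ex {P : ℝ → Prop} (h : ∀ᶠ δ : ℝ in nhdsWithin 0 (Ioi 0), P δ) :
    ∃ δ₀ : ℝ, 0 < δ₀ ∧ ∀ δ : ℝ, 0 < δ → δ < δ₀ → P δ := by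
  obtain ⟨u, hu, hs⟩ := mem_nhdsGT_iff_exists_Ioo_subset.1 h
  exact ⟨u, hu, fun δ h0 h1 => hs ⟨h0, h1⟩⟩

theorem Param_cK (M : ℕ) {ε : ℝ} (hε : 0 < ε) : 0 ≤ cK M ε := by
  unfold cK
  (clear * - hε; positivity)

/-- the exponent -/
theorem Param_exp {e ε' δ θ L c m b : ℝ} {M : ℕ} (he : 0 < e) (hM : 1 ≤ M)
    (hε' : ε' = e * Real.log 2 / (24 * C2)) (hL : L = M * Real.log 2)
    (hθδ : θ ≤ δ) (hδ1 : δ * (8 * C2) ≤ e * Real.log 2) (hb : b * (1 + 2 * e) * L = c)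
    (hm : m ≤ c) (hb1 : b ≤ 1 / 4) :
    C2 * δ ^ 2 * M * θ + δ ^ 2 * m + 2 * δ ^ 2 * ε' + 3 * ε' * (C2 * δ ^ 2 * M) ≤
      (b + e) * δ ^ 2 * L := by
  obtain ⟨hl0, hl1⟩ := Param_log2
  have hC := Param_C2
  have hMr : (1 : ℝ) ≤ M := by exact_mod_cast hM
  have hL0 : 0 < L := by rw [hL]; positivity
  have heL : 0 < e * L := mul_pos he hL0
  have hel : e * Real.log 2 ≤ e * L := by
    rw [hL]
    exact mul_le_mul_of_nonneg_left (by nlinarith only [hl0, hMr]) he.le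
  have k1 : C2 * M * θ ≤ e * L / 8 := by
    have h1 : C2 * M * θ ≤ C2 * M * δ := by
      refine mul_le_mul_of_nonneg_left hθδ ?_
      rw [hC]
      positivity
    have h2 : C2 * M * δ = δ * (8 * C2) * M / 8 := by ring
    have h3 : δ * (8 * C2) * M ≤ e * Real.log 2 * M :=
      mul_le_mul_of_nonneg_right hδ1 (by linarith only [])
    rw [hL]
    (clear * - h1 h3; linarith only [h1, h3])
  have k2 : 3 * ε' * (C2 * M) = e * L / 8 := by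
    rw [hε', hL, hC]
    ring
  have k3 : 2 * ε' ≤ e * L / 8 := by
    have h1 : 2 * ε' = e * Real.log 2 / (12 * 1200000) := by
      rw [hε', hC]
      ring
    rw [h1]
    have h2 : e * Real.log 2 / (12 * 1200000) ≤ e * Real.log 2 / 8 :=
      div_le_div_of_nonneg_left (by positivity) (by norm_num) (by norm_num)
    (clear * - hel h2; linarith only [hel, h2])
  have k4 : m ≤ b * L + e * L / 2 := by
    have h1 : b * (e * L) ≤ 1 / 4 * (e * L) := mul_le_mul_of_nonneg_right hb1 heL.le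
    linarith only [hb, hm, h1]
  have k5 : C2 * M * θ + m + 2 * ε' + 3 * ε' * (C2 * M) ≤ (b + e) * L := by
    rw [k2]
    (clear * - heL k1 k3 k4; linarith only [heL, k1, k3, k4])
  calc C2 * δ ^ 2 * M * θ + δ ^ 2 * m + 2 * δ ^ 2 * ε' + 3 * ε' * (C2 * δ ^ 2 * M)
      = δ ^ 2 * (C2 * M * θ + m + 2 * ε' + 3 * ε' * (C2 * M)) := by ring
    _ ≤ δ ^ 2 * ((b + e) * L) := mul_le_mul_of_nonneg_left k5 (sq_nonneg _)
    _ = (b + e) * δ ^ 2 * L := by ring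

/-- the constant `cm` -/
theorem Param_cm {e ε' δ κ : ℝ} {M : ℕ} (he : 0 < e) (he1 : e ≤ 1) (hε' : 0 < ε')
    (hε1 : ε' ≤ e / 8) (h0 : 0 < δ) (hδ : δ * 32 ≤ e / 8)
    (hL : 0 < Real.log ((2 ^ M : ℕ) : ℝ))
    (hS : π * sS κ (Real.log ((2 ^ M : ℕ) : ℝ)) ^ 2 ≤ (1 + e / 2) * Real.log ((2 ^ M : ℕ) : ℝ)) :
    0 ≤ cm M κ ε' δ ∧ cm M κ ε' δ ≤ 1 / 4 * (1 + 2 * e) * Real.log ((2 ^ M : ℕ) : ℝ) := by
  unfold cm
  generalize Real.log ((2 ^ M : ℕ) : ℝ) = L at *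
  have hX0 : 0 ≤ π * sS κ L ^ 2 := mul_nonneg Real.pi_pos.le (sq_nonneg _)
  have h1 : (1 + 32 * δ) * π * sS κ L ^ 2 = (1 + 32 * δ) * (π * sS κ L ^ 2) := by ring
  rw [h1]
  generalize π * sS κ L ^ 2 = X at *
  have h2 : 0 < 1 - ε' := by (clear * - he1 hε1; linarith only [he1, hε1])
  refine ⟨by (clear * - h0 hX0 h2; positivity), ?_⟩
  rw [div_le_iff₀ (by (clear * - h2; positivity))]
  have h3 : (1 + 32 * δ) * X ≤ (1 + e / 8) * ((1 + e / 2) * L) :=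
    mul_le_mul (by linarith only [hδ]) hS hX0 (by linarith only [h0, hδ])
  have h4 : (1 + e / 8) * (1 + e / 2) ≤ (1 + 2 * e) * (1 - ε') := by
    have h5 : (1 + 2 * e) * (1 - e / 8) ≤ (1 + 2 * e) * (1 - ε') :=
      mul_le_mul_of_nonneg_left (by linarith only [hε1]) (by linarith only [h0, hδ])
    nlinarith only [he1, hε', hε1]
  calc (1 + 32 * δ) * X ≤ (1 + e / 8) * ((1 + e / 2) * L) := h3
    _ = (1 + e / 8) * (1 + e / 2) * L := by ring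
    _ ≤ (1 + 2 * e) * (1 - ε') * L := mul_le_mul_of_nonneg_right h4 hL.le
    _ = 1 / 4 * (1 + 2 * e) * L * (4 * (1 - ε')) := by ring

theorem window_ex {ε : ℝ} (hε : 0 < ε) :
    ∃ κ : ℝ, 0 < κ ∧ κ ≤ 1 / 4 ∧ 6 * κ * (C2 / Real.log 2) ≤ ε ∧ ∃ M : ℕ, 1 ≤ M ∧
      2 ≤ κ * ((2 ^ M : ℕ) : ℝ) ∧ ∃ Cθ δ₀ : ℝ, 0 ≤ Cθ ∧ 0 < δ₀ ∧ δ₀ ≤ 1 / 4 ∧
      ∀ δ : ℝ, 0 < δ → δ < δ₀ → ∀ θ : ℝ, Cθ * δ ^ 2 ≤ θ → θ ≤ δ →
        ∀ (F : ℂ → ℂ) (A : ℝ), Fn F A → ∀ c ℓ : ℝ, 0 < ℓ → ℓ ≤ 1 →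
        ∑ d ∈ Finset.range (2 ^ M), chi κ (C2 * δ ^ 2 * M) (2 ^ M) d *
            V F δ (ch (2 ^ M) c ℓ d) (ℓ / ((2 ^ M : ℕ) : ℝ)) ^ (1 + θ) ≤
          ((2 ^ M : ℕ) : ℝ) ^ ((1 / 4 + ε) * δ ^ 2) * V F δ c ℓ ^ (1 + θ) := by
  obtain ⟨hl0, hl1⟩ := Param_log2
  have hC := Param_C2
  have he : 0 < min ε 1 := lt_min hε one_pos
  have he1 : min ε 1 ≤ 1 := min_le_right _ _
  have hee : min ε 1 ≤ ε := min_le_left _ _
  generalize min ε 1 = e at *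
  obtain ⟨κ, hκ, hκ1, hκ2, L₀, hL₀⟩ := Param_kap he he1
  obtain ⟨M, hM1, hM2, hM3, hM4⟩ := Param_M hκ hκ1 L₀
  have hLM := Param_log M
  have hMr : (1 : ℝ) ≤ M := by exact_mod_cast hM1
  have hLpos : 0 < Real.log ((2 ^ M : ℕ) : ℝ) := by rw [hLM]; (clear * - hM1; positivity)
  have hN0 : (0 : ℝ) < ((2 ^ M : ℕ) : ℝ) := by positivity
  have hsS := hL₀ _ hLpos hM4
  obtain ⟨ε', hε'⟩ : ∃ ε' : ℝ, ε' = e * Real.log 2 / (24 * C2) := ⟨_, rfl⟩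
  have hε0 : 0 < ε' := by rw [hε', hC]; (clear * - he; positivity)
  have hε8 : ε' ≤ e / 8 := by
    rw [hε', hC, div_le_div_iff₀ (by norm_num) (by norm_num)]
    nlinarith only [hl1, he]
  have hK := Param_cK M hε0
  have hsp : 0 < sS κ (Real.log ((2 ^ M : ℕ) : ℝ)) := Window_sS hκ hκ1
  obtain ⟨K, hKd⟩ : ∃ K : ℝ, K = cK M ε' := ⟨_, rfl⟩
  obtain ⟨L, hLd⟩ : ∃ L : ℝ, L = Real.log ((2 ^ M : ℕ) : ℝ) := ⟨_, rfl⟩
  obtain ⟨δ₁, hδ₁, hδ₁'⟩ := Param_ex ((((Param_small (X := C2) one_pos).and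
    (Param_small (X := K) one_pos)).and ((Param_small (X := 4 * K) hε0).and
    (Param_small (X := L) one_pos))).and (((Param_small (X := L * (500 * (1 + L))) hsp).and
    (Param_small (X := 8 * C2) (mul_pos he hl0))).and (Param_small (X := 32)
      (show (0 : ℝ) < e / 8 by (clear * - hε0 hε8; linarith only [hε0, hε8])))))
  rw [← hKd] at hK
  refine ⟨κ, hκ, hκ1, hκ2.trans hee, M, hM1, hM2, 2 * C2 * M * K / ε', min δ₁ (1 / 4), ?_,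
    lt_min hδ₁ (by norm_num), min_le_right _ _, ?_⟩
  · rw [hC]
    (clear * - hM1 hK hε0; positivity)
  intro δ h0 hδ θ hθ hθδ F A hF c ℓ hℓ hℓ1
  obtain ⟨⟨⟨c1, c2⟩, c3, c4⟩, ⟨c5, c6⟩, c7⟩ := hδ₁' δ h0 (hδ.trans_le (min_le_left _ _))
  obtain ⟨hm0, hmE⟩ := Param_cm (κ := κ) he he1 hε0 hε8 h0 c7 hLpos hsS
  rw [← hLd] at hmE
  have hL0 : 0 < L := by rw [hLd]; exact hLpos
  have hm1 : cm M κ ε' δ ≤ L := by
    refine hmE.trans ?_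
    calc 1 / 4 * (1 + 2 * e) * L ≤ 1 * L := mul_le_mul_of_nonneg_right (by (clear * - he1; linarith only [he1])) hL0.le
      _ = L := one_mul L
  have k1 : δ ≤ 1 / C2 := by
    rw [le_div_iff₀ (by rw [hC]; norm_num)]
    exact c1
  have k3 : 4 * δ ^ 2 * cK M ε' ^ 2 ≤ ε' := by
    rw [← hKd]
    calc 4 * δ ^ 2 * K ^ 2 = δ * (4 * K) * (δ * K) := by ring
      _ ≤ ε' * 1 := mul_le_mul c3 c2 (mul_nonneg h0.le hK) hε0.le
      _ = ε' := mul_one _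
  have k5 : δ * cm M κ ε' δ * (500 * (1 + Real.log ((2 ^ M : ℕ) : ℝ))) ≤
      sS κ (Real.log ((2 ^ M : ℕ) : ℝ)) := by
    refine le_trans ?_ c5
    rw [← hLd, mul_assoc]
    exact mul_le_mul_of_nonneg_left (mul_le_mul_of_nonneg_right hm1 (by (clear * - hL0; positivity))) h0.le
  have hw := hF.window (θ := θ) (c := c) hκ hκ1 hε0 (by (clear * - he1 hε8; linarith only [he1, hε8])) hM3 h0 k1
    (by rw [← hKd]; exact c2) k3 ((mul_le_mul_of_nonneg_left hm1 h0.le).trans c4) k5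
    (by rw [← hKd]; exact hθ) hℓ hℓ1
  refine hw.trans ?_
  have hV : 0 ≤ V F δ c ℓ ^ (1 + θ) := by
    refine Real.rpow_nonneg ?_ _
    unfold V Vp
    exact integral_nonneg fun w => Real.rpow_nonneg (norm_nonneg _) _
  refine mul_le_mul_of_nonneg_right ?_ hV
  rw [Real.rpow_def_of_pos hN0, ← hLd]
  refine Real.exp_le_exp.2 ?_
  have hE := Param_exp (e := e) (ε' := ε') (δ := δ) (θ := θ) (L := L) (b := 1 / 4) he hM1
    hε' (by rw [hLd, hLM]) hθδ c6 rfl hmE le_rfl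
  refine hE.trans ?_
  have h5 : 0 ≤ δ ^ 2 * L := by (clear * - h0 hL0; positivity)
  have h6 : e * (δ ^ 2 * L) ≤ ε * (δ ^ 2 * L) := mul_le_mul_of_nonneg_right hee h5
  calc (1 / 4 + e) * δ ^ 2 * L = 1 / 4 * (δ ^ 2 * L) + e * (δ ^ 2 * L) := by ring
    _ ≤ 1 / 4 * (δ ^ 2 * L) + ε * (δ ^ 2 * L) := by linarith only [h6]
    _ = L * ((1 / 4 + ε) * δ ^ 2) := by ring

end Pool.Agent.Helper90.G2
end

/- Helper24.K6w.H26.G4.ParamB -/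
section
/-!
# G4-PARAMB: choice of the parameters

`N = 2^M`, `L = log N = M log 2`. As `M → ∞`: `mm (Sc κ N) ε / L → π / (4 (π - 2 κ) (1 - 6 ε))` (`Sc κ N =
√(L / (π - 2 κ)) + const κ`). Given `ε'` choose `κ` small (also `6 κ (C9 / log 2) ≤ ε'`), `ε` small (also
`3 ε C9 / log 2 ≤ ε' / 8`, `ε / log 2 ≤ ε' / 8`), `M` large (also `2 ≤ κ 2^M`, `2 / 2^M < κ²`), then `δ₀` small:
all the conditions of `Sm` are of the form `A δ + B √δ ≤ C`, except `s1` (`δ log (1/δ) → 0`) and `s7`: with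
`Lw ≤ C / δ + 1` the left side is at most `C (1 + √(C / δ · √(C / δ))) ≤ C' δ^(-3/4)`. See the proof of
`Pool.Agent.Helper90.G2.window_ex`. `Cθ = 8 KK² / ε`. Exponent: with `θ ≤ δ` and `δ₀` small it is at most
`(1/4 + ε') δ² log (2^M)`.
-/

set_option autoImplicit false

namespace Pool.Agent.Helper26.G4

open MeasureTheory Set
open scoped Real
open Pool.Agent.Helper90.G2 (Bx Wn Fn ar ch Cen chi sS)

theorem param4_ev {f : ℝ → ℝ} (hf : Continuous f) {c : ℝ} (h : f 0 < c) :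
    ∀ᶠ δ : ℝ in nhdsWithin 0 (Ioi 0), f δ ≤ c := by
  have h1 : ∀ᶠ δ : ℝ in nhds 0, f δ < c := (hf.tendsto 0).eventually (Iio_mem_nhds h)
  exact (h1.filter_mono nhdsWithin_le_nhds).mono fun δ h => h.le

/-- `κ` and the size of the logarithm -/
theorem param4_kap {e : ℝ} (he : 0 < e) (he1 : e ≤ 1) :
    ∃ κ : ℝ, 0 < κ ∧ κ ≤ 1 / 4 ∧ 6 * κ * (C9 / Real.log 2) ≤ e ∧ ∃ L₀ : ℝ, ∀ L : ℝ, 0 < L →
      L₀ ≤ L → π * (sS κ L + 55000) ^ 2 ≤ (1 + e / 2) * L := by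
  obtain ⟨hl0, hl1⟩ := Pool.Agent.Helper90.G2.Param_log2
  have hC : (C9 : ℝ) = 10000000000 := rfl
  have hπ := Real.pi_gt_three
  obtain ⟨κ, hκd⟩ : ∃ κ : ℝ, κ = e * Real.log 2 / (6 * C9) := ⟨_, rfl⟩
  have hκ0 : 0 < κ := by rw [hκd, hC]; (clear * - he; positivity)
  have hκe : κ ≤ e / 10 := by
    rw [hκd, hC, div_le_div_iff₀ (by norm_num) (by norm_num)]
    nlinarith only [he, hl1]
  refine ⟨κ, hκ0, by (clear * - he1 hκe; linarith only [he1, hκe]), le_of_eq ?_, ?_⟩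
  · rw [hκd, hC]
    field_simp
  have hp : 0 < π - 2 * κ := by (clear * - he1 hπ hκe; linarith only [he1, hπ, hκe])
  have hc : π * (π - 2 * κ)⁻¹ ≤ 1 + e / 4 := by
    rw [← div_eq_mul_inv, div_le_iff₀ hp]
    (clear * - he hκe he1 hπ; nlinarith only [he, he1, hπ, hκe])
  obtain ⟨B, hB⟩ : ∃ B : ℝ, B = 1000 * (1 + 2 * Real.log (2 / κ)) + 55000 := ⟨_, rfl⟩
  refine ⟨32 * π * (1 + 8 / e) * B ^ 2 / (3 * e), fun L hL hL0 => ?_⟩
  rw [div_le_iff₀ (by positivity)] at hL0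
  have hs : sS κ L + 55000 = √(L / (π - 2 * κ)) + B := by
    unfold sS
    rw [hB]
    ring
  rw [hs]
  obtain ⟨x, hx⟩ : ∃ x : ℝ, x = √(L / (π - 2 * κ)) := ⟨_, rfl⟩
  rw [← hx]
  have hx2 : x ^ 2 = L * (π - 2 * κ)⁻¹ := by
    rw [hx, Real.sq_sqrt (by (clear * - hL hp; positivity)), div_eq_mul_inv]
  clear hs hx hB
  have h1 : (x + B) ^ 2 ≤ (1 + e / 8) * x ^ 2 + (1 + 8 / e) * B ^ 2 := by
    have h2 : 2 * x * B ≤ e / 8 * x ^ 2 + 8 / e * B ^ 2 := by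
      have h3 : e / 8 * x ^ 2 + 8 / e * B ^ 2 - 2 * x * B = (e * x - 8 * B) ^ 2 / (8 * e) := by
        field_simp
        ring
      have h4 : 0 ≤ (e * x - 8 * B) ^ 2 / (8 * e) := by (clear * - he; positivity)
      (clear * - h3 h4; linarith only [h3, h4])
    have h3 : (x + B) ^ 2 = x ^ 2 + 2 * x * B + B ^ 2 := by ring
    linarith only [h2]
  have h5 : π * x ^ 2 ≤ (1 + e / 4) * L := by
    rw [hx2]
    calc π * (L * (π - 2 * κ)⁻¹) = π * (π - 2 * κ)⁻¹ * L := by ring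
      _ ≤ (1 + e / 4) * L := mul_le_mul_of_nonneg_right hc hL.le
  have h6 : (1 + e / 8) * (π * x ^ 2) ≤ (1 + e / 8) * ((1 + e / 4) * L) :=
    mul_le_mul_of_nonneg_left h5 (by positivity)
  calc π * (x + B) ^ 2 ≤ π * ((1 + e / 8) * x ^ 2 + (1 + 8 / e) * B ^ 2) :=
        mul_le_mul_of_nonneg_left h1 Real.pi_pos.le
    _ = (1 + e / 8) * (π * x ^ 2) + π * (1 + 8 / e) * B ^ 2 := by ring
    _ ≤ (1 + e / 8) * ((1 + e / 4) * L) + 3 * e / 32 * L := by linarith only [hL0, h6]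
    _ ≤ (1 + e / 2) * L := by
        have h7 : e * (e * L) ≤ 1 * (e * L) := mul_le_mul_of_nonneg_right he1 (mul_pos he hL).le
        linarith only [h7]

theorem param4_mm {e ε S L : ℝ} (he : 0 < e) (he1 : e ≤ 1) (hε1 : 6 * ε ≤ e / 8) (hL : 0 < L)
    (hS : π * S ^ 2 ≤ (1 + e / 2) * L) : mm S ε ≤ (1 + e) / 4 * L := by
  unfold mm
  rw [div_le_iff₀ (by linarith only [he1, hε1])]
  have h1 : 1 + e / 2 ≤ (1 + e) * (1 - 6 * ε) := by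
    have h2 : (1 + e) * (1 - e / 8) ≤ (1 + e) * (1 - 6 * ε) :=
      mul_le_mul_of_nonneg_left (by linarith only [hε1]) (by (clear * - he; linarith))
    (clear * - he hε1 he1; nlinarith only [he, he1, hε1])
  calc π * S ^ 2 ≤ (1 + e / 2) * L := hS
    _ ≤ (1 + e) * (1 - 6 * ε) * L := mul_le_mul_of_nonneg_right h1 hL.le
    _ = (1 + e) / 4 * L * (4 * (1 - 6 * ε)) := by ring

/-- the exponent -/
theorem param4_exp {e ε' ε δ θ L m : ℝ} {M : ℕ} (he : 0 < e) (he1 : e ≤ 1) (hee : e ≤ ε')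
    (hM : 1 ≤ M) (hε : ε = e * Real.log 2 / (24 * C9)) (hL : L = M * Real.log 2) (hδ0 : 0 < δ)
    (hθδ : θ ≤ δ) (hδ : δ * (8 * (C9 + 1)) ≤ e * Real.log 2) (hm : m ≤ (1 + e) / 4 * L) :
    (C9 * δ ^ 2 * M + 4 * δ ^ 2 * ε) * θ + δ ^ 2 * (ε * M + m) + 4 * δ ^ 2 * ε +
      3 * ε * (C9 * δ ^ 2 * M) ≤ L * ((1 / 4 + ε') * δ ^ 2) := by
  obtain ⟨hl0, hl1⟩ := Pool.Agent.Helper90.G2.Param_log2
  have hC : (C9 : ℝ) = 10000000000 := rfl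
  have hMr : (1 : ℝ) ≤ M := by exact_mod_cast hM
  have hL0 : 0 < L := by rw [hL]; (clear * - hM; positivity)
  have heL : 0 < e * L := mul_pos he hL0
  have hel0 : 0 < e * Real.log 2 := mul_pos he hl0
  have hel1 : e * Real.log 2 ≤ 1 := by nlinarith only [he, he1, hl1]
  have hel : e * Real.log 2 ≤ e * L := by
    rw [hL]
    exact mul_le_mul_of_nonneg_left (by (clear * - hl0 hMr; nlinarith only [hl0, hMr])) he.le
  have hε2 : ε * 240000000000 = e * Real.log 2 := by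
    rw [hε, hC]
    ring
  have hε0 : 0 < ε := by linarith only [hel0, hε2]
  have hεM : ε * M * 240000000000 = e * L := by
    rw [hL]
    calc ε * M * 240000000000 = ε * 240000000000 * M := by ring
      _ = e * (M * Real.log 2) := by rw [hε2]; ring
  rw [hC] at hδ ⊢
  have k1 : (10000000000 * M + 4 * ε) * θ ≤ e * L / 8 := by
    have h1 : (10000000000 * M + 4 * ε) * θ ≤ (10000000000 * M + 4 * ε) * δ :=
      mul_le_mul_of_nonneg_left hθδ (by positivity)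
    have h2 : (10000000000 * M + 4 * ε) * δ ≤ (10000000001 * M) * δ :=
      mul_le_mul_of_nonneg_right (by (clear * - hMr hel1 hε2; linarith only [hMr, hel1, hε2])) hδ0.le
    have h3 : δ * (8 * (10000000000 + 1)) * M ≤ e * Real.log 2 * M :=
      mul_le_mul_of_nonneg_right hδ (by linarith only [])
    rw [hL]
    (clear * - h1 h2 h3; linarith only [h1, h2, h3])
  have k5 : (10000000000 * M + 4 * ε) * θ + (ε * M + m) + 4 * ε + 3 * ε * (10000000000 * M) ≤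
      L * (1 / 4 + ε') := by
    have h1 : e * L ≤ ε' * L := mul_le_mul_of_nonneg_right hee hL0.le
    linarith only [hm, hel, hε2, hε0, hεM, k1, h1]
  calc (10000000000 * δ ^ 2 * M + 4 * δ ^ 2 * ε) * θ + δ ^ 2 * (ε * M + m) + 4 * δ ^ 2 * ε +
      3 * ε * (10000000000 * δ ^ 2 * M)
      = δ ^ 2 * ((10000000000 * M + 4 * ε) * θ + (ε * M + m) + 4 * ε +
        3 * ε * (10000000000 * M)) := by ring
    _ ≤ δ ^ 2 * (L * (1 / 4 + ε')) := mul_le_mul_of_nonneg_left k5 (sq_nonneg _)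
    _ = L * ((1 / 4 + ε') * δ ^ 2) := by ring

/-- the condition `s1` -/
theorem param4_s1 {δ N K ε : ℝ} (hδ : 0 < δ) (hδ1 : δ ≤ 1) (hK : 0 < K)
    (h : δ * (N + Real.log (3 * K)) + 2 * √δ ≤ ε) :
    δ * (N + Real.log (2 * K / δ + K)) ≤ ε := by
  obtain ⟨s, hs⟩ : ∃ s : ℝ, s = √δ := ⟨_, rfl⟩
  have hs0 : 0 < s := by rw [hs]; exact Real.sqrt_pos.2 hδ
  have hs2 : δ = s ^ 2 := by rw [hs, Real.sq_sqrt hδ.le]
  rw [← hs] at h
  have h1 : 2 * K / δ + K ≤ 3 * K * s⁻¹ ^ 2 := by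
    have h2 : K ≤ K / δ := by
      rw [le_div_iff₀ hδ]
      exact mul_le_of_le_one_right hK.le hδ1
    calc 2 * K / δ + K ≤ 2 * K / δ + K / δ := by linarith
      _ = 3 * K * s⁻¹ ^ 2 := by
        rw [hs2, inv_pow]
        ring
  have h2 : Real.log (2 * K / δ + K) ≤ Real.log (3 * K) + 2 * (s⁻¹ - 1) := by
    have h3 : Real.log (3 * K * s⁻¹ ^ 2) = Real.log (3 * K) + 2 * Real.log s⁻¹ := by
      rw [Real.log_mul (by positivity) (by positivity), Real.log_pow]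
      norm_num
    have h4 := Real.log_le_sub_one_of_pos (inv_pos.2 hs0)
    calc Real.log (2 * K / δ + K) ≤ Real.log (3 * K * s⁻¹ ^ 2) :=
          Real.log_le_log (by positivity) h1
      _ ≤ Real.log (3 * K) + 2 * (s⁻¹ - 1) := by rw [h3]; linarith only [h4]
  have h3 : δ * (N + Real.log (2 * K / δ + K)) ≤ δ * (N + (Real.log (3 * K) + 2 * (s⁻¹ - 1))) :=
    mul_le_mul_of_nonneg_left (by linarith only [h2]) hδ.le
  have h4 : δ * (N + (Real.log (3 * K) + 2 * (s⁻¹ - 1))) =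
      δ * (N + Real.log (3 * K)) + 2 * s - 2 * δ := by
    have h5 : δ * s⁻¹ = s := by
      rw [hs2]
      field_simp
    calc δ * (N + (Real.log (3 * K) + 2 * (s⁻¹ - 1))) =
          δ * (N + Real.log (3 * K)) + 2 * (δ * s⁻¹) - 2 * δ := by ring
      _ = _ := by rw [h5]
  linarith only [hδ, h, h3, h4]

/-- the condition `s7` -/
theorem param4_s7 {Ca ε δ L K C n : ℝ} (hCa : 0 < Ca) (hδ : 0 < δ) (hδ1 : δ ≤ 1) (hL : 0 ≤ L)
    (hC : 0 ≤ C) (hn : n ≤ C / δ + 1)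
    (h : δ * Ca + √(√δ) * (Ca * √((C + 2) * L * √(2 * K))) ≤ ε) :
    Ca * (1 + √((n + 1) * L * √(2 * K / δ))) ≤ ε / δ := by
  obtain ⟨x, hx⟩ : ∃ x : ℝ, x = √(√δ) := ⟨_, rfl⟩
  have hx0 : 0 < x := by rw [hx]; exact Real.sqrt_pos.2 (Real.sqrt_pos.2 hδ)
  have hx2 : √δ = x ^ 2 := by rw [hx, Real.sq_sqrt (Real.sqrt_nonneg _)]
  have hx4 : δ = x ^ 4 := by
    calc δ = √δ ^ 2 := (Real.sq_sqrt hδ.le).symm
      _ = x ^ 4 := by rw [hx2]; ring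
  rw [← hx] at h
  obtain ⟨D, hD⟩ : ∃ D : ℝ, D = √((C + 2) * L * √(2 * K)) := ⟨_, rfl⟩
  have hD0 : 0 ≤ D := by rw [hD]; exact Real.sqrt_nonneg _
  have hD2 : D ^ 2 = (C + 2) * L * √(2 * K) := by
    rw [hD, Real.sq_sqrt (by (clear * - hC hL; positivity))]
  rw [← hD] at h
  have h1 : √(2 * K / δ) = √(2 * K) / x ^ 2 := by
    rw [Real.sqrt_div' _ hδ.le, hx2]
  have h2 : n + 1 ≤ (C + 2) / δ := by
    rw [le_div_iff₀ hδ]
    have h3 : n * δ ≤ (C / δ + 1) * δ := mul_le_mul_of_nonneg_right hn hδ.le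
    have h4 : (C / δ + 1) * δ = C + δ := by field_simp
    linarith only [hδ1, h3, h4]
  have h3 : (n + 1) * L * √(2 * K / δ) ≤ (D / x ^ 3) ^ 2 := by
    rw [h1]
    calc (n + 1) * L * (√(2 * K) / x ^ 2) ≤ (C + 2) / δ * L * (√(2 * K) / x ^ 2) :=
          mul_le_mul_of_nonneg_right (mul_le_mul_of_nonneg_right h2 hL) (by (clear * - hx0; positivity))
      _ = D ^ 2 / (x ^ 4 * x ^ 2) := by
          rw [hD2, hx4]
          ring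
      _ = (D / x ^ 3) ^ 2 := by
          rw [div_pow]
          congr 1
          ring
  have h4 : √((n + 1) * L * √(2 * K / δ)) ≤ D / x ^ 3 := by
    calc √((n + 1) * L * √(2 * K / δ)) ≤ √((D / x ^ 3) ^ 2) := Real.sqrt_le_sqrt h3
      _ = D / x ^ 3 := Real.sqrt_sq (by (clear * - hD0 hx0; positivity))
  rw [le_div_iff₀ hδ]
  calc Ca * (1 + √((n + 1) * L * √(2 * K / δ))) * δ ≤ Ca * (1 + D / x ^ 3) * δ :=
        mul_le_mul_of_nonneg_right (mul_le_mul_of_nonneg_left (by (clear * - h4; linarith only [h4])) hCa.le) hδ.le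
    _ = δ * Ca + x * (Ca * D) := by
        have h5 : D / x ^ 3 * δ = x * D := by
          rw [hx4]
          field_simp
        calc Ca * (1 + D / x ^ 3) * δ = δ * Ca + Ca * (D / x ^ 3 * δ) := by ring
          _ = δ * Ca + x * (Ca * D) := by rw [h5]; ring
    _ ≤ ε := h

theorem param4 {Ca ε' : ℝ} (hCa : 0 < Ca) (hε' : 0 < ε') :
    ∃ κ : ℝ, 0 < κ ∧ κ ≤ 1 / 4 ∧ 6 * κ * (C9 / Real.log 2) ≤ ε' ∧ ∃ ε : ℝ, 0 < ε ∧ ε ≤ 1 / 20 ∧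
      ∃ M : ℕ, 1 ≤ M ∧ 2 ≤ κ * ((2 ^ M : ℕ) : ℝ) ∧ 2 / ((2 ^ M : ℕ) : ℝ) < κ ^ 2 ∧
      ∃ Cθ δ₀ : ℝ, 0 ≤ Cθ ∧ 0 < δ₀ ∧ δ₀ ≤ 1 / 4 ∧ ∀ δ : ℝ, 0 < δ → δ < δ₀ → Sm Ca M κ ε δ ∧
        ∀ θ : ℝ, Cθ * δ ^ 2 ≤ θ → θ ≤ δ → 8 * δ ^ 2 * KK (2 ^ M) ε ^ 2 / ε ≤ θ ∧
          Real.exp ((C9 * δ ^ 2 * M + 4 * δ ^ 2 * ε) * θ +
            δ ^ 2 * (ε * M + mm (Sc κ (2 ^ M)) ε) + 4 * δ ^ 2 * ε + 3 * ε * (C9 * δ ^ 2 * M)) ≤
          ((2 ^ M : ℕ) : ℝ) ^ ((1 / 4 + ε') * δ ^ 2) := by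
  obtain ⟨hl0, hl1⟩ := Pool.Agent.Helper90.G2.Param_log2
  have hC : (C9 : ℝ) = 10000000000 := rfl
  have he : 0 < min ε' 1 := lt_min hε' one_pos
  have he1 : min ε' 1 ≤ 1 := min_le_right _ _
  have hee : min ε' 1 ≤ ε' := min_le_left _ _
  generalize min ε' 1 = e at *
  obtain ⟨κ, hκ, hκ1, hκ2, L₀, hL₀⟩ := param4_kap he he1
  obtain ⟨M, hM1, hM2, hM3, hM4⟩ := Pool.Agent.Helper90.G2.Param_M hκ hκ1 L₀
  have hLM := Pool.Agent.Helper90.G2.Param_log M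
  have hMr : (1 : ℝ) ≤ M := by exact_mod_cast hM1
  have hLpos : 0 < Real.log ((2 ^ M : ℕ) : ℝ) := by rw [hLM]; positivity
  have hN0 : (0 : ℝ) < ((2 ^ M : ℕ) : ℝ) := by positivity
  have hsS := hL₀ _ hLpos hM4
  obtain ⟨ε, hε⟩ : ∃ ε : ℝ, ε = e * Real.log 2 / (24 * C9) := ⟨_, rfl⟩
  have hε0 : 0 < ε := by rw [hε, hC]; (clear * - he; positivity)
  have hε2 : ε * 240000000000 = e * Real.log 2 := by
    rw [hε, hC]
    ring
  have hel : e * Real.log 2 ≤ e * 1 := mul_le_mul_of_nonneg_left hl1.le he.le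
  have hK0 : 0 < KN (2 ^ M) := Real.exp_pos _
  obtain ⟨C, hCd⟩ : ∃ C : ℝ, C = Ca * (1 + Real.log ((2 ^ M : ℕ) : ℝ)) / (ε * M) := ⟨_, rfl⟩
  have hC0 : 0 ≤ C := by rw [hCd]; (clear * - hCa hLpos hε0 hM1; positivity)
  obtain ⟨D, hD⟩ : ∃ D : ℝ, D = √((C + 2) * Real.log ((2 ^ M : ℕ) : ℝ) * √(2 * KN (2 ^ M))) :=
    ⟨_, rfl⟩
  obtain ⟨l3, hl3⟩ : ∃ l3 : ℝ, l3 = Real.log (3 * KN (2 ^ M)) := ⟨_, rfl⟩
  obtain ⟨k, hk⟩ : ∃ k : ℝ, k = KN (2 ^ M) := ⟨_, rfl⟩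
  obtain ⟨k1, hk1⟩ : ∃ k1 : ℝ, k1 = K1 (2 ^ M) := ⟨_, rfl⟩
  obtain ⟨kk, hkk⟩ : ∃ kk : ℝ, kk = KK (2 ^ M) ε := ⟨_, rfl⟩
  obtain ⟨c, hc⟩ : ∃ c : ℝ, c = Sc κ (2 ^ M) := ⟨_, rfl⟩
  obtain ⟨s, hs⟩ : ∃ s : ℝ, s = Sa (2 ^ M) := ⟨_, rfl⟩
  obtain ⟨N, hN⟩ : ∃ N : ℝ, N = ((2 ^ M : ℕ) : ℝ) := ⟨_, rfl⟩
  have hNp : 0 < N := by rw [hN]; exact hN0
  have e1 := param4_ev (f := fun δ => δ * (10 * N + l3) + 2 * √δ) (by fun_prop)
    (show (fun δ : ℝ => δ * (10 * N + l3) + 2 * √δ) 0 < ε by simpa using hε0)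
  have e2 := param4_ev (f := fun δ => δ * k) (by fun_prop)
    (show (fun δ : ℝ => δ * k) 0 < ε / 2 by simpa using hε0)
  have e3 := param4_ev (f := fun δ => δ * k1 + √δ * (4 * c / √ε)) (by fun_prop)
    (show (fun δ : ℝ => δ * k1 + √δ * (4 * c / √ε)) 0 < ε / 2 by simpa using hε0)
  have e4 := param4_ev (f := fun δ => δ * k1 + √δ * (4 * s / √ε)) (by fun_prop)
    (show (fun δ : ℝ => δ * k1 + √δ * (4 * s / √ε)) 0 < ε / 2 by simpa using hε0)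
  have e5 := param4_ev (f := fun δ => δ * k1 + √δ * s) (by fun_prop)
    (show (fun δ : ℝ => δ * k1 + √δ * s) 0 < ε / (4 * N) by
      have : 0 < ε / (4 * N) := by positivity
      simpa using this)
  have e6 := param4_ev (f := fun δ => 8 * δ ^ 2 * kk ^ 2) (by fun_prop)
    (show (fun δ : ℝ => 8 * δ ^ 2 * kk ^ 2) 0 < ε by simpa using hε0)
  have e7 := param4_ev (f := fun δ => δ * Ca + √(√δ) * (Ca * D)) (by fun_prop)
    (show (fun δ : ℝ => δ * Ca + √(√δ) * (Ca * D)) 0 < ε by simpa using hε0)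
  have e8 := param4_ev (f := fun δ => δ * (8 * (C9 + 1))) (by fun_prop)
    (show (fun δ : ℝ => δ * (8 * (C9 + 1))) 0 < e * Real.log 2 by
      simpa using mul_pos he hl0)
  obtain ⟨δ₁, hδ₁, hδ₁'⟩ := Pool.Agent.Helper90.G2.Param_ex
    (((e1.and e2).and (e3.and e4)).and ((e5.and e6).and (e7.and e8)))
  refine ⟨κ, hκ, hκ1, hκ2.trans hee, ε, hε0, by (clear * - he1 hε2 hel; linarith only [he1, hε2, hel]), M, hM1, hM2, hM3, 8 * kk ^ 2 / ε,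
    min δ₁ (1 / 4), by (clear * - hε0; positivity), lt_min hδ₁ (by norm_num), min_le_right _ _, ?_⟩
  intro δ h0 hδ
  obtain ⟨⟨⟨c1, c2⟩, c3, c4⟩, ⟨c5, c6⟩, c7, c8⟩ := hδ₁' δ h0 (hδ.trans_le (min_le_left _ _))
  have hδ4 : δ ≤ 1 / 4 := (hδ.trans_le (min_le_right _ _)).le
  refine ⟨⟨h0, hδ4, ?_, ?_, ?_, ?_, ?_, ?_, ?_⟩, fun θ hθ hθδ => ⟨?_, ?_⟩⟩
  · refine param4_s1 h0 (by linarith only [hδ4]) hK0 ?_
    rw [← hl3, ← hN]
    exact c1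
  · rw [← hk]
    exact c2
  · rw [← hk1, ← hc]
    exact c3
  · rw [← hk1, ← hs]
    exact c4
  · rw [← hk1, ← hs, ← hN]
    exact c5
  · rw [← hkk]
    exact c6
  · refine param4_s7 hCa h0 (by linarith only [hδ4]) hLpos.le hC0 ?_ (by rw [← hD]; exact c7)
    have h1 : 0 ≤ Ca * (1 + Real.log ((2 ^ M : ℕ) : ℝ)) / (ε * δ * M) := by (clear * - hCa hLpos hε0 h0 hM1; positivity)
    have h2 := (Nat.ceil_lt_add_one h1).le
    unfold Lw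
    refine h2.trans (le_of_eq ?_)
    rw [hCd, div_div]
    congr 2
    ring
  · rw [← hkk]
    refine le_trans (le_of_eq ?_) hθ
    ring
  · rw [Real.rpow_def_of_pos hN0]
    refine Real.exp_le_exp.2 (param4_exp he he1 hee hM1 hε hLM h0 hθδ c8 ?_)
    exact param4_mm he he1 (by linarith only [hε0, hε2, hel]) hLpos hsS

end Pool.Agent.Helper26.G4
end

/- Helper24.K6w.H26.G5.Param5 -/
section
/-!
# G5-PARAM: choice of the parameters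

As `Pool.Agent.Helper26.G4.param4`: `mm5 = (1 - c₀) mm`, the exponent is `(1 - c₀) / 4 + ε'`. All conditions of
`Sm5` are of the form `A δ ≤ C`, except `s1` and `s7` (as in `param4`).
-/

set_option autoImplicit false

namespace Pool.Agent.Helper26.G5

open MeasureTheory Set
open scoped Real
open Pool.Agent.Helper90.G2 (Bx Wn Fn ar ch Cen chi)
open Pool.Agent.Helper26.G4 (vt Br Lb wd al rr w0 Bad cn vk lv KN Sa Sc mm KK C9 Sg)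

/-- the exponent -/
theorem param5_exp {e ε' ε δ θ L m b : ℝ} {M : ℕ} (he : 0 < e) (he1 : e ≤ 1) (hee : e ≤ ε')
    (hM : 1 ≤ M) (hε : ε = e * Real.log 2 / (24 * C9)) (hL : L = M * Real.log 2) (hδ0 : 0 < δ)
    (hθδ : θ ≤ δ) (hδ : δ * (8 * (C9 + 1)) ≤ e * Real.log 2) (hb : b ≤ 1 / 4)
    (hm : m ≤ b * (1 + e) * L) :
    (C9 * δ ^ 2 * M + 4 * δ ^ 2 * ε) * θ + δ ^ 2 * (ε * M + m) + 4 * δ ^ 2 * ε +
      3 * ε * (C9 * δ ^ 2 * M) ≤ L * ((b + ε') * δ ^ 2) := by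
  obtain ⟨hl0, hl1⟩ := Pool.Agent.Helper90.G2.Param_log2
  have hC : (C9 : ℝ) = 10000000000 := rfl
  have hMr : (1 : ℝ) ≤ M := by exact_mod_cast hM
  have hL0 : 0 < L := by rw [hL]; positivity
  have heL : 0 < e * L := mul_pos he hL0
  have hel0 : 0 < e * Real.log 2 := mul_pos he hl0
  have hel1 : e * Real.log 2 ≤ 1 := by (clear * - he1 he hl1; nlinarith only [he, he1, hl1])
  have hel : e * Real.log 2 ≤ e * L := by
    rw [hL]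
    exact mul_le_mul_of_nonneg_left (by (clear * - hl0 hMr; nlinarith only [hl0, hMr])) he.le
  have hε2 : ε * 240000000000 = e * Real.log 2 := by
    rw [hε, hC]
    ring
  have hε0 : 0 < ε := by linarith only [hel0, hε2]
  have hεM : ε * M * 240000000000 = e * L := by
    rw [hL]
    calc ε * M * 240000000000 = ε * 240000000000 * M := by ring
      _ = e * (M * Real.log 2) := by rw [hε2]; ring
  rw [hC] at hδ ⊢
  have k1 : (10000000000 * M + 4 * ε) * θ ≤ e * L / 8 := by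
    have h1 : (10000000000 * M + 4 * ε) * θ ≤ (10000000000 * M + 4 * ε) * δ :=
      mul_le_mul_of_nonneg_left hθδ (by positivity)
    have h2 : (10000000000 * M + 4 * ε) * δ ≤ (10000000001 * M) * δ :=
      mul_le_mul_of_nonneg_right (by (clear * - hMr hel1 hε2; linarith only [hMr, hel1, hε2])) hδ0.le
    have h3 : δ * (8 * (10000000000 + 1)) * M ≤ e * Real.log 2 * M :=
      mul_le_mul_of_nonneg_right hδ (by linarith only [])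
    rw [hL]
    (clear * - h1 h2 h3; linarith only [h1, h2, h3])
  have k2 : m ≤ b * L + e * L / 4 := by
    have h1 : b * (e * L) ≤ 1 / 4 * (e * L) := mul_le_mul_of_nonneg_right hb heL.le
    calc m ≤ b * (1 + e) * L := hm
      _ = b * L + b * (e * L) := by ring
      _ ≤ b * L + e * L / 4 := by linarith only [h1]
  have k5 : (10000000000 * M + 4 * ε) * θ + (ε * M + m) + 4 * ε + 3 * ε * (10000000000 * M) ≤
      L * (b + ε') := by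
    have h1 : e * L ≤ ε' * L := mul_le_mul_of_nonneg_right hee hL0.le
    linarith only [hel, hε2, hε0, hεM, k1, k2, h1]
  calc (10000000000 * δ ^ 2 * M + 4 * δ ^ 2 * ε) * θ + δ ^ 2 * (ε * M + m) + 4 * δ ^ 2 * ε +
      3 * ε * (10000000000 * δ ^ 2 * M)
      = δ ^ 2 * ((10000000000 * M + 4 * ε) * θ + (ε * M + m) + 4 * ε +
        3 * ε * (10000000000 * M)) := by ring
    _ ≤ δ ^ 2 * (L * (b + ε')) := mul_le_mul_of_nonneg_left k5 (sq_nonneg _)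
    _ = L * ((b + ε') * δ ^ 2) := by ring

theorem param5 {Ca b c₀ B Cc m₁ ε' : ℝ} (hCa : 0 < Ca) (hε' : 0 < ε') (hb : 0 < b) (hb1 : b ≤ 1)
    (hc : 0 < c₀) (hc1 : c₀ ≤ 1 / 2) (hB : 0 ≤ B) (hCc : 1 ≤ Cc) (hm : 0 < m₁) :
    ∃ κ : ℝ, 0 < κ ∧ κ ≤ 1 / 4 ∧ 6 * κ * (C9 / Real.log 2) ≤ ε' ∧ ∃ ε : ℝ, 0 < ε ∧ ε ≤ 1 / 20 ∧
      ∃ M : ℕ, 1 ≤ M ∧ 2 ≤ κ * ((2 ^ M : ℕ) : ℝ) ∧ 2 / ((2 ^ M : ℕ) : ℝ) < κ ^ 2 ∧
      ∃ Cθ δ₀ : ℝ, 0 ≤ Cθ ∧ 0 < δ₀ ∧ δ₀ ≤ 1 / 4 ∧ ∀ δ : ℝ, 0 < δ → δ < δ₀ →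
        Sm5 Ca b c₀ B Cc m₁ M κ ε δ ∧
        ∀ θ : ℝ, Cθ * δ ^ 2 ≤ θ → θ ≤ δ → 8 * δ ^ 2 * KK (2 ^ M) ε ^ 2 / ε ≤ θ ∧
          Real.exp ((C9 * δ ^ 2 * M + 4 * δ ^ 2 * ε) * θ +
            δ ^ 2 * (ε * M + mm5 c₀ (Sc κ (2 ^ M)) ε) + 4 * δ ^ 2 * ε + 3 * ε * (C9 * δ ^ 2 * M)) ≤
          ((2 ^ M : ℕ) : ℝ) ^ (((1 - c₀) / 4 + ε') * δ ^ 2) := by
  obtain ⟨hl0, hl1⟩ := Pool.Agent.Helper90.G2.Param_log2
  have hC : (C9 : ℝ) = 10000000000 := rfl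
  have he : 0 < min ε' 1 := lt_min hε' one_pos
  have he1 : min ε' 1 ≤ 1 := min_le_right _ _
  have hee : min ε' 1 ≤ ε' := min_le_left _ _
  generalize min ε' 1 = e at *
  obtain ⟨κ, hκ, hκ1, hκ2, L₀, hL₀⟩ := Pool.Agent.Helper26.G4.param4_kap he he1
  obtain ⟨M, hM1, hM2, hM3, hM4⟩ := Pool.Agent.Helper90.G2.Param_M hκ hκ1 L₀
  have hLM := Pool.Agent.Helper90.G2.Param_log M
  have hMr : (1 : ℝ) ≤ M := by exact_mod_cast hM1
  have hLpos : 0 < Real.log ((2 ^ M : ℕ) : ℝ) := by rw [hLM]; positivity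
  have hN0 : (0 : ℝ) < ((2 ^ M : ℕ) : ℝ) := by positivity
  have hsS := hL₀ _ hLpos hM4
  obtain ⟨ε, hε⟩ : ∃ ε : ℝ, ε = e * Real.log 2 / (24 * C9) := ⟨_, rfl⟩
  have hε0 : 0 < ε := by rw [hε, hC]; positivity
  have hε2 : ε * 240000000000 = e * Real.log 2 := by
    rw [hε, hC]
    ring
  have hel : e * Real.log 2 ≤ e * 1 := mul_le_mul_of_nonneg_left hl1.le he.le
  have hK0 : 0 < KN (2 ^ M) := Real.exp_pos _
  have hsw : 0 ≤ sw b B := by unfold sw; (clear * - hB hb; positivity)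
  obtain ⟨C, hCd⟩ : ∃ C : ℝ, C = (Ca * (1 + Real.log ((2 ^ M : ℕ) : ℝ)) + 2 * sw b B) / (ε * M) + 1 :=
    ⟨_, rfl⟩
  have hC0 : 0 ≤ C := by rw [hCd]; (clear * - hCa hLpos hsw hε0 hM1; positivity)
  obtain ⟨k, hk⟩ : ∃ k : ℝ, k = KN (2 ^ M) := ⟨_, rfl⟩
  rw [← hk] at hK0
  obtain ⟨D, hD⟩ : ∃ D : ℝ, D = √((C + 2) * Real.log ((2 ^ M : ℕ) : ℝ) * √(2 * (Cc * k))) :=
    ⟨_, rfl⟩
  obtain ⟨l3, hl3⟩ : ∃ l3 : ℝ, l3 = Real.log (3 * (Cc * k)) := ⟨_, rfl⟩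
  obtain ⟨k5, hk5⟩ : ∃ k5 : ℝ, k5 = K5 (2 ^ M) B := ⟨_, rfl⟩
  obtain ⟨kk, hkk⟩ : ∃ kk : ℝ, kk = KK (2 ^ M) ε := ⟨_, rfl⟩
  obtain ⟨q, hq⟩ : ∃ q : ℝ, q = 1 + KK (2 ^ M) ε + mm (Sc κ (2 ^ M)) ε + mm (Sa (2 ^ M)) ε :=
    ⟨_, rfl⟩
  obtain ⟨N, hN⟩ : ∃ N : ℝ, N = ((2 ^ M : ℕ) : ℝ) := ⟨_, rfl⟩
  have hNp : 0 < N := by rw [hN]; exact hN0
  have e0 := Pool.Agent.Helper26.G4.param4_ev (f := fun δ => δ * q) (by fun_prop)
    (show (fun δ : ℝ => δ * q) 0 < m₁ by simpa using hm)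
  have e1 := Pool.Agent.Helper26.G4.param4_ev (f := fun δ => δ * (10 * N + l3) + 2 * √δ)
    (by fun_prop) (show (fun δ : ℝ => δ * (10 * N + l3) + 2 * √δ) 0 < ε by simpa using hε0)
  have e2 := Pool.Agent.Helper26.G4.param4_ev (f := fun δ => δ * k) (by fun_prop)
    (show (fun δ : ℝ => δ * k) 0 < ε / 4 by simpa using hε0)
  have e3 := Pool.Agent.Helper26.G4.param4_ev (f := fun δ => δ * k5) (by fun_prop)
    (show (fun δ : ℝ => δ * k5) 0 < ε / (4 * N) by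
      have : 0 < ε / (4 * N) := by (clear * - hε0 hNp; positivity)
      simpa using this)
  have e4 := Pool.Agent.Helper26.G4.param4_ev (f := fun δ => δ * (1 + B)) (by fun_prop)
    (show (fun δ : ℝ => δ * (1 + B)) 0 < 1 / 8 by norm_num)
  have e5 := Pool.Agent.Helper26.G4.param4_ev (f := fun δ => δ) (by fun_prop)
    (show (fun δ : ℝ => δ) 0 < ε / 4 by simpa using hε0)
  have e6 := Pool.Agent.Helper26.G4.param4_ev (f := fun δ => 8 * δ ^ 2 * kk ^ 2) (by fun_prop)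
    (show (fun δ : ℝ => 8 * δ ^ 2 * kk ^ 2) 0 < ε by simpa using hε0)
  have e7 := Pool.Agent.Helper26.G4.param4_ev (f := fun δ => δ * Ca + √(√δ) * (Ca * D))
    (by fun_prop) (show (fun δ : ℝ => δ * Ca + √(√δ) * (Ca * D)) 0 < ε by simpa using hε0)
  have e8 := Pool.Agent.Helper26.G4.param4_ev (f := fun δ => δ * (8 * (C9 + 1))) (by fun_prop)
    (show (fun δ : ℝ => δ * (8 * (C9 + 1))) 0 < e * Real.log 2 by
      simpa using mul_pos he hl0)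
  obtain ⟨δ₁, hδ₁, hδ₁'⟩ := Pool.Agent.Helper90.G2.Param_ex
    ((((e1.and e2).and (e3.and e4)).and ((e5.and e6).and (e7.and e8))).and e0)
  refine ⟨κ, hκ, hκ1, hκ2.trans hee, ε, hε0, by (clear * - he1 hε2 hel; linarith only [he1, hε2, hel]), M, hM1, hM2, hM3, 8 * kk ^ 2 / ε,
    min δ₁ (1 / 4), by (clear * - hε0; positivity), lt_min hδ₁ (by norm_num), min_le_right _ _, ?_⟩
  intro δ h0 hδ
  obtain ⟨⟨⟨⟨c1, c2⟩, c3, c4⟩, ⟨c5, c6⟩, c7, c8⟩, c0⟩ :=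
    hδ₁' δ h0 (hδ.trans_le (min_le_left _ _))
  have hδ4 : δ ≤ 1 := by linarith only [(hδ.trans_le (min_le_right _ _)).le]
  have hCk : 0 < Cc * k := mul_pos (by linarith only [hCc]) hK0
  have hkCk : k ≤ Cc * k := le_mul_of_one_le_left hK0.le hCc
  refine ⟨⟨h0, c5, ?_, ?_, ?_, ?_, c4, ?_, ?_⟩, fun θ hθ hθδ => ⟨?_, ?_⟩⟩
  · rw [← hq]
    exact c0
  · rw [← hk, ← hN]
    refine le_trans (mul_le_mul_of_nonneg_left ?_ h0.le)
      (Pool.Agent.Helper26.G4.param4_s1 (K := Cc * k) h0 hδ4 hCk (by rw [← hl3]; exact c1))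
    have h1 : 2 * Cc * k / δ + k ≤ 2 * (Cc * k) / δ + Cc * k := by
      rw [mul_assoc]
      linarith only [hkCk]
    have h2 := Real.log_le_log (by (clear * - hCc hK0 h0; positivity)) h1
    linarith only [h2]
  · rw [← hk]
    exact c2
  · rw [← hk5, ← hN]
    exact c3
  · rw [← hkk]
    exact c6
  · rw [← hk, mul_assoc 2 Cc k]
    refine Pool.Agent.Helper26.G4.param4_s7 hCa h0 hδ4 hLpos.le hC0 ?_
      (by rw [← hD]; exact c7)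
    have h1 : 0 ≤ (Ca * (1 + Real.log ((2 ^ M : ℕ) : ℝ)) + 2 * sw b B) / (ε * δ * M) := by
      (clear * - hCa hLpos hsw hε0 h0 hM1; positivity)
    have h2 := (Nat.ceil_lt_add_one h1).le
    have h3 : (1 : ℝ) ≤ 1 / δ := by
      rw [le_div_iff₀ h0]
      linarith only [hδ4]
    have h4 : (Ca * (1 + Real.log ((2 ^ M : ℕ) : ℝ)) + 2 * sw b B) / (ε * δ * M) =
        (Ca * (1 + Real.log ((2 ^ M : ℕ) : ℝ)) + 2 * sw b B) / (ε * M) / δ := by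
      rw [div_div]
      congr 1
      ring
    unfold Lw5
    rw [Nat.cast_add, Nat.cast_one]
    calc ((⌈(Ca * (1 + Real.log ((2 ^ M : ℕ) : ℝ)) + 2 * sw b B) / (ε * δ * M)⌉₊ : ℕ) : ℝ) + 1
        ≤ (Ca * (1 + Real.log ((2 ^ M : ℕ) : ℝ)) + 2 * sw b B) / (ε * δ * M) + 1 / δ + 1 := by
          linarith only [h2, h3]
      _ = C / δ + 1 := by rw [h4, hCd, add_div _ 1 δ]
  · rw [← hkk]
    refine le_trans (le_of_eq ?_) hθ
    ring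
  · rw [Real.rpow_def_of_pos hN0]
    refine Real.exp_le_exp.2 (param5_exp he he1 hee hM1 hε hLM h0 hθδ c8 (by linarith only [hc]) ?_)
    have h1 := Pool.Agent.Helper26.G4.param4_mm (S := Sc κ (2 ^ M)) (ε := ε) he he1
      (by linarith only [hε0, hε2, hel]) hLpos hsS
    unfold mm5
    calc (1 - c₀) * mm (Sc κ (2 ^ M)) ε ≤ (1 - c₀) * ((1 + e) / 4 * Real.log ((2 ^ M : ℕ) : ℝ)) :=
          mul_le_mul_of_nonneg_left h1 (by linarith only [hc1])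
      _ = (1 - c₀) / 4 * (1 + e) * Real.log ((2 ^ M : ℕ) : ℝ) := by ring

end Pool.Agent.Helper26.G5
end

/- Helper24.K6w.H90.G2.Heights -/
section
/-!
# G2-HEIGHTS: all heights, and the exponent

Given `ε`, take `window_ex (ε / 4)`; given `δ₁` small put `δ = δ₁ + C' δ₁²`,
`θ = (δ - δ₁) / (2 - δ) = C' δ₁² / (2 - δ)`, so that `(2 - δ) (1 + θ) = 2 - δ₁`, with `C' ≥ 8 Cθ + 1`
(then `θ ≥ Cθ δ²` as `δ ≤ 2 δ₁`, and `θ ≤ δ` for small `δ₁`). `Fn.avg` with `G = N^((1/4 + ε/4) δ²)`,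
`c' = C2 δ² M`, `exp (6 κ c' K) = (N^K)^(6 κ C2 δ² / log 2) ≤ (N^K)^(ε δ²/4)`, and
`(1/4 + ε/2) δ² ≤ (1/4 + ε) δ₁²` for small `δ₁`. This is the bound at the heights `N^(-K)`. For `y` between
`N^(-K-1)` and `N^(-K)`: `‖F' (y + i ξ)‖ ≤ 55^(M+1) ‖F' (N^(-K) + i ξ)‖` (`Fn.down`, from `Fn.dist`,
halving the height).
-/

set_option autoImplicit false

namespace Pool.Agent.Helper90.G2

open MeasureTheory Set
open scoped Real

theorem Fn.down {F : ℂ → ℂ} {A : ℝ} (hF : Fn F A) {y y' ξ : ℝ} (hy : 0 < y) (hyy : y ≤ y')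
    (hy1 : y' ≤ 1) (M : ℕ) (hM : y' ≤ 2 ^ M * y) :
    ‖deriv F ⟨y, ξ⟩‖ ≤ 55 ^ M * ‖deriv F ⟨y', ξ⟩‖ := by
  induction M generalizing y' with
  | zero =>
    rw [pow_zero, one_mul] at hM
    rw [pow_zero, one_mul, le_antisymm hyy hM]
  | succ M ih =>
    have h2M : (1 : ℝ) ≤ 2 ^ M := one_le_pow₀ one_le_two
    have h1 : y ≤ max y (y' / 2) := le_max_left _ _
    have h2 : max y (y' / 2) ≤ 1 := max_le (hyy.trans hy1) (by (clear * - hy1; linarith))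
    have h3 : max y (y' / 2) ≤ 2 ^ M * y := by
      apply max_le
      · exact le_mul_of_one_le_left hy.le h2M
      · rw [pow_succ] at hM
        (clear * - hM; linarith only [hM])
    have h4 : max y (y' / 2) ≤ y' := max_le hyy (by (clear * - hy hyy; linarith only [hy, hyy]))
    have h5 : y' / 2 ≤ max y (y' / 2) := le_max_right _ _
    have h6 := ih h1 h2 h3
    have h7 : ‖deriv F ⟨max y (y' / 2), ξ⟩‖ ≤ 55 * ‖deriv F ⟨y', ξ⟩‖ := by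
      refine (hF.dist (u := ⟨y', ξ⟩) (u' := ⟨max y (y' / 2), ξ⟩) ?_ ?_ ?_).1
      · exact hy.trans_le hyy
      · show y' ≤ 3
        (clear * - h2 h5; linarith only [h2, h5])
      · have h8 : (⟨max y (y' / 2), ξ⟩ : ℂ) - ⟨y', ξ⟩ = ((max y (y' / 2) - y' : ℝ) : ℂ) := by
          apply Complex.ext <;> simp
        rw [h8, Complex.norm_real, Real.norm_eq_abs, abs_le]
        show -(y' / 2) ≤ max y (y' / 2) - y' ∧ max y (y' / 2) - y' ≤ y' / 2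
        constructor <;> (clear * - h5 h4; linarith only [h5, h4])
    calc ‖deriv F ⟨y, ξ⟩‖ ≤ 55 ^ M * ‖deriv F ⟨max y (y' / 2), ξ⟩‖ := h6
      _ ≤ 55 ^ M * (55 * ‖deriv F ⟨y', ξ⟩‖) := mul_le_mul_of_nonneg_left h7 (by positivity)
      _ = 55 ^ (M + 1) * ‖deriv F ⟨y', ξ⟩‖ := by ring

theorem Heights_cont {F : ℂ → ℂ} {A : ℝ} (hF : Fn F A) {y p : ℝ} (hy : 0 < y) (hp : 0 ≤ p) :
    Continuous fun ξ : ℝ => ‖deriv F ⟨y, ξ⟩‖ ^ p := by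
  have h1 : ContinuousOn (deriv F) {u : ℂ | 0 < u.re} :=
    (hF.diff.deriv (isOpen_lt continuous_const Complex.continuous_re)).continuousOn
  have h2 : Continuous fun ξ : ℝ => (⟨y, ξ⟩ : ℂ) := by
    have h : (fun ξ : ℝ => (⟨y, ξ⟩ : ℂ)) = fun ξ : ℝ => (y : ℂ) + (ξ : ℂ) * Complex.I := by
      funext ξ
      apply Complex.ext <;> simp
    rw [h]
    fun_prop
  have h3 : Continuous fun ξ : ℝ => deriv F ⟨y, ξ⟩ := h1.comp_continuous h2 fun ξ => hy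
  exact h3.norm.rpow_const fun _ => Or.inr hp

theorem Heights_mono {F : ℂ → ℂ} {A : ℝ} (hF : Fn F A) {y y' p : ℝ} (hy : 0 < y) (hyy : y ≤ y')
    (hy1 : y' ≤ 1) (M : ℕ) (hM : y' ≤ 2 ^ M * y) (hp : 0 ≤ p) (hp2 : p ≤ 2) :
    ∫ ξ in (0:ℝ)..(2 * π), ‖deriv F ⟨y, ξ⟩‖ ^ p ≤
      (55 ^ M) ^ 2 * ∫ ξ in (0:ℝ)..(2 * π), ‖deriv F ⟨y', ξ⟩‖ ^ p := by
  rw [← intervalIntegral.integral_const_mul]
  apply intervalIntegral.integral_mono_on (by positivity)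
    ((Heights_cont hF hy hp).intervalIntegrable _ _)
    (((Heights_cont hF (hy.trans_le hyy) hp).const_mul _).intervalIntegrable _ _)
  intro ξ _
  have h1 := hF.down (ξ := ξ) hy hyy hy1 M hM
  have h55 : (1 : ℝ) ≤ 55 ^ M := one_le_pow₀ (by norm_num)
  calc ‖deriv F ⟨y, ξ⟩‖ ^ p ≤ (55 ^ M * ‖deriv F ⟨y', ξ⟩‖) ^ p :=
        Real.rpow_le_rpow (norm_nonneg _) h1 hp
    _ = ((55 : ℝ) ^ M) ^ p * ‖deriv F ⟨y', ξ⟩‖ ^ p :=
        Real.mul_rpow (by positivity) (norm_nonneg _)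
    _ ≤ (55 ^ M) ^ 2 * ‖deriv F ⟨y', ξ⟩‖ ^ p := by
        apply mul_le_mul_of_nonneg_right _ (by (clear * -; positivity))
        calc ((55 : ℝ) ^ M) ^ p ≤ ((55 : ℝ) ^ M) ^ (2 : ℝ) :=
              Real.rpow_le_rpow_of_exponent_le h55 hp2
          _ = (55 ^ M) ^ 2 := by rw [Real.rpow_two]

theorem Heights_exp {ε κ δ : ℝ} (hκ : 6 * κ * (C2 / Real.log 2) ≤ ε / 4) (M K : ℕ) :
    Real.exp (6 * κ * (C2 * δ ^ 2 * M) * K) ≤
      (((2 ^ M) ^ K : ℕ) : ℝ) ^ (ε / 4 * δ ^ 2) := by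
  have h2 : 0 < Real.log 2 := Real.log_pos one_lt_two
  have hx : (0:ℝ) < (((2 ^ M) ^ K : ℕ) : ℝ) := by (clear * -; positivity)
  rw [Real.rpow_def_of_pos hx]
  apply Real.exp_le_exp.mpr
  have hlog : Real.log (((2 ^ M) ^ K : ℕ) : ℝ) = K * (M * Real.log 2) := by
    push_cast
    rw [Real.log_pow, Real.log_pow]
  rw [hlog]
  have h3 : 6 * κ * C2 ≤ ε / 4 * Real.log 2 := by
    have h := mul_le_mul_of_nonneg_right hκ h2.le
    have e : 6 * κ * (C2 / Real.log 2) * Real.log 2 = 6 * κ * C2 := by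
      field_simp
    (clear * - h e; linarith)
  have h4 : 0 ≤ δ ^ 2 * M * K := by (clear * -; positivity)
  have h5 := mul_le_mul_of_nonneg_right h3 h4
  calc 6 * κ * (C2 * δ ^ 2 * M) * K = 6 * κ * C2 * (δ ^ 2 * M * K) := by ring
    _ ≤ ε / 4 * Real.log 2 * (δ ^ 2 * M * K) := h5
    _ = K * (M * Real.log 2) * (ε / 4 * δ ^ 2) := by ring

/-- the bound at the heights `N^(-K)`, `N = 2^M` -/
theorem Heights_K {ε κ δ t : ℝ} (hκ : 6 * κ * (C2 / Real.log 2) ≤ ε / 4)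
    (ht : (1 / 4 + ε / 2) * δ ^ 2 ≤ (1 / 4 + ε) * t ^ 2) (M K : ℕ) :
    (((2 ^ M : ℕ) : ℝ) ^ ((1 / 4 + ε / 4) * δ ^ 2)) ^ K *
        (((2 ^ M) ^ K : ℕ) : ℝ) ^ ((2 - t) - 1) * Real.exp (6 * κ * (C2 * δ ^ 2 * M) * K) ≤
      (((2 ^ M) ^ K : ℕ) : ℝ) ^ (1 - t + (1 / 4 + ε) * t ^ 2) := by
  have hx : (0:ℝ) < (((2 ^ M) ^ K : ℕ) : ℝ) := by (clear * -; positivity)
  have hx1 : (1:ℝ) ≤ (((2 ^ M) ^ K : ℕ) : ℝ) := by
    push_cast
    exact one_le_pow₀ (one_le_pow₀ one_le_two)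
  have hG : (((2 ^ M : ℕ) : ℝ) ^ ((1 / 4 + ε / 4) * δ ^ 2)) ^ K =
      (((2 ^ M) ^ K : ℕ) : ℝ) ^ ((1 / 4 + ε / 4) * δ ^ 2) := by
    rw [← Real.rpow_natCast, ← Real.rpow_mul (by (clear * -; positivity)), mul_comm,
      Real.rpow_mul (by positivity), Real.rpow_natCast]
    push_cast
    rfl
  rw [hG]
  calc (((2 ^ M) ^ K : ℕ) : ℝ) ^ ((1 / 4 + ε / 4) * δ ^ 2) *
        (((2 ^ M) ^ K : ℕ) : ℝ) ^ ((2 - t) - 1) * Real.exp (6 * κ * (C2 * δ ^ 2 * M) * K)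
      ≤ (((2 ^ M) ^ K : ℕ) : ℝ) ^ ((1 / 4 + ε / 4) * δ ^ 2) *
        (((2 ^ M) ^ K : ℕ) : ℝ) ^ ((2 - t) - 1) *
          (((2 ^ M) ^ K : ℕ) : ℝ) ^ (ε / 4 * δ ^ 2) :=
        mul_le_mul_of_nonneg_left (Heights_exp hκ M K) (by (clear * -; positivity))
    _ = (((2 ^ M) ^ K : ℕ) : ℝ) ^ ((1 / 4 + ε / 4) * δ ^ 2 + ((2 - t) - 1) +
          ε / 4 * δ ^ 2) := by
        rw [Real.rpow_add hx, Real.rpow_add hx]
    _ ≤ (((2 ^ M) ^ K : ℕ) : ℝ) ^ (1 - t + (1 / 4 + ε) * t ^ 2) := by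
        apply Real.rpow_le_rpow_of_exponent_le hx1
        linarith

/-- the height `N^(-K)` next to `y` -/
theorem Heights_near {y : ℝ} (hy : 0 < y) (hy1 : y ≤ 1) {M : ℕ} (hM : 1 ≤ M) :
    ∃ K : ℕ, y ≤ ((((2 ^ M) ^ K : ℕ) : ℝ))⁻¹ ∧ ((((2 ^ M) ^ K : ℕ) : ℝ))⁻¹ ≤ 2 ^ M * y := by
  have h1 : (1 : ℝ) ≤ y⁻¹ := (one_le_inv₀ hy).mpr hy1
  have h2 : (1 : ℝ) < 2 ^ M := one_lt_pow₀ one_lt_two (by omega)
  obtain ⟨K, h3, h4⟩ := exists_nat_pow_near h1 h2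
  have hx : (0:ℝ) < (2 ^ M) ^ K := by positivity
  refine ⟨K, ?_, ?_⟩
  · push_cast
    rw [le_inv_comm₀ hy hx]
    exact h3
  · push_cast
    rw [inv_le_iff_one_le_mul₀ hx]
    rw [pow_succ, inv_lt_iff_one_lt_mul₀ hy] at h4
    (clear * - h4; linarith only [h4])

/-- from the heights `N^(-L)`, `N = 2^m`, to all heights -/
theorem heights_core {F : ℂ → ℂ} {A : ℝ} (hF : Fn F A) {m : ℕ} (hm : 1 ≤ m) {p b C : ℝ}
    (hp : 0 ≤ p) (hp2 : p ≤ 2) (hb : 0 ≤ b) (hC : 0 ≤ C)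
    (h : ∀ L : ℕ, ∫ ξ in (0:ℝ)..(2 * π), ‖deriv F ⟨(((2 ^ m) ^ L : ℕ) : ℝ)⁻¹, ξ⟩‖ ^ p ≤
      C * (((2 ^ m) ^ L : ℕ) : ℝ) ^ b) {y : ℝ} (hy : 0 < y) (hy1 : y ≤ 1) :
    ∫ ξ in (0:ℝ)..(2 * π), ‖deriv F ⟨y, ξ⟩‖ ^ p ≤ (55 ^ m) ^ 2 * C * y ^ (-b) := by
  obtain ⟨L, hL1, hL2⟩ := Heights_near hy hy1 hm
  have hx : (0:ℝ) < (((2 ^ m) ^ L : ℕ) : ℝ) := by positivity
  have hx1 : (1:ℝ) ≤ (((2 ^ m) ^ L : ℕ) : ℝ) := by
    push_cast
    exact one_le_pow₀ (one_le_pow₀ one_le_two)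
  have hmono := Heights_mono hF hy hL1 (inv_le_one_of_one_le₀ hx1) m hL2 hp hp2
  have hpow : (((2 ^ m) ^ L : ℕ) : ℝ) ^ b ≤ y ^ (-b) := by
    rw [Real.rpow_neg hy.le, ← Real.inv_rpow hy.le]
    apply Real.rpow_le_rpow hx.le _ hb
    rw [le_inv_comm₀ hx hy]
    exact hL1
  calc ∫ ξ in (0:ℝ)..(2 * π), ‖deriv F ⟨y, ξ⟩‖ ^ p
      ≤ (55 ^ m) ^ 2 * ∫ ξ in (0:ℝ)..(2 * π),
          ‖deriv F ⟨(((2 ^ m) ^ L : ℕ) : ℝ)⁻¹, ξ⟩‖ ^ p := hmono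
    _ ≤ (55 ^ m) ^ 2 * (C * y ^ (-b)) := by
        apply mul_le_mul_of_nonneg_left _ (by positivity)
        exact (h L).trans (mul_le_mul_of_nonneg_left hpow hC)
    _ = (55 ^ m) ^ 2 * C * y ^ (-b) := by ring

theorem heights {ε : ℝ} (hε : 0 < ε) :
    ∃ δ₀ : ℝ, 0 < δ₀ ∧ δ₀ ≤ 1 / 4 ∧ ∀ δ : ℝ, 0 < δ → δ < δ₀ → ∀ A : ℝ, 0 ≤ A → ∃ C : ℝ, 0 ≤ C ∧
      ∀ F : ℂ → ℂ, Fn F A → ∀ y : ℝ, 0 < y → y ≤ 1 →
        ∫ ξ in (0:ℝ)..(2 * π), ‖deriv F ⟨y, ξ⟩‖ ^ (2 - δ) ≤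
          C * y ^ (-(1 - δ + (1 / 4 + ε) * δ ^ 2)) := by
  obtain ⟨κ, hκ, hκ1, hκ2, M, hM, hκM, Cθ, δw, hCθ, hδw, hδw1, hw⟩ :=
    window_ex (ε := ε / 4) (by (clear * - hε; positivity))
  have hC2 : (0:ℝ) < C2 := by
    unfold C2
    norm_num
  obtain ⟨C', hC'⟩ : ∃ C' : ℝ, C' = 8 * Cθ + 1 := ⟨_, rfl⟩
  have hC'0 : 0 < C' := by
    rw [hC']
    (clear * - hCθ; positivity)
  obtain ⟨s₀, hs₀⟩ : ∃ s₀ : ℝ, s₀ = ε / (3 / 2 + 3 * ε) := ⟨_, rfl⟩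
  have hs0 : 0 < s₀ := by
    rw [hs₀]
    (clear * - hε; positivity)
  have hs1 : s₀ ≤ 1 / 3 := by
    rw [hs₀, div_le_iff₀ (by positivity)]
    linarith only []
  have hs2 : s₀ * (3 / 2 + 3 * ε) = ε := by
    rw [hs₀]
    (clear * - hε; field_simp)
  have hMC : 0 < 3 * (C2 * M + 1) := by (clear * - hC2 hM; positivity)
  refine ⟨min (1 / 4) (min (δw / 2) (min (s₀ / C') (2 / (3 * (C2 * M + 1))))), ?_,
    min_le_left _ _, ?_⟩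
  · exact lt_min (by norm_num) (lt_min (by positivity) (lt_min (by positivity) (by positivity)))
  intro t ht ht' A hA
  rw [lt_min_iff, lt_min_iff, lt_min_iff] at ht'
  obtain ⟨ht1, ht2, ht3, ht4⟩ := ht'
  rw [lt_div_iff₀ hC'0] at ht3
  rw [lt_div_iff₀ hMC] at ht4
  obtain ⟨δ, hδ⟩ : ∃ δ : ℝ, δ = t + C' * t ^ 2 := ⟨_, rfl⟩
  have hδt : δ = t * (1 + t * C') := by
    rw [hδ]
    ring
  have hδ0 : 0 < δ := by
    rw [hδ]
    (clear * - ht hC'0; positivity)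
  have hδ2 : δ ≤ 2 * t := by
    rw [hδt]
    (clear * - ht hs1 ht3; nlinarith only [hs1, ht, ht3])
  have hδw2 : δ < δw := by linarith only [ht2, hδ2]
  have hδ14 : δ ≤ 1 / 4 := by linarith only [hδw1, hδw2]
  have h2δ : 0 < 2 - δ := by linarith only [hδ14]
  obtain ⟨θ, hθ⟩ : ∃ θ : ℝ, θ = C' * t ^ 2 / (2 - δ) := ⟨_, rfl⟩
  have hθ0 : 0 ≤ θ := by
    rw [hθ]
    (clear * - hC'0 ht h2δ; positivity)
  have hθm : θ * (2 - δ) = C' * t ^ 2 := by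
    rw [hθ]
    (clear * - h2δ ht hC'0; field_simp)
  have hθ1 : Cθ * δ ^ 2 ≤ θ := by
    have h1 : δ ^ 2 ≤ (2 * t) ^ 2 := pow_le_pow_left₀ hδ0.le hδ2 2
    have h2 : Cθ * δ ^ 2 ≤ Cθ * (2 * t) ^ 2 := mul_le_mul_of_nonneg_left h1 hCθ
    have h3 : C' * t ^ 2 ≤ 2 * θ := by
      rw [← hθm]
      (clear * - hδ0 hθ0; nlinarith only [hδ0, hθ0])
    have h4 : 0 ≤ t ^ 2 := sq_nonneg t
    rw [hC'] at h3
    (clear * - h2 h3; nlinarith only [h2, h3])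
  have hθ2 : θ ≤ δ := by
    have h1 : θ ≤ C' * t ^ 2 := by
      rw [← hθm]
      (clear * - hθ0 hδ14; nlinarith only [hδ14, hθ0])
    rw [hδ]
    (clear * - hδ0 hδ2 h1; linarith only [hδ0, hδ2, h1])
  have hprod : (2 - δ) * (1 + θ) = 2 - t := by
    have h : (2 - δ) * (1 + θ) = 2 - δ + θ * (2 - δ) := by ring
    rw [h, hθm, hδ]
    ring
  have hexp : (1 / 4 + ε / 2) * δ ^ 2 ≤ (1 / 4 + ε) * t ^ 2 := by
    have h1 : (1 + t * C') ^ 2 ≤ 1 + 3 * s₀ := by (clear * - hδt hδ0 hδ2 hs0 ht3; nlinarith only [hs0, ht3, hδt, hδ0, hδ2])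
    have h2 : (1 / 4 + ε / 2) * (1 + 3 * s₀) = 1 / 4 + ε := by
      have h : (1 / 4 + ε / 2) * (1 + 3 * s₀) =
        1 / 4 + ε / 2 + s₀ * (3 / 2 + 3 * ε) / 2 := by ring
      rw [h, hs2]
      ring
    rw [hδt, mul_pow]
    calc (1 / 4 + ε / 2) * (t ^ 2 * (1 + t * C') ^ 2)
        = t ^ 2 * ((1 / 4 + ε / 2) * (1 + t * C') ^ 2) := by ring
      _ ≤ t ^ 2 * ((1 / 4 + ε / 2) * (1 + 3 * s₀)) := by (clear * - h1 hε ht; gcongr)
      _ = (1 / 4 + ε) * t ^ 2 := by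
        rw [h2]
        ring
  have hc1 : 3 * κ * (C2 * δ ^ 2 * M) ≤ 1 / 2 := by
    have h1 : δ ^ 2 ≤ (2 * t) ^ 2 := pow_le_pow_left₀ hδ0.le hδ2 2
    have h2 : C2 * δ ^ 2 * M ≤ C2 * (2 * t) ^ 2 * M := by (clear * - h1 hC2 hM; gcongr)
    have h3 : 3 * κ * (C2 * δ ^ 2 * M) ≤ 3 * (1 / 4) * (C2 * (2 * t) ^ 2 * M) := by (clear * - hκ1 h2 hC2 hδ0 hM; gcongr)
    have h4 : t * (C2 * M) ≤ 2 / 3 := by
      have h5 : t * (3 * (C2 * M + 1)) = 3 * (t * (C2 * M)) + 3 * t := by ring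
      rw [h5] at ht4
      linarith only [ht4, hδ0, hδ2]
    have h6 : 0 ≤ t * (C2 * M) := by (clear * - ht hC2 hM; positivity)
    calc 3 * κ * (C2 * δ ^ 2 * M) ≤ 3 * (1 / 4) * (C2 * (2 * t) ^ 2 * M) := h3
      _ = 3 * t * (t * (C2 * M)) := by ring
      _ ≤ 3 * (1 / 4) * (2 / 3) := by (clear * - ht1 h4 ht hC2 hM; gcongr)
      _ = 1 / 2 := by norm_num
  refine ⟨(55 ^ M) ^ 2 * (2 * π * 500000 ^ 2 * (A + 7) ^ 2), by (clear * - hA; positivity), ?_⟩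
  intro F hF y hy hy1
  have hb : 0 ≤ 1 - t + (1 / 4 + ε) * t ^ 2 := by
    have : 0 ≤ (1 / 4 + ε) * t ^ 2 := by (clear * - hε ht; positivity)
    linarith only [ht1, this]
  refine heights_core hF hM (by linarith only [ht1]) (by linarith only [hδ0, hδ2]) hb (by (clear * - hA; positivity)) (fun K => ?_) hy hy1
  have havg := hF.avg hA (κ := κ) (c' := C2 * δ ^ 2 * M)
    (G := ((2 ^ M : ℕ) : ℝ) ^ ((1 / 4 + ε / 4) * δ ^ 2)) (N := 2 ^ M) hδ0 hδ14 hθ0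
    (by linarith only [hδ14, hθ2]) hκ hκ1 (by (clear * - hC2 hδ0 hM; positivity)) hc1 hκM (by positivity)
    (fun c ℓ hℓ hℓ1 => hw δ hδ0 hδw2 θ hθ1 hθ2 F A hF c ℓ hℓ hℓ1) K
  rw [hprod] at havg
  exact havg.trans (mul_le_mul_of_nonneg_left (Heights_K hκ2 hexp M K) (by (clear * - hA; positivity)))

end Pool.Agent.Helper90.G2
end

/- Helper24.K6w.H90.G2.Main -/
section
/-!
# G2-MAIN: the theorem

`R ≤ e`: `y = log R`, `|ψ' (R e^(iθ))| R = |F' (y + i θ)|`, so `|ψ'| ≤ |F'|`, and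
`1 / log R ≤ 2 R² / (R² - 1)`. `R > e`: `|ψ'| ≤ A` and `R² / (R² - 1) ≥ 1`.
-/

set_option autoImplicit false

namespace Pool.Agent.Helper90.G2

open MeasureTheory Set
open scoped Real

theorem Main_point {R : ℝ} (hR : 1 < R) (θ : ℝ) :
    Complex.exp (⟨Real.log R, θ⟩ : ℂ) = (R : ℂ) * Complex.exp ((θ : ℂ) * Complex.I) := by
  have h : (⟨Real.log R, θ⟩ : ℂ) = ((Real.log R : ℝ) : ℂ) + (θ : ℂ) * Complex.I := by
    apply Complex.ext <;> simp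
  rw [h, Complex.exp_add, ← Complex.ofReal_exp, Real.exp_log (by (clear * - hR; linarith only [hR]))]

theorem Main_norm {R : ℝ} (hR : 1 < R) (θ : ℝ) :
    ‖(R : ℂ) * Complex.exp ((θ : ℂ) * Complex.I)‖ = R := by
  rw [norm_mul, Complex.norm_exp_ofReal_mul_I, mul_one, Complex.norm_real, Real.norm_eq_abs,
    abs_of_pos (by (clear * - hR; linarith only [hR]))]

theorem Main_chain {ψ : ℂ → ℂ} (hψ : DifferentiableOn ℂ ψ {z : ℂ | 1 < ‖z‖}) {R : ℝ} (hR : 1 < R)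
    (θ : ℝ) :
    ‖deriv (fun u => ψ (Complex.exp u)) ⟨Real.log R, θ⟩‖ =
      ‖deriv ψ ((R : ℂ) * Complex.exp ((θ : ℂ) * Complex.I))‖ * R := by
  have hopen : IsOpen {z : ℂ | 1 < ‖z‖} := isOpen_lt continuous_const continuous_norm
  have hmem : (R : ℂ) * Complex.exp ((θ : ℂ) * Complex.I) ∈ {z : ℂ | 1 < ‖z‖} := by
    show 1 < ‖(R : ℂ) * Complex.exp ((θ : ℂ) * Complex.I)‖
    rw [Main_norm hR]
    exact hR
  have h1 : HasDerivAt ψ (deriv ψ (Complex.exp (⟨Real.log R, θ⟩ : ℂ)))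
      (Complex.exp (⟨Real.log R, θ⟩ : ℂ)) := by
    rw [Main_point hR]
    exact ((hψ _ hmem).differentiableAt (hopen.mem_nhds hmem)).hasDerivAt
  have h2 := h1.comp (⟨Real.log R, θ⟩ : ℂ) (Complex.hasDerivAt_exp _)
  have h3 : deriv (fun u => ψ (Complex.exp u)) ⟨Real.log R, θ⟩ =
      deriv ψ (Complex.exp (⟨Real.log R, θ⟩ : ℂ)) * Complex.exp (⟨Real.log R, θ⟩ : ℂ) := h2.deriv
  rw [h3, norm_mul, Main_point hR, Main_norm hR]

theorem Main_log {R : ℝ} (hR : 1 < R) : (R ^ 2 - 1) / (2 * R ^ 2) ≤ Real.log R := by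
  have hR0 : 0 < R := by linarith only [hR]
  have h1 : Real.log ((R ^ 2)⁻¹) ≤ (R ^ 2)⁻¹ - 1 := Real.log_le_sub_one_of_pos (by (clear * - hR; positivity))
  rw [Real.log_inv, Real.log_pow] at h1
  have h2 : (R ^ 2 - 1) / (2 * R ^ 2) = (1 - (R ^ 2)⁻¹) / 2 := by
    field_simp
  rw [h2]
  push_cast at h1
  linarith only [h1]

theorem Main_small {R β : ℝ} (hR : 1 < R) (hβ : 0 ≤ β) :
    Real.log R ^ (-β) ≤ 2 ^ β * (R ^ 2 / (R ^ 2 - 1)) ^ β := by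
  have hR1 : 0 < R ^ 2 - 1 := by nlinarith only [hR]
  have hlog : 0 < Real.log R := Real.log_pos hR
  have h1 := Main_log hR
  have h2 : 0 < (R ^ 2 - 1) / (2 * R ^ 2) := by (clear * - hR1 hR; positivity)
  have h3 : (Real.log R)⁻¹ ≤ 2 * (R ^ 2 / (R ^ 2 - 1)) := by
    have h4 : (Real.log R)⁻¹ ≤ ((R ^ 2 - 1) / (2 * R ^ 2))⁻¹ := inv_anti₀ h2 h1
    have h5 : ((R ^ 2 - 1) / (2 * R ^ 2))⁻¹ = 2 * (R ^ 2 / (R ^ 2 - 1)) := by
      rw [inv_div]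
      ring
    rw [h5] at h4
    exact h4
  rw [Real.rpow_neg hlog.le, ← Real.inv_rpow hlog.le, ← Real.mul_rpow (by norm_num) (by (clear * - hR hR1; positivity))]
  exact Real.rpow_le_rpow (by (clear * - hlog; positivity)) h3 hβ

/-- from the right half plane to the class Sigma, any exponent -/
theorem main_core {δ β : ℝ} (hδ1 : δ ≤ 2) (hβ0 : 0 ≤ β)
    (hh : ∀ A : ℝ, 0 ≤ A → ∃ C : ℝ, 0 ≤ C ∧ ∀ F : ℂ → ℂ, Fn F A → ∀ y : ℝ, 0 < y → y ≤ 1 →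
      ∫ ξ in (0:ℝ)..(2 * π), ‖deriv F ⟨y, ξ⟩‖ ^ (2 - δ) ≤ C * y ^ (-β)) :
    ∃ C : ℝ, ∀ ψ : ℂ → ℂ, DifferentiableOn ℂ ψ {z : ℂ | 1 < ‖z‖} →
    Set.InjOn ψ {z : ℂ | 1 < ‖z‖} →
    (∃ b : ℂ, Filter.Tendsto (fun z => ψ z - z) (Bornology.cobounded ℂ) (nhds b)) →
    ∀ R : ℝ, 1 < R →
      (1 / (2 * π)) * ∫ θ in (0:ℝ)..(2 * π),
        ‖deriv ψ ((R : ℂ) * Complex.exp ((θ : ℂ) * Complex.I))‖ ^ (2 - δ) ≤
      C * (R ^ 2 / (R ^ 2 - 1)) ^ β := by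
  obtain ⟨A, hA, hsig⟩ := sig_fn
  obtain ⟨C, hC, hh⟩ := hh A hA
  obtain ⟨p, hp⟩ : ∃ p : ℝ, p = 2 - δ := ⟨_, rfl⟩
  have hp0 : 0 ≤ p := by linarith
  have hπ : 0 < π := Real.pi_pos
  refine ⟨(1 / (2 * π)) * (C * 2 ^ β) + A ^ p, ?_⟩
  intro ψ hψ hinj hlim R hR
  rw [← hp]
  obtain ⟨hF, hbd⟩ := hsig ψ hψ hinj hlim
  have hR0 : 0 < R := by (clear * - hR; linarith only [hR])
  have hR1 : 0 < R ^ 2 - 1 := by (clear * - hR; nlinarith only [hR])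
  have hlog : 0 < Real.log R := Real.log_pos hR
  have hX0 : 0 ≤ (R ^ 2 / (R ^ 2 - 1)) ^ β := by (clear * - hR hR1; positivity)
  have hX1 : 1 ≤ (R ^ 2 / (R ^ 2 - 1)) ^ β := by
    apply Real.one_le_rpow _ hβ0
    rw [one_le_div hR1]
    (clear * -; linarith only [])
  have hAp : 0 ≤ A ^ p := Real.rpow_nonneg hA p
  have hcont := Heights_cont hF hlog hp0
  have heq : ∀ θ : ℝ, ‖deriv ψ ((R : ℂ) * Complex.exp ((θ : ℂ) * Complex.I))‖ ^ p =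
      (R⁻¹) ^ p * ‖deriv (fun u => ψ (Complex.exp u)) ⟨Real.log R, θ⟩‖ ^ p := by
    intro θ
    rw [Main_chain hψ hR, ← Real.mul_rpow (by (clear * - hR; positivity)) (by (clear * - hR; positivity))]
    congr 1
    (clear * - hR; field_simp)
  rcases le_or_gt R (Real.exp 1) with hRe | hRe
  · have hlog1 : Real.log R ≤ 1 := by
      rw [← Real.log_exp 1]
      exact Real.log_le_log hR0 hRe
    have h1 := hh _ hF (Real.log R) hlog hlog1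
    rw [← hp] at h1
    have h2 : ∫ θ in (0:ℝ)..(2 * π),
        ‖deriv ψ ((R : ℂ) * Complex.exp ((θ : ℂ) * Complex.I))‖ ^ p =
        (R⁻¹) ^ p * ∫ θ in (0:ℝ)..(2 * π),
          ‖deriv (fun u => ψ (Complex.exp u)) ⟨Real.log R, θ⟩‖ ^ p := by
      rw [← intervalIntegral.integral_const_mul]
      exact intervalIntegral.integral_congr fun θ _ => heq θ
    have h3 : (R⁻¹) ^ p ≤ 1 :=
      Real.rpow_le_one (by (clear * - hR; positivity)) (inv_le_one_of_one_le₀ hR.le) hp0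
    have h4 : 0 ≤ ∫ θ in (0:ℝ)..(2 * π),
        ‖deriv (fun u => ψ (Complex.exp u)) ⟨Real.log R, θ⟩‖ ^ p := by
      apply intervalIntegral.integral_nonneg (by positivity)
      intro θ _
      (clear * -; positivity)
    have h5 := Main_small hR hβ0
    rw [h2]
    calc (1 / (2 * π)) * ((R⁻¹) ^ p * ∫ θ in (0:ℝ)..(2 * π),
          ‖deriv (fun u => ψ (Complex.exp u)) ⟨Real.log R, θ⟩‖ ^ p)
        ≤ (1 / (2 * π)) * (1 * (C * Real.log R ^ (-β))) := by (clear * - h3 h1 h4; gcongr)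
      _ ≤ (1 / (2 * π)) * (1 * (C * (2 ^ β * (R ^ 2 / (R ^ 2 - 1)) ^ β))) := by (clear * - h5 hC; gcongr)
      _ = (1 / (2 * π)) * (C * 2 ^ β) * (R ^ 2 / (R ^ 2 - 1)) ^ β := by ring
      _ ≤ ((1 / (2 * π)) * (C * 2 ^ β) + A ^ p) * (R ^ 2 / (R ^ 2 - 1)) ^ β := by
        apply mul_le_mul_of_nonneg_right _ hX0
        (clear * - hAp; linarith only [hAp])
  · have hcont2 : Continuous fun θ : ℝ =>
        ‖deriv ψ ((R : ℂ) * Complex.exp ((θ : ℂ) * Complex.I))‖ ^ p := by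
      have : (fun θ : ℝ => ‖deriv ψ ((R : ℂ) * Complex.exp ((θ : ℂ) * Complex.I))‖ ^ p) =
          fun θ : ℝ => (R⁻¹) ^ p *
            ‖deriv (fun u => ψ (Complex.exp u)) ⟨Real.log R, θ⟩‖ ^ p := funext heq
      rw [this]
      exact continuous_const.mul hcont
    have h2 : ∫ θ in (0:ℝ)..(2 * π),
        ‖deriv ψ ((R : ℂ) * Complex.exp ((θ : ℂ) * Complex.I))‖ ^ p ≤
        ∫ _ in (0:ℝ)..(2 * π), A ^ p := by
      apply intervalIntegral.integral_mono_on (by positivity)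
        (hcont2.intervalIntegrable _ _) (continuous_const.intervalIntegrable _ _)
      intro θ _
      apply Real.rpow_le_rpow (norm_nonneg _) _ hp0
      apply hbd
      rw [Main_norm hR]
      exact hRe.le
    rw [intervalIntegral.integral_const, smul_eq_mul, sub_zero] at h2
    have h0 : 0 ≤ (1 / (2 * π)) * (C * 2 ^ β) := by (clear * - hC; positivity)
    calc (1 / (2 * π)) * ∫ θ in (0:ℝ)..(2 * π),
          ‖deriv ψ ((R : ℂ) * Complex.exp ((θ : ℂ) * Complex.I))‖ ^ p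
        ≤ (1 / (2 * π)) * (2 * π * A ^ p) := by (clear * - h2; gcongr)
      _ = A ^ p := by (clear * -; field_simp)
      _ ≤ A ^ p * (R ^ 2 / (R ^ 2 - 1)) ^ β := le_mul_of_one_le_right hAp hX1
      _ ≤ ((1 / (2 * π)) * (C * 2 ^ β) + A ^ p) * (R ^ 2 / (R ^ 2 - 1)) ^ β := by
        apply mul_le_mul_of_nonneg_right _ hX0
        linarith only [h0]

theorem main : ∀ ε : ℝ, 0 < ε → ∃ δ₀ : ℝ, 0 < δ₀ ∧ ∀ δ : ℝ, 0 < δ → δ < δ₀ → ∃ C : ℝ,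
    ∀ ψ : ℂ → ℂ, DifferentiableOn ℂ ψ {z : ℂ | 1 < ‖z‖} → Set.InjOn ψ {z : ℂ | 1 < ‖z‖} →
    (∃ b : ℂ, Filter.Tendsto (fun z => ψ z - z) (Bornology.cobounded ℂ) (nhds b)) →
    ∀ R : ℝ, 1 < R →
      (1 / (2 * π)) * ∫ θ in (0:ℝ)..(2 * π),
        ‖deriv ψ ((R : ℂ) * Complex.exp ((θ : ℂ) * Complex.I))‖ ^ (2 - δ) ≤
      C * (R ^ 2 / (R ^ 2 - 1)) ^ (1 - δ + (1 / 4 + ε) * δ ^ 2) := by
  intro ε hε
  obtain ⟨δ₀, hδ₀, hδ₁, h⟩ := heights hε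
  refine ⟨δ₀, hδ₀, ?_⟩
  intro δ hδ hδ'
  have hβ0 : 0 ≤ 1 - δ + (1 / 4 + ε) * δ ^ 2 := by
    have : 0 ≤ (1 / 4 + ε) * δ ^ 2 := by (clear * - hε hδ; positivity)
    (clear * - hδ₁ hδ' this; linarith only [hδ₁, hδ', this])
  exact main_core (by (clear * - hδ₁ hδ'; linarith only [hδ₁, hδ'])) hβ0 (h δ hδ hδ')

end Pool.Agent.Helper90.G2
end
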