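import Pool.Agent.Helper24.K6.G02
import Pool.Agent.Helper24.K6.G05
import Pool.Agent.Helper24.K6.G14
import Pool.Agent.Helper24.K6.G15
import Pool.Agent.Helper24.K6.G17

/- Helper24.K6w.H39.EK.Dir -/
section
/-!
Dirichlet integrals of analytic functions on discs: contour form, coefficients and area.
-/

set_option autoImplicit false

open Complex MeasureTheory Metric Set Filter Topology
open scoped Real ENNReal ComplexConjugate NNReal

namespace Pool.Agent.Helper39.EK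

open Pool.Agent.Helper39.Area

/-- the contour form of the Dirichlet integral dominates the partial sums of the coefficient
form -/
theorem dirichlet_sum {E : ℂ → ℂ} {R ρ : ℝ} (hE : DifferentiableOn ℂ E (ball 0 R)) (hρ : 0 < ρ)
    (hρR : ρ < R) :
    ∃ c : ℝ, (∀ N : ℕ, ∑ n ∈ Finset.range N,
        (n:ℝ) * ρ ^ (2 * n) * ‖iteratedDeriv n E 0 / n.factorial‖ ^ 2 ≤ c) ∧
      (∮ ζ in C(0, ρ), conj (E ζ) * deriv E ζ) = 2 * π * I * c := by
  obtain ⟨r, hρr, hrR⟩ := exists_between hρR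
  have hr : 0 < r := hρ.trans hρr
  lift r to ℝ≥0 using hr.le
  have hEr : DifferentiableOn ℂ E (closedBall 0 r) := hE.mono (closedBall_subset_ball hrR)
  have hps := hEr.hasFPowerSeriesOnBall (by exact_mod_cast hr)
  obtain ⟨r', hρr', hr'r⟩ := exists_between hρr
  lift r' to ℝ≥0 using (hρ.trans hρr').le
  have hun := hps.tendstoUniformlyOn (r' := r') (by exact_mod_cast hr'r)
  have hd : DifferentiableOn ℂ (deriv E) (ball 0 R) := hE.deriv isOpen_ball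
  have hmem : ∀ ζ ∈ sphere (0:ℂ) ρ, ζ ∈ ball (0:ℂ) R := by
    intro ζ hζ
    rw [mem_ball, dist_zero_right]
    rw [mem_sphere, dist_zero_right] at hζ
    (clear * - hrR hρr' hr'r hζ; linarith)
  have hdc : ContinuousOn (deriv E) (sphere 0 ρ) := hd.continuousOn.mono hmem
  set e : ℕ → ℂ := fun n => iteratedDeriv n E 0 / n.factorial with he
  have hpart : ∀ (N : ℕ) (y : ℂ), (cauchyPowerSeries E 0 r).partialSum N y =
      ∑ n ∈ Finset.range N, y ^ n * e n := by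
    intro N y
    unfold FormalMultilinearSeries.partialSum
    apply Finset.sum_congr rfl
    intro n _
    exact taylor_term hr hEr n y
  set T : ℕ → ℂ → ℂ := fun N y => ∑ n ∈ Finset.range N, y ^ n * e n with hT
  have hTc : ∀ N, Continuous (T N) := by
    intro N
    rw [hT]
    fun_prop
  have hTE : TendstoUniformlyOn T E atTop (sphere 0 ρ) := by
    have h1 : TendstoUniformlyOn T E atTop (ball 0 r') := by
      have h2 : (fun (n : ℕ) (y : ℂ) => (cauchyPowerSeries E 0 r).partialSum n y) = T := by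
        funext N y; exact hpart N y
      rw [h2] at hun
      simpa using hun
    apply h1.mono
    intro ζ hζ
    rw [mem_ball, dist_zero_right]
    rw [mem_sphere, dist_zero_right] at hζ
    linarith only [hρr', hζ]
  obtain ⟨B, hB⟩ := (isCompact_sphere (0:ℂ) ρ).exists_bound_of_continuousOn hdc
  have hlim : Tendsto (fun N => ∮ ζ in C(0, ρ), conj (T N ζ) * deriv E ζ) atTop
      (𝓝 (∮ ζ in C(0, ρ), conj (E ζ) * deriv E ζ)) := by
    apply TendstoUniformlyOn.tendsto_circleIntegral_of_continuousOn hρ.le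
    · refine Eventually.of_forall fun N => ?_
      exact ((Complex.continuous_conj.comp (hTc N)).continuousOn).mul hdc
    · rw [Metric.tendstoUniformlyOn_iff] at hTE ⊢
      intro ε hε
      have hε' : 0 < ε / (|B| + 1) := by (clear * - hε; positivity)
      filter_upwards [hTE _ hε'] with N hN ζ hζ
      have h1 := hN ζ hζ
      rw [dist_eq_norm] at h1 ⊢
      rw [← sub_mul, ← map_sub, norm_mul, RCLike.norm_conj]
      calc ‖E ζ - T N ζ‖ * ‖deriv E ζ‖ ≤ ‖E ζ - T N ζ‖ * (|B| + 1) := by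
            gcongr
            exact (hB ζ hζ).trans ((le_abs_self B).trans (by linarith only []))
        _ < ε / (|B| + 1) * (|B| + 1) := by (clear * - h1; gcongr)
        _ = ε := by (clear * - hε; field_simp)
  have hval : ∀ N, (∮ ζ in C(0, ρ), conj (T N ζ) * deriv E ζ) =
      2 * π * I * ((∑ n ∈ Finset.range N, (n:ℝ) * ρ ^ (2 * n) * ‖e n‖ ^ 2 : ℝ) : ℂ) := by
    intro N
    have h1 : (∮ ζ in C(0, ρ), conj (T N ζ) * deriv E ζ) =
        ∮ ζ in C(0, ρ), ∑ n ∈ Finset.range N,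
          (ρ:ℂ) ^ (2 * n) * conj (e n) * ((ζ ^ n)⁻¹ * deriv E ζ) := by
      apply circleIntegral.integral_congr hρ.le
      intro ζ hζ
      simp only [hT, map_sum, map_mul, map_pow, Finset.sum_mul]
      apply Finset.sum_congr rfl
      intro n _
      rw [conj_sphere hρ hζ, div_pow, ← pow_mul, div_eq_mul_inv]
      ring
    rw [h1, circleIntegral.integral_fun_sum]
    · push_cast
      rw [Finset.mul_sum]
      apply Finset.sum_congr rfl
      intro n _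
      rw [circleIntegral.integral_const_mul, deriv_coeff hE hρ hρR n]
      have h5 : (((‖e n‖ : ℝ)) : ℂ) ^ 2 = e n * conj (e n) := by
        rw [Complex.mul_conj, Complex.normSq_eq_norm_sq]
        push_cast
        rfl
      rw [h5]
      ring
    · intro n _
      apply ContinuousOn.circleIntegrable hρ.le
      apply continuousOn_const.mul
      apply ContinuousOn.mul _ hdc
      apply ContinuousOn.inv₀ (by fun_prop)
      intro ζ hζ
      exact pow_ne_zero _ (sphere_ne' hρ hζ)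
  have h2pi : (2 * π * I : ℂ) ≠ 0 := two_pi_I_ne_zero
  set L : ℂ := ∮ ζ in C(0, ρ), conj (E ζ) * deriv E ζ with hL
  set c : ℕ → ℝ := fun N => ∑ n ∈ Finset.range N, (n:ℝ) * ρ ^ (2 * n) * ‖e n‖ ^ 2 with hc
  have hlim2 : Tendsto (fun N => ((c N : ℝ) : ℂ)) atTop (𝓝 ((2 * π * I : ℂ)⁻¹ * L)) := by
    have := hlim.const_mul ((2 * π * I : ℂ)⁻¹)
    refine this.congr ?_
    intro N
    rw [hval N, ← mul_assoc, inv_mul_cancel₀ h2pi, one_mul]
  have hre := (Complex.continuous_re.tendsto _).comp hlim2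
  have him := (Complex.continuous_im.tendsto _).comp hlim2
  have hmono : Monotone c := by
    refine monotone_nat_of_le_succ fun N => ?_
    simp only [hc, Finset.sum_range_succ]
    have : 0 ≤ (N:ℝ) * ρ ^ (2 * N) * ‖e N‖ ^ 2 := by (clear * - hρ; positivity)
    linarith only [this]
  refine ⟨((2 * π * I : ℂ)⁻¹ * L).re, ?_, ?_⟩
  · intro N
    have h1 : Tendsto c atTop (𝓝 ((2 * π * I : ℂ)⁻¹ * L).re) := by
      refine hre.congr fun N => ?_
      simp only [Function.comp, Complex.ofReal_re]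
    exact hmono.ge_of_tendsto h1 N
  · have him0 : ((2 * π * I : ℂ)⁻¹ * L).im = 0 := by
      have h1 : (Complex.im ∘ fun N => ((c N : ℝ) : ℂ)) = fun _ => (0:ℝ) := by
        funext N; simp
      rw [h1] at him
      exact (tendsto_nhds_unique him tendsto_const_nhds)
    have h3 : ((((2 * π * I : ℂ)⁻¹ * L).re : ℝ) : ℂ) = (2 * π * I : ℂ)⁻¹ * L := by
      apply Complex.ext
      · simp
      · simp only [Complex.ofReal_im]; exact him0.symm
    rw [h3, ← mul_assoc, mul_inv_cancel₀ h2pi, one_mul]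

end Pool.Agent.Helper39.EK
end

/- Helper24.K6w.H26.G5.Up5 -/
section
/-!
# G5-UP: the old weight of a point which is close and does not wind much

As `Pool.Agent.Helper26.G4.up_le`, for `v` itself: `ζ = Lb Λ v u - (log (re v) + Λ v v)`,
`re ζ = log (|F v - F u| / rr F v)`, `im ζ = wd Λ v u`; `|F v - F u| ≥ |F' v| ℓ / 4 = rr F v / 8` (`koebe4`,
`ρ = ℓ`: `re u < ℓ / N`, so `|v - u| ≥ ℓ`).
-/

set_option autoImplicit false

namespace Pool.Agent.Helper26.G5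

open MeasureTheory Set
open scoped Real
open Pool.Agent.Helper90.G2 (Bx Wn Fn ar ch Cen chi)
open Pool.Agent.Helper26.G4 (vt Br Lb wd al rr w0 Bad cn vk lv KN Sa Sc mm KK C9 Sg)

theorem up5 {F : ℂ → ℂ} {A : ℝ} (hF : Fn F A) {Λ : ℂ → ℂ → ℂ} (hΛ : Br F Λ) {N d : ℕ}
    (hN : 2 ≤ N) (hd : d < N) {c ℓ : ℝ} (hℓ : 0 < ℓ) (hℓ1 : ℓ ≤ 1) {τ : ℂ} (hτ : 0 < ‖τ‖)
    (hτ1 : ‖τ‖ ≤ 1) {ε Cc : ℝ} (hε : 0 < ε) (hCc : 1 ≤ Cc)
    (hs : ‖τ‖ * (10 * N + Real.log (2 * Cc * KN N / ‖τ‖ + KN N)) ≤ ε) {u : ℂ}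
    (hu : u ∈ Bx (ch N c ℓ d) (ℓ / N)) (hw : |wd Λ (vt c ℓ) u| ≤ ε / ‖τ‖)
    (hz : ‖F (vt c ℓ) - F u‖ ≤ 2 * Cc * KN N / ‖τ‖ * rr F (vt c ℓ)) :
    al Λ τ (vt c ℓ) u ≤ w0 Λ τ (vt c ℓ) + 2 * ε := by
  have hN2 : (2 : ℝ) ≤ N := by exact_mod_cast hN
  have hN0 : (0 : ℝ) < N := by linarith only [hN2]
  obtain ⟨hu0, hu1, hu2⟩ := Pool.Agent.Helper90.G2.bx_child_sub hℓ hN hd hu
  have hre : (vt c ℓ).re = 2 * ℓ := rfl
  have him : (vt c ℓ).im = c := rfl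
  have hpi := Real.pi_gt_three
  have hv : 0 < (vt c ℓ).re := by rw [hre]; positivity
  have hK : 0 < KN N := Real.exp_pos _
  have hK8 : 8 ≤ KN N := by
    have h1 := Real.add_one_le_exp (40 * (N : ℝ))
    rw [KN]
    (clear * - hN2 h1; linarith only [hN2, h1])
  have hK2 : 0 ≤ 2 * Cc * KN N / ‖τ‖ := by (clear * - hCc hK hτ; positivity)
  have hr := Pool.Agent.Helper26.G4.rr_pos hF hv
  have him1 : |(vt c ℓ).im - u.im| < ℓ / 2 := by
    rw [him, abs_sub_comm]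
    exact hu2
  -- the lower bound of the distance
  have h1 : rr F (vt c ℓ) ≤ 8 * ‖F (vt c ℓ) - F u‖ := by
    have h2 := Pool.Agent.Helper26.G4.Fn.koebe4 hF (v := vt c ℓ) (u := u) (ρ := ℓ) hℓ hu0
      (by rw [hre]; linarith only [hu0, hu1]) (by linarith only [hℓ1, hpi])
      (by
        have h3 := Complex.re_le_norm (vt c ℓ - u)
        rw [Complex.sub_re, hre] at h3
        linarith only [hu1, h3])
      (by (clear * - hℓ1 hpi him1; linarith only [hℓ1, hpi, him1]))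
    rw [rr, hre]
    linarith only [h2]
  have h2 : ‖F (vt c ℓ) - F u‖ ≤ (2 * Cc * KN N / ‖τ‖ + KN N) * rr F (vt c ℓ) := by
    have h3 := mul_pos hK hr
    (clear * - hz h3; linarith only [hz, h3])
  have h3 := Pool.Agent.Helper26.G4.Up_re hF hΛ (v := vt c ℓ) (v' := vt c ℓ) (u := u) hv hu0
    (by rw [hre]; (clear * - hu0 hu1; linarith only [hu0, hu1])) (by linarith only [hℓ1, hpi, him1]) (by (clear * - hK8 hK2; linarith only [hK8, hK2])) h1 h2 (by linarith only [hK8, hK2])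
  have h4 : |(Lb Λ (vt c ℓ) u - (Real.log (vt c ℓ).re + Λ (vt c ℓ) (vt c ℓ))).im| ≤
      ε / ‖τ‖ := by
    have h5 : (Lb Λ (vt c ℓ) u - (Real.log (vt c ℓ).re + Λ (vt c ℓ) (vt c ℓ))).im =
        wd Λ (vt c ℓ) u := by
      rw [wd, Complex.sub_im, Complex.add_im, Complex.ofReal_im, Complex.sub_im]
      ring
    rw [h5]
    exact hw
  have h0 := Pool.Agent.Helper26.G4.Up_al Λ τ (vt c ℓ) (vt c ℓ) u
  have h5 := mul_le_mul_of_nonneg_left (add_le_add h3 h4) hτ.le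
  have h6 : ‖τ‖ * (ε / ‖τ‖) = ε := mul_div_cancel₀ ε hτ.ne'
  have h7 : ‖τ‖ * (Real.log (2 * Cc * KN N / ‖τ‖ + KN N) + ε / ‖τ‖) =
      ‖τ‖ * (10 * N + Real.log (2 * Cc * KN N / ‖τ‖ + KN N)) - ‖τ‖ * (10 * N) +
        ‖τ‖ * (ε / ‖τ‖) := by ring
  have h8 : 0 ≤ ‖τ‖ * (10 * N) := by (clear * - hτ hN; positivity)
  rw [h7, h6] at h5
  (clear * - hs h0 h5 h8; linarith only [hs, h0, h5, h8])

end Pool.Agent.Helper26.G5
end

/- Helper24.K6w.H26.G5.Pt5 -/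
section
/-!
# G5-PT: the pointwise step

`δ = |τ|`, `ω = τ / δ`, `m = δ m0`, `β = δ b`, `z = F u - F v`, `s = F v' - F v`, `r = 2 KN rr`;
`y0 = y u k`, `y1 = y u (k+1)`, `x0, x1` the flags, `ν, H` from `Tk.key` for `ζ`. (`2 |s| ≤ r` by
`disp_le`.) Moving (`x0 = x1 = 1`, `y0 = al v u`, `y1 = al v' u`): by `move_le`, `e^(y1) ≤ e^(y0) e^(δ Xh)`.
If `|z| ≥ r`: the difference is at most `e^(y0) Ph ≤ e^(y0) δ H z`, and if `H z > 0` then
`|z| < Cc |s| / (δ m0) ≤ (Cc KN / δ) rr` (`m0 ≥ 1`), so `|wd| ≤ ε / δ` (not bad) and `up5`. If `|z| < r`: again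
`up5`, and `e^(10 N δ) (1 + β) - (1 - β) + 2 ν β ≤ δ Bn` (`10 N δ ≤ 1`, `e^x ≤ 1 + 2 x`). Frozen (flags `0`): clear.
Switch: `e^(y1 - y0) ≤ e^(e1) e^(-8 (1 + B) β)` and with `x = (1 + B) β ≤ 1/8`
`e^(-8 x) (1 + β) ≤ e^(-7 x) ≤ 1 - 2 x ≤ 1 - β - 2 B β`.
-/

set_option autoImplicit false

namespace Pool.Agent.Helper26.G5

open MeasureTheory Set
open scoped Real
open Pool.Agent.Helper90.G2 (Bx Wn Fn ar ch Cen chi)
open Pool.Agent.Helper26.G4 (vt Br Lb wd al rr w0 Bad cn vk lv KN Sa Sc mm KK C9 Sg)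

theorem Pt5_exp {x β : ℝ} (hβ : 0 ≤ β) (hx : β ≤ x) (hx1 : x ≤ 1 / 8) :
    Real.exp (-(8 * x)) * (1 + β) ≤ 1 - 2 * x := by
  have h1 : 1 + β ≤ Real.exp β := by
    have := Real.add_one_le_exp β
    (clear * - this; linarith only [this])
  have h2 : Real.exp (-(8 * x)) * (1 + β) ≤ Real.exp (-(7 * x)) := by
    calc Real.exp (-(8 * x)) * (1 + β) ≤ Real.exp (-(8 * x)) * Real.exp β :=
          mul_le_mul_of_nonneg_left h1 (Real.exp_pos _).le
      _ = Real.exp (-(8 * x) + β) := (Real.exp_add _ _).symm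
      _ ≤ Real.exp (-(7 * x)) := Real.exp_le_exp.2 (by (clear * - hx; linarith only [hx]))
  have h3 : Real.exp (-(7 * x)) * (1 + 7 * x) ≤ 1 := by
    calc Real.exp (-(7 * x)) * (1 + 7 * x) ≤ Real.exp (-(7 * x)) * Real.exp (7 * x) := by
          refine mul_le_mul_of_nonneg_left ?_ (Real.exp_pos _).le
          have := Real.add_one_le_exp (7 * x)
          (clear * - this; linarith)
      _ = 1 := by rw [← Real.exp_add, neg_add_cancel, Real.exp_zero]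
  have h4 : 1 ≤ (1 - 2 * x) * (1 + 7 * x) := by (clear * - hβ hx hx1; nlinarith)
  have h5 : Real.exp (-(7 * x)) ≤ 1 - 2 * x := by
    by_contra h
    push Not at h
    have := mul_lt_mul_of_pos_right h (by (clear * - hβ hx; linarith only [hβ, hx]) : (0 : ℝ) < 1 + 7 * x)
    (clear * - h3 h4 this; linarith)
  (clear * - h2 h5; linarith)

/-- a switch -/
theorem Pt5_switch {y0 y1 e1 x β B ν a1 A0 a0 E : ℝ} (hβ : 0 ≤ β) (hB : 0 ≤ B)
    (hx : x = (1 + B) * β) (hx1 : x ≤ 1 / 8) (hν : 0 ≤ ν) (hν1 : ν ≤ B) (he : 0 ≤ e1)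
    (hE : Real.exp e1 ≤ E) (hy : y1 + 8 * x ≤ y0 + e1) (h1 : a1 ≤ 1 + β) (hA : A0 ≤ 1 + β)
    (h0 : 1 - β ≤ a0) :
    Real.exp y1 * a1 + ν * (Real.exp y0 * A0) ≤ (E + ν) * (Real.exp y0 * a0) := by
  have hBβ : 0 ≤ B * β := mul_nonneg hB hβ
  have hβx : β ≤ x := by rw [hx]; (clear * - hBβ; linarith only [hBβ])
  have hβ1 : β ≤ 1 / 8 := hβx.trans hx1
  have hY := Real.exp_pos y0
  have hE1 : 1 ≤ Real.exp e1 := Real.one_le_exp he
  have e1' := Pt5_exp hβ hβx hx1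
  have e2 : Real.exp y1 ≤ Real.exp y0 * (Real.exp e1 * Real.exp (-(8 * x))) := by
    rw [← Real.exp_add, ← Real.exp_add]
    exact Real.exp_le_exp.2 (by (clear * - hy; linarith only [hy]))
  have e3 : Real.exp y1 * a1 ≤ Real.exp y0 * (Real.exp e1 * (1 - 2 * x)) := by
    calc Real.exp y1 * a1 ≤ Real.exp y1 * (1 + β) :=
          mul_le_mul_of_nonneg_left h1 (Real.exp_pos _).le
      _ ≤ Real.exp y0 * (Real.exp e1 * Real.exp (-(8 * x))) * (1 + β) :=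
          mul_le_mul_of_nonneg_right e2 (by (clear * - hβ; linarith))
      _ = Real.exp y0 * (Real.exp e1 * (Real.exp (-(8 * x)) * (1 + β))) := by ring
      _ ≤ Real.exp y0 * (Real.exp e1 * (1 - 2 * x)) :=
          mul_le_mul_of_nonneg_left (mul_le_mul_of_nonneg_left e1' (Real.exp_pos _).le) hY.le
  have e4 : ν * (Real.exp y0 * A0) ≤ Real.exp y0 * (ν * (1 + β)) := by
    have := mul_le_mul_of_nonneg_left hA (mul_nonneg hν hY.le)
    (clear * - this; linarith only [this])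
  have e5 : Real.exp y0 * ((Real.exp e1 + ν) * (1 - β)) ≤ (E + ν) * (Real.exp y0 * a0) := by
    calc Real.exp y0 * ((Real.exp e1 + ν) * (1 - β)) ≤ Real.exp y0 * ((E + ν) * (1 - β)) := by
          refine mul_le_mul_of_nonneg_left (mul_le_mul_of_nonneg_right ?_ (by (clear * - hx hx1 hBβ; linarith))) hY.le
          (clear * - hE; linarith)
      _ ≤ Real.exp y0 * ((E + ν) * a0) := by
          refine mul_le_mul_of_nonneg_left (mul_le_mul_of_nonneg_left h0 ?_) hY.le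
          (clear * - hν hE hE1; linarith)
      _ = (E + ν) * (Real.exp y0 * a0) := by ring
  have e6 : Real.exp e1 * (1 - 2 * x) + ν * (1 + β) ≤ (Real.exp e1 + ν) * (1 - β) := by
    have h6 : 2 * x - β = β + 2 * (B * β) := by rw [hx]; ring
    have h7 : 2 * (ν * β) ≤ β + 2 * (B * β) := by
      have := mul_le_mul_of_nonneg_right hν1 hβ
      (clear * - hβ this; linarith)
    have h8 : β + 2 * (B * β) ≤ Real.exp e1 * (β + 2 * (B * β)) :=
      le_mul_of_one_le_left (by (clear * - hβ hBβ; linarith only [hβ, hBβ])) hE1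
    have h9 : Real.exp e1 * (2 * x - β) = Real.exp e1 * (β + 2 * (B * β)) := by rw [h6]
    (clear * - h7 h8 h9; linarith only [h7, h8, h9])
  have e7 := mul_le_mul_of_nonneg_left e6 hY.le
  rw [mul_add] at e7
  (clear * - e3 e4 e5 e7; linarith)

/-- the near part -/
theorem Pt5_near {y0 y1 n δ β B ν a1 A0 a0 E : ℝ} (hn : 0 ≤ n) (hδ : 0 ≤ δ) (hβ : 0 ≤ β)
    (hβδ : β ≤ δ) (hβ1 : β ≤ 1 / 8) (hB : 0 ≤ B) (hν : 0 ≤ ν) (hν1 : ν ≤ B) (hE : 1 ≤ E)
    (hy : y1 ≤ y0 + δ * (10 * n)) (hnδ : δ * (10 * n) ≤ 1) (h1 : a1 ≤ 1 + β) (hA : A0 ≤ 1 + β)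
    (h0 : 1 - β ≤ a0) :
    Real.exp y1 * a1 + ν * (Real.exp y0 * A0) ≤
      (E + ν) * (Real.exp y0 * a0) + Real.exp y0 * (δ * (40 * n + 4 + 4 * B)) := by
  have hY := Real.exp_pos y0
  have hx0 : 0 ≤ δ * (10 * n) := mul_nonneg hδ (by (clear * - hn; linarith only [hn]))
  have e1 : Real.exp (δ * (10 * n)) ≤ 1 + 2 * (δ * (10 * n)) := by
    have h := (abs_le.1 (Real.abs_exp_sub_one_sub_id_le (abs_le.2 ⟨by (clear * - hx0; linarith), hnδ⟩))).2
    (clear * - h hnδ hx0; nlinarith only [hnδ, hx0, h])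
  have e2 : Real.exp y1 ≤ Real.exp y0 * Real.exp (δ * (10 * n)) := by
    rw [← Real.exp_add]
    exact Real.exp_le_exp.2 hy
  have e3 : Real.exp y1 * a1 ≤ Real.exp y0 * ((1 + 2 * (δ * (10 * n))) * (1 + β)) := by
    calc Real.exp y1 * a1 ≤ Real.exp y1 * (1 + β) :=
          mul_le_mul_of_nonneg_left h1 (Real.exp_pos _).le
      _ ≤ Real.exp y0 * Real.exp (δ * (10 * n)) * (1 + β) :=
          mul_le_mul_of_nonneg_right e2 (by (clear * - hβ; linarith only [hβ]))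
      _ ≤ Real.exp y0 * (1 + 2 * (δ * (10 * n))) * (1 + β) :=
          mul_le_mul_of_nonneg_right (mul_le_mul_of_nonneg_left e1 hY.le) (by (clear * - hβ; linarith))
      _ = Real.exp y0 * ((1 + 2 * (δ * (10 * n))) * (1 + β)) := by ring
  have e4 : ν * (Real.exp y0 * A0) ≤ Real.exp y0 * (ν * (1 + β)) := by
    have := mul_le_mul_of_nonneg_left hA (mul_nonneg hν hY.le)
    (clear * - this; linarith only [this])
  have e5 : Real.exp y0 * ((1 + ν) * (1 - β)) ≤ (E + ν) * (Real.exp y0 * a0) := by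
    calc Real.exp y0 * ((1 + ν) * (1 - β)) ≤ Real.exp y0 * ((E + ν) * (1 - β)) := by
          refine mul_le_mul_of_nonneg_left (mul_le_mul_of_nonneg_right ?_ (by (clear * - hβ1; linarith only [hβ1]))) hY.le
          (clear * - hE; linarith)
      _ ≤ Real.exp y0 * ((E + ν) * a0) := by
          refine mul_le_mul_of_nonneg_left (mul_le_mul_of_nonneg_left h0 ?_) hY.le
          (clear * - hν hE; linarith only [hν, hE])
      _ = (E + ν) * (Real.exp y0 * a0) := by ring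
  have e6 : (1 + 2 * (δ * (10 * n))) * (1 + β) + ν * (1 + β) ≤
      (1 + ν) * (1 - β) + δ * (40 * n + 4 + 4 * B) := by
    have h6 : ν * β ≤ B * δ := mul_le_mul hν1 hβδ hβ hB
    have h7 : δ * (10 * n) * β ≤ δ * (10 * n) * 1 :=
      mul_le_mul_of_nonneg_left (by (clear * - hβ1; linarith)) hx0
    have h8 : 0 ≤ B * δ := mul_nonneg hB hδ
    (clear * - hδ hβδ h6 h7 h8; linarith only [hδ, hβδ, h6, h7, h8])
  have e7 := mul_le_mul_of_nonneg_left e6 hY.le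
  rw [mul_add, mul_add] at e7
  (clear * - e3 e4 e5 e7; linarith only [e3, e4, e5, e7])

/-- the far part -/
theorem Pt5_far {y0 y1 X q ν a1 A0 a0 E : ℝ} (hE : Real.exp q ≤ E) (hy : y1 ≤ y0 + X)
    (h1 : 0 ≤ a1) (h0 : 0 ≤ a0) :
    Real.exp y1 * a1 + ν * (Real.exp y0 * A0) ≤
      (E + ν) * (Real.exp y0 * a0) +
        Real.exp y0 * (Real.exp X * a1 - Real.exp q * a0 + ν * (A0 - a0)) := by
  have hY := Real.exp_pos y0
  have e2 : Real.exp y1 ≤ Real.exp y0 * Real.exp X := by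
    rw [← Real.exp_add]
    exact Real.exp_le_exp.2 hy
  have e3 := mul_le_mul_of_nonneg_right e2 h1
  have e4 := mul_le_mul_of_nonneg_right hE (mul_nonneg hY.le h0)
  (clear * - e3 e4; linarith only [e3, e4])

theorem pt5 {F : ℂ → ℂ} {A : ℝ} (hF : Fn F A) {Λ : ℂ → ℂ → ℂ} (hΛ : Br F Λ) {N d : ℕ}
    (hN : 2 ≤ N) (hd : d < N) {c ℓ : ℝ} (hℓ : 0 < ℓ) (hℓ1 : ℓ ≤ 1) {τ : ℂ} (hτ : 0 < ‖τ‖)
    {κ : ℂ → ℝ} {b c₀ B Cc m₁ : ℝ} (hk : Tk κ (τ / ‖τ‖) b c₀ B Cc m₁) {ε m0 e1 : ℝ} (hε : 0 < ε)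
    (hε1 : ε ≤ 1) (hm : 1 ≤ m0) (he : 0 ≤ e1) (hτ1 : ‖τ‖ * (1 + B) ≤ 1 / 8)
    (hs : ‖τ‖ * (10 * N + Real.log (2 * Cc * KN N / ‖τ‖ + KN N)) ≤ ε) {u : ℂ}
    (hu : u ∈ Bx (ch N c ℓ d) (ℓ / N)) {y0 y1 x0 x1 : ℝ} (hx0 : x0 = 0 ∨ x0 = 1)
    (hx1 : x1 = 0 ∨ x1 = 1)
    (h : (x0 = 0 ∧ x1 = 0 ∧ y1 ≤ y0 + e1) ∨ y1 + sw b B * ‖τ‖ ≤ y0 + e1 ∨
      (¬ Bad F Λ (ε / ‖τ‖) (2 * Cc * KN N / ‖τ‖) (vt c ℓ) u ∧ x0 = 1 ∧ x1 = 1 ∧
        y0 = al Λ τ (vt c ℓ) u ∧ y1 = al Λ τ (vt (ch N c ℓ d) (ℓ / N)) u))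
    {ζ : ℂ} {ν : ℝ} (hν : 0 ≤ ν) (hν1 : ν ≤ B) {H : ℂ → ℝ} (hH : ∀ z, 0 ≤ H z)
    (hH0 : ∀ z, Cc * ‖F (vt (ch N c ℓ d) (ℓ / N)) - F (vt c ℓ)‖ / (‖τ‖ * m0) ≤ ‖z‖ → H z = 0)
    (hH1 : ∀ z, 2 * ‖F (vt (ch N c ℓ d) (ℓ / N)) - F (vt c ℓ)‖ ≤ ‖z‖ →
      Ph κ (τ / ‖τ‖) ‖τ‖ b (‖τ‖ * m0) ν (F (vt (ch N c ℓ d) (ℓ / N)) - F (vt c ℓ)) ζ z ≤ ‖τ‖ * H z) :
    Real.exp y1 * (1 - ‖τ‖ * b * x1 * κ ((F u - F (vt (ch N c ℓ d) (ℓ / N))) / ζ)) +
        ν * (Real.exp y0 * (1 - ‖τ‖ * b * x0 * κ ((F u - F (vt c ℓ)) /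
          (τ / ‖τ‖ * (F (vt (ch N c ℓ d) (ℓ / N)) - F (vt c ℓ)) / (2 * (‖τ‖ * m0 : ℝ)))))) ≤
      (Real.exp (e1 + ‖τ‖ ^ 2 * m0) + ν) *
          (Real.exp y0 * (1 - ‖τ‖ * b * x0 * κ ((F u - F (vt c ℓ)) / ζ))) +
        Real.exp (w0 Λ τ (vt c ℓ) + 2 * ε) * (‖τ‖ *
          (if ‖F u - F (vt c ℓ)‖ < 2 * KN N * rr F (vt c ℓ) then Bn N B
            else H (F u - F (vt c ℓ)))) := by
  obtain ⟨β, hβd⟩ : ∃ β : ℝ, β = ‖τ‖ * b := ⟨_, rfl⟩
  have hB := hk.hB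
  have hb := hk.hb
  have hb1 := hk.hb1
  have hCc := hk.hCc
  have hN2 : (2 : ℝ) ≤ N := by exact_mod_cast hN
  have hδB : 0 ≤ ‖τ‖ * B := mul_nonneg hτ.le hB
  have hδ1 : ‖τ‖ ≤ 1 / 8 := by
    have : ‖τ‖ * (1 + B) = ‖τ‖ + ‖τ‖ * B := by ring
    (clear * - hτ1 hδB; linarith)
  have hβ0 : 0 ≤ β := by rw [hβd]; (clear * - hτ hb; positivity)
  have hβδ : β ≤ ‖τ‖ := by
    rw [hβd]
    exact mul_le_of_le_one_right hτ.le hb1
  have hβ8 : β ≤ 1 / 8 := hβδ.trans hδ1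
  have hm0 : 0 ≤ ‖τ‖ ^ 2 * m0 := by (clear * - hτ hm; positivity)
  have hbd : ∀ (x : ℝ) (w : ℂ), (x = 0 ∨ x = 1) →
      1 - ‖τ‖ * b * x * κ w ≤ 1 + β ∧ 1 - β ≤ 1 - ‖τ‖ * b * x * κ w := by
    intro x w hx
    rw [← hβd]
    have h1 := abs_le.1 (hk.bd w)
    rcases hx with rfl | rfl
    · constructor <;> (clear * - hβ0; linarith only [hβ0])
    · constructor <;> (clear * - hτ hτ1 hδB hβ0 h1; nlinarith only [hβ0, h1])
  have hE1 : Real.exp e1 ≤ Real.exp (e1 + ‖τ‖ ^ 2 * m0) := Real.exp_le_exp.2 (by (clear * - hm0; linarith))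
  have hE2 : 1 ≤ Real.exp (e1 + ‖τ‖ ^ 2 * m0) := Real.one_le_exp (by (clear * - he hm0; linarith))
  have hE3 : Real.exp (‖τ‖ ^ 2 * m0) ≤ Real.exp (e1 + ‖τ‖ ^ 2 * m0) :=
    Real.exp_le_exp.2 (by (clear * - he; linarith))
  have hBn : 0 ≤ Bn N B := by
    rw [Bn]
    (clear * - hN hB; positivity)
  have hT : 0 ≤ Real.exp (w0 Λ τ (vt c ℓ) + 2 * ε) * (‖τ‖ *
      (if ‖F u - F (vt c ℓ)‖ < 2 * KN N * rr F (vt c ℓ) then Bn N B
        else H (F u - F (vt c ℓ)))) := by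
    refine mul_nonneg (Real.exp_pos _).le (mul_nonneg hτ.le ?_)
    split_ifs
    · exact hBn
    · exact hH _
  rcases h with ⟨rfl, rfl, hy⟩ | hy | ⟨hbad, rfl, rfl, hy0, hy1⟩
  · -- frozen
    have h1 : Real.exp y1 ≤ Real.exp y0 * Real.exp (e1 + ‖τ‖ ^ 2 * m0) := by
      rw [← Real.exp_add]
      exact Real.exp_le_exp.2 (by (clear * - hm0 hy; linarith only [hm0, hy]))
    simp only [mul_zero, zero_mul, sub_zero, mul_one]
    (clear * - hT h1; linarith only [hT, h1])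
  · -- switch
    have h1 := Pt5_switch (x := (1 + B) * β) hβ0 hB rfl (by
        have : (1 + B) * β = ‖τ‖ * (1 + B) * b := by rw [hβd]; ring
        rw [this]
        exact (mul_le_of_le_one_right (by (clear * - hτ hB; positivity)) hb1).trans hτ1) hν hν1 he hE1 (by
        have : 8 * ((1 + B) * β) = sw b B * ‖τ‖ := by rw [hβd, sw]; ring
        rw [this]
        exact hy) (hbd x1 ((F u - F (vt (ch N c ℓ d) (ℓ / N))) / ζ) hx1).1
      (hbd x0 ((F u - F (vt c ℓ)) / (τ / ‖τ‖ * (F (vt (ch N c ℓ d) (ℓ / N)) - F (vt c ℓ)) /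
        (2 * (‖τ‖ * m0 : ℝ)))) hx0).1 (hbd x0 ((F u - F (vt c ℓ)) / ζ) hx0).2
    (clear * - hT h1; linarith)
  · -- moving
    have hv : 0 < (vt c ℓ).re := by
      show 0 < 2 * ℓ
      (clear * - hℓ; positivity)
    have hr := Pool.Agent.Helper26.G4.rr_pos hF hv
    have hK : 0 < KN N := Real.exp_pos _
    have hK1 : 1 ≤ KN N := by
      rw [KN]
      exact Real.one_le_exp (by (clear * - hN; positivity))
    have hKr : 0 < KN N * rr F (vt c ℓ) := mul_pos hK hr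
    have hmv := Pool.Agent.Helper26.G4.move_le hF hΛ hN hd hℓ hℓ1 hτ hu
    rw [← hy0, ← hy1] at hmv
    have hup : ‖F u - F (vt c ℓ)‖ ≤ 2 * Cc * KN N / ‖τ‖ * rr F (vt c ℓ) →
        Real.exp y0 ≤ Real.exp (w0 Λ τ (vt c ℓ) + 2 * ε) := by
      intro hz
      rw [norm_sub_rev] at hz
      have hw : |wd Λ (vt c ℓ) u| ≤ ε / ‖τ‖ := by
        by_contra hw
        push Not at hw
        exact hbad ⟨hw, hz⟩
      rw [hy0]
      exact Real.exp_le_exp.2 (up5 hF hΛ hN hd hℓ hℓ1 hτ (by (clear * - hτ hτ1 hδB; linarith only [hτ1, hδB])) hε hCc hs hu hw hz)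
    rcases lt_or_ge ‖F u - F (vt c ℓ)‖ (2 * KN N * rr F (vt c ℓ)) with hz | hz
    · -- near
      rw [if_pos hz]
      rw [Pool.Agent.Helper26.G4.Xh, if_pos hz] at hmv
      have hz' : ‖F u - F (vt c ℓ)‖ ≤ 2 * Cc * KN N / ‖τ‖ * rr F (vt c ℓ) := by
        refine hz.le.trans ?_
        refine mul_le_mul_of_nonneg_right ?_ hr.le
        rw [le_div_iff₀ hτ]
        (clear * - hK1 hτ1 hK hCc hδB; nlinarith only [hτ1, hCc, hδB, hK])
      have hlog : 0 ≤ Real.log (2 * Cc * KN N / ‖τ‖ + KN N) := by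
        refine Real.log_nonneg ?_
        have : 0 ≤ 2 * Cc * KN N / ‖τ‖ := by (clear * - hCc hK hτ; positivity)
        (clear * - hK1 this; linarith only [hK1, this])
      have hn : ‖τ‖ * (10 * (N : ℝ)) ≤ 1 := by
        have := mul_nonneg hτ.le hlog
        rw [mul_add] at hs
        (clear * - hε1 hs this; linarith)
      have h1 := Pt5_near (y0 := y0) (y1 := y1) (n := (N : ℝ)) (δ := ‖τ‖) (by (clear * - hτ hτ1 hN2 hδB; linarith only [])) hτ.le hβ0 hβδ hβ8 hB hν hν1 hE2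
        (by (clear * - hmv; linarith)) hn (hbd 1 ((F u - F (vt (ch N c ℓ d) (ℓ / N))) / ζ) (Or.inr rfl)).1
        (hbd 1 ((F u - F (vt c ℓ)) / (τ / ‖τ‖ * (F (vt (ch N c ℓ d) (ℓ / N)) - F (vt c ℓ)) /
          (2 * (‖τ‖ * m0 : ℝ)))) (Or.inr rfl)).1 (hbd 1 ((F u - F (vt c ℓ)) / ζ) (Or.inr rfl)).2
      refine h1.trans (add_le_add le_rfl ?_)
      exact mul_le_mul_of_nonneg_right (hup hz') (mul_nonneg hτ.le hBn)
    · -- far
      rw [if_neg (not_lt.2 hz)]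
      rw [Pool.Agent.Helper26.G4.Xh, if_neg (not_lt.2 hz)] at hmv
      have hs1 : ‖F (vt (ch N c ℓ d) (ℓ / N)) - F (vt c ℓ)‖ ≤ KN N * rr F (vt c ℓ) :=
        Pool.Agent.Helper26.G4.disp_le hF hΛ hN hd hℓ hℓ1 (right_mem_segment ℝ _ _)
      have hs2 : 2 * ‖F (vt (ch N c ℓ d) (ℓ / N)) - F (vt c ℓ)‖ ≤ ‖F u - F (vt c ℓ)‖ := by
        (clear * - hz hs1; linarith)
      have hPh := hH1 _ hs2
      have h1 := Pt5_far (y0 := y0) (y1 := y1) (ν := ν) (X := ‖τ‖ * ((τ / ‖τ‖ * (F (vt (ch N c ℓ d) (ℓ / N)) -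
          F (vt c ℓ)) / (F u - F (vt c ℓ))).re + ‖F (vt (ch N c ℓ d) (ℓ / N)) - F (vt c ℓ)‖ ^ 2 /
          ‖F u - F (vt c ℓ)‖ ^ 2)) (A0 := 1 - ‖τ‖ * b * 1 * κ ((F u - F (vt c ℓ)) /
          (τ / ‖τ‖ * (F (vt (ch N c ℓ d) (ℓ / N)) - F (vt c ℓ)) / (2 * (‖τ‖ * m0 : ℝ))))) hE3
        (by (clear * - hmv; linarith))
        (le_trans (by (clear * - hτ hτ1 hδB hβδ; linarith only [hτ1, hδB, hβδ])) (hbd 1 ((F u - F (vt (ch N c ℓ d) (ℓ / N))) / ζ) (Or.inr rfl)).2)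
        (le_trans (by (clear * - hτ hτ1 hδB hβδ; linarith only [hτ1, hδB, hβδ])) (hbd 1 ((F u - F (vt c ℓ)) / ζ) (Or.inr rfl)).2)
      refine h1.trans (add_le_add le_rfl ?_)
      have hrw : Real.exp (‖τ‖ * ((τ / ‖τ‖ * (F (vt (ch N c ℓ d) (ℓ / N)) -
          F (vt c ℓ)) / (F u - F (vt c ℓ))).re + ‖F (vt (ch N c ℓ d) (ℓ / N)) - F (vt c ℓ)‖ ^ 2 /
          ‖F u - F (vt c ℓ)‖ ^ 2)) * (1 - ‖τ‖ * b * 1 * κ ((F u - F (vt (ch N c ℓ d) (ℓ / N))) / ζ)) -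
          Real.exp (‖τ‖ ^ 2 * m0) * (1 - ‖τ‖ * b * 1 * κ ((F u - F (vt c ℓ)) / ζ)) +
          ν * ((1 - ‖τ‖ * b * 1 * κ ((F u - F (vt c ℓ)) /
          (τ / ‖τ‖ * (F (vt (ch N c ℓ d) (ℓ / N)) - F (vt c ℓ)) / (2 * (‖τ‖ * m0 : ℝ))))) -
          (1 - ‖τ‖ * b * 1 * κ ((F u - F (vt c ℓ)) / ζ))) =
          Ph κ (τ / ‖τ‖) ‖τ‖ b (‖τ‖ * m0) ν (F (vt (ch N c ℓ d) (ℓ / N)) - F (vt c ℓ)) ζ
            (F u - F (vt c ℓ)) := by
        have e1 : F u - F (vt c ℓ) - (F (vt (ch N c ℓ d) (ℓ / N)) - F (vt c ℓ)) =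
            F u - F (vt (ch N c ℓ d) (ℓ / N)) := by ring
        have e2 : ‖τ‖ * (‖τ‖ * m0) = ‖τ‖ ^ 2 * m0 := by ring
        rw [Ph, e1, e2, mul_one]
        ring
      rw [hrw]
      rcases (hH (F u - F (vt c ℓ))).eq_or_lt with hH' | hH'
      · rw [← hH', mul_zero] at hPh ⊢
        rw [mul_zero]
        exact mul_nonpos_of_nonneg_of_nonpos (Real.exp_pos _).le hPh
      · have hz1 : ‖F u - F (vt c ℓ)‖ < Cc * ‖F (vt (ch N c ℓ d) (ℓ / N)) - F (vt c ℓ)‖ /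
            (‖τ‖ * m0) := by
          by_contra hcon
          push Not at hcon
          exact hH'.ne' (hH0 _ hcon)
        have hz2 : ‖F u - F (vt c ℓ)‖ ≤ 2 * Cc * KN N / ‖τ‖ * rr F (vt c ℓ) := by
          refine hz1.le.trans ?_
          have e3 : 2 * Cc * KN N / ‖τ‖ * rr F (vt c ℓ) =
              2 * Cc * (KN N * rr F (vt c ℓ)) / ‖τ‖ := by ring
          rw [e3]
          refine div_le_div₀ (by (clear * - hCc hK hr; positivity)) ?_ hτ (le_mul_of_one_le_right hτ.le hm)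
          have := mul_le_mul_of_nonneg_left hs1 (by (clear * - hτ hτ1 hCc hδB; linarith only [hCc]) : 0 ≤ Cc)
          have h2 : 0 ≤ Cc * (KN N * rr F (vt c ℓ)) := by (clear * - hCc hK hr; positivity)
          (clear * - this h2; linarith)
        calc Real.exp y0 * Ph κ (τ / ‖τ‖) ‖τ‖ b (‖τ‖ * m0) ν
              (F (vt (ch N c ℓ d) (ℓ / N)) - F (vt c ℓ)) ζ (F u - F (vt c ℓ)) ≤
              Real.exp y0 * (‖τ‖ * H (F u - F (vt c ℓ))) :=
              mul_le_mul_of_nonneg_left hPh (Real.exp_pos _).le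
          _ ≤ Real.exp (w0 Λ τ (vt c ℓ) + 2 * ε) * (‖τ‖ * H (F u - F (vt c ℓ))) :=
              mul_le_mul_of_nonneg_right (hup hz2) (mul_nonneg hτ.le hH'.le)

end Pool.Agent.Helper26.G5
end
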