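import Mathlib
import Pool.Agent.Helper24.K6.G05
import Pool.Agent.Helper24.K6.G10
import Pool.Agent.Helper24.K6.G13
import Pool.Agent.Helper24.K6.G20

/- Helper24.K6w.H39.EK.AreaForm -/
section
set_option autoImplicit false

open Complex MeasureTheory Metric Set Filter Topology
open scoped Real ENNReal ComplexConjugate NNReal

namespace Pool.Agent.Helper39.EK

open Pool.Agent.Helper39.Area

/-- Parseval for the derivative -/
theorem parseval_deriv {E : ℂ → ℂ} {R s : ℝ} (hE : DifferentiableOn ℂ E (ball 0 R)) (hs : 0 ≤ s)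
    (hsR : s < R) :
    HasSum (fun n : ℕ => ‖((n:ℂ) + 1) * (iteratedDeriv (n + 1) E 0 / (n + 1).factorial)‖ ^ 2 *
        s ^ (2 * n))
      ((1 / (2 * π)) * ∫ θ in (-π)..π, ‖deriv E ((s:ℂ) * Complex.exp (θ * I))‖ ^ 2) := by
  have hR : 0 < R := hs.trans_lt hsR
  have hd : DifferentiableOn ℂ (deriv E) (ball 0 R) := hE.deriv isOpen_ball
  have hsum : ∀ z : ℂ, ‖z‖ < R → HasSum (fun n : ℕ =>
      ((n:ℂ) + 1) * (iteratedDeriv (n + 1) E 0 / (n + 1).factorial) * z ^ n) (deriv E z) := by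
    intro z hz
    have h := Complex.hasSum_taylorSeries_on_ball (c := 0) (r := R) (z := z) hd (by simpa using hz)
    have he : (fun n : ℕ => ((n:ℂ) + 1) * (iteratedDeriv (n + 1) E 0 / (n + 1).factorial) * z ^ n)
        = fun n : ℕ => (n.factorial : ℂ)⁻¹ • (z - 0) ^ n • iteratedDeriv n (deriv E) 0 := by
      funext n
      simp only [smul_eq_mul, sub_zero]
      rw [← iteratedDeriv_succ', Nat.factorial_succ, Nat.cast_mul, Nat.cast_succ]
      have h1 : ((n : ℂ) + 1) ≠ 0 := Nat.cast_add_one_ne_zero n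
      have h2 : ((n.factorial : ℕ) : ℂ) ≠ 0 := Nat.cast_ne_zero.mpr (Nat.factorial_ne_zero n)
      field_simp
    rw [he]
    exact h
  have hnorm : ∀ θ : ℝ, ‖(s : ℂ) * Complex.exp ((θ : ℂ) * I)‖ = s := by
    intro θ
    rw [norm_mul, Complex.norm_exp_ofReal_mul_I, mul_one, Complex.norm_real,
      Real.norm_of_nonneg hs]
  apply Pool.Agent.Helper22.Marshall.parseval_aux
    (fun n : ℕ => ((n:ℂ) + 1) * (iteratedDeriv (n + 1) E 0 / (n + 1).factorial)) s hs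
  · have h := (hsum (s : ℂ) (by rw [Complex.norm_real, Real.norm_of_nonneg hs]; exact hsR)).summable
    have h2 := h.norm
    refine h2.congr fun n => ?_
    rw [norm_mul _ ((s : ℂ) ^ n), norm_pow, Complex.norm_real, Real.norm_of_nonneg hs]
  · intro θ
    exact hsum _ (by rw [hnorm]; exact hsR)

/-- the area form is at most the coefficient form -/
theorem area_le {E : ℂ → ℂ} {R ρ c : ℝ} (hE : DifferentiableOn ℂ E (ball 0 R)) (hρ : 0 < ρ)
    (hρR : ρ < R) (hc : ∀ N : ℕ, ∑ n ∈ Finset.range N,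
        (n:ℝ) * ρ ^ (2 * n) * ‖iteratedDeriv n E 0 / n.factorial‖ ^ 2 ≤ c) :
    ∫ z in ball (0:ℂ) ρ, ‖deriv E z‖ ^ 2 ≤ π * c := by
  have hd : DifferentiableOn ℂ (deriv E) (ball 0 R) := hE.deriv isOpen_ball
  set e : ℕ → ℂ := fun n => iteratedDeriv n E 0 / n.factorial with he
  set f : ℂ → ℝ := fun z => ‖deriv E z‖ ^ 2 with hf
  have hfc : ContinuousOn f (ball 0 R) := (hd.continuousOn.norm).pow 2
  -- polar coordinates
  have h1 : ∫ z in ball (0:ℂ) ρ, f z =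
      ∫ s in Ioo 0 ρ, ∫ θ in Ioo (-π) π, s * f ((s:ℂ) * Complex.exp (θ * I)) := by
    rw [← integral_indicator measurableSet_ball, ← Complex.integral_comp_polarCoord_symm]
    have h2 : ∫ p in polarCoord.target, p.1 • (ball (0:ℂ) ρ).indicator f
        (Complex.polarCoord.symm p) = ∫ p in Ioo 0 ρ ×ˢ Ioo (-π) π,
          p.1 * f ((p.1:ℂ) * Complex.exp (p.2 * I)) := by
      have h3 : ∀ p ∈ polarCoord.target, p.1 • (ball (0:ℂ) ρ).indicator f
          (Complex.polarCoord.symm p) = (Ioo 0 ρ ×ˢ Ioo (-π) π).indicator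
            (fun p => p.1 * f ((p.1:ℂ) * Complex.exp (p.2 * I))) p := by
        rintro ⟨r, θ⟩ ⟨hr, hθ⟩
        simp only [mem_Ioi] at hr hθ
        have h4 : Complex.polarCoord.symm (r, θ) = (r:ℂ) * Complex.exp (θ * I) := by
          rw [Complex.polarCoord_symm_apply, Complex.exp_mul_I, Complex.ofReal_cos,
            Complex.ofReal_sin]
        have h5 : ‖Complex.polarCoord.symm (r, θ)‖ = r := by
          rw [h4, norm_mul, Complex.norm_exp_ofReal_mul_I, mul_one, Complex.norm_real,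
            Real.norm_of_nonneg hr.le]
        by_cases hrρ : r < ρ
        · rw [indicator_of_mem (by rw [mem_ball, dist_zero_right, h5]; exact hrρ),
            indicator_of_mem (show (r, θ) ∈ Ioo 0 ρ ×ˢ Ioo (-π) π from ⟨⟨hr, hrρ⟩, hθ⟩), h4,
            smul_eq_mul]
        · rw [indicator_of_notMem (by rw [mem_ball, dist_zero_right, h5]; exact hrρ),
            indicator_of_notMem (fun h : (r, θ) ∈ Ioo 0 ρ ×ˢ Ioo (-π) π => hrρ h.1.2), smul_zero]
      rw [setIntegral_congr_fun polarCoord.open_target.measurableSet h3,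
        setIntegral_indicator (measurableSet_Ioo.prod measurableSet_Ioo)]
      congr 2
      apply inter_eq_right.2
      rintro ⟨r, θ⟩ ⟨hr, hθ⟩
      exact ⟨hr.1, hθ⟩
    rw [h2, Measure.volume_eq_prod, setIntegral_prod]
    -- integrability
    have h6 : ContinuousOn (fun p : ℝ × ℝ => p.1 * f ((p.1:ℂ) * Complex.exp (p.2 * I)))
        (Icc 0 ρ ×ˢ Icc (-π) π) := by
      apply continuous_fst.continuousOn.mul
      apply hfc.comp (by fun_prop)
      rintro ⟨r, θ⟩ ⟨hr, hθ⟩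
      simp only [mem_ball, dist_zero_right, norm_mul, Complex.norm_exp_ofReal_mul_I, mul_one,
        Complex.norm_real]
      rw [Real.norm_of_nonneg hr.1]
      exact hr.2.trans_lt hρR
    have h7 := h6.integrableOn_compact (μ := (volume : Measure (ℝ × ℝ)))
      (isCompact_Icc.prod isCompact_Icc)
    rw [Measure.volume_eq_prod] at h7
    exact h7.mono_set (prod_mono Ioo_subset_Icc_self Ioo_subset_Icc_self)
  -- the inner integral
  have h8 : ∀ s ∈ Ioo 0 ρ, ∫ θ in Ioo (-π) π, s * f ((s:ℂ) * Complex.exp (θ * I)) =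
      ∑' n : ℕ, 2 * π * (‖((n:ℂ) + 1) * e (n + 1)‖ ^ 2 * s ^ (2 * n + 1)) := by
    intro s hs
    have h9 := (parseval_deriv hE hs.1.le (hs.2.trans hρR)).mul_left (2 * π * s)
    have h10 : 2 * π * s * (1 / (2 * π) * ∫ θ in (-π)..π,
        ‖deriv E ((s:ℂ) * Complex.exp (θ * I))‖ ^ 2) =
        ∫ θ in Ioo (-π) π, s * f ((s:ℂ) * Complex.exp (θ * I)) := by
      rw [integral_const_mul, intervalIntegral.integral_of_le (by (clear * -; linarith only [Real.pi_pos])),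
        integral_Ioc_eq_integral_Ioo]
      have hpi : 2 * π * s * (1 / (2 * π)) = s := by
        have : (2 * π) ≠ 0 := by positivity
        (clear * -; field_simp)
      rw [← mul_assoc, hpi]
    rw [h10] at h9
    rw [← h9.tsum_eq]
    refine tsum_congr fun n => ?_
    simp only [he]
    ring
  rw [h1, setIntegral_congr_fun measurableSet_Ioo h8]
  -- integrate the series
  have h11 : ∀ n : ℕ, ∫ s in Ioo 0 ρ, 2 * π * (‖((n:ℂ) + 1) * e (n + 1)‖ ^ 2 * s ^ (2 * n + 1)) =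
      π * (((n:ℝ) + 1) * ρ ^ (2 * (n + 1)) * ‖e (n + 1)‖ ^ 2) := by
    intro n
    rw [integral_const_mul, integral_const_mul, ← integral_Ioc_eq_integral_Ioo,
      ← intervalIntegral.integral_of_le hρ.le, integral_pow, norm_mul]
    have h12 : ‖(n:ℂ) + 1‖ = (n:ℝ) + 1 := by
      have : ((n:ℂ) + 1) = (((n:ℝ) + 1 : ℝ) : ℂ) := by push_cast; rfl
      rw [this, Complex.norm_real, Real.norm_of_nonneg (by (clear * -; positivity))]
    rw [h12, zero_pow (by omega), sub_zero]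
    push_cast
    have h13 : ((2:ℝ) * n + 1 + 1) ≠ 0 := by (clear * -; positivity)
    field_simp
    ring
  have h14 : ∀ N : ℕ, ∑ n ∈ Finset.range N,
      (((n:ℝ) + 1) * ρ ^ (2 * (n + 1)) * ‖e (n + 1)‖ ^ 2) ≤ c := by
    intro N
    have h15 := hc (N + 1)
    rw [Finset.sum_range_succ'] at h15
    simp only [Nat.cast_add, Nat.cast_one, Nat.cast_zero, zero_mul, add_zero] at h15
    exact h15
  have h16 : Summable fun n : ℕ => ((n:ℝ) + 1) * ρ ^ (2 * (n + 1)) * ‖e (n + 1)‖ ^ 2 :=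
    summable_of_sum_range_le (fun n => by (clear * - hρ; positivity)) h14
  have h17 := hasSum_integral_of_summable_integral_norm (μ := volume.restrict (Ioo (0:ℝ) ρ))
      (F := fun (n : ℕ) (s : ℝ) => 2 * π * (‖((n:ℂ) + 1) * e (n + 1)‖ ^ 2 * s ^ (2 * n + 1)))
      (fun n => by
        have : Continuous fun s : ℝ => 2 * π * (‖((n:ℂ) + 1) * e (n + 1)‖ ^ 2 * s ^ (2 * n + 1)) := by
          fun_prop
        exact (this.continuousOn.integrableOn_compact isCompact_Icc).mono_set Ioo_subset_Icc_self)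
      (by
        refine (h16.mul_left π).congr fun n => ?_
        rw [← h11 n]
        apply setIntegral_congr_fun measurableSet_Ioo
        intro s hs
        simp only
        rw [Real.norm_of_nonneg (by have := hs.1; (clear * - this; positivity))])
  rw [← h17.tsum_eq]
  simp only [h11]
  rw [tsum_mul_left]
  exact mul_le_mul_of_nonneg_left (h16.tsum_le_of_sum_range_le h14) Real.pi_pos.le

end Pool.Agent.Helper39.EK
end

/- Helper24.K6w.H5.TR.Area2 -/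
section
set_option autoImplicit false
open Complex MeasureTheory Metric Set Polynomial
open scoped Real ComplexConjugate

/-! The area theorem for the coefficients, and the mean of `|β'|²`. -/

namespace Pool.Agent.Helper5.TR

open Pool.Agent.Helper39.Area Pool.Agent.Helper39.EK

variable {β : ℂ → ℂ}

/-- the area theorem -/
theorem area_coeff (h : Ext β) {ρ : ℝ} (hρ : 0 < ρ) (hρ1 : ρ < 1) (N : ℕ) :
    ∑ n ∈ Finset.range N, (n:ℝ) * ρ ^ (2 * n) * ‖iteratedDeriv n β 0 / n.factorial‖ ^ 2 ≤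
      1 / ρ ^ 2 := by
  obtain ⟨c, hc, hci⟩ := dirichlet_sum h.diff hρ hρ1
  obtain ⟨c2, hc2, hi⟩ := area_ineq h hρ hρ1 (Polynomial.X)
  refine (hc N).trans ?_
  have hρ0 : (ρ:ℂ) ≠ 0 := by exact_mod_cast hρ.ne'
  have hβc : ContinuousOn β (sphere 0 ρ) := h.diff.continuousOn.mono
    (fun ζ hζ => mem_ball_of_sphere hρ1 (sphere_subset_closedBall hζ))
  have hβd : ContinuousOn (deriv β) (sphere 0 ρ) := (h.diff.deriv isOpen_ball).continuousOn.mono
    (fun ζ hζ => mem_ball_of_sphere hρ1 (sphere_subset_closedBall hζ))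
  have hinv : ContinuousOn (fun ζ : ℂ => (ζ ^ 2)⁻¹) (sphere 0 ρ) := by
    apply ContinuousOn.inv₀ (by fun_prop)
    intro ζ hζ
    exact pow_ne_zero _ (sphere_ne hρ hζ)
  have hinv1 : ContinuousOn (fun ζ : ℂ => ζ⁻¹) (sphere 0 ρ) := by
    apply ContinuousOn.inv₀ (by fun_prop)
    intro ζ hζ
    exact sphere_ne hρ hζ
  have hcb : ContinuousOn (fun ζ => conj (β ζ)) (sphere 0 ρ) :=
    Complex.continuous_conj.comp_continuousOn hβc
  -- the four integrals
  have i1 : (∮ ζ in C(0, ρ), -((ρ:ℂ) ^ 2)⁻¹ * ζ⁻¹) = -((ρ:ℂ) ^ 2)⁻¹ * (2 * π * I) := by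
    rw [circleIntegral.integral_const_mul]
    have := circleIntegral.integral_sub_center_inv (0:ℂ) hρ.ne'
    simp only [sub_zero] at this
    rw [this]
  have i2 : (∮ ζ in C(0, ρ), ((ρ:ℂ) ^ 2)⁻¹ * (ζ * deriv β ζ)) = 0 := by
    rw [circleIntegral.integral_const_mul, cauchy_zero hρ hρ1, mul_zero]
    exact differentiableOn_id.mul (h.diff.deriv isOpen_ball)
  have i3 : (∮ ζ in C(0, ρ), -(conj (β ζ) * (ζ ^ 2)⁻¹)) = 0 := by
    have h1 := conj_circle hρ (fun ζ => -(conj (β ζ) * (ζ ^ 2)⁻¹))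
    have h2 : (∮ ζ in C(0, ρ), β ζ) = 0 := cauchy_zero hρ hρ1 h.diff
    have h3 : conj (∮ ζ in C(0, ρ), -(conj (β ζ) * (ζ ^ 2)⁻¹)) = 0 := by
      rw [h1]
      have h4 : (∮ ζ in C(0, ρ), -((ρ:ℂ) ^ 2 / ζ ^ 2) * conj (-(conj (β ζ) * (ζ ^ 2)⁻¹))) =
          ∮ ζ in C(0, ρ), ((ρ:ℂ) ^ 2)⁻¹ * β ζ := by
        apply circleIntegral.integral_congr hρ.le
        intro ζ hζ
        have h5 := sphere_ne hρ hζ
        have h6 : conj ζ = (ρ:ℂ) ^ 2 / ζ := by
          rw [eq_div_iff h5, mul_comm, Complex.mul_conj, Complex.normSq_eq_norm_sq]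
          rw [mem_sphere, dist_zero_right] at hζ
          rw [hζ]; push_cast; ring
        simp only
        rw [map_neg, map_mul, map_inv₀, map_pow, Complex.conj_conj, h6]
        (clear * - h5 hρ0; field_simp)
      rw [h4, circleIntegral.integral_const_mul, h2, mul_zero]
    have h4 := congrArg conj h3
    simpa using h4
  have hsum : (∮ ζ in C(0, ρ), conj (Polynomial.X.eval (phi β ζ)) *
      ((derivative (Polynomial.X : ℂ[X])).eval (phi β ζ) * dphi β ζ)) =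
      ∮ ζ in C(0, ρ), (-((ρ:ℂ) ^ 2)⁻¹ * ζ⁻¹ + ((ρ:ℂ) ^ 2)⁻¹ * (ζ * deriv β ζ) +
        -(conj (β ζ) * (ζ ^ 2)⁻¹) + conj (β ζ) * deriv β ζ) := by
    apply circleIntegral.integral_congr hρ.le
    intro ζ hζ
    have h5 := sphere_ne hρ hζ
    have h6 : conj ζ = (ρ:ℂ) ^ 2 / ζ := by
      rw [eq_div_iff h5, mul_comm, Complex.mul_conj, Complex.normSq_eq_norm_sq]
      rw [mem_sphere, dist_zero_right] at hζ
      rw [hζ]; push_cast; ring
    simp only [Polynomial.eval_X, Polynomial.derivative_X, Polynomial.eval_one, one_mul]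
    unfold phi dphi
    rw [map_add, map_inv₀, h6]
    field_simp
    ring
  rw [hsum] at hi
  have c1 : CircleIntegrable (fun ζ : ℂ => -((ρ:ℂ) ^ 2)⁻¹ * ζ⁻¹) 0 ρ :=
    (continuousOn_const.mul hinv1).circleIntegrable hρ.le
  have c2' : CircleIntegrable (fun ζ : ℂ => ((ρ:ℂ) ^ 2)⁻¹ * (ζ * deriv β ζ)) 0 ρ :=
    (continuousOn_const.mul (continuousOn_id.mul hβd)).circleIntegrable hρ.le
  have c3 : CircleIntegrable (fun ζ : ℂ => -(conj (β ζ) * (ζ ^ 2)⁻¹)) 0 ρ :=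
    ((hcb.mul hinv).neg).circleIntegrable hρ.le
  have c4 : CircleIntegrable (fun ζ : ℂ => conj (β ζ) * deriv β ζ) 0 ρ :=
    (hcb.mul hβd).circleIntegrable hρ.le
  have c12 : CircleIntegrable (fun ζ : ℂ => -((ρ:ℂ) ^ 2)⁻¹ * ζ⁻¹ +
      ((ρ:ℂ) ^ 2)⁻¹ * (ζ * deriv β ζ)) 0 ρ := c1.add c2'
  have c123 : CircleIntegrable (fun ζ : ℂ => -((ρ:ℂ) ^ 2)⁻¹ * ζ⁻¹ +
      ((ρ:ℂ) ^ 2)⁻¹ * (ζ * deriv β ζ) + -(conj (β ζ) * (ζ ^ 2)⁻¹)) 0 ρ := c12.add c3
  rw [circleIntegral.integral_add c123 c4,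
    circleIntegral.integral_add c12 c3, circleIntegral.integral_add c1 c2', i1, i2, i3,
    hci] at hi
  have h1 : (c : ℂ) = ((1 / ρ ^ 2 - c2 / π : ℝ) : ℂ) := by
    have hpi : (π : ℂ) ≠ 0 := by exact_mod_cast Real.pi_ne_zero
    push_cast
    have hI : (I : ℂ) ≠ 0 := Complex.I_ne_zero
    have h2 : (2 * π * I : ℂ) * (1 / (ρ:ℂ) ^ 2 - c2 / π) =
        ((ρ:ℂ) ^ 2)⁻¹ * (2 * π * I) - 2 * I * c2 := by
      (clear * - hpi hρ0 hI; field_simp)
    apply mul_left_cancel₀ (show (2 * π * I : ℂ) ≠ 0 by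
      exact mul_ne_zero (mul_ne_zero two_ne_zero hpi) hI)
    rw [h2]
    linear_combination hi
  have h2 : c = 1 / ρ ^ 2 - c2 / π := by exact_mod_cast h1
  have h3 : 0 ≤ c2 / π := div_nonneg hc2 Real.pi_pos.le
  linarith only [h2, h3]

end Pool.Agent.Helper5.TR
end

/- Helper24.K6w.H5.TR.Mean2 -/
section
set_option autoImplicit false
open Complex MeasureTheory Metric Set Filter Topology
open scoped Real ComplexConjugate

/-! The circle means of `|ψ'|²` over the class Sigma. -/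

namespace Pool.Agent.Helper5.TR

open Pool.Agent.Helper39.Area Pool.Agent.Helper39.EK

variable {β : ℂ → ℂ}

theorem nat_pow_le {s : ℝ} (h0 : 0 < s) (h1 : s < 1) (n : ℕ) :
    ((n:ℝ) + 1) * s ^ (n + 1) ≤ 1 / (1 - s) := by
  have h2 : 0 < 1 - s := by (clear * - h1; linarith only [h1])
  rw [le_div_iff₀ h2]
  have h3 : ∀ k : ℕ, k ≤ n → s ^ (n + 1) ≤ s ^ k := fun k hk =>
    pow_le_pow_of_le_one h0.le h1.le (by omega)
  have h4 : ((n:ℝ) + 1) * s ^ (n + 1) ≤ ∑ k ∈ Finset.range (n + 1), s ^ k := by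
    have : ((n:ℝ) + 1) * s ^ (n + 1) = ∑ _k ∈ Finset.range (n + 1), s ^ (n + 1) := by
      rw [Finset.sum_const, Finset.card_range, nsmul_eq_mul]; push_cast; ring
    rw [this]
    apply Finset.sum_le_sum
    intro k hk
    exact h3 k (by rw [Finset.mem_range] at hk; omega)
  have h5 : (∑ k ∈ Finset.range (n + 1), s ^ k) * (1 - s) = 1 - s ^ (n + 1) := by
    have := geom_sum_mul s (n + 1)
    linear_combination -this
  have h6 : 0 ≤ s ^ (n + 1) := by positivity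
  calc ((n:ℝ) + 1) * s ^ (n + 1) * (1 - s) ≤ (∑ k ∈ Finset.range (n + 1), s ^ k) * (1 - s) :=
        mul_le_mul_of_nonneg_right h4 h2.le
    _ ≤ 1 := by rw [h5]; linarith only [h6]

/-- the mean of `|β'|²` -/
theorem mean_deriv (h : Ext β) {s : ℝ} (hs : 0 < s) (hs1 : s < 1) :
    (1 / (2 * π)) * ∫ θ in (-π)..π, ‖deriv β ((s:ℂ) * Complex.exp (θ * I))‖ ^ 2 ≤
      1 / ((1 - s) * s ^ 3) := by
  have hp := parseval_deriv h.diff hs.le hs1
  refine hp.tsum_eq ▸ ?_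
  have h1s : 0 < 1 - s := by linarith
  apply Real.tsum_le_of_sum_range_le
  · intro n; (clear * - hs; positivity)
  intro N
  set ρ : ℝ := Real.sqrt s with hρ
  have hρ0 : 0 < ρ := Real.sqrt_pos.mpr hs
  have hρ1 : ρ < 1 := by
    rw [hρ, Real.sqrt_lt' one_pos]; (clear * - hs1; linarith)
  have hρ2 : ρ ^ 2 = s := Real.sq_sqrt hs.le
  have ha := area_coeff h hρ0 hρ1 (N + 1)
  rw [hρ2] at ha
  have h1 : ∀ n : ℕ, ‖((n:ℂ) + 1) * (iteratedDeriv (n + 1) β 0 / (n + 1).factorial)‖ ^ 2 *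
      s ^ (2 * n) ≤ (1 / ((1 - s) * s ^ 2)) * (((n + 1 : ℕ):ℝ) * ρ ^ (2 * (n + 1)) *
        ‖iteratedDeriv (n + 1) β 0 / (n + 1).factorial‖ ^ 2) := by
    intro n
    have h2 : ‖((n:ℂ) + 1)‖ = (n:ℝ) + 1 := by
      have : ((n:ℂ) + 1) = (((n:ℝ) + 1 : ℝ) : ℂ) := by push_cast; rfl
      rw [this, Complex.norm_real, Real.norm_of_nonneg (by (clear * -; positivity))]
    rw [norm_mul, h2, pow_mul ρ 2 (n + 1), hρ2]
    set e : ℝ := ‖iteratedDeriv (n + 1) β 0 / (n + 1).factorial‖ with he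
    have h3 := nat_pow_le hs hs1 n
    have h4 : (((n:ℝ) + 1) * e) ^ 2 * s ^ (2 * n) =
        (((n:ℝ) + 1) * s ^ (n + 1)) * (((n:ℝ) + 1) * s ^ (n + 1) * e ^ 2) * (1 / s ^ 2) := by
      field_simp
      ring
    rw [h4]
    have h5 : 0 ≤ ((n:ℝ) + 1) * s ^ (n + 1) * e ^ 2 := by (clear * - hs; positivity)
    calc (((n:ℝ) + 1) * s ^ (n + 1)) * (((n:ℝ) + 1) * s ^ (n + 1) * e ^ 2) * (1 / s ^ 2)
        ≤ (1 / (1 - s)) * (((n:ℝ) + 1) * s ^ (n + 1) * e ^ 2) * (1 / s ^ 2) := by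
          apply mul_le_mul_of_nonneg_right _ (by positivity)
          exact mul_le_mul_of_nonneg_right h3 h5
      _ = _ := by push_cast; (clear * - hs h1s; field_simp)
  calc ∑ n ∈ Finset.range N, ‖((n:ℂ) + 1) * (iteratedDeriv (n + 1) β 0 / (n + 1).factorial)‖ ^ 2 *
        s ^ (2 * n)
      ≤ ∑ n ∈ Finset.range N, (1 / ((1 - s) * s ^ 2)) * (((n + 1 : ℕ):ℝ) * ρ ^ (2 * (n + 1)) *
        ‖iteratedDeriv (n + 1) β 0 / (n + 1).factorial‖ ^ 2) := Finset.sum_le_sum fun n _ => h1 n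
    _ = (1 / ((1 - s) * s ^ 2)) * ∑ n ∈ Finset.range N, (((n + 1 : ℕ):ℝ) * ρ ^ (2 * (n + 1)) *
        ‖iteratedDeriv (n + 1) β 0 / (n + 1).factorial‖ ^ 2) := by rw [Finset.mul_sum]
    _ ≤ (1 / ((1 - s) * s ^ 2)) * (1 / s) := by
        apply mul_le_mul_of_nonneg_left _ (by positivity)
        refine le_trans ?_ ha
        rw [Finset.sum_range_succ']
        simp
    _ = 1 / ((1 - s) * s ^ 3) := by field_simp

/-- mean of `|1 - z² β'|²` -/
theorem mean_N (h : Ext β) {s : ℝ} (hs : 0 < s) (hs1 : s < 1) :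
    (1 / (2 * π)) * ∫ θ in (-π)..π, ‖1 - ((s:ℂ) * Complex.exp (θ * I)) ^ 2 *
      deriv β ((s:ℂ) * Complex.exp (θ * I))‖ ^ 2 ≤ 6 / (1 - s ^ 2) := by
  have hd : ContinuousOn (deriv β) (ball 0 1) := (h.diff.deriv isOpen_ball).continuousOn
  have hn : ∀ θ : ℝ, ‖(s:ℂ) * Complex.exp (θ * I)‖ = s := by
    intro θ
    rw [norm_mul, Complex.norm_exp_ofReal_mul_I, mul_one, Complex.norm_real,
      Real.norm_of_nonneg hs.le]
  have hm : ∀ θ : ℝ, (s:ℂ) * Complex.exp (θ * I) ∈ ball (0:ℂ) 1 := by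
    intro θ; rw [mem_ball, dist_zero_right, hn]; exact hs1
  have hcz : Continuous fun θ : ℝ => (s:ℂ) * Complex.exp (θ * I) := by fun_prop
  have hcd : Continuous fun θ : ℝ => deriv β ((s:ℂ) * Complex.exp (θ * I)) :=
    hd.comp_continuous hcz hm
  have h1 : ∀ θ : ℝ, ‖1 - ((s:ℂ) * Complex.exp (θ * I)) ^ 2 *
      deriv β ((s:ℂ) * Complex.exp (θ * I))‖ ^ 2 ≤
      2 + 2 * s ^ 4 * ‖deriv β ((s:ℂ) * Complex.exp (θ * I))‖ ^ 2 := by
    intro θ
    have h2 := norm_sub_le (1:ℂ) (((s:ℂ) * Complex.exp (θ * I)) ^ 2 *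
      deriv β ((s:ℂ) * Complex.exp (θ * I)))
    rw [norm_one, norm_mul, norm_pow, hn] at h2
    set d := ‖deriv β ((s:ℂ) * Complex.exp (θ * I))‖ with hdd
    have hd0 : 0 ≤ d := norm_nonneg _
    calc _ ≤ (1 + s ^ 2 * d) ^ 2 := pow_le_pow_left₀ (norm_nonneg _) h2 2
      _ ≤ _ := by linarith only [sq_nonneg (1 - s ^ 2 * d)]
  have h2 : ∫ θ in (-π)..π, ‖1 - ((s:ℂ) * Complex.exp (θ * I)) ^ 2 *
      deriv β ((s:ℂ) * Complex.exp (θ * I))‖ ^ 2 ≤
      ∫ θ in (-π)..π, (2 + 2 * s ^ 4 * ‖deriv β ((s:ℂ) * Complex.exp (θ * I))‖ ^ 2) := by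
    apply intervalIntegral.integral_mono_on (by linarith [Real.pi_pos])
    · apply Continuous.intervalIntegrable
      fun_prop
    · apply Continuous.intervalIntegrable
      fun_prop
    · intro θ _; exact h1 θ
  have h3 : ∫ θ in (-π)..π, (2 + 2 * s ^ 4 * ‖deriv β ((s:ℂ) * Complex.exp (θ * I))‖ ^ 2) =
      4 * π + 2 * s ^ 4 * ∫ θ in (-π)..π, ‖deriv β ((s:ℂ) * Complex.exp (θ * I))‖ ^ 2 := by
    rw [intervalIntegral.integral_add (by simp) (by
      apply Continuous.intervalIntegrable; fun_prop), intervalIntegral.integral_const,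
      intervalIntegral.integral_const_mul]
    simp only [smul_eq_mul]
    ring
  have h4 := mean_deriv h hs hs1
  have hpi := Real.pi_pos
  set J := ∫ θ in (-π)..π, ‖deriv β ((s:ℂ) * Complex.exp (θ * I))‖ ^ 2 with hJ
  have h1s : 0 < 1 - s := by (clear * - hs1; linarith)
  have h5 : s ^ 4 * ((1 / (2 * π)) * J) ≤ 1 / (1 - s) := by
    calc s ^ 4 * ((1 / (2 * π)) * J) ≤ s ^ 4 * (1 / ((1 - s) * s ^ 3)) :=
          mul_le_mul_of_nonneg_left h4 (by positivity)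
      _ = s / (1 - s) := by field_simp
      _ ≤ 1 / (1 - s) := div_le_div_of_nonneg_right hs1.le h1s.le
  have h6 : (1 / (2 * π)) * (4 * π + 2 * s ^ 4 * J) = 2 + 2 * (s ^ 4 * ((1 / (2 * π)) * J)) := by
    field_simp
    ring
  have h7 : 1 / (1 - s) ≤ 2 / (1 - s ^ 2) := by
    rw [div_le_div_iff₀ h1s (by (clear * - hs1 hs; nlinarith only [hs, hs1]))]
    (clear * - h1s; nlinarith only [h1s])
  have h8 : 2 ≤ 2 / (1 - s ^ 2) := by
    rw [le_div_iff₀ (by nlinarith only [hs, hs1])]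
    (clear * -; nlinarith only [])
  calc (1 / (2 * π)) * _ ≤ (1 / (2 * π)) * (4 * π + 2 * s ^ 4 * J) := by
        apply mul_le_mul_of_nonneg_left _ (by positivity)
        rw [← h3]; exact h2
    _ = 2 + 2 * (s ^ 4 * ((1 / (2 * π)) * J)) := h6
    _ ≤ 2 / (1 - s ^ 2) + 2 * (2 / (1 - s ^ 2)) := by
        have := h5.trans h7
        (clear * - h8 this; linarith only [h8, this])
    _ = 6 / (1 - s ^ 2) := by ring

end Pool.Agent.Helper5.TR
end

/- Helper24.K6w.H5.TR.Local -/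
section
set_option autoImplicit false
open Complex MeasureTheory Metric Set Filter Topology
open scoped Real ComplexConjugate

/-! From moments to the truncated exponential integrals of `|h|²`. -/

namespace Pool.Agent.Helper5.TR

open Pool.Agent.Helper39.Area

/-- the class Sigma with the logarithm of the derivative -/
structure Sg (ψ h : ℂ → ℂ) : Prop where
  diff : DifferentiableOn ℂ ψ {z : ℂ | 1 < ‖z‖}
  inj : InjOn ψ {z : ℂ | 1 < ‖z‖}
  lim : ∃ b : ℂ, Tendsto (fun z => ψ z - z) (Bornology.cobounded ℂ) (𝓝 b)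
  hdiff : DifferentiableOn ℂ h {z : ℂ | 1 < ‖z‖}
  hexp : ∀ z : ℂ, 1 < ‖z‖ → Complex.exp (h z) = deriv ψ z
  hlim : Tendsto h (Bornology.cobounded ℂ) (𝓝 0)

/-- the exponent `b` is admissible at `t` -/
def UpAt (t : ℂ) (b : ℝ) : Prop :=
  ∃ C : ℝ, ∀ ψ h : ℂ → ℂ, Sg ψ h → ∀ R : ℝ, 1 < R →
    (2 * π)⁻¹ * (∫ θ in (0:ℝ)..(2 * π), ‖Complex.exp (t * h (R * Complex.exp (θ * I)))‖) ≤
      C * (R ^ 2 / (R ^ 2 - 1)) ^ b

theorem one_lt_quot {R : ℝ} (hR : 1 < R) : 1 < R ^ 2 / (R ^ 2 - 1) := by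
  have : 0 < R ^ 2 - 1 := by (clear * - hR; nlinarith)
  rw [one_lt_div this]; linarith

theorem log_pos' {R : ℝ} (hR : 1 < R) : 0 < Real.log (R ^ 2 / (R ^ 2 - 1)) :=
  Real.log_pos (one_lt_quot hR)

theorem norm_pt {R : ℝ} (hR : 1 < R) (θ : ℝ) : ‖(R:ℂ) * Complex.exp (θ * I)‖ = R := by
  rw [norm_mul, Complex.norm_exp_ofReal_mul_I, mul_one, Complex.norm_real,
    Real.norm_of_nonneg (by (clear * - hR; linarith only [hR]))]

theorem Sg.cont {ψ h : ℂ → ℂ} (hs : Sg ψ h) {R : ℝ} (hR : 1 < R) :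
    Continuous fun θ : ℝ => h ((R:ℂ) * Complex.exp (θ * I)) := by
  apply hs.hdiff.continuousOn.comp_continuous (by fun_prop)
  intro θ
  show 1 < ‖(R:ℂ) * Complex.exp (θ * I)‖
  rw [norm_pt hR]; exact hR

theorem Sg.le {ψ h : ℂ → ℂ} (hs : Sg ψ h) {R : ℝ} (hR : 1 < R) (θ : ℝ) :
    ‖h ((R:ℂ) * Complex.exp (θ * I))‖ ≤ Real.log (R ^ 2 / (R ^ 2 - 1)) := by
  have h1 := goluzin_ext hs.diff hs.inj hs.lim hs.hdiff hs.hexp hs.hlim
    (z := (R:ℂ) * Complex.exp (θ * I)) (by rw [norm_pt hR]; exact hR)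
  rwa [norm_pt hR] at h1

/-- the second moment -/
theorem up_two : UpAt 2 1 := by
  refine ⟨6, ?_⟩
  intro ψ h hs R hR
  obtain ⟨b, hb⟩ := hs.lim
  obtain ⟨hE, hexp⟩ := ext_data hs.diff hs.inj hb hs.hexp
  set β : ℂ → ℂ := toDisc b (fun z => ψ z - z) with hβ
  have hR0 : R ≠ 0 := by (clear * - hR; linarith only [hR])
  have hRi : 0 < R⁻¹ := by (clear * - hR; positivity)
  have hRi1 : R⁻¹ < 1 := inv_lt_one_of_one_lt₀ hR
  set k : ℝ → ℝ := fun θ => ‖1 - (((R⁻¹ : ℝ) : ℂ) * Complex.exp ((θ : ℂ) * I)) ^ 2 *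
    deriv β (((R⁻¹ : ℝ) : ℂ) * Complex.exp ((θ : ℂ) * I))‖ ^ 2 with hk
  have h1 : ∀ θ : ℝ, ‖Complex.exp (2 * h (R * Complex.exp (θ * I)))‖ = k (-θ) := by
    intro θ
    have hne : ((R⁻¹ : ℝ) : ℂ) * Complex.exp (((-θ : ℝ) : ℂ) * I) ≠ 0 := by
      apply mul_ne_zero _ (Complex.exp_ne_zero _)
      exact_mod_cast inv_ne_zero hR0
    have h2 : (((R⁻¹ : ℝ) : ℂ) * Complex.exp (((-θ : ℝ) : ℂ) * I))⁻¹ =
        (R : ℂ) * Complex.exp ((θ : ℂ) * I) := by
      rw [mul_inv, ← Complex.exp_neg]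
      push_cast
      rw [inv_inv]
      congr 2
      ring
    have hm : ((R⁻¹ : ℝ) : ℂ) * Complex.exp (((-θ : ℝ) : ℂ) * I) ∈ ball (0:ℂ) 1 := by
      rw [mem_ball, dist_zero_right, norm_mul, Complex.norm_exp_ofReal_mul_I, mul_one,
        Complex.norm_real, Real.norm_of_nonneg hRi.le]
      exact hRi1
    have h3 := hexp _ hm
    have h4 : toDisc 0 h (((R⁻¹ : ℝ) : ℂ) * Complex.exp (((-θ : ℝ) : ℂ) * I)) =
        h ((R : ℂ) * Complex.exp ((θ : ℂ) * I)) := by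
      simp only [toDisc]
      rw [if_neg hne, h2]
    rw [h4] at h3
    simp only [hk]
    rw [← h3, two_mul, Complex.exp_add, norm_mul, pow_two]
  have hper : Function.Periodic k (2 * π) := by
    intro θ
    simp only [hk]
    have : Complex.exp (((θ + 2 * π : ℝ) : ℂ) * I) = Complex.exp ((θ : ℂ) * I) := by
      push_cast
      rw [add_mul, Complex.exp_add, Complex.exp_two_pi_mul_I, mul_one]
    rw [this]
  have h2 : (∫ θ in (0:ℝ)..(2 * π), ‖Complex.exp (2 * h (R * Complex.exp (θ * I)))‖) =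
      ∫ θ in (-π)..π, k θ := by
    rw [intervalIntegral.integral_congr (g := fun θ => k (-θ)) (fun θ _ => h1 θ),
      intervalIntegral.integral_comp_neg (fun θ => k θ)]
    have h3 := hper.intervalIntegral_add_eq (-(2 * π)) (-π)
    rw [show -(2 * π) + 2 * π = -0 by ring, show -π + 2 * π = π by ring] at h3
    exact h3
  rw [h2, inv_eq_one_div]
  refine (mean_N hE hRi hRi1).trans (le_of_eq ?_)
  rw [Real.rpow_one]
  have h4 : R ^ 2 - 1 ≠ 0 := by nlinarith only [hR]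
  field_simp

/-- the local bound -/
theorem local_bound {a : ℝ} {K : Set ℂ} (hK : IsCompact K)
    (H : ∀ ζ ∈ K, ∃ (t : ℂ) (b : ℝ), UpAt t b ∧ a * ‖ζ‖ ^ 2 < (t * ζ).re - b) :
    ∃ C : ℝ, ∀ ψ h : ℂ → ℂ, Sg ψ h → ∀ R : ℝ, 1 < R →
      (2 * π)⁻¹ * (∫ θ in (0:ℝ)..(2 * π), {θ : ℝ | h (R * Complex.exp (θ * I)) /
          (Real.log (R ^ 2 / (R ^ 2 - 1)) : ℂ) ∈ K}.indicator
        (fun θ : ℝ => Real.exp (a * ‖h (R * Complex.exp (θ * I))‖ ^ 2 /
          Real.log (R ^ 2 / (R ^ 2 - 1)))) θ) ≤ C := by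
  classical
  obtain ⟨F, hFT, hFf, hFK⟩ := hK.elim_finite_subcover_image
    (b := {p : ℂ × ℝ | UpAt p.1 p.2})
    (c := fun p : ℂ × ℝ => {w : ℂ | a * ‖w‖ ^ 2 < (p.1 * w).re - p.2})
    (fun p _ => isOpen_lt (by fun_prop) (by fun_prop))
    (by
      intro ζ hζ
      obtain ⟨t, b, h1, h2⟩ := H ζ hζ
      exact mem_iUnion₂.2 ⟨(t, b), h1, h2⟩)
  have hC : ∀ p : ℂ × ℝ, ∃ C : ℝ, UpAt p.1 p.2 → ∀ ψ h : ℂ → ℂ, Sg ψ h → ∀ R : ℝ, 1 < R →
      (2 * π)⁻¹ * (∫ θ in (0:ℝ)..(2 * π), ‖Complex.exp (p.1 * h (R * Complex.exp (θ * I)))‖) ≤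
        C * (R ^ 2 / (R ^ 2 - 1)) ^ p.2 := by
    intro p
    by_cases hp : UpAt p.1 p.2
    · obtain ⟨C, hC⟩ := hp
      exact ⟨C, fun _ => hC⟩
    · exact ⟨0, fun h => absurd h hp⟩
  choose Cf hCf using hC
  refine ⟨∑ p ∈ hFf.toFinset, Cf p, ?_⟩
  intro ψ h hs R hR
  set Q : ℝ := R ^ 2 / (R ^ 2 - 1) with hQ
  have hQ1 : 1 < Q := one_lt_quot hR
  have hQ0 : 0 < Q := by linarith only [hQ1]
  have hL : 0 < Real.log Q := log_pos' hR
  have hcont := hs.cont hR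
  set g : ℝ → ℝ := fun θ => ∑ p ∈ hFf.toFinset,
    ‖Complex.exp (p.1 * h (R * Complex.exp (θ * I)))‖ * Q ^ (-p.2) with hg
  have hgc : Continuous g := by
    apply continuous_finset_sum
    intro p _
    exact (continuous_norm.comp (Complex.continuous_exp.comp
      (continuous_const.mul hcont))).mul continuous_const
  have hpi : (0:ℝ) ≤ 2 * π := by positivity
  have hpt : ∀ θ : ℝ, {θ : ℝ | h (R * Complex.exp (θ * I)) / (Real.log Q : ℂ) ∈ K}.indicator
      (fun θ : ℝ => Real.exp (a * ‖h (R * Complex.exp (θ * I))‖ ^ 2 / Real.log Q)) θ ≤ g θ := by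
    intro θ
    by_cases hθ : θ ∈ {θ : ℝ | h (R * Complex.exp (θ * I)) / (Real.log Q : ℂ) ∈ K}
    · rw [indicator_of_mem hθ]
      obtain ⟨p, hpF, hp⟩ := mem_iUnion₂.1 (hFK hθ)
      have h0 : a * ‖h (R * Complex.exp (θ * I)) / (Real.log Q : ℂ)‖ ^ 2 <
          (p.1 * (h (R * Complex.exp (θ * I)) / (Real.log Q : ℂ))).re - p.2 := hp
      have h1 : a * ‖h (R * Complex.exp (θ * I))‖ ^ 2 / Real.log Q ≤
          (p.1 * h (R * Complex.exp (θ * I))).re - p.2 * Real.log Q := by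
        have h2 : ‖h (R * Complex.exp (θ * I)) / (Real.log Q : ℂ)‖ =
            ‖h (R * Complex.exp (θ * I))‖ / Real.log Q := by
          rw [norm_div, Complex.norm_real, Real.norm_of_nonneg hL.le]
        have h3 : (p.1 * (h (R * Complex.exp (θ * I)) / (Real.log Q : ℂ))).re =
            (p.1 * h (R * Complex.exp (θ * I))).re / Real.log Q := by
          rw [← mul_div_assoc, Complex.div_ofReal_re]
        rw [h2, h3] at h0
        have h4 := mul_lt_mul_of_pos_right h0 hL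
        have h5 : a * (‖h (R * Complex.exp (θ * I))‖ / Real.log Q) ^ 2 * Real.log Q =
            a * ‖h (R * Complex.exp (θ * I))‖ ^ 2 / Real.log Q := by
          field_simp
        have h6 : ((p.1 * h (R * Complex.exp (θ * I))).re / Real.log Q - p.2) * Real.log Q =
            (p.1 * h (R * Complex.exp (θ * I))).re - p.2 * Real.log Q := by
          (clear * - hL; field_simp)
        rw [h5, h6] at h4
        exact h4.le
      calc Real.exp (a * ‖h (R * Complex.exp (θ * I))‖ ^ 2 / Real.log Q)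
          ≤ Real.exp ((p.1 * h (R * Complex.exp (θ * I))).re - p.2 * Real.log Q) :=
            Real.exp_le_exp.2 h1
        _ = ‖Complex.exp (p.1 * h (R * Complex.exp (θ * I)))‖ * Q ^ (-p.2) := by
            rw [Complex.norm_exp, Real.rpow_def_of_pos hQ0, ← Real.exp_add]
            congr 1
            ring
        _ ≤ g θ := by
            rw [hg]
            exact Finset.single_le_sum (f := fun p : ℂ × ℝ =>
              ‖Complex.exp (p.1 * h (R * Complex.exp (θ * I)))‖ * Q ^ (-p.2))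
              (fun q _ => by (clear * - hQ1; positivity)) (hFf.mem_toFinset.2 hpF)
    · rw [indicator_of_notMem hθ]
      exact Finset.sum_nonneg (fun q _ => by (clear * - hQ1; positivity))
  have h1 : (∫ θ in (0:ℝ)..(2 * π), {θ : ℝ | h (R * Complex.exp (θ * I)) /
      (Real.log Q : ℂ) ∈ K}.indicator
      (fun θ : ℝ => Real.exp (a * ‖h (R * Complex.exp (θ * I))‖ ^ 2 / Real.log Q)) θ) ≤
      ∫ θ in (0:ℝ)..(2 * π), g θ := by
    rw [intervalIntegral.integral_of_le hpi, intervalIntegral.integral_of_le hpi]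
    apply integral_mono_of_nonneg
    · exact Eventually.of_forall fun θ => indicator_nonneg (fun _ _ => (Real.exp_pos _).le) θ
    · exact (hgc.integrableOn_Icc).mono_set Ioc_subset_Icc_self
    · exact Eventually.of_forall hpt
  have h2 : (∫ θ in (0:ℝ)..(2 * π), g θ) = ∑ p ∈ hFf.toFinset,
      (∫ θ in (0:ℝ)..(2 * π), ‖Complex.exp (p.1 * h (R * Complex.exp (θ * I)))‖) * Q ^ (-p.2) := by
    rw [hg, intervalIntegral.integral_finset_sum]
    · apply Finset.sum_congr rfl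
      intro p _
      rw [intervalIntegral.integral_mul_const]
    · intro p _
      exact ((continuous_norm.comp (Complex.continuous_exp.comp
        (continuous_const.mul hcont))).mul continuous_const).intervalIntegrable _ _
  calc (2 * π)⁻¹ * _ ≤ (2 * π)⁻¹ * (∫ θ in (0:ℝ)..(2 * π), g θ) :=
        mul_le_mul_of_nonneg_left h1 (by positivity)
    _ = ∑ p ∈ hFf.toFinset, ((2 * π)⁻¹ *
      (∫ θ in (0:ℝ)..(2 * π), ‖Complex.exp (p.1 * h (R * Complex.exp (θ * I)))‖)) * Q ^ (-p.2) := by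
        rw [h2, Finset.mul_sum]
        exact Finset.sum_congr rfl fun p _ => by ring
    _ ≤ ∑ p ∈ hFf.toFinset, Cf p := by
        apply Finset.sum_le_sum
        intro p hp
        have h3 := hCf p (hFT (hFf.mem_toFinset.1 hp)) ψ h hs R hR
        have h4 : 0 < Q ^ (-p.2) := by (clear * - hQ1; positivity)
        calc _ ≤ (Cf p * Q ^ p.2) * Q ^ (-p.2) := mul_le_mul_of_nonneg_right h3 h4.le
          _ = Cf p := by
            rw [mul_assoc, ← Real.rpow_add hQ0, add_neg_cancel, Real.rpow_zero, mul_one]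

end Pool.Agent.Helper5.TR
end

/- Helper24.K6w.H5.TR.Conv -/
section
set_option autoImplicit false
open Complex MeasureTheory Metric Set Filter Topology
open scoped Real ComplexConjugate

/-! Convexity of the integral means spectrum and the exponents `t ≥ 2`. -/

namespace Pool.Agent.Helper5.TR

theorem UpAt.pos {t : ℂ} {b : ℝ} (H : UpAt t b) :
    ∃ C : ℝ, 0 < C ∧ ∀ ψ h : ℂ → ℂ, Sg ψ h → ∀ R : ℝ, 1 < R →
      (2 * π)⁻¹ * (∫ θ in (0:ℝ)..(2 * π), ‖Complex.exp (t * h (R * Complex.exp (θ * I)))‖) ≤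
        C * (R ^ 2 / (R ^ 2 - 1)) ^ b := by
  obtain ⟨C, hC⟩ := H
  refine ⟨max C 1, lt_of_lt_of_le one_pos (le_max_right _ _), ?_⟩
  intro ψ h hs R hR
  refine (hC ψ h hs R hR).trans ?_
  have : 0 ≤ (R ^ 2 / (R ^ 2 - 1)) ^ b :=
    Real.rpow_nonneg (by linarith only [one_lt_quot hR]) _
  exact mul_le_mul_of_nonneg_right (le_max_left _ _) this

/-- The integral means spectrum is convex (Hölder's inequality). -/
theorem UpAt.convex {t₁ t₂ : ℂ} {b₁ b₂ θ : ℝ} (H₁ : UpAt t₁ b₁) (H₂ : UpAt t₂ b₂) (h0 : 0 ≤ θ)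
    (h1 : θ ≤ 1) : UpAt ((1 - θ : ℝ) * t₁ + (θ : ℝ) * t₂) ((1 - θ) * b₁ + θ * b₂) := by
  obtain ⟨C₁, hC₁, H₁⟩ := H₁.pos
  obtain ⟨C₂, hC₂, H₂⟩ := H₂.pos
  refine ⟨C₁ ^ (1 - θ) * C₂ ^ θ, ?_⟩
  intro ψ h hs R hR
  set X : ℝ := R ^ 2 / (R ^ 2 - 1) with hX
  have hX1 : 1 < X := one_lt_quot hR
  have hX0 : 0 < X := by linarith only [hX1]
  set M₁ : ℝ := C₁ * X ^ b₁ with hM₁
  set M₂ : ℝ := C₂ * X ^ b₂ with hM₂
  have hM₁0 : 0 < M₁ := by (clear * - hC₁ hX1; positivity)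
  have hM₂0 : 0 < M₂ := by positivity
  have h1θ : 0 ≤ 1 - θ := by (clear * - h1; linarith only [h1])
  have hcont := hs.cont hR
  set F : ℝ → ℝ := fun s => ‖Complex.exp (t₁ * h (R * Complex.exp (s * I)))‖ with hF
  set G : ℝ → ℝ := fun s => ‖Complex.exp (t₂ * h (R * Complex.exp (s * I)))‖ with hG
  have hFc : Continuous F := (Complex.continuous_exp.comp (continuous_const.mul hcont)).norm
  have hGc : Continuous G := (Complex.continuous_exp.comp (continuous_const.mul hcont)).norm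
  have hpt : ∀ s : ℝ, ‖Complex.exp (((1 - θ : ℝ) * t₁ + (θ : ℝ) * t₂) *
      h (R * Complex.exp (s * I)))‖ ≤
      M₁ ^ (1 - θ) * M₂ ^ θ * ((1 - θ) * (F s / M₁) + θ * (G s / M₂)) := by
    intro s
    have e1 : ‖Complex.exp (((1 - θ : ℝ) * t₁ + (θ : ℝ) * t₂) * h (R * Complex.exp (s * I)))‖ =
        F s ^ (1 - θ) * G s ^ θ := by
      simp only [hF, hG]
      rw [Complex.norm_exp, Complex.norm_exp, Complex.norm_exp, ← Real.exp_mul, ← Real.exp_mul,
        ← Real.exp_add]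
      congr 1
      rw [add_mul, Complex.add_re, mul_assoc, Complex.re_ofReal_mul, mul_assoc,
        Complex.re_ofReal_mul]
      ring
    have hF0 : 0 ≤ F s := norm_nonneg _
    have hG0 : 0 ≤ G s := norm_nonneg _
    have e2 := Real.geom_mean_le_arith_mean2_weighted h1θ h0 (div_nonneg hF0 hM₁0.le)
      (div_nonneg hG0 hM₂0.le) (by ring)
    have e3 : F s ^ (1 - θ) * G s ^ θ =
        M₁ ^ (1 - θ) * M₂ ^ θ * ((F s / M₁) ^ (1 - θ) * (G s / M₂) ^ θ) := by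
      rw [Real.div_rpow hF0 hM₁0.le, Real.div_rpow hG0 hM₂0.le]
      have : M₁ ^ (1 - θ) ≠ 0 := (Real.rpow_pos_of_pos hM₁0 _).ne'
      have : M₂ ^ θ ≠ 0 := (Real.rpow_pos_of_pos hM₂0 _).ne'
      field_simp
    rw [e1, e3]
    exact mul_le_mul_of_nonneg_left e2 (by (clear * - hC₁ hX1 hC₂; positivity))
  have hI : (∫ s in (0:ℝ)..(2 * π), ‖Complex.exp (((1 - θ : ℝ) * t₁ + (θ : ℝ) * t₂) *
      h (R * Complex.exp (s * I)))‖) ≤
      ∫ s in (0:ℝ)..(2 * π), M₁ ^ (1 - θ) * M₂ ^ θ * ((1 - θ) * (F s / M₁) + θ * (G s / M₂)) := by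
    apply intervalIntegral.integral_mono_on (by positivity)
    · exact (((Complex.continuous_exp.comp (continuous_const.mul hcont)).norm).intervalIntegrable
        _ _)
    · exact (Continuous.intervalIntegrable (by fun_prop) _ _)
    · intro s _
      exact hpt s
  have hJ : (∫ s in (0:ℝ)..(2 * π), M₁ ^ (1 - θ) * M₂ ^ θ *
      ((1 - θ) * (F s / M₁) + θ * (G s / M₂))) =
      M₁ ^ (1 - θ) * M₂ ^ θ * ((1 - θ) * ((∫ s in (0:ℝ)..(2 * π), F s) / M₁) +
        θ * ((∫ s in (0:ℝ)..(2 * π), G s) / M₂)) := by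
    rw [intervalIntegral.integral_const_mul, intervalIntegral.integral_add,
      intervalIntegral.integral_const_mul, intervalIntegral.integral_const_mul,
      intervalIntegral.integral_div, intervalIntegral.integral_div]
    · exact (Continuous.intervalIntegrable (by fun_prop) _ _)
    · exact (Continuous.intervalIntegrable (by fun_prop) _ _)
  have hπ : (0:ℝ) < (2 * π)⁻¹ := by positivity
  have g1 := H₁ ψ h hs R hR
  have g2 := H₂ ψ h hs R hR
  have k1 : (2 * π)⁻¹ * ((∫ s in (0:ℝ)..(2 * π), F s) / M₁) ≤ 1 := by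
    rw [← mul_div_assoc, div_le_one hM₁0]
    exact g1
  have k2 : (2 * π)⁻¹ * ((∫ s in (0:ℝ)..(2 * π), G s) / M₂) ≤ 1 := by
    rw [← mul_div_assoc, div_le_one hM₂0]
    exact g2
  calc (2 * π)⁻¹ * (∫ s in (0:ℝ)..(2 * π), ‖Complex.exp (((1 - θ : ℝ) * t₁ + (θ : ℝ) * t₂) *
      h (R * Complex.exp (s * I)))‖)
      ≤ (2 * π)⁻¹ * (M₁ ^ (1 - θ) * M₂ ^ θ * ((1 - θ) * ((∫ s in (0:ℝ)..(2 * π), F s) / M₁) +
        θ * ((∫ s in (0:ℝ)..(2 * π), G s) / M₂))) := by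
        rw [← hJ]
        exact mul_le_mul_of_nonneg_left hI hπ.le
    _ = M₁ ^ (1 - θ) * M₂ ^ θ * ((1 - θ) * ((2 * π)⁻¹ * ((∫ s in (0:ℝ)..(2 * π), F s) / M₁)) +
        θ * ((2 * π)⁻¹ * ((∫ s in (0:ℝ)..(2 * π), G s) / M₂))) := by ring
    _ ≤ M₁ ^ (1 - θ) * M₂ ^ θ * ((1 - θ) * 1 + θ * 1) := by
        apply mul_le_mul_of_nonneg_left _ (by (clear * - hC₁ hX1 hC₂; positivity))
        exact add_le_add (mul_le_mul_of_nonneg_left k1 h1θ) (mul_le_mul_of_nonneg_left k2 h0)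
    _ = C₁ ^ (1 - θ) * C₂ ^ θ * X ^ ((1 - θ) * b₁ + θ * b₂) := by
        rw [hM₁, hM₂, Real.mul_rpow hC₁.le (by (clear * - hX1; positivity)), Real.mul_rpow hC₂.le (by (clear * - hX1; positivity)),
          ← Real.rpow_mul hX0.le, ← Real.rpow_mul hX0.le, Real.rpow_add hX0]
        rw [mul_comm b₁, mul_comm b₂]
        ring

/-- a larger exponent -/
theorem UpAt.mono {t : ℂ} {b b' : ℝ} (H : UpAt t b) (h : b ≤ b') : UpAt t b' := by
  obtain ⟨C, hC, H⟩ := H.pos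
  refine ⟨C, ?_⟩
  intro ψ g hs R hR
  refine (H ψ g hs R hR).trans ?_
  exact mul_le_mul_of_nonneg_left
    (Real.rpow_le_rpow_of_exponent_le (one_lt_quot hR).le h) hC.le

/-- moments `2 + y`, `y ≥ 0` -/
theorem up_ge {y : ℝ} (hy : 0 ≤ y) : UpAt ((2 + y : ℝ) : ℂ) (1 + y) := by
  obtain ⟨C, hC, H⟩ := up_two.pos
  refine ⟨C, ?_⟩
  intro ψ h hs R hR
  set X : ℝ := R ^ 2 / (R ^ 2 - 1) with hX
  have hX1 : 1 < X := one_lt_quot hR
  have hX0 : 0 < X := by linarith only [hX1]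
  have hcont := hs.cont hR
  have hpt : ∀ s : ℝ, ‖Complex.exp (((2 + y : ℝ) : ℂ) * h (R * Complex.exp (s * I)))‖ ≤
      X ^ y * ‖Complex.exp (2 * h (R * Complex.exp (s * I)))‖ := by
    intro s
    have e1 : ((2 + y : ℝ) : ℂ) * h (R * Complex.exp (s * I)) =
        (y : ℂ) * h (R * Complex.exp (s * I)) + 2 * h (R * Complex.exp (s * I)) := by
      push_cast
      ring
    rw [e1, Complex.exp_add, norm_mul]
    apply mul_le_mul_of_nonneg_right _ (norm_nonneg _)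
    rw [Complex.norm_exp, Real.rpow_def_of_pos hX0, mul_comm (Real.log X)]
    apply Real.exp_le_exp.2
    rw [Complex.re_ofReal_mul]
    apply mul_le_mul_of_nonneg_left _ hy
    exact (Complex.re_le_norm _).trans (hs.le hR s)
  have hI : (∫ s in (0:ℝ)..(2 * π), ‖Complex.exp (((2 + y : ℝ) : ℂ) *
      h (R * Complex.exp (s * I)))‖) ≤
      ∫ s in (0:ℝ)..(2 * π), X ^ y * ‖Complex.exp (2 * h (R * Complex.exp (s * I)))‖ := by
    apply intervalIntegral.integral_mono_on (by positivity)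
    · exact (((Complex.continuous_exp.comp (continuous_const.mul hcont)).norm).intervalIntegrable
        _ _)
    · exact ((continuous_const.mul
        (Complex.continuous_exp.comp (continuous_const.mul hcont)).norm).intervalIntegrable _ _)
    · intro s _
      exact hpt s
  rw [intervalIntegral.integral_const_mul] at hI
  calc (2 * π)⁻¹ * (∫ s in (0:ℝ)..(2 * π), ‖Complex.exp (((2 + y : ℝ) : ℂ) *
      h (R * Complex.exp (s * I)))‖)
      ≤ (2 * π)⁻¹ * (X ^ y * ∫ s in (0:ℝ)..(2 * π),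
        ‖Complex.exp (2 * h (R * Complex.exp (s * I)))‖) :=
        mul_le_mul_of_nonneg_left hI (by positivity)
    _ = X ^ y * ((2 * π)⁻¹ * ∫ s in (0:ℝ)..(2 * π),
        ‖Complex.exp (2 * h (R * Complex.exp (s * I)))‖) := by ring
    _ ≤ X ^ y * (C * X ^ (1:ℝ)) := mul_le_mul_of_nonneg_left (H ψ h hs R hR) (by (clear * - hX1; positivity))
    _ = C * X ^ (1 + y) := by
        rw [Real.rpow_add hX0]
        ring

end Pool.Agent.Helper5.TR
end

/- Helper24.K6w.H5.TR.Comb -/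
section
set_option autoImplicit false
open Complex MeasureTheory Metric Set Filter Topology
open scoped Real ComplexConjugate

/-! The second order of the spectrum at `2`: combination of the bound for real exponents below `2`
(strict), the bound for complex exponents and the exact value for real exponents above `2`. -/

namespace Pool.Agent.Helper5.TR

/-- combination of two exponents -/
theorem UpAt.comb {τ τ₁ τ₂ : ℂ} {b₁ b₂ b θ : ℝ} (H₁ : UpAt (2 - τ₁) b₁) (H₂ : UpAt (2 - τ₂) b₂)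
    (h0 : 0 ≤ θ) (h1 : θ ≤ 1) (hre : τ.re = (1 - θ) * τ₁.re + θ * τ₂.re)
    (him : τ.im = (1 - θ) * τ₁.im + θ * τ₂.im) (hb : (1 - θ) * b₁ + θ * b₂ ≤ b) :
    UpAt (2 - τ) b := by
  have h := (H₁.convex H₂ h0 h1).mono hb
  have e : ((1 - θ : ℝ) : ℂ) * (2 - τ₁) + (θ : ℂ) * (2 - τ₂) = 2 - τ := by
    apply Complex.ext
    · rw [Complex.add_re, Complex.re_ofReal_mul, Complex.re_ofReal_mul, Complex.sub_re,
        Complex.sub_re, Complex.sub_re, hre]
      ring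
    · rw [Complex.add_im, Complex.im_ofReal_mul, Complex.im_ofReal_mul, Complex.sub_im,
        Complex.sub_im, Complex.sub_im, him]
      simp only [Complex.im_ofNat]
      ring
  rwa [e] at h

/-- the sign of a real number, `±1` -/
theorem exists_sign (η : ℝ) : ∃ σ : ℝ, σ ^ 2 = 1 ∧ σ * η = |η| ∧ σ * |η| = η := by
  rcases le_or_gt 0 η with h | h
  · exact ⟨1, by norm_num, by rw [abs_of_nonneg h, one_mul], by rw [abs_of_nonneg h, one_mul]⟩
  · exact ⟨-1, by norm_num, by rw [abs_of_neg h]; ring, by rw [abs_of_neg h]; ring⟩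

theorem second_order {k : ℝ} (hk0 : 0 < k) (hk1 : k < 1)
    (G3 : ∃ d : ℝ, 0 < d ∧ ∀ x : ℝ, 0 < x → x < d →
      UpAt (2 - (x : ℂ)) (1 - x + k ^ 2 / 4 * x ^ 2))
    (G4 : ∀ ε : ℝ, 0 < ε → ∃ d : ℝ, 0 < d ∧ ∀ τ : ℂ, τ ≠ 0 → ‖τ‖ < d →
      UpAt (2 - τ) (1 - τ.re + (1 / 4 + ε) * ‖τ‖ ^ 2)) :
    ∀ ε : ℝ, 0 < ε → ∃ d : ℝ, 0 < d ∧ ∀ τ : ℂ, ‖τ‖ < d → ∀ N : ℝ,
      (∀ g : ℂ, ‖g‖ ≤ 1 → 0 ≤ g.re → g.re ≤ k → (τ * g).re ≤ N) →
      UpAt (2 - τ) (1 - τ.re + N ^ 2 / 4 + ε * ‖τ‖ ^ 2) := by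
  obtain ⟨d₃, hd₃, G3⟩ := G3
  intro ε hε
  obtain ⟨d₄, hd₄, G4a⟩ := G4 ε hε
  obtain ⟨d₅, hd₅, G4b⟩ := G4 (ε / 2) (by positivity)
  set s : ℝ := √(1 - k ^ 2) with hs
  have hk2 : 0 < 1 - k ^ 2 := by nlinarith only [hk0, hk1]
  have hs0 : 0 < s := Real.sqrt_pos.2 hk2
  have hs2 : s ^ 2 = 1 - k ^ 2 := Real.sq_sqrt hk2.le
  set e : ℝ := (ε / 2) / (1 / 4 + ε) with he
  have he0 : 0 < e := by positivity
  have heε : e * (1 / 4 + ε) = ε / 2 := by rw [he]; field_simp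
  refine ⟨min (min (k * d₃) d₄) (min (d₅ / 2) (min e (1 / 2))), by (clear * - hk0 hd₃ hd₄ hd₅ hε; positivity), ?_⟩
  intro τ hτ N hN
  have hτ3 : ‖τ‖ < k * d₃ := hτ.trans_le ((min_le_left _ _).trans (min_le_left _ _))
  have hτ4 : ‖τ‖ < d₄ := hτ.trans_le ((min_le_left _ _).trans (min_le_right _ _))
  have hτ5 : ‖τ‖ < d₅ / 2 := hτ.trans_le ((min_le_right _ _).trans (min_le_left _ _))
  have hτe : ‖τ‖ < e :=
    hτ.trans_le ((min_le_right _ _).trans ((min_le_right _ _).trans (min_le_left _ _)))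
  have hτh : ‖τ‖ < 1 / 2 :=
    hτ.trans_le ((min_le_right _ _).trans ((min_le_right _ _).trans (min_le_right _ _)))
  have hn2 : ‖τ‖ ^ 2 = τ.re ^ 2 + τ.im ^ 2 := by
    rw [← Complex.normSq_eq_norm_sq, Complex.normSq_apply]; ring
  have hnn : 0 ≤ ‖τ‖ := norm_nonneg τ
  obtain ⟨σ, hσ1, hσ2, hσ3⟩ := exists_sign τ.im
  have habs : |τ.im| ^ 2 = τ.im ^ 2 := sq_abs _
  have hab0 : 0 ≤ |τ.im| := abs_nonneg _
  have habn : |τ.im| ≤ ‖τ‖ := Complex.abs_im_le_norm τ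
  have harn : |τ.re| ≤ ‖τ‖ := Complex.abs_re_le_norm τ
  rcases le_or_gt τ.re 0 with h1 | h1
  · -- the left half plane
    have hNim : |τ.im| ≤ N := by
      have := hN ⟨0, -σ⟩ (by
        rw [← Real.sqrt_sq (norm_nonneg _), ← Complex.normSq_eq_norm_sq, Complex.normSq_apply]
        rw [show (0:ℝ) * 0 + -σ * -σ = σ ^ 2 by ring, hσ1, Real.sqrt_one]) le_rfl hk0.le
      rw [Complex.mul_re] at this
      simp only [mul_zero, zero_sub, mul_neg, neg_neg] at this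
      rwa [mul_comm, hσ2] at this
    have hN2 : τ.im ^ 2 ≤ N ^ 2 := by
      rw [← habs]; exact pow_le_pow_left₀ hab0 hNim 2
    by_cases him : τ.im = 0
    · have h2 := up_ge (y := -τ.re) (by linarith only [h1])
      have h3 : ((2 + -τ.re : ℝ) : ℂ) = 2 - τ := by
        apply Complex.ext
        · simp [sub_eq_add_neg]
        · simp [him]
      rw [h3] at h2
      refine h2.mono ?_
      have : 0 ≤ ε * ‖τ‖ ^ 2 := by (clear * - hε; positivity)
      (clear * - this; nlinarith only [this])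
    · set θ : ℝ := 1 + τ.re with hθ
      have hre : -τ.re ≤ ‖τ‖ := (neg_le_abs _).trans harn
      have hθ0 : 1 / 2 < θ := by rw [hθ]; linarith only [hτh, hre]
      have hθ1 : θ ≤ 1 := by rw [hθ]; linarith only [h1]
      have hθp : 0 < θ := by linarith only [hθ0]
      have hz : ‖(⟨0, τ.im / θ⟩ : ℂ)‖ = |τ.im| / θ := by
        rw [← Real.sqrt_sq (norm_nonneg _), ← Complex.normSq_eq_norm_sq, Complex.normSq_apply]
        rw [show (0:ℝ) * 0 + τ.im / θ * (τ.im / θ) = (τ.im / θ) ^ 2 by ring, Real.sqrt_sq_eq_abs,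
          abs_div, abs_of_pos hθp]
      have hz1 : |τ.im| / θ < d₅ := by
        rw [div_lt_iff₀ hθp]
        nlinarith only [hτ5, habn, h1, hre, hθ0]
      have A := up_ge (y := 1) zero_le_one
      have A' : UpAt (2 - (-1 : ℂ)) (1 + 1) := by
        have : (2 - (-1 : ℂ)) = ((2 + 1 : ℝ) : ℂ) := by push_cast; ring
        rw [this]; exact A
      have B := G4b ⟨0, τ.im / θ⟩ (by
        intro h0
        have := congrArg Complex.im h0
        simp only [Complex.zero_im] at this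
        rcases div_eq_zero_iff.1 this with h | h
        · exact him h
        · exact hθp.ne' h) (by rw [hz]; exact hz1)
      apply A'.comb B hθp.le hθ1
      · simp only [Complex.neg_re, Complex.one_re]
        rw [hθ]; ring
      · simp only [Complex.neg_im, Complex.one_im]
        field_simp
        ring
      · rw [hz]
        simp only
        have e1 : θ * (1 - 0 + (1 / 4 + ε / 2) * (|τ.im| / θ) ^ 2) =
            θ + (1 / 4 + ε / 2) * (τ.im ^ 2 / θ) := by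
          rw [div_pow, habs]; field_simp
          ring
        have e2 : (1 / 4 + ε / 2) * (τ.im ^ 2 / θ) ≤ (1 / 4 + ε) * τ.im ^ 2 := by
          rw [← mul_div_assoc, div_le_iff₀ hθp]
          have e3 : 1 / 4 + ε / 2 ≤ (1 / 4 + ε) * θ := by
            rw [hθ]
            nlinarith only [hε, heε, hτe, hre]
          nlinarith only [e3]
        rw [e1]
        have e4 : (1 - θ) * (1 + 1) + θ = 1 - τ.re := by rw [hθ]; ring
        have e5 : ε * τ.im ^ 2 ≤ ε * ‖τ‖ ^ 2 :=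
          mul_le_mul_of_nonneg_left (by rw [hn2]; nlinarith only []) hε.le
        linarith only [hN2, e2, e5]
  · have hτ0 : τ ≠ 0 := by
      intro h; rw [h] at h1; simp at h1
    have hnp : 0 < ‖τ‖ := norm_pos_iff.2 hτ0
    rcases le_or_gt (s * τ.re) (k * |τ.im|) with h2 | h2
    · -- outside the sector
      have hkn : τ.re ≤ k * ‖τ‖ := by
        refine (sq_le_sq₀ h1.le (by positivity)).1 ?_
        rw [mul_pow, hn2]
        have : (s * τ.re) ^ 2 ≤ (k * |τ.im|) ^ 2 := pow_le_pow_left₀ (by (clear * - hk2 h1; positivity)) h2 2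
        rw [mul_pow, mul_pow, habs, hs2] at this
        linarith only [this]
      have hNn : ‖τ‖ ≤ N := by
        have h3 := hN (conj τ / ‖τ‖) (by
          rw [norm_div, Complex.norm_conj, Complex.norm_real, norm_norm, div_self hnp.ne'])
          (by rw [Complex.div_ofReal_re, Complex.conj_re]; (clear * - h1 hτ0; positivity))
          (by rw [Complex.div_ofReal_re, Complex.conj_re, div_le_iff₀ hnp]; exact hkn)
        have h4 : τ * (conj τ / ‖τ‖) = ((‖τ‖ : ℝ) : ℂ) := by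
          rw [← mul_div_assoc, Complex.mul_conj, Complex.normSq_eq_norm_sq]
          have : (‖τ‖ : ℂ) ≠ 0 := by exact_mod_cast hnp.ne'
          push_cast
          field_simp
        rw [h4, Complex.ofReal_re] at h3
        exact h3
      refine (G4a τ hτ0 hτ4).mono ?_
      have : ‖τ‖ ^ 2 ≤ N ^ 2 := pow_le_pow_left₀ hnn hNn 2
      linarith only [this]
    · -- in the sector
      set P : ℝ := k * τ.re + s * |τ.im| with hP
      have hP0 : 0 < P := by (clear * - hk0 h1 hk2; positivity)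
      have hPn : P ≤ ‖τ‖ := by
        refine (sq_le_sq₀ hP0.le hnn).1 ?_
        rw [hn2, hP, ← habs]
        have : (k * |τ.im| - s * τ.re) ^ 2 ≥ 0 := sq_nonneg _
        nlinarith only [hs2, this]
      have hPN : P ≤ N := by
        have h3 := hN ⟨k, -(σ * s)⟩ (by
          rw [← Real.sqrt_sq (norm_nonneg _), ← Complex.normSq_eq_norm_sq, Complex.normSq_apply]
          rw [show k * k + -(σ * s) * -(σ * s) = k ^ 2 + σ ^ 2 * s ^ 2 by ring, hσ1, hs2]
          rw [show k ^ 2 + 1 * (1 - k ^ 2) = 1 by ring, Real.sqrt_one]) hk0.le le_rfl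
        rw [Complex.mul_re] at h3
        simp only at h3
        have h4 : τ.im * (-(σ * s)) = -(s * |τ.im|) := by
          rw [← hσ2]; ring
        rw [h4] at h3
        rw [hP]; linarith only [h3]
      have hP2 : P ^ 2 ≤ N ^ 2 := pow_le_pow_left₀ hP0.le hPN 2
      have hP3 : P ^ 2 ≤ ‖τ‖ ^ 2 := pow_le_pow_left₀ hP0.le hPn 2
      set θ : ℝ := |τ.im| / (s * P) with hθ
      have hsP : 0 < s * P := by (clear * - hk2 hk0 h1; positivity)
      have hθ0 : 0 ≤ θ := by (clear * - hk2 hk0 h1; positivity)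
      have hθ1 : θ ≤ 1 := by
        rw [hθ, div_le_one hsP, hP]
        have : s * (k * τ.re + s * |τ.im|) = k * (s * τ.re) + s ^ 2 * |τ.im| := by ring
        rw [this, hs2]
        nlinarith only [hk0, h2]
      have hθm : θ * (s * P) = |τ.im| := by rw [hθ]; (clear * - hs0 hP0; field_simp)
      have hzn : ‖(⟨P * k, P * (σ * s)⟩ : ℂ)‖ = P := by
        rw [← Real.sqrt_sq (norm_nonneg _), ← Complex.normSq_eq_norm_sq, Complex.normSq_apply]
        rw [show P * k * (P * k) + P * (σ * s) * (P * (σ * s)) =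
          P ^ 2 * (k ^ 2 + σ ^ 2 * s ^ 2) by ring, hσ1, hs2]
        rw [show P ^ 2 * (k ^ 2 + 1 * (1 - k ^ 2)) = P ^ 2 by ring, Real.sqrt_sq hP0.le]
      have A := G3 (P / k) (by (clear * - hk0 h1 hk2; positivity)) (by
        rw [div_lt_iff₀ hk0]; linarith only [hτ3, hPn])
      have B := G4a ⟨P * k, P * (σ * s)⟩ (by
        intro h0
        have := congrArg Complex.re h0
        simp only [Complex.zero_re] at this
        rcases mul_eq_zero.1 this with h | h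
        · exact hP0.ne' h
        · exact hk0.ne' h) (by rw [hzn]; exact lt_of_le_of_lt hPn hτ4)
      apply A.comb B hθ0 hθ1
      · rw [Complex.ofReal_re]
        simp only
        have e1 : (1 - θ) * (P / k) + θ * (P * k) = (P - θ * (s * P) * s) / k := by
          field_simp
          rw [hs2]
          ring
        rw [e1, hθm, hP]
        field_simp
        ring
      · rw [Complex.ofReal_im]
        simp only
        have e1 : (1 - θ) * 0 + θ * (P * (σ * s)) = σ * (θ * (s * P)) := by ring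
        rw [e1, hθm, hσ3]
      · rw [hzn]
        simp only
        have e1 : (1 - θ) * (P / k) + θ * (P * k) = τ.re := by
          have e2 : (1 - θ) * (P / k) + θ * (P * k) = (P - θ * (s * P) * s) / k := by
            field_simp
            rw [hs2]
            ring
          rw [e2, hθm, hP]
          field_simp
          ring
        have e3 : (1 - θ) * (1 - P / k + k ^ 2 / 4 * (P / k) ^ 2) +
            θ * (1 - P * k + (1 / 4 + ε) * P ^ 2) =
            1 - ((1 - θ) * (P / k) + θ * (P * k)) + P ^ 2 / 4 + θ * (ε * P ^ 2) := by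
          field_simp
          ring
        rw [e3, e1]
        have e4 : θ * (ε * P ^ 2) ≤ 1 * (ε * P ^ 2) :=
          mul_le_mul_of_nonneg_right hθ1 (by (clear * - hε hk0 h1 hk2; positivity))
        have e5 : ε * P ^ 2 ≤ ε * ‖τ‖ ^ 2 := mul_le_mul_of_nonneg_left hP3 hε.le
        linarith only [hP2, e4, e5]

end Pool.Agent.Helper5.TR
end

/- Helper24.K6w.H97.EKC.Spiral -/
section
/-!
MP_16b0ee, project EKC: the logarithmic spiral maps `z (1 - 1/z)^(1+u)`, `|u| = 1`, are univalent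
on `|z| > 1`.
-/

set_option autoImplicit false

open Complex MeasureTheory Metric Set
open scoped Real ComplexConjugate

namespace Pool.Agent.Helper97.EKC

section realIneq

theorem mul_cos_le_sin {y : ℝ} (h0 : 0 ≤ y) (h1 : y ≤ π) : y * Real.cos y ≤ Real.sin y := by
  have hd : ∀ t : ℝ, HasDerivAt (fun t => Real.sin t - t * Real.cos t) (t * Real.sin t) t := by
    intro t
    have h := (Real.hasDerivAt_sin t).sub ((hasDerivAt_id t).mul (Real.hasDerivAt_cos t))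
    refine h.congr_deriv ?_
    simp only [id]
    ring
  have hm : MonotoneOn (fun t => Real.sin t - t * Real.cos t) (Icc 0 π) := by
    refine monotoneOn_of_deriv_nonneg (convex_Icc _ _) ?_ ?_ ?_
    · exact fun t _ => (hd t).continuousAt.continuousWithinAt
    · exact fun t _ => (hd t).differentiableAt.differentiableWithinAt
    · intro t ht
      rw [interior_Icc] at ht
      rw [(hd t).deriv]
      exact mul_nonneg ht.1.le (Real.sin_nonneg_of_nonneg_of_le_pi ht.1.le ht.2.le)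
  have h := hm (left_mem_Icc.2 Real.pi_pos.le) ⟨h0, h1⟩ h0
  simp only [Real.sin_zero, zero_mul, sub_zero] at h
  linarith only [h]

theorem trigA {x y : ℝ} (_hx : 0 ≤ x) (h0 : 0 ≤ y) (h1 : y ≤ π) :
    y * Real.cos y ≤ y * Real.exp (-x) + x * Real.sin y := by
  have hs := mul_cos_le_sin h0 h1
  have hs0 := Real.sin_nonneg_of_nonneg_of_le_pi h0 h1
  have hsy := Real.sin_le h0
  have he := Real.exp_pos (-x)
  rcases le_or_gt x 1 with h | h
  · have h2 : 1 - x ≤ Real.exp (-x) := by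
      have := Real.add_one_le_exp (-x)
      (clear * - this; linarith only [this])
    have h3 : y * (1 - x) ≤ y * Real.exp (-x) := mul_le_mul_of_nonneg_left h2 h0
    have h4 : Real.sin y * (1 - x) ≤ y * (1 - x) := mul_le_mul_of_nonneg_right hsy (by (clear * - h; linarith))
    linarith only [hs, h3, h4]
  · have h3 : 0 ≤ y * Real.exp (-x) := mul_nonneg h0 he.le
    (clear * - hs h3 hs0 h; nlinarith only [hs, hs0, h, h3])

theorem trigB {x y : ℝ} (hx : 0 ≤ x) (h0 : 0 ≤ y) :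
    x * Real.sin y + y * Real.cos y ≤ y * Real.exp x := by
  have hsy := Real.sin_le h0
  have hc := Real.cos_le_one y
  have h2 : 1 + x ≤ Real.exp x := by
    have := Real.add_one_le_exp x
    (clear * - this; linarith only [this])
  have h3 : y * (1 + x) ≤ y * Real.exp x := mul_le_mul_of_nonneg_left h2 h0
  have h4 : x * Real.sin y ≤ x * y := mul_le_mul_of_nonneg_left hsy hx
  have h5 : y * Real.cos y ≤ y * 1 := mul_le_mul_of_nonneg_left hc h0
  (clear * - h3 h4 h5; linarith only [h3, h4, h5])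

/-- `cosh x - cos y` on a circle -/
noncomputable def DD (R θ : ℝ) : ℝ := Real.cosh (R * Real.cos θ) - Real.cos (R * Real.sin θ)

theorem hasDerivAt_DD (R θ : ℝ) : HasDerivAt (DD R)
    (- (R * Real.sin θ) * Real.sinh (R * Real.cos θ) +
      R * Real.cos θ * Real.sin (R * Real.sin θ)) θ := by
  have h1 := ((Real.hasDerivAt_cos θ).const_mul R).cosh
  have h2 := ((Real.hasDerivAt_sin θ).const_mul R).cos
  refine (h1.sub h2).congr_deriv ?_
  ring

theorem keyA {R θ θ' : ℝ} (hR : 0 ≤ R) (h0 : 0 ≤ θ') (h1 : θ' ≤ θ) (h2 : θ ≤ π / 2)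
    (h3 : R * Real.sin θ ≤ π) :
    DD R θ' * Real.exp (-(R * Real.cos θ')) ≤ DD R θ * Real.exp (-(R * Real.cos θ)) := by
  have hpi := Real.pi_pos
  have hd : ∀ t : ℝ, HasDerivAt (fun t => DD R t * Real.exp (-(R * Real.cos t)))
      (Real.exp (-(R * Real.cos t)) * (R * Real.sin t * Real.exp (-(R * Real.cos t)) +
        R * Real.cos t * Real.sin (R * Real.sin t) -
        R * Real.sin t * Real.cos (R * Real.sin t))) t := by
    intro t
    have e1 := (((Real.hasDerivAt_cos t).const_mul R).neg).exp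
    refine ((hasDerivAt_DD R t).mul e1).congr_deriv ?_
    have e2 : Real.sinh (R * Real.cos t) =
        Real.cosh (R * Real.cos t) - Real.exp (-(R * Real.cos t)) := by
      have := Real.cosh_sub_sinh (R * Real.cos t)
      linarith only [this]
    rw [e2]
    unfold DD
    simp only [Pi.neg_apply]
    ring
  have hm : MonotoneOn (fun t => DD R t * Real.exp (-(R * Real.cos t))) (Icc 0 θ) := by
    refine monotoneOn_of_deriv_nonneg (convex_Icc _ _) ?_ ?_ ?_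
    · exact fun t _ => (hd t).continuousAt.continuousWithinAt
    · exact fun t _ => (hd t).differentiableAt.differentiableWithinAt
    · intro t ht
      rw [interior_Icc] at ht
      rw [(hd t).deriv]
      refine mul_nonneg (Real.exp_pos _).le ?_
      have hc : 0 ≤ Real.cos t := Real.cos_nonneg_of_neg_pi_div_two_le_of_le
        (by linarith only [ht.1, hpi]) (by (clear * - ht h2; linarith only [ht.2, h2]))
      have hs : 0 ≤ Real.sin t := Real.sin_nonneg_of_nonneg_of_le_pi ht.1.le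
        (by linarith only [ht.2, h0, h1, h2])
      have hss : Real.sin t ≤ Real.sin θ := Real.sin_le_sin_of_le_of_le_pi_div_two
        (by (clear * - hpi ht; linarith [ht.1])) h2 ht.2.le
      have := trigA (mul_nonneg hR hc) (mul_nonneg hR hs)
        ((mul_le_mul_of_nonneg_left hss hR).trans h3)
      (clear * - this; linarith)
  exact hm ⟨h0, h1⟩ ⟨h0.trans h1, le_rfl⟩ h1

theorem keyB {R θ θ' : ℝ} (hR : 0 ≤ R) (h0 : 0 ≤ θ) (h1 : θ ≤ θ') (h2 : θ' ≤ π / 2) :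
    DD R θ' * Real.exp (R * Real.cos θ') ≤ DD R θ * Real.exp (R * Real.cos θ) := by
  have hpi := Real.pi_pos
  have hd : ∀ t : ℝ, HasDerivAt (fun t => DD R t * Real.exp (R * Real.cos t))
      (Real.exp (R * Real.cos t) * (R * Real.cos t * Real.sin (R * Real.sin t) +
        R * Real.sin t * Real.cos (R * Real.sin t) - R * Real.sin t * Real.exp (R * Real.cos t)))
      t := by
    intro t
    have e1 := ((Real.hasDerivAt_cos t).const_mul R).exp
    refine ((hasDerivAt_DD R t).mul e1).congr_deriv ?_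
    have e2 : Real.sinh (R * Real.cos t) =
        Real.exp (R * Real.cos t) - Real.cosh (R * Real.cos t) := by
      have := Real.cosh_add_sinh (R * Real.cos t)
      linarith only [this]
    rw [e2]
    unfold DD
    ring
  have hm : AntitoneOn (fun t => DD R t * Real.exp (R * Real.cos t)) (Icc 0 (π / 2)) := by
    refine antitoneOn_of_deriv_nonpos (convex_Icc _ _) ?_ ?_ ?_
    · exact fun t _ => (hd t).continuousAt.continuousWithinAt
    · exact fun t _ => (hd t).differentiableAt.differentiableWithinAt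
    · intro t ht
      rw [interior_Icc] at ht
      rw [(hd t).deriv]
      refine mul_nonpos_of_nonneg_of_nonpos (Real.exp_pos _).le ?_
      have hc : 0 ≤ Real.cos t := Real.cos_nonneg_of_neg_pi_div_two_le_of_le
        (by (clear * - hpi ht; linarith [ht.1])) (by linarith only [ht.2])
      have hs : 0 ≤ Real.sin t := Real.sin_nonneg_of_nonneg_of_le_pi ht.1.le
        (by (clear * - ht hpi; linarith only [ht.2, hpi]))
      have := trigB (mul_nonneg hR hc) (mul_nonneg hR hs)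
      (clear * - this; linarith)
  exact hm ⟨h0, h1.trans h2⟩ ⟨h0.trans h1, h2⟩ h1

theorem polar (x y : ℝ) : ∃ θ : ℝ, 0 ≤ θ ∧ θ ≤ π / 2 ∧
    √(x ^ 2 + y ^ 2) * Real.cos θ = |x| ∧ √(x ^ 2 + y ^ 2) * Real.sin θ = |y| := by
  obtain ⟨w, hw⟩ : ∃ w : ℂ, w = ⟨|x|, |y|⟩ := ⟨_, rfl⟩
  have hn : ‖w‖ = √(x ^ 2 + y ^ 2) := by
    rw [Complex.norm_def, Complex.normSq_apply, hw]
    congr 1
    simp only
    rw [abs_mul_abs_self, abs_mul_abs_self]
    ring
  refine ⟨Complex.arg w, ?_, ?_, ?_, ?_⟩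
  · rw [Complex.arg_nonneg_iff, hw]
    exact abs_nonneg _
  · refine (Complex.arg_le_pi_div_two_iff).2 (Or.inl ?_)
    rw [hw]
    exact abs_nonneg _
  · rw [← hn, Complex.norm_mul_cos_arg, hw]
  · rw [← hn, Complex.norm_mul_sin_arg, hw]

/-- the main inequality -/
theorem main_ineq {x y x' y' : ℝ} (h : x ^ 2 + y ^ 2 = x' ^ 2 + y' ^ 2) (hy : |y| ≤ π) :
    Real.cosh x' - Real.cos y' ≤ Real.exp |x + x'| * (Real.cosh x - Real.cos y) := by
  obtain ⟨θ, a0, a1, a2, a3⟩ := polar x y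
  obtain ⟨θ', b0, b1, b2, b3⟩ := polar x' y'
  rw [← h] at b2 b3
  obtain ⟨R, hR⟩ : ∃ R : ℝ, R = √(x ^ 2 + y ^ 2) := ⟨_, rfl⟩
  rw [← hR] at a2 a3 b2 b3
  have hR0 : 0 ≤ R := by rw [hR]; exact Real.sqrt_nonneg _
  have hD : Real.cosh x - Real.cos y = DD R θ := by
    unfold DD
    rw [a2, a3, Real.cosh_abs, Real.cos_abs]
  have hD' : Real.cosh x' - Real.cos y' = DD R θ' := by
    unfold DD
    rw [b2, b3, Real.cosh_abs, Real.cos_abs]
  have hD0 : 0 ≤ DD R θ := by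
    rw [← hD]
    linarith only [Real.one_le_cosh x, Real.cos_le_one y]
  rw [hD, hD']
  have ht1 : |x'| - |x| ≤ |x + x'| := by
    have := abs_sub_abs_le_abs_sub x' (-x)
    rw [abs_neg] at this
    rw [show x' - -x = x + x' by ring] at this
    exact this
  have ht2 : |x| - |x'| ≤ |x + x'| := by
    have := abs_sub_abs_le_abs_sub x (-x')
    rw [abs_neg] at this
    rw [show x - -x' = x + x' by ring] at this
    exact this
  rcases le_total θ' θ with hc | hc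
  · have hk := keyA hR0 b0 hc a1 (by rw [a3]; exact hy)
    rw [a2, b2] at hk
    have h5 : DD R θ' ≤ DD R θ * Real.exp (|x'| - |x|) := by
      have h6 := mul_le_mul_of_nonneg_right hk (Real.exp_pos |x'|).le
      rw [mul_assoc, mul_assoc, ← Real.exp_add, ← Real.exp_add] at h6
      rw [show -|x'| + |x'| = 0 by ring, Real.exp_zero, mul_one] at h6
      rw [show |x'| - |x| = -|x| + |x'| by ring]
      exact h6
    calc DD R θ' ≤ DD R θ * Real.exp (|x'| - |x|) := h5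
      _ ≤ DD R θ * Real.exp |x + x'| :=
        mul_le_mul_of_nonneg_left (Real.exp_le_exp.2 ht1) hD0
      _ = _ := mul_comm _ _
  · have hk := keyB hR0 a0 hc b1
    rw [a2, b2] at hk
    have h5 : DD R θ' ≤ DD R θ * Real.exp (|x| - |x'|) := by
      have h6 := mul_le_mul_of_nonneg_right hk (Real.exp_pos (-|x'|)).le
      rw [mul_assoc, mul_assoc, ← Real.exp_add, ← Real.exp_add] at h6
      rw [show |x'| + -|x'| = 0 by ring, Real.exp_zero, mul_one] at h6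
      rw [show |x| - |x'| = |x| + -|x'| by ring]
      exact h6
    calc DD R θ' ≤ DD R θ * Real.exp (|x| - |x'|) := h5
      _ ≤ DD R θ * Real.exp |x + x'| :=
        mul_le_mul_of_nonneg_left (Real.exp_le_exp.2 ht2) hD0
      _ = _ := mul_comm _ _

end realIneq

section complexIneq

theorem normSq_exp_sub_one (w : ℂ) :
    ‖Complex.exp w - 1‖ ^ 2 = 2 * Real.exp w.re * (Real.cosh w.re - Real.cos w.im) := by
  rw [← Complex.normSq_eq_norm_sq, Complex.normSq_apply, Complex.sub_re, Complex.sub_im,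
    Complex.exp_re, Complex.exp_im, Complex.one_re, Complex.one_im, Real.cosh_eq]
  have h1 := Real.sin_sq_add_cos_sq w.im
  have h2 : Real.exp w.re * Real.exp (-w.re) = 1 := by
    rw [← Real.exp_add]; simp
  have h3 : Real.exp w.re * Real.exp w.re * (Real.sin w.im ^ 2 + Real.cos w.im ^ 2) =
      Real.exp w.re * Real.exp w.re := by rw [h1, mul_one]
  linear_combination h3 - h2

/-- no non-trivial solution of the two strict inequalities -/
theorem no_pair {A u : ℂ} (hu : ‖u‖ = 1) (hA : |A.im| ≤ π)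
    (h1 : ‖Complex.exp (-A) - 1‖ < ‖Complex.exp (u * A) - 1‖)
    (h2 : ‖Complex.exp A - 1‖ < ‖Complex.exp (-(u * A)) - 1‖) : False := by
  have e1 : ‖Complex.exp (-A) - 1‖ ^ 2 < ‖Complex.exp (u * A) - 1‖ ^ 2 :=
    pow_lt_pow_left₀ h1 (norm_nonneg _) two_ne_zero
  have e2 : ‖Complex.exp A - 1‖ ^ 2 < ‖Complex.exp (-(u * A)) - 1‖ ^ 2 :=
    pow_lt_pow_left₀ h2 (norm_nonneg _) two_ne_zero
  rw [normSq_exp_sub_one, normSq_exp_sub_one] at e1 e2
  simp only [Complex.neg_re, Complex.neg_im, Real.cosh_neg, Real.cos_neg] at e1 e2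
  obtain ⟨x', hx'⟩ : ∃ x' : ℝ, x' = (u * A).re := ⟨_, rfl⟩
  obtain ⟨y', hy'⟩ : ∃ y' : ℝ, y' = (u * A).im := ⟨_, rfl⟩
  rw [← hx', ← hy'] at e1 e2
  have hn : A.re ^ 2 + A.im ^ 2 = x' ^ 2 + y' ^ 2 := by
    have n1 : ‖u * A‖ ^ 2 = ‖A‖ ^ 2 := by rw [norm_mul, hu, one_mul]
    rw [← Complex.normSq_eq_norm_sq, ← Complex.normSq_eq_norm_sq, Complex.normSq_apply,
      Complex.normSq_apply, ← hx', ← hy'] at n1
    linarith only [n1]
  have hm := main_ineq hn hA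
  obtain ⟨D, hD⟩ : ∃ D : ℝ, D = Real.cosh A.re - Real.cos A.im := ⟨_, rfl⟩
  obtain ⟨D', hD'⟩ : ∃ D' : ℝ, D' = Real.cosh x' - Real.cos y' := ⟨_, rfl⟩
  rw [← hD, ← hD'] at e1 e2 hm
  have p1 := Real.exp_pos x'
  have p2 := Real.exp_pos (-x')
  have q1 : Real.exp (-(A.re + x')) * D < D' := by
    have h5 : Real.exp (-A.re) * D < Real.exp x' * D' := by linarith only [e1]
    have h6 := mul_lt_mul_of_pos_left h5 p2
    rw [← mul_assoc, ← mul_assoc, ← Real.exp_add, ← Real.exp_add] at h6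
    rw [show -x' + x' = 0 by ring, Real.exp_zero, one_mul] at h6
    rw [show -(A.re + x') = -x' + -A.re by ring]
    exact h6
  have q2 : Real.exp (A.re + x') * D < D' := by
    have h5 : Real.exp A.re * D < Real.exp (-x') * D' := by (clear * - e2; linarith only [e2])
    have h6 := mul_lt_mul_of_pos_left h5 p1
    rw [← mul_assoc, ← mul_assoc, ← Real.exp_add, ← Real.exp_add] at h6
    rw [show x' + -x' = 0 by ring, Real.exp_zero, one_mul] at h6
    rw [show A.re + x' = x' + A.re by ring]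
    exact h6
  rcases abs_cases (A.re + x') with h | h
  · rw [h.1] at hm
    (clear * - hm q2; linarith)
  · rw [h.1] at hm
    (clear * - hm q1; linarith)

end complexIneq

section maps

variable {u : ℂ}

/-- the spiral map -/
noncomputable def psi (u z : ℂ) : ℂ := z * Complex.exp ((1 + u) * Complex.log (1 - z⁻¹))

/-- the logarithm of its derivative -/
noncomputable def hh (u z : ℂ) : ℂ :=
  u * Complex.log (1 - z⁻¹) + Complex.log (1 + u * z⁻¹)

theorem re_pos_of {w : ℂ} (hw : ‖w‖ < 1) : 0 < (1 - w).re := by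
  have := (Complex.re_le_norm w).trans_lt hw
  rw [Complex.sub_re, Complex.one_re]
  linarith

theorem norm_inv_lt {z : ℂ} (hz : 1 < ‖z‖) : ‖z⁻¹‖ < 1 := by
  rw [norm_inv]
  exact inv_lt_one_of_one_lt₀ hz

theorem re_pos1 {z : ℂ} (hz : 1 < ‖z‖) : 0 < (1 - z⁻¹).re := re_pos_of (norm_inv_lt hz)

theorem re_pos2 {z : ℂ} (hu : ‖u‖ = 1) (hz : 1 < ‖z‖) : 0 < (1 + u * z⁻¹).re := by
  have h := re_pos_of (w := -(u * z⁻¹)) (by
    rw [norm_neg, norm_mul, hu, one_mul]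
    exact norm_inv_lt hz)
  rwa [sub_neg_eq_add] at h

theorem ne_zero_of {z : ℂ} (hz : 1 < ‖z‖) : z ≠ 0 := by
  intro h
  rw [h, norm_zero] at hz
  linarith

theorem psi_injOn (hu : ‖u‖ = 1) : InjOn (psi u) {z : ℂ | 1 < ‖z‖} := by
  intro z₁ h₁ z₂ h₂ he
  have hz1 : 1 < ‖z₁‖ := h₁
  have hz2 : 1 < ‖z₂‖ := h₂
  obtain ⟨a, ha⟩ : ∃ a : ℂ, a = z₁⁻¹ := ⟨_, rfl⟩
  obtain ⟨b, hb⟩ : ∃ b : ℂ, b = z₂⁻¹ := ⟨_, rfl⟩
  have ha1 : ‖a‖ < 1 := by rw [ha]; exact norm_inv_lt hz1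
  have hb1 : ‖b‖ < 1 := by rw [hb]; exact norm_inv_lt hz2
  have ha0 : a ≠ 0 := by rw [ha]; exact inv_ne_zero (ne_zero_of hz1)
  have hb0 : b ≠ 0 := by rw [hb]; exact inv_ne_zero (ne_zero_of hz2)
  unfold psi at he
  rw [← ha, ← hb, show z₁ = a⁻¹ by rw [ha, inv_inv], show z₂ = b⁻¹ by rw [hb, inv_inv]] at he
  have pa := re_pos_of ha1
  have pb := re_pos_of hb1
  have na : (1 - a) ≠ 0 := by
    intro h
    rw [h, Complex.zero_re] at pa
    exact lt_irrefl _ pa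
  have nb : (1 - b) ≠ 0 := by
    intro h
    rw [h, Complex.zero_re] at pb
    exact lt_irrefl _ pb
  obtain ⟨A, hA⟩ : ∃ A : ℂ, A = Complex.log (1 - a) - Complex.log (1 - b) := ⟨_, rfl⟩
  have hAim : |A.im| < π := by
    rw [hA, Complex.sub_im, Complex.log_im, Complex.log_im]
    have t1 := Complex.abs_arg_lt_pi_div_two_iff.2 (Or.inl pa)
    have t2 := Complex.abs_arg_lt_pi_div_two_iff.2 (Or.inl pb)
    rw [abs_lt] at t1 t2 ⊢
    constructor <;> (clear * - t1 t2; linarith only [t1, t2])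
  have eA : Complex.exp A * (1 - b) = 1 - a := by
    rw [hA, Complex.exp_sub, Complex.exp_log na, Complex.exp_log nb]
    field_simp
  have eB : Complex.exp ((1 + u) * A) * b = a := by
    have e1 : (1 + u) * A = (1 + u) * Complex.log (1 - a) - (1 + u) * Complex.log (1 - b) := by
      rw [hA]; ring
    rw [e1, Complex.exp_sub]
    have nE := Complex.exp_ne_zero ((1 + u) * Complex.log (1 - b))
    field_simp at he ⊢
    exact he
  have eu : Complex.exp ((1 + u) * A) = Complex.exp A * Complex.exp (u * A) := by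
    rw [← Complex.exp_add]; congr 1; ring
  rw [eu] at eB
  have nA := Complex.exp_ne_zero A
  have nU := Complex.exp_ne_zero (u * A)
  have k1 : Complex.exp (-A) - 1 = (Complex.exp (u * A) - 1) * b := by
    rw [Complex.exp_neg]
    field_simp
    linear_combination (-1 : ℂ) * eA - eB
  have k2 : Complex.exp A - 1 = (Complex.exp (-(u * A)) - 1) * a := by
    rw [Complex.exp_neg]
    field_simp
    rw [← eB] at eA ⊢
    linear_combination (Complex.exp (u * A)) * eA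
  by_cases h0 : Complex.exp (u * A) = 1
  · rw [h0, sub_self, zero_mul, Complex.exp_neg, sub_eq_zero, inv_eq_one] at k1
    have : A = 0 := by
      rw [Complex.exp_eq_one_iff] at k1
      obtain ⟨n, hn⟩ := k1
      have h4 := congrArg Complex.im hn
      have h5 : A.im = 2 * π * n := by
        rw [h4]
        simp
        ring
      rw [h5] at hAim
      have hn0 : n = 0 := by
        by_contra hne
        have h6 : (1 : ℝ) ≤ |(n : ℝ)| := by
          have := Int.one_le_abs hne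
          exact_mod_cast this
        rw [abs_mul, abs_of_pos (by positivity : (0:ℝ) < 2 * π)] at hAim
        (clear * - hAim h6; nlinarith only [Real.pi_pos, hAim, h6])
      rw [hn, hn0]
      simp
    rw [this, mul_zero, Complex.exp_zero, one_mul, one_mul] at eB
    have : z₁⁻¹ = z₂⁻¹ := by rw [← ha, ← hb, eB]
    exact inv_injective this
  · exfalso
    have h0' : Complex.exp (-(u * A)) ≠ 1 := by
      rw [Complex.exp_neg]
      intro h
      exact h0 (inv_eq_one.1 h)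
    refine no_pair hu hAim.le ?_ ?_
    · rw [k1, norm_mul]
      exact mul_lt_of_lt_one_right (norm_pos_iff.2 (sub_ne_zero.2 h0)) hb1
    · rw [k2, norm_mul]
      exact mul_lt_of_lt_one_right (norm_pos_iff.2 (sub_ne_zero.2 h0')) ha1

theorem hasDerivAt_psi {z : ℂ} (hu : ‖u‖ = 1) (hz : 1 < ‖z‖) :
    HasDerivAt (psi u) (Complex.exp (hh u z)) z := by
  have h0 := ne_zero_of hz
  have p1 := re_pos1 hz
  have p2 := re_pos2 (u := u) hu hz
  have n1 : (1 - z⁻¹) ≠ 0 := by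
    intro h
    rw [h, Complex.zero_re] at p1
    exact lt_irrefl _ p1
  have n2 : (1 + u * z⁻¹) ≠ 0 := by
    intro h
    rw [h, Complex.zero_re] at p2
    exact lt_irrefl _ p2
  have d1 : HasDerivAt (fun z : ℂ => Complex.log (1 - z⁻¹)) (-(-(z ^ 2)⁻¹) / (1 - z⁻¹)) z :=
    ((hasDerivAt_inv h0).const_sub 1).clog (Or.inl p1)
  have d2 := (hasDerivAt_id z).mul ((d1.const_mul (1 + u)).cexp)
  refine d2.congr_deriv ?_
  unfold hh
  have e1 : Complex.exp (u * Complex.log (1 - z⁻¹) + Complex.log (1 + u * z⁻¹)) =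
      Complex.exp (u * Complex.log (1 - z⁻¹)) * (1 + u * z⁻¹) := by
    rw [Complex.exp_add, Complex.exp_log n2]
  have e2 : Complex.exp ((1 + u) * Complex.log (1 - z⁻¹)) =
      (1 - z⁻¹) * Complex.exp (u * Complex.log (1 - z⁻¹)) := by
    rw [add_mul, one_mul, Complex.exp_add, Complex.exp_log n1]
  rw [e1, e2]
  simp only [id]
  have n3 : z - 1 ≠ 0 := by
    intro h
    apply n1
    rw [sub_eq_zero.1 h]
    simp
  field_simp
  ring

theorem hasDerivAt_hh {z : ℂ} (hu : ‖u‖ = 1) (hz : 1 < ‖z‖) :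
    ∃ d, HasDerivAt (hh u) d z := by
  have h0 := ne_zero_of hz
  have p1 := re_pos1 hz
  have p2 := re_pos2 (u := u) hu hz
  have d1 : HasDerivAt (fun z : ℂ => Complex.log (1 - z⁻¹)) (-(-(z ^ 2)⁻¹) / (1 - z⁻¹)) z :=
    ((hasDerivAt_inv h0).const_sub 1).clog (Or.inl p1)
  have d2 : HasDerivAt (fun z : ℂ => Complex.log (1 + u * z⁻¹))
      (u * (-(z ^ 2)⁻¹) / (1 + u * z⁻¹)) z :=
    (((hasDerivAt_inv h0).const_mul u).const_add 1).clog (Or.inl p2)
  exact ⟨_, (d1.const_mul u).add d2⟩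

end maps

end Pool.Agent.Helper97.EKC
end

/- Helper24.K6w.H97.EKC.Sharp -/
section
/-!
MP_16b0ee, project EKC: the exponent `|t| - 1` is attained for every complex `t = -κ conj u`,
`u ≠ -1`, `κ > 1`, by the spiral map `z (1 - 1/z)^(1+u)`.
-/

set_option autoImplicit false

open Complex MeasureTheory Metric Set Filter Topology
open scoped Real ComplexConjugate

namespace Pool.Agent.Helper97.EKC

variable {u : ℂ}

theorem psi_diff (hu : ‖u‖ = 1) : DifferentiableOn ℂ (psi u) {z : ℂ | 1 < ‖z‖} :=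
  fun _ hz => (hasDerivAt_psi hu hz).differentiableAt.differentiableWithinAt

theorem hh_diff (hu : ‖u‖ = 1) : DifferentiableOn ℂ (hh u) {z : ℂ | 1 < ‖z‖} := by
  intro z hz
  obtain ⟨d, hd⟩ := hasDerivAt_hh (u := u) hu hz
  exact hd.differentiableAt.differentiableWithinAt

theorem exp_hh (hu : ‖u‖ = 1) {z : ℂ} (hz : 1 < ‖z‖) :
    Complex.exp (hh u z) = deriv (psi u) z := (hasDerivAt_psi hu hz).deriv.symm

theorem psi_tendsto (u : ℂ) :
    Tendsto (fun z => psi u z - z) (Bornology.cobounded ℂ) (𝓝 (-(1 + u))) := by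
  have hg : HasDerivAt (fun ζ : ℂ => Complex.exp ((1 + u) * Complex.log (1 - ζ)))
      (-(1 + u)) 0 := by
    have d1 : HasDerivAt (fun ζ : ℂ => Complex.log (1 - ζ)) (-1 / (1 - 0)) 0 :=
      ((hasDerivAt_id (0:ℂ)).const_sub 1).clog (Or.inl (by simp))
    refine ((d1.const_mul (1 + u)).cexp).congr_deriv ?_
    simp
  have hs := hasDerivAt_iff_tendsto_slope.1 hg
  have ht : Tendsto (fun z : ℂ => z⁻¹) (Bornology.cobounded ℂ) (𝓝[≠] 0) :=
    tendsto_nhdsWithin_iff.2 ⟨tendsto_inv₀_cobounded,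
      (Bornology.eventually_ne_cobounded 0).mono fun z hz => inv_ne_zero hz⟩
  refine (hs.comp ht).congr' ?_
  filter_upwards [Bornology.eventually_ne_cobounded (0 : ℂ)] with z hz
  simp only [Function.comp, slope_def_field, psi, sub_zero, Complex.log_one, mul_zero,
    Complex.exp_zero]
  rw [div_inv_eq_mul]
  ring

theorem hh_tendsto (u : ℂ) : Tendsto (hh u) (Bornology.cobounded ℂ) (𝓝 0) := by
  have hg : ContinuousAt (fun ζ : ℂ => u * Complex.log (1 - ζ) + Complex.log (1 + u * ζ)) 0 := by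
    have d1 : ContinuousAt (fun ζ : ℂ => Complex.log (1 - ζ)) 0 :=
      ContinuousAt.clog (by fun_prop) (Or.inl (by simp))
    have d2 : ContinuousAt (fun ζ : ℂ => Complex.log (1 + u * ζ)) 0 :=
      ContinuousAt.clog (by fun_prop) (Or.inl (by simp))
    exact (continuousAt_const.mul d1).add d2
  have ht : Tendsto (fun z : ℂ => z⁻¹) (Bornology.cobounded ℂ) (𝓝 0) := tendsto_inv₀_cobounded
  have := hg.tendsto.comp ht
  simp only [sub_zero, Complex.log_one, mul_zero, add_zero] at this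
  exact this

/-- `log (1 + u ζ)` is bounded in a small sector around the positive axis -/
theorem log_bound (hu : ‖u‖ = 1) {δ : ℝ} (hδ : 4 * δ = ‖1 + u‖) (hδ0 : 0 < δ)
    {r θ : ℝ} (hr : 0 < r) (hr1 : r < 1) (hθ : 0 ≤ θ) (hθ1 : θ ≤ δ) :
    ‖Complex.log (1 + u * (r * Complex.exp (-(θ * I))))‖ ≤ Real.log 2 - Real.log δ + π := by
  obtain ⟨w, hw⟩ : ∃ w : ℂ, w = 1 + u * (r * Complex.exp (-(θ * I))) := ⟨_, rfl⟩
  have he : ‖Complex.exp (-(θ * I)) - 1‖ ≤ θ := by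
    have := Real.norm_exp_I_mul_ofReal_sub_one_le (x := -θ)
    rw [Real.norm_eq_abs, abs_neg, abs_of_nonneg hθ] at this
    rw [show -((θ : ℂ) * I) = I * ((-θ : ℝ) : ℂ) by push_cast; ring]
    exact this
  have hn : ‖Complex.exp (-(θ * I))‖ = 1 := by
    rw [show -((θ : ℂ) * I) = ((-θ : ℝ) : ℂ) * I by push_cast; ring]
    exact Complex.norm_exp_ofReal_mul_I _
  have h1 : ‖1 + u‖ ≤ 2 * ‖1 + u * r‖ := by
    have a1 : ‖1 + u‖ ≤ ‖1 + u * r‖ + (1 - r) := by
      have : 1 + u = (1 + u * r) + u * ((1 - r : ℝ) : ℂ) := by push_cast; ring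
      rw [this]
      refine (norm_add_le _ _).trans ?_
      rw [norm_mul, hu, one_mul, Complex.norm_real, Real.norm_of_nonneg (by linarith only [hr1])]
    have a2 : 1 - r ≤ ‖1 + u * r‖ := by
      have := norm_sub_norm_le (1 : ℂ) (-(u * r))
      rw [norm_neg, norm_mul, hu, one_mul, norm_one, Complex.norm_real,
        Real.norm_of_nonneg hr.le, sub_neg_eq_add] at this
      exact this
    linarith only [a1, a2]
  have h2 : δ ≤ ‖w‖ := by
    have a3 : (1 + u * r) - w = -(u * (r * (Complex.exp (-(θ * I)) - 1))) := by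
      rw [hw]; ring
    have a4 : ‖(1 + u * r) - w‖ ≤ θ := by
      rw [a3, norm_neg, norm_mul, norm_mul, hu, one_mul, Complex.norm_real,
        Real.norm_of_nonneg hr.le]
      calc r * ‖Complex.exp (-(θ * I)) - 1‖ ≤ 1 * θ :=
            mul_le_mul hr1.le he (norm_nonneg _) zero_le_one
        _ = θ := one_mul _
    have a5 := norm_sub_norm_le (1 + u * r) w
    (clear * - hδ hθ1 h1 a4 a5; linarith only [hδ, hθ1, h1, a4, a5])
  have h3 : ‖w‖ ≤ 2 := by
    rw [hw]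
    refine (norm_add_le _ _).trans ?_
    rw [norm_mul, norm_mul, hu, one_mul, hn, mul_one, norm_one, Complex.norm_real,
      Real.norm_of_nonneg hr.le]
    linarith
  have hw0 : 0 < ‖w‖ := lt_of_lt_of_le hδ0 h2
  rw [← hw]
  refine (Complex.norm_le_abs_re_add_abs_im _).trans ?_
  rw [Complex.log_re, Complex.log_im]
  have hl1 : Real.log ‖w‖ ≤ Real.log 2 := Real.log_le_log hw0 h3
  have hl2 : Real.log δ ≤ Real.log ‖w‖ := Real.log_le_log hδ0 h2
  have hδ1 : δ ≤ 1 / 2 := by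
    have : ‖1 + u‖ ≤ 2 := by
      refine (norm_add_le _ _).trans ?_
      rw [hu, norm_one]
      norm_num
    (clear * - hδ this; linarith only [hδ, this])
  have hl3 : Real.log δ ≤ 0 := Real.log_nonpos hδ0.le (by (clear * - hr hr1 hδ1; linarith))
  have hl4 : 0 ≤ Real.log 2 := Real.log_nonneg (by norm_num)
  have ha := Complex.abs_arg_le_pi w
  have hb : |Real.log ‖w‖| ≤ Real.log 2 - Real.log δ := by
    rw [abs_le]
    constructor <;> linarith
  linarith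

theorem re_formula (hu : ‖u‖ = 1) (κ : ℝ) {z : ℂ} :
    (-(κ : ℂ) * conj u * hh u z).re =
      -κ * Real.log ‖1 - z⁻¹‖ + -κ * (conj u * Complex.log (1 + u * z⁻¹)).re := by
  have huu : conj u * u = 1 := by
    rw [Complex.conj_mul', hu]
    simp
  have : -(κ : ℂ) * conj u * hh u z = ((-κ : ℝ) : ℂ) * Complex.log (1 - z⁻¹) +
      ((-κ : ℝ) : ℂ) * (conj u * Complex.log (1 + u * z⁻¹)) := by
    unfold hh
    push_cast
    linear_combination (-(κ : ℂ) * Complex.log (1 - z⁻¹)) * huu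
  rw [this, Complex.add_re, Complex.re_ofReal_mul, Complex.re_ofReal_mul, Complex.log_re]

/-- the lower bound for the means -/
theorem mean_lower (hu : ‖u‖ = 1) (hu1 : u ≠ -1) {κ : ℝ} (hκ : 1 < κ) :
    ∃ c : ℝ, 0 < c ∧ ∀ R : ℝ, 1 < R →
      c * (R ^ 2 / (R ^ 2 - 1)) ^ (κ - 1) ≤ (2 * π)⁻¹ * ∫ θ in (0:ℝ)..(2 * π),
        Real.exp (-(κ : ℂ) * conj u * hh u (R * Complex.exp (θ * I))).re := by
  have hpi := Real.pi_gt_three
  have hne : 1 + u ≠ 0 := by
    intro h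
    apply hu1
    linear_combination h
  obtain ⟨δ, hδ⟩ : ∃ δ : ℝ, 4 * δ = ‖1 + u‖ := ⟨‖1 + u‖ / 4, by ring⟩
  have hδ0 : 0 < δ := by
    have := norm_pos_iff.2 hne
    (clear * - hδ this; linarith only [hδ, this])
  have hδ1 : δ ≤ 1 / 2 := by
    have : ‖1 + u‖ ≤ 2 := by
      refine (norm_add_le _ _).trans ?_
      rw [hu, norm_one]
      norm_num
    (clear * - hδ this; linarith only [hδ, this])
  obtain ⟨M, hM⟩ : ∃ M : ℝ, M = Real.log 2 - Real.log δ + π := ⟨_, rfl⟩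
  refine ⟨(2 * π)⁻¹ * (δ * (2 ^ (-κ) * Real.exp (-(κ * M)))), by positivity, fun R hR => ?_⟩
  obtain ⟨r, hr⟩ : ∃ r : ℝ, r = R⁻¹ := ⟨_, rfl⟩
  have hR0 : 0 < R := by linarith only [hR]
  have hr0 : 0 < r := by rw [hr]; positivity
  have hr1 : r < 1 := by rw [hr]; exact inv_lt_one_of_one_lt₀ hR
  obtain ⟨d, hd⟩ : ∃ d : ℝ, d = 1 - r := ⟨_, rfl⟩
  have hd0 : 0 < d := by (clear * - hr1 hd; linarith)
  have hd1 : d < 1 := by (clear * - hr0 hd; linarith)
  -- the left side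
  have hL : (R ^ 2 / (R ^ 2 - 1)) ^ (κ - 1) ≤ d * d ^ (-κ) := by
    have e1 : R ^ 2 / (R ^ 2 - 1) ≤ d⁻¹ := by
      have h1 : 0 < R ^ 2 - 1 := by (clear * - hR; nlinarith only [hR])
      rw [hd, hr, div_le_iff₀ h1]
      have h2 : 0 < R - 1 := by (clear * - hR; linarith)
      have h3 : (1 - R⁻¹)⁻¹ = R / (R - 1) := by (clear * - hR h2; field_simp)
      rw [h3, div_mul_eq_mul_div, le_div_iff₀ h2]
      (clear * - h2; nlinarith only [h2])
    have e2 : d⁻¹ ^ (κ - 1) = d * d ^ (-κ) := by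
      rw [Real.inv_rpow hd0.le, ← Real.rpow_neg hd0.le]
      nth_rw 2 [← Real.rpow_one d]
      rw [← Real.rpow_add hd0]
      congr 1
      ring
    rw [← e2]
    refine Real.rpow_le_rpow ?_ e1 (by linarith only [hκ])
    have h1 : 0 < R ^ 2 - 1 := by (clear * - hR; nlinarith only [hR])
    (clear * - hR h1; positivity)
  -- the integrand
  obtain ⟨F, hF⟩ : ∃ F : ℝ → ℝ, F = fun θ : ℝ =>
    Real.exp (-(κ : ℂ) * conj u * hh u (R * Complex.exp (θ * I))).re := ⟨_, rfl⟩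
  have hout : ∀ θ : ℝ, 1 < ‖(R : ℂ) * Complex.exp (θ * I)‖ := by
    intro θ
    rw [norm_mul, Complex.norm_exp_ofReal_mul_I, mul_one, Complex.norm_real,
      Real.norm_of_nonneg hR0.le]
    exact hR
  have hc : Continuous F := by
    rw [hF]
    have h1 : Continuous (fun θ : ℝ => hh u (R * Complex.exp (θ * I))) :=
      (hh_diff hu).continuousOn.comp_continuous (by fun_prop) hout
    exact Real.continuous_exp.comp (Complex.continuous_re.comp (continuous_const.mul h1))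
  have hF0 : ∀ θ, 0 ≤ F θ := by
    intro θ
    rw [hF]
    exact (Real.exp_pos _).le
  have hb : δ * d ≤ 2 * π := by nlinarith only [hpi, hδ1, hd0, hd1]
  have hb0 : 0 ≤ δ * d := by positivity
  have h1 : ∫ θ in (0:ℝ)..(δ * d), F θ ≤ ∫ θ in (0:ℝ)..(2 * π), F θ :=
    intervalIntegral.integral_mono_interval le_rfl hb0 hb (Filter.Eventually.of_forall
      (fun θ => hF0 θ)) (hc.intervalIntegrable _ _)
  have h2 : ∫ _θ in (0:ℝ)..(δ * d), ((2 * d) ^ (-κ) * Real.exp (-(κ * M))) ≤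
      ∫ θ in (0:ℝ)..(δ * d), F θ := by
    refine intervalIntegral.integral_mono_on hb0 (continuous_const.intervalIntegrable _ _)
      (hc.intervalIntegrable _ _) (fun θ hθ => ?_)
    rw [hF]
    have ei : ((R : ℂ) * Complex.exp (θ * I))⁻¹ = r * Complex.exp (-(θ * I)) := by
      rw [mul_inv, ← Complex.exp_neg, hr]
      push_cast
      rfl
    have hθ1 : θ ≤ δ := hθ.2.trans (by nlinarith only [hd0, hd1, hb0])
    have hθ2 : θ ≤ d := hθ.2.trans (by nlinarith only [hδ1, hd0])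
    have hlog := log_bound hu hδ hδ0 hr0 hr1 hθ.1 hθ1
    rw [← hM, ← ei] at hlog
    have hre : (conj u * Complex.log (1 + u * ((R : ℂ) * Complex.exp (θ * I))⁻¹)).re ≤ M := by
      refine (Complex.re_le_norm _).trans ?_
      rw [norm_mul, Complex.norm_conj, hu, one_mul]
      exact hlog
    have hnorm : ‖1 - ((R : ℂ) * Complex.exp (θ * I))⁻¹‖ ≤ 2 * d := by
      rw [ei]
      have e3 : (1 : ℂ) - r * Complex.exp (-(θ * I)) =
          ((1 - r : ℝ) : ℂ) - r * (Complex.exp (-(θ * I)) - 1) := by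
        push_cast; ring
      have he : ‖Complex.exp (-(θ * I)) - 1‖ ≤ θ := by
        have := Real.norm_exp_I_mul_ofReal_sub_one_le (x := -θ)
        rw [Real.norm_eq_abs, abs_neg, abs_of_nonneg hθ.1] at this
        rw [show -((θ : ℂ) * I) = I * ((-θ : ℝ) : ℂ) by push_cast; ring]
        exact this
      rw [e3]
      refine (norm_sub_le _ _).trans ?_
      rw [norm_mul, Complex.norm_real, Complex.norm_real, Real.norm_of_nonneg (by linarith only [hd, hd0]),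
        Real.norm_of_nonneg hr0.le]
      have h5 : r * ‖Complex.exp (-(θ * I)) - 1‖ ≤ 1 * θ :=
        mul_le_mul hr1.le he (norm_nonneg _) zero_le_one
      linarith only [hd, hθ2, h5]
    have hpos : 0 < ‖1 - ((R : ℂ) * Complex.exp (θ * I))⁻¹‖ := by
      have := re_pos1 (hout θ)
      exact lt_of_lt_of_le this (Complex.re_le_norm _)
    beta_reduce
    rw [re_formula hu]
    have e5 : (2 * d) ^ (-κ) * Real.exp (-(κ * M)) =
        Real.exp (-κ * Real.log (2 * d) + -κ * M) := by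
      rw [Real.rpow_def_of_pos (by positivity), ← Real.exp_add]
      congr 1
      ring
    rw [e5]
    refine Real.exp_le_exp.2 ?_
    have l1 := Real.log_le_log hpos hnorm
    have k1 : -κ * Real.log (2 * d) ≤ -κ * Real.log ‖1 - ((R : ℂ) * Complex.exp (θ * I))⁻¹‖ :=
      mul_le_mul_of_nonpos_left l1 (by linarith only [hκ])
    have k2 := mul_le_mul_of_nonpos_left hre (show -κ ≤ 0 by linarith only [hκ])
    linarith only [k1, k2]
  rw [intervalIntegral.integral_const, sub_zero, smul_eq_mul, Real.mul_rpow (by norm_num) hd0.le]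
    at h2
  have h3 := h2.trans h1
  have h4 := mul_le_mul_of_nonneg_left h3 (show 0 ≤ (2 * π)⁻¹ by positivity)
  rw [hF] at h4
  refine le_trans ?_ h4
  have h6 := mul_le_mul_of_nonneg_left hL
    (show 0 ≤ (2 * π)⁻¹ * (δ * (2 ^ (-κ) * Real.exp (-(κ * M)))) by positivity)
  refine h6.trans (le_of_eq ?_)
  ring

/-- sharpness for complex exponents -/
theorem sharp_u (hu : ‖u‖ = 1) (hu1 : u ≠ -1) : ∃ ψ h : ℂ → ℂ,
    DifferentiableOn ℂ ψ {z : ℂ | 1 < ‖z‖} ∧ InjOn ψ {z : ℂ | 1 < ‖z‖} ∧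
    (∃ b : ℂ, Tendsto (fun z => ψ z - z) (Bornology.cobounded ℂ) (𝓝 b)) ∧
    DifferentiableOn ℂ h {z : ℂ | 1 < ‖z‖} ∧
    (∀ z : ℂ, 1 < ‖z‖ → Complex.exp (h z) = deriv ψ z) ∧
    Tendsto h (Bornology.cobounded ℂ) (𝓝 0) ∧
    ∀ κ : ℝ, 1 < κ → ∃ c : ℝ, 0 < c ∧ ∀ R : ℝ, 1 < R →
      c * (R ^ 2 / (R ^ 2 - 1)) ^ (κ - 1) ≤ (2 * π)⁻¹ * ∫ θ in (0:ℝ)..(2 * π),
        Real.exp (-(κ : ℂ) * conj u * h (R * Complex.exp (θ * I))).re :=
  ⟨psi u, hh u, psi_diff hu, psi_injOn hu, ⟨_, psi_tendsto u⟩, hh_diff hu,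
    fun _ hz => exp_hh hu hz, hh_tendsto u, fun _ hκ => mean_lower hu hu1 hκ⟩

end Pool.Agent.Helper97.EKC
end

/- Helper24.K6w.H39.G4L.Low -/
section
/-!
# Project G4 (MP_16b0ee_an): the lower bound near `t = 2`

`mean_low`: for the spiral map `z (1 - 1/z)^(1+u)`, `|u| = 1`, `u ≠ -1`, and every complex `t` with
`- re (t u) > 1` the circle means of `|exp (t h)|`, `h = log ψ'`, are at least a constant times the
power `- re (t u) - 1` of `R² / (R² - 1)`. `low_all`: every exponent below `|t| - 1`.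
`low_near`: near `t = 2`, written with `t = 2 - τ`: the exponent
`1 - re τ + (im τ)² / 4 - ε |τ|²` for all small `τ`.
-/

set_option autoImplicit false

open Complex MeasureTheory Metric Set Filter Topology
open scoped Real ComplexConjugate

namespace Pool.Agent.Helper39.G4L

open Pool.Agent.Helper97.EKC

variable {u : ℂ}

theorem re_low (t : ℂ) (hu : ‖u‖ = 1) (z : ℂ) {M : ℝ}
    (hM : ‖Complex.log (1 + u * z⁻¹)‖ ≤ M) :
    (t * u).re * Real.log ‖1 - z⁻¹‖ - ‖t‖ * (π + M) ≤ (t * hh u z).re := by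
  have e1 : t * hh u z = (t * u) * Complex.log (1 - z⁻¹) + t * Complex.log (1 + u * z⁻¹) := by
    unfold hh
    ring
  rw [e1, Complex.add_re, Complex.mul_re (t * u), Complex.log_re, Complex.log_im]
  have h1 : (t * u).im * (1 - z⁻¹).arg ≤ ‖t‖ * π := by
    refine (le_abs_self _).trans ?_
    rw [abs_mul]
    refine mul_le_mul ?_ (Complex.abs_arg_le_pi _) (abs_nonneg _) (norm_nonneg _)
    refine (Complex.abs_im_le_norm _).trans ?_
    rw [norm_mul, hu, mul_one]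
  have h2 : -(‖t‖ * M) ≤ (t * Complex.log (1 + u * z⁻¹)).re := by
    have h3 := Complex.abs_re_le_norm (t * Complex.log (1 + u * z⁻¹))
    rw [norm_mul] at h3
    have h4 := mul_le_mul_of_nonneg_left hM (norm_nonneg t)
    have h5 := neg_le_of_abs_le (h3.trans h4)
    (clear * - h5; linarith only [h5])
  linarith only [h1, h2]

/-- the lower bound for the means -/
theorem mean_low (hu : ‖u‖ = 1) (hu1 : u ≠ -1) {t : ℂ} {κ : ℝ} (hκ : 1 < κ)
    (ht : (t * u).re = -κ) :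
    ∃ c : ℝ, 0 < c ∧ ∀ R : ℝ, 1 < R →
      c * (R ^ 2 / (R ^ 2 - 1)) ^ (κ - 1) ≤ (2 * π)⁻¹ * ∫ θ in (0:ℝ)..(2 * π),
        ‖Complex.exp (t * hh u (R * Complex.exp (θ * I)))‖ := by
  have hpi := Real.pi_gt_three
  have hne : 1 + u ≠ 0 := by
    intro h
    apply hu1
    linear_combination h
  obtain ⟨δ, hδ⟩ : ∃ δ : ℝ, 4 * δ = ‖1 + u‖ := ⟨‖1 + u‖ / 4, by ring⟩
  have hδ0 : 0 < δ := by
    have := norm_pos_iff.2 hne
    (clear * - hδ this; linarith)
  have hδ1 : δ ≤ 1 / 2 := by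
    have : ‖1 + u‖ ≤ 2 := by
      refine (norm_add_le _ _).trans ?_
      rw [hu, norm_one]
      norm_num
    (clear * - hδ this; linarith only [hδ, this])
  obtain ⟨M, hM⟩ : ∃ M : ℝ, M = Real.log 2 - Real.log δ + π := ⟨_, rfl⟩
  refine ⟨(2 * π)⁻¹ * (δ * (2 ^ (-κ) * Real.exp (-(‖t‖ * (π + M))))), by (clear * - hδ0; positivity),
    fun R hR => ?_⟩
  obtain ⟨r, hr⟩ : ∃ r : ℝ, r = R⁻¹ := ⟨_, rfl⟩
  have hR0 : 0 < R := by linarith only [hR]
  have hr0 : 0 < r := by rw [hr]; (clear * - hR; positivity)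
  have hr1 : r < 1 := by rw [hr]; exact inv_lt_one_of_one_lt₀ hR
  obtain ⟨d, hd⟩ : ∃ d : ℝ, d = 1 - r := ⟨_, rfl⟩
  have hd0 : 0 < d := by linarith only [hr1, hd]
  have hd1 : d < 1 := by (clear * - hr0 hd; linarith only [hr0, hd])
  -- the left side
  have hL : (R ^ 2 / (R ^ 2 - 1)) ^ (κ - 1) ≤ d * d ^ (-κ) := by
    have e1 : R ^ 2 / (R ^ 2 - 1) ≤ d⁻¹ := by
      have h1 : 0 < R ^ 2 - 1 := by (clear * - hR; nlinarith only [hR])
      rw [hd, hr, div_le_iff₀ h1]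
      have h2 : 0 < R - 1 := by linarith only [hR]
      have h3 : (1 - R⁻¹)⁻¹ = R / (R - 1) := by (clear * - hR h2; field_simp)
      rw [h3, div_mul_eq_mul_div, le_div_iff₀ h2]
      (clear * - h2; nlinarith only [h2])
    have e2 : d⁻¹ ^ (κ - 1) = d * d ^ (-κ) := by
      rw [Real.inv_rpow hd0.le, ← Real.rpow_neg hd0.le]
      nth_rw 2 [← Real.rpow_one d]
      rw [← Real.rpow_add hd0]
      congr 1
      ring
    rw [← e2]
    refine Real.rpow_le_rpow ?_ e1 (by linarith only [hκ])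
    have h1 : 0 < R ^ 2 - 1 := by (clear * - hR; nlinarith only [hR])
    (clear * - hR h1; positivity)
  -- the integrand
  obtain ⟨F, hF⟩ : ∃ F : ℝ → ℝ, F = fun θ : ℝ =>
    ‖Complex.exp (t * hh u (R * Complex.exp (θ * I)))‖ := ⟨_, rfl⟩
  have hout : ∀ θ : ℝ, 1 < ‖(R : ℂ) * Complex.exp (θ * I)‖ := by
    intro θ
    rw [norm_mul, Complex.norm_exp_ofReal_mul_I, mul_one, Complex.norm_real,
      Real.norm_of_nonneg hR0.le]
    exact hR
  have hc : Continuous F := by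
    rw [hF]
    have h1 : Continuous (fun θ : ℝ => hh u (R * Complex.exp (θ * I))) :=
      (hh_diff hu).continuousOn.comp_continuous (by fun_prop) hout
    exact continuous_norm.comp (Complex.continuous_exp.comp (continuous_const.mul h1))
  have hF0 : ∀ θ, 0 ≤ F θ := by
    intro θ
    rw [hF]
    exact norm_nonneg _
  have hb : δ * d ≤ 2 * π := by nlinarith only [hpi, hδ0, hδ1, hd1]
  have hb0 : 0 ≤ δ * d := by (clear * - hδ0 hd0; positivity)
  have h1 : ∫ θ in (0:ℝ)..(δ * d), F θ ≤ ∫ θ in (0:ℝ)..(2 * π), F θ :=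
    intervalIntegral.integral_mono_interval le_rfl hb0 hb (Filter.Eventually.of_forall
      (fun θ => hF0 θ)) (hc.intervalIntegrable _ _)
  have h2 : ∫ _θ in (0:ℝ)..(δ * d), ((2 * d) ^ (-κ) * Real.exp (-(‖t‖ * (π + M)))) ≤
      ∫ θ in (0:ℝ)..(δ * d), F θ := by
    refine intervalIntegral.integral_mono_on hb0 (continuous_const.intervalIntegrable _ _)
      (hc.intervalIntegrable _ _) (fun θ hθ => ?_)
    rw [hF]
    have ei : ((R : ℂ) * Complex.exp (θ * I))⁻¹ = r * Complex.exp (-(θ * I)) := by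
      rw [mul_inv, ← Complex.exp_neg, hr]
      push_cast
      rfl
    have hθ1 : θ ≤ δ := hθ.2.trans (by nlinarith only [hr0, hd, hd0, hb0])
    have hθ2 : θ ≤ d := hθ.2.trans (by nlinarith only [hδ0, hδ1, hb0])
    have hlog := log_bound hu hδ hδ0 hr0 hr1 hθ.1 hθ1
    rw [← hM, ← ei] at hlog
    have hnorm : ‖1 - ((R : ℂ) * Complex.exp (θ * I))⁻¹‖ ≤ 2 * d := by
      rw [ei]
      have e3 : (1 : ℂ) - r * Complex.exp (-(θ * I)) =
          ((1 - r : ℝ) : ℂ) - r * (Complex.exp (-(θ * I)) - 1) := by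
        push_cast; ring
      have he : ‖Complex.exp (-(θ * I)) - 1‖ ≤ θ := by
        have := Real.norm_exp_I_mul_ofReal_sub_one_le (x := -θ)
        rw [Real.norm_eq_abs, abs_neg, abs_of_nonneg hθ.1] at this
        rw [show -((θ : ℂ) * I) = I * ((-θ : ℝ) : ℂ) by push_cast; ring]
        exact this
      rw [e3]
      refine (norm_sub_le _ _).trans ?_
      rw [norm_mul, Complex.norm_real, Complex.norm_real, Real.norm_of_nonneg (by linarith only [hr1]),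
        Real.norm_of_nonneg hr0.le]
      have h5 : r * ‖Complex.exp (-(θ * I)) - 1‖ ≤ 1 * θ :=
        mul_le_mul hr1.le he (norm_nonneg _) zero_le_one
      linarith only [hd, hθ2, h5]
    have hpos : 0 < ‖1 - ((R : ℂ) * Complex.exp (θ * I))⁻¹‖ := by
      have := re_pos1 (hout θ)
      exact lt_of_lt_of_le this (Complex.re_le_norm _)
    beta_reduce
    rw [Complex.norm_exp]
    have h3 := re_low t hu _ hlog
    rw [ht] at h3
    have e5 : (2 * d) ^ (-κ) * Real.exp (-(‖t‖ * (π + M))) =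
        Real.exp (-κ * Real.log (2 * d) - ‖t‖ * (π + M)) := by
      rw [Real.rpow_def_of_pos (by (clear * - hd0; positivity)), ← Real.exp_add]
      congr 1
      ring
    rw [e5]
    refine Real.exp_le_exp.2 (le_trans ?_ h3)
    have l1 := Real.log_le_log hpos hnorm
    have k1 : -κ * Real.log (2 * d) ≤ -κ * Real.log ‖1 - ((R : ℂ) * Complex.exp (θ * I))⁻¹‖ :=
      mul_le_mul_of_nonpos_left l1 (by linarith only [hκ])
    linarith only [k1]
  rw [intervalIntegral.integral_const, sub_zero, smul_eq_mul, Real.mul_rpow (by norm_num) hd0.le]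
    at h2
  have h3 := h2.trans h1
  have h4 := mul_le_mul_of_nonneg_left h3 (show 0 ≤ (2 * π)⁻¹ by positivity)
  rw [hF] at h4
  refine le_trans ?_ h4
  have h6 := mul_le_mul_of_nonneg_left hL
    (show 0 ≤ (2 * π)⁻¹ * (δ * (2 ^ (-κ) * Real.exp (-(‖t‖ * (π + M))))) by positivity)
  refine h6.trans (le_of_eq ?_)
  ring

/-- the circle means of `|exp (t h)|` are at least `c (R²/(R²-1))^s` for one function of the
class -/
def Low (t : ℂ) (s : ℝ) : Prop :=
  ∃ ψ h : ℂ → ℂ, DifferentiableOn ℂ ψ {z : ℂ | 1 < ‖z‖} ∧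
    InjOn ψ {z : ℂ | 1 < ‖z‖} ∧
    (∃ b : ℂ, Filter.Tendsto (fun z => ψ z - z) (Bornology.cobounded ℂ) (nhds b)) ∧
    DifferentiableOn ℂ h {z : ℂ | 1 < ‖z‖} ∧
    (∀ z : ℂ, 1 < ‖z‖ → Complex.exp (h z) = deriv ψ z) ∧
    Filter.Tendsto h (Bornology.cobounded ℂ) (nhds 0) ∧
    ∃ c : ℝ, 0 < c ∧ ∀ R : ℝ, 1 < R →
      c * (R ^ 2 / (R ^ 2 - 1)) ^ s ≤
        (2 * π)⁻¹ *
          (∫ θ in (0:ℝ)..(2 * π), ‖Complex.exp (t * h (R * Complex.exp (θ * I)))‖)

theorem low_mono {t : ℂ} {s s' : ℝ} (hs : s' ≤ s) (H : Low t s) : Low t s' := by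
  obtain ⟨ψ, h, a1, a2, a3, a4, a5, a6, c, hc, H⟩ := H
  refine ⟨ψ, h, a1, a2, a3, a4, a5, a6, c, hc, fun R hR => le_trans ?_ (H R hR)⟩
  refine mul_le_mul_of_nonneg_left ?_ hc.le
  refine Real.rpow_le_rpow_of_exponent_le ?_ hs
  have h1 : 0 < R ^ 2 - 1 := by (clear * - hR; nlinarith only [hR])
  rw [one_le_div h1]
  (clear * -; linarith only [])

theorem low_u (hu : ‖u‖ = 1) (hu1 : u ≠ -1) {t : ℂ} (ht : (t * u).re < -1) :
    Low t (-(t * u).re - 1) := by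
  obtain ⟨c, hc, H⟩ := mean_low hu hu1 (t := t) (κ := -(t * u).re) (by linarith only [ht]) (by ring)
  exact ⟨psi u, hh u, psi_diff hu, psi_injOn hu, ⟨_, psi_tendsto u⟩, hh_diff hu,
    fun _ hz => exp_hh hu hz, hh_tendsto u, c, hc, H⟩

/-- every exponent below `|t| - 1` -/
theorem low_all {t : ℂ} (h1 : 1 < ‖t‖) {s : ℝ} (hs : s < ‖t‖ - 1) : Low t s := by
  have hn0 : 0 < ‖t‖ := by linarith
  -- the directions `v φ = - conj t / |t| e^(i φ)`
  obtain ⟨v, hv⟩ : ∃ v : ℝ → ℂ, v = fun φ : ℝ => -(conj t / ‖t‖) * Complex.exp (φ * I) :=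
    ⟨_, rfl⟩
  have hvn : ∀ φ, ‖v φ‖ = 1 := by
    intro φ
    rw [hv]
    simp only
    rw [norm_mul, Complex.norm_exp_ofReal_mul_I, mul_one, norm_neg, norm_div, RCLike.norm_conj,
      Complex.norm_real, norm_norm, div_self hn0.ne']
  have hnC : (‖t‖ : ℂ) ≠ 0 := by exact_mod_cast hn0.ne'
  have hre : ∀ φ, (t * v φ).re = -(‖t‖ * Real.cos φ) := by
    intro φ
    have e : t * v φ = ((-‖t‖ : ℝ) : ℂ) * Complex.exp (φ * I) := by
      rw [hv]
      simp only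
      have e2 : t * conj t = (‖t‖ : ℂ) ^ 2 := Complex.mul_conj' t
      have : t * (-(conj t / ‖t‖) * Complex.exp (φ * I)) =
          -(t * conj t / ‖t‖) * Complex.exp (φ * I) := by ring
      rw [this, e2]
      push_cast
      field_simp
    rw [e, Complex.re_ofReal_mul, Complex.exp_ofReal_mul_I_re]
    ring
  -- a small angle
  have hcont : Filter.Tendsto (fun φ : ℝ => ‖t‖ * Real.cos φ) (𝓝 0) (𝓝 ‖t‖) := by
    have : Continuous (fun φ : ℝ => ‖t‖ * Real.cos φ) := by fun_prop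
    have h2 := this.tendsto 0
    simpa using h2
  have hev : ∀ᶠ φ in 𝓝 (0 : ℝ), max (s + 1) 1 < ‖t‖ * Real.cos φ :=
    hcont.eventually (lt_mem_nhds (max_lt (by (clear * - hs; linarith only [hs])) h1))
  obtain ⟨η, hη, hη1⟩ := Metric.eventually_nhds_iff.1 hev
  obtain ⟨φ, hφ0, hφ1, hφ2⟩ : ∃ φ : ℝ, 0 < φ ∧ φ < η ∧ φ < 1 :=
    ⟨min (η / 2) (1 / 2), by (clear * - hη; positivity), by
      refine (min_le_left _ _).trans_lt ?_
      (clear * - hη; linarith only [hη]), by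
      refine (min_le_right _ _).trans_lt ?_
      norm_num⟩
  have hφ : max (s + 1) 1 < ‖t‖ * Real.cos φ :=
    hη1 (by rw [Real.dist_eq, sub_zero, abs_of_pos hφ0]; exact hφ1)
  have h0 : max (s + 1) 1 < ‖t‖ * Real.cos 0 :=
    hη1 (by rw [dist_self]; exact hη)
  -- at most one of the two directions is `-1`
  have hne : v 0 ≠ v φ := by
    rw [hv]
    simp only
    intro h
    have h2 : -(conj t / (‖t‖ : ℂ)) ≠ 0 := by
      intro h3
      have h4 := hvn 0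
      rw [hv] at h4
      simp only at h4
      rw [h3, zero_mul, norm_zero] at h4
      exact zero_ne_one h4
    have h3 := mul_left_cancel₀ h2 h
    have h4 := congrArg Complex.im h3
    rw [Complex.exp_ofReal_mul_I_im, Complex.exp_ofReal_mul_I_im, Real.sin_zero] at h4
    have h5 : 0 < Real.sin φ := Real.sin_pos_of_pos_of_lt_pi hφ0 (by linarith only [Real.pi_gt_three, hφ2])
    linarith only [h4, h5]
  have key : ∀ x : ℝ, max (s + 1) 1 < ‖t‖ * Real.cos x → v x ≠ -1 → Low t s := by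
    intro x hx hx1
    have h2 := hre x
    have h3 := (le_max_left _ _).trans_lt hx
    have h4 := (le_max_right _ _).trans_lt hx
    exact low_mono (by rw [h2]; linarith only [h3]) (low_u (hvn x) hx1 (t := t) (by rw [h2]; linarith only [h4]))
  by_cases h : v 0 = -1
  · refine key φ hφ ?_
    intro h2
    exact hne (h.trans h2.symm)
  · exact key 0 h0 h

theorem real_low {a b r X ε : ℝ} (hr : 0 < r) (hr1 : r ≤ 1 / 4) (hrε : r ≤ ε) (hε1 : ε ≤ 1)
    (hsq : r ^ 2 = a ^ 2 + b ^ 2) (ha : |a| ≤ r) (hX : X = 2 - a) :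
    (X + b ^ 2 / 4 - ε * r ^ 2) ^ 2 < X ^ 2 + b ^ 2 := by
  rw [abs_le] at ha
  have hε : 0 < ε := hr.trans_le hrε
  have hr2 : 0 < r ^ 2 := by positivity
  have hb : b ^ 2 ≤ r ^ 2 := by nlinarith only [hsq]
  have h1 : -a * b ^ 2 ≤ ε * r ^ 2 := by
    have e1 : -a * b ^ 2 ≤ r * b ^ 2 :=
      mul_le_mul_of_nonneg_right (by linarith only [ha]) (sq_nonneg b)
    have e2 : r * b ^ 2 ≤ ε * r ^ 2 := mul_le_mul hrε hb (sq_nonneg b) hε.le
    linarith only [e1, e2]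
  have h4 : r ^ 4 ≤ ε * r ^ 2 / 4 := by
    have e1 : r * r ≤ ε * (1 / 4) := mul_le_mul hrε hr1 hr.le hε.le
    have e2 : r ^ 4 = r * r * r ^ 2 := by ring
    rw [e2]
    have := mul_le_mul_of_nonneg_right e1 hr2.le
    linarith only [this]
  have h5 : b ^ 4 ≤ r ^ 4 := by
    have e1 : b ^ 4 = b ^ 2 * b ^ 2 := by ring
    have e2 : r ^ 4 = r ^ 2 * r ^ 2 := by ring
    rw [e1, e2]
    exact mul_le_mul hb hb (sq_nonneg b) hr2.le
  have h6 : ε ^ 2 * r ^ 4 ≤ ε * r ^ 2 / 4 := by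
    have e1 : ε ^ 2 ≤ 1 := by (clear * - hε1 hr hrε; nlinarith only [hr, hrε, hε1])
    have : ε ^ 2 * r ^ 4 ≤ 1 * r ^ 4 := mul_le_mul_of_nonneg_right e1 (by positivity)
    (clear * - h4 this; linarith)
  have h7 : (b ^ 2 / 4 - ε * r ^ 2) ^ 2 ≤ 2 * (b ^ 4 / 16) + 2 * (ε ^ 2 * r ^ 4) := by
    linarith only [sq_nonneg (b ^ 2 / 4 + ε * r ^ 2)]
  have h8 : 3 / 2 * (ε * r ^ 2) ≤ X * (ε * r ^ 2) :=
    mul_le_mul_of_nonneg_right (by linarith only [hr1, ha, hX]) (by positivity)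
  have h9 : X * b ^ 2 = 2 * b ^ 2 - a * b ^ 2 := by rw [hX]; ring
  have h10 : (X + b ^ 2 / 4 - ε * r ^ 2) ^ 2 =
      X ^ 2 + X * b ^ 2 / 2 - 2 * (X * (ε * r ^ 2)) + (b ^ 2 / 4 - ε * r ^ 2) ^ 2 := by ring
  have hp : 0 < ε * r ^ 2 := by positivity
  rw [h10]
  linarith only [h1, h4, h5, h6, h7, h8, h9, hp]

theorem norm_low {τ : ℂ} {ε : ℝ} (hε1 : ε ≤ 1) (h1 : ‖τ‖ ≤ 1 / 4) (h2 : ‖τ‖ ≤ ε) (h0 : τ ≠ 0) :
    1 - τ.re + τ.im ^ 2 / 4 - ε * ‖τ‖ ^ 2 < ‖2 - τ‖ - 1 := by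
  have hn : 0 < ‖τ‖ := norm_pos_iff.2 h0
  have ha := Complex.abs_re_le_norm τ
  have hsq : ‖τ‖ ^ 2 = τ.re ^ 2 + τ.im ^ 2 := by
    rw [← Complex.normSq_eq_norm_sq, Complex.normSq_apply]
    ring
  have hsq2 : ‖2 - τ‖ ^ 2 = (2 - τ.re) ^ 2 + τ.im ^ 2 := by
    rw [← Complex.normSq_eq_norm_sq, Complex.normSq_apply]
    simp
    ring
  have hx : (2 - τ.re) + τ.im ^ 2 / 4 - ε * ‖τ‖ ^ 2 < ‖2 - τ‖ := by
    refine lt_of_pow_lt_pow_left₀ 2 (norm_nonneg _) ?_
    rw [hsq2]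
    exact real_low hn h1 h2 hε1 hsq ha rfl
  linarith only [hx]

/-- the lower bound near `t = 2` -/
theorem low_near {ε : ℝ} (hε : 0 < ε) : ∃ δ : ℝ, 0 < δ ∧ ∀ τ : ℂ, τ ≠ 0 → ‖τ‖ < δ →
    Low (2 - τ) (1 - τ.re + τ.im ^ 2 / 4 - ε * ‖τ‖ ^ 2) := by
  refine ⟨min (1 / 4) (min ε 1), by (clear * - hε; positivity), fun τ h0 hτ => ?_⟩
  have h1 : ‖τ‖ ≤ 1 / 4 := hτ.le.trans (min_le_left _ _)
  have h2 : ‖τ‖ ≤ min ε 1 := hτ.le.trans (min_le_right _ _)
  have h5 : min ε 1 * ‖τ‖ ^ 2 ≤ ε * ‖τ‖ ^ 2 :=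
    mul_le_mul_of_nonneg_right (min_le_left _ _) (by positivity)
  refine low_all ?_ (lt_of_le_of_lt ?_ (norm_low (min_le_right ε 1) h1 h2 h0))
  · have h3 := norm_sub_norm_le (2 : ℂ) τ
    have h4 : ‖(2 : ℂ)‖ = 2 := by simp
    rw [h4] at h3
    (clear * - h1 h3; linarith only [h1, h3])
  · (clear * - h5; linarith only [h5])

end Pool.Agent.Helper39.G4L
end

/- Helper24.K6w.H39.G4L.Two -/
section
/-!
# Project G4 (MP_16b0ee_an): the behaviour near `t = 2`, both bounds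

`Upper t s`: the circle means of `|exp (t h)|`, `h = log ψ'`, are `O ((R² / (R² - 1))^s)` uniformly in
the class. `upper_mid`: midpoint convexity. `cone`: a strict bound for real `τ` and the bound with
`1 / 4 + ε` for complex `τ` give a strict bound in a cone around the real segment.
-/

set_option autoImplicit false

open Complex MeasureTheory Metric Set Filter Topology
open scoped Real ComplexConjugate

namespace Pool.Agent.Helper39.G4L

/-- the circle means of `|exp (t h)|` are at most `C (R²/(R²-1))^s`, `C` independent of the function of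
the class and of `R` -/
def Upper (t : ℂ) (s : ℝ) : Prop :=
  ∃ C : ℝ, ∀ ψ h : ℂ → ℂ, DifferentiableOn ℂ ψ {z : ℂ | 1 < ‖z‖} →
    InjOn ψ {z : ℂ | 1 < ‖z‖} →
    (∃ b : ℂ, Filter.Tendsto (fun z => ψ z - z) (Bornology.cobounded ℂ) (nhds b)) →
    DifferentiableOn ℂ h {z : ℂ | 1 < ‖z‖} →
    (∀ z : ℂ, 1 < ‖z‖ → Complex.exp (h z) = deriv ψ z) →
    Filter.Tendsto h (Bornology.cobounded ℂ) (nhds 0) →
    ∀ R : ℝ, 1 < R →
      (2 * π)⁻¹ *
        (∫ θ in (0:ℝ)..(2 * π), ‖Complex.exp (t * h (R * Complex.exp (θ * I)))‖) ≤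
        C * (R ^ 2 / (R ^ 2 - 1)) ^ s

theorem Y_ge {R : ℝ} (hR : 1 < R) : 1 ≤ R ^ 2 / (R ^ 2 - 1) := by
  have h1 : 0 < R ^ 2 - 1 := by (clear * - hR; nlinarith only [hR])
  rw [one_le_div h1]
  linarith only []

theorem upper_mono {t : ℂ} {s s' : ℝ} (hs : s ≤ s') (H : Upper t s) : Upper t s' := by
  obtain ⟨C, hC⟩ := H
  refine ⟨max C 0, fun ψ h a1 a2 a3 a4 a5 a6 R h1 => (hC ψ h a1 a2 a3 a4 a5 a6 R h1).trans ?_⟩
  have h3 := Y_ge h1
  have h4 : (R ^ 2 / (R ^ 2 - 1)) ^ s ≤ (R ^ 2 / (R ^ 2 - 1)) ^ s' :=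
    Real.rpow_le_rpow_of_exponent_le h3 hs
  have h5 : 0 ≤ (R ^ 2 / (R ^ 2 - 1)) ^ s := by (clear * - h3; positivity)
  calc C * (R ^ 2 / (R ^ 2 - 1)) ^ s ≤ max C 0 * (R ^ 2 / (R ^ 2 - 1)) ^ s :=
        mul_le_mul_of_nonneg_right (le_max_left _ _) h5
    _ ≤ max C 0 * (R ^ 2 / (R ^ 2 - 1)) ^ s' :=
        mul_le_mul_of_nonneg_left h4 (le_max_right _ _)

theorem mid_point (t₁ t₂ w : ℂ) {x : ℝ} (hx : 0 < x) :
    ‖Complex.exp ((t₁ + t₂) / 2 * w)‖ ≤
      (x * ‖Complex.exp (t₁ * w)‖ + x⁻¹ * ‖Complex.exp (t₂ * w)‖) / 2 := by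
  have e1 : Complex.exp (t₁ * w) = Complex.exp (t₁ * w / 2) ^ 2 := by
    rw [← Complex.exp_nat_mul]
    congr 1
    push_cast
    ring
  have e2 : Complex.exp (t₂ * w) = Complex.exp (t₂ * w / 2) ^ 2 := by
    rw [← Complex.exp_nat_mul]
    congr 1
    push_cast
    ring
  have e3 : Complex.exp ((t₁ + t₂) / 2 * w) =
      Complex.exp (t₁ * w / 2) * Complex.exp (t₂ * w / 2) := by
    rw [← Complex.exp_add]
    congr 1
    ring
  rw [e1, e2, e3, norm_mul, norm_pow, norm_pow]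
  obtain ⟨a, ha⟩ : ∃ a : ℝ, a = ‖Complex.exp (t₁ * w / 2)‖ := ⟨_, rfl⟩
  obtain ⟨b, hb⟩ : ∃ b : ℝ, b = ‖Complex.exp (t₂ * w / 2)‖ := ⟨_, rfl⟩
  rw [← ha, ← hb]
  have h1 : 0 ≤ x⁻¹ * (x * a - b) ^ 2 := by (clear * - hx; positivity)
  have h2 : x⁻¹ * (x * a - b) ^ 2 = x * a ^ 2 - 2 * (a * b) + x⁻¹ * b ^ 2 := by
    field_simp
    ring
  (clear * - h1 h2; linarith only [h1, h2])

/-- midpoint convexity -/
theorem upper_mid {t₁ t₂ : ℂ} {s₁ s₂ : ℝ} (H₁ : Upper t₁ s₁) (H₂ : Upper t₂ s₂) :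
    Upper ((t₁ + t₂) / 2) ((s₁ + s₂) / 2) := by
  obtain ⟨C₁, hC₁⟩ := H₁
  obtain ⟨C₂, hC₂⟩ := H₂
  refine ⟨(C₁ + C₂) / 2, fun ψ h a1 a2 a3 a4 a5 a6 R hR => ?_⟩
  have k1 := hC₁ ψ h a1 a2 a3 a4 a5 a6 R hR
  have k2 := hC₂ ψ h a1 a2 a3 a4 a5 a6 R hR
  obtain ⟨Y, hY⟩ : ∃ Y : ℝ, Y = R ^ 2 / (R ^ 2 - 1) := ⟨_, rfl⟩
  have hY1 : 1 ≤ Y := by rw [hY]; exact Y_ge hR
  have hY0 : 0 < Y := by linarith only [hY1]
  rw [← hY] at k1 k2 ⊢
  obtain ⟨x, hx⟩ : ∃ x : ℝ, x = Y ^ ((s₂ - s₁) / 2) := ⟨_, rfl⟩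
  have hx0 : 0 < x := by rw [hx]; (clear * - hY1; positivity)
  have hR0 : 0 < R := by (clear * - hR; linarith only [hR])
  have hout : ∀ θ : ℝ, 1 < ‖(R : ℂ) * Complex.exp (θ * I)‖ := by
    intro θ
    rw [norm_mul, Complex.norm_exp_ofReal_mul_I, mul_one, Complex.norm_real,
      Real.norm_of_nonneg hR0.le]
    exact hR
  have hc : ∀ t : ℂ, Continuous fun θ : ℝ =>
      ‖Complex.exp (t * h (R * Complex.exp (θ * I)))‖ := by
    intro t
    have h1 : Continuous (fun θ : ℝ => h (R * Complex.exp (θ * I))) :=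
      a4.continuousOn.comp_continuous (by fun_prop) hout
    exact continuous_norm.comp (Complex.continuous_exp.comp (continuous_const.mul h1))
  have hpi : (0:ℝ) ≤ 2 * π := by positivity
  have hle : ∫ θ in (0:ℝ)..(2 * π),
      ‖Complex.exp ((t₁ + t₂) / 2 * h (R * Complex.exp (θ * I)))‖ ≤
      ∫ θ in (0:ℝ)..(2 * π), (x / 2 * ‖Complex.exp (t₁ * h (R * Complex.exp (θ * I)))‖ +
        x⁻¹ / 2 * ‖Complex.exp (t₂ * h (R * Complex.exp (θ * I)))‖) := by
    refine intervalIntegral.integral_mono_on hpi ((hc _).intervalIntegrable _ _)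
      (((continuous_const.mul (hc _)).add (continuous_const.mul (hc _))).intervalIntegrable _ _)
      fun θ _ => ?_
    have := mid_point t₁ t₂ (h (R * Complex.exp (θ * I))) hx0
    linarith only [this]
  have hadd : ∫ θ in (0:ℝ)..(2 * π),
      (x / 2 * ‖Complex.exp (t₁ * h (R * Complex.exp (θ * I)))‖ +
        x⁻¹ / 2 * ‖Complex.exp (t₂ * h (R * Complex.exp (θ * I)))‖) =
      x / 2 * (∫ θ in (0:ℝ)..(2 * π), ‖Complex.exp (t₁ * h (R * Complex.exp (θ * I)))‖) +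
        x⁻¹ / 2 * (∫ θ in (0:ℝ)..(2 * π), ‖Complex.exp (t₂ * h (R * Complex.exp (θ * I)))‖) := by
    rw [← intervalIntegral.integral_const_mul, ← intervalIntegral.integral_const_mul]
    exact intervalIntegral.integral_add ((continuous_const.mul (hc _)).intervalIntegrable _ _)
      ((continuous_const.mul (hc _)).intervalIntegrable _ _)
  rw [hadd] at hle
  have e1 : x * Y ^ s₁ = Y ^ ((s₁ + s₂) / 2) := by
    rw [hx, ← Real.rpow_add hY0]
    congr 1
    ring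
  have e2 : x⁻¹ * Y ^ s₂ = Y ^ ((s₁ + s₂) / 2) := by
    rw [hx, ← Real.rpow_neg hY0.le, ← Real.rpow_add hY0]
    congr 1
    ring
  have k3 := mul_le_mul_of_nonneg_left k1 (show 0 ≤ x / 2 by positivity)
  have k4 := mul_le_mul_of_nonneg_left k2 (show 0 ≤ x⁻¹ / 2 by positivity)
  have k5 := mul_le_mul_of_nonneg_left hle (show 0 ≤ (2 * π)⁻¹ by positivity)
  have e3 : x / 2 * (C₁ * Y ^ s₁) = C₁ / 2 * Y ^ ((s₁ + s₂) / 2) := by
    rw [← e1]; ring
  have e4 : x⁻¹ / 2 * (C₂ * Y ^ s₂) = C₂ / 2 * Y ^ ((s₁ + s₂) / 2) := by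
    rw [← e2]; ring
  rw [e3] at k3
  rw [e4] at k4
  refine k5.trans ?_
  rw [mul_add]
  have e5 : (C₁ + C₂) / 2 * Y ^ ((s₁ + s₂) / 2) =
      C₁ / 2 * Y ^ ((s₁ + s₂) / 2) + C₂ / 2 * Y ^ ((s₁ + s₂) / 2) := by ring
  rw [e5]
  refine add_le_add (le_trans (le_of_eq ?_) k3) (le_trans (le_of_eq ?_) k4) <;> ring

/-- from the moments of `ψ'` -/
theorem upper_real {p s : ℝ}
    (H : ∃ C : ℝ, ∀ ψ : ℂ → ℂ,
      DifferentiableOn ℂ ψ {z : ℂ | 1 < ‖z‖} → Set.InjOn ψ {z : ℂ | 1 < ‖z‖} →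
      (∃ b : ℂ, Filter.Tendsto (fun z => ψ z - z) (Bornology.cobounded ℂ) (nhds b)) →
      ∀ R : ℝ, 1 < R →
      (1 / (2 * π)) * ∫ θ in (0:ℝ)..(2 * π),
        ‖deriv ψ ((R : ℂ) * Complex.exp ((θ : ℂ) * Complex.I))‖ ^ p ≤
        C * (R ^ 2 / (R ^ 2 - 1)) ^ s) : Upper (p : ℂ) s := by
  obtain ⟨C, hC⟩ := H
  refine ⟨C, fun ψ h a1 a2 a3 _ a5 _ R h1 => ?_⟩
  refine le_of_eq_of_le ?_ (hC ψ a1 a2 a3 R h1)
  rw [one_div]
  congr 1
  refine intervalIntegral.integral_congr fun θ _ => ?_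
  have hz : 1 < ‖(R : ℂ) * Complex.exp (θ * I)‖ := by
    rw [norm_mul, Complex.norm_exp_ofReal_mul_I, mul_one, Complex.norm_real, Real.norm_eq_abs]
    exact lt_of_lt_of_le h1 (le_abs_self R)
  have hw := a5 _ hz
  rw [← hw, Complex.norm_exp, Complex.norm_exp, ← Real.exp_mul, Complex.re_ofReal_mul]
  congr 1
  ring

/-- a strict bound in a cone -/
theorem cone
    (H3 : ∃ c : ℝ, 0 < c ∧ ∃ δ₀ : ℝ, 0 < δ₀ ∧ ∀ δ : ℝ, 0 < δ → δ < δ₀ →
      Upper ((2 - δ : ℝ) : ℂ) (1 - δ + (1 / 4 - c) * δ ^ 2))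
    (H4 : ∀ ε : ℝ, 0 < ε → ∃ δ₀ : ℝ, 0 < δ₀ ∧ ∀ τ : ℂ, τ ≠ 0 → ‖τ‖ < δ₀ →
      Upper (2 - τ) (1 - τ.re + (1 / 4 + ε) * ‖τ‖ ^ 2)) :
    ∃ c : ℝ, 0 < c ∧ ∃ δ₀ : ℝ, 0 < δ₀ ∧ ∀ τ : ℂ, τ ≠ 0 → ‖τ‖ < δ₀ → |τ.im| ≤ c * τ.re →
      Upper (2 - τ) (1 - τ.re + (1 / 4 - c) * ‖τ‖ ^ 2) := by
  obtain ⟨c₀, hc₀, δ₁, hδ₁, h3⟩ := H3
  obtain ⟨c, hc, hc1, hc2⟩ : ∃ c : ℝ, 0 < c ∧ c ≤ c₀ ∧ c ≤ 1 :=
    ⟨min c₀ 1, by positivity, min_le_left _ _, min_le_right _ _⟩
  obtain ⟨δ₂, hδ₂, h4⟩ := H4 (c / 4) (by positivity)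
  refine ⟨c / 8, by positivity, min δ₁ (δ₂ / 3), by positivity, fun τ h0 hτ him => ?_⟩
  obtain ⟨a, ha⟩ : ∃ a : ℝ, a = τ.re := ⟨_, rfl⟩
  obtain ⟨b, hb⟩ : ∃ b : ℝ, b = τ.im := ⟨_, rfl⟩
  have hτe : τ = ⟨a, b⟩ := by rw [ha, hb]
  rw [← ha, ← hb] at him
  have ha0 : 0 < a := by
    by_contra hneg
    push Not at hneg
    have h1 : |b| ≤ 0 := him.trans (mul_nonpos_of_nonneg_of_nonpos (by positivity) hneg)
    have h2 : b = 0 := abs_eq_zero.1 (le_antisymm h1 (abs_nonneg b))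
    have h3 : 0 ≤ a := by
      rw [h2, abs_zero] at him
      by_contra h4
      push Not at h4
      have : c / 8 * a < 0 := mul_neg_of_pos_of_neg (by positivity) h4
      linarith only [him, this]
    apply h0
    rw [hτe, h2, le_antisymm hneg h3]
    rfl
  have hτ1 : ‖τ‖ < δ₁ := hτ.trans_le (min_le_left _ _)
  have hτ2 : ‖τ‖ < δ₂ / 3 := hτ.trans_le (min_le_right _ _)
  have haτ : a ≤ ‖τ‖ := by rw [ha]; exact Complex.re_le_norm τ
  have hbτ : |b| ≤ ‖τ‖ := by rw [hb]; exact Complex.abs_im_le_norm τ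
  have k1 := h3 a ha0 (by (clear * - hτ1 haτ; linarith only [hτ1, haτ]))
  obtain ⟨τ', hτ'⟩ : ∃ τ' : ℂ, τ' = ⟨a, 2 * b⟩ := ⟨_, rfl⟩
  have hn : ‖τ'‖ ≤ a + 2 * |b| := by
    refine (Complex.norm_le_abs_re_add_abs_im _).trans (le_of_eq ?_)
    rw [hτ']
    show |a| + |2 * b| = _
    rw [abs_of_pos ha0, abs_mul, abs_two]
  have hne : τ' ≠ 0 := by
    intro h
    have h1 := congrArg Complex.re h
    rw [hτ'] at h1
    exact ha0.ne' h1
  have k2 := h4 τ' hne (by (clear * - hτ2 haτ hbτ hn; linarith only [hτ2, haτ, hbτ, hn]))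
  have k3 := upper_mid k1 k2
  have e1 : (((2 - a : ℝ) : ℂ) + (2 - τ')) / 2 = 2 - τ := by
    rw [hτe, hτ']
    apply Complex.ext
    · simp
    · simp
      ring
  rw [e1] at k3
  refine upper_mono ?_ k3
  have n1 : ‖τ‖ ^ 2 = a ^ 2 + b ^ 2 := by
    rw [← Complex.normSq_eq_norm_sq, Complex.normSq_apply, ha, hb]
    ring
  have n2 : ‖τ'‖ ^ 2 = a ^ 2 + 4 * b ^ 2 := by
    rw [← Complex.normSq_eq_norm_sq, Complex.normSq_apply, hτ']
    ring
  have r1 : τ'.re = a := by rw [hτ']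
  rw [n1, n2, r1, ← ha]
  have hb2 : b ^ 2 ≤ (c / 8) ^ 2 * a ^ 2 := by
    rw [← sq_abs, ← mul_pow]
    exact pow_le_pow_left₀ (abs_nonneg b) him 2
  have hb3 : (c / 8) ^ 2 * a ^ 2 ≤ c / 64 * a ^ 2 := by
    refine mul_le_mul_of_nonneg_right ?_ (sq_nonneg a)
    (clear * - hc2 hc; nlinarith only [hc, hc2])
  have hca : (c₀ - c) * a ^ 2 ≥ 0 := mul_nonneg (by linarith only [hc1]) (sq_nonneg a)
  have hcb : c * b ^ 2 ≤ 1 * b ^ 2 := mul_le_mul_of_nonneg_right hc2 (sq_nonneg b)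
  nlinarith only [hb2, hb3, hca, hcb]

end Pool.Agent.Helper39.G4L
end

/- Helper24.K6w.H5.TR.Gauge -/
section
set_option autoImplicit false
open Complex MeasureTheory Metric Set Filter Topology
open scoped Real ComplexConjugate

/-! The second order of the spectrum at `2`: one statement for all directions. `gauge`: from the bound
for all complex exponents and the strict bound in the sectors of the right half plane; `gauge_real`:
from the bound for all complex exponents and the strict bound for real exponents below `2`;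
`near_two`, `near_two_real`: together with the lower bound. -/

namespace Pool.Agent.Helper5.TR

open Pool.Agent.Helper39.G4L (Low low_near Upper)

/-- closed left half plane: from the bound for complex exponents and Hölder's inequality -/
theorem left_half
    (G4 : ∀ ε : ℝ, 0 < ε → ∃ d : ℝ, 0 < d ∧ ∀ τ : ℂ, τ ≠ 0 → ‖τ‖ < d →
      UpAt (2 - τ) (1 - τ.re + (1 / 4 + ε) * ‖τ‖ ^ 2)) :
    ∀ ε : ℝ, 0 < ε → ∃ d : ℝ, 0 < d ∧ ∀ τ : ℂ, ‖τ‖ < d → τ.re ≤ 0 →
      UpAt (2 - τ) (1 - τ.re + τ.im ^ 2 / 4 + ε * ‖τ‖ ^ 2) := by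
  intro ε hε
  obtain ⟨d₅, hd₅, G4b⟩ := G4 (ε / 2) (by (clear * - hε; positivity))
  set e : ℝ := (ε / 2) / (1 / 4 + ε) with he
  have he0 : 0 < e := by (clear * - hε; positivity)
  have heε : e * (1 / 4 + ε) = ε / 2 := by rw [he]; (clear * - hε; field_simp)
  refine ⟨min (d₅ / 2) (min e (1 / 2)), by (clear * - hd₅ hε; positivity), ?_⟩
  intro τ hτ h1
  have hτ5 : ‖τ‖ < d₅ / 2 := hτ.trans_le (min_le_left _ _)
  have hτe : ‖τ‖ < e := hτ.trans_le ((min_le_right _ _).trans (min_le_left _ _))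
  have hτh : ‖τ‖ < 1 / 2 := hτ.trans_le ((min_le_right _ _).trans (min_le_right _ _))
  have hn2 : ‖τ‖ ^ 2 = τ.re ^ 2 + τ.im ^ 2 := by
    rw [← Complex.normSq_eq_norm_sq, Complex.normSq_apply]; ring
  have hnn : 0 ≤ ‖τ‖ := norm_nonneg τ
  have habs : |τ.im| ^ 2 = τ.im ^ 2 := sq_abs _
  have hab0 : 0 ≤ |τ.im| := abs_nonneg _
  have habn : |τ.im| ≤ ‖τ‖ := Complex.abs_im_le_norm τ
  have harn : |τ.re| ≤ ‖τ‖ := Complex.abs_re_le_norm τ
  by_cases him : τ.im = 0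
  · have h2 := up_ge (y := -τ.re) (by linarith only [h1])
    have h3 : ((2 + -τ.re : ℝ) : ℂ) = 2 - τ := by
      apply Complex.ext
      · simp [sub_eq_add_neg]
      · simp [him]
    rw [h3] at h2
    refine h2.mono ?_
    have : 0 ≤ ε * ‖τ‖ ^ 2 := by (clear * - hε; positivity)
    nlinarith only [this]
  · set θ : ℝ := 1 + τ.re with hθ
    have hre : -τ.re ≤ ‖τ‖ := (neg_le_abs _).trans harn
    have hθ0 : 1 / 2 < θ := by rw [hθ]; linarith only [hτh, hre]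
    have hθ1 : θ ≤ 1 := by rw [hθ]; linarith only [h1]
    have hθp : 0 < θ := by linarith only [hθ0]
    have hz : ‖(⟨0, τ.im / θ⟩ : ℂ)‖ = |τ.im| / θ := by
      rw [← Real.sqrt_sq (norm_nonneg _), ← Complex.normSq_eq_norm_sq, Complex.normSq_apply]
      rw [show (0:ℝ) * 0 + τ.im / θ * (τ.im / θ) = (τ.im / θ) ^ 2 by ring, Real.sqrt_sq_eq_abs,
        abs_div, abs_of_pos hθp]
    have hz1 : |τ.im| / θ < d₅ := by
      rw [div_lt_iff₀ hθp]
      nlinarith only [hτ5, hab0, habn, hθ0]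
    have A := up_ge (y := 1) zero_le_one
    have A' : UpAt (2 - (-1 : ℂ)) (1 + 1) := by
      have : (2 - (-1 : ℂ)) = ((2 + 1 : ℝ) : ℂ) := by push_cast; ring
      rw [this]; exact A
    have B := G4b ⟨0, τ.im / θ⟩ (by
      intro h0
      have := congrArg Complex.im h0
      simp only [Complex.zero_im] at this
      rcases div_eq_zero_iff.1 this with h | h
      · exact him h
      · exact hθp.ne' h) (by rw [hz]; exact hz1)
    apply A'.comb B hθp.le hθ1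
    · simp only [Complex.neg_re, Complex.one_re]
      rw [hθ]; ring
    · simp only [Complex.neg_im, Complex.one_im]
      field_simp
      ring
    · rw [hz]
      simp only
      have e1 : θ * (1 - 0 + (1 / 4 + ε / 2) * (|τ.im| / θ) ^ 2) =
          θ + (1 / 4 + ε / 2) * (τ.im ^ 2 / θ) := by
        rw [div_pow, habs]; field_simp
        ring
      have e2 : (1 / 4 + ε / 2) * (τ.im ^ 2 / θ) ≤ (1 / 4 + ε) * τ.im ^ 2 := by
        rw [← mul_div_assoc, div_le_iff₀ hθp]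
        have e3 : 1 / 4 + ε / 2 ≤ (1 / 4 + ε) * θ := by
          rw [hθ]
          (clear * - heε hτe hre hε; nlinarith only [hε, heε, hτe, hre])
        nlinarith only [e3]
      rw [e1]
      have e4 : (1 - θ) * (1 + 1) + θ = 1 - τ.re := by rw [hθ]; ring
      have e5 : ε * τ.im ^ 2 ≤ ε * ‖τ‖ ^ 2 :=
        mul_le_mul_of_nonneg_left (by rw [hn2]; nlinarith only []) hε.le
      linarith only [e2, e5]

/-- a positive lower bound for finitely many positive numbers -/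
theorem exists_low (d : ℕ → ℝ) (hd : ∀ n, 0 < d n) (N : ℕ) :
    ∃ D : ℝ, 0 < D ∧ ∀ n < N, D ≤ d n := by
  induction N with
  | zero => exact ⟨1, one_pos, fun n hn => absurd hn (Nat.not_lt_zero n)⟩
  | succ N ih =>
    obtain ⟨D, hD, h⟩ := ih
    refine ⟨min D (d N), lt_min hD (hd N), fun n hn => ?_⟩
    rcases Nat.lt_succ_iff_lt_or_eq.1 hn with h1 | h1
    · exact (min_le_left _ _).trans (h n h1)
    · rw [h1]; exact min_le_right _ _

/-- all directions, from the bound for complex exponents and the strict bound in the sectors of the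
right half plane -/
theorem gauge
    (G4 : ∀ ε : ℝ, 0 < ε → ∃ d : ℝ, 0 < d ∧ ∀ τ : ℂ, τ ≠ 0 → ‖τ‖ < d →
      UpAt (2 - τ) (1 - τ.re + (1 / 4 + ε) * ‖τ‖ ^ 2))
    (G5 : ∀ e : ℝ, 0 < e → ∃ c : ℝ, 0 < c ∧ ∃ d : ℝ, 0 < d ∧ ∀ τ : ℂ, τ ≠ 0 → ‖τ‖ < d →
      e * ‖τ‖ ≤ τ.re → UpAt (2 - τ) (1 - τ.re + (1 / 4 - c) * ‖τ‖ ^ 2)) :
    ∃ q : ℝ → ℝ, (∀ s : ℝ, s ≤ 0 → q s = 1 - s ^ 2) ∧ (∀ s : ℝ, 0 < s → q s < 1) ∧
      ∀ ε : ℝ, 0 < ε → ∃ d : ℝ, 0 < d ∧ ∀ τ : ℂ, τ ≠ 0 → ‖τ‖ < d →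
        UpAt (2 - τ) (1 - τ.re + (q (τ.re / ‖τ‖) / 4 + ε) * ‖τ‖ ^ 2) := by
  have H : ∀ n : ℕ, ∃ c : ℝ, 0 < c ∧ ∃ d : ℝ, 0 < d ∧ ∀ τ : ℂ, τ ≠ 0 → ‖τ‖ < d →
      1 / ((n : ℝ) + 1) * ‖τ‖ ≤ τ.re → UpAt (2 - τ) (1 - τ.re + (1 / 4 - c) * ‖τ‖ ^ 2) :=
    fun n => G5 _ (by (clear * -; positivity))
  choose c hc d hd H using H
  refine ⟨fun s => if s ≤ 0 then 1 - s ^ 2 else
    1 - 4 * min (c ⌈1 / s⌉₊) (1 / ((⌈1 / s⌉₊ : ℝ) + 1)), ?_, ?_, ?_⟩
  · intro s hs
    simp only [if_pos hs]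
  · intro s hs
    simp only [if_neg (not_le.2 hs)]
    have : 0 < min (c ⌈1 / s⌉₊) (1 / ((⌈1 / s⌉₊ : ℝ) + 1)) := lt_min (hc _) (by positivity)
    (clear * - this; linarith only [this])
  · intro ε hε
    obtain ⟨N, hN⟩ := exists_nat_one_div_lt (K := ℝ) (show (0:ℝ) < ε / 2 by positivity)
    obtain ⟨D, hD, hDd⟩ := exists_low d hd N
    obtain ⟨d₁, hd₁, h₁⟩ := left_half G4 ε hε
    obtain ⟨d₂, hd₂, h₂⟩ := G4 (ε / 2) (by positivity)
    refine ⟨min D (min d₁ d₂), lt_min hD (lt_min hd₁ hd₂), ?_⟩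
    intro τ h0 hτ
    have hτD : ‖τ‖ < D := hτ.trans_le (min_le_left _ _)
    have hτ1 : ‖τ‖ < d₁ := hτ.trans_le ((min_le_right _ _).trans (min_le_left _ _))
    have hτ2 : ‖τ‖ < d₂ := hτ.trans_le ((min_le_right _ _).trans (min_le_right _ _))
    have hn : 0 < ‖τ‖ := norm_pos_iff.2 h0
    have hn2 : ‖τ‖ ^ 2 = τ.re ^ 2 + τ.im ^ 2 := by
      rw [← Complex.normSq_eq_norm_sq, Complex.normSq_apply]; ring
    rcases le_or_gt τ.re 0 with h | h
    · have hs : τ.re / ‖τ‖ ≤ 0 := div_nonpos_of_nonpos_of_nonneg h hn.le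
      simp only [if_pos hs]
      refine (h₁ τ hτ1 h).mono (le_of_eq ?_)
      have : (τ.re / ‖τ‖) ^ 2 * ‖τ‖ ^ 2 = τ.re ^ 2 := by
        rw [div_pow]; (clear * - h0; field_simp)
      have e1 : ((1 - (τ.re / ‖τ‖) ^ 2) / 4 + ε) * ‖τ‖ ^ 2 =
          (‖τ‖ ^ 2 - (τ.re / ‖τ‖) ^ 2 * ‖τ‖ ^ 2) / 4 + ε * ‖τ‖ ^ 2 := by ring
      rw [e1, this, hn2]
      ring
    · have hs : 0 < τ.re / ‖τ‖ := div_pos h hn
      simp only [if_neg (not_le.2 hs)]
      set s : ℝ := τ.re / ‖τ‖ with hsd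
      set n : ℕ := ⌈1 / s⌉₊ with hnd
      have hns : 1 / s ≤ (n : ℝ) := Nat.le_ceil _
      have hsec : 1 / ((n : ℝ) + 1) * ‖τ‖ ≤ τ.re := by
        have e1 : τ.re = s * ‖τ‖ := by rw [hsd]; (clear * - h0 h; field_simp)
        rw [e1]
        apply mul_le_mul_of_nonneg_right _ hn.le
        rw [div_le_iff₀ (by (clear * - h h0; positivity))]
        rw [div_le_iff₀ hs] at hns
        nlinarith only [hns]
      rcases lt_or_ge n N with hnN | hnN
      · refine (H n τ h0 (hτD.trans_le (hDd n hnN)) hsec).mono ?_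
        have e1 : min (c n) (1 / ((n : ℝ) + 1)) ≤ c n := min_le_left _ _
        have e2 : (1 / 4 - c n) * ‖τ‖ ^ 2 ≤
            ((1 - 4 * min (c n) (1 / ((n : ℝ) + 1))) / 4 + ε) * ‖τ‖ ^ 2 :=
          mul_le_mul_of_nonneg_right (by linarith only [hε, e1]) (by positivity)
        linarith only [e2]
      · refine (h₂ τ h0 hτ2).mono ?_
        have e0 : 1 / ((n : ℝ) + 1) ≤ 1 / ((N : ℝ) + 1) := by
          apply one_div_le_one_div_of_le (by (clear * -; positivity))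
          have : (N : ℝ) ≤ n := by exact_mod_cast hnN
          (clear * - this; linarith only [this])
        have e1 : min (c n) (1 / ((n : ℝ) + 1)) ≤ 1 / ((n : ℝ) + 1) := min_le_right _ _
        have e2 : (1 / 4 + ε / 2) * ‖τ‖ ^ 2 ≤
            ((1 - 4 * min (c n) (1 / ((n : ℝ) + 1))) / 4 + ε) * ‖τ‖ ^ 2 :=
          mul_le_mul_of_nonneg_right (by (clear * - hN e0 e1; linarith only [hN, e0, e1])) (by positivity)
        linarith only [e2]

/-- conversion: my class with `h` differentiable to the form with all conditions written out -/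
theorem UpAt.upper {t : ℂ} {s : ℝ} (H : UpAt t s) : Upper t s := by
  obtain ⟨C, hC⟩ := H
  exact ⟨C, fun ψ h a1 a2 a3 a4 a5 a6 R hR => hC ψ h ⟨a1, a2, a3, a4, a5, a6⟩ R hR⟩

/-- conversion from the class with `h` continuous -/
theorem upAt_of_sg {t : ℂ} {s : ℝ}
    (H : ∃ C : ℝ, ∀ ψ h : ℂ → ℂ, Pool.Agent.Helper26.G4.Sg ψ h → ∀ R : ℝ, 1 < R →
      (1 / (2 * π)) * ∫ θ in (0:ℝ)..(2 * π),
        ‖Complex.exp (t * h ((R : ℂ) * Complex.exp ((θ : ℂ) * Complex.I)))‖ ≤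
      C * (R ^ 2 / (R ^ 2 - 1)) ^ s) : UpAt t s := by
  obtain ⟨C, hC⟩ := H
  refine ⟨C, fun ψ h a R hR => ?_⟩
  refine le_of_eq_of_le ?_
    (hC ψ h ⟨a.diff, a.inj, a.lim, a.hdiff.continuousOn, a.hexp, a.hlim⟩ R hR)
  rw [one_div]

/-- The behaviour of the spectrum near `2` in all directions. -/
theorem near_two
    (H4 : ∀ ε : ℝ, 0 < ε → ∃ δ₀ : ℝ, 0 < δ₀ ∧ ∀ τ : ℂ, τ ≠ 0 → ‖τ‖ < δ₀ → ∃ C : ℝ,
      ∀ ψ h : ℂ → ℂ, Pool.Agent.Helper26.G4.Sg ψ h → ∀ R : ℝ, 1 < R →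
        (1 / (2 * π)) * ∫ θ in (0:ℝ)..(2 * π),
          ‖Complex.exp ((2 - τ) * h ((R : ℂ) * Complex.exp ((θ : ℂ) * Complex.I)))‖ ≤
        C * (R ^ 2 / (R ^ 2 - 1)) ^ (1 - τ.re + (1 / 4 + ε) * ‖τ‖ ^ 2))
    (H5 : ∀ e : ℝ, 0 < e → ∃ c : ℝ, 0 < c ∧ ∃ δ₀ : ℝ, 0 < δ₀ ∧ ∀ τ : ℂ, τ ≠ 0 → ‖τ‖ < δ₀ →
      e * ‖τ‖ ≤ τ.re → ∃ C : ℝ,
      ∀ ψ h : ℂ → ℂ, Pool.Agent.Helper26.G4.Sg ψ h → ∀ R : ℝ, 1 < R →
        (1 / (2 * π)) * ∫ θ in (0:ℝ)..(2 * π),
          ‖Complex.exp ((2 - τ) * h ((R : ℂ) * Complex.exp ((θ : ℂ) * Complex.I)))‖ ≤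
        C * (R ^ 2 / (R ^ 2 - 1)) ^ (1 - τ.re + (1 / 4 - c) * ‖τ‖ ^ 2)) :
    ∃ q : ℝ → ℝ, (∀ s : ℝ, s ≤ 0 → q s = 1 - s ^ 2) ∧ (∀ s : ℝ, 0 < s → q s < 1) ∧
      ∀ ε : ℝ, 0 < ε → ∃ d : ℝ, 0 < d ∧ ∀ τ : ℂ, τ ≠ 0 → ‖τ‖ < d →
        Upper (2 - τ) (1 - τ.re + (q (τ.re / ‖τ‖) / 4 + ε) * ‖τ‖ ^ 2) ∧
        Low (2 - τ) (1 - τ.re + τ.im ^ 2 / 4 - ε * ‖τ‖ ^ 2) := by
  obtain ⟨q, q1, q2, h⟩ := gauge
    (fun ε hε => by
      obtain ⟨d, hd, h⟩ := H4 ε hε
      exact ⟨d, hd, fun τ h0 hτ => upAt_of_sg (h τ h0 hτ)⟩)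
    (fun e he => by
      obtain ⟨c, hc, d, hd, h⟩ := H5 e he
      exact ⟨c, hc, d, hd, fun τ h0 hτ hs => upAt_of_sg (h τ h0 hτ hs)⟩)
  refine ⟨q, q1, q2, fun ε hε => ?_⟩
  obtain ⟨d₁, hd₁, h₁⟩ := h ε hε
  obtain ⟨d₂, hd₂, h₂⟩ := low_near hε
  exact ⟨min d₁ d₂, lt_min hd₁ hd₂, fun τ h0 hτ =>
    ⟨(h₁ τ h0 (hτ.trans_le (min_le_left _ _))).upper,
      h₂ τ h0 (hτ.trans_le (min_le_right _ _))⟩⟩

end Pool.Agent.Helper5.TR
end

/- Helper24.K6w.H12.G5.Ray -/
section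
/-!
# The ray `t ≥ 2`

`B(t) ≤ B(t') + |t - t'|` (Goluzin's inequality), and its use with `t' = 2 exp (i arg t)`.
-/

set_option autoImplicit false

namespace Pool.Agent.Helper5.TR

open Complex MeasureTheory Metric Set Filter Topology
open scoped Real ComplexConjugate

/-- moving the exponent by Goluzin's inequality -/
theorem UpAt.move {t' : ℂ} {b : ℝ} (H : UpAt t' b) (t : ℂ) : UpAt t (b + ‖t - t'‖) := by
  obtain ⟨C, hC, H⟩ := H.pos
  refine ⟨C, ?_⟩
  intro ψ h hs R hR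
  set X : ℝ := R ^ 2 / (R ^ 2 - 1) with hX
  have hX1 : 1 < X := one_lt_quot hR
  have hX0 : 0 < X := by linarith only [hX1]
  have hcont := hs.cont hR
  have hpt : ∀ s : ℝ, ‖Complex.exp (t * h (R * Complex.exp (s * I)))‖ ≤
      X ^ ‖t - t'‖ * ‖Complex.exp (t' * h (R * Complex.exp (s * I)))‖ := by
    intro s
    have e1 : t * h (R * Complex.exp (s * I)) =
        (t - t') * h (R * Complex.exp (s * I)) + t' * h (R * Complex.exp (s * I)) := by
      ring
    rw [e1, Complex.exp_add, norm_mul]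
    apply mul_le_mul_of_nonneg_right _ (norm_nonneg _)
    rw [Complex.norm_exp, Real.rpow_def_of_pos hX0, mul_comm (Real.log X)]
    apply Real.exp_le_exp.2
    refine (Complex.re_le_norm _).trans ?_
    rw [norm_mul]
    exact mul_le_mul_of_nonneg_left (hs.le hR s) (norm_nonneg _)
  have hI : (∫ s in (0:ℝ)..(2 * π), ‖Complex.exp (t * h (R * Complex.exp (s * I)))‖) ≤
      ∫ s in (0:ℝ)..(2 * π), X ^ ‖t - t'‖ * ‖Complex.exp (t' * h (R * Complex.exp (s * I)))‖ := by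
    apply intervalIntegral.integral_mono_on (by positivity)
    · exact (((Complex.continuous_exp.comp (continuous_const.mul hcont)).norm).intervalIntegrable
        _ _)
    · exact ((continuous_const.mul
        (Complex.continuous_exp.comp (continuous_const.mul hcont)).norm).intervalIntegrable _ _)
    · intro s _
      exact hpt s
  rw [intervalIntegral.integral_const_mul] at hI
  have hπ : (0:ℝ) < (2 * π)⁻¹ := by positivity
  have g := H ψ h hs R hR
  calc (2 * π)⁻¹ * (∫ s in (0:ℝ)..(2 * π), ‖Complex.exp (t * h (R * Complex.exp (s * I)))‖)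
      ≤ (2 * π)⁻¹ * (X ^ ‖t - t'‖ *
        ∫ s in (0:ℝ)..(2 * π), ‖Complex.exp (t' * h (R * Complex.exp (s * I)))‖) :=
        mul_le_mul_of_nonneg_left hI hπ.le
    _ = X ^ ‖t - t'‖ * ((2 * π)⁻¹ *
        ∫ s in (0:ℝ)..(2 * π), ‖Complex.exp (t' * h (R * Complex.exp (s * I)))‖) := by ring
    _ ≤ X ^ ‖t - t'‖ * (C * X ^ b) :=
        mul_le_mul_of_nonneg_left g (Real.rpow_nonneg hX0.le _)
    _ = C * X ^ (b + ‖t - t'‖) := by
        rw [Real.rpow_add hX0]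
        ring

/-- the whole ray `t ≥ 2`: `|t| - 1` up to `o ((arg t)²)`, uniformly in `|t|` -/
theorem ray
    (G4 : ∀ ε : ℝ, 0 < ε → ∃ d : ℝ, 0 < d ∧ ∀ τ : ℂ, τ ≠ 0 → ‖τ‖ < d →
      UpAt (2 - τ) (1 - τ.re + (1 / 4 + ε) * ‖τ‖ ^ 2)) :
    ∀ ε : ℝ, 0 < ε → ∃ d : ℝ, 0 < d ∧ ∀ t : ℂ, 2 ≤ ‖t‖ → |t.arg| < d →
      UpAt t (‖t‖ - 1 + ε * t.arg ^ 2) := by
  intro ε hε
  obtain ⟨d, hd, G4⟩ := G4 (ε / 4) (by positivity)
  refine ⟨d / 2, by positivity, fun t ht hφ => ?_⟩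
  set φ : ℝ := t.arg with hφ'
  set e : ℂ := Complex.exp (φ * I) with he
  have htp : (‖t‖ : ℂ) * e = t := Complex.norm_mul_exp_arg_mul_I t
  have hen : ‖e‖ = 1 := Complex.norm_exp_ofReal_mul_I φ
  have here : e.re = Real.cos φ := Complex.exp_ofReal_mul_I_re φ
  have heim : e.im = Real.sin φ := Complex.exp_ofReal_mul_I_im φ
  have hmove : ‖t - 2 * e‖ = ‖t‖ - 2 := by
    have e1 : t - 2 * e = ((‖t‖ - 2 : ℝ) : ℂ) * e := by
      push_cast
      rw [sub_mul, htp]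
    rw [e1, norm_mul, hen, mul_one, Complex.norm_real, Real.norm_of_nonneg (by linarith only [ht])]
  set τ : ℂ := 2 * (1 - e) with hτ
  have e2 : 2 - τ = 2 * e := by rw [hτ]; ring
  have hre : τ.re = 2 * (1 - Real.cos φ) := by
    rw [hτ]
    simp [here]
  have hsq : ‖τ‖ ^ 2 = 8 * (1 - Real.cos φ) := by
    rw [← Complex.normSq_eq_norm_sq, Complex.normSq_apply, hτ]
    simp only [Complex.mul_re, Complex.mul_im, Complex.sub_re, Complex.sub_im, Complex.one_re,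
      Complex.one_im, here, heim, Complex.re_ofNat, Complex.im_ofNat]
    have := Real.sin_sq_add_cos_sq φ
    (clear * - this; linarith only [this])
  have hcos : 1 - Real.cos φ ≤ φ ^ 2 / 2 := by
    have := Real.one_sub_sq_div_two_le_cos (x := φ)
    linarith only [this]
  have hb : UpAt (2 * e) (1 + ε * φ ^ 2) := by
    by_cases h0 : τ = 0
    · have e3 : 2 * e = 2 := by rw [← e2, h0, sub_zero]
      rw [e3]
      exact up_two.mono (by (clear * - hε; nlinarith only [hε]))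
    · have hn : ‖τ‖ < d := by
        have h1 : ‖τ‖ ^ 2 ≤ (2 * |φ|) ^ 2 := by
          rw [hsq, mul_pow, sq_abs]
          (clear * - hcos; linarith)
        have h2 : ‖τ‖ ≤ 2 * |φ| := by
          have := abs_le_of_sq_le_sq' h1 (by (clear * -; positivity))
          exact this.2
        (clear * - hφ h2; linarith)
      have h3 := G4 τ h0 hn
      rw [e2] at h3
      refine h3.mono ?_
      rw [hre, hsq]
      nlinarith only [hε, hcos]
  have h4 := hb.move t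
  rw [hmove] at h4
  refine h4.mono ?_
  (clear * -; linarith)

end Pool.Agent.Helper5.TR
end

/- Helper24.K6w.H5.TR.Shape6 -/
section
set_option autoImplicit false
open Complex MeasureTheory Metric Set Filter Topology
open scoped Real ComplexConjugate

/-! The spectrum near the ray `[2, ∞)`, with a constant: with `w = max (2 - |t|) 0` the true value
is at most `|t| - 1 + (1 / 4 - c) w² + ε (arg t)²`. The hypothesis is a strict bound in every sector
`Re τ ≥ e |τ|` of the right half plane, with a gain of the order `e²`. -/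

namespace Pool.Agent.Helper5.TR

open Pool.Agent.Helper39.G4L (Low low_all Upper)

/-- the upper bound near the ray, with a constant -/
theorem shape6_up
    (G4 : ∀ ε : ℝ, 0 < ε → ∃ d : ℝ, 0 < d ∧ ∀ τ : ℂ, τ ≠ 0 → ‖τ‖ < d →
      UpAt (2 - τ) (1 - τ.re + (1 / 4 + ε) * ‖τ‖ ^ 2))
    {c : ℝ} (hc : 0 < c) (hc8 : c ≤ 1 / 8)
    (G6 : ∀ e : ℝ, 0 < e → e ≤ 1 → ∃ d : ℝ, 0 < d ∧ ∀ τ : ℂ, τ ≠ 0 → ‖τ‖ < d →
      e * ‖τ‖ ≤ τ.re → UpAt (2 - τ) (1 - τ.re + (1 / 4 - c * e ^ 2) * ‖τ‖ ^ 2)) :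
    ∀ ε : ℝ, 0 < ε → ∃ d : ℝ, 0 < d ∧ d ≤ 1 ∧ ∀ (t : ℂ) (w : ℝ), w = max (2 - ‖t‖) 0 →
      w < d → |t.arg| < d →
      UpAt t (‖t‖ - 1 + (1 / 4 - c / 4) * w ^ 2 + ε * t.arg ^ 2) := by
  intro ε hε
  obtain ⟨n, hn⟩ := exists_nat_gt (max 2 (2 / ε))
  have hn2 : (2:ℝ) < n := (le_max_left _ _).trans_lt hn
  have hnε : 2 / ε < n := (le_max_right _ _).trans_lt hn
  have hn0 : (0:ℝ) < n := by (clear * - hn2; linarith only [hn2])
  have hnN : 0 < n := by exact_mod_cast hn0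
  have hε2 : 2 < ε * n := by rwa [div_lt_iff₀ hε, mul_comm] at hnε
  have H : ∀ j : ℕ, ∃ d : ℝ, 0 < d ∧ ∀ τ : ℂ, τ ≠ 0 → ‖τ‖ < d → 0 < j → j ≤ n →
      ((j : ℝ) / n) * ‖τ‖ ≤ τ.re →
      UpAt (2 - τ) (1 - τ.re + (1 / 4 - c * ((j : ℝ) / n) ^ 2) * ‖τ‖ ^ 2) := by
    intro j
    by_cases hj : 0 < j ∧ j ≤ n
    · have h1 : (0:ℝ) < (j : ℝ) / n := div_pos (by exact_mod_cast hj.1) hn0
      have h2 : (j : ℝ) / n ≤ 1 := by
        rw [div_le_one hn0]
        exact_mod_cast hj.2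
      obtain ⟨d, hd, h⟩ := G6 _ h1 h2
      exact ⟨d, hd, fun τ h0 hτ _ _ hs => h τ h0 hτ hs⟩
    · exact ⟨1, one_pos, fun τ _ _ h1 h2 _ => absurd ⟨h1, h2⟩ hj⟩
  choose d hd H using H
  obtain ⟨D, hD, hDd⟩ := exists_low d hd (n + 1)
  obtain ⟨d₁, hd₁, h₁⟩ := ray G4 ε hε
  obtain ⟨d₂, hd₂, h₂⟩ := G4 (ε / 8) (by (clear * - hε; positivity))
  refine ⟨min (min d₁ 1) (min (D / 3) (d₂ / 3)), by (clear * - hd₁ hD hd₂; positivity),
    (min_le_left _ _).trans (min_le_right _ _), ?_⟩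
  intro t w hw hwd hφd
  have f1 : |t.arg| < d₁ := hφd.trans_le ((min_le_left _ _).trans (min_le_left _ _))
  have f2 : |t.arg| < D / 3 := hφd.trans_le ((min_le_right _ _).trans (min_le_left _ _))
  have f3 : |t.arg| < d₂ / 3 := hφd.trans_le ((min_le_right _ _).trans (min_le_right _ _))
  have w2 : w < D / 3 := hwd.trans_le ((min_le_right _ _).trans (min_le_left _ _))
  have w3 : w < d₂ / 3 := hwd.trans_le ((min_le_right _ _).trans (min_le_right _ _))
  rcases le_or_gt 2 ‖t‖ with ht | ht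
  · have hw0 : w = 0 := by rw [hw, max_eq_right (by linarith only [ht])]
    rw [hw0]
    refine (h₁ t ht f1).mono (le_of_eq ?_)
    ring
  · have hwe : w = 2 - ‖t‖ := by rw [hw, max_eq_left (by linarith only [ht])]
    have hw0 : 0 < w := by linarith only [ht, hwe]
    set φ : ℝ := t.arg with hφ
    set τ : ℂ := 2 - t with hτ
    have hτt : 2 - τ = t := by rw [hτ]; ring
    have htre : ‖t‖ * Real.cos φ = t.re := Complex.norm_mul_cos_arg t
    have htn : ‖t‖ ^ 2 = t.re ^ 2 + t.im ^ 2 := by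
      rw [← Complex.normSq_eq_norm_sq, Complex.normSq_apply]; ring
    have hτre : τ.re = 2 - t.re := by rw [hτ]; simp
    have hτn : ‖τ‖ ^ 2 = 4 - 4 * t.re + ‖t‖ ^ 2 := by
      rw [htn, ← Complex.normSq_eq_norm_sq, Complex.normSq_apply, hτ]
      simp only [Complex.sub_re, Complex.sub_im, Complex.re_ofNat, Complex.im_ofNat]
      ring
    have htp : 0 ≤ ‖t‖ := norm_nonneg t
    have hcos1 : Real.cos φ ≤ 1 := Real.cos_le_one φ
    have hcos2 : 1 - Real.cos φ ≤ φ ^ 2 / 2 := by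
      have := Real.one_sub_sq_div_two_le_cos (x := φ)
      (clear * - this; linarith only [this])
    have hτw : w ≤ τ.re := by
      have h1 : ‖t‖ * Real.cos φ ≤ ‖t‖ * 1 := mul_le_mul_of_nonneg_left hcos1 htp
      rw [hτre, hwe]
      linarith only [htre, h1]
    have hτ0 : τ ≠ 0 := by
      intro h
      rw [h] at hτw
      simp at hτw
      linarith only [hw0, hτw]
    have hnp : 0 < ‖τ‖ := norm_pos_iff.2 hτ0
    have hup : ‖τ‖ ^ 2 ≤ w ^ 2 + 4 * φ ^ 2 := by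
      have h1 : ‖t‖ * (1 - Real.cos φ) ≤ 2 * (φ ^ 2 / 2) :=
        mul_le_mul ht.le hcos2 (by linarith only [hcos1]) (by norm_num)
      rw [hτn, hwe, ← htre]
      linarith only [h1]
    have hnn : 0 ≤ ‖τ‖ := norm_nonneg τ
    have hφ2 : |φ| ^ 2 = φ ^ 2 := sq_abs φ
    have hφ0 : 0 ≤ |φ| := abs_nonneg φ
    have hle : ‖τ‖ ≤ w + 2 * |φ| := by
      refine (sq_le_sq₀ hnn (by (clear * - hw0; positivity))).1 (hup.trans ?_)
      rw [← hφ2, show (w + 2 * |φ|) ^ 2 = w ^ 2 + 4 * |φ| ^ 2 + 4 * (w * |φ|) by ring]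
      linarith only [mul_nonneg hw0.le hφ0]
    have key : 1 - τ.re + 1 / 4 * ‖τ‖ ^ 2 = ‖t‖ - 1 + w ^ 2 / 4 := by
      rw [hτn, hτre, hwe]
      ring
    have hre1 : τ.re ≤ ‖τ‖ := Complex.re_le_norm τ
    have hre0 : 0 < τ.re := hw0.trans_le hτw
    -- the square of `1 / n`
    set y : ℝ := 1 / (n : ℝ) with hy
    have hy0 : 0 < y := by positivity
    have hy2 : y < 1 / 2 := by
      rw [hy]
      exact one_div_lt_one_div_of_lt (by norm_num) hn2
    have hyε : 2 * y < ε := by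
      rw [hy, mul_one_div, div_lt_iff₀ hn0]
      exact hε2
    have hy4 : y ^ 2 < 1 / 4 := by
      have := pow_lt_pow_left₀ hy2 hy0.le two_ne_zero
      norm_num at this
      linarith only [this]
    have hyy : 2 * y ^ 2 < ε := by
      have h1 : y ^ 2 ≤ y * 1 := by
        rw [pow_two]
        exact mul_le_mul_of_nonneg_left (by linarith only [hy2]) hy0.le
      linarith only [hyε, h1]
    have hw2 : 0 ≤ w ^ 2 := sq_nonneg w
    have hf2 : 0 ≤ φ ^ 2 := sq_nonneg φ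
    have p1 : y ^ 2 * w ^ 2 ≤ 1 / 4 * w ^ 2 := mul_le_mul_of_nonneg_right hy4.le hw2
    have p2 : y ^ 2 * φ ^ 2 ≤ 1 / 4 * φ ^ 2 := mul_le_mul_of_nonneg_right hy4.le hf2
    have p3 : 2 * y ^ 2 * φ ^ 2 ≤ ε * φ ^ 2 := mul_le_mul_of_nonneg_right hyy.le hf2
    have p4 : y ^ 2 * ‖τ‖ ^ 2 ≤ y ^ 2 * w ^ 2 + 4 * (y ^ 2 * φ ^ 2) := by
      have := mul_le_mul_of_nonneg_left hup (sq_nonneg y)
      linarith only [this]
    have p5 : c / 4 * w ^ 2 ≤ 1 / 32 * w ^ 2 :=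
      mul_le_mul_of_nonneg_right (by linarith only [hc8]) hw2
    have p6 : 0 ≤ ε * φ ^ 2 := by (clear * - hε; positivity)
    have p7 : 0 ≤ ε * w ^ 2 := by (clear * - hε hw0; positivity)
    set s : ℝ := τ.re / ‖τ‖ with hs
    have hs0 : 0 < s := div_pos hre0 hnp
    have hs1 : s ≤ 1 := (div_le_one hnp).2 hre1
    have hsn : s * ‖τ‖ = τ.re := by rw [hs]; (clear * - hτ0 hre0; field_simp)
    set j : ℕ := ⌊s * n⌋₊ with hj
    have hj1 : (j : ℝ) ≤ s * n := Nat.floor_le (by (clear * - hre0 hτ0 hnN; positivity))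
    have hj2 : s * n < (j : ℝ) + 1 := Nat.lt_floor_add_one _
    have hjn : j ≤ n := by
      have h1 : (j : ℝ) ≤ n := hj1.trans (mul_le_of_le_one_left hn0.le hs1)
      exact_mod_cast h1
    have hjy : (j : ℝ) / n = j * y := by rw [hy]; ring
    have hjs : (j : ℝ) / n ≤ s := by rw [div_le_iff₀ hn0]; exact hj1
    have hjs2 : s < (j : ℝ) / n + y := by
      rw [hy, ← add_div, lt_div_iff₀ hn0]; exact hj2
    rcases Nat.eq_zero_or_pos j with h0 | h0
    · -- near the circle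
      have h3 := h₂ τ hτ0 (by linarith only [w3, f3, hle])
      rw [hτt] at h3
      refine h3.mono ?_
      have e0 : s < y := by
        rw [h0] at hjs2
        simpa using hjs2
      have e1 : w ≤ y * ‖τ‖ := by
        have : s * ‖τ‖ ≤ y * ‖τ‖ := mul_le_mul_of_nonneg_right e0.le hnn
        linarith only [hτw, hsn, this]
      have e2 : w ^ 2 ≤ y ^ 2 * ‖τ‖ ^ 2 := by
        rw [← mul_pow]
        exact pow_le_pow_left₀ hw0.le e1 2
      have e5 : w ^ 2 ≤ 16 / 3 * (y ^ 2 * φ ^ 2) := by linarith only [p1, p4, e2]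
      have e6 : (1 / 4 + ε / 8) * ‖τ‖ ^ 2 = 1 / 4 * ‖τ‖ ^ 2 + ε / 8 * ‖τ‖ ^ 2 := by ring
      have e7 : ε / 8 * ‖τ‖ ^ 2 ≤ ε / 8 * (w ^ 2 + 4 * φ ^ 2) :=
        mul_le_mul_of_nonneg_left hup (by (clear * - hε; positivity))
      have e9 : w ^ 2 ≤ 4 / 3 * φ ^ 2 := by linarith only [p2, e5]
      have e10 : w ^ 2 ≤ 8 / 3 * (ε * φ ^ 2) := by linarith only [p3, e5]
      have e11 : ε * w ^ 2 ≤ ε * (4 / 3 * φ ^ 2) := mul_le_mul_of_nonneg_left e9 hε.le
      have e12 : (1 / 4 - c / 4) * w ^ 2 = w ^ 2 / 4 - c / 4 * w ^ 2 := by ring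
      rw [e6, e12]
      (clear * - key p5 p7 e7 e10 e11; linarith only [key, p5, p7, e7, e10, e11])
    · -- a sector
      have hsec : ((j : ℝ) / n) * ‖τ‖ ≤ τ.re := by
        rw [← hsn]
        exact mul_le_mul_of_nonneg_right hjs hnn
      have hτd : ‖τ‖ < d j := by
        refine lt_of_lt_of_le ?_ (hDd j (by (clear * - hjn; omega)))
        linarith only [w2, f2, hle]
      have h3 := H j τ hτ0 hτd h0 hjn hsec
      rw [hτt] at h3
      refine h3.mono ?_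
      set x : ℝ := (j : ℝ) / n with hx
      have hx0 : 0 ≤ x := by (clear * - h0 hnN; positivity)
      -- `x ≥ s - y`
      have e1 : τ.re ≤ (x + y) * ‖τ‖ := by
        rw [← hsn]
        exact mul_le_mul_of_nonneg_right hjs2.le hnn
      have e2 : w ≤ x * ‖τ‖ + y * ‖τ‖ := by
        have := hτw.trans e1
        linarith only [this]
      have e3 : w ^ 2 ≤ 2 * (x * ‖τ‖) ^ 2 + 2 * (y * ‖τ‖) ^ 2 := by
        have h1 : w ^ 2 ≤ (x * ‖τ‖ + y * ‖τ‖) ^ 2 := pow_le_pow_left₀ hw0.le e2 2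
        have h2 : (x * ‖τ‖ + y * ‖τ‖) ^ 2 =
            2 * (x * ‖τ‖) ^ 2 + 2 * (y * ‖τ‖) ^ 2 - (x * ‖τ‖ - y * ‖τ‖) ^ 2 := by ring
        have h3 := sq_nonneg (x * ‖τ‖ - y * ‖τ‖)
        linarith only [h1, h3]
      have e4 : (y * ‖τ‖) ^ 2 = y ^ 2 * ‖τ‖ ^ 2 := mul_pow _ _ _
      have e8 : w ^ 2 / 4 - 2 * (ε * φ ^ 2) ≤ (x * ‖τ‖) ^ 2 := by linarith only [p1, p3, p4, e3]
      have e9 : (1 / 4 - c * x ^ 2) * ‖τ‖ ^ 2 = 1 / 4 * ‖τ‖ ^ 2 - c * (x * ‖τ‖) ^ 2 := by ring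
      have e10 : c * (w ^ 2 / 4 - 2 * (ε * φ ^ 2)) ≤ c * (x * ‖τ‖) ^ 2 :=
        mul_le_mul_of_nonneg_left e8 hc.le
      have e12 : c * (ε * φ ^ 2) ≤ 1 / 8 * (ε * φ ^ 2) := mul_le_mul_of_nonneg_right hc8 p6
      have e13 : (1 / 4 - c / 4) * w ^ 2 = w ^ 2 / 4 - c / 4 * w ^ 2 := by ring
      rw [e9, e13]
      linarith only [key, p6, e10, e12]

/-- The spectrum near the ray `[2, ∞)`, with a constant. -/
theorem shape6
    (H4 : ∀ ε : ℝ, 0 < ε → ∃ δ₀ : ℝ, 0 < δ₀ ∧ ∀ τ : ℂ, τ ≠ 0 → ‖τ‖ < δ₀ → ∃ C : ℝ,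
      ∀ ψ h : ℂ → ℂ, Pool.Agent.Helper26.G4.Sg ψ h → ∀ R : ℝ, 1 < R →
        (1 / (2 * π)) * ∫ θ in (0:ℝ)..(2 * π),
          ‖Complex.exp ((2 - τ) * h ((R : ℂ) * Complex.exp ((θ : ℂ) * Complex.I)))‖ ≤
        C * (R ^ 2 / (R ^ 2 - 1)) ^ (1 - τ.re + (1 / 4 + ε) * ‖τ‖ ^ 2))
    (H6 : ∃ c : ℝ, 0 < c ∧ c ≤ 1 / 8 ∧ ∀ e : ℝ, 0 < e → e ≤ 1 → ∃ δ₀ : ℝ, 0 < δ₀ ∧
      ∀ τ : ℂ, τ ≠ 0 → ‖τ‖ < δ₀ → e * ‖τ‖ ≤ τ.re → ∃ C : ℝ,
      ∀ ψ h : ℂ → ℂ, Pool.Agent.Helper26.G4.Sg ψ h → ∀ R : ℝ, 1 < R →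
        (1 / (2 * π)) * ∫ θ in (0:ℝ)..(2 * π),
          ‖Complex.exp ((2 - τ) * h ((R : ℂ) * Complex.exp ((θ : ℂ) * Complex.I)))‖ ≤
        C * (R ^ 2 / (R ^ 2 - 1)) ^ (1 - τ.re + (1 / 4 - c * e ^ 2) * ‖τ‖ ^ 2)) :
    ∃ c : ℝ, 0 < c ∧ ∀ ε : ℝ, 0 < ε → ∃ d : ℝ, 0 < d ∧ ∀ (t : ℂ) (w : ℝ),
      w = max (2 - ‖t‖) 0 → w < d → |t.arg| < d →
      Upper t (‖t‖ - 1 + (1 / 4 - c) * w ^ 2 + ε * t.arg ^ 2) ∧
      ∀ s : ℝ, s < ‖t‖ - 1 → Low t s := by
  obtain ⟨c, hc, hc8, H6⟩ := H6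
  refine ⟨c / 4, by (clear * - hc; positivity), fun ε hε => ?_⟩
  obtain ⟨d, hd, hd1, h⟩ := shape6_up
    (fun ε hε => by
      obtain ⟨d, hd, h⟩ := H4 ε hε
      exact ⟨d, hd, fun τ h0 hτ => upAt_of_sg (h τ h0 hτ)⟩) hc hc8
    (fun e he he1 => by
      obtain ⟨d, hd, h⟩ := H6 e he he1
      exact ⟨d, hd, fun τ h0 hτ hs => upAt_of_sg (h τ h0 hτ hs)⟩) ε hε
  refine ⟨d, hd, fun t w hw hwd hφ => ⟨(h t w hw hwd hφ).upper, fun s hs => low_all ?_ hs⟩⟩
  have : 2 - ‖t‖ ≤ w := by rw [hw]; exact le_max_left _ _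
  linarith only [hd1, hwd, this]

end Pool.Agent.Helper5.TR
end
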