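import Pool.Agent.Helper24.K6.G03
import Pool.Agent.Helper24.K6.G08
import Pool.Agent.Helper24.K6.G10
import Pool.Agent.Helper24.K6.G14
import Pool.Agent.Helper24.K6.G15
import Pool.Agent.Helper24.K6.G17
import Pool.Agent.Helper24.K6.G18
import Pool.Agent.Helper24.K6.G20

/- Helper24.K6w.H26.G4.Cov -/
section
/-!
# G4-COV: change of variables

`lintegral_image_eq_lintegral_abs_det_fderiv_mul`, as in `Pool.Agent.Helper90.G2.Fn.vol`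
(`area_det_smul_one`).
-/

set_option autoImplicit false

namespace Pool.Agent.Helper26.G4

open MeasureTheory Set
open scoped Real
open Pool.Agent.Helper90.G2 (Bx Wn Fn ar ch Cen chi)

theorem Fn.cov {F : ℂ → ℂ} {A : ℝ} (hF : Fn F A) {S : Set ℂ} (hS : MeasurableSet S) {c : ℝ}
    (h : S ⊆ {u | 0 < u.re ∧ |u.im - c| < π}) (G : ℂ → ENNReal) :
    ∫⁻ u in S, ENNReal.ofReal (‖deriv F u‖ ^ 2) * G (F u) ≤ ∫⁻ w : ℂ, G w := by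
  have h1 : ∀ u ∈ S, HasFDerivWithinAt F (deriv F u • (1 : ℂ →L[ℝ] ℂ)) S u := by
    intro u hu
    have h2 : HasDerivAt F (deriv F u) u :=
      (hF.diff.differentiableAt
        (Pool.Agent.Helper90.G2.area_isOpen_rp.mem_nhds (h hu).1)).hasDerivAt
    exact h2.complexToReal_fderiv.hasFDerivWithinAt
  have h2 := lintegral_image_eq_lintegral_abs_det_fderiv_mul volume hS h1
    ((hF.inj c).mono h) G
  simp_rw [Pool.Agent.Helper90.G2.area_det_smul_one] at h2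
  rw [← h2]
  exact setLIntegral_le_lintegral _ _

theorem Fn.cov_shift {F : ℂ → ℂ} {A : ℝ} (hF : Fn F A) {S : Set ℂ} (hS : MeasurableSet S) {c : ℝ}
    (h : S ⊆ {u | 0 < u.re ∧ |u.im - c| < π}) {G : ℂ → ENNReal} (hG : Measurable G) (p : ℂ) :
    ∫⁻ u in S, ENNReal.ofReal (‖deriv F u‖ ^ 2) * G (F u - p) ≤ ∫⁻ w : ℂ, G w := by
  refine (Fn.cov hF hS h (fun w => G (w - p))).trans (le_of_eq ?_)
  exact lintegral_sub_right_eq_self G p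

end Pool.Agent.Helper26.G4
end

/- Helper24.K6w.H26.G5.StepInt5 -/
section
/-!
# G5-STEPINT: the integrated step

For every `ζ ≠ 0` take `ν, H` from `Tk.key` (`d = |τ|`, `m = |τ| m0`, `s = F v' - F v ≠ 0` by `Fn.ne`),
multiply `pt5` by `|F' u|²` and integrate over the child box (only the last term has to be measurable,
`Fn.cov_shift`; its integral is at most `π r² Bn + (1 - c₀) π |s|² / (4 m)`, the area of the disc and `∫ H`);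
`(F u - F v') / ζ = (z - s) / ζ`. This is the hypothesis of `inf_arg` (`j = ω s / (2 m) ≠ 0`).
-/

set_option autoImplicit false

namespace Pool.Agent.Helper26.G5

open MeasureTheory Set
open scoped Real
open Pool.Agent.Helper90.G2 (Bx Wn Fn ar ch Cen chi)
open Pool.Agent.Helper26.G4 (vt Br Lb wd al rr w0 Bad cn vk lv KN Sa Sc mm KK C9 Sg)

/-- the error function -/
noncomputable def StepInt5G (K δ r Bb : ℝ) (H : ℂ → ℝ) (z : ℂ) : ENNReal :=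
  ENNReal.ofReal (K * (δ * (if ‖z‖ < r then Bb else H z)))

theorem StepInt5_meas (K δ r Bb : ℝ) {H : ℂ → ℝ} (hH : Measurable H) :
    Measurable (StepInt5G K δ r Bb H) := by
  unfold StepInt5G
  have h1 : MeasurableSet {z : ℂ | ‖z‖ < r} := measurableSet_lt measurable_norm measurable_const
  exact (((Measurable.ite h1 measurable_const hH).const_mul _).const_mul _).ennreal_ofReal

theorem StepInt5_int {K δ r Bb c₀ m s : ℝ} {H : ℂ → ℝ} (hK : 0 ≤ K) (hδ : 0 ≤ δ) (hr : 0 < r)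
    (hB : 0 ≤ Bb) (hHi : Integrable H) (hH0 : ∀ z, 0 ≤ H z)
    (hI : ∫ z, H z ≤ (1 - c₀) * (π * s ^ 2 / (4 * m))) :
    ∫⁻ z : ℂ, StepInt5G K δ r Bb H z ≤ ENNReal.ofReal (K * (δ * Er5 c₀ m s r Bb)) := by
  have hKδ : 0 ≤ K * δ := mul_nonneg hK hδ
  have h1 : ∀ z : ℂ, StepInt5G K δ r Bb H z ≤ ENNReal.ofReal (K * δ) *
      ((Metric.ball (0 : ℂ) r).indicator (fun _ => ENNReal.ofReal Bb) z + ENNReal.ofReal (H z)) := by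
    intro z
    unfold StepInt5G
    rw [← mul_assoc, ENNReal.ofReal_mul hKδ]
    gcongr
    by_cases hz : ‖z‖ < r
    · rw [if_pos hz, Set.indicator_of_mem (by simpa using hz)]
      exact le_self_add
    · rw [if_neg hz, Set.indicator_of_notMem (by simpa using hz), zero_add]
  have h2 : ∫⁻ z : ℂ, ((Metric.ball (0 : ℂ) r).indicator (fun _ => ENNReal.ofReal Bb) z +
      ENNReal.ofReal (H z)) ≤ ENNReal.ofReal (Er5 c₀ m s r Bb) := by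
    rw [lintegral_add_left (measurable_const.indicator Metric.isOpen_ball.measurableSet),
      lintegral_indicator Metric.isOpen_ball.measurableSet, setLIntegral_const, Complex.volume_ball,
      ← ofReal_integral_eq_lintegral_ofReal hHi (Filter.Eventually.of_forall hH0)]
    have h3 : ENNReal.ofReal Bb * (ENNReal.ofReal r ^ 2 * (NNReal.pi : ENNReal)) =
        ENNReal.ofReal (π * r ^ 2 * Bb) := by
      have h4 : (NNReal.pi : ENNReal) = ENNReal.ofReal π := by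
        rw [ENNReal.ofReal, ← NNReal.coe_real_pi, Real.toNNReal_coe]
      rw [h4, ← ENNReal.ofReal_pow hr.le, ← ENNReal.ofReal_mul (by positivity),
        ← ENNReal.ofReal_mul hB]
      congr 1
      ring
    rw [h3, ← ENNReal.ofReal_add (by (clear * - hr hB; positivity)) (integral_nonneg hH0)]
    refine ENNReal.ofReal_le_ofReal ?_
    unfold Er5
    (clear * - hI; linarith only [hI])
  calc ∫⁻ z : ℂ, StepInt5G K δ r Bb H z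
      ≤ ∫⁻ z : ℂ, ENNReal.ofReal (K * δ) *
        ((Metric.ball (0 : ℂ) r).indicator (fun _ => ENNReal.ofReal Bb) z +
          ENNReal.ofReal (H z)) := lintegral_mono h1
    _ = ENNReal.ofReal (K * δ) * ∫⁻ z : ℂ, ((Metric.ball (0 : ℂ) r).indicator
        (fun _ => ENNReal.ofReal Bb) z + ENNReal.ofReal (H z)) :=
        lintegral_const_mul' _ _ ENNReal.ofReal_ne_top
    _ ≤ ENNReal.ofReal (K * δ) * ENNReal.ofReal (Er5 c₀ m s r Bb) := by (clear * - h2; gcongr)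
    _ = ENNReal.ofReal (K * (δ * Er5 c₀ m s r Bb)) := by
        rw [← ENNReal.ofReal_mul hKδ, mul_assoc]

/-- the factor of the density is nonnegative -/
theorem StepInt5_fac {β x κ : ℝ} (hβ : 0 ≤ β) (hβ1 : β ≤ 1) (hx : x = 0 ∨ x = 1) (hκ : |κ| ≤ 1) :
    0 ≤ 1 - β * x * κ := by
  have h := abs_le.1 hκ
  rcases hx with rfl | rfl
  · norm_num
  · have h1 : β * κ ≤ β * 1 := mul_le_mul_of_nonneg_left h.2 hβ
    rw [mul_one]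
    (clear * - hβ1 h1; linarith only [hβ1, h1])

/-- the pointwise inequality in extended numbers -/
theorem StepInt5_alg {D p0 p1 p2 q ν E0 : ℝ} (hD : 0 ≤ D) (h0 : 0 ≤ p0) (h1 : 0 ≤ p1) (h2 : 0 ≤ p2)
    (hq : 0 ≤ q) (hν : 0 ≤ ν) (hE : 0 ≤ E0) (h : p1 + ν * p2 ≤ (E0 + ν) * p0 + q) :
    ENNReal.ofReal (D * p1) + ENNReal.ofReal ν * ENNReal.ofReal (D * p2) ≤
      ENNReal.ofReal (E0 + ν) * ENNReal.ofReal (D * p0) + ENNReal.ofReal D * ENNReal.ofReal q := by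
  rw [← ENNReal.ofReal_mul hν, ← ENNReal.ofReal_mul (by (clear * - hE hν; positivity)), ← ENNReal.ofReal_mul hD,
    ← ENNReal.ofReal_add (by (clear * - hD h1; positivity)) (by positivity),
    ← ENNReal.ofReal_add (by (clear * - hE hν hD h0; positivity)) (by positivity)]
  refine ENNReal.ofReal_le_ofReal ?_
  have h3 := mul_le_mul_of_nonneg_left h hD
  (clear * - h3; linarith only [h3])

theorem step_int5 {F : ℂ → ℂ} {A : ℝ} (hF : Fn F A) {Λ : ℂ → ℂ → ℂ} (hΛ : Br F Λ) {N d : ℕ}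
    (hN : 2 ≤ N) (hd : d < N) {c ℓ : ℝ} (hℓ : 0 < ℓ) (hℓ1 : ℓ ≤ 1) {τ : ℂ} (hτ : 0 < ‖τ‖)
    {κ : ℂ → ℝ} {b c₀ B Cc m₁ : ℝ} (hk : Tk κ (τ / ‖τ‖) b c₀ B Cc m₁) {ε m0 e1 : ℝ} (hε : 0 < ε)
    (hε1 : ε ≤ 1) (hm : 1 ≤ m0) (he : 0 ≤ e1) (hτ1 : ‖τ‖ * (1 + B) ≤ 1 / 8) (hτ2 : ‖τ‖ ≤ m₁)
    (hm1 : ‖τ‖ * m0 ≤ m₁)
    (hs : ‖τ‖ * (10 * N + Real.log (2 * Cc * KN N / ‖τ‖ + KN N)) ≤ ε) (y χ : ℂ → ℕ → ℝ) (k : ℕ)
    (hχ : ∀ u ∈ Bx (ch N c ℓ d) (ℓ / N), ∀ j, χ u j = 0 ∨ χ u j = 1)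
    (h : ∀ u ∈ Bx (ch N c ℓ d) (ℓ / N), (χ u k = 0 ∧ χ u (k + 1) = 0 ∧ y u (k + 1) ≤ y u k + e1) ∨
      y u (k + 1) + sw b B * ‖τ‖ ≤ y u k + e1 ∨
      (¬ Bad F Λ (ε / ‖τ‖) (2 * Cc * KN N / ‖τ‖) (vt c ℓ) u ∧ χ u k = 1 ∧ χ u (k + 1) = 1 ∧
        y u k = al Λ τ (vt c ℓ) u ∧ y u (k + 1) = al Λ τ (vt (ch N c ℓ d) (ℓ / N)) u))
    (hfin : V5 F y χ κ (‖τ‖ * b) k (vt c ℓ) (Bx (ch N c ℓ d) (ℓ / N)) < ⊤) :
    V5 F y χ κ (‖τ‖ * b) (k + 1) (vt (ch N c ℓ d) (ℓ / N)) (Bx (ch N c ℓ d) (ℓ / N)) ≤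
      ENNReal.ofReal (Real.exp (e1 + ‖τ‖ ^ 2 * m0)) *
        V5 F y χ κ (‖τ‖ * b) k (vt c ℓ) (Bx (ch N c ℓ d) (ℓ / N)) +
      ENNReal.ofReal (Real.exp (w0 Λ τ (vt c ℓ) + 2 * ε) * (‖τ‖ * Er5 c₀ (‖τ‖ * m0)
        ‖F (vt (ch N c ℓ d) (ℓ / N)) - F (vt c ℓ)‖ (2 * KN N * rr F (vt c ℓ)) (Bn N B))) := by
  have hπ := Real.pi_gt_three
  obtain ⟨hp, hle⟩ := Pool.Agent.Helper26.G4.seg_div hN hℓ
  have hv : 0 < (vt c ℓ).re := by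
    show 0 < 2 * ℓ
    (clear * - hℓ; positivity)
  have hv' : 0 < (vt (ch N c ℓ d) (ℓ / N)).re := by
    show 0 < 2 * (ℓ / N)
    (clear * - hℓ hN; positivity)
  have hR := Pool.Agent.Helper26.G4.rr_pos hF hv
  have hKN : 0 < KN N := Real.exp_pos _
  have hr : 0 < 2 * KN N * rr F (vt c ℓ) := by (clear * - hKN hR; positivity)
  have hBn : 0 ≤ Bn N B := by
    have := hk.hB
    unfold Bn
    (clear * - hN this; positivity)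
  have hm' : 0 < ‖τ‖ * m0 := mul_pos hτ (by linarith only [hm])
  have hb0 := hk.hb
  have hβ : 0 ≤ ‖τ‖ * b := by (clear * - hτ hb0; positivity)
  have hτ0 : τ ≠ 0 := norm_pos_iff.1 hτ
  have hβ1 : ‖τ‖ * b ≤ 1 := by
    have h1 : ‖τ‖ * b ≤ ‖τ‖ * (1 + B) :=
      mul_le_mul_of_nonneg_left (by (clear * - hk; linarith only [hk.hb1, hk.hB])) hτ.le
    linarith only [hτ1, h1]
  -- the displacement
  have hne : F (vt (ch N c ℓ d) (ℓ / N)) ≠ F (vt c ℓ) := by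
    refine Pool.Agent.Helper26.G4.Fn.ne hF hv' hv ?_ ?_
    · have h1 := Pool.Agent.Helper26.G4.seg_ch hN hd (c := c) hℓ
      show |ch N c ℓ d - c| < 2 * π
      linarith only [hℓ1, hπ, h1]
    · intro h1
      have h2 := congrArg Complex.re h1
      have h3 : 2 * (ℓ / N) = 2 * ℓ := h2
      linarith only [hp, hle, h3]
  obtain ⟨s, hs'⟩ : ∃ s : ℂ, s = F (vt (ch N c ℓ d) (ℓ / N)) - F (vt c ℓ) := ⟨_, rfl⟩
  have hs0 : s ≠ 0 := by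
    rw [hs']
    exact sub_ne_zero.2 hne
  obtain ⟨Q, hQ⟩ : ∃ Q : Set ℂ, Q = Bx (ch N c ℓ d) (ℓ / N) := ⟨_, rfl⟩
  have hQm : MeasurableSet Q := by
    rw [hQ]
    exact Pool.Agent.Helper90.G2.meas_bx _ _
  have hQs : Q ⊆ {u | 0 < u.re ∧ |u.im - ch N c ℓ d| < π} := by
    rw [hQ]
    intro u hu
    exact ⟨hu.1, by linarith only [hu.2.2, hℓ1, hπ, hle]⟩
  have hFc : ContinuousOn F Q := hF.diff.continuousOn.mono fun u hu => (hQs hu).1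
  rw [← hQ] at h hfin hχ ⊢
  have : Nonempty {ζ : ℂ // ζ ≠ 0} := ⟨⟨1, one_ne_zero⟩⟩
  unfold V5 at hfin ⊢
  refine inf_arg hk.hB (Real.exp_pos _).le hfin ?_
  rintro ⟨ζ, hζ⟩
  obtain ⟨ν, hν, hνB, H, hHm, hHi, hH0, hHz, hHP, hHI⟩ :=
    hk.key ‖τ‖ (‖τ‖ * m0) hτ hτ2 hm' hm1 s ζ hs0 hζ
  have hj : τ / ‖τ‖ * s / (2 * (‖τ‖ * m0 : ℝ)) ≠ 0 := by
    have h1 : ((‖τ‖ * m0 : ℝ) : ℂ) ≠ 0 := by exact_mod_cast hm'.ne'
    have h2 : ((‖τ‖ : ℝ) : ℂ) ≠ 0 := by exact_mod_cast hτ.ne'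
    have h3 : (2 : ℂ) * ((‖τ‖ * m0 : ℝ) : ℂ) ≠ 0 := mul_ne_zero two_ne_zero h1
    exact div_ne_zero (mul_ne_zero (div_ne_zero hτ0 h2) hs0) h3
  refine ⟨ν, hν, hνB, ⟨_, hj⟩, ?_⟩
  obtain ⟨G, hG⟩ : ∃ G : ℂ → ENNReal, G = StepInt5G (Real.exp (w0 Λ τ (vt c ℓ) + 2 * ε)) ‖τ‖
    (2 * KN N * rr F (vt c ℓ)) (Bn N B) H := ⟨_, rfl⟩
  have hGm : Measurable G := by
    rw [hG]
    exact StepInt5_meas _ _ _ _ hHm
  -- pointwise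
  have hpt : ∀ u ∈ Q, Dn F y χ κ (‖τ‖ * b) (k + 1) (F (vt (ch N c ℓ d) (ℓ / N))) ζ u +
      ENNReal.ofReal ν * Dn F y χ κ (‖τ‖ * b) k (F (vt c ℓ))
        (τ / ‖τ‖ * s / (2 * (‖τ‖ * m0 : ℝ))) u ≤
      ENNReal.ofReal (Real.exp (e1 + ‖τ‖ ^ 2 * m0) + ν) *
        Dn F y χ κ (‖τ‖ * b) k (F (vt c ℓ)) ζ u +
      ENNReal.ofReal (‖deriv F u‖ ^ 2) * G (F u - F (vt c ℓ)) := by
    intro u hu
    have hx0 := hχ u hu k
    have hx1 := hχ u hu (k + 1)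
    have h5 := pt5 hF hΛ hN hd (c := c) hℓ hℓ1 hτ hk hε hε1 hm he hτ1 hs (u := u)
      (by rw [← hQ]; exact hu) hx0 hx1 (h u hu) (ζ := ζ) hν hνB hH0
      (by rw [← hs']; exact hHz) (by rw [← hs']; exact hHP)
    rw [← hs'] at h5
    rw [hG]
    unfold StepInt5G Dn
    refine StepInt5_alg (by (clear * -; positivity)) ?_ ?_ ?_ ?_ hν (Real.exp_pos _).le h5
    · exact mul_nonneg (Real.exp_pos _).le (StepInt5_fac hβ hβ1 hx0 (hk.bd _))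
    · exact mul_nonneg (Real.exp_pos _).le (StepInt5_fac hβ hβ1 hx1 (hk.bd _))
    · exact mul_nonneg (Real.exp_pos _).le (StepInt5_fac hβ hβ1 hx0 (hk.bd _))
    · refine mul_nonneg (Real.exp_pos _).le (mul_nonneg hτ.le ?_)
      split_ifs
      · exact hBn
      · exact hH0 _
  have hme : AEMeasurable (fun u : ℂ => ENNReal.ofReal (‖deriv F u‖ ^ 2) * G (F u - F (vt c ℓ)))
      (volume.restrict Q) := by
    refine AEMeasurable.mul ?_ ?_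
    · exact (((measurable_deriv F).norm.pow_const 2).ennreal_ofReal).aemeasurable
    · exact hGm.comp_aemeasurable ((hFc.aemeasurable hQm).sub_const _)
  have hI : ∫⁻ u in Q, ENNReal.ofReal (‖deriv F u‖ ^ 2) * G (F u - F (vt c ℓ)) ≤
      ENNReal.ofReal (Real.exp (w0 Λ τ (vt c ℓ) + 2 * ε) * (‖τ‖ * Er5 c₀ (‖τ‖ * m0)
        ‖F (vt (ch N c ℓ d) (ℓ / N)) - F (vt c ℓ)‖ (2 * KN N * rr F (vt c ℓ)) (Bn N B))) := by
    refine (Pool.Agent.Helper26.G4.Fn.cov_shift hF hQm hQs hGm (F (vt c ℓ))).trans ?_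
    rw [hG, ← hs']
    exact StepInt5_int (Real.exp_pos _).le hτ.le hr hBn hHi hH0 hHI
  calc (∫⁻ u in Q, Dn F y χ κ (‖τ‖ * b) (k + 1) (F (vt (ch N c ℓ d) (ℓ / N))) ζ u) +
      ENNReal.ofReal ν * ∫⁻ u in Q, Dn F y χ κ (‖τ‖ * b) k (F (vt c ℓ))
        (τ / ‖τ‖ * s / (2 * (‖τ‖ * m0 : ℝ))) u
      = (∫⁻ u in Q, Dn F y χ κ (‖τ‖ * b) (k + 1) (F (vt (ch N c ℓ d) (ℓ / N))) ζ u) +
      ∫⁻ u in Q, ENNReal.ofReal ν * Dn F y χ κ (‖τ‖ * b) k (F (vt c ℓ))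
        (τ / ‖τ‖ * s / (2 * (‖τ‖ * m0 : ℝ))) u := by
        rw [lintegral_const_mul' _ _ ENNReal.ofReal_ne_top]
    _ ≤ ∫⁻ u in Q, (Dn F y χ κ (‖τ‖ * b) (k + 1) (F (vt (ch N c ℓ d) (ℓ / N))) ζ u +
      ENNReal.ofReal ν * Dn F y χ κ (‖τ‖ * b) k (F (vt c ℓ))
        (τ / ‖τ‖ * s / (2 * (‖τ‖ * m0 : ℝ))) u) := le_lintegral_add _ _
    _ ≤ ∫⁻ u in Q, (ENNReal.ofReal (Real.exp (e1 + ‖τ‖ ^ 2 * m0) + ν) *
        Dn F y χ κ (‖τ‖ * b) k (F (vt c ℓ)) ζ u +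
      ENNReal.ofReal (‖deriv F u‖ ^ 2) * G (F u - F (vt c ℓ))) := setLIntegral_mono' hQm hpt
    _ = ENNReal.ofReal (Real.exp (e1 + ‖τ‖ ^ 2 * m0) + ν) *
        (∫⁻ u in Q, Dn F y χ κ (‖τ‖ * b) k (F (vt c ℓ)) ζ u) +
      ∫⁻ u in Q, ENNReal.ofReal (‖deriv F u‖ ^ 2) * G (F u - F (vt c ℓ)) := by
        rw [lintegral_add_right' _ hme, lintegral_const_mul' _ _ ENNReal.ofReal_ne_top]
    _ ≤ _ := by (clear * - hI; gcongr)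

end Pool.Agent.Helper26.G5
end

/- Helper24.K6w.H26.G4.StepInt -/
section
/-!
# G4-STEPINT: the integrated step

`f0 u = y u k`, `f1 u = y u (k + 1)` (arbitrary, not measurable). Pointwise on the child box
`e^(f1) ≤ e^(e1 + δ² m0) e^(f0) + E`, `E` the second term of `step_pt`. `lintegral_mono`,
`lintegral_add_right'` (only `E` has to be measurable: `F` is continuous on the box, `Xh_meas`),
`lintegral_const_mul'`, `Fn.cov_shift` and `exc_int`.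
-/

set_option autoImplicit false

namespace Pool.Agent.Helper26.G4

open MeasureTheory Set
open scoped Real
open Pool.Agent.Helper90.G2 (Bx Wn Fn ar ch Cen chi)

/-- the error function -/
noncomputable def StepG (K δ m : ℝ) (ω s : ℂ) (r B : ℝ) (z : ℂ) : ENNReal :=
  ENNReal.ofReal (K * δ * max (Xh ω s z r B - m) 0)

theorem StepG_meas (K δ m : ℝ) (ω s : ℂ) (r B : ℝ) : Measurable (StepG K δ m ω s r B) := by
  unfold StepG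
  have h := Xh_meas ω s r B
  exact (((h.sub_const m).max measurable_const).const_mul _).ennreal_ofReal

theorem StepG_int {K δ m ε : ℝ} {ω s : ℂ} {r B : ℝ} (hK : 0 ≤ K) (hδ : 0 ≤ δ) (hω : ‖ω‖ ≤ 1)
    (hε : 0 < ε) (hε1 : ε < 1) (hm : 0 < m) (hr : 0 < r) (hB : 0 ≤ B) :
    ∫⁻ z : ℂ, StepG K δ m ω s r B z ≤ ENNReal.ofReal (K * (δ * Er ε m ‖s‖ r B)) := by
  have h := exc_int (ω := ω) (s := s) hω hε hε1 hm hr hB
  unfold StepG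
  have e : ∀ z : ℂ, ENNReal.ofReal (K * δ * max (Xh ω s z r B - m) 0) =
      ENNReal.ofReal (K * δ) * ENNReal.ofReal (max (Xh ω s z r B - m) 0) := fun z =>
    ENNReal.ofReal_mul (mul_nonneg hK hδ)
  simp only [e]
  rw [lintegral_const_mul' _ _ ENNReal.ofReal_ne_top]
  refine (mul_le_mul_right h _).trans (le_of_eq ?_)
  rw [← ENNReal.ofReal_mul (mul_nonneg hK hδ), mul_assoc]

theorem step_int {F : ℂ → ℂ} {A : ℝ} (hF : Fn F A) {Λ : ℂ → ℂ → ℂ} (hΛ : Br F Λ) {N d : ℕ}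
    (hN : 2 ≤ N) (hd : d < N) {c ℓ : ℝ} (hℓ : 0 < ℓ) (hℓ1 : ℓ ≤ 1) {τ : ℂ} (hτ : 0 < ‖τ‖)
    (hτ1 : ‖τ‖ ≤ 1) {ε m0 e1 : ℝ} (hε : 0 < ε) (hε1 : ε < 1) (hm : 1 ≤ m0) (he : 0 ≤ e1)
    (hs : ‖τ‖ * (10 * N + Real.log (2 * KN N / ‖τ‖ + KN N)) ≤ ε) (f0 f1 : ℂ → ℝ)
    (h : ∀ u ∈ Bx (ch N c ℓ d) (ℓ / N), f1 u ≤ f0 u + e1 ∨
      (¬ Bad F Λ (ε / ‖τ‖) (2 * KN N / ‖τ‖) (vt c ℓ) u ∧ f0 u = al Λ τ (vt c ℓ) u ∧
        f1 u = al Λ τ (vt (ch N c ℓ d) (ℓ / N)) u)) :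
    ∫⁻ u in Bx (ch N c ℓ d) (ℓ / N), ENNReal.ofReal (‖deriv F u‖ ^ 2 * Real.exp (f1 u)) ≤
      ENNReal.ofReal (Real.exp (e1 + ‖τ‖ ^ 2 * m0)) *
        (∫⁻ u in Bx (ch N c ℓ d) (ℓ / N), ENNReal.ofReal (‖deriv F u‖ ^ 2 * Real.exp (f0 u))) +
      ENNReal.ofReal (Real.exp (w0 Λ τ (vt c ℓ) + 2 * ε) * (‖τ‖ * Er ε (‖τ‖ * m0)
        ‖F (vt (ch N c ℓ d) (ℓ / N)) - F (vt c ℓ)‖ (2 * KN N * rr F (vt c ℓ)) (10 * N))) := by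
  have hπ := Real.pi_gt_three
  obtain ⟨hp, hle⟩ := seg_div hN hℓ
  have hv : 0 < (vt c ℓ).re := by
    show 0 < 2 * ℓ
    positivity
  have hR := rr_pos hF hv
  have hKN : 0 < KN N := Real.exp_pos _
  have hr : 0 < 2 * KN N * rr F (vt c ℓ) := by positivity
  have hB : (0 : ℝ) ≤ 10 * N := by positivity
  have hm' : 0 < ‖τ‖ * m0 := mul_pos hτ (by linarith only [hm])
  have hω := (Step_omega hτ).le
  obtain ⟨Q, hQ⟩ : ∃ Q : Set ℂ, Q = Bx (ch N c ℓ d) (ℓ / N) := ⟨_, rfl⟩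
  have hQm : MeasurableSet Q := by
    rw [hQ]
    exact Pool.Agent.Helper90.G2.meas_bx _ _
  have hQs : Q ⊆ {u | 0 < u.re ∧ |u.im - ch N c ℓ d| < π} := by
    rw [hQ]
    intro u hu
    exact ⟨hu.1, by (clear * - hℓ1 hε hε1 hπ hle hu; linarith [hu.2.2])⟩
  rw [← hQ] at h ⊢
  obtain ⟨G, hG⟩ : ∃ G : ℂ → ENNReal, G = StepG (Real.exp (w0 Λ τ (vt c ℓ) + 2 * ε)) ‖τ‖
    (‖τ‖ * m0) (τ / ‖τ‖) (F (vt (ch N c ℓ d) (ℓ / N)) - F (vt c ℓ))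
    (2 * KN N * rr F (vt c ℓ)) (10 * N) := ⟨_, rfl⟩
  have hGm : Measurable G := by
    rw [hG]
    exact StepG_meas _ _ _ _ _ _ _
  -- pointwise
  have hpt : ∀ u ∈ Q, ENNReal.ofReal (‖deriv F u‖ ^ 2 * Real.exp (f1 u)) ≤
      ENNReal.ofReal (Real.exp (e1 + ‖τ‖ ^ 2 * m0)) *
        ENNReal.ofReal (‖deriv F u‖ ^ 2 * Real.exp (f0 u)) +
      ENNReal.ofReal (‖deriv F u‖ ^ 2) * G (F u - F (vt c ℓ)) := by
    intro u hu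
    have hD : 0 ≤ ‖deriv F u‖ ^ 2 := by (clear * -; positivity)
    have hE : 0 ≤ Real.exp (w0 Λ τ (vt c ℓ) + 2 * ε) * ‖τ‖ *
        max (Xh (τ / ‖τ‖) (F (vt (ch N c ℓ d) (ℓ / N)) - F (vt c ℓ)) (F u - F (vt c ℓ))
          (2 * KN N * rr F (vt c ℓ)) (10 * N) - ‖τ‖ * m0) 0 := by
      have := le_max_right (Xh (τ / ‖τ‖) (F (vt (ch N c ℓ d) (ℓ / N)) - F (vt c ℓ))
        (F u - F (vt c ℓ)) (2 * KN N * rr F (vt c ℓ)) (10 * N) - ‖τ‖ * m0) 0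
      (clear * - hτ; positivity)
    have h1 : Real.exp (f1 u) ≤ Real.exp (e1 + ‖τ‖ ^ 2 * m0) * Real.exp (f0 u) +
        Real.exp (w0 Λ τ (vt c ℓ) + 2 * ε) * ‖τ‖ *
        max (Xh (τ / ‖τ‖) (F (vt (ch N c ℓ d) (ℓ / N)) - F (vt c ℓ)) (F u - F (vt c ℓ))
          (2 * KN N * rr F (vt c ℓ)) (10 * N) - ‖τ‖ * m0) 0 := by
      rcases h u hu with h2 | ⟨h2, h3, h4⟩
      · have h5 : Real.exp (f1 u) ≤ Real.exp (e1 + ‖τ‖ ^ 2 * m0) * Real.exp (f0 u) := by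
          rw [← Real.exp_add]
          refine Real.exp_le_exp.2 ?_
          have : 0 ≤ ‖τ‖ ^ 2 * m0 := by (clear * - hτ hm; positivity)
          linarith only [h2, this]
        (clear * - hE h5; linarith only [hE, h5])
      · have h5 := step_pt hF hΛ hN hd (c := c) hℓ hℓ1 hτ hτ1 hε hm hs (u := u)
          (by rw [← hQ]; exact hu) h2
        rw [← h3, ← h4] at h5
        have h6 : Real.exp (‖τ‖ ^ 2 * m0) * Real.exp (f0 u) ≤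
            Real.exp (e1 + ‖τ‖ ^ 2 * m0) * Real.exp (f0 u) :=
          mul_le_mul_of_nonneg_right (Real.exp_le_exp.2 (by linarith only [he])) (Real.exp_pos _).le
        rw [mul_assoc (Real.exp (w0 Λ τ (vt c ℓ) + 2 * ε))]
        linarith only [h5, h6]
    rw [hG]
    unfold StepG
    rw [← ENNReal.ofReal_mul (Real.exp_pos _).le, ← ENNReal.ofReal_mul hD,
      ← ENNReal.ofReal_add (by (clear * -; positivity)) (mul_nonneg hD hE)]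
    refine ENNReal.ofReal_le_ofReal ?_
    have h7 := mul_le_mul_of_nonneg_left h1 hD
    refine h7.trans (le_of_eq ?_)
    ring
  refine (setLIntegral_mono' hQm hpt).trans ?_
  have hFc : ContinuousOn F Q := hF.diff.continuousOn.mono fun u hu => (hQs hu).1
  have hme : AEMeasurable (fun u : ℂ => ENNReal.ofReal (‖deriv F u‖ ^ 2) * G (F u - F (vt c ℓ)))
      (volume.restrict Q) := by
    refine AEMeasurable.mul ?_ ?_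
    · exact (((measurable_deriv F).norm.pow_const 2).ennreal_ofReal).aemeasurable
    · exact hGm.comp_aemeasurable ((hFc.aemeasurable hQm).sub_const _)
  rw [lintegral_add_right' _ hme, lintegral_const_mul' _ _ ENNReal.ofReal_ne_top]
  have hfin : ∫⁻ u in Q, ENNReal.ofReal (‖deriv F u‖ ^ 2) * G (F u - F (vt c ℓ)) ≤
      ENNReal.ofReal (Real.exp (w0 Λ τ (vt c ℓ) + 2 * ε) * (‖τ‖ * Er ε (‖τ‖ * m0)
        ‖F (vt (ch N c ℓ d) (ℓ / N)) - F (vt c ℓ)‖ (2 * KN N * rr F (vt c ℓ)) (10 * N))) := by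
    refine (Fn.cov_shift hF hQm hQs hGm (F (vt c ℓ))).trans ?_
    rw [hG]
    exact StepG_int (Real.exp_pos _).le hτ.le hω hε hε1 hm' hr hB
  (clear * - hfin; gcongr)

end Pool.Agent.Helper26.G4
end

/- Helper24.K6w.H26.G4.WindowB -/
section
/-!
# G4-WINDOWB: the window inequality for one node

`N = 2^M`, `δ = |τ|`, `c = ch (N^k) ξ 1 d`, `ℓ = N^(-k)`, `v = vt c ℓ`. `w` = integral over `Wn c ℓ (1/N)`,
`Vp e` = integral over the child `e` of `|F'|² e^(y u k)`, `V e = Vs (k+1) (N d + e)` (`Vs_child`).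
`Fz.step` for `u` in the child (`k < lv N u` by `lv_lt`; `vk_eq` for `k` and `k + 1`, `ch_child`) is the
hypothesis of `step_int` with `e1 = ε δ² M`. With `m0 = KK`, `mm (Sc κ N) ε`, `mm (Sa N) ε` and
`er_KK`, `er_mm`, `er_mm` (with `a = ar F (Wn c ℓ (1/N))`, `R = rr F v`, `ar_low`, `disp_le`, `dis_cen`,
`dis_all`) and `w_low`: (h2), (h3), (h4) of `rec4` for the real numbers `toReal` (everything is
finite if `Vs k d` is) with `1 + a = exp (ε δ² M + δ² KK)`, `g = exp (ε δ² M + δ² mm Sc)`, `c = C9 δ² M`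
(`ε M + mm Sa ≤ C9 M`: `mm_Sa`), `η = ε / KK`. By `s6`: `a ≤ 2 δ² (ε M + KK) ≤ 4 δ² KK ≤ η / 2`, `a η ≤ 4 δ² ε`,
`a ≤ θ η / 2` by `hθ`; `g + a η + c (2 η + ε) ≤ g exp (4 δ² ε + 3 ε c)`, `η ≤ ε`.
-/

set_option autoImplicit false

namespace Pool.Agent.Helper26.G4

open MeasureTheory Set
open scoped Real
open Pool.Agent.Helper90.G2 (Bx Wn Fn ar ch Cen chi)

theorem WindowB_N {M : ℕ} (hM : 1 ≤ M) : 2 ≤ 2 ^ M := by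
  calc 2 = 2 ^ 1 := by norm_num
    _ ≤ 2 ^ M := Nat.pow_le_pow_right (by norm_num) hM

theorem WindowB_log (M : ℕ) : Real.log ((2 ^ M : ℕ) : ℝ) = M * Real.log 2 := by
  push_cast
  rw [Real.log_pow]

theorem WindowB_Sa {M : ℕ} (hM : 1 ≤ M) :
    3600000000 ≤ Sa (2 ^ M) ^ 2 ∧ Sa (2 ^ M) ^ 2 ≤ 6100000000 * M := by
  have hM1 : (1 : ℝ) ≤ M := by exact_mod_cast hM
  have hl0 := Real.log_two_gt_d9
  have hl1 := Real.log_two_lt_d9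
  have hl : 0 ≤ 1 + Real.log ((2 ^ M : ℕ) : ℝ) := by
    rw [WindowB_log]
    (clear * - hl0; nlinarith only [hl0])
  have h1 : Sa (2 ^ M) ^ 2 = 3600000000 * (1 + Real.log ((2 ^ M : ℕ) : ℝ)) := by
    rw [Sa, mul_pow, Real.sq_sqrt hl]
    norm_num
  rw [h1, WindowB_log]
  constructor <;> (clear * - hl0 hM1 hl1; nlinarith only [hl0, hM1, hl1])

theorem mm_Sa {M : ℕ} (hM : 1 ≤ M) {ε : ℝ} (hε : 0 < ε) (hε1 : ε ≤ 1 / 20) :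
    ε * M + mm (Sa (2 ^ M)) ε ≤ C9 * M := by
  have hM1 : (1 : ℝ) ≤ M := by exact_mod_cast hM
  obtain ⟨h1, h2⟩ := WindowB_Sa hM
  have hπ := Real.pi_lt_d2
  have hπ0 := Real.pi_pos
  have h3 : mm (Sa (2 ^ M)) ε ≤ 9000000000 * M := by
    rw [mm, div_le_iff₀ (by (clear * - hε hε1; linarith))]
    have e1 : π * Sa (2 ^ M) ^ 2 ≤ 3.15 * (6100000000 * M) :=
      mul_le_mul hπ.le h2 (by positivity) (by norm_num)
    have e2 : (7 / 10 : ℝ) ≤ 1 - 6 * ε := by (clear * - hε1; linarith only [hε1])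
    nlinarith only [e1, e2]
  unfold C9
  (clear * - h3 hε1; nlinarith only [hε1, h3])

theorem M_le_KK {M : ℕ} (hM : 1 ≤ M) {ε : ℝ} (hε : 0 < ε) (hε1 : ε ≤ 1 / 20) :
    ε * M ≤ KK (2 ^ M) ε := by
  have hM1 : (1 : ℝ) ≤ M := by exact_mod_cast hM
  obtain ⟨h1, h2⟩ := WindowB_Sa hM
  have hπ := Real.pi_gt_three
  have hN : (M : ℝ) ≤ ((2 ^ M : ℕ) : ℝ) := by exact_mod_cast Nat.lt_two_pow_self.le
  rw [KK, le_div_iff₀ hε]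
  have e1 : ε * M * ε ≤ 1 * M := by
    have : ε * ε ≤ 1 := by (clear * - hε hε1; nlinarith only [hε, hε1])
    (clear * - this; nlinarith only [this])
  have e2 : (1 : ℝ) ≤ 4 * π * Sa (2 ^ M) ^ 2 := by nlinarith only [h1, hπ]
  calc ε * M * ε ≤ 1 * M := e1
    _ ≤ 4 * π * Sa (2 ^ M) ^ 2 * ((2 ^ M : ℕ) : ℝ) :=
      mul_le_mul e2 hN (by linarith only []) (by linarith only [e2])

/-- from `ENNReal` to real numbers -/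
theorem WindowB_real {V Vp wE : ENNReal} {E a w K β X ε : ℝ}
    (hV : V ≤ ENNReal.ofReal E * Vp + ENNReal.ofReal (Real.exp (w + 2 * ε) * X)) (hE : 0 ≤ E)
    (hVp : Vp < ⊤) (hw : wE < ⊤) (hlow : ENNReal.ofReal (a * Real.exp (w - K)) ≤ wE) (hβ : 0 ≤ β)
    (hX : Real.exp (2 * ε) * X ≤ β * (a * Real.exp (-K))) :
    V < ⊤ ∧ V.toReal ≤ E * Vp.toReal + β * wE.toReal := by
  have h1 : Real.exp (w + 2 * ε) * X ≤ β * (a * Real.exp (w - K)) := by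
    have e1 : Real.exp (w + 2 * ε) * X = Real.exp w * (Real.exp (2 * ε) * X) := by
      rw [Real.exp_add]
      ring
    have e2 : β * (a * Real.exp (w - K)) = Real.exp w * (β * (a * Real.exp (-K))) := by
      rw [sub_eq_add_neg, Real.exp_add]
      ring
    rw [e1, e2]
    exact mul_le_mul_of_nonneg_left hX (Real.exp_pos w).le
  have h2 : V ≤ ENNReal.ofReal E * Vp + ENNReal.ofReal β * wE := by
    refine hV.trans (add_le_add le_rfl ?_)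
    refine (ENNReal.ofReal_le_ofReal h1).trans ?_
    rw [ENNReal.ofReal_mul hβ]
    exact mul_le_mul_right hlow _
  have h3 : ENNReal.ofReal E * Vp < ⊤ := ENNReal.mul_lt_top ENNReal.ofReal_lt_top hVp
  have h4 : ENNReal.ofReal β * wE < ⊤ := ENNReal.mul_lt_top ENNReal.ofReal_lt_top hw
  have h5 := ENNReal.add_lt_top.2 ⟨h3, h4⟩
  refine ⟨lt_of_le_of_lt h2 h5, ?_⟩
  refine (ENNReal.toReal_mono h5.ne h2).trans (le_of_eq ?_)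
  rw [ENNReal.toReal_add h3.ne h4.ne, ENNReal.toReal_mul, ENNReal.toReal_mul,
    ENNReal.toReal_ofReal hE, ENNReal.toReal_ofReal hβ]

/-- the hypothesis of `step_int` -/
theorem WindowB_fz {F : ℂ → ℂ} {Λ : ℂ → ℂ → ℂ} {N M : ℕ} (hNM : N = 2 ^ M) (hN : 2 ≤ N)
    {ξ ε : ℝ} {τ : ℂ} {y : ℂ → ℕ → ℝ} (hy : Yf F Λ M ξ ε τ y) {k d : ℕ} (hd : d < N ^ k)
    {c ℓ : ℝ} (hc : c = ch (N ^ k) ξ 1 d) (hℓ : ℓ = 1 / (N : ℝ) ^ k) {e : ℕ} (he : e < N) :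
    ∀ u ∈ Bx (ch N c ℓ e) (ℓ / N), y u (k + 1) ≤ y u k + ε * ‖τ‖ ^ 2 * M ∨
      (¬ Bad F Λ (ε / ‖τ‖) (2 * KN N / ‖τ‖) (vt c ℓ) u ∧ y u k = al Λ τ (vt c ℓ) u ∧
        y u (k + 1) = al Λ τ (vt (ch N c ℓ e) (ℓ / N)) u) := by
  intro u hu
  have hp := Levels_pow hN k
  have hℓ0 : 0 < ℓ := by
    rw [hℓ]
    exact one_div_pos.2 hp
  have h1 : 1 / (N : ℝ) ^ (k + 1) = ℓ / N := by
    rw [hℓ, pow_succ, div_div]
  have h2 : ch (N ^ (k + 1)) ξ 1 (N * d + e) = ch N c ℓ e := by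
    rw [ch_child hN, ← hc, ← hℓ]
  have huc : u ∈ Bx (ch (N ^ (k + 1)) ξ 1 (N * d + e)) (1 / (N : ℝ) ^ (k + 1)) := by
    rw [h1, h2]
    exact hu
  have hup : u ∈ Bx (ch (N ^ k) ξ 1 d) (1 / (N : ℝ) ^ k) := by
    rw [← hc, ← hℓ]
    exact Pool.Agent.Helper90.G2.bx_child_sub hℓ0 hN he hu
  have hu1 := bx_child hN hd hup
  have hlv : k < lv N u := by
    refine lv_lt hN huc.1 ?_
    exact huc.2.1
  have hvk : vk N ξ k u = vt c ℓ := by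
    rw [vk_eq hN hup, ← hc, ← hℓ]
  have hvk1 : vk N ξ (k + 1) u = vt (ch N c ℓ e) (ℓ / N) := by
    rw [vk_eq hN huc, h1, h2]
  have hz := hy u hu1
  rw [← hNM] at hz
  have h3 := hz.step k hlv
  simp only [hvk, hvk1] at h3
  exact h3

/-- one child, any of the constants `m0` -/
theorem WindowB_kid {F : ℂ → ℂ} {A : ℝ} (hF : Fn F A) {Λ : ℂ → ℂ → ℂ} (hΛ : Br F Λ) {M : ℕ}
    (hM : 1 ≤ M) {Ca κ ε : ℝ} {τ : ℂ} (hε : 0 < ε) (hε1 : ε ≤ 1 / 20) (hS : Sm Ca M κ ε ‖τ‖)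
    {ξ : ℝ} {y : ℂ → ℕ → ℝ} (hy : Yf F Λ M ξ ε τ y) {k d : ℕ} (hd : d < (2 ^ M) ^ k)
    (hfin : Vs F y (2 ^ M) ξ k d < ⊤) {c ℓ : ℝ} (hc : c = ch ((2 ^ M) ^ k) ξ 1 d)
    (hℓ : ℓ = 1 / ((2 ^ M : ℕ) : ℝ) ^ k) {e : ℕ} (he : e < 2 ^ M) {m0 β : ℝ} (hm : 1 ≤ m0)
    (hβ : 0 ≤ β)
    (hEr : Real.exp (2 * ε) * (‖τ‖ * Er ε (‖τ‖ * m0)
        ‖F (vt (ch (2 ^ M) c ℓ e) (ℓ / ((2 ^ M : ℕ) : ℝ))) - F (vt c ℓ)‖
        (2 * KN (2 ^ M) * rr F (vt c ℓ)) (10 * ((2 ^ M : ℕ) : ℝ))) ≤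
      β * (ar F (Wn c ℓ (1 / ((2 ^ M : ℕ) : ℝ))) * Real.exp (-(‖τ‖ * KN (2 ^ M))))) :
    Vs F y (2 ^ M) ξ (k + 1) (2 ^ M * d + e) < ⊤ ∧
    (Vs F y (2 ^ M) ξ (k + 1) (2 ^ M * d + e)).toReal ≤
      Real.exp (ε * ‖τ‖ ^ 2 * M + ‖τ‖ ^ 2 * m0) *
        (∫⁻ u in Bx (ch (2 ^ M) c ℓ e) (ℓ / ((2 ^ M : ℕ) : ℝ)),
          ENNReal.ofReal (‖deriv F u‖ ^ 2 * Real.exp (y u k))).toReal +
      β * (∫⁻ u in Wn c ℓ (1 / ((2 ^ M : ℕ) : ℝ)),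
          ENNReal.ofReal (‖deriv F u‖ ^ 2 * Real.exp (y u k))).toReal := by
  have hN := WindowB_N hM
  have hp := Levels_pow hN k
  have hℓ0 : 0 < ℓ := by
    rw [hℓ]
    exact one_div_pos.2 hp
  have hℓ1 : ℓ ≤ 1 := by
    rw [hℓ]
    have := Levels_anti hN (Nat.zero_le k)
    rwa [pow_zero, div_one] at this
  have hτ := hS.pos
  have hτ1 : ‖τ‖ ≤ 1 := hS.le.trans (by norm_num)
  have hlow := w_low hF hΛ hM hy hd hc hℓ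
  have hV : ∫⁻ u in Bx c ℓ, ENNReal.ofReal (‖deriv F u‖ ^ 2 * Real.exp (y u k)) < ⊤ := by
    rw [Vs, ← hc, ← hℓ] at hfin
    exact hfin
  have hw : ∫⁻ u in Wn c ℓ (1 / ((2 ^ M : ℕ) : ℝ)),
      ENNReal.ofReal (‖deriv F u‖ ^ 2 * Real.exp (y u k)) < ⊤ :=
    lt_of_le_of_lt (lintegral_mono_set (Pool.Agent.Helper90.G2.wn_sub hℓ0 hN)) hV
  have hVp : ∫⁻ u in Bx (ch (2 ^ M) c ℓ e) (ℓ / ((2 ^ M : ℕ) : ℝ)),
      ENNReal.ofReal (‖deriv F u‖ ^ 2 * Real.exp (y u k)) < ⊤ :=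
    lt_of_le_of_lt (lintegral_mono_set (Pool.Agent.Helper90.G2.bx_child_sub hℓ0 hN he)) hV
  have hst := step_int hF hΛ hN he (c := c) hℓ0 hℓ1 hτ hτ1 hε (by linarith only [hε1]) hm
    (e1 := ε * ‖τ‖ ^ 2 * M) (by (clear * - hε hτ hM; positivity)) hS.s1 (fun u => y u k) (fun u => y u (k + 1))
    (WindowB_fz rfl hN hy hd hc hℓ he)
  rw [Vs_child F y hN hc hℓ]
  exact WindowB_real hst (Real.exp_pos _).le hVp hw hlow hβ hEr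

theorem window4 {F : ℂ → ℂ} {A : ℝ} (hF : Fn F A) {Λ : ℂ → ℂ → ℂ} (hΛ : Br F Λ) {M : ℕ}
    (hM : 1 ≤ M) {Ca κ ε : ℝ} {τ : ℂ} (hκ : 0 < κ) (hκ1 : κ ≤ 1 / 4)
    (hMκ : 2 / ((2 ^ M : ℕ) : ℝ) < κ ^ 2) (hε : 0 < ε) (hε1 : ε ≤ 1 / 20) (hS : Sm Ca M κ ε ‖τ‖)
    {ξ : ℝ} {y : ℂ → ℕ → ℝ} (hy : Yf F Λ M ξ ε τ y) {θ : ℝ}
    (hθ : 8 * ‖τ‖ ^ 2 * KK (2 ^ M) ε ^ 2 / ε ≤ θ) {k d : ℕ} (hd : d < (2 ^ M) ^ k)
    (hfin : Vs F y (2 ^ M) ξ k d < ⊤) :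
    (∀ e < 2 ^ M, Vs F y (2 ^ M) ξ (k + 1) (2 ^ M * d + e) < ⊤) ∧
    ∑ e ∈ Finset.range (2 ^ M), chi κ (C9 * ‖τ‖ ^ 2 * M) (2 ^ M) e *
        (Vs F y (2 ^ M) ξ (k + 1) (2 ^ M * d + e)).toReal ^ (1 + θ) ≤
      Real.exp ((C9 * ‖τ‖ ^ 2 * M + 4 * ‖τ‖ ^ 2 * ε) * θ +
        ‖τ‖ ^ 2 * (ε * M + mm (Sc κ (2 ^ M)) ε) + 4 * ‖τ‖ ^ 2 * ε + 3 * ε * (C9 * ‖τ‖ ^ 2 * M)) *
      (Vs F y (2 ^ M) ξ k d).toReal ^ (1 + θ) := by
  have hN := WindowB_N hM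
  have hM1 : (1 : ℝ) ≤ M := by exact_mod_cast hM
  have hτ := hS.pos
  have hτ1 : ‖τ‖ ≤ 1 := hS.le.trans (by norm_num)
  obtain ⟨hSa, hSc, hKK, hmSa, hmSc, -⟩ := sizes hN hκ hκ1 hε hε1
  have hmmSa := mm_Sa hM hε hε1
  have hMKK := M_le_KK hM hε hε1
  have hcast : ((2 ^ M : ℕ) : ℝ) = (2 : ℝ) ^ M := by push_cast; rfl
  have hp := Levels_pow hN k
  obtain ⟨c, hc⟩ : ∃ c : ℝ, c = ch ((2 ^ M) ^ k) ξ 1 d := ⟨_, rfl⟩
  obtain ⟨ℓ, hℓ⟩ : ∃ ℓ : ℝ, ℓ = 1 / ((2 ^ M : ℕ) : ℝ) ^ k := ⟨_, rfl⟩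
  have hℓ0 : 0 < ℓ := by
    rw [hℓ]
    exact one_div_pos.2 hp
  have hℓ1 : ℓ ≤ 1 := by
    rw [hℓ]
    have := Levels_anti hN (Nat.zero_le k)
    rwa [pow_zero, div_one] at this
  have hNR : (2 : ℝ) ≤ ((2 ^ M : ℕ) : ℝ) := by exact_mod_cast hN
  have hN0 : (0 : ℝ) < ((2 ^ M : ℕ) : ℝ) := by linarith only [hNR]
  have hq : (0 : ℝ) < 1 / ((2 ^ M : ℕ) : ℝ) := by positivity
  have hq1 : 1 / ((2 ^ M : ℕ) : ℝ) ≤ 1 / 2 := one_div_le_one_div_of_le (by norm_num) hNR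
  have hv : 0 < (vt c ℓ).re := by
    show 0 < 2 * ℓ
    (clear * - hℓ0; linarith only [hℓ0])
  have hR := rr_pos hF hv
  have har := hF.ar_pos (c := c) hℓ0 hℓ1 hq hq1
  have hlowR := ar_low hF hN (c := c) hℓ0 hℓ1
  have hds : ∀ e < 2 ^ M, ‖F (vt (ch (2 ^ M) c ℓ e) (ℓ / ((2 ^ M : ℕ) : ℝ))) - F (vt c ℓ)‖ ≤
      KN (2 ^ M) * rr F (vt c ℓ) := fun e he =>
    disp_le hF hΛ hN he hℓ0 hℓ1 (right_mem_segment ℝ _ _)
  -- the three bounds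
  have h2 := fun (e : ℕ) (he : e < 2 ^ M) =>
    WindowB_kid hF hΛ hM hε hε1 hS hy hd hfin hc hℓ he hKK (β := ε / ((2 ^ M : ℕ) : ℝ))
      (by positivity) (er_KK hN hε hε1 hτ hR har (norm_nonneg _) hlowR (hds e he)
        (dis_all hF hN he hℓ0 hℓ1) hS.s5 hS.s2)
  have h4 := fun (e : ℕ) (he : e < 2 ^ M) =>
    WindowB_kid hF hΛ hM hε hε1 hS hy hd hfin hc hℓ he hmSa (β := 1 - ε)
      (by linarith only [hε1]) (er_mm hN hε hε1 hτ hSa hR har (norm_nonneg _) hlowR (hds e he)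
        (dis_all hF hN he hℓ0 hℓ1) hS.s4 hS.s2)
  have h3 := fun (e : ℕ) (he : e < 2 ^ M) (hcen : Cen κ (2 ^ M) e) =>
    WindowB_kid hF hΛ hM hε hε1 hS hy hd hfin hc hℓ he hmSc (β := 1 - ε)
      (by linarith only [hε1]) (er_mm hN hε hε1 hτ hSc hR har (norm_nonneg _) hlowR (hds e he)
        (dis_cen hF hN he hκ hκ1 hMκ hℓ0 hℓ1 hcen) hS.s3 hS.s2)
  refine ⟨fun e he => (h2 e he).1, ?_⟩
  -- additivity
  have hV : ∫⁻ u in Bx c ℓ, ENNReal.ofReal (‖deriv F u‖ ^ 2 * Real.exp (y u k)) < ⊤ := by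
    rw [Vs, ← hc, ← hℓ] at hfin
    exact hfin
  have hVr : (Vs F y (2 ^ M) ξ k d).toReal =
      (∫⁻ u in Bx c ℓ, ENNReal.ofReal (‖deriv F u‖ ^ 2 * Real.exp (y u k))).toReal := by
    rw [Vs, ← hc, ← hℓ]
  have hadd := kids_add4 (fun u => ENNReal.ofReal (‖deriv F u‖ ^ 2 * Real.exp (y u k))) hN
    (c := c) hℓ0
  have hw : ∫⁻ u in Wn c ℓ (1 / ((2 ^ M : ℕ) : ℝ)),
      ENNReal.ofReal (‖deriv F u‖ ^ 2 * Real.exp (y u k)) < ⊤ :=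
    lt_of_le_of_lt (lintegral_mono_set (Pool.Agent.Helper90.G2.wn_sub hℓ0 hN)) hV
  have hVp : ∀ e ∈ Finset.range (2 ^ M), ∫⁻ u in Bx (ch (2 ^ M) c ℓ e) (ℓ / ((2 ^ M : ℕ) : ℝ)),
      ENNReal.ofReal (‖deriv F u‖ ^ 2 * Real.exp (y u k)) ≠ ⊤ := fun e he =>
    (lt_of_le_of_lt (lintegral_mono_set
      (Pool.Agent.Helper90.G2.bx_child_sub hℓ0 hN (Finset.mem_range.1 he))) hV).ne
  have h1 : (∫⁻ u in Wn c ℓ (1 / ((2 ^ M : ℕ) : ℝ)),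
      ENNReal.ofReal (‖deriv F u‖ ^ 2 * Real.exp (y u k))).toReal +
      ∑ e ∈ Finset.range (2 ^ M), (∫⁻ u in Bx (ch (2 ^ M) c ℓ e) (ℓ / ((2 ^ M : ℕ) : ℝ)),
        ENNReal.ofReal (‖deriv F u‖ ^ 2 * Real.exp (y u k))).toReal ≤
      (Vs F y (2 ^ M) ξ k d).toReal := by
    rw [hVr, ← ENNReal.toReal_sum hVp, ← ENNReal.toReal_add hw.ne
      (ENNReal.sum_lt_top.2 fun e he => lt_top_iff_ne_top.2 (hVp e he)).ne]
    exact ENNReal.toReal_mono hV.ne hadd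
  -- parameters
  obtain ⟨K, hK⟩ : ∃ K : ℝ, K = KK (2 ^ M) ε := ⟨_, rfl⟩
  obtain ⟨δ, hδ⟩ : ∃ δ : ℝ, δ = ‖τ‖ := ⟨_, rfl⟩
  have hs6 := hS.s6
  rw [← hK] at hKK hMKK hθ h2 hs6
  rw [← hδ] at hτ hτ1 hθ h2 h3 h4 hs6 ⊢
  have hK0 : 0 < K := by linarith only [hKK]
  obtain ⟨x, hx⟩ : ∃ x : ℝ, x = ε * δ ^ 2 * M + δ ^ 2 * K := ⟨_, rfl⟩
  have hx0 : 0 ≤ x := by rw [hx]; (clear * - hε hτ hM hKK; positivity)
  have hx1 : x ≤ 2 * δ ^ 2 * K := by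
    rw [hx]
    have : δ ^ 2 * (ε * M) ≤ δ ^ 2 * K := mul_le_mul_of_nonneg_left hMKK (by positivity)
    linarith only [this]
  have hx2 : 4 * δ ^ 2 * K ≤ ε / K / 2 := by
    rw [div_div, le_div_iff₀ (by positivity)]
    linarith only [hs6]
  have hη1 : ε / K ≤ ε := div_le_self hε.le hKK
  have hη0 : 0 ≤ ε / K := by positivity
  have ha0 : 0 ≤ Real.exp x - 1 := by
    have := Real.add_one_le_exp x
    linarith only [hx0, this]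
  have ha2 : Real.exp x - 1 ≤ 2 * x := by
    have hb := Real.exp_bound_div_one_sub_of_interval hx0 (by (clear * - hε1 hx1 hx2 hη1; linarith only [hε1, hx1, hx2, hη1]) : x < 1)
    have hc : 1 / (1 - x) ≤ 1 + 2 * x := by
      rw [div_le_iff₀ (by linarith only [hε1, hx1, hx2, hη1])]
      nlinarith only [hε1, hx0, hx1, hx2, hη1]
    linarith only [hb, hc]
  have ha3 : Real.exp x - 1 ≤ 4 * δ ^ 2 * K := by linarith only [hx1, ha2]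
  have hθ0 : 0 ≤ θ := le_trans (by (clear * - hτ hKK hε; positivity)) hθ
  have haθ : Real.exp x - 1 ≤ θ * (ε / K / 2) := by
    have e1 : 8 * δ ^ 2 * K ^ 2 / ε * (ε / K / 2) = 4 * δ ^ 2 * K := by
      field_simp
      norm_num
    have e2 := mul_le_mul_of_nonneg_right hθ (by (clear * - hε hKK; positivity) : 0 ≤ ε / K / 2)
    rw [e1] at e2
    linarith only [ha3, e2]
  have hrec := rec4 (κ := κ) (g := Real.exp (ε * δ ^ 2 * M + δ ^ 2 * mm (Sc κ (2 ^ M)) ε))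
    (c := C9 * δ ^ 2 * M) (ε := ε) (η := ε / K) (θ := θ) (a := Real.exp x - 1)
    (w := (∫⁻ u in Wn c ℓ (1 / ((2 ^ M : ℕ) : ℝ)),
      ENNReal.ofReal (‖deriv F u‖ ^ 2 * Real.exp (y u k))).toReal)
    (v := (Vs F y (2 ^ M) ξ k d).toReal) (by (clear * - k d hN; omega) : 0 < 2 ^ M)
    (fun e => (∫⁻ u in Bx (ch (2 ^ M) c ℓ e) (ℓ / ((2 ^ M : ℕ) : ℝ)),
      ENNReal.ofReal (‖deriv F u‖ ^ 2 * Real.exp (y u k))).toReal)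
    (fun e => (Vs F y (2 ^ M) ξ (k + 1) (2 ^ M * d + e)).toReal)
    ENNReal.toReal_nonneg ha0 (by linarith only [hε1, hx2, hη1, ha3]) (by linarith only [hx2, ha3]) (Real.one_le_exp (by (clear * - hε hτ hM hmSc; positivity)))
    (by unfold C9; positivity) hε.le (by linarith only [hε1]) hη0 (by (clear * - hε1 hη1; linarith only [hε1, hη1])) hθ0 haθ
    (fun e _ => ENNReal.toReal_nonneg) (fun e _ => ENNReal.toReal_nonneg) h1 ?_ ?_ ?_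
  · refine hrec.trans ?_
    have hv0 : 0 ≤ (Vs F y (2 ^ M) ξ k d).toReal ^ (1 + θ) :=
      Real.rpow_nonneg ENNReal.toReal_nonneg _
    refine mul_le_mul_of_nonneg_right ?_ hv0
    obtain ⟨G, hG⟩ : ∃ G : ℝ, G = ε * δ ^ 2 * M + δ ^ 2 * mm (Sc κ (2 ^ M)) ε := ⟨_, rfl⟩
    have hG0 : 0 ≤ G := by rw [hG]; (clear * - hε hτ hM hmSc; positivity)
    obtain ⟨C, hC⟩ : ∃ C : ℝ, C = C9 * δ ^ 2 * M := ⟨_, rfl⟩
    have hC0 : 0 ≤ C := by rw [hC]; unfold C9; (clear * - hτ hM; positivity)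
    rw [← hG, ← hC]
    have hg1 : 1 ≤ Real.exp G := Real.one_le_exp hG0
    have b1 : (Real.exp x - 1) * (ε / K) ≤ 4 * δ ^ 2 * ε := by
      calc (Real.exp x - 1) * (ε / K) ≤ 4 * δ ^ 2 * K * (ε / K) :=
            mul_le_mul_of_nonneg_right ha3 hη0
        _ = 4 * δ ^ 2 * ε := by (clear * - hKK hε hτ; field_simp)
    have b2 : C * (2 * (ε / K) + ε) ≤ 3 * ε * C := by (clear * - hη1 hC0; nlinarith only [hη1, hC0])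
    have b3 : 0 ≤ 4 * δ ^ 2 * ε + 3 * ε * C := by (clear * - hτ hε hC0; positivity)
    have b4 : Real.exp G + (Real.exp x - 1) * (ε / K) + C * (2 * (ε / K) + ε) ≤
        Real.exp G * Real.exp (4 * δ ^ 2 * ε + 3 * ε * C) := by
      have b5 := Real.add_one_le_exp (4 * δ ^ 2 * ε + 3 * ε * C)
      nlinarith only [hg1, b1, b2, b3, b5]
    have b6 : Real.exp ((C + (Real.exp x - 1) * (ε / K)) * θ) ≤
        Real.exp ((C + 4 * δ ^ 2 * ε) * θ) :=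
      Real.exp_le_exp.2 (mul_le_mul_of_nonneg_right (by linarith only [b1]) hθ0)
    have b7 : 0 ≤ Real.exp G + (Real.exp x - 1) * (ε / K) + C * (2 * (ε / K) + ε) := by
      have := mul_nonneg ha0 hη0
      (clear * - ha0 hε hKK hC0; positivity)
    calc Real.exp ((C + (Real.exp x - 1) * (ε / K)) * θ) *
          (Real.exp G + (Real.exp x - 1) * (ε / K) + C * (2 * (ε / K) + ε))
        ≤ Real.exp ((C + 4 * δ ^ 2 * ε) * θ) *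
          (Real.exp G * Real.exp (4 * δ ^ 2 * ε + 3 * ε * C)) :=
          mul_le_mul b6 b4 b7 (Real.exp_pos _).le
      _ = Real.exp ((C + 4 * δ ^ 2 * ε) * θ + δ ^ 2 * (ε * M + mm (Sc κ (2 ^ M)) ε) +
          4 * δ ^ 2 * ε + 3 * ε * C) := by
          rw [← Real.exp_add, ← Real.exp_add, hG]
          congr 1
          ring
  · intro e he
    have k1 := (h2 e he).2
    rw [← hx] at k1
    have e1 : 1 + (Real.exp x - 1) = Real.exp x := by ring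
    rw [e1]
    exact k1
  · intro e he hcen
    exact (h3 e he hcen).2
  · intro e he
    refine (h4 e he).2.trans ?_
    have e1 : ε * δ ^ 2 * M + δ ^ 2 * mm (Sa (2 ^ M)) ε ≤ C9 * δ ^ 2 * M := by
      have := mul_le_mul_of_nonneg_left hmmSa (by positivity : 0 ≤ δ ^ 2)
      linarith only [this]
    have e2 := mul_le_mul_of_nonneg_right (Real.exp_le_exp.2 e1)
      (ENNReal.toReal_nonneg (a := ∫⁻ u in Bx (ch (2 ^ M) c ℓ e) (ℓ / ((2 ^ M : ℕ) : ℝ)),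
        ENNReal.ofReal (‖deriv F u‖ ^ 2 * Real.exp (y u k))))
    linarith only [e2]

end Pool.Agent.Helper26.G4
end

/- Helper24.K6w.H26.G5.Window5 -/
section
/-!
# G5-WINDOW: the window inequality for one node

Copy of `Pool.Agent.Helper26.G4.window4` with `V5` instead of the integrals: `v = V5 k (vt c ℓ) (Bx c ℓ)`,
`w = V5 k (vt c ℓ) (Wn c ℓ (1/N))`, `Vp e = V5 k (vt c ℓ) (child e)`, `V e = V5 (k+1) (vt child) (child)`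
(`Vn_child`), `V5_add` for (h1), `step_int5` with `m0 = KK`, `mm5 c₀ (Sc κ N) ε`, `mm5 c₀ (Sa N) ε`
(`≥ 1`, `sizes`: `Sc ≥ 55000`, `c₀ ≤ 1/2`), `er5_KK`, `er5_mm`, `w_low5`; `β = |τ| b ≤ ε / 4`.
`mm5 ≤ mm`, so `mm_Sa` applies.
-/

set_option autoImplicit false

namespace Pool.Agent.Helper26.G5

open MeasureTheory Set
open scoped Real
open Pool.Agent.Helper90.G2 (Bx Wn Fn ar ch Cen chi)
open Pool.Agent.Helper26.G4 (vt Br Lb wd al rr w0 Bad cn vk lv KN Sa Sc mm KK C9 Sg)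

/-- sizes of the constants -/
theorem Window5_two {N : ℕ} {κ ε : ℝ} (hκ : 0 < κ) (hκ1 : κ ≤ 1 / 4)
    (hε : 0 < ε) (hε1 : ε ≤ 1 / 20) : 2 ≤ mm (Sa N) ε ∧ 2 ≤ mm (Sc κ N) ε := by
  have hπ := Real.pi_gt_three
  have hl : 0 ≤ Real.log N := Real.log_natCast_nonneg N
  have hSc : 2 ≤ Sc κ N := by
    unfold Sc Pool.Agent.Helper90.G2.sS
    have h1 : 0 ≤ √(Real.log N / (π - 2 * κ)) := Real.sqrt_nonneg _
    have h2 : 0 ≤ Real.log (2 / κ) := by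
      apply Real.log_nonneg
      rw [le_div_iff₀ hκ]
      linarith only [hκ1]
    (clear * - h1 h2; linarith only [h1, h2])
  have hSa : 2 ≤ Sa N := by
    have h : (1 : ℝ) ≤ √(1 + Real.log N) := by
      rw [Real.one_le_sqrt]
      linarith only [hl]
    unfold Sa
    linarith only [h]
  have hmm : ∀ S : ℝ, 2 ≤ S → 2 ≤ mm S ε := by
    intro S hS
    unfold mm
    rw [le_div_iff₀ (by linarith only [hε1])]
    have : (4 : ℝ) ≤ S ^ 2 := by (clear * - hS; nlinarith only [hS])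
    (clear * - hε this hπ; nlinarith only [hε, hπ, this])
  exact ⟨hmm _ hSa, hmm _ hSc⟩

/-- `mm5` is at least `1` and at most `mm` -/
theorem Window5_mm5 {c₀ S ε : ℝ} (hc : 0 ≤ c₀) (hc1 : c₀ ≤ 1 / 2) (h : 2 ≤ mm S ε) :
    1 ≤ mm5 c₀ S ε ∧ mm5 c₀ S ε ≤ mm S ε := by
  unfold mm5
  constructor <;> (clear * - hc1 h hc; nlinarith only [hc1, h, hc])

/-- the hypothesis of `step_int5` -/
theorem Window5_fz {F : ℂ → ℂ} {Λ : ℂ → ℂ → ℂ} {N M : ℕ} (hNM : N = 2 ^ M) (hN : 2 ≤ N)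
    {ξ ε b B Cc : ℝ} {τ : ℂ} {y χ : ℂ → ℕ → ℝ} (hy : Yf5 F Λ M ξ ε b B Cc τ y χ) {k d : ℕ}
    (hd : d < N ^ k) {c ℓ : ℝ} (hc : c = ch (N ^ k) ξ 1 d) (hℓ : ℓ = 1 / (N : ℝ) ^ k) {e : ℕ}
    (he : e < N) :
    ∀ u ∈ Bx (ch N c ℓ e) (ℓ / N),
      (χ u k = 0 ∧ χ u (k + 1) = 0 ∧ y u (k + 1) ≤ y u k + ε * ‖τ‖ ^ 2 * M) ∨
      y u (k + 1) + sw b B * ‖τ‖ ≤ y u k + ε * ‖τ‖ ^ 2 * M ∨
      (¬ Bad F Λ (ε / ‖τ‖) (2 * Cc * KN N / ‖τ‖) (vt c ℓ) u ∧ χ u k = 1 ∧ χ u (k + 1) = 1 ∧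
        y u k = al Λ τ (vt c ℓ) u ∧ y u (k + 1) = al Λ τ (vt (ch N c ℓ e) (ℓ / N)) u) := by
  intro u hu
  have hp := Pool.Agent.Helper26.G4.Levels_pow hN k
  have hℓ0 : 0 < ℓ := by
    rw [hℓ]
    exact one_div_pos.2 hp
  have h1 : 1 / (N : ℝ) ^ (k + 1) = ℓ / N := by
    rw [hℓ, pow_succ, div_div]
  have h2 : ch (N ^ (k + 1)) ξ 1 (N * d + e) = ch N c ℓ e := by
    rw [Pool.Agent.Helper26.G4.ch_child hN, ← hc, ← hℓ]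
  have huc : u ∈ Bx (ch (N ^ (k + 1)) ξ 1 (N * d + e)) (1 / (N : ℝ) ^ (k + 1)) := by
    rw [h1, h2]
    exact hu
  have hup : u ∈ Bx (ch (N ^ k) ξ 1 d) (1 / (N : ℝ) ^ k) := by
    rw [← hc, ← hℓ]
    exact Pool.Agent.Helper90.G2.bx_child_sub hℓ0 hN he hu
  have hu1 := Pool.Agent.Helper26.G4.bx_child hN hd hup
  have hlv : k < lv N u := by
    refine Pool.Agent.Helper26.G4.lv_lt hN huc.1 ?_
    exact huc.2.1
  have hvk : vk N ξ k u = vt c ℓ := by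
    rw [Pool.Agent.Helper26.G4.vk_eq hN hup, ← hc, ← hℓ]
  have hvk1 : vk N ξ (k + 1) u = vt (ch N c ℓ e) (ℓ / N) := by
    rw [Pool.Agent.Helper26.G4.vk_eq hN huc, h1, h2]
  have hz := hy u hu1
  rw [← hNM] at hz
  have h3 := hz.step k hlv
  simp only [hvk, hvk1] at h3
  exact h3

/-- one child, any of the constants `m0` -/
theorem Window5_kid {F : ℂ → ℂ} {A : ℝ} (hF : Fn F A) {Λ : ℂ → ℂ → ℂ} (hΛ : Br F Λ) {M : ℕ}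
    (hM : 1 ≤ M) {κt : ℂ → ℝ} {b c₀ B Cc m₁ Ca κ ε : ℝ} {τ : ℂ}
    (hk : Tk κt (τ / ‖τ‖) b c₀ B Cc m₁) (hκ : 0 < κ) (hκ1 : κ ≤ 1 / 4) (hε : 0 < ε)
    (hε1 : ε ≤ 1 / 20) (hS : Sm5 Ca b c₀ B Cc m₁ M κ ε ‖τ‖) {ξ : ℝ} {y χ : ℂ → ℕ → ℝ}
    (hy : Yf5 F Λ M ξ ε b B Cc τ y χ) {k d : ℕ} (hd : d < (2 ^ M) ^ k) {c ℓ : ℝ}
    (hc : c = ch ((2 ^ M) ^ k) ξ 1 d) (hℓ : ℓ = 1 / ((2 ^ M : ℕ) : ℝ) ^ k) {e : ℕ}
    (he : e < 2 ^ M) {m0 β : ℝ} (hm : 1 ≤ m0) (hm1 : ‖τ‖ * m0 ≤ m₁) (hβ : 0 ≤ β)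
    (hw : V5 F y χ κt (‖τ‖ * b) k (vt c ℓ) (Wn c ℓ (1 / ((2 ^ M : ℕ) : ℝ))) < ⊤)
    (hVp : V5 F y χ κt (‖τ‖ * b) k (vt c ℓ)
      (Bx (ch (2 ^ M) c ℓ e) (ℓ / ((2 ^ M : ℕ) : ℝ))) < ⊤)
    (hEr : Real.exp (2 * ε) * (‖τ‖ * Er5 c₀ (‖τ‖ * m0)
        ‖F (vt (ch (2 ^ M) c ℓ e) (ℓ / ((2 ^ M : ℕ) : ℝ))) - F (vt c ℓ)‖
        (2 * KN (2 ^ M) * rr F (vt c ℓ)) (Bn (2 ^ M) B)) ≤
      β * ((1 - ‖τ‖ * b) * (ar F (Wn c ℓ (1 / ((2 ^ M : ℕ) : ℝ))) *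
        Real.exp (-(‖τ‖ * KN (2 ^ M)))))) :
    Vn F y χ κt (‖τ‖ * b) (2 ^ M) ξ (k + 1) (2 ^ M * d + e) < ⊤ ∧
    (Vn F y χ κt (‖τ‖ * b) (2 ^ M) ξ (k + 1) (2 ^ M * d + e)).toReal ≤
      Real.exp (ε * ‖τ‖ ^ 2 * M + ‖τ‖ ^ 2 * m0) *
        (V5 F y χ κt (‖τ‖ * b) k (vt c ℓ)
          (Bx (ch (2 ^ M) c ℓ e) (ℓ / ((2 ^ M : ℕ) : ℝ)))).toReal +
      β * (V5 F y χ κt (‖τ‖ * b) k (vt c ℓ) (Wn c ℓ (1 / ((2 ^ M : ℕ) : ℝ)))).toReal := by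
  have hN := Pool.Agent.Helper26.G4.WindowB_N hM
  have hp := Pool.Agent.Helper26.G4.Levels_pow hN k
  have hℓ0 : 0 < ℓ := by
    rw [hℓ]
    exact one_div_pos.2 hp
  have hℓ1 : ℓ ≤ 1 := by
    rw [hℓ]
    have := Pool.Agent.Helper26.G4.Levels_anti hN (Nat.zero_le k)
    rwa [pow_zero, div_one] at this
  have hτ := hS.pos
  obtain ⟨-, -, hKK, -, -, -⟩ := Pool.Agent.Helper26.G4.sizes hN hκ hκ1 hε hε1
  obtain ⟨hmSa, hmSc⟩ := Window5_two (N := 2 ^ M) hκ hκ1 hε hε1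
  have hτ2 : ‖τ‖ ≤ m₁ := by
    refine le_trans ?_ hS.m1
    have : ‖τ‖ * 1 ≤ ‖τ‖ * (1 + KK (2 ^ M) ε + mm (Sc κ (2 ^ M)) ε + mm (Sa (2 ^ M)) ε) :=
      mul_le_mul_of_nonneg_left (by linarith only [hKK, hmSa, hmSc]) hτ.le
    linarith only [this]
  have hb0 : 0 ≤ ‖τ‖ * b := mul_nonneg hτ.le hk.hb.le
  have hb1 : ‖τ‖ * b ≤ 1 := by
    have h1 : ‖τ‖ * b ≤ ‖τ‖ * 1 := mul_le_mul_of_nonneg_left hk.hb1 hτ.le
    linarith only [hS.le, hε1, h1]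
  have hlow := w_low5 hF hΛ hM hy hk.bd hb0 hb1 hd hc hℓ
  rw [← mul_assoc] at hlow
  have hsub : Bx (ch (2 ^ M) c ℓ e) (ℓ / ((2 ^ M : ℕ) : ℝ)) ⊆ Bx ξ 1 :=
    (Pool.Agent.Helper90.G2.bx_child_sub hℓ0 hN he).trans (Kids5_sub hM hd hc hℓ)
  have hst := step_int5 hF hΛ hN he (c := c) hℓ0 hℓ1 hτ hk hε (by (clear * - hε1; linarith only [hε1])) hm
    (e1 := ε * ‖τ‖ ^ 2 * M) (by (clear * - hε hτ hM; positivity)) hS.s4 hτ2 hm1 hS.s1 y χ k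
    (fun u hu j => (hy u (hsub hu)).flag j) (Window5_fz rfl hN hy hd hc hℓ he) hVp
  rw [Vn_child F y χ κt (‖τ‖ * b) hN hc hℓ]
  refine Pool.Agent.Helper26.G4.WindowB_real hst (Real.exp_pos _).le hVp hw hlow hβ ?_
  rw [mul_assoc (1 - ‖τ‖ * b)]
  exact hEr

theorem window5 {F : ℂ → ℂ} {A : ℝ} (hF : Fn F A) {Λ : ℂ → ℂ → ℂ} (hΛ : Br F Λ) {M : ℕ}
    (hM : 1 ≤ M) {κt : ℂ → ℝ} {b c₀ B Cc m₁ Ca κ ε : ℝ} {τ : ℂ}
    (hk : Tk κt (τ / ‖τ‖) b c₀ B Cc m₁) (hκ : 0 < κ) (hκ1 : κ ≤ 1 / 4)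
    (hMκ : 2 / ((2 ^ M : ℕ) : ℝ) < κ ^ 2) (hε : 0 < ε) (hε1 : ε ≤ 1 / 20)
    (hS : Sm5 Ca b c₀ B Cc m₁ M κ ε ‖τ‖)
    {ξ : ℝ} {y χ : ℂ → ℕ → ℝ} (hy : Yf5 F Λ M ξ ε b B Cc τ y χ) {θ : ℝ}
    (hθ : 8 * ‖τ‖ ^ 2 * KK (2 ^ M) ε ^ 2 / ε ≤ θ) {k d : ℕ} (hd : d < (2 ^ M) ^ k)
    (hfin : Vn F y χ κt (‖τ‖ * b) (2 ^ M) ξ k d < ⊤) :
    (∀ e < 2 ^ M, Vn F y χ κt (‖τ‖ * b) (2 ^ M) ξ (k + 1) (2 ^ M * d + e) < ⊤) ∧
    ∑ e ∈ Finset.range (2 ^ M), chi κ (C9 * ‖τ‖ ^ 2 * M) (2 ^ M) e *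
        (Vn F y χ κt (‖τ‖ * b) (2 ^ M) ξ (k + 1) (2 ^ M * d + e)).toReal ^ (1 + θ) ≤
      Real.exp ((C9 * ‖τ‖ ^ 2 * M + 4 * ‖τ‖ ^ 2 * ε) * θ +
        ‖τ‖ ^ 2 * (ε * M + mm5 c₀ (Sc κ (2 ^ M)) ε) + 4 * ‖τ‖ ^ 2 * ε +
          3 * ε * (C9 * ‖τ‖ ^ 2 * M)) *
      (Vn F y χ κt (‖τ‖ * b) (2 ^ M) ξ k d).toReal ^ (1 + θ) := by
  have hN := Pool.Agent.Helper26.G4.WindowB_N hM
  have hM1 : (1 : ℝ) ≤ M := by exact_mod_cast hM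
  have hτ := hS.pos
  have hτ1 : ‖τ‖ ≤ 1 := hS.le.trans (by linarith only [hε1])
  obtain ⟨hSa, hSc, hKK, hmSa, hmSc, -⟩ := Pool.Agent.Helper26.G4.sizes hN hκ hκ1 hε hε1
  obtain ⟨hmSa2, hmSc2⟩ := Window5_two (N := 2 ^ M) hκ hκ1 hε hε1
  obtain ⟨hnSa, hnSa'⟩ := Window5_mm5 hk.hc.le hk.hc1 hmSa2
  obtain ⟨hnSc, hnSc'⟩ := Window5_mm5 hk.hc.le hk.hc1 hmSc2
  have hmmSa := Pool.Agent.Helper26.G4.mm_Sa hM hε hε1
  have hMKK := Pool.Agent.Helper26.G4.M_le_KK hM hε hε1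
  have hp := Pool.Agent.Helper26.G4.Levels_pow hN k
  obtain ⟨c, hc⟩ : ∃ c : ℝ, c = ch ((2 ^ M) ^ k) ξ 1 d := ⟨_, rfl⟩
  obtain ⟨ℓ, hℓ⟩ : ∃ ℓ : ℝ, ℓ = 1 / ((2 ^ M : ℕ) : ℝ) ^ k := ⟨_, rfl⟩
  have hℓ0 : 0 < ℓ := by
    rw [hℓ]
    exact one_div_pos.2 hp
  have hℓ1 : ℓ ≤ 1 := by
    rw [hℓ]
    have := Pool.Agent.Helper26.G4.Levels_anti hN (Nat.zero_le k)
    rwa [pow_zero, div_one] at this
  have hNR : (2 : ℝ) ≤ ((2 ^ M : ℕ) : ℝ) := by exact_mod_cast hN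
  have hN0 : (0 : ℝ) < ((2 ^ M : ℕ) : ℝ) := by linarith only [hNR]
  have hq : (0 : ℝ) < 1 / ((2 ^ M : ℕ) : ℝ) := by positivity
  have hq1 : 1 / ((2 ^ M : ℕ) : ℝ) ≤ 1 / 2 := one_div_le_one_div_of_le (by norm_num) hNR
  have hv : 0 < (vt c ℓ).re := by
    show 0 < 2 * ℓ
    (clear * - hℓ0; linarith only [hℓ0])
  have hR := Pool.Agent.Helper26.G4.rr_pos hF hv
  have har := hF.ar_pos (c := c) hℓ0 hℓ1 hq hq1
  have hlowR := Pool.Agent.Helper26.G4.ar_low hF hN (c := c) hℓ0 hℓ1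
  -- `β = |τ| b`
  have hb0 : 0 ≤ ‖τ‖ * b := mul_nonneg hτ.le hk.hb.le
  have hb1 : ‖τ‖ * b ≤ ε / 4 := by
    have h1 : ‖τ‖ * b ≤ ‖τ‖ * 1 := mul_le_mul_of_nonneg_left hk.hb1 hτ.le
    (clear * - hS h1; linarith only [hS.le, h1])
  -- `|τ| m0 ≤ m₁`
  have hm1 : ∀ m0 : ℝ, m0 ≤ 1 + KK (2 ^ M) ε + mm (Sc κ (2 ^ M)) ε + mm (Sa (2 ^ M)) ε →
      ‖τ‖ * m0 ≤ m₁ := fun m0 h =>
    (mul_le_mul_of_nonneg_left h hτ.le).trans hS.m1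
  -- additivity
  have hV : V5 F y χ κt (‖τ‖ * b) k (vt c ℓ) (Bx c ℓ) < ⊤ := by
    rw [Vn, ← hc, ← hℓ] at hfin
    exact hfin
  have hVr : (Vn F y χ κt (‖τ‖ * b) (2 ^ M) ξ k d).toReal =
      (V5 F y χ κt (‖τ‖ * b) k (vt c ℓ) (Bx c ℓ)).toReal := by
    rw [Vn, ← hc, ← hℓ]
  have hadd := V5_add (F := F) (y := y) (χ := χ) (κ := κt) (β := ‖τ‖ * b) (k := k) (N := 2 ^ M)
    (v := vt c ℓ) (S := Bx c ℓ) (W := Wn c ℓ (1 / ((2 ^ M : ℕ) : ℝ)))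
    (Q := fun e => Bx (ch (2 ^ M) c ℓ e) (ℓ / ((2 ^ M : ℕ) : ℝ)))
    (Pool.Agent.Helper90.G2.meas_wn _ _ _) (fun e _ => Pool.Agent.Helper90.G2.meas_bx _ _)
    (Pool.Agent.Helper90.G2.wn_sub hℓ0 hN)
    (fun e he => Pool.Agent.Helper90.G2.bx_child_sub hℓ0 hN he)
    (fun e _ e' _ hee => Pool.Agent.Helper90.G2.bx_disj hℓ0 hN hee)
    (fun e _ => Pool.Agent.Helper90.G2.wn_disj)
  have hlt := lt_of_le_of_lt hadd hV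
  have hw : V5 F y χ κt (‖τ‖ * b) k (vt c ℓ) (Wn c ℓ (1 / ((2 ^ M : ℕ) : ℝ))) < ⊤ :=
    (ENNReal.add_lt_top.1 hlt).1
  have hVp : ∀ e < 2 ^ M, V5 F y χ κt (‖τ‖ * b) k (vt c ℓ)
      (Bx (ch (2 ^ M) c ℓ e) (ℓ / ((2 ^ M : ℕ) : ℝ))) < ⊤ := fun e he =>
    ENNReal.sum_lt_top.1 (ENNReal.add_lt_top.1 hlt).2 e (Finset.mem_range.2 he)
  have h1 : (V5 F y χ κt (‖τ‖ * b) k (vt c ℓ) (Wn c ℓ (1 / ((2 ^ M : ℕ) : ℝ)))).toReal +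
      ∑ e ∈ Finset.range (2 ^ M), (V5 F y χ κt (‖τ‖ * b) k (vt c ℓ)
        (Bx (ch (2 ^ M) c ℓ e) (ℓ / ((2 ^ M : ℕ) : ℝ)))).toReal ≤
      (Vn F y χ κt (‖τ‖ * b) (2 ^ M) ξ k d).toReal := by
    rw [hVr, ← ENNReal.toReal_sum (fun e he => (hVp e (Finset.mem_range.1 he)).ne),
      ← ENNReal.toReal_add hw.ne (ENNReal.add_lt_top.1 hlt).2.ne]
    exact ENNReal.toReal_mono hV.ne hadd
  -- the three bounds
  have h2 := fun (e : ℕ) (he : e < 2 ^ M) =>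
    Window5_kid hF hΛ hM hk hκ hκ1 hε hε1 hS hy hd hc hℓ he hKK (hm1 _ (by linarith only [hmSa2, hmSc2]))
      (β := ε / ((2 ^ M : ℕ) : ℝ)) (by (clear * - hε; positivity)) hw (hVp e he)
      (er5_KK hN hε hε1 hτ hk.hc.le hk.hc1 hk.hB hb0 hb1 hR har (norm_nonneg _) hlowR
        (Pool.Agent.Helper26.G4.dis_all hF hN he hℓ0 hℓ1) hS.s3 hS.s2)
  have h4 := fun (e : ℕ) (he : e < 2 ^ M) =>
    Window5_kid hF hΛ hM hk hκ hκ1 hε hε1 hS hy hd hc hℓ he hnSa (hm1 _ (by linarith only [hKK, hmSc2, hnSa']))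
      (β := 1 - ε) (by linarith only [hε1]) hw (hVp e he)
      (er5_mm hN hε hε1 hτ hk.hc.le hk.hc1 hk.hB hb0 hb1 hSa hR har (norm_nonneg _) hlowR
        (Pool.Agent.Helper26.G4.dis_all hF hN he hℓ0 hℓ1) hS.s3 hS.s2)
  have h3 := fun (e : ℕ) (he : e < 2 ^ M) (hcen : Cen κ (2 ^ M) e) =>
    Window5_kid hF hΛ hM hk hκ hκ1 hε hε1 hS hy hd hc hℓ he hnSc (hm1 _ (by linarith only [hKK, hmSa, hnSc']))
      (β := 1 - ε) (by linarith only [hε1]) hw (hVp e he)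
      (er5_mm hN hε hε1 hτ hk.hc.le hk.hc1 hk.hB hb0 hb1 hSc hR har (norm_nonneg _) hlowR
        (Pool.Agent.Helper26.G4.dis_cen hF hN he hκ hκ1 hMκ hℓ0 hℓ1 hcen) hS.s3 hS.s2)
  refine ⟨fun e he => (h2 e he).1, ?_⟩
  -- parameters
  obtain ⟨K, hK⟩ : ∃ K : ℝ, K = KK (2 ^ M) ε := ⟨_, rfl⟩
  have hs6 := hS.s6
  rw [← hK] at hKK hMKK hθ h2 hs6
  obtain ⟨δ, hδ⟩ : ∃ δ : ℝ, δ = ‖τ‖ := ⟨_, rfl⟩
  obtain ⟨w, hwd⟩ : ∃ w : ℝ, w = (V5 F y χ κt (‖τ‖ * b) k (vt c ℓ)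
    (Wn c ℓ (1 / ((2 ^ M : ℕ) : ℝ)))).toReal := ⟨_, rfl⟩
  obtain ⟨v, hvd⟩ : ∃ v : ℝ, v = (Vn F y χ κt (‖τ‖ * b) (2 ^ M) ξ k d).toReal := ⟨_, rfl⟩
  obtain ⟨Vp, hVpd⟩ : ∃ Vp : ℕ → ℝ, ∀ e, (V5 F y χ κt (‖τ‖ * b) k (vt c ℓ)
    (Bx (ch (2 ^ M) c ℓ e) (ℓ / ((2 ^ M : ℕ) : ℝ)))).toReal = Vp e := ⟨_, fun e => rfl⟩
  obtain ⟨V, hVd⟩ : ∃ V : ℕ → ℝ, ∀ e,
    (Vn F y χ κt (‖τ‖ * b) (2 ^ M) ξ (k + 1) (2 ^ M * d + e)).toReal = V e := ⟨_, fun e => rfl⟩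
  have hw0 : 0 ≤ w := by
    rw [hwd]
    exact ENNReal.toReal_nonneg
  have hv0 : 0 ≤ v := by
    rw [hvd]
    exact ENNReal.toReal_nonneg
  have hVp0 : ∀ e, 0 ≤ Vp e := fun e => by
    rw [← hVpd]
    exact ENNReal.toReal_nonneg
  have hV0 : ∀ e, 0 ≤ V e := fun e => by
    rw [← hVd]
    exact ENNReal.toReal_nonneg
  have g2 : ∀ e < 2 ^ M, V e ≤ Real.exp (ε * δ ^ 2 * M + δ ^ 2 * K) * Vp e +
      ε / ((2 ^ M : ℕ) : ℝ) * w := fun e he => by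
    have := (h2 e he).2
    rwa [hVd, hVpd, ← hwd, ← hδ] at this
  have g4 : ∀ e < 2 ^ M, V e ≤ Real.exp (ε * δ ^ 2 * M + δ ^ 2 * mm5 c₀ (Sa (2 ^ M)) ε) * Vp e +
      (1 - ε) * w := fun e he => by
    have := (h4 e he).2
    rwa [hVd, hVpd, ← hwd, ← hδ] at this
  have g3 : ∀ e < 2 ^ M, Cen κ (2 ^ M) e →
      V e ≤ Real.exp (ε * δ ^ 2 * M + δ ^ 2 * mm5 c₀ (Sc κ (2 ^ M)) ε) * Vp e +
      (1 - ε) * w := fun e he hcen => by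
    have := (h3 e he hcen).2
    rwa [hVd, hVpd, ← hwd, ← hδ] at this
  have g1 : w + ∑ e ∈ Finset.range (2 ^ M), Vp e ≤ v := by
    simp only [hVpd] at h1
    rwa [← hwd, ← hvd] at h1
  simp only [hVd]
  rw [← hvd]
  clear h1 h2 h3 h4
  rw [← hδ] at hτ hτ1 hθ hs6 ⊢
  have hK0 : 0 < K := by linarith only [hKK]
  obtain ⟨x, hx⟩ : ∃ x : ℝ, x = ε * δ ^ 2 * M + δ ^ 2 * K := ⟨_, rfl⟩
  have hx0 : 0 ≤ x := by rw [hx]; (clear * - hε hτ hM hKK; positivity)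
  have hx1 : x ≤ 2 * δ ^ 2 * K := by
    rw [hx]
    have : δ ^ 2 * (ε * M) ≤ δ ^ 2 * K := mul_le_mul_of_nonneg_left hMKK (by (clear * - hτ; positivity))
    linarith only [this]
  have hx2 : 4 * δ ^ 2 * K ≤ ε / K / 2 := by
    rw [div_div, le_div_iff₀ (by (clear * - hKK; positivity))]
    linarith only [hs6]
  have hη1 : ε / K ≤ ε := div_le_self hε.le hKK
  have hη0 : 0 ≤ ε / K := by (clear * - hε hKK; positivity)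
  have ha0 : 0 ≤ Real.exp x - 1 := by
    have := Real.add_one_le_exp x
    linarith only [hx0, this]
  have ha2 : Real.exp x - 1 ≤ 2 * x := by
    have hb := Real.exp_bound_div_one_sub_of_interval hx0 (by linarith only [hε1, hx1, hx2, hη1] : x < 1)
    have hc : 1 / (1 - x) ≤ 1 + 2 * x := by
      rw [div_le_iff₀ (by linarith only [hε1, hx1, hx2, hη1])]
      nlinarith only [hε1, hx0, hx1, hx2, hη1]
    linarith only [hb, hc]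
  have ha3 : Real.exp x - 1 ≤ 4 * δ ^ 2 * K := by linarith only [hx1, ha2]
  have hθ0 : 0 ≤ θ := le_trans (by (clear * - hτ hKK hε; positivity)) hθ
  have haθ : Real.exp x - 1 ≤ θ * (ε / K / 2) := by
    have e1 : 8 * δ ^ 2 * K ^ 2 / ε * (ε / K / 2) = 4 * δ ^ 2 * K := by
      field_simp
      norm_num
    have e2 := mul_le_mul_of_nonneg_right hθ (by (clear * - hε hKK; positivity) : 0 ≤ ε / K / 2)
    rw [e1] at e2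
    linarith only [ha3, e2]
  have hnSc0 : 0 ≤ mm5 c₀ (Sc κ (2 ^ M)) ε := by linarith only [hnSc]
  have hrec := Pool.Agent.Helper26.G4.rec4 (κ := κ)
    (g := Real.exp (ε * δ ^ 2 * M + δ ^ 2 * mm5 c₀ (Sc κ (2 ^ M)) ε))
    (c := C9 * δ ^ 2 * M) (ε := ε) (η := ε / K) (θ := θ) (a := Real.exp x - 1)
    (w := w) (v := v) (by (clear * - k d hN; omega) : 0 < 2 ^ M) Vp V
    hw0 ha0 (by linarith only [hε1, hx2, hη1, ha3]) (by linarith only [hx2, ha3]) (Real.one_le_exp (by (clear * - hε hτ hM hnSc; positivity)))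
    (by unfold C9; (clear * - hτ hM; positivity)) hε.le (by linarith only [hε1]) hη0 (by linarith only [hε1, hη1]) hθ0 haθ
    (fun e _ => hV0 e) (fun e _ => hVp0 e) g1 ?_ g3 ?_
  · refine hrec.trans ?_
    have hv0 : 0 ≤ v ^ (1 + θ) := Real.rpow_nonneg hv0 _
    refine mul_le_mul_of_nonneg_right ?_ hv0
    obtain ⟨G, hG⟩ : ∃ G : ℝ, G = ε * δ ^ 2 * M + δ ^ 2 * mm5 c₀ (Sc κ (2 ^ M)) ε := ⟨_, rfl⟩
    have hG0 : 0 ≤ G := by rw [hG]; (clear * - hε hτ hM hnSc; positivity)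
    obtain ⟨C, hC⟩ : ∃ C : ℝ, C = C9 * δ ^ 2 * M := ⟨_, rfl⟩
    have hC0 : 0 ≤ C := by rw [hC]; unfold C9; (clear * - hτ hM; positivity)
    rw [← hG, ← hC]
    have hg1 : 1 ≤ Real.exp G := Real.one_le_exp hG0
    have b1 : (Real.exp x - 1) * (ε / K) ≤ 4 * δ ^ 2 * ε := by
      calc (Real.exp x - 1) * (ε / K) ≤ 4 * δ ^ 2 * K * (ε / K) :=
            mul_le_mul_of_nonneg_right ha3 hη0
        _ = 4 * δ ^ 2 * ε := by (clear * - hKK hε hτ; field_simp)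
    have b2 : C * (2 * (ε / K) + ε) ≤ 3 * ε * C := by (clear * - hη1 hC0; nlinarith only [hη1, hC0])
    have b3 : 0 ≤ 4 * δ ^ 2 * ε + 3 * ε * C := by (clear * - hτ hε hC0; positivity)
    have b4 : Real.exp G + (Real.exp x - 1) * (ε / K) + C * (2 * (ε / K) + ε) ≤
        Real.exp G * Real.exp (4 * δ ^ 2 * ε + 3 * ε * C) := by
      have b5 := Real.add_one_le_exp (4 * δ ^ 2 * ε + 3 * ε * C)
      nlinarith only [hg1, b1, b2, b3, b5]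
    have b6 : Real.exp ((C + (Real.exp x - 1) * (ε / K)) * θ) ≤
        Real.exp ((C + 4 * δ ^ 2 * ε) * θ) :=
      Real.exp_le_exp.2 (mul_le_mul_of_nonneg_right (by linarith only [b1]) hθ0)
    have b7 : 0 ≤ Real.exp G + (Real.exp x - 1) * (ε / K) + C * (2 * (ε / K) + ε) := by
      have := mul_nonneg ha0 hη0
      (clear * - ha0 hε hKK hC0; positivity)
    calc Real.exp ((C + (Real.exp x - 1) * (ε / K)) * θ) *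
          (Real.exp G + (Real.exp x - 1) * (ε / K) + C * (2 * (ε / K) + ε))
        ≤ Real.exp ((C + 4 * δ ^ 2 * ε) * θ) *
          (Real.exp G * Real.exp (4 * δ ^ 2 * ε + 3 * ε * C)) :=
          mul_le_mul b6 b4 b7 (Real.exp_pos _).le
      _ = Real.exp ((C + 4 * δ ^ 2 * ε) * θ + δ ^ 2 * (ε * M + mm5 c₀ (Sc κ (2 ^ M)) ε) +
          4 * δ ^ 2 * ε + 3 * ε * C) := by
          rw [← Real.exp_add, ← Real.exp_add, hG]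
          congr 1
          ring
  · intro e he
    have k1 := g2 e he
    rw [← hx] at k1
    have e1 : 1 + (Real.exp x - 1) = Real.exp x := by ring
    rw [e1]
    exact k1
  · intro e he
    refine (g4 e he).trans ?_
    have e1 : ε * δ ^ 2 * M + δ ^ 2 * mm5 c₀ (Sa (2 ^ M)) ε ≤ C9 * δ ^ 2 * M := by
      have e3 : ε * M + mm5 c₀ (Sa (2 ^ M)) ε ≤ C9 * M := by linarith only [hnSa', hmmSa]
      have := mul_le_mul_of_nonneg_left e3 (by (clear * - hτ; positivity) : 0 ≤ δ ^ 2)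
      linarith only [this]
    have e2 := mul_le_mul_of_nonneg_right (Real.exp_le_exp.2 e1) (hVp0 e)
    linarith only [e2]

end Pool.Agent.Helper26.G5
end

/- Helper24.K6w.H26.G4.Node -/
section
/-!
# G4-NODE: the iteration

By induction all `Vs k d`, `d < N^k`, are finite (`top4`, `window4`; for `k + 1` write `d = N (d / N) + d % N`).
`words4` for `f k d = (Vs k d).toReal ^ (1 + θ)`, `bot` for each `d` (`toReal`), `top4` on the right.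
-/

set_option autoImplicit false

namespace Pool.Agent.Helper26.G4

open MeasureTheory Set
open scoped Real
open Pool.Agent.Helper90.G2 (Bx Wn Fn ar ch Cen chi)

theorem Node_fin {F : ℂ → ℂ} {A : ℝ} (hF : Fn F A) {Λ : ℂ → ℂ → ℂ} (hΛ : Br F Λ) {M : ℕ}
    (hM : 1 ≤ M) {Ca κ ε : ℝ} {τ : ℂ} (hκ : 0 < κ) (hκ1 : κ ≤ 1 / 4)
    (hMκ : 2 / ((2 ^ M : ℕ) : ℝ) < κ ^ 2) (hε : 0 < ε) (hε1 : ε ≤ 1 / 20) (hS : Sm Ca M κ ε ‖τ‖)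
    {ξ : ℝ} {y : ℂ → ℕ → ℝ} (hy : Yf F Λ M ξ ε τ y) {θ : ℝ}
    (hθ : 8 * ‖τ‖ ^ 2 * KK (2 ^ M) ε ^ 2 / ε ≤ θ) (h0 : Vs F y (2 ^ M) ξ 0 0 < ⊤) (k : ℕ) :
    ∀ d < (2 ^ M) ^ k, Vs F y (2 ^ M) ξ k d < ⊤ := by
  induction k with
  | zero =>
    intro d hd
    rw [pow_zero, Nat.lt_one_iff] at hd
    rw [hd]
    exact h0
  | succ k ih =>
    intro d hd
    have hN : 0 < 2 ^ M := by positivity
    have h1 : d / 2 ^ M < (2 ^ M) ^ k := by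
      rw [Nat.div_lt_iff_lt_mul hN, ← pow_succ]
      exact hd
    have h2 := (window4 hF hΛ hM hκ hκ1 hMκ hε hε1 hS hy hθ h1 (ih _ h1)).1
      (d % 2 ^ M) (Nat.mod_lt _ hN)
    rwa [Nat.div_add_mod] at h2

theorem node {F : ℂ → ℂ} {A : ℝ} (hF : Fn F A) (hA : 0 ≤ A) {Λ : ℂ → ℂ → ℂ} (hΛ : Br F Λ) {M : ℕ}
    (hM : 1 ≤ M) {Ca κ ε : ℝ} {τ : ℂ} (hκ : 0 < κ) (hκ1 : κ ≤ 1 / 4)
    (hMκ : 2 / ((2 ^ M : ℕ) : ℝ) < κ ^ 2) (hε : 0 < ε) (hε1 : ε ≤ 1 / 20) (hS : Sm Ca M κ ε ‖τ‖)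
    {ξ C : ℝ} (hC : 0 ≤ C) (hξ : |ξ| ≤ 7) (hb : ∀ u ∈ Bx ξ 1, ‖Lb Λ (vt ξ 1) u‖ ≤ C + |ξ|)
    {y : ℂ → ℕ → ℝ} (hy : Yf F Λ M ξ ε τ y) {θ : ℝ} (hθ1 : θ ≤ 1)
    (hθ : 8 * ‖τ‖ ^ 2 * KK (2 ^ M) ε ^ 2 / ε ≤ θ) {G : ℝ}
    (hG : Real.exp ((C9 * ‖τ‖ ^ 2 * M + 4 * ‖τ‖ ^ 2 * ε) * θ +
        ‖τ‖ ^ 2 * (ε * M + mm (Sc κ (2 ^ M)) ε) + 4 * ‖τ‖ ^ 2 * ε + 3 * ε * (C9 * ‖τ‖ ^ 2 * M)) ≤ G)
    (K : ℕ) :
    ∑ d ∈ Finset.range ((2 ^ M) ^ K),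
      Pool.Agent.Helper90.G2.chK κ (C9 * ‖τ‖ ^ 2 * M) (2 ^ M) K d *
        (‖Complex.exp ((2 - τ) * (Real.log (2 / ((2 ^ M : ℕ) : ℝ) ^ K) +
          Λ (vt (ch ((2 ^ M) ^ K) ξ 1 d) (1 / ((2 ^ M : ℕ) : ℝ) ^ K))
            (vt (ch ((2 ^ M) ^ K) ξ 1 d) (1 / ((2 ^ M : ℕ) : ℝ) ^ K))))‖ /
          (KN (2 ^ M) * Real.exp (KN (2 ^ M)))) ^ (1 + θ) ≤
      G ^ K * (1 + A * Real.exp (C + 7)) ^ 2 := by
  have hτ : ‖τ‖ ≤ 1 := hS.le.trans (by norm_num)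
  have hθ0 : 0 ≤ θ := le_trans (by (clear * - hε; positivity)) hθ
  have hN : 1 ≤ 2 ^ M := Nat.one_le_two_pow
  have htop := top4 (M := M) hF hτ hy hξ hb
  have hfin := Node_fin hF hΛ hM hκ hκ1 hMκ hε hε1 hS hy hθ (htop.trans_lt ENNReal.ofReal_lt_top)
  have hKN : 0 < KN (2 ^ M) := Real.exp_pos _
  obtain ⟨G', hG'⟩ : ∃ G' : ℝ, G' = Real.exp ((C9 * ‖τ‖ ^ 2 * M + 4 * ‖τ‖ ^ 2 * ε) * θ +
        ‖τ‖ ^ 2 * (ε * M + mm (Sc κ (2 ^ M)) ε) + 4 * ‖τ‖ ^ 2 * ε +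
        3 * ε * (C9 * ‖τ‖ ^ 2 * M)) := ⟨_, rfl⟩
  rw [← hG'] at hG
  have hG0 : 0 ≤ G' := by
    rw [hG']
    exact (Real.exp_pos _).le
  have hw := words4 (f := fun k d => (Vs F y (2 ^ M) ξ k d).toReal ^ (1 + θ)) (κ := κ)
    (c' := C9 * ‖τ‖ ^ 2 * M) (G := G') (N := 2 ^ M) hN hG0 (fun k d hd => by
      rw [hG']
      exact (window4 hF hΛ hM hκ hκ1 hMκ hε hε1 hS hy hθ hd (hfin k d hd)).2) K
  have hB : (0 : ℝ) ≤ A * Real.exp (C + 7) := by (clear * - hA; positivity)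
  have h0 : (Vs F y (2 ^ M) ξ 0 0).toReal ^ (1 + θ) ≤ (1 + A * Real.exp (C + 7)) ^ 2 := by
    have h1 : (Vs F y (2 ^ M) ξ 0 0).toReal ≤ A * Real.exp (C + 7) := by
      have := ENNReal.toReal_mono ENNReal.ofReal_ne_top htop
      rwa [ENNReal.toReal_ofReal hB] at this
    calc (Vs F y (2 ^ M) ξ 0 0).toReal ^ (1 + θ)
        ≤ (1 + A * Real.exp (C + 7)) ^ (1 + θ) :=
          Real.rpow_le_rpow ENNReal.toReal_nonneg (by linarith only [h1]) (by linarith only [hθ0])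
      _ ≤ (1 + A * Real.exp (C + 7)) ^ (2 : ℝ) :=
          Real.rpow_le_rpow_of_exponent_le (by linarith only [hB]) (by linarith only [hθ1])
      _ = (1 + A * Real.exp (C + 7)) ^ 2 := Real.rpow_two _
  have hlow : ∀ d < (2 ^ M) ^ K,
      (‖Complex.exp ((2 - τ) * (Real.log (2 / ((2 ^ M : ℕ) : ℝ) ^ K) +
          Λ (vt (ch ((2 ^ M) ^ K) ξ 1 d) (1 / ((2 ^ M : ℕ) : ℝ) ^ K))
            (vt (ch ((2 ^ M) ^ K) ξ 1 d) (1 / ((2 ^ M : ℕ) : ℝ) ^ K))))‖ /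
          (KN (2 ^ M) * Real.exp (KN (2 ^ M)))) ≤ (Vs F y (2 ^ M) ξ K d).toReal := by
    intro d hd
    have h1 := bot hF hΛ hM hy hd rfl rfl
    have h2 := (ENNReal.ofReal_le_iff_le_toReal (hfin K d hd).ne).1 h1
    have h3 : (vt (ch ((2 ^ M) ^ K) ξ 1 d) (1 / ((2 ^ M : ℕ) : ℝ) ^ K)).re =
        2 / ((2 ^ M : ℕ) : ℝ) ^ K := by
      show 2 * (1 / ((2 ^ M : ℕ) : ℝ) ^ K) = _
      rw [mul_one_div]
    rw [h3] at h2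
    refine le_trans ?_ h2
    apply div_le_div_of_nonneg_left (norm_nonneg _) (by (clear * - hKN; positivity))
    apply mul_le_mul_of_nonneg_left _ hKN.le
    apply Real.exp_le_exp.2
    exact mul_le_of_le_one_left hKN.le hτ
  calc ∑ d ∈ Finset.range ((2 ^ M) ^ K),
      Pool.Agent.Helper90.G2.chK κ (C9 * ‖τ‖ ^ 2 * M) (2 ^ M) K d *
        (‖Complex.exp ((2 - τ) * (Real.log (2 / ((2 ^ M : ℕ) : ℝ) ^ K) +
          Λ (vt (ch ((2 ^ M) ^ K) ξ 1 d) (1 / ((2 ^ M : ℕ) : ℝ) ^ K))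
            (vt (ch ((2 ^ M) ^ K) ξ 1 d) (1 / ((2 ^ M : ℕ) : ℝ) ^ K))))‖ /
          (KN (2 ^ M) * Real.exp (KN (2 ^ M)))) ^ (1 + θ)
      ≤ ∑ d ∈ Finset.range ((2 ^ M) ^ K),
        Pool.Agent.Helper90.G2.chK κ (C9 * ‖τ‖ ^ 2 * M) (2 ^ M) K d *
          (Vs F y (2 ^ M) ξ K d).toReal ^ (1 + θ) := by
        refine Finset.sum_le_sum fun d hd => ?_
        apply mul_le_mul_of_nonneg_left _ (Pool.Agent.Helper90.G2.chK_nonneg _ _ _ _ _)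
        exact Real.rpow_le_rpow (by (clear * - hKN; positivity)) (hlow d (Finset.mem_range.1 hd)) (by (clear * - hθ0; linarith only [hθ0]))
    _ ≤ G' ^ K * (Vs F y (2 ^ M) ξ 0 0).toReal ^ (1 + θ) := hw
    _ ≤ G ^ K * (1 + A * Real.exp (C + 7)) ^ 2 :=
        mul_le_mul (pow_le_pow_left₀ hG0 hG K) h0 (Real.rpow_nonneg ENNReal.toReal_nonneg _)
          (pow_nonneg (hG0.trans hG) K)

end Pool.Agent.Helper26.G4
end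

/- Helper24.K6w.H26.G5.Node5 -/
section
/-!
# G5-NODE: the iteration

Copy of `Pool.Agent.Helper26.G4.node` with `Vn`, `window5`, `bot5`, `top5` (`β = |τ| b ≤ 1/2`).
-/

set_option autoImplicit false

namespace Pool.Agent.Helper26.G5

open MeasureTheory Set
open scoped Real
open Pool.Agent.Helper90.G2 (Bx Wn Fn ar ch Cen chi)
open Pool.Agent.Helper26.G4 (vt Br Lb wd al rr w0 Bad cn vk lv KN Sa Sc mm KK C9 Sg)

theorem Node5_fin {F : ℂ → ℂ} {A : ℝ} (hF : Fn F A) {Λ : ℂ → ℂ → ℂ} (hΛ : Br F Λ) {M : ℕ}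
    (hM : 1 ≤ M) {κt : ℂ → ℝ} {b c₀ B Cc m₁ Ca κ ε : ℝ} {τ : ℂ}
    (hk : Tk κt (τ / ‖τ‖) b c₀ B Cc m₁) (hκ : 0 < κ) (hκ1 : κ ≤ 1 / 4)
    (hMκ : 2 / ((2 ^ M : ℕ) : ℝ) < κ ^ 2) (hε : 0 < ε) (hε1 : ε ≤ 1 / 20)
    (hS : Sm5 Ca b c₀ B Cc m₁ M κ ε ‖τ‖)
    {ξ : ℝ} {y χ : ℂ → ℕ → ℝ} (hy : Yf5 F Λ M ξ ε b B Cc τ y χ) {θ : ℝ}
    (hθ : 8 * ‖τ‖ ^ 2 * KK (2 ^ M) ε ^ 2 / ε ≤ θ)
    (h0 : Vn F y χ κt (‖τ‖ * b) (2 ^ M) ξ 0 0 < ⊤) (k : ℕ) :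
    ∀ d < (2 ^ M) ^ k, Vn F y χ κt (‖τ‖ * b) (2 ^ M) ξ k d < ⊤ := by
  induction k with
  | zero =>
    intro d hd
    rw [pow_zero, Nat.lt_one_iff] at hd
    rw [hd]
    exact h0
  | succ k ih =>
    intro d hd
    have hN : 0 < 2 ^ M := by positivity
    have h1 : d / 2 ^ M < (2 ^ M) ^ k := by
      rw [Nat.div_lt_iff_lt_mul hN, ← pow_succ]
      exact hd
    have h2 := (window5 hF hΛ hM hk hκ hκ1 hMκ hε hε1 hS hy hθ h1 (ih _ h1)).1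
      (d % 2 ^ M) (Nat.mod_lt _ hN)
    rwa [Nat.div_add_mod] at h2

theorem node5 {F : ℂ → ℂ} {A : ℝ} (hF : Fn F A) (hA : 0 ≤ A) {Λ : ℂ → ℂ → ℂ} (hΛ : Br F Λ) {M : ℕ}
    (hM : 1 ≤ M) {κt : ℂ → ℝ} {b c₀ B Cc m₁ Ca κ ε : ℝ} {τ : ℂ}
    (hk : Tk κt (τ / ‖τ‖) b c₀ B Cc m₁) (hκ : 0 < κ) (hκ1 : κ ≤ 1 / 4)
    (hMκ : 2 / ((2 ^ M : ℕ) : ℝ) < κ ^ 2) (hε : 0 < ε) (hε1 : ε ≤ 1 / 20)
    (hS : Sm5 Ca b c₀ B Cc m₁ M κ ε ‖τ‖)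
    {ξ C : ℝ} (hC : 0 ≤ C) (hξ : |ξ| ≤ 7) (hb : ∀ u ∈ Bx ξ 1, ‖Lb Λ (vt ξ 1) u‖ ≤ C + |ξ|)
    {y χ : ℂ → ℕ → ℝ} (hy : Yf5 F Λ M ξ ε b B Cc τ y χ) {θ : ℝ} (hθ1 : θ ≤ 1)
    (hθ : 8 * ‖τ‖ ^ 2 * KK (2 ^ M) ε ^ 2 / ε ≤ θ) {G : ℝ}
    (hG : Real.exp ((C9 * ‖τ‖ ^ 2 * M + 4 * ‖τ‖ ^ 2 * ε) * θ +
        ‖τ‖ ^ 2 * (ε * M + mm5 c₀ (Sc κ (2 ^ M)) ε) + 4 * ‖τ‖ ^ 2 * ε +
          3 * ε * (C9 * ‖τ‖ ^ 2 * M)) ≤ G)
    (K : ℕ) :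
    ∑ d ∈ Finset.range ((2 ^ M) ^ K),
      Pool.Agent.Helper90.G2.chK κ (C9 * ‖τ‖ ^ 2 * M) (2 ^ M) K d *
        (‖Complex.exp ((2 - τ) * (Real.log (2 / ((2 ^ M : ℕ) : ℝ) ^ K) +
          Λ (vt (ch ((2 ^ M) ^ K) ξ 1 d) (1 / ((2 ^ M : ℕ) : ℝ) ^ K))
            (vt (ch ((2 ^ M) ^ K) ξ 1 d) (1 / ((2 ^ M : ℕ) : ℝ) ^ K))))‖ /
          (2 * (KN (2 ^ M) * Real.exp (KN (2 ^ M))))) ^ (1 + θ) ≤
      G ^ K * (1 + 2 * (A * Real.exp (C + 7))) ^ 2 := by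
  have hτ4 : ‖τ‖ ≤ 1 / 80 := hS.le.trans (by linarith only [hε1])
  have hτ : ‖τ‖ ≤ 1 := hτ4.trans (by norm_num)
  have hβ : 0 ≤ ‖τ‖ * b := mul_nonneg (norm_nonneg _) hk.hb.le
  have hβ1 : ‖τ‖ * b ≤ 1 / 2 := by
    have h1 : ‖τ‖ * b ≤ 1 / 80 * 1 :=
      mul_le_mul hτ4 hk.hb1 hk.hb.le (by norm_num)
    (clear * - h1; linarith only [h1])
  have hθ0 : 0 ≤ θ := le_trans (by (clear * - hε; positivity)) hθ
  have hN : 1 ≤ 2 ^ M := Nat.one_le_two_pow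
  have htop := top5 (M := M) hF hτ hy hk.bd hβ hβ1 hξ hb
  have hfin := Node5_fin hF hΛ hM hk hκ hκ1 hMκ hε hε1 hS hy hθ
    (htop.trans_lt ENNReal.ofReal_lt_top)
  have hKN : 0 < KN (2 ^ M) := Real.exp_pos _
  obtain ⟨G', hG'⟩ : ∃ G' : ℝ, G' = Real.exp ((C9 * ‖τ‖ ^ 2 * M + 4 * ‖τ‖ ^ 2 * ε) * θ +
        ‖τ‖ ^ 2 * (ε * M + mm5 c₀ (Sc κ (2 ^ M)) ε) + 4 * ‖τ‖ ^ 2 * ε +
          3 * ε * (C9 * ‖τ‖ ^ 2 * M)) := ⟨_, rfl⟩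
  rw [← hG'] at hG
  have hG0 : 0 ≤ G' := by
    rw [hG']
    exact (Real.exp_pos _).le
  have hw := Pool.Agent.Helper26.G4.words4
    (f := fun k d => (Vn F y χ κt (‖τ‖ * b) (2 ^ M) ξ k d).toReal ^ (1 + θ)) (κ := κ)
    (c' := C9 * ‖τ‖ ^ 2 * M) (G := G') (N := 2 ^ M) hN hG0 (fun k d hd => by
      rw [hG']
      exact (window5 hF hΛ hM hk hκ hκ1 hMκ hε hε1 hS hy hθ hd (hfin k d hd)).2) K
  have hB : (0 : ℝ) ≤ 2 * (A * Real.exp (C + 7)) := by (clear * - hA; positivity)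
  have h0 : (Vn F y χ κt (‖τ‖ * b) (2 ^ M) ξ 0 0).toReal ^ (1 + θ) ≤
      (1 + 2 * (A * Real.exp (C + 7))) ^ 2 := by
    have h1 : (Vn F y χ κt (‖τ‖ * b) (2 ^ M) ξ 0 0).toReal ≤ 2 * (A * Real.exp (C + 7)) := by
      have := ENNReal.toReal_mono ENNReal.ofReal_ne_top htop
      rwa [ENNReal.toReal_ofReal hB] at this
    calc (Vn F y χ κt (‖τ‖ * b) (2 ^ M) ξ 0 0).toReal ^ (1 + θ)
        ≤ (1 + 2 * (A * Real.exp (C + 7))) ^ (1 + θ) :=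
          Real.rpow_le_rpow ENNReal.toReal_nonneg (by linarith only [h1]) (by linarith only [hθ0])
      _ ≤ (1 + 2 * (A * Real.exp (C + 7))) ^ (2 : ℝ) :=
          Real.rpow_le_rpow_of_exponent_le (by linarith only [hB]) (by linarith only [hθ1])
      _ = (1 + 2 * (A * Real.exp (C + 7))) ^ 2 := Real.rpow_two _
  have hlow : ∀ d < (2 ^ M) ^ K,
      (‖Complex.exp ((2 - τ) * (Real.log (2 / ((2 ^ M : ℕ) : ℝ) ^ K) +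
          Λ (vt (ch ((2 ^ M) ^ K) ξ 1 d) (1 / ((2 ^ M : ℕ) : ℝ) ^ K))
            (vt (ch ((2 ^ M) ^ K) ξ 1 d) (1 / ((2 ^ M : ℕ) : ℝ) ^ K))))‖ /
          (2 * (KN (2 ^ M) * Real.exp (KN (2 ^ M))))) ≤
        (Vn F y χ κt (‖τ‖ * b) (2 ^ M) ξ K d).toReal := by
    intro d hd
    have h1 := bot5 hF hΛ hM hy hk.bd hβ hβ1 hd rfl rfl
    have h2 := (ENNReal.ofReal_le_iff_le_toReal (hfin K d hd).ne).1 h1
    have h3 : (vt (ch ((2 ^ M) ^ K) ξ 1 d) (1 / ((2 ^ M : ℕ) : ℝ) ^ K)).re =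
        2 / ((2 ^ M : ℕ) : ℝ) ^ K := by
      show 2 * (1 / ((2 ^ M : ℕ) : ℝ) ^ K) = _
      rw [mul_one_div]
    rw [h3] at h2
    refine le_trans ?_ h2
    apply div_le_div_of_nonneg_left (norm_nonneg _) (by positivity)
    apply mul_le_mul_of_nonneg_left _ (by norm_num : (0 : ℝ) ≤ 2)
    apply mul_le_mul_of_nonneg_left _ hKN.le
    apply Real.exp_le_exp.2
    exact mul_le_of_le_one_left hKN.le hτ
  calc ∑ d ∈ Finset.range ((2 ^ M) ^ K),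
      Pool.Agent.Helper90.G2.chK κ (C9 * ‖τ‖ ^ 2 * M) (2 ^ M) K d *
        (‖Complex.exp ((2 - τ) * (Real.log (2 / ((2 ^ M : ℕ) : ℝ) ^ K) +
          Λ (vt (ch ((2 ^ M) ^ K) ξ 1 d) (1 / ((2 ^ M : ℕ) : ℝ) ^ K))
            (vt (ch ((2 ^ M) ^ K) ξ 1 d) (1 / ((2 ^ M : ℕ) : ℝ) ^ K))))‖ /
          (2 * (KN (2 ^ M) * Real.exp (KN (2 ^ M))))) ^ (1 + θ)
      ≤ ∑ d ∈ Finset.range ((2 ^ M) ^ K),
        Pool.Agent.Helper90.G2.chK κ (C9 * ‖τ‖ ^ 2 * M) (2 ^ M) K d *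
          (Vn F y χ κt (‖τ‖ * b) (2 ^ M) ξ K d).toReal ^ (1 + θ) := by
        refine Finset.sum_le_sum fun d hd => ?_
        apply mul_le_mul_of_nonneg_left _ (Pool.Agent.Helper90.G2.chK_nonneg _ _ _ _ _)
        exact Real.rpow_le_rpow (by (clear * - hKN; positivity)) (hlow d (Finset.mem_range.1 hd)) (by linarith only [hθ0])
    _ ≤ G' ^ K * (Vn F y χ κt (‖τ‖ * b) (2 ^ M) ξ 0 0).toReal ^ (1 + θ) := hw
    _ ≤ G ^ K * (1 + 2 * (A * Real.exp (C + 7))) ^ 2 :=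
        mul_le_mul (pow_le_pow_left₀ hG0 hG K) h0 (Real.rpow_nonneg ENNReal.toReal_nonneg _)
          (pow_nonneg (hG0.trans hG) K)

end Pool.Agent.Helper26.G5
end
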