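import Pool.Agent.Helper24.K6.G03
import Pool.Agent.Helper24.K6.G10
import Pool.Agent.Helper24.K6.G14
import Pool.Agent.Helper24.K6.G16
import Pool.Agent.Helper24.K6.G17
import Pool.Agent.Helper24.K6.G19
import Pool.Agent.Helper24.K6.G22

/- Helper24.K6w.H26.G5.YEx5 -/
section
/-!
# G5-YEX: the frozen sequences exist

Copy of `Pool.Agent.Helper26.G4.y_ex` with `L = Lw5`, `C = δ Ca (1 + log N)`, `s = sw b B δ`:
`C + 2 s ≤ L (ε δ² M)`, `L ≥ 2`.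
-/

set_option autoImplicit false

namespace Pool.Agent.Helper26.G5

open MeasureTheory Set
open scoped Real
open Pool.Agent.Helper90.G2 (Bx Wn Fn ar ch Cen chi)
open Pool.Agent.Helper26.G4 (vt Br Lb wd al rr w0 Bad cn vk lv KN Sa Sc mm KK C9 Sg)

/-- the radius is nonnegative, the ratio is bounded by the constant of `Bad` -/
private theorem yEx5_ratio_le {F : ℂ → ℂ} {C : ℝ} (hC : 0 ≤ C) {v u : ℂ} (hv : 0 ≤ v.re)
    (h : ‖F v - F u‖ ≤ C * rr F v) : ‖F v - F u‖ / rr F v ≤ C := by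
  have hr : 0 ≤ rr F v := mul_nonneg hv (norm_nonneg _)
  exact div_le_of_le_mul₀ hr hC h

/-- the reference points are in the right half plane -/
private theorem yEx5_vk_re_nonneg (N : ℕ) (ξ : ℝ) (k : ℕ) (u : ℂ) : 0 ≤ (vk N ξ k u).re := by
  simp only [vk, vt]
  (clear * -; positivity)

/-- the change of the exponent -/
private theorem yEx5_al_sub_le (Λ : ℂ → ℂ → ℂ) (τ v v' u : ℂ) {C : ℝ}
    (h : ‖Lb Λ v' u - Lb Λ v u‖ ≤ C) : |al Λ τ v' u - al Λ τ v u| ≤ ‖τ‖ * C := by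
  have e : al Λ τ v' u - al Λ τ v u = -(τ * (Lb Λ v' u - Lb Λ v u)).re := by
    simp only [al, mul_sub, Complex.sub_re]
    ring
  rw [e, abs_neg]
  calc |(τ * (Lb Λ v' u - Lb Λ v u)).re| ≤ ‖τ * (Lb Λ v' u - Lb Λ v u)‖ := Complex.abs_re_le_norm _
    _ = ‖τ‖ * ‖Lb Λ v' u - Lb Λ v u‖ := norm_mul _ _
    _ ≤ ‖τ‖ * C := mul_le_mul_of_nonneg_left h (norm_nonneg _)

theorem y_ex5 : ∃ Ca : ℝ, 0 < Ca ∧ ∀ (F : ℂ → ℂ) (A : ℝ) (Λ : ℂ → ℂ → ℂ), Fn F A → Br F Λ →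
    ∀ M : ℕ, 1 ≤ M → ∀ (b c₀ B Cc m₁ κ ε : ℝ) (τ : ℂ), 0 < ε → 0 < b → 0 ≤ B → 1 ≤ Cc →
    Sm5 Ca b c₀ B Cc m₁ M κ ε ‖τ‖ → ∀ ξ : ℝ, ∃ y χ : ℂ → ℕ → ℝ, Yf5 F Λ M ξ ε b B Cc τ y χ := by
  obtain ⟨Ca, hCa, hret⟩ := Pool.Agent.Helper26.G4.retK
  refine ⟨Ca, hCa, fun F A Λ hF hΛ M hM b c₀ B Cc m₁ κ ε τ hε hb hB hCc hS ξ => ?_⟩
  have hδ : 0 < ‖τ‖ := hS.pos
  have hM0 : (0 : ℝ) < M := by exact_mod_cast hM
  have hN2 : 2 ≤ 2 ^ M := by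
    calc 2 = 2 ^ 1 := by norm_num
      _ ≤ 2 ^ M := Nat.pow_le_pow_right (by norm_num) hM
  have hN1 : (1 : ℝ) ≤ ((2 ^ M : ℕ) : ℝ) := by
    exact_mod_cast (le_trans (by norm_num) hN2)
  have hlog : 0 ≤ Real.log ((2 ^ M : ℕ) : ℝ) := Real.log_nonneg hN1
  have hKN : 0 < KN (2 ^ M) := Real.exp_pos _
  have hCc0 : 0 < Cc := by linarith only [hCc]
  have hsw : 0 < sw b B := by
    unfold sw
    (clear * - hB hb; positivity)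
  have hden : 0 < ε * ‖τ‖ * M := by (clear * - hε hδ hM; positivity)
  have hC0 : 0 ≤ ‖τ‖ * (Ca * (1 + Real.log ((2 ^ M : ℕ) : ℝ))) := by positivity
  have hq : 0 < (Ca * (1 + Real.log ((2 ^ M : ℕ) : ℝ)) + 2 * sw b B) / (ε * ‖τ‖ * M) := by
    (clear * - hCa hsw hε hδ hM; positivity)
  have hL2 : 2 ≤ Lw5 Ca b B ε ‖τ‖ M := by
    have h1 := Nat.one_le_ceil_iff.2 hq
    unfold Lw5
    omega
  have hLC : ‖τ‖ * (Ca * (1 + Real.log ((2 ^ M : ℕ) : ℝ))) + 2 * (sw b B * ‖τ‖) ≤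
      (Lw5 Ca b B ε ‖τ‖ M : ℝ) * (ε * ‖τ‖ ^ 2 * M) := by
    have h1 : (Ca * (1 + Real.log ((2 ^ M : ℕ) : ℝ)) + 2 * sw b B) / (ε * ‖τ‖ * M) ≤
        (Lw5 Ca b B ε ‖τ‖ M : ℝ) := by
      refine (Nat.le_ceil _).trans ?_
      unfold Lw5
      push_cast
      linarith only []
    rw [div_le_iff₀ hden] at h1
    calc ‖τ‖ * (Ca * (1 + Real.log ((2 ^ M : ℕ) : ℝ))) + 2 * (sw b B * ‖τ‖)
        = ‖τ‖ * (Ca * (1 + Real.log ((2 ^ M : ℕ) : ℝ)) + 2 * sw b B) := by ring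
      _ ≤ ‖τ‖ * ((Lw5 Ca b B ε ‖τ‖ M : ℝ) * (ε * ‖τ‖ * M)) := mul_le_mul_of_nonneg_left h1 hδ.le
      _ = (Lw5 Ca b B ε ‖τ‖ M : ℝ) * (ε * ‖τ‖ ^ 2 * M) := by ring
  have key : ∀ u ∈ Bx ξ 1, ∃ y χ : ℕ → ℝ, Fz5 (fun k => al Λ τ (vk (2 ^ M) ξ k u) u)
      (fun k => Bad F Λ (ε / ‖τ‖) (2 * Cc * KN (2 ^ M) / ‖τ‖) (vk (2 ^ M) ξ k u) u)
      (ε * ‖τ‖ ^ 2 * M) (sw b B * ‖τ‖) (lv (2 ^ M) u) y χ := by
    intro u hu
    refine freeze5 (by (clear * - hsw hδ; positivity)) hC0 hL2 hLC fun k hk hbad => ?_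
    obtain ⟨hb1, hb2⟩ := hbad
    have hratio : ‖F (vk (2 ^ M) ξ k u) - F u‖ / rr F (vk (2 ^ M) ξ k u) ≤
        2 * Cc * KN (2 ^ M) / ‖τ‖ := yEx5_ratio_le (by (clear * - hCc hKN hδ; positivity)) (yEx5_vk_re_nonneg _ _ _ _) hb2
    have hwd : Ca * (1 + √((Lw5 Ca b B ε ‖τ‖ M + 1) * Real.log ((2 ^ M : ℕ) : ℝ) *
        √(‖F (vk (2 ^ M) ξ k u) - F u‖ / rr F (vk (2 ^ M) ξ k u)))) ≤
        |wd Λ (vk (2 ^ M) ξ k u) u| := by
      refine le_trans ?_ hb1.le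
      refine le_trans ?_ hS.s7
      refine mul_le_mul_of_nonneg_left ?_ hCa.le
      have h3 : √(‖F (vk (2 ^ M) ξ k u) - F u‖ / rr F (vk (2 ^ M) ξ k u)) ≤
          √(2 * Cc * KN (2 ^ M) / ‖τ‖) := Real.sqrt_le_sqrt hratio
      have h4 : (0 : ℝ) ≤ (Lw5 Ca b B ε ‖τ‖ M + 1) * Real.log ((2 ^ M : ℕ) : ℝ) := by (clear * - hL2; positivity)
      have h5 := Real.sqrt_le_sqrt (mul_le_mul_of_nonneg_left h3 h4)
      linarith only [h5]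
    obtain ⟨k', h1, h2, h3⟩ := hret F A Λ hF hΛ (2 ^ M) hN2 ξ u hu k hk (Lw5 Ca b B ε ‖τ‖ M) hwd
    exact ⟨k', h1, h2, yEx5_al_sub_le Λ τ _ _ _ h3⟩
  choose! y χ hy using key
  exact ⟨y, χ, hy⟩

end Pool.Agent.Helper26.G5
end

/- Helper24.K6w.H26.G4.YEx -/
section
/-!
# G4-YEX: the frozen sequences exist

`Ca` = the constant of `retK`. For `u ∈ Bx ξ 1` and a bad `k < lv N u`: `ε / δ < |wd|` and
`|F v - F u| / rr F v ≤ 2 KN / δ`, so `Sm.s7` and `retK` with `L = Lw Ca ε δ M` give `k' ≥ k + L`,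
`|al k' - al k| ≤ δ Ca (1 + log N) ≤ L (ε δ² M)` (definition of `Lw`, a ceiling; `L ≥ 1`). `freeze`.
-/

set_option autoImplicit false

namespace Pool.Agent.Helper26.G4

open MeasureTheory Set
open scoped Real
open Pool.Agent.Helper90.G2 (Bx Wn Fn ar ch Cen chi)

/-- the radius is nonnegative, the ratio is bounded by the constant of `Bad` -/
private theorem yEx_ratio_le {F : ℂ → ℂ} {C : ℝ} (hC : 0 ≤ C) {v u : ℂ} (hv : 0 ≤ v.re)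
    (h : ‖F v - F u‖ ≤ C * rr F v) : ‖F v - F u‖ / rr F v ≤ C := by
  have hr : 0 ≤ rr F v := mul_nonneg hv (norm_nonneg _)
  exact div_le_of_le_mul₀ hr hC h

/-- the reference points are in the right half plane -/
private theorem yEx_vk_re_nonneg (N : ℕ) (ξ : ℝ) (k : ℕ) (u : ℂ) : 0 ≤ (vk N ξ k u).re := by
  simp only [vk, vt]
  (clear * -; positivity)

/-- the change of the exponent -/
private theorem yEx_al_sub_le (Λ : ℂ → ℂ → ℂ) (τ v v' u : ℂ) {C : ℝ}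
    (h : ‖Lb Λ v' u - Lb Λ v u‖ ≤ C) : |al Λ τ v' u - al Λ τ v u| ≤ ‖τ‖ * C := by
  have e : al Λ τ v' u - al Λ τ v u = -(τ * (Lb Λ v' u - Lb Λ v u)).re := by
    simp only [al, mul_sub, Complex.sub_re]
    ring
  rw [e, abs_neg]
  calc |(τ * (Lb Λ v' u - Lb Λ v u)).re| ≤ ‖τ * (Lb Λ v' u - Lb Λ v u)‖ := Complex.abs_re_le_norm _
    _ = ‖τ‖ * ‖Lb Λ v' u - Lb Λ v u‖ := norm_mul _ _
    _ ≤ ‖τ‖ * C := mul_le_mul_of_nonneg_left h (norm_nonneg _)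

theorem y_ex : ∃ Ca : ℝ, 0 < Ca ∧ ∀ (F : ℂ → ℂ) (A : ℝ) (Λ : ℂ → ℂ → ℂ), Fn F A → Br F Λ →
    ∀ M : ℕ, 1 ≤ M → ∀ (κ ε : ℝ) (τ : ℂ), 0 < ε → Sm Ca M κ ε ‖τ‖ → ∀ ξ : ℝ,
    ∃ y : ℂ → ℕ → ℝ, Yf F Λ M ξ ε τ y := by
  obtain ⟨Ca, hCa, hret⟩ := retK
  refine ⟨Ca, hCa, fun F A Λ hF hΛ M hM κ ε τ hε hS ξ => ?_⟩
  have hδ : 0 < ‖τ‖ := hS.pos
  have hM0 : (0 : ℝ) < M := by exact_mod_cast hM
  have hN2 : 2 ≤ 2 ^ M := by
    calc 2 = 2 ^ 1 := by norm_num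
      _ ≤ 2 ^ M := Nat.pow_le_pow_right (by norm_num) hM
  have hN1 : (1 : ℝ) ≤ ((2 ^ M : ℕ) : ℝ) := by
    exact_mod_cast (le_trans (by norm_num) hN2)
  have hlog : 0 ≤ Real.log ((2 ^ M : ℕ) : ℝ) := Real.log_nonneg hN1
  have hKN : 0 < KN (2 ^ M) := Real.exp_pos _
  have hden : 0 < ε * ‖τ‖ * M := by positivity
  have hq : 0 < Ca * (1 + Real.log ((2 ^ M : ℕ) : ℝ)) / (ε * ‖τ‖ * M) := by (clear * - hCa hε hδ hM; positivity)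
  have hL1 : 1 ≤ Lw Ca ε ‖τ‖ M := Nat.one_le_ceil_iff.2 hq
  have hLC : ‖τ‖ * (Ca * (1 + Real.log ((2 ^ M : ℕ) : ℝ))) ≤
      (Lw Ca ε ‖τ‖ M : ℝ) * (ε * ‖τ‖ ^ 2 * M) := by
    have h1 : Ca * (1 + Real.log ((2 ^ M : ℕ) : ℝ)) / (ε * ‖τ‖ * M) ≤ (Lw Ca ε ‖τ‖ M : ℝ) :=
      Nat.le_ceil _
    rw [div_le_iff₀ hden] at h1
    calc ‖τ‖ * (Ca * (1 + Real.log ((2 ^ M : ℕ) : ℝ)))
        ≤ ‖τ‖ * ((Lw Ca ε ‖τ‖ M : ℝ) * (ε * ‖τ‖ * M)) := mul_le_mul_of_nonneg_left h1 hδ.le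
      _ = (Lw Ca ε ‖τ‖ M : ℝ) * (ε * ‖τ‖ ^ 2 * M) := by ring
  have key : ∀ u ∈ Bx ξ 1, ∃ y : ℕ → ℝ, Fz (fun k => al Λ τ (vk (2 ^ M) ξ k u) u)
      (fun k => Bad F Λ (ε / ‖τ‖) (2 * KN (2 ^ M) / ‖τ‖) (vk (2 ^ M) ξ k u) u)
      (ε * ‖τ‖ ^ 2 * M) (lv (2 ^ M) u) y := by
    intro u hu
    refine freeze hL1 hLC fun k hk hbad => ?_
    obtain ⟨hb1, hb2⟩ := hbad
    have hratio : ‖F (vk (2 ^ M) ξ k u) - F u‖ / rr F (vk (2 ^ M) ξ k u) ≤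
        2 * KN (2 ^ M) / ‖τ‖ := yEx_ratio_le (by (clear * - hKN hδ; positivity)) (yEx_vk_re_nonneg _ _ _ _) hb2
    have hwd : Ca * (1 + √((Lw Ca ε ‖τ‖ M + 1) * Real.log ((2 ^ M : ℕ) : ℝ) *
        √(‖F (vk (2 ^ M) ξ k u) - F u‖ / rr F (vk (2 ^ M) ξ k u)))) ≤
        |wd Λ (vk (2 ^ M) ξ k u) u| := by
      refine le_trans ?_ hb1.le
      refine le_trans ?_ hS.s7
      refine mul_le_mul_of_nonneg_left ?_ hCa.le
      have h3 : √(‖F (vk (2 ^ M) ξ k u) - F u‖ / rr F (vk (2 ^ M) ξ k u)) ≤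
          √(2 * KN (2 ^ M) / ‖τ‖) := Real.sqrt_le_sqrt hratio
      have h4 : (0 : ℝ) ≤ (Lw Ca ε ‖τ‖ M + 1) * Real.log ((2 ^ M : ℕ) : ℝ) := by (clear * - hL1; positivity)
      have h5 := Real.sqrt_le_sqrt (mul_le_mul_of_nonneg_left h3 h4)
      linarith only [h5]
    obtain ⟨k', h1, h2, h3⟩ := hret F A Λ hF hΛ (2 ^ M) hN2 ξ u hu k hk (Lw Ca ε ‖τ‖ M) hwd
    exact ⟨k', h1, h2, yEx_al_sub_le Λ τ _ _ _ h3⟩
  choose! y hy using key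
  exact ⟨y, hy⟩

end Pool.Agent.Helper26.G4
end

/- Helper24.K6w.H26.G4.HeightsB -/
section
/-!
# G4-HEIGHTSB: all heights, and the exponent

Given `ε` take `Ca` from `y_ex`, `param4` with `ε / 4`. Given `t` (complex, small), `θ = C' |t|²`,
`τ = (t + 2 θ) / (1 + θ)`: `(2 - τ) (1 + θ) = 2 - t`, `|t| / 2 ≤ |τ| ≤ |t| + 2 θ ≤ 2 |t|`, `C' ≥ 4 Cθ + 1` gives
`Cθ |τ|² ≤ θ`, and `θ ≤ |τ|`, `(1/4 + ε/2) |τ|² ≤ (1/4 + ε) |t|²` for small `|t|`. Heights `2 N^(-K)`: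
`v = 2 N^(-K) + i x`, `Λ v v = v + h (e^v)`,
`|exp ((2 - τ)(log (2/N^K) + v + h))|^(1+θ) ≥ e^(-2) (2 / N^K)^(2 - re t) |exp ((2 - t) h (e^v))|` for `|x| ≤ 7`;
`Φ x = |exp ((2 - t) h (e^v))|` is continuous with period `2 π`. `node`,
`avg4` with `G = N^((1/4 + ε/4) |τ|²)`, `c' = C9 |τ|² M`; `exp (6 κ c' K) ≤ (N^K)^(ε/4 |τ|²)` as in
`Pool.Agent.Helper90.G2.Heights_exp`, `Heights_K`. For `y ≤ 1` between `2 N^(-K-1)` and `2 N^(-K)`: `lip_diag`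
(`ρ = y`): `|Λ v v - Λ v' v'| ≤ 4 N`, so `|h (e^v) - h (e^v')| ≤ 4 N + 2`.
-/

set_option autoImplicit false

namespace Pool.Agent.Helper26.G4

open MeasureTheory Set
open scoped Real
open Pool.Agent.Helper90.G2 (Bx Wn Fn ar ch Cen chi)

theorem heightsB_exp {ε κ δ : ℝ} (hκ : 6 * κ * (C9 / Real.log 2) ≤ ε / 4) (M K : ℕ) :
    Real.exp (6 * κ * (C9 * δ ^ 2 * M) * K) ≤
      (((2 ^ M : ℕ) : ℝ) ^ K) ^ (ε / 4 * δ ^ 2) := by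
  have h2 : 0 < Real.log 2 := Real.log_pos one_lt_two
  have hx : (0:ℝ) < ((2 ^ M : ℕ) : ℝ) ^ K := by positivity
  rw [Real.rpow_def_of_pos hx]
  apply Real.exp_le_exp.mpr
  have hlog : Real.log (((2 ^ M : ℕ) : ℝ) ^ K) = K * (M * Real.log 2) := by
    push_cast
    rw [Real.log_pow, Real.log_pow]
  rw [hlog]
  have h3 : 6 * κ * C9 ≤ ε / 4 * Real.log 2 := by
    have h := mul_le_mul_of_nonneg_right hκ h2.le
    have e : 6 * κ * (C9 / Real.log 2) * Real.log 2 = 6 * κ * C9 := by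
      field_simp
    linarith only [h, e]
  have h4 : 0 ≤ δ ^ 2 * M * K := by (clear * -; positivity)
  have h5 := mul_le_mul_of_nonneg_right h3 h4
  calc 6 * κ * (C9 * δ ^ 2 * M) * K = 6 * κ * C9 * (δ ^ 2 * M * K) := by ring
    _ ≤ ε / 4 * Real.log 2 * (δ ^ 2 * M * K) := h5
    _ = K * (M * Real.log 2) * (ε / 4 * δ ^ 2) := by ring

/-- the bound at the heights `2 N^(-K)`, `N = 2^M` -/
theorem heightsB_K {ε κ δ s a : ℝ} (hκ : 6 * κ * (C9 / Real.log 2) ≤ ε / 4)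
    (ht : (1 / 4 + ε / 2) * δ ^ 2 ≤ (1 / 4 + ε) * s ^ 2) (M K : ℕ) :
    (((2 ^ M : ℕ) : ℝ) ^ ((1 / 4 + ε / 4) * δ ^ 2)) ^ K *
        (((2 ^ M : ℕ) : ℝ) ^ K) ^ (1 - a) * Real.exp (6 * κ * (C9 * δ ^ 2 * M) * K) ≤
      (((2 ^ M : ℕ) : ℝ) ^ K) ^ (1 - a + (1 / 4 + ε) * s ^ 2) := by
  have hx : (0:ℝ) < ((2 ^ M : ℕ) : ℝ) ^ K := by positivity
  have hx1 : (1:ℝ) ≤ ((2 ^ M : ℕ) : ℝ) ^ K := by
    push_cast
    exact one_le_pow₀ (one_le_pow₀ one_le_two)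
  have hG : (((2 ^ M : ℕ) : ℝ) ^ ((1 / 4 + ε / 4) * δ ^ 2)) ^ K =
      (((2 ^ M : ℕ) : ℝ) ^ K) ^ ((1 / 4 + ε / 4) * δ ^ 2) := by
    rw [← Real.rpow_natCast, ← Real.rpow_mul (by positivity), mul_comm,
      Real.rpow_mul (by positivity), Real.rpow_natCast]
  rw [hG]
  calc (((2 ^ M : ℕ) : ℝ) ^ K) ^ ((1 / 4 + ε / 4) * δ ^ 2) *
        (((2 ^ M : ℕ) : ℝ) ^ K) ^ (1 - a) * Real.exp (6 * κ * (C9 * δ ^ 2 * M) * K)
      ≤ (((2 ^ M : ℕ) : ℝ) ^ K) ^ ((1 / 4 + ε / 4) * δ ^ 2) *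
        (((2 ^ M : ℕ) : ℝ) ^ K) ^ (1 - a) *
          (((2 ^ M : ℕ) : ℝ) ^ K) ^ (ε / 4 * δ ^ 2) :=
        mul_le_mul_of_nonneg_left (heightsB_exp hκ M K) (by positivity)
    _ = (((2 ^ M : ℕ) : ℝ) ^ K) ^ ((1 / 4 + ε / 4) * δ ^ 2 + (1 - a) +
          ε / 4 * δ ^ 2) := by
        rw [Real.rpow_add hx, Real.rpow_add hx]
    _ ≤ (((2 ^ M : ℕ) : ℝ) ^ K) ^ (1 - a + (1 / 4 + ε) * s ^ 2) := by
        apply Real.rpow_le_rpow_of_exponent_le hx1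
        linarith only [ht]

theorem heightsB_cont {ψ h : ℂ → ℂ} (hS : Sg ψ h) (t : ℂ) {y : ℝ} (hy : 0 < y) :
    Continuous fun x : ℝ => ‖Complex.exp ((2 - t) * h (Complex.exp ⟨y, x⟩))‖ := by
  have h2 : Continuous fun ξ : ℝ => (⟨y, ξ⟩ : ℂ) := by
    have h : (fun ξ : ℝ => (⟨y, ξ⟩ : ℂ)) = fun ξ : ℝ => (y : ℂ) + (ξ : ℂ) * Complex.I := by
      funext ξ
      apply Complex.ext <;> simp
    rw [h]
    fun_prop
  have h3 : Continuous fun ξ : ℝ => h (Complex.exp ⟨y, ξ⟩) := by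
    refine hS.hcont.comp_continuous (Complex.continuous_exp.comp h2) fun ξ => ?_
    show 1 < ‖Complex.exp ⟨y, ξ⟩‖
    rw [Complex.norm_exp]
    exact Real.one_lt_exp_iff.mpr hy
  exact (Complex.continuous_exp.comp (continuous_const.mul h3)).norm

theorem heightsB_per (h : ℂ → ℂ) (t : ℂ) (y : ℝ) :
    Function.Periodic (fun x : ℝ => ‖Complex.exp ((2 - t) * h (Complex.exp ⟨y, x⟩))‖) (2 * π) := by
  intro x
  have e : (⟨y, x + 2 * π⟩ : ℂ) = ⟨y, x⟩ + 2 * π * Complex.I := by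
    apply Complex.ext <;> simp
  show ‖Complex.exp ((2 - t) * h (Complex.exp ⟨y, x + 2 * π⟩))‖ =
    ‖Complex.exp ((2 - t) * h (Complex.exp ⟨y, x⟩))‖
  rw [e, Complex.exp_add, Complex.exp_two_pi_mul_I, mul_one]

/-- one term of the sum of `node` -/
theorem heightsB_term {t τ v H : ℂ} {θ : ℝ} (hm : (2 - τ) * (1 + θ) = 2 - t) (ht : ‖t‖ ≤ 1 / 4)
    (hv : 0 < v.re) (hv7 : |v.im| ≤ 7) :
    v.re ^ (2 - t.re) * Real.exp (-2) * ‖Complex.exp ((2 - t) * H)‖ ≤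
      ‖Complex.exp ((2 - τ) * (Real.log v.re + (v + H)))‖ ^ (1 + θ) := by
  rw [Complex.norm_exp, Complex.norm_exp, ← Real.exp_mul, Real.rpow_def_of_pos hv,
    ← Real.exp_add, ← Real.exp_add]
  apply Real.exp_le_exp.mpr
  have h1 : ((2 - τ) * (Real.log v.re + (v + H))).re * (1 + θ) =
      ((2 - t) * (Real.log v.re + (v + H))).re := by
    have h2 : ((2 - τ) * (Real.log v.re + (v + H))).re * (1 + θ) =
        ((2 - τ) * (Real.log v.re + (v + H)) * ((1 + θ : ℝ) : ℂ)).re := by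
      rw [Complex.re_mul_ofReal]
    rw [h2, ← hm]
    congr 1
    push_cast
    ring
  rw [h1]
  have h3 : ((2 - t) * (Real.log v.re + (v + H))).re =
      (2 - t.re) * Real.log v.re + ((2 - t.re) * v.re + t.im * v.im) + ((2 - t) * H).re := by
    rw [mul_add, mul_add, Complex.add_re, Complex.add_re]
    simp [Complex.mul_re]
    ring
  rw [h3]
  have h4 : |t.im * v.im| ≤ 1 / 4 * 7 := by
    rw [abs_mul]
    exact mul_le_mul ((Complex.abs_im_le_norm t).trans ht) hv7 (abs_nonneg _) (by norm_num)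
  have h5 : t.re ≤ 1 / 4 := (le_abs_self _).trans ((Complex.abs_re_le_norm t).trans ht)
  have h6 : 0 ≤ (2 - t.re) * v.re := mul_nonneg (by (clear * - h5; linarith only [h5])) hv.le
  have h7 := (abs_le.mp h4).1
  linarith only [h6, h7]

/-- moving the height -/
theorem heightsB_move {F : ℂ → ℂ} {A : ℝ} (hF : Fn F A) {Λ : ℂ → ℂ → ℂ} (hΛ : Br F Λ) {h : ℂ → ℂ}
    (hd : ∀ u : ℂ, 0 < u.re → Λ u u = u + h (Complex.exp u)) {t : ℂ} (ht : ‖t‖ ≤ 1 / 4)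
    {y y' x N : ℝ} (hy : 0 < y) (hyy : y ≤ y') (hy2 : y' ≤ 2) (hN : y' ≤ N * y) :
    ‖Complex.exp ((2 - t) * h (Complex.exp ⟨y, x⟩))‖ ≤
      Real.exp (3 * (4 * N + 2)) * ‖Complex.exp ((2 - t) * h (Complex.exp ⟨y', x⟩))‖ := by
  have hpi := Real.pi_gt_three
  have hn : ‖(⟨y, x⟩ : ℂ) - ⟨y', x⟩‖ = y' - y := by
    have e : (⟨y, x⟩ : ℂ) - ⟨y', x⟩ = ((y - y' : ℝ) : ℂ) := by
      apply Complex.ext <;> simp
    rw [e, Complex.norm_real, Real.norm_eq_abs, abs_of_nonpos (by linarith only [hyy])]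
    ring
  have h1 := lip_diag hF hΛ (v := ⟨y', x⟩) (v' := ⟨y, x⟩) (ρ := y) hy (by linarith only [hyy, hy2, hpi]) (by
    intro w hw
    have hsub := (convex_halfSpace_re_ge y).segment_subset
      (show (⟨y', x⟩ : ℂ) ∈ {c : ℂ | y ≤ c.re} from hyy)
      (show (⟨y, x⟩ : ℂ) ∈ {c : ℂ | y ≤ c.re} from le_refl y)
    exact hsub hw)
  rw [hn] at h1
  have h2 : 4 / y * (y' - y) ≤ 4 * N := by
    rw [div_mul_eq_mul_div, div_le_iff₀ hy]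
    (clear * - hy hN; linarith only [hy, hN])
  have h3 : ‖h (Complex.exp ⟨y, x⟩) - h (Complex.exp ⟨y', x⟩)‖ ≤ 4 * N + 2 := by
    have e1 := hd ⟨y, x⟩ hy
    have e2 := hd ⟨y', x⟩ (hy.trans_le hyy)
    have e : h (Complex.exp ⟨y, x⟩) - h (Complex.exp ⟨y', x⟩) =
        (Λ ⟨y, x⟩ ⟨y, x⟩ - Λ ⟨y', x⟩ ⟨y', x⟩) - ((⟨y, x⟩ : ℂ) - ⟨y', x⟩) := by
      rw [e1, e2]
      ring
    rw [e]
    refine (norm_sub_le _ _).trans ?_
    rw [hn]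
    linarith only [hy, hy2, h1, h2]
  have h4 : ‖(2 : ℂ) - t‖ ≤ 3 := by
    refine (norm_sub_le _ _).trans ?_
    have : ‖(2 : ℂ)‖ = 2 := by simp
    (clear * - ht this; linarith only [ht, this])
  rw [Complex.norm_exp, Complex.norm_exp, ← Real.exp_add]
  apply Real.exp_le_exp.mpr
  have h5 : ((2 - t) * h (Complex.exp ⟨y, x⟩)).re - ((2 - t) * h (Complex.exp ⟨y', x⟩)).re ≤
      3 * (4 * N + 2) := by
    rw [← Complex.sub_re, ← mul_sub]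
    refine (Complex.re_le_norm _).trans ?_
    rw [norm_mul]
    exact mul_le_mul h4 h3 (norm_nonneg _) (by norm_num)
  linarith only [h5]

/-- from the heights `2 N^(-K)` to all heights -/
theorem heightsB_core {F : ℂ → ℂ} {A : ℝ} (hF : Fn F A) {Λ : ℂ → ℂ → ℂ} (hΛ : Br F Λ)
    {ψ h : ℂ → ℂ} (hS : Sg ψ h)
    (hd : ∀ u : ℂ, 0 < u.re → Λ u u = u + h (Complex.exp u)) {t : ℂ} (ht : ‖t‖ ≤ 1 / 4)
    {M : ℕ} (hM : 1 ≤ M) {b C : ℝ} (hb : 0 ≤ b) (hC : 0 ≤ C)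
    (hK : ∀ K : ℕ, ∫ x in (0:ℝ)..(2 * π),
      ‖Complex.exp ((2 - t) * h (Complex.exp ⟨2 * (1 / ((2 ^ M : ℕ) : ℝ) ^ K), x⟩))‖ ≤
        C * (((2 ^ M : ℕ) : ℝ) ^ K) ^ b) {y : ℝ} (hy : 0 < y) (hy1 : y ≤ 1) :
    ∫ x in (0:ℝ)..(2 * π), ‖Complex.exp ((2 - t) * h (Complex.exp ⟨y, x⟩))‖ ≤
      Real.exp (3 * (4 * 2 ^ M + 2)) * (C * 2 ^ b) * y ^ (-b) := by
  obtain ⟨K, hK1, hK2⟩ := Pool.Agent.Helper90.G2.Heights_near (y := y / 2) (by linarith only [hy])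
    (by (clear * - hy1; linarith only [hy1])) hM
  have hX : (0:ℝ) < ((2 ^ M : ℕ) : ℝ) ^ K := by (clear * -; positivity)
  have hX1 : (1:ℝ) ≤ ((2 ^ M : ℕ) : ℝ) ^ K := by
    push_cast
    exact one_le_pow₀ (one_le_pow₀ one_le_two)
  have hXe : (((2 ^ M) ^ K : ℕ) : ℝ) = ((2 ^ M : ℕ) : ℝ) ^ K := by push_cast; rfl
  rw [hXe] at hK1 hK2
  obtain ⟨X, hXd⟩ : ∃ X : ℝ, X = ((2 ^ M : ℕ) : ℝ) ^ K := ⟨_, rfl⟩
  have hKK := hK K
  rw [← hXd] at hX hX1 hK1 hK2 hKK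
  have e1 : 2 * (1 / X) = 2 * X⁻¹ := by rw [one_div]
  have hyy : y ≤ 2 * (1 / X) := by rw [e1]; (clear * - hK1; linarith)
  have hy2 : 2 * (1 / X) ≤ 2 := by
    have : X⁻¹ ≤ 1 := inv_le_one_of_one_le₀ hX1
    rw [e1]; (clear * - this; linarith only [this])
  have hNy : 2 * (1 / X) ≤ 2 ^ M * y := by rw [e1]; linarith only [hK2]
  have hmono : ∫ x in (0:ℝ)..(2 * π), ‖Complex.exp ((2 - t) * h (Complex.exp ⟨y, x⟩))‖ ≤
      Real.exp (3 * (4 * 2 ^ M + 2)) * ∫ x in (0:ℝ)..(2 * π),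
        ‖Complex.exp ((2 - t) * h (Complex.exp ⟨2 * (1 / X), x⟩))‖ := by
    rw [← intervalIntegral.integral_const_mul]
    apply intervalIntegral.integral_mono_on (by positivity)
      ((heightsB_cont hS t hy).intervalIntegrable _ _)
      (((heightsB_cont hS t (hy.trans_le hyy)).const_mul _).intervalIntegrable _ _)
    intro x _
    exact heightsB_move hF hΛ hd ht hy hyy hy2 hNy
  have hpow : X ^ b ≤ 2 ^ b * y ^ (-b) := by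
    rw [Real.rpow_neg hy.le, ← Real.inv_rpow hy.le, ← Real.mul_rpow (by norm_num) (by (clear * - hy; positivity))]
    apply Real.rpow_le_rpow hX.le _ hb
    rw [← div_eq_mul_inv, le_div_iff₀ hy]
    have h1 : X * y ≤ X * (2 * (1 / X)) := mul_le_mul_of_nonneg_left hyy hX.le
    have h2 : X * (2 * (1 / X)) = 2 := by (clear * - hX1; field_simp)
    linarith only [h1, h2]
  calc ∫ x in (0:ℝ)..(2 * π), ‖Complex.exp ((2 - t) * h (Complex.exp ⟨y, x⟩))‖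
      ≤ Real.exp (3 * (4 * 2 ^ M + 2)) * ∫ x in (0:ℝ)..(2 * π),
        ‖Complex.exp ((2 - t) * h (Complex.exp ⟨2 * (1 / X), x⟩))‖ := hmono
    _ ≤ Real.exp (3 * (4 * 2 ^ M + 2)) * (C * (2 ^ b * y ^ (-b))) := by
        apply mul_le_mul_of_nonneg_left _ (Real.exp_nonneg _)
        exact hKK.trans (mul_le_mul_of_nonneg_left hpow hC)
    _ = Real.exp (3 * (4 * 2 ^ M + 2)) * (C * 2 ^ b) * y ^ (-b) := by ring

/-- the heights `2 N^(-K)`: from the bound of the sums to the bound of the integral -/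
theorem heightsB_int {ψ h : ℂ → ℂ} (hS : Sg ψ h) {t τ : ℂ} {θ : ℝ}
    (hm : (2 - τ) * (1 + θ) = 2 - t) (hθ1 : θ ≤ 1) (ht : ‖t‖ ≤ 1 / 4)
    {κ c' D E : ℝ} (hκ : 0 < κ) (hκ1 : κ ≤ 1 / 4) (hc : 0 ≤ c') (hc1 : 3 * κ * c' ≤ 1 / 2)
    (hE : 1 ≤ E) {N K : ℕ} (hN1 : 1 ≤ N) (hN : 2 ≤ κ * N)
    (hsum : ∀ ξ ∈ Icc (0 : ℝ) (2 * π), ∑ d ∈ Finset.range (N ^ K),
      Pool.Agent.Helper90.G2.chK κ c' N K d *
        (‖Complex.exp ((2 - τ) * (Real.log (2 / (N : ℝ) ^ K) +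
          (vt (ch (N ^ K) ξ 1 d) (1 / (N : ℝ) ^ K) +
            h (Complex.exp (vt (ch (N ^ K) ξ 1 d) (1 / (N : ℝ) ^ K))))))‖ / E) ^ (1 + θ) ≤ D) :
    ∫ x in (0:ℝ)..(2 * π),
      ‖Complex.exp ((2 - t) * h (Complex.exp ⟨2 * (1 / (N : ℝ) ^ K), x⟩))‖ ≤
        2 * π * (E ^ 2 * Real.exp 2) * (D * ((N : ℝ) ^ K) ^ (1 - t.re) *
          Real.exp (6 * κ * c' * K)) := by
  have hN0 : (0:ℝ) < N := by exact_mod_cast hN1
  obtain ⟨X, hXd⟩ : ∃ X : ℝ, X = (N : ℝ) ^ K := ⟨_, rfl⟩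
  have hX : 0 < X := by rw [hXd]; (clear * - hN1; positivity)
  have hX1 : 1 ≤ X := by
    rw [hXd]
    exact one_le_pow₀ (by exact_mod_cast hN1)
  have hE0 : 0 < E := by linarith only [hE]
  have hre : t.re ≤ 1 / 4 := (le_abs_self _).trans ((Complex.abs_re_le_norm t).trans ht)
  have hη : 0 < 2 * (1 / X) := by (clear * - hX; positivity)
  have hlog : 2 / X = 2 * (1 / X) := by ring
  have hB : ∀ ξ ∈ Icc (0 : ℝ) (2 * π), ∑ d ∈ Finset.range (N ^ K),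
      Pool.Agent.Helper90.G2.chK κ c' N K d *
      (fun x : ℝ => ‖Complex.exp ((2 - t) * h (Complex.exp ⟨2 * (1 / X), x⟩))‖)
        (ξ + (((d : ℝ) + 1 / 2) / (N : ℝ) ^ K - 1 / 2)) ≤
      E ^ 2 * Real.exp 2 * X ^ (2 - t.re) * D := by
    intro ξ hξ
    have h1 := hsum ξ hξ
    rw [← hXd] at h1
    have hc0 : 0 ≤ E ^ 2 * Real.exp 2 * X ^ (2 - t.re) := by (clear * - hE hX; positivity)
    refine le_trans ?_ (mul_le_mul_of_nonneg_left h1 hc0)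
    rw [Finset.mul_sum]
    apply Finset.sum_le_sum
    intro d hd
    have hdlt : d < N ^ K := Finset.mem_range.mp hd
    have hdX : (d : ℝ) + 1 ≤ X := by
      rw [hXd]
      exact_mod_cast hdlt
    have hch0 := Pool.Agent.Helper90.G2.chK_nonneg κ c' N K d
    obtain ⟨x, hx⟩ : ∃ x : ℝ, x = ξ + (((d : ℝ) + 1 / 2) / X - 1 / 2) := ⟨_, rfl⟩
    have hxe : ch (N ^ K) ξ 1 d = x := by
      rw [hx, hXd]
      unfold Pool.Agent.Helper90.G2.ch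
      push_cast
      ring
    have hve : vt (ch (N ^ K) ξ 1 d) (1 / X) = ⟨2 * (1 / X), x⟩ := by
      rw [hxe]
      rfl
    have hx7 : |x| ≤ 7 := by
      have hpi := Real.pi_lt_d2
      have h2 : ((d : ℝ) + 1 / 2) / X ≤ 1 := by
        rw [div_le_one hX]
        (clear * - hdX; linarith only [hdX])
      have h3 : 0 ≤ ((d : ℝ) + 1 / 2) / X := by (clear * - hX; positivity)
      rw [abs_le, hx]
      constructor
      · (clear * - hξ h3; linarith only [hξ.1, h3])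
      · (clear * - hξ hpi h2; linarith only [hξ.2, hpi, h2])
    rw [← hXd, ← hx, hve, hlog]
    have hT := heightsB_term (v := ⟨2 * (1 / X), x⟩) (H := h (Complex.exp ⟨2 * (1 / X), x⟩)) hm ht
      hη hx7
    have hT' : (2 * (1 / X)) ^ (2 - t.re) * Real.exp (-2) *
        ‖Complex.exp ((2 - t) * h (Complex.exp ⟨2 * (1 / X), x⟩))‖ ≤
      ‖Complex.exp ((2 - τ) * (Real.log (2 * (1 / X)) + ((⟨2 * (1 / X), x⟩ : ℂ) +
        h (Complex.exp ⟨2 * (1 / X), x⟩))))‖ ^ (1 + θ) := hT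
    obtain ⟨Φ, hΦ⟩ : ∃ Φ : ℝ, Φ = ‖Complex.exp ((2 - t) * h (Complex.exp ⟨2 * (1 / X), x⟩))‖ :=
      ⟨_, rfl⟩
    obtain ⟨Z, hZ⟩ : ∃ Z : ℝ, Z = ‖Complex.exp ((2 - τ) * (Real.log (2 * (1 / X)) +
        ((⟨2 * (1 / X), x⟩ : ℂ) + h (Complex.exp ⟨2 * (1 / X), x⟩))))‖ := ⟨_, rfl⟩
    have hΦ0 : 0 ≤ Φ := by rw [hΦ]; (clear * -; positivity)
    have hZ0 : 0 ≤ Z := by rw [hZ]; (clear * -; positivity)
    rw [← hΦ, ← hZ] at hT'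
    show Pool.Agent.Helper90.G2.chK κ c' N K d *
      ‖Complex.exp ((2 - t) * h (Complex.exp ⟨2 * (1 / X), x⟩))‖ ≤ _
    rw [← hΦ, ← hZ]
    have h5 : Φ ≤ E ^ 2 * Real.exp 2 * X ^ (2 - t.re) * (Z / E) ^ (1 + θ) := by
      rw [Real.div_rpow hZ0 hE0.le]
      have h6 : E ^ (1 + θ) ≤ E ^ 2 := by
        rw [← Real.rpow_natCast]
        apply Real.rpow_le_rpow_of_exponent_le hE
        push_cast
        linarith only [hθ1]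
      have h7 : 0 < E ^ (1 + θ) := Real.rpow_pos_of_pos hE0 _
      have h8 : Z ^ (1 + θ) ≤ E ^ 2 * (Z ^ (1 + θ) / E ^ (1 + θ)) := by
        rw [mul_div_assoc', le_div_iff₀ h7, mul_comm]
        exact mul_le_mul_of_nonneg_right h6 (Real.rpow_nonneg hZ0 _)
      have h9 : Φ = Real.exp 2 * X ^ (2 - t.re) * 2 ^ (-(2 - t.re)) *
          ((2 * (1 / X)) ^ (2 - t.re) * Real.exp (-2) * Φ) := by
        have e1 : (2 * (1 / X)) ^ (2 - t.re) = 2 ^ (2 - t.re) * (X ^ (2 - t.re))⁻¹ := by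
          rw [Real.mul_rpow (by norm_num) (by (clear * - hX; positivity)), one_div, Real.inv_rpow hX.le]
        have e2 : (2:ℝ) ^ (-(2 - t.re)) = ((2:ℝ) ^ (2 - t.re))⁻¹ :=
          Real.rpow_neg (by norm_num) _
        have e3 : Real.exp (-2) = (Real.exp 2)⁻¹ := Real.exp_neg 2
        have p1 : (2:ℝ) ^ (2 - t.re) ≠ 0 := (Real.rpow_pos_of_pos (by norm_num) _).ne'
        have p2 : X ^ (2 - t.re) ≠ 0 := (Real.rpow_pos_of_pos hX _).ne'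
        have p3 : Real.exp 2 ≠ 0 := (Real.exp_pos 2).ne'
        rw [e1, e2, e3]
        (clear * - p3 p2 p1; field_simp)
      have h10 : (2:ℝ) ^ (-(2 - t.re)) ≤ 1 :=
        Real.rpow_le_one_of_one_le_of_nonpos (by norm_num) (by (clear * - hre; linarith only [hre]))
      have hT0 : 0 ≤ (2 * (1 / X)) ^ (2 - t.re) * Real.exp (-2) * Φ := by (clear * - hX hΦ0; positivity)
      calc Φ = Real.exp 2 * X ^ (2 - t.re) * 2 ^ (-(2 - t.re)) *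
            ((2 * (1 / X)) ^ (2 - t.re) * Real.exp (-2) * Φ) := h9
        _ ≤ Real.exp 2 * X ^ (2 - t.re) * 1 *
            ((2 * (1 / X)) ^ (2 - t.re) * Real.exp (-2) * Φ) := by (clear * - h10 hX hΦ0; gcongr)
        _ ≤ Real.exp 2 * X ^ (2 - t.re) * 1 * Z ^ (1 + θ) := by (clear * - hT' hX; gcongr)
        _ ≤ Real.exp 2 * X ^ (2 - t.re) * 1 * (E ^ 2 * (Z ^ (1 + θ) / E ^ (1 + θ))) := by (clear * - h8 hX; gcongr)
        _ = E ^ 2 * Real.exp 2 * X ^ (2 - t.re) * (Z ^ (1 + θ) / E ^ (1 + θ)) := by ring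
    calc Pool.Agent.Helper90.G2.chK κ c' N K d * Φ ≤ Pool.Agent.Helper90.G2.chK κ c' N K d *
          (E ^ 2 * Real.exp 2 * X ^ (2 - t.re) * (Z / E) ^ (1 + θ)) :=
          mul_le_mul_of_nonneg_left h5 hch0
      _ = E ^ 2 * Real.exp 2 * X ^ (2 - t.re) *
          (Pool.Agent.Helper90.G2.chK κ c' N K d * (Z / E) ^ (1 + θ)) := by ring
  have havg := avg4 (heightsB_cont hS t hη) (heightsB_per h t _) (fun x => norm_nonneg _) hκ hκ1 hc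
    hc1 hN K hB
  rw [← hXd] at havg ⊢
  refine havg.trans (le_of_eq ?_)
  have e : X ^ (2 - t.re) * X⁻¹ = X ^ (1 - t.re) := by
    rw [← Real.rpow_neg_one X, ← Real.rpow_add hX]
    congr 1
    ring
  rw [← e]
  ring

theorem heights4 {ε : ℝ} (hε : 0 < ε) :
    ∃ δ₀ : ℝ, 0 < δ₀ ∧ δ₀ ≤ 1 / 4 ∧ ∀ t : ℂ, t ≠ 0 → ‖t‖ < δ₀ → ∃ C : ℝ, 0 ≤ C ∧
      ∀ ψ h : ℂ → ℂ, Sg ψ h → ∀ y : ℝ, 0 < y → y ≤ 1 →
        ∫ ξ in (0:ℝ)..(2 * π), ‖Complex.exp ((2 - t) * h (Complex.exp ⟨y, ξ⟩))‖ ≤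
          C * y ^ (-(1 - t.re + (1 / 4 + ε) * ‖t‖ ^ 2)) := by
  obtain ⟨C0, hC0, hsig⟩ := sig4
  obtain ⟨Ca, hCa, hyex⟩ := y_ex
  obtain ⟨κ, hκ, hκ1, hκ2, εp, hεp, hεp1, M, hM, hκM, hMκ, Cθ, δw, hCθ, hδw, hδw1, hw⟩ :=
    param4 (ε' := ε / 4) hCa (by (clear * - hε; positivity))
  have hC9 : (0:ℝ) < C9 := by
    unfold C9
    norm_num
  obtain ⟨C', hC'⟩ : ∃ C' : ℝ, C' = 4 * Cθ + 1 := ⟨_, rfl⟩
  have hC'0 : 0 < C' := by
    rw [hC']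
    (clear * - hCθ; positivity)
  obtain ⟨s₀, hs₀⟩ : ∃ s₀ : ℝ, s₀ = ε / (3 / 2 + 3 * ε) := ⟨_, rfl⟩
  have hs0 : 0 < s₀ := by
    rw [hs₀]
    positivity
  have hs1 : s₀ ≤ 1 / 3 := by
    rw [hs₀, div_le_iff₀ (by positivity)]
    linarith only []
  have hs2 : s₀ * (3 / 2 + 3 * ε) = ε := by
    rw [hs₀]
    field_simp
  have hMC : 0 < 3 * (C9 * M + 1) := by (clear * - hC9 hM; positivity)
  refine ⟨min (1 / 4) (min (δw / 2) (min (s₀ / (4 * C')) (2 / (3 * (C9 * M + 1))))), ?_,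
    min_le_left _ _, ?_⟩
  · exact lt_min (by norm_num) (lt_min (by positivity) (lt_min (by positivity) (by positivity)))
  intro t ht0 ht'
  rw [lt_min_iff, lt_min_iff, lt_min_iff] at ht'
  obtain ⟨ht1, ht2, ht3, ht4⟩ := ht'
  have hs : 0 < ‖t‖ := norm_pos_iff.mpr ht0
  obtain ⟨s, hsd⟩ : ∃ s : ℝ, s = ‖t‖ := ⟨_, rfl⟩
  rw [← hsd] at hs ht1 ht2 ht3 ht4
  rw [lt_div_iff₀ (by positivity)] at ht3
  rw [lt_div_iff₀ hMC] at ht4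
  -- `θ`, `τ`
  obtain ⟨θ, hθ⟩ : ∃ θ : ℝ, θ = C' * s ^ 2 := ⟨_, rfl⟩
  have hθ0 : 0 < θ := by
    rw [hθ]
    positivity
  have hCs : C' * s ≤ 1 / 12 := by linarith only [hs1, ht3]
  have hCs0 : 0 < C' * s := by (clear * - hC'0 hs; positivity)
  have hθs : θ = (C' * s) * s := by
    rw [hθ]
    ring
  have hθ12 : θ ≤ s / 12 := by
    rw [hθs]
    (clear * - hCs0 hθ hCs hθ0; nlinarith only [hθ, hθ0, hCs, hCs0])
  have hθ1 : θ ≤ 1 := by linarith only [ht1, hθ12]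
  obtain ⟨τ, hτ⟩ : ∃ τ : ℂ, τ = (t + 2 * θ) / (1 + θ) := ⟨_, rfl⟩
  have h1θ : (1 + (θ : ℂ)) ≠ 0 := by
    have h : (1 + (θ : ℂ)) = ((1 + θ : ℝ) : ℂ) := by push_cast; rfl
    rw [h, Complex.ofReal_ne_zero]
    linarith only [hθ0]
  have hm : (2 - τ) * (1 + θ) = 2 - t := by
    rw [hτ, sub_mul, div_mul_cancel₀ _ h1θ]
    ring
  have hτm : τ * ((1 + θ : ℝ) : ℂ) = t + ((2 * θ : ℝ) : ℂ) := by
    rw [hτ]
    push_cast
    rw [div_mul_cancel₀ _ h1θ]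
  have hτn : ‖τ‖ * (1 + θ) = ‖t + ((2 * θ : ℝ) : ℂ)‖ := by
    rw [← hτm, norm_mul, Complex.norm_real, Real.norm_eq_abs, abs_of_pos (by linarith only [hθ0] : 0 < 1 + θ)]
  have h2θ : ‖((2 * θ : ℝ) : ℂ)‖ = 2 * θ := by
    rw [Complex.norm_real, Real.norm_eq_abs, abs_of_pos (by linarith only [hθ0])]
  have hup : ‖τ‖ * (1 + θ) ≤ s + 2 * θ := by
    rw [hτn]
    refine (norm_add_le _ _).trans ?_
    rw [h2θ, hsd]
  have hlow : s - 2 * θ ≤ ‖τ‖ * (1 + θ) := by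
    rw [hτn]
    have h := norm_sub_le (t + ((2 * θ : ℝ) : ℂ)) ((2 * θ : ℝ) : ℂ)
    rw [add_sub_cancel_right, h2θ, ← hsd] at h
    linarith only [h]
  obtain ⟨δ, hδ⟩ : ∃ δ : ℝ, δ = ‖τ‖ := ⟨_, rfl⟩
  rw [← hδ] at hup hlow
  have hδn : 0 ≤ δ := by rw [hδ]; exact norm_nonneg _
  have hδup : δ ≤ s + 2 * θ := by
    have : δ ≤ δ * (1 + θ) := le_mul_of_one_le_right hδn (by linarith only [hlow, hup])
    linarith only [hup, this]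
  have hδlow : s / 2 ≤ δ := by
    by_contra hcon
    push Not at hcon
    have h1 : δ * (1 + θ) ≤ (s / 2) * (1 + θ) := mul_le_mul_of_nonneg_right hcon.le (by (clear * - hlow hup; linarith only [hlow, hup]))
    nlinarith only [ht1, hs, hθ, hCs, hlow, h1]
  have hδ0 : 0 < δ := by linarith only [hθ0, hθ12, hδlow]
  have hδ2 : δ ≤ 2 * s := by linarith only [hθ12, hδup, hδ0]
  have hδw2 : δ < δw := by linarith only [ht2, hδ2]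
  have hθδ : θ ≤ δ := by linarith only [hθ12, hδlow, hδ2]
  have hCθδ : Cθ * δ ^ 2 ≤ θ := by
    have h1 : δ ^ 2 ≤ (2 * s) ^ 2 := pow_le_pow_left₀ hδn hδ2 2
    have h2 : Cθ * δ ^ 2 ≤ Cθ * (2 * s) ^ 2 := mul_le_mul_of_nonneg_left h1 hCθ
    have h3 : 0 ≤ s ^ 2 := sq_nonneg s
    rw [hθ, hC']
    (clear * - h2; nlinarith only [h2])
  obtain ⟨hSm, hGθ⟩ := hw δ hδ0 hδw2
  obtain ⟨hKKθ, hGle⟩ := hGθ θ hCθδ hθδ
  have hexp : (1 / 4 + ε / 2) * δ ^ 2 ≤ (1 / 4 + ε) * s ^ 2 := by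
    have h0 : δ ≤ s * (1 + 2 * (C' * s)) := by
      have e : s * (1 + 2 * (C' * s)) = s + 2 * θ := by
        rw [hθs]
        ring
      rw [e]
      exact hδup
    have h1 : (1 + 2 * (C' * s)) ^ 2 ≤ 1 + 3 * s₀ := by (clear * - hθ hδ0 hδ2 hs0 hθδ ht3 hδup; nlinarith only [hs0, ht3, hθ, hδup, hδ0, hδ2, hθδ])
    have h2 : (1 / 4 + ε / 2) * (1 + 3 * s₀) = 1 / 4 + ε := by
      have h : (1 / 4 + ε / 2) * (1 + 3 * s₀) =
        1 / 4 + ε / 2 + s₀ * (3 / 2 + 3 * ε) / 2 := by ring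
      rw [h, hs2]
      ring
    have h3 : δ ^ 2 ≤ (s * (1 + 2 * (C' * s))) ^ 2 := pow_le_pow_left₀ hδn h0 2
    calc (1 / 4 + ε / 2) * δ ^ 2 ≤ (1 / 4 + ε / 2) * (s * (1 + 2 * (C' * s))) ^ 2 := by gcongr
      _ = s ^ 2 * ((1 / 4 + ε / 2) * (1 + 2 * (C' * s)) ^ 2) := by ring
      _ ≤ s ^ 2 * ((1 / 4 + ε / 2) * (1 + 3 * s₀)) := by (clear * - h1 hε hs; gcongr)
      _ = (1 / 4 + ε) * s ^ 2 := by
        rw [h2]
        ring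
  have hc1 : 3 * κ * (C9 * δ ^ 2 * M) ≤ 1 / 2 := by
    have h1 : δ ^ 2 ≤ (2 * s) ^ 2 := pow_le_pow_left₀ hδn hδ2 2
    have h2 : C9 * δ ^ 2 * M ≤ C9 * (2 * s) ^ 2 * M := by (clear * - h1 hC9 hM; gcongr)
    have h3 : 3 * κ * (C9 * δ ^ 2 * M) ≤ 3 * (1 / 4) * (C9 * (2 * s) ^ 2 * M) := by (clear * - hκ1 h2 hC9 hδ0 hM; gcongr)
    have h4 : s * (C9 * M) ≤ 2 / 3 := by
      have h5 : s * (3 * (C9 * M + 1)) = 3 * (s * (C9 * M)) + 3 * s := by ring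
      rw [h5] at ht4
      linarith only [ht4, hs]
    have h6 : 0 ≤ s * (C9 * M) := by (clear * - hs hC9 hM; positivity)
    calc 3 * κ * (C9 * δ ^ 2 * M) ≤ 3 * (1 / 4) * (C9 * (2 * s) ^ 2 * M) := h3
      _ = 3 * s * (s * (C9 * M)) := by ring
      _ ≤ 3 * (1 / 4) * (2 / 3) := by (clear * - ht1 h4 hs hC9 hM; gcongr)
      _ = 1 / 2 := by norm_num
  -- the constants
  obtain ⟨E, hE⟩ : ∃ E : ℝ, E = KN (2 ^ M) * Real.exp (KN (2 ^ M)) := ⟨_, rfl⟩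
  have hKN : 1 ≤ KN (2 ^ M) := by
    unfold KN
    exact Real.one_le_exp (by positivity)
  have hE1 : 1 ≤ E := by
    rw [hE]
    have : 1 ≤ Real.exp (KN (2 ^ M)) := Real.one_le_exp (by linarith only [hKN])
    (clear * - hKN this; nlinarith only [hKN, this])
  obtain ⟨D0, hD0⟩ : ∃ D0 : ℝ, D0 = (1 + C0 * Real.exp (C0 + 7)) ^ 2 := ⟨_, rfl⟩
  have hD00 : 0 ≤ D0 := by
    rw [hD0]
    positivity
  obtain ⟨b, hb⟩ : ∃ b : ℝ, b = 1 - t.re + (1 / 4 + ε) * s ^ 2 := ⟨_, rfl⟩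
  have htn : ‖t‖ ≤ 1 / 4 := by rw [← hsd]; linarith only [ht1]
  have hb0 : 0 ≤ b := by
    have h1 : t.re ≤ 1 / 4 := (le_abs_self _).trans ((Complex.abs_re_le_norm t).trans htn)
    have h2 : 0 ≤ (1 / 4 + ε) * s ^ 2 := by (clear * - hε hs; positivity)
    rw [hb]
    linarith only [h1, h2]
  have hN1 : 1 ≤ 2 ^ M := Nat.one_le_two_pow
  refine ⟨Real.exp (3 * (4 * 2 ^ M + 2)) * (2 * π * (E ^ 2 * Real.exp 2) * D0 * 2 ^ b),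
    by (clear * - hE1 hD00; positivity), ?_⟩
  intro ψ h hS y hy hy1
  obtain ⟨-, Λ, hF, hΛ, hdiag, hLb⟩ := hsig ψ h hS
  rw [← hsd, ← hb]
  refine heightsB_core (A := C0) hF hΛ hS hdiag htn hM hb0 (by (clear * - hE1 hD00; positivity)) (fun K => ?_) hy hy1
  have hint := heightsB_int (K := K) hS hm hθ1 htn (κ := κ) (c' := C9 * δ ^ 2 * M)
    (D := (((2 ^ M : ℕ) : ℝ) ^ ((1 / 4 + ε / 4) * δ ^ 2)) ^ K * D0) (E := E) (N := 2 ^ M)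
    hκ hκ1 (by (clear * - hC9 hδ0 hM; positivity)) hc1 hE1 hN1 hκM (by
      intro ξ hξ
      obtain ⟨yy, hyy⟩ := hyex _ C0 Λ hF hΛ M hM κ εp τ hεp (by rw [← hδ]; exact hSm) ξ
      have hξ7 : |ξ| ≤ 7 := by
        have hpi := Real.pi_lt_d2
        rw [abs_le]
        constructor
        · linarith only [hξ.1]
        · linarith only [hξ.2, hpi]
      have hnode := node hF (by linarith only [hC0]) hΛ hM hκ hκ1 hMκ hεp hεp1 (τ := τ)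
        (by rw [← hδ]; exact hSm) (C := C0) (by linarith only [hC0]) hξ7 (fun u hu => hLb ξ u hu) hyy hθ1
        (by rw [← hδ]; exact hKKθ)
        (G := ((2 ^ M : ℕ) : ℝ) ^ ((1 / 4 + ε / 4) * δ ^ 2)) (by rw [← hδ]; exact hGle) K
      rw [← hE, ← hD0, ← hδ] at hnode
      refine le_trans (le_of_eq ?_) hnode
      apply Finset.sum_congr rfl
      intro d _
      rw [hdiag _ (by
        show 0 < 2 * (1 / ((2 ^ M : ℕ) : ℝ) ^ K)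
        positivity)])
  refine hint.trans ?_
  have hKK := heightsB_K (a := t.re) hκ2 hexp M K
  rw [← hb] at hKK
  calc 2 * π * (E ^ 2 * Real.exp 2) * ((((2 ^ M : ℕ) : ℝ) ^ ((1 / 4 + ε / 4) * δ ^ 2)) ^ K * D0 *
        (((2 ^ M : ℕ) : ℝ) ^ K) ^ (1 - t.re) * Real.exp (6 * κ * (C9 * δ ^ 2 * M) * K))
      = 2 * π * (E ^ 2 * Real.exp 2) * D0 *
        ((((2 ^ M : ℕ) : ℝ) ^ ((1 / 4 + ε / 4) * δ ^ 2)) ^ K *
        (((2 ^ M : ℕ) : ℝ) ^ K) ^ (1 - t.re) * Real.exp (6 * κ * (C9 * δ ^ 2 * M) * K)) := by ring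
    _ ≤ 2 * π * (E ^ 2 * Real.exp 2) * D0 * (((2 ^ M : ℕ) : ℝ) ^ K) ^ b :=
        mul_le_mul_of_nonneg_left hKK (by (clear * - hE1 hD00; positivity))

end Pool.Agent.Helper26.G4
end

/- Helper24.K6w.H26.G5.Heights5 -/
section
/-!
# G5-HEIGHTS: all heights, and the exponent

Copy of `Pool.Agent.Helper26.G4.heights4` with `τ = (t + 2 θ) / (1 + θ)`,
`θ = C' |t|²`: `e0 |t| ≤ re t` gives `e0 |τ| ≤ re τ` (as `e0 ≤ 1`). `param5` with `ε' = c₀ / 16`,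
`G = N^(((1 - c₀) / 4 + ε') |τ|²)`, another `ε' |τ|²` for `exp (6 κ c' K)`, and
`((1 - c₀) / 4 + c₀ / 8) |τ|² ≤ (1/4 - c) |t|²`, `c = c₀ / 16`, for small `|t|`.
-/

set_option autoImplicit false

namespace Pool.Agent.Helper26.G5

open MeasureTheory Set
open scoped Real
open Pool.Agent.Helper90.G2 (Bx Wn Fn ar ch Cen chi)
open Pool.Agent.Helper26.G4 (vt Br Lb wd al rr w0 Bad cn vk lv KN Sa Sc mm KK C9 Sg)

/-- the bound at the heights `2 N^(-K)`, `N = 2^M` -/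
theorem heights5_K {e g κ δ a w : ℝ} (hκ : 6 * κ * (C9 / Real.log 2) ≤ e)
    (ht : (g + e) * δ ^ 2 ≤ w) (M K : ℕ) :
    (((2 ^ M : ℕ) : ℝ) ^ (g * δ ^ 2)) ^ K *
        (((2 ^ M : ℕ) : ℝ) ^ K) ^ (1 - a) * Real.exp (6 * κ * (C9 * δ ^ 2 * M) * K) ≤
      (((2 ^ M : ℕ) : ℝ) ^ K) ^ (1 - a + w) := by
  have hx : (0:ℝ) < ((2 ^ M : ℕ) : ℝ) ^ K := by (clear * -; positivity)
  have hx1 : (1:ℝ) ≤ ((2 ^ M : ℕ) : ℝ) ^ K := by
    push_cast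
    exact one_le_pow₀ (one_le_pow₀ one_le_two)
  have hG : (((2 ^ M : ℕ) : ℝ) ^ (g * δ ^ 2)) ^ K =
      (((2 ^ M : ℕ) : ℝ) ^ K) ^ (g * δ ^ 2) := by
    rw [← Real.rpow_natCast, ← Real.rpow_mul (by (clear * -; positivity)), mul_comm,
      Real.rpow_mul (by positivity), Real.rpow_natCast]
  rw [hG]
  have he := Pool.Agent.Helper26.G4.heightsB_exp (ε := 4 * e) (κ := κ) (δ := δ) (by linarith only [hκ]) M K
  have e4 : 4 * e / 4 * δ ^ 2 = e * δ ^ 2 := by ring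
  rw [e4] at he
  calc (((2 ^ M : ℕ) : ℝ) ^ K) ^ (g * δ ^ 2) *
        (((2 ^ M : ℕ) : ℝ) ^ K) ^ (1 - a) * Real.exp (6 * κ * (C9 * δ ^ 2 * M) * K)
      ≤ (((2 ^ M : ℕ) : ℝ) ^ K) ^ (g * δ ^ 2) *
        (((2 ^ M : ℕ) : ℝ) ^ K) ^ (1 - a) *
          (((2 ^ M : ℕ) : ℝ) ^ K) ^ (e * δ ^ 2) :=
        mul_le_mul_of_nonneg_left he (by (clear * -; positivity))
    _ = (((2 ^ M : ℕ) : ℝ) ^ K) ^ (g * δ ^ 2 + (1 - a) + e * δ ^ 2) := by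
        rw [Real.rpow_add hx, Real.rpow_add hx]
    _ ≤ (((2 ^ M : ℕ) : ℝ) ^ K) ^ (1 - a + w) := by
        apply Real.rpow_le_rpow_of_exponent_le hx1
        (clear * - ht; linarith only [ht])

theorem heights5 {e0 : ℝ} (he : 0 < e0) :
    ∃ c δ₀ : ℝ, 0 < c ∧ c ≤ 1 / 8 ∧ 0 < δ₀ ∧ δ₀ ≤ 1 / 4 ∧ ∀ t : ℂ, t ≠ 0 → ‖t‖ < δ₀ →
      e0 * ‖t‖ ≤ t.re → ∃ C : ℝ, 0 ≤ C ∧
      ∀ ψ h : ℂ → ℂ, Sg ψ h → ∀ y : ℝ, 0 < y → y ≤ 1 →
        ∫ ξ in (0:ℝ)..(2 * π), ‖Complex.exp ((2 - t) * h (Complex.exp ⟨y, ξ⟩))‖ ≤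
          C * y ^ (-(1 - t.re + (1 / 4 - c) * ‖t‖ ^ 2)) := by
  obtain ⟨C0, hC0, hsig⟩ := Pool.Agent.Helper26.G4.sig4
  obtain ⟨Ca, hCa, hyex⟩ := y_ex5
  obtain ⟨κt, bt, c₀, B, Cc, m₁, ⟨hbt, hbt1, hc0, hc01, hB, hCc, hm₁⟩, htk⟩ := tk_pos he
  obtain ⟨κ, hκ, hκ1, hκ2, εp, hεp, hεp1, M, hM, hκM, hMκ, Cθ, δw, hCθ, hδw, hδw1, hw⟩ :=
    param5 (ε' := c₀ / 16) hCa (by (clear * - hc0; positivity)) hbt hbt1 hc0 hc01 hB hCc hm₁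
  have hC9 : (0:ℝ) < C9 := by
    unfold C9
    norm_num
  obtain ⟨C', hC'⟩ : ∃ C' : ℝ, C' = 4 * Cθ + 1 := ⟨_, rfl⟩
  have hC'0 : 0 < C' := by
    rw [hC']
    (clear * - hCθ; positivity)
  obtain ⟨s₀, hs₀⟩ : ∃ s₀ : ℝ, s₀ = c₀ / 12 := ⟨_, rfl⟩
  have hs0 : 0 < s₀ := by
    rw [hs₀]
    (clear * - hc0; positivity)
  have hs1 : s₀ ≤ 1 / 3 := by
    rw [hs₀]
    (clear * - hc01; linarith only [hc01])
  have hMC : 0 < 3 * (C9 * M + 1) := by (clear * - hC9 hM; positivity)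
  refine ⟨c₀ / 16, min (1 / 4) (min (δw / 2) (min (s₀ / (4 * C')) (2 / (3 * (C9 * M + 1))))),
    by (clear * - hc0; positivity), by (clear * - hc01; linarith), ?_, min_le_left _ _, ?_⟩
  · exact lt_min (by norm_num) (lt_min (by (clear * - hδw; positivity)) (lt_min (by (clear * - hs0 hC'0; positivity)) (by (clear * - hC9 hM; positivity))))
  intro t ht0 ht' hte
  rw [lt_min_iff, lt_min_iff, lt_min_iff] at ht'
  obtain ⟨ht1, ht2, ht3, ht4⟩ := ht'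
  have hs : 0 < ‖t‖ := norm_pos_iff.mpr ht0
  obtain ⟨s, hsd⟩ : ∃ s : ℝ, s = ‖t‖ := ⟨_, rfl⟩
  rw [← hsd] at hs ht1 ht2 ht3 ht4
  rw [lt_div_iff₀ (by (clear * - hC'0; positivity))] at ht3
  rw [lt_div_iff₀ hMC] at ht4
  -- `θ`, `τ`
  obtain ⟨θ, hθ⟩ : ∃ θ : ℝ, θ = C' * s ^ 2 := ⟨_, rfl⟩
  have hθ0 : 0 < θ := by
    rw [hθ]
    (clear * - hC'0 hs; positivity)
  have hCs : C' * s ≤ 1 / 12 := by (clear * - hc01 hεp hεp1 hs₀ ht3; linarith only [hc01, hs₀, ht3])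
  have hCs0 : 0 < C' * s := by (clear * - hC'0 hs; positivity)
  have hθs : θ = (C' * s) * s := by
    rw [hθ]
    ring
  have hθ12 : θ ≤ s / 12 := by
    rw [hθs]
    (clear * - hθ hc01 hs hθ0 hδw hs₀ ht2 hs0 ht3; nlinarith only [hc01, hs₀, ht3, hs])
  have hθ1 : θ ≤ 1 := by (clear * - hεp hεp1 hδw1 ht2 hθ12; linarith only [hδw1, ht2, hθ12])
  obtain ⟨τ, hτ⟩ : ∃ τ : ℂ, τ = (t + 2 * θ) / (1 + θ) := ⟨_, rfl⟩
  have h1θ : (1 + (θ : ℂ)) ≠ 0 := by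
    have h : (1 + (θ : ℂ)) = ((1 + θ : ℝ) : ℂ) := by push_cast; rfl
    rw [h, Complex.ofReal_ne_zero]
    (clear * - hθ0; linarith)
  have hm : (2 - τ) * (1 + θ) = 2 - t := by
    rw [hτ, sub_mul, div_mul_cancel₀ _ h1θ]
    ring
  have hτm : τ * ((1 + θ : ℝ) : ℂ) = t + ((2 * θ : ℝ) : ℂ) := by
    rw [hτ]
    push_cast
    rw [div_mul_cancel₀ _ h1θ]
  have hτn : ‖τ‖ * (1 + θ) = ‖t + ((2 * θ : ℝ) : ℂ)‖ := by
    rw [← hτm, norm_mul, Complex.norm_real, Real.norm_eq_abs, abs_of_pos (by (clear * - hθ0; linarith) : 0 < 1 + θ)]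
  have h2θ : ‖((2 * θ : ℝ) : ℂ)‖ = 2 * θ := by
    rw [Complex.norm_real, Real.norm_eq_abs, abs_of_pos (by (clear * - hθ0; linarith))]
  have hup : ‖τ‖ * (1 + θ) ≤ s + 2 * θ := by
    rw [hτn]
    refine (norm_add_le _ _).trans ?_
    rw [h2θ, hsd]
  have hlow : s - 2 * θ ≤ ‖τ‖ * (1 + θ) := by
    rw [hτn]
    have h := norm_sub_le (t + ((2 * θ : ℝ) : ℂ)) ((2 * θ : ℝ) : ℂ)
    rw [add_sub_cancel_right, h2θ, ← hsd] at h
    (clear * - h; linarith)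
  obtain ⟨δ, hδ⟩ : ∃ δ : ℝ, δ = ‖τ‖ := ⟨_, rfl⟩
  rw [← hδ] at hup hlow
  have hδn : 0 ≤ δ := by rw [hδ]; exact norm_nonneg _
  have hδup : δ ≤ s + 2 * θ := by
    have : δ ≤ δ * (1 + θ) := le_mul_of_one_le_right hδn (by (clear * - hθ0; linarith))
    (clear * - hup this; linarith)
  have hδlow : s / 2 ≤ δ := by
    by_contra hcon
    push Not at hcon
    have h1 : δ * (1 + θ) ≤ (s / 2) * (1 + θ) := mul_le_mul_of_nonneg_right hcon.le (by (clear * - hθ0; linarith))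
    (clear * - hθ12 hlow h1 hc01 hθ0 hCθ hs hδw hC' ht2 hs₀ hs0 ht3; nlinarith only [hc01, hCθ, hC', hs₀, ht3, hθ0, hθ12, hlow, h1])
  have hδ0 : 0 < δ := by (clear * - hθ0 hθ12 hδlow; linarith)
  have hδ2 : δ ≤ 2 * s := by (clear * - hθ0 hθ12 hδup; linarith)
  have hδw2 : δ < δw := by (clear * - ht2 hθ0 hθ12 hδup; linarith)
  have hθδ : θ ≤ δ := by (clear * - hθ0 hθ12 hδlow; linarith)
  have hCθδ : Cθ * δ ^ 2 ≤ θ := by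
    have h1 : δ ^ 2 ≤ (2 * s) ^ 2 := pow_le_pow_left₀ hδn hδ2 2
    have h2 : Cθ * δ ^ 2 ≤ Cθ * (2 * s) ^ 2 := mul_le_mul_of_nonneg_left h1 hCθ
    have h3 : 0 ≤ s ^ 2 := sq_nonneg s
    rw [hθ, hC']
    (clear * - h2; nlinarith)
  obtain ⟨hSm, hGθ⟩ := hw δ hδ0 hδw2
  obtain ⟨hKKθ, hGle⟩ := hGθ θ hCθδ hθδ
  have hexp : ((1 - c₀) / 4 + c₀ / 16 + c₀ / 16) * δ ^ 2 ≤ (1 / 4 - c₀ / 16) * s ^ 2 := by
    have h0 : δ ≤ s * (1 + 2 * (C' * s)) := by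
      have e : s * (1 + 2 * (C' * s)) = s + 2 * θ := by
        rw [hθs]
        ring
      rw [e]
      exact hδup
    have h1 : (1 + 2 * (C' * s)) ^ 2 ≤ 1 + 3 * s₀ := by (clear * - hs₀ hθ hθ12 hc0 hεp1 hεp ht3 hCs0 hCθ hδw hC' ht2 hθ0; nlinarith only [ht3, hθ, hθ0, hθ12])
    have h2 : ((1 - c₀) / 4 + c₀ / 16 + c₀ / 16) * (1 + 3 * s₀) ≤ 1 / 4 - c₀ / 16 := by
      rw [hs₀]
      (clear * -; linarith only [sq_nonneg c₀])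
    have h4 : 0 ≤ (1 - c₀) / 4 + c₀ / 16 + c₀ / 16 := by (clear * - hc01; linarith)
    have h3 : δ ^ 2 ≤ (s * (1 + 2 * (C' * s))) ^ 2 := pow_le_pow_left₀ hδn h0 2
    calc ((1 - c₀) / 4 + c₀ / 16 + c₀ / 16) * δ ^ 2 ≤
          ((1 - c₀) / 4 + c₀ / 16 + c₀ / 16) * (s * (1 + 2 * (C' * s))) ^ 2 :=
          mul_le_mul_of_nonneg_left h3 h4
      _ = s ^ 2 * (((1 - c₀) / 4 + c₀ / 16 + c₀ / 16) * (1 + 2 * (C' * s)) ^ 2) := by ring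
      _ ≤ s ^ 2 * (((1 - c₀) / 4 + c₀ / 16 + c₀ / 16) * (1 + 3 * s₀)) :=
          mul_le_mul_of_nonneg_left (mul_le_mul_of_nonneg_left h1 h4) (sq_nonneg s)
      _ ≤ s ^ 2 * (1 / 4 - c₀ / 16) := mul_le_mul_of_nonneg_left h2 (sq_nonneg s)
      _ = (1 / 4 - c₀ / 16) * s ^ 2 := by ring
  have hc1 : 3 * κ * (C9 * δ ^ 2 * M) ≤ 1 / 2 := by
    have h1 : δ ^ 2 ≤ (2 * s) ^ 2 := pow_le_pow_left₀ hδn hδ2 2
    have h2 : C9 * δ ^ 2 * M ≤ C9 * (2 * s) ^ 2 * M := by (clear * - h1 hC9 hM; gcongr)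
    have h3 : 3 * κ * (C9 * δ ^ 2 * M) ≤ 3 * (1 / 4) * (C9 * (2 * s) ^ 2 * M) := by (clear * - hκ1 h2 hC9 hδ0 hM; gcongr)
    have h4 : s * (C9 * M) ≤ 2 / 3 := by
      have h5 : s * (3 * (C9 * M + 1)) = 3 * (s * (C9 * M)) + 3 * s := by ring
      rw [h5] at ht4
      (clear * - ht4 hθ0 hθ12; linarith)
    have h6 : 0 ≤ s * (C9 * M) := by (clear * - hs hC9 hM; positivity)
    calc 3 * κ * (C9 * δ ^ 2 * M) ≤ 3 * (1 / 4) * (C9 * (2 * s) ^ 2 * M) := h3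
      _ = 3 * s * (s * (C9 * M)) := by ring
      _ ≤ 3 * (1 / 4) * (2 / 3) := by (clear * - ht1 h4 hs hC9 hM; gcongr)
      _ = 1 / 2 := by norm_num
  -- the template
  have hdir : Tk κt (τ / ‖τ‖) bt c₀ B Cc m₁ := by
    have hτ0 : 0 < ‖τ‖ := by rw [← hδ]; exact hδ0
    apply htk
    · rw [norm_div, Complex.norm_real, norm_norm, div_self hτ0.ne']
    · rw [Complex.div_ofReal_re, le_div_iff₀ hτ0]
      have h1 : τ.re * (1 + θ) = t.re + 2 * θ := by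
        have h2 := congrArg Complex.re hτm
        rw [Complex.re_mul_ofReal, Complex.add_re, Complex.ofReal_re] at h2
        exact h2
      have h2 : e0 ≤ 1 := by
        have h3 : t.re ≤ ‖t‖ := Complex.re_le_norm t
        rw [← hsd] at hte h3
        by_contra hcon
        push Not at hcon
        have h4 : 1 * s < e0 * s := mul_lt_mul_of_pos_right hcon hs
        (clear * - hte h3 h4; linarith)
      have h3 : e0 * ‖τ‖ * (1 + θ) ≤ τ.re * (1 + θ) := by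
        rw [h1]
        have h4 : e0 * (‖τ‖ * (1 + θ)) ≤ e0 * (s + 2 * θ) := by
          apply mul_le_mul_of_nonneg_left _ he.le
          rw [← hδ]
          exact hup
        have h5 : e0 * (2 * θ) ≤ 1 * (2 * θ) := mul_le_mul_of_nonneg_right h2 (by (clear * - hθ0; linarith))
        rw [← hsd] at hte
        (clear * - hte h4 h5; linarith)
      exact le_of_mul_le_mul_right h3 (by (clear * - hθ0; linarith))
  -- the constants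
  obtain ⟨E, hE⟩ : ∃ E : ℝ, E = 2 * (KN (2 ^ M) * Real.exp (KN (2 ^ M))) := ⟨_, rfl⟩
  have hKN : 1 ≤ KN (2 ^ M) := by
    unfold KN
    exact Real.one_le_exp (by positivity)
  have hE1 : 1 ≤ E := by
    rw [hE]
    have : 1 ≤ Real.exp (KN (2 ^ M)) := Real.one_le_exp (by (clear * - hKN; linarith))
    (clear * - hKN this hc01 hs₀ ht3 hCs0; nlinarith only [hKN, this])
  obtain ⟨D0, hD0⟩ : ∃ D0 : ℝ, D0 = (1 + 2 * (C0 * Real.exp (C0 + 7))) ^ 2 := ⟨_, rfl⟩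
  have hD00 : 0 ≤ D0 := by
    rw [hD0]
    positivity
  obtain ⟨b, hb⟩ : ∃ b : ℝ, b = 1 - t.re + (1 / 4 - c₀ / 16) * s ^ 2 := ⟨_, rfl⟩
  have htn : ‖t‖ ≤ 1 / 4 := by rw [← hsd]; (clear * - hδw1 ht2 hθ0 hθ12; linarith only [hδw1, ht2])
  have hb0 : 0 ≤ b := by
    have h1 : t.re ≤ 1 / 4 := (le_abs_self _).trans ((Complex.abs_re_le_norm t).trans htn)
    have h2 : 0 ≤ (1 / 4 - c₀ / 16) * s ^ 2 := mul_nonneg (by (clear * - hc01; linarith)) (sq_nonneg s)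
    rw [hb]
    (clear * - h1 h2; linarith)
  have hN1 : 1 ≤ 2 ^ M := Nat.one_le_two_pow
  refine ⟨Real.exp (3 * (4 * 2 ^ M + 2)) * (2 * π * (E ^ 2 * Real.exp 2) * D0 * 2 ^ b),
    by (clear * - hE1 hD00; positivity), ?_⟩
  intro ψ h hS y hy hy1
  obtain ⟨-, Λ, hF, hΛ, hdiag, hLb⟩ := hsig ψ h hS
  rw [← hsd, ← hb]
  refine Pool.Agent.Helper26.G4.heightsB_core (A := C0) hF hΛ hS hdiag htn hM hb0 (by (clear * - hE1 hD00; positivity)) (fun K => ?_) hy hy1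
  have hint := Pool.Agent.Helper26.G4.heightsB_int (K := K) hS hm hθ1 htn (κ := κ)
    (c' := C9 * δ ^ 2 * M)
    (D := (((2 ^ M : ℕ) : ℝ) ^ (((1 - c₀) / 4 + c₀ / 16) * δ ^ 2)) ^ K * D0) (E := E) (N := 2 ^ M)
    hκ hκ1 (by (clear * - hC9 hδ0 hM; positivity)) hc1 hE1 hN1 hκM (by
      intro ξ hξ
      obtain ⟨yy, χ, hyy⟩ := hyex _ C0 Λ hF hΛ M hM bt c₀ B Cc m₁ κ εp τ hεp hbt hB hCc
        (by rw [← hδ]; exact hSm) ξ
      have hξ7 : |ξ| ≤ 7 := by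
        have hpi := Real.pi_lt_d2
        rw [abs_le]
        constructor
        · (clear * - hξ; linarith [hξ.1])
        · (clear * - hpi hξ; linarith [hξ.2])
      have hnode := node5 hF (by (clear * - hC0; linarith)) hΛ hM hdir hκ hκ1 hMκ hεp hεp1
        (by rw [← hδ]; exact hSm) (C := C0) (by (clear * - hC0; linarith)) hξ7 (fun u hu => hLb ξ u hu) hyy hθ1
        (by rw [← hδ]; exact hKKθ)
        (G := ((2 ^ M : ℕ) : ℝ) ^ (((1 - c₀) / 4 + c₀ / 16) * δ ^ 2))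
        (by rw [← hδ]; exact hGle) K
      rw [← hE, ← hD0, ← hδ] at hnode
      refine le_trans (le_of_eq ?_) hnode
      apply Finset.sum_congr rfl
      intro d _
      rw [hdiag _ (by
        show 0 < 2 * (1 / ((2 ^ M : ℕ) : ℝ) ^ K)
        positivity)])
  refine hint.trans ?_
  have hKK := heights5_K (a := t.re) hκ2 hexp M K
  rw [← hb] at hKK
  calc 2 * π * (E ^ 2 * Real.exp 2) * ((((2 ^ M : ℕ) : ℝ) ^ (((1 - c₀) / 4 + c₀ / 16) * δ ^ 2)) ^ K * D0 *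
        (((2 ^ M : ℕ) : ℝ) ^ K) ^ (1 - t.re) * Real.exp (6 * κ * (C9 * δ ^ 2 * M) * K))
      = 2 * π * (E ^ 2 * Real.exp 2) * D0 *
        ((((2 ^ M : ℕ) : ℝ) ^ (((1 - c₀) / 4 + c₀ / 16) * δ ^ 2)) ^ K *
        (((2 ^ M : ℕ) : ℝ) ^ K) ^ (1 - t.re) * Real.exp (6 * κ * (C9 * δ ^ 2 * M) * K)) := by ring
    _ ≤ 2 * π * (E ^ 2 * Real.exp 2) * D0 * (((2 ^ M : ℕ) : ℝ) ^ K) ^ b :=
        mul_le_mul_of_nonneg_left hKK (by (clear * - hE1 hD00; positivity))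

end Pool.Agent.Helper26.G5
end

/- Helper24.K6w.H12.G6.Heights6 -/
section
/-!
# All heights, with a constant proportional to the square of the real part of the direction

`heights6` is the proof of `Pool.Agent.Helper26.G5.heights5` with `tk6` in place of `tk_pos`.
-/

set_option autoImplicit false

namespace Pool.Agent.Helper12.G6

open MeasureTheory Set
open scoped Real
open Pool.Agent.Helper90.G2 (Bx Wn Fn ar ch Cen chi)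
open Pool.Agent.Helper26.G4 (vt Br Lb wd al rr w0 Bad cn vk lv KN Sa Sc mm KK C9 Sg)
open Pool.Agent.Helper26.G5

theorem heights6 : ∃ c : ℝ, 0 < c ∧ c ≤ 1 / 8 ∧ ∀ e0 : ℝ, 0 < e0 → e0 ≤ 1 →
    ∃ δ₀ : ℝ, 0 < δ₀ ∧ δ₀ ≤ 1 / 4 ∧ ∀ t : ℂ, t ≠ 0 → ‖t‖ < δ₀ →
      e0 * ‖t‖ ≤ t.re → ∃ C : ℝ, 0 ≤ C ∧
      ∀ ψ h : ℂ → ℂ, Sg ψ h → ∀ y : ℝ, 0 < y → y ≤ 1 →
        ∫ ξ in (0:ℝ)..(2 * π), ‖Complex.exp ((2 - t) * h (Complex.exp ⟨y, ξ⟩))‖ ≤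
          C * y ^ (-(1 - t.re + (1 / 4 - c * e0 ^ 2) * ‖t‖ ^ 2)) := by
  obtain ⟨C0, hC0, hsig⟩ := Pool.Agent.Helper26.G4.sig4
  obtain ⟨Ca, hCa, hyex⟩ := y_ex5
  obtain ⟨γ, hγ, hγ1, htk6⟩ := tk6
  refine ⟨γ / 16, by positivity, by linarith, ?_⟩
  intro e0 he he01
  obtain ⟨κt, bt, B, Cc, m₁, ⟨hbt, hbt1, hB, hCc, hm₁⟩, htk⟩ := htk6 e0 he he01
  have hγe : γ / 16 * e0 ^ 2 = γ * e0 ^ 2 / 16 := by ring
  rw [hγe]
  have hc0 : 0 < γ * e0 ^ 2 := by positivity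
  have hc01 : γ * e0 ^ 2 ≤ 1 / 2 := by
    have h1 : e0 ^ 2 ≤ 1 := pow_le_one₀ he.le he01
    have h2 := mul_le_mul hγ1 h1 (by positivity) (by norm_num)
    linarith
  generalize γ * e0 ^ 2 = c₀ at htk hc0 hc01 ⊢
  obtain ⟨κ, hκ, hκ1, hκ2, εp, hεp, hεp1, M, hM, hκM, hMκ, Cθ, δw, hCθ, hδw, hδw1, hw⟩ :=
    param5 (ε' := c₀ / 16) hCa (by positivity) hbt hbt1 hc0 hc01 hB hCc hm₁
  have hC9 : (0:ℝ) < C9 := by
    unfold C9
    norm_num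
  obtain ⟨C', hC'⟩ : ∃ C' : ℝ, C' = 4 * Cθ + 1 := ⟨_, rfl⟩
  have hC'0 : 0 < C' := by
    rw [hC']
    positivity
  obtain ⟨s₀, hs₀⟩ : ∃ s₀ : ℝ, s₀ = c₀ / 12 := ⟨_, rfl⟩
  have hs0 : 0 < s₀ := by
    rw [hs₀]
    positivity
  have hs1 : s₀ ≤ 1 / 3 := by
    rw [hs₀]
    linarith
  have hMC : 0 < 3 * (C9 * M + 1) := by positivity
  refine ⟨min (1 / 4) (min (δw / 2) (min (s₀ / (4 * C')) (2 / (3 * (C9 * M + 1))))),
    ?_, min_le_left _ _, ?_⟩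
  · exact lt_min (by norm_num) (lt_min (by positivity) (lt_min (by positivity) (by positivity)))
  intro t ht0 ht' hte
  rw [lt_min_iff, lt_min_iff, lt_min_iff] at ht'
  obtain ⟨ht1, ht2, ht3, ht4⟩ := ht'
  have hs : 0 < ‖t‖ := norm_pos_iff.mpr ht0
  obtain ⟨s, hsd⟩ : ∃ s : ℝ, s = ‖t‖ := ⟨_, rfl⟩
  rw [← hsd] at hs ht1 ht2 ht3 ht4
  rw [lt_div_iff₀ (by positivity)] at ht3
  rw [lt_div_iff₀ hMC] at ht4
  -- `θ`, `τ`
  obtain ⟨θ, hθ⟩ : ∃ θ : ℝ, θ = C' * s ^ 2 := ⟨_, rfl⟩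
  have hθ0 : 0 < θ := by
    rw [hθ]
    positivity
  have hCs : C' * s ≤ 1 / 12 := by linarith
  have hCs0 : 0 < C' * s := by positivity
  have hθs : θ = (C' * s) * s := by
    rw [hθ]
    ring
  have hθ12 : θ ≤ s / 12 := by
    rw [hθs]
    have := mul_le_mul_of_nonneg_right hCs hs.le
    linarith only [this]
  have hθ1 : θ ≤ 1 := by linarith
  obtain ⟨τ, hτ⟩ : ∃ τ : ℂ, τ = (t + 2 * θ) / (1 + θ) := ⟨_, rfl⟩
  have h1θ : (1 + (θ : ℂ)) ≠ 0 := by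
    have h : (1 + (θ : ℂ)) = ((1 + θ : ℝ) : ℂ) := by push_cast; rfl
    rw [h, Complex.ofReal_ne_zero]
    linarith
  have hm : (2 - τ) * (1 + θ) = 2 - t := by
    rw [hτ, sub_mul, div_mul_cancel₀ _ h1θ]
    ring
  have hτm : τ * ((1 + θ : ℝ) : ℂ) = t + ((2 * θ : ℝ) : ℂ) := by
    rw [hτ]
    push_cast
    rw [div_mul_cancel₀ _ h1θ]
  have hτn : ‖τ‖ * (1 + θ) = ‖t + ((2 * θ : ℝ) : ℂ)‖ := by
    rw [← hτm, norm_mul, Complex.norm_real, Real.norm_eq_abs, abs_of_pos (by linarith : 0 < 1 + θ)]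
  have h2θ : ‖((2 * θ : ℝ) : ℂ)‖ = 2 * θ := by
    rw [Complex.norm_real, Real.norm_eq_abs, abs_of_pos (by linarith)]
  have hup : ‖τ‖ * (1 + θ) ≤ s + 2 * θ := by
    rw [hτn]
    refine (norm_add_le _ _).trans ?_
    rw [h2θ, hsd]
  have hlow : s - 2 * θ ≤ ‖τ‖ * (1 + θ) := by
    rw [hτn]
    have h := norm_sub_le (t + ((2 * θ : ℝ) : ℂ)) ((2 * θ : ℝ) : ℂ)
    rw [add_sub_cancel_right, h2θ, ← hsd] at h
    linarith
  obtain ⟨δ, hδ⟩ : ∃ δ : ℝ, δ = ‖τ‖ := ⟨_, rfl⟩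
  rw [← hδ] at hup hlow
  have hδn : 0 ≤ δ := by rw [hδ]; exact norm_nonneg _
  have hδup : δ ≤ s + 2 * θ := by
    have : δ ≤ δ * (1 + θ) := le_mul_of_one_le_right hδn (by linarith)
    linarith
  have hδlow : s / 2 ≤ δ := by
    by_contra hcon
    push Not at hcon
    have h1 : δ * (1 + θ) ≤ (s / 2) * (1 + θ) := mul_le_mul_of_nonneg_right hcon.le (by linarith)
    have h2 : s * θ ≤ s * (1 / 12) := mul_le_mul_of_nonneg_left (by linarith only [hθ12, ht1]) hs.le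
    have h3 : s / 2 * (1 + θ) = s / 2 + s * θ / 2 := by ring
    linarith only [h1, h2, h3, hlow, hθ12, hs]
  have hδ0 : 0 < δ := by linarith
  have hδ2 : δ ≤ 2 * s := by linarith
  have hδw2 : δ < δw := by linarith
  have hθδ : θ ≤ δ := by linarith
  have hCθδ : Cθ * δ ^ 2 ≤ θ := by
    have h1 : δ ^ 2 ≤ (2 * s) ^ 2 := pow_le_pow_left₀ hδn hδ2 2
    have h2 : Cθ * δ ^ 2 ≤ Cθ * (2 * s) ^ 2 := mul_le_mul_of_nonneg_left h1 hCθ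
    have h3 : 0 ≤ s ^ 2 := sq_nonneg s
    have h4 : Cθ * (2 * s) ^ 2 = 4 * Cθ * s ^ 2 := by ring
    have h5 : (4 * Cθ + 1) * s ^ 2 = 4 * Cθ * s ^ 2 + s ^ 2 := by ring
    rw [hθ, hC']
    linarith only [h2, h3, h4, h5]
  obtain ⟨hSm, hGθ⟩ := hw δ hδ0 hδw2
  obtain ⟨hKKθ, hGle⟩ := hGθ θ hCθδ hθδ
  have hexp : ((1 - c₀) / 4 + c₀ / 16 + c₀ / 16) * δ ^ 2 ≤ (1 / 4 - c₀ / 16) * s ^ 2 := by
    have h0 : δ ≤ s * (1 + 2 * (C' * s)) := by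
      have e : s * (1 + 2 * (C' * s)) = s + 2 * θ := by
        rw [hθs]
        ring
      rw [e]
      exact hδup
    have h1 : (1 + 2 * (C' * s)) ^ 2 ≤ 1 + 3 * s₀ := by
      have e1 : (1 + 2 * (C' * s)) ^ 2 = 1 + 4 * (C' * s) + 4 * ((C' * s) * (C' * s)) := by ring
      have e2 : (C' * s) * (C' * s) ≤ (C' * s) * (1 / 12) := mul_le_mul_of_nonneg_left hCs hCs0.le
      have e3 : s * (4 * C') = 4 * (C' * s) := by ring
      rw [e1]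
      linarith only [e2, e3, ht3, hCs0, hs0]
    have h2 : ((1 - c₀) / 4 + c₀ / 16 + c₀ / 16) * (1 + 3 * s₀) ≤ 1 / 4 - c₀ / 16 := by
      have e : ((1 - c₀) / 4 + c₀ / 16 + c₀ / 16) * (1 + 3 * s₀) = 1 / 4 - c₀ / 16 - c₀ ^ 2 / 32 := by
        rw [hs₀]
        ring
      linarith only [e, sq_nonneg c₀]
    have h4 : 0 ≤ (1 - c₀) / 4 + c₀ / 16 + c₀ / 16 := by linarith
    have h3 : δ ^ 2 ≤ (s * (1 + 2 * (C' * s))) ^ 2 := pow_le_pow_left₀ hδn h0 2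
    calc ((1 - c₀) / 4 + c₀ / 16 + c₀ / 16) * δ ^ 2 ≤
          ((1 - c₀) / 4 + c₀ / 16 + c₀ / 16) * (s * (1 + 2 * (C' * s))) ^ 2 :=
          mul_le_mul_of_nonneg_left h3 h4
      _ = s ^ 2 * (((1 - c₀) / 4 + c₀ / 16 + c₀ / 16) * (1 + 2 * (C' * s)) ^ 2) := by ring
      _ ≤ s ^ 2 * (((1 - c₀) / 4 + c₀ / 16 + c₀ / 16) * (1 + 3 * s₀)) :=
          mul_le_mul_of_nonneg_left (mul_le_mul_of_nonneg_left h1 h4) (sq_nonneg s)
      _ ≤ s ^ 2 * (1 / 4 - c₀ / 16) := mul_le_mul_of_nonneg_left h2 (sq_nonneg s)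
      _ = (1 / 4 - c₀ / 16) * s ^ 2 := by ring
  have hc1 : 3 * κ * (C9 * δ ^ 2 * M) ≤ 1 / 2 := by
    have h1 : δ ^ 2 ≤ (2 * s) ^ 2 := pow_le_pow_left₀ hδn hδ2 2
    have h2 : C9 * δ ^ 2 * M ≤ C9 * (2 * s) ^ 2 * M := by gcongr
    have h3 : 3 * κ * (C9 * δ ^ 2 * M) ≤ 3 * (1 / 4) * (C9 * (2 * s) ^ 2 * M) := by gcongr
    have h4 : s * (C9 * M) ≤ 2 / 3 := by
      have h5 : s * (3 * (C9 * M + 1)) = 3 * (s * (C9 * M)) + 3 * s := by ring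
      rw [h5] at ht4
      linarith
    have h6 : 0 ≤ s * (C9 * M) := by positivity
    calc 3 * κ * (C9 * δ ^ 2 * M) ≤ 3 * (1 / 4) * (C9 * (2 * s) ^ 2 * M) := h3
      _ = 3 * s * (s * (C9 * M)) := by ring
      _ ≤ 3 * (1 / 4) * (2 / 3) := by gcongr
      _ = 1 / 2 := by norm_num
  -- the template
  have hdir : Tk κt (τ / ‖τ‖) bt c₀ B Cc m₁ := by
    have hτ0 : 0 < ‖τ‖ := by rw [← hδ]; exact hδ0
    apply htk
    · rw [norm_div, Complex.norm_real, norm_norm, div_self hτ0.ne']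
    · rw [Complex.div_ofReal_re, le_div_iff₀ hτ0]
      have h1 : τ.re * (1 + θ) = t.re + 2 * θ := by
        have h2 := congrArg Complex.re hτm
        rw [Complex.re_mul_ofReal, Complex.add_re, Complex.ofReal_re] at h2
        exact h2
      have h2 : e0 ≤ 1 := he01
      have h3 : e0 * ‖τ‖ * (1 + θ) ≤ τ.re * (1 + θ) := by
        rw [h1]
        have h4 : e0 * (‖τ‖ * (1 + θ)) ≤ e0 * (s + 2 * θ) := by
          apply mul_le_mul_of_nonneg_left _ he.le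
          rw [← hδ]
          exact hup
        have h5 : e0 * (2 * θ) ≤ 1 * (2 * θ) := mul_le_mul_of_nonneg_right h2 (by linarith)
        rw [← hsd] at hte
        linarith
      exact le_of_mul_le_mul_right h3 (by linarith)
  -- the constants
  obtain ⟨E, hE⟩ : ∃ E : ℝ, E = 2 * (KN (2 ^ M) * Real.exp (KN (2 ^ M))) := ⟨_, rfl⟩
  have hKN : 1 ≤ KN (2 ^ M) := by
    unfold KN
    exact Real.one_le_exp (by positivity)
  have hE1 : 1 ≤ E := by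
    rw [hE]
    have : 1 ≤ Real.exp (KN (2 ^ M)) := Real.one_le_exp (by linarith only [hKN])
    have h1 := mul_le_mul hKN this zero_le_one (by linarith only [hKN])
    linarith only [h1]
  obtain ⟨D0, hD0⟩ : ∃ D0 : ℝ, D0 = (1 + 2 * (C0 * Real.exp (C0 + 7))) ^ 2 := ⟨_, rfl⟩
  have hD00 : 0 ≤ D0 := by
    rw [hD0]
    positivity
  obtain ⟨b, hb⟩ : ∃ b : ℝ, b = 1 - t.re + (1 / 4 - c₀ / 16) * s ^ 2 := ⟨_, rfl⟩
  have htn : ‖t‖ ≤ 1 / 4 := by rw [← hsd]; linarith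
  have hb0 : 0 ≤ b := by
    have h1 : t.re ≤ 1 / 4 := (le_abs_self _).trans ((Complex.abs_re_le_norm t).trans htn)
    have h2 : 0 ≤ (1 / 4 - c₀ / 16) * s ^ 2 := mul_nonneg (by linarith) (sq_nonneg s)
    rw [hb]
    linarith
  have hN1 : 1 ≤ 2 ^ M := Nat.one_le_two_pow
  refine ⟨Real.exp (3 * (4 * 2 ^ M + 2)) * (2 * π * (E ^ 2 * Real.exp 2) * D0 * 2 ^ b),
    by positivity, ?_⟩
  intro ψ h hS y hy hy1
  obtain ⟨-, Λ, hF, hΛ, hdiag, hLb⟩ := hsig ψ h hS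
  rw [← hsd, ← hb]
  refine Pool.Agent.Helper26.G4.heightsB_core (A := C0) hF hΛ hS hdiag htn hM hb0 (by positivity) (fun K => ?_) hy hy1
  have hint := Pool.Agent.Helper26.G4.heightsB_int (K := K) hS hm hθ1 htn (κ := κ)
    (c' := C9 * δ ^ 2 * M)
    (D := (((2 ^ M : ℕ) : ℝ) ^ (((1 - c₀) / 4 + c₀ / 16) * δ ^ 2)) ^ K * D0) (E := E) (N := 2 ^ M)
    hκ hκ1 (by positivity) hc1 hE1 hN1 hκM (by
      intro ξ hξ
      obtain ⟨yy, χ, hyy⟩ := hyex _ C0 Λ hF hΛ M hM bt c₀ B Cc m₁ κ εp τ hεp hbt hB hCc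
        (by rw [← hδ]; exact hSm) ξ
      have hξ7 : |ξ| ≤ 7 := by
        have hpi := Real.pi_lt_d2
        rw [abs_le]
        constructor
        · linarith [hξ.1]
        · linarith [hξ.2]
      have hnode := node5 hF (by linarith) hΛ hM hdir hκ hκ1 hMκ hεp hεp1
        (by rw [← hδ]; exact hSm) (C := C0) (by linarith) hξ7 (fun u hu => hLb ξ u hu) hyy hθ1
        (by rw [← hδ]; exact hKKθ)
        (G := ((2 ^ M : ℕ) : ℝ) ^ (((1 - c₀) / 4 + c₀ / 16) * δ ^ 2))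
        (by rw [← hδ]; exact hGle) K
      rw [← hE, ← hD0, ← hδ] at hnode
      refine le_trans (le_of_eq ?_) hnode
      apply Finset.sum_congr rfl
      intro d _
      rw [hdiag _ (by
        show 0 < 2 * (1 / ((2 ^ M : ℕ) : ℝ) ^ K)
        positivity)])
  refine hint.trans ?_
  have hKK := heights5_K (a := t.re) hκ2 hexp M K
  rw [← hb] at hKK
  calc 2 * π * (E ^ 2 * Real.exp 2) * ((((2 ^ M : ℕ) : ℝ) ^ (((1 - c₀) / 4 + c₀ / 16) * δ ^ 2)) ^ K * D0 *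
        (((2 ^ M : ℕ) : ℝ) ^ K) ^ (1 - t.re) * Real.exp (6 * κ * (C9 * δ ^ 2 * M) * K))
      = 2 * π * (E ^ 2 * Real.exp 2) * D0 *
        ((((2 ^ M : ℕ) : ℝ) ^ (((1 - c₀) / 4 + c₀ / 16) * δ ^ 2)) ^ K *
        (((2 ^ M : ℕ) : ℝ) ^ K) ^ (1 - t.re) * Real.exp (6 * κ * (C9 * δ ^ 2 * M) * K)) := by ring
    _ ≤ 2 * π * (E ^ 2 * Real.exp 2) * D0 * (((2 ^ M : ℕ) : ℝ) ^ K) ^ b :=
        mul_le_mul_of_nonneg_left hKK (by positivity)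

end Pool.Agent.Helper12.G6
end

/- Helper24.K6w.H26.G4.MainB -/
section
/-!
# G4-MAINB: the theorem

`R ≤ e`: `y = log R`, `Pool.Agent.Helper90.G2.Main_small`, `Main_point`. `R > e`: `|h| ≤ C` (`sig4`), the integrand is
at most `e^(3 C)` and `R² / (R² - 1) ≥ 1`, exponent `≥ 0`.
-/

set_option autoImplicit false

namespace Pool.Agent.Helper26.G4

open MeasureTheory Set
open scoped Real
open Pool.Agent.Helper90.G2 (Bx Wn Fn ar ch Cen chi)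

/-- the integrand for large radii -/
theorem mainB_far {τ w : ℂ} {C : ℝ} (hτ : ‖τ‖ ≤ 1) (_hC : 0 ≤ C) (hw : ‖w‖ ≤ C) :
    ‖Complex.exp ((2 - τ) * w)‖ ≤ Real.exp (3 * C) := by
  rw [Complex.norm_exp]
  apply Real.exp_le_exp.mpr
  have h1 : ‖(2 : ℂ) - τ‖ ≤ 3 := by
    calc ‖(2 : ℂ) - τ‖ ≤ ‖(2 : ℂ)‖ + ‖τ‖ := norm_sub_le _ _
      _ ≤ 2 + 1 := by
          have : ‖(2 : ℂ)‖ = 2 := by simp
          linarith
      _ = 3 := by norm_num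
  calc ((2 - τ) * w).re ≤ ‖(2 - τ) * w‖ := Complex.re_le_norm _
    _ = ‖(2 : ℂ) - τ‖ * ‖w‖ := norm_mul _ _
    _ ≤ 3 * C := mul_le_mul h1 hw (norm_nonneg _) (by norm_num)

theorem main4 : ∀ ε : ℝ, 0 < ε → ∃ δ₀ : ℝ, 0 < δ₀ ∧ ∀ τ : ℂ, τ ≠ 0 → ‖τ‖ < δ₀ → ∃ C : ℝ,
    ∀ ψ h : ℂ → ℂ, Sg ψ h → ∀ R : ℝ, 1 < R →
      (1 / (2 * π)) * ∫ θ in (0:ℝ)..(2 * π),
        ‖Complex.exp ((2 - τ) * h ((R : ℂ) * Complex.exp ((θ : ℂ) * Complex.I)))‖ ≤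
      C * (R ^ 2 / (R ^ 2 - 1)) ^ (1 - τ.re + (1 / 4 + ε) * ‖τ‖ ^ 2) := by
  intro ε hε
  obtain ⟨δ₀, hδ₀, hδ₁, hh⟩ := heights4 hε
  obtain ⟨C₁, hC₁, hs⟩ := sig4
  refine ⟨δ₀, hδ₀, ?_⟩
  intro τ hτ0 hτ
  obtain ⟨C, hC, hh⟩ := hh τ hτ0 hτ
  obtain ⟨β, hβ⟩ : ∃ β : ℝ, β = 1 - τ.re + (1 / 4 + ε) * ‖τ‖ ^ 2 := ⟨_, rfl⟩
  have hβ0 : 0 ≤ β := by
    have h1 : τ.re ≤ ‖τ‖ := Complex.re_le_norm τ
    have h2 : 0 ≤ (1 / 4 + ε) * ‖τ‖ ^ 2 := by positivity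
    rw [hβ]
    linarith
  rw [← hβ] at hh ⊢
  have hπ : 0 < π := Real.pi_pos
  refine ⟨(1 / (2 * π)) * (C * 2 ^ β) + Real.exp (3 * C₁), ?_⟩
  intro ψ h hψ R hR
  have hR0 : 0 < R := by linarith only [hR]
  have hR1 : 0 < R ^ 2 - 1 := by nlinarith only [hR]
  have hlog : 0 < Real.log R := Real.log_pos hR
  have hX0 : 0 ≤ (R ^ 2 / (R ^ 2 - 1)) ^ β := by positivity
  have hX1 : 1 ≤ (R ^ 2 / (R ^ 2 - 1)) ^ β := by
    apply Real.one_le_rpow _ hβ0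
    rw [one_le_div hR1]
    linarith only []
  rcases le_or_gt R (Real.exp 1) with hRe | hRe
  · have hlog1 : Real.log R ≤ 1 := by
      rw [← Real.log_exp 1]
      exact Real.log_le_log hR0 hRe
    have h1 := hh ψ h hψ (Real.log R) hlog hlog1
    have h2 : ∫ θ in (0:ℝ)..(2 * π),
        ‖Complex.exp ((2 - τ) * h ((R : ℂ) * Complex.exp ((θ : ℂ) * Complex.I)))‖ =
        ∫ ξ in (0:ℝ)..(2 * π), ‖Complex.exp ((2 - τ) * h (Complex.exp ⟨Real.log R, ξ⟩))‖ := by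
      apply intervalIntegral.integral_congr
      intro θ _
      simp only []
      rw [Pool.Agent.Helper90.G2.Main_point hR]
    have h5 := Pool.Agent.Helper90.G2.Main_small hR hβ0
    rw [h2]
    calc (1 / (2 * π)) * ∫ ξ in (0:ℝ)..(2 * π),
          ‖Complex.exp ((2 - τ) * h (Complex.exp ⟨Real.log R, ξ⟩))‖
        ≤ (1 / (2 * π)) * (C * Real.log R ^ (-β)) := by gcongr
      _ ≤ (1 / (2 * π)) * (C * (2 ^ β * (R ^ 2 / (R ^ 2 - 1)) ^ β)) := by gcongr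
      _ = (1 / (2 * π)) * (C * 2 ^ β) * (R ^ 2 / (R ^ 2 - 1)) ^ β := by ring
      _ ≤ ((1 / (2 * π)) * (C * 2 ^ β) + Real.exp (3 * C₁)) * (R ^ 2 / (R ^ 2 - 1)) ^ β := by
        apply mul_le_mul_of_nonneg_right _ hX0
        have := Real.exp_pos (3 * C₁)
        linarith only [this]
  · have h2 : ‖∫ θ in (0:ℝ)..(2 * π),
        ‖Complex.exp ((2 - τ) * h ((R : ℂ) * Complex.exp ((θ : ℂ) * Complex.I)))‖‖ ≤
        Real.exp (3 * C₁) * |2 * π - 0| := by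
      apply intervalIntegral.norm_integral_le_of_norm_le_const
      intro θ _
      rw [norm_norm]
      apply mainB_far (by linarith only [hδ₁, hτ]) (by linarith only [hC₁])
      apply (hs ψ h hψ).1
      rw [Pool.Agent.Helper90.G2.Main_norm hR]
      exact hRe.le
    rw [sub_zero, abs_of_pos (by positivity)] at h2
    have h3 := (le_abs_self _).trans ((Real.norm_eq_abs _).symm.le.trans h2)
    have h0 : 0 ≤ (1 / (2 * π)) * (C * 2 ^ β) := by positivity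
    calc (1 / (2 * π)) * ∫ θ in (0:ℝ)..(2 * π),
          ‖Complex.exp ((2 - τ) * h ((R : ℂ) * Complex.exp ((θ : ℂ) * Complex.I)))‖
        ≤ (1 / (2 * π)) * (Real.exp (3 * C₁) * (2 * π)) := by gcongr
      _ = Real.exp (3 * C₁) := by field_simp
      _ ≤ Real.exp (3 * C₁) * (R ^ 2 / (R ^ 2 - 1)) ^ β :=
        le_mul_of_one_le_right (Real.exp_pos _).le hX1
      _ ≤ ((1 / (2 * π)) * (C * 2 ^ β) + Real.exp (3 * C₁)) * (R ^ 2 / (R ^ 2 - 1)) ^ β := by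
        apply mul_le_mul_of_nonneg_right _ hX0
        linarith only [h0]

end Pool.Agent.Helper26.G4
end

/- Helper24.K6w.H26.G5.Main5 -/
section
/-!
# G5-MAIN: the theorem

`main5_dir`: copy of `Pool.Agent.Helper26.G4.main4` from `heights5`. `main5`: `main4` and `main5_dir`.
-/

set_option autoImplicit false

namespace Pool.Agent.Helper26.G5

open MeasureTheory Set
open scoped Real
open Pool.Agent.Helper90.G2 (Bx Wn Fn ar ch Cen chi)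
open Pool.Agent.Helper26.G4 (vt Br Lb wd al rr w0 Bad cn vk lv KN Sa Sc mm KK C9 Sg)

/-- from small heights to all radii, one `τ`, any exponent -/
theorem main5_core {τ : ℂ} {β : ℝ} (hτ : ‖τ‖ ≤ 1) (hβ0 : 0 ≤ β)
    (hh : ∃ C : ℝ, 0 ≤ C ∧ ∀ ψ h : ℂ → ℂ, Sg ψ h → ∀ y : ℝ, 0 < y → y ≤ 1 →
      ∫ ξ in (0:ℝ)..(2 * π), ‖Complex.exp ((2 - τ) * h (Complex.exp ⟨y, ξ⟩))‖ ≤ C * y ^ (-β)) :
    ∃ C : ℝ, ∀ ψ h : ℂ → ℂ, Sg ψ h → ∀ R : ℝ, 1 < R →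
      (1 / (2 * π)) * ∫ θ in (0:ℝ)..(2 * π),
        ‖Complex.exp ((2 - τ) * h ((R : ℂ) * Complex.exp ((θ : ℂ) * Complex.I)))‖ ≤
      C * (R ^ 2 / (R ^ 2 - 1)) ^ β := by
  obtain ⟨C, hC, hh⟩ := hh
  obtain ⟨C₁, hC₁, hs⟩ := Pool.Agent.Helper26.G4.sig4
  have hπ : 0 < π := Real.pi_pos
  refine ⟨(1 / (2 * π)) * (C * 2 ^ β) + Real.exp (3 * C₁), ?_⟩
  intro ψ h hψ R hR
  have hR0 : 0 < R := by linarith only [hR]
  have hR1 : 0 < R ^ 2 - 1 := by nlinarith only [hR]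
  have hlog : 0 < Real.log R := Real.log_pos hR
  have hX0 : 0 ≤ (R ^ 2 / (R ^ 2 - 1)) ^ β := by (clear * - hR hR1; positivity)
  have hX1 : 1 ≤ (R ^ 2 / (R ^ 2 - 1)) ^ β := by
    apply Real.one_le_rpow _ hβ0
    rw [one_le_div hR1]
    (clear * -; linarith)
  rcases le_or_gt R (Real.exp 1) with hRe | hRe
  · have hlog1 : Real.log R ≤ 1 := by
      rw [← Real.log_exp 1]
      exact Real.log_le_log hR0 hRe
    have h1 := hh ψ h hψ (Real.log R) hlog hlog1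
    have h2 : ∫ θ in (0:ℝ)..(2 * π),
        ‖Complex.exp ((2 - τ) * h ((R : ℂ) * Complex.exp ((θ : ℂ) * Complex.I)))‖ =
        ∫ ξ in (0:ℝ)..(2 * π), ‖Complex.exp ((2 - τ) * h (Complex.exp ⟨Real.log R, ξ⟩))‖ := by
      apply intervalIntegral.integral_congr
      intro θ _
      simp only []
      rw [Pool.Agent.Helper90.G2.Main_point hR]
    have h5 := Pool.Agent.Helper90.G2.Main_small hR hβ0
    rw [h2]
    calc (1 / (2 * π)) * ∫ ξ in (0:ℝ)..(2 * π),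
          ‖Complex.exp ((2 - τ) * h (Complex.exp ⟨Real.log R, ξ⟩))‖
        ≤ (1 / (2 * π)) * (C * Real.log R ^ (-β)) := by (clear * - h1; gcongr)
      _ ≤ (1 / (2 * π)) * (C * (2 ^ β * (R ^ 2 / (R ^ 2 - 1)) ^ β)) := by (clear * - h5 hC; gcongr)
      _ = (1 / (2 * π)) * (C * 2 ^ β) * (R ^ 2 / (R ^ 2 - 1)) ^ β := by ring
      _ ≤ ((1 / (2 * π)) * (C * 2 ^ β) + Real.exp (3 * C₁)) * (R ^ 2 / (R ^ 2 - 1)) ^ β := by
        apply mul_le_mul_of_nonneg_right _ hX0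
        have := Real.exp_pos (3 * C₁)
        linarith only [this]
  · have h2 : ‖∫ θ in (0:ℝ)..(2 * π),
        ‖Complex.exp ((2 - τ) * h ((R : ℂ) * Complex.exp ((θ : ℂ) * Complex.I)))‖‖ ≤
        Real.exp (3 * C₁) * |2 * π - 0| := by
      apply intervalIntegral.norm_integral_le_of_norm_le_const
      intro θ _
      rw [norm_norm]
      apply Pool.Agent.Helper26.G4.mainB_far hτ (by linarith only [hC₁])
      apply (hs ψ h hψ).1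
      rw [Pool.Agent.Helper90.G2.Main_norm hR]
      exact hRe.le
    rw [sub_zero, abs_of_pos (by positivity)] at h2
    have h3 := (le_abs_self _).trans ((Real.norm_eq_abs _).symm.le.trans h2)
    have h0 : 0 ≤ (1 / (2 * π)) * (C * 2 ^ β) := by (clear * - hC; positivity)
    calc (1 / (2 * π)) * ∫ θ in (0:ℝ)..(2 * π),
          ‖Complex.exp ((2 - τ) * h ((R : ℂ) * Complex.exp ((θ : ℂ) * Complex.I)))‖
        ≤ (1 / (2 * π)) * (Real.exp (3 * C₁) * (2 * π)) := by (clear * - h3; gcongr)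
      _ = Real.exp (3 * C₁) := by field_simp
      _ ≤ Real.exp (3 * C₁) * (R ^ 2 / (R ^ 2 - 1)) ^ β :=
        le_mul_of_one_le_right (Real.exp_pos _).le hX1
      _ ≤ ((1 / (2 * π)) * (C * 2 ^ β) + Real.exp (3 * C₁)) * (R ^ 2 / (R ^ 2 - 1)) ^ β := by
        apply mul_le_mul_of_nonneg_right _ hX0
        linarith only [h0]

theorem main5_dir {e0 : ℝ} (he : 0 < e0) : ∃ c δ₀ : ℝ, 0 < c ∧ c ≤ 1 / 8 ∧ 0 < δ₀ ∧
    ∀ τ : ℂ, τ ≠ 0 → ‖τ‖ < δ₀ → e0 * ‖τ‖ ≤ τ.re → ∃ C : ℝ,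
    ∀ ψ h : ℂ → ℂ, Sg ψ h → ∀ R : ℝ, 1 < R →
      (1 / (2 * π)) * ∫ θ in (0:ℝ)..(2 * π),
        ‖Complex.exp ((2 - τ) * h ((R : ℂ) * Complex.exp ((θ : ℂ) * Complex.I)))‖ ≤
      C * (R ^ 2 / (R ^ 2 - 1)) ^ (1 - τ.re + (1 / 4 - c) * ‖τ‖ ^ 2) := by
  obtain ⟨c, δ₀, hc, hc8, hδ₀, hδ₁, hh⟩ := heights5 he
  refine ⟨c, δ₀, hc, hc8, hδ₀, ?_⟩
  intro τ hτ0 hτ hdir
  apply main5_core (by (clear * - hδ₁ hτ; linarith only [hδ₁, hτ])) _ (hh τ hτ0 hτ hdir)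
  have h1 : τ.re ≤ ‖τ‖ := Complex.re_le_norm τ
  have h2 : 0 ≤ (1 / 4 - c) * ‖τ‖ ^ 2 := mul_nonneg (by (clear * - hc8; linarith only [hc8])) (by positivity)
  linarith only [hδ₁, hτ, h1, h2]

open Classical in
theorem main5 : ∀ ε : ℝ, 0 < ε → ∃ c δ₀ : ℝ, 0 < c ∧ 0 < δ₀ ∧
    ∀ τ : ℂ, τ ≠ 0 → ‖τ‖ < δ₀ → ∃ C : ℝ, ∀ ψ h : ℂ → ℂ, Sg ψ h → ∀ R : ℝ, 1 < R →
      (1 / (2 * π)) * ∫ θ in (0:ℝ)..(2 * π),
        ‖Complex.exp ((2 - τ) * h ((R : ℂ) * Complex.exp ((θ : ℂ) * Complex.I)))‖ ≤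
      C * (R ^ 2 / (R ^ 2 - 1)) ^ (1 - τ.re +
        (if ε * ‖τ‖ ≤ τ.re then 1 / 4 - c else 1 / 4 + ε) * ‖τ‖ ^ 2) := by
  intro ε hε
  obtain ⟨c, δ₁, hc, _, hδ₁, h1⟩ := main5_dir hε
  obtain ⟨δ₂, hδ₂, h2⟩ := Pool.Agent.Helper26.G4.main4 ε hε
  refine ⟨c, min δ₁ δ₂, hc, lt_min hδ₁ hδ₂, ?_⟩
  intro τ hτ0 hτ
  by_cases hd : ε * ‖τ‖ ≤ τ.re
  · rw [if_pos hd]
    exact h1 τ hτ0 (lt_of_lt_of_le hτ (min_le_left _ _)) hd
  · rw [if_neg hd]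
    exact h2 τ hτ0 (lt_of_lt_of_le hτ (min_le_right _ _))

end Pool.Agent.Helper26.G5
end

/- Helper24.K6w.H12.G6.Main6 -/
section
/-!
# The strict bound in the right half plane, with a uniform constant
-/

set_option autoImplicit false

namespace Pool.Agent.Helper12.G6

open MeasureTheory Set
open scoped Real
open Pool.Agent.Helper26.G4 (Sg)

theorem main6 : ∃ c : ℝ, 0 < c ∧ c ≤ 1 / 8 ∧ ∀ e : ℝ, 0 < e → e ≤ 1 → ∃ δ₀ : ℝ, 0 < δ₀ ∧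
    ∀ τ : ℂ, τ ≠ 0 → ‖τ‖ < δ₀ → e * ‖τ‖ ≤ τ.re → ∃ C : ℝ,
    ∀ ψ h : ℂ → ℂ, Sg ψ h → ∀ R : ℝ, 1 < R →
      (1 / (2 * π)) * ∫ θ in (0:ℝ)..(2 * π),
        ‖Complex.exp ((2 - τ) * h ((R : ℂ) * Complex.exp ((θ : ℂ) * Complex.I)))‖ ≤
      C * (R ^ 2 / (R ^ 2 - 1)) ^ (1 - τ.re + (1 / 4 - c * e ^ 2) * ‖τ‖ ^ 2) := by
  obtain ⟨c, hc, hc8, hh⟩ := heights6
  refine ⟨c, hc, hc8, ?_⟩
  intro e he he1
  obtain ⟨δ₀, hδ₀, hδ₁, hh⟩ := hh e he he1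
  refine ⟨δ₀, hδ₀, ?_⟩
  intro τ hτ0 hτ hdir
  apply Pool.Agent.Helper26.G5.main5_core (by (clear * - hδ₁ hτ; linarith only [hδ₁, hτ])) _ (hh τ hτ0 hτ hdir)
  have h1 : τ.re ≤ ‖τ‖ := Complex.re_le_norm τ
  have h3 : c * e ^ 2 ≤ 1 / 8 := by
    have h4 : e ^ 2 ≤ 1 := pow_le_one₀ he.le he1
    have h5 := mul_le_mul hc8 h4 (by positivity) (by norm_num)
    (clear * - h5; linarith only [h5])
  have h2 : 0 ≤ (1 / 4 - c * e ^ 2) * ‖τ‖ ^ 2 := mul_nonneg (by linarith only [h3]) (by positivity)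
  linarith

end Pool.Agent.Helper12.G6
end
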